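import Mathlib

set_option autoImplicit false

namespace Pool.Agent.H10.Admissible

def T : Finset (ℤ × ℤ) :=
  {(0, 5), (0, 7), (1, 3), (1, 8), (2, 6), (2, 7), (3, 3), (3, 5), (4, 0), (4, 8), (5, 0), (5, 1),
    (6, 1), (6, 6)}

def e (p : ℤ × ℤ) : ℝ × ℝ := ((p.1 : ℝ), (p.2 : ℝ))

lemma e_inj : Function.Injective e := by
  intro p q h
  simp only [e, Prod.mk.injEq, Int.cast_inj] at h
  exact Prod.ext h.1 h.2

def S : Set (ℝ × ℝ) := e '' (T : Set (ℤ × ℤ))

lemma S_card : S.ncard = 14 := by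
  unfold S
  rw [Set.ncard_image_of_injective _ e_inj, Set.ncard_coe_finset]
  decide +kernel

lemma line (f : ℤ × ℤ → ℤ) (g : ℝ × ℝ → ℝ) (hfg : ∀ p, g (e p) = f p)
    (hT : ∀ p ∈ T, (T.filter (fun q => f q = f p)).card = 2) (c : ℝ) :
    (S ∩ {p | g p = c}).ncard = 0 ∨ (S ∩ {p | g p = c}).ncard = 2 := by
  rcases (S ∩ {p | g p = c}).eq_empty_or_nonempty with h | ⟨x, ⟨p, hp, rfl⟩, hx⟩
  · left; rw [h]; simp
  · right
    have hc : (f p : ℝ) = c := by rw [← hfg]; exact hx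
    have : S ∩ {p | g p = c} = e '' ((T.filter (fun q => f q = f p) : Finset (ℤ × ℤ)) : Set _) := by
      ext y
      constructor
      · rintro ⟨⟨q, hq, rfl⟩, hy⟩
        refine ⟨q, ?_, rfl⟩
        have : (f q : ℝ) = f p := by rw [← hfg, hc]; exact hy
        simpa using ⟨hq, by exact_mod_cast this⟩
      · rintro ⟨q, hq, rfl⟩
        simp only [Finset.coe_filter, Set.mem_setOf_eq] at hq
        refine ⟨⟨q, hq.1, rfl⟩, ?_⟩
        show g (e q) = c
        rw [hfg, hq.2, hc]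
    rw [this, Set.ncard_image_of_injective _ e_inj, Set.ncard_coe_finset]
    exact hT p hp

end Pool.Agent.H10.Admissible
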