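import Pool.Agent.H10.AdsDefs

namespace Pool.Agent.H10.Ads
open Finset

theorem sdr {W β : Type} [Fintype W] [DecidableEq β] (A : W → Finset β) (h1 : ∀ w, (A w).Nonempty)
    (h2 : ∀ w w', w ≠ w' → Fintype.card W ≤ (A w ∪ A w').card) :
    ∃ φ : W → β, Function.Injective φ ∧ ∀ w, φ w ∈ A w := by
  classical
  refine (Finset.all_card_le_biUnion_card_iff_exists_injective A).1 (fun s => ?_)
  by_cases h : 1 < s.card
  · obtain ⟨a, ha, b, hb, hab⟩ := one_lt_card.1 h
    refine (card_le_univ s).trans ((h2 a b hab).trans (card_le_card ?_))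
    exact union_subset (subset_biUnion_of_mem A ha) (subset_biUnion_of_mem A hb)
  · rcases s.eq_empty_or_nonempty with rfl | ⟨a, ha⟩
    · simp
    · have := card_pos.2 ((h1 a).mono (subset_biUnion_of_mem A ha))
      omega

theorem badClique {r : ℕ} (hr : 2 ≤ r) (j : ℕ) : ∃ (U : Type) (_ : Fintype U) (_ : DecidableEq U)
    (f : Finset U → ℕ), r ≤ Fintype.card U ∧
    ∀ φ : U → ℕ, (∀ u, φ u < j) → ∃ e : Finset U, e.card = r ∧ ∀ u ∈ e, φ u = f e := by
  induction j with
  | zero => exact ⟨Fin r, inferInstance, inferInstance, fun _ => 0, by simp,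
      fun φ h => absurd (h ⟨0, by omega⟩) (by omega)⟩
  | succ j ih =>
    obtain ⟨U, i1, i2, f, h1, h2⟩ := ih
    refine ⟨Fin r × U, inferInstance, inferInstance,
      fun e => if (e.image Prod.fst).card = r then j else f (e.image Prod.snd), ?_, fun φ hφ => ?_⟩
    · rw [Fintype.card_prod, Fintype.card_fin]; nlinarith
    by_cases h : ∀ b, ∃ u, φ (b, u) = j
    · choose g hg using h
      have e1 : ((univ.image (fun b => (b, g b))).image Prod.fst).card = r := by
        rw [image_image]; simp [Function.comp_def]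
      refine ⟨univ.image (fun b => (b, g b)), ?_, fun u hu => ?_⟩
      · rw [card_image_of_injective _ (fun a b h => congrArg Prod.fst h)]; simp
      · obtain ⟨b, -, rfl⟩ := mem_image.1 hu
        simp only [if_pos e1, hg]
    · push Not at h
      obtain ⟨b, hb⟩ := h
      obtain ⟨e, e1, e2⟩ := h2 (fun u => φ (b, u)) (fun u => by
        have := hφ (b, u); have := hb u; omega)
      refine ⟨e.image (fun u => (b, u)), ?_, fun u hu => ?_⟩
      · rw [card_image_of_injective _ (fun a b h => congrArg Prod.snd h), e1]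
      · obtain ⟨u, hu', rfl⟩ := mem_image.1 hu
        have : ¬ ((e.image (fun u => (b, u))).image Prod.fst).card = r := by
          have : (e.image (fun u => (b, u))).image Prod.fst ⊆ {b} := by
            intro x hx; simp at hx; simp [hx.2]
          have := card_le_card this
          rw [card_singleton] at this; omega
        simp only [if_neg this]
        rw [e2 u hu', image_image]; simp [Function.comp_def]

abbrev VV (m g K : ℕ) (U : Type) := (Fin m × Fin g) ⊕ ((Fin m → Fin K) × U)

def Ed {m g K : ℕ} {U : Type} (r : ℕ) (e : Finset (VV m g K U)) : Prop :=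
  e.card = r ∧ ((∃ a y, Sum.inr y ∈ e ∧ ∀ v ∈ e, v = Sum.inr y ∨ ∃ i, v = Sum.inl (a, i)) ∨
    ∃ c, ∀ v ∈ e, ∃ u, v = Sum.inr (c, u))

open Classical in
noncomputable def EE (m g K : ℕ) (U : Type) [Fintype U] (r : ℕ) : Finset (Finset (VV m g K U)) :=
  univ.filter (Ed r)

theorem mem_EE {m g K r : ℕ} {U : Type} [Fintype U] {e : Finset (VV m g K U)} :
    e ∈ EE m g K U r ↔ Ed r e := by simp [EE]

variable {m K r : ℕ} {U : Type} [Fintype U] [DecidableEq U]

theorem ed1 {g : ℕ} (a : Fin m) (y : (Fin m → Fin K) × U) (S : Finset (Fin g)) :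
    Ed (S.card + 1) (insert (Sum.inr y) (S.image (fun i => (Sum.inl (a, i) : VV m g K U)))) := by
  refine ⟨?_, Or.inl ⟨a, y, mem_insert_self _ _, fun v hv => ?_⟩⟩
  · rw [card_insert_of_notMem (by simp), card_image_of_injective _ (fun a b h => by simpa using h)]
  · rcases mem_insert.1 hv with h | h
    · exact Or.inl h
    · obtain ⟨i, -, rfl⟩ := mem_image.1 h; exact Or.inr ⟨i, rfl⟩

theorem ed2 {g : ℕ} (c : Fin m → Fin K) (S : Finset U) :
    Ed S.card (S.image (fun u => (Sum.inr (c, u) : VV m g K U))) := by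
  refine ⟨card_image_of_injective _ (fun a b h => by simpa using h), Or.inr ⟨c, fun v hv => ?_⟩⟩
  obtain ⟨i, -, rfl⟩ := mem_image.1 hv; exact ⟨i, rfl⟩

theorem sep_le (hr : 2 ≤ r) (hU : r ≤ Fintype.card U) (hm : Fintype.card U ≤ m) (hK : 0 < K)
    (hK' : K ≤ 2 * m) : chSep (EE m ((r - 2) * K + 1) K U r) ≤ m + 1 := by
  refine Nat.sInf_le (fun L hL hs => ?_)
  have hun : ∀ e, Ed r e → ∀ u ∈ e, ∀ v ∈ e, u ≠ v → 2 * m + 1 ≤ (L u ∪ L v).card := by
    intro e he u hu v hv huv
    have := hs e (mem_EE.2 he) u hu v hv huv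
    have := card_union_add_card_inter (L u) (L v)
    have := hL u; have := hL v; omega
  have hne : ∀ v, (L v).Nonempty := fun v => card_pos.1 (by have := hL v; omega)
  obtain ⟨ψ, H, h1, h2, h3⟩ : ∃ (ψ : Fin m × Fin ((r - 2) * K + 1) → ℕ) (H : Finset ℕ),
      (∀ x, ψ x ∈ L (Sum.inl x)) ∧ H.card ≤ m ∧
      ∀ a col, r - 1 ≤ (univ.filter (fun i => ψ (a, i) = col)).card → col ∈ H := by
    rcases Nat.eq_or_lt_of_le hr with h | h
    · subst h
      choose ψ hψ using hne
      refine ⟨fun x => ψ (Sum.inl x), univ.image (fun x => ψ (Sum.inl x)), fun x => hψ _,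
        card_image_le.trans (by simp), fun a col h => ?_⟩
      obtain ⟨i, hi⟩ := card_pos.1 (show 0 < _ from h)
      exact mem_image.2 ⟨_, mem_univ _, (mem_filter.1 hi).2⟩
    · have : ∀ a : Fin m, ∃ φ : Fin ((r - 2) * K + 1) → ℕ × ℕ, Function.Injective φ ∧
          ∀ i, φ i ∈ L (Sum.inl (a, i)) ×ˢ range (r - 2) := by
        intro a
        refine sdr _ (fun i => (hne _).product ⟨0, mem_range.2 (by omega)⟩) (fun i i' hi => ?_)
        obtain ⟨S, s1, -, s3⟩ := exists_subsuperset_card_eq (s := {i, i'}) (t := univ) (n := r - 1)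
          (subset_univ _) (card_le_two.trans (by omega)) (by
            simp only [card_univ, Fintype.card_fin]
            have := Nat.le_mul_of_pos_right (r - 2) hK; omega)
        obtain ⟨u⟩ : Nonempty U := Fintype.card_pos_iff.1 (by omega)
        have he := ed1 (U := U) a (fun _ => ⟨0, hK⟩, u) S
        rw [s3, show r - 1 + 1 = r by omega] at he
        have := hun _ he (Sum.inl (a, i)) (by simp [s1 (mem_insert_self _ _)]) (Sum.inl (a, i'))
          (by simp [s1 (show i' ∈ _ by simp)]) (by simpa using hi)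
        rw [← union_product, card_product, card_range, Fintype.card_fin]
        have h' : 1 ≤ r - 2 := by omega
        nlinarith
      choose φ p1 p2 using this
      refine ⟨fun x => (φ x.1 x.2).1, ∅, fun x => (mem_product.1 (p2 _ _)).1, by simp,
        fun a col hc => ?_⟩
      have := card_le_card_of_injOn (s := univ.filter (fun i => (φ a i).1 = col)) (t := range (r - 2))
        (fun i => (φ a i).2) (fun i _ => (mem_product.1 (p2 a i)).2) (fun i hi i' hi' e =>
          p1 a (Prod.ext ((mem_filter.1 hi).2.trans (mem_filter.1 hi').2.symm) e))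
      rw [card_range] at this
      simp only at hc
      omega
  have : ∀ c : Fin m → Fin K, ∃ χ : U → ℕ, Function.Injective χ ∧
      ∀ u, χ u ∈ L (Sum.inr (c, u)) \ H := by
    intro c
    refine sdr _ (fun u => card_pos.1 ?_) (fun u u' hu => ?_)
    · have := le_card_sdiff H (L (Sum.inr (c, u))); have := hL (Sum.inr (c, u)); omega
    · obtain ⟨S, s1, -, s3⟩ := exists_subsuperset_card_eq (s := {u, u'}) (t := univ) (n := r)
        (subset_univ _) (card_le_two.trans hr) hU
      have he := ed2 (g := (r - 2) * K + 1) c S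
      rw [s3] at he
      have := hun _ he (Sum.inr (c, u)) (by simp [s1 (mem_insert_self _ _)]) (Sum.inr (c, u'))
        (by simp [s1 (show u' ∈ _ by simp)]) (by simpa using hu)
      rw [← union_sdiff_distrib]
      have := le_card_sdiff H (L (Sum.inr (c, u)) ∪ L (Sum.inr (c, u')))
      omega
  choose χ q1 q2 using this
  refine ⟨Sum.elim ψ (fun y => χ y.1 y.2), ?_, ?_⟩
  · rintro (x | y)
    · exact h1 x
    · exact (mem_sdiff.1 (q2 _ _)).1
  · rintro e he ⟨col, hc⟩
    obtain ⟨e1, ⟨a, y, hy, e2⟩ | ⟨c, e2⟩⟩ := mem_EE.1 he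
    · refine (mem_sdiff.1 (q2 y.1 y.2)).2 ?_
      rw [show χ y.1 y.2 = col from hc _ hy]
      refine h3 a col ?_
      refine le_trans (by rw [card_erase_of_mem hy, e1] : r - 1 ≤ (e.erase (Sum.inr y)).card) ?_
      refine (card_le_card (fun v hv => ?_)).trans
        (card_image_le (f := fun i => (Sum.inl (a, i) : VV m _ K U)))
      obtain ⟨v1, v2⟩ := mem_erase.1 hv
      obtain ⟨i, rfl⟩ := (e2 v v2).resolve_left v1
      exact mem_image.2 ⟨i, mem_filter.2 ⟨mem_univ _, hc _ v2⟩, rfl⟩
    · obtain ⟨u, hu, v, hv, huv⟩ := one_lt_card.1 (show 1 < e.card by omega)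
      obtain ⟨u, rfl⟩ := e2 u hu
      obtain ⟨v, rfl⟩ := e2 v hv
      exact huv (by rw [show u = v from q1 c ((hc _ hu).trans (hc _ hv).symm)])

theorem ad_ge {j : ℕ} (hr : 2 ≤ r) (hK : K = m + j) (f0 : Finset U → ℕ)
    (h0 : ∀ φ : U → ℕ, (∀ u, φ u < j) → ∃ e : Finset U, e.card = r ∧ ∀ u ∈ e, φ u = f0 e) :
    K + 1 ≤ chAd (EE m ((r - 2) * K + 1) K U r) := by
  classical
  refine le_csInf ⟨Fintype.card (VV m ((r - 2) * K + 1) K U) + 1, fun L hL f => ?_⟩
    (fun k hk => ?_)
  · obtain ⟨φ, p1, p2⟩ := sdr L (fun v => card_pos.1 (by have := hL v; omega)) (fun v w _ => by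
      have := hL v
      have := card_le_card (subset_union_left (s₁ := L v) (s₂ := L w)); omega)
    refine ⟨φ, p2, fun e he hc => ?_⟩
    obtain ⟨u, hu, v, hv, huv⟩ := one_lt_card.1 (show 1 < e.card by have := (mem_EE.1 he).1; omega)
    exact huv (p1 ((hc _ hu).trans (hc _ hv).symm))
  by_contra hlt
  obtain ⟨φ, p1, p2⟩ := hk (Sum.elim (fun x => Ico (x.1 * K) (x.1 * K + K))
    (fun y => univ.image (fun a : Fin m => a * K + y.1 a) ∪ Ico (m * K) (m * K + j))) (by
      rintro (x | y)
      · simp; omega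
      · simp only [Sum.elim_inr]
        rw [card_union_of_disjoint, card_image_of_injective]
        · simp; omega
        · intro a b h
          have ha := (y.1 a).2
          have hb := (y.1 b).2
          simp only at h
          apply Fin.ext
          rcases lt_trichotomy (a : ℕ) b with l | l | l
          · nlinarith
          · exact l
          · nlinarith
        · rw [disjoint_left]
          intro x hx hx'
          obtain ⟨a, -, rfl⟩ := mem_image.1 hx
          have := (mem_Ico.1 hx').1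
          nlinarith [a.2, (y.1 a).2])
    (fun e => if h : ∃ p : (Fin m × Fin ((r - 2) * K + 1)) × ((Fin m → Fin K) × U),
        Sum.inl p.1 ∈ e ∧ Sum.inr p.2 ∈ e then h.choose.1.1 * K + h.choose.2.1 h.choose.1.1
      else m * K + f0 (e.toRight.image Prod.snd))
  have : ∀ a : Fin m, ∃ col : Fin K, ∃ S : Finset (Fin ((r - 2) * K + 1)), S.card = r - 1 ∧
      ∀ i ∈ S, φ (Sum.inl (a, i)) = a * K + col := by
    intro a
    have hb : ∀ i, a * K ≤ φ (Sum.inl (a, i)) ∧ φ (Sum.inl (a, i)) < a * K + K :=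
      fun i => mem_Ico.1 (p1 (Sum.inl (a, i)))
    obtain ⟨col, c1, c2⟩ := exists_lt_card_fiber_of_mul_lt_card_of_maps_to (s := univ) (t := range K)
      (f := fun i => φ (Sum.inl (a, i)) - a * K) (n := r - 2)
      (fun i _ => mem_range.2 (by have := hb i; omega)) (by simp [mul_comm])
    obtain ⟨S, s1, s2⟩ := exists_subset_card_eq (show r - 1 ≤ _ from le_trans (by omega) c2)
    refine ⟨⟨col, mem_range.1 c1⟩, S, s2, fun i hi => ?_⟩
    have := (mem_filter.1 (s1 hi)).2
    have := hb i
    simp only at *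
    omega
  choose c S s1 s2 using this
  by_cases h : ∃ u a, φ (Sum.inr (c, u)) = (a : Fin m) * K + c a
  · obtain ⟨u, a, h⟩ := h
    have he := ed1 a (c, u) (S a)
    rw [s1, show r - 1 + 1 = r by omega] at he
    refine p2 _ (mem_EE.2 he) (fun v hv => ?_)
    obtain ⟨i, hi⟩ := card_pos.1 (show 0 < (S a).card by rw [s1]; omega)
    have hex : ∃ p : (Fin m × Fin ((r - 2) * K + 1)) × ((Fin m → Fin K) × U),
        Sum.inl p.1 ∈ insert (Sum.inr (c, u)) ((S a).image (fun i => (Sum.inl (a, i) : VV m _ K U))) ∧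
        Sum.inr p.2 ∈ insert (Sum.inr (c, u)) ((S a).image (fun i => (Sum.inl (a, i) : VV m _ K U))) :=
      ⟨((a, i), (c, u)), by simp [hi], by simp⟩
    rw [dif_pos hex]
    obtain ⟨x1, x2⟩ := hex.choose_spec
    generalize hex.choose = p at x1 x2
    simp at x1 x2
    obtain ⟨i', -, x1⟩ := x1
    rw [x2, ← x1]
    rcases mem_insert.1 hv with rfl | hv
    · exact h
    · obtain ⟨i, hi, rfl⟩ := mem_image.1 hv
      exact s2 a i hi
  · push Not at h
    have hb : ∀ u, m * K ≤ φ (Sum.inr (c, u)) ∧ φ (Sum.inr (c, u)) < m * K + j := by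
      intro u
      rcases mem_union.1 (p1 (Sum.inr (c, u))) with h' | h'
      · obtain ⟨a, -, h'⟩ := mem_image.1 h'
        exact absurd h'.symm (h u a)
      · exact mem_Ico.1 h'
    obtain ⟨e, e1, e2⟩ := h0 (fun u => φ (Sum.inr (c, u)) - m * K) (fun u => by
      have := hb u; omega)
    have he := ed2 (g := (r - 2) * K + 1) c e
    rw [e1] at he
    refine p2 _ (mem_EE.2 he) (fun v hv => ?_)
    rw [dif_neg (by simp)]
    obtain ⟨u, hu, rfl⟩ := mem_image.1 hv
    have : (e.image (fun u => (Sum.inr (c, u) : VV m ((r - 2) * K + 1) K U))).toRight.image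
        Prod.snd = e := by
      ext x; simp
    rw [this, ← e2 u hu]
    have := hb u
    omega

theorem main (r k : ℕ) (hr : 2 ≤ r) : ∃ (V : Type) (_ : Fintype V) (_ : DecidableEq V)
    (E : Finset (Finset V)), (∀ e ∈ E, e.card = r) ∧ chSep E + k ≤ chAd E := by
  obtain ⟨U, i1, i2, f, h1, h2⟩ := badClique hr k
  refine ⟨VV (Fintype.card U + k) ((r - 2) * (Fintype.card U + k + k) + 1) (Fintype.card U + k + k) U,
    inferInstance, inferInstance, EE _ _ _ U r, fun e he => (mem_EE.1 he).1, ?_⟩
  have a := sep_le (U := U) (m := Fintype.card U + k) (K := Fintype.card U + k + k) hr h1 (by omega)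
    (by omega) (by omega)
  have b := ad_ge (U := U) (m := Fintype.card U + k) (K := Fintype.card U + k + k) hr rfl f h2
  omega

end Pool.Agent.H10.Ads
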