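import Mathlib

namespace Pool.Agent.H10.Ads

variable {V : Type} [DecidableEq V]

/-- Separation choice number of the hypergraph with edge set `E`. -/
noncomputable def chSep (E : Finset (Finset V)) : ℕ :=
  sInf {k | ∀ L : V → Finset ℕ, (∀ v, k ≤ (L v).card) →
    (∀ e ∈ E, ∀ u ∈ e, ∀ v ∈ e, u ≠ v → (L u ∩ L v).card ≤ 1) →
    ∃ φ : V → ℕ, (∀ v, φ v ∈ L v) ∧ ∀ e ∈ E, ¬ ∃ a, ∀ v ∈ e, φ v = a}

/-- Adaptable choice number of the hypergraph with edge set `E`. -/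
noncomputable def chAd (E : Finset (Finset V)) : ℕ :=
  sInf {k | ∀ L : V → Finset ℕ, (∀ v, k ≤ (L v).card) → ∀ f : Finset V → ℕ,
    ∃ φ : V → ℕ, (∀ v, φ v ∈ L v) ∧ ∀ e ∈ E, ¬ ∀ v ∈ e, φ v = f e}

end Pool.Agent.H10.Ads
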