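import Mathlib

set_option autoImplicit false

namespace Pool.Agent.H10.Anl

/-- closed unit discs centred at the points of `P` cover the plane -/
def Covers (P : Set ℂ) : Prop := ∀ x : ℂ, ∃ p ∈ P, dist x p ≤ 1

/-- the distance graph `G_c(P)` -/
def G (c : ℝ) (P : Set ℂ) : SimpleGraph P where
  Adj p q := p ≠ q ∧ dist p q < c
  symm := ⟨fun p q h => ⟨h.1.symm, dist_comm p q ▸ h.2⟩⟩
  loopless := ⟨fun _ h => h.1 rfl⟩

/-- `k`-edge-connected -/
def KEC {V : Type} (k : ℕ) (H : SimpleGraph V) : Prop :=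
  H.Connected ∧ ∀ F : Finset (Sym2 V), F.card < k → (H.deleteEdges F).Connected

/-- `G_c(P)` is `k`-edge-connected for every covering arrangement -/
def Good (k : ℕ) (c : ℝ) : Prop := ∀ P : Set ℂ, Covers P → KEC k (G c P)

/-- the open annulus `1 < |x| < t` is covered by `j` closed unit discs -/
def Ann (j : ℕ) (t : ℝ) : Prop :=
  ∃ z : Fin j → ℂ, ∀ x : ℂ, 1 < ‖x‖ → ‖x‖ < t → ∃ i, dist x (z i) ≤ 1

end Pool.Agent.H10.Anl
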