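import Mathlib
import Pool.Agent.H10.AnlDefs

set_option autoImplicit false

namespace Pool.Agent.H10.Anl
open Set Metric Complex
open scoped RealInnerProductSpace

lemma ends {V : Type} (F : Finset (Sym2 V)) (A : Set V) (v : V) :
    ∃ T : Finset V, T.card ≤ F.card ∧ ∀ a ∈ A, ∀ b ∉ A, s(a, b) ∈ F → b ∈ T := by
  classical
  refine ⟨F.image fun e => if h : ∃ b ∉ A, b ∈ e then h.choose else v, Finset.card_image_le,
    fun a ha b hb h => Finset.mem_image.2 ⟨_, h, ?_⟩⟩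
  have e : ∃ x ∉ A, x ∈ s(a, b) := ⟨b, hb, by simp⟩
  rw [dif_pos e]
  exact (Sym2.mem_iff.1 e.choose_spec.2).resolve_left fun r => e.choose_spec.1 (by rwa [r])

lemma bdd_case {c : ℝ} {j : ℕ} {A B : Set ℂ} (hA : Bornology.IsBounded A) (ne : A.Nonempty)
    (T : Finset ℂ) (hT : T.card ≤ j) (h : ∀ a ∈ A, ∀ b ∈ B, dist a b < c → b ∈ T)
    (cov : Covers (A ∪ B)) : Ann j (c - 1) := by
  have cv := (convex_convexHull ℝ A).closure
  have sb : A ⊆ closure (convexHull ℝ A) := (subset_convexHull ..).trans subset_closure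
  choose q q1 q2 using exists_norm_eq_iInf_of_complete_convex (ne.mono sb)
    isClosed_closure.isComplete cv
  replace q2 := fun u => (norm_eq_iInf_iff_real_inner_le_zero cv (q1 u)).1 (q2 u)
  refine ⟨fun i => T.toList.getD i 0 - q (T.toList.getD i 0), fun y y1 y2 => ?_⟩
  obtain ⟨a, a1, a2⟩ := hA.isCompact_closure.exists_isMaxOn ne.closure
    (f := fun w => ⟪y, w⟫) (by fun_prop)
  have a3 : closure (convexHull ℝ A) ⊆ {w | ⟪y, w⟫ ≤ ⟪y, a⟫} :=
    closure_minimal (convexHull_min (fun w e => a2 (subset_closure e))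
      (convex_halfSpace_le (innerₗ ℂ y).isLinear _)) (isClosed_le (by fun_prop) (by fun_prop))
  have key : ∀ u v : ℂ, 0 ≤ ⟪u, v⟫ → ‖u‖ ≤ ‖u + v‖ := fun u v e =>
    abs_le_of_sq_le_sq' (by rw [norm_add_sq_real]; nlinarith [sq_nonneg ‖v‖]) (norm_nonneg _) |>.2
  obtain ⟨p, hp | hp, d⟩ := cov (a + y)
  · have := key y (a - p) (by rw [inner_sub_right]; exact sub_nonneg.2 (a3 (sb hp)))
    rw [dist_eq_norm, show a + y - p = y + (a - p) by ring] at d
    linarith
  obtain ⟨b, b1, b2⟩ := Metric.mem_closure_iff.1 a1 (c - 1 - ‖y‖) (by linarith)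
  have := h b b1 p hp (by
    have := dist_triangle4 b a (a + y) p
    rw [dist_comm b a, dist_self_add_right] at this
    linarith)
  obtain ⟨i, i1, i2⟩ := List.mem_iff_getElem.1 (Finset.mem_toList.2 this)
  refine ⟨⟨i, i1.trans_le (by simpa)⟩, ?_⟩
  have := key (y - (p - q p)) (a - q p) (by
    rw [inner_sub_left, inner_sub_right y]
    linarith [q2 p a (closure_mono (subset_convexHull ..) a1), show ⟪y, q p⟫ ≤ ⟪y, a⟫ from a3 (q1 p)])
  rw [dist_eq_norm, show a + y - p = y - (p - q p) + (a - q p) by ring] at d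
  simp only [List.getD_eq_getElem _ _ i1, i2, dist_eq_norm]
  linarith

lemma one_bdd {c : ℝ} (hc : 2 < c) {A B : Set ℂ} (T : Finset ℂ)
    (h : ∀ a ∈ A, ∀ b ∈ B, dist a b < c → b ∈ T) (cov : Covers (A ∪ B)) :
    Bornology.IsBounded A ∨ Bornology.IsBounded B := by
  obtain ⟨R, R0, hR⟩ := T.finite_toSet.isBounded.subset_closedBall_lt 0 0
  have pc : IsPreconnected {x : ℂ | R + c < ‖x‖} := by
    have : {x : ℂ | R + c < ‖x‖} = (fun p : ℝ × ℝ => p.1 * exp (p.2 * I)) '' (Ioi (R + c) ×ˢ univ) := by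
      ext x
      refine ⟨fun e => ⟨(‖x‖, arg x), ⟨e, trivial⟩, norm_mul_exp_arg_mul_I x⟩, ?_⟩
      rintro ⟨⟨r, t⟩, ⟨e, -⟩, rfl⟩
      simpa [norm_exp_ofReal_mul_I] using lt_of_lt_of_le e (le_abs_self r)
    exact this ▸ (isPreconnected_Ioi.prod isPreconnected_univ).image _ (by fun_prop)
  have sub : ∀ X : Set ℂ, ¬ Bornology.IsBounded X →
      ({x : ℂ | R + c < ‖x‖} ∩ thickening (c / 2) X).Nonempty := fun X e => by
    by_contra r
    exact e ((isBounded_closedBall (x := (0 : ℂ)) (r := R + c)).subset fun x hx => by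
      simpa using fun a => r ⟨x, a, self_subset_thickening (by linarith) _ hx⟩)
  by_contra! r
  obtain ⟨x, x1, x2, x3⟩ := pc _ _ isOpen_thickening isOpen_thickening (fun x _ => by
    obtain ⟨p, hp, d⟩ := cov x
    exact hp.imp (fun e => mem_thickening_iff.2 ⟨p, e, by linarith⟩)
      fun e => mem_thickening_iff.2 ⟨p, e, by linarith⟩) (sub A r.1) (sub B r.2)
  obtain ⟨a, a1, a2⟩ := mem_thickening_iff.1 x2
  obtain ⟨b, b1, b2⟩ := mem_thickening_iff.1 x3
  have := hR (h a a1 b b1 (by linarith [dist_triangle_left a b x]))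
  have := dist_triangle x b 0
  simp only [mem_closedBall, mem_setOf_eq, dist_zero_right] at *
  linarith

lemma good {k : ℕ} {c : ℝ} (h : ¬ Ann k (c - 1)) : Good (k + 1) c := fun P cov => by
  classical
  have hc : 2 < c := not_le.1 fun e => h ⟨0, fun x a b => by linarith⟩
  suffices ∀ F : Finset (Sym2 P), F.card < k + 1 → ((G c P).deleteEdges F).Connected from
    ⟨by simpa using this ∅ (by simp), this⟩
  intro F hF
  obtain ⟨p0, h0, -⟩ := cov 0
  haveI : Nonempty P := ⟨⟨p0, h0⟩⟩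
  refine ⟨fun p q => by_contra fun r => h ?_⟩
  let A := {x | ((G c P).deleteEdges F).Reachable p x}
  have cr : ∀ a ∈ A, ∀ b ∉ A, dist a b < c → s(a, b) ∈ F := fun a ha b hb d => by_contra fun e =>
    hb (SimpleGraph.Reachable.trans ha (SimpleGraph.Adj.reachable
      (SimpleGraph.deleteEdges_adj.2 ⟨⟨fun r => hb (r ▸ ha), d⟩, e⟩)))
  obtain ⟨T, t1, t2⟩ := ends F A p
  obtain ⟨S, s1, s2⟩ := ends F Aᶜ p
  have c1 : Covers (Subtype.val '' A ∪ Subtype.val '' Aᶜ) := by simpa [← image_union]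
  have h1 : ∀ a ∈ Subtype.val '' A, ∀ b ∈ Subtype.val '' Aᶜ, dist a b < c →
      b ∈ T.image Subtype.val := by
    rintro _ ⟨a, ha, rfl⟩ _ ⟨b, hb, rfl⟩ d
    exact Finset.mem_image_of_mem _ (t2 a ha b hb (cr a ha b hb d))
  refine (one_bdd hc _ h1 c1).elim (fun e => bdd_case e ⟨_, p, .refl _, rfl⟩ _
    (Finset.card_image_le.trans (by omega)) h1 c1) fun e => bdd_case e ⟨_, q, r, rfl⟩
      (S.image Subtype.val) (Finset.card_image_le.trans (by omega)) ?_ (union_comm .. ▸ c1)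
  rintro _ ⟨a, ha, rfl⟩ _ ⟨b, hb, rfl⟩ d
  exact Finset.mem_image_of_mem _ (s2 a ha b (not_not.2 hb)
    (Sym2.eq_swap ▸ cr b hb a ha (dist_comm a b ▸ d)))

lemma bad {k : ℕ} {c : ℝ} (c0 : 0 < c) (h : Ann k (c - 1)) : ¬ Good (k + 1) c := fun g => by
  classical
  obtain ⟨z, hz⟩ := h
  let P : Set ℂ := insert 0 (range z ∪ {x | c ≤ ‖x‖})
  have cov : Covers P := fun x => by
    by_cases a : ‖x‖ ≤ 1
    · exact ⟨0, .inl rfl, by simpa⟩
    by_cases b : ‖x‖ < c - 1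
    · exact (hz x (not_le.1 a) b).elim fun i e => ⟨_, .inr (.inl ⟨i, rfl⟩), e⟩
    by_cases d : c ≤ ‖x‖
    · exact ⟨x, .inr (.inr d), by simp⟩
    have x0 : 0 < ‖x‖ := by linarith
    refine ⟨(c / ‖x‖) • x, .inr (.inr ?_), ?_⟩
    · rw [mem_setOf_eq, norm_smul, Real.norm_of_nonneg (by positivity), div_mul_cancel₀ _ x0.ne']
    · rw [dist_comm, dist_eq_norm, show (c / ‖x‖) • x - x = (c / ‖x‖ - 1) • x by module, norm_smul,
        Real.norm_of_nonneg (sub_nonneg.2 ((one_le_div x0).2 (by linarith))), sub_mul,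
        div_mul_cancel₀ _ x0.ne']
      linarith
  obtain ⟨w⟩ := ((g P cov).2 (Finset.univ.image fun i => s(⟨0, .inl rfl⟩, ⟨z i, .inr (.inl ⟨i, rfl⟩)⟩))
    (Finset.card_image_le.trans_lt (by simp))).1 ⟨0, .inl rfl⟩ ⟨c, .inr (.inr (by simp [abs_of_pos c0]))⟩
  obtain ⟨⟨a, b⟩, e⟩ := SimpleGraph.deleteEdges_adj.1 (w.adj_snd (w.not_nil_of_ne (by simp [eq_comm, c0.ne'])))
  generalize w.snd = q at *
  obtain ⟨q, rfl | ⟨i, rfl⟩ | r⟩ := q
  · exact a rfl
  · exact e (Finset.mem_coe.2 (Finset.mem_image_of_mem _ (Finset.mem_univ i)))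
  · exact r.not_gt (by simpa [Subtype.dist_eq] using b)

end Pool.Agent.H10.Anl
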