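import Mathlib
import Pool.Agent.H10.AnlA

set_option autoImplicit false

namespace Pool.Agent.H10.Anl
open Set Metric Complex MeasureTheory Real

lemma cosine (r d t a : ℝ) : dist (r * cexp (t * I)) (d * cexp (a * I)) ^ 2 =
    r ^ 2 + d ^ 2 - 2 * r * d * Real.cos (t - a) := by
  rw [dist_eq_norm, Complex.sq_norm, normSq_apply, Real.cos_sub]
  simp [exp_ofReal_mul_I_re, exp_ofReal_mul_I_im]
  nlinarith [Real.sin_sq_add_cos_sq t, Real.sin_sq_add_cos_sq a]

lemma upper {j : ℕ} {t r : ℝ} (h : Ann j t) (r1 : 1 < r) (r2 : r < t) : π ≤ j * arcsin (1 / r) := by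
  obtain ⟨z, hz⟩ := h
  haveI : Fact (0 < 2 * π) := ⟨two_pi_pos⟩
  have b0 : 0 ≤ arcsin (1 / r) := arcsin_nonneg.2 (by positivity)
  have : (univ : Set (AddCircle (2 * π))) ⊆ ⋃ i, closedBall (arg (z i) : AddCircle (2 * π))
      (arcsin (1 / r)) := fun θ _ => by
    induction θ using QuotientAddGroup.induction_on with | H s =>
    obtain ⟨i, hi⟩ := hz (r * cexp (s * I)) (by simpa [norm_exp_ofReal_mul_I, abs_of_pos (one_pos.trans r1)])
      (by simpa [norm_exp_ofReal_mul_I, abs_of_pos (one_pos.trans r1)])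
    have e := cosine r ‖z i‖ s (arg (z i))
    rw [norm_mul_exp_arg_mul_I] at e
    obtain ⟨u, u1, u2⟩ : ∃ u, |u| ≤ π ∧ ∃ n : ℤ, s - arg (z i) = u + n * (2 * π) :=
      ⟨toIocMod two_pi_pos (-π) (s - arg (z i)), abs_le.2 ⟨(left_lt_toIocMod ..).le,
        (toIocMod_le_right ..).trans_eq (by ring)⟩, _, by
          rw [← zsmul_eq_mul, toIocMod_add_toIocDiv_zsmul]⟩
    obtain ⟨n, u2⟩ := u2
    refine mem_iUnion.2 ⟨i, ?_⟩
    rw [mem_closedBall, dist_eq_norm, ← AddCircle.coe_sub, u2, AddCircle.coe_add,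
      ← zsmul_eq_mul, AddCircle.coe_zsmul, AddCircle.coe_period, smul_zero, add_zero]
    refine QuotientAddGroup.norm_mk_le_norm.trans (not_lt.1 fun l => ?_)
    have l := cos_lt_cos_of_nonneg_of_le_pi b0 u1 l
    rw [u2, Real.cos_add_int_mul_two_pi, ← Real.cos_abs] at e
    have c2 : (r * Real.cos (arcsin (1 / r))) ^ 2 = r ^ 2 - 1 := by
      rw [mul_pow, Real.cos_sq', sin_arcsin (by linarith [one_div_pos.2 (one_pos.trans r1)])
        ((div_le_one (by linarith)).2 r1.le)]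
      field_simp
    have d1 : dist (r * cexp (s * I)) (z i) ^ 2 ≤ 1 := pow_le_one₀ dist_nonneg hi
    obtain d | d := (norm_nonneg (z i)).eq_or_lt
    · rw [← d] at e; nlinarith
    nlinarith [sq_nonneg (‖z i‖ - r * Real.cos (arcsin (1 / r))),
      mul_pos (mul_pos (one_pos.trans r1) d) (sub_pos.2 l)]
  have := (measure_mono (μ := volume) this).trans (measure_iUnion_fintype_le _ _)
  simp only [AddCircle.measure_univ, AddCircle.volume_closedBall, Finset.sum_const, Finset.card_univ,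
    Fintype.card_fin, ← ENNReal.ofReal_nsmul] at this
  rw [ENNReal.ofReal_le_ofReal_iff (by positivity), nsmul_eq_mul] at this
  nlinarith [mul_le_mul_of_nonneg_left (min_le_right (2 * π) (2 * arcsin (1 / r))) j.cast_nonneg]

lemma ub1 {j : ℕ} (hj : j ≤ 1) {t : ℝ} (h : Ann j t) : t ≤ 1 := not_lt.1 fun l => by
  have := upper h (r := (1 + t) / 2) (by linarith) (by linarith)
  have : (j : ℝ) ≤ 1 := by exact_mod_cast hj
  nlinarith [arcsin_le_pi_div_two (1 / ((1 + t) / 2)), pi_pos, j.cast_nonneg (α := ℝ)]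

lemma ub {j : ℕ} (hj : 2 ≤ j) {t : ℝ} (h : Ann j t) : t ≤ 1 / Real.sin (π / j) := not_lt.1 fun l => by
  have j2 : (2 : ℝ) ≤ j := by exact_mod_cast hj
  have p2 : π / j ≤ π / 2 := by gcongr
  have s0 : 0 < Real.sin (π / j) := sin_pos_of_pos_of_lt_pi (by positivity) (by linarith [pi_pos])
  obtain ⟨r, r1, r2⟩ := exists_between l
  have r0 : 1 < r := ((one_le_div s0).2 (sin_le_one _)).trans_lt r1
  have := upper h r0 r2
  rw [← div_le_iff₀' (by positivity), le_arcsin_iff_sin_le' ⟨by linarith [pi_pos, div_pos pi_pos (show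
    (0 : ℝ) < j by positivity)], p2⟩, le_one_div s0 (by linarith)] at this
  linarith

lemma lb {j : ℕ} (hj : 2 ≤ j) (h6 : j ≤ 6) : Ann j (1 / Real.sin (π / j)) := by
  have j2 : (2 : ℝ) ≤ j := by exact_mod_cast hj
  have j6 : (j : ℝ) ≤ 6 := by exact_mod_cast h6
  have p2 : π / j ≤ π / 2 := by gcongr
  have p0 : 0 < π / j := by positivity
  have s0 : 1 / 2 ≤ Real.sin (π / j) := sin_pi_div_six ▸
    sin_le_sin_of_le_of_le_pi_div_two (by linarith [pi_pos]) p2 (by gcongr)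
  have c0 : 0 ≤ Real.cos (π / j) := cos_nonneg_of_mem_Icc ⟨by linarith, p2⟩
  obtain ⟨d, d0, hd⟩ : ∃ d, 0 ≤ d ∧ d * Real.sin (π / j) = Real.cos (π / j) :=
    ⟨_, by positivity, div_mul_cancel₀ _ (by linarith)⟩
  refine ⟨fun i => d * cexp ((i * (2 * π / j) : ℝ) * I), fun x x1 x2 => ?_⟩
  set m := round (arg x / (2 * π / j))
  have m1 : |arg x - m * (2 * π / j)| ≤ π / j := by
    have := mul_le_mul_of_nonneg_right (abs_sub_round (arg x / (2 * π / j)))
      (show 0 ≤ 2 * π / j by positivity)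
    rw [← abs_of_pos (show 0 < 2 * π / j by positivity), ← abs_mul, abs_of_pos (show 0 < 2 * π / j by
      positivity), sub_mul, div_mul_cancel₀ _ (by positivity)] at this
    exact this.trans_eq (by ring)
  have m2 := Int.emod_nonneg m (show (j : ℤ) ≠ 0 by omega)
  refine ⟨⟨(m % j).toNat, by have := Int.emod_lt_of_pos m (show (0 : ℤ) < j by omega); omega⟩, ?_⟩
  have e := cosine ‖x‖ d (arg x) (((m % j).toNat : ℕ) * (2 * π / j))
  have : arg x - ((m % j).toNat : ℕ) * (2 * π / j) =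
      arg x - m * (2 * π / j) + (m / j : ℤ) * (2 * π) := by
    rw [← Int.cast_natCast, Int.toNat_of_nonneg m2, Int.emod_def]
    push_cast
    field_simp
    ring
  rw [norm_mul_exp_arg_mul_I, this, Real.cos_add_int_mul_two_pi, ← Real.cos_abs] at e
  have l := cos_le_cos_of_nonneg_of_le_pi (abs_nonneg _) (by linarith [pi_pos]) m1
  refine abs_le_of_sq_le_sq' (e.trans_le ?_) zero_le_one |>.2
  rw [lt_div_iff₀ (by linarith)] at x2
  have := Real.sin_sq_add_cos_sq (π / j)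
  generalize Real.sin (π / j) = s at *
  generalize Real.cos (π / j) = C at *
  subst hd
  have a1 : 0 ≤ ‖x‖ * s + 1 - 2 * (d * s) ^ 2 := by nlinarith
  have a2 : (‖x‖ ^ 2 + d ^ 2 - 2 * ‖x‖ * d * (d * s)) * s ^ 2 ≤ 1 * s ^ 2 := by
    nlinarith [mul_nonneg a1 (sub_pos.2 x2).le]
  nlinarith [le_of_mul_le_mul_right a2 (by positivity), mul_le_mul_of_nonneg_left l
    (show 0 ≤ ‖x‖ * d by positivity)]

lemma greatest (j : ℕ) : ∃ ρ, IsGreatest {t | Ann j t} ρ := by
  have n1 : Ann j 1 := ⟨0, fun x a b => by linarith⟩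
  have bd : BddAbove {t | Ann j t} := (le_or_gt j 1).elim (fun h => ⟨1, fun _ => ub1 h⟩)
    fun h => ⟨_, fun _ => ub h⟩
  refine ⟨sSup _, ?_, fun t h => le_csSup bd h⟩
  have t1 := le_csSup bd n1
  set T := sSup {t | Ann j t}
  have key := IsCompact.nonempty_iInter_of_sequence_nonempty_isCompact_isClosed
    (fun n : ℕ => closedBall (0 : Fin j → ℂ) (T + 1) ∩
      ⋂ x ∈ {x : ℂ | 1 < ‖x‖ ∧ ‖x‖ < T - 1 / (n + 1)}, ⋃ i, {z | dist x (z i) ≤ 1})
    (fun n => inter_subset_inter_right _ (biInter_subset_biInter_left fun x h =>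
      ⟨h.1, h.2.trans_le (by gcongr; simp)⟩)) (fun n => ?_) ((isCompact_closedBall ..).inter_right ?_)
    fun n => isClosed_closedBall.inter ?_
  · obtain ⟨z, hz⟩ := key
    refine ⟨z, fun x a b => ?_⟩
    obtain ⟨n, hn⟩ := exists_nat_one_div_lt (sub_pos.2 b)
    simpa using mem_iInter₂.1 (mem_iInter.1 hz n).2 x ⟨a, by linarith⟩
  · have : (0 : ℝ) < 1 / (n + 1) := by positivity
    obtain ⟨t, ⟨z, hz⟩, l⟩ := exists_lt_of_lt_csSup ⟨1, n1⟩ (show T - 1 / (n + 1) < T by linarith)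
    refine ⟨fun i => if ‖z i‖ ≤ T + 1 then z i else 0, mem_closedBall_zero_iff.2
      ((pi_norm_le_iff_of_nonneg (by linarith)).2 fun i => ?_), mem_iInter₂.2 fun x h => ?_⟩
    · split_ifs with h
      exacts [h, by simp; linarith]
    obtain ⟨i, hi⟩ := hz x h.1 (h.2.trans l)
    have := dist_triangle_left (z i) 0 x
    simp only [dist_zero_right] at this
    exact mem_iUnion.2 ⟨i, by
      simpa only [mem_setOf_eq, if_pos (show ‖z i‖ ≤ T + 1 by linarith [h.2])]⟩
  all_goals exact isClosed_biInter fun x _ => isClosed_iUnion_of_finite fun i =>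
    isClosed_le (by fun_prop) (by fun_prop)

end Pool.Agent.H10.Anl
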