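import Pool.Agent.H10.AsDefs

namespace Pool.Agent.H10.As

open Set

variable {α : Type*}

lemma mem_core {C : Set (Set α)} {σ : ℕ} {S : Set α} {x : α} :
    x ∈ core C σ S ↔ ∀ A ∈ C, (S \ A).encard ≤ σ → x ∈ A := by
  simp only [core, hull, mem_iInter, mem_sInter, mem_setOf_eq]
  constructor
  · intro h A hA hS
    exact h (S \ A) ⟨diff_subset, hS⟩ A ⟨hA, fun y hy => by
      by_contra hc
      exact hy.2 ⟨hy.1, hc⟩⟩
  · rintro h M ⟨-, hM⟩ A ⟨hA, hS⟩
    refine h A hA (le_trans (encard_le_encard fun y hy => ?_) hM)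
    by_contra hc
    exact hy.2 (hS ⟨hy.1, hc⟩)

lemma core_mono {C : Set (Set α)} {σ : ℕ} {S T : Set α} (h : S ⊆ T) :
    core C σ S ⊆ core C σ T := fun _ hx =>
  mem_core.mpr fun A hA hT => mem_core.mp hx A hA
    (le_trans (encard_le_encard (diff_subset_diff_left h)) hT)

lemma le_helly {X : Set α} {C : Set (Set α)} {σ : ℕ} {S : Set α} (hS : S ⊆ X)
    (h : ¬ (core C σ S).Nonempty) : S.encard ≤ helly X C σ := by
  refine le_iInf₂ fun k hk => ?_
  by_contra hc
  exact h (hk S hS (Order.add_one_le_of_lt (not_le.mp hc)))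

lemma helly_le {X : Set α} {C : Set (Set α)} {σ : ℕ} (n : ℕ)
    (h : ∀ S ⊆ X, (n : ℕ∞) + 1 ≤ S.encard → (core C σ S).Nonempty) : helly X C σ ≤ n :=
  iInf₂_le (f := fun (k : ℕ) (_ : k ∈ {k : ℕ | ∀ S ⊆ X, (k : ℕ∞) + 1 ≤ S.encard →
    (core C σ S).Nonempty}) => (k : ℕ∞)) n h

lemma helly_le_encard (X : Set α) (C : Set (Set α)) (σ : ℕ) : helly X C σ ≤ X.encard := by
  rcases eq_or_ne X.encard ⊤ with h | h
  · rw [h]; exact le_top
  · obtain ⟨n, hn⟩ := ENat.ne_top_iff_exists.mp h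
    rw [← hn]
    refine helly_le n fun S hS h1 => absurd (h1.trans ((encard_le_encard hS).trans hn.ge)) ?_
    norm_cast
    omega

lemma exists_bad {X : Set α} {C : Set (Set α)} {σ : ℕ} {m : ℕ} (hm : 1 ≤ m)
    (h : (m : ℕ∞) ≤ helly X C σ) :
    ∃ S : Finset α, (S : Set α) ⊆ X ∧ S.card = m ∧ ¬ (core C σ S).Nonempty := by
  by_contra hc
  push Not at hc
  have h1 : helly X C σ ≤ (m - 1 : ℕ) := helly_le _ fun S hS h2 => by
    obtain ⟨T, hT, hT2⟩ := exists_subset_encard_eq h2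
    have hf : T.Finite := finite_of_encard_eq_coe (k := m - 1 + 1) (by rw [hT2]; norm_cast)
    lift T to Finset α using hf
    refine (hc T (hT.trans hS) ?_).mono (core_mono hT)
    rw [encard_coe_eq_coe_finsetCard] at hT2
    norm_cast at hT2
    omega
  have := h.trans h1
  norm_cast at this
  omega

open Classical in
lemma common {X : Set α} {C : Set (Set α)} {σ k : ℕ} (hσ : 1 ≤ σ) (hX : X ∈ C)
    (X0 : Finset α) (h0 : (X0 : Set α) ⊆ X) (h1 : σ + k ≤ X0.card)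
    (h : ∀ S : Finset α, (S : Set α) ⊆ X → σ + k ≤ S.card → (core C σ S).Nonempty)
    (T : Finset (Set α)) (hT : ∀ F ∈ T, F ∈ C)
    (H : ∀ T' ⊆ T, T'.card ≤ k → ∀ E : Finset α, (E : Set α) ⊆ X → E.card = T'.card →
      (∀ F ∈ T', (E.filter (· ∈ F)).card = T'.card - 1) → ∃ S : Finset α, (S : Set α) ⊆ X ∧
        S.card ≤ σ + k ∧ ∀ F ∈ T', k ≤ (S.filter (· ∈ F)).card) :
    ∃ x ∈ X, ∀ F ∈ T, x ∈ F := by
  have hne : Nonempty α := ⟨(Finset.card_pos.mp (by omega : 0 < X0.card)).choose⟩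
  induction' ht : T.card using Nat.strong_induction_on with t ih generalizing T
  have h2 : ∀ F ∈ T, ∃ x ∈ X, ∀ G ∈ T.erase F, x ∈ G := fun F hF =>
    ih _ (ht ▸ Finset.card_erase_lt_of_mem hF) _
      (fun G hG => hT G (Finset.mem_of_mem_erase hG))
      (fun T' hT' => H T' (hT'.trans (Finset.erase_subset _ _))) rfl
  choose! e he1 he2 using h2
  by_contra hc
  push Not at hc
  have h3 : ∀ F ∈ T, e F ∉ F := by
    intro F hF h4
    obtain ⟨G, hG, h5⟩ := hc _ (he1 F hF)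
    by_cases h6 : G = F
    · exact h5 (h6 ▸ h4)
    · exact h5 (he2 F hF G (Finset.mem_erase.mpr ⟨h6, hG⟩))
  have h4 : Set.InjOn e (T : Set (Set α)) := by
    intro F hF G hG h5
    by_contra h6
    exact h3 F hF (h5 ▸ he2 G hG F (Finset.mem_erase.mpr ⟨h6, hF⟩))
  have h5 : (T.image e).card = t := by rw [Finset.card_image_of_injOn h4, ht]
  have h6 : ∀ F ∈ T, (T.image e).filter (· ∈ F) = (T.image e).erase (e F) := by
    intro F hF
    ext x
    simp only [Finset.mem_filter, Finset.mem_erase, Finset.mem_image]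
    constructor
    · rintro ⟨h7, h8⟩
      exact ⟨fun h9 => h3 F hF (h9 ▸ h8), h7⟩
    · rintro ⟨h7, G, hG, rfl⟩
      exact ⟨⟨G, hG, rfl⟩, he2 G hG F (Finset.mem_erase.mpr ⟨fun h9 => h7 (h9 ▸ rfl), hF⟩)⟩
  have h7 : ∀ F ∈ T, ((T.image e).filter (· ∈ F)).card = t - 1 := fun F hF => by
    rw [h6 F hF, Finset.card_erase_of_mem (Finset.mem_image_of_mem e hF), h5]
  have key : ∀ S : Finset α, (S : Set α) ⊆ X → σ + k ≤ S.card →
      (∀ F ∈ T, S.card ≤ σ + (S.filter (· ∈ F)).card) → False := by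
    intro S hS hc1 hc2
    obtain ⟨x, hx⟩ := h S hS hc1
    obtain ⟨F, hF, h8⟩ := hc x (mem_core.mp hx X hX (by rw [diff_eq_empty.mpr hS]; simp))
    refine h8 (mem_core.mp hx F (hT F hF) ?_)
    have h9 : (S : Set α) \ F = (S.filter (fun y => ¬ y ∈ F) : Finset α) := by
      ext y; simp
    rw [h9, encard_coe_eq_coe_finsetCard]
    have := Finset.card_filter_add_card_filter_not (s := S) (· ∈ F)
    have := hc2 F hF
    norm_cast
    omega
  have hE : ((T.image e : Finset α) : Set α) ⊆ X := by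
    intro x hx
    obtain ⟨F, hF, rfl⟩ := Finset.mem_image.mp hx
    exact he1 F hF
  by_cases h8 : σ + k ≤ t
  · exact key _ hE (by omega) fun F hF => by rw [h7 F hF]; omega
  obtain ⟨S0, g1, g2, g3⟩ : ∃ S : Finset α, (S : Set α) ⊆ X ∧
      S.card ≤ σ + k ∧ ∀ F ∈ T, k ≤ (S.filter (· ∈ F)).card := by
    by_cases h9 : t ≤ k
    · exact H T (Finset.Subset.refl _) (by omega) _ hE (by omega) (by rw [ht]; exact h7)
    · exact ⟨_, hE, by omega, fun F hF => by rw [h7 F hF]; omega⟩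
  obtain ⟨S, hS1, hS2, hS3⟩ := Finset.exists_subsuperset_card_eq
    (Finset.subset_union_left (s₂ := X0)) g2
    (h1.trans (Finset.card_le_card (Finset.subset_union_right (s₁ := S0))))
  refine key S (fun x hx => ?_) hS3.ge fun F hF => ?_
  · rcases Finset.mem_union.mp (hS2 hx) with b | b
    · exact g1 b
    · exact h0 b
  · have := Finset.card_le_card (Finset.filter_subset_filter (· ∈ F) hS1)
    have := g3 F hF
    omega

open Classical in
lemma fill1 {X : Set α} {σ k : ℕ} (hk : k * k / 4 + 1 ≤ σ) (T : Finset (Set α))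
    (hT : ∀ F ∈ T, ∃ K : Finset α, (K : Set α) ⊆ X ∩ F ∧ k ≤ K.card) (ht : T.card ≤ k)
    (E : Finset α) (hE : (E : Set α) ⊆ X) (h5 : E.card = T.card)
    (h7 : ∀ F ∈ T, (E.filter (· ∈ F)).card = T.card - 1) : ∃ S : Finset α, (S : Set α) ⊆ X ∧
        S.card ≤ σ + k ∧ ∀ F ∈ T, k ≤ (S.filter (· ∈ F)).card := by
  have h9 : ∀ F ∈ T, ∃ L : Finset α, (L : Set α) ⊆ X ∩ F ∧ Disjoint L E ∧
      L.card = k + 1 - T.card := by
    intro F hF
    obtain ⟨K, hK, hK2⟩ := hT F hF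
    have ht1 : 0 < T.card := Finset.card_pos.mpr ⟨F, hF⟩
    have b1 : (K ∩ E).card ≤ T.card - 1 := by
      rw [← h7 F hF]
      exact Finset.card_le_card fun x hx => Finset.mem_filter.mpr
        ⟨(Finset.mem_inter.mp hx).2, (hK (Finset.mem_inter.mp hx).1).2⟩
    have b2 := Finset.card_sdiff_add_card_inter K E
    obtain ⟨L, hL, hL2⟩ := Finset.exists_subset_card_eq (s := K \ E) (n := k + 1 - T.card)
      (by omega)
    exact ⟨L, fun x hx => hK (Finset.mem_sdiff.mp (hL hx)).1,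
      Finset.disjoint_of_subset_left hL Finset.sdiff_disjoint, hL2⟩
  choose! L hL1 hL2 hL3 using h9
  refine ⟨E ∪ T.biUnion L, fun x hx => ?_, ?_, fun F hF => ?_⟩
  · rcases Finset.mem_union.mp hx with b | b
    · exact hE b
    · obtain ⟨F, hF, b⟩ := Finset.mem_biUnion.mp b
      exact (hL1 F hF b).1
  · have b4 := Finset.card_union_le E (T.biUnion L)
    have b5 : (T.biUnion L).card ≤ T.card * (k + 1 - T.card) := by
      refine Finset.card_biUnion_le.trans ?_
      rw [Finset.sum_congr rfl hL3, Finset.sum_const, smul_eq_mul]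
    obtain ⟨u, hu⟩ := Nat.exists_eq_add_of_le (show T.card ≤ k + 1 by omega)
    rw [show k + 1 - T.card = u by omega] at b5
    have b7 : 4 * (T.card + T.card * u) ≤ k * k + 4 * k + 4 := by
      zify at hu ⊢
      nlinarith [sq_nonneg ((T.card : ℤ) - u - 1)]
    omega
  · have b4 : E.filter (· ∈ F) ∪ L F ⊆ (E ∪ T.biUnion L).filter (· ∈ F) := by
      intro x hx
      rcases Finset.mem_union.mp hx with b | b
      · exact Finset.mem_filter.mpr ⟨Finset.mem_union_left _ (Finset.mem_filter.mp b).1,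
          (Finset.mem_filter.mp b).2⟩
      · exact Finset.mem_filter.mpr ⟨Finset.mem_union_right _
          (Finset.mem_biUnion.mpr ⟨F, hF, b⟩), (hL1 F hF b).2⟩
    have b5 := Finset.card_le_card b4
    rw [Finset.card_union_of_disjoint (Finset.disjoint_of_subset_left (Finset.filter_subset _ _)
      (hL2 F hF).symm), h7 F hF, hL3 F hF] at b5
    have ht1 : 0 < T.card := Finset.card_pos.mpr ⟨F, hF⟩
    omega

open Classical in
lemma pick {σ k : ℕ} (S : Finset α) (hS : k * σ + k ≤ S.card) (T : Finset (Set α))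
    (ht : T.card ≤ k) : ∃ L ⊆ S, L.card = k ∧
      ∀ F ∈ T, (S.filter (· ∉ F)).card ≤ σ → ∀ x ∈ L, x ∈ F := by
  set U := (T.filter fun F => (S.filter (· ∉ F)).card ≤ σ).biUnion fun F => S.filter (· ∉ F)
    with hU
  have h1 : U.card ≤ k * σ := by
    refine (Finset.card_biUnion_le_card_mul _ _ σ fun F hF => (Finset.mem_filter.mp hF).2).trans ?_
    exact Nat.mul_le_mul_right _ ((Finset.card_filter_le _ _).trans ht)
  have h2 := Finset.le_card_sdiff U S
  obtain ⟨L, hL, hL2⟩ := Finset.exists_subset_card_eq (s := S \ U) (n := k) (by omega)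
  refine ⟨L, hL.trans Finset.sdiff_subset, hL2, fun F hF h3 x hx => ?_⟩
  by_contra hc
  obtain ⟨h4, h5⟩ := Finset.mem_sdiff.mp (hL hx)
  exact h5 (Finset.mem_biUnion.mpr ⟨F, Finset.mem_filter.mpr ⟨hF, h3⟩,
    Finset.mem_filter.mpr ⟨h4, hc⟩⟩)

lemma asum_comm (X1 X2 : Set α) (C1 C2 : Set (Set α)) :
    asum X1 C1 X2 C2 = asum X2 C2 X1 C1 := by
  have : ∀ (X1 X2 : Set α) (C1 C2 : Set (Set α)), asum X1 C1 X2 C2 ⊆ asum X2 C2 X1 C1 := by
    rintro X1 X2 C1 C2 _ ⟨A, hA, B, hB, rfl⟩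
    exact ⟨B, hB, A, hA, by rw [union_comm (A \ X2), inter_comm]⟩
  exact (this _ _ _ _).antisymm (this _ _ _ _)

lemma hat_mem {X1 X2 : Set α} {C1 C2 : Set (Set α)} (h2 : Aligned X2 C2) {A : Set α}
    (hA : A ∈ C1) : A ∪ (X2 \ X1) ∈ asum X1 C1 X2 C2 :=
  ⟨A, hA, X2, h2.whole, by ext x; simp only [mem_union, mem_diff, mem_inter_iff]; tauto⟩

open Classical in
lemma fam {X1 X2 : Set α} {C1 C2 : Set (Set α)} {σ : ℕ} (h1 : Aligned X1 C1) (h2 : Aligned X2 C2)
    (S : Finset α) (hS : (S : Set α) ⊆ X1) (hc : ¬ (core C1 σ S).Nonempty) :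
    ∃ T : Finset (Set α), (∀ F ∈ T, F ∈ asum X1 C1 X2 C2 ∧ (S.filter (· ∉ F)).card ≤ σ) ∧
      ∀ x ∈ X1, ∃ F ∈ T, x ∉ F := by
  refine ⟨(S.powerset.filter (·.card ≤ σ)).image fun M : Finset α =>
    hull C1 ((S : Set α) \ M) ∪ (X2 \ X1), fun F hF => ?_, fun x hx => ?_⟩
  · obtain ⟨M, hM, rfl⟩ := Finset.mem_image.mp hF
    refine ⟨hat_mem h2 (h1.inter _ (fun A hA => hA.1) ⟨X1, h1.whole, diff_subset.trans hS⟩),
      le_trans (Finset.card_le_card fun y hy => ?_) (Finset.mem_filter.mp hM).2⟩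
    by_contra h3
    simp only [Finset.mem_filter] at hy
    exact hy.2 (Or.inl fun A hA => hA.2 ⟨hy.1, h3⟩)
  · by_contra h3
    push Not at h3
    refine hc ⟨x, mem_core.mpr fun A hA h4 => ?_⟩
    have h9 : (S : Set α) \ A = (S.filter (fun y => ¬ y ∈ A) : Finset α) := by
      ext y; simp
    rw [h9, encard_coe_eq_coe_finsetCard] at h4
    rcases h3 _ (Finset.mem_image_of_mem _ (Finset.mem_filter.mpr ⟨Finset.mem_powerset.mpr
      (Finset.filter_subset (fun y => ¬ y ∈ A) S), by exact_mod_cast h4⟩)) with h5 | h5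
    · refine h5 A ⟨hA, fun y hy => ?_⟩
      by_contra h6
      exact hy.2 (by simpa using ⟨hy.1, h6⟩)
    · exact absurd hx h5.2

open Classical in
theorem lower {X1 X2 : Set α} {C1 C2 : Set (Set α)} {σ k m : ℕ} (h1 : Aligned X1 C1)
    (h2 : Aligned X2 C2) (hσ : 1 ≤ σ) (hm : σ + k ≤ m)
    (hk : k * k / 4 + 1 ≤ σ ∨ k ≤ σ ∧ k * σ + k ≤ m) (a1 : (m : ℕ∞) ≤ helly X1 C1 σ)
    (a2 : (m : ℕ∞) ≤ helly X2 C2 σ) :
    ((σ + k : ℕ) : ℕ∞) ≤ helly (X1 ∪ X2) (asum X1 C1 X2 C2) σ := by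
  by_contra hc
  obtain ⟨S1, s1, c1, e1⟩ := exists_bad (by omega) a1
  obtain ⟨S2, s2, c2, e2⟩ := exists_bad (by omega) a2
  obtain ⟨T1, t1, u1⟩ := fam h1 h2 S1 s1 e1
  obtain ⟨T2, t2, u2⟩ := fam h2 h1 S2 s2 e2
  rw [asum_comm] at t2
  have s1' : (S1 : Set α) ⊆ X1 ∪ X2 := s1.trans subset_union_left
  have s2' : (S2 : Set α) ⊆ X1 ∪ X2 := s2.trans subset_union_right
  obtain ⟨x, hx, h3⟩ := common (X := X1 ∪ X2) (C := asum X1 C1 X2 C2) (k := k) hσ
    (by simpa using hat_mem (X1 := X1) h2 h1.whole) S1 s1' (by omega) (fun S hS h3 => by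
      by_contra h4
      refine hc (le_trans ?_ (le_helly hS h4))
      rw [encard_coe_eq_coe_finsetCard]
      exact_mod_cast h3) (T1 ∪ T2)
    (fun F hF => (Finset.mem_union.mp hF).elim (fun h => (t1 F h).1) fun h => (t2 F h).1) (by
      intro T hT ht E hE h5 h7
      rcases hk with hk | ⟨hk, hk2⟩
      · refine fill1 hk T (fun F hF => ?_) ht E hE h5 h7
        have g1 := Finset.card_filter_add_card_filter_not (s := S1) (· ∈ F)
        have g2 := Finset.card_filter_add_card_filter_not (s := S2) (· ∈ F)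
        rcases Finset.mem_union.mp (hT hF) with h | h
        · exact ⟨S1.filter (· ∈ F), fun y hy => ⟨s1' (Finset.mem_filter.mp hy).1,
            (Finset.mem_filter.mp hy).2⟩, by have := (t1 F h).2; omega⟩
        · exact ⟨S2.filter (· ∈ F), fun y hy => ⟨s2' (Finset.mem_filter.mp hy).1,
            (Finset.mem_filter.mp hy).2⟩, by have := (t2 F h).2; omega⟩
      · obtain ⟨L1, l1, n1, p1⟩ := pick (σ := σ) S1 (c1 ▸ hk2) T ht
        obtain ⟨L2, l2, n2, p2⟩ := pick (σ := σ) S2 (c2 ▸ hk2) T ht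
        refine ⟨L1 ∪ L2, fun y hy => (Finset.mem_union.mp hy).elim (fun h => s1' (l1 h))
          fun h => s2' (l2 h), (Finset.card_union_le _ _).trans (by omega), fun F hF => ?_⟩
        rcases Finset.mem_union.mp (hT hF) with h | h
        · exact n1.ge.trans (Finset.card_le_card fun y hy => Finset.mem_filter.mpr
            ⟨Finset.mem_union_left _ hy, p1 F hF (t1 F h).2 y hy⟩)
        · exact n2.ge.trans (Finset.card_le_card fun y hy => Finset.mem_filter.mpr
            ⟨Finset.mem_union_right _ hy, p2 F hF (t2 F h).2 y hy⟩))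
  rcases hx with hx | hx
  · obtain ⟨F, hF, h4⟩ := u1 x hx
    exact h4 (h3 F (Finset.mem_union_left _ hF))
  · obtain ⟨F, hF, h4⟩ := u2 x hx
    exact h4 (h3 F (Finset.mem_union_right _ hF))

lemma small {X : Set α} {C : Set (Set α)} {σ : ℕ} (h0 : ∅ ∈ C) {m : ℕ∞} (hm : m ≤ σ)
    (h : m ≤ X.encard) : m ≤ helly X C σ := by
  obtain ⟨S, hS, rfl⟩ := exists_subset_encard_eq h
  exact le_helly hS fun ⟨x, hx⟩ => mem_core.mp hx ∅ h0 (by simpa using hm)

theorem degenerate {X1 X2 : Set α} {C1 C2 : Set (Set α)} {σ : ℕ} (h1 : Aligned X1 C1)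
    (h2 : Aligned X2 C2) (h : helly X1 C1 σ < σ) :
    helly X2 C2 σ ≤ helly (X1 ∪ X2) (asum X1 C1 X2 C2) σ := by
  have h3 : X1.encard ≤ σ := by
    by_contra hc
    exact absurd (small h1.empty le_rfl (not_le.mp hc).le) (not_le.mpr h)
  refine le_iInf₂ fun k hk => helly_le k fun S hS hc => ?_
  obtain ⟨x, hx⟩ := hk S (hS.trans subset_union_right) hc
  have h4 := mem_core.mp hx _ (hat_mem (X1 := X1) h2 h1.empty) (le_trans (encard_le_encard
    fun y hy => by
      by_contra h5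
      exact hy.2 (Or.inr ⟨hS hy.1, h5⟩)) h3)
  refine ⟨x, mem_core.mpr fun B hB h5 => ?_⟩
  rcases mem_core.mp hx _ (asum_comm X1 X2 C1 C2 ▸ hat_mem (X1 := X2) h1 hB) (le_trans
    (encard_le_encard (diff_subset_diff_right subset_union_left)) h5) with h6 | h6
  · exact h6
  · rcases h4 with h4 | h4
    · exact h4.elim
    · exact absurd h6.1 h4.2

end Pool.Agent.H10.As
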