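import Pool.Agent.H10.AsA

namespace Pool.Agent.H10.As

open Set

variable {α : Type*}

def Thr (X Y : Set α) (p : α) : Set (Set α) := {A | A ⊆ X ∧ ((A ∩ Y).Nonempty → p ∈ A)}

lemma aligned_thr {X Y : Set α} {p : α} (hp : p ∈ X) : Aligned X (Thr X Y p) where
  sub A hA := hA.1
  empty := ⟨empty_subset _, by simp⟩
  whole := ⟨subset_rfl, fun _ => hp⟩
  inter F hF := fun ⟨B, hB⟩ => ⟨(sInter_subset_of_mem hB).trans (hF hB).1,
    fun ⟨x, hx, hy⟩ A hA => (hF hA).2 ⟨x, hx A hA, hy⟩⟩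
  chain F hF _ := ⟨sUnion_subset fun A hA => (hF hA).1,
    fun ⟨x, ⟨A, hA, hx⟩, hy⟩ => ⟨A, hA, (hF hA).2 ⟨x, hx, hy⟩⟩⟩

lemma aligned_free (X : Set α) : Aligned X (𝒫 X) where
  sub A hA := hA
  empty := empty_subset _
  whole := fun _ h => h
  inter F hF := fun ⟨B, hB⟩ => (sInter_subset_of_mem hB).trans (hF hB)
  chain F hF _ := sUnion_subset fun A hA => hF hA

lemma one_diff {X S : Set α} (hS : S ⊆ X) (x : α) {σ : ℕ} (hσ : 1 ≤ σ) :
    (S \ (X \ {x})).encard ≤ σ := by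
  refine le_trans (encard_le_encard (t := {x}) fun y hy => ?_) (by simpa using hσ)
  by_contra hc
  exact hy.2 ⟨hS hy.1, hc⟩

lemma helly_free (X : Set α) {σ : ℕ} (hσ : 1 ≤ σ) : helly X (𝒫 X) σ = X.encard :=
  (helly_le_encard _ _ _).antisymm (le_helly subset_rfl fun ⟨x, hx⟩ =>
    (mem_core.mp hx (X \ {x}) diff_subset (one_diff subset_rfl x hσ)).2 rfl)

lemma too_big {S U V : Set α} {n σ m : ℕ} (h : S ⊆ U ∪ V) (hU : U.encard ≤ n) (hV : V.encard ≤ σ)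
    (hm : n + σ ≤ m) (hS : (m : ℕ∞) + 1 ≤ S.encard) : False := by
  have := hS.trans ((encard_le_encard h).trans ((encard_union_le _ _).trans (add_le_add hU hV)))
  norm_cast at this
  omega

lemma helly_thr {X Y : Set α} {p : α} {σ : ℕ} (hp : p ∈ Y) (hY : Y ⊆ X) (hσ : 1 ≤ σ)
    (h : (σ : ℕ∞) ≤ Y.encard) : helly X (Thr X Y p) σ = σ + (X \ Y).encard := by
  refine le_antisymm ?_ ?_
  · rcases eq_or_ne (X \ Y).encard ⊤ with hn | hn
    · rw [hn]; simp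
    obtain ⟨n, hn⟩ := ENat.ne_top_iff_exists.mp hn
    rw [← hn, ← Nat.cast_add]
    refine helly_le _ fun S hS h1 => ⟨p, mem_core.mpr fun A hA h2 => hA.2 ?_⟩
    by_contra hc
    refine too_big (U := X \ Y) (fun x hx => ?_) hn.ge h2 (by omega) h1
    by_cases h3 : x ∈ Y
    · exact Or.inr ⟨hx, fun h4 => hc ⟨x, h4, h3⟩⟩
    · exact Or.inl ⟨hS hx, h3⟩
  · obtain ⟨W, hW, hW2⟩ := exists_subset_encard_eq h
    have h1 : (X \ Y ∪ W).encard = σ + (X \ Y).encard := by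
      rw [encard_union_eq (disjoint_sdiff_left.mono_right hW), hW2, add_comm]
    have h2 : X \ Y ∪ W ⊆ X := union_subset diff_subset (hW.trans hY)
    rw [← h1]
    refine le_helly h2 fun ⟨x, hx⟩ => ?_
    have h3 := mem_core.mp hx (X \ Y) ⟨diff_subset, fun ⟨y, h3, h4⟩ => absurd h4 h3.2⟩
      (le_trans (encard_le_encard fun y hy => hy.1.resolve_left hy.2) hW2.le)
    exact (mem_core.mp hx (X \ {x}) ⟨diff_subset, fun _ => ⟨hY hp, fun h4 => h3.2 (h4 ▸ hp)⟩⟩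
      (one_diff h2 x hσ)).2 rfl

lemma thr_sum {X1 X2 Y D : Set α} {p : α} {C2 : Set (Set α)} (hp : p ∉ X2) (hY : Y ⊆ X1)
    (hD : D ∈ asum X1 (Thr X1 Y p) X2 C2) (h : p ∉ D) {x : α} (hx : x ∈ Y) : x ∉ D := by
  obtain ⟨A, hA, B, -, rfl⟩ := hD
  intro h1
  refine h (Or.inl (Or.inl ⟨hA.2 ⟨x, ?_, hx⟩, hp⟩))
  rcases h1 with (h1 | h1) | h1
  · exact h1.1
  · exact absurd (hY hx) h1.2
  · exact h1.1

lemma Ex.symm {σ : ℕ} {a b : ℕ∞} {Q : ℕ∞ → Prop} (h : Ex σ a b Q) : Ex σ b a Q := by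
  obtain ⟨X1, X2, C1, C2, h1, h2, h3, h4, h5⟩ := h
  exact ⟨X2, X1, C2, C1, h2, h1, h4, h3, by rwa [union_comm, asum_comm]⟩

lemma Ex.mono {σ : ℕ} {a b : ℕ∞} {Q Q' : ℕ∞ → Prop} (h : Ex σ a b Q) (hQ : ∀ x, Q x → Q' x) :
    Ex σ a b Q' := by
  obtain ⟨X1, X2, C1, C2, h1, h2, h3, h4, h5⟩ := h
  exact ⟨X1, X2, C1, C2, h1, h2, h3, h4, hQ _ h5⟩

lemma res_inf (r : ℕ) (hr : r < 3) : {x : ℕ | x % 3 = r}.Infinite :=
  infinite_of_injective_forall_mem (f := fun n : ℕ => 3 * n + r)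
    (fun x y h => by simp only at h; omega) fun n => by simp only [mem_setOf_eq]; omega

lemma res_ex (r : ℕ) (hr : r < 3) (n : ℕ∞) : ∃ W : Set ℕ, (∀ x ∈ W, x % 3 = r) ∧ W.encard = n :=
  exists_subset_encard_eq (s := {x : ℕ | x % 3 = r}) ((res_inf r hr).encard_eq ▸ le_top)

lemma compl_big {W : Set ℕ} (h : ∀ x ∈ W, x % 3 = 1) (n : ℕ∞) : n ≤ Wᶜ.encard := by
  rw [((res_inf 0 (by omega)).mono fun x hx h1 => by
    have := h x h1
    simp only [mem_setOf_eq] at hx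
    omega).encard_eq]
  exact le_top

lemma ex0 {σ : ℕ} (hσ : 1 ≤ σ) (U V : Set ℕ) :
    Ex σ U.encard V.encard (· = (U ∪ V).encard) := by
  refine ⟨U, V, 𝒫 U, 𝒫 V, aligned_free _, aligned_free _, helly_free _ hσ, helly_free _ hσ,
    (helly_le_encard _ _ _).antisymm (le_helly subset_rfl fun ⟨x, hx⟩ => ?_)⟩
  refine (mem_core.mp hx ((U ∪ V) \ {x}) ⟨U \ {x}, diff_subset, V \ {x}, diff_subset, ?_⟩
    (one_diff subset_rfl x hσ)).2 rfl
  ext y
  simp only [mem_diff, mem_union, mem_inter_iff]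
  tauto

lemma ex1 {σ : ℕ} {a : ℕ∞} (b : ℕ∞) (hσ : 1 ≤ σ) (ha : (σ : ℕ∞) ≤ a) : Ex σ a b (· ≤ a) := by
  obtain ⟨u, rfl⟩ := exists_add_of_le ha
  obtain ⟨V, hV, rfl⟩ := res_ex 1 (by omega) u
  obtain ⟨W, hW, rfl⟩ := res_ex 2 (by omega) b
  have h0 : 0 ∈ Vᶜ := fun h => by simpa using hV 0 h
  refine ⟨univ, W, Thr _ Vᶜ 0, 𝒫 _, aligned_thr trivial, aligned_free _, ?_, helly_free _ hσ, ?_⟩
  · rw [helly_thr h0 (subset_univ _) hσ (compl_big hV _)]
    simp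
  · rcases eq_or_ne V.encard ⊤ with hn | hn
    · rw [hn]; simp
    obtain ⟨n, hn⟩ := ENat.ne_top_iff_exists.mp hn
    rw [← hn, ← Nat.cast_add]
    refine helly_le _ fun S hS h2 => ⟨0, mem_core.mpr fun D hD h3 => ?_⟩
    by_contra hc
    refine too_big (U := V) (fun x hx => ?_) hn.ge h3 (by omega) h2
    by_cases h4 : x ∈ V
    · exact Or.inl h4
    · exact Or.inr ⟨hx, thr_sum (fun h => by simpa using hW 0 h) (subset_univ _) hD hc h4⟩

lemma ex2 {σ : ℕ} {a b : ℕ∞} (hσ : 1 ≤ σ) (ha : ((2 * σ : ℕ) : ℕ∞) ≤ a)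
    (hb : ((2 * σ : ℕ) : ℕ∞) ≤ b) : Ex σ a b (· ≤ (2 * σ : ℕ)) := by
  obtain ⟨u, rfl⟩ := exists_add_of_le ha
  obtain ⟨v, rfl⟩ := exists_add_of_le hb
  obtain ⟨U, hU, hu⟩ := res_ex 1 (by omega) (σ + u)
  obtain ⟨V, hV, hv⟩ := res_ex 2 (by omega) (σ + v)
  have hY : insert 0 V ⊆ insert 0 (U ∪ V) := insert_subset_insert subset_union_right
  have hZ : insert 3 U ⊆ insert 3 (U ∪ V) := insert_subset_insert subset_union_left
  have h1 : insert 0 (U ∪ V) \ insert 0 V = U := by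
    ext x
    refine ⟨fun h => ?_, fun h => ⟨Or.inr (Or.inl h), ?_⟩⟩
    · rcases h.1 with g | g | g
      exacts [absurd (Or.inl g) h.2, g, absurd (Or.inr g) h.2]
    · rintro (g | g)
      · have := hU x h; omega
      · have := hU x h; have := hV x g; omega
  have h2 : insert 3 (U ∪ V) \ insert 3 U = V := by
    ext x
    refine ⟨fun h => ?_, fun h => ⟨Or.inr (Or.inr h), ?_⟩⟩
    · rcases h.1 with g | g | g
      exacts [absurd (Or.inl g) h.2, absurd (Or.inr g) h.2, g]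
    · rintro (g | g)
      · have := hV x h; omega
      · have := hU x g; have := hV x h; omega
  have n1 : 0 ∉ insert 3 (U ∪ V) := by
    rintro (h | h | h)
    · omega
    · simpa using hU 0 h
    · simpa using hV 0 h
  have n2 : 3 ∉ insert 0 (U ∪ V) := by
    rintro (h | h | h)
    · omega
    · simpa using hU 3 h
    · simpa using hV 3 h
  refine ⟨insert 0 (U ∪ V), insert 3 (U ∪ V), Thr _ (insert 0 V) 0, Thr _ (insert 3 U) 3,
    aligned_thr (by simp), aligned_thr (by simp), ?_, ?_, helly_le _ fun S hS h3 => ?_⟩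
  · rw [helly_thr (by simp) hY hσ (le_trans (hv ▸ le_self_add)
      (encard_le_encard (subset_insert _ _))), h1, hu, two_mul, Nat.cast_add, add_assoc]
  · rw [helly_thr (by simp) hZ hσ (le_trans (hu ▸ le_self_add)
      (encard_le_encard (subset_insert _ _))), h2, hv, two_mul, Nat.cast_add, add_assoc]
  by_contra hc
  have c1 : 0 ∉ _ := fun h => hc ⟨_, h⟩
  have c2 : 3 ∉ _ := fun h => hc ⟨_, h⟩
  rw [mem_core] at c1 c2
  push Not at c1 c2
  obtain ⟨D, hD, d1, d2⟩ := c1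
  obtain ⟨E, hE, e1, e2⟩ := c2
  rw [asum_comm] at hE
  refine too_big (fun x hx => ?_) d1 e1 (by omega) h3
  by_cases h4 : x ∈ insert 0 V
  · exact Or.inl ⟨hx, thr_sum n1 hY hD d2 h4⟩
  · refine Or.inr ⟨hx, thr_sum n2 hZ hE e2 ?_⟩
    have := hS hx
    simp only [mem_union, mem_insert_iff] at this h4 ⊢
    tauto

lemma ex3 {σ : ℕ} {a b : ℕ∞} (hσ : 1 ≤ σ) (ha : a ≠ 0) (hb : (σ : ℕ∞) ≤ b) :
    Ex σ a b (· = ⊤) := by
  obtain ⟨v, rfl⟩ := exists_add_of_le hb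
  obtain ⟨V, hV, rfl⟩ := res_ex 1 (by omega) v
  obtain ⟨W, hW, rfl⟩ := res_ex 2 (by omega) a
  obtain ⟨q, hq⟩ := encard_ne_zero.mp ha
  have h0 : q ∈ Vᶜ := fun h => by have := hV q h; have := hW q hq; omega
  refine ⟨W, univ, 𝒫 _, Thr _ Vᶜ q, aligned_free _, aligned_thr trivial, helly_free _ hσ, ?_,
    top_le_iff.mp ?_⟩
  · rw [helly_thr h0 (subset_univ _) hσ (compl_big hV _)]
    simp
  · rw [← (infinite_univ (α := ℕ)).encard_eq]
    refine le_helly subset_union_right fun ⟨x, hx⟩ => ?_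
    refine (mem_core.mp hx (univ \ {x}) ⟨W \ {x}, diff_subset,
      insert q (univ \ {x}), ⟨subset_univ _, by simp⟩, ?_⟩ (one_diff subset_rfl x hσ)).2 rfl
    ext y
    simp only [mem_diff, mem_univ, mem_singleton_iff, mem_union, mem_inter_iff, mem_insert_iff]
    by_cases h1 : y = q
    · subst h1; tauto
    · tauto

def Two (X R R' : Set α) : Set (Set α) :=
  {A | A ⊆ X ∧ ∀ x ∈ A, ∀ y ∈ A, ∀ z ∈ X, (x ∈ R → z ∈ R) → (y ∈ R' → z ∈ R') → z ∈ A}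

lemma aligned_two (X R R' : Set α) : Aligned X (Two X R R') where
  sub A hA := hA.1
  empty := ⟨empty_subset _, by simp⟩
  whole := ⟨subset_rfl, fun _ _ _ _ _ h _ _ => h⟩
  inter F hF := fun ⟨B, hB⟩ => ⟨(sInter_subset_of_mem hB).trans (hF hB).1,
    fun x hx y hy z hz h1 h2 A hA => (hF hA).2 x (hx A hA) y (hy A hA) z hz h1 h2⟩
  chain F hF hc := ⟨sUnion_subset fun A hA => (hF hA).1,
    fun x ⟨A, hA, hx⟩ y ⟨B, hB, hy⟩ z hz h1 h2 => (hc.total hA hB).elim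
      (fun h => ⟨B, hB, (hF hB).2 x (h hx) y hy z hz h1 h2⟩)
      fun h => ⟨A, hA, (hF hA).2 x hx y (h hy) z hz h1 h2⟩⟩

lemma mem_two {X R R' A : Set α} (hA : A ∈ Two X R R') (hn : A.Nonempty) {z : α} (hz : z ∈ X)
    (h1 : A ⊆ R → z ∈ R) (h2 : A ⊆ R' → z ∈ R') : z ∈ A := by
  obtain ⟨w, hw⟩ := hn
  obtain ⟨x, hx, g1⟩ : ∃ x ∈ A, x ∈ R → z ∈ R := by
    by_cases h : A ⊆ R
    · exact ⟨w, hw, fun _ => h1 h⟩
    · obtain ⟨x, hx, h3⟩ := not_subset.mp h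
      exact ⟨x, hx, fun h4 => absurd h4 h3⟩
  obtain ⟨y, hy, g2⟩ : ∃ x ∈ A, x ∈ R' → z ∈ R' := by
    by_cases h : A ⊆ R'
    · exact ⟨w, hw, fun _ => h2 h⟩
    · obtain ⟨x, hx, h3⟩ := not_subset.mp h
      exact ⟨x, hx, fun h4 => absurd h4 h3⟩
  exact hA.2 x hx y hy z hz g1 g2

lemma helly_two {X R R' : Set α} {σ : ℕ} (hR : R ⊆ X) (hR' : R' ⊆ X) (hd : Disjoint R R')
    (h1 : R.Infinite) (h2 : R'.Infinite) : helly X (Two X R R') σ = (2 * σ : ℕ) := by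
  refine le_antisymm (helly_le _ fun S hS h3 => ?_) ?_
  · obtain ⟨z, hz, g1, g2⟩ : ∃ z ∈ X, ((S \ R).encard ≤ σ → z ∈ R) ∧
        ((S \ R').encard ≤ σ → z ∈ R') := by
      by_cases h : (S \ R).encard ≤ σ
      · obtain ⟨z, hz⟩ := h1.nonempty
        refine ⟨z, hR hz, fun _ => hz, fun h4 => (too_big (fun x hx => ?_) h h4 (by omega) h3).elim⟩
        by_cases h5 : x ∈ R
        · exact Or.inr ⟨hx, fun h6 => disjoint_left.mp hd h5 h6⟩
        · exact Or.inl ⟨hx, h5⟩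
      · obtain ⟨z, hz⟩ := h2.nonempty
        exact ⟨z, hR' hz, fun h4 => absurd h4 h, fun _ => hz⟩
    refine ⟨z, mem_core.mpr fun A hA h4 => mem_two hA ?_ hz
      (fun h => g1 ((encard_le_encard (diff_subset_diff_right h)).trans h4))
      fun h => g2 ((encard_le_encard (diff_subset_diff_right h)).trans h4)⟩
    by_contra h5
    exact too_big (U := S \ A) (V := S \ A) (fun x hx => Or.inl ⟨hx, fun h6 => h5 ⟨x, h6⟩⟩) h4 h4
      (by omega) h3
  · obtain ⟨W, hW, hW2⟩ := exists_subset_encard_eq (k := σ) (h1.encard_eq ▸ le_top)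
    obtain ⟨V, hV, hV2⟩ := exists_subset_encard_eq (k := σ) (h2.encard_eq ▸ le_top)
    have h3 : (W ∪ V).encard = (2 * σ : ℕ) := by
      rw [encard_union_eq (hd.mono hW hV), hW2, hV2]
      norm_cast
      omega
    rw [← h3]
    refine le_helly (union_subset (hW.trans hR) (hV.trans hR')) fun ⟨x, hx⟩ => ?_
    exact disjoint_left.mp hd
      (mem_core.mp hx R ⟨hR, fun _ h _ _ _ _ g _ => g h⟩ (le_trans (encard_le_encard
        fun y hy => hy.1.resolve_left fun h => hy.2 (hW h)) hV2.le))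
      (mem_core.mp hx R' ⟨hR', fun _ _ _ h _ _ _ g => g h⟩ (le_trans (encard_le_encard
        fun y hy => hy.1.resolve_right fun h => hy.2 (hV h)) hW2.le))

open Classical in
lemma three {σ : ℕ} (S : Finset ℕ) {F1 F2 F3 : Set ℕ} (a b c : ℕ)
    (h12 : ∀ x, x ∈ F1 → x ∈ F2 → x = a) (h13 : ∀ x, x ∈ F1 → x ∈ F3 → x = b)
    (h23 : ∀ x, x ∈ F2 → x ∈ F3 → x = c) (g1 : ((S : Set ℕ) \ F1).encard ≤ σ)
    (g2 : ((S : Set ℕ) \ F2).encard ≤ σ) (g3 : ((S : Set ℕ) \ F3).encard ≤ σ) :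
    2 * S.card ≤ 3 * σ + 3 := by
  have h : ∀ F : Set ℕ, ((S : Set ℕ) \ F).encard ≤ σ →
      ∃ P ⊆ S, (∀ x ∈ P, x ∈ F) ∧ S.card ≤ σ + P.card := by
    intro F hF
    have h9 : (S : Set ℕ) \ F = (S.filter (fun y => ¬ y ∈ F) : Finset ℕ) := by
      ext y; simp
    rw [h9, encard_coe_eq_coe_finsetCard] at hF
    have := Finset.card_filter_add_card_filter_not (s := S) (· ∈ F)
    norm_cast at hF
    exact ⟨S.filter (· ∈ F), Finset.filter_subset _ _, fun x hx => (Finset.mem_filter.mp hx).2,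
      by omega⟩
  obtain ⟨P1, p1, q1, r1⟩ := h _ g1
  obtain ⟨P2, p2, q2, r2⟩ := h _ g2
  obtain ⟨P3, p3, q3, r3⟩ := h _ g3
  have e1 := Finset.card_union_add_card_inter P1 P2
  have e2 := Finset.card_union_add_card_inter (P1 ∪ P2) P3
  have e3 := Finset.card_le_card (Finset.union_subset (Finset.union_subset p1 p2) p3)
  have e4 : (P1 ∩ P2).card ≤ ({a} : Finset ℕ).card := Finset.card_le_card fun x hx =>
    Finset.mem_singleton.mpr (h12 x (q1 x (Finset.mem_inter.mp hx).1)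
      (q2 x (Finset.mem_inter.mp hx).2))
  have e5 : ((P1 ∪ P2) ∩ P3).card ≤ ({b, c} : Finset ℕ).card := Finset.card_le_card fun x hx => by
    obtain ⟨h1, h2⟩ := Finset.mem_inter.mp hx
    rcases Finset.mem_union.mp h1 with h1 | h1
    · simp [h13 x (q1 x h1) (q3 x h2)]
    · simp [h23 x (q2 x h1) (q3 x h2)]
  have e6 := Finset.card_le_two (a := b) (b := c)
  rw [Finset.card_singleton] at e4
  omega

def L (a b r : ℕ) : Set ℕ := {x | x = a ∨ x = b ∨ 6 ≤ x ∧ x % 4 = r}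

lemma L_inf (a b r : ℕ) (hr : r < 4) : (L a b r).Infinite :=
  infinite_of_injective_forall_mem (f := fun n : ℕ => 4 * n + 8 + r)
    (fun x y h => by simp only at h; omega) fun n => by simp only [L, mem_setOf_eq]; omega

lemma ex4 (σ : ℕ) (hσ : 1 ≤ σ) : Ex σ (2 * σ : ℕ) (2 * σ : ℕ) (· ≤ (σ + (σ + 3) / 2 : ℕ)) := by
  refine ⟨{x | x ≠ 1}, {x | x ≠ 0}, Two _ (L 2 3 0) (L 4 5 1), Two _ (L 2 4 2) (L 3 5 3),
    aligned_two _ _ _, aligned_two _ _ _, helly_two ?_ ?_ (disjoint_left.mpr ?_) (L_inf _ _ _ (by omega))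
    (L_inf _ _ _ (by omega)), helly_two ?_ ?_ (disjoint_left.mpr ?_) (L_inf _ _ _ (by omega))
    (L_inf _ _ _ (by omega)), ?_⟩
  iterate 6 (intro x; simp only [L, mem_setOf_eq]; omega)
  by_contra hc
  obtain ⟨S, -, hS, h1⟩ := exists_bad (m := σ + (σ + 3) / 2 + 1) (by omega)
    (by exact_mod_cast Order.add_one_le_of_lt (not_le.mp hc))
  obtain ⟨z, g1, g2⟩ : ∃ z : ℕ, (z = 1 ∨
      (((S : Set ℕ) \ insert 1 (L 2 3 0)).encard ≤ σ → z ∈ L 2 3 0) ∧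
      (((S : Set ℕ) \ insert 1 (L 4 5 1)).encard ≤ σ → z ∈ L 4 5 1)) ∧ (z = 0 ∨
      (((S : Set ℕ) \ insert 0 (L 2 4 2)).encard ≤ σ → z ∈ L 2 4 2) ∧
      (((S : Set ℕ) \ insert 0 (L 3 5 3)).encard ≤ σ → z ∈ L 3 5 3)) := by
    have t1 := three (σ := σ) S (F1 := insert 1 (L 2 3 0)) (F2 := insert 1 (L 4 5 1))
      (F3 := insert 0 (L 2 4 2)) 1 2 4 (by simp only [L, mem_setOf_eq, mem_insert_iff]; omega)
      (by simp only [L, mem_setOf_eq, mem_insert_iff]; omega)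
      (by simp only [L, mem_setOf_eq, mem_insert_iff]; omega)
    have t2 := three (σ := σ) S (F1 := insert 1 (L 2 3 0)) (F2 := insert 1 (L 4 5 1))
      (F3 := insert 0 (L 3 5 3)) 1 3 5 (by simp only [L, mem_setOf_eq, mem_insert_iff]; omega)
      (by simp only [L, mem_setOf_eq, mem_insert_iff]; omega)
      (by simp only [L, mem_setOf_eq, mem_insert_iff]; omega)
    have t3 := three (σ := σ) S (F1 := insert 0 (L 2 4 2)) (F2 := insert 0 (L 3 5 3))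
      (F3 := insert 1 (L 2 3 0)) 0 2 3 (by simp only [L, mem_setOf_eq, mem_insert_iff]; omega)
      (by simp only [L, mem_setOf_eq, mem_insert_iff]; omega)
      (by simp only [L, mem_setOf_eq, mem_insert_iff]; omega)
    have t4 := three (σ := σ) S (F1 := insert 0 (L 2 4 2)) (F2 := insert 0 (L 3 5 3))
      (F3 := insert 1 (L 4 5 1)) 0 4 5 (by simp only [L, mem_setOf_eq, mem_insert_iff]; omega)
      (by simp only [L, mem_setOf_eq, mem_insert_iff]; omega)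
      (by simp only [L, mem_setOf_eq, mem_insert_iff]; omega)
    have t0 : ¬ 2 * S.card ≤ 3 * σ + 3 := by omega
    have m1 : 2 ∈ L 2 3 0 := Or.inl rfl
    have m2 : 3 ∈ L 2 3 0 := Or.inr (Or.inl rfl)
    have m3 : 4 ∈ L 4 5 1 := Or.inl rfl
    have m4 : 5 ∈ L 4 5 1 := Or.inr (Or.inl rfl)
    have m5 : 2 ∈ L 2 4 2 := Or.inl rfl
    have m6 : 4 ∈ L 2 4 2 := Or.inr (Or.inl rfl)
    have m7 : 3 ∈ L 3 5 3 := Or.inl rfl
    have m8 : 5 ∈ L 3 5 3 := Or.inr (Or.inl rfl)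
    generalize (((S : Set ℕ) \ insert 1 (L 2 3 0)).encard ≤ σ) = r at *
    generalize (((S : Set ℕ) \ insert 1 (L 4 5 1)).encard ≤ σ) = r' at *
    generalize (((S : Set ℕ) \ insert 0 (L 2 4 2)).encard ≤ σ) = c at *
    generalize (((S : Set ℕ) \ insert 0 (L 3 5 3)).encard ≤ σ) = c' at *
    by_cases a1 : r ∧ r'
    · exact ⟨1, Or.inl rfl, Or.inr ⟨fun h => absurd (t1 a1.1 a1.2 h) t0,
        fun h => absurd (t2 a1.1 a1.2 h) t0⟩⟩
    by_cases a2 : c ∧ c'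
    · exact ⟨0, Or.inr ⟨fun h => absurd (t3 a2.1 a2.2 h) t0,
        fun h => absurd (t4 a2.1 a2.2 h) t0⟩, Or.inl rfl⟩
    by_cases a3 : r' <;> by_cases a4 : c'
    · exact ⟨5, Or.inr ⟨fun h => absurd ⟨h, a3⟩ a1, fun _ => m4⟩,
        Or.inr ⟨fun h => absurd ⟨h, a4⟩ a2, fun _ => m8⟩⟩
    · exact ⟨4, Or.inr ⟨fun h => absurd ⟨h, a3⟩ a1, fun _ => m3⟩,
        Or.inr ⟨fun _ => m6, fun h => absurd h a4⟩⟩
    · exact ⟨3, Or.inr ⟨fun _ => m2, fun h => absurd h a3⟩,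
        Or.inr ⟨fun h => absurd ⟨h, a4⟩ a2, fun _ => m7⟩⟩
    · exact ⟨2, Or.inr ⟨fun _ => m1, fun h => absurd h a3⟩,
        Or.inr ⟨fun _ => m5, fun h => absurd h a4⟩⟩
  refine h1 ⟨z, mem_core.mpr ?_⟩
  rintro _ ⟨A, hA, B, hB, rfl⟩ h2
  have side : ∀ (p : ℕ) (D A R R' : Set ℕ), A ∈ Two {x | x ≠ p} R R' → D ⊆ insert p A →
      ((S : Set ℕ) \ D).encard ≤ σ → (z = p ∨ (((S : Set ℕ) \ insert p R).encard ≤ σ → z ∈ R) ∧
        (((S : Set ℕ) \ insert p R').encard ≤ σ → z ∈ R')) → z = p ∨ z ∈ A := by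
    intro p D A R R' hA hD h3 h4
    by_cases h5 : z = p
    · exact Or.inl h5
    obtain ⟨h6, h7⟩ := h4.resolve_left h5
    refine Or.inr (mem_two hA ?_ h5 (fun h => h6 ((encard_le_encard (diff_subset_diff_right
      (hD.trans (insert_subset_insert h)))).trans h3)) fun h => h7 ((encard_le_encard
        (diff_subset_diff_right (hD.trans (insert_subset_insert h)))).trans h3))
    by_contra h8
    refine too_big (S := S) (U := {p}) (n := 1) (m := σ + (σ + 3) / 2) (fun x hx => ?_) (by simp) h3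
      (by omega) (by rw [encard_coe_eq_coe_finsetCard, hS]; norm_cast)
    by_cases h9 : x ∈ D
    · exact Or.inl ((hD h9).resolve_right fun h => h8 ⟨x, h⟩)
    · exact Or.inr ⟨hx, h9⟩
  have s1 := side 1 _ A _ _ hA (fun x hx => by
    simp only [mem_union, mem_diff, mem_inter_iff, mem_setOf_eq, mem_insert_iff] at hx ⊢
    tauto) h2 g1
  have s2 := side 0 _ B _ _ hB (fun x hx => by
    simp only [mem_union, mem_diff, mem_inter_iff, mem_setOf_eq, mem_insert_iff] at hx ⊢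
    tauto) h2 g2
  simp only [mem_union, mem_diff, mem_inter_iff, mem_setOf_eq]
  rcases s1 with s1 | s1 <;> rcases s2 with s2 | s2
  · omega
  · exact Or.inl (Or.inr ⟨s2, fun h => h s1⟩)
  · exact Or.inl (Or.inl ⟨s1, fun h => h s2⟩)
  · exact Or.inr ⟨s1, s2⟩

end Pool.Agent.H10.As
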