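import Pool.Agent.H10.AsB

namespace Pool.Agent.H10.As

open Set

variable {α : Type*} {X1 X2 : Set α} {C1 C2 : Set (Set α)} {σ : ℕ}

lemma enc_le {X : Set α} {C : Set (Set α)} (h0 : ∅ ∈ C) (h : helly X C σ < σ) :
    X.encard ≤ helly X C σ := by
  have := small h0 (min_le_left (σ : ℕ∞) X.encard) (min_le_right _ _)
  exact (min_le_iff.mp this).resolve_left (not_le.mpr h)

lemma zero_case (h1 : Aligned X1 C1) (hσ : 1 ≤ σ) (h : helly X1 C1 σ = 0) :
    helly (X1 ∪ X2) (asum X1 C1 X2 C2) σ ≤ helly X2 C2 σ := by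
  have h3 : X1 = ∅ := by
    have := enc_le h1.empty (σ := σ) (X := X1) (by rw [h]; exact_mod_cast hσ)
    rw [h] at this
    simpa using this
  subst h3
  refine le_iInf₂ fun k hk => helly_le k fun S hS hc => ?_
  obtain ⟨x, hx⟩ := hk S (by simpa using hS) hc
  refine ⟨x, mem_core.mpr ?_⟩
  rintro _ ⟨A, hA, B, hB, rfl⟩ h4
  rw [subset_empty_iff.mp (h1.sub A hA)] at h4 ⊢
  simpa using mem_core.mp hx B hB (by simpa using h4)

theorem up_le (h1 : Aligned X1 C1) (h2 : Aligned X2 C2) (hσ : 1 ≤ σ) :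
    helly (X1 ∪ X2) (asum X1 C1 X2 C2) σ ≤ Up σ (helly X1 C1 σ) (helly X2 C2 σ) := by
  unfold Up
  split_ifs with h
  · rcases h with h | h | ⟨h, h'⟩
    · exact (zero_case h1 hσ h).trans le_add_self
    · rw [union_comm, asum_comm]
      exact (zero_case h2 hσ h).trans le_self_add
    · exact (helly_le_encard _ _ _).trans ((encard_union_le _ _).trans
        (add_le_add (enc_le h1.empty h) (enc_le h2.empty h')))
  · exact le_top

theorem up_ex (hσ : 1 ≤ σ) (a b : ℕ∞) : Ex σ a b (· = Up σ a b) := by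
  unfold Up
  split_ifs with h
  · obtain ⟨U, hU, rfl⟩ := res_ex 1 (by omega) a
    obtain ⟨V, hV, rfl⟩ := res_ex 2 (by omega) b
    rw [← encard_union_eq (disjoint_left.mpr fun x g1 g2 => by
      have := hU x g1; have := hV x g2; omega)]
    exact ex0 hσ U V
  · push Not at h
    by_cases h1 : a < σ
    · exact ex3 hσ h.1 (h.2.2 h1)
    · exact (ex3 hσ h.2.1 (not_lt.mp h1)).symm

lemma nest (hσ : 1 ≤ σ) {a b : ℕ∞} (h : a ≤ b) : Ex σ a b (· ≤ b) := by
  obtain ⟨V, -, rfl⟩ := res_ex 2 (by omega) b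
  obtain ⟨U, hU, rfl⟩ := exists_subset_encard_eq h
  exact (ex0 hσ U V).mono fun x hx => by rw [hx, union_eq_right.mpr hU]

theorem lo_ex (hσ : 1 ≤ σ) (a b : ℕ∞) : Ex σ a b (· ≤ Lo σ a b) := by
  unfold Lo
  split_ifs with h
  · by_cases h1 : (σ : ℕ∞) ≤ a
    · exact (ex1 b hσ h1).mono fun x hx => hx.trans (le_max_left _ _)
    by_cases h2 : (σ : ℕ∞) ≤ b
    · exact (ex1 a hσ h2).symm.mono fun x hx => hx.trans (le_max_right _ _)
    rcases le_total a b with h3 | h3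
    · exact (nest hσ h3).mono fun x hx => hx.trans (le_max_right _ _)
    · exact (nest hσ h3).symm.mono fun x hx => hx.trans (le_max_left _ _)
  · push Not at h
    rcases min_choice (min a b) ((2 * σ : ℕ) : ℕ∞) with h1 | h1
    · rcases min_choice a b with h2 | h2
      · rw [h1, h2]; exact ex1 b hσ h.1
      · rw [h1, h2]; exact (ex1 a hσ h.2).symm
    · have h2 := min_eq_right_iff.mp h1
      rw [h1]
      exact ex2 hσ (h2.trans (min_le_left _ _)) (h2.trans (min_le_right _ _))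

lemma empty_mem (h1 : Aligned X1 C1) (h2 : Aligned X2 C2) : ∅ ∈ asum X1 C1 X2 C2 :=
  ⟨∅, h1.empty, ∅, h2.empty, by simp⟩

lemma lo_small (h1 : Aligned X1 C1) (h2 : Aligned X2 C2) (h : helly X1 C1 σ < σ) :
    max (helly X1 C1 σ) (helly X2 C2 σ) ≤ helly (X1 ∪ X2) (asum X1 C1 X2 C2) σ :=
  max_le (small (empty_mem h1 h2) h.le ((helly_le_encard _ _ _).trans
    (encard_le_encard subset_union_left))) (degenerate h1 h2 h)

theorem lo_le (h1 : Aligned X1 C1) (h2 : Aligned X2 C2) (hσ : 1 ≤ σ)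
    (h : σ ≤ 3 ∨ helly X1 C1 σ < σ ∨ helly X2 C2 σ < σ ∨
      (∃ k : ℕ, k * k / 4 + 1 ≤ σ ∧ min (helly X1 C1 σ) (helly X2 C2 σ) = (σ + k : ℕ)) ∨
      ((σ * σ + σ : ℕ) : ℕ∞) ≤ min (helly X1 C1 σ) (helly X2 C2 σ)) :
    Lo σ (helly X1 C1 σ) (helly X2 C2 σ) ≤ helly (X1 ∪ X2) (asum X1 C1 X2 C2) σ := by
  unfold Lo
  split_ifs with h0
  · rcases h0 with h0 | h0
    · exact lo_small h1 h2 h0
    · rw [union_comm, asum_comm, max_comm]
      exact lo_small h2 h1 h0
  push Not at h0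
  rcases h with h | h | h | ⟨k, hk, h⟩ | h
  · obtain ⟨m, hm⟩ := ENat.ne_top_iff_exists.mp (ne_top_of_le_ne_top (ENat.coe_ne_top (2 * σ))
      (min_le_right (min (helly X1 C1 σ) (helly X2 C2 σ)) _))
    have g1 : (σ : ℕ∞) ≤ m := hm ▸ le_min (le_min h0.1 h0.2) (by norm_cast; omega)
    have g2 : (m : ℕ∞) ≤ (2 * σ : ℕ) := hm ▸ min_le_right _ _
    have g3 : (m : ℕ∞) ≤ min (helly X1 C1 σ) (helly X2 C2 σ) := hm ▸ min_le_left _ _
    norm_cast at g1 g2
    obtain ⟨k, rfl⟩ := Nat.exists_eq_add_of_le g1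
    rw [← hm]
    refine lower h1 h2 hσ le_rfl (Or.inl ?_) (g3.trans (min_le_left _ _))
      (g3.trans (min_le_right _ _))
    have g4 : k ≤ 3 := by omega
    interval_cases k <;> omega
  · exact absurd h0.1 (not_le.mpr h)
  · exact absurd h0.2 (not_le.mpr h)
  · exact (min_le_left _ _).trans (h.le.trans (lower h1 h2 hσ le_rfl (Or.inl hk)
      (h.ge.trans (min_le_left _ _)) (h.ge.trans (min_le_right _ _))))
  · refine (min_le_right _ _).trans ?_
    rw [two_mul]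
    exact lower h1 h2 hσ (m := σ * σ + σ) (by nlinarith) (Or.inr ⟨le_rfl, le_rfl⟩)
      (h.trans (min_le_left _ _)) (h.trans (min_le_right _ _))

end Pool.Agent.H10.As
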