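import Mathlib

namespace Pool.Agent.H10.As

variable {α : Type*}

/-- `(X, C)` is an aligned space. -/
structure Aligned (X : Set α) (C : Set (Set α)) : Prop where
  sub : ∀ A ∈ C, A ⊆ X
  empty : ∅ ∈ C
  whole : X ∈ C
  inter : ∀ F ⊆ C, F.Nonempty → ⋂₀ F ∈ C
  chain : ∀ F ⊆ C, IsChain (· ⊆ ·) F → ⋃₀ F ∈ C

/-- The hull `C(S)`. -/
def hull (C : Set (Set α)) (S : Set α) : Set α := ⋂₀ {A | A ∈ C ∧ S ⊆ A}

/-- The `σ`-core of `S`. -/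
def core (C : Set (Set α)) (σ : ℕ) (S : Set α) : Set α :=
  ⋂ M ∈ {M : Set α | M ⊆ S ∧ M.encard ≤ σ}, hull C (S \ M)

/-- The `σ`-Helly number, in `ℕ∞`. -/
noncomputable def helly (X : Set α) (C : Set (Set α)) (σ : ℕ) : ℕ∞ :=
  ⨅ k ∈ {k : ℕ | ∀ S ⊆ X, (k : ℕ∞) + 1 ≤ S.encard → (core C σ S).Nonempty}, (k : ℕ∞)

/-- The family of convex sets of the aligned sum (its ground set is `X1 ∪ X2`). -/
def asum (X1 : Set α) (C1 : Set (Set α)) (X2 : Set α) (C2 : Set (Set α)) : Set (Set α) :=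
  {D | ∃ A ∈ C1, ∃ B ∈ C2, D = (A \ X2) ∪ (B \ X1) ∪ (A ∩ B)}

/-- The best upper bound for `h(σ)` in terms of `a = h₁(σ)`, `b = h₂(σ)`. -/
noncomputable def Up (σ : ℕ) (a b : ℕ∞) : ℕ∞ :=
  if a = 0 ∨ b = 0 ∨ (a < σ ∧ b < σ) then a + b else ⊤

/-- The candidate lower bound for `h(σ)` in terms of `a = h₁(σ)`, `b = h₂(σ)`. -/
noncomputable def Lo (σ : ℕ) (a b : ℕ∞) : ℕ∞ :=
  if a < σ ∨ b < σ then max a b else min (min a b) (2 * σ : ℕ)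

/-- Some pair of aligned spaces on subsets of `ℕ` has `h₁(σ) = a`, `h₂(σ) = b`, and the
`σ`-Helly number of its aligned sum satisfies `Q`. -/
def Ex (σ : ℕ) (a b : ℕ∞) (Q : ℕ∞ → Prop) : Prop :=
  ∃ (X1 X2 : Set ℕ) (C1 C2 : Set (Set ℕ)), Aligned X1 C1 ∧ Aligned X2 C2 ∧ helly X1 C1 σ = a ∧
    helly X2 C2 σ = b ∧ Q (helly (X1 ∪ X2) (asum X1 C1 X2 C2) σ)

end Pool.Agent.H10.As
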