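import Mathlib

set_option autoImplicit false

namespace Pool.Agent.H10.Av
open Finset

variable {V : Type} [Fintype V] [DecidableEq V]

/-- firing set: the unstable non-sink vertices; `G v` is the set of out-neighbours of `v` -/
def fire (G : V → Finset V) (c : V → ℕ) : Finset V :=
  univ.filter fun v => (G v).card ≠ 0 ∧ (G v).card ≤ c v

/-- one step of parallel firing -/
def step (G : V → Finset V) (c : V → ℕ) : V → ℕ := fun v =>
  c v - (if v ∈ fire G c then (G v).card else 0) + ((fire G c).filter fun u => v ∈ G u).card

/-- geometric realization of the complex of all nonempty subsets of the sets `S t` -/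
def real {T : Type} (S : T → Finset V) : Set (V → ℝ) :=
  {x | (∀ v, 0 ≤ x v) ∧ ∑ v, x v = 1 ∧ ∃ t, ∀ v, v ∉ S t → x v = 0}

/-- geometric realization of the avalanche complex -/
def aval (G : V → Finset V) (c : V → ℕ) : Set (V → ℝ) := real fun t : ℕ => fire G ((step G)^[t] c)

/-- `X` is homotopy equivalent to the avalanche complex of a loopless weakly connected finite
digraph with some starting configuration -/
def Realised (X : Type) [TopologicalSpace X] : Prop :=
  ∃ (V : Type) (_ : Fintype V) (_ : DecidableEq V) (G : V → Finset V) (c : V → ℕ),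
    (∀ v, v ∉ G v) ∧ (SimpleGraph.fromRel fun u v => v ∈ G u).Connected ∧
      Nonempty (ContinuousMap.HomotopyEquiv (aval G c) X)

/-- the unit sphere of dimension `n` -/
abbrev Sph (n : ℕ) : Type := Metric.sphere (0 : EuclideanSpace ℝ (Fin (n + 1))) 1

/-- base point `(1, 0, ..., 0)` -/
noncomputable def base (n : ℕ) : Sph n := ⟨EuclideanSpace.single 0 1, by simp⟩

/-- the wedge of spheres of dimensions `d 0, ..., d (m-1)`: the base points of the spheres are glued
to one extra point -/
abbrev Wedge {m : ℕ} (d : Fin m → ℕ) : Type :=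
  Quot fun a b : (Σ i, Sph (d i)) ⊕ Unit => ∃ i, a = .inl ⟨i, base (d i)⟩ ∧ b = .inr ()

end Pool.Agent.H10.Av
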