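import Mathlib
import Pool.Agent.H10.AvDefs

set_option autoImplicit false
set_option linter.unusedSectionVars false

namespace Pool.Agent.H10.Av
open Finset Sum

variable {U : Type} [Fintype U] [DecidableEq U] (n : ℕ) (S : ℕ → Finset U)

def R : U ⊕ Fin (n + 2) → U ⊕ Fin (n + 2) → Prop
  | inl _, inl _ => False
  | inl _, inr s => s.val = n + 1
  | inr t, inl u => u ∈ S (t + 1)
  | inr t, inr s => s.val = t + 1

open Classical in
noncomputable def G (a : U ⊕ Fin (n + 2)) : Finset (U ⊕ Fin (n + 2)) := univ.filter (R n S a)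

lemma mem_G {a v : U ⊕ Fin (n + 2)} : v ∈ G n S a ↔ R n S a v := by simp [G]

lemma G_inl (u : U) : (G n S (inl u)).card = 1 := by
  refine card_eq_one.2 ⟨inr (Fin.last _), ext fun v => ?_⟩
  cases v <;> simp [mem_G, R, Fin.ext_iff]

lemma G_inr (s : Fin (n + 2)) (h : s.val ≤ n) : (G n S (inr s)).card ≠ 0 :=
  card_ne_zero.2 ⟨inr ⟨s + 1, by omega⟩, by simp [mem_G, R]⟩

def Inv (t : ℕ) (c : U ⊕ Fin (n + 2) → ℕ) : Prop :=
  (∀ u, c (inl u) = if u ∈ S t then 1 else 0) ∧ ∀ s : Fin (n + 2), s.val ≤ n → c (inr s) =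
    if s.val < t then 0 else if s.val = t then (G n S (inr s)).card else (G n S (inr s)).card - 1

variable {n S}

lemma fire_l {t : ℕ} {c : U ⊕ Fin (n + 2) → ℕ} (h : Inv n S t c) (u : U) :
    inl u ∈ fire (G n S) c ↔ u ∈ S t := by
  simp only [fire, mem_filter, mem_univ, G_inl, h.1]
  split_ifs with a <;> simp [a]

lemma fire_r (hS : ∀ t, n < t → S t = ∅) {t : ℕ} {c : U ⊕ Fin (n + 2) → ℕ} (h : Inv n S t c)
    (s : Fin (n + 2)) : inr s ∈ fire (G n S) c ↔ s.val = t ∧ t ≤ n := by
  simp only [fire, mem_filter, mem_univ, true_and]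
  by_cases a : s.val ≤ n
  · have := G_inr n S s a
    rw [h.2 s a]
    split_ifs <;> omega
  · have : G n S (inr s) = ∅ := eq_empty_of_forall_notMem fun v => by
      cases v <;> simp only [mem_G, R]
      · simp [hS _ (show n < s + 1 by omega)]
      · omega
    simp [this]
    omega

lemma card_ite {A : Type} (F : Finset A) (P : Prop) [Decidable P] (a : A)
    (h : ∀ v, v ∈ F ↔ P ∧ v = a) : F.card = if P then 1 else 0 := by
  split_ifs with b
  · exact card_eq_one.2 ⟨a, ext fun v => by simp [h, b]⟩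
  · exact card_eq_zero.2 (eq_empty_of_forall_notMem fun v => by simp [h, b])

lemma inv_step (hS : ∀ t, n < t → S t = ∅) {t : ℕ} {c : U ⊕ Fin (n + 2) → ℕ} (h : Inv n S t c) :
    Inv n S (t + 1) (step (G n S) c) := by
  refine ⟨fun u => ?_, fun s a => ?_⟩
  · rw [step, card_ite (filter _ _) (u ∈ S (t + 1)) (inr ⟨min t (n + 1), by omega⟩)]
    · simp only [fire_l h, G_inl, h.1]
      omega
    · rintro (v | v) <;> simp only [mem_filter, mem_G, R, fire_r hS h, inr.injEq, Fin.ext_iff]
      · simp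
      · refine ⟨fun b => ⟨b.1.1 ▸ b.2, by omega⟩, fun b => ?_⟩
        have : t + 1 ≤ n := not_lt.1 fun d => by simpa [hS _ d] using b.1
        rw [show v.val = t by omega]
        exact ⟨⟨rfl, by omega⟩, b.1⟩
  · rw [step, card_ite (filter _ _) (s.val = t + 1) (inr ⟨min t (n + 1), by omega⟩)]
    · have := G_inr n S s a
      simp only [fire_r hS h, h.2 s a]
      split_ifs <;> omega
    · rintro (v | v) <;> simp only [mem_filter, mem_G, R, fire_r hS h, inr.injEq, Fin.ext_iff]
      · simp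
        omega
      · omega

theorem realA (h1 : ∀ t ≤ n, (S t).Nonempty) (hS : ∀ t, n < t → S t = ∅) :
    Realised (real S) := by
  classical
  let c : U ⊕ Fin (n + 2) → ℕ := Sum.elim (fun u => if u ∈ S 0 then 1 else 0) fun s =>
    if s.val = 0 then (G n S (inr s)).card else (G n S (inr s)).card - 1
  have inv : ∀ t, Inv n S t ((step (G n S))^[t] c) := fun t => by
    induction t with
    | zero => exact ⟨fun _ => rfl, fun _ _ => rfl⟩
    | succ t ih => rw [Function.iterate_succ_apply']; exact inv_step hS ih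
  refine ⟨U ⊕ Fin (n + 2), inferInstance, inferInstance, G n S, c, ?_, ?_, ?_⟩
  · rintro (v | v) <;> simp [mem_G, R]
  · have : ∀ k (s : Fin (n + 2)), s.val + k = n + 1 →
        (SimpleGraph.fromRel fun u v => v ∈ G n S u).Reachable (inr s) (inr (Fin.last _)) := by
      intro k
      induction k with
      | zero => intro s a; rw [show s = Fin.last _ from Fin.ext a]
      | succ k ih =>
        intro s a
        refine .trans (SimpleGraph.Adj.reachable ?_) (ih ⟨s + 1, by omega⟩ (by simp; omega))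
        simp [mem_G, R, Fin.ext_iff]
    rw [SimpleGraph.connected_iff_exists_forall_reachable]
    refine ⟨inr (Fin.last _), fun v => .symm ?_⟩
    rcases v with v | v
    · exact SimpleGraph.Adj.reachable (by simp [mem_G, R])
    · exact this (n + 1 - v) v (by omega)
  have : ∀ s : Fin (n + 2), ∃ u, s.val ≤ n → u ∈ S s := fun s =>
    if a : s.val ≤ n then (h1 _ a).imp fun _ b _ => b else ⟨(h1 0 (by omega)).choose, fun b => absurd b a⟩
  choose ρ hρ using this
  let r : (U ⊕ Fin (n + 2) → ℝ) → U → ℝ := fun x u =>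
    x (inl u) + ∑ s, if ρ s = u then x (inr s) else 0
  have key : ∀ (x : U ⊕ Fin (n + 2) → ℝ) t, (∀ v, v ∉ fire (G n S) ((step (G n S))^[t] c) → x v = 0) →
      ∀ u, u ∉ S t → r x u = 0 := fun x t a u b => by
    simp only [r]
    rw [a _ (mt (fire_l (inv t) u).1 b), zero_add]
    refine sum_eq_zero fun s _ => ite_eq_right_iff.2 fun d => a _ fun e => b ?_
    rw [fire_r hS (inv t)] at e
    exact d ▸ e.1 ▸ hρ s (by omega)
  have rc : Continuous r := by
    refine continuous_pi fun u => .add (by fun_prop) (continuous_finsetSum _ fun s _ => ?_)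
    split_ifs <;> fun_prop
  have ic : Continuous fun y : U → ℝ => (Sum.elim y 0 : U ⊕ Fin (n + 2) → ℝ) := by
    refine continuous_pi ?_
    rintro (u | s) <;> simp <;> fun_prop
  have r0 : ∀ x ∈ aval (G n S) c, (∀ u, 0 ≤ r x u) ∧ ∑ u, r x u = 1 := fun x ⟨a, b, _⟩ =>
    ⟨fun u => add_nonneg (a _) (sum_nonneg fun s _ => by split_ifs; exacts [a _, le_rfl]), by
      rw [← b, Fintype.sum_sum_type, sum_add_distrib, sum_comm]
      simp⟩
  have r1 : ∀ x ∈ aval (G n S) c, r x ∈ real S := fun x hx =>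
    ⟨(r0 x hx).1, (r0 x hx).2, hx.2.2.imp (key x)⟩
  have i1 : ∀ y ∈ real S, Sum.elim y 0 ∈ aval (G n S) c := fun y ⟨a, b, t, d⟩ =>
    ⟨by rintro (u | s) <;> simp [a], by simp [Fintype.sum_sum_type, b], t, by
      rintro (u | s) e
      · exact d u (mt (fire_l (inv t) u).2 e)
      · rfl⟩
  refine ⟨⟨⟨fun x => ⟨r x, r1 _ x.2⟩, by fun_prop⟩, ⟨fun y => ⟨Sum.elim y.1 0, i1 _ y.2⟩,
    (ic.comp continuous_subtype_val).subtype_mk _⟩, ⟨⟨⟨fun p => ⟨(1 - p.1.1) • Sum.elim (r p.2) 0 +
      p.1.1 • p.2.1, ?_⟩, ?_⟩, fun x => by simp, fun x => by simp⟩⟩, ?_⟩⟩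
  · obtain ⟨⟨τ, τ0, τ1⟩, x, a, b, t, d⟩ := p
    have e := i1 _ (r1 x ⟨a, b, t, d⟩)
    refine ⟨fun v => add_nonneg (mul_nonneg (sub_nonneg.2 τ1) (e.1 v)) (mul_nonneg τ0 (a v)), ?_,
      t, fun v f => ?_⟩
    · simp only [Pi.add_apply, Pi.smul_apply, smul_eq_mul, sum_add_distrib, ← mul_sum, b, e.2.1]
      ring
    · rcases v with u | s
      · simp [d _ f, key x t d u (mt (fire_l (inv t) u).2 f)]
      · simp [d _ f]
  · refine Continuous.subtype_mk ?_ _
    fun_prop
  · convert ContinuousMap.Homotopic.refl _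
    ext y u
    simp [r]

theorem realB {T : Type} [Fintype T] [Nonempty T] (F : T → Finset U) (h : ∀ t, (F t).Nonempty) :
    Realised (real F) := by
  obtain ⟨n, hn⟩ := Nat.exists_eq_succ_of_ne_zero (Fintype.card_ne_zero (α := T))
  let e := (Fintype.equivFinOfCardEq hn).symm
  have := realA (n := n) (S := fun t => if a : t < n + 1 then F (e ⟨t, a⟩) else ∅)
    (fun t a => by rw [dif_pos (by omega)]; exact h _) fun t a => dif_neg (by omega)
  convert this using 2 <;> ext x <;> refine and_congr_right fun _ => and_congr_right fun b =>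
    ⟨fun ⟨t, a⟩ => ⟨e.symm t, by simpa [Nat.lt_succ_iff.1 (e.symm t).2] using a⟩, fun ⟨t, a⟩ => ?_⟩ <;>
  · by_cases d : t < n + 1
    · exact ⟨_, by simpa only [dif_pos d] using a⟩
    · simp only [dif_neg d] at a
      simp [a] at b

end Pool.Agent.H10.Av
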