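import Mathlib
import Pool.Agent.H10.AvA

set_option autoImplicit false

namespace Pool.Agent.H10.Av
open Finset Sum Function

noncomputable def g {n : ℕ} (x : Sph n) (p : Fin (n + 1) × Bool) : ℝ :=
  max (if p.2 then x.1 p.1 else -x.1 p.1) 0 ^ 2

lemma sq_sum {n : ℕ} (x : EuclideanSpace ℝ (Fin n)) :
    x ∈ Metric.sphere (0 : EuclideanSpace ℝ (Fin n)) 1 ↔ ∑ j, x j ^ 2 = 1 := by
  rw [EuclideanSpace.sphere_zero_eq _ zero_le_one]
  simp

lemma g_sum {n : ℕ} (x : Sph n) : ∑ p, g x p = 1 := by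
  rw [← (sq_sum _).1 x.2, Fintype.sum_prod_type]
  refine sum_congr rfl fun j _ => ?_
  rcases le_total (x.1 j) 0 with a | a <;> simp [g, a]

lemma g_inj {n : ℕ} : Injective (g (n := n)) := fun x y h => by
  ext j
  have a := congrFun h (j, true)
  have b := congrFun h (j, false)
  simp only [g, sq_eq_sq₀ (le_max_right _ _) (le_max_right _ _), if_true, Bool.false_eq_true,
    if_false] at a b
  rw [← max_zero_sub_max_neg_zero_eq_self (x.1 j), a, b, max_zero_sub_max_neg_zero_eq_self]

lemma g_base (n : ℕ) : g (base n) = Pi.single (0, true) 1 := by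
  ext ⟨j, s⟩
  by_cases a : j = 0 <;> cases s <;> simp [g, base, a]

variable {m : ℕ} (d : Fin m → ℕ)

abbrev Vx := Option (Σ i, Fin (d i + 1) × Bool)

def φ (i : Fin m) (p : Fin (d i + 1) × Bool) : Vx d := if p = (0, true) then none else some ⟨i, p⟩

lemma φ_inj (i : Fin m) : Injective (φ d i) := fun p q h => by
  unfold φ at h
  split_ifs at h <;> simp_all

def Fc : (Σ i, Fin (d i + 1) → Bool) ⊕ Unit → Finset (Vx d)
  | inl ⟨i, e⟩ => univ.image fun j => φ d i (j, e j)
  | inr _ => {none}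

noncomputable def f : (Σ i, Sph (d i)) ⊕ Unit → Vx d → ℝ
  | inl ⟨i, x⟩ => extend (φ d i) (g x) 0
  | inr _ => Pi.single none 1

lemma f_base (i : Fin m) : f d (inl ⟨i, base _⟩) = f d (inr ()) := by
  ext v
  simp only [f, g_base]
  by_cases a : ∃ p, φ d i p = v
  · obtain ⟨p, rfl⟩ := a
    rw [(φ_inj d i).extend_apply]
    by_cases b : p = (0, true) <;> simp [φ, b]
  · rw [extend_apply' _ _ _ a, Pi.single_eq_of_ne fun b => a ⟨(0, true), by simp [φ, b]⟩]
    rfl

lemma f_mem (a : (Σ i, Sph (d i)) ⊕ Unit) : f d a ∈ real (Fc d) := by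
  rcases a with ⟨i, x⟩ | a
  · refine ⟨fun v => ?_, ?_, inl ⟨i, fun j => decide (0 ≤ x.1 j)⟩, fun v h => ?_⟩
    · unfold f extend
      dsimp only
      split_ifs
      exacts [sq_nonneg _, le_rfl]
    · rw [← g_sum x]
      exact (Fintype.sum_of_injective _ (φ_inj d i) _ (extend (φ d i) (g x) 0)
        (fun v a => extend_apply' _ _ _ a) fun p => ((φ_inj d i).extend_apply _ _ _).symm).symm
    · by_cases a : ∃ p, φ d i p = v
      · obtain ⟨⟨j, s⟩, rfl⟩ := a
        have : s ≠ decide (0 ≤ x.1 j) := fun b => h (mem_image.2 ⟨j, mem_univ _, by rw [b]⟩)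
        rw [f, (φ_inj d i).extend_apply]
        cases s <;> simp [g] at this ⊢ <;> linarith
      · exact extend_apply' _ _ _ a
  · exact ⟨fun v => by by_cases b : v = none <;> simp [f, b], by simp [f], inr (),
      fun v h => Pi.single_eq_of_ne (by simpa [Fc] using h) _⟩

lemma f_surj (y : Vx d → ℝ) (h : y ∈ real (Fc d)) : ∃ a, f d a = y := by
  obtain ⟨h0, h1, ⟨i, e⟩ | t, h2⟩ := h
  · have inj : Injective fun j => φ d i (j, e j) := fun j k a => congrArg Prod.fst (φ_inj d i a)
    refine ⟨inl ⟨i, WithLp.toLp 2 fun j => (if e j then 1 else -1) * √(y (φ d i (j, e j))), ?_⟩, ?_⟩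
    · rw [sq_sum, ← h1]
      refine Fintype.sum_of_injective _ inj _ _ (fun v a => h2 v (by simpa [Fc] using a)) fun j => ?_
      dsimp only
      split_ifs <;> simp [h0]
    · ext v
      by_cases a : ∃ p, φ d i p = v
      · obtain ⟨⟨j, s⟩, rfl⟩ := a
        rw [f, (φ_inj d i).extend_apply]
        by_cases b : s = e j
        · rw [b]
          cases b : e j <;> simp [g, b, h0]
        · rw [h2 _ fun c => b (by
            obtain ⟨k, -, c⟩ := mem_image.1 c
            obtain ⟨rfl, r⟩ := Prod.mk.inj (φ_inj d i c)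
            exact r.symm)]
          cases s <;> cases c : e j <;> simp_all [g]
      · rw [h2 v fun c => a (by obtain ⟨k, -, c⟩ := mem_image.1 c; exact ⟨_, c⟩)]
        exact extend_apply' _ _ _ a
  · refine ⟨inr (), funext fun v => ?_⟩
    have a : ∀ v, v ≠ none → y v = 0 := fun v a => h2 v (by simpa [Fc])
    by_cases b : v = none
    · rw [Fintype.sum_eq_single _ a] at h1
      simp [f, b, h1]
    · simp [f, b, a]

lemma f_off (i : Fin m) (x : Sph (d i)) (h : x ≠ base _) :
    ∃ p, f d (inl ⟨i, x⟩) (some ⟨i, p⟩) ≠ 0 := by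
  by_contra! a
  have b : ∀ p, p ≠ (0, true) → g x p = 0 := fun p b => by
    have := a p
    rwa [show some ⟨i, p⟩ = φ d i p from (if_neg b).symm, f, (φ_inj d i).extend_apply] at this
  refine h (g_inj (funext fun p => ?_))
  have := g_sum x
  rw [Fintype.sum_eq_single _ b] at this
  by_cases c : p = (0, true) <;> simp [g_base, c, this, b]

lemma f_cont : Continuous (f d) := by
  refine continuous_sum_dom.2 ⟨continuous_sigma fun i => continuous_pi fun v => ?_,
    continuous_of_discreteTopology⟩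
  by_cases a : ∃ p, φ d i p = v
  · obtain ⟨⟨j, s⟩, rfl⟩ := a
    simp only [comp, f, (φ_inj d i).extend_apply, g]
    split_ifs <;> fun_prop
  · simp only [comp, f, extend_apply' _ _ _ a]
    fun_prop

theorem wedge_homeo : Nonempty (Wedge d ≃ₜ real (Fc d)) := by
  let F : Wedge d → real (Fc d) := Quot.lift (fun a => ⟨f d a, f_mem d a⟩) (by
    rintro _ _ ⟨i, rfl, rfl⟩
    exact Subtype.ext (f_base d i))
  have key : ∀ a : Wedge d, a = Quot.mk _ (inr ()) ∨ ∃ i x, x ≠ base _ ∧ a = Quot.mk _ (inl ⟨i, x⟩) := by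
    rintro ⟨⟨i, x⟩ | a⟩
    · by_cases b : x = base _
      · exact Or.inl (Quot.sound ⟨i, by rw [b], rfl⟩)
      · exact Or.inr ⟨i, x, b, rfl⟩
    · exact Or.inl rfl
  refine ⟨Continuous.homeoOfEquivCompactToT2 (f := Equiv.ofBijective F ⟨fun a b h => ?_,
    fun y => (f_surj d y.1 y.2).elim fun a b => ⟨Quot.mk _ a, Subtype.ext b⟩⟩)
    (continuous_quot_lift _ ((f_cont d).subtype_mk _))⟩
  replace h := congrArg Subtype.val h
  rcases key a with rfl | ⟨i, x, a, rfl⟩ <;> rcases key b with rfl | ⟨k, y, b, rfl⟩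
  · rfl
  · obtain ⟨p, c⟩ := f_off d k y b
    exact absurd ((congrFun h _).symm.trans (by simp [F, f])) c
  · obtain ⟨p, c⟩ := f_off d i x a
    exact absurd ((congrFun h _).trans (by simp [F, f])) c
  · obtain ⟨p, c⟩ := f_off d i x a
    obtain rfl : k = i := by
      by_contra e
      refine c ((congrFun h _).trans (extend_apply' _ _ _ fun ⟨q, r⟩ => ?_))
      unfold φ at r
      split_ifs at r
      simp_all
    rw [g_inj (funext fun p => ((φ_inj d k).extend_apply _ _ _).symm.trans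
      ((congrFun h (φ d k p)).trans ((φ_inj d k).extend_apply _ _ _)) : g x = g y)]

theorem wedge_real : Realised (Wedge d) := by
  obtain ⟨V, a, b, G, c, h1, h2, ⟨e⟩⟩ := realB (Fc d) (by
    rintro (⟨i, e⟩ | t)
    · exact univ_nonempty.image _
    · exact singleton_nonempty _)
  exact ⟨V, a, b, G, c, h1, h2, ⟨e.trans (wedge_homeo d).some.symm.toHomotopyEquiv⟩⟩

end Pool.Agent.H10.Av
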