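import Mathlib

set_option autoImplicit false

namespace Pool.Agent.H10.BadTri

/-- The real Hilbert space of square summable sequences. -/
abbrev H : Type := lp (fun _ : ℕ => ℝ) 2

/-- Two of the three distances are at most `1` and the remaining one is at least `1 + δ`. -/
def Bad (δ : ℝ) (a b c : H) : Prop :=
  (dist a b ≤ 1 ∧ dist b c ≤ 1 ∧ 1 + δ ≤ dist a c) ∨
  (dist a b ≤ 1 ∧ dist a c ≤ 1 ∧ 1 + δ ≤ dist b c) ∨
  (dist b c ≤ 1 ∧ dist a c ≤ 1 ∧ 1 + δ ≤ dist a b)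

/-- Property `P(δ)`: every finite list of points has a sublist of positive proportion `l`
(independent of the list) with no bad triangle on three distinct indices. -/
def P (δ : ℝ) : Prop :=
  ∃ l : ℝ, 0 < l ∧ ∀ n : ℕ, 1 ≤ n → ∀ x : Fin n → H, ∃ I : Finset (Fin n),
    l * n ≤ I.card ∧ ∀ i ∈ I, ∀ j ∈ I, ∀ k ∈ I, i ≠ j → j ≠ k → i ≠ k → ¬ Bad δ (x i) (x j) (x k)

end Pool.Agent.H10.BadTri
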