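import Mathlib
import Pool.Agent.H10.BadTriDefs

set_option autoImplicit false

namespace Pool.Agent.H10.BadTri

open Finset
open scoped InnerProductSpace

section Var
variable {Ω : Type} [Fintype Ω] [DecidableEq Ω]

def hd {n : ℕ} (x y : Fin n → Ω) : ℝ := ∑ i, if x i = y i then 0 else 1

omit [Fintype Ω] in
lemma hd_nonneg {n : ℕ} (x y : Fin n → Ω) : 0 ≤ hd x y :=
  sum_nonneg fun i _ => by split_ifs <;> norm_num

omit [Fintype Ω] in
lemma hd_self {n : ℕ} (x : Fin n → Ω) : hd x x = 0 := by simp [hd]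

omit [Fintype Ω] in
lemma hd_tri {n : ℕ} (x y z : Fin n → Ω) : hd x z ≤ hd x y + hd y z := by
  unfold hd
  rw [← sum_add_distrib]
  apply sum_le_sum
  intro i _
  by_cases h2 : x i = y i
  · rw [h2]; simp
  · rw [if_neg h2]; split_ifs <;> norm_num

omit [Fintype Ω] in
lemma hd_cons {n : ℕ} (a b : Ω) (x y : Fin n → Ω) :
    hd (Fin.cons a x : Fin (n + 1) → Ω) (Fin.cons b y) = (if a = b then 0 else 1) + hd x y := by
  simp [hd, Fin.sum_univ_succ]

omit [DecidableEq Ω] in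
lemma sum_cons {n : ℕ} (f : (Fin (n + 1) → Ω) → ℝ) :
    ∑ x, f x = ∑ y : Fin n → Ω, ∑ a : Ω, f (Fin.cons a y) := by
  rw [← (Fin.consEquiv (fun _ : Fin (n + 1) => Ω)).sum_comp, Fintype.sum_prod_type, sum_comm]
  rfl

lemma variance [Nonempty Ω] : ∀ (n : ℕ) (f : (Fin n → Ω) → ℝ), (∀ x y, f x - f y ≤ hd x y) →
    (Fintype.card Ω : ℝ) ^ n * ∑ x, f x ^ 2 - (∑ x, f x) ^ 2 ≤ n * ((Fintype.card Ω : ℝ) ^ n) ^ 2 := by
  intro n
  induction n with
  | zero => intro f _; simp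
  | succ n ih =>
    intro f hf
    set q : ℝ := (Fintype.card Ω : ℝ) with hq
    have hq0 : 0 < q := by rw [hq]; exact_mod_cast Fintype.card_pos
    let g : (Fin n → Ω) → ℝ := fun y => (∑ a : Ω, f (Fin.cons a y)) / q
    have hg : ∀ y, ∑ a : Ω, f (Fin.cons a y) = q * g y := fun y => by
      simp only [g]; field_simp
    have hgl : ∀ x y, g x - g y ≤ hd x y := by
      intro x y
      have : ∑ a : Ω, (f (Fin.cons a x) - f (Fin.cons a y)) ≤ ∑ _a : Ω, hd x y := by
        apply sum_le_sum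
        intro a _
        have := hf (Fin.cons a x) (Fin.cons a y)
        rw [hd_cons] at this
        simpa using this
      rw [sum_sub_distrib, hg, hg, sum_const, card_univ, nsmul_eq_mul, ← hq, ← mul_sub] at this
      exact le_of_mul_le_mul_left this hq0
    have hloc : ∀ y, ∑ a : Ω, f (Fin.cons a y) ^ 2 ≤ q + q * g y ^ 2 := by
      intro y
      have h1 : ∀ a, (f (Fin.cons a y) - g y) ^ 2 ≤ 1 := by
        intro a
        have hb : ∀ b, f (Fin.cons a y) - f (Fin.cons b y) ≤ 1 ∧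
            f (Fin.cons b y) - f (Fin.cons a y) ≤ 1 := by
          intro b
          have e1 := hf (Fin.cons a y) (Fin.cons b y)
          have e2 := hf (Fin.cons b y) (Fin.cons a y)
          rw [hd_cons, hd_self] at e1 e2
          constructor
          · split_ifs at e1 <;> linarith
          · split_ifs at e2 <;> linarith
        have s1 : ∑ b : Ω, (f (Fin.cons a y) - f (Fin.cons b y)) ≤ ∑ _b : Ω, (1 : ℝ) :=
          sum_le_sum fun b _ => (hb b).1
        have s2 : ∑ b : Ω, (f (Fin.cons b y) - f (Fin.cons a y)) ≤ ∑ _b : Ω, (1 : ℝ) :=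
          sum_le_sum fun b _ => (hb b).2
        rw [sum_sub_distrib, hg, sum_const, sum_const, card_univ, nsmul_eq_mul, nsmul_eq_mul,
          ← hq] at s1 s2
        have t1 : f (Fin.cons a y) - g y ≤ 1 := le_of_mul_le_mul_left (by linarith) hq0
        have t2 : g y - f (Fin.cons a y) ≤ 1 := le_of_mul_le_mul_left (by linarith) hq0
        nlinarith
      have h2 : ∑ a : Ω, (f (Fin.cons a y) - g y) ^ 2 ≤ ∑ _a : Ω, (1 : ℝ) :=
        sum_le_sum fun a _ => h1 a
      have h3 : ∑ a : Ω, (f (Fin.cons a y) - g y) ^ 2 =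
          ∑ a : Ω, f (Fin.cons a y) ^ 2 - 2 * g y * ∑ a : Ω, f (Fin.cons a y) +
            ∑ _a : Ω, g y ^ 2 := by
        rw [mul_sum, ← sum_sub_distrib, ← sum_add_distrib]
        apply sum_congr rfl
        intro a _; ring
      rw [h3, hg, sum_const, sum_const, card_univ, nsmul_eq_mul, nsmul_eq_mul, ← hq] at h2
      nlinarith
    have h4 := ih g hgl
    have h5 : ∑ x, f x ^ 2 ≤ q * q ^ n + q * ∑ y, g y ^ 2 := by
      rw [sum_cons (fun x => f x ^ 2)]
      refine (sum_le_sum fun y _ => hloc y).trans (le_of_eq ?_)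
      rw [sum_add_distrib, ← mul_sum, sum_const, card_univ, nsmul_eq_mul]
      simp [hq, mul_comm]
    have h6 : ∑ x, f x = q * ∑ y, g y := by
      rw [sum_cons, mul_sum]
      exact sum_congr rfl fun y _ => hg y
    rw [h6, pow_succ]
    push_cast
    set M := q ^ n
    have hM : 0 < M := pow_pos hq0 n
    have h7 := mul_le_mul_of_nonneg_left h5 (mul_pos hM hq0).le
    have h8 := mul_le_mul_of_nonneg_left h4 (sq_nonneg q)
    nlinarith

lemma mean_bound [Nonempty Ω] (n : ℕ) (A : Finset (Fin n → Ω)) (l R : ℝ) (hl : 0 < l) (hR : 0 ≤ R)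
    (hA : l * (Fintype.card Ω : ℝ) ^ n ≤ A.card) (hn : (n : ℝ) ≤ l * R ^ 2) :
    ∃ f : (Fin n → Ω) → ℝ, (∀ w, ∃ x ∈ A, f w = hd w x) ∧
      ∑ w, f w ≤ (Fintype.card Ω : ℝ) ^ n * R := by
  set M : ℝ := (Fintype.card Ω : ℝ) ^ n with hM
  have hM0 : 0 < M := pow_pos (by exact_mod_cast Fintype.card_pos) n
  have hne : A.Nonempty := by
    rw [← card_pos]
    have : (0 : ℝ) < A.card := lt_of_lt_of_le (mul_pos hl hM0) hA
    exact_mod_cast this
  let f : (Fin n → Ω) → ℝ := fun w => A.inf' hne (fun x => hd w x)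
  have hf1 : ∀ w, ∃ x ∈ A, f w = hd w x := fun w => exists_mem_eq_inf' hne _
  have hf2 : ∀ w, ∀ x ∈ A, f w ≤ hd w x := fun w x hx => inf'_le _ hx
  refine ⟨f, hf1, ?_⟩
  have hlip : ∀ x y, f x - f y ≤ hd x y := by
    intro x y
    obtain ⟨z, hz, e⟩ := hf1 y
    have := hf2 x z hz
    have := hd_tri x y z
    linarith
  have hv := variance n f hlip
  rw [← hM] at hv
  set S := ∑ w, f w with hS
  have h1 : ∑ w, (M * f w - S) ^ 2 = M * (M * ∑ w, f w ^ 2 - S ^ 2) := by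
    have : ∑ w, (M * f w - S) ^ 2 = M ^ 2 * ∑ w, f w ^ 2 - 2 * M * S * ∑ w, f w +
        ∑ _w : Fin n → Ω, S ^ 2 := by
      rw [mul_sum, mul_sum, ← sum_sub_distrib, ← sum_add_distrib]
      apply sum_congr rfl
      intro w _; ring
    rw [this, sum_const, card_univ, nsmul_eq_mul, ← hS]
    simp only [Fintype.card_pi, prod_const, card_univ, Fintype.card_fin, Nat.cast_pow, ← hM]
    ring
  have h2 : (A.card : ℝ) * S ^ 2 ≤ ∑ w, (M * f w - S) ^ 2 := by
    calc (A.card : ℝ) * S ^ 2 = ∑ w ∈ A, (M * f w - S) ^ 2 := by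
          rw [← nsmul_eq_mul, ← sum_const]
          apply sum_congr rfl
          intro w hw
          have e1 := hf2 w w hw
          obtain ⟨z, -, e2⟩ := hf1 w
          have e3 := hd_nonneg w z
          rw [hd_self] at e1
          have : f w = 0 := by linarith
          rw [this]; ring
      _ ≤ _ := sum_le_sum_of_subset_of_nonneg (subset_univ A) fun w _ _ => sq_nonneg _
  have h3 : l * M * S ^ 2 ≤ l * M * (M * R) ^ 2 := by
    have e1 := mul_le_mul_of_nonneg_right hA (sq_nonneg S)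
    have e2 := mul_le_mul_of_nonneg_left hv hM0.le
    have e3 := mul_le_mul_of_nonneg_left hn (pow_pos hM0 3).le
    nlinarith
  have h4 : S ^ 2 ≤ (M * R) ^ 2 := le_of_mul_le_mul_left h3 (mul_pos hl hM0)
  exact abs_le_of_sq_le_sq' h4 (by positivity) |>.2

end Var

noncomputable def e (k : ℕ) : H := lp.single 2 k (1 : ℝ)

lemma e_orth : Orthonormal ℝ e := by
  rw [orthonormal_iff_ite]
  intro i j
  rw [e, e, lp.inner_single_left, lp.single_apply, Pi.single_apply]
  split_ifs <;> simp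

lemma emb (n : ℕ) : ∃ X : (Fin n → ℂ) → H, ∀ u v, dist (X u) (X v) ^ 2 = ∑ i, ‖u i - v i‖ ^ 2 := by
  obtain ⟨φ, hφ⟩ := Countable.exists_injective_nat (Fin n × Bool)
  have ho : Orthonormal ℝ (e ∘ φ) := e_orth.comp φ hφ
  let c : (Fin n → ℂ) → Fin n × Bool → ℝ := fun u p => if p.2 then (u p.1).re else (u p.1).im
  refine ⟨fun u => ∑ p, c u p • (e ∘ φ) p, fun u v => ?_⟩
  rw [dist_eq_norm, ← sum_sub_distrib, ← real_inner_self_eq_norm_sq]
  simp only [← sub_smul]
  rw [ho.inner_sum, Fintype.sum_prod_type]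
  apply sum_congr rfl
  intro i _
  rw [Complex.sq_norm, Complex.normSq_apply]
  simp [c]

lemma not_P (δ : ℝ) (h0 : 0 < δ) (h1 : δ < 1) : ¬ P δ := by
  rintro ⟨l, hl, hP⟩
  have hη : 0 < 4 - (1 + δ) ^ 2 := by nlinarith
  set η := 4 - (1 + δ) ^ 2 with hηd
  have hη4 : η ≤ 4 := by nlinarith
  obtain ⟨k, hk⟩ := exists_nat_gt (2 + 2 * Real.pi * (2 / η + 1))
  have hpi := Real.pi_pos
  have hk2 : (2 : ℝ) < k := by
    have : 0 < 2 * Real.pi * (2 / η + 1) := by positivity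
    linarith
  have hk2' : 2 < k := by exact_mod_cast hk2
  have : NeZero k := ⟨by omega⟩
  have : Fact (1 < k) := ⟨by omega⟩
  let χ : AddChar (ZMod k) ℂ := ZMod.stdAddChar
  have hχn : ∀ a, ‖χ a‖ = 1 := fun a => by
    simp only [χ, ZMod.stdAddChar_apply]; exact Circle.norm_coe _
  set ω := χ 1 with hω
  set u := ‖1 - ω‖ ^ 2 with hu
  have hω1 : ω ≠ 1 := by
    intro h
    have : χ 1 = χ 0 := by rw [← hω, h, AddChar.map_zero_eq_one]
    exact one_ne_zero (ZMod.injective_stdAddChar this)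
  have hu0 : 0 < u := by
    have : 1 - ω ≠ 0 := sub_ne_zero.mpr hω1.symm
    positivity
  have huη : u ≤ η / 2 := by
    have e1 : ω = Complex.exp (Complex.I * ((2 * Real.pi / k : ℝ) : ℂ)) := by
      have := ZMod.stdAddChar_coe (N := k) 1
      simp only [Int.cast_one] at this
      rw [hω]
      simp only [χ]
      rw [this]
      congr 1
      push_cast
      ring
    have e2 : ‖1 - ω‖ ≤ 2 * Real.pi / k := by
      rw [norm_sub_rev, e1]
      refine Real.norm_exp_I_mul_ofReal_sub_one_le.trans (le_of_eq ?_)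
      rw [Real.norm_eq_abs, abs_of_pos (by positivity)]
    have e3 : 2 * Real.pi / k ≤ 1 / (2 / η + 1) := by
      rw [div_le_div_iff₀ (by linarith) (by positivity)]
      linarith
    have e4 : 1 / (2 / η + 1) ≤ 1 := by
      rw [div_le_one (by positivity)]
      have : 0 < 2 / η := by positivity
      linarith
    have e5 : 1 / (2 / η + 1) ≤ η / 2 := by
      rw [div_le_iff₀ (by positivity)]
      have : η / 2 * (2 / η + 1) = 1 + η / 2 := by field_simp
      linarith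
    have e6 := norm_nonneg (1 - ω)
    nlinarith
  have hd1 : ∀ a, ‖χ a - χ (a + 1)‖ ^ 2 = u := by
    intro a
    rw [AddChar.map_add_eq_mul, ← mul_one_sub, norm_mul, hχn, one_mul]
  have hd2 : ∀ a, ‖χ a - χ (a + 1 + 1)‖ ^ 2 = u * (4 - u) := by
    intro a
    rw [AddChar.map_add_eq_mul, AddChar.map_add_eq_mul, mul_assoc, ← mul_one_sub, norm_mul, hχn,
      one_mul, ← hω]
    have e1 : 1 - ω * ω = (1 - ω) * (1 + ω) := by ring
    have e2 := parallelogram_law_with_norm ℝ (1 : ℂ) ω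
    rw [hχn, norm_one] at e2
    rw [e1, norm_mul, mul_pow, ← hu]
    congr 1
    nlinarith
  have hd4 : ∀ a b, ‖χ a - χ b‖ ^ 2 ≤ 4 := by
    intro a b
    have := norm_sub_le (χ a) (χ b)
    rw [hχn, hχn] at this
    have := norm_nonneg (χ a - χ b)
    nlinarith
  set ε := u * η / 100 with hε
  have hε0 : 0 < ε := by positivity
  obtain ⟨n, hn⟩ := exists_nat_gt (9 / (l * ε ^ 2))
  have hn0 : (0 : ℝ) < n := lt_trans (by positivity) hn
  have hn1 : (n : ℝ) ≤ l * (ε * n / 3) ^ 2 := by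
    rw [div_lt_iff₀ (by positivity)] at hn
    nlinarith
  obtain ⟨X, hX⟩ := emb n
  set T := n * u + 4 * (ε * n) with hT
  have hT0 : 0 < T := by positivity
  set s := √T with hs
  have hs0 : 0 < s := Real.sqrt_pos.mpr hT0
  have hs2 : s ^ 2 = T := Real.sq_sqrt hT0.le
  let Y : (Fin n → ZMod k) → H := fun w => s⁻¹ • X (fun i => χ (w i))
  have hY : ∀ x y, dist (Y x) (Y y) ^ 2 * T = ∑ i, ‖χ (x i) - χ (y i)‖ ^ 2 := by
    intro x y
    rw [← hX, ← hs2]
    simp only [Y]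
    rw [dist_smul₀, Real.norm_eq_abs, abs_of_pos (inv_pos.mpr hs0)]
    field_simp
  let eq := Fintype.equivFin (Fin n → ZMod k)
  obtain ⟨I, hI, hgood⟩ := hP (Fintype.card (Fin n → ZMod k)) Fintype.card_pos
    (fun j => Y (eq.symm j))
  obtain ⟨f, hf, hsum⟩ := mean_bound n (I.map eq.symm.toEmbedding) l (ε * n / 3) hl
    (by positivity) (by simpa using hI) hn1
  let o : Fin n → ZMod k := fun _ => 1
  have hex : ∃ w, f w + f (w + o) + f (w + o + o) ≤ ε * n := by
    by_contra hc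
    push Not at hc
    have e1 : ∑ _w : Fin n → ZMod k, ε * n < ∑ w, (f w + f (w + o) + f (w + o + o)) :=
      sum_lt_sum_of_nonempty univ_nonempty fun w _ => hc w
    have e2 : ∑ w, f (w + o) = ∑ w, f w := Equiv.sum_comp (Equiv.addRight o) f
    have e3 : ∑ w, f (w + o + o) = ∑ w, f w := by
      rw [← e2]; exact Equiv.sum_comp (Equiv.addRight o) (fun w => f (w + o))
    rw [sum_add_distrib, sum_add_distrib, e2, e3, sum_const, card_univ, nsmul_eq_mul] at e1
    simp only [Fintype.card_pi, prod_const, card_univ, Fintype.card_fin, Nat.cast_pow] at e1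
    linarith
  obtain ⟨w, hw⟩ := hex
  obtain ⟨x, hx, ex⟩ := hf w
  obtain ⟨y, hy, ey⟩ := hf (w + o)
  obtain ⟨z, hz, ez⟩ := hf (w + o + o)
  rw [ex, ey, ez] at hw
  have n1 := hd_nonneg w x
  have n2 := hd_nonneg (w + o) y
  have n3 := hd_nonneg (w + o + o) z
  have up : ∀ w x y : Fin n → ZMod k, hd w x + hd (w + o) y ≤ ε * n → dist (Y x) (Y y) ≤ 1 := by
    intro w x y h
    have e1 : ∑ i, ‖χ (x i) - χ (y i)‖ ^ 2 ≤ ∑ i, (u + 4 * ((if w i = x i then 0 else 1) +
        (if (w + o) i = y i then 0 else 1))) := by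
      apply sum_le_sum
      intro i _
      have := hd4 (x i) (y i)
      split_ifs with a b b
      · rw [← a, ← b]; simp [o, hd1]
      all_goals linarith
    rw [sum_add_distrib, ← mul_sum, sum_add_distrib, sum_const, card_univ, Fintype.card_fin,
      nsmul_eq_mul, ← hY] at e1
    have e2 : dist (Y x) (Y y) ^ 2 * T ≤ 1 * T := by
      unfold hd at h
      linarith
    have e3 := le_of_mul_le_mul_right e2 hT0
    have := dist_nonneg (x := Y x) (y := Y y)
    nlinarith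
  have b1 : dist (Y x) (Y y) ≤ 1 := up w x y (by linarith)
  have b2 : dist (Y y) (Y z) ≤ 1 := up (w + o) y z (by linarith)
  have b3 : 1 + δ ≤ dist (Y x) (Y z) := by
    have hu4 : 0 ≤ u * (4 - u) := mul_nonneg hu0.le (by linarith)
    have e1 : ∑ i, (u * (4 - u) - u * (4 - u) * ((if w i = x i then 0 else 1) +
        (if (w + o + o) i = z i then 0 else 1))) ≤ ∑ i, ‖χ (x i) - χ (z i)‖ ^ 2 := by
      apply sum_le_sum
      intro i _
      have := sq_nonneg ‖χ (x i) - χ (z i)‖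
      split_ifs with a b b
      · rw [← a, ← b]; simp [o, hd2]
      all_goals linarith
    rw [sum_sub_distrib, sum_const, ← mul_sum, sum_add_distrib, card_univ, Fintype.card_fin,
      nsmul_eq_mul, ← hY] at e1
    have e2 : (1 + δ) ^ 2 * T ≤ dist (Y x) (Y z) ^ 2 * T := by
      unfold hd at hw n2
      have e3 : u * (4 - u) * ((∑ i, if w i = x i then (0 : ℝ) else 1) +
          ∑ i, if (w + o + o) i = z i then (0 : ℝ) else 1) ≤ u * (4 - u) * (ε * n) :=
        mul_le_mul_of_nonneg_left (by linarith) hu4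
      have e4 : (4 - η) * (u + 4 * ε) ≤ u * (4 - u) - u * (4 - u) * ε := by
        have : u * (4 - u) ≤ 4 := by nlinarith
        have : u * (4 - u) * ε ≤ 4 * ε := mul_le_mul_of_nonneg_right this hε0.le
        have : u * u ≤ u * (η / 2) := mul_le_mul_of_nonneg_left huη hu0.le
        have : 0 ≤ η * ε := by positivity
        nlinarith
      have e5 := mul_le_mul_of_nonneg_left e4 hn0.le
      have e6 : (1 + δ) ^ 2 = 4 - η := by linarith
      rw [e6, hT] at *
      nlinarith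
    exact abs_le_of_sq_le_sq' (le_of_mul_le_mul_right e2 hT0) dist_nonneg |>.2
  obtain ⟨i, hi, rfl⟩ := mem_map.mp hx
  obtain ⟨j, hj, rfl⟩ := mem_map.mp hy
  obtain ⟨m, hm, rfl⟩ := mem_map.mp hz
  refine hgood i hi j hj m hm ?_ ?_ ?_ (Or.inl ⟨b1, b2, b3⟩)
  · rintro rfl; linarith
  · rintro rfl; linarith
  · rintro rfl; rw [dist_self] at b3; linarith

lemma mid (a b c : H) (h1 : dist a b ≤ 1) (h2 : dist b c ≤ 1) (h3 : 2 ≤ dist a c) :
    ‖a‖ ^ 2 + ‖c‖ ^ 2 - 2 * ‖b‖ ^ 2 = 2 := by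
  rw [dist_eq_norm] at h1 h2 h3
  rw [norm_sub_rev] at h2
  set p := a - b with hp
  set q := c - b with hq
  have e1 : a - c = p - q := by rw [hp, hq]; abel
  rw [e1] at h3
  have e2 := parallelogram_law_with_norm ℝ p q
  have n1 := norm_nonneg p
  have n2 := norm_nonneg q
  have n3 := norm_nonneg (p + q)
  have e3 : ‖p + q‖ = 0 := by nlinarith
  have e4 : q = -p := eq_neg_of_add_eq_zero_right (norm_eq_zero.mp e3)
  have e5 : ‖p‖ ^ 2 = 1 := by
    rw [e3, e4, norm_neg] at e2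
    rw [e4] at h3
    nlinarith
  have ha : a = b + p := by rw [hp]; abel
  have hc : c = b - p := by rw [sub_eq_add_neg, ← e4, hq]; abel
  have e6 := parallelogram_law_with_norm ℝ b p
  rw [← ha, ← hc] at e6
  nlinarith

lemma col (a b c : H) (h1 : dist a b ≤ 1) (h2 : dist b c ≤ 1) (h3 : 2 ≤ dist a c) (r : ℤ)
    (ha : ⌊‖a‖ ^ 2⌋ % 4 = r) (hb : ⌊‖b‖ ^ 2⌋ % 4 = r) (hc : ⌊‖c‖ ^ 2⌋ % 4 = r) : False := by
  have h := mid a b c h1 h2 h3
  have a1 := Int.floor_le (‖a‖ ^ 2)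
  have a2 := Int.lt_floor_add_one (‖a‖ ^ 2)
  have b1 := Int.floor_le (‖b‖ ^ 2)
  have b2 := Int.lt_floor_add_one (‖b‖ ^ 2)
  have c1 := Int.floor_le (‖c‖ ^ 2)
  have c2 := Int.lt_floor_add_one (‖c‖ ^ 2)
  have e1 : (0 : ℤ) < ⌊‖a‖ ^ 2⌋ + ⌊‖c‖ ^ 2⌋ - 2 * ⌊‖b‖ ^ 2⌋ := by
    have : (0 : ℝ) < ⌊‖a‖ ^ 2⌋ + ⌊‖c‖ ^ 2⌋ - 2 * ⌊‖b‖ ^ 2⌋ := by linarith
    exact_mod_cast this
  have e2 : ⌊‖a‖ ^ 2⌋ + ⌊‖c‖ ^ 2⌋ - 2 * ⌊‖b‖ ^ 2⌋ < (4 : ℤ) := by
    have : (⌊‖a‖ ^ 2⌋ + ⌊‖c‖ ^ 2⌋ - 2 * ⌊‖b‖ ^ 2⌋ : ℝ) < 4 := by linarith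
    exact_mod_cast this
  omega

lemma P_of_ge (δ : ℝ) (h : 1 ≤ δ) : P δ := by
  refine ⟨1 / 4, by norm_num, fun n _ x => ?_⟩
  let c : Fin n → ℤ := fun i => ⌊‖x i‖ ^ 2⌋ % 4
  have hex : ∃ r ∈ Finset.Ico (0 : ℤ) 4, (1 / 4 : ℝ) * n ≤ (univ.filter (fun i => c i = r)).card := by
    by_contra hc
    push Not at hc
    have e1 := card_eq_sum_card_fiberwise (s := univ) (t := Finset.Ico (0 : ℤ) 4) (f := c)
      (fun i _ => by
        simp only [c, coe_Ico, Set.mem_Ico]
        omega)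
    have e2 : ∑ r ∈ Finset.Ico (0 : ℤ) 4, ((univ.filter (fun i => c i = r)).card : ℝ) <
        ∑ _r ∈ Finset.Ico (0 : ℤ) 4, (1 / 4 : ℝ) * n :=
      sum_lt_sum_of_nonempty ⟨0, by simp⟩ hc
    rw [← Nat.cast_sum, ← e1] at e2
    simp at e2
  obtain ⟨r, -, hr⟩ := hex
  refine ⟨_, hr, fun i hi j hj k hk _ _ _ hb => ?_⟩
  have hi := (mem_filter.mp hi).2
  have hj := (mem_filter.mp hj).2
  have hk := (mem_filter.mp hk).2
  rcases hb with ⟨a, b, d⟩ | ⟨a, b, d⟩ | ⟨a, b, d⟩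
  · exact col _ _ _ a b (by linarith) r hi hj hk
  · exact col (x j) (x i) (x k) (by rwa [dist_comm]) b (by linarith) r hj hi hk
  · exact col (x i) (x k) (x j) b (by rwa [dist_comm]) (by linarith) r hi hk hj

end Pool.Agent.H10.BadTri
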