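import Mathlib

set_option autoImplicit false

namespace Pool.Agent.H10.Ced

/-- families of finite sets of vertices; vertices are natural numbers -/
abbrev Cx := Set (Finset ℕ)

/-- finite abstract simplicial complex -/
def IsCx (K : Cx) : Prop := K.Finite ∧ ∀ s ∈ K, ∀ t, t ⊆ s → t ∈ K

/-- `F` is a maximal face of `K` -/
def Facet (K : Cx) (F : Finset ℕ) : Prop := F ∈ K ∧ ∀ G ∈ K, F ⊆ G → G = F

/-- all facets have `d` vertices -/
def Pure (d : ℕ) (K : Cx) : Prop := ∀ F, Facet K F → F.card = d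

/-- `L` is the copy of `K` under an injective renaming of vertices -/
def Iso (K L : Cx) : Prop := ∃ f : ℕ → ℕ, Function.Injective f ∧ L = Finset.image f '' K

/-- geometric realization: barycentric coordinate vectors supported on a face -/
def real (K : Cx) : Set (ℕ → ℝ) :=
  {x | (∀ v, 0 ≤ x v) ∧ ∃ s ∈ K, (∀ v, v ∉ s → x v = 0) ∧ ∑ v ∈ s, x v = 1}

/-- the realization of `K` is homeomorphic to the closed `n`-ball -/
def IsBall (n : ℕ) (K : Cx) : Prop :=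
  Nonempty (real K ≃ₜ Metric.closedBall (0 : EuclideanSpace ℝ (Fin n)) 1)

/-- `K` is the boundary complex of the simplicial `d`-polytope `conv (p '' W)`: its faces are the
empty set and the sets of points where a nonzero linear form is maximal, all affinely independent -/
def PolySphere (d : ℕ) (K : Cx) : Prop :=
  ∃ (W : Finset ℕ) (p : ℕ → Fin d → ℝ), affineSpan ℝ (p '' W) = ⊤ ∧
    (∀ s ∈ K, AffineIndependent ℝ fun v : s => p v) ∧
    K = {s | s = ∅ ∨ ∃ l : (Fin d → ℝ) →ₗ[ℝ] ℝ, l ≠ 0 ∧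
      ∀ v, v ∈ s ↔ v ∈ W ∧ ∀ u ∈ W, l (p u) ≤ l (p v)}

/-- boundary complex: generated by the faces with `d - 1` vertices lying in exactly one facet -/
def bd (d : ℕ) (K : Cx) : Cx :=
  {s | ∃ r ∈ K, r.card + 1 = d ∧ (∃! F, Facet K F ∧ r ⊆ F) ∧ s ⊆ r}

/-- `Δ` is a pure `(d-1)`-dimensional complex with a convex ear decomposition -/
def CED (d : ℕ) (Δ : Cx) : Prop :=
  IsCx Δ ∧ Pure d Δ ∧ ∃ (m : ℕ) (S : Fin (m + 1) → Cx),
    (∀ j, IsCx (S j) ∧ Pure d (S j) ∧ S j ⊆ Δ) ∧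
    (∃ Q, PolySphere d Q ∧ Iso Q (S 0)) ∧
    (∀ j, j ≠ 0 → (∃ B Q, IsCx B ∧ IsBall (d - 1) B ∧ PolySphere d Q ∧ B ⊂ Q ∧ Iso B (S j)) ∧
      S j ∩ (⋃ i, ⋃ (_ : i < j), S i) = bd d (S j)) ∧
    Δ = ⋃ j, S j

/-- the facets of `Δ` have a shelling order -/
def Shellable (Δ : Cx) : Prop :=
  ∃ (n : ℕ) (F : Fin n → Finset ℕ), Function.Injective F ∧ (∀ G, Facet Δ G ↔ ∃ j, F j = G) ∧
    ∀ j : Fin n, 0 < j.val → Pure ((F j).card - 1) {t | t ⊆ F j ∧ ∃ i, i < j ∧ t ⊆ F i}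

end Pool.Agent.H10.Ced
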