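import Mathlib
import Pool.Agent.H10.CedDefs

set_option autoImplicit false

namespace Pool.Agent.H10.CS
open Pool.Agent.H10.Ced

/-- stellar subdivision of `K` at the face `σ` with new vertex `v` -/
def sd (K : Cx) (σ : Finset ℕ) (v : ℕ) : Cx :=
  {t | ¬ σ ⊆ t ∧ (v ∈ t → t.erase v ∪ σ ∈ K) ∧ (v ∉ t → t ∈ K)}

/-- `L` is an elementary stellar subdivision of the finite simplicial complex `K` -/
def Step (K L : Cx) : Prop := IsCx K ∧ ∃ σ ∈ K, σ.Nonempty ∧ ∃ v, {v} ∉ K ∧ L = sd K σ v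

/-- combinatorial `n`-sphere: reachable from the boundary of an `(n+1)`-simplex by stellar
subdivisions and their inverses -/
def CombSphere (n : ℕ) (K : Cx) : Prop :=
  ∃ V : Finset ℕ, V.card = n + 2 ∧ Relation.EqvGen Step {s | s ⊂ V} K

/-- `K` has a simplicial involution moving every face off itself -/
def Symm (K : Cx) : Prop :=
  ∃ φ : ℕ → ℕ, Function.Involutive φ ∧ ∀ F ∈ K, F.image φ ∈ K ∧ Disjoint (F.image φ) F

/-- `K` is the complex of proper faces, recorded by their vertex sets, of the centrally symmetric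
`d`-polytope `conv (p '' W)` -/
def CSPoly (d : ℕ) (K : Cx) : Prop :=
  ∃ (W : Finset ℕ) (p : ℕ → Fin d → ℝ), affineSpan ℝ (p '' W) = ⊤ ∧
    (∀ x ∈ convexHull ℝ (p '' W), -x ∈ convexHull ℝ (p '' W)) ∧
    K = {s | s = ∅ ∨ ∃ l : (Fin d → ℝ) →ₗ[ℝ] ℝ, l ≠ 0 ∧
      ∀ v, v ∈ s ↔ v ∈ W ∧ ∀ u ∈ W, l (p u) ≤ l (p v)}

end Pool.Agent.H10.CS
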