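import Mathlib

set_option autoImplicit false

/-! Bistellar flips and centrally symmetric pairs of flips as explicit maps of realizations. -/

namespace Pool.Agent.H10.Flip
open Finset

/-- realization of the complex with facet family `D` -/
def R (D : Set (Finset ℕ)) : Set (ℕ → ℝ) :=
  {x | (∀ v, 0 ≤ x v) ∧ ∃ F ∈ D, (∀ v, v ∉ F → x v = 0) ∧ ∑ v ∈ F, x v = 1}

noncomputable def mn (s : Finset ℕ) (x : ℕ → ℝ) : ℝ := if h : s.Nonempty then s.inf' h x else 0

lemma mn_le {s : Finset ℕ} (x : ℕ → ℝ) {v : ℕ} (hv : v ∈ s) : mn s x ≤ x v := by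
  rw [mn, dif_pos ⟨v, hv⟩]; exact inf'_le _ hv

lemma mn_ex {s : Finset ℕ} (h : s.Nonempty) (x : ℕ → ℝ) : ∃ v ∈ s, mn s x = x v := by
  rw [mn, dif_pos h]; exact exists_mem_eq_inf' h x

lemma mn_eq {s : Finset ℕ} (x : ℕ → ℝ) (c : ℝ) (h1 : ∀ v ∈ s, c ≤ x v) (h2 : ∃ v ∈ s, x v = c) :
    mn s x = c := by
  obtain ⟨v, hv, e⟩ := h2
  obtain ⟨u, hu, e'⟩ := mn_ex ⟨v, hv⟩ x
  exact le_antisymm (e ▸ mn_le x hv) (e' ▸ h1 u hu)

lemma mn_congr (s : Finset ℕ) (x y : ℕ → ℝ) (h : ∀ v ∈ s, x v = y v) : mn s x = mn s y := by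
  unfold mn
  split_ifs with c
  exacts [inf'_congr c rfl h, rfl]

lemma mn_cont (s : Finset ℕ) : Continuous (mn s) := by
  unfold mn
  split_ifs with c
  · exact Continuous.finset_inf'_apply c fun i _ => continuous_apply i
  · exact continuous_const

noncomputable def dir (s t : Finset ℕ) (v : ℕ) : ℝ :=
  if v ∈ t then s.card / t.card else if v ∈ s then -1 else 0

noncomputable def hm (s t : Finset ℕ) (x : ℕ → ℝ) : ℕ → ℝ := fun v => x v + mn s x * dir s t v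

lemma hm_cont (s t : Finset ℕ) : Continuous (hm s t) :=
  continuous_pi fun v => (continuous_apply v).add ((mn_cont s).mul continuous_const)

def flip (D : Set (Finset ℕ)) (s t : Finset ℕ) : Set (Finset ℕ) :=
  {F | (F ∈ D ∧ ¬ s ⊆ F) ∨ ∃ y ∈ s, F = (s ∪ t).erase y}

structure Valid (D : Set (Finset ℕ)) (s t : Finset ℕ) : Prop where
  dis : Disjoint s t
  ns : s.Nonempty
  nt : t.Nonempty
  st : ∀ F ∈ D, s ⊆ F → ∃ x ∈ t, F = (s ∪ t).erase x
  ex : ∀ x ∈ t, (s ∪ t).erase x ∈ D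
  nf : ∀ F ∈ D, ¬ t ⊆ F

lemma sub_erase {s t : Finset ℕ} (h : Disjoint s t) {x : ℕ} (hx : x ∈ t) : s ⊆ (s ∪ t).erase x :=
  subset_erase.2 ⟨subset_union_left, fun c => disjoint_left.1 h c hx⟩

lemma Valid.symm {D : Set (Finset ℕ)} {s t : Finset ℕ} (h : Valid D s t) :
    Valid (flip D s t) t s ∧ flip (flip D s t) t s = D := by
  refine ⟨⟨h.dis.symm, h.nt, h.ns, ?_, fun x hx => Or.inr ⟨x, hx, by rw [union_comm]⟩, ?_⟩, ?_⟩
  · rintro F (⟨a, -⟩ | ⟨y, a, rfl⟩) b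
    exacts [absurd b (h.nf F a), ⟨y, a, by rw [union_comm]⟩]
  · rintro F (⟨-, a⟩ | ⟨y, a, rfl⟩)
    exacts [a, fun c => notMem_erase _ _ (c a)]
  · ext F
    constructor
    · rintro (⟨⟨a, -⟩ | ⟨y, a, rfl⟩, b⟩ | ⟨x, a, rfl⟩)
      · exact a
      · exact absurd (union_comm t s ▸ sub_erase h.dis.symm a) b
      · exact union_comm s t ▸ h.ex x a
    · intro a
      by_cases c : s ⊆ F
      · obtain ⟨x, b, rfl⟩ := h.st F a c
        exact Or.inr ⟨x, b, by rw [union_comm]⟩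
      · exact Or.inl ⟨Or.inl ⟨a, c⟩, h.nf F a⟩

lemma mn_zero {s F : Finset ℕ} {x : ℕ → ℝ} (h0 : ∀ v, 0 ≤ x v) (h1 : ∀ v, v ∉ F → x v = 0)
    (h : ¬ s ⊆ F) : mn s x = 0 := by
  obtain ⟨v, a, b⟩ := not_subset.1 h
  exact mn_eq x 0 (fun v _ => h0 v) ⟨v, a, h1 v b⟩

lemma Valid.maps {D : Set (Finset ℕ)} {s t : Finset ℕ} (h : Valid D s t) :
    ∀ x ∈ R D, hm s t x ∈ R (flip D s t) ∧ hm t s (hm s t x) = x := by
  rintro x ⟨h0, F, hF, h1, h2⟩
  have cs : (0 : ℝ) < s.card := Nat.cast_pos.2 h.ns.card_pos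
  have ct : (0 : ℝ) < t.card := Nat.cast_pos.2 h.nt.card_pos
  have m0 : 0 ≤ mn s x := by obtain ⟨v, -, e⟩ := mn_ex h.ns x; exact e ▸ h0 v
  have ds : ∀ v ∈ s, v ∉ t := fun v hv => disjoint_left.1 h.dis hv
  constructor
  · refine ⟨fun v => ?_, ?_⟩
    · have := h0 v
      unfold hm dir
      split_ifs with a b
      · positivity
      · have := mn_le x b
        linarith
      · linarith
    by_cases c : s ⊆ F
    · obtain ⟨z, hz, rfl⟩ := h.st F hF c
      obtain ⟨y, hy, e⟩ := mn_ex h.ns x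
      have y0 : hm s t x y = 0 := by simp [hm, dir, ds y hy, hy, e]
      refine ⟨_, Or.inr ⟨y, hy, rfl⟩, fun v hv => ?_, ?_⟩
      · by_cases a : v = y
        · rw [a, y0]
        · have b : v ∉ s ∪ t := fun b => hv (mem_erase.2 ⟨a, b⟩)
          rw [mem_union, not_or] at b
          simp only [hm, dir, b.1, b.2, if_false, mul_zero, add_zero]
          exact h1 v fun d => (mem_union.1 (mem_of_mem_erase d)).elim b.1 b.2
      · rw [sum_erase _ y0]
        rw [sum_erase _ (h1 z (notMem_erase _ _))] at h2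
        simp only [hm]
        rw [sum_add_distrib, h2, ← mul_sum, sum_union h.dis,
          sum_congr rfl (fun v hv => show dir s t v = -1 by simp [dir, hv, ds v hv]),
          sum_congr rfl (fun v hv => show dir s t v = s.card / t.card by simp [dir, hv])]
        simp only [sum_const, nsmul_eq_mul]
        field_simp
        ring
    · have : hm s t x = x := by funext v; simp [hm, mn_zero h0 h1 c]
      rw [this]
      exact ⟨F, Or.inl ⟨hF, c⟩, h1, h2⟩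
  · have : mn t (hm s t x) = mn s x * (s.card / t.card) := by
      obtain ⟨z, a, b⟩ := not_subset.1 (h.nf F hF)
      refine mn_eq _ _ (fun v hv => ?_) ⟨z, a, by simp [hm, dir, a, h1 z b]⟩
      have := h0 v
      simp only [hm, dir, hv, if_true]
      linarith
    funext v
    rw [hm, this, hm]
    unfold dir
    by_cases a : v ∈ s
    · simp only [a, ds v a, if_true, if_false]
      field_simp
      ring
    · by_cases b : v ∈ t <;> simp [a, b]

lemma Valid.bij {D : Set (Finset ℕ)} {s t : Finset ℕ} (h : Valid D s t) :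
    Set.BijOn (hm s t) (R D) (R (flip D s t)) := by
  refine Set.InvOn.bijOn (f' := hm t s) ⟨fun x hx => (h.maps x hx).2,
    fun y hy => (h.symm.1.maps y hy).2⟩ (fun x hx => (h.maps x hx).1) fun y hy => ?_
  have := (h.symm.1.maps y hy).1
  rwa [h.symm.2] at this

/-- the antipode of a vertex -/
def ng (v : ℕ) : ℕ := v ^^^ 1

@[simp] lemma ng_ng (v : ℕ) : ng (ng v) = v := by simp [ng]

lemma ng_inj : Function.Injective ng := Function.LeftInverse.injective ng_ng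

lemma ng_eq (v : ℕ) : ng v = if v % 2 = 0 then v + 1 else v - 1 := by
  unfold ng
  split_ifs with h
  · exact Nat.xor_one_of_even (Nat.even_iff.2 h)
  · exact Nat.xor_one_of_odd (Nat.odd_iff.2 (by omega))

def nf (s : Finset ℕ) : Finset ℕ := s.image ng

@[simp] lemma mem_nf {s : Finset ℕ} {v : ℕ} : v ∈ nf s ↔ ng v ∈ s := by
  simp only [nf, mem_image]
  exact ⟨fun ⟨u, a, b⟩ => by rwa [← b, ng_ng], fun a => ⟨_, a, ng_ng v⟩⟩

@[simp] lemma nf_nf (s : Finset ℕ) : nf (nf s) = s := by ext v; simp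

lemma card_nf (s : Finset ℕ) : (nf s).card = s.card := card_image_of_injective _ ng_inj

lemma nf_sub {s t : Finset ℕ} : nf s ⊆ t ↔ s ⊆ nf t :=
  ⟨fun h v hv => mem_nf.2 (h (by simpa using hv)), fun h v hv => by simpa using h (mem_nf.1 hv)⟩

lemma nf_er (s t : Finset ℕ) (x : ℕ) : nf ((s ∪ t).erase x) = (nf s ∪ nf t).erase (ng x) := by
  ext v
  simp only [mem_nf, mem_erase, mem_union]
  exact and_congr_left' (not_congr ⟨fun h => by rw [← h, ng_ng], fun h => by rw [h, ng_ng]⟩)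

def N (x : ℕ → ℝ) : ℕ → ℝ := fun v => x (ng v)

lemma mn_nf (s : Finset ℕ) (x : ℕ → ℝ) : mn (nf s) (N x) = mn s x := by
  rcases s.eq_empty_or_nonempty with rfl | h
  · simp [mn, nf]
  · obtain ⟨v, a, b⟩ := mn_ex h x
    exact mn_eq _ _ (fun u hu => mn_le x (mem_nf.1 hu)) ⟨ng v, by simpa using a, by simp [N, b]⟩

lemma hm_nf (s t : Finset ℕ) (x : ℕ → ℝ) : hm (nf s) (nf t) (N x) = N (hm s t x) := by
  funext v
  simp only [hm, mn_nf, N, dir, mem_nf, card_nf]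

lemma hm_comm {s t s' t' : Finset ℕ} (h : Disjoint (s ∪ t) (s' ∪ t')) (x : ℕ → ℝ) :
    hm s t (hm s' t' x) = hm s' t' (hm s t x) := by
  have key : ∀ s t s' t' : Finset ℕ, Disjoint (s ∪ t) (s' ∪ t') → mn s (hm s' t' x) = mn s x := by
    intro s t s' t' h
    refine mn_congr _ _ _ fun v hv => ?_
    have := disjoint_left.1 h (mem_union_left t hv)
    rw [mem_union, not_or] at this
    simp [hm, dir, this.1, this.2]
  funext v
  rw [hm, key _ _ _ _ h, hm, hm, key _ _ _ _ h.symm, hm]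
  ring

/-- the family after a centrally symmetric pair of flips -/
def flip2 (D : Set (Finset ℕ)) (s t : Finset ℕ) : Set (Finset ℕ) :=
  {F | (F ∈ D ∧ ¬ s ⊆ F ∧ ¬ nf s ⊆ F) ∨ ∃ y ∈ s, F = (s ∪ t).erase y ∨ F = nf ((s ∪ t).erase y)}

/-- `D` is an antipodally parametrized copy of `Y` -/
def Rel {Y : Type} [TopologicalSpace Y] (a : Y → Y) (D : Set (Finset ℕ)) : Prop :=
  ∃ g : Y → ℕ → ℝ, Continuous g ∧ Function.Injective g ∧ Set.range g = R D ∧
    ∀ y, g (a y) = N (g y)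

theorem Rel.step {Y : Type} [TopologicalSpace Y] {a : Y → Y} {D : Set (Finset ℕ)} (h : Rel a D)
    (hD : ∀ F ∈ D, nf F ∈ D) {s t : Finset ℕ} (hv : Valid D s t)
    (hd : Disjoint (s ∪ t) (nf s ∪ nf t)) : Rel a (flip2 D s t) := by
  have o : ∀ u : Finset ℕ, u.Nonempty → u ⊆ nf s ∪ nf t → ∀ y, ¬ u ⊆ (s ∪ t).erase y :=
    fun u ⟨v, b⟩ c y d => disjoint_left.1 hd (mem_of_mem_erase (d b)) (c b)
  have n1 : (nf s).Nonempty := hv.ns.image _
  have n2 : (nf t).Nonempty := hv.nt.image _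
  have v2 : Valid (flip D s t) (nf s) (nf t) := by
    refine ⟨disjoint_left.2 fun v b c => disjoint_left.1 hv.dis (mem_nf.1 b) (mem_nf.1 c), n1, n2,
      ?_, fun x hx => Or.inl ⟨?_, fun c => ?_⟩, ?_⟩
    · rintro F (⟨b, -⟩ | ⟨y, -, rfl⟩) c
      · obtain ⟨x, d, e⟩ := hv.st _ (hD F b) (nf_sub.1 c)
        exact ⟨ng x, by simpa using d, by rw [← nf_er, ← e, nf_nf]⟩
      · exact absurd c (o _ n1 subset_union_left y)
    · have := hD _ (hv.ex _ (mem_nf.1 hx))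
      rwa [nf_er, ng_ng] at this
    · obtain ⟨v, b⟩ := hv.ns
      exact disjoint_left.1 hd (mem_union_left t b) (mem_of_mem_erase (c b))
    · rintro F (⟨b, -⟩ | ⟨y, -, rfl⟩) c
      exacts [hv.nf _ (hD F b) (nf_sub.1 c), o _ n2 subset_union_right y c]
  have e : flip (flip D s t) (nf s) (nf t) = flip2 D s t := by
    ext F
    constructor
    · rintro (⟨⟨b, c⟩ | ⟨y, b, c⟩, d⟩ | ⟨y, b, rfl⟩)
      exacts [Or.inl ⟨b, c, d⟩, Or.inr ⟨y, b, Or.inl c⟩,
        Or.inr ⟨ng y, mem_nf.1 b, Or.inr (by rw [nf_er, ng_ng])⟩]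
    · rintro (⟨b, c, d⟩ | ⟨y, b, rfl | rfl⟩)
      exacts [Or.inl ⟨Or.inl ⟨b, c⟩, d⟩,
        Or.inl ⟨Or.inr ⟨y, b, rfl⟩, o _ n1 subset_union_left y⟩,
        Or.inr ⟨ng y, by simpa using b, nf_er _ _ _⟩]
  obtain ⟨g, g1, g2, g3, g4⟩ := h
  have bj := v2.bij.comp hv.bij
  rw [e] at bj
  refine ⟨(hm (nf s) (nf t) ∘ hm s t) ∘ g, ((hm_cont _ _).comp (hm_cont _ _)).comp g1,
    fun x y b => g2 (bj.injOn (g3 ▸ ⟨x, rfl⟩) (g3 ▸ ⟨y, rfl⟩) b), ?_, fun y => ?_⟩
  · rw [Set.range_comp, g3, bj.image_eq]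
  · have := hm_nf (nf s) (nf t) (hm s t (g y))
    rw [nf_nf, nf_nf] at this
    simp only [Function.comp]
    rw [g4, ← hm_comm hd, hm_nf, ← this, ← hm_nf s t, hm_nf]

end Pool.Agent.H10.Flip
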