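import Mathlib
import Pool.Agent.H10.CSDefs
import Pool.Agent.H10.Flip

set_option autoImplicit false

namespace Pool.Agent.H10.CS
open Finset Pool.Agent.H10.Ced Pool.Agent.H10.Flip

def cx (D : Set (Finset ℕ)) : Cx := {s | ∃ F ∈ D, s ⊆ F}

lemma isCx_of (K : Cx) (N : ℕ) (h : ∀ s ∈ K, ∀ v ∈ s, v < N) (h2 : ∀ s ∈ K, ∀ t, t ⊆ s → t ∈ K) :
    IsCx K :=
  ⟨(range N).powerset.finite_toSet.subset fun s hs =>
    mem_coe.2 (mem_powerset.2 fun v hv => mem_range.2 (h s hs v hv)), h2⟩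

lemma bound {K : Cx} (h : IsCx K) : ∃ N, ∀ s ∈ K, ∀ v ∈ s, v < N :=
  ⟨(h.1.toFinset.biUnion id).sup id + 1, fun s hs _ hv => Nat.lt_succ_of_le
    (le_sup (f := id) (mem_biUnion.2 ⟨s, h.1.mem_toFinset.2 hs, hv⟩))⟩

lemma isCx_cx (D : Finset (Finset ℕ)) : IsCx (cx D) :=
  isCx_of _ ((D.biUnion id).sup id + 1) (fun _ ⟨F, a, b⟩ _ hv => Nat.lt_succ_of_le
    (le_sup (f := id) (mem_biUnion.2 ⟨F, a, b hv⟩))) fun _ ⟨F, a, b⟩ _ c => ⟨F, a, c.trans b⟩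

lemma sd_sub {D : Set (Finset ℕ)} {s t : Finset ℕ} (h : Valid D s t) (v : ℕ) (hv : v ∉ t) :
    sd (cx D) s v ⊆ sd (cx (flip D s t)) t v := by
  rintro x ⟨a, b, c⟩
  obtain ⟨y, y1, y2⟩ := not_subset.1 a
  have key : ∀ w : Finset ℕ, w ⊆ x → ∀ z, w ⊆ (s ∪ t).erase z → w ∪ t ∈ cx (flip D s t) :=
    fun w h1 z h2 => ⟨_, Or.inr ⟨y, y1, rfl⟩, union_subset (fun u hu => mem_erase.2
      ⟨fun e => y2 (e ▸ h1 hu), mem_of_mem_erase (h2 hu)⟩) (union_comm s t ▸ sub_erase h.dis.symm y1)⟩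
  by_cases hx : v ∈ x
  · obtain ⟨F, hF, d⟩ := b hx
    obtain ⟨z, hz, rfl⟩ := h.st F hF (subset_union_right.trans d)
    exact ⟨fun e => notMem_erase _ _ (d (mem_union_left _ (mem_erase.2 ⟨fun r => hv (r ▸ hz), e hz⟩))),
      fun _ => key _ (erase_subset _ _) z (subset_union_left.trans d), fun e => absurd hx e⟩
  · obtain ⟨F, hF, d⟩ := c hx
    refine ⟨fun e => h.nf F hF (e.trans d), fun e => absurd e hx, fun _ => ?_⟩
    by_cases e : s ⊆ F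
    · obtain ⟨z, hz, rfl⟩ := h.st F hF e
      obtain ⟨G, g1, g2⟩ := key x Subset.rfl z d
      exact ⟨G, g1, subset_union_left.trans g2⟩
    · exact ⟨F, Or.inl ⟨hF, e⟩, d⟩

def flipF (D : Finset (Finset ℕ)) (s t : Finset ℕ) : Finset (Finset ℕ) :=
  D.filter (fun F => ¬ s ⊆ F) ∪ s.image fun y => (s ∪ t).erase y

lemma coe_flipF (D : Finset (Finset ℕ)) (s t : Finset ℕ) :
    (flipF D s t : Set (Finset ℕ)) = Flip.flip D s t := by
  ext F
  simp [flipF, Flip.flip, eq_comm]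

lemma flip_eqv {D : Finset (Finset ℕ)} {s t : Finset ℕ} (h : Valid D s t) :
    Relation.EqvGen Step (cx D) (cx (flipF D s t)) := by
  obtain ⟨v, hv⟩ := Infinite.exists_notMem_finset (D.biUnion id ∪ (s ∪ t))
  simp only [mem_union, mem_biUnion, id, not_or, not_exists, not_and] at hv
  have st : ∀ {D : Finset (Finset ℕ)} {s t : Finset ℕ}, Valid D s t → (∀ F ∈ D, v ∉ F) →
      Step (cx D) (sd (cx D) s v) := fun h a => ⟨isCx_cx _, _, h.nt.elim fun x hx =>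
    ⟨_, h.ex x hx, sub_erase h.dis hx⟩, h.ns, v, fun ⟨F, b, c⟩ => a F b (c (mem_singleton_self v)),
      rfl⟩
  have h' := h.symm
  rw [← coe_flipF] at h'
  have e : sd (cx D) s v = sd (cx (flipF D s t)) t v := by
    refine (sd_sub h v hv.2.2).antisymm' ?_ |>.symm.trans (by rw [coe_flipF])
    have := sd_sub h'.1 v hv.2.1
    rwa [h'.2, coe_flipF] at this
  refine .trans _ _ _ (.rel _ _ (st h hv.1)) (.symm _ _ (.rel _ _ (e ▸ st h'.1 fun F hF => ?_)))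
  rcases mem_union.1 hF with a | a
  · exact hv.1 F (mem_filter.1 a).1
  · obtain ⟨y, -, rfl⟩ := mem_image.1 a
    exact fun b => (mem_union.1 (mem_of_mem_erase b)).elim hv.2.1 hv.2.2

def run : List (Finset ℕ × Finset ℕ) → Finset (Finset ℕ) → Finset (Finset ℕ) → Bool
  | [], D, E => decide (D = E)
  | (s, t) :: l, D, E => decide (Disjoint s t ∧ s.Nonempty ∧ t.Nonempty ∧
      (∀ F ∈ D, s ⊆ F → ∃ x ∈ t, F = (s ∪ t).erase x) ∧ (∀ x ∈ t, (s ∪ t).erase x ∈ D) ∧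
      ∀ F ∈ D, ¬ t ⊆ F) && run l (flipF D s t) E

lemma run_eqv (l : List (Finset ℕ × Finset ℕ)) : ∀ D E, run l D E = true →
    Relation.EqvGen Step (cx D) (cx E) := by
  induction l with
  | nil => intro D E h; rw [of_decide_eq_true h]; exact .refl _
  | cons p l ih =>
    intro D E h
    obtain ⟨a, b⟩ := Bool.and_eq_true_iff.1 h
    obtain ⟨a1, a2, a3, a4, a5, a6⟩ := of_decide_eq_true a
    exact .trans _ _ _ (flip_eqv ⟨a1, a2, a3, a4, a5, a6⟩) (ih _ _ b)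

def S0 : Finset (Finset ℕ) :=
  {{0, 2, 4, 8}, {0, 2, 4, 9}, {0, 2, 6, 8}, {0, 2, 6, 9}, {0, 3, 4, 7}, {0, 3, 4, 9}, {0, 3, 5, 6},
   {0, 3, 5, 7}, {0, 3, 6, 9}, {0, 4, 7, 8}, {0, 5, 6, 8}, {0, 5, 7, 8}, {1, 2, 4, 6}, {1, 2, 4, 7},
   {1, 2, 5, 6}, {1, 2, 5, 8}, {1, 2, 7, 8}, {1, 3, 5, 8}, {1, 3, 5, 9}, {1, 3, 7, 8}, {1, 3, 7, 9},
   {1, 4, 6, 9}, {1, 4, 7, 9}, {1, 5, 6, 9}, {2, 4, 6, 9}, {2, 4, 7, 8}, {2, 5, 6, 8}, {3, 4, 7, 9},
   {3, 5, 6, 9}, {3, 5, 7, 8}}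

lemma S0_sph : CombSphere 3 (cx S0) := by
  refine ⟨{0, 3, 4, 6, 8}, rfl, .symm _ _ ?_⟩
  have := run_eqv [({2, 5}, {1, 6, 8}), ({2, 9}, {0, 4, 6}), ({5, 9}, {1, 3, 6}),
    ({1, 5}, {3, 6, 8}), ({7, 9}, {1, 3, 4}), ({5, 7}, {0, 3, 8}), ({5}, {0, 3, 6, 8}),
    ({0, 2}, {4, 6, 8}), ({2, 7}, {1, 4, 8}), ({2}, {1, 4, 6, 8}), ({0, 7}, {3, 4, 8}),
    ({7}, {1, 3, 4, 8}), ({1, 9}, {3, 4, 6}), ({9}, {0, 3, 4, 6}), ({1}, {3, 4, 6, 8})] S0
    (image (erase {0, 3, 4, 6, 8}) {0, 3, 4, 6, 8}) (by decide +kernel)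
  convert this
  ext s
  simp only [Set.mem_ofPred_eq, ssubset_iff_exists_subset_erase, cx, coe_image, Set.mem_image,
    mem_coe, exists_exists_and_eq_and]

def dn (c : ℕ) (t : Finset ℕ) : Finset ℕ := (t.filter (c ≤ ·)).image (· - c)

@[simp] lemma mem_dn {c : ℕ} {t : Finset ℕ} {v : ℕ} : v ∈ dn c t ↔ v + c ∈ t := by
  simp only [dn, mem_image, mem_filter]
  exact ⟨fun ⟨u, a, b⟩ => by rw [show v + c = u by omega]; exact a.1,
    fun a => ⟨_, ⟨a, by omega⟩, by omega⟩⟩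

def up (c : ℕ) (t : Finset ℕ) : Finset ℕ := t.image (· + c)

@[simp] lemma mem_up {c : ℕ} {t : Finset ℕ} {v : ℕ} : v + c ∈ up c t ↔ v ∈ t := by simp [up]

lemma le_up {c : ℕ} {t : Finset ℕ} {v : ℕ} (h : v ∈ up c t) : c ≤ v := by
  obtain ⟨u, -, rfl⟩ := mem_image.1 h
  omega

lemma up_sub {c : ℕ} {s t : Finset ℕ} : up c s ⊆ t ↔ s ⊆ dn c t := by
  rw [up, image_subset_iff]
  exact forall₂_congr fun _ _ => mem_dn.symm

/-- suspension -/
def Su (K : Cx) : Cx := {t | ¬ (0 ∈ t ∧ 1 ∈ t) ∧ dn 2 t ∈ K}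

lemma Su_cx {K : Cx} (h : IsCx K) : IsCx (Su K) := by
  obtain ⟨N, hN⟩ := bound h
  refine isCx_of _ (N + 2) (fun s hs v hv => ?_) fun s hs t a => ⟨fun b => hs.1 ⟨a b.1, a b.2⟩,
    h.2 _ hs.2 _ fun v hv => mem_dn.2 (a (mem_dn.1 hv))⟩
  by_cases c : v < 2
  · omega
  · have := hN _ hs.2 (v - 2) (mem_dn.2 (by rwa [show v - 2 + 2 = v by omega]))
    omega

lemma Su_step {K L : Cx} (h : Step K L) : Step (Su K) (Su L) := by
  obtain ⟨h, σ, a, b, v, c, rfl⟩ := h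
  have n0 : 0 ∉ up 2 σ := fun e => by simpa using le_up e
  have n1 : 1 ∉ up 2 σ := fun e => by simpa using le_up e
  refine ⟨Su_cx h, up 2 σ, ⟨fun e => n0 e.1, ?_⟩, b.image _, v + 2, fun e => c ?_, ?_⟩
  · convert a
    ext u
    simp
  · convert e.2
    ext u
    simp
  · ext t
    have e : dn 2 (t.erase (v + 2) ∪ up 2 σ) = (dn 2 t).erase v ∪ σ := by ext u; simp
    simp only [Su, sd, Set.mem_ofPred_eq, up_sub, mem_dn, e, mem_union, mem_erase, n0, n1, or_false]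
    have : 0 ≠ v + 2 ∧ 1 ≠ v + 2 := by omega
    tauto

lemma Su_sph {n : ℕ} {K : Cx} (h : CombSphere n K) : CombSphere (n + 1) (Su K) := by
  obtain ⟨V, hV, h⟩ := h
  have n0 : 0 ∉ up 2 V := fun e => by simpa using le_up e
  have n1 : 1 ∉ up 2 V := fun e => by simpa using le_up e
  refine ⟨insert 0 (up 2 V), by
    rw [card_insert_of_notMem n0, up, card_image_of_injective _ (add_left_injective 2), hV],
    .trans _ (Su {s | s ⊂ V}) _ (.rel _ _ ⟨⟨(insert 0 (up 2 V)).powerset.finite_toSet.subset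
      fun s hs => mem_coe.2 (mem_powerset.2 hs.1), fun s hs t a => a.trans_ssubset hs⟩, up 2 V,
      ssubset_insert n0, (card_pos.1 (by omega)).image _, 1, fun e => ?_, ?_⟩) ?_⟩
  · simpa [n1] using e.1
  · ext t
    have key : ∀ x : Finset ℕ, 1 ∉ x → (x ⊆ insert 0 (up 2 V) ↔ dn 2 x ⊆ V) := by
      refine fun x hx => ⟨fun a u hu => by simpa using a (mem_dn.1 hu), fun a u hu => ?_⟩
      match u, hu with
      | 0, _ => simp
      | 1, hu => exact absurd hu hx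
      | u + 2, hu => simpa using a (mem_dn.2 hu)
    have e : dn 2 (t.erase 1 ∪ up 2 V) = dn 2 t ∪ V := by ext u; simp
    simp only [Su, sd, Set.mem_ofPred_eq, ssubset_iff_subset_ne.trans (and_congr_right fun a =>
      (not_congr (subset_antisymm_iff.trans (and_iff_right a)))), insert_subset_iff, up_sub]
    by_cases c : 1 ∈ t
    · rw [key _ (by simp [n1]), e]
      simp [c, n0, union_subset_iff]
      tauto
    · rw [key _ c]
      tauto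
  · generalize {s | s ⊂ V} = B at h
    induction h with
    | rel _ _ a => exact .rel _ _ (Su_step a)
    | refl => exact .refl _
    | symm _ _ _ a => exact .symm _ _ a
    | trans _ _ _ _ _ a b => exact .trans _ _ _ a b

def X : ℕ → Cx
  | 0 => cx S0
  | k + 1 => Su (X k)

lemma X_sph (k : ℕ) : IsCx (X k) ∧ CombSphere (k + 3) (X k) := by
  induction k with
  | zero => exact ⟨isCx_cx _, S0_sph⟩
  | succ k ih => exact ⟨Su_cx ih.1, by rw [add_right_comm]; exact Su_sph ih.2⟩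

lemma mem_X (k : ℕ) : ∀ t, t ∈ X k ↔
    (∀ i < k, ¬ (2 * i ∈ t ∧ 2 * i + 1 ∈ t)) ∧ ∃ F ∈ S0, ∀ v, v + 2 * k ∈ t → v ∈ F := by
  induction k with
  | zero => intro t; simp [X, cx, subset_iff]
  | succ k ih =>
    intro t
    simp only [X, Su, Set.mem_ofPred_eq, ih, mem_dn, Nat.forall_lt_succ_left, and_assoc, mul_add,
      add_assoc, mul_zero, zero_add, mul_one]

end Pool.Agent.H10.CS
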