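import Mathlib

set_option autoImplicit false

namespace Pool.Agent.H10.Proj

/-- two points of the unit sphere of `ℝ^n` are related when they are equal or antipodal -/
def antipodal (n : ℕ) : Setoid (Metric.sphere (0 : EuclideanSpace ℝ (Fin n)) 1) where
  r x y := y = x ∨ y = -x
  iseqv := ⟨fun _ => Or.inl rfl,
    fun h => h.elim (fun e => Or.inl e.symm) fun e => Or.inr (by rw [e, neg_neg]),
    fun h k => by rcases h with rfl | rfl <;> rcases k with rfl | rfl <;> simp⟩

/-- real projective `d`-space: the quotient of the `d`-sphere by the antipodal map -/
abbrev RP (d : ℕ) : Type := Quotient (antipodal (d + 1))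

end Pool.Agent.H10.Proj
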