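import Mathlib
import Pool.Agent.H10.Flip
import Pool.Agent.H10.RPDefs

set_option autoImplicit false

namespace Pool.Agent.H10.Flip
open Finset Pool.Agent.H10.Proj

abbrev Sph (n : ℕ) := Metric.sphere (0 : EuclideanSpace ℝ (Fin n)) 1

def cr (n : ℕ) (e : ℕ → ℕ) : Finset ℕ := (range n).image fun i => 2 * i + e i

lemma mem_cr {n : ℕ} {e : ℕ → ℕ} (he : ∀ i, e i < 2) (v : ℕ) :
    v ∈ cr n e ↔ v / 2 < n ∧ v % 2 = e (v / 2) := by
  simp only [cr, mem_image, mem_range]
  constructor
  · rintro ⟨i, a, rfl⟩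
    have := he i
    have b : (2 * i + e i) / 2 = i := by omega
    rw [b]
    omega
  · rintro ⟨a, b⟩
    exact ⟨_, a, by omega⟩

lemma sum_cr {n : ℕ} {e : ℕ → ℕ} (he : ∀ i, e i < 2) (x : ℕ → ℝ) :
    ∑ v ∈ cr n e, x v = ∑ i : Fin n, x (2 * i + e i) := by
  rw [cr, sum_image, Finset.sum_range]
  intro i _ j _ h
  have := he i
  have := he j
  simp only at h
  omega

/-- facets of the boundary of the cross-polytope -/
def cross (n : ℕ) : Set (Finset ℕ) := {F | ∃ e : ℕ → ℕ, (∀ i, e i < 2) ∧ F = cr n e}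

theorem rel_cross (n : ℕ) : Rel (fun y : Sph n => -y) (cross n) := by
  let c : Sph n → ℕ → ℝ := fun y i => if h : i < n then y.1 ⟨i, h⟩ else 0
  let S : Sph n → ℝ := fun y => ∑ i, |y.1 i|
  have ci : ∀ y (i : Fin n), c y i = y.1 i := fun y i => by simp [c]
  have cc : ∀ i, Continuous fun y => c y i := fun i => by
    simp only [c]; split_ifs <;> fun_prop
  have n1 : ∀ y : Sph n, ‖y.1‖ = 1 := fun y => by simp
  have S0 : ∀ y, 0 < S y := by
    intro y
    refine lt_of_le_of_ne (sum_nonneg fun _ _ => abs_nonneg _) fun h => ?_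
    have : y.1 = 0 := by
      ext i
      exact abs_eq_zero.1 ((sum_eq_zero_iff_of_nonneg fun _ _ => abs_nonneg _).1 h.symm i
        (mem_univ i))
    simpa [this] using n1 y
  let g : Sph n → ℕ → ℝ := fun y v =>
    max (if v % 2 = 0 then c y (v / 2) else - c y (v / 2)) 0 / S y
  have g0 : ∀ y i, g y (2 * i) = max (c y i) 0 / S y := fun y i => by simp [g]
  have g1 : ∀ y i, g y (2 * i + 1) = max (- c y i) 0 / S y := fun y i => by
    have : (2 * i + 1) / 2 = i := by omega
    simp [g, this]
  have gd : ∀ y (i : Fin n), y.1 i = S y * (g y (2 * i) - g y (2 * i + 1)) := fun y i => by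
    rw [g0, g1, ← sub_div, max_zero_sub_max_neg_zero_eq_self, ci, mul_div_cancel₀ _ (S0 y).ne']
  refine ⟨g, continuous_pi fun v => Continuous.div ?_ (by fun_prop) fun y => (S0 y).ne',
    fun y z h => ?_, ?_, fun y => ?_⟩
  · split_ifs
    exacts [(cc _).max continuous_const, (cc _).neg.max continuous_const]
  · have e : y.1 = (S y / S z) • z.1 := by
      ext i
      have := S0 z
      rw [PiLp.smul_apply, gd y, gd z, h, smul_eq_mul]
      field_simp
    have := congrArg norm e
    rw [norm_smul, n1, n1, mul_one, Real.norm_of_nonneg (div_pos (S0 y) (S0 z)).le] at this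
    rw [← this, one_smul] at e
    exact Subtype.ext e
  · ext x
    constructor
    · rintro ⟨y, rfl⟩
      let e : ℕ → ℕ := fun i => if 0 ≤ c y i then 0 else 1
      have he : ∀ i, e i < 2 := fun i => by simp only [e]; split_ifs <;> omega
      refine ⟨fun v => div_nonneg (le_max_right _ _) (S0 y).le, _, ⟨e, he, rfl⟩, fun v hv => ?_, ?_⟩
      · rw [mem_cr he] at hv
        simp only [g, div_eq_zero_iff, max_eq_right_iff]
        left
        by_cases a : v / 2 < n
        · simp only [a, true_and, e] at hv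
          split_ifs at hv ⊢ <;> first | linarith | omega
        · simp [c, a]
      · rw [sum_cr he, ← div_self (S0 y).ne', sum_div]
        refine sum_congr rfl fun i _ => ?_
        rw [← ci]
        simp only [e]
        split_ifs with a
        · rw [add_zero, g0, max_eq_left a, abs_of_nonneg a]
        · rw [g1, max_eq_left (by linarith), abs_of_neg (not_le.1 a)]
    · rintro ⟨h0, _, ⟨e, he, rfl⟩, h1, h2⟩
      let z : EuclideanSpace ℝ (Fin n) := WithLp.toLp 2 fun i => x (2 * i) - x (2 * i + 1)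
      have one : ∀ i, (e i = 0 ∧ x (2 * i + 1) = 0) ∨ (e i = 1 ∧ x (2 * i) = 0) := by
        intro i
        have := he i
        have a : (2 * i + 1) / 2 = i := by omega
        have b : (2 * i) / 2 = i := by omega
        by_cases d : e i = 0
        · exact Or.inl ⟨d, h1 _ (by rw [mem_cr he, a]; omega)⟩
        · exact Or.inr ⟨by omega, h1 _ (by rw [mem_cr he, b]; omega)⟩
      have sz : ∑ i, |z i| = 1 := by
        rw [← h2, sum_cr he]
        refine sum_congr rfl fun i _ => ?_
        rcases one i with ⟨a, b⟩ | ⟨a, b⟩ <;> simp [z, a, b, h0]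
      have z0 : 0 < ‖z‖ := norm_pos_iff.2 fun h => by simp [h] at sz
      let y : Sph n := ⟨‖z‖⁻¹ • z, by simp [norm_smul, z0.ne']⟩
      have Sy : S y = ‖z‖⁻¹ := by
        simp only [S, y, PiLp.smul_apply, smul_eq_mul, abs_mul, ← mul_sum, sz, mul_one]
        exact abs_of_pos (inv_pos.2 z0)
      refine ⟨y, funext fun v => ?_⟩
      by_cases a : v / 2 < n
      · have cy : c y (v / 2) = ‖z‖⁻¹ * (x (2 * (v / 2)) - x (2 * (v / 2) + 1)) := by
          simp [c, a, y, z]
        have p := inv_pos.2 z0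
        have q0 := h0 (2 * (v / 2))
        have q1 := h0 (2 * (v / 2) + 1)
        simp only [g]
        rw [Sy, cy, div_eq_iff p.ne']
        split_ifs with b
        · have b' : 2 * (v / 2) = v := by omega
          rcases one (v / 2) with ⟨-, d⟩ | ⟨-, d⟩
          · rw [d, b', sub_zero, max_eq_left (mul_nonneg p.le (h0 v)), mul_comm]
          · rw [d, max_eq_right (by nlinarith), ← b', d, zero_mul]
        · have b' : 2 * (v / 2) + 1 = v := by omega
          rcases one (v / 2) with ⟨-, d⟩ | ⟨-, d⟩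
          · rw [d, max_eq_right (by nlinarith), ← b', d, zero_mul]
          · rw [d, b', max_eq_left (by nlinarith [h0 v])]
            ring
      · rw [h1 v (by rw [mem_cr he]; tauto)]
        simp [g, c, a]
  · funext v
    have a : ∀ i, c (-y) i = - c y i := fun i => by simp only [c]; split_ifs <;> simp
    have b : S (-y) = S y := by simp [S]
    simp only [g, N, a, b, ng_eq]
    by_cases d : v % 2 = 0
    · have e1 : (v + 1) / 2 = v / 2 := by omega
      have e2 : ¬ (v + 1) % 2 = 0 := by omega
      simp only [d, if_true, e1, e2, if_false]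
    · have e1 : (v - 1) / 2 = v / 2 := by omega
      have e2 : (v - 1) % 2 = 0 := by omega
      simp only [d, if_true, e1, e2, if_false, neg_neg]

theorem Rel.quot {d : ℕ} {D : Set (Finset ℕ)} (h : Rel (fun y : Sph (d + 1) => -y) D)
    (hD : ∀ F ∈ D, ∀ G ∈ D, ∀ a ∈ F, ∀ b ∈ F, a ∈ G → ng b ∉ G) :
    Nonempty (R (Finset.image (· / 2) '' D) ≃ₜ RP d) := by
  obtain ⟨g, g1, g2, g3, g4⟩ := h
  let p : (ℕ → ℝ) → ℕ → ℝ := fun x i => x (2 * i) + x (2 * i + 1)
  have pv : ∀ x v, p x (v / 2) = x v + x (ng v) := by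
    intro x v
    simp only [p, ng_eq]
    split_ifs with a
    · rw [show 2 * (v / 2) = v by omega]
    · rw [show 2 * (v / 2) + 1 = v by omega, show 2 * (v / 2) = v - 1 by omega, add_comm]
  have pN : ∀ x, p (N x) = p x := by
    intro x
    funext i
    simp only [p, N, ng_eq]
    rw [if_pos (by omega), if_neg (by omega), add_comm, Nat.add_sub_cancel]
  have ij : ∀ F ∈ D, Set.InjOn (· / 2) (F : Set ℕ) := by
    intro F hF a ha b hb e
    by_contra c
    refine hD F hF F hF a ha a ha ha (by
      rw [ng_eq]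
      simp only at e
      split_ifs
      · rwa [show a + 1 = b by omega]
      · rwa [show a - 1 = b by omega])
  have maps : ∀ x ∈ R D, p x ∈ R (Finset.image (· / 2) '' D) := by
    rintro x ⟨h0, F, hF, h1, h2⟩
    refine ⟨fun i => add_nonneg (h0 _) (h0 _), _, ⟨F, hF, rfl⟩, fun i hi => ?_, ?_⟩
    · simp only [p]
      rw [h1 _ fun c => hi (mem_image.2 ⟨_, c, by omega⟩),
        h1 _ fun c => hi (mem_image.2 ⟨_, c, by omega⟩), add_zero]
    · rw [sum_image (ij F hF), ← h2]
      exact sum_congr rfl fun v hv => by rw [pv, h1 _ (hD F hF F hF v hv v hv hv), add_zero]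
  have fib : ∀ x ∈ R D, ∀ y ∈ R D, p x = p y → ∀ a, x a ≠ 0 → y a ≠ 0 → x = y := by
    rintro x ⟨x0, F, hF, x1, -⟩ y ⟨y0, G, hG, y1, -⟩ e a xa ya
    have aF : a ∈ F := by_contra fun c => xa (x1 a c)
    have aG : a ∈ G := by_contra fun c => ya (y1 a c)
    funext b
    have e' := congrFun e (b / 2)
    rw [pv, pv] at e'
    by_cases c : b ∈ F
    · rwa [x1 _ (hD F hF F hF b c b c c), y1 _ (hD F hF G hG a aF b c aG), add_zero, add_zero] at e'
    · by_cases c' : b ∈ G
      · rwa [y1 _ (hD G hG G hG b c' b c' c'), x1 _ (hD G hG F hF a aG b c' aF), add_zero,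
          add_zero] at e'
      · rw [x1 b c, y1 b c']
  have gR : ∀ y, g y ∈ R D := fun y => g3 ▸ ⟨y, rfl⟩
  let u : Sph (d + 1) → R (Finset.image (· / 2) '' D) := fun y => ⟨p (g y), maps _ (gR y)⟩
  have uc : Continuous u := Continuous.subtype_mk (by fun_prop) _
  let f : RP d → R (Finset.image (· / 2) '' D) := Quotient.lift u (by
    rintro y z (rfl | rfl)
    · rfl
    · exact Subtype.ext (by simp only [u]; rw [g4, pN]))
  have inj : Function.Injective f := by
    intro y z
    induction y using Quotient.inductionOn with | _ y => ?_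
    induction z using Quotient.inductionOn with | _ z => ?_
    intro e
    have e' : p (g y) = p (g z) := congrArg Subtype.val e
    obtain ⟨-, F, -, -, h2⟩ := gR y
    obtain ⟨a, -, ha⟩ := exists_ne_zero_of_sum_ne_zero (h2 ▸ one_ne_zero)
    refine Quotient.sound ?_
    by_cases c : g z a = 0
    · refine Or.inr ?_
      have : g (-z) a ≠ 0 := by
        have e2 := congrFun e' (a / 2)
        rw [pv, pv, c, zero_add] at e2
        rw [g4]
        intro b
        have b0 := (gR y).1 a
        have b1 := (gR y).1 (ng a)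
        exact ha (by simp only [N] at b; linarith)
      rw [g2 (fib _ (gR y) _ (gR (-z)) (by rw [g4, pN, e']) a ha this), neg_neg]
    · exact Or.inl (g2 (fib _ (gR y) _ (gR z) e' a ha c)).symm
  have surj : Function.Surjective f := by
    rintro ⟨z, h0, _, ⟨F, hF, rfl⟩, h1, h2⟩
    let x : ℕ → ℝ := fun v => if v ∈ F then z (v / 2) else 0
    have hx : x ∈ R D := by
      refine ⟨fun v => ?_, F, hF, fun v hv => if_neg hv, ?_⟩
      · simp only [x]; split_ifs; exacts [h0 _, le_rfl]
      · rw [← h2, sum_image (ij F hF)]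
        exact sum_congr rfl fun v hv => if_pos hv
    obtain ⟨y, hy⟩ : x ∈ Set.range g := g3 ▸ hx
    refine ⟨Quotient.mk _ y, Subtype.ext (funext fun i => ?_)⟩
    show p (g y) i = z i
    rw [hy]
    by_cases c : i ∈ F.image (· / 2)
    · obtain ⟨v, hv, rfl⟩ := mem_image.1 c
      rw [pv]
      simp [x, hv, hD F hF F hF v hv v hv hv]
    · simp only [p, x]
      rw [if_neg fun b => c (mem_image.2 ⟨_, b, by omega⟩),
        if_neg fun b => c (mem_image.2 ⟨_, b, by omega⟩), add_zero, h1 i c]
  exact ⟨(Continuous.homeoOfEquivCompactToT2 (f := Equiv.ofBijective f ⟨inj, surj⟩)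
    (uc.quotient_lift _)).symm⟩

end Pool.Agent.H10.Flip
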