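import Mathlib
import Pool.Agent.H10.CSComb
import Pool.Agent.H10.FlipRP

set_option autoImplicit false

namespace Pool.Agent.H10.CS
open Finset Pool.Agent.H10.Ced Pool.Agent.H10.Flip

lemma X_lt (k : ℕ) (t : Finset ℕ) (h : t ∈ X k) (v : ℕ) (hv : v ∈ t) : v < 2 * k + 10 := by
  obtain ⟨-, F, a, b⟩ := (mem_X k t).1 h
  by_contra c
  have := (by decide : ∀ F ∈ S0, ∀ v ∈ F, v < 10) F a (v - 2 * k)
    (b _ (by rwa [show v - 2 * k + 2 * k = v by omega]))
  omega

lemma X_pair (k u v : ℕ) (hu : u < 2 * k + 10) (hv : v < 2 * k + 10) (h : u ≠ ng v) :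
    {u, v} ∈ X k := by
  rw [ng_eq] at h
  refine (mem_X k _).2 ⟨fun i _ => by
    simp only [mem_insert, mem_singleton]; split_ifs at h <;> omega, ?_⟩
  have key : ∀ a < 10, ∀ b < 10, a = ng b ∨ ∃ F ∈ S0, a ∈ F ∧ b ∈ F := by decide +kernel
  obtain ⟨F, a, b⟩ : ∃ F ∈ S0, (if u < 2 * k then v else u) - 2 * k ∈ F ∧
      (if v < 2 * k then u else v) - 2 * k ∈ F := by
    refine (key _ (by split_ifs <;> omega) _ (by split_ifs <;> omega)).resolve_left ?_
    rw [ng_eq]
    split_ifs at h ⊢ <;> omega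
  refine ⟨F, a, fun w hw => ?_⟩
  simp only [mem_insert, mem_singleton] at hw
  rcases hw with rfl | rfl
  · simpa using b.1
  · simpa using b.2

lemma X_symm (k : ℕ) : Symm (X k) := by
  refine ⟨ng, ng_ng, fun t ht => ?_⟩
  obtain ⟨a, F, b, c⟩ := (mem_X k t).1 ht
  have e : ∀ v, ng (v + 2 * k) = ng v + 2 * k := fun v => by
    simp only [ng_eq]; split_ifs <;> omega
  refine ⟨(mem_X k (nf t)).2 ⟨fun i hi d => a i hi ?_, nf F,
    (by decide +kernel : ∀ F ∈ S0, nf F ∈ S0) F b, fun v d => mem_nf.2 (c _ (e v ▸ mem_nf.1 d))⟩,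
    disjoint_left.2 fun v (d : v ∈ nf t) d' => ?_⟩
  · simp only [mem_nf, ng_eq] at d
    rw [if_pos (by omega), if_neg (by omega)] at d
    exact ⟨d.2, d.1⟩
  · rw [mem_nf] at d
    by_cases q : v < 2 * k
    · refine a (v / 2) (by omega) ?_
      rw [ng_eq] at d
      split_ifs at d
      · exact ⟨by rwa [show 2 * (v / 2) = v by omega], by rwa [show 2 * (v / 2) = v by omega]⟩
      · exact ⟨by rwa [show 2 * (v / 2) = v - 1 by omega],
          by rwa [show 2 * (v / 2) + 1 = v by omega]⟩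
    · obtain ⟨w, rfl⟩ : ∃ w, v = w + 2 * k := ⟨v - 2 * k, by omega⟩
      exact (by decide +kernel : ∀ F ∈ S0, ∀ v ∈ F, ng v ∉ F) F b w (c _ d') (c _ (e w ▸ d))

lemma tri {A m y : ℝ} (h : A + m * y = 0) (h1 : -1 < y) (h2 : y < 1) :
    (0 < m → A < m ∧ -m < A) ∧ (m < 0 → A < -m ∧ m < A) ∧ (m = 0 → A = 0) :=
  ⟨fun a => ⟨by nlinarith, by nlinarith⟩, fun a => ⟨by nlinarith, by nlinarith⟩,
    fun a => by simpa [a] using h⟩

lemma core (k : ℕ) (q : ℕ → Fin (k + 4) → ℝ) (hq : ∀ i < k + 5, q (2 * i + 1) = -q (2 * i))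
    (h : ∀ t ∈ X k, t.Nonempty → ∃ l : (Fin (k + 4) → ℝ) →ₗ[ℝ] ℝ,
      ∀ v < 2 * k + 10, l (q v) ≤ 1 ∧ (v ∈ t ↔ l (q v) = 1)) : False := by
  have dep : ¬ LinearIndependent ℝ fun i : Fin (k + 5) => q (2 * i) := fun a => by
    simpa using a.fintype_card_le_finrank
  obtain ⟨c, c1, i0, c2⟩ := Fintype.not_linearIndependent_iff.1 dep
  let w : ℕ → ℝ := fun i => if h : i < k + 5 then c ⟨i, h⟩ else 0
  have c3 : ∑ i ∈ range (k + 5), w i • q (2 * i) = 0 := by
    rw [← c1, Finset.sum_range]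
    simp [w]
  have main : ∀ F ∈ S0, ∀ e : ℕ → ℕ, (∀ i, e i < 2) → ∃ y : ℕ → ℝ,
      (∀ i < 5, (2 * i ∈ F → y i = 1) ∧ (2 * i + 1 ∈ F → y i = -1) ∧ (2 * i ∉ F → y i < 1) ∧
        (2 * i + 1 ∉ F → -1 < y i)) ∧
      ∑ i ∈ range k, w i * (1 - 2 * e i) + ∑ i ∈ range 5, w (k + i) * y i = 0 := by
    intro F hF e he
    have mm : ∀ v, v + 2 * k ∈ cr k e ∪ up (2 * k) F ↔ v ∈ F := fun v => by
      rw [mem_union, mem_cr he, mem_up]
      exact or_iff_right (by omega)
    have nb : ∀ i < k, ¬ (2 * i ∈ cr k e ∪ up (2 * k) F ∧ 2 * i + 1 ∈ cr k e ∪ up (2 * k) F) := by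
      intro i hi a
      simp only [mem_union, mem_cr he] at a
      have b : (2 * i + 1) / 2 = i := by omega
      have d : 2 * i / 2 = i := by omega
      rw [b, d] at a
      have := a.1.imp_right le_up
      have := a.2.imp_right le_up
      omega
    obtain ⟨l, hl⟩ := h (cr k e ∪ up (2 * k) F) ((mem_X k _).2 ⟨nb, F, hF,
      fun v => (mm v).1⟩) (((by decide : ∀ F ∈ S0, F.Nonempty) F hF).image _).inr
    refine ⟨fun i => l (q (2 * (k + i))), fun i hi => ?_, ?_⟩
    · have a := hl (2 * i + 2 * k) (by omega)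
      have b := hl (2 * i + 1 + 2 * k) (by omega)
      rw [mm, show 2 * i + 2 * k = 2 * (k + i) by omega] at a
      rw [mm, show 2 * i + 1 + 2 * k = 2 * (k + i) + 1 by omega, hq _ (by omega), map_neg] at b
      exact ⟨a.2.1, fun d => by linarith [b.2.1 d], fun d => a.1.lt_of_ne (mt a.2.2 d),
        fun d => by linarith [b.1.lt_of_ne (mt b.2.2 d)]⟩
    · have := congrArg l c3
      simp only [map_sum, map_smul, map_zero, smul_eq_mul] at this
      rw [sum_range_add] at this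
      rw [← this]
      congr 1
      refine sum_congr rfl fun i hi => ?_
      have hi := mem_range.1 hi
      have a := (hl (2 * i + e i) (by have := he i; omega)).2.1
        (mem_union_left _ (mem_image_of_mem _ (mem_range.2 hi)))
      have := he i
      rcases (show e i = 0 ∨ e i = 1 by omega) with b | b <;> rw [b] at a ⊢
      · simp [show l (q (2 * i)) = 1 from a]
      · rw [hq _ (by omega), map_neg] at a
        rw [show l (q (2 * i)) = -1 by linarith]
        norm_num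
  have avg : ∀ F ∈ S0, ∃ y : ℕ → ℝ,
      (∀ i < 5, (2 * i ∈ F → y i = 1) ∧ (2 * i + 1 ∈ F → y i = -1) ∧ (2 * i ∉ F → y i < 1) ∧
        (2 * i + 1 ∉ F → -1 < y i)) ∧ w k * y 0 + w (k + 1) * y 1 + w (k + 2) * y 2 +
          w (k + 3) * y 3 + w (k + 4) * y 4 = 0 := by
    intro F hF
    obtain ⟨y, a, b⟩ := main F hF (fun _ => 0) (by simp)
    obtain ⟨z, d, e⟩ := main F hF (fun _ => 1) (by simp)
    refine ⟨fun i => (y i + z i) / 2, fun i hi => ⟨fun r => ?_, fun r => ?_, fun r => ?_,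
      fun r => ?_⟩, ?_⟩
    · linarith [(a i hi).1 r, (d i hi).1 r]
    · linarith [(a i hi).2.1 r, (d i hi).2.1 r]
    · linarith [(a i hi).2.2.1 r, (d i hi).2.2.1 r]
    · linarith [(a i hi).2.2.2 r, (d i hi).2.2.2 r]
    · simp only [sum_range_succ, sum_range_zero, ← sum_mul, add_zero] at b e
      push_cast at b e
      linarith
  have z : w k = 0 ∧ w (k + 1) = 0 ∧ w (k + 2) = 0 ∧ w (k + 3) = 0 ∧ w (k + 4) = 0 := by
    obtain ⟨y1, a1, b1⟩ := avg {0, 5, 6, 8} (by decide)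
    obtain ⟨y2, a2, b2⟩ := avg {0, 5, 7, 8} (by decide)
    obtain ⟨y3, a3, b3⟩ := avg {2, 4, 6, 9} (by decide)
    obtain ⟨y4, a4, b4⟩ := avg {2, 4, 7, 8} (by decide)
    obtain ⟨y5, a5, b5⟩ := avg {2, 5, 6, 8} (by decide)
    have five : ∀ {P : ℕ → Prop}, (∀ i < 5, P i) → P 0 ∧ P 1 ∧ P 2 ∧ P 3 ∧ P 4 := fun a =>
      ⟨a 0 (by omega), a 1 (by omega), a 2 (by omega), a 3 (by omega), a 4 (by omega)⟩
    replace a1 := five a1
    replace a2 := five a2
    replace a3 := five a3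
    replace a4 := five a4
    replace a5 := five a5
    simp at a1 a2 a3 a4 a5
    have t1 := tri (A := w k - w (k + 2) + w (k + 3) + w (k + 4)) (m := w (k + 1)) (y := y1 1)
      (by simp only [a1] at b1; linarith) (by simp only [a1]) (by simp only [a1])
    have t2 := tri (A := w k - w (k + 2) - w (k + 3) + w (k + 4)) (m := w (k + 1)) (y := y2 1)
      (by simp only [a2] at b2; linarith) (by simp only [a2]) (by simp only [a2])
    have t3 := tri (A := w (k + 1) + w (k + 2) + w (k + 3) - w (k + 4)) (m := w k) (y := y3 0)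
      (by simp only [a3] at b3; linarith) (by simp only [a3]) (by simp only [a3])
    have t4 := tri (A := w (k + 1) + w (k + 2) - w (k + 3) + w (k + 4)) (m := w k) (y := y4 0)
      (by simp only [a4] at b4; linarith) (by simp only [a4]) (by simp only [a4])
    have t5 := tri (A := w (k + 1) - w (k + 2) + w (k + 3) + w (k + 4)) (m := w k) (y := y5 0)
      (by simp only [a5] at b5; linarith) (by simp only [a5]) (by simp only [a5])
    clear * - t1 t2 t3 t4 t5
    generalize w k = x0, w (k + 1) = x1, w (k + 2) = x2, w (k + 3) = x3, w (k + 4) = x4 at *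
    have t0 : (0 < x0 ∨ x0 < 0 ∨ x0 = 0) ∧ (0 < x1 ∨ x1 < 0 ∨ x1 = 0) :=
      ⟨(lt_trichotomy 0 x0).imp_right fun a => a.symm.imp_right Eq.symm,
        (lt_trichotomy 0 x1).imp_right fun a => a.symm.imp_right Eq.symm⟩
    obtain ⟨a, b⟩ := t0
    have u := b.imp (fun b => And.intro b (And.intro (t1.1 b) (t2.1 b))) (Or.imp
      (fun b => And.intro b (And.intro (t1.2.1 b) (t2.2.1 b)))
      fun b => And.intro b (And.intro (t1.2.2 b) (t2.2.2 b)))
    have v := a.imp (fun a => And.intro a (And.intro (t3.1 a) (And.intro (t4.1 a) (t5.1 a))))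
      (Or.imp (fun a => And.intro a (And.intro (t3.2.1 a) (And.intro (t4.2.1 a) (t5.2.1 a))))
      fun a => And.intro a (And.intro (t3.2.2 a) (And.intro (t4.2.2 a) (t5.2.2 a))))
    clear a b t1 t2 t3 t4 t5
    casesm* _ ∨ _, _ ∧ _ <;> refine ⟨?_, ?_, ?_, ?_, ?_⟩ <;> linarith
  have z2 : ∀ e : ℕ → ℕ, (∀ i, e i < 2) → ∑ i ∈ range k, w i * (1 - 2 * e i) = 0 := by
    intro e he
    obtain ⟨y, -, b⟩ := main {0, 2, 4, 8} (by decide) e he
    simpa [sum_range_succ, z] using b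
  refine c2 ?_
  have : w i0 = c i0 := by simp [w]
  rw [← this]
  by_cases a : i0.val < k
  · have b := z2 (fun i => if i = i0 then 1 else 0) fun i => by split_ifs <;> omega
    have d := z2 (fun _ => 0) (by simp)
    simp only [mul_sub, sum_sub_distrib, Nat.cast_ite, Nat.cast_one, Nat.cast_zero, mul_ite,
      mul_zero, sum_ite_eq', mem_range, a, if_true, sum_const_zero] at b d
    linarith
  · have := i0.2
    rcases (show i0.val = k ∨ i0.val = k + 1 ∨ i0.val = k + 2 ∨ i0.val = k + 3 ∨ i0.val = k + 4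
      by omega) with b | b | b | b | b <;> rw [b] <;> tauto

theorem not_poly (k : ℕ) (Q : Cx) (hQ : CSPoly (k + 4) Q) : ¬ Iso Q (X k) := by
  rintro ⟨f, hf, e⟩
  obtain ⟨W, p, sp, sy, h2⟩ := hQ
  let g := Function.invFun f
  have gf : ∀ u, g (f u) = u := Function.leftInverse_invFun hf
  have hull : ∀ (l : (Fin (k + 4) → ℝ) →ₗ[ℝ] ℝ) (m : ℝ), (∀ u ∈ W, l (p u) ≤ m) →
      ∀ u ∈ W, -l (p u) ≤ m := fun l m a u hu => by
    rw [← map_neg]
    exact convexHull_min (Set.forall_mem_image.2 a) (convex_halfSpace_le l.isLinear m)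
      (sy _ (subset_convexHull _ _ ⟨u, hu, rfl⟩))
  have pos : ∀ (l : (Fin (k + 4) → ℝ) →ₗ[ℝ] ℝ) (m : ℝ), l ≠ 0 → (∀ u ∈ W, l (p u) ≤ m) → 0 < m := by
    refine fun l m l0 a => not_le.1 fun b => l0 (LinearMap.ker_eq_top.1 (top_unique fun x _ => ?_))
    have : affineSpan ℝ (p '' W) ≤ (LinearMap.ker l).toAffineSubspace :=
      affineSpan_le.2 (Set.forall_mem_image.2 fun u hu => show l (p u) = 0 by
        linarith [a u hu, hull l m a u hu])
    exact this (sp ▸ AffineSubspace.mem_top ℝ _ x)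
  have key : ∀ t ∈ X k, t.Nonempty → ∃ l : (Fin (k + 4) → ℝ) →ₗ[ℝ] ℝ, (∀ u ∈ W, l (p u) ≤ 1) ∧
      (∀ u ∈ W, f u ∈ t ↔ l (p u) = 1) ∧ ∀ v ∈ t, g v ∈ W ∧ f (g v) = v := by
    rintro t ht ⟨a, ha⟩
    rw [e] at ht
    obtain ⟨s, hs, rfl⟩ := ht
    obtain ⟨a, ha, -⟩ := mem_image.1 ha
    rw [h2] at hs
    rcases hs with rfl | ⟨l, l0, hl⟩
    · simp at ha
    have b := ((hl a).1 ha).2
    have m0 := pos l _ l0 b
    refine ⟨(l (p a))⁻¹ • l, fun u hu => (inv_mul_le_one₀ m0).2 (b u hu), fun u hu => ?_,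
      fun v hv => ?_⟩
    · rw [hf.mem_finset_image, LinearMap.smul_apply, smul_eq_mul, inv_mul_eq_one₀ m0.ne', hl]
      exact ⟨fun c => le_antisymm (c.2 a ((hl a).1 ha).1) (b u hu), fun c => ⟨hu, c ▸ b⟩⟩
    · obtain ⟨u, c, rfl⟩ := mem_image.1 hv
      rw [gf]
      exact ⟨((hl u).1 c).1, rfl⟩
  have one : ∀ v < 2 * k + 10, {v} ∈ X k := fun v hv => by
    simpa using X_pair k v v hv hv (by rw [ng_eq]; split_ifs <;> omega)
  have vx : ∀ v < 2 * k + 10, g v ∈ W ∧ f (g v) = v := fun v hv =>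
    (key _ (one v hv) (singleton_nonempty v)).elim fun _ a => a.2.2 v (mem_singleton_self v)
  refine core k (fun v => p (g v)) (fun i hi => ?_) fun t ht t0 => ?_
  · obtain ⟨l, a, b, -⟩ := key _ (one (2 * i) (by omega)) (singleton_nonempty _)
    have v1 := vx (2 * i) (by omega)
    have l1 := (b _ v1.1).1 (by simp [v1.2])
    obtain ⟨w, hw, c⟩ := exists_max_image W (fun u => (-l) (p u)) ⟨_, v1.1⟩
    have w1 : p w = -p (g (2 * i)) := by
      have c1 : l (-p w) = 1 := by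
        rw [map_neg]
        refine le_antisymm (hull l 1 a w hw) ?_
        have := hull (-l) _ c _ v1.1
        simpa [l1] using this
      have cv : Convex ℝ {x | l x ≤ 1 ∧ (l x = 1 → x = p (g (2 * i)))} := by
        intro x hx y hy s t s0 t0 st
        simp only [Set.mem_ofPred_eq, map_add, map_smul, smul_eq_mul]
        refine ⟨by nlinarith [hx.1, hy.1], fun r => ?_⟩
        rcases s0.eq_or_lt with rfl | s1
        · rw [zero_add] at st
          rw [st] at r ⊢
          simpa using hy.2 (by linarith)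
        rcases t0.eq_or_lt with rfl | t1
        · rw [add_zero] at st
          rw [st] at r ⊢
          simpa using hx.2 (by linarith)
        rw [hx.2 (by nlinarith [hx.1, hy.1]), hy.2 (by nlinarith [hx.1, hy.1]), ← add_smul, st,
          one_smul]
      have := (convexHull_min (by
        rintro _ ⟨u, hu, rfl⟩
        exact ⟨a u hu, fun r => by rw [← mem_singleton.1 ((b u hu).2 r), gf]⟩) cv
        (sy _ (subset_convexHull _ _ ⟨w, hw, rfl⟩))).2 c1
      rw [← this, neg_neg]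
    have w2 : f w < 2 * k + 10 := by
      refine X_lt k (image f (W.filter fun v => ∀ u ∈ W, (-l) (p u) ≤ (-l) (p v))) ?_ _
        (mem_image_of_mem _ (mem_filter.2 ⟨hw, c⟩))
      rw [e, h2]
      exact ⟨_, Or.inr ⟨-l, fun r => by simp [neg_eq_zero.1 r] at l1, fun v => mem_filter⟩, rfl⟩
    by_cases d : f w = ng (2 * i)
    · rw [← w1, ← gf w, d, ng_eq, if_pos (by omega)]
    · obtain ⟨l', -, b', -⟩ := key _ (X_pair k _ (2 * i) w2 (by omega) d) (insert_nonempty _ _)
      have r1 := (b' w hw).1 (by simp)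
      have r2 := (b' _ v1.1).1 (by simp [v1.2])
      rw [w1, map_neg] at r1
      linarith
  · obtain ⟨l, a, b, -⟩ := key t ht t0
    exact ⟨l, fun v hv => ⟨a _ (vx v hv).1, by rw [← b _ (vx v hv).1, (vx v hv).2]⟩⟩

end Pool.Agent.H10.CS
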