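import Mathlib
import Pool.Agent.H10.CedDefs

set_option autoImplicit false

namespace Pool.Agent.H10.Ced
open Finset

/-- complex generated by a list of vertex lists -/
def gen (L : List (List ℕ)) : Cx := {s | ∃ F ∈ L, s ⊆ F.toFinset}

def R (L : List (List ℕ)) : Set (ℕ → ℝ) :=
  {x | (∀ v, 0 ≤ x v) ∧ ∃ F ∈ L, (∀ v, v ∉ F → x v = 0) ∧ ∑ v ∈ F.toFinset, x v = 1}

lemma real_gen (L : List (List ℕ)) : real (gen L) = R L := by
  ext x
  constructor
  · rintro ⟨h0, s, ⟨F, hF, hs⟩, h1, h2⟩
    refine ⟨h0, F, hF, fun v hv => h1 v fun h => hv (List.mem_toFinset.1 (hs h)), ?_⟩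
    rw [← h2]
    exact (Finset.sum_subset hs fun v _ hv => h1 v hv).symm
  · rintro ⟨h0, F, hF, h1, h2⟩
    exact ⟨h0, F.toFinset, ⟨F, hF, subset_rfl⟩, fun v hv => h1 v (by simpa using hv), h2⟩

lemma R_compact (L : List (List ℕ)) : IsCompact (R L) := by
  have hc : IsCompact (Set.pi Set.univ fun _ : ℕ => Set.Icc (0 : ℝ) 1) :=
    isCompact_univ_pi fun _ => isCompact_Icc
  refine hc.of_isClosed_subset ?_ ?_
  · have : R L = (⋂ v, {x : ℕ → ℝ | 0 ≤ x v}) ∩ ⋃ F ∈ L.toFinset,
        ((⋂ v, ⋂ (_ : v ∉ F), {x : ℕ → ℝ | x v = 0}) ∩ {x | ∑ v ∈ F.toFinset, x v = 1}) := by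
      ext x; simp [R, and_left_comm]
    rw [this]
    refine (isClosed_iInter fun v => isClosed_le continuous_const (continuous_apply v)).inter ?_
    refine isClosed_biUnion_finset fun F _ => IsClosed.inter ?_ ?_
    · exact isClosed_iInter fun v => isClosed_iInter fun _ =>
        isClosed_eq (continuous_apply v) continuous_const
    · exact isClosed_eq (by fun_prop) continuous_const
  · rintro x ⟨h0, F, -, h1, h2⟩ v -
    refine ⟨h0 v, ?_⟩
    by_cases hv : v ∈ F
    · rw [← h2]
      exact Finset.single_le_sum (f := x) (fun u _ => h0 u) (List.mem_toFinset.2 hv)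
    · rw [h1 v hv]; exact zero_le_one

def mem (v : ℕ) (l : List ℕ) : Bool := List.rec false (fun a _ r => Nat.beq v a || r) l

@[simp] lemma mem_iff (v : ℕ) (l : List ℕ) : mem v l = true ↔ v ∈ l := by
  induction l with
  | nil => simp [mem]
  | cons a l ih =>
    have : mem v (a :: l) = (Nat.beq v a || mem v l) := rfl
    rw [this, Bool.or_eq_true, ih, Nat.beq_eq, List.mem_cons]

@[simp] lemma mem_false (v : ℕ) (l : List ℕ) : mem v l = false ↔ v ∉ l := by
  rw [← mem_iff]; simp only [Bool.not_eq_true]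

def eqL (l : List ℕ) : List ℕ → Bool :=
  List.rec (fun m => m.isEmpty) (fun a _ r m => match m with
    | [] => false
    | b :: m => Nat.beq a b && r m) l

lemma eqL_iff (l : List ℕ) : ∀ m, eqL l m = true ↔ l = m := by
  induction l with
  | nil => intro m; cases m <;> simp [eqL]
  | cons a l ih =>
    intro m
    cases m with
    | nil => simp [eqL]
    | cons b m =>
      have : eqL (a :: l) (b :: m) = (Nat.beq a b && eqL l m) := rfl
      rw [this, Bool.and_eq_true, ih, Nat.beq_eq, List.cons.injEq]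

def memL (v : List ℕ) (l : List (List ℕ)) : Bool := List.rec false (fun a _ r => eqL v a || r) l

@[simp] lemma memL_iff (v : List ℕ) (l : List (List ℕ)) : memL v l = true ↔ v ∈ l := by
  induction l with
  | nil => simp [memL]
  | cons a l ih =>
    have : memL v (a :: l) = (eqL v a || memL v l) := rfl
    rw [this, Bool.or_eq_true, ih, eqL_iff, List.mem_cons]

def sub (s F : List ℕ) : Bool := s.all fun v => mem v F

lemma sub_iff (s F : List ℕ) : sub s F = true ↔ ∀ v ∈ s, v ∈ F := by simp [sub]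

/-- stellar subdivision of the face `s` with the new vertex `w` -/
def stel (K : List (List ℕ)) (s : List ℕ) (w : ℕ) : List (List ℕ) :=
  K.flatMap fun F => if sub s F then s.map fun v => F.filter (· != v) ++ [w] else [F]

lemma mem_stel (K : List (List ℕ)) (s : List ℕ) (w : ℕ) (G : List ℕ) :
    G ∈ stel K s w ↔ ∃ F ∈ K, ((∀ v ∈ s, v ∈ F) ∧ ∃ v ∈ s, G = F.filter (· != v) ++ [w]) ∨
      (¬ (∀ v ∈ s, v ∈ F) ∧ G = F) := by
  simp only [stel, List.mem_flatMap]
  refine exists_congr fun F => and_congr_right fun _ => ?_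
  rw [← sub_iff]
  by_cases h : sub s F = true
  · simp only [h, if_true, List.mem_map, true_and, not_true, false_and, or_false]
    exact exists_congr fun v => and_congr_right fun _ => eq_comm
  · simp [h]

noncomputable def phi (s : List ℕ) (w : ℕ) (x : ℕ → ℝ) : ℕ → ℝ := fun u =>
  if u = w then 0 else if u ∈ s then x u + x w / s.toFinset.card else x u

lemma sum_new (F : List ℕ) (v w : ℕ) (hw : w ∉ F) (x : ℕ → ℝ) (hv : x v = 0) :
    ∑ u ∈ (F.filter (· != v) ++ [w]).toFinset, x u = ∑ u ∈ F.toFinset, x u + x w := by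
  have : (F.filter (· != v) ++ [w]).toFinset = insert w (F.toFinset.erase v) := by
    ext u; simp; tauto
  rw [this, Finset.sum_insert (by simp [hw]), Finset.sum_erase _ hv, add_comm]

lemma sum_phi (F s : List ℕ) (w : ℕ) (hw : w ∉ F) (hs : s ≠ []) (hsF : ∀ v ∈ s, v ∈ F)
    (x : ℕ → ℝ) : ∑ u ∈ F.toFinset, phi s w x u = ∑ u ∈ F.toFinset, x u + x w := by
  have h1 : ∀ u ∈ F.toFinset, phi s w x u =
      x u + if u ∈ s.toFinset then x w / s.toFinset.card else 0 := by
    intro u hu
    have : u ≠ w := fun h => hw (h ▸ List.mem_toFinset.1 hu)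
    by_cases h : u ∈ s <;> simp [phi, this, h]
  rw [Finset.sum_congr rfl h1, Finset.sum_add_distrib, Finset.sum_ite_mem,
    Finset.inter_eq_right.2 (fun v hv => List.mem_toFinset.2 (hsF v (List.mem_toFinset.1 hv))),
    Finset.sum_const, nsmul_eq_mul]
  have : (s.toFinset.card : ℝ) ≠ 0 := by
    obtain ⟨v, hv⟩ := List.exists_mem_of_ne_nil s hs
    exact Nat.cast_ne_zero.2 (Finset.card_pos.2 ⟨v, List.mem_toFinset.2 hv⟩).ne'
  field_simp

lemma stel_homeo (K : List (List ℕ)) (s : List ℕ) (w : ℕ) (hs : s ≠ []) (hws : w ∉ s)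
    (hw : ∀ F ∈ K, w ∉ F) : Nonempty (R (stel K s w) ≃ₜ R K) := by
  have hc : (0 : ℝ) < s.toFinset.card := by
    obtain ⟨v, hv⟩ := List.exists_mem_of_ne_nil s hs
    exact Nat.cast_pos.2 (Finset.card_pos.2 ⟨v, List.mem_toFinset.2 hv⟩)
  have hne : ∀ v ∈ s, v ≠ w := fun v hv h => hws (h ▸ hv)
  have maps : ∀ x ∈ R (stel K s w), phi s w x ∈ R K := by
    rintro x ⟨h0, G, hG, h1, h2⟩
    refine ⟨fun u => ?_, ?_⟩
    · unfold phi
      have := h0 u
      have := div_nonneg (h0 w) hc.le
      split_ifs <;> linarith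
    obtain ⟨F, hF, ⟨hsF, v, hv, rfl⟩ | ⟨hsF, rfl⟩⟩ := (mem_stel _ _ _ _).1 hG
    · refine ⟨F, hF, fun u hu => ?_, ?_⟩
      · have : u ∉ s := fun h => hu (hsF u h)
        by_cases h : u = w
        · simp [phi, h]
        · simp only [phi, h, this, if_false]
          exact h1 u (by simp [hu, h])
      · rw [sum_phi F s w (hw F hF) hs hsF, ← sum_new F v w (hw F hF) x
          (h1 v (by simp [hne v hv])), h2]
    · have hx : x w = 0 := h1 w (hw G hF)
      have : phi s w x = x := by
        funext u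
        by_cases h : u = w
        · simp [phi, h, hx]
        · simp [phi, h, hx]
      rw [this]
      exact ⟨G, hF, h1, h2⟩
  have zero : ∀ x ∈ R (stel K s w), ∃ v ∈ s, x v = 0 := by
    rintro x ⟨-, G, hG, h1, -⟩
    obtain ⟨F, hF, ⟨hsF, v, hv, rfl⟩ | ⟨hsF, rfl⟩⟩ := (mem_stel _ _ _ _).1 hG
    · exact ⟨v, hv, h1 v (by simp [hne v hv])⟩
    · push Not at hsF
      obtain ⟨v, hv, hv'⟩ := hsF
      exact ⟨v, hv, h1 v hv'⟩
  have le : ∀ x ∈ R (stel K s w), ∀ y ∈ R (stel K s w), phi s w x = phi s w y → y w ≤ x w := by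
    intro x hx y hy h
    obtain ⟨v, hv, hv0⟩ := zero x hx
    have := congrFun h v
    simp only [phi, hne v hv, hv, if_true, if_false, hv0, zero_add] at this
    have h2 := hy.1 v
    have : y w / s.toFinset.card ≤ x w / s.toFinset.card := by linarith
    exact (div_le_div_iff_of_pos_right hc).1 this
  let f : R (stel K s w) → R K := fun x => ⟨phi s w x, maps x x.2⟩
  have inj : Function.Injective f := by
    intro x y h
    have h' : phi s w x = phi s w y := congrArg Subtype.val h
    have e : x.1 w = y.1 w := le_antisymm (le y y.2 x x.2 h'.symm) (le x x.2 y y.2 h')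
    refine Subtype.ext (funext fun u => ?_)
    have := congrFun h' u
    by_cases h1 : u = w
    · rw [h1, e]
    · by_cases h2 : u ∈ s
      · simpa [phi, h1, h2, e] using this
      · simpa [phi, h1, h2] using this
  have surj : Function.Surjective f := by
    rintro ⟨y, h0, F, hF, h1, h2⟩
    have hyw : y w = 0 := h1 w (hw F hF)
    by_cases hsF : ∀ v ∈ s, v ∈ F
    · obtain ⟨v, hv, hmin⟩ := Finset.exists_min_image s.toFinset y
        (by obtain ⟨v, hv⟩ := List.exists_mem_of_ne_nil s hs
            exact ⟨v, List.mem_toFinset.2 hv⟩)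
      rw [List.mem_toFinset] at hv
      let x : ℕ → ℝ := fun u =>
        if u = w then s.toFinset.card * y v else if u ∈ s then y u - y v else y u
      have hphi : phi s w x = y := by
        funext u
        by_cases a1 : u = w
        · simp [phi, a1, hyw]
        · by_cases a2 : u ∈ s
          · simp only [phi, x, a1, a2, if_true, if_false]
            field_simp
            ring
          · simp [phi, x, a1, a2]
      have hxv : x v = 0 := by simp [x, hne v hv, hv]
      refine ⟨⟨x, fun u => ?_, F.filter (· != v) ++ [w],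
        (mem_stel _ _ _ _).2 ⟨F, hF, Or.inl ⟨hsF, v, hv, rfl⟩⟩, fun u hu => ?_, ?_⟩,
        Subtype.ext hphi⟩
      · simp only [x]
        split_ifs with a1 a2
        · exact mul_nonneg hc.le (h0 v)
        · exact sub_nonneg.2 (hmin u (List.mem_toFinset.2 a2))
        · exact h0 u
      · by_cases a0 : u = v
        · rw [a0, hxv]
        · have a1 : u ≠ w := fun h => hu (by simp [h])
          have a2 : u ∉ F := fun h => hu (by simp [h, a0])
          have a3 : u ∉ s := fun h => a2 (hsF u h)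
          simp only [x, a1, a3, if_false]
          exact h1 u a2
      · rw [sum_new F v w (hw F hF) x hxv, ← sum_phi F s w (hw F hF) hs hsF, hphi, h2]
    · refine ⟨⟨y, h0, F, (mem_stel _ _ _ _).2 ⟨F, hF, Or.inr ⟨hsF, rfl⟩⟩, h1, h2⟩,
        Subtype.ext (funext fun u => ?_)⟩
      by_cases h : u = w
      · simp [f, phi, h, hyw]
      · simp [f, phi, h, hyw]
  have cont : Continuous f := by
    refine Continuous.subtype_mk (continuous_pi fun u => ?_) _
    have hu : ∀ v, Continuous fun a : R (stel K s w) => a.1 v := fun v =>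
      (continuous_apply v).comp continuous_subtype_val
    unfold phi
    split_ifs
    exacts [continuous_const, (hu u).add ((hu w).div_const _), hu u]
  have : CompactSpace (R (stel K s w)) := isCompact_iff_compactSpace.1 (R_compact _)
  exact ⟨(Equiv.ofBijective f ⟨inj, surj⟩).toHomeomorphOfContinuousClosed cont cont.isClosedMap⟩

def same (A B : List (List ℕ)) : Bool := (A.all fun F => memL F B) && B.all fun F => memL F A

lemma same_R (A B : List (List ℕ)) (h : same A B = true) : R A = R B := by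
  simp only [same, Bool.and_eq_true, List.all_eq_true, memL_iff] at h
  ext x
  exact ⟨fun ⟨a, F, hF, b⟩ => ⟨a, F, h.1 F hF, b⟩, fun ⟨a, F, hF, b⟩ => ⟨a, F, h.2 F hF, b⟩⟩

def fresh (K : List (List ℕ)) : Bool := K.all fun F => !mem 99 F

/-- a chain of stellar exchanges from `K` to `E` -/
def chain (E : List (List ℕ)) : List (List ℕ × List ℕ × List (List ℕ)) → List (List ℕ) → Bool
  | [], K => same K E
  | (s, t, N) :: M, K =>
    !s.isEmpty && !t.isEmpty && !mem 99 s && !mem 99 t && fresh K &&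
      fresh (K.filter (fun F => !sub s F) ++ N) &&
      same (stel K s 99) (stel (K.filter (fun F => !sub s F) ++ N) t 99) &&
      chain E M (K.filter (fun F => !sub s F) ++ N)

lemma chain_homeo (E : List (List ℕ)) (M : List (List ℕ × List ℕ × List (List ℕ))) :
    ∀ K, chain E M K = true → Nonempty (R K ≃ₜ R E) := by
  induction M with
  | nil => intro K h; rw [same_R K E h]; exact ⟨Homeomorph.refl _⟩
  | cons m M ih =>
    obtain ⟨s, t, N⟩ := m
    intro K h
    simp only [chain, Bool.and_eq_true, Bool.not_eq_true', List.isEmpty_eq_false_iff, fresh,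
      List.all_eq_true, mem_false] at h
    obtain ⟨⟨⟨⟨⟨⟨⟨a1, a2⟩, a3⟩, a4⟩, a5⟩, a6⟩, a7⟩, a8⟩ := h
    obtain ⟨f⟩ := stel_homeo K s 99 a1 a3 a5
    obtain ⟨g⟩ := stel_homeo _ t 99 a2 a4 a6
    obtain ⟨k⟩ := ih _ a8
    rw [same_R _ _ a7] at f
    exact ⟨(f.symm.trans g).trans k⟩

lemma simplex_ball (a b c d : ℕ) (h : [a, b, c, d].Nodup) :
    Nonempty (R [[a, b, c, d]] ≃ₜ Metric.closedBall (0 : EuclideanSpace ℝ (Fin 3)) 1) := by
  simp only [List.nodup_cons, List.mem_cons, List.not_mem_nil, or_false, not_or, not_false_iff,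
    List.nodup_nil, and_true] at h
  obtain ⟨⟨ab, ac, ad⟩, ⟨bc, bd⟩, cd⟩ := h
  have hsum : ∀ x : ℕ → ℝ, ∑ v ∈ [a, b, c, d].toFinset, x v = x a + x b + x c + x d := by
    intro x
    rw [List.sum_toFinset _ (by simp [*])]
    simp; ring
  let T : Set (EuclideanSpace ℝ (Fin 3)) := {y | 0 ≤ y 0 ∧ 0 ≤ y 1 ∧ 0 ≤ y 2 ∧ y 0 + y 1 + y 2 ≤ 1}
  let g : (ℕ → ℝ) → EuclideanSpace ℝ (Fin 3) := fun x => !₂[x a, x b, x c]
  have gc : Continuous g := by
    refine (PiLp.continuous_toLp 2 _).comp (continuous_pi fun i => ?_)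
    fin_cases i <;> simp <;> fun_prop
  have maps : ∀ x ∈ R [[a, b, c, d]], g x ∈ T := by
    rintro x ⟨h0, F, hF, -, h2⟩
    rw [List.mem_singleton.1 hF, hsum] at h2
    have := h0 d
    simp only [T, g, Set.mem_ofPred_eq]
    simp
    exact ⟨h0 a, h0 b, h0 c, by linarith⟩
  let f : R [[a, b, c, d]] → T := fun x => ⟨g x, maps x x.2⟩
  have inj : Function.Injective f := by
    rintro ⟨x, hx0, F, hF, x1, x2⟩ ⟨y, hy0, G, hG, y1, y2⟩ h
    have h' : g x = g y := congrArg Subtype.val h
    clear h
    rw [List.mem_singleton.1 hF] at x1 x2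
    rw [List.mem_singleton.1 hG] at y1 y2
    rw [hsum] at x2 y2
    have e0 : x a = y a := by simpa [g] using congrArg (fun z => z 0) h'
    have e1 : x b = y b := by simpa [g] using congrArg (fun z => z 1) h'
    have e2 : x c = y c := by simpa [g] using congrArg (fun z => z 2) h'
    refine Subtype.ext (funext fun u => ?_)
    by_cases hu : u ∈ [a, b, c, d]
    · simp only [List.mem_cons, List.not_mem_nil, or_false] at hu
      rcases hu with rfl | rfl | rfl | rfl
      exacts [e0, e1, e2, by show x u = y u; linarith]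
    · exact (x1 u hu).trans (y1 u hu).symm
  have surj : Function.Surjective f := by
    rintro ⟨y, y0, y1, y2, y3⟩
    let x : ℕ → ℝ := fun u => if u = a then y 0 else if u = b then y 1 else if u = c then y 2
      else if u = d then 1 - (y 0 + y 1 + y 2) else 0
    have xa : x a = y 0 := by simp [x]
    have xb : x b = y 1 := by simp [x, Ne.symm ab]
    have xc : x c = y 2 := by simp [x, Ne.symm ac, Ne.symm bc]
    have xd : x d = 1 - (y 0 + y 1 + y 2) := by simp [x, Ne.symm ad, Ne.symm bd, Ne.symm cd]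
    refine ⟨⟨x, fun u => ?_, _, List.mem_singleton_self _, fun u hu => ?_, ?_⟩, Subtype.ext ?_⟩
    · simp only [x]
      split_ifs <;> linarith
    · simp only [List.mem_cons, List.not_mem_nil, or_false, not_or] at hu
      simp [x, hu]
    · rw [hsum, xa, xb, xc, xd]; ring
    · ext i
      fin_cases i <;> simp [f, g, xa, xb, xc]
  have : CompactSpace (R [[a, b, c, d]]) := isCompact_iff_compactSpace.1 (R_compact _)
  have cont : Continuous f := (gc.comp continuous_subtype_val).subtype_mk _
  let e := (Equiv.ofBijective f ⟨inj, surj⟩).toHomeomorphOfContinuousClosed cont cont.isClosedMap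
  have Tc : IsCompact T := isCompact_iff_compactSpace.2 e.compactSpace
  have Tv : Convex ℝ T := by
    rintro y ⟨y0, y1, y2, y3⟩ z ⟨z0, z1, z2, z3⟩ p q hp hq hpq
    simp only [T, Set.mem_ofPred_eq, PiLp.add_apply, PiLp.smul_apply, smul_eq_mul]
    refine ⟨by positivity, by positivity, by positivity, by nlinarith⟩
  have Ti : (interior T).Nonempty := by
    let U : Set (EuclideanSpace ℝ (Fin 3)) :=
      {y | 0 < y 0} ∩ ({y | 0 < y 1} ∩ ({y | 0 < y 2} ∩ {y | y 0 + y 1 + y 2 < 1}))
    have hU : IsOpen U := by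
      refine (isOpen_lt ?_ ?_).inter ((isOpen_lt ?_ ?_).inter ((isOpen_lt ?_ ?_).inter
        (isOpen_lt ?_ ?_))) <;> fun_prop
    refine ⟨!₂[1 / 4, 1 / 4, 1 / 4], interior_maximal (t := U) ?_ hU ?_⟩
    · rintro y ⟨y0, y1, y2, y3⟩
      exact ⟨le_of_lt y0, le_of_lt y1, le_of_lt y2, le_of_lt y3⟩
    · simp [U]; norm_num
  obtain ⟨k, -, hk, -⟩ :=
    exists_homeomorph_image_interior_closure_frontier_eq_unitBall Tv Ti Tc.isBounded
  rw [Tc.isClosed.closure_eq] at hk
  exact ⟨e.trans ((k.image T).trans (Homeomorph.setCongr hk))⟩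

end Pool.Agent.H10.Ced
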