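import Mathlib
import Pool.Agent.H10.CedBall

set_option autoImplicit false

namespace Pool.Agent.H10.Ced

abbrev Z4 := ℤ × ℤ × ℤ × ℤ

def PL : List Z4 :=
  [(-844, -974, -896, 994),
   (1539, 249, -836, -1092),
   (-328, 292, 1174, -79),
   (-1804, 1075, -253, -970),
   (-201, 534, 1626, 549),
   (899, 1942, -1135, 977),
   (-607, -1115, -1012, -561),
   (751, -724, 1155, -226),
   (1561, -313, -627, -1387),
   (-182, 325, 1424, 214),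
   (921, -1375, -593, 3248),
   (-142, 346, 1503, 324),
   (1180, -767, 291, -929),
   (961, -899, 430, -979),
   (-1181, -392, -724, 79),
   (783, 2544, -1145, 409),
   (-1273, -227, -666, -2),
   (-1535, 237, -517, -520),
   (-176, 424, 1541, 399),
   (-323, -1182, -737, -447)]

def FL : List (List ℕ) :=
  [[0, 2, 6, 14], [0, 2, 6, 19], [0, 2, 7, 9], [0, 2, 7, 19], [0, 2, 9, 14], [0, 3, 4, 10], [0, 3,
    4, 17], [0, 3, 5, 10], [0, 3, 5, 15], [0, 3, 15, 17], [0, 4, 7, 10], [0, 4, 7, 11], [0, 4, 11,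
    17], [0, 5, 6, 10], [0, 5, 6, 15], [0, 6, 10, 19], [0, 6, 14, 15], [0, 7, 9, 11], [0, 7, 10,
    19], [0, 9, 11, 16], [0, 9, 14, 16], [0, 11, 16, 17], [0, 14, 15, 16], [0, 15, 16, 17], [1, 2,
    3, 8], [1, 2, 3, 15], [1, 2, 4, 8], [1, 2, 4, 15], [1, 3, 6, 8], [1, 3, 6, 15], [1, 4, 7, 8],
    [1, 4, 7, 15], [1, 5, 6, 10], [1, 5, 6, 15], [1, 5, 7, 10], [1, 5, 7, 15], [1, 6, 8, 10], [1,
    7, 8, 10], [2, 3, 4, 15], [2, 3, 4, 17], [2, 3, 7, 13], [2, 3, 7, 17], [2, 3, 8, 13], [2, 4,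
    8, 9], [2, 4, 9, 17], [2, 6, 7, 17], [2, 6, 7, 19], [2, 6, 14, 17], [2, 7, 9, 13], [2, 8, 9,
    13], [2, 9, 14, 17], [3, 4, 5, 10], [3, 4, 5, 15], [3, 6, 7, 13], [3, 6, 7, 17], [3, 6, 8,
    13], [3, 6, 15, 17], [4, 5, 7, 10], [4, 5, 7, 15], [4, 7, 8, 11], [4, 8, 9, 18], [4, 8, 11,
    18], [4, 9, 17, 18], [4, 11, 17, 18], [6, 7, 13, 19], [6, 8, 10, 19], [6, 8, 13, 19], [6, 14,
    15, 17], [7, 8, 10, 12], [7, 8, 11, 12], [7, 9, 11, 13], [7, 10, 12, 13], [7, 10, 13, 19], [7,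
    11, 12, 13], [8, 9, 11, 13], [8, 9, 11, 18], [8, 10, 12, 13], [8, 10, 13, 19], [8, 11, 12,
    13], [9, 11, 16, 17], [9, 11, 17, 18], [9, 14, 16, 17], [14, 15, 16, 17]]

def BL : List (List ℕ) :=
  [[0, 2, 6, 14], [0, 2, 6, 19], [0, 2, 7, 9], [0, 2, 7, 19], [0, 2, 9, 14], [0, 3, 4, 10], [0, 3,
    4, 17], [0, 3, 5, 10], [0, 3, 5, 15], [0, 3, 15, 17], [0, 4, 7, 10], [0, 4, 7, 11], [0, 4, 11,
    17], [0, 5, 6, 10], [0, 5, 6, 15], [0, 6, 10, 19], [0, 6, 14, 15], [0, 7, 9, 11], [0, 7, 10,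
    19], [0, 9, 11, 16], [0, 9, 14, 16], [0, 11, 16, 17], [0, 14, 15, 16], [0, 15, 16, 17], [1, 2,
    3, 8], [1, 2, 3, 15], [1, 2, 4, 8], [1, 2, 4, 15], [1, 3, 6, 8], [1, 3, 6, 15], [1, 4, 7, 8],
    [1, 4, 7, 15], [1, 5, 6, 10], [1, 5, 6, 15], [1, 5, 7, 10], [1, 5, 7, 15], [1, 6, 8, 10], [1,
    7, 8, 10], [2, 3, 4, 15], [2, 3, 4, 17], [2, 3, 7, 13], [2, 3, 7, 17], [2, 3, 8, 13], [2, 4,
    8, 9], [2, 4, 9, 17], [2, 6, 7, 17], [2, 6, 7, 19], [2, 6, 14, 17], [2, 7, 9, 13], [2, 8, 9,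
    13], [2, 9, 14, 17], [3, 4, 5, 10], [3, 4, 5, 15], [3, 6, 7, 13], [3, 6, 7, 17], [3, 6, 8,
    13], [3, 6, 15, 17], [4, 5, 7, 10], [4, 5, 7, 15], [4, 7, 8, 11], [4, 8, 9, 18], [4, 8, 11,
    18], [4, 9, 17, 18], [4, 11, 17, 18], [6, 7, 13, 19], [6, 8, 10, 19], [6, 8, 13, 19], [6, 14,
    15, 17], [7, 8, 10, 12], [7, 8, 11, 12], [7, 9, 11, 13], [7, 10, 12, 13], [7, 10, 13, 19], [7,
    11, 12, 13]]

def ML : List (List ℕ × List ℕ × List (List ℕ)) :=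
  [([5], [10, 15], [[3, 4, 10, 15], [1, 7, 10, 15], [0, 6, 10, 15], [0, 3, 10, 15], [1, 6, 10,
    15], [4, 7, 10, 15]]),
   ([1], [8, 15], [[2, 3, 8, 15], [7, 8, 10, 15], [6, 8, 10, 15], [3, 6, 8, 15], [2, 4, 8, 15],
    [4, 7, 8, 15]]),
   ([18], [8, 17], [[4, 8, 9, 17], [4, 8, 11, 17]]),
   ([12], [10, 11], [[7, 10, 11, 13], [7, 8, 10, 11]]),
   ([2, 15], [3, 4, 8], [[3, 4, 8, 15], [2, 3, 4, 8]]),
   ([2, 19], [0, 6, 7], [[0, 6, 7, 19], [0, 2, 6, 7]]),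
   ([0, 19], [6, 7, 10], [[6, 7, 10, 19], [0, 6, 7, 10]]),
   ([7, 19], [6, 10, 13], [[6, 7, 10, 13], [6, 10, 13, 19]]),
   ([19], [8, 10, 13], [[6, 8, 10, 13]]),
   ([4, 9], [2, 8, 17], [[2, 4, 8, 17], [2, 8, 9, 17]]),
   ([3, 10], [0, 4, 15], [[0, 3, 4, 15], [0, 4, 10, 15]]),
   ([2, 4], [3, 8, 17], [[3, 4, 8, 17], [2, 3, 8, 17]]),
   ([4, 10], [0, 7, 15], [[0, 4, 7, 15], [0, 7, 10, 15]]),
   ([4], [0, 8], [[0, 3, 8, 17], [0, 3, 8, 15], [0, 8, 11, 17], [0, 7, 8, 11], [0, 7, 8, 15]]),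
   ([7, 15], [0, 8, 10], [[0, 7, 8, 10], [0, 8, 10, 15]]),
   ([7, 17], [2, 3, 6], [[2, 3, 6, 7], [2, 3, 6, 17]]),
   ([3, 7], [2, 6, 13], [[2, 6, 7, 13], [2, 3, 6, 13]]),
   ([7, 8], [0, 10, 11], [[0, 7, 10, 11], [0, 8, 10, 11]]),
   ([7], [0, 13], [[0, 2, 6, 13], [0, 6, 10, 13], [0, 9, 11, 13], [0, 10, 11, 13], [0, 2, 9, 13]]),
   ([10, 15], [0, 6, 8], [[0, 6, 8, 15], [0, 6, 8, 10]]),
   ([3, 13], [2, 6, 8], [[2, 6, 8, 13], [2, 3, 6, 8]]),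
   ([2, 3], [6, 8, 17], [[3, 6, 8, 17], [2, 6, 8, 17]]),
   ([2], [6, 9], [[0, 6, 9, 13], [6, 8, 9, 17], [0, 6, 9, 14], [6, 8, 9, 13], [6, 9, 14, 17]]),
   ([3], [8, 15, 17], [[6, 8, 15, 17], [0, 8, 15, 17]]),
   ([13], [9, 10], [[0, 9, 10, 11], [6, 8, 9, 10], [0, 6, 9, 10]]),
   ([14], [9, 15], [[0, 9, 15, 16], [0, 6, 9, 15], [6, 9, 15, 17]]),
   ([16], [11, 15], [[0, 11, 15, 17], [0, 9, 11, 15]]),
   ([6, 10], [0, 8, 9], [[0, 6, 8, 9], [0, 8, 9, 10]]),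
   ([6], [8, 9, 15], [[8, 9, 15, 17], [0, 8, 9, 15]]),
   ([10], [8, 9, 11], [[0, 8, 9, 11]]),
   ([0], [8, 11, 15], [[8, 9, 11, 15], [8, 11, 15, 17]]),
   ([8], [9, 11, 17], [[9, 11, 15, 17]])]

def pt (v : ℕ) : Z4 := PL.getD v (0, 0, 0, 0)

def d3 {R : Type} [Mul R] [Add R] [Sub R] (a b c d e f g h i : R) : R :=
  a * (e * i - f * h) - b * (d * i - f * g) + c * (d * h - e * g)

def sb (x y : Z4) : Z4 := (x.1 - y.1, x.2.1 - y.2.1, x.2.2.1 - y.2.2.1, x.2.2.2 - y.2.2.2)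

def nrm (x y z : Z4) : Z4 :=
  (d3 x.2.1 x.2.2.1 x.2.2.2 y.2.1 y.2.2.1 y.2.2.2 z.2.1 z.2.2.1 z.2.2.2,
   d3 x.1 x.2.2.1 x.2.2.2 y.1 y.2.2.1 y.2.2.2 z.1 z.2.2.1 z.2.2.2,
   d3 x.1 x.2.1 x.2.2.2 y.1 y.2.1 y.2.2.2 z.1 z.2.1 z.2.2.2,
   d3 x.1 x.2.1 x.2.2.1 y.1 y.2.1 y.2.2.1 z.1 z.2.1 z.2.2.1)

def dot (N x : Z4) : ℤ := N.1 * x.1 - N.2.1 * x.2.1 + N.2.2.1 * x.2.2.1 - N.2.2.2 * x.2.2.2

def D (a b c d e : ℕ) : ℤ :=
  dot (nrm (sb (pt b) (pt a)) (sb (pt c) (pt a)) (sb (pt d) (pt a))) (sb (pt e) (pt a))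

def ilt (a b : ℤ) : Bool := match a - b with
  | Int.ofNat _ => false
  | Int.negSucc _ => true

lemma ilt_iff (a b : ℤ) : ilt a b = true ↔ a < b := by
  unfold ilt
  split
  · rename_i n h
    have : a - b = (n : ℤ) := h
    simp; omega
  · rename_i n h
    have := Int.negSucc_lt_zero n
    simp; omega

def c1 : List ℕ → Bool
  | [a, b, c, d] => a < b && b < c && c < d && d < 20 &&
      (((List.range 20).all fun e => mem e [a, b, c, d] || ilt (D a b c d e) 0) ||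
       (List.range 20).all fun e => mem e [a, b, c, d] || ilt 0 (D a b c d e))
  | _ => false

lemma C1 : FL.all c1 = true := by decide +kernel

def frc (x : ℤ) (k : ℤ → Bool) : Bool :=
  match x with
  | Int.ofNat n => Nat.rec (k (Int.ofNat 0)) (fun m _ => k (Int.ofNat (m + 1))) n
  | Int.negSucc n => Nat.rec (k (Int.negSucc 0)) (fun m _ => k (Int.negSucc (m + 1))) n

lemma frc_eq (x : ℤ) (k : ℤ → Bool) : frc x k = k x := by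
  rcases x with (_ | n) | (_ | n) <;> rfl

def two (N a : Z4) : Bool :=
  frc N.1 fun n0 => frc N.2.1 fun n1 => frc N.2.2.1 fun n2 => frc N.2.2.2 fun n3 =>
    frc (dot (n0, n1, n2, n3) a) fun c =>
      (PL.any fun e => ilt (dot (n0, n1, n2, n3) e) c) &&
        PL.any fun e => ilt c (dot (n0, n1, n2, n3) e)

lemma C2 : ((List.range 20).all fun d => (List.range d).all fun c => (List.range c).all fun b =>
    (List.range b).all fun a =>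
      two (nrm (sb (pt b) (pt a)) (sb (pt c) (pt a)) (sb (pt d) (pt a))) (pt a) ||
        memL [a, b, c, d] FL) = true := by decide +kernel

lemma C3 : (FL.all fun F => F.all fun v => FL.any fun G =>
    !mem v G && F.all fun u => Nat.beq u v || mem u G) = true := by decide +kernel

lemma C4 : chain [[9, 11, 15, 17]] ML BL = true := by decide +kernel

end Pool.Agent.H10.Ced
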