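import Mathlib
import Pool.Agent.H10.CedData

set_option autoImplicit false

namespace Pool.Agent.H10.Ced
open Finset

abbrev V4 := Fin 4 → ℝ

def cz (x : Z4) : V4 := ![x.1, x.2.1, x.2.2.1, x.2.2.2]

def p (v : ℕ) : V4 := cz (pt v)

def dt (a b c x : V4) : ℝ :=
  d3 (a 1) (a 2) (a 3) (b 1) (b 2) (b 3) (c 1) (c 2) (c 3) * x 0 -
  d3 (a 0) (a 2) (a 3) (b 0) (b 2) (b 3) (c 0) (c 2) (c 3) * x 1 +
  d3 (a 0) (a 1) (a 3) (b 0) (b 1) (b 3) (c 0) (c 1) (c 3) * x 2 -
  d3 (a 0) (a 1) (a 2) (b 0) (b 1) (b 2) (c 0) (c 1) (c 2) * x 3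

lemma cz_sb (x y : Z4) : cz (sb x y) = cz x - cz y := by
  funext i; fin_cases i <;> simp [cz, sb]

lemma dot_nrm (x y z w : Z4) : ((dot (nrm x y z) w : ℤ) : ℝ) = dt (cz x) (cz y) (cz z) (cz w) := by
  simp [dot, nrm, dt, d3, cz]

lemma l_eq (l : V4 →ₗ[ℝ] ℝ) (x : V4) : l x = x 0 * l (Pi.single 0 1) + x 1 * l (Pi.single 1 1) +
    x 2 * l (Pi.single 2 1) + x 3 * l (Pi.single 3 1) := by
  have : x = x 0 • Pi.single 0 1 + x 1 • Pi.single 1 1 + x 2 • Pi.single 2 1 +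
      x 3 • Pi.single 3 1 := by
    funext i; fin_cases i <;> simp
  conv_lhs => rw [this]
  simp only [map_add, map_smul, smul_eq_mul]

lemma cramer (l : V4 →ₗ[ℝ] ℝ) (a b c x y : V4) (ha : l a = 0) (hb : l b = 0) (hc : l c = 0) :
    dt a b c x * l y = dt a b c y * l x := by
  rw [l_eq] at ha hb hc
  rw [l_eq l x, l_eq l y]
  have h1 := congrArg (· * dt b c x y) ha
  have h2 := congrArg (· * dt a c x y) hb
  have h3 := congrArg (· * dt a b x y) hc
  simp only [dt, d3] at *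
  linear_combination -h1 + h2 - h3

def dl (a b c : V4) : V4 →ₗ[ℝ] ℝ where
  toFun := dt a b c
  map_add' x y := by simp only [dt, Pi.add_apply]; ring
  map_smul' t x := by simp only [dt, Pi.smul_apply, smul_eq_mul, RingHom.id_apply]; ring

/-- determinant form of four vertices -/
def fm (a b c d : ℕ) : V4 →ₗ[ℝ] ℝ := dl (p b - p a) (p c - p a) (p d - p a)

lemma D_cast (a b c d e : ℕ) : (D a b c d e : ℝ) = fm a b c d (p e - p a) := by
  rw [D, dot_nrm]; simp only [cz_sb]; rfl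

lemma fm_zero (a b c d e : ℕ) (he : e ∈ [a, b, c, d]) : fm a b c d (p e - p a) = 0 := by
  simp only [List.mem_cons, List.not_mem_nil, or_false] at he
  rcases he with rfl | rfl | rfl | rfl
  · simp
  all_goals
    show dt _ _ _ _ = 0
    simp only [dt, d3]; ring

lemma vanish (l : V4 →ₗ[ℝ] ℝ) (a b c d e : ℕ) (hb : l (p b) = l (p a)) (hc : l (p c) = l (p a))
    (hd : l (p d) = l (p a)) (he : l (p e) = l (p a)) (h : fm a b c d (p e - p a) ≠ 0) :
    l = 0 := by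
  ext1 i
  refine LinearMap.ext fun t => ?_
  have := cramer l (p b - p a) (p c - p a) (p d - p a) (p e - p a) (Pi.single i t)
    (by rw [map_sub, hb, sub_self]) (by rw [map_sub, hc, sub_self]) (by rw [map_sub, hd, sub_self])
  rw [map_sub, he, sub_self, mul_zero] at this
  simpa using (mul_eq_zero.1 this).resolve_left h

/-- `s` is the set where `l` is maximal -/
def Arg (l : V4 →ₗ[ℝ] ℝ) (s : Finset ℕ) : Prop :=
  ∀ v, v ∈ s ↔ v ∈ range 20 ∧ ∀ u ∈ range 20, l (p u) ≤ l (p v)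

lemma shape (F : List ℕ) (hF : F ∈ FL) : ∃ a b c d, F = [a, b, c, d] ∧ a < b ∧ b < c ∧ c < d ∧
    d < 20 ∧ ((∀ e < 20, e ∉ F → fm a b c d (p e - p a) < 0) ∨
      ∀ e < 20, e ∉ F → 0 < fm a b c d (p e - p a)) := by
  have h := List.all_eq_true.1 C1 F hF
  unfold c1 at h
  split at h
  · rename_i a b c d
    simp only [Bool.and_eq_true, decide_eq_true_eq, Bool.or_eq_true, List.all_eq_true,
      List.mem_range, mem_iff, ilt_iff] at h
    obtain ⟨⟨⟨⟨h1, h2⟩, h3⟩, h4⟩, h5⟩ := h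
    refine ⟨a, b, c, d, rfl, h1, h2, h3, h4, h5.imp (fun h e he hn => ?_) fun h e he hn => ?_⟩
    · rw [← D_cast]; exact_mod_cast (h e he).resolve_left hn
    · rw [← D_cast]; exact_mod_cast (h e he).resolve_left hn
  · exact absurd h (by simp)

lemma out4 (a b c d : ℕ) : ∃ e < 20, e ∉ [a, b, c, d] := by
  by_contra h
  push Not at h
  have : range 20 ⊆ [a, b, c, d].toFinset := fun e he =>
    List.mem_toFinset.2 (h e (mem_range.1 he))
  have h1 := card_le_card this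
  have h2 := List.toFinset_card_le [a, b, c, d]
  simp at h1 h2
  omega

lemma const_zero (l : V4 →ₗ[ℝ] ℝ) (m : ℝ) (h : ∀ v < 20, l (p v) = m) : l = 0 := by
  obtain ⟨a, b, c, d, hF, h1, h2, h3, h4, h5⟩ := shape [0, 2, 6, 14] (by simp [FL])
  obtain ⟨e, he, hn⟩ := out4 a b c d
  rw [← hF] at hn
  refine vanish l a b c d e ?_ ?_ ?_ ?_ ?_
  iterate 4 rw [h _ (by omega), h _ (by omega)]
  rcases h5 with h5 | h5
  exacts [(h5 e he hn).ne, (h5 e he hn).ne']

lemma facet_arg (F : List ℕ) (hF : F ∈ FL) : ∃ l : V4 →ₗ[ℝ] ℝ, l ≠ 0 ∧ Arg l F.toFinset := by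
  obtain ⟨a, b, c, d, rfl, h1, h2, h3, h4, h5⟩ := shape F hF
  obtain ⟨e0, he0, hn0⟩ := out4 a b c d
  have key : ∀ l : V4 →ₗ[ℝ] ℝ, (∀ e ∈ [a, b, c, d], l (p e - p a) = 0) →
      (∀ e < 20, e ∉ [a, b, c, d] → l (p e - p a) < 0) →
      l ≠ 0 ∧ Arg l [a, b, c, d].toFinset := by
    intro l z n
    simp only [map_sub] at z n
    refine ⟨fun h => by simpa [h] using n e0 he0 hn0, fun v => ?_⟩
    rw [List.mem_toFinset, mem_range]
    constructor
    · intro hv
      refine ⟨by simp at hv; omega, fun u hu => ?_⟩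
      have := z v hv
      by_cases h : u ∈ [a, b, c, d]
      · linarith [z u h]
      · linarith [n u (mem_range.1 hu) h]
    · rintro ⟨hv, h⟩
      by_contra hn
      linarith [n v hv hn, h a (mem_range.2 (by omega))]
  rcases h5 with h5 | h5
  · exact ⟨_, key _ (fm_zero a b c d) h5⟩
  · refine ⟨-fm a b c d, key _ (fun e he => ?_) fun e he hn => ?_⟩
    · rw [LinearMap.neg_apply, fm_zero a b c d e he, neg_zero]
    · rw [LinearMap.neg_apply]; linarith [h5 e he hn]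

lemma Arg.eq {l : V4 →ₗ[ℝ] ℝ} {s : Finset ℕ} (h : Arg l s) {u v : ℕ} (hu : u ∈ s) (hv : v ∈ s) :
    l (p u) = l (p v) :=
  le_antisymm (((h v).1 hv).2 u ((h u).1 hu).1) (((h u).1 hu).2 v ((h v).1 hv).1)

lemma Arg.lt {l : V4 →ₗ[ℝ] ℝ} {s : Finset ℕ} (h : Arg l s) {u v : ℕ} (hu : u ∈ s)
    (hv : v ∈ range 20) (hn : v ∉ s) : l (p v) < l (p u) := by
  by_contra hc
  exact hn ((h v).2 ⟨hv, fun w hw => (((h u).1 hu).2 w hw).trans (not_lt.1 hc)⟩)

def Face (s : Finset ℕ) : Prop := s = ∅ ∨ ∃ l : V4 →ₗ[ℝ] ℝ, l ≠ 0 ∧ Arg l s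

lemma Face.inter {s t : Finset ℕ} (hs : Face s) (ht : Face t) : Face (s ∩ t) := by
  rcases (s ∩ t).eq_empty_or_nonempty with h | ⟨a, ha⟩
  · exact Or.inl h
  rw [mem_inter] at ha
  rcases hs with rfl | ⟨l, hl, hs⟩
  · simp at ha
  rcases ht with rfl | ⟨m, hm, ht⟩
  · simp at ha
  refine Or.inr ⟨l + m, fun h => hl (const_zero l (l (p a)) fun v hv => ?_), fun v => ?_⟩
  · have e : ∀ x, l x + m x = 0 := fun x => by rw [← LinearMap.add_apply, h]; rfl
    have h1 := ((hs a).1 ha.1).2 v (mem_range.2 hv)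
    have h2 := ((ht a).1 ha.2).2 v (mem_range.2 hv)
    linarith [e (p a), e (p v)]
  · simp only [LinearMap.add_apply, mem_inter]
    constructor
    · rintro ⟨h1, h2⟩
      exact ⟨((hs v).1 h1).1, fun u hu => add_le_add (((hs v).1 h1).2 u hu) (((ht v).1 h2).2 u hu)⟩
    · rintro ⟨hv, h⟩
      have h0 := h a ((hs a).1 ha.1).1
      have h1 := ((hs a).1 ha.1).2 v hv
      have h2 := ((ht a).1 ha.2).2 v hv
      constructor
      · by_contra hn; linarith [hs.lt ha.1 hv hn]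
      · by_contra hn; linarith [ht.lt ha.2 hv hn]

lemma nbr (F : List ℕ) (hF : F ∈ FL) (v : ℕ) (hv : v ∈ F) :
    ∃ G ∈ FL, v ∉ G ∧ ∀ u ∈ F, u ≠ v → u ∈ G := by
  have h := C3
  simp only [List.all_eq_true, List.any_eq_true, Bool.and_eq_true, Bool.not_eq_true', mem_false,
    Bool.or_eq_true, Nat.beq_eq, mem_iff] at h
  obtain ⟨G, hG, h1, h2⟩ := h F hF v hv
  exact ⟨G, hG, h1, fun u hu hn => (h2 u hu).resolve_left hn⟩

lemma face_of_gen (F : List ℕ) (hF : F ∈ FL) (t : Finset ℕ) : Face (F.toFinset \ t) := by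
  induction t using Finset.induction_on with
  | empty => rw [sdiff_empty]; exact Or.inr (facet_arg F hF)
  | insert v t _ ih =>
    by_cases hv : v ∈ F
    · obtain ⟨G, hG, h1, h2⟩ := nbr F hF v hv
      convert ih.inter (Or.inr (facet_arg G hG)) using 1
      ext u
      simp only [mem_sdiff, List.mem_toFinset, mem_insert, not_or, mem_inter]
      exact ⟨fun h => ⟨⟨h.1, h.2.2⟩, h2 u h.1 h.2.1⟩,
        fun h => ⟨h.1.1, fun e => h1 (e ▸ h.2), h.1.2⟩⟩
    · convert ih using 1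
      ext u
      simp only [mem_sdiff, List.mem_toFinset, mem_insert, not_or]
      exact ⟨fun h => ⟨h.1, h.2.2⟩, fun h => ⟨h.1, fun e => hv (e ▸ h.1), h.2⟩⟩

lemma big (l : V4 →ₗ[ℝ] ℝ) (hl : l ≠ 0) (s : Finset ℕ) (h : Arg l s) (h4 : 4 ≤ s.card) :
    ∃ F ∈ FL, s ⊆ F.toFinset := by
  let e := s.orderEmbOfCardLe h4
  have em : ∀ i, e i ∈ s := s.orderEmbOfCardLe_mem h4
  obtain ⟨a, ha⟩ : ∃ a, a = e 0 := ⟨_, rfl⟩
  obtain ⟨b, hb⟩ : ∃ a, a = e 1 := ⟨_, rfl⟩
  obtain ⟨c, hc⟩ : ∃ a, a = e 2 := ⟨_, rfl⟩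
  obtain ⟨d, hd⟩ : ∃ a, a = e 3 := ⟨_, rfl⟩
  have ab : a < b := by rw [ha, hb]; exact e.strictMono (by decide)
  have bc : b < c := by rw [hc, hb]; exact e.strictMono (by decide)
  have cd : c < d := by rw [hc, hd]; exact e.strictMono (by decide)
  have ma : a ∈ s := ha ▸ em 0
  have mb : b ∈ s := hb ▸ em 1
  have mc : c ∈ s := hc ▸ em 2
  have md : d ∈ s := hd ▸ em 3
  have h2 := C2
  simp only [List.all_eq_true, List.mem_range, Bool.or_eq_true, memL_iff] at h2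
  rcases h2 d (mem_range.1 ((h d).1 md).1) c cd b bc a ab with h2 | h2
  · exfalso
    simp only [two, frc_eq, Bool.and_eq_true, List.any_eq_true, ilt_iff] at h2
    have hP : ∀ x ∈ PL, ∃ v ∈ range 20, pt v = x := by
      intro x hx
      obtain ⟨i, hi, rfl⟩ := List.getElem_of_mem hx
      exact ⟨i, mem_range.2 hi, List.getD_eq_getElem _ _ hi⟩
    obtain ⟨⟨x, hx, h3⟩, y, hy, h5⟩ := h2
    obtain ⟨u, hu, rfl⟩ := hP x hx
    obtain ⟨v, hv, rfl⟩ := hP y hy
    have h3' := (Int.cast_lt (R := ℝ)).2 h3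
    have h5' := (Int.cast_lt (R := ℝ)).2 h5
    simp only [Prod.mk.eta, dot_nrm, cz_sb] at h3' h5'
    have h6 : fm a b c d (p u - p a) < 0 := by rw [map_sub, sub_neg]; exact h3'
    have h7 : 0 < fm a b c d (p v - p a) := by rw [map_sub, sub_pos]; exact h5'
    have cr := cramer l (p b - p a) (p c - p a) (p d - p a) (p u - p a) (p v - p a)
      (by rw [map_sub, h.eq mb ma, sub_self]) (by rw [map_sub, h.eq mc ma, sub_self])
      (by rw [map_sub, h.eq md ma, sub_self])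
    change fm a b c d _ * _ = fm a b c d _ * _ at cr
    have h8 := ((h a).1 ma).2 u hu
    have h9 := ((h a).1 ma).2 v hv
    rw [map_sub l, map_sub l] at cr
    refine hl (vanish l a b c d u (h.eq mb ma) (h.eq mc ma) (h.eq md ma) ?_ h6.ne)
    by_contra hn
    have : l (p u) - l (p a) < 0 := sub_neg.2 (lt_of_le_of_ne h8 hn)
    nlinarith [mul_pos h7 (neg_pos.2 this), mul_nonneg (neg_pos.2 h6).le (sub_nonneg.2 h9)]
  · refine ⟨_, h2, fun v hv => ?_⟩
    by_contra hn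
    rw [List.mem_toFinset] at hn
    obtain ⟨a', b', c', d', hF, -, -, -, -, h5⟩ := shape _ h2
    simp only [List.cons.injEq, and_true] at hF
    obtain ⟨rfl, rfl, rfl, rfl⟩ := hF
    have hv' := mem_range.1 ((h v).1 hv).1
    refine hl (vanish l a b c d v (h.eq mb ma) (h.eq mc ma) (h.eq md ma) (h.eq hv ma) ?_)
    rcases h5 with h5 | h5
    exacts [(h5 v hv' hn).ne, (h5 v hv' hn).ne']

lemma Arg.ne {l : V4 →ₗ[ℝ] ℝ} {s : Finset ℕ} (h : Arg l s) : s.Nonempty := by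
  obtain ⟨v, hv, hm⟩ := exists_max_image (range 20) (fun v => l (p v)) ⟨0, by simp⟩
  exact ⟨v, (h v).2 ⟨hv, hm⟩⟩

lemma rotate (l : V4 →ₗ[ℝ] ℝ) (hl : l ≠ 0) (s : Finset ℕ) (h : Arg l s) (h3 : s.card ≤ 3) :
    ∃ (m : V4 →ₗ[ℝ] ℝ) (t : Finset ℕ), m ≠ 0 ∧ Arg m t ∧ s ⊂ t := by
  classical
  obtain ⟨a, ha⟩ := h.ne
  obtain ⟨z, hz⟩ : ∃ z, l z ≠ 0 := by
    by_contra hc; push Not at hc; exact hl (LinearMap.ext hc)
  let X : Finset V4 := insert z ((s.erase a).image fun v => p v - p a)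
  have hX : Submodule.span ℝ (X : Set V4) < ⊤ := by
    refine span_lt_top_of_card_lt_finrank ?_
    have h1 := card_insert_le z ((s.erase a).image fun v => p v - p a)
    have h2 := card_image_le (s := s.erase a) (f := fun v => p v - p a)
    rw [card_erase_of_mem ha] at h2
    have := card_pos.2 ⟨a, ha⟩
    simp only [toFinset_coe, Module.finrank_fin_fun, X]
    omega
  obtain ⟨g, hg, hg0⟩ := Submodule.exists_le_ker_of_lt_top _ hX
  have gX : ∀ x ∈ X, g x = 0 := fun x hx => hg0 (Submodule.subset_span hx)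
  have main : ∀ g : V4 →ₗ[ℝ] ℝ, (∀ x ∈ X, g x = 0) → (∃ v ∈ range 20, g (p a) < g (p v)) →
      ∃ (m : V4 →ₗ[ℝ] ℝ) (t : Finset ℕ), m ≠ 0 ∧ Arg m t ∧ s ⊂ t := by
    rintro g gX ⟨v0, hv0, hlt⟩
    have gs : ∀ v ∈ s, g (p v) = g (p a) := by
      intro v hv
      by_cases e : v = a
      · rw [e]
      · rw [← sub_eq_zero, ← map_sub]
        exact gX _ (mem_insert_of_mem (mem_image.2 ⟨v, mem_erase.2 ⟨e, hv⟩, rfl⟩))
    obtain ⟨w, hw, hmin⟩ := exists_min_image ((range 20).filter fun v => g (p a) < g (p v))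
      (fun v => (l (p a) - l (p v)) / (g (p v) - g (p a))) ⟨v0, mem_filter.2 ⟨hv0, hlt⟩⟩
    rw [mem_filter] at hw
    set t := (l (p a) - l (p w)) / (g (p w) - g (p a)) with ht
    have t0 : 0 ≤ t := div_nonneg (sub_nonneg.2 (((h a).1 ha).2 w hw.1)) (sub_pos.2 hw.2).le
    have top : ∀ u ∈ range 20, l (p u) + t * g (p u) ≤ l (p a) + t * g (p a) := by
      intro u hu
      have h1 := ((h a).1 ha).2 u hu
      by_cases e : g (p a) < g (p u)
      · have := hmin u (mem_filter.2 ⟨hu, e⟩)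
        rw [le_div_iff₀ (sub_pos.2 e)] at this
        linarith
      · nlinarith [not_lt.1 e]
    have ew : l (p w) + t * g (p w) = l (p a) + t * g (p a) := by
      have : t * (g (p w) - g (p a)) = l (p a) - l (p w) :=
        div_mul_cancel₀ _ (sub_pos.2 hw.2).ne'
      linarith
    refine ⟨l + t • g, (range 20).filter fun v => ∀ u ∈ range 20, (l + t • g) (p u) ≤
      (l + t • g) (p v), fun e => hz ?_, fun v => mem_filter, ?_⟩
    · have := LinearMap.congr_fun e z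
      simpa [gX z (mem_insert_self _ _)] using this
    · simp only [LinearMap.add_apply, LinearMap.smul_apply, smul_eq_mul]
      refine (ssubset_iff_of_subset fun v hv => mem_filter.2 ⟨((h v).1 hv).1, fun u hu => ?_⟩).2
        ⟨w, mem_filter.2 ⟨hw.1, fun u hu => ew ▸ top u hu⟩, fun e => hw.2.ne' (gs w e)⟩
      rw [gs v hv, h.eq hv ha]
      exact top u hu
  by_cases e : ∃ v ∈ range 20, g (p a) < g (p v)
  · exact main g gX e
  · refine main (-g) (fun x hx => by simp [gX x hx]) ?_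
    by_contra e'
    push Not at e e'
    exact hg (const_zero g (g (p a)) fun v hv => le_antisymm (e v (mem_range.2 hv))
      (by simpa using e' v (mem_range.2 hv)))

lemma gen_of_arg : ∀ (n : ℕ) (l : V4 →ₗ[ℝ] ℝ) (s : Finset ℕ), l ≠ 0 → Arg l s → 4 ≤ s.card + n →
    ∃ F ∈ FL, s ⊆ F.toFinset := by
  intro n
  induction n with
  | zero => exact fun l s hl h h4 => big l hl s h h4
  | succ n ih =>
    intro l s hl h h4
    by_cases e : 4 ≤ s.card
    · exact big l hl s h e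
    · obtain ⟨m, t, hm, ht, hst⟩ := rotate l hl s h (by omega)
      obtain ⟨F, hF, h1⟩ := ih m t hm ht (by have := card_lt_card hst; omega)
      exact ⟨F, hF, hst.subset.trans h1⟩

theorem poly : PolySphere 4 (gen FL) := by
  refine ⟨range 20, p, ?_, ?_, ?_⟩
  · rw [AffineSubspace.affineSpan_eq_top_iff_vectorSpan_eq_top_of_nonempty _ _ _
      (Set.Nonempty.image p ⟨0, by simp⟩)]
    by_contra hc
    obtain ⟨g, hg, hg0⟩ := Submodule.exists_le_ker_of_lt_top _ (lt_top_iff_ne_top.2 hc)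
    refine hg (const_zero g (g (p 0)) fun v hv => ?_)
    rw [← sub_eq_zero, ← map_sub]
    exact hg0 (vsub_mem_vectorSpan ℝ ⟨v, by simpa using hv, rfl⟩ ⟨0, by simp, rfl⟩)
  · rintro s ⟨F, hF, hs⟩
    rw [affineIndependent_iff_of_fintype]
    intro w hw h0 v
    have hv : v.1 ∈ F := List.mem_toFinset.1 (hs v.2)
    obtain ⟨G, hG, h1, h2⟩ := nbr F hF v hv
    obtain ⟨l, hl, hA⟩ := facet_arg G hG
    obtain ⟨a, ha⟩ := hA.ne
    obtain ⟨m, -, hB⟩ := facet_arg F hF
    have hlt := hA.lt ha ((hB v).1 (hs v.2)).1 (by simpa using h1)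
    rw [Finset.weightedVSub_eq_linear_combination _ hw] at h0
    have h3 : ∑ u : s, w u * (l (p u) - l (p a)) = 0 := by
      have := congrArg l h0
      simp only [map_sum, map_smul, smul_eq_mul, map_zero] at this
      simp only [mul_sub, sum_sub_distrib, this, ← sum_mul, hw, zero_mul, sub_zero]
    rw [sum_eq_single v (fun u _ hu => ?_) (by simp)] at h3
    · exact (mul_eq_zero.1 h3).resolve_right (sub_neg.2 hlt).ne
    · rw [hA.eq (List.mem_toFinset.2 (h2 u (List.mem_toFinset.1 (hs u.2))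
        fun e => hu (Subtype.ext e))) ha, sub_self, mul_zero]
  · ext s
    constructor
    · rintro ⟨F, hF, hs⟩
      have := face_of_gen F hF (F.toFinset \ s)
      rwa [Finset.sdiff_sdiff_eq_self hs] at this
    · rintro (rfl | ⟨l, hl, h⟩)
      · exact ⟨[0, 2, 6, 14], by simp [FL], empty_subset _⟩
      · exact gen_of_arg 4 l s hl h (by omega)

theorem ball : IsBall 3 (gen BL) := by
  obtain ⟨f⟩ := chain_homeo _ _ _ C4
  obtain ⟨g⟩ := simplex_ball 9 11 15 17 (by decide)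
  rw [IsBall, real_gen]
  exact ⟨f.trans g⟩

end Pool.Agent.H10.Ced
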