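import Mathlib
import Pool.Agent.H10.CedPoly

set_option autoImplicit false

namespace Pool.Agent.H10.Ced
open Finset

def KL : List (List ℕ) :=
  [[2, 3, 4], [0, 3, 4], [0, 2, 6], [2, 6, 7], [0, 2, 7], [3, 4, 5], [0, 3, 5], [0, 5, 6], [4, 5,
    7], [0, 4, 7], [1, 2, 4], [1, 2, 3], [2, 3, 7], [1, 5, 6], [1, 3, 6], [3, 6, 7], [1, 5, 7],
    [1, 4, 7]]

def WL : List (List ℕ × ℕ × List (List ℕ)) :=
  [([2, 3, 4], 2, [[2, 3, 4, 15], [3, 4, 5, 15]]),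
   ([2, 3, 4], 3, [[2, 3, 4, 15], [1, 2, 4, 15]]),
   ([2, 3, 4], 4, [[2, 3, 4, 15], [1, 2, 3, 15]]),
   ([0, 3, 4], 0, [[0, 3, 4, 10], [3, 4, 5, 10]]),
   ([0, 3, 4], 3, [[0, 3, 4, 10], [0, 4, 7, 10]]),
   ([0, 3, 4], 4, [[0, 3, 4, 10], [0, 3, 5, 10]]),
   ([0, 2, 6], 0, [[0, 2, 6, 14], [2, 6, 14, 17], [2, 6, 7, 17]]),
   ([0, 2, 6], 2, [[0, 2, 6, 14], [0, 6, 14, 15], [0, 5, 6, 15]]),
   ([0, 2, 6], 6, [[0, 2, 6, 14], [0, 2, 9, 14], [0, 2, 7, 9]]),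
   ([2, 6, 7], 2, [[2, 6, 7, 17], [3, 6, 7, 17]]),
   ([2, 6, 7], 6, [[2, 6, 7, 17], [2, 3, 7, 17]]),
   ([2, 6, 7], 7, [[2, 6, 7, 17], [2, 6, 14, 17], [0, 2, 6, 14]]),
   ([0, 2, 7], 0, [[0, 2, 7, 9], [2, 7, 9, 13], [2, 3, 7, 13]]),
   ([0, 2, 7], 2, [[0, 2, 7, 9], [0, 7, 9, 11], [0, 4, 7, 11]]),
   ([0, 2, 7], 7, [[0, 2, 7, 9], [0, 2, 9, 14], [0, 2, 6, 14]]),
   ([3, 4, 5], 3, [[3, 4, 5, 10], [4, 5, 7, 10]]),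
   ([3, 4, 5], 4, [[3, 4, 5, 10], [0, 3, 5, 10]]),
   ([3, 4, 5], 5, [[3, 4, 5, 10], [0, 3, 4, 10]]),
   ([0, 3, 5], 0, [[0, 3, 5, 10], [3, 4, 5, 10]]),
   ([0, 3, 5], 3, [[0, 3, 5, 10], [0, 5, 6, 10]]),
   ([0, 3, 5], 5, [[0, 3, 5, 10], [0, 3, 4, 10]]),
   ([0, 5, 6], 0, [[0, 5, 6, 10], [1, 5, 6, 10]]),
   ([0, 5, 6], 5, [[0, 5, 6, 10], [0, 6, 10, 19], [0, 2, 6, 19]]),
   ([0, 5, 6], 6, [[0, 5, 6, 10], [0, 3, 5, 10]]),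
   ([4, 5, 7], 4, [[4, 5, 7, 10], [1, 5, 7, 10]]),
   ([4, 5, 7], 5, [[4, 5, 7, 10], [0, 4, 7, 10]]),
   ([4, 5, 7], 7, [[4, 5, 7, 10], [3, 4, 5, 10]]),
   ([0, 4, 7], 0, [[0, 4, 7, 10], [4, 5, 7, 10]]),
   ([0, 4, 7], 4, [[0, 4, 7, 10], [0, 7, 10, 19], [0, 2, 7, 19]]),
   ([0, 4, 7], 7, [[0, 4, 7, 10], [0, 3, 4, 10]]),
   ([1, 2, 4], 1, [[1, 2, 4, 8], [2, 4, 8, 9], [2, 4, 9, 17], [2, 3, 4, 17]]),
   ([1, 2, 4], 2, [[1, 2, 4, 8], [1, 4, 7, 8]]),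
   ([1, 2, 4], 4, [[1, 2, 4, 8], [1, 2, 3, 8]]),
   ([1, 2, 3], 1, [[1, 2, 3, 8], [2, 3, 8, 13], [2, 3, 7, 13]]),
   ([1, 2, 3], 2, [[1, 2, 3, 8], [1, 3, 6, 8]]),
   ([1, 2, 3], 3, [[1, 2, 3, 8], [1, 2, 4, 8]]),
   ([2, 3, 7], 2, [[2, 3, 7, 13], [3, 6, 7, 13]]),
   ([2, 3, 7], 3, [[2, 3, 7, 13], [2, 7, 9, 13], [0, 2, 7, 9]]),
   ([2, 3, 7], 7, [[2, 3, 7, 13], [2, 3, 8, 13], [1, 2, 3, 8]]),
   ([1, 5, 6], 1, [[1, 5, 6, 10], [0, 5, 6, 10]]),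
   ([1, 5, 6], 5, [[1, 5, 6, 10], [1, 6, 8, 10], [1, 3, 6, 8]]),
   ([1, 5, 6], 6, [[1, 5, 6, 10], [1, 5, 7, 10]]),
   ([1, 3, 6], 1, [[1, 3, 6, 8], [3, 6, 8, 13], [3, 6, 7, 13]]),
   ([1, 3, 6], 3, [[1, 3, 6, 8], [1, 6, 8, 10], [1, 5, 6, 10]]),
   ([1, 3, 6], 6, [[1, 3, 6, 8], [1, 2, 3, 8]]),
   ([3, 6, 7], 3, [[3, 6, 7, 13], [6, 7, 13, 19], [2, 6, 7, 19]]),
   ([3, 6, 7], 6, [[3, 6, 7, 13], [2, 3, 7, 13]]),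
   ([3, 6, 7], 7, [[3, 6, 7, 13], [3, 6, 8, 13], [1, 3, 6, 8]]),
   ([1, 5, 7], 1, [[1, 5, 7, 10], [4, 5, 7, 10]]),
   ([1, 5, 7], 5, [[1, 5, 7, 10], [1, 7, 8, 10], [1, 4, 7, 8]]),
   ([1, 5, 7], 7, [[1, 5, 7, 10], [1, 5, 6, 10]]),
   ([1, 4, 7], 1, [[1, 4, 7, 8], [4, 7, 8, 11], [0, 4, 7, 11]]),
   ([1, 4, 7], 4, [[1, 4, 7, 8], [1, 7, 8, 10], [1, 5, 7, 10]]),
   ([1, 4, 7], 7, [[1, 4, 7, 8], [1, 2, 4, 8]])]

/-- `F` minus `w` lies in `G` -/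
def sw (F : List ℕ) (w : ℕ) (G : List ℕ) : Bool := F.all fun u => Nat.beq u w || mem u G

lemma sw_iff (F : List ℕ) (w : ℕ) (G : List ℕ) :
    sw F w G = true ↔ ∀ u ∈ F, u ≠ w → u ∈ G := by
  simp only [sw, List.all_eq_true, Bool.or_eq_true, Nat.beq_eq, mem_iff]
  exact forall₂_congr fun u _ => or_iff_not_imp_left

/-- a triangle of `KL` lies in `F` minus `w` -/
def kin (F : List ℕ) (w : ℕ) : Bool := KL.any fun T => sub T F && !mem w T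

lemma kin_iff (F : List ℕ) (w : ℕ) : kin F w = true ↔ ∃ T ∈ KL, (∀ u ∈ T, u ∈ F) ∧ w ∉ T := by
  simp only [kin, List.any_eq_true, Bool.and_eq_true, sub_iff, Bool.not_eq_true', mem_false]

lemma K0 : (BL.all fun F => memL F FL && (F.any fun x => x < 8) && (F.any fun x => 8 ≤ x) &&
    !sub [8, 9, 11, 13] F && BL.all fun G => !sub F G || eqL F G) = true := by decide +kernel

lemma K1 : (BL.all fun F => F.all fun v => (F.all fun x => Nat.beq x v || 8 ≤ x) ||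
    BL.any fun G => !mem v G && sw F v G) = true := by decide +kernel

lemma K2 : (BL.all fun F => BL.any fun G => G.any fun v =>
    (F.all fun u => u < 8 || (mem u G && !Nat.beq u v)) &&
      BL.all fun H => !sw G v H || eqL H G) = true := by decide +kernel

lemma K3 : (KL.all fun T => (T.all fun v => v < 8 && WL.any fun x => eqL x.1 T && Nat.beq x.2.1 v)
    && BL.all fun G => !sub T G || ((T.all fun v => !kin G v) &&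
      G.all fun u => u < 8 || (sw G u T && G.all fun v => Nat.beq v u || G.any fun x =>
        !Nat.beq x v && x < 8))) = true := by decide +kernel

lemma K4 : (WL.all fun x => BL.all fun F => !sw x.1 x.2.1 F || F.all fun w =>
    (mem w x.1 && !Nat.beq w x.2.1) || kin F w ||
      BL.all fun G => !sw F w G || memL F x.2.2 == memL G x.2.2) = true := by decide +kernel

lemma K5 : (WL.all fun x => BL.all fun G => !sub x.1 G || BL.all fun N => !sub x.1 N ||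
    eqL G N || memL G x.2.2 != memL N x.2.2) = true := by decide +kernel

end Pool.Agent.H10.Ced
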