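import Mathlib
import Pool.Agent.H10.CedComb

set_option autoImplicit false

namespace Pool.Agent.H10.Ced
open Finset

lemma k0 (F : List ℕ) (hF : F ∈ BL) : F ∈ FL ∧ (∃ x ∈ F, x < 8) ∧ (∃ x ∈ F, 8 ≤ x) ∧
    (¬ ∀ v ∈ [8, 9, 11, 13], v ∈ F) ∧ ∀ G ∈ BL, (∀ v ∈ F, v ∈ G) → F = G := by
  have h := List.all_eq_true.1 K0 F hF
  simp only [Bool.and_eq_true, memL_iff, List.any_eq_true, decide_eq_true_eq, Bool.not_eq_true',
    List.all_eq_true, Bool.or_eq_true, eqL_iff, ← Bool.not_eq_true, sub_iff] at h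
  obtain ⟨⟨⟨⟨h1, h2⟩, h3⟩, h4⟩, h5⟩ := h
  exact ⟨h1, h2, h3, h4, fun G hG h => (h5 G hG).resolve_left (not_not.2 h)⟩

lemma k1 (F : List ℕ) (hF : F ∈ BL) (v : ℕ) (hv : v ∈ F) (x : ℕ) (hx : x ∈ F) (h1 : x ≠ v)
    (h2 : x < 8) : ∃ G ∈ BL, v ∉ G ∧ ∀ u ∈ F, u ≠ v → u ∈ G := by
  have h := List.all_eq_true.1 (List.all_eq_true.1 K1 F hF) v hv
  simp only [Bool.and_eq_true, List.any_eq_true, decide_eq_true_eq, Bool.not_eq_true',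
    List.all_eq_true, Bool.or_eq_true, Nat.beq_eq, mem_false, sw_iff] at h
  refine h.resolve_left fun h => ?_
  have := h x hx
  omega

lemma k2 (F : List ℕ) (hF : F ∈ BL) : ∃ G ∈ BL, ∃ v ∈ G, (∀ u ∈ F, 8 ≤ u → u ∈ G ∧ u ≠ v) ∧
    ∀ H ∈ BL, (∀ u ∈ G, u ≠ v → u ∈ H) → H = G := by
  have h := List.all_eq_true.1 K2 F hF
  simp only [Bool.and_eq_true, List.any_eq_true, decide_eq_true_eq, Bool.not_eq_true',
    List.all_eq_true, Bool.or_eq_true, Nat.beq_eq, mem_iff, ← Bool.not_eq_true, sw_iff,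
    eqL_iff] at h
  obtain ⟨G, hG, v, hv, h1, h2⟩ := h
  exact ⟨G, hG, v, hv, fun u hu h8 => (h1 u hu).resolve_left (by omega),
    fun H hH h => (h2 H hH).resolve_left (not_not.2 h)⟩

lemma k3 (T : List ℕ) (hT : T ∈ KL) : (∀ v ∈ T, v < 8 ∧ ∃ W, (T, v, W) ∈ WL) ∧
    ∀ G ∈ BL, (∀ v ∈ T, v ∈ G) → (∀ v ∈ T, ¬ ∃ T' ∈ KL, (∀ u ∈ T', u ∈ G) ∧ v ∉ T') ∧
      ∀ u ∈ G, 8 ≤ u → (∀ y ∈ G, y ≠ u → y ∈ T) ∧ ∀ v ∈ G, v ≠ u → ∃ x ∈ G, x ≠ v ∧ x < 8 := by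
  have h := List.all_eq_true.1 K3 T hT
  simp only [Bool.and_eq_true, List.any_eq_true, decide_eq_true_eq, Bool.not_eq_true',
    List.all_eq_true, Bool.or_eq_true, Nat.beq_eq, ← Bool.not_eq_true, sw_iff, sub_iff, kin_iff,
    eqL_iff] at h
  refine ⟨fun v hv => ⟨(h.1 v hv).1, ?_⟩, fun G hG hs => ?_⟩
  · obtain ⟨⟨a, b, W⟩, hx, rfl, rfl⟩ := (h.1 v hv).2
    exact ⟨W, hx⟩
  · obtain ⟨h1, h2⟩ := (h.2 G hG).resolve_left (not_not.2 hs)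
    refine ⟨h1, fun u hu h8 => ?_⟩
    obtain ⟨h3, h4⟩ := (h2 u hu).resolve_left (by omega)
    exact ⟨h3, fun v hv hn => (h4 v hv).resolve_left hn⟩

lemma k4 (T : List ℕ) (v : ℕ) (W : List (List ℕ)) (hx : (T, v, W) ∈ WL) (F : List ℕ)
    (hF : F ∈ BL) (he : ∀ u ∈ T, u ≠ v → u ∈ F) (w : ℕ) (hw : w ∈ F) (h1 : ¬ (w ∈ T ∧ w ≠ v))
    (h2 : ¬ ∃ T' ∈ KL, (∀ u ∈ T', u ∈ F) ∧ w ∉ T') (G : List ℕ) (hG : G ∈ BL)
    (h3 : ∀ u ∈ F, u ≠ w → u ∈ G) : F ∈ W ↔ G ∈ W := by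
  have h := List.all_eq_true.1 (List.all_eq_true.1 K4 _ hx) F hF
  simp only [Bool.and_eq_true, Bool.not_eq_true', List.all_eq_true, Bool.or_eq_true, Nat.beq_eq,
    ← Bool.not_eq_true, sw_iff, kin_iff, mem_iff, beq_iff_eq] at h
  have h4 := ((h.resolve_left (not_not.2 he) w hw).resolve_left (not_or.2 ⟨h1, h2⟩) G
    hG).resolve_left (not_not.2 h3)
  rw [← memL_iff, ← memL_iff, h4]

lemma k5 (T : List ℕ) (v : ℕ) (W : List (List ℕ)) (hx : (T, v, W) ∈ WL) (G : List ℕ)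
    (hG : G ∈ BL) (h1 : ∀ u ∈ T, u ∈ G) (N : List ℕ) (hN : N ∈ BL) (h2 : ∀ u ∈ T, u ∈ N)
    (h3 : G ≠ N) : ¬ (G ∈ W ↔ N ∈ W) := by
  have h := List.all_eq_true.1 (List.all_eq_true.1 K5 _ hx) G hG
  simp only [Bool.not_eq_true', List.all_eq_true, Bool.or_eq_true, ← Bool.not_eq_true, sub_iff,
    eqL_iff, bne_iff_ne] at h
  have h4 := (h.resolve_left (not_not.2 h1) N hN).resolve_left (not_or.2 ⟨not_not.2 h2, h3⟩)
  rw [← memL_iff, ← memL_iff]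
  exact fun e => h4 (Bool.eq_iff_iff.2 e)

/-- the ball has no shelling relative to its boundary -/
lemma core (t : List ℕ → ℕ) (inj : ∀ F ∈ BL, ∀ G ∈ BL, t F = t G → F = G)
    (P1 : ∀ F ∈ BL, ∀ u ∈ F, 8 ≤ u → ∃ w ∈ F, w ≠ u ∧ ((∃ x ∈ F, x ≠ w ∧ x < 8) →
      ∃ H ∈ BL, t H < t F ∧ ∀ y ∈ F, y ≠ w → y ∈ H))
    (P2 : ∀ F ∈ BL, ∀ G ∈ BL, t G < t F → (∃ x ∈ F, x ∈ G ∧ x < 8) → ∃ w ∈ F, w ∉ G ∧
      ∃ H ∈ BL, t H < t F ∧ ∀ y ∈ F, y ≠ w → y ∈ H) : False := by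
  classical
  let Q : ℕ → Prop := fun n => ∃ G ∈ BL, t G = n ∧ ∃ T ∈ KL, (∀ v ∈ T, v ∈ G) ∧
    ∃ N ∈ BL, (∀ v ∈ T, v ∈ N) ∧ t N < t G
  have ex : ∃ n, Q n := by
    have a1 : [2, 3, 4, 15] ∈ BL := by simp [BL]
    have a2 : [2, 3, 4, 17] ∈ BL := by simp [BL]
    have a3 : [2, 3, 4] ∈ KL := by simp [KL]
    rcases lt_trichotomy (t [2, 3, 4, 15]) (t [2, 3, 4, 17]) with h | h | h
    · exact ⟨_, _, a2, rfl, _, a3, by simp, _, a1, by simp, h⟩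
    · exact absurd (inj _ a1 _ a2 h) (by simp)
    · exact ⟨_, _, a1, rfl, _, a3, by simp, _, a2, by simp, h⟩
  obtain ⟨G, hG, hn, T, hT, hTG, N, hN, hTN, hlt⟩ := Nat.find_spec ex
  have hmin : ∀ F ∈ BL, t F < t G → ¬ Q (t F) := fun F _ h => Nat.find_min ex (hn ▸ h)
  obtain ⟨u, hu, h8⟩ := (k0 G hG).2.2.1
  obtain ⟨v, hv, hvu, hP⟩ := P1 G hG u hu h8
  obtain ⟨a1, a2⟩ := k3 T hT
  obtain ⟨a3, a4⟩ := a2 G hG hTG
  obtain ⟨a5, a6⟩ := a4 u hu h8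
  obtain ⟨M, hM, hMt, hGM⟩ := hP (a6 v hv hvu)
  have hvT := a5 v hv hvu
  obtain ⟨W, hW⟩ := (a1 v hvT).2
  obtain ⟨x, hx, hxv, hx8⟩ := a6 v hv hvu
  have hxT := a5 x hx (by omega)
  have conn : ∀ n, ∀ F ∈ BL, ∀ F' ∈ BL, t F + t F' = n → t F < t G → t F' < t G →
      (∀ y ∈ T, y ≠ v → y ∈ F) → (∀ y ∈ T, y ≠ v → y ∈ F') → (F ∈ W ↔ F' ∈ W) := by
    intro n
    induction n using Nat.strong_induction_on with
    | _ n ih =>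
      have step : ∀ F ∈ BL, ∀ F' ∈ BL, t F + t F' = n → t F < t G → t F' < t F →
          (∀ y ∈ T, y ≠ v → y ∈ F) → (∀ y ∈ T, y ≠ v → y ∈ F') → (F ∈ W ↔ F' ∈ W) := by
        intro F hF F' hF' e b1 b2 b3 b4
        obtain ⟨w, hw, hw', H, hH, b5, b6⟩ :=
          P2 F hF F' hF' b2 ⟨x, b3 x hxT hxv, b4 x hxT hxv, hx8⟩
        have b7 : ¬ (w ∈ T ∧ w ≠ v) := fun h => hw' (b4 w h.1 h.2)
        refine (k4 T v W hW F hF b3 w hw b7 ?_ H hH b6).trans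
          (ih _ (by omega) H hH F' hF' rfl (by omega) (by omega) (fun y hy hy' =>
            b6 y (b3 y hy hy') fun e => b7 (e ▸ ⟨hy, hy'⟩)) b4)
        rintro ⟨T', hT', c1, c2⟩
        exact hmin F hF b1 ⟨F, hF, rfl, T', hT', c1, H, hH,
          fun y hy => b6 y (c1 y hy) fun e => c2 (e ▸ hy), b5⟩
      intro F hF F' hF' e b1 b2 b3 b4
      rcases lt_trichotomy (t F) (t F') with h | h | h
      · exact (step F' hF' F hF (by omega) b2 h b4 b3).symm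
      · rw [inj F hF F' hF' h]
      · exact step F hF F' hF' e b1 h b3 b4
  refine k5 T v W hW G hG hTG N hN hTN (fun e => by rw [e] at hlt; omega) ?_
  exact (k4 T v W hW G hG (fun y hy _ => hTG y hy) v hv (fun h => h.2 rfl) (a3 v hvT) M hM
    hGM).trans (conn _ M hM N hN rfl hMt hlt (fun y hy h => hGM y (hTG y hy) h)
      fun y hy _ => hTN y hy)

def g (i v : ℕ) : ℕ := if v < 8 then 2 * (8 * i + v) else 2 * v + 1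

lemma g_inj (i : ℕ) : Function.Injective (g i) := by
  intro u v h; unfold g at h; split_ifs at h <;> omega

lemma g_eq {i k u v : ℕ} (h : g i u = g k v) : u = v ∧ (u < 8 → i = k) := by
  unfold g at h; split_ifs at h <;> omega

lemma g_big (i k : ℕ) {u : ℕ} (h : 8 ≤ u) : g i u = g k u := by simp [g, not_lt.2 h]

def im (i : ℕ) (F : List ℕ) : Finset ℕ := F.toFinset.image (g i)

lemma mem_im {i x : ℕ} {F : List ℕ} : x ∈ im i F ↔ ∃ v ∈ F, g i v = x := by simp [im]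

lemma g_mem {i k x : ℕ} {F : List ℕ} (h : g i x ∈ im k F) : x ∈ F ∧ (x < 8 → i = k) := by
  obtain ⟨v, hv, e⟩ := mem_im.1 h
  obtain ⟨rfl, h2⟩ := g_eq e.symm
  exact ⟨hv, h2⟩

lemma card_im (i : ℕ) (F : List ℕ) (hF : F ∈ FL) : (im i F).card = 4 := by
  obtain ⟨a, b, c, d, rfl, h1, h2, h3, -⟩ := shape F hF
  rw [im, card_image_of_injective _ (g_inj i), List.toFinset_card_of_nodup]
  · rfl
  · simp; omega

def gn (A : Set (Finset ℕ)) : Cx := {s | ∃ G ∈ A, s ⊆ G}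

lemma gn_cx (A : Set (Finset ℕ)) (hA : A.Finite) : IsCx (gn A) := by
  refine ⟨(hA.biUnion fun G _ => G.powerset.finite_toSet).subset ?_, ?_⟩
  · rintro s ⟨G, hG, h⟩
    exact Set.mem_biUnion hG (mem_powerset.2 h)
  · rintro s ⟨G, hG, h⟩ t ht
    exact ⟨G, hG, ht.trans h⟩

lemma gn_facet (A : Set (Finset ℕ)) (hA : ∀ G ∈ A, G.card = 4) (F : Finset ℕ) :
    Facet (gn A) F ↔ F ∈ A := by
  constructor
  · rintro ⟨⟨G, hG, h⟩, h2⟩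
    rwa [← h2 G ⟨G, hG, subset_rfl⟩ h]
  · refine fun hF => ⟨⟨F, hF, subset_rfl⟩, ?_⟩
    rintro s ⟨G, hG, h⟩ h2
    exact (eq_of_subset_of_card_le h2 (by rw [hA F hF, ← hA G hG]; exact card_le_card h)).symm

def LL (i : ℕ) : List (List ℕ) := if i = 0 then FL else BL

lemma LL_sub (i : ℕ) (F : List ℕ) (h : F ∈ LL i) : F ∈ FL := by
  unfold LL at h
  split_ifs at h
  exacts [h, (k0 F h).1]

def fac (i : ℕ) : Set (Finset ℕ) := im i '' {F | F ∈ LL i}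

lemma fac_card (i : ℕ) : ∀ G ∈ fac i, G.card = 4 := by
  rintro _ ⟨F, hF, rfl⟩; exact card_im i F (LL_sub i F hF)

lemma fac_fin (i : ℕ) : (fac i).Finite := (List.finite_toSet _).image _

lemma iso (i : ℕ) : Iso (gen (LL i)) (gn (fac i)) := by
  refine ⟨g i, g_inj i, Set.ext fun s => ⟨?_, ?_⟩⟩
  · rintro ⟨_, ⟨F, hF, rfl⟩, h⟩
    obtain ⟨t, ht, rfl⟩ := subset_image_iff.1 h
    exact ⟨t, ⟨F, hF, ht⟩, rfl⟩
  · rintro ⟨t, ⟨F, hF, ht⟩, rfl⟩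
    exact ⟨_, ⟨F, hF, rfl⟩, image_subset_image ht⟩

def Δ : Cx := gn (⋃ j : Fin 14, fac j)

lemma Δ_card : ∀ G ∈ ⋃ j : Fin 14, fac j, G.card = 4 := by
  intro G hG
  obtain ⟨j, hj⟩ := Set.mem_iUnion.1 hG
  exact fac_card j G hj

lemma erase_of (i : ℕ) (F : List ℕ) (hF : F ∈ FL) (r : Finset ℕ) (hr : r ⊆ im i F)
    (h3 : r.card = 3) : ∃ w ∈ F, r = (im i F).erase (g i w) := by
  have h4 := card_im i F hF
  obtain ⟨x, hx, hx'⟩ := exists_mem_notMem_of_card_lt_card (s := r) (t := im i F) (by omega)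
  obtain ⟨w, hw, rfl⟩ := mem_im.1 hx
  refine ⟨w, hw, eq_of_subset_of_card_le (subset_erase.2 ⟨hr, hx'⟩) ?_⟩
  rw [card_erase_of_mem hx]; omega

lemma ear (j : Fin 14) (hj : j ≠ 0) :
    gn (fac j) ∩ (⋃ i : Fin 14, ⋃ (_ : i < j), gn (fac i)) = bd 4 (gn (fac j)) := by
  have hj' : j.val ≠ 0 := fun h => hj (Fin.ext h)
  have hL : LL j = BL := if_neg hj'
  ext s
  constructor
  · rintro ⟨⟨_, ⟨F, hF, rfl⟩, h1⟩, h2⟩
    simp only [Set.mem_iUnion] at h2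
    obtain ⟨i, hi, _, ⟨H, -, rfl⟩, h2⟩ := h2
    rw [Set.mem_ofPred_eq, hL] at hF
    obtain ⟨G, hG, v, hv, h3, h4⟩ := k2 F hF
    have hG' : im j G ∈ fac j := ⟨G, hL ▸ hG, rfl⟩
    refine ⟨(im j G).erase (g j v), ⟨_, hG', erase_subset _ _⟩, ?_,
      ⟨im j G, ⟨(gn_facet _ (fac_card j) _).2 hG', erase_subset _ _⟩, ?_⟩, fun x hx => ?_⟩
    · rw [card_erase_of_mem (mem_im.2 ⟨v, hv, rfl⟩), fac_card j _ hG']
    · rintro _ ⟨h5, h6⟩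
      obtain ⟨H, hH, rfl⟩ := (gn_facet _ (fac_card j) _).1 h5
      rw [h4 H (hL ▸ hH) fun u hu hn => (g_mem (h6 (mem_erase.2
        ⟨fun e => hn (g_inj _ e), mem_im.2 ⟨u, hu, rfl⟩⟩))).1]
    · obtain ⟨u, hu, rfl⟩ := mem_im.1 (h1 hx)
      have h8 : 8 ≤ u := by
        by_contra h
        have := (g_mem (h2 hx)).2 (by omega)
        omega
      exact mem_erase.2 ⟨fun e => (h3 u hu h8).2 (g_inj _ e), mem_im.2 ⟨u, (h3 u hu h8).1, rfl⟩⟩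
  · rintro ⟨r, -, h3, ⟨G, ⟨h4, h5⟩, h6⟩, hs⟩
    have h4' := (gn_facet _ (fac_card j) _).1 h4
    refine ⟨⟨G, h4', hs.trans h5⟩, ?_⟩
    obtain ⟨F, hF, rfl⟩ := h4'
    rw [Set.mem_ofPred_eq, hL] at hF
    obtain ⟨w, hw, rfl⟩ := erase_of j F (k0 F hF).1 r h5 (by omega)
    simp only [Set.mem_iUnion]
    refine ⟨0, Fin.pos_iff_ne_zero.2 hj, _, ⟨F, (k0 F hF).1, rfl⟩, fun x hx => ?_⟩
    obtain ⟨hx1, hx2⟩ := mem_erase.1 (hs hx)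
    obtain ⟨u, hu, rfl⟩ := mem_im.1 hx2
    refine mem_im.2 ⟨u, hu, g_big _ _ ?_⟩
    by_contra h8
    obtain ⟨H, hH, h7, h9⟩ := k1 F hF w hw u hu (fun e => hx1 (e ▸ rfl)) (by omega)
    have := h6 (im j H) ⟨(gn_facet _ (fac_card j) _).2 ⟨H, hL ▸ hH, rfl⟩, fun y hy => by
      obtain ⟨y1, y2⟩ := mem_erase.1 hy
      obtain ⟨z, hz, rfl⟩ := mem_im.1 y2
      exact mem_im.2 ⟨z, h9 z hz fun e => y1 (e ▸ rfl), rfl⟩⟩
    exact h7 (g_mem (this ▸ mem_im.2 ⟨w, hw, rfl⟩ : g j w ∈ im j H)).1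

theorem ced : CED 4 Δ := by
  have gB : gen BL = gn (List.toFinset '' {F | F ∈ BL}) := by
    ext s; simp [gen, gn]
  refine ⟨gn_cx _ (Set.finite_iUnion fun j => fac_fin _),
    fun F h => Δ_card F ((gn_facet _ Δ_card F).1 h), 13, fun j => gn (fac j),
    fun j => ⟨gn_cx _ (fac_fin j), fun F h => fac_card j F ((gn_facet _ (fac_card j) F).1 h), ?_⟩,
    ⟨_, poly, iso 0⟩, fun j hj => ⟨⟨gen BL, gen FL, ?_, ball, poly, ⟨?_, fun h => ?_⟩, ?_⟩,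
      ear j hj⟩, ?_⟩
  · rintro s ⟨G, hG, h⟩
    exact ⟨G, Set.mem_iUnion.2 ⟨j, hG⟩, h⟩
  · rw [gB]; exact gn_cx _ ((List.finite_toSet _).image _)
  · rintro s ⟨F, hF, h⟩
    exact ⟨F, (k0 F hF).1, h⟩
  · obtain ⟨F, hF, h1⟩ := h (show [8, 9, 11, 13].toFinset ∈ gen FL from
      ⟨_, by simp [FL], subset_rfl⟩)
    exact (k0 F hF).2.2.2.1 fun v hv => List.mem_toFinset.1 (h1 (List.mem_toFinset.2 hv))
  · have := iso j
    rwa [LL, if_neg (show ¬ j.val = 0 from fun h => hj (Fin.ext h))] at this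
  · ext s
    simp only [Δ, gn, Set.mem_iUnion, Set.mem_ofPred_eq]
    exact ⟨fun ⟨G, ⟨j, hj⟩, h⟩ => ⟨j, G, hj, h⟩, fun ⟨j, G, hj, h⟩ => ⟨G, ⟨j, hj⟩, h⟩⟩

theorem not_shell : ¬ Shellable Δ := by
  classical
  rintro ⟨n, F, hinj, hF, hP⟩
  simp only [Δ, gn_facet _ Δ_card, Set.mem_iUnion] at hF
  have back : ∀ j, ∃ k, ∃ H ∈ LL k, F j = im k H := by
    intro j
    obtain ⟨k, H, hH, e⟩ := (hF _).2 ⟨j, rfl⟩
    exact ⟨k, H, hH, e.symm⟩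
  have first : ∀ u, ∃ k : ℕ, ∀ i, i ≠ k → ∀ G ∈ BL, ∀ j, F j = im i G → g 0 u ∈ F j →
      ∃ j', j' < j ∧ g 0 u ∈ F j' := by
    intro u
    by_cases h : (univ.filter fun j => g 0 u ∈ F j).Nonempty
    · obtain ⟨j0, h0, hm⟩ := exists_min_image _ id h
      obtain ⟨k, H, -, e⟩ := back j0
      refine ⟨k, fun i hi G hG j ej hu => ⟨j0, lt_of_le_of_ne (hm j (by simpa using hu)) ?_,
        by simpa using h0⟩⟩
      rintro rfl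
      obtain ⟨x, hx, h8⟩ := (k0 G hG).2.1
      exact hi ((g_mem (e ▸ ej ▸ mem_im.2 ⟨x, hx, rfl⟩ : g i x ∈ im k H)).2 h8)
    · exact ⟨0, fun i _ G _ j _ hu => absurd ⟨j, by simpa using hu⟩ h⟩
  choose k hk using first
  obtain ⟨i, hi, hi'⟩ := exists_mem_notMem_of_card_lt_card (s := (Ico 8 20).image k)
    (t := Ico 1 14) (card_image_le.trans_lt (by simp))
  rw [mem_Ico] at hi
  have hL : LL i = BL := if_neg (by omega)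
  have fwd : ∀ G, G ∈ BL → ∃ j, F j = im i G := fun G hG =>
    (hF _).1 ⟨⟨i, hi.2⟩, G, hL ▸ hG, rfl⟩
  choose! J hJ using fun G (hG : G ∈ BL) => (fwd G hG).imp' (q := fun m : ℕ => ∃ j : Fin n,
    j.val = m ∧ F j = im i G) Fin.val fun j h => ⟨j, rfl, h⟩
  have key : ∀ G ∈ BL, ∀ j, F j = im i G → ∀ c ⊆ F j, (∃ j', j' < j ∧ c ⊆ F j') →
      ∃ w ∈ G, g i w ∉ c ∧ ((∃ x ∈ G, x ≠ w ∧ x < 8) →
        ∃ H ∈ BL, J H < j ∧ ∀ y ∈ G, y ≠ w → y ∈ H) := by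
    rintro G hG j e c hc ⟨j', hj', hc'⟩
    obtain ⟨r, hr, hm⟩ := exists_max_image ((F j).powerset.filter fun r => c ⊆ r ∧
      ∃ j', j' < j ∧ r ⊆ F j') card ⟨c, by simpa using ⟨hc, j', hj', hc'⟩⟩
    simp only [mem_filter, mem_powerset] at hr hm
    obtain ⟨r1, r2, j2, r3, r4⟩ := hr
    have h3 := hP j (by have : j'.val < j.val := hj'; omega) r ⟨⟨r1, j2, r3, r4⟩,
      fun s hs h => (eq_of_subset_of_card_le h (hm s ⟨hs.1, r2.trans h, hs.2⟩)).symm⟩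
    rw [e, card_im i G (k0 G hG).1] at h3
    obtain ⟨w, hw, rfl⟩ := erase_of i G (k0 G hG).1 r (e ▸ r1) h3
    refine ⟨w, hw, fun h => by simpa using r2 h, ?_⟩
    rintro ⟨x, hx, hxw, h8⟩
    obtain ⟨k', H, hH, e2⟩ := back j2
    have m : ∀ y ∈ G, y ≠ w → g i y ∈ im k' H := fun y hy h =>
      e2 ▸ r4 (mem_erase.2 ⟨fun e => h (g_inj _ e), mem_im.2 ⟨y, hy, rfl⟩⟩)
    obtain rfl := (g_mem (m x hx hxw)).2 h8
    rw [hL] at hH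
    obtain ⟨j3, e3, e4⟩ := hJ H hH
    obtain rfl := hinj (e4.trans e2.symm)
    exact ⟨H, hH, e3 ▸ r3, fun y hy h => (g_mem (m y hy h)).1⟩
  refine core J (fun G hG H hH e => ?_) (fun G hG u hu h8 => ?_) fun G hG H hH hlt hx => ?_
  · obtain ⟨j, e1, e2⟩ := hJ G hG
    obtain ⟨j', e3, e4⟩ := hJ H hH
    obtain rfl : j = j' := Fin.ext (by omega)
    exact (k0 G hG).2.2.2.2 H hH fun v hv =>
      (g_mem (e4 ▸ e2 ▸ mem_im.2 ⟨v, hv, rfl⟩ : g i v ∈ im i H)).1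
  · obtain ⟨j, e1, e2⟩ := hJ G hG
    have hu' : g 0 u ∈ F j := e2 ▸ mem_im.2 ⟨u, hu, g_big _ _ h8⟩
    have h20 : u < 20 := by
      obtain ⟨a, b, c, d, rfl, h1, h2, h3, h4, -⟩ := shape G (k0 G hG).1
      simp at hu; omega
    obtain ⟨j', h1, h2⟩ := hk u i (fun e => hi' (mem_image.2 ⟨u, mem_Ico.2 ⟨h8, h20⟩, e.symm⟩))
      G hG j e2 hu'
    obtain ⟨w, hw, h3, h4⟩ := key G hG j e2 {g 0 u} (by simpa) ⟨j', h1, by simpa⟩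
    exact ⟨w, hw, fun e => h3 (by rw [e, g_big i 0 h8]; simp), e1 ▸ h4⟩
  · obtain ⟨j, e1, e2⟩ := hJ G hG
    obtain ⟨j', e3, e4⟩ := hJ H hH
    obtain ⟨w, hw, h3, h4⟩ := key G hG j e2 (F j ∩ F j') inter_subset_left
      ⟨j', by show j'.val < j.val; omega, inter_subset_right⟩
    have h5 : w ∉ H := fun h => h3 (mem_inter.2 ⟨e2 ▸ mem_im.2 ⟨w, hw, rfl⟩,
      e4 ▸ mem_im.2 ⟨w, h, rfl⟩⟩)
    obtain ⟨x, x1, x2, x3⟩ := hx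
    exact ⟨w, hw, h5, e1 ▸ h4 ⟨x, x1, fun e => h5 (e ▸ x2), x3⟩⟩

end Pool.Agent.H10.Ced
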