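import Mathlib

set_option autoImplicit false

namespace Pool.Agent.H10.Cheeg
open MeasureTheory
open scoped ENNReal

abbrev E (N : ℕ) := EuclideanSpace ℝ (Fin N)

variable {N : ℕ}

/-- nonempty, open, bounded, convex, symmetric about the origin -/
def Adm (K : Set (E N)) : Prop :=
  K.Nonempty ∧ IsOpen K ∧ Bornology.IsBounded K ∧ Convex ℝ K ∧ ∀ x ∈ K, -x ∈ K

/-- polar set -/
def polar (K : Set (E N)) : Set (E N) := {x | ∀ y ∈ K, inner ℝ x y < 1}

/-- divergence of a vector field -/
noncomputable def dv (φ : E N → E N) (x : E N) : ℝ :=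
  ∑ i, fderiv ℝ φ x (EuclideanSpace.single i 1) i

/-- anisotropic perimeter in its distributional form: the supremum of the integral of the divergence
over compactly supported `C^1` vector fields with values in `K` -/
noncomputable def per (K A : Set (E N)) : ℝ≥0∞ :=
  ⨆ (φ : E N → E N) (_ : ContDiff ℝ 1 φ ∧ HasCompactSupport φ ∧ ∀ x, φ x ∈ K),
    ENNReal.ofReal (∫ x in A, dv φ x)

/-- anisotropic Cheeger constant -/
noncomputable def cheeger (K Ω : Set (E N)) : ℝ≥0∞ :=
  ⨅ (A : Set (E N)) (_ : MeasurableSet A ∧ A ⊆ Ω ∧ 0 < volume A), per K A / volume A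

/-- the scale-invariant functional -/
noncomputable def J (Ω K : Set (E N)) : ℝ≥0∞ :=
  cheeger K Ω * volume (polar K) ^ (1 / N : ℝ)

end Pool.Agent.H10.Cheeg
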