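import Mathlib
import Pool.Agent.H10.CheegDefs

set_option autoImplicit false

namespace Pool.Agent.H10.Cheeg
open MeasureTheory Set Metric Filter Topology
open scoped ENNReal Pointwise

variable {N : ℕ}

lemma per_le {K L : Set (E N)} {t : ℝ} (t0 : 0 < t) (h : ∀ x ∈ K, t⁻¹ • x ∈ L) (A : Set (E N)) :
    per K A ≤ ENNReal.ofReal t * per L A := by
  refine iSup₂_le fun φ ⟨a, b, c⟩ => ?_
  have e : ∀ x, dv φ x = t * dv (t⁻¹ • φ) x := fun x => by
    simp only [dv]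
    rw [fderiv_const_smul (a.differentiable one_ne_zero x)]
    simp [Finset.mul_sum, t0.ne']
  simp only [e, integral_const_mul, ENNReal.ofReal_mul t0.le]
  gcongr
  exact le_iSup₂_of_le (t⁻¹ • φ) ⟨a.const_smul t⁻¹, b.mono fun x d f => d (by simp [f]),
    fun x => h _ (c x)⟩ le_rfl

lemma cheeger_le {K L : Set (E N)} {t : ℝ} (t0 : 0 < t) (h : ∀ x ∈ K, t⁻¹ • x ∈ L)
    (Ω : Set (E N)) : cheeger K Ω ≤ ENNReal.ofReal t * cheeger L Ω := by
  have a : ENNReal.ofReal t ≠ 0 := by simpa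
  simp only [cheeger, ENNReal.mul_iInf_of_ne a ENNReal.ofReal_ne_top]
  refine iInf₂_mono fun A _ => ?_
  rw [← mul_div_assoc]
  gcongr
  exact per_le t0 h A

lemma polar_le (hN : 0 < N) {K L : Set (E N)} {t : ℝ} (t0 : 0 < t) (h : ∀ x ∈ L, t⁻¹ • x ∈ K) :
    volume (polar K) ^ (1 / N : ℝ) ≤ ENNReal.ofReal t * volume (polar L) ^ (1 / N : ℝ) := by
  have : polar K ⊆ t • polar L := fun x a => ⟨t⁻¹ • x, fun y b => by
    simpa [inner_smul_left, inner_smul_right] using a _ (h y b), by simp [smul_smul, t0.ne']⟩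
  refine (ENNReal.rpow_le_rpow (measure_mono this) (by positivity)).trans_eq ?_
  rw [Measure.addHaar_smul_of_nonneg _ t0.le, ENNReal.mul_rpow_of_nonneg _ _ (by positivity),
    finrank_euclideanSpace_fin, ENNReal.ofReal_pow t0.le, one_div,
    ENNReal.pow_rpow_inv_natCast hN.ne']

lemma J_le (hN : 0 < N) {K L : Set (E N)} {s t : ℝ} (s0 : 0 < s) (t0 : 0 < t)
    (h : ∀ x ∈ K, s⁻¹ • x ∈ L) (h' : ∀ x ∈ L, t⁻¹ • x ∈ K) (Ω : Set (E N)) :
    J Ω K ≤ ENNReal.ofReal (s * t) * J Ω L := by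
  rw [J, J, ENNReal.ofReal_mul s0.le, mul_mul_mul_comm]
  exact mul_le_mul' (cheeger_le s0 h Ω) (polar_le hN t0 h')

lemma Adm.smul {K : Set (E N)} (h : Adm K) {y : E N} (hy : y ∈ K) {c : ℝ} (hc : |c| ≤ 1) :
    c • y ∈ K := by
  have := h.2.2.2.1 hy (h.2.2.2.2 y hy) (show 0 ≤ (1 + c) / 2 by linarith [abs_le.1 hc])
    (show 0 ≤ (1 - c) / 2 by linarith [abs_le.1 hc]) (by ring)
  rwa [smul_neg, ← sub_eq_add_neg, ← sub_smul, show (1 + c) / 2 - (1 - c) / 2 = c by ring] at this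

lemma coer {K Ω : Set (E N)} (h : Adm K) {R : ℝ} (R0 : 0 < R) (hΩ : Ω ⊆ ball 0 R) {y : E N}
    (hy : y ∈ K) : ENNReal.ofReal (‖y‖ / (2 * R)) ≤ cheeger K Ω := by
  refine le_iInf₂ fun A ⟨a, b, c⟩ => ?_
  have fin : volume A ≠ ⊤ := ((measure_mono (b.trans hΩ)).trans_lt measure_ball_lt_top).ne
  rw [ENNReal.le_div_iff_mul_le (Or.inl c.ne') (Or.inl fin)]
  rcases eq_or_ne y 0 with rfl | y0
  · simp
  have y1 := norm_pos_iff.2 y0
  let β : ContDiffBump (0 : E N) := ⟨R, 2 * R, R0, by linarith⟩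
  let T : E N →L[ℝ] E N := ((2 * R * ‖y‖)⁻¹ • innerSL ℝ y).smulRight y
  refine le_iSup₂_of_le (fun x => β x • T x) ⟨β.contDiff.smul T.contDiff,
    β.hasCompactSupport.smul_right, fun x => ?_⟩ ?_
  · simp only [T, ContinuousLinearMap.smulRight_apply, smul_smul]
    refine h.smul hy ?_
    by_cases d : ‖x‖ < 2 * R
    · have := abs_real_inner_le_norm y x
      simp only [abs_mul, smul_apply, innerSL_apply_apply, smul_eq_mul,
        abs_of_nonneg β.nonneg, abs_of_pos (show 0 < (2 * R * ‖y‖)⁻¹ by positivity)]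
      refine mul_le_one₀ β.le_one (by positivity) ?_
      rw [inv_mul_le_iff₀ (by positivity)]
      nlinarith
    · rw [β.zero_of_le_dist (by simpa using d)]
      simp
  · rw [setIntegral_congr_fun a (g := fun _ => ‖y‖ / (2 * R)) fun x hx => ?_]
    · rw [setIntegral_const, smul_eq_mul, mul_comm _ (‖y‖ / _), ENNReal.ofReal_mul (by positivity),
        ofReal_measureReal fin]
    · have : (fun x => β x • T x) =ᶠ[𝓝 x] T :=
        (β.eventuallyEq_one_of_mem_ball (hΩ (b hx))).mono fun z e => by simp [e]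
      simp only [dv, this.fderiv_eq, T.fderiv]
      simp only [T, ContinuousLinearMap.smulRight_apply, smul_apply,
        innerSL_apply_apply, EuclideanSpace.inner_single_right, PiLp.smul_apply, smul_eq_mul,
        mul_assoc, ← Finset.mul_sum, conj_trivial, one_mul, ← sq, ← EuclideanSpace.real_norm_sq_eq]
      field_simp

lemma vol_low {K : Set (E N)} (h : Adm K) (K1 : K ⊆ ball 0 1) (m : ℕ) {z : E N} (hz : z ∉ K)
    (z1 : ‖z‖ * (2 * m) ≤ 1) : m * volume (ball (0 : E N) (1 / 2)) ≤ volume (polar K) := by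
  obtain ⟨f, hf⟩ := geometric_hahn_banach_open_point h.2.2.2.1 h.2.1 hz
  have f0 : 0 < f z := by simpa using hf 0 (by simpa using h.smul h.1.some_mem (c := 0) (by simp))
  obtain ⟨w, rfl⟩ := (InnerProductSpace.toDual ℝ (E N)).surjective f
  simp only [InnerProductSpace.toDual_apply_apply] at hf f0
  have w0 : 0 < ‖w‖ := norm_pos_iff.2 fun e => by simp [e] at f0
  let c : ℕ → E N := fun j => (j / ‖w‖) • w
  have d : ∀ i j, dist (c i) (c j) = |(i : ℝ) - j| := fun i j => by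
    rw [dist_eq_norm, ← sub_smul, norm_smul, ← sub_div, norm_div, norm_norm,
      div_mul_cancel₀ _ w0.ne', Real.norm_eq_abs]
  have := measure_biUnion_finset (μ := volume) (s := Finset.range m)
    (f := fun j => ball (c j) (1 / 2)) (fun i _ j _ e => ball_disjoint_ball (by
      rw [d]
      rcases lt_or_gt_of_ne e with e | e <;> have : (_ : ℝ) ≤ _ := Nat.cast_le.2 (Nat.succ_le_of_lt e) <;>
        push_cast at this <;> rw [le_abs] <;> [right; left] <;> linarith))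
    fun _ _ => measurableSet_ball
  simp only [Measure.addHaar_ball_center, Finset.sum_const, Finset.card_range, nsmul_eq_mul] at this
  rw [← this]
  refine measure_mono (iUnion₂_subset fun j a x b y e => ?_)
  have a : (j : ℝ) ≤ m := by exact_mod_cast (Finset.mem_range.1 a).le
  have e1 := real_inner_le_norm (x - c j) y
  have e2 := real_inner_le_norm w z
  have e3 : ‖y‖ < 1 := by simpa using K1 e
  have e4 : ‖x - c j‖ < 1 / 2 := by simpa [dist_eq_norm] using b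
  have e5 : inner ℝ (c j) y ≤ 1 / 2 := by
    simp only [c, inner_smul_left, conj_trivial]
    rw [div_mul_eq_mul_div, div_le_iff₀ w0]
    have := mul_le_mul_of_nonneg_left ((hf y e).le.trans e2) (Nat.cast_nonneg j)
    nlinarith [mul_le_mul_of_nonneg_left a (mul_nonneg w0.le (norm_nonneg z))]
  rw [inner_sub_left] at e1
  nlinarith [norm_nonneg (x - c j), norm_nonneg y]

lemma comb {L : Set (E N)} (h : Convex ℝ L) {ε η : ℝ} (hε : ball 0 ε ⊆ L) (η0 : 0 < η) {a x : E N}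
    (ha : a ∈ L) (hx : dist x a < ε * η) : (1 + η)⁻¹ • x ∈ L := by
  have := h ha (hε (a := η⁻¹ • (x - a)) (by
    rwa [mem_ball_zero_iff, norm_smul, norm_inv, Real.norm_of_nonneg η0.le, inv_mul_lt_iff₀ η0,
      mul_comm, ← dist_eq_norm])) (show 0 ≤ (1 + η)⁻¹ by positivity)
    (show 0 ≤ (1 + η)⁻¹ * η by positivity) (by field_simp)
  rwa [smul_smul, mul_assoc, mul_inv_cancel₀ η0.ne', mul_one, ← smul_add, add_sub_cancel] at this

lemma limit (K : ℕ → Set (E N)) (h : ∀ n, Adm (K n)) (K1 : ∀ n, K n ⊆ ball 0 1) {ε : ℝ} (ε0 : 0 < ε)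
    (hε : ∀ n, ball 0 ε ⊆ K n) (U : Ultrafilter ℕ) : ∃ L, Adm L ∧ ∀ η > (0 : ℝ), ∀ᶠ n in U,
      (∀ x ∈ L, (1 + η)⁻¹ • x ∈ K n) ∧ ∀ x ∈ K n, ((1 + η) ^ 3)⁻¹ • x ∈ L := by
  let L := {x | ∃ s > (1 : ℝ), ∀ᶠ n in U, s • x ∈ K n}
  have sh : ∀ n {x : E N} {s t : ℝ}, s • x ∈ K n → 0 < t → t ≤ s → t • x ∈ K n :=
    fun n x s t a b c => by
      have := (h n).smul a (c := t / s) (by
        rw [abs_of_pos (div_pos b (b.trans_le c))]; exact (div_le_one (b.trans_le c)).2 c)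
      rwa [smul_smul, div_mul_cancel₀ _ (b.trans_le c).ne'] at this
  have L1 : ∀ x ∈ L, ∀ᶠ n in U, x ∈ K n := fun x ⟨s, a, b⟩ =>
    b.mono fun n c => by simpa using sh n c one_pos a.le
  have L2 : L ⊆ ball 0 1 := fun x a => (L1 x a).exists.elim fun n b => K1 n b
  have tb : TotallyBounded (ball (0 : E N) 1) :=
    (isCompact_closedBall 0 1).totallyBounded.subset ball_subset_closedBall
  refine ⟨L, ⟨⟨0, 2, one_lt_two, .of_forall fun n => hε n (by simpa)⟩, isOpen_iff.2 ?_,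
    isBounded_ball.subset L2, ?_, fun x ⟨s, a, b⟩ => ⟨s, a, b.mono fun n c => by
      simpa using (h n).2.2.2.2 _ c⟩⟩, fun η η0 => Eventually.and ?_ ?_⟩
  · rintro x ⟨s, a, b⟩
    refine ⟨ε * ((s - 1) / 2) / s, by have := sub_pos.2 a; positivity, fun y c =>
      ⟨(1 + (s - 1) / 2)⁻¹ * s, by rw [gt_iff_lt, lt_inv_mul_iff₀] <;> linarith, b.mono fun n d => ?_⟩⟩
    rw [← smul_smul]
    refine comb (h n).2.2.2.1 (hε n) (by linarith) d ?_
    rwa [dist_smul₀, Real.norm_of_nonneg (by linarith), mul_comm, ← lt_div_iff₀ (by linarith)]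
  · rintro x ⟨s, a, b⟩ y ⟨t, c, d⟩ p q p0 q0 pq
    refine ⟨min s t, lt_min a c, (b.and d).mono fun n e => ?_⟩
    have := lt_min a c
    rw [smul_add, smul_comm _ p, smul_comm _ q]
    exact (h n).2.2.2.1 (sh n e.1 (by linarith) (min_le_left _ _))
      (sh n e.2 (by linarith) (min_le_right _ _)) p0 q0 pq
  · obtain ⟨t, a, b, c⟩ := finite_approx_of_totallyBounded (tb.subset L2) (ε * η) (by positivity)
    refine ((eventually_all_finite b).2 fun x d => L1 x (a d)).mono fun n d x e => ?_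
    obtain ⟨y, f, g⟩ := mem_iUnion₂.1 (c e)
    exact comb (h n).2.2.2.1 (hε n) η0 (d y f) g
  · obtain ⟨t, -, b, c⟩ := finite_approx_of_totallyBounded tb (ε * η) (by positivity)
    have : ∀ y, ∀ᶠ n in U, (1 + η)⁻¹ • y ∈ K n → ∀ᶠ m in U, (1 + η)⁻¹ • y ∈ K m := fun y => by
      by_cases a : ∀ᶠ m in U, (1 + η)⁻¹ • y ∈ K m
      · exact .of_forall fun _ _ => a
      · exact (U.eventually_not.2 a).mono fun _ d e => absurd e d
    refine ((eventually_all_finite b).2 fun y _ => this y).mono fun n d x e => ?_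
    obtain ⟨y, f, g⟩ := mem_iUnion₂.1 (c (K1 n e))
    refine ⟨1 + η, by linarith, (d y f (comb (h n).2.2.2.1 (hε n) η0 e (mem_ball'.1 g))).mono
      fun m a => ?_⟩
    have := comb (x := (1 + η)⁻¹ • x) (h m).2.2.2.1 (hε m) η0 a (by
      rw [dist_smul₀, Real.norm_of_nonneg (by positivity)]
      exact (mul_le_of_le_one_left dist_nonneg (inv_le_one_of_one_le₀ (by linarith))).trans_lt g)
    convert this using 1
    rw [smul_smul, smul_smul]
    congr 1
    field_simp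

lemma scale (hN : 0 < N) (Ω : Set (E N)) {K : Set (E N)} (h : Adm K) : ∃ L, Adm L ∧
    L ⊆ ball 0 1 ∧ (∃ y ∈ L, 1 / 4 ≤ ‖y‖) ∧ J Ω L ≤ J Ω K := by
  have : Nontrivial (E N) := Module.nontrivial_of_finrank_pos (R := ℝ) (by simpa)
  have bd : BddAbove (norm '' K) := (isBounded_iff_forall_norm_le.1 h.2.2.1).imp
    fun _ a => forall_mem_image.2 a
  obtain ⟨y, y1, y2⟩ := ((dense_compl_singleton (0 : E N)).inter_open_nonempty _ h.2.1 h.1)
  set ρ := sSup (norm '' K)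
  have ρ1 : ∀ x ∈ K, ‖x‖ ≤ ρ := fun x a => le_csSup bd ⟨x, a, rfl⟩
  have ρ0 : 0 < ρ := (norm_pos_iff.2 y2).trans_le (ρ1 y y1)
  obtain ⟨_, ⟨z, z1, rfl⟩, z2⟩ := exists_lt_of_lt_csSup (h.1.image norm) (half_lt_self ρ0)
  have e : ∀ x ∈ K, (2 * ρ) • (2 * ρ)⁻¹ • x ∈ K := fun x a => by
    rwa [smul_inv_smul₀ (by positivity)]
  have L1 : {x | (2 * ρ) • x ∈ K} ⊆ ball 0 1 := fun x a => by
    have := ρ1 _ a
    rw [norm_smul, Real.norm_of_nonneg (by positivity)] at this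
    rw [mem_ball_zero_iff]
    nlinarith
  refine ⟨{x | (2 * ρ) • x ∈ K}, ⟨⟨(2 * ρ)⁻¹ • z, e z z1⟩, h.2.1.preimage (by fun_prop),
    isBounded_ball.subset L1, h.2.2.2.1.smul_preimage _, fun x a => by
      simpa using h.2.2.2.2 _ a⟩, L1, ⟨(2 * ρ)⁻¹ • z, e z z1, ?_⟩, ?_⟩
  · rw [norm_smul, Real.norm_of_nonneg (by positivity), le_inv_mul_iff₀ (by positivity)]
    linarith
  · have := J_le hN (K := {x | (2 * ρ) • x ∈ K}) (L := K) (s := (2 * ρ)⁻¹) (t := 2 * ρ)
      (by positivity) (by positivity) (fun x a => by rwa [inv_inv]) e Ω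
    rwa [inv_mul_cancel₀ (by positivity), ENNReal.ofReal_one, one_mul] at this

theorem main (hN : 0 < N) {Ω : Set (E N)} (hΩ : Bornology.IsBounded Ω) :
    ∃ K, Adm K ∧ ∀ L, Adm L → J Ω K ≤ J Ω L := by
  obtain ⟨R, R0, hR⟩ := hΩ.subset_ball_lt 0 0
  by_cases a : ∀ L, Adm L → J Ω L = ⊤
  · exact ⟨ball 0 1, ⟨nonempty_ball.2 one_pos, isOpen_ball, isBounded_ball, convex_ball _ _,
      by simp⟩, fun L b => by simp [a L b]⟩
  simp only [not_forall] at a
  obtain ⟨L0, a, b⟩ := a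
  let S := {L | Adm L ∧ L ⊆ ball 0 1 ∧ (∃ y ∈ L, 1 / 4 ≤ ‖y‖) ∧ J Ω L ≤ J Ω L0}
  obtain ⟨u, -, u1, u2⟩ := exists_seq_tendsto_sInf (S := J Ω '' S)
    (Set.Nonempty.image _ (scale hN Ω a)) (OrderBot.bddBelow _)
  choose K hK e using u2
  have c0 : ENNReal.ofReal (1 / 4 / (2 * R)) ≠ 0 := by simpa using R0
  obtain ⟨m, hm⟩ := ENNReal.exists_nat_mul_gt (measure_ball_pos volume (0 : E N) one_half_pos).ne'
    (b := (J Ω L0 / ENNReal.ofReal (1 / 4 / (2 * R))) ^ N)
    (ENNReal.pow_ne_top (ENNReal.div_ne_top b c0))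
  obtain ⟨L, hL, f⟩ := limit K (fun n => (hK n).1) (fun n => (hK n).2.1) (ε := 1 / (2 * m + 1))
    (by positivity) (fun n z hz => by_contra fun d => hm.not_ge (by
      obtain ⟨p, q, ⟨y, y1, y2⟩, r⟩ := hK n
      rw [mem_ball_zero_iff, lt_div_iff₀ (by positivity)] at hz
      refine (vol_low p q m d (by nlinarith [norm_nonneg z])).trans ?_
      rw [← ENNReal.rpow_inv_natCast_pow hN.ne' (volume _), ← one_div]
      gcongr
      rw [ENNReal.le_div_iff_mul_le (Or.inl c0) (Or.inl ENNReal.ofReal_ne_top), mul_comm]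
      refine le_trans ?_ r
      unfold J
      gcongr
      exact le_trans (by gcongr) (coer p R0 hR y1))) (hyperfilter ℕ)
  have key : J Ω L ≤ sInf (J Ω '' S) := by
    have : Tendsto (fun η : ℝ => ENNReal.ofReal ((1 + η) * (1 + η) ^ 3) * sInf (J Ω '' S))
        (𝓝[>] 0) (𝓝 (ENNReal.ofReal ((1 + 0) * (1 + 0) ^ 3) * sInf (J Ω '' S))) :=
      ENNReal.Tendsto.mul_const ((ENNReal.continuous_ofReal.comp (by fun_prop)).continuousAt.mono_left
        nhdsWithin_le_nhds) (Or.inl (by simp))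
    refine (ge_of_tendsto this (eventually_mem_nhdsWithin.mono fun η (η0 : 0 < η) =>
      ge_of_tendsto (ENNReal.Tendsto.const_mul (u1.mono_left Nat.hyperfilter_le_atTop)
        (Or.inr ENNReal.ofReal_ne_top)) ((f η η0).mono fun n g => ?_))).trans_eq (by simp)
    rw [← e n]
    exact J_le hN (by positivity) (by positivity) g.1 g.2 Ω
  refine ⟨L, hL, fun M hM => key.trans ?_⟩
  obtain ⟨M', p⟩ := scale hN Ω hM
  obtain ⟨L', q⟩ := scale hN Ω a
  rcases le_total (J Ω M') (J Ω L0) with c | c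
  · exact (sInf_le (mem_image_of_mem _ (show M' ∈ S from ⟨p.1, p.2.1, p.2.2.1, c⟩))).trans p.2.2.2
  · exact (sInf_le (mem_image_of_mem _ (show L' ∈ S from q))).trans (q.2.2.2.trans (c.trans p.2.2.2))

end Pool.Agent.H10.Cheeg
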