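import Pool.Agent.H10.CkDefs

open scoped ComplexOrder
open Matrix

namespace Pool.Agent.H10.Ck

theorem psd_of_fin {ι : Type*} {M : Matrix ι ι ℂ}
    (h : ∀ F : Finset ι, (M.submatrix ((↑) : F → ι) ((↑) : F → ι)).PosSemidef) :
    M.PosSemidef := by
  classical
  refine ⟨?_, fun x => ?_⟩
  · ext i j
    have := (h {i, j}).1.apply ⟨i, by simp⟩ ⟨j, by simp⟩
    simpa [conjTranspose_apply] using this
  · have hAB := h x.support
    simpa [Finsupp.sum, ← Finset.sum_attach x.support, ← Finset.subtype_mem_eq_attach,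
      ← Finsupp.subtypeDomain_apply, ← Finsupp.support_subtypeDomain] using hAB.2 _

theorem dyad_psd {ι : Type*} (d : ι → ℂ) :
    (Matrix.of fun p q => d p * star (d q) : Matrix ι ι ℂ).PosSemidef := by
  refine psd_of_fin fun F => ?_
  exact posSemidef_vecMulVec_self_star (fun i : F => d i)

theorem scale {ι : Type*} {M : Matrix ι ι ℂ} (hM : M.PosSemidef) (d : ι → ℂ) :
    (Matrix.of fun p q => d p * star (d q) * M p q : Matrix ι ι ℂ).PosSemidef := by
  exact (dyad_psd d).hadamard hM

/-- Two by two facts. -/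
theorem two_psd {ι : Type*} {M : Matrix ι ι ℂ} (hM : M.PosSemidef) (x y : ι) :
    (!![M x x, M x y; M y x, M y y] : Matrix (Fin 2) (Fin 2) ℂ).PosSemidef := by
  have := hM.submatrix ![x, y]
  convert this using 1
  ext i j; fin_cases i <;> fin_cases j <;> simp

theorem zero_row {ι : Type*} {M : Matrix ι ι ℂ} (hM : M.PosSemidef) {x : ι} (h0 : M x x = 0)
    (y : ι) : M y x = 0 := by
  have h := ((two_psd hM x y).dotProduct_mulVec_zero_iff ![1, 0]).1 (by
    simp [dotProduct, mulVec, Fin.sum_univ_two, h0])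
  have := congrFun h 1
  simpa [mulVec, dotProduct, Fin.sum_univ_two] using this

theorem zero_col {ι : Type*} {M : Matrix ι ι ℂ} (hM : M.PosSemidef) {x : ι} (h0 : M x x = 0)
    (y : ι) : M x y = 0 := by
  have := hM.1.apply x y
  rw [zero_row hM h0 y] at this
  simpa using this.symm

theorem const_of {a b c d : ℂ}
    (h1 : (!![a, b; c, d] : Matrix (Fin 2) (Fin 2) ℂ).PosSemidef)
    (h2 : (!![1 - a, 1 - b; 1 - c, 1 - d] : Matrix (Fin 2) (Fin 2) ℂ).PosSemidef) :
    b = a ∧ d = a := by
  have e1 := h1.dotProduct_mulVec_nonneg ![1, -1]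
  have e2 := h2.dotProduct_mulVec_nonneg ![1, -1]
  have z : star (![1, -1] : Fin 2 → ℂ) ⬝ᵥ (!![a, b; c, d] *ᵥ ![1, -1]) = 0 := by
    refine le_antisymm ?_ e1
    have : star (![1, -1] : Fin 2 → ℂ) ⬝ᵥ (!![1 - a, 1 - b; 1 - c, 1 - d] *ᵥ ![1, -1])
        = - (star (![1, -1] : Fin 2 → ℂ) ⬝ᵥ (!![a, b; c, d] *ᵥ ![1, -1])) := by
      simp [dotProduct, mulVec, Fin.sum_univ_two]; ring
    rw [this] at e2
    exact neg_nonneg.1 e2
  have h := (h1.dotProduct_mulVec_zero_iff _).1 z
  have r0 := congrFun h 0
  have r1 := congrFun h 1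
  simp [mulVec, dotProduct, Fin.sum_univ_two] at r0 r1
  have hb : b = a := by linear_combination -r0
  have ha : star a = a := by simpa using h1.1.apply 0 0
  have hc : star b = c := by simpa using h1.1.apply 1 0
  refine ⟨hb, ?_⟩
  rw [hb, ha] at hc
  linear_combination -r1 - hc

theorem pick_const {X : Type*} {n : ℕ} {k : X → X → ℂ} (hk : IsKernel k)
    {W : Matrix (Fin n) (Fin n) ℂ} (hW : (1 - W * Wᴴ).PosSemidef) :
    (pick (fun _ : X => W) k).PosSemidef := by
  have a := hW.submatrix (Prod.snd : X × Fin n → Fin n)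
  have b := PosSemidef.submatrix hk (Prod.fst : X × Fin n → X)
  exact a.hadamard b

theorem pick_zero {X : Type*} {n : ℕ} {k : X → X → ℂ} (hk : IsKernel k) :
    (pick (fun _ : X => (0 : Matrix (Fin n) (Fin n) ℂ)) k).PosSemidef :=
  pick_const hk (by simpa using PosSemidef.one)

/-- Changing a multiplier at points where the kernel vanishes. -/
theorem pick_congr {X : Type*} {n : ℕ} {k : X → X → ℂ} (hk : IsKernel k)
    {Φ Ψ : X → Matrix (Fin n) (Fin n) ℂ} (h : ∀ x, k x x ≠ 0 → Φ x = Ψ x) :
    pick Φ k = pick Ψ k := by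
  ext p q
  simp only [pick, of_apply]
  by_cases h1 : k p.1 p.1 = 0
  · have : k p.1 q.1 = 0 := zero_col hk h1 q.1
    simp [this]
  by_cases h2 : k q.1 q.1 = 0
  · have : k p.1 q.1 = 0 := zero_row hk h2 p.1
    simp [this]
  rw [h _ h1, h _ h2]

/-- Every kernel on a set with at most two points is CP. -/
theorem cp_two {X : Type*} {k : X → X → ℂ} (hk : IsKernel k) (u v : X)
    (huv : ∀ z, z = u ∨ z = v) : IsCP k := by
  classical
  refine ⟨hk, fun n _ N x hx W hW => ?_⟩
  by_cases hs : Function.Surjective x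
  · refine ⟨fun z => W (Function.surjInv hs z), ?_, fun i => ?_⟩
    · have := hW.submatrix (fun p : X × Fin n => (Function.surjInv hs p.1, p.2))
      unfold IsContractiveMultiplier
      convert this using 1
      ext p q
      simp [pick, Function.surjInv_eq]
    · exact congrArg W (hx (Function.surjInv_eq hs _))
  · have hone : ∀ i j : Fin N, i = j := by
      intro i j
      by_contra hij
      have hne : x i ≠ x j := fun e => hij (hx e)
      apply hs
      intro z
      rcases huv z with rfl | rfl <;> rcases huv (x i) with a | a <;>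
        rcases huv (x j) with b | b <;>
        first
        | exact ⟨i, a⟩
        | exact ⟨j, b⟩
        | exact absurd (a.trans b.symm) hne
    rcases Nat.eq_zero_or_pos N with rfl | hN
    · exact ⟨fun _ => 0, pick_zero hk, fun i => i.elim0⟩
    let i0 : Fin N := ⟨0, hN⟩
    by_cases h0 : k (x i0) (x i0) = 0
    · refine ⟨fun z => if z = x i0 then W i0 else 0, ?_, fun i => ?_⟩
      · unfold IsContractiveMultiplier
        rw [pick_congr hk (Ψ := fun _ => 0)]
        · exact pick_zero hk
        · intro z hz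
          rw [if_neg]
          rintro rfl
          exact hz h0
      · rw [hone i i0]; simp
    · refine ⟨fun _ => W i0, pick_const hk ?_, fun i => by rw [hone i i0]⟩
      have a := hW.submatrix (fun a : Fin n => (i0, a))
      have hp : 0 ≤ k (x i0) (x i0) := PosSemidef.diag_nonneg hk
      have b := a.smul (a := (k (x i0) (x i0))⁻¹) (inv_nonneg.2 hp)
      convert b using 1
      ext p q
      simp only [pick, Matrix.smul_apply, submatrix_apply, of_apply, smul_eq_mul]
      field_simp

/-- A kernel equal to a CP kernel up to a dyad is CP. -/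
theorem cp_dyad {X : Type*} {k s : X → X → ℂ} (hs : IsCP s) (δ : X → ℂ)
    (hk : ∀ x y, k x y = δ x * star (δ y) * s x y) : IsCP k := by
  classical
  have hK : IsKernel k := by
    have := scale hs.1 δ
    unfold IsKernel
    convert this using 1
    ext p q; simp [hk]
  refine ⟨hK, fun n hn N x hx W hW => ?_⟩
  let F : Finset (Fin N) := Finset.univ.filter fun i => δ (x i) ≠ 0
  let e : Fin F.card → Fin N := fun j => (F.orderEmbOfFin rfl j)
  have he : Function.Injective e := (F.orderEmbOfFin rfl).injective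
  have heF : ∀ j, δ (x (e j)) ≠ 0 := fun j =>
    (Finset.mem_filter.1 (F.orderEmbOfFin_mem rfl j)).2
  have hsur : ∀ i, δ (x i) ≠ 0 → ∃ j, e j = i := by
    intro i hi
    have : i ∈ Set.range (F.orderEmbOfFin rfl) := by
      rw [Finset.range_orderEmbOfFin]; simp [F, hi]
    exact this
  obtain ⟨Φ, hΦ, hΦx⟩ := hs.2 n hn F.card (x ∘ e) (hx.comp he) (W ∘ e) (by
    have a := hW.submatrix (fun p : Fin F.card × Fin n => (e p.1, p.2))
    have b := scale a (fun p => (δ (x (e p.1)))⁻¹)
    convert b using 1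
    ext p q
    have h1 := heF p.1
    have h2 : star (δ (x (e q.1))) ≠ 0 := star_ne_zero.2 (heF q.1)
    simp only [pick, of_apply, submatrix_apply, Function.comp, hk, star_inv₀]
    field_simp)
  refine ⟨fun z => if h : ∃ i, x i = z then W h.choose else Φ z, ?_, fun i => ?_⟩
  · unfold IsContractiveMultiplier
    rw [pick_congr hK (Ψ := Φ)]
    · have b := scale hΦ (fun p => δ p.1)
      convert b using 1
      ext p q
      simp only [pick, of_apply, hk]
      ring
    · intro z hz
      split_ifs with h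
      · have hz' : δ (x h.choose) ≠ 0 := by
          rw [h.choose_spec]
          intro h0
          apply hz
          rw [hk, h0]; simp
        obtain ⟨j, hj⟩ := hsur _ hz'
        have := hΦx j
        simp only [Function.comp, hj] at this
        rw [← this, h.choose_spec]
      · rfl
  · have h : ∃ j, x j = x i := ⟨i, rfl⟩
    simp only [dif_pos h]
    rw [hx h.choose_spec]

theorem main {X : Type*} {k s : X → X → ℂ} (hk : IsKernel k) (hc : IsCertificate k s)
    (hmin : ∀ A : Set X, A.Nonempty → IsMinCertificate (res k A) (res s A)) :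
    IsCP k ∧ ∃ δ : X → ℂ, ∀ x y, k x y = δ x * star (δ y) * s x y := by
  obtain ⟨hs, h, hh, hkh⟩ := hc
  have key : ∀ x y, s x y ≠ 0 → h x y = h x x ∧ h y y = h x x := by
    intro x y hxy
    have hx : s x x ≠ 0 := fun h0 => hxy (zero_col hs.1 h0 y)
    have hy : s y y ≠ 0 := fun h0 => hxy (zero_row hs.1 h0 x)
    have hyx : s y x ≠ 0 := fun h0 => hxy (by
      have := hs.1.1.apply x y
      simp only [of_apply, h0, star_zero] at this
      exact this.symm)
    let A : Set X := {x, y}
    let u : A := ⟨x, by simp [A]⟩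
    let v : A := ⟨y, by simp [A]⟩
    have hkA : IsKernel (res k A) := PosSemidef.submatrix hk ((↑) : A → X)
    have hcp : IsCP (res k A) := cp_two hkA u v (by
      rintro ⟨z, rfl | rfl⟩
      · exact Or.inl rfl
      · exact Or.inr rfl)
    obtain ⟨g, hg, hgs⟩ := (hmin A ⟨x, by simp [A]⟩).2 (res k A)
      ⟨hcp, fun _ _ => 0, PosSemidef.zero, by simp⟩
    have q : ∀ a b : A, s a b ≠ 0 → g a b = 1 - h a b := by
      intro a b hab
      rw [hgs a b hab]
      simp only [res, hkh]
      field_simp
    have t := two_psd hg u v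
    simp only [of_apply] at t
    rw [q u u hx, q u v hxy, q v u hyx, q v v hy] at t
    exact const_of (two_psd hh x y) t
  have hd : ∃ δ : X → ℂ, ∀ x y, k x y = δ x * star (δ y) * s x y := by
    refine ⟨fun x => (Real.sqrt (1 - h x x).re : ℂ), fun x y => ?_⟩
    by_cases hxy : s x y = 0
    · rw [hkh, hxy]; simp
    obtain ⟨e1, e2⟩ := key x y hxy
    have hx : s x x ≠ 0 := fun h0 => hxy (zero_col hs.1 h0 y)
    have p1 : 0 ≤ k x x := PosSemidef.diag_nonneg hk
    have p2 : 0 ≤ s x x := PosSemidef.diag_nonneg hs.1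
    have p3 : 0 ≤ 1 - h x x := by
      have : 1 - h x x = k x x * (s x x)⁻¹ := by rw [hkh]; field_simp
      rw [this]
      exact mul_nonneg p1 (inv_nonneg.2 p2)
    obtain ⟨r1, r2⟩ := Complex.nonneg_iff.1 p3
    rw [hkh, e1]
    simp only [e2]
    congr 1
    rw [Complex.star_def, Complex.conj_ofReal, ← Complex.ofReal_mul, Real.mul_self_sqrt r1]
    apply Complex.ext
    · simp
    · rw [Complex.ofReal_im]; exact r2.symm
  obtain ⟨δ, hδ⟩ := hd
  exact ⟨cp_dyad hs δ hδ, δ, hδ⟩

end Pool.Agent.H10.Ck
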