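import Mathlib

/-! Kernels, the complete Pick property and minimum certificates. -/

open scoped ComplexOrder
open Matrix

namespace Pool.Agent.H10.Ck

/-- A kernel: a positive semidefinite function on `X × X`. -/
def IsKernel {X : Type*} (k : X → X → ℂ) : Prop := (Matrix.of k).PosSemidef

/-- The block kernel `[(I - W x (W y)ᴴ) s(x,y)]`. -/
def pick {ι : Type*} {n : ℕ} (W : ι → Matrix (Fin n) (Fin n) ℂ) (s : ι → ι → ℂ) :
    Matrix (ι × Fin n) (ι × Fin n) ℂ :=
  Matrix.of fun p q => (1 - W p.1 * (W q.1)ᴴ) p.2 q.2 * s p.1 q.1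

/-- `Φ` is a multiplier of `H(s) ⊗ ℂⁿ` of norm at most one (kernel form). -/
def IsContractiveMultiplier {X : Type*} {n : ℕ} (s : X → X → ℂ)
    (Φ : X → Matrix (Fin n) (Fin n) ℂ) : Prop := (pick Φ s).PosSemidef

/-- A kernel with the complete Pick property. -/
def IsCP {X : Type*} (s : X → X → ℂ) : Prop :=
  IsKernel s ∧ ∀ n : ℕ, 1 ≤ n → ∀ (N : ℕ) (x : Fin N → X), Function.Injective x →
    ∀ W : Fin N → Matrix (Fin n) (Fin n) ℂ,
      (pick W fun i j => s (x i) (x j)).PosSemidef →
        ∃ Φ : X → Matrix (Fin n) (Fin n) ℂ, IsContractiveMultiplier s Φ ∧ ∀ i, Φ (x i) = W i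

/-- `s` is a CP kernel with `k = (1 - h) s` for some kernel `h`. -/
def IsCertificate {X : Type*} (k s : X → X → ℂ) : Prop :=
  IsCP s ∧ ∃ h : X → X → ℂ, IsKernel h ∧ ∀ x y, k x y = (1 - h x y) * s x y

/-- `s` is a minimum certificate for `k`: a certificate such that for every certificate `t`
the quotient `t / s` is a kernel (it agrees, wherever `s ≠ 0`, with some kernel `g`). -/
def IsMinCertificate {X : Type*} (k s : X → X → ℂ) : Prop :=
  IsCertificate k s ∧ ∀ t : X → X → ℂ, IsCertificate k t →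
    ∃ g : X → X → ℂ, IsKernel g ∧ ∀ x y, s x y ≠ 0 → g x y = t x y / s x y

/-- Restriction of a function on `X × X` to `A × A`. -/
def res {X : Type*} (k : X → X → ℂ) (A : Set X) : A → A → ℂ := fun a b => k a b

end Pool.Agent.H10.Ck
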