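import Mathlib

set_option autoImplicit false

namespace Pool.Agent.H10.Corn
open Matrix Set Filter Topology
open scoped ComplexOrder

variable {n : ℕ}

lemma herm {A : Matrix (Fin n) (Fin n) ℂ} (h : A.IsHermitian) (x y : Fin n → ℂ) :
    star (A *ᵥ x) ⬝ᵥ y = star x ⬝ᵥ A *ᵥ y := by
  rw [star_mulVec, h.eq, dotProduct_mulVec]

lemma red {A : Matrix (Fin n) (Fin n) ℂ} (h : A.PosSemidef) (g : Fin n → ℂ) :
    (A - (star g ⬝ᵥ A *ᵥ g)⁻¹ • vecMulVec (A *ᵥ g) (star (A *ᵥ g))).PosSemidef := by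
  by_cases c0 : star g ⬝ᵥ A *ᵥ g = 0
  · simpa [c0]
  have c1 : star (star g ⬝ᵥ A *ᵥ g) = star g ⬝ᵥ A *ᵥ g :=
    (IsSelfAdjoint.of_nonneg (h.dotProduct_mulVec_nonneg g)).star_eq
  convert h.conjTranspose_mul_mul_same (1 - (star g ⬝ᵥ A *ᵥ g)⁻¹ • vecMulVec g (star (A *ᵥ g)))
    using 1
  have e : star g ᵥ* A = star (A *ᵥ g) := by rw [star_mulVec, h.1.eq]
  simp only [conjTranspose_sub, conjTranspose_one, conjTranspose_smul, conjTranspose_vecMulVec,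
    star_star, star_inv₀, c1, Matrix.sub_mul, Matrix.mul_sub, Matrix.one_mul, Matrix.mul_one,
    Matrix.smul_mul, Matrix.mul_smul, vecMulVec_mul, mul_vecMulVec, e, sub_mulVec,
    smul_mulVec, vecMulVec_mulVec, herm h.1, op_smul_eq_smul]
  ext i j
  simp only [Matrix.sub_apply, Matrix.smul_apply, vecMulVec_apply, Pi.smul_apply, Pi.sub_apply,
    smul_eq_mul]
  field_simp
  ring

theorem tang {C : Set (Matrix (Fin n) (Fin n) ℂ)} (h1 : Convex ℝ C) (h2 : ∀ A ∈ C, A.PosSemidef)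
    (h3 : ∀ A ∈ C, ∀ B, B.PosSemidef → (A - B).PosSemidef → B ∈ C) {X : Matrix (Fin n) (Fin n) ℂ}
    (hX : X ∈ C) (X0 : X ≠ 0) {T : Set (Matrix (Fin n) (Fin n) ℂ)}
    (hT : T = closure {D | ∃ s : ℝ, 0 < s ∧ X + s • D ∈ C}) (pt : ∀ E ∈ T, -E ∈ T → E = 0) :
    (∀ D ∈ T, ∀ E ∈ T, D + E ∈ T) ∧ (∀ D ∈ T, ∀ t : ℝ, 0 < t → t • D ∈ T) ∧
      ∀ W ∈ T, W.PosSemidef → W = 0 := by
  have cl : IsClosed T := hT ▸ isClosed_closure
  have sub : ∀ D (s : ℝ), 0 < s → X + s • D ∈ C → D ∈ T := fun D s a b =>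
    hT ▸ subset_closure ⟨s, a, b⟩
  have ad : ∀ D ∈ T, ∀ E ∈ T, D + E ∈ T := fun D a E b => by
    rw [hT] at *
    refine map_mem_closure₂ continuous_add a b fun D ⟨s, c, d⟩ E ⟨t, e, f⟩ =>
      ⟨s * t / (s + t), by positivity, ?_⟩
    convert h1 d f (by positivity : 0 ≤ t / (s + t)) (by positivity : 0 ≤ s / (s + t))
      (by field_simp; ring) using 1
    match_scalars <;> field_simp
    ring
  have sm : ∀ D ∈ T, ∀ t : ℝ, 0 < t → t • D ∈ T := fun D a t b => by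
    rw [hT] at *
    exact map_mem_closure (continuous_const_smul t) a fun D ⟨s, c, d⟩ =>
      ⟨s / t, by positivity, by rwa [smul_smul, div_mul_cancel₀ _ b.ne']⟩
  have rd : ∀ A ∈ C, ∀ g, A - (star g ⬝ᵥ A *ᵥ g)⁻¹ • vecMulVec (A *ᵥ g) (star (A *ᵥ g)) ∈ C :=
    fun A a g => h3 A a _ (red (h2 A a) g) (by
      simpa using (posSemidef_vecMulVec_self_star (A *ᵥ g)).smul
        (inv_nonneg.2 ((h2 A a).dotProduct_mulVec_nonneg g)))
  have key : ∀ W ∈ T, ∀ y h, X *ᵥ y = 0 → star y ⬝ᵥ W *ᵥ y ≠ 0 → W - (star y ⬝ᵥ W *ᵥ y)⁻¹ •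
      vecMulVec (W *ᵥ y + X *ᵥ h) (star (W *ᵥ y + X *ᵥ h)) ∈ T := fun W a y h b c => by
    have yh : star y ⬝ᵥ X *ᵥ h = 0 := by rw [← herm (h2 X hX).1, b]; simp
    let Ψ := fun (s : ℝ) (D : Matrix (Fin n) (Fin n) ℂ) =>
      D - (star (y + s • h) ⬝ᵥ (D *ᵥ y + X *ᵥ h + s • D *ᵥ h))⁻¹ • vecMulVec
        (D *ᵥ y + X *ᵥ h + s • D *ᵥ h) (star (D *ᵥ y + X *ᵥ h + s • D *ᵥ h))
    suffices Ψ 0 W ∈ T by simpa [Ψ, yh] using this
    refine cl.mem_of_frequently_of_tendsto (((mem_closure_iff_frequently.1 (hT ▸ a)).and_eventually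
      ((by fun_prop : Continuous fun D : Matrix (Fin n) (Fin n) ℂ =>
        star y ⬝ᵥ D *ᵥ y).continuousAt.eventually_ne c)).mono fun D f => ?_)
      (ContinuousAt.tendsto (f := Ψ 0) (by fun_prop (disch := simpa [yh])))
    obtain ⟨⟨s, d, e⟩, f⟩ := f
    refine cl.mem_of_tendsto (tendsto_nhdsWithin_of_tendsto_nhds (s := Ioi 0) (ContinuousAt.tendsto
      (f := fun s => Ψ s D) (by fun_prop (disch := simpa [yh])))) ?_
    filter_upwards [Ioo_mem_nhdsGT d] with t r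
    have m : X + t • D ∈ C := by
      convert h1.add_smul_mem hX e (t := t / s) ⟨(div_pos r.1 d).le, (div_le_one d).2 r.2.le⟩ using 2
      rw [smul_smul, div_mul_cancel₀ _ d.ne']
    refine sub _ t r.1 ?_
    convert rd _ m (y + t • h) using 1
    rw [show (X + t • D) *ᵥ (y + t • h) = t • (D *ᵥ y + X *ᵥ h + t • D *ᵥ h) by
      simp only [add_mulVec, mulVec_add, smul_mulVec, mulVec_smul, b]; module]
    have : (t : ℂ) ≠ 0 := by exact_mod_cast r.1.ne'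
    ext i j
    simp only [Ψ, Matrix.sub_apply, Matrix.add_apply, Matrix.smul_apply, vecMulVec_apply, Pi.smul_apply, smul_eq_mul,
      dotProduct_smul, star_smul, star_trivial, Complex.real_smul, mul_inv]
    field_simp
    ring
  refine ⟨ad, sm, ?_⟩
  by_contra! ne
  obtain ⟨W, ⟨w1, w2, w0⟩, mn⟩ := exists_minimalFor_of_wellFoundedLT
    (fun W => W ∈ T ∧ W.PosSemidef ∧ W ≠ 0)
    (fun W => n - Module.finrank ℂ (LinearMap.ker W.mulVecLin)) ne
  have one : ∀ y, W *ᵥ y ≠ 0 → W - (star y ⬝ᵥ W *ᵥ y)⁻¹ • vecMulVec (W *ᵥ y) (star (W *ᵥ y)) ∈ T →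
      W = (star y ⬝ᵥ W *ᵥ y)⁻¹ • vecMulVec (W *ᵥ y) (star (W *ᵥ y)) := fun y a b => by
    refine sub_eq_zero.1 (by_contra fun c => (fun r => (mn ⟨b, red w2 y, c⟩ r.le).not_gt r) ?_)
    suffices LinearMap.ker W.mulVecLin < LinearMap.ker (W - (star y ⬝ᵥ W *ᵥ y)⁻¹ •
        vecMulVec (W *ᵥ y) (star (W *ᵥ y))).mulVecLin from Nat.sub_lt_sub_left
      ((Submodule.finrank_lt_finrank_of_lt this).trans_le ((Submodule.finrank_le _).trans (by simp)))
      (Submodule.finrank_lt_finrank_of_lt this)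
    have := mt (w2.dotProduct_mulVec_zero_iff y).1 a
    refine SetLike.lt_iff_le_and_exists.2 ⟨fun x r => ?_, y, ?_, a⟩
    · replace r : W *ᵥ x = 0 := r
      simp [vecMulVec_mulVec, herm w2.1, r]
    · simp [vecMulVec_mulVec, herm w2.1, smul_smul, this]
  by_cases c : ∃ y, X *ᵥ y = 0 ∧ W *ᵥ y ≠ 0
  · obtain ⟨y, a, b⟩ := c
    have c := mt (w2.dotProduct_mulVec_zero_iff y).1 b
    have e := one y b (by simpa using key W w1 y 0 a c)
    have E1 : ∀ h, -((star y ⬝ᵥ W *ᵥ y)⁻¹ • (vecMulVec (W *ᵥ y) (star (X *ᵥ h)) +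
        vecMulVec (X *ᵥ h) (star (W *ᵥ y)))) ∈ T := fun h => by
      refine cl.mem_of_tendsto (tendsto_nhdsWithin_of_tendsto_nhds (s := Ioi 0) (Continuous.tendsto'
        (f := fun t : ℝ => -((star y ⬝ᵥ W *ᵥ y)⁻¹ • (vecMulVec (W *ᵥ y) (star (X *ᵥ h)) +
          vecMulVec (X *ᵥ h) (star (W *ᵥ y)) + t • vecMulVec (X *ᵥ h) (star (X *ᵥ h)))))
        (by fun_prop) 0 _ (by simp))) (eventually_mem_nhdsWithin.mono fun t r => ?_)
      convert sm _ (key W w1 y (t • h) a c) _ (inv_pos.2 r) using 1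
      have : (t : ℂ) ≠ 0 := by exact_mod_cast ne_of_gt r
      ext i j
      have := congrFun (congrFun e i) j
      simp only [Matrix.sub_apply, Matrix.add_apply, Matrix.smul_apply, Matrix.neg_apply,
        vecMulVec_apply, Pi.smul_apply, smul_eq_mul, mulVec_smul, star_add, Pi.add_apply,
        star_smul, star_trivial, Complex.real_smul, Complex.ofReal_inv] at this ⊢
      rw [this]
      field_simp
      ring
    have E2 := fun h => (smul_eq_zero.1 (neg_eq_zero.1 (pt _ (E1 h) (by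
      convert E1 (-h) using 1
      simp [mulVec_neg, neg_add_rev, add_comm])))).resolve_left (inv_ne_zero c)
    obtain ⟨i, d⟩ := Function.ne_iff.1 b
    refine X0 (ext_iff_mulVec.2 fun h => funext fun j => ?_)
    have p := congrFun (congrFun (E2 h) j) i
    have q := congrFun (congrFun (E2 (Complex.I • h)) j) i
    simp [vecMulVec_apply, mulVec_smul] at p q
    have : (X *ᵥ h) j * (starRingEnd ℂ) ((W *ᵥ y) i) = 0 := by
      linear_combination p / 2 - Complex.I / 2 * q + ((X *ᵥ h) j * (starRingEnd ℂ) ((W *ᵥ y) i) -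
        (W *ᵥ y) j * (starRingEnd ℂ) ((X *ᵥ h) i)) / 2 * Complex.I_mul_I
    simpa [show (W *ᵥ y) i ≠ 0 from d] using this
  push Not at c
  obtain ⟨y, b⟩ : ∃ y, W *ᵥ y ≠ 0 := by
    by_contra! r
    exact w0 (ext_iff_mulVec.2 fun h => by simp [r])
  obtain ⟨h, e⟩ : W *ᵥ y ∈ LinearMap.range X.mulVecLin := by
    by_contra r
    obtain ⟨f, f1, f2⟩ := Submodule.exists_dual_map_eq_bot_of_notMem r inferInstance
    obtain ⟨z, rfl⟩ := (dotProductEquiv ℂ (Fin n)).surjective f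
    refine f1 (?_ : z ⬝ᵥ _ = 0)
    rw [← star_star z, ← herm w2.1, c, star_zero, zero_dotProduct]
    rw [← dotProduct_star_self_eq_zero, herm (h2 X hX).1, star_star,
      ← Submodule.mem_bot ℂ, ← f2]
    exact Submodule.mem_map_of_mem (f := dotProductEquiv ℂ (Fin n) z) ⟨_, rfl⟩
  replace e : X *ᵥ h = W *ᵥ y := e
  have c1 := (w2.dotProduct_mulVec_nonneg y).lt_of_ne' (mt (w2.dotProduct_mulVec_zero_iff y).1 b)
  have c2 := ((h2 X hX).dotProduct_mulVec_nonneg h).lt_of_ne'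
    (mt ((h2 X hX).dotProduct_mulVec_zero_iff h).1 (e ▸ b))
  have m : -((star y ⬝ᵥ W *ᵥ y)⁻¹ • vecMulVec (W *ᵥ y) (star (W *ᵥ y))) ∈ T := by
    have := sm _ (sub (-((star h ⬝ᵥ X *ᵥ h)⁻¹ • vecMulVec (W *ᵥ y) (star (W *ᵥ y)))) 1 one_pos
      (by simpa [e, sub_eq_add_neg] using rd X hX h)) _ (Complex.pos_iff.1 (div_pos c2 c1)).1
    convert this using 1
    rw [← Complex.coe_smul, ← Complex.eq_re_of_ofReal_le (r := 0) (div_pos c2 c1).le, smul_neg,
      smul_smul, div_mul_eq_mul_div, mul_inv_cancel₀ c2.ne', one_div]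
  exact w0 (pt W w1 (one y b (sub_eq_add_neg W _ ▸ ad _ w1 _ m) ▸ m))

end Pool.Agent.H10.Corn
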