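import Mathlib

set_option autoImplicit false

namespace Pool.Agent.H10.Corn
open scoped ComplexOrder

/-- Hermitian matrices -/
abbrev H (n : ℕ) := selfAdjoint (Matrix (Fin n) (Fin n) ℂ)

variable {n : ℕ}

/-- the trace pairing -/
noncomputable def ip (X Y : H n) : ℝ := (X.1 * Y.1).trace.re

/-- convex corners -/
def Corner (C : Set (H n)) : Prop :=
  C.Nonempty ∧ IsClosed C ∧ Convex ℝ C ∧ (∀ A ∈ C, A.1.PosSemidef) ∧
    ∀ A ∈ C, ∀ B : H n, B.1.PosSemidef → (A.1 - B.1).PosSemidef → B ∈ C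

/-- the anti-blocker -/
def anti (C : Set (H n)) : Set (H n) := {Z | Z.1.PosSemidef ∧ ∀ X ∈ C, ip X Z ≤ 1}

/-- a boundary point at which the supporting hyperplanes meet only in that point -/
def Vertex (C : Set (H n)) (X : H n) : Prop :=
  X ∈ frontier C ∧
    {W | ∀ (Y : H n) (α : ℝ), (∀ A ∈ C, ip A Y ≤ α) → ip X Y = α → ip W Y = α} = {X}

/-- a face cut out by one supporting hyperplane, inside the boundary, of dimension `n ^ 2 - 1` -/
def Facet (C F : Set (H n)) : Prop :=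
  (∃ (Y : H n) (α : ℝ), (∀ A ∈ C, ip A Y ≤ α) ∧ F = {A ∈ C | ip A Y = α}) ∧ F ⊆ frontier C ∧
    F.Nonempty ∧ Module.finrank ℝ (affineSpan ℝ F).direction = n ^ 2 - 1

end Pool.Agent.H10.Corn
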