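import Mathlib
import Pool.Agent.H10.CornA
import Pool.Agent.H10.CornDefs

set_option autoImplicit false

namespace Pool.Agent.H10.Corn
open Matrix Set Filter Topology Module
open scoped ComplexOrder MatrixOrder ComplexStarModule

variable {n : ℕ}

lemma fd : FiniteDimensional ℝ (H n) :=
  inferInstanceAs (FiniteDimensional ℝ (selfAdjoint.submodule ℝ (Matrix (Fin n) (Fin n) ℂ)))

lemma rk : finrank ℝ (H n) = n ^ 2 := by
  have := fd (n := n)
  have := (LinearEquiv.ofBijective ((realPart (A := Matrix (Fin n) (Fin n) ℂ)).prod imaginaryPart)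
    ⟨(injective_iff_map_eq_zero _).2 fun a h => by
      rw [← realPart_add_I_smul_imaginaryPart a, show ℜ a = 0 from congrArg Prod.fst h,
        show ℑ a = 0 from congrArg Prod.snd h]
      simp, fun p => ⟨p.1 + Complex.I • p.2, by simp⟩⟩).finrank_eq
  rw [finrank_prod, finrank_matrix] at this
  simp only [Fintype.card_fin, Complex.finrank_real_complex] at this
  rw [sq]
  unfold H
  omega

/-- the pairing as a bilinear form -/
noncomputable def B : LinearMap.BilinForm ℝ (H n) := LinearMap.mk₂ ℝ ip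
  (fun _ _ _ => by simp [ip, add_mul]) (fun _ _ _ => by simp [ip])
  (fun _ _ _ => by simp [ip, mul_add]) (fun _ _ _ => by simp [ip])

lemma ip_comm (X Y : H n) : ip X Y = ip Y X := by rw [ip, trace_mul_comm, ip]

lemma rep (φ : Dual ℝ (H n)) : ∃ Y, ∀ A, ip A Y = φ A := by
  have := fd (n := n)
  have : ∀ X : H n, ip X X = 0 → X = 0 := fun X h => Subtype.ext (by
    have e : X.1ᴴ = X.1 := X.2
    refine trace_conjTranspose_mul_self_eq_zero_iff.1 ?_
    rw [Complex.eq_re_of_ofReal_le (r := 0) (posSemidef_conjTranspose_mul_self X.1).trace_nonneg, e]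
    exact_mod_cast h)
  exact ⟨(B.toDual ⟨fun X h => this X (h X), fun X h => this X (h X)⟩).symm φ, fun A =>
    (ip_comm _ _).trans (LinearMap.BilinForm.apply_toDual_symm_apply (B := B) φ A)⟩

lemma cpt : IsCompact {Q : Matrix (Fin n) (Fin n) ℂ | Q.PosSemidef ∧ Q.trace = 1} := by
  refine (((isCompact_univ_pi fun _ => isCompact_univ_pi fun _ => isCompact_closedBall (0 : ℂ) 1 :
    IsCompact (X := Matrix (Fin n) (Fin n) ℂ) _).image (f := fun B => Bᴴ * B)
      (by fun_prop))).of_isClosed_subset ?_ fun Q ⟨a, b⟩ => ?_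
  · simp only [posSemidef_iff_dotProduct_mulVec, ofPred_and, ofPred_forall]
    exact ((isClosed_eq (by fun_prop) continuous_id).inter (isClosed_iInter fun x =>
      isClosed_le continuous_const (by fun_prop))).inter (isClosed_eq (by fun_prop) continuous_const)
  obtain ⟨A, rfl⟩ := CStarAlgebra.nonneg_iff_eq_star_mul_self.1 a.nonneg
  refine ⟨A, fun i _ j _ => ?_, rfl⟩
  have : ∑ j, ∑ i, ‖A i j‖ ^ 2 = 1 := by
    simp only [trace, diag, mul_apply, star_apply, Complex.star_def, Complex.conj_mul'] at b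
    exact_mod_cast b
  rw [mem_closedBall_zero_iff, ← sq_le_one_iff₀ (norm_nonneg _), ← this]
  exact (Finset.single_le_sum (f := fun i => ‖A i j‖ ^ 2) (fun _ _ => by positivity)
    (Finset.mem_univ i)).trans (Finset.single_le_sum (f := fun j => ∑ i, ‖A i j‖ ^ 2)
      (fun _ _ => by positivity) (Finset.mem_univ j))

theorem main {C : Set (H n)} (hC : Corner C) {X : H n} (hX : Vertex C X) (X0 : X ≠ 0) :
    Facet (anti C) {Z ∈ anti C | ip X Z = 1} := by
  obtain ⟨-, c1, c2, c3, c4⟩ := hC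
  have := fd (n := n)
  have XC : X ∈ C := c1.frontier_subset hX.1
  have vx : ∀ E : H n, (∀ Y, (∀ A ∈ C, ip A Y ≤ ip X Y) → ip E Y = 0) → E = 0 := fun E h =>
    add_eq_left.1 (hX.2.subset fun Y α a b => by
      rw [show ip (X + E) Y = ip X Y + ip E Y from B.map_add₂ .., h Y (b ▸ a), b, add_zero])
  set T := closure {D | ∃ s : ℝ, 0 < s ∧ X.1 + s • D ∈ Subtype.val '' C} with hT
  have t1 : ∀ Y : H n, (∀ A ∈ C, ip A Y ≤ ip X Y) → ∀ D ∈ T, (D * Y.1).trace.re ≤ 0 :=
    fun Y a => closure_minimal (t := {D : Matrix (Fin n) (Fin n) ℂ | (D * Y.1).trace.re ≤ 0})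
      (fun D ⟨s, b, A, c, d⟩ => by
      have := a A c
      simp only [ip, d, add_mul, smul_mul_assoc, trace_add, trace_smul, Complex.add_re,
        Complex.smul_re, smul_eq_mul, add_le_iff_nonpos_right] at this
      exact nonpos_of_mul_nonpos_right this b) (isClosed_le (by fun_prop) continuous_const)
  have t2 : ∀ D ∈ T, IsSelfAdjoint D := closure_minimal (t := {D | star D = D}) (fun D ⟨s, b, A, c, d⟩ => by
    have : D = s⁻¹ • (A - X).1 := by simp [d, smul_smul, inv_mul_cancel₀ b.ne']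
    exact this ▸ (s⁻¹ • (A - X)).2) (isClosed_eq (by fun_prop) continuous_id)
  obtain ⟨ad, sm, tp⟩ := tang (c2.linear_image (selfAdjoint.submodule ℝ _).subtype)
    (forall_mem_image.2 c3) (forall_mem_image.2 fun A a D b c => ⟨⟨D, b.1⟩, c4 A a _ b c, rfl⟩)
    (mem_image_of_mem _ XC) (fun r => X0 (Subtype.ext r)) hT fun E a b =>
      congrArg Subtype.val (vx ⟨E, t2 E a⟩ fun Y c => (t1 Y c E a).antisymm (by simpa using t1 Y c _ b))
  set S := {Q : Matrix (Fin n) (Fin n) ℂ | Q.PosSemidef ∧ Q.trace = 1}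
  have : LocallyConvexSpace ℝ (Matrix (Fin n) (Fin n) ℂ) :=
    inferInstanceAs (LocallyConvexSpace ℝ (Fin n → Fin n → ℂ))
  obtain ⟨f, u, v, f1, uv, f2⟩ := geometric_hahn_banach_compact_closed (s := S) (t := T)
    (fun P a Q b α β c d e => ⟨(a.1.smul c).add (b.1.smul d), by
      simp only [trace_add, trace_smul, a.2, b.2, ← add_smul, e, one_smul]⟩) cpt
    (convex_iff_forall_pos.2 fun P a Q b α β c d _ => ad _ (sm P a α c) _ (sm Q b β d))
    isClosed_closure (disjoint_left.2 fun Q a b => by simpa [tp Q b a.1] using a.2)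
  have v0 : v < 0 := by simpa using f2 0 (subset_closure ⟨1, one_pos, X, XC, by simp⟩)
  obtain ⟨Y₀, y0⟩ := rep (-(f.toLinearMap ∘ₗ (selfAdjoint.submodule ℝ _).subtype))
  replace y0 : ∀ A : H n, ip A Y₀ = -f A.1 := y0
  have y1 : ∀ A ∈ C, ip A Y₀ ≤ ip X Y₀ := fun A a => by
    by_contra! r
    have := f2 _ (sm _ (subset_closure ⟨1, one_pos, A, a, (add_sub_cancel ..).symm.trans
      (by rw [one_smul])⟩) _ (div_pos (neg_pos.2 v0) (sub_pos.2 r)))
    rw [map_smul, map_sub, show f A.1 - f X.1 = -(ip A Y₀ - ip X Y₀) by rw [y0, y0]; ring,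
      smul_eq_mul, mul_neg, div_mul_cancel₀ _ (sub_pos.2 r).ne'] at this
    linarith
  have pos : ∀ Z : H n, (∀ Q ∈ S, 0 < (Q * Z.1).trace.re) → ∀ Q : Matrix (Fin n) (Fin n) ℂ,
      Q.PosSemidef → Q ≠ 0 → 0 < (Q * Z.1).trace.re := fun Z h Q a b => by
    have c := a.trace_nonneg.lt_of_ne' (mt a.trace_eq_zero_iff.1 b)
    have d := (Complex.pos_iff.1 c).1
    have := h (Q.trace.re⁻¹ • Q) ⟨a.smul (inv_pos.2 d).le, by
      rw [trace_smul, Complex.real_smul, Complex.ofReal_inv,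
        ← Complex.eq_re_of_ofReal_le (r := 0) c.le, inv_mul_cancel₀ c.ne']⟩
    simpa [d] using this
  have mem : ∀ Z : H n, (∀ A ∈ C, ip A Z ≤ ip X Z) → (∀ Q ∈ S, 0 < (Q * Z.1).trace.re) →
      0 < ip X Z ∧ (ip X Z)⁻¹ • Z ∈ {Z ∈ anti C | ip X Z = 1} := fun Z a b => by
    have p : 0 < ip X Z := pos Z b _ (c3 X XC) fun r => X0 (Subtype.ext r)
    have e : ∀ A, ip A ((ip X Z)⁻¹ • Z) = (ip X Z)⁻¹ * ip A Z := fun A => (B A).map_smul ..
    refine ⟨p, ⟨PosSemidef.smul (.of_dotProduct_mulVec_nonneg Z.2 fun x => ?_) (inv_pos.2 p).le,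
      fun A c => ?_⟩, by rw [e, inv_mul_cancel₀ p.ne']⟩
    · by_cases r : x = 0
      · simp [r]
      have := pos Z b _ (posSemidef_vecMulVec_self_star x) (by simpa)
      rw [trace_mul_comm, mul_vecMulVec, trace_vecMulVec, dotProduct_comm] at this
      exact Complex.nonneg_iff.2 ⟨this.le, (IsHermitian.im_star_dotProduct_mulVec_self Z.2 x).symm⟩
    · rw [e, inv_mul_le_iff₀ p, mul_one]
      exact a A c
  have y2 : ∀ Q ∈ S, -u < (Q * Y₀.1).trace.re := fun Q a =>
    (neg_lt_neg (f1 Q a)).trans_eq (y0 ⟨Q, a.1.1⟩).symm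
  have m0 := mem Y₀ y1 fun Q a => lt_trans (by linarith) (y2 Q a)
  have sp : Submodule.span ℝ {Z ∈ anti C | ip X Z = 1} = ⊤ := by
    by_contra r
    obtain ⟨φ, a, b⟩ := Submodule.exists_dual_map_eq_bot_of_lt_top (Ne.lt_top r) inferInstance
    obtain ⟨E, e⟩ := rep φ
    have z : ∀ Z : H n, (0 < ip X Z ∧ (ip X Z)⁻¹ • Z ∈ {Z ∈ anti C | ip X Z = 1}) → φ Z = 0 :=
      fun Z c => by
        simpa [c.1.ne'] using b.le (Submodule.mem_map_of_mem (Submodule.subset_span c.2))
    refine a (LinearMap.ext fun A => ?_)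
    rw [← e, vx E fun Y c => ?_]
    · simp [ip]
    obtain ⟨K, k⟩ := cpt.bddBelow_image (f := fun Q => (Q * Y.1).trace.re) (by fun_prop)
    have t0 : 0 ≤ |K| / -u := div_nonneg (abs_nonneg _) (by linarith)
    have := z _ (mem (Y + (|K| / -u + 1) • Y₀) (fun A d => ?_) fun Q d => ?_)
    · rw [ip_comm, e]
      simpa [z _ m0] using this
    · have e : ∀ A, ip A (Y + (|K| / -u + 1) • Y₀) = ip A Y + (|K| / -u + 1) * ip A Y₀ := fun A =>
        ((B A).map_add ..).trans (congrArg _ ((B A).map_smul ..))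
      rw [e, e]
      exact add_le_add (c A d) (mul_le_mul_of_nonneg_left (y1 A d) (by linarith))
    · have a1 := k (mem_image_of_mem _ d)
      have a2 := y2 Q d
      have a3 : |K| / -u * -u = |K| := div_mul_cancel₀ _ (by linarith)
      simp only [AddSubgroup.coe_add, selfAdjoint.val_smul, mul_add, mul_smul_comm, trace_add,
        trace_smul, Complex.add_re, Complex.smul_re, smul_eq_mul]
      nlinarith [neg_abs_le K]
  refine ⟨⟨X, 1, fun A a => ip_comm X A ▸ a.2 X XC, by simp only [ip_comm X]⟩,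
    fun Z a => ⟨subset_closure a.1, fun r => ?_⟩, ⟨_, m0.2⟩, ?_⟩
  · obtain ⟨t, b, c⟩ := ((eventually_mem_nhdsWithin (a := (1 : ℝ)) (s := Ioi 1)).and
      (eventually_nhdsWithin_of_eventually_nhds (Continuous.tendsto' (f := fun t : ℝ => t • Z)
        ((continuous_id.smul (continuous_const (y := Z.1))).subtype_mk _) 1 Z (one_smul ..) (mem_interior_iff_mem_nhds.1 r)))).exists
    have := c.2 X XC
    rw [show ip X (t • Z) = t * ip X Z from (B X).map_smul .., a.2, mul_one] at this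
    exact this.not_gt b
  rw [direction_affineSpan, show vectorSpan ℝ _ = LinearMap.ker (B X) from le_antisymm
    (Submodule.span_le.2 ?_) fun E a => ?_, ← rk, ← Dual.finrank_ker_add_one_of_ne_zero
      (f := B X) fun r => m0.1.ne' (LinearMap.congr_fun r Y₀), Nat.add_sub_cancel]
  · rintro _ ⟨P, a, Q, b, rfl⟩
    exact ((B X).map_sub P Q).trans (sub_eq_zero.2 (a.2.trans b.2.symm))
  · obtain ⟨p, b, q, c, rfl⟩ := Submodule.mem_sup.1 ((Submodule.span_le (p := vectorSpan ℝ
      {Z ∈ anti C | ip X Z = 1} ⊔ Submodule.span ℝ {(ip X Y₀)⁻¹ • Y₀})).2 (fun Z d =>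
        Submodule.mem_sup.2 ⟨_, vsub_mem_vectorSpan ℝ d m0.2, _, Submodule.mem_span_singleton_self _,
          sub_add_cancel ..⟩) (sp ▸ Submodule.mem_top (x := E)))
    obtain ⟨t, rfl⟩ := Submodule.mem_span_singleton.1 c
    have p0 : B X p = 0 := (Submodule.span_le (p := LinearMap.ker (B X))).2 (by
      rintro _ ⟨P, a, Q, b, rfl⟩
      exact ((B X).map_sub P Q).trans (sub_eq_zero.2 (a.2.trans b.2.symm))) b
    rw [LinearMap.mem_ker, map_add, map_smul, p0, show B X _ = 1 from m0.2.2] at a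
    simpa [show t = 0 by simpa using a] using b

end Pool.Agent.H10.Corn
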