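import Mathlib

set_option autoImplicit false

namespace Pool.Agent.H10.Cov
open MeasureTheory Filter
open scoped ENNReal

variable {Ω : Type*} [MeasurableSpace Ω]

/-- `-log t` for `t` in `[0, 1]`, with `-log 0 = ∞` -/
noncomputable def nlog (t : ℝ≥0∞) : ℝ≥0∞ :=
  if t = 0 then ⊤ else ENNReal.ofReal (-Real.log t.toReal)

/-- the functional `φ_π` -/
noncomputable def phi (π : Measure Ω) (a : Ω → ℝ≥0∞) : ℝ≥0∞ := ∫⁻ x, nlog (a x) ∂π

/-- least number of `l`-dimensional boxes covering measure at least `1 - lam` -/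
noncomputable def N (I : Set (Set Ω)) (π : Measure Ω) (lam : ℝ) (l : ℕ) : ℕ∞ :=
  ⨅ (n : ℕ) (J : Fin n → Fin l → I) (_ : ENNReal.ofReal (1 - lam) ≤
    Measure.pi (fun _ => π) (⋃ k, Set.univ.pi fun i => (J k i : Set Ω))), (n : ℕ∞)

/-- `(1 / l) log N` -/
noncomputable def rate (I : Set (Set Ω)) (π : Measure Ω) (lam : ℝ) (l : ℕ) : ℝ≥0∞ :=
  (if N I π lam l = ⊤ then ⊤ else ENNReal.ofReal (Real.log (N I π lam l).toNat)) / l

/-- upper covering entropy -/
noncomputable def Hup (I : Set (Set Ω)) (π : Measure Ω) (lam : ℝ) : ℝ≥0∞ :=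
  limsup (rate I π lam) atTop

/-- lower covering entropy -/
noncomputable def Hlow (I : Set (Set Ω)) (π : Measure Ω) (lam : ℝ) : ℝ≥0∞ :=
  liminf (rate I π lam) atTop

/-- infimum of `φ_π` over compatible probability measures on the system -/
noncomputable def Hfull (I : Set (Set Ω)) (π : Measure Ω) : ℝ≥0∞ :=
  ⨅ (_ : MeasurableSpace I) (β : Measure I) (_ : IsProbabilityMeasure β)
    (_ : NullMeasurableSet {p : I × Ω | p.2 ∈ (p.1 : Set Ω)} (β.prod π)),
      phi π fun x => β {J | x ∈ (J : Set Ω)}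

/-- infimum of `φ_π` over countable convex combinations -/
noncomputable def Hcnt (I : Set (Set Ω)) (π : Measure Ω) : ℝ≥0∞ :=
  ⨅ (q : ℕ → ℝ≥0∞) (J : ℕ → I) (_ : ∑' k, q k = 1),
    phi π fun x => ∑' k, q k * (J k : Set Ω).indicator 1 x

end Pool.Agent.H10.Cov
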