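import Mathlib
import Pool.Agent.H10.CovDefs

set_option autoImplicit false

namespace Pool.Agent.H10.Cov
open MeasureTheory Filter Set Topology
open scoped ENNReal

variable {Ω : Type*} [MeasurableSpace Ω] (π : Measure Ω) [IsProbabilityMeasure π]

/-- the regularised functional -/
noncomputable def F (τ : ℝ) (A : Ω → ℝ) : ℝ := ∫ x, -Real.log (A x + τ) ∂π

variable {π}

lemma intb {f : Ω → ℝ} (h : Measurable f) (C : ℝ) (b : ∀ x, |f x| ≤ C) : Integrable f π :=
  Integrable.of_bound h.aestronglyMeasurable C (ae_of_all _ b)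

lemma abslog {b τ : ℝ} (h0 : 0 < τ) (h1 : τ ≤ b) (h2 : b ≤ 1 + 1 / τ) : |Real.log b| ≤ 1 / τ := by
  have := Real.log_le_sub_one_of_pos (h0.trans_le h1)
  have := Real.one_sub_inv_le_log_of_pos (h0.trans_le h1)
  have := inv_anti₀ h0 h1
  rw [abs_le, one_div] at *
  constructor <;> linarith

lemma intl {A : Ω → ℝ} (h : Measurable A ∧ ∀ x, A x ∈ Icc (0 : ℝ) 1) {τ : ℝ} (t : τ ∈ Ioc (0 : ℝ) 1) :
    Integrable (fun x => -Real.log (A x + τ)) π :=
  intb (h.1.add_const τ).log.neg (1 / τ) fun x => by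
    have := one_le_one_div t.1 t.2
    rw [abs_neg]
    exact abslog t.1 (by linarith [(h.2 x).1]) (by linarith [(h.2 x).2, t.2])

lemma fatou {a : Ω → ℝ≥0∞} (h : Measurable a) (h1 : ∀ x, a x ≤ 1) {t : ℕ → ℝ} {c : ℝ}
    (t1 : ∀ k, t k ∈ Ioc (0 : ℝ) 1) (t0 : Tendsto t atTop (𝓝 0))
    (hc : ∀ k, F π (t k) (fun x => (a x).toReal) ≤ c) : phi π a ≤ ENNReal.ofReal c := by
  have hA : Measurable (fun x => (a x).toReal) ∧ ∀ x, (a x).toReal ∈ Icc (0 : ℝ) 1 :=
    ⟨h.ennreal_toReal, fun x => ⟨ENNReal.toReal_nonneg, by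
      simpa using ENNReal.toReal_mono ENNReal.one_ne_top (h1 x)⟩⟩
  have := lintegral_liminf_le (μ := π) (u := atTop) (f := fun k x =>
    ENNReal.ofReal (-Real.log ((a x).toReal + t k) + t k))
      fun k => ((hA.1.add_const _).log.neg.add_const _).ennreal_ofReal
  refine (lintegral_mono fun x => (Tendsto.liminf_eq ?_).ge).trans (this.trans ?_)
  · unfold nlog
    split_ifs with r
    · refine ENNReal.tendsto_ofReal_atTop.comp (Tendsto.atTop_add ?_ t0)
      simp only [r, ENNReal.toReal_zero, zero_add]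
      exact tendsto_neg_atBot_atTop.comp (Real.tendsto_log_nhdsGT_zero.comp
        (tendsto_nhdsWithin_iff.2 ⟨t0, .of_forall fun k => (t1 k).1⟩))
    · refine ENNReal.tendsto_ofReal ?_
      simpa using ((t0.const_add (a x).toReal).log (by
        simpa [ENNReal.toReal_eq_zero_iff, r] using ne_top_of_le_ne_top ENNReal.one_ne_top
          (h1 x))).neg.add t0
  · refine le_trans (liminf_le_liminf (.of_forall fun k => ?_))
      (by simpa using (ENNReal.tendsto_ofReal (t0.const_add c)).liminf_eq.le)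
    rw [← ofReal_integral_eq_lintegral_ofReal (f := fun x => -Real.log ((a x).toReal + t k) + t k)
      ((intl hA (t1 k)).add (integrable_const _))
      (ae_of_all _ fun x => ?_), integral_add (intl hA (t1 k)) (integrable_const _)]
    · exact ENNReal.ofReal_le_ofReal (by simpa [F] using hc k)
    · have := Real.log_le_sub_one_of_pos (add_pos_of_nonneg_of_pos (hA.2 x).1 (t1 k).1)
      simp only [Pi.zero_apply]
      linarith [(hA.2 x).2]

lemma glue {W : Set (Ω → ℝ)} (h0 : W.Nonempty) (h1 : ∀ A ∈ W, Measurable A ∧ ∀ x, A x ∈ Icc (0 : ℝ) 1)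
    {h η : ℝ} (e0 : 0 < η) (e1 : η ≤ 1 / 2) (hm : ∀ τ ∈ Ioc (0 : ℝ) 1, sInf (F π τ '' W) ≤ h) :
    ∃ (A : ℕ → Ω → ℝ) (t : ℕ → ℝ), (∀ k, A k ∈ W) ∧ (∀ k, t k ∈ Ioc (0 : ℝ) 1) ∧
      Tendsto t atTop (𝓝 0) ∧ ∀ k, F π (t k)
        (fun x => ∑ j ∈ Finset.range (k + 1), (1 - η) * η ^ j * A j x) ≤ h + 7 * η := by
  have bd : ∀ τ ∈ Ioc (0 : ℝ) 1, BddBelow (F π τ '' W) := fun τ t => ⟨-1, forall_mem_image.2
    fun A a => le_trans (by simp) (integral_mono (integrable_const (-1)) (intl (h1 A a) t) fun x => by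
      have := Real.log_le_sub_one_of_pos (add_pos_of_nonneg_of_pos ((h1 A a).2 x).1 t.1)
      dsimp only
      linarith [((h1 A a).2 x).2, t.2])⟩
  set M := sSup ((fun τ => sInf (F π τ '' W)) '' Ioc 0 1)
  have ne : ((fun τ => sInf (F π τ '' W)) '' Ioc 0 1).Nonempty := ⟨_, 1, by simp, rfl⟩
  have M1 : M ≤ h := csSup_le ne (forall_mem_image.2 hm)
  choose s s0 s1 using fun k : ℕ => exists_lt_of_lt_csSup ne
    (sub_lt_self M (by positivity : 0 < η / 2 ^ k))
  choose σ σ1 σ2 using s0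
  let τ := fun k => η * ∏ j ∈ Finset.range (k + 1), σ j
  have p1 : ∀ k, ∏ j ∈ Finset.range k, σ j ∈ Ioc (0 : ℝ) 1 := fun k =>
    ⟨Finset.prod_pos fun j _ => (σ1 j).1, Finset.prod_le_one (fun j _ => (σ1 j).1.le)
      fun j _ => (σ1 j).2⟩
  have τ1 : ∀ k, τ k ∈ Ioc (0 : ℝ) 1 := fun k =>
    ⟨mul_pos e0 (p1 _).1, mul_le_one₀ (by linarith) (p1 _).1.le (p1 _).2⟩
  have τ2 : ∀ k, τ k ≤ η * σ k := fun k => by
    simp only [τ, Finset.prod_range_succ]
    exact mul_le_mul_of_nonneg_left (mul_le_of_le_one_left (σ1 k).1.le (p1 k).2) e0.le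
  have τ3 : ∀ k, τ (k + 1) ≤ σ k := fun k => by
    have := τ2 k
    have := (τ1 k).1
    have := σ1 k
    have := σ1 (k + 1)
    rw [show τ (k + 1) = τ k * σ (k + 1) by simp only [τ, Finset.prod_range_succ _ (k + 1)]; ring]
    nlinarith [this.1, this.2, (σ1 k).1]
  choose u u0 u1 using fun k : ℕ => exists_lt_of_csInf_lt (h0.image (F π (τ k)))
    (lt_add_of_le_of_pos (le_csSup ⟨h, forall_mem_image.2 hm⟩ (mem_image_of_mem _ (τ1 k)))
      (by positivity : 0 < η / 2 ^ k) : _ < M + _)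
  choose A A1 A2 using u0
  have w1 : ∀ k, (1 - η) * η ^ k ∈ Ioc (0 : ℝ) 1 := fun k => ⟨mul_pos (by linarith) (by positivity),
    mul_le_one₀ (by linarith) (by positivity) (pow_le_one₀ e0.le (by linarith))⟩
  have t1 : ∀ k, (1 - η) * η ^ k * τ k ∈ Ioc (0 : ℝ) 1 := fun k =>
    ⟨mul_pos (w1 k).1 (τ1 k).1, mul_le_one₀ (w1 k).2 (τ1 k).1.le (τ1 k).2⟩
  have S1 : ∀ k, Measurable (fun x => ∑ j ∈ Finset.range k, (1 - η) * η ^ j * A j x) ∧
      ∀ x, ∑ j ∈ Finset.range k, (1 - η) * η ^ j * A j x ∈ Icc (0 : ℝ) 1 := fun k =>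
    ⟨Finset.measurable_sum _ fun j _ => (h1 _ (A1 j)).1.const_mul _, fun x =>
      ⟨Finset.sum_nonneg fun j _ => mul_nonneg (w1 j).1.le ((h1 _ (A1 j)).2 x).1,
        (Finset.sum_le_sum fun j _ => mul_le_of_le_one_right (w1 j).1.le
          ((h1 _ (A1 j)).2 x).2).trans (by
            rw [← Finset.mul_sum, mul_neg_geom_sum]
            exact sub_le_self _ (by positivity))⟩⟩
  refine ⟨A, fun k => (1 - η) * η ^ k * τ k, A1, t1, squeeze_zero (fun k => (t1 k).1.le)
    (fun k => mul_le_of_le_one_right (w1 k).1.le (τ1 k).2) (by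
      simpa using (tendsto_pow_atTop_nhds_zero_of_lt_one e0.le (by linarith)).const_mul (1 - η)),
    fun k => le_trans (?_ : _ ≤ M + 7 * η - 4 * (η / 2 ^ k)) (by
      have : 0 < η / 2 ^ k := by positivity
      linarith)⟩
  induction k with
  | zero =>
    refine (integral_mono (intl (S1 1) (t1 0)) ((intl (h1 _ (A1 0)) (τ1 0)).add
      (integrable_const (2 * η))) fun x => ?_).trans ?_
    · have a : 0 < 1 - η := by linarith
      have := Real.one_sub_inv_le_log_of_pos a
      have : (1 - η)⁻¹ ≤ 1 + 2 * η := by rw [inv_le_iff_one_le_mul₀ a]; nlinarith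
      simp only [zero_add, Finset.range_one, Finset.sum_singleton, pow_zero, mul_one, Pi.add_apply]
      rw [← mul_add, Real.log_mul a.ne' (add_pos_of_nonneg_of_pos ((h1 _ (A1 0)).2 x).1 (τ1 0).1).ne']
      linarith
    · have := u1 0
      rw [← A2] at this
      simp only [Pi.add_apply]
      rw [integral_add (intl (h1 _ (A1 0)) (τ1 0)) (integrable_const _)]
      simp [F] at this ⊢
      linarith
  | succ k ih =>
    have i1 := intl (π := π) (S1 (k + 1)) (t1 k)
    have i2 := intl (π := π) (h1 _ (A1 (k + 1))) (τ1 (k + 1))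
    have i3 := intl (π := π) (h1 _ (A1 (k + 1))) (σ1 k)
    refine (integral_mono (intl (S1 (k + 2)) (t1 _)) ((i1.add i2).sub i3) fun x => ?_).trans ?_
    · have a := ((S1 (k + 1)).2 x).1
      have b := ((h1 _ (A1 (k + 1))).2 x).1
      have c := (w1 (k + 1)).1
      have d : (1 - η) * η ^ k * τ k ≤ (1 - η) * η ^ (k + 1) * σ k := by
        exact (mul_le_mul_of_nonneg_left (τ2 k) (w1 k).1.le).trans_eq (by ring)
      have e := (t1 k).1
      have f := (τ1 (k + 1)).1
      have g := τ3 k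
      simp only [Pi.add_apply, Pi.sub_apply, Finset.sum_range_succ _ (k + 1)]
      generalize ∑ j ∈ Finset.range (k + 1), (1 - η) * η ^ j * A j x = S at *
      generalize (1 - η) * η ^ (k + 1) = w at *
      generalize (1 - η) * η ^ k * τ k = v at *
      generalize A (k + 1) x = y at *
      generalize τ (k + 1) = r at *
      have := Real.log_le_log (by positivity) (show (S + v) * (y + r) ≤ (S + w * y + w * r) * (y + σ k) by
        nlinarith [mul_nonneg a (sub_nonneg.2 g), mul_nonneg (sub_nonneg.2 d) (add_nonneg b f.le),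
          mul_nonneg (mul_nonneg c.le b) (add_nonneg b f.le)])
      rw [Real.log_mul (by positivity) (by positivity), Real.log_mul (by positivity)
        (add_pos_of_nonneg_of_pos b (σ1 k).1).ne'] at this
      linarith
    · have a := u1 (k + 1)
      have b := (s1 k).trans_le ((σ2 k).ge.trans (csInf_le (bd _ (σ1 k))
        (mem_image_of_mem _ (A1 (k + 1)))))
      rw [← A2] at a
      rw [integral_sub' (i1.add i2) i3, integral_add' i1 i2]
      simp only [F, pow_succ, ← div_div] at a b ih ⊢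
      have : 0 < η / 2 ^ k := by positivity
      linarith

end Pool.Agent.H10.Cov
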