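import Mathlib
import Pool.Agent.H10.CovA

set_option autoImplicit false

namespace Pool.Agent.H10.Cov
open MeasureTheory Filter Set Topology
open scoped ENNReal

variable {Ω : Type*} [MeasurableSpace Ω] {π : Measure Ω} [IsProbabilityMeasure π]

lemma conv {I : Set (Set Ω)} (hI : ∀ J ∈ I, MeasurableSet J) {W : Set (Ω → ℝ)} (h0 : W.Nonempty)
    (h1 : ∀ A ∈ W, Measurable A ∧ ∀ x, A x ∈ Icc (0 : ℝ) 1)
    (h2 : ∀ A ∈ W, ∀ J ∈ I, ∀ ε ∈ Icc (0 : ℝ) 1,
      (fun x => (1 - ε) * A x + ε * J.indicator 1 x) ∈ W) {lam h τ : ℝ} (l1 : lam < 1)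
    (t : τ ∈ Ioc (0 : ℝ) 1) (hf : ∃ᶠ l : ℕ in atTop, ∃ (n : ℕ) (J : Fin n → Fin l → I),
      ENNReal.ofReal (1 - lam) ≤ Measure.pi (fun _ => π) (⋃ k, univ.pi fun i => (J k i : Set Ω)) ∧
        n ≤ Real.exp (h * l)) : sInf (F π τ '' W) ≤ h := by
  by_contra! hm
  set m := sInf (F π τ '' W)
  have bd : ∀ A ∈ W, m ≤ F π τ A := fun A a => csInf_le ⟨-1, forall_mem_image.2
    fun A a => le_trans (by simp) (integral_mono (integrable_const (-1)) (intl (h1 A a) t) fun x => by
      have := Real.log_le_sub_one_of_pos (add_pos_of_nonneg_of_pos ((h1 A a).2 x).1 t.1)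
      dsimp only
      linarith [((h1 A a).2 x).2, t.2])⟩ (mem_image_of_mem _ a)
  set K := 1 / τ with hK
  have K1 : 1 ≤ K := one_le_one_div t.1 t.2
  obtain ⟨δ, d0, d1, d2⟩ : ∃ δ > 0, δ ≤ 1 ∧ h + 3 * δ ≤ m :=
    ⟨min 1 ((m - h) / 3), lt_min one_pos (by linarith), min_le_left _ _, by
      linarith [min_le_right 1 ((m - h) / 3)]⟩
  obtain ⟨ε, e0, e1⟩ : ∃ ε > 0, ε * (1 + 2 * K ^ 2) = δ :=
    ⟨δ / (1 + 2 * K ^ 2), by positivity, div_mul_cancel₀ _ (by positivity)⟩
  have e2 : ε * K ≤ 1 / 2 := by nlinarith [mul_pos e0 (by linarith : 0 < K)]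
  obtain ⟨_, ⟨A, a, rfl⟩, hA⟩ := exists_lt_of_csInf_lt (h0.image (F π τ))
    (lt_add_of_pos_right m (pow_pos e0 2))
  obtain ⟨mA, bA⟩ := h1 A a
  have b0 : ∀ x, 0 < A x + τ := fun x => add_pos_of_nonneg_of_pos (bA x).1 t.1
  have bK : ∀ x, (A x + τ)⁻¹ ≤ K := fun x => hK ▸ (one_div τ).symm ▸ inv_anti₀ t.1 (by linarith [(bA x).1])
  have ind : ∀ (J : Set Ω) x, J.indicator (1 : Ω → ℝ) x ∈ Icc (0 : ℝ) 1 := fun J x => by
    by_cases r : x ∈ J <;> simp [r]
  have iJ : ∀ J ∈ I, Integrable (fun x => J.indicator 1 x * (A x + τ)⁻¹) π := fun J b =>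
    intb ((measurable_one.indicator (hI J b)).mul (mA.add_const _).inv) K fun x => by
      rw [abs_of_nonneg (mul_nonneg (ind J x).1 (inv_pos.2 (b0 x)).le)]
      exact (mul_le_of_le_one_left (inv_pos.2 (b0 x)).le (ind J x).2).trans (bK x)
  have nu : ∀ J ∈ I, ∫ x, J.indicator 1 x * (A x + τ)⁻¹ ∂π ≤ Real.exp δ := fun J b => by
    have c := h2 A a J b ε ⟨e0.le, by nlinarith⟩
    have := (bd _ c).trans (integral_mono (intl (h1 _ c) t) (((intl (h1 A a) t).sub
      ((iJ J b).const_mul ε)).add (integrable_const (ε + 2 * ε ^ 2 * K ^ 2))) fun x => by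
        have p := b0 x
        have q := bK x
        have r := bA x
        have s := ind J x
        simp only [Pi.add_apply, Pi.sub_apply]
        generalize J.indicator (1 : Ω → ℝ) x = j at *
        have i0 := inv_pos.2 p
        have i1 : A x * (A x + τ)⁻¹ ≤ 1 := by rw [mul_inv_le_iff₀ p]; linarith [t.1]
        obtain ⟨u, hu⟩ : ∃ u, u = ε * (j - A x) * (A x + τ)⁻¹ := ⟨_, rfl⟩
        have u1 : |u| ≤ ε * K := by
          rw [hu, abs_mul, abs_mul, abs_of_pos e0, abs_of_pos i0]
          exact mul_le_mul (mul_le_of_le_one_right e0.le (abs_le.2 ⟨by linarith [r.2, s.1],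
            by linarith [r.1, s.2]⟩)) q i0.le e0.le
        have u2 := sq_le_sq' (abs_le.1 u1).1 (abs_le.1 u1).2
        have u3 : 0 < 1 + u := by linarith [(abs_le.1 u1).1]
        have u4 := Real.one_sub_inv_le_log_of_pos u3
        have u5 : (1 + u)⁻¹ ≤ 1 - u + 2 * u ^ 2 := by
          rw [inv_le_iff_one_le_mul₀ u3]
          nlinarith [mul_nonneg (sq_nonneg u) (by linarith [(abs_le.1 u1).1] : 0 ≤ 1 + 2 * u)]
        rw [show (1 - ε) * A x + ε * j + τ = (A x + τ) * (1 + u) by rw [hu]; field_simp; ring,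
          Real.log_mul p.ne' u3.ne']
        nlinarith)
    rw [integral_add' ((intl (h1 A a) t).sub ((iJ J b).const_mul ε)) (integrable_const _),
      integral_sub' (intl (h1 A a) t) ((iJ J b).const_mul ε), integral_const_mul] at this
    simp only [integral_const, probReal_univ, smul_eq_mul, one_mul, F] at this hA
    refine le_trans (le_of_mul_le_mul_left ?_ e0) (Real.add_one_le_exp δ)
    nlinarith
  have ie : Integrable (fun x => Real.exp (ε * Real.log (A x + τ))) π :=
    intb ((mA.add_const _).log.const_mul _).exp (Real.exp (ε * K)) fun x => by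
      rw [Real.abs_exp]
      gcongr
      exact (le_abs_self _).trans (abslog t.1 (by linarith [(bA x).1]) (by linarith [(bA x).2, t.2]))
  have mg : ∫ x, Real.exp (ε * Real.log (A x + τ)) ∂π ≤ Real.exp (ε * (δ / 2 - F π τ A)) := by
    refine (integral_mono ie ((integrable_const (1 + ε * (δ / 2))).sub
      ((intl (h1 A a) t).const_mul ε)) fun x => ?_).trans ?_
    · have u1 : |ε * Real.log (A x + τ)| ≤ ε * K := by
        rw [abs_mul, abs_of_pos e0]
        gcongr
        exact abslog t.1 (by linarith [(bA x).1]) (by linarith [(bA x).2, t.2])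
      have u2 := sq_le_sq' (abs_le.1 u1).1 (abs_le.1 u1).2
      have := (le_abs_self _).trans (Real.abs_exp_sub_one_sub_id_le (u1.trans (by linarith)))
      simp only [Pi.sub_apply]
      nlinarith
    · rw [integral_sub' (integrable_const _) ((intl (h1 A a) t).const_mul ε), integral_const_mul]
      refine le_trans ?_ (Real.add_one_le_exp _)
      simp only [integral_const, probReal_univ, smul_eq_mul, one_mul, F]
      linarith
  have lim : Tendsto (fun l : ℕ => Real.exp (-δ) ^ l + Real.exp (-(ε * δ / 2)) ^ l) atTop (𝓝 0) := by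
    simpa using (tendsto_pow_atTop_nhds_zero_of_lt_one (Real.exp_pos (-δ)).le (by simpa)).add
      (tendsto_pow_atTop_nhds_zero_of_lt_one (Real.exp_pos (-(ε * δ / 2))).le (by
        simpa using mul_pos e0 d0))
  obtain ⟨l, ⟨n, J, j1, j2⟩, j3⟩ := (hf.and_eventually (lim.eventually
    (gt_mem_nhds (sub_pos.2 l1)))).exists
  refine j3.not_ge ?_
  set T := l * (F π τ A - δ) with hT
  have mU : MeasurableSet (⋃ k, univ.pi fun i => (J k i : Set Ω)) :=
    .iUnion fun k => .univ_pi fun i => hI _ (J k i).2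
  have i1 := fun k => Integrable.fintype_prod (μ := fun _ => π) fun i => iJ _ (J k i).2
  have i2 := Integrable.fintype_prod (μ := fun _ : Fin l => π) fun _ => ie
  refine ((ENNReal.ofReal_le_iff_le_toReal (measure_ne_top _ _)).1 j1).trans
    ((integral_indicator_one mU).ge.trans ((integral_mono ((integrable_const 1).indicator mU)
      (((integrable_finsetSum Finset.univ fun k _ => i1 k).const_mul (Real.exp (-T))).add
        (i2.const_mul (Real.exp (ε * T)))) fun x => ?_).trans ?_))
  · have n1 : ∀ k, 0 ≤ ∏ i, (J k i : Set Ω).indicator 1 (x i) * (A (x i) + τ)⁻¹ := fun k =>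
      Finset.prod_nonneg fun i _ => mul_nonneg (ind _ _).1 (inv_pos.2 (b0 _)).le
    have n2 := Finset.sum_nonneg fun k (_ : k ∈ Finset.univ) => n1 k
    simp only [Pi.add_apply, ← Real.exp_sum, ← Real.exp_add, ← Finset.mul_sum, ← mul_add]
    by_cases r : x ∈ ⋃ k, univ.pi fun i => (J k i : Set Ω)
    swap
    · rw [indicator_of_notMem r]
      positivity
    rw [indicator_of_mem r]
    obtain ⟨k, r⟩ := mem_iUnion.1 r
    by_cases s : 0 ≤ T + ∑ i, Real.log (A (x i) + τ)
    · exact le_add_of_nonneg_of_le (by positivity) (Real.one_le_exp (by positivity))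
    refine le_add_of_le_of_nonneg (le_trans ?_ (mul_le_mul_of_nonneg_left (Finset.single_le_sum
      (fun k _ => n1 k) (Finset.mem_univ k)) (by positivity))) (by positivity)
    rw [Finset.prod_congr rfl fun i _ => (by
      rw [indicator_of_mem (r i trivial), Real.exp_neg, Real.exp_log (b0 _)]; simp :
        _ = Real.exp (-Real.log (A (x i) + τ))), ← Real.exp_sum, ← Real.exp_add]
    exact Real.one_le_exp (by rw [Finset.sum_neg_distrib]; linarith)
  rw [integral_add' ((integrable_finsetSum Finset.univ fun k _ => i1 k).const_mul _)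
    (i2.const_mul _), integral_const_mul, integral_const_mul, integral_finsetSum _ fun k _ => i1 k,
    integral_fintype_prod_eq_pow (fun x => Real.exp (ε * Real.log (A x + τ))), Fintype.card_fin]
  refine add_le_add ((mul_le_mul_of_nonneg_left ((Finset.sum_le_card_nsmul _ _ (Real.exp δ ^ l)
    fun k _ => ?_).trans (?_ : _ ≤ Real.exp (h * l) * Real.exp δ ^ l)) (by positivity)).trans ?_)
    ((mul_le_mul_of_nonneg_left (pow_le_pow_left₀ (integral_nonneg fun _ => by positivity) mg l)
      (by positivity)).trans ?_)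
  · rw [integral_fintype_prod_eq_prod
      (fun i x => (J k i : Set Ω).indicator 1 x * (A x + τ)⁻¹)]
    simpa using Finset.prod_le_prod (s := Finset.univ) (fun i _ => integral_nonneg fun x =>
      mul_nonneg (ind _ _).1 (inv_pos.2 (b0 _)).le) fun i _ => nu _ (J k i).2
  · simpa using mul_le_mul_of_nonneg_right j2 (by positivity)
  · simp only [← Real.exp_nat_mul, ← Real.exp_add, Real.exp_le_exp, hT]
    nlinarith [mul_nonneg (Nat.cast_nonneg (α := ℝ) l) (sub_nonneg.2 (d2.trans (bd A a)))]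
  · simp only [← Real.exp_nat_mul, ← Real.exp_add, Real.exp_le_exp, hT]
    linarith

end Pool.Agent.H10.Cov
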