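import Mathlib
import Pool.Agent.H10.CovB

set_option autoImplicit false

namespace Pool.Agent.H10.Cov
open MeasureTheory Filter Set Topology
open scoped ENNReal

variable {Ω : Type*} [MeasurableSpace Ω] {π : Measure Ω} [IsProbabilityMeasure π] {I : Set (Set Ω)}

lemma comb (hI : ∀ J ∈ I, MeasurableSet J) {q : ℕ → ℝ≥0∞} (J : ℕ → I) (h : ∑' k, q k = 1) :
    Measurable (fun x => ∑' k, q k * (J k : Set Ω).indicator 1 x) ∧
      ∀ x, ∑' k, q k * (J k : Set Ω).indicator 1 x ≤ 1 :=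
  ⟨.tsum fun k => (measurable_one.indicator (hI _ (J k).2)).const_mul _, fun x =>
    h ▸ ENNReal.tsum_le_tsum fun k => mul_le_of_le_one_right' (indicator_le_self _ _ x)⟩

theorem cnt_le (hI : ∀ J ∈ I, MeasurableSet J) {lam : ℝ} (l1 : lam < 1) :
    Hcnt I π ≤ Hlow I π lam := by
  refine le_of_forall_gt_imp_ge_of_dense fun c hc => ?_
  induction c with
  | top => exact le_top
  | coe c => ?_
  have hf : ∃ᶠ l : ℕ in atTop, ∃ (n : ℕ) (J : Fin n → Fin l → I), ENNReal.ofReal (1 - lam) ≤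
      Measure.pi (fun _ => π) (⋃ k, univ.pi fun i => (J k i : Set Ω)) ∧ n ≤ Real.exp (c * l) := by
    refine ((frequently_lt_of_liminf_lt (by isBoundedDefault) hc).and_eventually
      (eventually_gt_atTop 0)).mono fun l ⟨a, b⟩ => ?_
    rw [rate, ENNReal.div_lt_iff (by simp [b.ne']) (by simp)] at a
    split_ifs at a with d
    · exact (not_top_lt a).elim
    obtain ⟨n, e⟩ := ENat.ne_top_iff_exists.1 d
    have : N I π lam l < n + 1 := by rw [← e]; exact_mod_cast n.lt_succ_self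
    simp only [N, iInf_lt_iff] at this
    obtain ⟨k, J, j1, j2⟩ := this
    refine ⟨k, J, j1, le_trans (Nat.cast_le.2 (Nat.le_of_lt_succ (by exact_mod_cast j2)))
      ((Real.le_exp_log n).trans (Real.exp_le_exp.2 ?_))⟩
    rw [← e, ENat.toNat_natCast, ← ENNReal.ofReal_coe_nnreal, ← ENNReal.ofReal_natCast,
      ← ENNReal.ofReal_mul c.coe_nonneg] at a
    exact ((ENNReal.ofReal_lt_ofReal_iff'.1 a).1).le
  obtain ⟨J0⟩ : Nonempty I := by
    obtain ⟨l, ⟨n, J, a, -⟩, b⟩ := (hf.and_eventually (eventually_gt_atTop 0)).exists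
    obtain ⟨x, d⟩ := nonempty_of_measure_ne_zero ((ENNReal.ofReal_pos.2 (sub_pos.2 l1)).trans_le a).ne'
    exact ⟨J (mem_iUnion.1 d).choose ⟨0, b⟩⟩
  let W := {A : Ω → ℝ | ∃ (q : ℕ → ℝ≥0∞) (J : ℕ → I), ∑' k, q k = 1 ∧
    A = fun x => (∑' k, q k * (J k : Set Ω).indicator 1 x).toReal}
  have h0 : W.Nonempty := ⟨_, fun k => if k = 0 then 1 else 0, fun _ => J0, by simp, rfl⟩
  have h1 : ∀ A ∈ W, Measurable A ∧ ∀ x, A x ∈ Icc (0 : ℝ) 1 := by
    rintro _ ⟨q, J, h, rfl⟩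
    exact ⟨(comb hI J h).1.ennreal_toReal, fun x => ⟨ENNReal.toReal_nonneg, by
      simpa using ENNReal.toReal_mono ENNReal.one_ne_top ((comb hI J h).2 x)⟩⟩
  have hm := fun τ t => conv hI h0 h1 (by
    rintro _ ⟨q, J, h, rfl⟩ L b ε e
    refine ⟨fun k => Nat.casesOn k (.ofReal ε) fun k => .ofReal (1 - ε) * q k,
      fun k => Nat.casesOn k ⟨L, b⟩ J, ?_, funext fun x => ?_⟩ <;>
      rw [tsum_eq_zero_add' ENNReal.summable]
    · simp only [Nat.rec_zero, ENNReal.tsum_mul_left, h, mul_one]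
      rw [← ENNReal.ofReal_add e.1 (sub_nonneg.2 e.2)]
      simp
    · have := ne_top_of_le_ne_top ENNReal.one_ne_top ((comb hI J h).2 x)
      simp only [Nat.rec_zero, mul_assoc, ENNReal.tsum_mul_left]
      by_cases r : x ∈ L
      · rw [ENNReal.toReal_add (by simp [r]) (ENNReal.mul_ne_top (by simp) this)]
        simp [r, e.1, e.2, add_comm]
      · simp [r, e.2]) l1 (τ := τ) t hf
  refine ENNReal.le_of_forall_pos_le_add fun ε e0 _ => ?_
  obtain ⟨η, e1, e2, e3⟩ : ∃ η : ℝ, 0 < η ∧ η ≤ 1 / 2 ∧ 7 * η ≤ ε :=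
    ⟨min (1 / 2) (ε / 7), by positivity, min_le_left _ _, by linarith [min_le_right (1 / 2) ((ε : ℝ) / 7)]⟩
  obtain ⟨A, t, a1, t1, t0, a2⟩ := glue h0 h1 e1 e2 hm
  choose q J q1 q2 using a1
  let w := fun j => ENNReal.ofReal ((1 - η) * η ^ j)
  have w0 : ∀ j, 0 ≤ (1 - η) * η ^ j := fun j => mul_nonneg (by linarith) (by positivity)
  have w1 : ∑' j, w j = 1 := by
    have := (hasSum_geometric_of_lt_one e1.le (by linarith)).mul_left (1 - η)
    rw [← ENNReal.ofReal_tsum_of_nonneg w0 this.summable, this.tsum_eq,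
      mul_inv_cancel₀ (by linarith), ENNReal.ofReal_one]
  have sm : ∀ f : ℕ → ℕ → ℝ≥0∞, ∑' k : ℕ, w k.unpair.1 * f k.unpair.1 k.unpair.2 =
      ∑' j, w j * ∑' k, f j k := fun f => by
    simp only [← ENNReal.tsum_mul_left]
    rw [← ENNReal.tsum_prod]
    exact Nat.pairEquiv.symm.tsum_eq fun p => w p.1 * f p.1 p.2
  have s1 : ∑' k : ℕ, w k.unpair.1 * q k.unpair.1 k.unpair.2 = 1 := by simp [sm, q1, w1]
  have c1 := comb hI (fun k => J k.unpair.1 k.unpair.2) s1
  have m1 := h1 _ ⟨_, fun k => J k.unpair.1 k.unpair.2, s1, rfl⟩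
  refine iInf_le_of_le _ (iInf_le_of_le (fun k => J k.unpair.1 k.unpair.2) (iInf_le_of_le s1 ?_))
  refine ((fatou c1.1 c1.2 t1 t0
    (c := c + 7 * η) fun k => le_trans (integral_mono (intl m1 (t1 k)) ?_ fun x => ?_) (a2 k)).trans ?_)
  · refine intl ⟨Finset.measurable_sum _ fun j _ => (h1 _ ⟨_, _, q1 j, q2 j⟩).1.const_mul _,
      fun x => ⟨Finset.sum_nonneg fun j _ => mul_nonneg (w0 j) ((h1 _ ⟨_, _, q1 j, q2 j⟩).2 x).1,
        (Finset.sum_le_sum fun j _ => mul_le_of_le_one_right (w0 j)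
          ((h1 _ ⟨_, _, q1 j, q2 j⟩).2 x).2).trans ?_⟩⟩ (t1 k)
    rw [← Finset.mul_sum, mul_neg_geom_sum]
    exact sub_le_self _ (by positivity)
  · refine neg_le_neg (Real.log_le_log (add_pos_of_nonneg_of_pos (Finset.sum_nonneg fun j _ =>
      mul_nonneg (w0 j) ((h1 _ ⟨_, _, q1 j, q2 j⟩).2 x).1) (t1 k).1) (add_le_add_left ?_ _))
    refine le_trans (le_of_eq ?_) (ENNReal.toReal_mono (ne_top_of_le_ne_top ENNReal.one_ne_top
      (c1.2 x)) ((ENNReal.sum_le_tsum (Finset.range (k + 1))).trans_eq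
        ((sm fun j k => q j k * (J j k : Set Ω).indicator 1 x).symm.trans (by simp only [mul_assoc]))))
    rw [ENNReal.toReal_sum fun j _ => ENNReal.mul_ne_top ENNReal.ofReal_ne_top
      (ne_top_of_le_ne_top ENNReal.one_ne_top ((comb hI _ (q1 j)).2 x))]
    simp [w, q2, ENNReal.toReal_ofReal (w0 _)]
  · rw [← ENNReal.coe_add, ← ENNReal.ofReal_coe_nnreal]
    exact ENNReal.ofReal_le_ofReal (by simpa using e3)

theorem full_le (hI : ∀ J ∈ I, MeasurableSet J) : Hfull I π ≤ Hcnt I π := by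
  refine le_iInf fun q => le_iInf fun J => le_iInf fun h => ?_
  let : MeasurableSpace I := ⊤
  have ap : ∀ s : Set I, Measure.sum (fun k => q k • Measure.dirac (J k)) s =
      ∑' k, q k * s.indicator 1 (J k) := fun s => by
    simp [Measure.sum_apply _ (show MeasurableSet s from trivial), Measure.dirac_apply' _
      (show MeasurableSet s from trivial)]
  have : IsProbabilityMeasure (Measure.sum fun k => q k • Measure.dirac (J k)) := ⟨by simp [ap, h]⟩
  refine iInf_le_of_le ⊤ (iInf_le_of_le _ (iInf_le_of_le this (iInf_le_of_le ?_ (le_of_eq ?_))))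
  · refine (MeasurableSet.iUnion fun k => (show MeasurableSet {J k} from trivial).prod
      (hI _ (J k).2)).nullMeasurableSet.congr ?_
    have : (Measure.sum fun k => q k • Measure.dirac (J k)).prod π ((range J)ᶜ ×ˢ univ) = 0 := by
      simp [ap]
    filter_upwards [measure_eq_zero_iff_ae_notMem.1 this] with p a
    obtain ⟨k, b⟩ : p.1 ∈ range J := by simpa using a
    refine propext ⟨fun c => ?_, fun c => mem_iUnion.2 ⟨k, b.symm, b ▸ c⟩⟩
    obtain ⟨j, c, d⟩ := mem_iUnion.1 c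
    exact (congrArg (fun L : I => p.2 ∈ (L : Set Ω)) c).mpr d
  · simp only [ap]
    rfl

end Pool.Agent.H10.Cov
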