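import Mathlib

set_option autoImplicit false

namespace Pool.Agent.H10.CubeIllum

def adj (u c : ℕ) : Bool := ((u ^^^ c) &&& ((u ^^^ c) - 1)) == 0

def ball (w : ℕ) : List ℕ := [w, w ^^^ 1, w ^^^ 2, w ^^^ 4, w ^^^ 8, w ^^^ 16]

def go : ℕ → List ℕ → Bool
  | _, [] => false
  | 0, _ :: _ => true
  | k + 1, w :: U => (ball w).all (fun c => go k (U.filter (fun u => !(adj u c))))

lemma adj_ball : ∀ w < 32, ∀ c < 32, adj w c = true → c ∈ ball w := by decide +kernel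

lemma go_sound : ∀ (k : ℕ) (U : List ℕ), go k U = true → (∀ u ∈ U, u < 32) →
    ∀ C : Finset ℕ, C.card ≤ k → (∀ c ∈ C, c < 32) → (∀ u ∈ U, ∃ c ∈ C, adj u c = true) →
      False := by
  intro k
  induction k with
  | zero =>
    intro U h _ C hC _ hcov
    cases U with
    | nil => simp [go] at h
    | cons w U =>
      obtain ⟨c, hc, -⟩ := hcov w (by simp)
      have : C = ∅ := Finset.card_eq_zero.mp (by omega)
      simp [this] at hc
  | succ k ih =>
    intro U h hU C hC hC32 hcov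
    cases U with
    | nil => simp [go] at h
    | cons w U =>
      obtain ⟨c, hc, hwc⟩ := hcov w (by simp)
      have hb := adj_ball w (hU w (by simp)) c (hC32 c hc) hwc
      simp only [go, List.all_eq_true] at h
      refine ih _ (h c hb) ?_ (C.erase c) ?_ ?_ ?_
      · intro u hu
        exact hU u (List.mem_cons_of_mem _ (List.mem_filter.mp hu).1)
      · rw [Finset.card_erase_of_mem hc]; omega
      · intro c' hc'; exact hC32 c' (Finset.mem_of_mem_erase hc')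
      · intro u hu
        obtain ⟨hu1, hu2⟩ := List.mem_filter.mp hu
        obtain ⟨c', hc', h'⟩ := hcov u (List.mem_cons_of_mem _ hu1)
        refine ⟨c', Finset.mem_erase.mpr ⟨?_, hc'⟩, h'⟩
        rintro rfl
        simp [h'] at hu2

lemma go6 : go 6 (List.range 32) = true := by decide +kernel

def enc (w : Fin 5 → Bool) : ℕ :=
  (w 0).toNat + 2 * (w 1).toNat + 4 * (w 2).toNat + 8 * (w 3).toNat + 16 * (w 4).toNat

def dec (n : ℕ) : Fin 5 → Bool := fun j => n.testBit j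

lemma enc_lt (w : Fin 5 → Bool) : enc w < 32 := by
  unfold enc
  have := Bool.toNat_le (w 0); have := Bool.toNat_le (w 1); have := Bool.toNat_le (w 2)
  have := Bool.toNat_le (w 3); have := Bool.toNat_le (w 4)
  omega

lemma dec_enc (w : Fin 5 → Bool) : dec (enc w) = w := by
  revert w; decide +kernel

lemma adj_dec : ∀ u < 32, ∀ c < 32, hammingDist (dec u) (dec c) ≤ 1 → adj u c = true := by
  decide +kernel

lemma no_code (C : Finset (Fin 5 → Bool)) (hC : C.card ≤ 6)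
    (h : ∀ w : Fin 5 → Bool, ∃ c ∈ C, hammingDist w c ≤ 1) : False := by
  refine go_sound 6 _ go6 (by simp) (C.image enc) (Finset.card_image_le.trans hC) ?_ ?_
  · intro c hc
    obtain ⟨w, -, rfl⟩ := Finset.mem_image.mp hc
    exact enc_lt w
  · intro u hu
    obtain ⟨c, hc, hd⟩ := h (dec u)
    refine ⟨enc c, Finset.mem_image_of_mem _ hc, adj_dec u (by simpa using hu) _ (enc_lt c) ?_⟩
    rwa [dec_enc]

def A : Fin 6 → Fin 5 → ℤ :=
  ![![0, -3, -6, -9, -12], ![-3, 0, -6, -12, -9], ![0, -9, 7, -3, -12], ![-9, 7, 13, 0, -3],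
    ![-9, -12, 1, 7, -3], ![-12, 10, -6, 4, 0]]

def B : Fin 6 → Fin 5 → ℤ :=
  ![![1, 1, 1, 1, 1], ![1, 1, 1, 1, 1], ![1, 1, -1, 1, 1], ![1, -1, -1, 1, 1],
    ![1, 1, -1, -1, 1], ![1, -1, 1, -1, 1]]

lemma key : ∀ w : Fin 5 → Bool, ∃ i : Fin 6, ∃ m : Fin 6, ∀ j : Fin 5,
    (w j = true → 2 ≤ A i j + (3 * (m : ℤ) - 1) * B i j ∧ A i j + (3 * (m : ℤ) - 1) * B i j ≤ 20) ∧
    (w j = false → -20 ≤ A i j + (3 * (m : ℤ) - 1) * B i j ∧
      A i j + (3 * (m : ℤ) - 1) * B i j ≤ -1) := by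
  decide +kernel

noncomputable def L (i : Fin 6) : AffineSubspace ℝ (Fin 5 → ℝ) :=
  AffineSubspace.mk' (fun j => (A i j : ℝ)) (Submodule.span ℝ {fun j => (B i j : ℝ)})

lemma mem_L (i : Fin 6) (y : Fin 5 → ℝ) :
    y ∈ L i ↔ ∃ t : ℝ, ∀ j, y j = A i j + t * B i j := by
  unfold L
  rw [AffineSubspace.mem_mk', Submodule.mem_span_singleton]
  constructor
  · rintro ⟨t, ht⟩
    refine ⟨t, fun j => ?_⟩
    have := congrFun ht j
    simp at this
    linarith
  · rintro ⟨t, ht⟩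
    refine ⟨t, ?_⟩
    ext j
    simp [ht j]

lemma L_dim (i : Fin 6) : Module.finrank ℝ (L i).direction = 1 := by
  unfold L
  rw [AffineSubspace.direction_mk']
  apply finrank_span_singleton
  intro h
  have := congrFun h 0
  fin_cases i <;> simp [B] at this

lemma L_avoid (i : Fin 6) : ∀ y ∈ L i, ¬ (∀ j, 0 ≤ y j ∧ y j ≤ 1) := by
  intro y hy h
  obtain ⟨t, ht⟩ := (mem_L i y).mp hy
  have h0 := h 0
  have h1 := h 1
  rw [ht 0] at h0
  rw [ht 1] at h1
  fin_cases i <;> simp [A, B] at h0 h1 <;> linarith [h0.1, h0.2, h1.1, h1.2]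

lemma L_illum (x : Fin 5 → ℝ) (hx : ∀ j, 0 ≤ x j ∧ x j ≤ 1) :
    ∃ i, ∃ y ∈ L i, ∃ t : ℝ, 0 < t ∧
      ∀ j, 0 < (x + t • (x - y)) j ∧ (x + t • (x - y)) j < 1 := by
  classical
  obtain ⟨i, m, hm⟩ := key (fun j => decide (1 / 2 < x j))
  refine ⟨i, fun j => (A i j : ℝ) + (3 * ((m : ℕ) : ℝ) - 1) * B i j,
    (mem_L i _).mpr ⟨_, fun j => rfl⟩, 1 / 100, by norm_num, fun j => ?_⟩
  obtain ⟨h1, h2⟩ := hm j
  obtain ⟨hx0, hx1⟩ := hx j
  simp only [Pi.add_apply, Pi.smul_apply, Pi.sub_apply, smul_eq_mul]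
  by_cases hj : 1 / 2 < x j
  · obtain ⟨a, b⟩ := h1 (by simpa using hj)
    have a' : (2 : ℝ) ≤ (A i j : ℝ) + (3 * ((m : ℕ) : ℝ) - 1) * B i j := by exact_mod_cast a
    have b' : (A i j : ℝ) + (3 * ((m : ℕ) : ℝ) - 1) * B i j ≤ 20 := by exact_mod_cast b
    constructor <;> linarith
  · obtain ⟨a, b⟩ := h2 (by simpa using hj)
    have a' : (-20 : ℝ) ≤ (A i j : ℝ) + (3 * ((m : ℕ) : ℝ) - 1) * B i j := by exact_mod_cast a
    have b' : (A i j : ℝ) + (3 * ((m : ℕ) : ℝ) - 1) * B i j ≤ -1 := by exact_mod_cast b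
    constructor <;> linarith

end Pool.Agent.H10.CubeIllum
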