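import Mathlib

set_option autoImplicit false

namespace Pool.Agent.H10.Cw

/-- labelled graphs built by clique-width operations with labels in `Fin t` -/
inductive Built (t : ℕ) : (V : Type) → SimpleGraph V → (V → Fin t) → Prop
  | single (i : Fin t) : Built t Unit ⊥ fun _ => i
  | union {V W : Type} {G : SimpleGraph V} {H : SimpleGraph W} {l : V → Fin t} {m : W → Fin t} :
      Built t V G l → Built t W H m → Built t (V ⊕ W) (G.sum H) (Sum.elim l m)
  | relabel {V : Type} {G : SimpleGraph V} {l : V → Fin t} (i j : Fin t) :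
      Built t V G l → Built t V G fun v => if l v = i then j else l v
  | join {V : Type} {G : SimpleGraph V} {l : V → Fin t} (i j : Fin t) : i ≠ j →
      Built t V G l → Built t V (G ⊔ SimpleGraph.fromRel fun u v => l u = i ∧ l v = j) l

/-- clique-width at most `t` -/
def CwLe (t : ℕ) {V : Type} (G : SimpleGraph V) : Prop :=
  ∃ (W : Type) (H : SimpleGraph W) (l : W → Fin t), Built t W H l ∧ Nonempty (G ≃g H)

/-- domatic number -/
noncomputable def dom {V : Type} (G : SimpleGraph V) : ℕ :=
  sSup {k | ∃ f : V → Fin k, ∀ v i, ∃ u, (u = v ∨ G.Adj v u) ∧ f u = i}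

end Pool.Agent.H10.Cw
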