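import Mathlib
import Pool.Agent.H10.CwDefs

set_option autoImplicit false

namespace Pool.Agent.H10.Cw
open Finset Sum

def Many {V : Type} (n : ℕ) (p : V → Prop) : Prop := ∃ T : Finset V, n ≤ #T ∧ ∀ u ∈ T, p u

lemma Many.add {V W : Type} {n m k : ℕ} {p : V → Prop} {q : W → Prop} {r : V ⊕ W → Prop}
    (a : Many n p) (b : Many m q) (h : k ≤ n + m) (h1 : ∀ v, p v → r (inl v))
    (h2 : ∀ v, q v → r (inr v)) : Many k r := by
  obtain ⟨S, s1, s2⟩ := a
  obtain ⟨T, t1, t2⟩ := b
  refine ⟨S.disjSum T, by rw [card_disjSum]; omega, ?_⟩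
  rintro (v | v) h
  exacts [h1 v (s2 v (by simpa using h)), h2 v (t2 v (by simpa using h))]

lemma m0 {V : Type} : Many 0 fun _ : V => False := ⟨∅, by simp⟩
lemma m1 : Many 1 fun _ : Unit => True := ⟨univ, by simp⟩

variable {t : ℕ} (d : ℕ) (a b c e : Fin t)

def Inv (h j : ℕ) : Prop := ∃ (V : Type) (G : SimpleGraph V) (l : V → Fin t), Finite V ∧
  Built t V G l ∧ (∀ v, l v = a ∨ l v = b ∨ l v = c) ∧ (∀ v, l v = a → Many h (G.Adj v)) ∧
  (∀ v, l v ≠ a → Many d (G.Adj v)) ∧ Many j (l · = c) ∧ Many d (l · = a) ∧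
  ∀ s : V → Prop, (∀ v, l v = b → ∃ u, G.Adj v u ∧ s u) → ∀ r, l r = c → s r →
    ∃ p, l p = a ∧ ∀ u, G.Adj p u → s u

variable {d a b c e}

lemma un {h j : ℕ} (A : Inv d a b c h j) (B : Inv d a b c h 1) : Inv d a b c h (j + 1) := by
  obtain ⟨V, G, l, _, g1, g2, g3, g4, g5, g6, g7⟩ := A
  obtain ⟨W, H, m, _, h1, h2, h3, h4, h5, -, h7⟩ := B
  refine ⟨V ⊕ W, _, _, inferInstance, g1.union h1, by simp [*], ?_, ?_,
    g5.add h5 le_rfl (by simp) (by simp), g6.add m0 le_rfl (by simp) (by simp), fun s hs => ?_⟩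
  · rintro (v | v) e
    exacts [(g3 v e).add m0 le_rfl (by simp) (by simp), m0.add (h3 v e) (by simp) (by simp) (by simp)]
  · rintro (v | v) e
    exacts [(g4 v e).add m0 le_rfl (by simp) (by simp), m0.add (h4 v e) (by simp) (by simp) (by simp)]
  · rintro (r | r) e f
    · obtain ⟨p, p1, p2⟩ := g7 (s ∘ inl) (fun v x => by simpa using hs (inl v) x) r e f
      exact ⟨inl p, p1, by simpa using p2⟩
    · obtain ⟨p, p1, p2⟩ := h7 (s ∘ inr) (fun v x => by simpa using hs (inr v) x) r e f
      exact ⟨inr p, p1, by simpa using p2⟩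

lemma iso (n : ℕ) : ∃ (V : Type) (G : SimpleGraph V), Finite V ∧ Built t V G (fun _ => a) ∧
    Many (n + 1) (fun _ : V => True) ∧ ∀ u v, ¬ G.Adj u v := by
  induction n with
  | zero => exact ⟨_, _, inferInstance, .single a, m1, by simp⟩
  | succ n ih =>
    obtain ⟨V, G, _, h1, h2, h3⟩ := ih
    exact ⟨V ⊕ Unit, G.sum ⊥, inferInstance, by
      convert h1.union (.single a) using 1; funext x; cases x <;> rfl, h2.add m1 le_rfl (by simp) (by simp),
      by simp [h3]⟩

lemma base (ac : a ≠ c) : Inv d a b c 0 1 := by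
  obtain ⟨V, G, _, h1, h2, h3⟩ := iso (a := a) d
  obtain ⟨T, t1, -⟩ := id h2
  obtain ⟨p, -⟩ := card_pos.1 (Nat.zero_lt_of_lt t1)
  refine ⟨_, _, _, inferInstance, (h1.union (.single c)).join a c ac, by simp,
    fun _ _ => ⟨∅, by simp⟩, ?_, m0.add m1 le_rfl (by simp) (by simp),
    h2.add m0 (by omega) (by simp) (by simp), fun s _ => ?_⟩
  · rintro (v | v) e
    · simp at e
    exact h2.add m0 (by omega) (by simp) (by simp)
  · rintro (r | r) e f
    · exact (ac e).elim
    exact ⟨inl p, rfl, by simpa [h3, ac] using fun _ => f⟩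

lemma step {h : ℕ} (ab : a ≠ b) (ac : a ≠ c) (ae : a ≠ e) (bc : b ≠ c) (be : b ≠ e) (ce : c ≠ e)
    (A : Inv d a b c h d) : Inv d a b c (h + 1) 1 := by
  obtain ⟨V, G, l, _, g1, g2, g3, g4, g5, g6, g7⟩ := A
  have le : ∀ v, l v ≠ e := by grind
  refine ⟨_, _, _, inferInstance, (((((g1.union (.single e)).join c e ce).relabel c b).relabel e b).union
    (.single c)).join a c ac, ?_, ?_, ?_, m0.add m1 le_rfl (by simp) (by simp),
    (g6.add m0 (r := fun v => Sum.elim l (fun _ : Unit => e) v = a) le_rfl (by simp) (by simp)).add m0 le_rfl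
      (by simp +contextual [*]) (by simp), fun s hs => ?_⟩
  · simp; grind
  · rintro ((v | v) | v) x <;> simp [ce.symm, ab.symm, ac.symm] at x
    have x : l v = a := by grind
    exact ((g3 v x).add m0 (r := fun u => (G.sum (⊥ : SimpleGraph Unit)).Adj (inl v) u) le_rfl (by simp)
      (by simp)).add m1 le_rfl (by simp +contextual) (by simp [*])
  · rintro ((v | v) | v) x
    · exact ((g4 v (by simp at x; grind)).add m0 (r := fun u => (G.sum (⊥ : SimpleGraph Unit)).Adj
        (inl v) u) le_rfl (by simp) (by simp)).add m0 le_rfl (by simp +contextual) (by simp)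
    · exact (g5.add m0 (r := fun v => Sum.elim l (fun _ : Unit => e) v = c) le_rfl (by simp) (by simp)).add
        m0 le_rfl (by simp +contextual [ce.symm]) (by simp)
    · exact (g6.add m0 (r := fun v => Sum.elim l (fun _ : Unit => e) v = a) le_rfl (by simp) (by simp)).add
        m0 le_rfl (by simp +contextual [*, ae.symm]) (by simp)
  · rintro ((r | r) | r) x f
    · simp at x; grind
    · simp at x; grind
    obtain ⟨r, r1, r2⟩ : ∃ r, l r = c ∧ s (inl (inl r)) := by
      have := hs (inl (inr ())) (by simp [ce.symm])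
      simp at this
      grind
    obtain ⟨p, p1, p2⟩ := g7 (fun v => s (inl (inl v))) (fun v x => by
      have := hs (inl (inl v)) (by simp [*])
      simp at this
      grind) r r1 r2
    refine ⟨inl (inl p), by simp [*], ?_⟩
    simp
    grind

lemma all (ab : a ≠ b) (ac : a ≠ c) (ae : a ≠ e) (bc : b ≠ c) (be : b ≠ e) (ce : c ≠ e) (h j : ℕ) :
    Inv (d + 1) a b c h (j + 1) := by
  induction h generalizing j with
  | zero =>
    induction j with
    | zero => exact base ac
    | succ j ih => exact un ih (base ac)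
  | succ h ih =>
    induction j with
    | zero => exact step ab ac ae bc be ce (ih d)
    | succ j jh => exact un jh (step ab ac ae bc be ce (ih d))

end Pool.Agent.H10.Cw
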