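import Mathlib

set_option autoImplicit false

namespace Pool.Agent.H10.Dag
open Finset

variable {n : ℕ}

/-- number of initial vertices (in-degree zero) -/
def ini (G : Finset (Fin n × Fin n)) : ℕ := #{v | ∀ e ∈ G, e.2 ≠ v}

/-- number of terminal vertices (out-degree zero) -/
def ter (G : Finset (Fin n × Fin n)) : ℕ := #{v | ∀ e ∈ G, e.1 ≠ v}

/-- the edges whose removal is not cancelled -/
def rem (x y : ℕ) (G : Finset (Fin n × Fin n)) : Finset (Fin n × Fin n) :=
  {e ∈ G | ini (G.erase e) ≤ x ∧ ter (G.erase e) ≤ y}

/-- probability that the process started at `G` stands at an `(x, y)` graph after `k` steps -/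
noncomputable def pr (x y : ℕ) : ℕ → Finset (Fin n × Fin n) → ℝ
  | 0, G => if ini G = x ∧ ter G = y then 1 else 0
  | k + 1, G => if rem x y G = ∅ then (if ini G = x ∧ ter G = y then 1 else 0)
      else (∑ e ∈ rem x y G, pr x y k (G.erase e)) / #(rem x y G)

/-- the complete task-dependency graph -/
def full (n : ℕ) : Finset (Fin n × Fin n) := {e | e.1 < e.2}

/-- probability that the process on `n` vertices stops at an `(x, y)` graph -/
noncomputable def r (x y n : ℕ) : ℝ := pr x y #(full n) (full n)

end Pool.Agent.H10.Dag
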