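import Mathlib
import Pool.Agent.H10.DagDefs

set_option autoImplicit false

namespace Pool.Agent.H10.Dag
open Finset Filter Topology

section
variable {α V : Type*} [DecidableEq α] [DecidableEq V] [Fintype V] (p q : α → V) (Z : Finset V)

/-- vertices missed by `p` -/
def cnt (G : Finset α) : ℕ := #{v | ∀ e ∈ G, p e ≠ v}

/-- the potential -/
noncomputable def pot (G : Finset α) : ℝ :=
  if cnt q G < #Z then ∑ f ∈ G with q f ∈ Z, 1 / (#{e ∈ G | p e = p f} : ℝ) else 0

lemma pot_nonneg (G : Finset α) : 0 ≤ pot p q Z G := by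
  unfold pot
  split_ifs <;> positivity

lemma half {x : ℕ} {G R : Finset α} (hx : cnt p G ≤ x) (h1 : R ⊆ G)
    (h2 : ∀ e ∈ G, cnt p (G.erase e) ≤ x → cnt q (G.erase e) ≤ #Z → e ∈ R) :
    ∑ e ∈ R, pot p q Z (G.erase e) ≤ #R * pot p q Z G ∧
      (R = ∅ → cnt q G < #Z → 1 ≤ pot p q Z G) := by
  by_cases hy : cnt q G < #Z
  swap
  · refine ⟨le_of_eq ?_, fun _ h => (hy h).elim⟩
    rw [pot, if_neg hy, mul_zero]
    exact sum_eq_zero fun e _ => if_neg fun r => hy (lt_of_le_of_lt (card_le_card fun v => by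
      simp only [mem_filter, mem_univ, true_and]
      exact fun h f a => h f (mem_of_mem_erase a)) r)
  have key : ∀ e ∈ G, ∀ f ∈ G, e ≠ f → p e = p f → e ∈ R := fun e a f b c d => by
    refine h2 e a (le_trans (card_le_card fun v => ?_) hx) ((card_le_card fun v => ?_).trans
      ((card_insert_le (q e) _).trans hy))
    · simp only [mem_filter, mem_univ, true_and, mem_erase]
      intro h g r
      by_cases s : g = e
      · exact s ▸ d ▸ h f ⟨c.symm, b⟩
      · exact h g ⟨s, r⟩
    · simp only [mem_filter, mem_univ, true_and, mem_erase, mem_insert]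
      refine fun h => or_iff_not_imp_left.2 fun t g r => ?_
      by_cases s : g = e
      · exact s ▸ Ne.symm t
      · exact h g ⟨s, r⟩
  rw [pot, if_pos hy]
  refine ⟨?_, fun r _ => ?_⟩
  · let t := fun f e => if f ≠ e then 1 / (#{g ∈ G.erase e | p g = p f} : ℝ) else 0
    refine (sum_le_sum (g := fun e => ∑ f ∈ G with q f ∈ Z, t f e) fun e _ => ?_).trans ?_
    · rw [← sum_filter, pot]
      split_ifs
      · exact (sum_congr (by ext; simp; tauto) fun _ _ => rfl).le
      · positivity
    rw [sum_comm, mul_sum]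
    refine sum_le_sum fun f b => ?_
    replace b := (mem_filter.1 b).1
    have t0 : ∀ e, p e ≠ p f → t f e = 1 / (#{g ∈ G | p g = p f} : ℝ) := fun e r => by
      simp only [t]
      rw [if_pos fun s => r (congrArg p s.symm), filter_erase, erase_eq_of_notMem (by simp [r])]
    by_cases c : ∃ e ∈ G, e ≠ f ∧ p e = p f
    · obtain ⟨g, g1, g2, g3⟩ := c
      have fD : f ∈ {g ∈ G | p g = p f} := by simp [b]
      have d2 := card_pos.2 ⟨g, (by simp [*] : g ∈ {g ∈ G | p g = p f}.erase f)⟩
      rw [← sub_nonpos, ← nsmul_eq_mul, ← sum_const, ← sum_sub_distrib, ← sum_subset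
        (s₁ := {g ∈ G | p g = p f}) (fun e a => by
          rw [mem_filter] at a
          by_cases s : e = f
          · exact s ▸ key f b g g1 g2.symm g3.symm
          · exact key e a.1 f b s a.2) fun e a s => by rw [t0 e (by simpa [h1 a] using s), sub_self],
        sum_sub_distrib, ← add_sum_erase _ _ fD, sum_congr rfl fun e a =>
          (_ : t f e = 1 / (#({g ∈ G | p g = p f}.erase f) : ℝ))]
      · have := card_pos.2 ⟨f, fD⟩
        simp only [t, sum_const, nsmul_eq_mul]
        rw [mul_one_div_cancel (by positivity), mul_one_div_cancel (by positivity)]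
        simp
      · simp only [t]
        intro e a
        rw [if_pos (mem_erase.1 a).1.symm, filter_erase, card_erase_of_mem fD,
          card_erase_of_mem (mem_of_mem_erase a)]
    · rw [← nsmul_eq_mul]
      refine sum_le_card_nsmul _ _ _ fun e a => ?_
      by_cases s : e = f
      · simp [t, s]
      · exact (t0 e fun r => c ⟨e, h1 a, s, r⟩).le
  · obtain ⟨z, a, b⟩ := not_subset.1 fun s => hy.not_ge (card_le_card s)
    simp only [mem_filter, mem_univ, true_and, not_forall, not_not] at b
    obtain ⟨f, b, rfl⟩ := b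
    refine le_trans ?_ (single_le_sum (f := fun f => 1 / (#{e ∈ G | p e = p f} : ℝ))
      (fun _ _ => by positivity) (mem_filter.2 ⟨b, a⟩))
    rw [show {e ∈ G | p e = p f} = {f} from eq_singleton_iff_unique_mem.2 ⟨by simp [b], fun e s =>
      by_contra fun u => notMem_empty e (r ▸ key e (mem_filter.1 s).1 f b u (mem_filter.1 s).2)⟩]
    simp
end

lemma ini_eq {n : ℕ} (G : Finset (Fin n × Fin n)) : ini G = cnt Prod.snd G := by
  unfold ini cnt
  congr

lemma ter_eq {n : ℕ} (G : Finset (Fin n × Fin n)) : ter G = cnt Prod.fst G := by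
  unfold ter cnt
  congr

lemma bound {n x y : ℕ} (A B : Finset (Fin n)) (hA : #A = x) (hB : #B = y) (k : ℕ)
    (G : Finset (Fin n × Fin n)) (h : #G ≤ k) (h1 : ini G ≤ x) (h2 : ter G ≤ y) :
    1 - (pot Prod.snd Prod.fst B G + pot Prod.fst Prod.snd A G) ≤ pr x y k G ∧ pr x y k G ≤ 1 := by
  subst hA hB
  have u := fun G (h1 : ini G ≤ #A) => half Prod.snd Prod.fst B (R := rem #A #B G)
    ((ini_eq G).ge.trans h1) (filter_subset _ _)
    fun e a b c => mem_filter.2 ⟨a, (ini_eq _).trans_le b, (ter_eq _).trans_le c⟩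
  have v := fun G (h2 : ter G ≤ #B) => half Prod.fst Prod.snd A (R := rem #A #B G)
    ((ter_eq G).ge.trans h2) (filter_subset _ _)
    fun e a b c => mem_filter.2 ⟨a, (ini_eq _).trans_le c, (ter_eq _).trans_le b⟩
  have w : ∀ G, ini G ≤ #A → ter G ≤ #B → rem #A #B G = ∅ →
      1 - (pot Prod.snd Prod.fst B G + pot Prod.fst Prod.snd A G) ≤
        (if ini G = #A ∧ ter G = #B then 1 else 0) ∧
        (if ini G = #A ∧ ter G = #B then (1 : ℝ) else 0) ≤ 1 := fun G a b c => by
    have := pot_nonneg Prod.snd Prod.fst B G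
    have := pot_nonneg Prod.fst Prod.snd A G
    split_ifs with d
    · exact ⟨by linarith, le_rfl⟩
    refine ⟨?_, zero_le_one⟩
    rcases not_and_or.1 d with d | d
    · linarith [(v G b).2 c ((ini_eq G).ge.trans_lt (a.lt_of_ne d))]
    · linarith [(u G a).2 c ((ter_eq G).ge.trans_lt (b.lt_of_ne d))]
  induction k generalizing G with
  | zero => exact w G h1 h2 (subset_empty.1 (card_eq_zero.1 (Nat.le_zero.1 h) ▸ filter_subset _ G))
  | succ k ih =>
    rw [pr]
    by_cases c : rem #A #B G = ∅
    · rw [if_pos c]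
      exact w G h1 h2 c
    have c0 : (0 : ℝ) < #(rem #A #B G) := by exact_mod_cast card_pos.2 (nonempty_iff_ne_empty.2 c)
    have i := fun e (a : e ∈ rem #A #B G) => ih (G.erase e)
      (by rw [card_erase_of_mem (mem_filter.1 a).1]; omega) (mem_filter.1 a).2.1 (mem_filter.1 a).2.2
    rw [if_neg c, le_div_iff₀ c0, div_le_one c0]
    refine ⟨le_trans ?_ (sum_le_sum fun e a => (i e a).1), by
      simpa using sum_le_card_nsmul _ _ _ fun e a => (i e a).2⟩
    rw [sum_sub_distrib, sum_add_distrib, sum_const, nsmul_eq_mul]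
    linarith [(u G h1).1, (v G h2).1]

lemma start {α V : Type*} [DecidableEq α] [DecidableEq V] [Fintype V] (p q : α → V) (Z : Finset V)
    (G : Finset α) {m : ℕ} (m0 : 0 < m) (h : ∀ f ∈ G, q f ∈ Z → p f ∈ Z ∧ m ≤ #{e ∈ G | p e = p f})
    (i : Function.Injective fun f => (p f, q f)) : pot p q Z G ≤ #Z ^ 2 / m := by
  unfold pot
  split_ifs
  swap
  · positivity
  refine (sum_le_card_nsmul _ _ (1 / (m : ℝ)) fun f a => ?_).trans ?_
  · gcongr
    exact (h f (mem_filter.1 a).1 (mem_filter.1 a).2).2
  · rw [nsmul_eq_mul, mul_one_div, sq]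
    gcongr
    exact_mod_cast (card_le_card_of_injOn (t := Z ×ˢ Z) _ (fun f a => by
      simp only [coe_filter, Set.mem_ofPred_eq] at a
      simp [a.2, (h f a.1 a.2).1]) i.injOn).trans_eq (card_product ..)

theorem main {x y : ℕ} (hx : 1 ≤ x) (hy : 1 ≤ y) : Tendsto (r x y) atTop (𝓝 1) := by
  rw [← tendsto_add_atTop_iff_nat (x + y + 1)]
  have : ∀ n, 1 - (y ^ 2 / (n + 1 : ℕ) + x ^ 2 / (n + 1 : ℕ)) ≤ r x y (n + (x + y + 1)) ∧
      r x y (n + (x + y + 1)) ≤ 1 := fun n => by
    set N := n + (x + y + 1)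
    have hA : #(Iio (⟨x, by omega⟩ : Fin N)) = x := by simp
    have hB : #(Ici (⟨N - y, by omega⟩ : Fin N)) = y := by simp; omega
    have := bound _ _ hA hB _ (full N) le_rfl
      (by
        refine (card_le_card (t := {⟨0, by omega⟩}) fun v a => by_contra fun b => ?_).trans hx
        exact (mem_filter.1 a).2 (⟨0, by omega⟩, v)
          (by simp only [full, Fin.lt_def, Fin.ext_iff, mem_singleton, mem_filter_univ] at b ⊢; omega) rfl)
      (by
        refine (card_le_card (t := {⟨N - 1, by omega⟩}) fun v a => by_contra fun b => ?_).trans hy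
        exact (mem_filter.1 a).2 (v, ⟨N - 1, by omega⟩)
          (by simp only [full, Fin.lt_def, Fin.ext_iff, mem_singleton, mem_filter_univ] at b ⊢; omega) rfl)
    refine ⟨le_trans (sub_le_sub_left (add_le_add ?_ ?_) _) this.1, this.2⟩
    · refine (start _ _ _ _ n.succ_pos (fun f a b => ?_) fun _ _ a => ?_).trans_eq (by rw [hB])
      · simp only [full, mem_filter, mem_univ, true_and, mem_Ici, Fin.le_def, Fin.lt_def] at a b ⊢
        refine ⟨by omega, le_trans ?_ (card_le_card_of_injOn (s := Iio f.2) (fun v => (v, f.2))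
          (fun v c => by simpa using c) fun _ _ _ _ c => by simpa using c)⟩
        simp
        omega
      · exact Prod.swap_injective a
    · refine (start _ _ _ _ n.succ_pos (fun f a b => ?_) fun _ _ a => a).trans_eq (by rw [hA])
      simp only [full, mem_filter, mem_univ, true_and, mem_Iio, Fin.lt_def] at a b ⊢
      refine ⟨by omega, le_trans ?_ (card_le_card_of_injOn (s := Ioi f.1) (fun v => (f.1, v))
        (fun v c => by simpa using c) fun _ _ _ _ c => by simpa using c)⟩
      simp
      omega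
  refine tendsto_of_tendsto_of_tendsto_of_le_of_le ?_ tendsto_const_nhds (fun n => (this n).1)
    fun n => (this n).2
  have t := fun c : ℝ => (tendsto_add_atTop_iff_nat 1).2 (tendsto_const_div_atTop_nhds_zero_nat c)
  simpa using ((t (y ^ 2)).add (t (x ^ 2))).const_sub 1

end Pool.Agent.H10.Dag
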