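import Pool.Agent.H10.DapsDefs

namespace Pool.Agent.H10.Daps

open Finset

def E (V : Inst) (M : ℕ) : ℕ := ∑ j, M / V.f j * V.p j

lemma rhoE (V : Inst) (h : L V ≤ 2 / 5) (M : ℕ) : 5 * E V M ≤ 2 * M := by
  have h1 : rho V ≤ 2 / 5 := le_trans (le_max_left _ _) h
  have h2 : (E V M : ℝ) ≤ M * rho V := by
    unfold E rho
    push_cast
    rw [mul_sum]
    refine sum_le_sum fun j _ => ?_
    have := @Nat.cast_div_le ℝ _ _ _ M (V.f j)
    calc ((M / V.f j : ℕ) : ℝ) * V.p j ≤ (M : ℝ) / V.f j * V.p j := by gcongr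
      _ = _ := by ring
  have h3 : (5 * E V M : ℝ) ≤ 2 * M := by
    have : (M : ℝ) * rho V ≤ M * (2 / 5) := by gcongr
    linarith
  exact_mod_cast h3

lemma muE (V : Inst) (h : L V ≤ 2 / 5) (y : ℕ) (k : Fin (V.n + 1)) (h0 : V.f 0 ≤ y)
    (hk : y < V.f k) :
    ∃ g ≤ y, (∀ j, V.f j ≤ y → V.f j ≤ g) ∧ 5 * (E V g + V.p k) ≤ 2 * g := by
  have hne : (univ.filter (fun j => V.f j ≤ y)).Nonempty := ⟨0, by simpa using h0⟩
  set i := (univ.filter (fun j => V.f j ≤ y)).max' hne with hi
  have hiy : V.f i ≤ y := by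
    have := (univ.filter (fun j => V.f j ≤ y)).max'_mem hne
    simpa using this
  have hmax : ∀ j, V.f j ≤ y → j ≤ i := fun j hj =>
    (univ.filter (fun j => V.f j ≤ y)).le_max' j (by simpa using hj)
  have hik : i < k := by
    by_contra hc
    have := V.f_mono (not_lt.mp hc)
    omega
  have hil : i ≠ Fin.last _ := ne_of_lt (lt_of_lt_of_le hik (Fin.le_last k))
  obtain ⟨i', hi'⟩ := Fin.exists_castSucc_eq.mpr hil
  have h1 : muAt V i ≤ 2 / 5 := by
    have h2 : muAt V i ≤ mu V := by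
      unfold mu
      rw [le_fold_max]
      exact Or.inr ⟨i', mem_univ _, by rw [hi']⟩
    exact h2.trans (le_trans (le_max_right _ _) h)
  refine ⟨V.f i, hiy, fun j hj => V.f_mono (hmax j hj), ?_⟩
  have hE : E V (V.f i) = ∑ j ∈ univ.filter (fun j => j ≤ i), V.f i / V.f j * V.p j := by
    unfold E
    rw [sum_filter]
    refine sum_congr rfl fun j _ => ?_
    split_ifs with hj
    · rfl
    · have : ¬ V.f j ≤ y := fun hc => hj (hmax j hc)
      rw [Nat.div_eq_of_lt (by omega)]
      simp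
  have hp : V.p k ≤ (univ.filter (fun j => i < j)).sup V.p :=
    le_sup (f := V.p) (by simpa using hik)
  unfold muAt at h1
  rw [← hE, div_le_iff₀ (by exact_mod_cast V.f_pos i)] at h1
  have h3 : (5 * (E V (V.f i) + (univ.filter (fun j => i < j)).sup V.p : ℕ) : ℝ) ≤ 2 * V.f i := by
    linarith
  have h4 : 5 * (E V (V.f i) + (univ.filter (fun j => i < j)).sup V.p) ≤ 2 * V.f i := by
    exact_mod_cast h3
  omega

lemma keyH (V : Inst) (h : L V ≤ 2 / 5) (M : ℕ) (k : Fin (V.n + 1)) (h0 : V.f 0 ≤ M)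
    (hk : M < V.f k) : 2 * (E V M + V.p k) ≤ M := by
  have hr := rhoE V h M
  by_cases hc : 10 * V.p k ≤ M
  · omega
  obtain ⟨g0, hg0, -, hg0'⟩ := muE V h (V.f 0) k le_rfl (by omega)
  have h4 : ∀ j, M < 4 * V.f j := fun j => by
    have := V.f_mono (Fin.zero_le j)
    omega
  set Q := ∑ j, (if 2 * V.f j ≤ M then V.p j else 0) with hQ
  have hQ' : 10 * Q ≤ M := by
    by_cases h2 : V.f 0 ≤ M / 2
    · obtain ⟨g, hg, hg1, hg2⟩ := muE V h (M / 2) k h2 (by omega)
      have : Q ≤ E V g := by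
        refine sum_le_sum fun j _ => ?_
        split_ifs with hj
        · have h5 : V.f j ≤ g := hg1 j (by omega)
          have : 1 ≤ g / V.f j := (Nat.one_le_div_iff (V.f_pos j)).mpr h5
          nlinarith
        · omega
      omega
    · have : Q = 0 := by
        refine sum_eq_zero fun j _ => ?_
        have := V.f_mono (Fin.zero_le j)
        rw [if_neg (by omega)]
      omega
  obtain ⟨g, hg, hg1, hg2⟩ := muE V h M k h0 hk
  have hterm : ∀ j, (V.f j ≤ M → 1 ≤ g / V.f j) ∧ M / V.f j ≤ 3 ∧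
      (M < 2 * V.f j → M / V.f j ≤ 1) ∧ (M < V.f j → M / V.f j = 0) ∧
      (2 * M ≤ 3 * g → 3 ≤ M / V.f j → 2 ≤ g / V.f j) := fun j => by
    have hp := V.f_pos j
    refine ⟨fun h5 => (Nat.one_le_div_iff hp).mpr (hg1 j h5), ?_, fun h5 => ?_,
      fun h5 => Nat.div_eq_of_lt h5, fun h5 h6 => ?_⟩
    · have := (Nat.div_lt_iff_lt_mul hp).mpr (h4 j)
      omega
    · have := (Nat.div_lt_iff_lt_mul hp).mpr h5
      omega
    · have := (Nat.le_div_iff_mul_le hp).mp h6
      exact (Nat.le_div_iff_mul_le hp).mpr (by omega)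
  by_cases h3 : 2 * M ≤ 3 * g
  · have : E V M ≤ E V g + Q := by
      unfold E
      rw [hQ, ← sum_add_distrib]
      refine sum_le_sum fun j _ => ?_
      obtain ⟨a1, a2, a3, a4, a5⟩ := hterm j
      generalize g / V.f j = q at *
      generalize M / V.f j = r at *
      split_ifs with hj
      · have : r ≤ q + 1 := by omega
        nlinarith
      · have : r ≤ q := by omega
        nlinarith
    omega
  · have : E V M ≤ E V g + 2 * Q := by
      unfold E
      rw [hQ, mul_sum, ← sum_add_distrib]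
      refine sum_le_sum fun j _ => ?_
      obtain ⟨a1, a2, a3, a4, a5⟩ := hterm j
      generalize g / V.f j = q at *
      generalize M / V.f j = r at *
      split_ifs with hj
      · have : r ≤ q + 2 := by omega
        nlinarith
      · have : r ≤ q := by omega
        nlinarith
    omega

end Pool.Agent.H10.Daps
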