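import Pool.Agent.H10.DapsA

namespace Pool.Agent.H10.Daps

open Finset

def N (f : ℕ) (d x : ℤ) : ℤ := if d ≤ x then 1 + 2 * (x - d) / f else 0

def W (V : Inst) (d : Fin (V.n + 1) → ℤ) (x : ℤ) : ℤ := ∑ j, N (V.f j) (d j) x * V.p j

def Inv (V : Inst) (d : Fin (V.n + 1) → ℤ) : Prop := ∀ x, 0 ≤ x → W V d x ≤ x

def upd (V : Inst) (d : Fin (V.n + 1) → ℤ) (k : Fin (V.n + 1)) : Fin (V.n + 1) → ℤ :=
  fun j => if j = k then V.f k else d j - V.p k

lemma N_nonneg (f : ℕ) (d x : ℤ) : 0 ≤ N f d x := by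
  unfold N
  split_ifs with h
  · have : 0 ≤ 2 * (x - d) / (f : ℤ) := Int.ediv_nonneg (by omega) (by omega)
    omega
  · rfl

lemma N_shift (f : ℕ) (d x c : ℤ) : N f (d - c) x = N f d (x + c) := by
  unfold N
  have : x - (d - c) = x + c - d := by ring
  rw [this]
  by_cases h : d ≤ x + c
  · rw [if_pos h, if_pos (by omega)]
  · rw [if_neg h, if_neg (by omega)]

lemma one_add_div (f : ℕ) (hf : 0 < f) (a : ℤ) : 1 + a / f = (a + f) / f := by
  have := Int.add_mul_ediv_right a 1 (c := (f : ℤ)) (by omega)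
  rw [one_mul] at this
  omega

lemma N_le (f : ℕ) (hf : 0 < f) (d x : ℤ) (hx : 0 ≤ x) (hd : (f : ℤ) ≤ 2 * d) :
    N f d x ≤ 2 * x / f := by
  unfold N
  split_ifs with h
  · rw [one_add_div f hf]
    exact Int.ediv_le_ediv (by omega) (by omega)
  · exact Int.ediv_nonneg (by omega) (by omega)

lemma N_a (f : ℕ) (hf : 0 < f) (d x x' : ℤ) (hx : x' ≤ x) (hd : 2 * d ≤ f) (hdx : d ≤ x) :
    N f f x' + 1 ≤ N f d x := by
  unfold N
  rw [if_pos hdx]
  split_ifs with h
  · have : 1 + 2 * (x' - f) / f ≤ 2 * (x - d) / (f : ℤ) := by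
      rw [one_add_div f hf]
      exact Int.ediv_le_ediv (by omega) (by omega)
    omega
  · have : 0 ≤ 2 * (x - d) / (f : ℤ) := Int.ediv_nonneg (by omega) (by omega)
    omega

lemma N_c (f : ℕ) (hf : 0 < f) (x x' : ℤ) (hx : x' ≤ x) (hd : (f : ℤ) ≤ 2 * x) :
    N f f x' + 1 ≤ 2 * x / f := by
  unfold N
  split_ifs with h
  · have : 1 + (1 + 2 * (x' - f) / f) ≤ 2 * x / (f : ℤ) := by
      rw [one_add_div f hf, one_add_div f hf]
      exact Int.ediv_le_ediv (by omega) (by omega)
    omega
  · have : 1 + 0 / (f : ℤ) ≤ 2 * x / (f : ℤ) := by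
      rw [one_add_div f hf]
      exact Int.ediv_le_ediv (by omega) (by omega)
    simpa using this

lemma E_cast (V : Inst) (x : ℤ) (hx : 0 ≤ x) :
    ∑ j, 2 * x / (V.f j : ℤ) * V.p j = (E V (2 * x.toNat) : ℤ) := by
  unfold E
  push_cast
  rw [Int.toNat_of_nonneg hx]

lemma W_upd (V : Inst) (d : Fin (V.n + 1) → ℤ) (k : Fin (V.n + 1)) (x' : ℤ)
    (b : Fin (V.n + 1) → ℤ) (e : ℤ) (hk : N (V.f k) (V.f k) x' + e ≤ b k)
    (hj : ∀ j, j ≠ k → N (V.f j) (d j) (x' + V.p k) ≤ b j) :
    W V (upd V d k) x' + e * V.p k ≤ ∑ j, b j * V.p j := by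
  have h1 : e * (V.p k : ℤ) = ∑ j, (if j = k then e else 0) * (V.p j : ℤ) := by
    simp [ite_mul]
  unfold W
  rw [h1, ← sum_add_distrib]
  refine sum_le_sum fun j _ => ?_
  rw [← add_mul]
  refine mul_le_mul_of_nonneg_right ?_ (by positivity)
  unfold upd
  by_cases h : j = k
  · subst h
    simpa using hk
  · simp only [if_neg h, add_zero, N_shift]
    exact hj j h

def Good (V : Inst) (d : Fin (V.n + 1) → ℤ) (k : Fin (V.n + 1)) : Prop :=
  (2 * d k ≤ V.f k ∧ ∀ j, 2 * d j ≤ V.f j → d k ≤ d j) ∨ (k = 0 ∧ ∀ j, (V.f j : ℤ) < 2 * d j)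

lemma good_ex (V : Inst) (d : Fin (V.n + 1) → ℤ) : ∃ k, Good V d k := by
  by_cases h : (univ.filter (fun j => 2 * d j ≤ V.f j)).Nonempty
  · obtain ⟨k, hk, hk'⟩ := exists_min_image _ d h
    exact ⟨k, Or.inl ⟨by simpa using hk, fun j hj => hk' j (by simpa using hj)⟩⟩
  · refine ⟨0, Or.inr ⟨rfl, fun j => ?_⟩⟩
    by_contra hc
    exact h ⟨j, by simpa using hc⟩

lemma inv_step (V : Inst) (h : L V ≤ 2 / 5) (d : Fin (V.n + 1) → ℤ) (k : Fin (V.n + 1))
    (hI : Inv V d) (hg : Good V d k) : Inv V (upd V d k) := by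
  intro x' hx'
  have hpk : (0 : ℤ) < V.p k := by exact_mod_cast V.p_pos k
  have hx : 0 ≤ x' + V.p k := by omega
  have hzero : (∀ j, j ≠ k → x' + V.p k < d j) → x' < V.f k → W V (upd V d k) x' ≤ x' := by
    intro h1 h2
    have := W_upd V d k x' (fun _ => 0) 0 (by simp [N, not_le.mpr h2])
      (fun j hj => by simp [N, not_le.mpr (h1 j hj)])
    simp at this
    omega
  have hmono : ∀ j, (V.f 0 : ℤ) ≤ V.f j := fun j => by exact_mod_cast V.f_mono (Fin.zero_le j)
  rcases hg with ⟨he, hmin⟩ | ⟨rfl, hno⟩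
  · by_cases hdk : d k ≤ x' + V.p k
    · have h1 := W_upd V d k x' (fun j => N (V.f j) (d j) (x' + V.p k)) 1
        (N_a _ (V.f_pos k) _ _ _ (by omega) he hdk) (fun j _ => le_rfl)
      have h2 := hI _ hx
      unfold W at h2
      omega
    · by_cases hex : ∃ j, d j ≤ x' + V.p k
      · obtain ⟨j0, hj0⟩ := hex
        have hne : ∀ j, d j ≤ x' + V.p k → (V.f j : ℤ) < 2 * d j := fun j hj => by
          by_contra hc
          have := hmin j (not_lt.mp hc)
          omega
        have h1 := W_upd V d k x' (fun j => 2 * (x' + V.p k) / V.f j) 0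
          (by
            have : ¬ (V.f k : ℤ) ≤ x' := by omega
            simp only [N, if_neg this]
            exact Int.ediv_nonneg (by omega) (by omega))
          (fun j _ => by
            by_cases hj : d j ≤ x' + V.p k
            · exact N_le _ (V.f_pos j) _ _ hx (hne j hj).le
            · simp only [N, if_neg hj]
              exact Int.ediv_nonneg (by omega) (by omega))
        rw [E_cast V _ hx] at h1
        have h2 := hne j0 hj0
        have h3 := hmono j0
        have h4 := keyH V h (2 * (x' + V.p k).toNat) k (by omega) (by omega)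
        omega
      · push Not at hex
        exact hzero (fun j _ => hex j) (by omega)
  · by_cases hf : (V.f 0 : ℤ) ≤ 2 * (x' + V.p 0)
    · have h1 := W_upd V d 0 x' (fun j => 2 * (x' + V.p 0) / V.f j) 1
        (N_c _ (V.f_pos 0) _ _ (by omega) hf)
        (fun j _ => N_le _ (V.f_pos j) _ _ hx (hno j).le)
      rw [E_cast V _ hx] at h1
      have h4 := rhoE V h (2 * (x' + V.p 0).toNat)
      omega
    · refine hzero (fun j _ => ?_) (by omega)
      have := hno j
      have := hmono j
      omega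

lemma inv_init (V : Inst) (h : L V ≤ 2 / 5) : Inv V (fun j => V.f j) := by
  intro x hx
  have h1 : W V (fun j => V.f j) x ≤ ∑ j, 2 * x / (V.f j : ℤ) * V.p j :=
    sum_le_sum fun j _ => mul_le_mul_of_nonneg_right
      (N_le _ (V.f_pos j) _ _ hx (by simp only; omega)) (by positivity)
  rw [E_cast V _ hx] at h1
  have h4 := rhoE V h (2 * x.toNat)
  omega

lemma inv_le (V : Inst) (d : Fin (V.n + 1) → ℤ) (hI : Inv V d) (j : Fin (V.n + 1)) :
    (V.p j : ℤ) ≤ d j := by
  have hp : (0 : ℤ) < V.p j := by exact_mod_cast V.p_pos j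
  have h1 := hI (max (d j) 0) (le_max_right _ _)
  have h2 : N (V.f j) (d j) (max (d j) 0) * V.p j ≤ W V d (max (d j) 0) :=
    single_le_sum (f := fun j' => N (V.f j') (d j') (max (d j) 0) * (V.p j' : ℤ))
      (fun i _ => mul_nonneg (N_nonneg _ _ _) (by positivity)) (mem_univ j)
  have h3 : 1 ≤ N (V.f j) (d j) (max (d j) 0) := by
    unfold N
    rw [if_pos (le_max_left _ _)]
    have : 0 ≤ 2 * (max (d j) 0 - d j) / (V.f j : ℤ) := Int.ediv_nonneg (by omega) (by omega)
    omega
  have h4 : (V.p j : ℤ) ≤ N (V.f j) (d j) (max (d j) 0) * V.p j := by nlinarith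
  omega

noncomputable def nxt (V : Inst) (d : Fin (V.n + 1) → ℤ) : Fin (V.n + 1) := (good_ex V d).choose

noncomputable def st (V : Inst) : ℕ → Fin (V.n + 1) → ℤ
  | 0 => fun j => V.f j
  | t + 1 => upd V (st V t) (nxt V (st V t))

theorem lower (V : Inst) (h : L V ≤ 2 / 5) : Feasible V := by
  have hI : ∀ t, Inv V (st V t) := fun t => by
    induction t with
    | zero => exact inv_init V h
    | succ t ih => exact inv_step V h _ _ ih (good_ex V _).choose_spec
  refine ⟨fun t => nxt V (st V t), fun i => ⟨?_, ?_⟩⟩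
  · refine Set.infinite_of_forall_exists_gt fun T => ?_
    by_contra hc
    push Not at hc
    have h1 : ∀ m : ℕ, st V (T + 1 + m) i ≤ st V (T + 1) i - m := fun m => by
      induction m with
      | zero => simp
      | succ m ih =>
        have h2 : nxt V (st V (T + 1 + m)) ≠ i := fun h3 => by
          have := hc (T + 1 + m) h3
          omega
        have h3 : st V (T + 1 + (m + 1)) i = st V (T + 1 + m) i
            - V.p (nxt V (st V (T + 1 + m))) := by
          show upd V _ _ i = _
          simp [upd, h2.symm]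
        have := V.p_pos (nxt V (st V (T + 1 + m)))
        push_cast
        omega
    have h2 := h1 (st V (T + 1) i).toNat
    have h3 := inv_le V _ (hI (T + 1 + (st V (T + 1) i).toNat)) i
    have := V.p_pos i
    omega
  · intro a b hab ha hb hno
    have h1 : ∀ t, a + 1 ≤ t → t ≤ b →
        st V t i + ((∑ s ∈ Ico (a + 1) t, V.p (nxt V (st V s)) : ℕ) : ℤ) = V.f i := by
      intro t ht
      induction t, ht using Nat.le_induction with
      | base =>
        intro _
        show upd V _ _ i + _ = _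
        simp only at ha
        simp [upd, ha]
      | succ t ht ih =>
        intro htb
        have h2 : nxt V (st V t) ≠ i := hno t (by omega) (by omega)
        have h3 : st V (t + 1) i = st V t i - V.p (nxt V (st V t)) := by
          show upd V _ _ i = _
          simp [upd, h2.symm]
        rw [sum_Ico_succ_top ht, h3]
        have := ih (by omega)
        push_cast at this ⊢
        omega
    have h2 := h1 b (by omega) le_rfl
    have h3 := inv_le V _ (hI b) i
    have h4 : Ioc a b = Ico (a + 1) (b + 1) := by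
      ext t
      simp only [mem_Ioc, mem_Ico]
      omega
    simp only at hb
    rw [h4, sum_Ico_succ_top (by omega)]
    simp only [hb]
    omega

end Pool.Agent.H10.Daps
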