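import Pool.Agent.H10.DapsB

namespace Pool.Agent.H10.Daps

open Finset

def exF : Fin 5 → ℕ := ![1705, 3184, 4429, 5065, 10000000]
def exP : Fin 5 → ℕ := ![411, 657, 638, 177, 657]

def ex : Inst where
  n := 4
  f := exF
  p := exP
  f_pos := by decide
  p_pos := by decide
  f_mono := by decide

def bad (a b c d : ℕ) : Bool :=
  Nat.blt 1294 a || Nat.blt 2527 b || Nat.blt 3791 c || Nat.blt 4888 d

def dies : ℕ → ℕ → ℕ → ℕ → ℕ → Bool
  | 0, a, b, c, d => bad a b c d
  | r + 1, a, b, c, d => bad a b c d ||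
      (dies r 0 (b + 411) (c + 411) (d + 411) && dies r (a + 657) 0 (c + 657) (d + 657) &&
       dies r (a + 638) (b + 638) 0 (d + 638) && dies r (a + 177) (b + 177) (c + 177) 0 &&
       dies r (a + 657) (b + 657) (c + 657) (d + 657))

def pre : ℕ → ℕ → ℕ → ℕ → ℕ → Bool
  | 0, a, b, c, d => dies 30 (a + 657) (b + 657) (c + 657) (d + 657)
  | r + 1, a, b, c, d => bad a b c d ||
      (pre r 0 (b + 411) (c + 411) (d + 411) && pre r (a + 657) 0 (c + 657) (d + 657) &&
       pre r (a + 638) (b + 638) 0 (d + 638) && pre r (a + 177) (b + 177) (c + 177) 0 &&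
       pre r (a + 657) (b + 657) (c + 657) (d + 657))

lemma pre_true : pre 7 0 0 0 0 = true := by decide +kernel

/-- ages along a schedule started at time `t0` -/
def age (S : ℕ → Fin 5) (t0 : ℕ) (i : Fin 5) : ℕ → ℕ
  | 0 => 0
  | m + 1 => if S (t0 + m) = i then 0 else age S t0 i m + exP (S (t0 + m))

lemma age_le (S : ℕ → Fin 5) (hS : FeasibleSched ex S) (t0 : ℕ) (i : Fin 5)
    (h0 : ∃ a < t0, S a = i) (m : ℕ) : age S t0 i m + exP i ≤ exF i := by
  have h1 : ∃ a < t0 + m, S a = i ∧ (∀ t, a < t → t < t0 + m → S t ≠ i) ∧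
      age S t0 i m ≤ ∑ s ∈ Ico (a + 1) (t0 + m), exP (S s) := by
    induction m with
    | zero =>
      classical
      obtain ⟨a, ha, hai⟩ := h0
      have hex : ∃ a, a < t0 ∧ S a = i := ⟨a, ha, hai⟩
      refine ⟨Nat.findGreatest (fun a => a < t0 ∧ S a = i) t0, ?_, ?_, ?_, by simp [age]⟩
      · exact (Nat.findGreatest_spec (P := fun a => a < t0 ∧ S a = i) ha.le ⟨ha, hai⟩).1
      · exact (Nat.findGreatest_spec (P := fun a => a < t0 ∧ S a = i) ha.le ⟨ha, hai⟩).2
      · intro t h1 h2 h3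
        exact Nat.findGreatest_is_greatest h1 (by omega) ⟨by omega, h3⟩
    | succ m ih =>
      obtain ⟨a, ha, hai, hno, hle⟩ := ih
      by_cases h : S (t0 + m) = i
      · exact ⟨t0 + m, by omega, h, fun t h1 h2 => by omega, by simp [age, h]⟩
      · refine ⟨a, by omega, hai, fun t h1 h2 => ?_, ?_⟩
        · by_cases h3 : t = t0 + m
          · rw [h3]; exact h
          · exact hno t h1 (by omega)
        · rw [← add_assoc, sum_Ico_succ_top (by omega)]
          simp only [age, if_neg h]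
          omega
  obtain ⟨a, ha, hai, hno, hle⟩ := h1
  classical
  have hex : ∃ b, t0 + m ≤ b ∧ S b = i := by
    obtain ⟨b, hb, hb'⟩ := (hS i).1.exists_gt (t0 + m)
    exact ⟨b, hb'.le, hb⟩
  obtain ⟨hb1, hb2⟩ := Nat.find_spec hex
  have h2 := (hS i).2 a (Nat.find hex) (by omega) hai hb2 (fun t h1 h2 h3 => by
    by_cases h4 : t < t0 + m
    · exact hno t h1 h4 h3
    · exact Nat.find_min hex h2 ⟨by omega, h3⟩)
  have h3 : ∑ s ∈ insert (Nat.find hex) (Ico (a + 1) (t0 + m)), exP (S s) ≤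
      ∑ s ∈ Ioc a (Nat.find hex), exP (S s) := by
    refine sum_le_sum_of_subset fun s hs => ?_
    simp only [mem_insert, mem_Ico, mem_Ioc] at hs ⊢
    omega
  rw [sum_insert (by simp only [mem_Ico]; omega), hb2] at h3
  change ∑ s ∈ Ioc a (Nat.find hex), exP (S s) ≤ exF i at h2
  omega

lemma not_bad (S : ℕ → Fin 5) (hS : FeasibleSched ex S) (t0 : ℕ)
    (h0 : ∀ i, ∃ a < t0, S a = i) (m : ℕ) :
    bad (age S t0 0 m) (age S t0 1 m) (age S t0 2 m) (age S t0 3 m) = false := by
  have a0 := age_le S hS t0 0 (h0 _) m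
  have a1 := age_le S hS t0 1 (h0 _) m
  have a2 := age_le S hS t0 2 (h0 _) m
  have a3 := age_le S hS t0 3 (h0 _) m
  simp [exF, exP] at a0 a1 a2 a3
  simp only [bad, Bool.or_eq_false_iff]
  refine ⟨⟨⟨?_, ?_⟩, ?_⟩, ?_⟩ <;> rw [← Bool.not_eq_true, Nat.blt_eq] <;> omega

lemma dies_false (S : ℕ → Fin 5) (hS : FeasibleSched ex S) (t0 : ℕ)
    (h0 : ∀ i, ∃ a < t0, S a = i) (r m : ℕ) :
    dies r (age S t0 0 m) (age S t0 1 m) (age S t0 2 m) (age S t0 3 m) = false := by
  induction r generalizing m with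
  | zero => exact not_bad S hS t0 h0 m
  | succ r ih =>
    have h1 := ih (m + 1)
    rw [dies, not_bad S hS t0 h0 m]
    simp only [age] at h1
    generalize S (t0 + m) = k at h1
    fin_cases k <;> simp [exP] at h1 <;> simp [h1]

lemma pre_false (S : ℕ → Fin 5) (hS : FeasibleSched ex S) (t0 : ℕ)
    (h0 : ∀ i, ∃ a < t0, S a = i) (r m : ℕ) (hl : S (t0 + (m + r)) = 4) :
    pre r (age S t0 0 m) (age S t0 1 m) (age S t0 2 m) (age S t0 3 m) = false := by
  induction r generalizing m with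
  | zero =>
    have h1 := dies_false S hS t0 h0 30 (m + 1)
    simp only [age] at h1
    rw [add_zero] at hl
    rw [hl] at h1
    rw [pre]
    simpa [exP] using h1
  | succ r ih =>
    have h1 := ih (m + 1) (by rw [← hl]; congr 1; omega)
    rw [pre, not_bad S hS t0 h0 m]
    simp only [age] at h1
    generalize S (t0 + m) = k at h1
    fin_cases k <;> simp [exP] at h1 <;> simp [h1]

theorem ex_infeasible : ¬ Feasible ex := by
  rintro ⟨S, hS⟩
  have h1 : ∀ i : Fin 5, ∃ a, S a = i := fun i => (hS i).1.nonempty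
  choose g hg using h1
  obtain ⟨b, hb, hb'⟩ := (hS (4 : Fin 5)).1.exists_gt (univ.sup g + 8)
  have h2 := pre_false S hS (b - 7) (fun i => ⟨g i, by
    have : g i ≤ univ.sup g := le_sup (mem_univ i)
    omega, hg i⟩) 7 0 (by
      have : b - 7 + (0 + 7) = b := by omega
      rw [this]
      exact hb)
  simp only [age] at h2
  rw [pre_true] at h2
  exact absurd h2 (by decide)

lemma ex_L : L ex ≤ 6265 / 10000 := by
  refine max_le ?_ ?_
  · show ∑ i : Fin 5, (exP i : ℝ) / exF i ≤ _
    simp [Fin.sum_univ_succ, exP, exF]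
    norm_num
  · unfold mu
    rw [fold_max_le]
    refine ⟨by norm_num, fun i _ => ?_⟩
    have key : ∀ i : Fin 4, 10000 * (∑ j ∈ univ.filter (fun j => j ≤ i.castSucc),
        exF i.castSucc / exF j * exP j + (univ.filter (fun j => i.castSucc < j)).sup exP)
        ≤ 6265 * exF i.castSucc := by decide +kernel
    have h1 := key i
    unfold muAt
    rw [div_le_div_iff₀ (by exact_mod_cast ex.f_pos _) (by norm_num)]
    rw [mul_comm] at h1
    exact_mod_cast h1

end Pool.Agent.H10.Daps
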