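import Mathlib

namespace Pool.Agent.H10.Daps

open Finset

/-- A DAPS instance with `n + 1` jobs: positive frequencies `f` in nondecreasing order and
positive durations `p`. -/
structure Inst where
  n : ℕ
  f : Fin (n + 1) → ℕ
  p : Fin (n + 1) → ℕ
  f_pos : ∀ i, 0 < f i
  p_pos : ∀ i, 0 < p i
  f_mono : Monotone f

/-- `S` is a feasible schedule: every job is processed infinitely often, and for consecutive
positions `a < b` of job `i` the durations of positions `a + 1, …, b` sum to at most `f i`. -/
def FeasibleSched (V : Inst) (S : ℕ → Fin (V.n + 1)) : Prop :=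
  ∀ i, {t | S t = i}.Infinite ∧
    ∀ a b, a < b → S a = i → S b = i → (∀ t, a < t → t < b → S t ≠ i) →
      ∑ t ∈ Ioc a b, V.p (S t) ≤ V.f i

/-- The instance is feasible. -/
def Feasible (V : Inst) : Prop := ∃ S, FeasibleSched V S

/-- The density. -/
noncomputable def rho (V : Inst) : ℝ := ∑ i, (V.p i : ℝ) / V.f i

/-- The term of the localized measure at job `i`. -/
noncomputable def muAt (V : Inst) (i : Fin (V.n + 1)) : ℝ :=
  ((∑ j ∈ univ.filter (fun j => j ≤ i), V.f i / V.f j * V.p j +
    (univ.filter (fun j => i < j)).sup V.p : ℕ) : ℝ) / V.f i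

/-- The localized measure: the maximum over all jobs but the last (zero for a single job). -/
noncomputable def mu (V : Inst) : ℝ :=
  (univ : Finset (Fin V.n)).fold max 0 (fun i => muAt V i.castSucc)

/-- `L(V) = max (rho, mu)`. -/
noncomputable def L (V : Inst) : ℝ := max (rho V) (mu V)

/-- The threshold `alpha*`. -/
noncomputable def alphaStar : ℝ := sSup {a : ℝ | ∀ V : Inst, L V ≤ a → Feasible V}

end Pool.Agent.H10.Daps
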