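import Mathlib

set_option autoImplicit false

namespace Pool.Agent.H10.DirPoly
open Polynomial Finset Classical

section general
variable {K : Type} [Field K]

/-- coefficientwise derivative -/
noncomputable def dx (P : K[X][X]) : K[X][X] := P.sum fun n a => monomial n (derivative a)

lemma coeff_dx (P : K[X][X]) (n : ℕ) : (dx P).coeff n = derivative (P.coeff n) := by
  simp only [dx, sum_def, finsetSum_coeff, coeff_monomial, sum_ite_eq', mem_support_iff]
  split_ifs with h
  · rfl
  · rw [not_not.mp h]; simp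

lemma dx_add (P Q : K[X][X]) : dx (P + Q) = dx P + dx Q := by
  ext1 n; simp [coeff_dx]

lemma dx_zero : dx (0 : K[X][X]) = 0 := by ext1 n; simp [coeff_dx]

lemma dx_mul (P Q : K[X][X]) : dx (P * Q) = dx P * Q + P * dx Q := by
  ext1 n
  simp only [coeff_dx, coeff_add, coeff_mul, derivative_sum, derivative_mul, sum_add_distrib]

lemma dx_C (a : K[X]) : dx (C a) = C (derivative a) := by
  ext1 n; simp only [coeff_dx, coeff_C]; split_ifs <;> simp

lemma dx_X : dx (X : K[X][X]) = 0 := by
  ext1 n; simp only [coeff_dx, coeff_X]; split_ifs <;> simp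

lemma dx_sum {ι : Type} (A : Finset ι) (P : ι → K[X][X]) :
    dx (∑ a ∈ A, P a) = ∑ a ∈ A, dx (P a) := by
  ext1 n; simp [coeff_dx]

lemma dx_pow (P : K[X][X]) (n : ℕ) : dx (P ^ (n + 1)) = (n + 1) * P ^ n * dx P := by
  induction n with
  | zero => simp
  | succ n ih => rw [pow_succ, dx_mul, ih]; push_cast; ring

lemma dx_eval (P : K[X][X]) (l : K[X]) :
    derivative (P.eval l) = (dx P).eval l + (derivative P).eval l * derivative l := by
  induction P using Polynomial.induction_on with
  | C a => simp [dx_C]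
  | add P Q a b => simp [dx_add, a, b]; ring
  | monomial n a ih =>
    rw [pow_succ, ← mul_assoc, dx_mul, dx_X, derivative_mul, eval_mul, derivative_mul, ih]
    simp; ring

lemma dx_deg (P : K[X][X]) : (dx P).natDegree ≤ P.natDegree :=
  natDegree_le_iff_coeff_eq_zero.mpr fun n hn => by
    rw [coeff_dx, coeff_eq_zero_of_natDegree_lt hn]; simp

/-- total degree bound -/
def TD (P : K[X][X]) (n : ℕ) : Prop := ∀ j i, n < i + j → (P.coeff j).coeff i = 0

lemma TD.mul {P Q : K[X][X]} {n m : ℕ} (h : TD P n) (h' : TD Q m) : TD (P * Q) (n + m) := by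
  intro j i hij
  rw [coeff_mul, finsetSum_coeff]
  refine sum_eq_zero fun x hx => ?_
  rw [coeff_mul]
  refine sum_eq_zero fun y hy => ?_
  rw [HasAntidiagonal.mem_antidiagonal] at hx hy
  by_cases c : n < y.1 + x.1
  · rw [h _ _ c, zero_mul]
  · rw [h' _ _ (by omega), mul_zero]

lemma TD.one : TD (1 : K[X][X]) 0 := by
  intro j i h
  rw [coeff_one]
  split_ifs with c
  · rw [coeff_one, if_neg (by omega)]
  · simp

lemma TD.pow {P : K[X][X]} (h : TD P 1) (n : ℕ) : TD (P ^ n) n := by
  induction n with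
  | zero => simpa using TD.one
  | succ n ih => rw [pow_succ]; exact ih.mul h

lemma TD.prod {ι : Type} (A : Finset ι) (P : ι → K[X][X]) (h : ∀ a, TD (P a) 1) :
    TD (∏ a ∈ A, P a) #A := by
  induction A using Finset.induction_on with
  | empty => simpa using TD.one
  | insert a A ha ih => rw [prod_insert ha, card_insert_of_notMem ha, add_comm]; exact (h a).mul ih

lemma TD.sum {ι : Type} (A : Finset ι) (P : ι → K[X][X]) (n : ℕ) (h : ∀ a, TD (P a) n) :
    TD (∑ a ∈ A, P a) n := by
  intro j i hij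
  simp only [finsetSum_coeff]
  exact sum_eq_zero fun a _ => h a j i hij

/-- the linear polynomial `f x + t y + g` -/
noncomputable def lin (f t g : K) : K[X][X] := C (C t) * X + C (C f * X + C g)

lemma TD.lin (f t g : K) : TD (lin f t g) 1 := by
  intro j i h
  simp only [DirPoly.lin, coeff_add, coeff_C_mul, coeff_X, coeff_C]
  rcases j with _ | _ | j <;> rcases i with _ | _ | i <;> simp [coeff_one] at h ⊢

lemma lin_deg (f t g : K) : (lin f t g).natDegree ≤ 1 := by
  unfold lin; compute_degree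

/-- vanishing weighted moments -/
def Mom {ι : Type} (f t g w : ι → K) (A : Finset ι) (r : ℕ) : Prop :=
  ∀ j ≤ r, ∑ a ∈ A, C (C (w a)) * lin (f a) (t a) (g a) ^ j = 0

lemma Mom.step {ι : Type} {f t g w : ι → K} {A : Finset ι} {r : ℕ} (h : Mom f t g w A (r + 1))
    (hr : ∀ j ≤ r, ((j + 1 : ℕ) : K) ≠ 0) (α β γ δ : K) :
    Mom f t g (fun a => w a * (α * f a + β * t a + γ * g a + δ)) A r := by
  intro j hj
  have h0 := h j (by omega)
  have h1 := h (j + 1) (by omega)
  have nz : ((j : K[X][X]) + 1) ≠ 0 := by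
    have : ((j : K[X][X]) + 1) = C (C ((j + 1 : ℕ) : K)) := by simp
    rw [this]
    exact C_ne_zero.mpr (C_ne_zero.mpr (hr j hj))
  have h2 : ∑ a ∈ A, C (C (w a)) * C (C (f a)) * lin (f a) (t a) (g a) ^ j = 0 := by
    apply mul_left_cancel₀ nz
    have := congrArg dx h1
    rw [dx_sum, dx_zero] at this
    rw [mul_sum, mul_zero, ← this]
    refine sum_congr rfl fun a _ => ?_
    rw [dx_mul, dx_pow, dx_C]
    simp [lin, dx_add, dx_mul, dx_C, dx_X]
    ring
  have h3 : ∑ a ∈ A, C (C (w a)) * C (C (t a)) * lin (f a) (t a) (g a) ^ j = 0 := by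
    apply mul_left_cancel₀ nz
    have := congrArg derivative h1
    rw [derivative_sum, derivative_zero] at this
    rw [mul_sum, mul_zero, ← this]
    refine sum_congr rfl fun a _ => ?_
    rw [derivative_mul, derivative_pow_succ]
    simp [lin]
    ring
  have h4 : ∑ a ∈ A, C (C (w a * (α * f a + β * t a + γ * g a + δ))) *
      lin (f a) (t a) (g a) ^ j =
      (C (C α) - C (C γ) * C X) * ∑ a ∈ A, C (C (w a)) * C (C (f a)) * lin (f a) (t a) (g a) ^ j +
      (C (C β) - C (C γ) * X) * ∑ a ∈ A, C (C (w a)) * C (C (t a)) * lin (f a) (t a) (g a) ^ j +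
      C (C γ) * ∑ a ∈ A, C (C (w a)) * lin (f a) (t a) (g a) ^ (j + 1) +
      C (C δ) * ∑ a ∈ A, C (C (w a)) * lin (f a) (t a) (g a) ^ j := by
    simp only [mul_sum, ← sum_add_distrib]
    refine sum_congr rfl fun a _ => ?_
    rw [pow_succ]
    generalize lin (f a) (t a) (g a) ^ j = Z
    simp only [lin, map_add, map_mul]
    ring
  rw [h4, h0, h1, h2, h3]
  simp

/-- the degenerate foliation -/
lemma degenerate (p : ℕ) (hp : ∀ j, 0 < j → j < p → (j : K) ≠ 0) (P Q : K[X][X]) (P0 : P ≠ 0)
    (dP : P.natDegree < p) (dQ : Q.natDegree < p)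
    (E : P * (P * dx Q + Q * derivative Q) - Q * (P * dx P + Q * derivative P) = 0) :
    ∃ G : K[X][X], G ≠ 0 ∧ G.natDegree ≤ P.natDegree ∧ ∃ α β γ : K, (α ≠ 0 ∨ β ≠ 0) ∧
      ∀ s r : K, Q.eval (C s * X + C r) = C s * P.eval (C s * X + C r) →
        G.eval (C s * X + C r) = 0 ∨ α * s + β * r + γ = 0 := by
  obtain ⟨P', Q', G, hc, rfl, rfl⟩ := UniqueFactorizationMonoid.exists_reduced_factors P P0 Q
  have G0 : G ≠ 0 := left_ne_zero_of_mul P0
  have P1 : P' ≠ 0 := right_ne_zero_of_mul P0
  have E' : P' * (P' * dx Q' + Q' * derivative Q') - Q' * (P' * dx P' + Q' * derivative P') = 0 := by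
    apply mul_left_cancel₀ (pow_ne_zero 3 G0)
    rw [mul_zero, ← E]
    simp only [dx_mul, derivative_mul]
    ring
  rw [natDegree_mul G0 P1] at dP ⊢
  have lead : ∀ R : K[X][X], ∀ n, R.natDegree = n + 1 → n + 1 < p →
      (derivative R).coeff n ≠ 0 := by
    intro R n hn hlt
    rw [coeff_derivative]
    refine mul_ne_zero ?_ ?_
    · rw [← hn]; exact leadingCoeff_ne_zero.mpr (by rintro rfl; simp at hn)
    · have : ((n : K[X]) + 1) = C ((n + 1 : ℕ) : K) := by simp
      rw [this]
      exact C_ne_zero.mpr (hp _ (by omega) hlt)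
  have d1 : P' ∣ derivative P' := by
    have : P' ∣ Q' * (Q' * derivative P') :=
      ⟨P' * dx Q' + Q' * derivative Q' - Q' * dx P', by linear_combination -E'⟩
    exact hc.dvd_of_dvd_mul_left (hc.dvd_of_dvd_mul_left this)
  have d2 : P'.natDegree = 0 := by
    by_contra h
    obtain ⟨n, hn⟩ := Nat.exists_eq_succ_of_ne_zero h
    have := eq_zero_of_dvd_of_natDegree_lt d1 (natDegree_derivative_lt h)
    exact lead P' n hn (by omega) (by rw [this]; simp)
  obtain ⟨p0, rfl⟩ := natDegree_eq_zero.mp d2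
  have p1 : p0 ≠ 0 := by simpa using P1
  have E2 : Q' * derivative Q' = Q' * C (derivative p0) - C p0 * dx Q' := by
    apply mul_left_cancel₀ P1
    rw [dx_C, derivative_C] at E'
    linear_combination E'
  have d3 : Q'.natDegree ≤ 1 := by
    by_contra h
    have Q0 : Q' ≠ 0 := by rintro rfl; simp at h
    rw [natDegree_mul G0 Q0] at dQ
    obtain ⟨n, hn⟩ : ∃ n, Q'.natDegree = n + 1 := ⟨Q'.natDegree - 1, by omega⟩
    have a1 := lead Q' n hn (by omega)
    have a2 := le_natDegree_of_ne_zero a1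
    have a3 : derivative Q' ≠ 0 := by rintro h; simp [h] at a1
    have a4 := natDegree_mul Q0 a3
    have a5 := natDegree_sub_le (Q' * C (derivative p0)) (C p0 * dx Q')
    have a6 := natDegree_mul_C_le Q' (derivative p0)
    have a7 := (natDegree_C_mul_le p0 (dx Q')).trans (dx_deg Q')
    rw [E2] at a4
    omega
  obtain ⟨q1, q0, rfl⟩ := exists_eq_X_add_C_of_natDegree_le_one d3
  obtain ⟨i, hi⟩ : ∃ i, (q1 * X - p0).coeff i ≠ 0 ∨ q1.coeff i ≠ 0 := by
    by_contra h
    push Not at h
    have a : q1 = 0 := by ext i; exact (h i).2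
    have b : q1 * X - p0 = 0 := by ext i; exact (h i).1
    simp [a, p1] at b
  refine ⟨G, G0, by omega, _, _, q0.coeff i, hi, fun s r h => ?_⟩
  rw [or_iff_not_imp_left]
  intro g0
  rw [eval_mul, eval_mul, mul_left_comm] at h
  have h1 := mul_left_cancel₀ g0 h
  simp only [eval_add, eval_mul, eval_C, eval_X] at h1
  have h2 : C s * (q1 * X - p0) + C r * q1 + q0 = 0 := by linear_combination h1
  have h3 := congrArg (fun z => coeff z i) h2
  simp only [coeff_add, coeff_C_mul, coeff_zero] at h3
  linear_combination h3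

end general

section prime
variable {p : ℕ} [Fact p.Prime]

lemma cast_ne (j : ℕ) (h0 : 0 < j) (h : j < p) : (j : ZMod p) ≠ 0 := fun c =>
  absurd (Nat.le_of_dvd h0 ((ZMod.natCast_eq_zero_iff j p).mp c)) (by omega)

lemma pow_sum {ι : Type} (A : Finset ι) (hA : #A = p) (ψ : ι → ZMod p) (h : Set.InjOn ψ A)
    (j : ℕ) (hj : j + 1 < p) : ∑ a ∈ A, ψ a ^ j = 0 := by
  have e : A.image ψ = univ := eq_univ_of_card _ (by rw [card_image_of_injOn h, hA, ZMod.card])
  rw [← FiniteField.sum_pow_lt_card_sub_one (ZMod p) j (by rw [ZMod.card]; omega), ← e,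
    sum_image h]

lemma vanish (q : (ZMod p)[X]) (hq : ∀ x, q.eval x = 0) (hd : q.natDegree < p) : q = 0 :=
  eq_zero_of_natDegree_lt_card_of_eval_eq_zero' q univ (fun x _ => hq x) (by simpa using hd)

lemma frob {R : Type} [CommRing R] [Nontrivial R] :
    (X ^ p - X : R[X]).Monic ∧ (X ^ p - X : R[X]).natDegree = p := by
  have h := (Fact.out : p.Prime).one_lt
  refine ⟨monic_X_pow_sub (by rw [degree_X]; exact_mod_cast h), ?_⟩
  rw [natDegree_sub_eq_left_of_natDegree_lt (by simpa using h), natDegree_X_pow]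

lemma mod_lt {R : Type} [CommRing R] [Nontrivial R] (q : R[X]) :
    (q %ₘ (X ^ p - X)).natDegree < p := by
  have h := (Fact.out : p.Prime).one_lt
  have := natDegree_modByMonic_lt q (frob (p := p)).1 (fun c => by
    have := (frob (p := p) (R := R)).2
    rw [c] at this
    simp at this
    omega)
  rwa [frob.2] at this

theorem core {ι : Type} (A : Finset ι) (hA : #A = p) (f t g : ι → ZMod p)
    (D : Finset (ZMod p × ZMod p)) (hD : #D = p)
    (hd : ∀ a ∈ A, ∀ b ∈ A, a ≠ b → t a ≠ t b ∧ ∃ d ∈ D, f a - f b = d.1 * (t a - t b) ∧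
      g a - g b = d.2 * (t a - t b)) (k : ℕ) (hk : 3 * k ≤ p + 1) (hp : 5 ≤ p)
    (hπ : ∑ a ∈ A, lin (f a) (t a) (g a) ^ k ≠ 0) :
    ∃ α β γ : ZMod p, (α ≠ 0 ∨ β ≠ 0) ∧ ∃ Δ : Finset (ZMod p), #Δ ≤ k ∧ ∀ a ∈ A, ∀ b ∈ A, a ≠ b →
      ∃ c ∈ Δ, (α * f a + β * g a + γ * t a) - (α * f b + β * g b + γ * t b) = c * (t a - t b) := by
  obtain ⟨π, eπ⟩ : ∃ π, π = ∑ a ∈ A, lin (f a) (t a) (g a) ^ k := ⟨_, rfl⟩
  rw [← eπ] at hπ
  have k0 : k ≠ 0 := by
    rintro rfl
    apply hπ
    simp only [eπ, pow_zero, sum_const, hA, nsmul_eq_mul, mul_one]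
    rw [← map_natCast (C : (ZMod p)[X] →+* _), ← map_natCast (C : ZMod p →+* _)]
    simp
  have tπ : TD π k := eπ ▸ TD.sum A _ k fun a => (TD.lin _ _ _).pow k
  have dπ : π.natDegree ≤ k - 1 := natDegree_le_iff_coeff_eq_zero.mpr fun n hn => by
    by_cases c : n = k
    · have e : ∀ a, (lin (f a) (t a) (g a) ^ k).coeff n = C (t a ^ k) := fun a => by
        have := coeff_pow_of_natDegree_le (m := k) (lin_deg (f a) (t a) (g a))
        rw [mul_one] at this
        rw [c, this]
        simp [lin]
      rw [eπ, finsetSum_coeff, sum_congr rfl fun a _ => e a, ← map_sum,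
        pow_sum A hA t (fun a ha b hb h => by_contra fun n => (hd a ha b hb n).1 h) k (by omega),
        C_0]
    · ext i; exact tπ n i (by omega)
  obtain ⟨M, eM⟩ : ∃ M, M = ∏ d ∈ D, lin d.1 1 d.2 := ⟨_, rfl⟩
  have ml : ∀ d : ZMod p × ZMod p, lin d.1 1 d.2 = X + C (C d.1 * X + C d.2) := fun d => by
    simp [lin]
  have mM : M.Monic := eM ▸ monic_prod_of_monic _ _ fun d _ => ml d ▸ monic_X_add_C _
  have dM : M.natDegree = p := by
    rw [eM, natDegree_prod_of_monic _ _ fun d _ => ml d ▸ monic_X_add_C _]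
    simp only [ml, natDegree_X_add_C, sum_const, hD, smul_eq_mul, mul_one]
  have tM : TD (M * π) (p + k) := by
    have := TD.prod D (fun d => lin d.1 1 d.2) fun d => TD.lin _ _ _
    rw [hD, ← eM] at this
    exact this.mul tπ
  have van : ∀ x y, (M * π).evalEval x y = 0 := by
    intro x y
    rw [evalEval_mul]
    by_cases c : ∃ d ∈ D, y + d.1 * x + d.2 = 0
    · obtain ⟨d, hd, e⟩ := c
      rw [eM, evalEval_prod, prod_eq_zero hd, zero_mul]
      simp only [ml, evalEval_add, evalEval_X, evalEval_C, eval_add, eval_mul, eval_C, eval_X]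
      linear_combination e
    · push Not at c
      have e : π.evalEval x y = ∑ a ∈ A, (t a * y + (f a * x + g a)) ^ k := by
        rw [eπ, evalEval_finsetSum]
        refine sum_congr rfl fun a _ => ?_
        simp [lin, evalEval]
      rw [e, pow_sum A hA _ _ k (by omega), mul_zero]
      intro a ha b hb h
      by_contra n
      obtain ⟨n1, d, hd, e1, e2⟩ := hd a ha b hb n
      refine mul_ne_zero (sub_ne_zero.mpr n1) (c d hd) ?_
      simp only at h
      linear_combination h - x * e1 - e2
  obtain ⟨B, eB⟩ : ∃ B, B = (M * π) /ₘ (X ^ p - X) := ⟨_, rfl⟩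
  obtain ⟨R, eR⟩ : ∃ R, R = (M * π) %ₘ (X ^ p - X) := ⟨_, rfl⟩
  have dec : R + (X ^ p - X) * B = M * π := by rw [eB, eR]; exact modByMonic_add_div ..
  have dR : R.natDegree < p := eR ▸ mod_lt _
  have dMπ := mM.natDegree_mul' hπ
  have dB : B.natDegree ≤ k - 1 := by
    rw [eB, natDegree_divByMonic _ frob.1, frob.2]; omega
  have B0 : B ≠ 0 := by
    rintro rfl
    rw [mul_zero, add_zero] at dec
    rw [dec] at dR
    omega
  have vR : ∀ j x, (R.coeff j).eval x = 0 := by
    intro j x
    have := vanish (R.map (evalRingHom x)) (fun y => by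
      have := van x y
      rw [← dec] at this
      rw [map_evalRingHom_eval]
      simpa [evalEval_add, evalEval_mul, evalEval_sub, evalEval_pow] using this)
      (natDegree_map_le.trans_lt dR)
    simpa using congrArg (fun z => coeff z j) this
  have dR2 : R.natDegree ≤ k := natDegree_le_iff_coeff_eq_zero.mpr fun j hj => by
    by_cases c : p ≤ j
    · exact coeff_eq_zero_of_natDegree_lt (by omega)
    obtain ⟨j, rfl⟩ : ∃ i, j = i + 1 := ⟨j - 1, by omega⟩
    have e := congrArg (fun z => coeff z (j + 1)) dec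
    simp only [sub_mul, coeff_add, coeff_sub, coeff_X_mul, coeff_X_pow_mul', if_neg c] at e
    rw [coeff_eq_zero_of_natDegree_lt (p := B) (by omega), sub_zero, add_zero] at e
    refine vanish _ (vR _) ?_
    have : (R.coeff (j + 1)).natDegree ≤ p - 1 := natDegree_le_iff_coeff_eq_zero.mpr fun i hi =>
      e ▸ tM _ _ (by omega)
    omega
  obtain ⟨Q, eQ⟩ : C (X ^ p - X) ∣ R := (C_dvd_iff_dvd_coeff _ _).mpr fun j => by
    rw [← modByMonic_eq_zero_iff_dvd frob.1]
    refine vanish _ (fun x => ?_) (mod_lt _)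
    have := congrArg (eval x) (modByMonic_add_div (R.coeff j) (X ^ p - X))
    simpa [vR] using this
  have f0 : (X ^ p - X : (ZMod p)[X]) ≠ 0 := frob.1.ne_zero
  have dQ : (-Q).natDegree ≤ k := by rwa [eQ, natDegree_C_mul f0, ← natDegree_neg] at dR2
  let l : ZMod p × ZMod p → (ZMod p)[X] := fun d => C (-d.1) * X + C (-d.2)
  have linj : Function.Injective l := fun d e h => by
    have a := congrArg (fun z => coeff z 0) h
    have b := congrArg (fun z => coeff z 1) h
    simp [l] at a b
    exact Prod.ext b a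
  have inv : ∀ d ∈ D, (-Q).eval (l d) = C (-d.1) * B.eval (l d) := by
    intro d hd
    have e := congrArg (eval (l d)) dec
    have e1 : M.eval (l d) = 0 := by
      rw [eM, eval_prod, prod_eq_zero hd]
      simp [ml, l]
      ring
    have e2 : l d ^ p - l d = C (-d.1) * (X ^ p - X) := by
      simp only [l]
      rw [add_pow_char, mul_pow, ← C_pow, ← C_pow, ZMod.pow_card, ZMod.pow_card]
      ring
    rw [eQ] at e
    simp only [eval_add, eval_mul, eval_sub, eval_pow, eval_X, eval_C, e1, e2] at e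
    apply mul_left_cancel₀ f0
    rw [eval_neg]
    linear_combination -e
  generalize -Q = Q at dQ inv
  have E : B * (B * dx Q + Q * derivative Q) - Q * (B * dx B + Q * derivative B) = 0 := by
    refine eq_zero_of_natDegree_lt_card_of_eval_eq_zero' _ (D.image l) ?_ ?_
    · intro z hz
      obtain ⟨d, hd, rfl⟩ := mem_image.mp hz
      have a := inv d hd
      have b := congrArg derivative a
      rw [derivative_mul, dx_eval, dx_eval] at b
      have c : derivative (l d) = C (-d.1) := by simp [l]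
      rw [c, derivative_C] at b
      simp only [eval_add, eval_mul, eval_sub, a]
      linear_combination (B.eval (l d)) ^ 2 * b
    · rw [card_image_of_injective _ linj, hD]
      have a1 := natDegree_sub_le (B * (B * dx Q + Q * derivative Q))
        (Q * (B * dx B + Q * derivative B))
      have a2 := natDegree_mul_le (p := B) (q := B * dx Q + Q * derivative Q)
      have a3 := natDegree_mul_le (p := Q) (q := B * dx B + Q * derivative B)
      have a4 := natDegree_add_le (B * dx Q) (Q * derivative Q)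
      have a5 := natDegree_add_le (B * dx B) (Q * derivative B)
      have a6 := natDegree_mul_le (p := B) (q := dx Q)
      have a7 := natDegree_mul_le (p := Q) (q := derivative Q)
      have a8 := natDegree_mul_le (p := B) (q := dx B)
      have a9 := natDegree_mul_le (p := Q) (q := derivative B)
      have b1 := dx_deg Q
      have b2 := dx_deg B
      have b3 := natDegree_derivative_le Q
      have b4 := natDegree_derivative_le B
      omega
  obtain ⟨G, G0, dG, α, β, γ, h1, h2⟩ := degenerate p cast_ne B Q B0 (by omega) (by omega) E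
  have c1 : #(D.filter fun d => G.eval (l d) = 0) ≤ k - 1 := by
    by_contra c
    refine G0 (eq_zero_of_natDegree_lt_card_of_eval_eq_zero' _
      ((D.filter fun d => G.eval (l d) = 0).image l) ?_ ?_)
    · intro z hz
      obtain ⟨d, hd, rfl⟩ := mem_image.mp hz
      exact (mem_filter.mp hd).2
    · rw [card_image_of_injective _ linj]; omega
  refine ⟨α, β, -γ, h1, insert 0 ((D.filter fun d => G.eval (l d) = 0).image
    fun d => α * d.1 + β * d.2 - γ), ?_, fun a ha b hb n => ?_⟩
  · refine (card_insert_le _ _).trans ?_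
    have := card_image_le (s := D.filter fun d => G.eval (l d) = 0)
      (f := fun d => α * d.1 + β * d.2 - γ)
    omega
  · obtain ⟨-, d, hd, e1, e2⟩ := hd a ha b hb n
    refine ⟨α * d.1 + β * d.2 - γ, ?_, by linear_combination α * e1 + β * e2⟩
    rcases h2 _ _ (inv d hd) with h | h
    · exact mem_insert_of_mem (mem_image.mpr ⟨d, mem_filter.mpr ⟨hd, h⟩, rfl⟩)
    · exact mem_insert.mpr (Or.inl (by linear_combination -h))

/-- few slopes give many vanishing moments -/
lemma redei {ι : Type} (A : Finset ι) (hA : #A = p) (t h : ι → ZMod p) (Δ : Finset (ZMod p))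
    (r : ℕ) (hr : #Δ + r < p) (hr' : r + 1 < p)
    (hd : ∀ a ∈ A, ∀ b ∈ A, a ≠ b → t a ≠ t b ∧ ∃ c ∈ Δ, h a - h b = c * (t a - t b)) :
    Mom (fun _ => 0) t h (fun _ => 1) A r := by
  intro j hj
  refine eq_zero_of_natDegree_lt_card_of_eval_eq_zero' _ (Δᶜ.image fun c => C (-c)) ?_ ?_
  · intro z hz
    obtain ⟨c, hc, rfl⟩ := mem_image.mp hz
    have e : ∀ a, eval (C (-c)) (C (C 1) * lin 0 (t a) (h a) ^ j) = C ((h a - c * t a) ^ j) :=
      fun a => by simp [lin]; ring
    rw [eval_finsetSum, sum_congr rfl fun a _ => e a, ← map_sum, pow_sum A hA _ _ j (by omega), C_0]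
    intro a ha b hb e
    by_contra n
    obtain ⟨n1, d, hd, e1⟩ := hd a ha b hb n
    have : d ≠ c := fun h => mem_compl.mp hc (h ▸ hd)
    refine mul_ne_zero (sub_ne_zero.mpr n1) (sub_ne_zero.mpr this) ?_
    simp only at e
    linear_combination e - e1
  · rw [card_image_of_injective _ fun a b h => by simpa using h, card_compl, ZMod.card]
    have : TD (∑ a ∈ A, C (C 1) * lin 0 (t a) (h a) ^ j) j :=
      TD.sum A _ j fun a => by simpa using (TD.lin (0 : ZMod p) (t a) (h a)).pow j
    have : (∑ a ∈ A, C (C 1) * lin 0 (t a) (h a) ^ j).natDegree ≤ j :=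
      natDegree_le_iff_coeff_eq_zero.mpr fun n hn => by ext i; exact this n i (by omega)
    exact this.trans_lt (by omega)

end prime

end Pool.Agent.H10.DirPoly
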