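import Mathlib
import Pool.Agent.H10.DirPoly

set_option autoImplicit false

namespace Pool.Agent.H10.DirGeo
open Finset Classical Pool.Agent.H10.DirPoly

variable (K : Type) {V : Type} [Field K] [AddCommGroup V] [Module K V]

/-- all points but one can be covered by at most `r` hyperplanes missing that point -/
inductive Cov : Finset V → ℕ → Prop
  | single (a : V) (r : ℕ) : Cov {a} r
  | step (A : Finset V) (φ : Module.Dual K V) (c : K) (r : ℕ) :
      Cov (A.filter fun a => φ a ≠ c) r → Cov A (r + 1)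

def OnL (u v a : V) : Prop := ∃ s : K, a = u + s • v

def Planar (A : Finset V) : Prop := ∃ φ : Module.Dual K V, φ ≠ 0 ∧ ∃ c, ∀ a ∈ A, φ a = c

def Two (A : Finset V) (r : ℕ) : Prop :=
  ∃ (u1 v1 u2 v2 : V) (S1 S2 : Finset V), S1 ⊆ A ∧ S2 ⊆ A ∧ Disjoint S1 S2 ∧
    (∀ a ∈ S1, OnL K u1 v1 a) ∧ (∀ a ∈ S2, OnL K u2 v2 a) ∧ r + 1 ≤ #S1 ∧ r + 2 ≤ #S2 ∧
    ∀ a ∈ A, OnL K u1 v1 a ∨ OnL K u2 v2 a

variable {K}

lemma cov_mom (f t g : V → K)
    (hsp : ∀ φ : Module.Dual K V, ∃ α β γ, ∀ a, φ a = α * f a + β * t a + γ * g a)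
    {A : Finset V} {r : ℕ} (h : Cov K A r) : (∀ j < r, ((j + 1 : ℕ) : K) ≠ 0) →
    ∀ w : V → K, (∀ a ∈ A, w a ≠ 0) → ¬ Mom f t g w A r := by
  induction h with
  | single a r =>
    intro _ w hw hm
    simpa [hw a (by simp)] using hm 0 (by omega)
  | step A φ c r _ ih =>
    intro hr w hw hm
    obtain ⟨α, β, γ, e⟩ := hsp φ
    have := hm.step (fun j hj => hr j (by omega)) α β γ (-c)
    simp only [← e] at this
    refine ih (fun j hj => hr j (by omega)) (fun a => w a * (φ a + -c)) (fun a ha => ?_)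
      fun j hj => ?_
    · rw [mem_filter] at ha
      exact mul_ne_zero (hw a ha.1) fun h => ha.2 (by linear_combination h)
    · rw [sum_filter]
      refine Eq.trans (sum_congr rfl fun a _ => ?_) (this j hj)
      split_ifs with h
      · rfl
      · simp [not_not.mp h]

lemma sep {u v b : V} (h : ¬ OnL K u v b) :
    ∃ (φ : Module.Dual K V) (c : K), φ b ≠ c ∧ ∀ a, OnL K u v a → φ a = c := by
  have : b - u ∉ Submodule.span K {v} := fun hb => by
    obtain ⟨s, hs⟩ := Submodule.mem_span_singleton.mp hb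
    exact h ⟨s, by rw [hs]; simp⟩
  obtain ⟨φ, h1, h2⟩ := Submodule.exists_dual_map_eq_bot_of_notMem this inferInstance
  have h3 : φ v = 0 := by
    have : φ v ∈ (Submodule.span K {v}).map φ :=
      Submodule.mem_map_of_mem (Submodule.mem_span_singleton_self v)
    rw [h2] at this
    exact (Submodule.mem_bot K).mp this
  refine ⟨φ, φ u, fun e => h1 (by simp [e]), ?_⟩
  rintro a ⟨s, rfl⟩
  simp [h3]

lemma cut {A S : Finset V} (φ : Module.Dual K V) (c : K) (h : S ⊆ A) (hS : ∀ a ∈ S, φ a = c) :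
    #(A.filter fun a => φ a ≠ c) + #S ≤ #A := by
  have d : Disjoint (A.filter fun a => φ a ≠ c) S :=
    disjoint_left.mpr fun a ha hb => (mem_filter.mp ha).2 (hS a hb)
  rw [← card_union_of_disjoint d]
  exact card_le_card (union_subset (filter_subset _ _) h)

lemma big (r : ℕ) : ∀ {A : Finset V}, A.Nonempty → ¬ Cov K A r → r + 2 ≤ #A := by
  have one : ∀ r, ∀ A : Finset V, A.Nonempty → ¬ Cov K A r → 2 ≤ #A := fun r A h hc => by
    by_contra n
    obtain ⟨a, rfl⟩ := card_eq_one.mp (show #A = 1 by have := h.card_pos; omega)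
    exact hc (Cov.single a r)
  induction r with
  | zero => exact fun h hc => one 0 _ h hc
  | succ r ih =>
    intro A h hc
    obtain ⟨u, hu, b, hb, n⟩ := one_lt_card.mp (one _ A h hc)
    obtain ⟨φ, c, h1, h2⟩ := sep (K := K) (u := u) (v := 0) (b := b) (by
      rintro ⟨s, hs⟩; exact n (by simp [hs]))
    have a := cut φ c (singleton_subset_iff.mpr hu) (by simpa using h2 u ⟨0, by simp⟩)
    have b := ih ⟨b, mem_filter.mpr ⟨hb, h1⟩⟩ fun h => hc (Cov.step A φ c r h)
    rw [card_singleton] at a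
    omega

lemma line (r : ℕ) : ∀ {A : Finset V}, A.Nonempty → #A ≤ 2 * r + 1 → ¬ Cov K A r →
    ∃ u v, ∀ a ∈ A, OnL K u v a := by
  induction r with
  | zero => intro A h h1 hc; have := big 0 h hc; omega
  | succ r ih =>
    intro A h h1 hc
    by_contra nc
    push Not at nc
    obtain ⟨u, hu, u', hu', n⟩ := one_lt_card.mp (show 1 < #A by have := big _ h hc; omega)
    obtain ⟨b, hb, nb⟩ := nc u (u' - u)
    obtain ⟨φ, c, p1, p2⟩ := sep nb
    have a1 := cut (A := A) (S := {u, u'}) φ c (by simp [insert_subset_iff, hu, hu']) (by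
      simp only [mem_insert, mem_singleton, forall_eq_or_imp, forall_eq]
      exact ⟨p2 u ⟨0, by simp⟩, p2 u' ⟨1, by simp⟩⟩)
    rw [card_pair n] at a1
    have ne : (A.filter fun a => φ a ≠ c).Nonempty := ⟨b, mem_filter.mpr ⟨hb, p1⟩⟩
    have c1 : ¬ Cov K (A.filter fun a => φ a ≠ c) r := fun h => hc (Cov.step A φ c r h)
    obtain ⟨u1, v1, l1⟩ := ih ne (by omega) c1
    have a2 := big r ne c1
    obtain ⟨b', hb', nb'⟩ := nc u1 v1
    obtain ⟨φ', c', q1, q2⟩ := sep nb'
    have a3 := cut φ' c' (filter_subset (fun a => φ a ≠ c) A) fun a ha => q2 a (l1 a ha)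
    have a4 := big r ⟨b', mem_filter.mpr ⟨hb', q1⟩⟩ fun h => hc (Cov.step A φ' c' r h)
    omega

lemma twol {r : ℕ} {A S1 S2 : Finset V} {u1 v1 u2 v2 : V} (s1 : S1 ⊆ A) (s2 : S2 ⊆ A)
    (d : Disjoint S1 S2) (l1 : ∀ a ∈ S1, OnL K u1 v1 a) (l2 : ∀ a ∈ S2, OnL K u2 v2 a)
    (c1 : r + 2 ≤ #S1) (c2 : r + 2 ≤ #S2) (hA : #A ≤ 3 * r + 4) (hc : ¬ Cov K A (r + 1)) :
    ∀ a ∈ A, OnL K u1 v1 a ∨ OnL K u2 v2 a := by
  intro b hb
  by_contra n
  push Not at n
  obtain ⟨φ, c, p1, p2⟩ := sep n.1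
  obtain ⟨φ', c', q1, q2⟩ := sep n.2
  have ne : ((A.filter fun a => φ a ≠ c).filter fun a => φ' a ≠ c').Nonempty :=
    ⟨b, by simp [hb, p1, q1]⟩
  have a : #((A.filter fun a => φ a ≠ c).filter fun a => φ' a ≠ c') + (#S1 + #S2) ≤ #A := by
    rw [← card_union_of_disjoint d, ← card_union_of_disjoint (disjoint_left.mpr fun a ha hb => by
      simp only [mem_filter, mem_union] at ha hb
      rcases hb with hb | hb
      exacts [ha.1.2 (p2 a (l1 a hb)), ha.2 (q2 a (l2 a hb))])]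
    exact card_le_card (union_subset ((filter_subset _ _).trans (filter_subset _ _))
      (union_subset s1 s2))
  have := ne.card_pos
  obtain ⟨r, rfl⟩ : ∃ k, r = k + 1 := ⟨r - 1, by omega⟩
  have := big r ne fun h => hc (Cov.step _ φ c _ (Cov.step _ φ' c' _ h))
  omega

variable (hperp : ∀ v w : V, ∃ φ : Module.Dual K V, φ ≠ 0 ∧ φ v = 0 ∧ φ w = 0)
include hperp

omit hperp in
lemma rest {A : Finset V} (np : ¬ Planar K A) {φ : Module.Dual K V} (h : φ ≠ 0) (c : K) :
    (A.filter fun a => φ a ≠ c).Nonempty := by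
  by_contra n
  refine np ⟨φ, h, c, fun a ha => by_contra fun e => n ⟨a, mem_filter.mpr ⟨ha, e⟩⟩⟩

lemma onel {r : ℕ} {A S1 : Finset V} {u1 v1 : V} (s1 : S1 ⊆ A) (l1 : ∀ a ∈ S1, OnL K u1 v1 a)
    (c1 : r + 2 ≤ #S1) (np : ¬ Planar K A) (hA : #A ≤ 3 * r + 4) (hc : ¬ Cov K A (r + 1)) :
    Two K A (r + 1) := by
  obtain ⟨b, hb, nb⟩ : ∃ b ∈ A, ¬ OnL K u1 v1 b := by
    by_contra n
    push Not at n
    obtain ⟨φ, h0, h1, -⟩ := hperp v1 0
    refine np ⟨φ, h0, φ u1, fun a ha => ?_⟩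
    obtain ⟨s, rfl⟩ := n a ha
    simp [h1]
  obtain ⟨φ, h0, h1, h2⟩ := hperp v1 (b - u1)
  have e1 : ∀ a ∈ S1, φ a = φ u1 := fun a ha => by
    obtain ⟨s, rfl⟩ := l1 a ha
    simp [h1]
  have e2 : φ b = φ u1 := by rwa [map_sub, sub_eq_zero] at h2
  have n1 : b ∉ S1 := fun h => nb (l1 b h)
  have a1 := cut (S := insert b S1) φ (φ u1) (insert_subset hb s1) (by simpa [e2] using e1)
  rw [card_insert_of_notMem n1] at a1
  have ne := rest np h0 (φ u1)
  have c2 : ¬ Cov K (A.filter fun a => φ a ≠ φ u1) r := fun h => hc (Cov.step A φ _ r h)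
  obtain ⟨u2, v2, l2⟩ := line r ne (by omega) c2
  have a2 := big r ne c2
  have d : Disjoint S1 (A.filter fun a => φ a ≠ φ u1) :=
    disjoint_left.mpr fun a ha hb => (mem_filter.mp hb).2 (e1 a ha)
  have all := twol s1 (filter_subset _ _) d l1 l2 c1 a2 hA hc
  refine ⟨u1, v1, u2, v2, S1, insert b (A.filter fun a => φ a ≠ φ u1), s1,
    insert_subset hb (filter_subset _ _), disjoint_insert_right.mpr ⟨n1, d⟩, l1, ?_, c1, ?_, all⟩
  · intro a ha
    rcases mem_insert.mp ha with rfl | ha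
    exacts [(all a hb).resolve_left nb, l2 a ha]
  · rw [card_insert_of_notMem (by simp [e2])]; omega

lemma two (r : ℕ) : ∀ {A : Finset V}, #A ≤ 3 * r + 1 → ¬ Planar K A → ¬ Cov K A r → Two K A r := by
  obtain ⟨φ0, z0, -⟩ := hperp 0 0
  induction r with
  | zero =>
    intro A h np hc
    have := big 0 ((rest np z0 0).mono (filter_subset _ _)) hc
    omega
  | succ r ih =>
    intro A h np hc
    have a0 := big _ ((rest np z0 0).mono (filter_subset _ _)) hc
    obtain ⟨S, s1, s2⟩ := exists_subset_card_eq (show 3 ≤ #A by omega)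
    obtain ⟨x, y, z, -, -, -, e⟩ := card_eq_three.mp s2
    obtain ⟨φ, h0, h1, h2⟩ := hperp (y - x) (z - x)
    rw [map_sub, sub_eq_zero] at h1 h2
    have a1 := cut φ (φ x) s1 (by simp [e, h1, h2])
    have ne := rest np h0 (φ x)
    have c1 : ¬ Cov K (A.filter fun a => φ a ≠ φ x) r := fun h => hc (Cov.step A φ _ r h)
    have a2 := big r ne c1
    by_cases pl : Planar K (A.filter fun a => φ a ≠ φ x)
    · by_cases c : #(A.filter fun a => φ a ≠ φ x) ≤ 2 * r + 1
      · obtain ⟨u, v, l⟩ := line r ne c c1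
        exact onel hperp (filter_subset _ _) l a2 np (by omega) hc
      · obtain ⟨φ', p0, c', p1⟩ := pl
        have a3 := cut φ' c' (filter_subset (fun a => φ a ≠ φ x) A) p1
        have ne' := rest np p0 c'
        have c2 : ¬ Cov K (A.filter fun a => φ' a ≠ c') r := fun h => hc (Cov.step A φ' _ r h)
        obtain ⟨u, v, l⟩ := line r ne' (by omega) c2
        exact onel hperp (filter_subset _ _) l (big r ne' c2) np (by omega) hc
    · obtain ⟨-, -, u, v, -, S2, -, t2, -, -, l, -, c, -⟩ := ih (by omega) pl c1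
      exact onel hperp (t2.trans (filter_subset _ _)) l c np (by omega) hc

lemma two_count {A : Finset V} {r : ℕ} (np : ¬ Planar K A) (h : Two K A r)
    (fin : {W : Submodule K V | ∃ a ∈ A, ∃ b ∈ A, a ≠ b ∧ W = Submodule.span K {a - b}}.Finite) :
    (r + 1) * (r + 2) ≤
      {W : Submodule K V | ∃ a ∈ A, ∃ b ∈ A, a ≠ b ∧ W = Submodule.span K {a - b}}.ncard := by
  obtain ⟨u1, v1, u2, v2, S1, S2, s1, s2, d, l1, l2, c1, c2, all⟩ := h
  have skew : ∀ φ : Module.Dual K V, φ ≠ 0 → φ v1 = 0 → φ v2 = 0 → φ u1 ≠ φ u2 :=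
    fun φ h0 h1 h2 e => np ⟨φ, h0, φ u1, fun a ha => by
      rcases all a ha with ⟨s, rfl⟩ | ⟨s, rfl⟩ <;> simp [h1, h2, e]⟩
  refine (Nat.mul_le_mul c1 c2).trans ?_
  rw [← card_product, ← Set.ncard_coe_finset]
  refine Set.ncard_le_ncard_of_injOn (fun x => Submodule.span K {x.1 - x.2}) ?_ ?_ fin
  · rintro ⟨a, b⟩ h
    simp only [coe_product, Set.mem_prod, mem_coe] at h
    exact ⟨a, s1 h.1, b, s2 h.2, fun e => disjoint_left.mp d h.1 (e ▸ h.2), rfl⟩
  · rintro ⟨a, b⟩ h ⟨a', b'⟩ h' e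
    simp only [coe_product, Set.mem_prod, mem_coe] at h h' e
    obtain ⟨m, hm⟩ := Submodule.mem_span_singleton.mp
      (e ▸ Submodule.mem_span_singleton_self (a - b) : a - b ∈ Submodule.span K {a' - b'})
    obtain ⟨s, rfl⟩ := l1 a h.1
    obtain ⟨s', rfl⟩ := l1 a' h'.1
    obtain ⟨t, rfl⟩ := l2 b h.2
    obtain ⟨t', rfl⟩ := l2 b' h'.2
    obtain ⟨φ, h0, h1, h2⟩ := hperp v1 v2
    have m1 : m = 1 := by
      have := congrArg φ hm
      simp only [map_smul, map_sub, map_add, h1, h2, smul_eq_mul, mul_zero, add_zero] at this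
      exact mul_right_cancel₀ (sub_ne_zero.mpr (skew φ h0 h1 h2)) (by rw [this, one_mul])
    rw [m1, one_smul] at hm
    have : t = t' := by
      by_contra n
      obtain ⟨ψ, g0, g1, g2⟩ := hperp v1 (u1 - u2)
      rw [map_sub, sub_eq_zero] at g2
      refine skew ψ g0 g1 ?_ g2
      have := congrArg ψ hm
      simp only [map_smul, map_sub, map_add, g1, smul_eq_mul, mul_zero, add_zero] at this
      exact (mul_eq_zero.mp (show (t - t') * ψ v2 = 0 by linear_combination this)).resolve_left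
        (sub_ne_zero.mpr n)
    subst this
    rw [sub_left_inj] at hm
    rw [hm]

omit hperp in
lemma avoid [Fintype K] (S : Finset V) (h0 : ∀ d ∈ S, d ≠ 0) (hS : #S ≤ Fintype.card K) :
    ∃ φ : Module.Dual K V, ∀ d ∈ S, φ d ≠ 0 := by
  induction S using Finset.induction_on with
  | empty => exact ⟨0, by simp⟩
  | insert d S hd ih =>
    rw [card_insert_of_notMem hd] at hS
    obtain ⟨x, hx⟩ := ih (fun e he => h0 e (mem_insert_of_mem he)) (by omega)
    by_cases c : x d = 0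
    · obtain ⟨y, hy⟩ := Module.Projective.exists_dual_ne_zero K (h0 d (mem_insert_self _ _))
      obtain ⟨t, -, ht⟩ := exists_mem_notMem_of_card_lt_card
        (s := S.image fun e => - y e / x e) (t := univ)
        (card_image_le.trans_lt (by rw [card_univ]; omega))
      refine ⟨y + t • x, fun e he => ?_⟩
      rcases mem_insert.mp he with rfl | he
      · simpa [c] using hy
      · intro h
        refine ht (mem_image.mpr ⟨e, he, ?_⟩)
        have := hx e he
        simp only [LinearMap.add_apply, LinearMap.smul_apply, smul_eq_mul] at h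
        field_simp
        linear_combination -h
    · exact ⟨x, by simpa [c] using hx⟩

end Pool.Agent.H10.DirGeo
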