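import Mathlib

set_option autoImplicit false

namespace Pool.Agent.H10.Dlb
open Finset Matrix

lemma binet {k j : ℕ} (M : Matrix (Fin k) (Fin j) ℝ) :
    j.factorial * (Mᵀ * M).det = ∑ p : Fin j → Fin k, (M.submatrix p id).det ^ 2 := by
  have h : (Mᵀ * M).det = ∑ p : Fin j → Fin k, (∏ i, M (p i) i) * (M.submatrix p id).det := by
    simp only [← det_transpose (M.submatrix _ _)]
    simp only [det_apply', mul_apply, prod_univ_sum, mul_sum, Fintype.piFinset_univ]
    rw [sum_comm]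
    simp [prod_mul_distrib, mul_comm, mul_assoc]
  have g : ∀ τ : Equiv.Perm (Fin j), (Mᵀ * M).det = ∑ p : Fin j → Fin k,
      (Equiv.Perm.sign τ : ℤ) * (∏ i, M (p (τ i)) i) * (M.submatrix p id).det := fun τ => by
    rw [h]
    refine (Fintype.sum_equiv (τ.symm.arrowCongr (Equiv.refl _)) _ _ fun p => ?_).symm
    have := det_permute τ (M.submatrix p id)
    simp only [submatrix_submatrix, Function.comp_id] at this
    rw [show τ.symm.arrowCongr (Equiv.refl _) p = p ∘ τ from rfl, this]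
    simp only [Function.comp_apply]
    ring
  calc _ = ∑ τ : Equiv.Perm (Fin j), (Mᵀ * M).det := by simp [Fintype.card_perm]
    _ = _ := by
      rw [sum_congr rfl fun τ _ => g τ, sum_comm]
      refine sum_congr rfl fun p _ => ?_
      rw [← sum_mul, sq]
      congr 1
      simp [det_apply']

lemma gram {k j : ℕ} (M : Matrix (Fin k) (Fin j) ℝ) {c : ℝ}
    (h : ∀ p, (M.submatrix p id).det ^ 2 ≤ c) (c0 : 0 ≤ c) : (Mᵀ * M).det ≤ 2 ^ k * c := by
  classical
  refine le_of_mul_le_mul_left ?_ (by positivity : (0 : ℝ) < j.factorial)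
  rw [binet, ← sum_filter_of_ne (p := Function.Injective) fun p _ r => by
    by_contra q
    obtain ⟨a, b, e, f⟩ := Function.not_injective_iff.1 q
    exact r (by rw [det_zero_of_row_eq f (funext fun _ => by simp [e])]; simp)]
  refine (sum_le_card_nsmul _ _ c fun p _ => h p).trans ?_
  rw [nsmul_eq_mul, ← mul_assoc, ← Fintype.card_subtype, Fintype.card_congr
    (Equiv.subtypeInjectiveEquivEmbedding _ _), Fintype.card_embedding_eq,
    Nat.descFactorial_eq_factorial_mul_choose]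
  gcongr
  simp only [Fintype.card_fin]
  exact_mod_cast Nat.mul_le_mul_left _ (Nat.choose_le_two_pow k j)

/-- the sign vector of a set -/
def sg {ι : Type*} [DecidableEq ι] (A : Finset ι) (t : ι) : ℝ := if t ∈ A then 1 else -1

lemma mom {ι : Type*} [DecidableEq ι] (T : Finset ι) (a : ι → ℝ) :
    ∑ A ∈ T.powerset, (∑ t ∈ T, sg A t * a t) ^ 2 = 2 ^ #T * ∑ t ∈ T, a t ^ 2 ∧
      ∑ A ∈ T.powerset, (∑ t ∈ T, sg A t * a t) ^ 4 ≤ 2 ^ #T * (3 * (∑ t ∈ T, a t ^ 2) ^ 2) := by
  induction T using Finset.induction_on with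
  | empty => simp
  | insert s T h ih =>
    have e : ∀ n, ∑ A ∈ (insert s T).powerset, (∑ t ∈ insert s T, sg A t * a t) ^ n =
        ∑ A ∈ T.powerset, ((∑ t ∈ T, sg A t * a t - a s) ^ n +
          (∑ t ∈ T, sg A t * a t + a s) ^ n) := fun n => by
      rw [sum_powerset_insert h, sum_add_distrib]
      congr 1 <;> refine sum_congr rfl fun A b => ?_ <;> rw [sum_insert h]
      · rw [sg, if_neg fun r => h (mem_powerset.1 b r)]
        ring
      · rw [sg, if_pos (mem_insert_self ..), one_mul, add_comm, sum_congr rfl fun t r => by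
          rw [show sg (insert s A) t = sg A t by simp [sg, ne_of_mem_of_not_mem r h]]]
    have e2 : ∀ z b : ℝ, (z - b) ^ 2 + (z + b) ^ 2 = 2 * z ^ 2 + 2 * b ^ 2 := fun _ _ => by ring
    have e4 : ∀ z b : ℝ, (z - b) ^ 4 + (z + b) ^ 4 = 2 * z ^ 4 + 12 * b ^ 2 * z ^ 2 + 2 * b ^ 4 :=
      fun _ _ => by ring
    rw [e, e]
    simp only [e2, e4, sum_add_distrib, ← mul_sum, ih.1, sum_const, card_powerset, sum_insert h,
      card_insert_of_notMem h, nsmul_eq_mul, pow_succ (2 : ℝ)]
    push_cast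
    refine ⟨by ring, ?_⟩
    have : (0 : ℝ) ≤ 2 ^ #T * a s ^ 4 := by positivity
    nlinarith [ih.2]

lemma khin {ι : Type*} [DecidableEq ι] (T : Finset ι) (a : ι → ℝ) (h : ∑ t ∈ T, a t ^ 2 ≤ 1) :
    2 ^ #T * ((∑ t ∈ T, a t ^ 2) / 2) ≤ ∑ A ∈ T.powerset, |∑ t ∈ T, sg A t * a t| := by
  have p : ∀ z : ℝ, z ^ 2 - 1 / 6 * z ^ 4 ≤ |z| := fun z => by
    rw [← sq_abs, show z ^ 4 = |z| ^ 4 from (Even.pow_abs (by decide) z).symm]
    have := abs_nonneg z
    generalize |z| = t at *
    nlinarith [mul_nonneg this (mul_nonneg this (sq_nonneg (t - 3 / 2))), mul_nonneg this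
      (sq_nonneg (t - 3 / 2)), mul_nonneg this (sq_nonneg (t - 1))]
  refine le_trans ?_ (sum_le_sum fun A _ => p _)
  rw [sum_sub_distrib, ← mul_sum, (mom T a).1]
  have := (mom T a).2
  have h0 : 0 ≤ ∑ t ∈ T, a t ^ 2 := by positivity
  have : (0 : ℝ) ≤ 2 ^ #T * ((∑ t ∈ T, a t ^ 2) * (1 - ∑ t ∈ T, a t ^ 2)) :=
    mul_nonneg (by positivity) (mul_nonneg h0 (sub_nonneg.2 h))
  nlinarith

lemma sauer {j : ℕ} (F : Finset (Finset (Fin j))) (h : 2 ^ j < 2 * #F) :
    ∃ S, j ≤ 2 * #S ∧ F.Shatters S := by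
  by_contra! a
  have b : ∀ S ∈ F.shatterer, 2 * #S < j := fun S r => not_le.1 fun q => a S q (mem_shatterer.1 r)
  have := card_le_univ (F.shatterer ∪ F.shatterer.image compl)
  rw [card_union_of_disjoint (disjoint_left.2 fun S r q => by
    obtain ⟨T, t, rfl⟩ := mem_image.1 q
    have := b _ r
    have := b _ t
    have := card_compl T
    simp only [Fintype.card_fin] at this
    omega), card_image_of_injective _ compl_injective] at this
  have := card_le_card_shatterer F
  simp only [Fintype.card_finset, Fintype.card_fin] at *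
  omega

end Pool.Agent.H10.Dlb
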