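import Mathlib

set_option autoImplicit false

namespace Pool.Agent.H10.Dlb

variable {m n : ℕ}

/-- the determinant lower bound -/
noncomputable def detLB (A : Matrix (Fin m) (Fin n) ℝ) : ℝ :=
  sSup {x | ∃ k : ℕ, 1 ≤ k ∧ ∃ (r : Fin k ↪ Fin m) (c : Fin k ↪ Fin n),
    x = |(A.submatrix r c).det| ^ (1 / (k : ℝ))}

/-- `(A, S, t)` is feasible -/
def Feasible (A : Matrix (Fin m) (Fin n) ℝ) (S : Finset (Fin n)) (t : ℝ) : Prop :=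
  ∃ (d : ℕ) (v : Fin n → EuclideanSpace ℝ (Fin d)), (∀ i, ‖∑ j ∈ S, A i j • v j‖ ^ 2 ≤ t ^ 2) ∧
    (S.card : ℝ) / 2 ≤ ∑ j, ‖v j‖ ^ 2 ∧ (∀ j ∈ S, ‖v j‖ ^ 2 ≤ 1) ∧ ∀ j ∉ S, v j = 0

/-- the hereditary vector discrepancy for half colourings -/
noncomputable def herpvdisc (A : Matrix (Fin m) (Fin n) ℝ) : ℝ :=
  sInf {t | 0 ≤ t ∧ ∀ S, Feasible A S t}

end Pool.Agent.H10.Dlb
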