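import Mathlib
import Pool.Agent.H10.DlbA
import Pool.Agent.H10.DlbDefs

set_option autoImplicit false

namespace Pool.Agent.H10.Dlb
open Finset Matrix

lemma core {k : ℕ} (k0 : 0 < k) (B : Matrix (Fin k) (Fin k) ℝ) {E : ℝ} (E0 : 0 < E)
    (h1 : B.det ^ 2 = E ^ k) (h2 : ∀ (j : ℕ) (p s : Fin j → Fin k), (B.submatrix p s).det ^ 2 ≤ E ^ j) :
    ∃ S : Finset (Fin k), k ≤ 4 * #S ∧ ∀ x : Fin k → ℝ,
      (∑ i ∈ S, |x i|) ^ 2 * E ≤ 12 * k * ∑ r, (∑ i ∈ S, B r i * x i) ^ 2 := by
  classical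
  let Φ := fun (j : ℕ) (s : Fin j → Fin k) =>
    ((B.submatrix id s)ᵀ * B.submatrix id s).det * (4 / E) ^ j
  obtain ⟨j, jk, s, hs⟩ : ∃ j ≤ k, ∃ s, ∀ i ≤ k, ∀ t, Φ i t ≤ Φ j s := by
    have : Nonempty (Σ j : Fin (k + 1), Fin j → Fin k) := ⟨⟨Fin.last k, id⟩⟩
    obtain ⟨⟨j, s⟩, h⟩ := Finite.exists_max fun z : Σ j : Fin (k + 1), Fin j → Fin k => Φ z.1 z.2
    exact ⟨j, Nat.le_of_lt_succ j.2, s, fun i b t => h ⟨⟨i, Nat.lt_succ_of_le b⟩, t⟩⟩
  have a1 : 4 ^ k ≤ Φ j s := le_trans (by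
    simp only [Φ, submatrix_id_id, det_mul, det_transpose, ← sq, h1, ← mul_pow]
    rw [mul_div_cancel₀ _ E0.ne']) (hs k le_rfl id)
  have kj : k ≤ 2 * j := by
    have := a1.trans (mul_le_mul_of_nonneg_right (gram _ (c := E ^ j) (fun p => h2 j p s)
      (by positivity)) (by positivity))
    rw [mul_assoc, ← mul_pow, mul_div_cancel₀ _ E0.ne', show (4 : ℝ) = 2 ^ 2 by norm_num,
      ← pow_mul, ← pow_mul, ← pow_add, pow_le_pow_iff_right₀ one_lt_two] at this
    omega
  obtain ⟨j, rfl⟩ : ∃ i, j = i + 1 := ⟨j - 1, by omega⟩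
  set M := B.submatrix id s with hM
  have d0 : 0 < (Mᵀ * M).det :=
    (mul_pos_iff_of_pos_right (by positivity)).1 (lt_of_lt_of_le (by positivity) a1)
  have si : Function.Injective s := fun a b e => by_contra fun r =>
    d0.ne' (det_zero_of_column_eq r fun _ => by simp [mul_apply, hM, e])
  have u := (isUnit_iff_ne_zero.2 d0.ne')
  set Y := M * (Mᵀ * M)⁻¹ with hY
  have y1 : Yᵀ * M = 1 := by
    rw [hY, transpose_mul, transpose_nonsing_inv, transpose_mul, transpose_transpose,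
      Matrix.mul_assoc, nonsing_inv_mul _ u]
  have y2 : ∀ i, ∑ r, Y r i ^ 2 ≤ 4 / E := fun i => by
    have : Yᵀ * Y = (Mᵀ * M)⁻¹ := by
      nth_rw 2 [hY]
      rw [← Matrix.mul_assoc, y1, Matrix.one_mul]
    have := congrFun (congrFun this i) i
    simp only [mul_apply, transpose_apply, ← sq] at this
    rw [this, Matrix.inv_def, Matrix.smul_apply, adjugate_fin_succ_eq_det_submatrix, Ring.inverse_eq_inv',
      ← two_mul, pow_mul, neg_one_sq, one_pow, one_mul, smul_eq_mul, inv_mul_le_iff₀ d0]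
    have := hs j (by omega) (s ∘ i.succAbove)
    simp only [Φ, ← hM] at this
    rw [pow_succ', ← mul_assoc] at this
    exact le_of_mul_le_mul_right this (by positivity)
  let q := fun A => ∑ r, (∑ i, sg A i * Y r i) ^ 2
  have q1 : ∑ A, q A ≤ 2 ^ (j + 1) * ((j + 1) * (4 / E)) := by
    rw [sum_comm, ← powerset_univ, sum_congr rfl fun r _ => (mom univ (Y r)).1, ← mul_sum, sum_comm]
    simp only [card_univ, Fintype.card_fin]
    gcongr
    simpa using sum_le_card_nsmul univ _ _ fun i _ => y2 i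
  obtain ⟨S, S1, S2⟩ := sauer {A | q A ≤ 3 * ((j + 1) * (4 / E))} (by
    have := card_filter_add_card_filter_not (s := univ) fun A => q A ≤ 3 * ((j + 1) * (4 / E))
    have b := ((card_nsmul_le_sum _ _ _ fun A r => (not_le.1 (mem_filter.1 r).2).le).trans
      (sum_le_sum_of_subset_of_nonneg (filter_subset (fun A => ¬q A ≤ 3 * ((j + 1) * (4 / E))) _)
        fun _ _ _ => by positivity)).trans q1
    rw [nsmul_eq_mul, ← mul_assoc] at b
    have b := le_of_mul_le_mul_right b (by positivity)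
    simp only [card_univ, Fintype.card_finset, Fintype.card_fin] at this
    generalize #{A | ¬q A ≤ 3 * ((j + 1) * (4 / E))} = y at this b
    norm_cast at b
    have := Nat.two_pow_pos (j + 1)
    omega)
  refine ⟨S.map ⟨s, si⟩, by rw [card_map]; omega, fun x => ?_⟩
  obtain ⟨A, A1, A2⟩ := S2 (filter_subset (fun i => 0 ≤ x (s i)) S)
  simp only [sum_map, Function.Embedding.coeFn_mk]
  have : ∑ i ∈ S, |x (s i)| = ∑ r, (∑ l, sg A l * Y r l) * ∑ i ∈ S, B r (s i) * x (s i) := by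
    simp only [mul_sum, sum_mul]
    rw [sum_comm]
    refine sum_congr rfl fun i b => ?_
    rw [sum_comm, sum_congr rfl fun l _ => (_ : _ = sg A l * (Yᵀ * M) l i * x (s i))]
    · have := congrArg (i ∈ ·) A2
      simp only [mem_inter, mem_filter, b, true_and] at this
      simp only [y1, one_apply, mul_ite, ite_mul, mul_one, mul_zero, zero_mul, sum_ite_eq',
        mem_univ, if_true, sg, this]
      split_ifs with r
      · rw [abs_of_nonneg r, one_mul]
      · rw [abs_of_neg (not_le.1 r), neg_one_mul]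
    · simp [mul_apply, mul_sum, sum_mul, hM, mul_assoc]
  rw [this, ← le_div_iff₀ E0]
  refine (sum_mul_sq_le_sq_mul_sq ..).trans ((mul_le_mul_of_nonneg_right (mem_filter.1 A1).2
    (by positivity)).trans ?_)
  have : (j : ℝ) + 1 ≤ k := by exact_mod_cast jk
  calc _ ≤ 3 * (k * (4 / E)) * ∑ r, (∑ i ∈ S, B r (s i) * x (s i)) ^ 2 := by gcongr
    _ = _ := by ring

theorem main {m n : ℕ} (A : Matrix (Fin m) (Fin n) ℝ) : detLB A ≤ 56 * herpvdisc A := by
  classical
  rw [mul_comm, ← div_le_iff₀ (by norm_num)]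
  refine le_csInf ⟨∑ i, ∑ j, |A i j|, by positivity, fun S =>
    ⟨1, fun j => if j ∈ S then EuclideanSpace.single 0 1 else 0, fun i => ?_, ?_,
      fun j b => by simp [b], fun j b => by simp [b]⟩⟩ fun t ⟨t0, ht⟩ => ?_
  · gcongr
    refine (norm_sum_le _ _).trans (le_trans ?_ (single_le_sum (f := fun i => ∑ j, |A i j|)
      (fun _ _ => by positivity) (mem_univ i)))
    refine (sum_le_sum fun j b => ?_).trans (sum_le_sum_of_subset_of_nonneg (subset_univ S)
      fun _ _ _ => abs_nonneg _)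
    simp [b, norm_smul]
  · simp [apply_ite]
  rw [div_le_iff₀ (by norm_num), detLB]
  set Ω := {x | ∃ k : ℕ, 1 ≤ k ∧ ∃ (r : Fin k ↪ Fin m) (c : Fin k ↪ Fin n),
    x = |(A.submatrix r c).det| ^ (1 / (k : ℝ))}
  have fin : Ω.Finite := (Set.finite_range fun z : Σ k : Fin (m + 1), (Fin k ↪ Fin m) × (Fin k ↪ Fin n) =>
    |(A.submatrix z.2.1 z.2.2).det| ^ (1 / ((z.1 : ℕ) : ℝ))).subset fun x ⟨k, _, r, c, e⟩ =>
      ⟨⟨⟨k, Nat.lt_succ_of_le (by simpa using Fintype.card_le_of_embedding r)⟩, r, c⟩, e.symm⟩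
  by_contra! lt
  have D0 := lt_of_le_of_lt (by positivity) lt
  obtain ⟨k, k0, r, c, e⟩ := Set.Nonempty.csSup_mem (Set.nonempty_iff_ne_empty.2 fun r => by
    simp [r] at D0) fin
  have rp : ∀ j : ℕ, 1 ≤ j → ∀ x : ℝ, ((|x| ^ (1 / (j : ℝ))) ^ 2) ^ j = x ^ 2 := fun j b x => by
    rw [← pow_mul, mul_comm, pow_mul, one_div, Real.rpow_inv_natCast_pow (abs_nonneg _) (by omega),
      sq_abs]
  obtain ⟨S, S1, S2⟩ := core k0 (A.submatrix r c) (pow_pos D0 2) (by rw [e, rp k k0]) fun j p s => by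
    rcases j.eq_zero_or_pos with rfl | j0
    · simp
    by_cases a : Function.Injective p
    · by_cases b : Function.Injective s
      · rw [← rp j j0]
        gcongr
        exact le_csSup fin.bddAbove ⟨j, j0, .trans ⟨p, a⟩ r, .trans ⟨s, b⟩ c, rfl⟩
      · obtain ⟨x, y, f, g⟩ := Function.not_injective_iff.1 b
        rw [det_zero_of_column_eq g fun _ => by simp [f]]
        simpa using by positivity
    · obtain ⟨x, y, f, g⟩ := Function.not_injective_iff.1 a
      rw [det_zero_of_row_eq g (funext fun _ => by simp [f])]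
      simpa using by positivity
  obtain ⟨d, v, v1, v2, v3, v4⟩ := ht (S.map c)
  rw [← sum_subset (subset_univ (S.map c)) fun j _ b => by simp [v4 j b], sum_map, card_map] at v2
  simp only [sum_map, EuclideanSpace.real_norm_sq_eq] at v1 v2 v3
  let x := fun η i => ∑ l, sg η l * v (c i) l
  have x1 : 2 ^ d * ((k : ℝ) / 16) ≤ ∑ η, ∑ i ∈ S, |x η i| := by
    rw [sum_comm, ← powerset_univ]
    refine le_trans ?_ (sum_le_sum fun i b => khin univ _ (v3 _ (mem_map_of_mem c b)))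
    rw [← mul_sum, ← sum_div, card_univ, Fintype.card_fin]
    have : (k : ℝ) ≤ 4 * #S := by exact_mod_cast S1
    gcongr 2 ^ d * ?_
    linarith
  have x2 : (∑ η, (∑ i ∈ S, |x η i|) ^ 2) * sSup Ω ^ 2 ≤ 12 * k * (k * (2 ^ d * t ^ 2)) := by
    rw [sum_mul]
    refine (sum_le_sum fun η _ => S2 (x η)).trans ?_
    rw [← mul_sum, sum_comm]
    gcongr
    refine (sum_le_card_nsmul _ _ (2 ^ d * t ^ 2) fun i _ => ?_).trans (by simp)
    have := (mom univ fun l => (∑ j ∈ S, A (r i) (c j) • v (c j)) l).1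
    rw [powerset_univ, card_univ, Fintype.card_fin] at this
    refine le_trans (le_of_eq ?_) (this.le.trans (by gcongr; exact v1 _))
    refine sum_congr rfl fun η _ => ?_
    simp only [x, mul_sum, submatrix_apply]
    rw [sum_comm]
    simp [mul_sum, mul_left_comm]
  have x3 := sq_sum_le_card_mul_sum_sq (s := univ) (f := fun η => ∑ i ∈ S, |x η i|)
  simp only [card_univ, Fintype.card_finset, Fintype.card_fin, Nat.cast_pow, Nat.cast_ofNat] at x3
  have x4 := (mul_le_mul_of_nonneg_right ((pow_le_pow_left₀ (by positivity) x1 2).trans x3)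
    (sq_nonneg (sSup Ω))).trans ((mul_assoc ..).le.trans (mul_le_mul_of_nonneg_left x2 (by positivity)))
  have : sSup Ω ^ 2 ≤ 3072 * t ^ 2 := le_of_mul_le_mul_left (a := (2 ^ d * (k : ℝ)) ^ 2)
    (by linarith) (by positivity)
  nlinarith

end Pool.Agent.H10.Dlb
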