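import Mathlib

set_option autoImplicit false

namespace Pool.Agent.H10.Ds
open Finset

/-- the recursive data: rows, columns, live columns and first columns -/
structure U (i j : ℕ) where
  R : Type
  C : Type
  [oR : LinearOrder R]
  [fR : Fintype R]
  [oC : LinearOrder C]
  [fC : Fintype C]
  M : R → Finset C
  L : Finset C
  f : R → C
  h1 : ∀ r, i ≤ #(M r)
  h2 : ∀ c ∈ L, #{r | f r = c} = j
  h3 : ∀ r, f r ∈ L
  h4 : ∀ r, ∀ c ∈ M r, f r ≤ c ∧ (c ∈ L → c = f r)
  h5 : ∀ g h, g < h → ∀ a ∈ M g, ∀ b ∈ M h, ∀ c ∈ M g, ∀ d ∈ M h, b < c → c < d →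
    (a < b ∨ a = b ∧ a ∈ L) → False
  h8 : ∀ r, f r ∈ M r
  h6 : 2 ^ i ≤ #L
  h7 : Fintype.card C * 2 ^ i + Fintype.card R ≤ (#L + Fintype.card R) * 2 ^ i

attribute [local instance] U.oR U.fR U.oC U.fC

lemma U.card {i j : ℕ} (A : U i j) : Fintype.card A.R = #A.L * j := by
  rw [← card_univ, card_eq_sum_card_fiberwise (f := A.f) (t := A.L) fun r _ => A.h3 r,
    sum_congr rfl A.h2, sum_const, smul_eq_mul]

lemma step {i j : ℕ} (B : U (i + 1) j) (T : U i #B.L) : Nonempty (U (i + 1) (j + 1)) := by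
  classical
  obtain ⟨s, s1, s2, s3⟩ : ∃ s : T.R → B.C, (∀ g, s g ∈ B.L) ∧
      (∀ g h, g < h → T.f g = T.f h → s h < s g) ∧ ∀ c ∈ T.L, ∀ d ∈ B.L, ∃ g, T.f g = c ∧ s g = d := by
    let e := fun g => (orderIsoOfFin {r | T.f r = T.f g} (T.h2 _ (T.h3 g))).symm ⟨g, by simp⟩
    refine ⟨fun g => B.L.orderEmbOfFin rfl (e g).rev, fun g => orderEmbOfFin_mem .., fun g h a b => ?_,
      fun c a d b => ?_⟩
    · simp only [OrderEmbedding.lt_iff_lt, Fin.rev_lt_rev, e]
      generalize_proofs p1 p2 p3 p4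
      generalize T.f g = c at *
      subst b
      exact (OrderIso.lt_iff_lt _).2 a
    · obtain ⟨k, rfl⟩ := (B.L.range_orderEmbOfFin rfl).symm.subset b
      obtain ⟨⟨g, p⟩, q⟩ : ∃ x, x = orderIsoOfFin {r | T.f r = c} (T.h2 _ a) k.rev := ⟨_, rfl⟩
      obtain rfl : T.f g = c := by simpa using p
      exact ⟨g, rfl, by simp [e, q]⟩
  let C := {p : T.C ×ₗ WithTop B.C // (ofLex p).2 ≠ ⊤ → (ofLex p).1 ∈ T.L}
  let o : T.C → C := fun c => ⟨toLex (c, ⊤), by simp⟩
  let n : T.L → B.C → C := fun c d => ⟨toLex (c, d), by simp⟩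
  have oo : ∀ a b, o a < o b ↔ a < b := fun a b => Prod.Lex.toLex_lt_toLex.trans (by simp)
  have on : ∀ a b c, o a < n b c ↔ a < b := fun a b c => Prod.Lex.toLex_lt_toLex.trans (by simp)
  have no : ∀ a b c, n b c < o a ↔ b ≤ a := fun a b c =>
    Prod.Lex.toLex_lt_toLex.trans (by simp [le_iff_lt_or_eq])
  have nn : ∀ a b c d, n a b < n c d ↔ a.1 < c.1 ∨ a = c ∧ b < d := fun a b c d =>
    Prod.Lex.toLex_lt_toLex.trans (by simp)
  have ni : ∀ a b c d, n a b = n c d ↔ a = c ∧ b = d := fun a b c d =>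
    Subtype.ext_iff.trans (toLex_inj.trans (by simp))
  have oi : ∀ a b, o a = o b ↔ a = b := fun a b => Subtype.ext_iff.trans (toLex_inj.trans (by simp))
  have ne : ∀ a b c, o a ≠ n b c := fun a b c h =>
    WithTop.top_ne_coe (congrArg (fun x : C => (ofLex x.1).2) h)
  let L : Finset C := (univ ×ˢ B.L).image fun p => n p.1 p.2
  have Ln : ∀ a b, n a b ∈ L ↔ b ∈ B.L := by simp [L, ni]
  have Lo : ∀ a, o a ∉ L := by simp [L, (ne _ _ _).symm]
  have Lc : #L = #T.L * #B.L := by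
    rw [card_image_of_injective _ fun p q h => Prod.ext_iff.2 ((ni ..).1 h)]
    simp
  let t : T.R → T.L := fun g => ⟨_, T.h3 g⟩
  refine ⟨{
    R := T.R ⊕ₗ (T.L ×ₗ B.R)
    C := C
    M := fun r => (ofLex r).elim (fun g => insert (n (t g) (s g)) ((T.M g).image o))
      fun l => (B.M (ofLex l).2).image (n (ofLex l).1)
    L := L
    f := fun r => (ofLex r).elim (fun g => n (t g) (s g)) fun l => n (ofLex l).1 (B.f (ofLex l).2)
    h1 := ?_, h2 := ?_, h3 := ?_, h4 := ?_, h5 := ?_, h8 := ?_, h6 := ?_, h7 := ?_ }⟩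
  · rintro (g | ⟨c, l⟩)
    · refine le_of_le_of_eq (Nat.succ_le_succ (T.h1 g)) (Eq.symm ?_)
      exact (card_insert_of_notMem (by simp [ne])).trans
        (by rw [card_image_of_injective _ fun _ _ => (oi ..).1])
    · exact (B.h1 l).trans (card_image_of_injective _ fun _ _ h => ((ni ..).1 h).2).ge
  · intro c a
    obtain ⟨⟨c, d⟩, a', rfl⟩ := mem_image.1 a
    replace a := (mem_product.1 a').2
    obtain ⟨g, g1, g2⟩ := s3 c c.2 d a
    refine Eq.trans ?_ (congrArg (· + 1) (B.h2 d a))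
    rw [← card_image_of_injective _ (f := fun l : B.R =>
      (toLex (.inr (toLex (c, l))) : T.R ⊕ₗ (T.L ×ₗ B.R))) fun _ _ h => by simpa using h,
      ← card_insert_of_notMem (a := toLex (.inl g)) (by simp)]
    congr 1
    ext r
    rcases r with h | ⟨e, l⟩
    · refine (mem_filter_univ _).trans ((ni ..).trans ⟨fun ⟨p, q⟩ => ?_, fun p => ?_⟩)
      · have p' : T.f h = T.f g := (congrArg Subtype.val p).trans g1.symm
        rcases lt_trichotomy h g with r | rfl | r
        exacts [((s2 _ _ r p').ne (g2.trans q.symm)).elim, mem_insert_self ..,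
          ((s2 _ _ r p'.symm).ne (q.trans g2.symm)).elim]
      · obtain p | p := mem_insert.1 p
        · cases p
          exact ⟨Subtype.ext g1, g2⟩
        · obtain ⟨_, _, ⟨⟩⟩ := mem_image.1 p
    · refine (mem_filter_univ _).trans ((ni ..).trans ⟨fun ⟨p, q⟩ => ?_, fun p => ?_⟩)
      · cases p
        exact mem_insert_of_mem (mem_image.2 ⟨l, (mem_filter_univ _).2 q, rfl⟩)
      · obtain p | p := mem_insert.1 p
        · cases p
        · obtain ⟨_, q, ⟨⟩⟩ := mem_image.1 p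
          exact ⟨rfl, (mem_filter.1 q).2⟩
  · rintro (g | ⟨c, l⟩)
    exacts [(Ln ..).2 (s1 g), (Ln ..).2 (B.h3 l)]
  · rintro (g | ⟨c, l⟩) x a
    · obtain rfl | a := mem_insert.1 a
      · exact ⟨le_rfl, fun _ => rfl⟩
      obtain ⟨x, e, rfl⟩ := mem_image.1 a
      exact ⟨((no ..).2 (T.h4 g x e).1).le, fun b => (Lo _ b).elim⟩
    · obtain ⟨x, e, rfl⟩ := mem_image.1 a
      exact ⟨not_lt.1 fun b => ((nn ..).1 b).elim (lt_irrefl _) fun b => (B.h4 l x e).1.not_gt b.2,
        fun b => congrArg _ ((B.h4 l x e).2 ((Ln ..).1 b))⟩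
  · rintro (g | ⟨x, g⟩) (h | ⟨y, h⟩) gh a ha b hb c hc d hd bc cd ab
    · replace gh : g < h := Sum.Lex.inl_lt_inl_iff.1 gh
      have p := T.h4 g
      have q := T.h4 h
      have u := T.h5 g h gh
      have v := s2 g h gh
      have m := fun g x (e : x ∈ insert (n (t g) (s g)) ((T.M g).image o)) =>
        (mem_insert.1 e).imp_right mem_image.1
      have w : ∀ g h, t g = t h ↔ T.f g = T.f h := fun _ _ => Subtype.ext_iff
      have mf : ∀ g x, x ∈ T.M g → T.f g ≤ x := fun g x e => (T.h4 g x e).1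
      rcases m _ _ ha with rfl | ⟨a, ha, rfl⟩ <;> rcases m _ _ hb with rfl | ⟨b, hb, rfl⟩ <;>
        rcases m _ _ hc with rfl | ⟨c, hc, rfl⟩ <;> rcases m _ _ hd with rfl | ⟨d, hd, rfl⟩ <;>
        simp only [oo, on, no, nn, ni, oi, ne, (ne _ _ _).symm, Ln, Lo, t, w] at bc cd ab <;>
        have f1 := T.h8 g <;> have f2 := T.h8 h <;> have f3 := T.h3 g <;> grind
    · obtain ⟨b, hb, rfl⟩ := mem_image.1 hb
      obtain ⟨d, hd, rfl⟩ := mem_image.1 hd
      have p := T.h4 g
      have m := fun x (e : x ∈ insert (n (t g) (s g)) ((T.M g).image o)) =>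
        (mem_insert.1 e).imp_right mem_image.1
      rcases m _ ha with rfl | ⟨a, ha, rfl⟩ <;> rcases m _ hc with rfl | ⟨c, hc, rfl⟩ <;>
        simp only [oo, on, no, nn, ni, oi, ne, (ne _ _ _).symm, Ln, Lo, t, Subtype.ext_iff]
          at bc cd ab <;> grind
    · exact Sum.Lex.not_inr_lt_inl gh
    · obtain ⟨a, ha', rfl⟩ := mem_image.1 ha
      obtain ⟨b, hb', rfl⟩ := mem_image.1 hb
      obtain ⟨c, hc', rfl⟩ := mem_image.1 hc
      obtain ⟨d, hd', rfl⟩ := mem_image.1 hd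
      replace gh := Prod.Lex.toLex_lt_toLex.1 (Sum.Lex.inr_lt_inr_iff.1 gh)
      simp only [nn, ni, Ln] at bc cd ab
      obtain rfl : x = y := Subtype.ext (le_antisymm (cd.elim le_of_lt fun e => (congrArg _ e.1).le)
        (bc.elim le_of_lt fun e => (congrArg _ e.1).le))
      exact B.h5 g h (gh.resolve_left (lt_irrefl _)).2 a ha' b hb' c hc' d hd'
        (bc.resolve_left (lt_irrefl _)).2 (cd.resolve_left (lt_irrefl _)).2
        (ab.imp (fun e => (e.resolve_left (lt_irrefl _)).2) fun e => ⟨e.1.2, e.2⟩)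
  · rintro (g | ⟨c, l⟩)
    exacts [mem_insert_self .., mem_image_of_mem _ (B.h8 l)]
  · have := T.h6
    have := B.h6
    rw [Lc]
    exact this.trans (Nat.le_mul_of_pos_left _ (lt_of_lt_of_le (Nat.two_pow_pos i) T.h6))
  · have c1 : Fintype.card C ≤ Fintype.card T.C + #T.L * Fintype.card B.C := by
      refine (Fintype.card_le_of_surjective (Sum.elim o fun p : T.L × B.C => n p.1 p.2) ?_).trans
        (by simp)
      rintro ⟨⟨c, _ | d⟩, a⟩
      exacts [⟨.inl c, rfl⟩, ⟨.inr (⟨c, a WithTop.coe_ne_top⟩, d), rfl⟩]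
    have c2 : Fintype.card (T.R ⊕ₗ (T.L ×ₗ B.R)) = #T.L * #B.L + #T.L * Fintype.card B.R := by
      rw [← T.card]
      exact (Fintype.card_sum ..).trans (congrArg _ ((Fintype.card_prod ..).trans (by simp)))
    have := T.h7
    rw [T.card] at this
    have := Nat.mul_le_mul_left #T.L B.h7
    have := Nat.mul_le_mul_left #T.L B.h6
    have := Nat.mul_le_mul_right (2 ^ (i + 1)) c1
    rw [c2, Lc]
    rw [pow_succ] at *
    nlinarith

lemma all (i j : ℕ) : Nonempty (U i j) := by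
  induction i generalizing j with
  | zero => exact ⟨{
      R := Fin j, C := Unit, M := fun _ => univ, L := univ, f := fun _ => ()
      h1 := by simp, h2 := by simp, h3 := by simp, h4 := by simp, h5 := by simp, h8 := by simp,
      h6 := by simp, h7 := by simp }⟩
  | succ i ih =>
    induction j with
    | zero => exact ⟨{
        R := Fin 0, C := Fin (2 ^ (i + 1)), M := fun _ => univ, L := univ, f := Fin.elim0
        h1 := by simp, h2 := by simp, h3 := by simp, h4 := by simp, h5 := by simp, h8 := by simp,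
        h6 := by simp, h7 := by simp }⟩
    | succ j jh => exact jh.elim fun B => (ih _).elim fun T => step B T

/-- a square pattern-free matrix with `i` ones in half of the rows -/
lemma big (i : ℕ) : ∃ n > 0, ∃ S : Finset (Fin n × Fin n), i * n ≤ 2 * #S ∧
    ∀ g h a b c d, (g, a) ∈ S → (h, b) ∈ S → (g, c) ∈ S → (h, d) ∈ S → g < h → a < b → b < c →
      c < d → False := by
  classical
  obtain ⟨A⟩ := all i 1
  have c1 := A.card
  have c0 := (Nat.two_pow_pos i).trans_le A.h6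
  have c2 : Fintype.card A.C ≤ 2 * #A.L := by
    have := A.h7
    exact le_of_mul_le_mul_right (by rw [c1] at this; nlinarith) (Nat.two_pow_pos i)
  let e : A.R ↪o _ := (Fintype.orderIsoFinOfCardEq A.R rfl).symm.toOrderEmbedding.trans
    (Fin.castLEOrderEmb (by omega : _ ≤ 2 * #A.L))
  let u : A.C ↪o _ := (Fintype.orderIsoFinOfCardEq A.C rfl).symm.toOrderEmbedding.trans (Fin.castLEOrderEmb c2)
  refine ⟨2 * #A.L, by omega, (univ.sigma A.M).image fun p => (e p.1, u p.2), ?_, ?_⟩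
  · rw [card_image_of_injective _ fun ⟨_, _⟩ ⟨_, _⟩ h => by
      simpa [Prod.ext_iff, e.injective.eq_iff, u.injective.eq_iff] using h, card_sigma]
    have := card_nsmul_le_sum univ _ _ fun r _ => A.h1 r
    rw [card_univ, c1, smul_eq_mul] at this
    nlinarith
  simp only [mem_image, mem_sigma, mem_univ, true_and, Prod.mk.injEq, Sigma.exists]
  rintro _ _ _ _ _ _ ⟨g, a, p, rfl, rfl⟩ ⟨h, b, q, rfl, rfl⟩ ⟨g', c, r, r', rfl⟩ ⟨h', d, s, s', rfl⟩
    x y z w
  obtain rfl := e.injective r'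
  obtain rfl := e.injective s'
  exact A.h5 _ _ (e.lt_iff_lt.1 x) a p b q c r d s (u.lt_iff_lt.1 z) (u.lt_iff_lt.1 w)
    (.inl (u.lt_iff_lt.1 y))

end Pool.Agent.H10.Ds
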