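import Mathlib

set_option autoImplicit false

namespace Pool.Agent.H10.Ds
open Finset

variable {a b k l : ℕ}

/-- number of 1-entries -/
def ones (A : Matrix (Fin a) (Fin b) Bool) : ℕ := #{p : Fin a × Fin b | A p.1 p.2}

/-- `A` contains the pattern `P` -/
def Contains (A : Matrix (Fin a) (Fin b) Bool) (P : Matrix (Fin k) (Fin l) Bool) : Prop :=
  ∃ (r : Fin k ↪o Fin a) (c : Fin l ↪o Fin b), ∀ i j, P i j → A (r i) (c j)

/-- extremal function -/
noncomputable def ex (n : ℕ) (P : Matrix (Fin k) (Fin l) Bool) : ℕ :=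
  sSup {m | ∃ A : Matrix (Fin n) (Fin n) Bool, ¬ Contains A P ∧ ones A = m}

/-- largest `P`-avoiding matrix obtained from `A` by deleting 1-entries -/
noncomputable def LSM (A : Matrix (Fin a) (Fin b) Bool) (P : Matrix (Fin k) (Fin l) Bool) : ℕ :=
  sSup {m | ∃ B : Matrix (Fin a) (Fin b) Bool, (∀ i j, B i j → A i j) ∧ ¬ Contains B P ∧ ones B = m}

/-- minimum of `LSM` over matrices with `m` ones -/
noncomputable def sm (m : ℕ) (P : Matrix (Fin k) (Fin l) Bool) : ℕ :=
  sInf {t | ∃ (a b : ℕ) (A : Matrix (Fin a) (Fin b) Bool), ones A = m ∧ LSM A P = t}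

/-- the pattern with rows 1010 and 0101 -/
def P0 : Matrix (Fin 2) (Fin 4) Bool := !![true, false, true, false; false, true, false, true]

end Pool.Agent.H10.Ds
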