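import Mathlib
import Pool.Agent.H10.DsA
import Pool.Agent.H10.DsDefs

set_option autoImplicit false

namespace Pool.Agent.H10.Ds
open Finset Filter

variable {a b : ℕ}

lemma cont {A : Matrix (Fin a) (Fin b) Bool} : Contains A P0 ↔ ∃ g h p q r s, A g p ∧ A h q ∧
    A g r ∧ A h s ∧ g < h ∧ p < q ∧ q < r ∧ r < s := by
  refine ⟨fun ⟨r, c, h⟩ => ⟨r 0, r 1, c 0, c 1, c 2, c 3, h _ _ rfl, h _ _ rfl, h _ _ rfl, h _ _ rfl,
    by simp, by simp, by simp, by simp⟩, fun ⟨g, h, p, q, r, s, _, _, _, _, _, _, _, _⟩ =>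
      ⟨.ofStrictMono ![g, h] ?_, .ofStrictMono ![p, q, r, s] ?_, ?_⟩⟩
  · simpa [Fin.strictMono_iff_lt_succ]
  · simp [Fin.strictMono_iff_lt_succ, Fin.forall_fin_succ, *]
  · simp [Fin.forall_fin_succ, P0, *]

lemma ones_mem (S : Finset (Fin a × Fin b)) :
    ones (Matrix.of fun i j => decide ((i, j) ∈ S)) = #S := by simp [ones]

lemma bdd (p : Matrix (Fin a) (Fin b) Bool → Prop) : BddAbove {m | ∃ A, p A ∧ ones A = m} :=
  ⟨Fintype.card (Fin a × Fin b), fun _ ⟨_, _, h⟩ => h ▸ card_le_univ _⟩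

lemma ex_tendsto : Tendsto (fun n : ℕ => (ex n P0 : ℝ) / n) atTop atTop := by
  refine tendsto_atTop.2 fun x => ?_
  obtain ⟨i, hi⟩ := exists_nat_ge x
  obtain ⟨k, k0, S, s1, s2⟩ := big (4 * i)
  filter_upwards [eventually_ge_atTop k] with n hn
  rw [le_div_iff₀ (by exact_mod_cast k0.trans_le hn)]
  refine (mul_le_mul_of_nonneg_right hi (by positivity)).trans ?_
  let e : Fin (n / k) ×ₗ Fin k ↪o Fin n := (Fintype.orderIsoFinOfCardEq _ (by
    simp : _ = n / k * k)).symm.toOrderEmbedding.trans (Fin.castLEOrderEmb (Nat.div_mul_le_self n k))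
  let T : Finset (Fin n × Fin n) := (univ ×ˢ S).image fun p =>
    (e (toLex (p.1, p.2.1)), e (toLex (p.1, p.2.2)))
  have := le_csSup (bdd fun A => ¬ Contains A P0) ⟨_, fun h => ?_, ones_mem T⟩
  · rw [card_image_of_injective _ fun _ _ h => by
      simp only [Prod.ext_iff, e.injective.eq_iff, toLex_inj] at h ⊢; tauto, card_product,
      card_univ, Fintype.card_fin] at this
    have h1 := Nat.lt_mul_div_succ n k0
    have h2 := (Nat.one_le_div_iff k0).2 hn
    have h3 : i * n ≤ n / k * #S := by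
      nlinarith [Nat.mul_le_mul_left (n / k) s1, Nat.mul_le_mul_left i (le_of_lt h1),
        Nat.mul_le_mul_left (i * k) h2]
    exact_mod_cast h3.trans this
  simp only [cont, Matrix.of_apply, decide_eq_true_eq, T, mem_image, mem_product, mem_univ,
    true_and, Prod.exists, Prod.mk.injEq] at h
  obtain ⟨_, _, _, _, _, _, ⟨x, g, p, h1, rfl, rfl⟩, ⟨y, h, q, h2, rfl, rfl⟩, ⟨x', g', r, h3, e1, rfl⟩,
    ⟨y', h', s, h4, e2, rfl⟩, u⟩ := h
  simp only [e.injective.eq_iff, toLex_inj, Prod.mk.injEq, e.lt_iff_lt, Prod.Lex.toLex_lt_toLex] at *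
  have := s2 g h p q r s h1 h2 (e1.2 ▸ h3) (e2.2 ▸ h4)
  grind

lemma lower (A : Matrix (Fin a) (Fin b) Bool) : ones A ≤ LSM A P0 * LSM A P0 := by
  classical
  have key : ∀ S : Finset (Fin a × Fin b), (∀ p ∈ S, A p.1 p.2) → (∀ g h p q r, (g, p) ∈ S →
      (h, q) ∈ S → (g, r) ∈ S → g = h ∨ p = r) → #S ≤ LSM A P0 := fun S h1 h2 =>
    le_csSup (by simpa only [and_assoc] using bdd fun B => (∀ i j, B i j → A i j) ∧ ¬ Contains B P0)
      ⟨_, fun i j r => h1 (i, j) (by simpa using r), fun r => by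
        obtain ⟨g, h, p, q, r, s, a1, a2, a3, -, a4, a5, a6, -⟩ := cont.1 r
        exact (h2 g h p q r (by simpa using a1) (by simpa using a2) (by simpa using a3)).elim
          a4.ne (a5.trans a6).ne, ones_mem S⟩
  refine (card_le_mul_card_image (f := Prod.fst) _ _ fun g _ => key _ (fun p h => (mem_filter.1 (mem_filter.1 h).1).2)
    (by simp +contextual)).trans (Nat.mul_le_mul_left _ ?_)
  obtain ⟨S, s1, s2, s3⟩ := exists_subset_injOn_image_eq_of_surjOn (f := Prod.fst)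
    ({p : Fin a × Fin b | A p.1 p.2} : Finset (Fin a × Fin b))
    (image Prod.fst {p : Fin a × Fin b | A p.1 p.2}) (by rw [coe_image]; exact Set.surjOn_image _ _)
  rw [← s3]
  exact card_image_le.trans (key S (fun p h => by simpa using s1 h) fun g h p q r x _ y =>
    .inr (congrArg Prod.snd (s2 x y rfl)))

lemma upper (m : ℕ) : sm m P0 ≤ 3 * (m.sqrt + 1) := by
  classical
  set r := m.sqrt + 1
  let e := (Fintype.orderIsoFinOfCardEq (Fin r ×ₗ Fin r) (by simp : _ = r * r)).symm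
  let φ := fun p : Fin r × Fin r => (p.2, e (toLex (p.1, p.2.rev)))
  have φi : φ.Injective := fun _ _ h => by
    simp only [φ, Prod.ext_iff, e.injective.eq_iff, toLex_inj] at h ⊢
    tauto
  obtain ⟨S, -, s⟩ := exists_subset_card_eq (s := (univ : Finset (Fin r × Fin r))) (n := m)
    (by simpa using (Nat.lt_succ_sqrt m).le)
  refine le_trans (Nat.sInf_le (by exact ⟨_, _, _, (ones_mem (S.image φ)).trans
    ((card_image_of_injective _ φi).trans s), rfl⟩)) (csSup_le' ?_)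
  rintro _ ⟨B, b1, b2, rfl⟩
  let T : Finset (Fin r × Fin r) := {p | B p.2 (φ p).2}
  have : ones B ≤ #T := card_image_le.trans' (card_le_card (t := T.image φ) fun p h => by
    have h := (mem_filter.1 h).2
    obtain ⟨q, -, rfl⟩ := mem_image.1 (by simpa using b1 _ _ h : p ∈ S.image φ)
    exact mem_image_of_mem _ (mem_filter.2 ⟨mem_univ _, h⟩))
  have c := fun (X : Finset (Fin r × Fin r)) (f : Fin r × Fin r → Fin r)
    (h : Set.InjOn f (X : Set (Fin r × Fin r))) =>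
    card_le_card_of_injOn (s := X) (t := univ) f (by simp) h
  refine this.trans ((card_le_card (t := {p ∈ T | ∀ x, (x, p.2) ∈ T → p.1 ≤ x} ∪
    {p ∈ T | ∀ x, (x, p.2) ∈ T → x ≤ p.1} ∪ {p ∈ T | (∃ x < p.1, (x, p.2) ∈ T) ∧
      ∃ x > p.1, (x, p.2) ∈ T}) fun p h => by
        simp only [mem_union, mem_filter, h, true_and]; grind).trans ((card_union_le ..).trans
    ((add_le_add ((card_union_le ..).trans (add_le_add (c _ Prod.snd ?_) (c _ Prod.snd ?_)))
      (c _ Prod.fst ?_)).trans (by simp; omega))))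
  · rintro ⟨x, g⟩ h ⟨y, _⟩ k rfl
    exact Prod.ext (((mem_filter.1 h).2 y (mem_filter.1 k).1).antisymm
      ((mem_filter.1 k).2 x (mem_filter.1 h).1)) rfl
  · rintro ⟨x, g⟩ h ⟨y, _⟩ k rfl
    exact Prod.ext (((mem_filter.1 k).2 x (mem_filter.1 h).1).antisymm
      ((mem_filter.1 h).2 y (mem_filter.1 k).1)) rfl
  · rintro ⟨x, g⟩ h ⟨_, k⟩ l rfl
    by_contra ne
    wlog lt : g < k generalizing g k
    · exact this k l g h (Ne.symm ne) (lt_of_le_of_ne (not_lt.1 lt) fun r => ne (r ▸ rfl))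
    obtain ⟨h1, ⟨y, h2, h3⟩, -⟩ := mem_filter.1 h
    obtain ⟨l1, -, z, l2, l3⟩ := mem_filter.1 l
    exact b2 (cont.2 ⟨g, k, _, _, _, _, (mem_filter.1 h3).2, (mem_filter.1 l1).2, (mem_filter.1 h1).2,
      (mem_filter.1 l3).2, lt, e.lt_iff_lt.2 (Prod.Lex.toLex_lt_toLex.2 (.inl h2)),
      e.lt_iff_lt.2 (Prod.Lex.toLex_lt_toLex.2 (.inr ⟨rfl, Fin.rev_lt_rev.2 lt⟩)),
      e.lt_iff_lt.2 (Prod.Lex.toLex_lt_toLex.2 (.inl l2))⟩)

lemma sm_bounds (m : ℕ) (h : 1 ≤ m) : √m ≤ sm m P0 ∧ sm m P0 ≤ 6 * √m := by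
  constructor
  · obtain ⟨a, b, A, h1, h2⟩ := Nat.sInf_mem (s := {t | ∃ (a b : ℕ) (A : Matrix (Fin a) (Fin b) Bool),
      ones A = m ∧ LSM A P0 = t}) ⟨_, 1, m, fun _ _ => true, by simp [ones], rfl⟩
    rw [Real.sqrt_le_left (by positivity), sm, ← h2, ← h1, sq]
    exact_mod_cast lower A
  · have h1 : (sm m P0 : ℝ) ≤ 3 * (m.sqrt + 1) := by exact_mod_cast upper m
    have h2 := Real.nat_sqrt_le_real_sqrt (a := m)
    have h3 : 1 ≤ √(m : ℝ) := Real.one_le_sqrt.2 (by exact_mod_cast h)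
    linarith

end Pool.Agent.H10.Ds
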