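import Mathlib

set_option autoImplicit false

/-! The epsilon-net theorem by weighted double sampling, and the Sauer–Shelah trace bound. -/

namespace Pool.Agent.H10.EpsNet
open Finset

def w (p : Bool × Bool) : ℝ := if p.1 then 0 else if p.2 then 2 else 1

lemma w_nonneg (p : Bool × Bool) : 0 ≤ w p := by unfold w; split_ifs <;> norm_num

lemma w_swap (p : Bool × Bool) : w p + w p.swap ≤ 2 := by
  obtain ⟨a, b⟩ := p
  cases a <;> cases b <;> norm_num [w]

def sw {γ : Type} {m : ℕ} (σ : Fin m → Bool) (z : Fin m → γ × γ) : Fin m → γ × γ :=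
  fun i => if σ i then (z i).swap else z i

lemma sw_sw {γ : Type} {m : ℕ} (σ : Fin m → Bool) (z : Fin m → γ × γ) : sw σ (sw σ z) = z := by
  funext i; unfold sw; split_ifs <;> simp

variable {β J : Type} {m : ℕ}

def pat (S : J → β → Bool) (j : J) (z : Fin m → β × β) : Fin m → Bool × Bool :=
  fun i => (S j (z i).1, S j (z i).2)

open Classical in
noncomputable def Tr (S : J → β → Bool) (z : Fin m → β × β) : Finset (Fin m → Bool × Bool) :=
  univ.filter fun p => ∃ j, p = pat S j z

lemma pat_sw (S : J → β → Bool) (j : J) (σ : Fin m → Bool) (z : Fin m → β × β) :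
    pat S j (sw σ z) = sw σ (pat S j z) := by
  funext i; unfold pat sw; split_ifs <;> simp

lemma mem_Tr (S : J → β → Bool) (z : Fin m → β × β) (p : Fin m → Bool × Bool) :
    p ∈ Tr S z ↔ ∃ j, p = pat S j z := by simp [Tr]

theorem net [Fintype β] [Nonempty β] (S : J → β → Bool) (ε B : ℝ) (hε : 0 ≤ ε)
    (hS : ∀ j, ε * Fintype.card β ≤ #(univ.filter fun b => S j b = true))
    (hB : ∀ z : Fin m → β × β, (#(Tr S z) : ℝ) ≤ B) (hlt : B < (1 + ε) ^ m) :
    ∃ x : Fin m → β, ∀ j, ∃ i, S j (x i) = true := by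
  classical
  by_contra hc
  push Not at hc
  choose jx hjx using hc
  let W : (Fin m → Bool × Bool) → ℝ := fun p => ∏ i, w (p i)
  have W0 : ∀ p, 0 ≤ W p := fun p => prod_nonneg fun i _ => w_nonneg _
  let G : (Fin m → β × β) → ℝ := fun z => ∑ p ∈ Tr S z, W p
  set N : ℝ := (Fintype.card β : ℝ) with hN
  have N0 : 0 < N := by rw [hN]; exact_mod_cast Fintype.card_pos
  have low : N ^ m * ((1 + ε) * N) ^ m ≤ ∑ z, G z := by
    rw [← (Equiv.arrowProdEquivProdArrow (Fin m) (fun _ => β) (fun _ => β)).symm.sum_comp,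
      Fintype.sum_prod_type]
    have : ∀ x : Fin m → β, ((1 + ε) * N) ^ m ≤ ∑ y : Fin m → β,
        G ((Equiv.arrowProdEquivProdArrow (Fin m) (fun _ => β) (fun _ => β)).symm (x, y)) := by
      intro x
      have h1 : (1 + ε) * N ≤ ∑ b : β, (if S (jx x) b then (2 : ℝ) else 1) := by
        have e : ∀ b : β, (if S (jx x) b then (2 : ℝ) else 1) =
            1 + (if S (jx x) b = true then (1 : ℝ) else 0) := fun b => by
          split_ifs <;> norm_num
        simp only [e, sum_add_distrib, sum_const, card_univ, nsmul_eq_mul, mul_one, sum_boole]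
        linarith [hS (jx x)]
      calc ((1 + ε) * N) ^ m ≤ (∑ b : β, (if S (jx x) b then (2 : ℝ) else 1)) ^ m :=
            pow_le_pow_left₀ (by positivity) h1 m
        _ = ∑ y : Fin m → β, ∏ i, (if S (jx x) (y i) then (2 : ℝ) else 1) := by
            rw [← Fintype.prod_sum (fun (_ : Fin m) (b : β) => if S (jx x) b then (2 : ℝ) else 1)]
            simp
        _ ≤ _ := sum_le_sum fun y _ => by
            refine le_trans (le_of_eq ?_) (single_le_sum (f := W) (fun p _ => W0 p)
              ((mem_Tr S _ _).mpr ⟨jx x, rfl⟩))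
            refine prod_congr rfl fun i _ => ?_
            simp [w, pat, hjx x i]
    calc N ^ m * ((1 + ε) * N) ^ m = ∑ _x : Fin m → β, ((1 + ε) * N) ^ m := by simp [hN]
      _ ≤ _ := sum_le_sum fun x _ => this x
  have gsw : ∀ σ z, G (sw σ z) = ∑ p ∈ Tr S z, W (sw σ p) := by
    intro σ z
    refine sum_nbij' (sw σ) (sw σ) (fun p hp => ?_) (fun p hp => ?_) (fun p _ => sw_sw σ p)
      (fun p _ => sw_sw σ p) (fun p _ => by rw [sw_sw])
    · obtain ⟨j, rfl⟩ := (mem_Tr S _ _).mp hp
      exact (mem_Tr S _ _).mpr ⟨j, by rw [pat_sw, sw_sw]⟩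
    · obtain ⟨j, rfl⟩ := (mem_Tr S _ _).mp hp
      exact (mem_Tr S _ _).mpr ⟨j, by rw [pat_sw]⟩
  have up : (2 : ℝ) ^ m * ∑ z, G z ≤ (N * N) ^ m * (B * 2 ^ m) := by
    have e1 : ∀ σ : Fin m → Bool, ∑ z, G z = ∑ z, G (sw σ z) := fun σ =>
      (Equiv.sum_comp (Function.Involutive.toPerm (sw σ) (sw_sw σ)) G).symm
    calc (2 : ℝ) ^ m * ∑ z, G z = ∑ σ : Fin m → Bool, ∑ z, G z := by simp
      _ = ∑ σ : Fin m → Bool, ∑ z, G (sw σ z) := sum_congr rfl fun σ _ => e1 σ
      _ = ∑ z, ∑ p ∈ Tr S z, ∑ σ : Fin m → Bool, W (sw σ p) := by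
          rw [sum_comm]
          exact sum_congr rfl fun z _ => by simp only [gsw]; rw [sum_comm]
      _ ≤ ∑ _z : Fin m → β × β, B * 2 ^ m := sum_le_sum fun z _ => by
          refine le_trans (sum_le_card_nsmul _ _ ((2 : ℝ) ^ m) fun p _ => ?_) ?_
          · have := Fintype.prod_sum
              (fun (i : Fin m) (b : Bool) => w (if b then (p i).swap else p i))
            simp only [W, sw]
            rw [← this]
            refine le_trans (prod_le_prod (fun i _ => sum_nonneg fun b _ => w_nonneg _)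
              (g := fun _ => (2 : ℝ)) fun i _ => ?_) (by simp)
            simp only [Fintype.univ_bool, mem_singleton, Bool.true_eq_false, not_false_eq_true,
              sum_insert, sum_singleton, if_true, Bool.false_eq_true, if_false]
            linarith [w_swap (p i)]
          · rw [nsmul_eq_mul]
            exact mul_le_mul_of_nonneg_right (hB z) (by positivity)
      _ = _ := by simp [hN]
  have h2 : (2 : ℝ) ^ m * (N ^ m * ((1 + ε) * N) ^ m) ≤ (N * N) ^ m * (B * 2 ^ m) :=
    le_trans (mul_le_mul_of_nonneg_left low (by positivity)) up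
  have h3 : (N * N) ^ m * 2 ^ m * (1 + ε) ^ m ≤ (N * N) ^ m * 2 ^ m * B := by
    rw [mul_pow, mul_pow] at h2
    rw [mul_pow]
    linarith
  exact absurd (le_of_mul_le_mul_left h3 (by positivity)) (not_le.mpr hlt)

lemma sum_choose_le (M d : ℕ) (x : ℝ) (h0 : 0 < x) (h1 : x ≤ 1) :
    (∑ k ∈ Iic d, (M.choose k : ℝ)) * x ^ d ≤ (1 + x) ^ M := by
  rw [add_comm, add_pow, sum_mul]
  calc ∑ k ∈ Iic d, (M.choose k : ℝ) * x ^ d ≤ ∑ k ∈ Iic d, x ^ k * 1 ^ (M - k) * M.choose k :=
        sum_le_sum fun k hk => by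
          rw [one_pow, mul_one, mul_comm]
          exact mul_le_mul_of_nonneg_right (pow_le_pow_of_le_one h0.le h1 (mem_Iic.mp hk))
            (by positivity)
    _ = ∑ k ∈ Iic d ∩ range (M + 1), x ^ k * 1 ^ (M - k) * M.choose k := by
        symm
        refine sum_subset inter_subset_left fun k hk hk' => ?_
        rw [Nat.choose_eq_zero_of_lt (by simp at hk hk'; omega)]; simp
    _ ≤ _ := sum_le_sum_of_subset_of_nonneg inter_subset_right fun k _ _ => by positivity

/-- traces of closed half-spaces -/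
theorem trace_bound {n : ℕ} (P : β → Fin n → ℝ) (u : J → Fin n → ℝ) (c : J → ℝ)
    (S : J → β → Bool) (hS : ∀ j b, S j b = true ↔ c j ≤ ∑ k, u j k * P b k)
    (z : Fin m → β × β) : #(Tr S z) ≤ ∑ k ∈ Iic (n + 1), (2 * m).choose k := by
  classical
  let enc : (Fin m → Bool × Bool) → Finset (Fin m × Bool) := fun p =>
    univ.filter fun q => (if q.2 then (p q.1).1 else (p q.1).2) = true
  have inj : Function.Injective enc := by
    intro p p' h
    funext i
    have h1 := congrArg (fun s => (i, true) ∈ s) h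
    have h2 := congrArg (fun s => (i, false) ∈ s) h
    simp [enc] at h1 h2
    exact Prod.ext h1 h2
  let pt : Fin m × Bool → β := fun q => if q.2 then (z q.1).1 else (z q.1).2
  have me : ∀ j q, q ∈ enc (pat S j z) ↔ S j (pt q) = true := by
    rintro j ⟨i, b⟩
    cases b <;> simp [enc, pat, pt]
  have vc : ((Tr S z).image enc).vcDim ≤ n + 1 := by
    refine Finset.sup_le fun s hs => ?_
    rw [mem_shatterer] at hs
    by_contra hc
    have na : ¬ AffineIndependent ℝ (fun q : s => P (pt q)) := fun h => by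
      have h1 := h.card_le_finrank_succ
      have h2 := Submodule.finrank_le (vectorSpan ℝ (Set.range fun q : s => P (pt q)))
      simp only [Fintype.card_coe, Module.finrank_fintype_fun_eq_card, Fintype.card_fin] at h1 h2
      omega
    obtain ⟨I, y, y1, y2⟩ := Convex.radon_partition na
    obtain ⟨t, ht, e⟩ := hs (t := s.filter fun q => ∃ h : q ∈ s, ⟨q, h⟩ ∈ I) (filter_subset _ _)
    obtain ⟨p, hp, rfl⟩ := mem_image.mp ht
    obtain ⟨j, rfl⟩ := (mem_Tr S z p).mp hp
    have key : ∀ q : s, q ∈ I ↔ c j ≤ ∑ k, u j k * P (pt q) k := by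
      intro q
      have := congrArg (fun t => q.1 ∈ t) e
      simp only [mem_inter, q.2, true_and, mem_filter, eq_iff_iff] at this
      rw [← hS, ← me, this]
      simp
    have lin : IsLinearMap ℝ fun y : Fin n → ℝ => ∑ k, u j k * y k :=
      ⟨fun a b => by simp [mul_add, sum_add_distrib], fun r a => by
        simp only [Pi.smul_apply, smul_eq_mul, mul_sum]
        exact sum_congr rfl fun k _ => by ring⟩
    have a1 := convexHull_min (t := {y | c j ≤ ∑ k, u j k * y k})
      (by rintro _ ⟨q, hq, rfl⟩; exact (key q).mp hq) (convex_halfSpace_ge lin _) y1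
    have a2 := convexHull_min (t := {y | ∑ k, u j k * y k < c j})
      (by rintro _ ⟨q, hq, rfl⟩; exact not_le.mp fun h => hq ((key q).mpr h))
      (convex_halfSpace_lt lin _) y2
    exact absurd (show c j ≤ ∑ k, u j k * y k from a1)
      (not_le.mpr (show ∑ k, u j k * y k < c j from a2))
  rw [← card_image_of_injective _ inj]
  refine (card_le_card_shatterer _).trans (card_shatterer_le_sum_vcDim.trans ?_)
  simp only [Fintype.card_prod, Fintype.card_fin, Fintype.card_bool, mul_comm m 2]
  exact sum_le_sum_of_subset (Iic_subset_Iic.mpr vc)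

/-- nets of linear size for half-spaces -/
theorem half_net (ε : ℝ) (h0 : 0 < ε) (h1 : ε ≤ 1) : ∃ K : ℕ, 0 < K ∧ ∀ (n : ℕ) (β J : Type)
    [Fintype β] [Nonempty β] (P : β → Fin n → ℝ) (u : J → Fin n → ℝ) (c : J → ℝ)
    (S : J → β → Bool), (∀ j b, S j b = true ↔ c j ≤ ∑ k, u j k * P b k) →
    (∀ j, ε * Fintype.card β ≤ #(univ.filter fun b => S j b = true)) →
    ∃ x : Fin (K * (n + 1)) → β, ∀ j, ∃ i, S j (x i) = true := by
  have q1 : 1 < (1 + ε) / (1 + ε / 4) ^ 2 := by
    rw [one_lt_div (by positivity)]; nlinarith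
  obtain ⟨K, hK⟩ := pow_unbounded_of_one_lt (1 / (ε / 4)) q1
  have K0 : 0 < K := by
    rcases Nat.eq_zero_or_pos K with rfl | h
    · rw [pow_zero, div_lt_one (by positivity)] at hK; linarith
    · exact h
  refine ⟨K, K0, fun n β J _ _ P u c S hS hd => ?_⟩
  refine net S ε (∑ k ∈ Iic (n + 1), ((2 * (K * (n + 1))).choose k : ℝ)) h0.le hd
    (fun z => by exact_mod_cast trace_bound P u c S hS z) ?_
  have a := sum_choose_le (2 * (K * (n + 1))) (n + 1) (ε / 4) (by positivity) (by linarith)
  have b : (1 + ε / 4) ^ (2 * K) < (1 + ε) ^ K * (ε / 4) := by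
    rw [div_pow, div_lt_div_iff₀ (by positivity) (by positivity), one_mul, ← pow_mul] at hK
    exact hK
  have c' := pow_lt_pow_left₀ b (by positivity) (Nat.succ_ne_zero n)
  rw [← pow_mul, mul_pow, ← pow_mul, mul_assoc] at c'
  exact lt_of_mul_lt_mul_right (lt_of_le_of_lt a c') (by positivity)

end Pool.Agent.H10.EpsNet
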