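import Mathlib
import Pool.Agent.H10.CedDefs

set_option autoImplicit false

namespace Pool.Agent.H10.Ced

/-- link of a vertex -/
def lk (K : Cx) (v : ℕ) : Cx := {t | v ∉ t ∧ insert v t ∈ K}

/-- deletion of a vertex -/
def del (K : Cx) (v : ℕ) : Cx := {t | t ∈ K ∧ v ∉ t}

/-- non-evasive complexes -/
inductive NonEv : Cx → Prop
  | pt (v : ℕ) : NonEv {∅, {v}}
  | step (K : Cx) (v : ℕ) : {v} ∈ K → (∃ u, u ≠ v ∧ {u} ∈ K) → NonEv (lk K v) →
      NonEv (del K v) → NonEv K

/-- the copies of the face `e` in the facets `F` and `F'` are identified once the ridges in `G`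
have been glued -/
def Glued (C : Cx) (G : Set (Finset ℕ)) (e F F' : Finset ℕ) : Prop :=
  Relation.ReflTransGen (fun A B => Facet C B ∧ A ∩ B ∈ G ∧ e ⊆ A ∩ B) F F'

/-- `Build d C S G`: the pseudomanifold made of the facets in `S`, glued along the ridges in `G`,
is reached by a local construction -/
inductive Build (d : ℕ) (C : Cx) : Set (Finset ℕ) → Set (Finset ℕ) → Prop
  | start (F : Finset ℕ) : Facet C F → Build d C {F} ∅
  | attach (S G : Set (Finset ℕ)) (F F' : Finset ℕ) : Build d C S G → F ∈ S → Facet C F' →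
      F' ∉ S → (F ∩ F').card = d → F ∩ F' ∉ G → Build d C (insert F' S) (insert (F ∩ F') G)
  | fold (S G : Set (Finset ℕ)) (F F' e : Finset ℕ) : Build d C S G → F ∈ S → F' ∈ S → F ≠ F' →
      (F ∩ F').card = d → F ∩ F' ∉ G → e ⊆ F ∩ F' → e.card + 1 = d → Glued C G e F F' →
      Build d C S (insert (F ∩ F') G)

/-- locally constructible pure `d`-dimensional complex: a local construction uses all facets and
makes all identifications of `C` -/
def LC (d : ℕ) (C : Cx) : Prop :=
  Pure (d + 1) C ∧ ∃ G, Build d C {F | Facet C F} G ∧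
    ∀ F F', Facet C F → Facet C F' → Glued C G (F ∩ F') F F'

end Pool.Agent.H10.Ced
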