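import Mathlib

set_option autoImplicit false

namespace Pool.Agent.H10.Knot
open Finset Function

def Sp (v : ℕ) : Prop := v = 4 ∨ v = 5 ∨ v = 6

/-- along a shelling, a threefold cover branched over a triangle has a section -/
theorem exists_section (X : Set (Finset ℕ)) (hX : X.Finite) (t : Finset ℕ → ℕ)
    (inj : ∀ F ∈ X, ∀ G ∈ X, t F = t G → F = G) (A : Finset ℕ → (ℕ → ℕ) → Prop)
    (h4 : ∀ G ∈ X, G.card = 4)
    (P : ∀ G ∈ X, ∀ F ∈ X, t F < t G → ∃ w ∈ G, w ∉ F ∧ ∃ N ∈ X, t N < t G ∧ G.erase w ⊆ N)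
    (loc : ∀ G l l', (∀ v ∈ G, l v = l' v) → A G l → A G l')
    (E : ∀ F ∈ X, ∀ G ∈ X, ∀ w ∈ G, G.erase w ⊆ F → ∀ l, A F l → ∃ c, A G (update l w c))
    (U : ∀ G ∈ X, ∀ l l', A G l → A G l' → ∀ v ∈ G, l v = l' v → (¬ Sp v ∨ l v = 0) →
      ∀ u ∈ G, l u = l' u)
    (Z : ∀ G ∈ X, ∀ l, A G l → ∀ a ∈ G, ∀ b ∈ G, Sp a → Sp b → l a = 0 → l b = 0)
    (ex : ∀ G ∈ X, ∀ a ∈ G, ∃ l, A G l ∧ l a = 0)
    (ns : ∀ G ∈ X, ∀ w, ∃ v ∈ G, v ≠ w ∧ ¬ Sp v) : ∃ l, ∀ G ∈ X, A G l := by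
  classical
  let Sec : ℕ → (ℕ → ℕ) → Prop := fun n l => ∀ F ∈ X, t F < n → A F l
  let Old : ℕ → ℕ → Prop := fun n v => ∃ F ∈ X, t F < n ∧ v ∈ F
  let IA : ℕ → Prop := fun n => ∀ F ∈ X, t F < n → ∀ l0, A F l0 →
    ∃ l, Sec n l ∧ ∀ v ∈ F, l v = l0 v
  let IB : ℕ → Prop := fun n => ∃ l, Sec n l ∧ ∃ a b, a ≠ b ∧ Sp a ∧ Sp b ∧ Old n a ∧ Old n b ∧
    l a = 0 ∧ l b = 0
  have main : ∀ n, IA n ∨ IB n := by
    intro n
    induction n with
    | zero => exact Or.inl fun F _ h => absurd h (by omega)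
    | succ n ih =>
      have om : ∀ v, Old n v → Old (n + 1) v := fun v ⟨F, h1, h2, h3⟩ => ⟨F, h1, by omega, h3⟩
      by_cases hG : ∃ G ∈ X, t G = n
      swap
      · have e : ∀ F ∈ X, t F < n + 1 → t F < n := fun F hF h =>
          lt_of_le_of_ne (by omega) fun e => hG ⟨F, hF, e⟩
        rcases ih with ih | ⟨l, h1, a, b, h2, h3, h4, h5, h6, h7⟩
        · refine Or.inl fun F hF h l0 h0 => ?_
          obtain ⟨l, h1, h2⟩ := ih F hF (e F hF h) l0 h0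
          exact ⟨l, fun F hF h => h1 F hF (e F hF h), h2⟩
        · exact Or.inr ⟨l, fun F hF h => h1 F hF (e F hF h), a, b, h2, h3, h4, om a h5, om b h6,
            h7⟩
      obtain ⟨G, hG, hn⟩ := hG
      have e : ∀ F ∈ X, t F < n + 1 → t F < n ∨ F = G := fun F hF h =>
        (lt_or_eq_of_le (Nat.lt_succ_iff.1 h)).imp_right fun e => inj F hF G hG (e.trans hn.symm)
      by_cases h0 : ∃ F ∈ X, t F < n
      swap
      · refine Or.inl fun F hF h l0 hl => ⟨l0, fun F' hF' h' => ?_, fun _ _ => rfl⟩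
        rw [(e F' hF' h').resolve_left fun h => h0 ⟨F', hF', h⟩,
          ← (e F hF h).resolve_left fun h => h0 ⟨F, hF, h⟩]
        exact hl
      obtain ⟨F0, hF0, h0⟩ := h0
      obtain ⟨w, hw, -, N, hN, hNt, hGN⟩ := P G hG F0 hF0 (hn ▸ h0)
      rw [hn] at hNt
      have two : ∀ w' ∈ G, w' ≠ w → ∃ a b, a ≠ b ∧ ∀ v, (v ∈ G ∧ v ≠ w ∧ v ≠ w') ↔
          v = a ∨ v = b := by
        intro w' hw' hne
        obtain ⟨a, b, h1, h2⟩ := card_eq_two.1 (show ((G.erase w).erase w').card = 2 by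
          rw [card_erase_of_mem (mem_erase.2 ⟨hne, hw'⟩), card_erase_of_mem hw, h4 G hG])
        refine ⟨a, b, h1, fun v => ?_⟩
        have := Finset.ext_iff.1 h2 v
        simp only [mem_erase, mem_insert, mem_singleton] at this
        tauto
      have ext : ∀ l, Sec n l → (∀ w' ∈ G, w' ≠ w → (∀ v ∈ G, v ≠ w → v ≠ w' → Sp v) →
          Old n w → ∃ a ∈ G, a ≠ w ∧ a ≠ w' ∧ l a = 0) →
          ∃ l', Sec (n + 1) l' ∧ ∀ v, Old n v → l' v = l v := by
        intro l hl hc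
        obtain ⟨c, h1⟩ := E N hN G hG w hw hGN l (hl N hN hNt)
        by_cases ho : Old n w
        · obtain ⟨F, hF, h2, h3⟩ := id ho
          obtain ⟨w', hw', h5, N', hN', h6, h7⟩ := P G hG F hF (hn ▸ h2)
          have hne : w' ≠ w := fun e => h5 (e ▸ h3)
          obtain ⟨c', h8⟩ := E N' hN' G hG w' hw' h7 l (hl N' hN' (hn ▸ h6))
          obtain ⟨a, a1, a2, a3, a4⟩ : ∃ a ∈ G, a ≠ w ∧ a ≠ w' ∧ (¬ Sp a ∨ l a = 0) := by
            by_contra hcon
            push Not at hcon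
            obtain ⟨a, a1, a2, a3, a4⟩ := hc w' hw' hne (fun v b1 b2 b3 => (hcon v b1 b2 b3).1) ho
            exact (hcon a a1 a2 a3).2 a4
          have h9 := U G hG _ _ h1 h8 a a1 (by rw [update_of_ne a2, update_of_ne a3])
            (by rwa [update_of_ne a2]) w hw
          rw [update_self, update_of_ne hne.symm] at h9
          rw [h9, update_eq_self] at h1
          refine ⟨l, fun F hF h => ?_, fun _ _ => rfl⟩
          rcases e F hF h with h | rfl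
          exacts [hl F hF h, h1]
        · have ag : ∀ v, Old n v → update l w c v = l v := fun v hv =>
            update_of_ne (fun e : v = w => ho (e ▸ hv)) _ _
          refine ⟨update l w c, fun F hF h => ?_, ag⟩
          rcases e F hF h with h | rfl
          exacts [loc F l _ (fun v hv => (ag v ⟨F, hF, h, hv⟩).symm) (hl F hF h), h1]
      have stepB : IB n → IB (n + 1) := by
        rintro ⟨l, h1, a, b, h2, h3, h4, h5, h6, h7, h8⟩
        obtain ⟨l', b1, b2⟩ := ext l h1 fun w' hw' hne hs _ => by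
          obtain ⟨x, y, c1, c2⟩ := two w' hw' hne
          obtain ⟨x1, x2, x3⟩ := (c2 x).2 (Or.inl rfl)
          obtain ⟨y1, y2, y3⟩ := (c2 y).2 (Or.inr rfl)
          have sx := hs x x1 x2 x3
          have sy := hs y y1 y2 y3
          have : (x = a ∨ x = b) ∨ y = a ∨ y = b := by unfold Sp at *; omega
          rcases this with (h | h) | h | h
          exacts [⟨x, x1, x2, x3, h ▸ h7⟩, ⟨x, x1, x2, x3, h ▸ h8⟩, ⟨y, y1, y2, y3, h ▸ h7⟩,
            ⟨y, y1, y2, y3, h ▸ h8⟩]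
        exact ⟨l', b1, a, b, h2, h3, h4, om a h5, om b h6, (b2 a h5).trans h7, (b2 b h6).trans h8⟩
      rcases ih with ih | ih
      swap
      · exact Or.inr (stepB ih)
      by_cases hc : ∃ w' ∈ G, w' ≠ w ∧ ∀ v ∈ G, v ≠ w → v ≠ w' → Sp v
      · obtain ⟨w', hw', hne, hs⟩ := hc
        obtain ⟨x, y, c1, c2⟩ := two w' hw' hne
        obtain ⟨x1, x2, x3⟩ := (c2 x).2 (Or.inl rfl)
        obtain ⟨y1, y2, y3⟩ := (c2 y).2 (Or.inr rfl)
        have xN := hGN (mem_erase.2 ⟨x2, x1⟩)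
        have yN := hGN (mem_erase.2 ⟨y2, y1⟩)
        obtain ⟨l0, b1, b2⟩ := ex N hN x xN
        obtain ⟨l, b3, b4⟩ := ih N hN hNt l0 b1
        exact Or.inr (stepB ⟨l, b3, x, y, c1, hs x x1 x2 x3, hs y y1 y2 y3, ⟨N, hN, hNt, xN⟩,
          ⟨N, hN, hNt, yN⟩, (b4 x xN).trans b2, (b4 y yN).trans
            (Z N hN l0 b1 x xN y yN (hs x x1 x2 x3) (hs y y1 y2 y3) b2)⟩)
      have ext' : ∀ l, Sec n l → ∃ l', Sec (n + 1) l' ∧ ∀ v, Old n v → l' v = l v :=
        fun l hl => ext l hl fun w' hw' hne hs _ => absurd ⟨w', hw', hne, hs⟩ hc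
      refine Or.inl fun F hF h l0 hl => ?_
      rcases e F hF h with h | rfl
      · obtain ⟨l, b1, b2⟩ := ih F hF h l0 hl
        obtain ⟨l', b3, b4⟩ := ext' l b1
        exact ⟨l', b3, fun v hv => (b4 v ⟨F, hF, h, hv⟩).trans (b2 v hv)⟩
      · obtain ⟨x, hx, hx'⟩ := exists_mem_notMem_of_card_lt_card (s := F.erase w) (t := N)
          (by rw [card_erase_of_mem hw, h4 F hF, h4 N hN]; omega)
        have hE : F.erase w = N.erase x := eq_of_subset_of_card_le (subset_erase.2 ⟨hGN, hx'⟩)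
          (by rw [card_erase_of_mem hw, card_erase_of_mem hx, h4 F hF, h4 N hN])
        obtain ⟨c, b0⟩ := E F hF N hN x hx (hE ▸ erase_subset _ _) l0 hl
        obtain ⟨l, b1, b2⟩ := ih N hN hNt _ b0
        obtain ⟨l', b3, b4⟩ := ext' l b1
        obtain ⟨v, v1, v2, v3⟩ := ns F hF w
        have v4 := mem_erase.2 ⟨v2, v1⟩
        refine ⟨l', b3, U F hF l' l0 (b3 F hF h) hl v v1 ?_ (Or.inl v3)⟩
        rw [b4 v ⟨N, hN, hNt, hGN v4⟩, b2 v (hGN v4), update_of_ne fun e : v = x => hx' (e ▸ v4)]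
  obtain ⟨n, hn⟩ := (hX.image t).bddAbove
  have hn' : ∀ F ∈ X, t F < n + 1 := fun F hF => Nat.lt_succ_of_le (hn ⟨F, hF, rfl⟩)
  rcases main (n + 1) with h | ⟨l, h, -⟩
  · rcases X.eq_empty_or_nonempty with rfl | ⟨F, hF⟩
    · exact ⟨0, by simp⟩
    · obtain ⟨v, hv, -⟩ := ns F hF 0
      obtain ⟨l0, h1, -⟩ := ex F hF v hv
      obtain ⟨l, h2, -⟩ := h F hF (hn' F hF) l0 h1
      exact ⟨l, fun G hG => h2 G hG (hn' G hG)⟩
  · exact ⟨l, fun G hG => h G hG (hn' G hG)⟩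

end Pool.Agent.H10.Knot
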