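import Mathlib
import Pool.Agent.H10.CedBall
import Pool.Agent.H10.KnotCore

set_option autoImplicit false

namespace Pool.Agent.H10.Knot
open Finset Function Pool.Agent.H10.Ced

abbrev Ent := List (ℕ × List ℕ)

def TL : List Ent :=
  [[(0, [0, 1, 2]), (1, [0, 1, 2]), (2, [0, 1, 2]), (11, [1, 0, 2])],
   [(0, [0, 1, 2]), (1, [0, 1, 2]), (10, [2, 0, 1]), (11, [1, 0, 2])],
   [(0, [0, 1, 2]), (2, [0, 1, 2]), (8, [1, 0, 2]), (11, [1, 0, 2])],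
   [(1, [0, 1, 2]), (2, [0, 1, 2]), (5, [1, 0, 1]), (11, [1, 0, 2])],
   [(0, [0, 1, 2]), (1, [0, 1, 2]), (7, [2, 1, 0]), (10, [2, 0, 1])],
   [(0, [0, 1, 2]), (8, [1, 0, 2]), (10, [2, 0, 1]), (11, [1, 0, 2])],
   [(1, [0, 1, 2]), (4, [0, 1, 1]), (10, [2, 0, 1]), (11, [1, 0, 2])],
   [(0, [0, 1, 2]), (2, [0, 1, 2]), (4, [1, 1, 0]), (8, [1, 0, 2])],
   [(2, [0, 1, 2]), (7, [1, 0, 2]), (8, [1, 0, 2]), (11, [1, 0, 2])],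
   [(1, [0, 1, 2]), (2, [0, 1, 2]), (5, [1, 0, 1]), (6, [1, 0, 1])],
   [(1, [0, 1, 2]), (5, [1, 0, 1]), (11, [1, 0, 2]), (12, [2, 1, 0])],
   [(2, [0, 1, 2]), (5, [1, 0, 1]), (7, [1, 0, 2]), (11, [1, 0, 2])],
   [(0, [0, 1, 2]), (1, [0, 1, 2]), (3, [0, 1, 2]), (7, [2, 1, 0])],
   [(0, [0, 1, 2]), (5, [1, 1, 0]), (7, [2, 1, 0]), (10, [2, 0, 1])],
   [(1, [0, 1, 2]), (4, [0, 1, 1]), (7, [2, 1, 0]), (10, [2, 0, 1])],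
   [(0, [0, 1, 2]), (5, [1, 1, 0]), (8, [1, 0, 2]), (10, [2, 0, 1])],
   [(6, [0, 1, 1]), (8, [1, 0, 2]), (10, [2, 0, 1]), (11, [1, 0, 2])],
   [(1, [0, 1, 2]), (4, [0, 1, 1]), (11, [1, 0, 2]), (12, [2, 1, 0])],
   [(4, [0, 1, 1]), (6, [0, 1, 1]), (10, [2, 0, 1]), (11, [1, 0, 2])],
   [(0, [0, 1, 2]), (2, [0, 1, 2]), (3, [0, 1, 2]), (4, [1, 1, 0])],
   [(0, [0, 1, 2]), (4, [1, 1, 0]), (5, [1, 1, 0]), (8, [1, 0, 2])],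
   [(2, [0, 1, 2]), (4, [1, 1, 0]), (7, [1, 0, 2]), (8, [1, 0, 2])],
   [(6, [0, 1, 1]), (7, [1, 0, 2]), (8, [1, 0, 2]), (11, [1, 0, 2])],
   [(1, [0, 1, 2]), (2, [0, 1, 2]), (3, [0, 1, 2]), (6, [1, 0, 1])],
   [(1, [0, 1, 2]), (5, [1, 0, 1]), (6, [1, 0, 1]), (12, [2, 1, 0])],
   [(2, [0, 1, 2]), (5, [1, 0, 1]), (6, [1, 0, 1]), (12, [0, 1, 2])],
   [(5, [0, 1, 1]), (9, [1, 0, 2]), (11, [0, 2, 1]), (12, [1, 0, 2])],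
   [(2, [0, 1, 2]), (5, [1, 0, 1]), (7, [1, 0, 2]), (10, [0, 1, 2])],
   [(5, [0, 1, 1]), (7, [0, 1, 2]), (9, [1, 2, 0]), (11, [0, 1, 2])],
   [(0, [0, 1, 2]), (3, [0, 1, 2]), (5, [1, 1, 0]), (7, [2, 1, 0])],
   [(1, [0, 1, 2]), (3, [0, 1, 2]), (6, [1, 0, 1]), (7, [2, 1, 0])],
   [(1, [0, 1, 2]), (4, [0, 1, 1]), (7, [2, 1, 0]), (12, [2, 1, 0])],
   [(2, [0, 1, 2]), (4, [1, 1, 0]), (7, [1, 0, 2]), (10, [0, 1, 2])],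
   [(3, [0, 1, 2]), (5, [1, 1, 0]), (8, [0, 1, 2]), (10, [0, 2, 1])],
   [(3, [0, 1, 2]), (6, [1, 0, 1]), (8, [0, 1, 2]), (10, [0, 2, 1])],
   [(4, [0, 1, 1]), (9, [2, 0, 1]), (11, [1, 2, 0]), (12, [2, 0, 1])],
   [(4, [0, 1, 1]), (6, [0, 1, 1]), (9, [2, 0, 1]), (10, [2, 0, 1])],
   [(4, [0, 1, 1]), (6, [0, 1, 1]), (9, [2, 0, 1]), (11, [1, 2, 0])],
   [(0, [0, 1, 2]), (3, [0, 1, 2]), (4, [1, 1, 0]), (5, [1, 1, 0])],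
   [(2, [0, 1, 2]), (3, [0, 1, 2]), (4, [1, 1, 0]), (12, [0, 1, 2])],
   [(3, [0, 1, 2]), (4, [1, 1, 0]), (5, [1, 1, 0]), (8, [0, 1, 2])],
   [(4, [0, 1, 1]), (7, [2, 0, 1]), (8, [2, 0, 1]), (12, [2, 0, 1])],
   [(6, [0, 1, 1]), (7, [1, 0, 2]), (8, [1, 0, 2]), (12, [1, 0, 2])],
   [(6, [0, 1, 1]), (7, [1, 0, 2]), (9, [2, 1, 0]), (11, [1, 0, 2])],
   [(2, [0, 1, 2]), (3, [0, 1, 2]), (6, [1, 0, 1]), (12, [0, 1, 2])],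
   [(1, [0, 1, 2]), (6, [1, 0, 1]), (7, [2, 1, 0]), (12, [2, 1, 0])],
   [(2, [0, 1, 2]), (5, [1, 0, 1]), (10, [0, 1, 2]), (12, [0, 1, 2])],
   [(5, [0, 1, 1]), (9, [1, 0, 2]), (10, [1, 0, 2]), (12, [1, 0, 2])],
   [(3, [0, 1, 2]), (5, [1, 1, 0]), (7, [2, 1, 0]), (9, [0, 2, 1])],
   [(3, [0, 1, 2]), (6, [1, 0, 1]), (7, [2, 1, 0]), (9, [0, 2, 1])],
   [(2, [0, 1, 2]), (4, [1, 1, 0]), (10, [0, 1, 2]), (12, [0, 1, 2])],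
   [(3, [0, 1, 2]), (5, [1, 1, 0]), (9, [0, 2, 1]), (10, [0, 2, 1])],
   [(3, [0, 1, 2]), (6, [1, 0, 1]), (8, [0, 1, 2]), (12, [0, 1, 2])],
   [(3, [0, 1, 2]), (6, [1, 0, 1]), (9, [0, 2, 1]), (10, [0, 2, 1])],
   [(4, [0, 1, 1]), (9, [2, 0, 1]), (10, [2, 0, 1]), (12, [2, 0, 1])],
   [(3, [0, 1, 2]), (4, [1, 1, 0]), (8, [0, 1, 2]), (12, [0, 1, 2])]]

def ML : List (List ℕ × List ℕ × List (List ℕ)) :=
  [([4, 6], [9, 10, 11], [[6, 9, 10, 11], [4, 9, 10, 11]]),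
   ([5, 6], [1, 2, 12], [[1, 2, 6, 12], [1, 2, 5, 12]]),
   ([4, 9], [10, 11, 12], [[4, 10, 11, 12], [9, 10, 11, 12]]),
   ([2, 6], [1, 3, 12], [[1, 3, 6, 12], [1, 2, 3, 12]]),
   ([4, 5], [0, 3, 8], [[0, 3, 5, 8], [0, 3, 4, 8]]),
   ([1, 5], [2, 11, 12], [[2, 5, 11, 12], [1, 2, 11, 12]]),
   ([4, 11], [1, 10, 12], [[1, 4, 10, 12], [1, 10, 11, 12]]),
   ([9, 12], [5, 10, 11], [[5, 10, 11, 12], [5, 9, 10, 11]]),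
   ([5, 12], [2, 10, 11], [[2, 5, 10, 11], [2, 10, 11, 12]]),
   ([5, 8], [0, 3, 10], [[0, 3, 5, 10], [0, 3, 8, 10]]),
   ([1, 4], [7, 10, 12], [[4, 7, 10, 12], [1, 7, 10, 12]]),
   ([11, 12], [1, 2, 10], [[1, 2, 10, 12], [1, 2, 10, 11]]),
   ([1, 6], [3, 7, 12], [[3, 6, 7, 12], [1, 3, 7, 12]]),
   ([4, 10], [2, 7, 12], [[2, 4, 7, 12], [2, 7, 10, 12]]),
   ([4, 7], [2, 8, 12], [[2, 7, 8, 12], [2, 4, 8, 12]]),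
   ([10, 12], [1, 2, 7], [[1, 2, 7, 12], [1, 2, 7, 10]]),
   ([1, 11], [0, 2, 10], [[0, 2, 10, 11], [0, 1, 2, 10]]),
   ([1, 12], [2, 3, 7], [[2, 3, 7, 12], [1, 2, 3, 7]]),
   ([1, 10], [0, 2, 7], [[0, 2, 7, 10], [0, 1, 2, 7]]),
   ([4, 12], [2, 3, 8], [[2, 3, 8, 12], [2, 3, 4, 8]]),
   ([4], [0, 2, 3, 8], [[0, 2, 3, 8]]),
   ([0, 11], [2, 8, 10], [[2, 8, 10, 11], [0, 2, 8, 10]]),
   ([2, 12], [3, 7, 8], [[3, 7, 8, 12], [2, 3, 7, 8]]),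
   ([12], [3, 6, 7, 8], [[3, 6, 7, 8]]),
   ([0, 8], [2, 3, 10], [[2, 3, 8, 10], [0, 2, 3, 10]]),
   ([2, 5], [7, 10, 11], [[5, 7, 10, 11], [2, 7, 10, 11]]),
   ([2, 11], [7, 8, 10], [[7, 8, 10, 11], [2, 7, 8, 10]]),
   ([2, 8], [3, 7, 10], [[2, 3, 7, 10], [3, 7, 8, 10]]),
   ([5, 11], [7, 9, 10], [[5, 7, 9, 10], [7, 9, 10, 11]]),
   ([3, 8], [6, 7, 10], [[3, 6, 7, 10], [6, 7, 8, 10]]),
   ([8], [6, 7, 10, 11], [[6, 7, 10, 11]]),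
   ([11], [6, 7, 9, 10], [[6, 7, 9, 10]]),
   ([6], [3, 7, 9, 10], [[3, 7, 9, 10]]),
   ([9], [3, 5, 7, 10], [[3, 5, 7, 10]]),
   ([5], [0, 3, 7, 10], [[0, 3, 7, 10]]),
   ([10], [0, 2, 3, 7], [[0, 2, 3, 7]]),
   ([7], [0, 1, 2, 3], [[0, 1, 2, 3]])]

def vs (E : Ent) : List ℕ := E.map Prod.fst

def BL : List (List ℕ) := TL.map vs

def lab (p : ℕ × List ℕ) (i : ℕ) : ℕ := p.2.getD i 0

def sp (v : ℕ) : Bool := Nat.beq v 4 || Nat.beq v 5 || Nat.beq v 6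

lemma sp_iff (v : ℕ) : sp v = true ↔ Sp v := by simp [sp, Sp, or_assoc]

def r3 : List ℕ := [0, 1, 2]

lemma D0 : (TL.all fun E => decide ((vs E).toFinset.card = 4) &&
    ((vs E).all fun v => v < 99) && ((vs E).any fun v => 4 ≤ v) &&
    ((vs E).all fun w => (vs E).any fun v => !Nat.beq v w && !sp v) &&
    (E.all fun p => (r3.any fun i => Nat.beq (lab p i) 0) && r3.all fun i => (r3.all fun j =>
      !Nat.beq (lab p i) (lab p j) || (sp p.1 && !Nat.beq (lab p i) 0) || Nat.beq i j) &&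
      E.all fun q => (!Nat.beq p.1 q.1 || Nat.beq (lab p i) (lab q i)) &&
        (!sp p.1 || !sp q.1 || !Nat.beq (lab p i) 0 || Nat.beq (lab q i) 0)) &&
    ((vs E).all fun w => ((vs E).any fun v => !Nat.beq v w && 4 ≤ v) ||
      E.all fun p => Nat.beq p.1 w || r3.all fun i => Nat.beq (lab p i) i)) = true := by
  decide +kernel

lemma D1 : (TL.all fun E => TL.all fun G => (vs G).all fun w =>
    ((vs G).any fun v => !Nat.beq v w && !mem v (vs E)) || r3.all fun i => r3.any fun j =>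
      G.all fun q => Nat.beq q.1 w || E.all fun p =>
        !Nat.beq p.1 q.1 || Nat.beq (lab p i) (lab q j)) = true := by decide +kernel

def sat : List Ent → List (ℕ × ℕ) → Bool
  | [], _ => true
  | E :: L, a => r3.any fun i => (E.all fun p => a.all fun x =>
      !Nat.beq x.1 p.1 || Nat.beq x.2 (lab p i)) && sat L (E.map (fun p => (p.1, lab p i)) ++ a)

lemma D2 : sat TL [] = false := by decide +kernel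

def okm (s : List ℕ) : Bool := (s.all fun v => v < 99) &&
  ((s.any fun v => 4 ≤ v) || sub [0, 1, 2, 3] s)

lemma D3 : (chain [[0, 1, 2, 3]] ML BL && ML.all fun m => okm m.1 && okm m.2.1) = true := by
  decide +kernel

end Pool.Agent.H10.Knot
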