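import Mathlib
import Pool.Agent.H10.KnotData

set_option autoImplicit false

namespace Pool.Agent.H10.Knot
open Finset Function Pool.Agent.H10.Ced

lemma D4 : (TL.all fun E => TL.all fun G => !sub (vs E) (vs G) || decide (E = G)) = true := by
  decide +kernel

lemma d4 (E : Ent) (hE : E ∈ TL) (G : Ent) (hG : G ∈ TL) (h : ∀ v ∈ vs E, v ∈ vs G) : E = G := by
  have := List.all_eq_true.1 (List.all_eq_true.1 D4 E hE) G hG
  simp only [Bool.or_eq_true, Bool.not_eq_true', ← Bool.not_eq_true, sub_iff,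
    decide_eq_true_eq] at this
  exact this.resolve_left (not_not.2 h)

lemma d0 (E : Ent) (hE : E ∈ TL) : (vs E).toFinset.card = 4 ∧ (∀ v ∈ vs E, v < 99) ∧
    (∃ v ∈ vs E, 4 ≤ v) ∧ (∀ w ∈ vs E, ∃ v ∈ vs E, v ≠ w ∧ ¬ Sp v) ∧
    (∀ p ∈ E, (∃ i ∈ r3, lab p i = 0) ∧ ∀ i ∈ r3, (∀ j ∈ r3, lab p i = lab p j →
      (¬ Sp p.1 ∨ lab p i = 0) → i = j) ∧ ∀ q ∈ E, (p.1 = q.1 → lab p i = lab q i) ∧
        (Sp p.1 → Sp q.1 → lab p i = 0 → lab q i = 0)) ∧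
    ∀ w ∈ vs E, (∀ v ∈ vs E, v ≠ w → v < 4) → ∀ p ∈ E, p.1 ≠ w → ∀ i ∈ r3, lab p i = i := by
  have h := List.all_eq_true.1 D0 E hE
  simp only [Bool.and_eq_true, List.any_eq_true, decide_eq_true_eq, Bool.not_eq_true',
    List.all_eq_true, Bool.or_eq_true, Nat.beq_eq, ← Bool.not_eq_true, sp_iff] at h
  obtain ⟨⟨⟨⟨⟨h1, h2⟩, h3⟩, h4⟩, h5⟩, h6⟩ := h
  refine ⟨h1, h2, h3, h4, fun p hp => ⟨(h5 p hp).1, fun i hi => ⟨fun j hj a b => ?_,
    fun q hq => ⟨fun a => ?_, fun a b c => ?_⟩⟩⟩, fun w hw a p hp b i hi => ?_⟩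
  · have := ((h5 p hp).2 i hi).1 j hj
    tauto
  · have := (((h5 p hp).2 i hi).2 q hq).1
    tauto
  · have := (((h5 p hp).2 i hi).2 q hq).2
    tauto
  · rcases h6 w hw with ⟨v, hv, c, d⟩ | h
    · have := a v hv c; omega
    · exact (h p hp).resolve_left b i hi

lemma d1 (E : Ent) (hE : E ∈ TL) (G : Ent) (hG : G ∈ TL) (w : ℕ) (hw : w ∈ vs G)
    (h : ∀ v ∈ vs G, v ≠ w → v ∈ vs E) (i : ℕ) (hi : i ∈ r3) :
    ∃ j ∈ r3, ∀ q ∈ G, q.1 ≠ w → ∀ p ∈ E, p.1 = q.1 → lab p i = lab q j := by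
  have h1 := List.all_eq_true.1 (List.all_eq_true.1 (List.all_eq_true.1 D1 E hE) G hG) w hw
  simp only [Bool.and_eq_true, List.any_eq_true, Bool.not_eq_true',
    List.all_eq_true, Bool.or_eq_true, Nat.beq_eq, ← Bool.not_eq_true, mem_iff] at h1
  obtain ⟨j, hj, h2⟩ := h1.resolve_left (fun ⟨v, a, b, c⟩ => c (h v a b)) i hi
  exact ⟨j, hj, fun q hq a p hp b => ((h2 q hq).resolve_left a p hp).resolve_left (not_not.2 b)⟩

lemma sat_of (l : ℕ → ℕ) : ∀ (L : List Ent) (a : List (ℕ × ℕ)), (∀ x ∈ a, l x.1 = x.2) →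
    (∀ E ∈ L, ∃ i ∈ r3, ∀ p ∈ E, l p.1 = lab p i) → sat L a = true := by
  intro L
  induction L with
  | nil => intro _ _ _; rfl
  | cons E L ih =>
    intro a ha h
    obtain ⟨i, hi, h1⟩ := h E List.mem_cons_self
    simp only [sat, List.any_eq_true, Bool.and_eq_true, List.all_eq_true, Bool.or_eq_true,
      Bool.not_eq_true', ← Bool.not_eq_true, Nat.beq_eq]
    refine ⟨i, hi, fun p hp x hx => or_iff_not_imp_left.2 fun e => ?_,
      ih _ (fun x hx => ?_) fun F hF => h F (List.mem_cons_of_mem _ hF)⟩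
    · rw [← ha x hx, not_not.1 e, h1 p hp]
    · rcases List.mem_append.1 hx with hx | hx
      · obtain ⟨p, hp, rfl⟩ := List.mem_map.1 hx
        exact h1 p hp
      · exact ha x hx

def Out (G : Finset ℕ) : Prop := ∀ v ∈ G, v < 4 ∨ 100 ≤ v

def A (G : Finset ℕ) (l : ℕ → ℕ) : Prop :=
  (∃ E ∈ TL, G = (vs E).toFinset ∧ ∃ i ∈ r3, ∀ p ∈ E, l p.1 = lab p i) ∨
    (Out G ∧ ∃ i ∈ r3, ∀ v ∈ G, l v = i)

lemma not_out (E : Ent) (hE : E ∈ TL) : ¬ Out (vs E).toFinset := by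
  intro h
  obtain ⟨v, hv, h4⟩ := (d0 E hE).2.2.1
  have := h v (List.mem_toFinset.2 hv)
  have := (d0 E hE).2.1 v hv
  omega

lemma A_in (E : Ent) (hE : E ∈ TL) (l : ℕ → ℕ) :
    A (vs E).toFinset l ↔ ∃ i ∈ r3, ∀ p ∈ E, l p.1 = lab p i := by
  refine ⟨?_, fun h => Or.inl ⟨E, hE, rfl, h⟩⟩
  rintro (⟨G, hG, e, h⟩ | ⟨h, -⟩)
  · rwa [d4 E hE G hG fun v hv => List.mem_toFinset.1 (e ▸ List.mem_toFinset.2 hv)]
  · exact absurd h (not_out E hE)

lemma A_out (G : Finset ℕ) (hG : Out G) (l : ℕ → ℕ) : A G l ↔ ∃ i ∈ r3, ∀ v ∈ G, l v = i := by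
  refine ⟨?_, fun h => Or.inr ⟨hG, h⟩⟩
  rintro (⟨E, hE, rfl, -⟩ | ⟨-, h⟩)
  exacts [absurd hG (not_out E hE), h]

lemma mem_vs {E : Ent} {v : ℕ} : v ∈ (vs E).toFinset ↔ ∃ p ∈ E, p.1 = v := by simp [vs]

theorem no_order (X : Set (Finset ℕ)) (hX : X.Finite) (t : Finset ℕ → ℕ)
    (inj : ∀ F ∈ X, ∀ G ∈ X, t F = t G → F = G) (h4 : ∀ G ∈ X, G.card = 4)
    (P : ∀ G ∈ X, ∀ F ∈ X, t F < t G → ∃ w ∈ G, w ∉ F ∧ ∃ N ∈ X, t N < t G ∧ G.erase w ⊆ N)
    (cl : ∀ G ∈ X, Out G ∨ ∃ E ∈ TL, G = (vs E).toFinset)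
    (all : ∀ E ∈ TL, (vs E).toFinset ∈ X) : False := by
  have up : ∀ E ∈ TL, ∀ w ∈ (vs E).toFinset, ∀ l : ℕ → ℕ, ∀ j ∈ r3,
      (∀ q ∈ E, q.1 ≠ w → l q.1 = lab q j) → ∃ c, A (vs E).toFinset (update l w c) := by
    intro E hE w hw l j hj h
    obtain ⟨p, hp, rfl⟩ := mem_vs.1 hw
    refine ⟨lab p j, (A_in E hE _).2 ⟨j, hj, fun q hq => ?_⟩⟩
    by_cases e : q.1 = p.1
    · rw [e, update_self]
      exact ((((d0 E hE).2.2.2.2.1 p hp).2 j hj).2 q hq).1 e.symm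
    · rw [update_of_ne e, h q hq e]
  refine (exists_section X hX t inj A h4 P ?_ ?_ ?_ ?_ ?_ ?_).elim fun l hl => ?_
  rotate_right
  · have := sat_of l TL [] (by simp) fun E hE => (A_in E hE l).1 (hl _ (all E hE))
    rw [D2] at this
    exact absurd this (by simp)
  · rintro G l l' h (⟨E, hE, rfl, i, hi, h1⟩ | ⟨h0, i, hi, h1⟩)
    · exact Or.inl ⟨E, hE, rfl, i, hi, fun p hp => h _ (mem_vs.2 ⟨p, hp, rfl⟩) ▸ h1 p hp⟩
    · exact Or.inr ⟨h0, i, hi, fun v hv => h v hv ▸ h1 v hv⟩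
  · intro F hF G hG w hw hs l hl
    rcases cl G hG with hG' | ⟨E', hE', rfl⟩
    · suffices ∃ i ∈ r3, ∀ v ∈ G, v ≠ w → l v = i by
        obtain ⟨i, hi, h⟩ := this
        refine ⟨i, (A_out G hG' _).2 ⟨i, hi, fun v hv => ?_⟩⟩
        by_cases e : v = w
        · rw [e, update_self]
        · rw [update_of_ne e, h v hv e]
      rcases hl with ⟨E, hE, rfl, i, hi, h1⟩ | ⟨-, i, hi, h1⟩
      · refine ⟨i, hi, fun v hv e => ?_⟩
        obtain ⟨a1, a2, ⟨x, hx, h5⟩, -, -, a6⟩ := d0 E hE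
        have lt : ∀ u ∈ G.erase w, u < 4 := fun u hu => by
          have := hG' u (mem_of_mem_erase hu)
          have := a2 u (List.mem_toFinset.1 (hs hu))
          omega
        have hE : G.erase w = (vs E).toFinset.erase x := eq_of_subset_of_card_le
          (subset_erase.2 ⟨hs, fun h => by have := lt x h; omega⟩) (by
            rw [card_erase_of_mem hw, card_erase_of_mem (List.mem_toFinset.2 hx), a1, h4 G hG])
        have hv' : v ∈ (vs E).toFinset.erase x := hE ▸ mem_erase.2 ⟨e, hv⟩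
        obtain ⟨p, hp, rfl⟩ := mem_vs.1 (mem_of_mem_erase hv')
        rw [h1 p hp]
        exact a6 x hx (fun u hu hn => lt u (hE ▸ mem_erase.2 ⟨hn, List.mem_toFinset.2 hu⟩)) p hp
          (mem_erase.1 hv').1 i hi
      · exact ⟨i, hi, fun v hv e => h1 v (hs (mem_erase.2 ⟨e, hv⟩))⟩
    · have hs' : ∀ v ∈ vs E', v ≠ w → v ∈ F := fun v hv e =>
        hs (mem_erase.2 ⟨e, List.mem_toFinset.2 hv⟩)
      have mv : ∀ q ∈ E', q.1 ∈ vs E' := fun q hq => List.mem_map.2 ⟨q, hq, rfl⟩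
      rcases hl with ⟨E, hE, rfl, i, hi, h1⟩ | ⟨h0, i, hi, h1⟩
      · obtain ⟨j, hj, h2⟩ := d1 E hE E' hE' w (List.mem_toFinset.1 hw)
          (fun v hv e => List.mem_toFinset.1 (hs' v hv e)) i hi
        refine up E' hE' w hw l j hj fun q hq e => ?_
        obtain ⟨p, hp, e'⟩ := mem_vs.1 (hs' _ (mv q hq) e)
        rw [← h2 q hq e p hp e', ← h1 p hp, e']
      · refine up E' hE' w hw l i hi fun q hq e => ?_
        rw [h1 _ (hs' _ (mv q hq) e), (d0 E' hE').2.2.2.2.2 w (List.mem_toFinset.1 hw)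
          (fun v hv e => by
            have := h0 v (hs' v hv e)
            have := (d0 E' hE').2.1 v hv
            omega) q hq e i hi]
  · intro G hG l l' h1 h2 v hv e hc u hu
    rcases cl G hG with hG' | ⟨E, hE, rfl⟩
    · obtain ⟨i, -, h1⟩ := (A_out G hG' _).1 h1
      obtain ⟨j, -, h2⟩ := (A_out G hG' _).1 h2
      rw [h1 u hu, h2 u hu, ← h1 v hv, ← h2 v hv, e]
    · obtain ⟨i, hi, h1⟩ := (A_in E hE _).1 h1
      obtain ⟨j, hj, h2⟩ := (A_in E hE _).1 h2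
      obtain ⟨p, hp, rfl⟩ := mem_vs.1 hv
      obtain ⟨q, hq, rfl⟩ := mem_vs.1 hu
      rw [h1 p hp] at hc
      rw [h1 p hp, h2 p hp] at e
      rw [h1 q hq, h2 q hq, (((d0 E hE).2.2.2.2.1 p hp).2 i hi).1 j hj e hc]
  · intro G hG l h1 a ha b hb sa sb e
    rcases cl G hG with hG' | ⟨E, hE, rfl⟩
    · have := hG' a ha
      unfold Sp at sa
      omega
    · obtain ⟨i, hi, h1⟩ := (A_in E hE _).1 h1
      obtain ⟨p, hp, rfl⟩ := mem_vs.1 ha
      obtain ⟨q, hq, rfl⟩ := mem_vs.1 hb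
      rw [h1 p hp] at e
      rw [h1 q hq, ((((d0 E hE).2.2.2.2.1 p hp).2 i hi).2 q hq).2 sa sb e]
  · intro G hG a ha
    rcases cl G hG with hG' | ⟨E, hE, rfl⟩
    · exact ⟨0, (A_out G hG' _).2 ⟨0, by simp [r3], fun _ _ => rfl⟩, rfl⟩
    · obtain ⟨p, hp, rfl⟩ := mem_vs.1 ha
      obtain ⟨i, hi, e⟩ := ((d0 E hE).2.2.2.2.1 p hp).1
      choose! f hf using fun v (hv : v ∈ (vs E).toFinset) => mem_vs.1 hv
      have : ∀ q ∈ E, lab (f q.1) i = lab q i := fun q hq => by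
        obtain ⟨a1, a2⟩ := hf q.1 (mem_vs.2 ⟨q, hq, rfl⟩)
        exact ((((d0 E hE).2.2.2.2.1 _ a1).2 i hi).2 q hq).1 a2
      exact ⟨fun v => lab (f v) i, (A_in E hE _).2 ⟨i, hi, this⟩, (this p hp).trans e⟩
  · intro G hG w
    have h2 : ∃ x ∈ G, w ∈ G → x = w := by
      by_cases h : w ∈ G
      · exact ⟨w, h, fun _ => rfl⟩
      · obtain ⟨x, hx⟩ := card_pos.1 (show 0 < G.card by rw [h4 G hG]; omega)
        exact ⟨x, hx, fun e => absurd e h⟩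
    obtain ⟨x, hx, h2⟩ := h2
    suffices ∃ v ∈ G, v ≠ x ∧ ¬ Sp v by
      obtain ⟨v, a, b, c⟩ := this
      exact ⟨v, a, fun e => b (e.trans (h2 (e ▸ a)).symm), c⟩
    rcases cl G hG with hG' | ⟨E, hE, rfl⟩
    · obtain ⟨v, hv⟩ := card_pos.1 (show 0 < (G.erase x).card by
        rw [card_erase_of_mem hx, h4 G hG]; omega)
      refine ⟨v, mem_of_mem_erase hv, (mem_erase.1 hv).1, fun h => ?_⟩
      have := hG' v (mem_of_mem_erase hv)
      unfold Sp at h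
      omega
    · obtain ⟨v, a, b⟩ := (d0 E hE).2.2.2.1 x (List.mem_toFinset.1 hx)
      exact ⟨v, List.mem_toFinset.2 a, b⟩

def KK (O I C : List (List ℕ)) : List (List ℕ) := O ++ I.flatMap fun f => C.map fun c => c ++ f

lemma mem_KK {O I C : List (List ℕ)} {F : List ℕ} :
    F ∈ KK O I C ↔ F ∈ O ∨ ∃ f ∈ I, ∃ c ∈ C, c ++ f = F := by simp [KK]

section
variable (O I : List (List ℕ)) (hO : ∀ F ∈ O, (∀ v ∈ F, v < 4 ∨ 100 ≤ v) ∧
  ¬ ∀ v ∈ [0, 1, 2, 3], v ∈ F) (hI : ∀ f ∈ I, ∀ v ∈ f, 100 ≤ v)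
include hO hI

lemma stelK (C : List (List ℕ)) (s : List ℕ) (hs : okm s = true) :
    R (stel (KK O I C) s 99) = R (KK O I (stel C s 99)) := by
  simp only [okm, Bool.and_eq_true, List.all_eq_true, decide_eq_true_eq, Bool.or_eq_true,
    List.any_eq_true, sub_iff] at hs
  have nO : ∀ F ∈ O, ¬ ∀ v ∈ s, v ∈ F := by
    intro F hF h
    rcases hs.2 with ⟨v, hv, h4⟩ | h4
    · have := (hO F hF).1 v (h v hv)
      have := hs.1 v hv
      omega
    · exact (hO F hF).2 fun v hv => h v (h4 v hv)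
  have nI : ∀ f ∈ I, ∀ v ∈ s, v ∉ f := fun f hf v hv h => by
    have := hI f hf v h
    have := hs.1 v hv
    omega
  have iff : ∀ f ∈ I, ∀ c : List ℕ, (∀ v ∈ s, v ∈ c ++ f) ↔ ∀ v ∈ s, v ∈ c := fun f hf c =>
    forall₂_congr fun v hv => by simp [nI f hf v hv]
  have eq : ∀ f ∈ I, ∀ c : List ℕ, ∀ v ∈ s, ((c ++ f).filter (· != v) ++ [99]).toFinset =
      (c.filter (· != v) ++ [99] ++ f).toFinset := by
    intro f hf c v hv
    ext u
    have : u ∈ f → u ≠ v := fun h e => nI f hf v hv (e ▸ h)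
    simp; tauto
  rw [← real_gen, ← real_gen]
  congr 1
  ext x
  constructor
  · rintro ⟨G, hG, hx⟩
    obtain ⟨F, hF, h⟩ := (mem_stel _ _ _ _).1 hG
    rcases mem_KK.1 hF with hF | ⟨f, hf, c, hc, rfl⟩
    · rcases h with h | ⟨-, rfl⟩
      exacts [absurd h.1 (nO F hF), ⟨G, mem_KK.2 (Or.inl hF), hx⟩]
    · rw [iff f hf] at h
      rcases h with ⟨h, v, hv, rfl⟩ | ⟨h, rfl⟩
      · exact ⟨_, mem_KK.2 (Or.inr ⟨f, hf, _, (mem_stel _ _ _ _).2 ⟨c, hc, Or.inl ⟨h, v, hv, rfl⟩⟩,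
          rfl⟩), eq f hf c v hv ▸ hx⟩
      · exact ⟨_, mem_KK.2 (Or.inr ⟨f, hf, _, (mem_stel _ _ _ _).2 ⟨c, hc, Or.inr ⟨h, rfl⟩⟩,
          rfl⟩), hx⟩
  · rintro ⟨G, hG, hx⟩
    rcases mem_KK.1 hG with hG | ⟨f, hf, c', hc', rfl⟩
    · exact ⟨G, (mem_stel _ _ _ _).2 ⟨G, mem_KK.2 (Or.inl hG), Or.inr ⟨nO G hG, rfl⟩⟩, hx⟩
    · obtain ⟨c, hc, ⟨h, v, hv, rfl⟩ | ⟨h, rfl⟩⟩ := (mem_stel _ _ _ _).1 hc'
      · exact ⟨_, (mem_stel _ _ _ _).2 ⟨c ++ f, mem_KK.2 (Or.inr ⟨f, hf, c, hc, rfl⟩),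
          Or.inl ⟨(iff f hf c).2 h, v, hv, rfl⟩⟩, (eq f hf c v hv).symm ▸ hx⟩
      · exact ⟨_, (mem_stel _ _ _ _).2 ⟨c' ++ f, mem_KK.2 (Or.inr ⟨f, hf, c', hc, rfl⟩),
          Or.inr ⟨fun e => h ((iff f hf c').1 e), rfl⟩⟩, hx⟩

omit hO hI in
lemma sameK (B C : List (List ℕ)) (h : same B C = true) : R (KK O I B) = R (KK O I C) := by
  simp only [same, Bool.and_eq_true, List.all_eq_true, memL_iff] at h
  have : ∀ F, F ∈ KK O I B ↔ F ∈ KK O I C := fun F => by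
    simp only [mem_KK, show ∀ c, c ∈ B ↔ c ∈ C from fun c => ⟨h.1 c, h.2 c⟩]
  simp only [R, this]

lemma freshK (C : List (List ℕ)) (h : ∀ F ∈ C, 99 ∉ F) : ∀ F ∈ KK O I C, 99 ∉ F := by
  intro F hF h9
  rcases mem_KK.1 hF with hF | ⟨f, hf, c, hc, rfl⟩
  · have := (hO F hF).1 _ h9; omega
  · rcases List.mem_append.1 h9 with h9 | h9
    · exact h c hc h9
    · have := hI f hf _ h9; omega

lemma chainK (E : List (List ℕ)) (M : List (List ℕ × List ℕ × List (List ℕ))) :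
    ∀ K, chain E M K = true → (M.all fun m => okm m.1 && okm m.2.1) = true →
      Nonempty (R (KK O I K) ≃ₜ R (KK O I E)) := by
  induction M with
  | nil => intro K h _; rw [sameK O I K E h]; exact ⟨Homeomorph.refl _⟩
  | cons m M ih =>
    obtain ⟨s, t, N⟩ := m
    intro K h h'
    simp only [chain, Bool.and_eq_true, Bool.not_eq_true', List.isEmpty_eq_false_iff, fresh,
      List.all_eq_true, mem_false] at h
    obtain ⟨⟨⟨⟨⟨⟨⟨a1, a2⟩, a3⟩, a4⟩, a5⟩, a6⟩, a7⟩, a8⟩ := h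
    rw [List.all_cons, Bool.and_eq_true, Bool.and_eq_true] at h'
    obtain ⟨f⟩ := stel_homeo _ s 99 a1 a3 (freshK O I hO hI _ a5)
    obtain ⟨g⟩ := stel_homeo _ t 99 a2 a4 (freshK O I hO hI _ a6)
    obtain ⟨k⟩ := ih _ a8 h'.2
    rw [stelK O I hO hI _ _ h'.1.1, sameK O I _ _ a7, ← stelK O I hO hI _ _ h'.1.2] at f
    exact ⟨(f.symm.trans g).trans k⟩

end

lemma relabel (L : List (List ℕ)) (f : ℕ → ℕ) (hf : Injective f) :
    Nonempty (R (L.map (List.map f)) ≃ₜ R L) := by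
  have hs : ∀ (F : List ℕ) (x : ℕ → ℝ), ∑ v ∈ (F.map f).toFinset, x v =
      ∑ v ∈ F.toFinset, x (f v) := by
    intro F x
    rw [show (F.map f).toFinset = F.toFinset.image f from by ext; simp,
      sum_image fun _ _ _ _ h => hf h]
  have maps : ∀ x ∈ R (L.map (List.map f)), x ∘ f ∈ R L := by
    rintro x ⟨h0, G, hG, h1, h2⟩
    obtain ⟨F, hF, rfl⟩ := List.mem_map.1 hG
    exact ⟨fun v => h0 _, F, hF, fun v hv => h1 _ (by simpa [hf.eq_iff] using hv), hs F x ▸ h2⟩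
  let g : R (L.map (List.map f)) → R L := fun x => ⟨x.1 ∘ f, maps x x.2⟩
  have z : ∀ x ∈ R (L.map (List.map f)), ∀ u, (¬ ∃ v, f v = u) → x u = 0 := by
    rintro x ⟨-, G, hG, h1, -⟩ u hu
    obtain ⟨F, -, rfl⟩ := List.mem_map.1 hG
    exact h1 u fun h => by
      obtain ⟨v, -, e⟩ := List.mem_map.1 h
      exact hu ⟨v, e⟩
  have inj : Injective g := by
    intro x y h
    refine Subtype.ext (funext fun u => ?_)
    by_cases hu : ∃ v, f v = u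
    · obtain ⟨v, rfl⟩ := hu
      exact congrFun (congrArg Subtype.val h) v
    · rw [z x x.2 u hu, z y y.2 u hu]
  have surj : Surjective g := by
    rintro ⟨y, h0, F, hF, h1, h2⟩
    refine ⟨⟨extend f y 0, fun u => ?_, F.map f, List.mem_map_of_mem hF, fun u hu => ?_, ?_⟩,
      Subtype.ext (extend_comp hf y 0)⟩
    · by_cases e : ∃ v, f v = u
      · obtain ⟨v, rfl⟩ := e
        rw [hf.extend_apply]; exact h0 v
      · rw [extend_apply' _ _ _ e]; rfl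
    · by_cases e : ∃ v, f v = u
      · obtain ⟨v, rfl⟩ := e
        rw [hf.extend_apply]; exact h1 v fun h => hu (List.mem_map_of_mem h)
      · rw [extend_apply' _ _ _ e]; rfl
    · simp only [hs, hf.extend_apply, h2]
  have cont : Continuous g := by
    refine Continuous.subtype_mk (continuous_pi fun v => ?_) _
    exact (continuous_apply (f v)).comp continuous_subtype_val
  have : CompactSpace (R (L.map (List.map f))) := isCompact_iff_compactSpace.1 (R_compact _)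
  exact ⟨(Equiv.ofBijective g ⟨inj, surj⟩).toHomeomorphOfContinuousClosed cont cont.isClosedMap⟩

lemma gen_cx (L : List (List ℕ)) : IsCx (gen L) := by
  refine ⟨((List.finite_toSet L).biUnion fun F _ => F.toFinset.powerset.finite_toSet).subset ?_, ?_⟩
  · rintro s ⟨G, hG, h⟩
    exact Set.mem_biUnion hG (mem_powerset.2 h)
  · rintro s ⟨G, hG, h⟩ t ht
    exact ⟨G, hG, ht.trans h⟩

lemma not_shell (O I : List (List ℕ)) (hO : ∀ F ∈ O, ∀ v ∈ F, v < 4 ∨ 100 ≤ v)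
    (hI : ∀ f ∈ I, ∀ v ∈ f, 100 ≤ v) (r : List ℕ) (hr : r ∈ I)
    (hm : ∀ f ∈ I, (∀ v ∈ r, v ∈ f) → ∀ v ∈ f, v ∈ r) (d : ℕ) (hd : Pure d (gen (KK O I BL))) :
    ¬ Shellable (gen (KK O I BL)) := by
  classical
  rintro ⟨n, F, hinj, hF, hP⟩
  set ρ := r.toFinset with hρ
  have hb : ∀ E ∈ TL, Disjoint (vs E).toFinset ρ := fun E hE => disjoint_left.2 fun v h1 h2 => by
    have := (d0 E hE).2.1 v (List.mem_toFinset.1 h1)
    have := hI r hr v (List.mem_toFinset.1 h2)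
    omega
  have big : ∀ E ∈ TL, ∀ f ∈ I, ρ ⊆ (vs E ++ f).toFinset →
      (vs E ++ f).toFinset = (vs E).toFinset ∪ ρ := by
    intro E hE f hf h
    have h1 : ∀ v ∈ r, v ∈ f := fun v hv => by
      have h2 := List.mem_toFinset.2 hv
      rcases List.mem_append.1 (List.mem_toFinset.1 (h h2)) with h3 | h3
      exacts [absurd h2 (disjoint_left.1 (hb E hE) (List.mem_toFinset.2 h3)), h3]
    rw [List.toFinset_append, show f.toFinset = ρ from Finset.ext fun v => by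
      simp only [hρ, List.mem_toFinset]; exact ⟨hm f hf h1 v, h1 v⟩]
  have fa : ∀ E ∈ TL, Facet (gen (KK O I BL)) ((vs E).toFinset ∪ ρ) := by
    intro E hE
    refine ⟨⟨_, mem_KK.2 (Or.inr ⟨r, hr, _, List.mem_map_of_mem hE, rfl⟩), by simp [hρ]⟩, ?_⟩
    rintro s ⟨G, hG, h1⟩ h2
    refine Subset.antisymm (h1.trans ?_) h2
    have h3 := h2.trans h1
    rcases mem_KK.1 hG with hG | ⟨f, hf, c, hc, rfl⟩
    · exact absurd (fun v hv => hO G hG v (List.mem_toFinset.1 (h3 (mem_union_left _ hv))))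
        (not_out E hE)
    · obtain ⟨E', hE', rfl⟩ := List.mem_map.1 hc
      have h6 := big E' hE' f hf (subset_union_right.trans h3)
      rw [h6] at h3 ⊢
      rw [d4 E hE E' hE' fun v hv => ?_]
      have h5 := List.mem_toFinset.2 hv
      exact List.mem_toFinset.1 ((mem_union.1 (h3 (mem_union_left _ h5))).resolve_right
        (disjoint_left.1 (hb E hE) h5))
  have hd' : ∀ j, (F j).card = 4 + ρ.card := by
    intro j
    have E0 : TL.head (by simp [TL]) ∈ TL := List.head_mem _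
    rw [hd _ ((hF _).2 ⟨j, rfl⟩), ← hd _ (fa _ E0), card_union_of_disjoint (hb _ E0), (d0 _ E0).1]
  let X : Set (Finset ℕ) := (fun j => F j \ ρ) '' {j | ρ ⊆ F j}
  have i2 : ∀ i j, ρ ⊆ F i → ρ ⊆ F j → F i \ ρ = F j \ ρ → i = j := fun i j a b e =>
    hinj (by rw [← sdiff_union_of_subset a, e, sdiff_union_of_subset b])
  choose! J hJ using fun G (hG : G ∈ X) => (show ∃ m : ℕ, ∃ j : Fin n, j.val = m ∧ ρ ⊆ F j ∧
    F j \ ρ = G from let ⟨j, a, b⟩ := hG; ⟨j, j, rfl, a, b⟩)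
  refine no_order X (Set.toFinite _) J (fun G hG H hH e => ?_) ?_ (fun G hG H hH hlt => ?_) ?_
    fun E hE => ?_
  · obtain ⟨i, a1, -, rfl⟩ := hJ G hG
    obtain ⟨j, b1, -, rfl⟩ := hJ H hH
    rw [show i = j from Fin.ext (by omega)]
  · rintro _ ⟨j, hj, rfl⟩
    rw [card_sdiff_of_subset hj, hd']; omega
  · obtain ⟨j, a1, a2, a3⟩ := hJ G hG
    obtain ⟨i, b1, b2, b3⟩ := hJ H hH
    obtain ⟨s, hs, hmax⟩ := exists_max_image ((F j).powerset.filter fun s => F j ∩ F i ⊆ s ∧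
      ∃ j', j' < j ∧ s ⊆ F j') card ⟨F j ∩ F i, by
        simpa using ⟨i, by show i.val < j.val; omega, inter_subset_right⟩⟩
    simp only [mem_filter, mem_powerset] at hs hmax
    obtain ⟨r1, r2, k, r3, r4⟩ := hs
    have h3 := hP j (by omega) s ⟨⟨r1, k, r3, r4⟩,
      fun u hu h => (eq_of_subset_of_card_le h (hmax u ⟨hu.1, r2.trans h, hu.2⟩)).symm⟩
    have h5 := hd' j
    obtain ⟨w, hw, hw'⟩ := exists_mem_notMem_of_card_lt_card (s := s) (t := F j) (by omega)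
    have es : s = (F j).erase w := eq_of_subset_of_card_le (subset_erase.2 ⟨r1, hw'⟩)
      (by rw [card_erase_of_mem hw]; omega)
    have ρs : ρ ⊆ s := (subset_inter a2 b2).trans r2
    have hk : F k \ ρ ∈ X := ⟨k, ρs.trans r4, rfl⟩
    obtain ⟨k', c1, c2, c3⟩ := hJ _ hk
    obtain rfl := i2 k' k c2 (ρs.trans r4) c3
    refine ⟨w, a3 ▸ mem_sdiff.2 ⟨hw, fun h => hw' (ρs h)⟩, fun h => hw' (r2 (mem_inter.2
      ⟨hw, (mem_sdiff.1 (b3 ▸ h)).1⟩)), _, hk, by have : k'.val < j.val := r3; omega,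
      fun v hv => ?_⟩
    rw [← a3, mem_erase, mem_sdiff] at hv
    exact mem_sdiff.2 ⟨r4 (es ▸ mem_erase.2 ⟨hv.1, hv.2.1⟩), hv.2.2⟩
  · rintro _ ⟨j, hj, rfl⟩
    obtain ⟨⟨G, hG, h1⟩, h2⟩ := (hF _).2 ⟨j, rfl⟩
    have e := h2 _ ⟨G, hG, subset_rfl⟩ h1
    rcases mem_KK.1 hG with hG | ⟨f, hf, c, hc, rfl⟩
    · exact Or.inl fun v hv => hO G hG v (List.mem_toFinset.1 (h1 (mem_sdiff.1 hv).1))
    · obtain ⟨E, hE, rfl⟩ := List.mem_map.1 hc
      refine Or.inr ⟨E, hE, ?_⟩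
      show F j \ ρ = _
      rw [← e, big E hE f hf (Subset.trans hj h1), union_sdiff_cancel_right (hb E hE)]
  · obtain ⟨j, e⟩ := (hF _).1 (fa E hE)
    exact ⟨j, (show ρ ⊆ F j from e ▸ subset_union_right), by
      show F j \ ρ = _
      rw [e, union_sdiff_cancel_right (hb E hE)]⟩

theorem main (Δ : Cx) (h : IsCx Δ) (h3 : ∃ s ∈ Δ, 4 ≤ s.card) : ∃ Γ : Cx, IsCx Γ ∧
    Nonempty (real Γ ≃ₜ real Δ) ∧ ¬ ((∃ d, Pure d Γ) ∧ Shellable Γ) := by
  classical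
  obtain ⟨s0, hs0, h4⟩ := h3
  obtain ⟨σ, hσ, hmax⟩ := Set.exists_max_image Δ card h.1 ⟨s0, hs0⟩
  let e := σ.orderEmbOfCardLe (h4.trans (hmax s0 hs0))
  have em : ∀ i, e i ∈ σ := σ.orderEmbOfCardLe_mem _
  let f : ℕ → ℕ := fun v => if h : ∃ i, e i = v then h.choose.val else v + 100
  have f1 : ∀ i, f (e i) = i := fun i => by
    have : ∃ j, e j = e i := ⟨i, rfl⟩
    simp only [f, dif_pos this, e.injective this.choose_spec]
  have f2 : ∀ v, (∃ i, e i = v) ∨ f v = v + 100 := fun v => or_iff_not_imp_left.2 fun h => dif_neg h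
  have hf : Injective f := by
    intro u v huv
    rcases f2 u with ⟨i, rfl⟩ | hu <;> rcases f2 v with ⟨j, rfl⟩ | hv
    · rw [f1, f1] at huv; rw [Fin.ext huv]
    · rw [f1] at huv; omega
    · rw [f1] at huv; omega
    · omega
  have f3 : ∀ v, f v < 4 ∨ 100 ≤ f v := fun v => by
    rcases f2 v with ⟨i, rfl⟩ | hv
    · rw [f1]; omega
    · omega
  let L : List (List ℕ) := h.1.toFinset.toList.map toList
  have mL : ∀ F, F ∈ L ↔ ∃ s ∈ Δ, s.toList = F := fun F => by simp [L]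
  have hL : gen L = Δ := by
    ext s
    constructor
    · rintro ⟨F, hF, hs⟩
      obtain ⟨t, ht, rfl⟩ := (mL F).1 hF
      exact h.2 t ht s (by simpa using hs)
    · exact fun hs => ⟨_, (mL _).2 ⟨s, hs, rfl⟩, by simp⟩
  let L' := L.map (List.map f)
  let O := L'.filter fun F => !sub [0, 1, 2, 3] F
  let I := (L'.filter fun F => sub [0, 1, 2, 3] F).map fun F => F.filter fun v => 100 ≤ v
  have hL' : ∀ F ∈ L', ∀ v ∈ F, v < 4 ∨ 100 ≤ v := by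
    intro F hF v hv
    obtain ⟨G, -, rfl⟩ := List.mem_map.1 hF
    obtain ⟨u, -, rfl⟩ := List.mem_map.1 hv
    exact f3 u
  have mO : ∀ F, F ∈ O ↔ F ∈ L' ∧ ¬ ∀ v ∈ [0, 1, 2, 3], v ∈ F := fun F => by
    simp only [O, List.mem_filter, Bool.not_eq_true', ← Bool.not_eq_true, sub_iff]
  have mI : ∀ g, g ∈ I ↔ ∃ F, (F ∈ L' ∧ ∀ v ∈ [0, 1, 2, 3], v ∈ F) ∧
      (F.filter fun v => 100 ≤ v) = g := fun g => by
    simp only [I, List.mem_map, List.mem_filter, sub_iff]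
  have hO : ∀ F ∈ O, (∀ v ∈ F, v < 4 ∨ 100 ≤ v) ∧ ¬ ∀ v ∈ [0, 1, 2, 3], v ∈ F := fun F hF =>
    ⟨hL' F ((mO F).1 hF).1, ((mO F).1 hF).2⟩
  have hI : ∀ g ∈ I, ∀ v ∈ g, 100 ≤ v := by
    intro g hg v hv
    obtain ⟨F, -, rfl⟩ := (mI g).1 hg
    simpa using (List.mem_filter.1 hv).2
  have key : ∀ F ∈ L', (∀ v ∈ [0, 1, 2, 3], v ∈ F) →
      ([0, 1, 2, 3] ++ F.filter fun v => 100 ≤ v).toFinset = F.toFinset := by
    intro F hF h1
    ext v
    simp only [List.mem_toFinset, List.mem_append, List.mem_filter, decide_eq_true_eq]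
    refine ⟨fun h => h.elim (h1 v) And.left, fun h => (hL' F hF v h).imp (fun h => ?_)
      fun a => ⟨h, a⟩⟩
    simp; omega
  have e1 : R (KK O I [[0, 1, 2, 3]]) = R L' := by
    rw [← real_gen, ← real_gen]
    congr 1
    ext s
    constructor
    · rintro ⟨G, hG, hs⟩
      rcases mem_KK.1 hG with hG | ⟨g, hg, c, hc, rfl⟩
      · exact ⟨G, ((mO G).1 hG).1, hs⟩
      · obtain ⟨F, ⟨a, b⟩, rfl⟩ := (mI g).1 hg
        rw [List.mem_singleton.1 hc, key F a b] at hs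
        exact ⟨F, a, hs⟩
    · rintro ⟨F, hF, hs⟩
      by_cases b : ∀ v ∈ [0, 1, 2, 3], v ∈ F
      · exact ⟨_, mem_KK.2 (Or.inr ⟨_, (mI _).2 ⟨F, ⟨hF, b⟩, rfl⟩, _, List.mem_singleton_self _,
          rfl⟩), (key F hF b).symm ▸ hs⟩
      · exact ⟨F, mem_KK.2 (Or.inl ((mO F).2 ⟨hF, b⟩)), hs⟩
  have d3 := D3
  rw [Bool.and_eq_true] at d3
  obtain ⟨k1⟩ := chainK O I hO hI _ _ _ d3.1 d3.2
  obtain ⟨k2⟩ := relabel L f hf
  rw [e1] at k1
  refine ⟨gen (KK O I BL), gen_cx _, ?_, ?_⟩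
  · rw [← hL, real_gen, real_gen]
    exact ⟨k1.trans k2⟩
  rintro ⟨⟨d, hd⟩, hsh⟩
  have t4 : ∀ v ∈ [0, 1, 2, 3], v ∈ σ.toList.map f := fun v hv =>
    List.mem_map.2 ⟨e ⟨v, by simp at hv; omega⟩, mem_toList.2 (em _), f1 _⟩
  refine not_shell O I (fun F hF => (hO F hF).1) hI ((σ.toList.map f).filter fun v => 100 ≤ v)
    ((mI _).2 ⟨_, ⟨List.mem_map_of_mem ((mL _).2 ⟨σ, hσ, rfl⟩), t4⟩, rfl⟩) ?_ d hd hsh
  intro g hg h1 v hv
  obtain ⟨F, ⟨a, b⟩, rfl⟩ := (mI g).1 hg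
  obtain ⟨G, hG, rfl⟩ := List.mem_map.1 a
  obtain ⟨t, ht, rfl⟩ := (mL G).1 hG
  have : σ ⊆ t := by
    intro u hu
    have : f u ∈ t.toList.map f := by
      rcases f3 u with h5 | h5
      · exact b _ (by simp; omega)
      · exact (List.mem_filter.1 (h1 _ (List.mem_filter.2
          ⟨List.mem_map_of_mem (mem_toList.2 hu), by simpa using h5⟩))).1
    obtain ⟨u', h6, h7⟩ := List.mem_map.1 this
    exact hf h7 ▸ mem_toList.1 h6
  rwa [eq_of_subset_of_card_le this (hmax t ht)]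

end Pool.Agent.H10.Knot
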