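import Mathlib
import Pool.Agent.H10.EvasDefs
import Pool.Agent.H10.KnotMain

set_option autoImplicit false

namespace Pool.Agent.H10.Evas
open Finset Pool.Agent.H10.Ced Pool.Agent.H10.Knot

def BM : List ℕ :=
  [2055, 3075, 2309, 2086, 1155, 3329, 3090, 277, 2436, 102, 6178, 2212, 139, 1185, 1170, 1313,
    3392, 6162, 3152, 29, 305, 404, 2496, 78, 4194, 4196, 6688, 1188, 2720, 169, 202, 4242, 1172,
    1320, 1352, 6672, 1616, 2640, 57, 4124, 312, 4496, 4544, 2752, 4172, 4290, 5156, 5664, 680,
    712, 5140, 1576, 4424, 1608, 5648, 4376]

def FM : List (ℕ × Bool) :=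
  [(0, true), (1, false), (2, false), (3, true), (4, false), (5, true), (6, true), (7, false), (8,
    false), (9, true), (10, true), (11, false), (12, true), (13, false), (14, false), (16, false),
    (17, true), (18, true), (20, true), (21, false), (24, true), (25, false), (28, false), (29,
    true), (32, false), (33, true), (34, true), (36, true), (38, false), (40, true), (41, false),
    (48, true), (49, false), (56, false), (57, true), (64, false), (66, true), (68, true), (70,
    false), (72, true), (74, false), (76, false), (78, true), (80, true), (96, true), (98, false),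
    (100, false), (102, true), (128, false), (129, true), (130, true), (131, false), (132, true),
    (136, true), (137, false), (138, false), (139, true), (144, true), (146, false), (148, false),
    (160, true), (161, false), (164, false), (168, false), (169, true), (192, true), (194, false),
    (200, false), (202, true), (256, false), (257, true), (260, true), (261, false), (264, true),
    (272, true), (273, false), (276, false), (277, true), (280, false), (288, true), (289, false),
    (296, false), (304, false), (305, true), (312, true), (320, true), (328, false), (384, true),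
    (388, false), (400, false), (404, true), (448, false), (512, false), (520, true), (528, true),
    (544, true), (552, false), (576, true), (584, false), (592, false), (640, true), (648, false),
    (672, false), (680, true), (704, false), (712, true), (1024, false), (1025, true), (1026,
    true), (1027, false), (1028, true), (1032, true), (1040, true), (1042, false), (1044, false),
    (1056, true), (1057, false), (1060, false), (1064, false), (1088, true), (1096, false), (1104,
    false), (1152, true), (1153, false), (1154, false), (1155, true), (1156, false), (1168,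
    false), (1170, true), (1172, true), (1184, false), (1185, true), (1188, true), (1280, true),
    (1281, false), (1288, false), (1312, false), (1313, true), (1320, true), (1344, false), (1352,
    true), (1536, true), (1544, false), (1552, false), (1568, false), (1576, true), (1600, false),
    (1608, true), (1616, true), (2048, false), (2049, true), (2050, true), (2051, false), (2052,
    true), (2053, false), (2054, false), (2055, true), (2064, true), (2066, false), (2080, true),
    (2082, false), (2084, false), (2086, true), (2112, true), (2128, false), (2176, true), (2180,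
    false), (2208, false), (2212, true), (2240, false), (2304, true), (2305, false), (2308,
    false), (2309, true), (2368, false), (2432, false), (2436, true), (2496, true), (2560, true),
    (2576, false), (2592, false), (2624, false), (2640, true), (2688, false), (2720, true), (2752,
    true), (3072, true), (3073, false), (3074, false), (3075, true), (3088, false), (3090, true),
    (3136, false), (3152, true), (3328, false), (3329, true), (3392, true), (4096, false), (4098,
    true), (4100, true), (4104, true), (4108, false), (4112, true), (4114, false), (4116, false),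
    (4120, false), (4124, true), (4128, true), (4130, false), (4132, false), (4160, true), (4162,
    false), (4164, false), (4168, false), (4172, true), (4192, false), (4194, true), (4196, true),
    (4224, true), (4226, false), (4240, false), (4242, true), (4288, false), (4290, true), (4352,
    true), (4360, false), (4368, false), (4376, true), (4416, false), (4424, true), (4480, false),
    (4496, true), (4544, true), (4608, true), (4624, false), (4640, false), (5120, true), (5124,
    false), (5136, false), (5140, true), (5152, false), (5156, true), (5632, false), (5648, true),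
    (5664, true), (6144, true), (6146, false), (6160, false), (6162, true), (6176, false), (6178,
    true), (6656, false), (6672, true), (6688, true)]

def WL : List ℕ :=
  [493, 1005, 1497, 1499, 1501, 1517, 1532, 1533, 1534, 2009, 2011, 2013, 2023, 2029, 2039, 2044,
    2045, 2046, 2523, 2526, 2539, 2541, 2555, 2558, 2923, 2925, 3035, 3038, 3051, 3053, 3067,
    3070, 3306, 3307, 3309, 3310, 3325, 3326, 3545, 3547, 3549, 3550, 3562, 3563, 3565, 3566,
    3578, 3579, 3580, 3581, 3637, 3639, 3645, 3691, 3693, 3709, 3765, 3767, 3773, 3774, 3810,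
    3811, 3814, 3815, 3818, 3819, 3821, 3822, 3831, 3837, 3838, 3892, 3893, 3894, 3895, 3900,
    3901, 3902, 3947, 3949, 3964, 3965, 3966, 3993, 3995, 3997, 3998, 4016, 4017, 4018, 4019,
    4020, 4021, 4022, 4023, 4024, 4025, 4026, 4027, 4028, 4029, 4057, 4059, 4061, 4062, 4066,
    4067, 4070, 4071, 4074, 4075, 4077, 4078, 4082, 4083, 4086, 4087, 4090, 4091, 4092, 4093,
    4279, 4286, 4535, 4542, 4589, 4791, 4798, 4855, 4860, 4861, 4862, 5047, 5054, 5101, 5111,
    5116, 5117, 5118, 5175, 5243, 5303, 5310, 5368, 5369, 5370, 5371, 5372, 5373, 5374, 5431,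
    5463, 5467, 5495, 5499, 5559, 5566, 5591, 5593, 5595, 5597, 5613, 5623, 5624, 5625, 5626,
    5627, 5628, 5629, 5630, 5687, 5755, 5815, 5822, 5879, 5880, 5881, 5882, 5883, 5884, 5885,
    5886, 5943, 5975, 5979, 6007, 6011, 6071, 6078, 6103, 6105, 6107, 6109, 6119, 6125, 6128,
    6129, 6130, 6131, 6132, 6133, 6134, 6136, 6137, 6138, 6139, 6140, 6141, 6142, 6327, 6334,
    6358, 6359, 6366, 6391, 6396, 6397, 6398, 6486, 6487, 6491, 6494, 6583, 6590, 6614, 6615,
    6619, 6622, 6635, 6637, 6647, 6651, 6652, 6653, 6654, 6839, 6846, 6870, 6871, 6878, 6903,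
    6908, 6909, 6910, 6998, 6999, 7003, 7006, 7019, 7021, 7035, 7036, 7037, 7038, 7095, 7102,
    7126, 7127, 7131, 7134, 7147, 7149, 7159, 7163, 7164, 7165, 7166, 7221, 7223, 7229, 7291,
    7293, 7349, 7351, 7357, 7358, 7382, 7383, 7389, 7390, 7402, 7403, 7405, 7406, 7413, 7415,
    7476, 7477, 7478, 7479, 7484, 7485, 7486, 7510, 7511, 7515, 7518, 7540, 7541, 7542, 7543,
    7547, 7548, 7549, 7550, 7598, 7600, 7601, 7602, 7603, 7604, 7605, 7606, 7607, 7608, 7609,
    7610, 7611, 7612, 7613, 7638, 7639, 7641, 7643, 7645, 7646, 7658, 7659, 7661, 7662, 7664,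
    7665, 7666, 7667, 7668, 7669, 7670, 7671, 7733, 7735, 7741, 7787, 7789, 7803, 7805, 7861,
    7863, 7869, 7870, 7878, 7879, 7886, 7894, 7895, 7901, 7902, 7906, 7907, 7910, 7911, 7914,
    7915, 7917, 7918, 7925, 7927, 7928, 7929, 7930, 7931, 7932, 7934, 7988, 7989, 7990, 7991,
    7996, 7997, 7998, 8022, 8023, 8027, 8030, 8043, 8045, 8052, 8053, 8054, 8055, 8059, 8060,
    8061, 8062, 8089, 8091, 8093, 8094, 8110, 8112, 8113, 8114, 8115, 8116, 8117, 8118, 8119,
    8120, 8121, 8122, 8123, 8124, 8125, 8134, 8135, 8142, 8150, 8151, 8153, 8155, 8157, 8158,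
    8162, 8163, 8166, 8167, 8170, 8171, 8173, 8174, 8176, 8177, 8178, 8179, 8180, 8181, 8182,
    8183, 8184, 8185, 8186, 8187, 8188, 8189, 8190, 8191]

def SL : List (ℕ × ℕ × ℕ) :=
  [(2055, 2086, 0), (2086, 2212, 0), (2212, 2436, 0), (2212, 2720, 0), (2720, 6688, 0), (2436,
    2496, 0), (2496, 4544, 0), (4544, 4290, 0), (2496, 2752, 0), (2752, 2640, 0), (2640, 1616, 0),
    (2752, 712, 0), (712, 202, 0), (202, 139, 0), (2640, 6672, 0), (1616, 5648, 0), (5648, 5664,
    0), (2055, 3075, 0), (3075, 3090, 0), (3090, 1170, 0), (1170, 1172, 0), (1172, 1188, 0),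
    (1172, 404, 0), (1188, 5156, 0), (1172, 5140, 0), (1188, 1185, 0), (1185, 169, 0), (4544,
    4496, 0), (1616, 1608, 0), (1608, 1352, 0), (1352, 4424, 0), (4424, 4172, 0), (4172, 4196, 0),
    (4196, 4194, 0), (4194, 6178, 0), (4194, 102, 0), (4172, 4124, 0), (4124, 29, 0), (4124, 4376,
    0), (4376, 312, 0), (29, 57, 0), (6178, 6162, 0), (3090, 3152, 0), (3152, 3392, 0), (169, 680,
    0), (102, 78, 0), (3075, 1155, 0), (2436, 2309, 0), (2309, 277, 0), (2309, 3329, 0), (277,
    305, 0), (3329, 1313, 0), (1313, 1320, 0), (1170, 4242, 0), (1608, 1576, 0), (5156, 5140,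
    1028), (5664, 1576, 1536), (1155, 1170, 1026), (6672, 5648, 528), (2720, 2752, 2176), (102,
    4196, 96), (712, 1608, 576), (4424, 4376, 4104), (1313, 305, 257), (6688, 6672, 2560), (202,
    4290, 192), (57, 312, 24), (2055, 2309, 2052), (1155, 1185, 1152), (3075, 3329, 2049), (78,
    4172, 68), (6688, 5664, 4608), (3329, 3392, 3072), (3392, 2496, 2304), (3152, 2640, 2112),
    (1185, 1313, 1025), (78, 202, 72), (3152, 1616, 80), (5140, 5648, 1040), (3392, 1352, 1088),
    (4194, 4290, 66), (5156, 5664, 5120), (1320, 1352, 1280), (1320, 312, 264), (4544, 4424, 320),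
    (305, 312, 288), (4496, 4376, 4352), (1320, 1576, 1032), (305, 57, 48), (277, 29, 17), (169,
    57, 33), (680, 1576, 40), (680, 712, 520), (2720, 680, 544), (139, 169, 136), (1155, 139,
    129), (2212, 1188, 160), (4242, 4290, 130), (2436, 404, 132), (6162, 4242, 4098), (3090, 6162,
    18), (4242, 4496, 4224), (6162, 6672, 2064), (277, 404, 260), (6178, 6688, 6144), (4196, 5156,
    4128), (404, 4496, 144), (2086, 6178, 2050), (4124, 5140, 20), (2086, 102, 34)]

def fs (m : ℕ) : Finset ℕ := (range 13).filter fun v => m.testBit v

def sm (a b : ℕ) : Bool := Nat.beq (a &&& b) a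

def cn (b : Bool) (W : ℕ) : ℕ := (FM.filter fun x => x.2 == b && sm x.1 W).length

lemma E0 : BL.map List.toFinset = BM.map fs ∧ (∀ m ∈ BM, m < 8192 ∧ (fs m).card = 4) ∧
    (FM.map Prod.fst).Nodup ∧ 8191 ∈ WL := by decide +kernel

lemma E1 : (FM.all fun x => x.1 < 8192 && (BM.any fun b => sm x.1 b) &&
    x.2 == decide (Even (fs x.1).card)) = true := by decide +kernel

lemma E2 : (BM.all fun b => mem b (FM.map Prod.fst)) = true ∧
    (FM.all fun x => (List.range 13).all fun v => !x.1.testBit v ||
      mem (x.1 ^^^ 2 ^ v) (FM.map Prod.fst)) = true ∧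
    ((List.range 13).all fun v => BM.any fun b => b.testBit v) = true := by decide +kernel

def c2 (W : ℕ) (L : List (ℕ × Bool)) : ℕ :=
  List.rec 0 (fun x _ r => bif Nat.beq (Nat.land x.1 W) x.1 then
    Nat.add r (bif x.2 then 1000 else 1) else r) L

def e3 (W : ℕ) : Bool := decide (2 ≤ (fs W).card) && (List.range 13).all fun v =>
  !W.testBit v || mem (W ^^^ 2 ^ v) WL || !Nat.beq (c2 (W ^^^ 2 ^ v) FM % 1001) 0

lemma E31 : (WL.take 90).all e3 = true := by decide +kernel
lemma E32 : ((WL.drop 90).take 90).all e3 = true := by decide +kernel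
lemma E33 : ((WL.drop 180).take 90).all e3 = true := by decide +kernel
lemma E34 : ((WL.drop 270).take 90).all e3 = true := by decide +kernel
lemma E35 : (WL.drop 360).all e3 = true := by decide +kernel

lemma c2_eq (W : ℕ) (L : List (ℕ × Bool)) : c2 W L =
    1000 * (L.filter fun x => x.2 == true && sm x.1 W).length +
      (L.filter fun x => x.2 == false && sm x.1 W).length := by
  induction L with
  | nil => rfl
  | cons x L ih =>
    have : c2 W (x :: L) = bif sm x.1 W then c2 W L + (bif x.2 then 1000 else 1) else c2 W L := rfl
    rw [this, ih, List.filter_cons, List.filter_cons]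
    cases sm x.1 W <;> cases x.2 <;> simp <;> omega

lemma E3 (W : ℕ) (hW : W ∈ WL) : 2 ≤ (fs W).card ∧ ∀ v < 13, W.testBit v = true →
    W ^^^ 2 ^ v ∈ WL ∨ cn true (W ^^^ 2 ^ v) ≠ cn false (W ^^^ 2 ^ v) := by
  have h : e3 W = true := by
    rw [← List.take_append_drop 90 WL, ← List.take_append_drop 90 (WL.drop 90), List.drop_drop,
      ← List.take_append_drop 90 (WL.drop (90 + 90)), List.drop_drop,
      ← List.take_append_drop 90 (WL.drop (90 + 90 + 90)), List.drop_drop] at hW
    simp only [List.mem_append] at hW
    rcases hW with h | h | h | h | h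
    exacts [List.all_eq_true.1 E31 W h, List.all_eq_true.1 E32 W h, List.all_eq_true.1 E33 W h,
      List.all_eq_true.1 E34 W h, List.all_eq_true.1 E35 W h]
  simp only [e3, Bool.and_eq_true, decide_eq_true_eq, List.all_eq_true, List.mem_range,
    Bool.or_eq_true, Bool.not_eq_true', mem_iff, ← Bool.not_eq_true, Nat.beq_eq] at h
  refine ⟨h.1, fun v hv hb => ?_⟩
  rcases h.2 v hv with (h | h) | h
  · exact absurd hb h
  · exact Or.inl h
  · refine Or.inr fun e => h ?_
    rw [c2_eq]
    change (1000 * cn true _ + cn false _) % 1001 = 0
    omega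

/-- grow the set of facets reached through glued ridges containing `e` -/
def grow (G : List ℕ) (e : ℕ) (T : List ℕ) : ℕ → List ℕ → List ℕ
  | 0, c => c
  | n + 1, c => grow G e T n
      (c ++ T.filter fun b => !mem b c && c.any fun a => sm e (a &&& b) && mem (a &&& b) G)

def run (Q : List ℕ → List ℕ → Bool) : List (ℕ × ℕ × ℕ) → List ℕ → List ℕ → Bool
  | [], S, G => Q S G
  | (a, b, e) :: L, S, G => mem a S && mem b BM && decide ((fs (a &&& b)).card = 3) &&
      !mem (a &&& b) G && if mem b S then !Nat.beq a b && sm e (a &&& b) &&
        decide ((fs e).card = 2) && mem b (grow G e (BM.filter fun c => sm e c) 8 [a]) &&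
        run Q L S ((a &&& b) :: G) else run Q L (b :: S) ((a &&& b) :: G)

def fin (S G : List ℕ) : Bool := (BM.all fun b => mem b S) && FM.all fun x =>
  (BM.filter fun c => sm x.1 c).all fun b => mem b (grow G x.1 (BM.filter fun c => sm x.1 c) 12
    ((BM.filter fun c => sm x.1 c).take 1))

lemma E4 : run fin SL [2055] [] = true := by decide +kernel

end Pool.Agent.H10.Evas
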