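import Mathlib
import Pool.Agent.H10.EvasData

set_option autoImplicit false

namespace Pool.Agent.H10.Evas
open Finset Pool.Agent.H10.Ced Pool.Agent.H10.Knot

lemma mem_fs {m v : ℕ} : v ∈ fs m ↔ v < 13 ∧ m.testBit v = true := by simp [fs]

lemma fs_and (a b : ℕ) : fs (a &&& b) = fs a ∩ fs b := by
  ext v; simp only [mem_fs, mem_inter, Nat.testBit_and, Bool.and_eq_true]; tauto

lemma bit_lt {m v : ℕ} (hm : m < 8192) (h : m.testBit v = true) : v < 13 := by
  by_contra hv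
  have := Nat.testBit_lt_two_pow (x := m) (i := v)
    (hm.trans_le (Nat.pow_le_pow_right (n := 2) (by norm_num) (not_lt.1 hv)))
  simp [this] at h

lemma sm_iff {a b : ℕ} (ha : a < 8192) : sm a b = true ↔ fs a ⊆ fs b := by
  rw [sm, Nat.beq_eq]
  constructor
  · intro h; rw [← h, fs_and]; exact inter_subset_right
  · intro h
    refine Nat.eq_of_testBit_eq fun i => ?_
    rw [Nat.testBit_and]
    cases e : a.testBit i
    · rfl
    · exact (mem_fs.1 (h (mem_fs.2 ⟨bit_lt ha e, e⟩))).2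

lemma sm_sub {a b : ℕ} (h : sm a b = true) : fs a ⊆ fs b := by
  rw [sm, Nat.beq_eq] at h
  rw [← h, fs_and]; exact inter_subset_right

lemma fs_inj {a b : ℕ} (ha : a < 8192) (hb : b < 8192) (h : fs a = fs b) : a = b := by
  have h1 := (sm_iff ha).2 h.subset
  have h2 := (sm_iff hb).2 h.superset
  rw [sm, Nat.beq_eq] at h1 h2
  rw [← h1, Nat.and_comm, h2]

lemma fs_xor {m v : ℕ} (h : m.testBit v = true) : fs (m ^^^ 2 ^ v) = (fs m).erase v := by
  ext u
  simp only [mem_fs, mem_erase, Nat.testBit_xor, Nat.testBit_two_pow]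
  by_cases e : v = u
  · subst e; simp [h]
  · simp [e, Ne.symm e]

abbrev B : Cx := gen BL

lemma mem_B {s : Finset ℕ} : s ∈ B ↔ ∃ b ∈ BM, s ⊆ fs b := by
  have : ∀ t, t ∈ BL.map List.toFinset ↔ t ∈ BM.map fs := fun t => by rw [E0.1]
  simp only [List.mem_map] at this
  constructor
  · rintro ⟨F, hF, h⟩
    obtain ⟨b, hb, e⟩ := (this _).1 ⟨F, hF, rfl⟩
    exact ⟨b, hb, e ▸ h⟩
  · rintro ⟨b, hb, h⟩
    obtain ⟨F, hF, e⟩ := (this _).2 ⟨b, hb, rfl⟩
    exact ⟨F, hF, e ▸ h⟩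

lemma facet_B {F : Finset ℕ} : Facet B F ↔ ∃ b ∈ BM, fs b = F := by
  constructor
  · rintro ⟨h1, h2⟩
    obtain ⟨b, hb, h⟩ := mem_B.1 h1
    exact ⟨b, hb, h2 _ (mem_B.2 ⟨b, hb, subset_rfl⟩) h⟩
  · rintro ⟨b, hb, rfl⟩
    refine ⟨mem_B.2 ⟨b, hb, subset_rfl⟩, fun G hG h => ?_⟩
    obtain ⟨c, hc, h2⟩ := mem_B.1 hG
    exact (eq_of_subset_of_card_le h (by
      rw [(E0.2.1 b hb).2, ← (E0.2.1 c hc).2]; exact card_le_card h2)).symm

lemma e1 (x : ℕ × Bool) (hx : x ∈ FM) : x.1 < 8192 ∧ fs x.1 ∈ B ∧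
    (x.2 = true ↔ Even (fs x.1).card) := by
  have h := List.all_eq_true.1 E1 x hx
  simp only [Bool.and_eq_true, decide_eq_true_eq, List.any_eq_true, beq_iff_eq] at h
  obtain ⟨⟨h1, b, hb, h2⟩, h3⟩ := h
  exact ⟨h1, mem_B.2 ⟨b, hb, sm_sub h2⟩, by rw [h3, decide_eq_true_eq]⟩

lemma face_FM (s : Finset ℕ) (hs : s ∈ B) : ∃ x ∈ FM, fs x.1 = s := by
  obtain ⟨b, hb, h⟩ := mem_B.1 hs
  have key : ∀ t : Finset ℕ, ∃ x ∈ FM, fs x.1 = fs b \ t := by
    intro t
    induction t using Finset.induction_on with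
    | empty =>
      obtain ⟨x, hx, e⟩ := List.mem_map.1 ((mem_iff _ _).1 (List.all_eq_true.1 E2.1 b hb))
      exact ⟨x, hx, by rw [e, sdiff_empty]⟩
    | insert v t _ ih =>
      obtain ⟨x, hx, e⟩ := ih
      rw [sdiff_insert, ← e]
      by_cases hv : v ∈ fs x.1
      · obtain ⟨h1, h2⟩ := mem_fs.1 hv
        have := List.all_eq_true.1 (List.all_eq_true.1 E2.2.1 x hx) v (List.mem_range.2 h1)
        simp only [h2, Bool.not_true, Bool.false_or, mem_iff] at this
        obtain ⟨y, hy, e'⟩ := List.mem_map.1 this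
        exact ⟨y, hy, by rw [e', fs_xor h2]⟩
      · exact ⟨x, hx, (erase_eq_of_notMem hv).symm⟩
  obtain ⟨x, hx, e⟩ := key (fs b \ s)
  exact ⟨x, hx, by rw [e, Finset.sdiff_sdiff_eq_self h]⟩

/-- number of faces with an even (`true`) or odd (`false`) number of vertices -/
noncomputable def num (b : Bool) (K : Cx) : ℕ := {t ∈ K | b = true ↔ Even t.card}.ncard

lemma ne_num (K : Cx) (h : NonEv K) : K.Finite ∧ num true K = num false K := by
  induction h with
  | pt v =>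
    refine ⟨Set.toFinite _, ?_⟩
    have h1 : {t ∈ ({∅, {v}} : Cx) | true = true ↔ Even t.card} = {∅} := by
      ext t; simp only [Set.mem_ofPred_eq, Set.mem_insert_iff, Set.mem_singleton_iff]
      constructor
      · rintro ⟨rfl | rfl, h⟩ <;> simp_all
      · rintro rfl; simp
    have h2 : {t ∈ ({∅, {v}} : Cx) | false = true ↔ Even t.card} = {{v}} := by
      ext t; simp only [Set.mem_ofPred_eq, Set.mem_insert_iff, Set.mem_singleton_iff]
      constructor
      · rintro ⟨rfl | rfl, h⟩ <;> simp_all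
      · rintro rfl; simp
    rw [num, num, h1, h2]; simp
  | step K v _ _ _ _ i1 i2 =>
    have key : ∀ p : Finset ℕ → Prop, {t ∈ K | p t} = {t ∈ del K v | p t} ∪
        insert v '' {t ∈ lk K v | p (insert v t)} := by
      intro p
      ext t
      simp only [Set.mem_ofPred_eq, Set.mem_union, del, lk, Set.mem_image]
      constructor
      · rintro ⟨h1, h2⟩
        by_cases h : v ∈ t
        · exact Or.inr ⟨t.erase v, by simpa [insert_erase h] using ⟨h1, h2⟩, insert_erase h⟩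
        · exact Or.inl ⟨⟨h1, h⟩, h2⟩
      · rintro (⟨⟨h1, -⟩, h2⟩ | ⟨u, ⟨⟨-, h1⟩, h2⟩, rfl⟩)
        exacts [⟨h1, h2⟩, ⟨h1, h2⟩]
    have cnt : ∀ b, num b K = num b (del K v) + num (!b) (lk K v) := by
      intro b
      rw [num, key, Set.ncard_union_eq ?_ (i2.1.subset fun _ h => h.1)
        ((i1.1.subset fun _ h => h.1).image _), Set.InjOn.ncard_image, num, num]
      · congr 2
        ext t
        simp only [Set.mem_ofPred_eq, and_congr_right_iff]
        intro ht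
        rw [card_insert_of_notMem ht.1, Nat.even_add_one]
        cases b <;> simp
      · intro s hs t ht e
        rw [← erase_insert hs.1.1, e, erase_insert ht.1.1]
      · rw [Set.disjoint_left]
        rintro t ⟨h, -⟩ ⟨u, -, rfl⟩
        exact h.2 (mem_insert_self _ _)
    refine ⟨?_, by rw [cnt, cnt, i2.2, Bool.not_true, Bool.not_false, i1.2]⟩
    have := key fun _ => True
    simp only [and_true, Set.ofPred_mem_eq] at this
    rw [this]
    exact i2.1.union (i1.1.image _)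

def ind (W : ℕ) : Cx := {t | t ∈ B ∧ t ⊆ fs W}

lemma num_ind (b : Bool) (W : ℕ) : num b (ind W) = cn b W := by
  have nd : (FM.filter fun x => x.2 == b && sm x.1 W).Nodup := (E0.2.2.1.of_map _).filter _
  rw [cn, ← List.toFinset_card_of_nodup nd, ← Set.ncard_coe_finset,
    ← Set.InjOn.ncard_image (f := fun x : ℕ × Bool => fs x.1), num]
  · congr 1
    ext t
    simp only [Set.mem_ofPred_eq, ind, Set.mem_image, List.coe_toFinset, List.mem_filter,
      Bool.and_eq_true, beq_iff_eq]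
    constructor
    · rintro ⟨⟨h1, h2⟩, h3⟩
      obtain ⟨x, hx, rfl⟩ := face_FM t h1
      exact ⟨x, ⟨hx, Bool.eq_iff_iff.2 ((e1 x hx).2.2.trans h3.symm), (sm_iff (e1 x hx).1).2 h2⟩,
        rfl⟩
    · rintro ⟨x, ⟨hx, rfl, h⟩, rfl⟩
      exact ⟨⟨(e1 x hx).2.1, sm_sub h⟩, (e1 x hx).2.2⟩
  · intro x hx y hy e
    simp only [List.coe_toFinset, List.mem_filter, Set.mem_ofPred_eq] at hx hy
    exact List.inj_on_of_nodup_map E0.2.2.1 hx.1 hy.1 (fs_inj (e1 x hx.1).1 (e1 y hy.1).1 e)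

theorem evasive : ¬ NonEv B := by
  have key : ∀ K, NonEv K → ∀ W ∈ WL, K ≠ ind W := by
    intro K h
    induction h with
    | pt v =>
      intro W hW e
      obtain ⟨u, hu, hn⟩ := exists_mem_ne (E3 W hW).1 v
      have h2 := List.all_eq_true.1 E2.2.2 u (List.mem_range.2 (mem_fs.1 hu).1)
      obtain ⟨b, hb, h3⟩ := List.any_eq_true.1 h2
      have : ({u} : Finset ℕ) ∈ ind W := ⟨mem_B.2 ⟨b, hb, singleton_subset_iff.2
        (mem_fs.2 ⟨(mem_fs.1 hu).1, h3⟩)⟩, singleton_subset_iff.2 hu⟩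
      rw [← e] at this
      simp [hn] at this
    | step K v hv _ _ h2 _ i2 =>
      rintro W hW rfl
      obtain ⟨h3, h4⟩ := mem_fs.1 (singleton_subset_iff.1 hv.2)
      have e : del (ind W) v = ind (W ^^^ 2 ^ v) := by
        ext t; simp only [del, ind, Set.mem_ofPred_eq, fs_xor h4, subset_erase, and_assoc]
      rcases (E3 W hW).2 v h3 h4 with h | h
      · exact i2 _ h e
      · exact h (by rw [← num_ind, ← num_ind, ← e, (ne_num _ h2).2])
  refine fun h => key B h _ E0.2.2.2 (Set.ext fun t => ⟨fun ht => ⟨ht, ?_⟩, fun h => h.1⟩)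
  obtain ⟨b, -, h⟩ := mem_B.1 ht
  refine fun v hv => mem_fs.2 ⟨(mem_fs.1 (h hv)).1, ?_⟩
  have := (mem_fs.1 (h hv)).1
  interval_cases v <;> rfl

def im (L : List ℕ) : Set (Finset ℕ) := fs '' {m | m ∈ L}

lemma im_cons (a : ℕ) (L : List ℕ) : im (a :: L) = insert (fs a) (im L) := by
  ext t; simp [im, eq_comm]

lemma grow_ok (G : List ℕ) (e : ℕ) (T : List ℕ) (hT : ∀ b ∈ T, b ∈ BM) (F : Finset ℕ) :
    ∀ (n : ℕ) (c : List ℕ), (∀ a ∈ c, Glued B (im G) (fs e) F (fs a)) →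
      ∀ b ∈ grow G e T n c, Glued B (im G) (fs e) F (fs b) := by
  intro n
  induction n with
  | zero => exact fun c h => h
  | succ n ih =>
    refine fun c h => ih _ fun b hb => ?_
    rcases List.mem_append.1 hb with hb | hb
    · exact h b hb
    · simp only [List.mem_filter, Bool.and_eq_true, List.any_eq_true, mem_iff] at hb
      obtain ⟨h1, -, a, ha, h2, h3⟩ := hb
      exact (h a ha).tail ⟨facet_B.2 ⟨b, hT b h1, rfl⟩, ⟨_, h3, fs_and a b⟩,
        fs_and a b ▸ sm_sub h2⟩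

lemma run_ok (Q : List ℕ → List ℕ → Bool) : ∀ (L : List (ℕ × ℕ × ℕ)) (S G : List ℕ),
    (∀ a ∈ S, a ∈ BM) → (∀ a ∈ G, a < 8192) → Build 3 B (im S) (im G) → run Q L S G = true →
    ∃ S' G', (∀ a ∈ S', a ∈ BM) ∧ Build 3 B (im S') (im G') ∧ Q S' G' = true := by
  intro L
  induction L with
  | nil => exact fun S G h _ h1 h2 => ⟨S, G, h, h1, h2⟩
  | cons x L ih =>
    obtain ⟨a, b, e⟩ := x
    intro S G hS hG hB h
    simp only [run, Bool.and_eq_true, mem_iff, decide_eq_true_eq, Bool.not_eq_true',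
      mem_false] at h
    obtain ⟨⟨⟨⟨h1, h2⟩, h3⟩, h4⟩, h5⟩ := h
    have la := (E0.2.1 a (hS a h1)).1
    have lb := (E0.2.1 b h2).1
    have lab : a &&& b < 8192 := Nat.and_le_left.trans_lt la
    have hG' : ∀ x ∈ (a &&& b) :: G, x < 8192 := fun x hx => by
      rcases List.mem_cons.1 hx with rfl | hx
      exacts [lab, hG x hx]
    have n1 : fs a ∩ fs b ∉ im G := by
      rintro ⟨m, hm, e⟩
      exact h4 (fs_inj (hG m hm) lab (e.trans (fs_and a b).symm) ▸ hm)
    rw [fs_and] at h3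
    split_ifs at h5 with h6
    · simp only [Bool.and_eq_true, mem_iff, decide_eq_true_eq, Bool.not_eq_true',
        ← Bool.not_eq_true, Nat.beq_eq] at h5
      obtain ⟨⟨⟨⟨c1, c2⟩, c3⟩, c4⟩, c5⟩ := h5
      refine ih S _ hS hG' ?_ c5
      rw [im_cons, fs_and]
      refine hB.fold _ _ _ _ (fs e) ⟨a, h1, rfl⟩ ⟨b, h6, rfl⟩ (fun e => c1 (fs_inj la lb e)) h3 n1
        (fs_and a b ▸ sm_sub c2) (by omega) (grow_ok G e _ (fun b hb => (List.mem_filter.1 hb).1)
          _ 8 [a] (fun x hx => ?_) b c4)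
      rw [List.mem_singleton.1 hx]
      exact Relation.ReflTransGen.refl
    · refine ih _ _ (fun x hx => ?_) hG' ?_ h5
      · rcases List.mem_cons.1 hx with rfl | hx
        exacts [h2, hS x hx]
      · rw [im_cons, im_cons, fs_and]
        refine hB.attach _ _ _ _ ⟨a, h1, rfl⟩ (facet_B.2 ⟨b, h2, rfl⟩) ?_ h3 n1
        rintro ⟨m, hm, e⟩
        exact h6 (fs_inj (E0.2.1 m (hS m hm)).1 lb e ▸ hm)

lemma glued_symm (G : Set (Finset ℕ)) (e F F' : Finset ℕ) (hF : Facet B F)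
    (h : Glued B G e F F') : Glued B G e F' F ∧ Facet B F' := by
  induction h with
  | refl => exact ⟨Relation.ReflTransGen.refl, hF⟩
  | tail _ h ih => exact ⟨ih.1.head ⟨ih.2, by rw [inter_comm]; exact h.2⟩, h.1⟩

theorem lc : LC 3 B := by
  refine ⟨fun F h => ?_, ?_⟩
  · obtain ⟨b, hb, rfl⟩ := facet_B.1 h
    exact (E0.2.1 b hb).2
  have h0 : 2055 ∈ BM := by simp [BM]
  obtain ⟨S, G, h1, h2, h3⟩ := run_ok fin SL [2055] [] (by simpa using h0) (by simp) (by
    rw [im_cons, show im [] = ∅ from by simp [im], insert_empty_eq]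
    exact Build.start _ (facet_B.2 ⟨_, h0, rfl⟩)) E4
  simp only [fin, Bool.and_eq_true, List.all_eq_true, mem_iff] at h3
  refine ⟨im G, ?_, fun F F' hF hF' => ?_⟩
  · convert h2 using 1
    ext F
    exact facet_B.trans ⟨fun ⟨b, hb, e⟩ => ⟨b, h3.1 b hb, e⟩, fun ⟨b, hb, e⟩ => ⟨b, h1 b hb, e⟩⟩
  · obtain ⟨a, ha, rfl⟩ := facet_B.1 hF
    obtain ⟨b, hb, rfl⟩ := facet_B.1 hF'
    obtain ⟨x, hx, e⟩ := face_FM (fs a ∩ fs b) (mem_B.2 ⟨a, ha, inter_subset_left⟩)
    have ma : a ∈ BM.filter fun c => sm x.1 c :=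
      List.mem_filter.2 ⟨ha, (sm_iff (e1 x hx).1).2 (e ▸ inter_subset_left)⟩
    have mb : b ∈ BM.filter fun c => sm x.1 c :=
      List.mem_filter.2 ⟨hb, (sm_iff (e1 x hx).1).2 (e ▸ inter_subset_right)⟩
    have h4 := h3.2 x hx
    have hT : ∀ b ∈ BM.filter fun c => sm x.1 c, b ∈ BM := fun b hb => (List.mem_filter.1 hb).1
    generalize (BM.filter fun c => sm x.1 c) = T at *
    obtain _ | ⟨c, T⟩ := T
    · simp at ma
    have g := grow_ok G x.1 _ hT (fs c) 12 ((c :: T).take 1) fun y hy => by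
      rw [show y = c by simpa using hy]
      exact Relation.ReflTransGen.refl
    rw [← e]
    exact (glued_symm _ _ _ _ (facet_B.2 ⟨c, hT c List.mem_cons_self, rfl⟩)
      (g a (h4 a ma))).1.trans (g b (h4 b mb))

theorem ball : IsBall 3 B := by
  have d3 := D3
  rw [Bool.and_eq_true] at d3
  obtain ⟨f⟩ := chain_homeo _ _ _ d3.1
  obtain ⟨g⟩ := simplex_ball 0 1 2 3 (by decide)
  rw [IsBall, real_gen]
  exact ⟨f.trans g⟩

end Pool.Agent.H10.Evas
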