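import Mathlib

set_option autoImplicit false

namespace Pool.Agent.H10.Faces

variable {E : Type} [AddCommGroup E] [Module ℝ E]

lemma le_on_hull (V : Set E) (l : E →ₗ[ℝ] ℝ) (M : ℝ) (h : ∀ u ∈ V, l u ≤ M) :
    ∀ y ∈ convexHull ℝ V, l y ≤ M := fun _ hy =>
  convexHull_min (t := {y | l y ≤ M}) h (convex_halfSpace_le l.isLinear M) hy

/-- the face of a convex hull cut out by a linear functional is the hull of the maximising
generators -/
lemma face_eq (V : Set E) (l : E →ₗ[ℝ] ℝ) :
    {x ∈ convexHull ℝ V | ∀ y ∈ convexHull ℝ V, l y ≤ l x} =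
      convexHull ℝ {v ∈ V | ∀ u ∈ V, l u ≤ l v} := by
  classical
  apply Set.Subset.antisymm
  · rintro x ⟨hx, hmax⟩
    obtain ⟨κ, _, w, z, hw0, hw1, hz, hsum⟩ := mem_convexHull_iff_exists_fintype.mp hx
    have hle : ∀ k, l (z k) ≤ l x := fun k => hmax _ (subset_convexHull ℝ V (hz k))
    have hlx : ∑ k, w k * l (z k) = l x := by
      rw [← hsum, map_sum]; simp
    have hzero : ∑ k, w k * (l x - l (z k)) = 0 := by
      simp only [mul_sub, Finset.sum_sub_distrib, ← Finset.sum_mul, hw1, hlx]; ring
    have hk := (Finset.sum_eq_zero_iff_of_nonneg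
      (fun k _ => mul_nonneg (hw0 k) (sub_nonneg.mpr (hle k)))).mp hzero
    have e1 : x = ∑ k ∈ Finset.univ.filter (fun k => w k ≠ 0), w k • z k := by
      rw [← hsum, Finset.sum_filter]
      apply Finset.sum_congr rfl
      intro k _
      split_ifs with h
      · rfl
      · push Not at h; rw [h, zero_smul]
    rw [e1]
    apply (convex_convexHull ℝ _).sum_mem (fun k _ => hw0 k)
    · rw [← hw1, Finset.sum_filter]
      apply Finset.sum_congr rfl
      intro k _
      split_ifs with h
      · rfl
      · push Not at h; exact h.symm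
    · intro k hk'
      have h1 := (Finset.mem_filter.mp hk').2
      have h2 := hk k (Finset.mem_univ k)
      have h3 : l (z k) = l x := by
        rcases mul_eq_zero.mp h2 with h | h
        · exact absurd h h1
        · linarith
      apply subset_convexHull
      refine ⟨hz k, fun u hu => ?_⟩
      rw [h3]
      exact hmax u (subset_convexHull ℝ V hu)
  · apply convexHull_min
    · rintro v ⟨hv, hmax⟩
      exact ⟨subset_convexHull ℝ V hv, le_on_hull V l _ hmax⟩
    · rintro a ⟨ha, ha'⟩ b ⟨hb, hb'⟩ s t hs ht hst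
      refine ⟨convex_convexHull ℝ V ha hb hs ht hst, fun y hy => ?_⟩
      have h1 := ha' y hy
      have h2 := hb' y hy
      rw [map_add, map_smul, map_smul, smul_eq_mul, smul_eq_mul]
      have : l y = s * l y + t * l y := by rw [← add_mul, hst, one_mul]
      nlinarith

lemma vectorSpan_hull (V : Set E) : vectorSpan ℝ (convexHull ℝ V) = vectorSpan ℝ V := by
  rw [← direction_affineSpan, affineSpan_convexHull, direction_affineSpan]

end Pool.Agent.H10.Faces
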