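import Pool.Agent.H10.FairCore

set_option autoImplicit false

namespace Pool.Agent.H10.Fair
open MeasureTheory

abbrev E := EuclideanSpace ℝ (Fin 2)

noncomputable def ctr (i : ℕ) : E := WithLp.toLp 2 ![(px i : ℝ), (py i : ℝ)]

def B (i : ℕ) : Set E := Metric.ball (ctr i) (1 / 1000)

def HP (G : Set E) : Prop :=
  MeasurableSet G ∧ ∃ a b c : ℝ, (∀ x, x ∈ G ↔ a * x 0 + b * x 1 - c ≤ 0) ∨
    (∀ x, x ∈ G ↔ ¬ a * x 0 + b * x 1 - c ≤ 0)

lemma HP.compl {G : Set E} (h : HP G) : HP Gᶜ := by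
  obtain ⟨m, a, b, c, h | h⟩ := h
  · exact ⟨m.compl, a, b, c, Or.inr fun x => by simp [h x]⟩
  · exact ⟨m.compl, a, b, c, Or.inl fun x => by simp [h x]⟩

def o (x y z : E) : ℝ := (y 0 - x 0) * (z 1 - x 1) - (y 1 - x 1) * (z 0 - x 0)

lemma near {i : ℕ} {x : E} (h : x ∈ B i) : |x 0 - px i| ≤ 1 / 1000 ∧ |x 1 - py i| ≤ 1 / 1000 := by
  have h0 : dist x (ctr i) < 1 / 1000 := h
  have a := PiLp.dist_apply_le x (ctr i) 0
  have b := PiLp.dist_apply_le x (ctr i) 1
  rw [Real.dist_eq] at a b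
  simp only [ctr, Matrix.cons_val_zero, Matrix.cons_val_one] at a b h0
  exact ⟨a.trans h0.le, b.trans h0.le⟩

lemma prod_close (A D a d : ℝ) (hA : |A| ≤ 40) (hD : |D| ≤ 40) (ha : |a - A| ≤ 1 / 500)
    (hd : |d - D| ≤ 1 / 500) : |a * d - A * D| ≤ 1 / 4 := by
  have e : a * d - A * D = A * (d - D) + (a - A) * D + (a - A) * (d - D) := by ring
  have h1 : |A * (d - D)| ≤ 40 * (1 / 500) := by
    rw [abs_mul]; exact mul_le_mul hA hd (abs_nonneg _) (by norm_num)
  have h2 : |(a - A) * D| ≤ (1 / 500) * 40 := by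
    rw [abs_mul]; exact mul_le_mul ha hD (abs_nonneg _) (by norm_num)
  have h3 : |(a - A) * (d - D)| ≤ (1 / 500) * (1 / 500) := by
    rw [abs_mul]; exact mul_le_mul ha hd (abs_nonneg _) (by norm_num)
  rw [e]
  rw [abs_le] at *
  constructor <;> linarith [h1.1, h1.2, h2.1, h2.2, h3.1, h3.2]

lemma o_close {i j k : ℕ} (hi : i < 12) (hj : j < 12) (hk : k < 12) {x y z : E} (hx : x ∈ B i)
    (hy : y ∈ B j) (hz : z ∈ B k) : |o x y z - oz i j k| ≤ 1 / 2 := by
  have bd : ∀ i < 12, |(px i : ℝ)| ≤ 20 ∧ |(py i : ℝ)| ≤ 20 := fun i hi => by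
    have := bounds i hi
    exact ⟨by exact_mod_cast this.1, by exact_mod_cast this.2⟩
  obtain ⟨x0, x1⟩ := near hx
  obtain ⟨y0, y1⟩ := near hy
  obtain ⟨z0, z1⟩ := near hz
  obtain ⟨i0, i1⟩ := bd i hi
  obtain ⟨j0, j1⟩ := bd j hj
  obtain ⟨k0, k1⟩ := bd k hk
  rw [abs_le] at x0 x1 y0 y1 z0 z1 i0 i1 j0 j1 k0 k1
  have h1 := prod_close (px j - px i) (py k - py i) (y 0 - x 0) (z 1 - x 1)
    (by rw [abs_le]; constructor <;> linarith) (by rw [abs_le]; constructor <;> linarith)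
    (by rw [abs_le]; constructor <;> linarith) (by rw [abs_le]; constructor <;> linarith)
  have h2 := prod_close (py j - py i) (px k - px i) (y 1 - x 1) (z 0 - x 0)
    (by rw [abs_le]; constructor <;> linarith) (by rw [abs_le]; constructor <;> linarith)
    (by rw [abs_le]; constructor <;> linarith) (by rw [abs_le]; constructor <;> linarith)
  unfold o oz
  push_cast
  rw [abs_le] at *
  constructor <;> linarith [h1.1, h1.2, h2.1, h2.2]

lemma o_pos {i j k : ℕ} (hi : i < 12) (hj : j < 12) (hk : k < 12) {x y z : E} (hx : x ∈ B i)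
    (hy : y ∈ B j) (hz : z ∈ B k) (h : 0 < oz i j k) : 0 < o x y z := by
  have h1 := abs_le.mp (o_close hi hj hk hx hy hz)
  have : (1 : ℝ) ≤ oz i j k := by exact_mod_cast h
  linarith [h1.1]

lemma o_neg {i j k : ℕ} (hi : i < 12) (hj : j < 12) (hk : k < 12) {x y z : E} (hx : x ∈ B i)
    (hy : y ∈ B j) (hz : z ∈ B k) (h : oz i j k < 0) : o x y z < 0 := by
  have h1 := abs_le.mp (o_close hi hj hk hx hy hz)
  have h2 : oz i j k ≤ -1 := by omega
  have : (oz i j k : ℝ) ≤ -1 := by exact_mod_cast h2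
  linarith [h1.2]

lemma core (la lb lc ld fa fb fc fd : ℝ) (t : Bool) (ha : 0 < la) (hb : lb < 0)
    (hc : t = true → 0 < lc) (hc' : t = false → lc < 0) (hd : 0 < ld)
    (e : la * fa - lb * fb + lc * fc - ld * fd = 0) (h1 : fa ≤ 0 ↔ fb ≤ 0)
    (h2 : fc ≤ 0 ↔ (fa ≤ 0 ↔ t = true)) (h3 : fd ≤ 0 ↔ ¬ fa ≤ 0) : False := by
  by_cases h : fa ≤ 0
  · have b := h1.mp h
    have d : 0 < fd := by by_contra hc; exact h3.mp (not_lt.mp hc) h
    have c : lc * fc ≤ 0 := by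
      cases t
      · have : 0 < fc := by by_contra hc; simpa [h] using h2.mp (not_lt.mp hc)
        nlinarith [hc' rfl]
      · have : fc ≤ 0 := h2.mpr (by simp [h])
        nlinarith [hc rfl]
    nlinarith
  · have b : 0 < fb := by by_contra hc; exact h (h1.mpr (not_lt.mp hc))
    have d : fd ≤ 0 := h3.mpr h
    have c : 0 ≤ lc * fc := by
      cases t
      · have : fc ≤ 0 := h2.mpr (by simp [h])
        nlinarith [hc' rfl]
      · have : 0 < fc := by by_contra hc; simpa [h] using h2.mp (not_lt.mp hc)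
        nlinarith [hc rfl]
    have := not_le.mp h
    nlinarith

lemma no_viol {G : Set E} (hG : HP G) (x : ℕ → E) (hx : ∀ i < 12, x i ∈ B i) (S : ℕ)
    (hS : ∀ i < 12, S.testBit i = true ↔ x i ∈ G) (q : ℕ × ℕ × ℕ × ℕ × Bool) (hq : okc q) :
    viol S q = false := by
  obtain ⟨a, b, c, d, t⟩ := q
  obtain ⟨ha, hb, hc, hd, o1, o2, o3, o4, o5⟩ := hq
  simp only at ha hb hc hd o1 o2 o3 o4 o5
  by_contra hv
  simp only [viol, Bool.not_eq_false, Bool.and_eq_true, beq_iff_eq] at hv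
  obtain ⟨⟨v1, v2⟩, v3⟩ := hv
  have s1 : x a ∈ G ↔ x b ∈ G := by rw [← hS a ha, ← hS b hb, v1]
  have s2 : x c ∈ G ↔ (x a ∈ G ↔ t = true) := by
    rw [← hS a ha, ← hS c hc, v2]; cases S.testBit a <;> cases t <;> simp
  have s3 : x d ∈ G ↔ ¬ x a ∈ G := by rw [← hS a ha, ← hS d hd, v3]; simp
  obtain ⟨-, α, β, γ, h⟩ := hG
  refine core (o (x b) (x c) (x d)) (o (x a) (x c) (x d)) (o (x a) (x b) (x d))
    (o (x a) (x b) (x c)) (α * x a 0 + β * x a 1 - γ) (α * x b 0 + β * x b 1 - γ)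
    (α * x c 0 + β * x c 1 - γ) (α * x d 0 + β * x d 1 - γ) t
    (o_pos hb hc hd (hx b hb) (hx c hc) (hx d hd) o1)
    (o_neg ha hc hd (hx a ha) (hx c hc) (hx d hd) o2)
    (fun h => o_pos ha hb hd (hx a ha) (hx b hb) (hx d hd) (o3 h))
    (fun h => o_neg ha hb hd (hx a ha) (hx b hb) (hx d hd) (o4 h))
    (o_pos ha hb hc (hx a ha) (hx b hb) (hx c hc) o5) (by unfold o; ring) ?_ ?_ ?_
  · rcases h with h | h <;> rw [h, h] at s1 <;> tauto
  · rcases h with h | h <;> rw [h, h] at s2 <;> rw [h, h] at s3 <;> tauto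
  · rcases h with h | h <;> rw [h, h] at s3 <;> tauto

open Classical in
noncomputable def mI (G : Set E) : ℕ := Nat.ofBits fun i : Fin 12 => decide (B i ⊆ G)

open Classical in
noncomputable def mg (G : Set E) : ℕ := Nat.ofBits fun i : Fin 12 => decide (B i ∩ G).Nonempty

lemma mI_bit (G : Set E) (i : ℕ) : (mI G).testBit i = true ↔ i < 12 ∧ B i ⊆ G := by
  unfold mI
  rw [Nat.testBit_ofBits]
  by_cases h : i < 12 <;> simp [h]

lemma mg_bit (G : Set E) (i : ℕ) : (mg G).testBit i = true ↔ i < 12 ∧ (B i ∩ G).Nonempty := by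
  unfold mg
  rw [Nat.testBit_ofBits]
  by_cases h : i < 12 <;> simp [h]

lemma B_ne (i : ℕ) : (B i).Nonempty := Metric.nonempty_ball.mpr (by norm_num)

lemma valid {G : Set E} (hG : HP G) : Valid (mI G) (mg G) := by
  refine ⟨Nat.ofBits_lt_two_pow _, Nat.ofBits_lt_two_pow _, fun i h => ?_, fun S h1 h2 q hq => ?_⟩
  · rw [mI_bit] at h
    rw [mg_bit, Set.inter_eq_left.mpr h.2]
    exact ⟨h.1, B_ne i⟩
  · have : ∀ i, ∃ x, i < 12 → x ∈ B i ∧ (S.testBit i = true ↔ x ∈ G) := by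
      intro i
      by_cases hs : S.testBit i = true
      · obtain ⟨-, x, hx⟩ := (mg_bit G i).mp (h2 i hs)
        exact ⟨x, fun _ => ⟨hx.1, by simp [hs, hx.2]⟩⟩
      · by_cases hi : i < 12
        · have : ¬ B i ⊆ G := fun hc => hs (h1 i ((mI_bit G i).mpr ⟨hi, hc⟩))
          obtain ⟨x, x1, x2⟩ := Set.not_subset.mp this
          exact ⟨x, fun _ => ⟨x1, by simp [hs, x2]⟩⟩
        · exact ⟨0, fun h => absurd h hi⟩
    choose x hx using this
    exact no_viol hG x (fun i hi => (hx i hi).1) S (fun i hi => (hx i hi).2) q (cons_ok q hq)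

noncomputable def κ : ℝ := volume.real (Metric.ball (0 : E) (1 / 1000))

lemma κ_pos : 0 < κ :=
  ENNReal.toReal_pos (Metric.measure_ball_pos volume _ (by norm_num)).ne' measure_ball_lt_top.ne

lemma volB (i : ℕ) : volume.real (B i) = κ := by
  unfold B κ Measure.real
  rw [Measure.addHaar_ball_center]

lemma B_fin (i : ℕ) : volume (B i) ≠ ⊤ := measure_ball_lt_top.ne

noncomputable def φ (A : Set E) (i : ℕ) : ℝ := volume.real (A ∩ B i) / κ

lemma φ_nonneg (A : Set E) (i : ℕ) : 0 ≤ φ A i := div_nonneg measureReal_nonneg κ_pos.le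

lemma φ_univ (i : ℕ) : φ Set.univ i = 1 := by
  unfold φ; rw [Set.univ_inter, volB, div_self κ_pos.ne']

lemma φ_add (A G : Set E) (hG : MeasurableSet G) (i : ℕ) :
    φ (A ∩ G) i + φ (A ∩ Gᶜ) i = φ A i := by
  unfold φ
  rw [← add_div]
  congr 1
  have := measureReal_inter_add_sdiff (μ := volume) (s := A ∩ B i) hG
    (measure_ne_top_of_subset Set.inter_subset_right (B_fin i))
  rw [← this]
  congr 2
  · ac_rfl
  · rw [Set.sdiff_eq]; ac_rfl

lemma φ_in {A G : Set E} {i : ℕ} (h : B i ⊆ G) : φ (A ∩ G) i = φ A i := by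
  unfold φ; rw [Set.inter_assoc, Set.inter_eq_right.mpr h]

lemma φ_out {A G : Set E} {i : ℕ} (h : ¬ (B i ∩ G).Nonempty) : φ (A ∩ G) i = 0 := by
  unfold φ
  rw [Set.not_nonempty_iff_eq_empty] at h
  rw [Set.inter_assoc, Set.inter_comm G, h]; simp

noncomputable def ν (w : ℕ → ℕ) (A : Set E) : ℝ := ∑ i ∈ Finset.range 12, (w i : ℝ) * φ A i

lemma ν_add (w : ℕ → ℕ) (A G : Set E) (hG : MeasurableSet G) :
    ν w (A ∩ G) + ν w (A ∩ Gᶜ) = ν w A := by
  unfold ν
  rw [← Finset.sum_add_distrib]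
  exact Finset.sum_congr rfl fun i _ => by rw [← mul_add, φ_add A G hG]

lemma ν_bounds (w v : ℕ → ℕ) (A G : Set E) (hG : MeasurableSet G)
    (hv : ∀ i < 12, (w i : ℝ) * φ A i = v i) :
    (wsum' v (mI G) : ℝ) ≤ ν w (A ∩ G) ∧ ν w (A ∩ G) ≤ wsum' v (mg G) := by
  rw [← wsum_eq, ← wsum_eq]
  unfold wsum ν
  push_cast
  constructor <;> refine Finset.sum_le_sum fun i hi => ?_
  · split_ifs with h
    · rw [φ_in ((mI_bit G i).mp h).2, hv i (Finset.mem_range.mp hi)]
    · exact mul_nonneg (Nat.cast_nonneg _) (φ_nonneg _ _)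
  · split_ifs with h
    · rw [← hv i (Finset.mem_range.mp hi), ← φ_add A G hG i]
      exact mul_le_mul_of_nonneg_left (by linarith [φ_nonneg (A ∩ Gᶜ) i]) (Nat.cast_nonneg _)
    · rw [φ_out fun hc => h ((mg_bit G i).mpr ⟨Finset.mem_range.mp hi, hc⟩)]; simp

lemma hit_of (v1 v2 : ℕ → ℕ) (A G : Set E) (hG : MeasurableSet G)
    (h1 : ∀ i < 12, (w1 i : ℝ) * φ A i = v1 i) (h2 : ∀ i < 12, (w2 i : ℝ) * φ A i = v2 i) (t : ℕ)
    (e1 : ν w1 (A ∩ G) = t) (e2 : ν w2 (A ∩ G) = t) : hit v1 v2 t (mI G) (mg G) = true := by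
  have a := ν_bounds w1 v1 A G hG h1
  have b := ν_bounds w2 v2 A G hG h2
  rw [e1] at a
  rw [e2] at b
  simp only [hit, Bool.and_eq_true, Nat.ble_eq]
  exact ⟨⟨⟨by exact_mod_cast a.1, by exact_mod_cast a.2⟩, by exact_mod_cast b.1⟩,
    by exact_mod_cast b.2⟩

lemma phi_vals {H : Set E} (I g : ℕ) (hI : mI H = I) (hg : mg H = g) (i : ℕ) (hi : i < 12) :
    (I.testBit i = true → φ (Set.univ ∩ H) i = 1) ∧
      (g.testBit i = false → φ (Set.univ ∩ H) i = 0) := by
  subst hI hg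
  refine ⟨fun h => by rw [φ_in ((mI_bit H i).mp h).2, φ_univ], fun h => φ_out fun hc => ?_⟩
  rw [(mg_bit H i).mpr ⟨hi, hc⟩] at h
  exact absurd h (by simp)

lemma first {G : Set E} (hG : HP G) (s : ℕ) (hs : s = 5 ∨ s = 10 ∨ s = 20 ∨ s = 25)
    (e1 : ν w1 (Set.univ ∩ G) = s) (e2 : ν w2 (Set.univ ∩ G) = s) : False := by
  have h := hit_of w1 w2 Set.univ G hG.1 (fun i _ => by rw [φ_univ, mul_one])
    (fun i _ => by rw [φ_univ, mul_one]) s e1 e2
  have p := valid_P _ _ (valid hG)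
  simp only [P, Bool.and_eq_true, Bool.not_eq_true'] at p
  rcases hs with rfl | rfl | rfl | rfl <;> simp [h] at p

lemma second {H G : Set E} (hH : HP H) (hG : HP G) (h1 : (B 1 ∩ H).Nonempty)
    (e1 : ν w1 (Set.univ ∩ H) = (15 : ℕ)) (e2 : ν w2 (Set.univ ∩ H) = (15 : ℕ))
    (f1 : ν w1 (Set.univ ∩ H ∩ G) = (5 : ℕ)) (f2 : ν w2 (Set.univ ∩ H ∩ G) = (5 : ℕ)) : False := by
  have h := hit_of w1 w2 Set.univ H hH.1 (fun i _ => by rw [φ_univ, mul_one])
    (fun i _ => by rw [φ_univ, mul_one]) 15 e1 e2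
  have p := valid_P _ _ (valid hH)
  have p' := valid_P _ _ (valid hG)
  have b : (mg H).testBit 1 = true := (mg_bit H 1).mpr ⟨by norm_num, h1⟩
  simp only [P, Bool.and_eq_true, Bool.not_eq_true'] at p p'
  have p8 := p.2
  simp only [h, b, Bool.and_self, Bool.not_true, Bool.false_or, Bool.or_eq_true,
    Bool.and_eq_true, beq_iff_eq] at p8
  have fin : ∀ v1 v2 : ℕ → ℕ, hit v1 v2 5 (mI G) (mg G) = false →
      (∀ i < 12, (w1 i : ℝ) * φ (Set.univ ∩ H) i = v1 i) →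
      (∀ i < 12, (w2 i : ℝ) * φ (Set.univ ∩ H) i = v2 i) → False := fun v1 v2 a b c => by
    rw [hit_of v1 v2 _ G hG.1 b c 5 f1 f2] at a
    exact absurd a (by simp)
  simp only [ν, Finset.sum_range_succ, Finset.range_zero, Finset.sum_empty, w1, w2] at e1 e2
  norm_num at e1 e2
  rcases p8 with (⟨hI, hg⟩ | ⟨hI, hg⟩) | ⟨hI, hg⟩
  all_goals
    have v := phi_vals _ _ hI hg
    have v0 := v 0 (by norm_num)
    have v1 := v 1 (by norm_num)
    have v2 := v 2 (by norm_num)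
    have v3 := v 3 (by norm_num)
    have v4 := v 4 (by norm_num)
    have v5 := v 5 (by norm_num)
    have v6 := v 6 (by norm_num)
    have v7 := v 7 (by norm_num)
    have v8 := v 8 (by norm_num)
    have v9 := v 9 (by norm_num)
    have v10 := v 10 (by norm_num)
    have v11 := v 11 (by norm_num)
    norm_num [Nat.testBit, Nat.shiftRight_eq_div_pow] at v0 v1 v2 v3 v4 v5 v6 v7 v8 v9 v10 v11
  · refine fin a1 a2 p'.1.1.1.2 (fun i hi => ?_) (fun i hi => ?_) <;>
      interval_cases i <;> simp [w1, w2, a1, a2] <;> linarith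
  · refine fin b1 b2 p'.1.1.2 (fun i hi => ?_) (fun i hi => ?_) <;>
      interval_cases i <;> simp [w1, w2, b1, b2] <;> linarith
  · refine fin b1 c2 p'.1.2 (fun i hi => ?_) (fun i hi => ?_) <;>
      interval_cases i <;> simp [w1, w2, b1, c2] <;> linarith

inductive T : Set E → List (Set E) → Prop
  | base (A : Set E) : T A [A]
  | split (A : Set E) (l1 l2 : List (Set E)) (G : Set E) : HP G → T (A ∩ G) l1 → T (A ∩ Gᶜ) l2 →
      T A (l1 ++ l2)

lemma T.len {A : Set E} {l : List (Set E)} (h : T A l) : 1 ≤ l.length := by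
  induction h with
  | base A => simp
  | split A l1 l2 G _ _ _ a b => simp; omega

lemma T.meas {A : Set E} {l : List (Set E)} (h : T A l) (w : ℕ → ℕ) (u : ℝ)
    (hu : ∀ P ∈ l, ν w P = u) : ν w A = l.length * u := by
  induction h with
  | base A => simp [hu A (by simp)]
  | split A l1 l2 G hG _ _ a b =>
    rw [← ν_add w A G hG.1, a fun P hP => hu P (by simp [hP]), b fun P hP => hu P (by simp [hP])]
    simp; ring

lemma T.inv {A : Set E} {l : List (Set E)} (h : T A l) (hl : 2 ≤ l.length) :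
    ∃ G l1 l2, HP G ∧ l = l1 ++ l2 ∧ T (A ∩ G) l1 ∧ T (A ∩ Gᶜ) l2 := by
  cases h with
  | base => simp at hl
  | split _ l1 l2 G hG a b => exact ⟨G, l1, l2, hG, rfl, a, b⟩

lemma three {A : Set E} {l : List (Set E)} (h : T A l) (hl : l.length = 3)
    (h1 : ∀ P ∈ l, ν w1 P = 5) (h2 : ∀ P ∈ l, ν w2 P = 5) :
    ∃ G, HP G ∧ ν w1 (A ∩ G) = (5 : ℕ) ∧ ν w2 (A ∩ G) = (5 : ℕ) := by
  obtain ⟨G, l1, l2, hG, rfl, a, b⟩ := h.inv (by omega)
  have la := a.len
  have lb := b.len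
  rw [List.length_append] at hl
  by_cases e : l1.length = 1
  · refine ⟨G, hG, ?_, ?_⟩
    · rw [a.meas w1 5 fun P hP => h1 P (by simp [hP]), e]; norm_num
    · rw [a.meas w2 5 fun P hP => h2 P (by simp [hP]), e]; norm_num
  · have e' : l2.length = 1 := by omega
    refine ⟨Gᶜ, hG.compl, ?_, ?_⟩
    · rw [b.meas w1 5 fun P hP => h1 P (by simp [hP]), e']; norm_num
    · rw [b.meas w2 5 fun P hP => h2 P (by simp [hP]), e']; norm_num

theorem no_fair {l : List (Set E)} (h : T Set.univ l) (hl : l.length = 6)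
    (h1 : ∀ P ∈ l, ∀ Q ∈ l, ν w1 P = ν w1 Q) (h2 : ∀ P ∈ l, ∀ Q ∈ l, ν w2 P = ν w2 Q) : False := by
  obtain ⟨Q, hQ⟩ := List.exists_mem_of_length_pos (by omega : 0 < l.length)
  have t1 : ν w1 Set.univ = 30 := by
    simp [ν, φ_univ, Finset.sum_range_succ, w1]; norm_num
  have t2 : ν w2 Set.univ = 30 := by
    simp [ν, φ_univ, Finset.sum_range_succ, w2]; norm_num
  have m1 := h.meas w1 _ fun P hP => h1 P hP Q hQ
  have m2 := h.meas w2 _ fun P hP => h2 P hP Q hQ
  rw [hl] at m1 m2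
  push_cast at m1 m2
  have u1 : ∀ P ∈ l, ν w1 P = 5 := fun P hP => by rw [h1 P hP Q hQ]; linarith
  have u2 : ∀ P ∈ l, ν w2 P = 5 := fun P hP => by rw [h2 P hP Q hQ]; linarith
  obtain ⟨G, l1, l2, hG, rfl, a, b⟩ := h.inv (by omega)
  have la := a.len
  have lb := b.len
  rw [List.length_append] at hl
  have a1 := a.meas w1 5 fun P hP => u1 P (by simp [hP])
  have a2 := a.meas w2 5 fun P hP => u2 P (by simp [hP])
  have b1 := b.meas w1 5 fun P hP => u1 P (by simp [hP])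
  have b2 := b.meas w2 5 fun P hP => u2 P (by simp [hP])
  by_cases e : l1.length = 3
  · have e' : l2.length = 3 := by omega
    rw [e] at a1 a2
    rw [e'] at b1 b2
    obtain ⟨x, hx⟩ := B_ne 1
    by_cases hxG : x ∈ G
    · obtain ⟨G', g, c1, c2⟩ := three a e (fun P hP => u1 P (by simp [hP]))
        (fun P hP => u2 P (by simp [hP]))
      exact second hG g ⟨x, hx, hxG⟩ (by rw [a1]; norm_num) (by rw [a2]; norm_num) c1 c2
    · obtain ⟨G', g, c1, c2⟩ := three b e' (fun P hP => u1 P (by simp [hP]))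
        (fun P hP => u2 P (by simp [hP]))
      exact second hG.compl g ⟨x, hx, hxG⟩ (by rw [b1]; norm_num) (by rw [b2]; norm_num) c1 c2
  · exact first hG (l1.length * 5) (by omega) (by rw [a1]; push_cast; ring)
      (by rw [a2]; push_cast; ring)

noncomputable def μ (w : ℕ → ℕ) : Measure E :=
  ∑ i ∈ Finset.range 12, (w i : ENNReal) • volume.restrict (B i)

lemma μ_apply (w : ℕ → ℕ) (A : Set E) :
    μ w A = ∑ i ∈ Finset.range 12, (w i : ENNReal) * volume (A ∩ B i) := by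
  unfold μ
  rw [Measure.finsetSum_apply]
  exact Finset.sum_congr rfl fun i _ => by
    rw [Measure.smul_apply, Measure.restrict_apply' (show MeasurableSet (B i) from
      measurableSet_ball), smul_eq_mul]

lemma μ_fin (w : ℕ → ℕ) (A : Set E) (i : ℕ) : (w i : ENNReal) * volume (A ∩ B i) ≠ ⊤ :=
  ENNReal.mul_ne_top (by simp) (measure_ne_top_of_subset Set.inter_subset_right (B_fin i))

lemma ν_eq (w : ℕ → ℕ) (A : Set E) : ν w A = (μ w A).toReal / κ := by
  rw [μ_apply, ENNReal.toReal_sum fun i _ => μ_fin w A i, Finset.sum_div]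
  exact Finset.sum_congr rfl fun i _ => by
    rw [ENNReal.toReal_mul, mul_div_assoc]; rfl

lemma μ_finite (w : ℕ → ℕ) : IsFiniteMeasure (μ w) :=
  ⟨by rw [μ_apply]; exact ENNReal.sum_lt_top.mpr fun i _ => (μ_fin w _ i).lt_top⟩

lemma μ_ac (w : ℕ → ℕ) : μ w ≪ volume := by
  intro A hA
  rw [μ_apply]
  exact Finset.sum_eq_zero fun i _ => by
    rw [measure_mono_null Set.inter_subset_left hA, mul_zero]

lemma hp_half (v : E) (c : ℝ) : HP {x | inner ℝ v x ≤ c} := by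
  refine ⟨(isClosed_le (by fun_prop) continuous_const).measurableSet, v 0, v 1, c, Or.inl fun x => ?_⟩
  simp only [Set.mem_ofPred_eq, PiLp.inner_apply, Fin.sum_univ_two, RCLike.inner_apply,
    conj_trivial]
  constructor <;> intro h <;> linarith

end Pool.Agent.H10.Fair
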