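import Mathlib

set_option autoImplicit false

/-! Combinatorial core of the counterexample to fair iterated line partitions into six parts. -/

namespace Pool.Agent.H10.Fair

def px (i : ℕ) : ℤ := [-6, 7, -2, 13, -15, 12, 2, -12, 4, -1, 17, 7].getD i 0
def py (i : ℕ) : ℤ := [14, 11, -19, -14, 5, 7, 3, 7, 10, -4, -9, 4].getD i 0
def w1 (i : ℕ) : ℕ := [3, 3, 3, 3, 3, 3, 12, 0, 0, 0, 0, 0].getD i 0
def w2 (i : ℕ) : ℕ := [0, 0, 0, 0, 0, 0, 0, 3, 8, 8, 3, 8].getD i 0
def a1 (i : ℕ) : ℕ := [3, 3, 0, 0, 3, 3, 3, 0, 0, 0, 0, 0].getD i 0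
def a2 (i : ℕ) : ℕ := [0, 0, 0, 0, 0, 0, 0, 3, 8, 0, 0, 4].getD i 0
def b1 (i : ℕ) : ℕ := [0, 3, 3, 3, 0, 3, 3, 0, 0, 0, 0, 0].getD i 0
def b2 (i : ℕ) : ℕ := [0, 0, 0, 0, 0, 0, 0, 0, 4, 0, 3, 8].getD i 0
def c2 (i : ℕ) : ℕ := [0, 0, 0, 0, 0, 0, 0, 0, 0, 4, 3, 8].getD i 0

def oz (i j k : ℕ) : ℤ := (px j - px i) * (py k - py i) - (py j - py i) * (px k - px i)

def cons : List (ℕ × ℕ × ℕ × ℕ × Bool) := [(0, 3, 1, 2, false), (4, 1, 0, 2, false), (1, 0, 2,
    6, true), (1, 0, 6, 8, true), (0, 5, 1, 3, false), (1, 9, 2, 6, false), (3, 5, 0, 10, false),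
    (0, 4, 8, 7, true), (6, 8, 4, 11, false), (4, 2, 5, 11, true), (0, 3, 6, 9, false), (0, 2, 8, 9,
    true), (9, 6, 7, 10, false), (3, 1, 8, 11, true), (2, 8, 9, 6, true), (9, 0, 4, 10, false), (7,
    1, 0, 2, false), (3, 0, 2, 10, false), (1, 0, 10, 11, true), (5, 0, 7, 8, true), (0, 11, 1, 2,
    false), (3, 4, 2, 5, false), (1, 4, 5, 8, true), (4, 5, 1, 10, false), (1, 0, 11, 8, true), (0,
    9, 3, 7, false), (5, 6, 9, 11, true), (1, 0, 4, 7, true), (0, 10, 1, 6, false), (3, 0, 4, 9,
    true), (8, 0, 10, 11, true)]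

def sepL : List ℕ := [0, 1, 2, 3, 4, 8, 12, 16, 17, 20, 28, 32, 34, 35, 129, 131, 144, 145, 147,
    148, 149, 259, 290, 291, 387, 401, 403, 419, 435, 465, 467, 499, 524, 532, 540, 657, 660, 661,
    668, 669, 721, 725, 732, 733, 913, 977, 979, 981, 983, 989, 1024, 1032, 1036, 1056, 1058, 1064,
    1066, 1068, 1314, 1548, 1564, 1580, 1612, 1628, 1692, 1756, 1757, 2338, 2339, 2403, 2467, 2483,
    2515, 2531, 2547, 2781, 3027, 3029, 3031, 3037, 3039, 3059, 3063, 3071, 3106, 3112, 3114, 3116,
    3118, 3182, 3362, 3363, 3370, 3374, 3426, 3427, 3434, 3435, 3438, 3555, 3563, 3571, 3596, 3628,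
    3630, 3660, 3676, 3692, 3694, 3708, 3804, 3805, 3836, 3946, 3947, 3948, 3950, 3951, 3964, 3966,
    4060, 4061, 4063, 4067, 4075, 4078, 4079, 4083, 4087, 4091, 4092, 4093, 4094, 4095]

def sepT : ℕ := 0xf888c808b000000000000000000000005000dc0000000000000000000000000010000000300000000000000000000000100050001000100000005000000010000008080800000000000000000000000000004c0c000000000000440c00000000000000000000000000000000000000000000400000000000000055040000000080880000a0a8000000000000000000000000000000000000000000000000000000000000200000000000000000000000000000000000000000000000000000000008000800080000000800080000000000000008000000000000000c00000000000000000000000000000000000000000000000000000000000000000000000000000000000000000000000000000000000000000000000000000000000000000000000030000000000000001000000000000000100010000000100010001000000000000000000000000000000000000000000000000000000000040000000000000000000000000000000000000000000000000000000000001505000011010000000020aa0000000000000002000000000000000000000000000000000000000000003022000000000000303200000000000000000000000000001010100000080000000a000000080008000a000800000000000000000000000c00000008000000000000000000000000003b000a00000000000000000000000d1013111f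

def okc (q : ℕ × ℕ × ℕ × ℕ × Bool) : Prop :=
  q.1 < 12 ∧ q.2.1 < 12 ∧ q.2.2.1 < 12 ∧ q.2.2.2.1 < 12 ∧ 0 < oz q.2.1 q.2.2.1 q.2.2.2.1 ∧
    oz q.1 q.2.2.1 q.2.2.2.1 < 0 ∧ (q.2.2.2.2 = true → 0 < oz q.1 q.2.1 q.2.2.2.1) ∧
    (q.2.2.2.2 = false → oz q.1 q.2.1 q.2.2.2.1 < 0) ∧ 0 < oz q.1 q.2.1 q.2.2.1

instance (q : ℕ × ℕ × ℕ × ℕ × Bool) : Decidable (okc q) := by unfold okc; infer_instance

def viol (S : ℕ) (q : ℕ × ℕ × ℕ × ℕ × Bool) : Bool :=
  (S.testBit q.1 == S.testBit q.2.1) && (S.testBit q.2.2.1 == (S.testBit q.1 == q.2.2.2.2)) &&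
    (S.testBit q.2.2.2.1 == !S.testBit q.1)

lemma cons_ok : ∀ q ∈ cons, okc q := by decide +kernel

lemma bounds : ∀ i < 12, |px i| ≤ 20 ∧ |py i| ≤ 20 := by decide +kernel

lemma check1 : (List.range 4096).all
    (fun S => (sepT.testBit S && sepL.elem S) || cons.any (viol S)) = true := by decide +kernel

def wsum (w : ℕ → ℕ) (S : ℕ) : ℕ := ∑ i ∈ Finset.range 12, if S.testBit i then w i else 0

def wsum' (w : ℕ → ℕ) (S : ℕ) : ℕ :=
  ((List.range 12).map fun i => if S.testBit i then w i else 0).sum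

lemma wsum_eq (w : ℕ → ℕ) (S : ℕ) : wsum w S = wsum' w S := by
  simp [wsum, wsum', Finset.sum_range_succ, List.range_succ, add_assoc]

def hit (u v : ℕ → ℕ) (t I g : ℕ) : Bool :=
  Nat.ble (wsum' u I) t && Nat.ble t (wsum' u g) && Nat.ble (wsum' v I) t && Nat.ble t (wsum' v g)

def steps (I g : ℕ) : Bool := (List.range 12).all fun i =>
  !(g.testBit i && !I.testBit i) || (sepT.testBit (I ||| 2 ^ i) && sepT.testBit (g ^^^ 2 ^ i))

def P (I g : ℕ) : Bool :=
  !hit w1 w2 5 I g && !hit w1 w2 10 I g && !hit w1 w2 20 I g && !hit w1 w2 25 I g &&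
    !hit a1 a2 5 I g && !hit b1 b2 5 I g && !hit b1 c2 5 I g &&
    (!(hit w1 w2 15 I g && g.testBit 1) || (I == 435 && g == 2547) || (I == 3118 && g == 3438) ||
      (I == 3118 && g == 3694))

lemma check2 : sepL.all (fun I => sepL.all fun g =>
    !(Nat.beq (I &&& g) I) || !steps I g || P I g) = true := by decide +kernel

/-- all sets between `I` and `g` are free of violations -/
def Valid (I g : ℕ) : Prop :=
  I < 2 ^ 12 ∧ g < 2 ^ 12 ∧ (∀ i, I.testBit i = true → g.testBit i = true) ∧
    ∀ S : ℕ, (∀ i, I.testBit i = true → S.testBit i = true) →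
      (∀ i, S.testBit i = true → g.testBit i = true) → ∀ q ∈ cons, viol S q = false

lemma valid_P (I g : ℕ) (h : Valid I g) : P I g = true := by
  obtain ⟨hI, hg, hs, hv⟩ := h
  have key : ∀ S < 2 ^ 12, (∀ i, I.testBit i = true → S.testBit i = true) →
      (∀ i, S.testBit i = true → g.testBit i = true) → sepT.testBit S = true ∧ S ∈ sepL := by
    intro S hS h1 h2
    have := List.all_eq_true.mp check1 S (List.mem_range.mpr hS)
    rw [Bool.or_eq_true, List.any_eq_true] at this
    rcases this with h | ⟨q, hq, h⟩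
    · simpa using h
    · rw [hv S h1 h2 q hq] at h; exact absurd h (by simp)
  have m1 := (key I hI (fun _ h => h) hs).2
  have m2 := (key g hg hs (fun _ h => h)).2
  have := List.all_eq_true.mp (List.all_eq_true.mp check2 I m1) g m2
  have e1 : Nat.beq (I &&& g) I = true := by
    rw [Nat.beq_eq]
    apply Nat.eq_of_testBit_eq
    intro i
    rw [Nat.testBit_and]
    cases h : I.testBit i
    · rfl
    · rw [hs i h]; rfl
  have e2 : steps I g = true := by
    rw [steps, List.all_eq_true]
    intro i hi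
    have hi' : 2 ^ i < 2 ^ 12 := Nat.pow_lt_pow_right (by norm_num) (List.mem_range.mp hi)
    cases c1 : g.testBit i
    · rfl
    cases c2 : I.testBit i
    swap
    · rfl
    have k1 := (key (I ||| 2 ^ i) (Nat.or_lt_two_pow hI hi') (fun j h => by simp [h]) (fun j h => by
      rw [Nat.testBit_or, Bool.or_eq_true, Nat.testBit_two_pow] at h
      rcases h with h | h
      · exact hs j h
      · rw [← of_decide_eq_true h]; exact c1)).1
    have k2 := (key (g ^^^ 2 ^ i) (Nat.xor_lt_two_pow hg hi') (fun j h => by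
      have : i ≠ j := by rintro rfl; rw [c2] at h; exact absurd h (by simp)
      simp [Nat.testBit_xor, hs j h, this]) (fun j h => by
      by_cases e : i = j
      · rw [← e]; exact c1
      · simpa [Nat.testBit_xor, e] using h)).1
    rw [k1, k2]; rfl
  rw [e1, e2] at this
  simpa using this

end Pool.Agent.H10.Fair
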