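import Pool.Agent.H10.FanCore

set_option autoImplicit false

namespace Pool.Agent.H10.Fan
open MeasureTheory Real

def C (a b w0 w1 : ℝ) : Prop :=
  ∃ r φ : ℝ, 0 ≤ r ∧ a ≤ φ ∧ φ ≤ b ∧ w0 = r * cos φ ∧ w1 = r * sin φ

lemma C_shift (s t : ℝ) (hc : ∀ φ, cos (φ + t) = s * cos φ) (hs : ∀ φ, sin (φ + t) = s * sin φ)
    (h2 : s * s = 1) (x z : E) (a b : ℝ) :
    z ∈ sector x a b ↔ C (a + t) (b + t) (s * (z 0 - x 0)) (s * (z 1 - x 1)) := by
  constructor
  · rintro ⟨r, φ, h0, h1, h3, h4, h5⟩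
    exact ⟨r, φ + t, h0, by linarith, by linarith, by rw [hc, h4]; ring, by rw [hs, h5]; ring⟩
  · rintro ⟨r, φ, h0, h1, h3, h4, h5⟩
    have e1 := hc (φ - t)
    have e2 := hs (φ - t)
    rw [sub_add_cancel] at e1 e2
    refine ⟨r, φ - t, h0, by linarith, by linarith, ?_, ?_⟩
    · rw [e1] at h4
      linear_combination s * h4 - (z 0 - x 0 - r * cos (φ - t)) * h2
    · rw [e2] at h5
      linear_combination s * h5 - (z 1 - x 1 - r * sin (φ - t)) * h2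

lemma C_per (a b w0 w1 : ℝ) : C (a + 2 * π) (b + 2 * π) w0 w1 ↔ C a b w0 w1 := by
  constructor
  · rintro ⟨r, φ, h0, h1, h3, h4, h5⟩
    exact ⟨r, φ - 2 * π, h0, by linarith, by linarith, by rw [cos_sub_two_pi]; exact h4,
      by rw [sin_sub_two_pi]; exact h5⟩
  · rintro ⟨r, φ, h0, h1, h3, h4, h5⟩
    exact ⟨r, φ + 2 * π, h0, by linarith, by linarith, by rw [cos_add_two_pi]; exact h4,
      by rw [sin_add_two_pi]; exact h5⟩

lemma polar (w0 w1 : ℝ) (h : 0 < w1) :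
    ∃ r ψ : ℝ, 0 < r ∧ 0 < ψ ∧ ψ < π ∧ w0 = r * cos ψ ∧ w1 = r * sin ψ := by
  have n0 : (⟨w0, w1⟩ : ℂ) ≠ 0 := fun e => h.ne' (congrArg Complex.im e)
  have r0 : 0 < ‖(⟨w0, w1⟩ : ℂ)‖ := norm_pos_iff.mpr n0
  have s := Complex.sin_arg (⟨w0, w1⟩ : ℂ)
  refine ⟨‖(⟨w0, w1⟩ : ℂ)‖, Complex.arg ⟨w0, w1⟩, r0, ?_, ?_, ?_, ?_⟩
  · refine lt_of_le_of_ne (Complex.arg_nonneg_iff.mpr h.le) fun e => ?_
    exact h.ne' (Complex.arg_eq_zero_iff.mp e.symm).2
  · exact Complex.arg_lt_pi_iff.mpr (Or.inr h.ne')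
  · rw [Complex.cos_arg n0]; field_simp
  · rw [s]; field_simp

noncomputable def ct (a : ℝ) : ℝ := cos a / sin a

lemma ct_le (a ψ r : ℝ) (a0 : 0 < a) (a1 : a < π) (p1 : ψ < π) (r0 : 0 ≤ r)
    (h : a ≤ ψ) : r * cos ψ ≤ ct a * (r * sin ψ) := by
  have s := sin_pos_of_pos_of_lt_pi a0 a1
  have t := sin_nonneg_of_nonneg_of_le_pi (sub_nonneg.mpr h) (by linarith)
  rw [sin_sub] at t
  rw [ct, div_mul_eq_mul_div, le_div_iff₀ s]
  nlinarith [mul_nonneg r0 t]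

lemma le_ct (a ψ r : ℝ) (a0 : 0 < a) (a1 : a < π) (p0 : 0 < ψ) (r0 : 0 ≤ r)
    (h : ψ ≤ a) : ct a * (r * sin ψ) ≤ r * cos ψ := by
  have s := sin_pos_of_pos_of_lt_pi a0 a1
  have t := sin_nonneg_of_nonneg_of_le_pi (sub_nonneg.mpr h) (by linarith)
  rw [sin_sub] at t
  rw [ct, div_mul_eq_mul_div, div_le_iff₀ s]
  nlinarith [mul_nonneg r0 t]

lemma ge_of_ct (a ψ r : ℝ) (a0 : 0 < a) (a1 : a < π) (p0 : 0 < ψ) (r0 : 0 < r)
    (h : r * cos ψ ≤ ct a * (r * sin ψ)) : a ≤ ψ := by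
  by_contra hc
  have s := sin_pos_of_pos_of_lt_pi a0 a1
  have t := sin_pos_of_pos_of_lt_pi (sub_pos.mpr (not_le.mp hc)) (by linarith)
  rw [sin_sub] at t
  rw [ct, div_mul_eq_mul_div, le_div_iff₀ s] at h
  nlinarith [mul_pos r0 t]

lemma le_of_ct (a ψ r : ℝ) (a0 : 0 < a) (a1 : a < π) (p1 : ψ < π) (r0 : 0 < r)
    (h : ct a * (r * sin ψ) ≤ r * cos ψ) : ψ ≤ a := by
  by_contra hc
  have s := sin_pos_of_pos_of_lt_pi a0 a1
  have t := sin_pos_of_pos_of_lt_pi (sub_pos.mpr (not_le.mp hc)) (by linarith)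
  rw [sin_sub] at t
  rw [ct, div_mul_eq_mul_div, div_le_iff₀ s] at h
  nlinarith [mul_pos r0 t]

lemma ct_anti (a b : ℝ) (a0 : 0 < a) (ab : a < b) (b1 : b < π) : ct b < ct a := by
  by_contra hc
  have s := sin_pos_of_pos_of_lt_pi (a0.trans ab) b1
  refine absurd (le_of_ct a b 1 a0 (ab.trans b1) b1 one_pos ?_) (not_le.mpr ab)
  have := mul_le_mul_of_nonneg_right (not_lt.mp hc) s.le
  rw [ct.eq_1 b, div_mul_cancel₀ _ s.ne'] at this
  linarith

lemma chain (t0 t1 t2 t3 M η : ℝ) (h0 : t0 ≤ 0) (h1 : 0 < t1) (h2 : t1 < t2) (h3 : t2 < t3)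
    (h4 : t3 < t0 + 2 * π) (h5 : t3 < π) (η0 : 0 < η) :
    ∃ c4 : ℝ, c4 < ct t3 ∧ ∀ w0 w1 : ℝ, η ≤ w1 → |w0| ≤ M →
      (ct t1 * w1 ≤ w0 → C t0 t1 w0 w1) ∧
      (w0 ≤ ct t1 * w1 → ct t2 * w1 ≤ w0 → C t1 t2 w0 w1) ∧
      (w0 ≤ ct t2 * w1 → ct t3 * w1 ≤ w0 → C t2 t3 w0 w1) ∧
      (w0 ≤ ct t3 * w1 → c4 * w1 ≤ w0 → C t3 (t0 + 2 * π) w0 w1) ∧
      (w0 ≤ c4 * w1 → C t0 t1 w0 w1) := by
  have base : ∀ w0 w1 : ℝ, η ≤ w1 → ∃ ψ : ℝ, 0 < ψ ∧ ψ < π ∧ (∀ a b, a ≤ ψ → ψ ≤ b → C a b w0 w1) ∧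
      ∀ a, 0 < a → a < π → (w0 ≤ ct a * w1 → a ≤ ψ) ∧ (ct a * w1 ≤ w0 → ψ ≤ a) := by
    intro w0 w1 h
    obtain ⟨r, ψ, r0, p0, p1, rfl, rfl⟩ := polar w0 w1 (η0.trans_le h)
    exact ⟨ψ, p0, p1, fun a b x y => ⟨r, ψ, r0.le, x, y, rfl, rfl⟩, fun a a0 a1 =>
      ⟨ge_of_ct a ψ r a0 a1 p0 r0, le_of_ct a ψ r a0 a1 p1 r0⟩⟩
  have pp := pi_pos
  by_cases h6 : t0 + 2 * π < π
  · refine ⟨ct (t0 + 2 * π), ct_anti _ _ (by linarith) h4 h6, fun w0 w1 hw _ => ?_⟩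
    obtain ⟨ψ, p0, p1, hC, hc⟩ := base w0 w1 hw
    have c1 := hc t1 h1 (by linarith)
    have c2 := hc t2 (by linarith) (by linarith)
    have c3 := hc t3 (by linarith) h5
    have c4 := hc (t0 + 2 * π) (by linarith) h6
    exact ⟨fun h => hC _ _ (by linarith) (c1.2 h), fun h h' => hC _ _ (c1.1 h) (c2.2 h'),
      fun h h' => hC _ _ (c2.1 h) (c3.2 h'), fun h h' => hC _ _ (c3.1 h) (c4.2 h'),
      fun h => (C_per _ _ _ _).mp (hC _ _ (c4.1 h) (by linarith))⟩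
  · refine ⟨min (ct t3 - 1) (-(|M| / η + 1)), (min_le_left _ _).trans_lt (by linarith),
      fun w0 w1 hw hM => ?_⟩
    obtain ⟨ψ, p0, p1, hC, hc⟩ := base w0 w1 hw
    have c1 := hc t1 h1 (by linarith)
    have c2 := hc t2 (by linarith) (by linarith)
    have c3 := hc t3 (by linarith) h5
    refine ⟨fun h => hC _ _ (by linarith) (c1.2 h), fun h h' => hC _ _ (c1.1 h) (c2.2 h'),
      fun h h' => hC _ _ (c2.1 h) (c3.2 h'), fun h _ => hC _ _ (c3.1 h) (by linarith),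
      fun h => ?_⟩
    exfalso
    have a1 := mul_le_mul_of_nonneg_right (min_le_right (ct t3 - 1) (-(|M| / η + 1)))
      (η0.le.trans hw)
    have a2 : |M| / η * η = |M| := div_mul_cancel₀ _ η0.ne'
    have a3 : 0 ≤ |M| / η := by positivity
    have a4 := mul_le_mul_of_nonneg_left hw a3
    have a5 := le_abs_self M
    have a6 := (abs_le.mp hM).1
    linarith

lemma blob_x {l k : ℕ} (hl : l < 2) (hk : k < 9) {z : E} (hz : z ∈ B l k) : |z 0| ≤ 53 := by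
  have h1 := (near hz).1
  have h3 : |(pos l k : ℝ)| ≤ 52 := by exact_mod_cast (pos_facts l hl k hk).1
  rw [abs_le] at *
  constructor <;> linarith

theorem pointcore (s : ℝ) (x : E) (hs : (s = 1 ∧ x 1 ≤ 1 / 2) ∨ (s = -1 ∧ 1 / 2 ≤ x 1))
    (t0 t1 t2 t3 : ℝ) (h0 : t0 ≤ 0) (h1 : 0 < t1) (h2 : t1 < t2) (h3 : t2 < t3)
    (h4 : t3 < t0 + 2 * π) (a b : ℕ) (hab : (a = 9 ∧ b = 27) ∨ (a = 27 ∧ b = 9))
    (S0 S1 S2 S3 : Set E)
    (m0 : ∀ z, z ∈ S0 ↔ C t0 t1 (s * (z 0 - x 0)) (s * (z 1 - x 1)))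
    (m1 : ∀ z, z ∈ S1 ↔ C t1 t2 (s * (z 0 - x 0)) (s * (z 1 - x 1)))
    (m2 : ∀ z, z ∈ S2 ↔ C t2 t3 (s * (z 0 - x 0)) (s * (z 1 - x 1)))
    (m3 : ∀ z, z ∈ S3 ↔ C t3 (t0 + 2 * π) (s * (z 0 - x 0)) (s * (z 1 - x 1)))
    (hm : ∀ l < 2, (μ l).real S0 = a / 72 ∧ (μ l).real S1 = b / 72 ∧ (μ l).real S2 = a / 72 ∧
      (μ l).real S3 = b / 72) : False := by
  obtain ⟨f, n, hf, hn, far, nr⟩ : ∃ f n : ℕ, f < 2 ∧ n < 2 ∧ 1 / 2 ≤ s * (f - x 1) ∧
      ∀ l < 2, l = f ∨ l = n := by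
    rcases hs with ⟨rfl, h⟩ | ⟨rfl, h⟩
    · exact ⟨1, 0, by norm_num, by norm_num, by push_cast; linarith, fun l hl => by omega⟩
    · exact ⟨0, 1, by norm_num, by norm_num, by push_cast; linarith, fun l hl => by omega⟩
  have ss : s = 1 ∨ s = -1 := by tauto
  have ab : (a : ℝ) + b = 36 ∧ (9 : ℝ) ≤ a ∧ (9 : ℝ) ≤ b := by
    rcases hab with ⟨rfl, rfl⟩ | ⟨rfl, rfl⟩ <;> norm_num
  have ht : ∀ l k, ∀ z ∈ B l k, |s * (z 1 - x 1) - s * (l - x 1)| ≤ 1 / 10000 := by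
    intro l k z hz
    have := (near hz).2
    rw [abs_le] at *
    rcases ss with rfl | rfl <;> constructor <;> linarith
  have hx : ∀ l < 2, ∀ k < 9, ∀ z ∈ B l k, |s * (z 0 - x 0)| ≤ 53 + |x 0| := by
    intro l hl k hk z hz
    have := blob_x hl hk hz
    have a1 := le_abs_self (x 0)
    have a2 := neg_abs_le (x 0)
    rw [abs_le] at *
    rcases ss with rfl | rfl <;> constructor <;> linarith
  have fh : ∀ k, ∀ z ∈ B f k, 2 / 5 ≤ s * (z 1 - x 1) := fun k z hz => by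
    linarith [(abs_le.mp (ht f k z hz)).1]
  obtain ⟨f0, f1, f2, f3⟩ := hm f hf
  have h5 : t3 < π := by
    by_contra hc
    have := cover3 f S0 S1 S2 fun k hk z hz => by
      obtain ⟨r, ψ, r0, p0, p1, e1, e2⟩ := polar (s * (z 0 - x 0)) (s * (z 1 - x 1))
        (by linarith [fh k z hz])
      rw [m0, m1, m2]
      rcases le_total ψ t1 with a1 | a1
      · exact Or.inl ⟨r, ψ, r0.le, by linarith, a1, e1, e2⟩
      rcases le_total ψ t2 with a2 | a2
      · exact Or.inr (Or.inl ⟨r, ψ, r0.le, a1, a2, e1, e2⟩)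
      · exact Or.inr (Or.inr ⟨r, ψ, r0.le, a2, by linarith, e1, e2⟩)
    linarith [ab.1, ab.2.2]
  obtain ⟨c4, hc4, ch⟩ := chain t0 t1 t2 t3 (53 + |x 0|) (1 / 10000) h0 h1 h2 h3 h4 h5
    (by norm_num)
  have k12 := ct_anti t1 t2 h1 h2 (by linarith)
  have k23 := ct_anti t2 t3 (by linarith) h3 h5
  by_cases hnear : 2 / 10000 ≤ s * (n - x 1)
  · refine core (-s) 0 (-s * x 0) s (-s * x 1) (by rcases ss with rfl | rfl <;> simp)
      (fun m => [-ct t1, -ct t2, -ct t3, -c4].getD m 0) (by simpa using k12) (by simpa using k23)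
      (by simpa using hc4) a b hab S0 S1 S2 S3 hm fun l hl k hk z hz => ?_
    have p : 1 / 10000 ≤ s * (z 1 - x 1) := by
      rcases nr l hl with rfl | rfl
      · linarith [fh k z hz]
      · linarith [(abs_le.mp (ht l k z hz)).1]
    obtain ⟨a1, a2, a3, a4, a5⟩ := ch _ _ p (hx l hl k hk z hz)
    simp only [List.getD_cons_zero, List.getD_cons_succ, m0, m1, m2, m3]
    exact ⟨by linarith, fun h => a1 (by linarith), fun h h' => a2 (by linarith) (by linarith),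
      fun h h' => a3 (by linarith) (by linarith), fun h h' => a4 (by linarith) (by linarith),
      fun h => a5 (by linarith)⟩
  · have chf := fun k (hk : k < 9) z (hz : z ∈ B f k) =>
      ch (s * (z 0 - x 0)) (s * (z 1 - x 1)) (by linarith [fh k z hz]) (hx f hf k hk z hz)
    have e1 : ∃ k < 9, ∃ v ∈ B f k, ct t2 * (s * (v 1 - x 1)) ≤ s * (v 0 - x 0) := by
      by_contra hc
      push Not at hc
      have := cover3 f S2 S3 S0 fun k hk z hz => by
        obtain ⟨-, -, a3, a4, a5⟩ := chf k hk z hz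
        rw [m0, m2, m3]
        rcases le_total (ct t3 * (s * (z 1 - x 1))) (s * (z 0 - x 0)) with b1 | b1
        · exact Or.inl (a3 (hc k hk z hz).le b1)
        rcases le_total (c4 * (s * (z 1 - x 1))) (s * (z 0 - x 0)) with b2 | b2
        · exact Or.inr (Or.inl (a4 b1 b2))
        · exact Or.inr (Or.inr (a5 b2))
      linarith [ab.1, ab.2.2]
    have e2 : ∃ k < 9, ∃ v ∈ B f k, s * (v 0 - x 0) ≤ ct t3 * (s * (v 1 - x 1)) := by
      by_contra hc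
      push Not at hc
      have := cover3 f S0 S1 S2 fun k hk z hz => by
        obtain ⟨a1, a2, a3, -, -⟩ := chf k hk z hz
        rw [m0, m1, m2]
        rcases le_total (ct t1 * (s * (z 1 - x 1))) (s * (z 0 - x 0)) with b1 | b1
        · exact Or.inl (a1 b1)
        rcases le_total (ct t2 * (s * (z 1 - x 1))) (s * (z 0 - x 0)) with b2 | b2
        · exact Or.inr (Or.inl (a2 b1 b2))
        · exact Or.inr (Or.inr (a3 b2 (hc k hk z hz).le))
      linarith [ab.1, ab.2.2]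
    obtain ⟨k1, hk1, v, hv, v1⟩ := e1
    obtain ⟨k2, hk2, v', hv', v2⟩ := e2
    have sm : ∀ k < 9, ∀ z ∈ B n k, z ∈ S2 → |z 0 - x 0| ≤ 1 := by
      intro k hk z hz hS
      obtain ⟨r, φ, r0, p1, p2, q1, q2⟩ := (m2 z).mp hS
      have a1 := ct_le t2 φ r (by linarith) (by linarith) (by linarith) r0 p1
      have a2 := le_ct t3 φ r (by linarith) h5 (by linarith) r0 p2
      have a3 : 0 ≤ r * sin φ :=
        mul_nonneg r0 (sin_nonneg_of_nonneg_of_le_pi (by linarith) (by linarith))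
      rw [← q1, ← q2] at a1 a2
      rw [← q2] at a3
      have a4 := (abs_le.mp (ht n k z hz)).2
      have b1 := abs_le.mp (blob_x hn hk hz)
      have b2 := abs_le.mp (blob_x hf hk1 hv)
      have b3 := abs_le.mp (blob_x hf hk2 hv')
      have b4 := fh k1 v hv
      have b5 := fh k2 v' hv'
      have d1 : s * (v 0 - x 0) ≤ s * (z 0 - x 0) + 106 := by
        rcases ss with rfl | rfl <;> linarith
      have d2 : s * (z 0 - x 0) - 106 ≤ s * (v' 0 - x 0) := by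
        rcases ss with rfl | rfl <;> linarith
      have d3 : |s * (z 0 - x 0)| ≤ 1 := by
        generalize s * (z 0 - x 0) = w0 at *
        generalize s * (z 1 - x 1) = w1 at *
        generalize s * (v 1 - x 1) = y at *
        generalize s * (v' 1 - x 1) = y' at *
        generalize ct t2 = c2 at *
        generalize ct t3 = c3 at *
        have w3 : w1 ≤ 3 / 10000 := by linarith
        rw [abs_le]
        constructor
        · by_contra hc
          have c0 : c3 < 0 := by by_contra h; nlinarith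
          nlinarith
        · by_contra hc
          have c0 : 0 < c2 := by by_contra h; nlinarith
          nlinarith
      rw [abs_le] at *
      rcases ss with rfl | rfl <;> constructor <;> linarith
    obtain ⟨-, -, n2, -⟩ := hm n hn
    have two : ∀ k < 9, ∃ k' < 9, k' ≠ k ∧ ∃ z ∈ B n k', z ∈ S2 := by
      intro k hk
      by_contra hc
      push Not at hc
      have := μ_one n k hk S2 hc
      linarith [ab.2.1]
    obtain ⟨k, hk, -, z, hz, zS⟩ := two 0 (by norm_num)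
    obtain ⟨k', hk', ne, z', hz', zS'⟩ := two k hk
    have a1 := abs_le.mp (sm k hk z hz zS)
    have a2 := abs_le.mp (sm k' hk' z' hz' zS')
    have a3 := abs_le.mp (near hz).1
    have a4 := abs_le.mp (near hz').1
    rcases lt_or_gt_of_ne ne with e | e
    · have := (Int.cast_le (R := ℝ)).mpr ((pos_facts n hn k' hk').2.2 k hk e)
      push_cast at this
      linarith
    · have := (Int.cast_le (R := ℝ)).mpr ((pos_facts n hn k hk).2.2 k' hk' e)
      push_cast at this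
      linarith

noncomputable def α : Fin 4 → ℝ := ![1 / 8, 3 / 8, 1 / 8, 3 / 8]

theorem no_point (x : E) (θ : Fin 4 → ℝ) (h1 : θ 0 < θ 1) (h2 : θ 1 < θ 2) (h3 : θ 2 < θ 3)
    (h4 : θ 3 < θ 0 + 2 * π) (hP : ∀ l < 2, FanPart (μ l) α x θ) : False := by
  have pp := pi_pos
  obtain ⟨s, t, hs, hc, hsn⟩ : ∃ s t : ℝ, ((s = 1 ∧ x 1 ≤ 1 / 2) ∨ (s = -1 ∧ 1 / 2 ≤ x 1)) ∧
      (∀ φ, cos (φ + t) = s * cos φ) ∧ ∀ φ, sin (φ + t) = s * sin φ := by
    rcases le_total (x 1) (1 / 2) with h | h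
    · exact ⟨1, 0, Or.inl ⟨rfl, h⟩, by simp, by simp⟩
    · exact ⟨-1, π, Or.inr ⟨rfl, h⟩, by simp [cos_add_pi], by simp [sin_add_pi]⟩
  have s2 : s * s = 1 := by rcases hs with ⟨rfl, -⟩ | ⟨rfl, -⟩ <;> norm_num
  obtain ⟨k, k1, k2⟩ : ∃ k : ℤ, θ 0 + (t - k * (2 * π)) ≤ 0 ∧
      0 < θ 0 + (t - k * (2 * π)) + 2 * π := by
    refine ⟨⌈(θ 0 + t) / (2 * π)⌉, ?_, ?_⟩
    · have := Int.le_ceil ((θ 0 + t) / (2 * π))
      rw [div_le_iff₀ (by positivity)] at this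
      linarith
    · have := Int.ceil_lt_add_one ((θ 0 + t) / (2 * π))
      rw [← sub_lt_iff_lt_add, lt_div_iff₀ (by positivity)] at this
      linarith
  have mem := C_shift s (t - k * (2 * π))
    (fun φ => by rw [← add_sub_assoc, cos_sub_int_mul_two_pi, hc])
    (fun φ => by rw [← add_sub_assoc, sin_sub_int_mul_two_pi, hsn]) s2 x
  generalize t - k * (2 * π) = u at *
  have hm : ∀ l < 2, (μ l).real (sector x (θ 0) (θ 1)) = (9 : ℕ) / 72 ∧
      (μ l).real (sector x (θ 1) (θ 2)) = (27 : ℕ) / 72 ∧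
      (μ l).real (sector x (θ 2) (θ 3)) = (9 : ℕ) / 72 ∧
      (μ l).real (sector x (θ 3) (θ 0 + 2 * π)) = (27 : ℕ) / 72 := fun l hl => by
    obtain ⟨a, b, c, d⟩ := hP l hl
    rw [a, b, c, d]
    simp [α]
    norm_num
  have e0 : θ 0 + 2 * π + u = θ 0 + u + 2 * π := by ring
  by_cases c1 : 0 < θ 1 + u
  · exact pointcore s x hs (θ 0 + u) (θ 1 + u) (θ 2 + u) (θ 3 + u) k1 c1 (by linarith)
      (by linarith) (by linarith) 9 27 (by simp) _ _ _ _ (fun z => mem z _ _) (fun z => mem z _ _)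
      (fun z => mem z _ _) (fun z => by rw [mem, e0]) hm
  by_cases c2 : 0 < θ 2 + u
  · exact pointcore s x hs (θ 1 + u) (θ 2 + u) (θ 3 + u) (θ 0 + u + 2 * π) (by linarith) c2
      (by linarith) (by linarith) (by linarith) 27 9 (by simp) _ _ _ _ (fun z => mem z _ _)
      (fun z => mem z _ _) (fun z => by rw [mem, e0]) (fun z => by rw [mem, C_per])
      fun l hl => ⟨(hm l hl).2.1, (hm l hl).2.2.1, (hm l hl).2.2.2, (hm l hl).1⟩
  by_cases c3 : 0 < θ 3 + u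
  · exact pointcore s x hs (θ 2 + u) (θ 3 + u) (θ 0 + u + 2 * π) (θ 1 + u + 2 * π) (by linarith)
      c3 (by linarith) (by linarith) (by linarith) 9 27 (by simp) _ _ _ _ (fun z => mem z _ _)
      (fun z => by rw [mem, e0]) (fun z => by rw [mem, C_per]) (fun z => by rw [mem, C_per])
      fun l hl => ⟨(hm l hl).2.2.1, (hm l hl).2.2.2, (hm l hl).1, (hm l hl).2.1⟩
  · exact pointcore s x hs (θ 3 + u) (θ 0 + u + 2 * π) (θ 1 + u + 2 * π) (θ 2 + u + 2 * π)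
      (by linarith) k2 (by linarith) (by linarith) (by linarith) 27 9 (by simp) _ _ _ _
      (fun z => by rw [mem, e0]) (fun z => by rw [mem, C_per]) (fun z => by rw [mem, C_per])
      (fun z => by rw [mem, C_per])
      fun l hl => ⟨(hm l hl).2.2.2, (hm l hl).1, (hm l hl).2.1, (hm l hl).2.2.1⟩

theorem no_par (u : E) (c : Fin 4 → ℝ) (h1 : c 0 < c 1) (h2 : c 1 < c 2)
    (h3 : c 2 < c 3) (j : Fin 4) (hP : ∀ l < 2, ParPart (μ l) α u c j) : False := by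
  obtain ⟨a, b, hab, e0, e1, e2, e3⟩ : ∃ a b : ℕ, ((a = 9 ∧ b = 27) ∨ (a = 27 ∧ b = 9)) ∧
      α j = a / 72 ∧ α (j + 1) = b / 72 ∧ α (j + 2) = a / 72 ∧ α (j + 3) = b / 72 := by
    fin_cases j
    · exact ⟨9, 27, by simp, by simp [α]; norm_num⟩
    · exact ⟨27, 9, by simp, by simp [α]; norm_num⟩
    · exact ⟨9, 27, by simp, by simp [α]; norm_num⟩
    · exact ⟨27, 9, by simp, by simp [α]; norm_num⟩
  simp only [ParPart, e0, e1, e2, e3] at hP
  have inn : ∀ z : E, inner ℝ u z = u 0 * z 0 + u 1 * z 1 := fun z => by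
    simp only [PiLp.inner_apply, Fin.sum_univ_two, RCLike.inner_apply, conj_trivial]; ring
  by_cases u0 : u 0 = 0
  · have ab : (9 : ℝ) ≤ b := by rcases hab with ⟨rfl, rfl⟩ | ⟨rfl, rfl⟩ <;> norm_num
    have ex : ∀ l < 2, ∀ A : Set E, (μ l).real A = b / 72 → ∃ z ∈ A, |z 1 - l| ≤ 1 / 10000 := by
      intro l hl A hA
      by_contra hc
      push Not at hc
      have := μ_one l 0 (by norm_num) A fun k _ _ z hz h => absurd (near hz).2 (not_le.mpr (hc z h))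
      linarith
    obtain ⟨z1, a1, b1⟩ := ex 0 (by norm_num) _ (hP 0 (by norm_num)).2.1
    obtain ⟨z2, a2, b2⟩ := ex 1 (by norm_num) _ (hP 1 (by norm_num)).2.1
    obtain ⟨z3, a3, b3⟩ := ex 0 (by norm_num) _ (hP 0 (by norm_num)).2.2.2
    obtain ⟨z4, a4, b4⟩ := ex 1 (by norm_num) _ (hP 1 (by norm_num)).2.2.2
    simp only [Set.mem_ofPred_eq, inn, u0, zero_mul, zero_add] at a1 a2 a3 a4
    simp only [abs_le, Nat.cast_zero, Nat.cast_one] at b1 b2 b3 b4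
    rcases le_total 0 (u 1) with h | h
    · have := mul_le_mul_of_nonneg_left (show z3 1 ≤ z2 1 by linarith) h
      linarith
    · have := mul_le_mul_of_nonpos_left (show z4 1 ≥ z1 1 by linarith) h
      linarith
  · obtain ⟨s, hs, p⟩ : ∃ s : ℝ, (s = 1 ∨ s = -1) ∧ 0 < s * u 0 := by
      rcases lt_or_gt_of_ne u0 with h | h
      · exact ⟨-1, by simp, by linarith⟩
      · exact ⟨1, by simp, by linarith⟩
    have s2 : s * s = 1 := by rcases hs with rfl | rfl <;> norm_num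
    refine core s (u 1 / (s * u 0)) 0 0 (1 / (s * u 0)) hs (fun m => [c 0, c 1, c 2, c 3].getD m 0)
      h1 h2 h3 a b hab _ _ _ _ hP fun l hl k hk z hz => ?_
    have e : s * z 0 + u 1 / (s * u 0) * z 1 - 0 = inner ℝ u z * (1 / (s * u 0)) := by
      rw [inn]
      rcases hs with rfl | rfl <;> field_simp <;> ring
    have q : 0 < 1 / (s * u 0) := by positivity
    simp only [e, zero_mul, zero_add, List.getD_cons_zero, List.getD_cons_succ,
      mul_le_mul_iff_left₀ q, Set.mem_ofPred_eq]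
    tauto

end Pool.Agent.H10.Fan
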