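import Pool.Agent.H10.FanDefs

set_option autoImplicit false

namespace Pool.Agent.H10.Fan
open MeasureTheory

def pos (l k : ℕ) : ℤ := 3 * ((k : ℤ) - 4) + l * (40 * (((k / 3 : ℕ) : ℤ) - 1))

noncomputable def ctr (l k : ℕ) : E := WithLp.toLp 2 ![(pos l k : ℝ), (l : ℝ)]

def B (l k : ℕ) : Set E := Metric.ball (ctr l k) (1 / 10000)

lemma near {l k : ℕ} {x : E} (h : x ∈ B l k) :
    |x 0 - pos l k| ≤ 1 / 10000 ∧ |x 1 - l| ≤ 1 / 10000 := by
  have h0 : dist x (ctr l k) < 1 / 10000 := h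
  have a := PiLp.dist_apply_le x (ctr l k) 0
  have b := PiLp.dist_apply_le x (ctr l k) 1
  rw [Real.dist_eq] at a b
  simp only [ctr, Matrix.cons_val_zero, Matrix.cons_val_one] at a b h0
  exact ⟨a.trans h0.le, b.trans h0.le⟩

lemma pos_facts : ∀ l < 2, ∀ k < 9, |pos l k| ≤ 52 ∧ pos l (8 - k) = - pos l k ∧
    ∀ k' < 9, k < k' → pos l k + 3 ≤ pos l k' := by decide

noncomputable def κ : ENNReal := volume (Metric.ball (0 : E) (1 / 10000))

lemma κ_ne : κ ≠ 0 := (Metric.measure_ball_pos volume _ (by norm_num)).ne'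
lemma κ_fin : κ ≠ ⊤ := measure_ball_lt_top.ne

lemma volB (l k : ℕ) : volume (B l k) = κ := by
  unfold B κ; rw [Measure.addHaar_ball_center]

noncomputable def μ (l : ℕ) : Measure E :=
  ∑ k ∈ Finset.range 9, (9 * κ)⁻¹ • volume.restrict (B l k)

lemma μ_apply (l : ℕ) (A : Set E) :
    μ l A = ∑ k ∈ Finset.range 9, (9 * κ)⁻¹ * volume (A ∩ B l k) := by
  unfold μ
  rw [Measure.finsetSum_apply]
  exact Finset.sum_congr rfl fun i _ => by
    rw [Measure.smul_apply, Measure.restrict_apply' (show MeasurableSet (B l i) from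
      measurableSet_ball), smul_eq_mul]

lemma unit : (9 * κ)⁻¹ * κ = 9⁻¹ := by
  rw [ENNReal.mul_inv (Or.inl (by norm_num)) (Or.inl (by norm_num)), mul_assoc,
    ENNReal.inv_mul_cancel κ_ne κ_fin, mul_one]

instance μ_prob (l : ℕ) : IsProbabilityMeasure (μ l) := ⟨by
  rw [μ_apply]
  simp only [Set.univ_inter, volB, unit, Finset.sum_const, Finset.card_range, nsmul_eq_mul]
  exact ENNReal.mul_inv_cancel (by norm_num) (by norm_num)⟩

lemma μ_ac (l : ℕ) : μ l ≪ volume := by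
  intro A hA
  rw [μ_apply]
  exact Finset.sum_eq_zero fun i _ => by
    rw [measure_mono_null Set.inter_subset_left hA, mul_zero]

lemma μ_mono (l : ℕ) (A A' : Set E) (h : ∀ k < 9, ∀ z ∈ B l k, z ∈ A → z ∈ A') :
    (μ l).real A ≤ (μ l).real A' := by
  refine ENNReal.toReal_mono (measure_ne_top _ _) ?_
  rw [μ_apply, μ_apply]
  refine Finset.sum_le_sum fun k hk => ?_
  have : A ∩ B l k ⊆ A' ∩ B l k := fun z hz =>
    ⟨h k (Finset.mem_range.mp hk) z hz.2 hz.1, hz.2⟩
  gcongr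

lemma μ_count (l : ℕ) (A : Set E) (T : Finset ℕ) (hT : T ⊆ Finset.range 9)
    (h : ∀ k ∈ T, B l k ⊆ A) : (T.card : ℝ) / 9 ≤ (μ l).real A := by
  have : (T.card : ENNReal) * 9⁻¹ ≤ μ l A := by
    rw [μ_apply, ← nsmul_eq_mul, ← Finset.sum_const]
    refine le_trans (le_of_eq (Finset.sum_congr rfl fun k hk => ?_))
      (Finset.sum_le_sum_of_subset hT)
    rw [Set.inter_eq_right.mpr (h k hk), volB, unit]
  have := ENNReal.toReal_mono (measure_ne_top _ _) this
  simpa [div_eq_mul_inv, Measure.real] using this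

lemma μ_one (l k : ℕ) (hk : k < 9) (A : Set E) (h : ∀ k' < 9, k' ≠ k → ∀ z ∈ B l k', z ∉ A) :
    (μ l).real A ≤ 1 / 9 := by
  have : μ l A ≤ 9⁻¹ := by
    rw [μ_apply, Finset.sum_eq_single k (fun k' hk' ne => by
      rw [Set.eq_empty_of_forall_notMem (s := A ∩ B l k')
        fun z hz => h k' (Finset.mem_range.mp hk') ne z hz.2 hz.1]; simp)]
    · rw [← unit, ← volB l k]
      gcongr
      exact Set.inter_subset_right
    · exact fun hc => absurd (Finset.mem_range.mpr hk) hc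
  have := ENNReal.toReal_mono (by norm_num) this
  simpa [Measure.real] using this

lemma cover3 (l : ℕ) (A B' C : Set E) (h : ∀ k < 9, ∀ z ∈ B l k, z ∈ A ∨ z ∈ B' ∨ z ∈ C) :
    1 ≤ (μ l).real A + (μ l).real B' + (μ l).real C := by
  have h1 := μ_mono l Set.univ (A ∪ B' ∪ C) fun k hk z hz _ => by
    rcases h k hk z hz with e | e | e <;> simp [e]
  have h2 := measureReal_union_le (μ := μ l) (A ∪ B') C
  have h3 := measureReal_union_le (μ := μ l) A B'
  rw [probReal_univ] at h1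
  linarith

lemma small (u d : ℝ) (hu : |u| ≤ 220) (hd : |d| ≤ 2 / 10000) : |u * d| ≤ 1 / 10 := by
  rw [abs_mul]
  exact (mul_le_mul hu hd (abs_nonneg _) (by norm_num)).trans (by norm_num)

lemma slope (c dx dy : ℝ) (h : 0 ≤ dx + c * dy) (h1 : dx ≤ 106) (h2 : 99 / 100 ≤ dy) :
    -110 ≤ c := by
  by_contra hc
  nlinarith

lemma triple (θ cf cg df dg y1 y2 xA yA xB yB xC yC xA' yA' xB' yB' xC' yC' : ℝ) (t0 : 0 ≤ θ)
    (t1 : θ ≤ 1) (hy : (y1 = 0 ∧ y2 = 1) ∨ (y1 = 1 ∧ y2 = 0))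
    (a : |xA| ≤ 53 ∧ |yA - y1| ≤ 1 / 10000) (b : |xB| ≤ 53 ∧ |yB - y1| ≤ 1 / 10000)
    (c : |xC| ≤ 53 ∧ |yC - y1| ≤ 1 / 10000) (a' : |xA'| ≤ 53 ∧ |yA' - y2| ≤ 1 / 10000)
    (b' : |xB'| ≤ 53 ∧ |yB' - y2| ≤ 1 / 10000) (c' : |xC'| ≤ 53 ∧ |yC' - y2| ≤ 1 / 10000)
    (fB : xB + cf * yB - df ≤ 0) (fB' : 0 ≤ xB' + cf * yB' - df)
    (gC : xC + cg * yC - dg ≤ 0) (gC' : 0 ≤ xC' + cg * yC' - dg)
    (hA : 0 ≤ xA + (θ * cf + (1 - θ) * cg) * yA - (θ * df + (1 - θ) * dg))
    (hA' : xA' + (θ * cf + (1 - θ) * cg) * yA' - (θ * df + (1 - θ) * dg) ≤ 0) :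
    θ * xB + (1 - θ) * xC - xA ≤ 1 / 2 ∧ xA' - θ * xB' - (1 - θ) * xC' ≤ 1 / 2 := by
  simp only [abs_le] at a b c a' b' c'
  have t2 : 0 ≤ 1 - θ := by linarith
  have uv : |θ * cf| ≤ 220 ∧ |(1 - θ) * cg| ≤ 220 := by
    rcases hy with ⟨rfl, rfl⟩ | ⟨rfl, rfl⟩
    · have s1 := slope cf (xB' - xB) (yB' - yB) (by linarith) (by linarith) (by linarith)
      have s2 := slope cg (xC' - xC) (yC' - yC) (by linarith) (by linarith) (by linarith)
      have s3 := slope (-(θ * cf + (1 - θ) * cg)) (xA - xA') (yA' - yA) (by linarith)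
        (by linarith) (by linarith)
      have := mul_le_mul_of_nonneg_left s1 t0
      have := mul_le_mul_of_nonneg_left s2 t2
      simp only [abs_le]
      refine ⟨⟨?_, ?_⟩, ?_, ?_⟩ <;> linarith
    · have s1 := slope (-cf) (xB' - xB) (yB - yB') (by linarith) (by linarith) (by linarith)
      have s2 := slope (-cg) (xC' - xC) (yC - yC') (by linarith) (by linarith) (by linarith)
      have s3 := slope (θ * cf + (1 - θ) * cg) (xA - xA') (yA - yA') (by linarith)
        (by linarith) (by linarith)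
      have := mul_le_mul_of_nonneg_left s1 t0
      have := mul_le_mul_of_nonneg_left s2 t2
      simp only [abs_le]
      refine ⟨⟨?_, ?_⟩, ?_, ?_⟩ <;> linarith
  have e1 := abs_le.mp (small _ (yA - yB) uv.1 (by rw [abs_le]; constructor <;> linarith))
  have e2 := abs_le.mp (small _ (yA - yC) uv.2 (by rw [abs_le]; constructor <;> linarith))
  have e3 := abs_le.mp (small _ (yA' - yB') uv.1 (by rw [abs_le]; constructor <;> linarith))
  have e4 := abs_le.mp (small _ (yA' - yC') uv.2 (by rw [abs_le]; constructor <;> linarith))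
  have := mul_nonneg t0 (neg_nonneg.mpr fB)
  have := mul_nonneg t2 (neg_nonneg.mpr gC)
  have := mul_nonneg t0 fB'
  have := mul_nonneg t2 gC'
  constructor <;> linarith

def off (a b m : ℕ) : ℕ := [0, b, a + b, a + 2 * b].getD m 0

def test (a b x y nx ny i j k : ℕ) : Bool :=
  decide (1 ≤ nx + off a b i) && decide (1 ≤ nx + off a b k) && decide (1 ≤ ny + off a b j) &&
    decide (nx + off a b j ≤ 71) && decide (ny + off a b i ≤ 71) && decide (ny + off a b k ≤ 71) &&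
    decide (pos x ((nx + off a b i - 1) / 8) ≤ pos x ((nx + off a b k - 1) / 8)) &&
    decide (pos y ((ny + off a b i) / 8) ≤ pos y ((ny + off a b k) / 8)) &&
    decide ((pos y ((ny + off a b k) / 8) - pos y ((ny + off a b j - 1) / 8) + 1) *
      (pos x ((nx + off a b k - 1) / 8) - pos x ((nx + off a b i - 1) / 8)) <
      (pos x ((nx + off a b k - 1) / 8) - pos x ((nx + off a b j) / 8) - 1) *
      (pos y ((ny + off a b k) / 8) - pos y ((ny + off a b i) / 8)))

def okn (a b n0 n1 : ℕ) : Bool :=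
  [(0, 1, 2), (0, 1, 3), (0, 2, 3), (1, 2, 3)].any fun t : ℕ × ℕ × ℕ =>
    test a b 0 1 n0 n1 t.1 t.2.1 t.2.2 || test a b 1 0 n1 n0 t.1 t.2.1 t.2.2

lemma check1 : ∀ n0 < 10, ∀ n1 < 10, okn 9 27 n0 n1 = true := by decide +kernel
lemma check2 : ∀ n0 < 28, ∀ n1 < 28, okn 27 9 n0 n1 = true := by decide +kernel

theorem core (s γ δ c' d' : ℝ) (hs : s = 1 ∨ s = -1) (r : ℕ → ℝ) (r01 : r 0 < r 1)
    (r12 : r 1 < r 2) (r23 : r 2 < r 3) (a b : ℕ) (hab : (a = 9 ∧ b = 27) ∨ (a = 27 ∧ b = 9))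
    (S0 S1 S2 S3 : Set E)
    (hm : ∀ l < 2, (μ l).real S0 = a / 72 ∧ (μ l).real S1 = b / 72 ∧ (μ l).real S2 = a / 72 ∧
      (μ l).real S3 = b / 72)
    (hS : ∀ l < 2, ∀ k < 9, ∀ z ∈ B l k, 0 < c' * z 1 + d' ∧
      (s * z 0 + γ * z 1 - δ ≤ r 0 * (c' * z 1 + d') → z ∈ S0) ∧
      (r 0 * (c' * z 1 + d') ≤ s * z 0 + γ * z 1 - δ →
        s * z 0 + γ * z 1 - δ ≤ r 1 * (c' * z 1 + d') → z ∈ S1) ∧
      (r 1 * (c' * z 1 + d') ≤ s * z 0 + γ * z 1 - δ →
        s * z 0 + γ * z 1 - δ ≤ r 2 * (c' * z 1 + d') → z ∈ S2) ∧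
      (r 2 * (c' * z 1 + d') ≤ s * z 0 + γ * z 1 - δ →
        s * z 0 + γ * z 1 - δ ≤ r 3 * (c' * z 1 + d') → z ∈ S3) ∧
      (r 3 * (c' * z 1 + d') ≤ s * z 0 + γ * z 1 - δ → z ∈ S0)) : False := by
  classical
  let L : ℕ → Set E := fun m => {z | s * z 0 + γ * z 1 - δ ≤ r m * (c' * z 1 + d')}
  let R : ℕ → Set E := fun m => {z | r m * (c' * z 1 + d') ≤ s * z 0 + γ * z 1 - δ}
  have tot : ∀ m z, z ∉ L m → z ∈ R m := fun m z h =>
    show r m * (c' * z 1 + d') ≤ s * z 0 + γ * z 1 - δ from le_of_not_ge h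
  have tot' : ∀ m z, z ∉ R m → z ∈ L m := fun m z h =>
    show s * z 0 + γ * z 1 - δ ≤ r m * (c' * z 1 + d') from le_of_not_ge h
  have ab : (a : ℝ) + b = 36 := by rcases hab with ⟨rfl, rfl⟩ | ⟨rfl, rfl⟩ <;> norm_num
  have key : ∀ l < 2, ∃ n ≤ a, ∀ m < 4, 72 * (μ l).real (L m) < n + 1 + off a b m ∧
      72 * (μ l).real (R m) ≤ 72 - (n + off a b m) := by
    intro l hl
    obtain ⟨m0, m1, m2, m3⟩ := hm l hl
    have un : ∀ A A' C : Set E, (∀ k < 9, ∀ z ∈ B l k, z ∈ A → z ∈ A' ∨ z ∈ C) →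
        (μ l).real A ≤ (μ l).real A' + (μ l).real C := fun A A' C h =>
      (μ_mono l A (A' ∪ C) h).trans (measureReal_union_le _ _)
    have l1 := un (L 1) (L 0) S1 fun k hk z hz h => by
      by_cases e : z ∈ L 0
      · exact Or.inl e
      · exact Or.inr ((hS l hl k hk z hz).2.2.1 (tot _ _ e) h)
    have l2 := un (L 2) (L 1) S2 fun k hk z hz h => by
      by_cases e : z ∈ L 1
      · exact Or.inl e
      · exact Or.inr ((hS l hl k hk z hz).2.2.2.1 (tot _ _ e) h)
    have l3 := un (L 3) (L 2) S3 fun k hk z hz h => by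
      by_cases e : z ∈ L 2
      · exact Or.inl e
      · exact Or.inr ((hS l hl k hk z hz).2.2.2.2.1 (tot _ _ e) h)
    have q2 := un (R 2) (R 3) S3 fun k hk z hz h => by
      by_cases e : z ∈ R 3
      · exact Or.inl e
      · exact Or.inr ((hS l hl k hk z hz).2.2.2.2.1 h (tot' _ _ e))
    have q1 := un (R 1) (R 2) S2 fun k hk z hz h => by
      by_cases e : z ∈ R 2
      · exact Or.inl e
      · exact Or.inr ((hS l hl k hk z hz).2.2.2.1 h (tot' _ _ e))
    have q0 := un (R 0) (R 1) S1 fun k hk z hz h => by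
      by_cases e : z ∈ R 1
      · exact Or.inl e
      · exact Or.inr ((hS l hl k hk z hz).2.2.1 h (tot' _ _ e))
    have mL : MeasurableSet (L 0) := (isClosed_le (by fun_prop) (by fun_prop)).measurableSet
    have d1 := measureReal_inter_add_sdiff (μ := μ l) (s := S0) mL
    have d2 := μ_mono l (L 0) (S0 ∩ L 0) fun k hk z hz h => ⟨(hS l hl k hk z hz).2.1 h, h⟩
    have d3 := μ_mono l (R 3) (S0 \ L 0) fun k hk z hz h =>
      ⟨(hS l hl k hk z hz).2.2.2.2.2 h, fun h' => by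
        have p := (hS l hl k hk z hz).1
        have := mul_lt_mul_of_pos_right (r01.trans (r12.trans r23)) p
        have h1 : s * z 0 + γ * z 1 - δ ≤ r 0 * (c' * z 1 + d') := h'
        have h2 : r 3 * (c' * z 1 + d') ≤ s * z 0 + γ * z 1 - δ := h
        linarith⟩
    have t0 : 0 ≤ 72 * (μ l).real (L 0) := by positivity
    have t1 : 0 ≤ (μ l).real (R 3) := by positivity
    have f1 := Nat.floor_le t0
    have f2 := Nat.lt_floor_add_one (72 * (μ l).real (L 0))
    refine ⟨⌊72 * (μ l).real (L 0)⌋₊, Nat.floor_le_of_le (by linarith), fun m hm => ?_⟩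
    interval_cases m <;> simp only [off, List.getD_cons_zero, List.getD_cons_succ] <;>
      push_cast <;> constructor <;> linarith
  choose! n hn hk using key
  let ι : ℕ → ℕ := fun k => if s = 1 then k else 8 - k
  have ι9 : ∀ k < 9, ι k < 9 := fun k hk => by simp only [ι]; split_ifs <;> omega
  have ιi : ∀ k < 9, ∀ k' < 9, ι k = ι k' → k = k' := fun k hk k' hk' h => by
    simp only [ι] at h; split_ifs at h <;> omega
  have bp : ∀ l < 2, ∀ k < 9, ∀ z ∈ B l (ι k), |s * z 0 - pos l k| ≤ 1 / 10000 ∧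
      |s * z 0| ≤ 53 ∧ |z 1 - l| ≤ 1 / 10000 := by
    intro l hl k hk z hz
    have h1 := near hz
    have h2 := pos_facts l hl k hk
    have h3 : |(pos l k : ℝ)| ≤ 52 := by exact_mod_cast h2.1
    have h4 : |s * z 0 - pos l k| ≤ 1 / 10000 := by
      rcases hs with rfl | rfl
      · simpa [ι] using h1.1
      · have e : ι k = 8 - k := if_neg (by norm_num)
        rw [e, h2.2.1] at h1
        push_cast at h1
        rw [← abs_neg]
        convert h1.1 using 2
        ring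
    refine ⟨h4, ?_, h1.2⟩
    rw [abs_le] at *
    constructor <;> linarith
  have mono : ∀ l < 2, ∀ k < 9, ∀ k' < 9, k ≤ k' → (pos l k : ℝ) ≤ pos l k' := by
    intro l hl k hk k' hk' h
    rcases h.eq_or_lt with rfl | h
    · exact le_rfl
    · have := (pos_facts l hl k hk).2.2 k' hk' h
      exact_mod_cast (by omega : pos l k ≤ pos l k')
  have cnt : ∀ l (A : Set E) (T : Finset ℕ), T ⊆ Finset.range 9 → (∀ k ∈ T, B l (ι k) ⊆ A) →
      (T.card : ℝ) / 9 ≤ (μ l).real A := by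
    intro l A T hT h
    have := μ_count l A (T.image ι) (fun k hk => by
      obtain ⟨k, hk', rfl⟩ := Finset.mem_image.mp hk
      exact Finset.mem_range.mpr (ι9 k (Finset.mem_range.mp (hT hk')))) (fun k hk => by
      obtain ⟨k, hk', rfl⟩ := Finset.mem_image.mp hk
      exact h k hk')
    rwa [Finset.card_image_of_injOn fun k hk k' hk' =>
      ιi k (Finset.mem_range.mp (hT hk)) k' (Finset.mem_range.mp (hT hk'))] at this
  have ptL : ∀ l < 2, ∀ m < 4, 1 ≤ n l + off a b m → ∃ z : E,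
      (pos l ((n l + off a b m - 1) / 8) : ℝ) - 1 / 10000 ≤ s * z 0 ∧
        (|s * z 0| ≤ 53 ∧ |z 1 - l| ≤ 1 / 10000) ∧ z ∈ L m := by
    intro l hl m hm h1
    by_contra hc
    push Not at hc
    have h2 := (hk l hl m hm).2
    have p : 0 ≤ (μ l).real (R m) := by positivity
    have h3 : n l + off a b m ≤ 72 := by
      have : ((n l + off a b m : ℕ) : ℝ) ≤ 72 := by push_cast; linarith
      exact_mod_cast this
    have h4 := cnt l (R m) (Finset.Ico ((n l + off a b m - 1) / 8) 9)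
      (fun k hk => by simp at hk ⊢; omega) (fun k hk z hz => by
        rw [Finset.mem_Ico] at hk
        have b1 := bp l hl k hk.2 z hz
        have b2 := mono l hl _ (by omega) k hk.2 hk.1
        exact tot _ _ (hc z (by linarith [(abs_le.mp b1.1).1]) b1.2))
    rw [Nat.card_Ico] at h4
    have h5 : ((8 * (9 - (n l + off a b m - 1) / 8) + (n l + off a b m) : ℕ) : ℝ) ≤ 72 := by
      rw [Nat.cast_add, Nat.cast_mul, Nat.cast_add]; push_cast; linarith
    have h6 : 8 * (9 - (n l + off a b m - 1) / 8) + (n l + off a b m) ≤ 72 := by exact_mod_cast h5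
    omega
  have ptR : ∀ l < 2, ∀ m < 4, n l + off a b m ≤ 71 → ∃ z : E,
      s * z 0 ≤ (pos l ((n l + off a b m) / 8) : ℝ) + 1 / 10000 ∧
        (|s * z 0| ≤ 53 ∧ |z 1 - l| ≤ 1 / 10000) ∧ z ∈ R m := by
    intro l hl m hm h1
    by_contra hc
    push Not at hc
    have h2 := (hk l hl m hm).1
    have h4 := cnt l (L m) (Finset.range ((n l + off a b m) / 8 + 1))
      (fun k hk => by simp at hk ⊢; omega) (fun k hk z hz => by
        rw [Finset.mem_range] at hk
        have b1 := bp l hl k (by omega) z hz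
        have b2 := mono l hl k (by omega) ((n l + off a b m) / 8) (by omega) (by omega)
        exact tot' _ _ (hc z (by linarith [(abs_le.mp b1.1).2]) b1.2))
    rw [Finset.card_range] at h4
    have h5 : ((8 * ((n l + off a b m) / 8 + 1) : ℕ) : ℝ) < (n l + off a b m + 1 : ℕ) := by
      rw [Nat.cast_mul]; push_cast at h4 ⊢; linarith
    have h6 : 8 * ((n l + off a b m) / 8 + 1) < n l + off a b m + 1 := by exact_mod_cast h5
    omega
  have fin : ∀ x y i j k : ℕ, (x = 0 ∧ y = 1) ∨ (x = 1 ∧ y = 0) → i < 4 → j < 4 → k < 4 →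
      r i < r j → r j < r k → test a b x y (n x) (n y) i j k = true → False := by
    intro x y i j k hxy hi hj hk' rij rjk ht
    have hx : x < 2 := by omega
    have hy : y < 2 := by omega
    simp only [test, Bool.and_eq_true, decide_eq_true_eq] at ht
    obtain ⟨⟨⟨⟨⟨⟨⟨⟨c1, c2⟩, c3⟩, c4⟩, c5⟩, c6⟩, c7⟩, c8⟩, c9⟩ := ht
    obtain ⟨zB, b1, b2, b3⟩ := ptL x hx i hi c1
    obtain ⟨zC, e1, e2, e3⟩ := ptL x hx k hk' c2
    obtain ⟨zA', f1, f2, f3⟩ := ptL y hy j hj c3
    obtain ⟨zA, g1, g2, g3⟩ := ptR x hx j hj c4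
    obtain ⟨zB', h1, h2, h3⟩ := ptR y hy i hi c5
    obtain ⟨zC', i1, i2, i3⟩ := ptR y hy k hk' c6
    simp only [L, R, Set.mem_ofPred_eq] at b3 e3 f3 g3 h3 i3
    have D : 0 < r k - r i := by linarith
    obtain ⟨θ, t0, t1, hθ⟩ : ∃ θ : ℝ, 0 ≤ θ ∧ θ ≤ 1 ∧ r j = θ * r i + (1 - θ) * r k :=
      ⟨(r k - r j) / (r k - r i), div_nonneg (by linarith) D.le,
        (div_le_one D).mpr (by linarith), by field_simp; ring⟩
    rw [hθ] at f3 g3
    have T := triple θ (γ - r i * c') (γ - r k * c') (δ + r i * d') (δ + r k * d') x y _ _ _ _ _ _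
      _ _ _ _ _ _ t0 t1 (by rcases hxy with ⟨rfl, rfl⟩ | ⟨rfl, rfl⟩ <;> simp) g2 b2 e2 f2 h2 i2
      (by linarith) (by linarith) (by linarith) (by linarith) (by linarith) (by linarith)
    have c7' := (Int.cast_le (R := ℝ)).mpr c7
    have c8' := (Int.cast_le (R := ℝ)).mpr c8
    have c9' := (Int.cast_lt (R := ℝ)).mpr c9
    push_cast at c9'
    generalize (pos x ((n x + off a b i - 1) / 8) : ℝ) = lB at *
    generalize (pos x ((n x + off a b k - 1) / 8) : ℝ) = lC at *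
    generalize (pos x ((n x + off a b j) / 8) : ℝ) = hA at *
    generalize (pos y ((n y + off a b j - 1) / 8) : ℝ) = lA at *
    generalize (pos y ((n y + off a b i) / 8) : ℝ) = hB at *
    generalize (pos y ((n y + off a b k) / 8) : ℝ) = hC at *
    have t2 : 0 ≤ 1 - θ := by linarith
    have u1 := mul_le_mul_of_nonneg_left b1 t0
    have u2 := mul_le_mul_of_nonneg_left e1 t2
    have u3 := mul_le_mul_of_nonneg_left h1 t0
    have u4 := mul_le_mul_of_nonneg_left i1 t2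
    have v1 : lC - hA - 1 ≤ θ * (lC - lB) := by linarith [T.1]
    have v2 : θ * (hC - hB) ≤ hC - lA + 1 := by linarith [T.2]
    have w1 := mul_le_mul_of_nonneg_right v1 (sub_nonneg.mpr c8')
    have w2 := mul_le_mul_of_nonneg_right v2 (sub_nonneg.mpr c7')
    linarith
  have ok : okn a b (n 0) (n 1) = true := by
    have h0 := hn 0 (by norm_num)
    have h1 := hn 1 (by norm_num)
    rcases hab with ⟨rfl, rfl⟩ | ⟨rfl, rfl⟩
    · exact check1 _ (by omega) _ (by omega)
    · exact check2 _ (by omega) _ (by omega)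
  simp only [okn, List.any_cons, List.any_nil, Bool.or_false, Bool.or_eq_true] at ok
  have r02 := r01.trans r12
  have r13 := r12.trans r23
  rcases ok with (h | h) | (h | h) | (h | h) | (h | h) <;>
    exact fin _ _ _ _ _ (by simp) (by norm_num) (by norm_num) (by norm_num) (by assumption)
      (by assumption) h

end Pool.Agent.H10.Fan
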