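import Mathlib

set_option autoImplicit false

namespace Pool.Agent.H10.Fan
open MeasureTheory

abbrev E := EuclideanSpace ℝ (Fin 2)

/-- closed sector with apex `x` swept counterclockwise from direction angle `a` to angle `b` -/
def sector (x : E) (a b : ℝ) : Set E :=
  {z | ∃ r φ : ℝ, 0 ≤ r ∧ a ≤ φ ∧ φ ≤ b ∧ z 0 = x 0 + r * Real.cos φ ∧ z 1 = x 1 + r * Real.sin φ}

/-- the 4-fan with apex `x` and ray angles `θ` is an `α`-partition of `μ` -/
def FanPart (μ : Measure E) (α : Fin 4 → ℝ) (x : E) (θ : Fin 4 → ℝ) : Prop :=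
  μ.real (sector x (θ 0) (θ 1)) = α 0 ∧ μ.real (sector x (θ 1) (θ 2)) = α 1 ∧
    μ.real (sector x (θ 2) (θ 3)) = α 2 ∧ μ.real (sector x (θ 3) (θ 0 + 2 * Real.pi)) = α 3

/-- the degenerate 4-fan of four parallel lines `⟨u, z⟩ = c i`, with labels shifted by `j`, is an
`α`-partition of `μ`; one sector is the union of the two outer half-planes -/
def ParPart (μ : Measure E) (α : Fin 4 → ℝ) (u : E) (c : Fin 4 → ℝ) (j : Fin 4) : Prop :=
  μ.real {z | inner ℝ u z ≤ c 0 ∨ c 3 ≤ inner ℝ u z} = α j ∧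
    μ.real {z | c 0 ≤ inner ℝ u z ∧ inner ℝ u z ≤ c 1} = α (j + 1) ∧
    μ.real {z | c 1 ≤ inner ℝ u z ∧ inner ℝ u z ≤ c 2} = α (j + 2) ∧
    μ.real {z | c 2 ≤ inner ℝ u z ∧ inner ℝ u z ≤ c 3} = α (j + 3)

end Pool.Agent.H10.Fan
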