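import Pool.Agent.H10.FiveData
import Pool.Agent.H10.FivePar

set_option autoImplicit false

namespace Pool.Agent.H10.Five
open Pool.Agent.H10.Rup Pool.Agent.H10.FiveData

def val (s : Bool) (x : ℝ) : Prop := Bool.rec (x < 0) (0 < x) s

lemma val_neg (s : Bool) (x : ℝ) : val (!s) (-x) ↔ val s x := by cases s <;> simp [val]

lemma val_not {s : Bool} {x : ℝ} (h : x ≠ 0) (h1 : ¬ val s x) : val (!s) x := by
  cases s
  · exact lt_of_le_of_ne (not_lt.mp h1) h.symm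
  · exact lt_of_le_of_ne (not_lt.mp h1) h

lemma val_mul {s t : Bool} {x y : ℝ} (h : val s x) (h1 : val t y) : val (s == t) (x * y) := by
  cases s <;> cases t
  · exact mul_pos_of_neg_of_neg h h1
  · exact mul_neg_of_neg_of_pos h h1
  · exact mul_neg_of_pos_of_neg h h1
  · exact mul_pos h h1

abbrev Dt := ℕ → ℕ → ℕ → ℕ → ℝ

def nib (q k : ℕ) : ℕ := Nat.land (Nat.shiftRight q (Nat.mul 4 k)) 15

noncomputable def code (v : ℕ) : ℕ := Nat.land (Nat.shiftRight big (Nat.mul 16 v)) 65535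

noncomputable def dv (D : Dt) (v : ℕ) : ℝ :=
  D (nib (code v) 0) (nib (code v) 1) (nib (code v) 2) (nib (code v) 3)

def Lit (D : Dt) (j : ℕ) : Prop :=
  (64 ≤ j ∧ j < 394 ∧ 0 < dv D (j - 64)) ∨ (394 ≤ j ∧ j < 724 ∧ dv D (j - 394) < 0)

lemma good (D : Dt) : Good 330 (Lit D) := by
  refine ⟨fun j hj h => by rcases h with h | h <;> omega, fun j h h' => ?_⟩
  rcases h with h | h <;> rcases h' with h' | h'
  · omega
  · have e : j + 330 - 394 = j - 64 := by omega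
    rw [e] at h'
    linarith [h.2.2, h'.2.2]
  · omega
  · omega

def rank (a b c e : ℕ) : ℕ :=
  329 - ((10 - a) * (9 - a) * (8 - a) * (7 - a) / 24 + (10 - b) * (9 - b) * (8 - b) / 6 +
    (10 - c) * (9 - c) / 2 + (10 - e))

abbrev Ck := Bool → ℕ → ℕ → ℕ → ℕ → Bool

noncomputable def base (d : ℕ) : Ck := fun s a b c e =>
  Nat.blt a b && Nat.blt b c && Nat.blt c e && Nat.blt e 11 && Nat.blt (rank a b c e) 330 &&
    Nat.beq (nib (code (rank a b c e)) 0) a && Nat.beq (nib (code (rank a b c e)) 1) b &&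
    Nat.beq (nib (code (rank a b c e)) 2) c && Nat.beq (nib (code (rank a b c e)) 3) e &&
    Nat.testBit d (Bool.rec (394 + rank a b c e) (64 + rank a b c e) s)

def ce1 (k : Ck) : Ck := fun s a b c e => Bool.rec (k s a b c e) (k (!s) b a c e) (Nat.blt b a)
def ce2 (k : Ck) : Ck := fun s a b c e => Bool.rec (k s a b c e) (k (!s) a c b e) (Nat.blt c b)
def ce3 (k : Ck) : Ck := fun s a b c e => Bool.rec (k s a b c e) (k (!s) a b e c) (Nat.blt e c)

noncomputable def chk (d : ℕ) : Ck := ce1 (ce2 (ce3 (ce1 (ce2 (ce1 (base d))))))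

structure Alt (D : Dt) : Prop where
  s1 : ∀ a b c e, D b a c e = - D a b c e
  s2 : ∀ a b c e, D a c b e = - D a b c e
  s3 : ∀ a b c e, D a b e c = - D a b c e
  nz : ∀ a b c e, a < b → b < c → c < e → e < 11 → D a b c e ≠ 0

def Ok (D : Dt) (d : ℕ) (k : Ck) : Prop :=
  ∀ s a b c e, k s a b c e = true → D a b c e ≠ 0 ∧ (val s (D a b c e) → Sat (Lit D) d)

lemma ok_base (D : Dt) (hD : Alt D) (d : ℕ) : Ok D d (base d) := by
  intro s a b c e h
  simp only [base, Bool.and_eq_true, Nat.blt_eq, Nat.beq_eq] at h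
  obtain ⟨⟨⟨⟨⟨⟨⟨⟨⟨h1, h2⟩, h3⟩, h4⟩, h5⟩, h6⟩, h7⟩, h8⟩, h9⟩, h10⟩ := h
  refine ⟨hD.nz a b c e h1 h2 h3 h4, fun hv => ⟨_, h10, ?_⟩⟩
  have e1 : dv D (rank a b c e) = D a b c e := by unfold dv; rw [h6, h7, h8, h9]
  cases s
  · right
    refine ⟨by simp, by show 394 + _ < 724; omega, ?_⟩
    show dv D (394 + rank a b c e - 394) < 0
    rw [Nat.add_sub_cancel_left, e1]; exact hv
  · left
    refine ⟨by simp, by show 64 + _ < 394; omega, ?_⟩
    show 0 < dv D (64 + rank a b c e - 64)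
    rw [Nat.add_sub_cancel_left, e1]; exact hv

lemma flip {D : Dt} {d : ℕ} {s : Bool} {x y : ℝ} (e : x = -y)
    (h : x ≠ 0 ∧ (val (!s) x → Sat (Lit D) d)) : y ≠ 0 ∧ (val s y → Sat (Lit D) d) := by
  subst e
  exact ⟨fun h0 => h.1 (by simp [h0]), fun hv => h.2 ((val_neg s y).mpr hv)⟩

lemma ok1 (D : Dt) (hD : Alt D) (d : ℕ) (k : Ck) (hk : Ok D d k) : Ok D d (ce1 k) := by
  intro s a b c e h
  unfold ce1 at h
  cases h1 : Nat.blt b a <;> rw [h1] at h
  · exact hk _ _ _ _ _ h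
  · exact flip (hD.s1 a b c e) (hk _ _ _ _ _ h)

lemma ok2 (D : Dt) (hD : Alt D) (d : ℕ) (k : Ck) (hk : Ok D d k) : Ok D d (ce2 k) := by
  intro s a b c e h
  unfold ce2 at h
  cases h1 : Nat.blt c b <;> rw [h1] at h
  · exact hk _ _ _ _ _ h
  · exact flip (hD.s2 a b c e) (hk _ _ _ _ _ h)

lemma ok3 (D : Dt) (hD : Alt D) (d : ℕ) (k : Ck) (hk : Ok D d k) : Ok D d (ce3 k) := by
  intro s a b c e h
  unfold ce3 at h
  cases h1 : Nat.blt e c <;> rw [h1] at h
  · exact hk _ _ _ _ _ h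
  · exact flip (hD.s3 a b c e) (hk _ _ _ _ _ h)

lemma ok_chk (D : Dt) (hD : Alt D) (d : ℕ) : Ok D d (chk d) :=
  ok1 D hD d _ (ok2 D hD d _ (ok3 D hD d _ (ok1 D hD d _ (ok2 D hD d _ (ok1 D hD d _
    (ok_base D hD d))))))

def eid (i j : ℕ) : ℕ := i * (9 - i) / 2 + j - i - 1
def ix (u j : ℕ) : ℕ := Bool.rec (Bool.rec (eid j u) (eid u j) (Nat.blt u j)) 10 (Nat.beq u 5)
def sg (u j : ℕ) : Bool := Nat.beq u 5 || Nat.blt u j
def allowed (i k u j : ℕ) : Bool :=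
  Nat.beq u 5 || ((Nat.beq u i || Nat.beq u k) && !Nat.beq j i && !Nat.beq j k && Nat.blt j 5)
def dist5 (i a b c e : ℕ) : Bool :=
  Nat.blt i 5 && Nat.blt a 5 && Nat.blt b 5 && Nat.blt c 5 && Nat.blt e 5 &&
    Nat.beq (2 ^ i + 2 ^ a + 2 ^ b + 2 ^ c + 2 ^ e) 31

structure Hyp (D : Dt) : Prop extends Alt D where
  gp : ∀ a b p q r s, D a b p q * D a b r s - D a b p r * D a b q s + D a b p s * D a b q r = 0
  hC : ∀ i k, i < k → k < 5 → ∃ y : ℕ → ℝ,
    (∀ l0 l1 l2 l3, D (eid i k) l1 l2 l3 * y l0 - D (eid i k) l0 l2 l3 * y l1 +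
      D (eid i k) l0 l1 l3 * y l2 - D (eid i k) l0 l1 l2 * y l3 = 0) ∧
    ∀ u j, allowed i k u j = true → val (sg u j) (y (ix u j))
  hS : ∀ i a b c e, dist5 i a b c e = true →
    val (!(sg i a == sg i b)) (D 10 (ix i a) (ix i c) (ix i e) * D 10 (ix i b) (ix i c) (ix i e))
  h0 : 0 < D 0 1 2 3

noncomputable def cl0 (d a b p q r s : ℕ) (g s1 s2 s3 : Bool) : Bool :=
  chk d (!s1) a b p q && chk d (!(g == s1)) a b r s && chk d s2 a b p r &&
    chk d (!(g == s2)) a b q s && chk d (!s3) a b p s && chk d (!(g == s3)) a b q r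

lemma cl0_sound (D : Dt) (hD : Hyp D) (d a b p q r s : ℕ) (g s1 s2 s3 : Bool)
    (h : cl0 d a b p q r s g s1 s2 s3 = true) : Sat (Lit D) d := by
  simp only [cl0, Bool.and_eq_true] at h
  obtain ⟨⟨⟨⟨⟨h1, h2⟩, h3⟩, h4⟩, h5⟩, h6⟩ := h
  have k := ok_chk D hD.toAlt d
  by_contra hc
  have t : ∀ s a b c e, chk d s a b c e = true → val (!s) (D a b c e) := fun s a b c e h =>
    val_not (k s a b c e h).1 fun hv => hc ((k s a b c e h).2 hv)
  have a1 := val_mul (t _ _ _ _ _ h1) (t _ _ _ _ _ h2)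
  have a2 := val_mul (t _ _ _ _ _ h3) (t _ _ _ _ _ h4)
  have a3 := val_mul (t _ _ _ _ _ h5) (t _ _ _ _ _ h6)
  have := hD.gp a b p q r s
  cases g <;> cases s1 <;> cases s2 <;> cases s3 <;> simp [val] at a1 a2 a3 <;> linarith

noncomputable def cl1 (d i k u0 j0 u1 j1 u2 j2 u3 j3 : ℕ) (g : Bool) : Bool :=
  Nat.blt i k && Nat.blt k 5 && allowed i k u0 j0 && allowed i k u1 j1 && allowed i k u2 j2 &&
    allowed i k u3 j3 &&
    chk d (g == sg u0 j0) (eid i k) (ix u1 j1) (ix u2 j2) (ix u3 j3) &&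
    chk d (!(g == sg u1 j1)) (eid i k) (ix u0 j0) (ix u2 j2) (ix u3 j3) &&
    chk d (g == sg u2 j2) (eid i k) (ix u0 j0) (ix u1 j1) (ix u3 j3) &&
    chk d (!(g == sg u3 j3)) (eid i k) (ix u0 j0) (ix u1 j1) (ix u2 j2)

lemma cl1_sound (D : Dt) (hD : Hyp D) (d i k u0 j0 u1 j1 u2 j2 u3 j3 : ℕ) (g : Bool)
    (h : cl1 d i k u0 j0 u1 j1 u2 j2 u3 j3 g = true) : Sat (Lit D) d := by
  simp only [cl1, Bool.and_eq_true, Nat.blt_eq] at h
  obtain ⟨⟨⟨⟨⟨⟨⟨⟨⟨hi, hk⟩, b0⟩, b1⟩, b2⟩, b3⟩, h0⟩, h1⟩, h2⟩, h3⟩ := h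
  have kk := ok_chk D hD.toAlt d
  by_contra hc
  have t : ∀ s a b c e, chk d s a b c e = true → val (!s) (D a b c e) := fun s a b c e h =>
    val_not (kk s a b c e h).1 fun hv => hc ((kk s a b c e h).2 hv)
  obtain ⟨y, hy, hv⟩ := hD.hC i k hi hk
  have a0 := val_mul (t _ _ _ _ _ h0) (hv _ _ b0)
  have a1 := val_mul (t _ _ _ _ _ h1) (hv _ _ b1)
  have a2 := val_mul (t _ _ _ _ _ h2) (hv _ _ b2)
  have a3 := val_mul (t _ _ _ _ _ h3) (hv _ _ b3)
  have := hy (ix u0 j0) (ix u1 j1) (ix u2 j2) (ix u3 j3)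
  generalize sg u0 j0 = s0 at a0
  generalize sg u1 j1 = s1 at a1
  generalize sg u2 j2 = s2 at a2
  generalize sg u3 j3 = s3 at a3
  cases g <;> cases s0 <;> cases s1 <;> cases s2 <;> cases s3 <;> simp [val] at a0 a1 a2 a3 <;>
    linarith

noncomputable def cl2 (d i a b c e : ℕ) (g : Bool) : Bool :=
  dist5 i a b c e && chk d (g == sg i a) 10 (ix i a) (ix i c) (ix i e) &&
    chk d (g == sg i b) 10 (ix i b) (ix i c) (ix i e)

lemma cl2_sound (D : Dt) (hD : Hyp D) (d i a b c e : ℕ) (g : Bool)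
    (h : cl2 d i a b c e g = true) : Sat (Lit D) d := by
  simp only [cl2, Bool.and_eq_true] at h
  obtain ⟨⟨h0, h1⟩, h2⟩ := h
  have kk := ok_chk D hD.toAlt d
  by_contra hc
  have t : ∀ s a b c e, chk d s a b c e = true → val (!s) (D a b c e) := fun s a b c e h =>
    val_not (kk s a b c e h).1 fun hv => hc ((kk s a b c e h).2 hv)
  have a0 := val_mul (t _ _ _ _ _ h1) (t _ _ _ _ _ h2)
  have := hD.hS i a b c e h0
  generalize sg i a = s0 at a0 this
  generalize sg i b = s1 at a0 this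
  cases g <;> cases s0 <;> cases s1 <;> simp [val] at a0 this <;> linarith

def bit (q k : ℕ) : Bool := Nat.beq (nib q k) 1

noncomputable def cl (d q : ℕ) : Bool :=
  Bool.rec (Bool.rec (Bool.rec (chk d true 0 1 2 3)
    (cl2 d (nib q 1) (nib q 2) (nib q 3) (nib q 4) (nib q 5) (bit q 6)) (Nat.beq (nib q 0) 2))
    (cl1 d (nib q 1) (nib q 2) (nib q 3) (nib q 4) (nib q 5) (nib q 6) (nib q 7) (nib q 8)
      (nib q 9) (nib q 10) (bit q 11)) (Nat.beq (nib q 0) 1))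
    (cl0 d (nib q 1) (nib q 2) (nib q 3) (nib q 4) (nib q 5) (nib q 6) (bit q 7) (bit q 8)
      (bit q 9) (bit q 10)) (Nat.beq (nib q 0) 0)

lemma cl_sound (D : Dt) (hD : Hyp D) (d q : ℕ) (h : cl d q = true) : Sat (Lit D) d := by
  unfold cl at h
  cases h0 : Nat.beq (nib q 0) 0 <;> rw [h0] at h
  · cases h1 : Nat.beq (nib q 0) 1 <;> rw [h1] at h
    · cases h2 : Nat.beq (nib q 0) 2 <;> rw [h2] at h
      · exact (ok_chk D hD.toAlt d _ _ _ _ _ h).2 hD.h0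
      · exact cl2_sound D hD _ _ _ _ _ _ _ h
    · exact cl1_sound D hD _ _ _ _ _ _ _ _ _ _ _ _ h
  · exact cl0_sound D hD _ _ _ _ _ _ _ _ _ _ _ h

noncomputable def clAll (ps : List ℕ) : ℕ → Bool :=
  List.rec (motive := fun _ => ℕ → Bool) (fun _ => true)
    (fun q _ ih b => Bool.rec false (force (Nat.succ b) ih) (cl (db.get b) q)) ps

lemma clAll_sound (D : Dt) (hD : Hyp D) : ∀ (ps : List ℕ) (b : ℕ), clAll ps b = true →
    ∀ i, b ≤ i → i < b + ps.length → Sat (Lit D) (db.get i) := by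
  intro ps
  induction ps with
  | nil => intro b _ i h1 h2; simp at h2; omega
  | cons q ps ih =>
    intro b h i h1 h2
    have h' : Bool.rec false (force (b + 1) (clAll ps)) (cl (db.get b) q) = true := h
    cases h3 : cl (db.get b) q <;> rw [h3] at h'
    · exact absurd h' (by simp)
    · rcases Nat.eq_or_lt_of_le h1 with e | e
      · rw [← e]; exact cl_sound D hD _ _ h3
      · have h4 : clAll ps (b + 1) = true := by rw [← force_eq (b + 1) (clAll ps)]; exact h'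
        exact ih (b + 1) h4 i e (by simp at h2; omega)

theorem all_ok : clAll params 0 = true := by decide +kernel

theorem len_ok : params.length = 2283 := by decide +kernel

theorem core (D : Dt) (hD : Hyp D) : False :=
  unsat (Lit D) (good D) fun i hi =>
    clAll_sound D hD params 0 all_ok i (Nat.zero_le _) (by rw [len_ok]; omega)

end Pool.Agent.H10.Five
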