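import Mathlib

set_option autoImplicit false

namespace Pool.Agent.H10.FiveDefs

abbrev E3 := EuclideanSpace ℝ (Fin 3)

/-- compact convex set with nonempty interior -/
def IsBody (K : Set E3) : Prop := IsCompact K ∧ Convex ℝ K ∧ (interior K).Nonempty

/-- the body `K i` is translation-blocked in the family `K` -/
def Blocked (K : Fin 5 → Set E3) (i : Fin 5) : Prop :=
  ∀ v : E3, ‖v‖ = 1 → ∀ ε : ℝ, 0 < ε → ∃ t : ℝ, 0 < t ∧ t < ε ∧ ∃ j : Fin 5, j ≠ i ∧
    (interior ((fun x => x + t • v) '' K i) ∩ interior (K j)).Nonempty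

end Pool.Agent.H10.FiveDefs
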