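import Pool.Agent.H10.FivePert
import Pool.Agent.H10.FiveDefs

set_option autoImplicit false

namespace Pool.Agent.H10.Five
open Pool.Agent.H10.FiveDefs

def dot3 (a : ℕ → ℝ) (v : E3) : ℝ := a 0 * v 0 + a 1 * v 1 + a 2 * v 2

noncomputable def lift (x : E3) : ℕ → ℝ := fun n => if h : n < 3 then x ⟨n, h⟩ else 1

lemma dot_lift (a : ℕ → ℝ) (x : E3) : dot a (lift x) = dot3 a x + a 3 := by
  simp [dot, dot3, lift]

lemma dot3_add (a : ℕ → ℝ) (x v : E3) (t : ℝ) : dot3 a (x + t • v) = dot3 a x + t * dot3 a v := by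
  simp [dot3]; ring

lemma dot3_neg (a : ℕ → ℝ) (v : E3) : dot3 a (-v) = - dot3 a v := by
  simp [dot3]; ring

lemma det_ne (a b c d : ℕ → ℝ)
    (h : ∀ v : E3, v ≠ 0 → dot3 a v < 0 ∨ dot3 b v < 0 ∨ dot3 c v < 0 ∨ dot3 d v < 0) :
    det3 a c d 0 1 2 ≠ 0 := by
  intro h0
  have h1 : (!![a 0, a 1, a 2; c 0, c 1, c 2; d 0, d 1, d 2] : Matrix (Fin 3) (Fin 3) ℝ).det = 0 := by
    rw [Matrix.det_fin_three]
    simp only [det3] at h0
    simp
    linarith
  obtain ⟨v, v0, hv⟩ := Matrix.exists_mulVec_eq_zero_iff.mpr h1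
  have e0 := congrFun hv 0
  have e1 := congrFun hv 1
  have e2 := congrFun hv 2
  simp [Matrix.mulVec, dotProduct, Fin.sum_univ_three] at e0 e1 e2
  have w0 : (WithLp.toLp 2 v : E3) ≠ 0 := fun hc => v0 (by simpa using congrArg WithLp.ofLp hc)
  have p := h _ w0
  have q := h _ (neg_ne_zero.mpr w0)
  simp only [dot3_neg] at q
  simp only [dot3] at p q
  rcases p with p | p | p | p <;> rcases q with q | q | q | q <;> linarith

noncomputable def crs (c d : ℕ → ℝ) : E3 :=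
  WithLp.toLp 2 ![c 1 * d 2 - c 2 * d 1, c 2 * d 0 - c 0 * d 2, c 0 * d 1 - c 1 * d 0]

lemma dot3_crs (a c d : ℕ → ℝ) : dot3 a (crs c d) = det3 a c d 0 1 2 := by
  simp [dot3, crs, det3]; ring

lemma star (a b c d : ℕ → ℝ)
    (h : ∀ v : E3, v ≠ 0 → dot3 a v < 0 ∨ dot3 b v < 0 ∨ dot3 c v < 0 ∨ dot3 d v < 0) :
    det3 a c d 0 1 2 * det3 b c d 0 1 2 < 0 ∧
      ∃ v : E3, v ≠ 0 ∧ 0 ≤ dot3 a v ∧ 0 ≤ dot3 c v ∧ 0 ≤ dot3 d v := by
  have h0 := det_ne a b c d h
  have v0 : crs c d ≠ 0 := by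
    intro hc
    rw [← dot3_crs, hc] at h0
    simp [dot3] at h0
  have zc : dot3 c (crs c d) = 0 := by rw [dot3_crs]; unfold det3; ring
  have zd : dot3 d (crs c d) = 0 := by rw [dot3_crs]; unfold det3; ring
  have p := h _ v0
  have q := h _ (neg_ne_zero.mpr v0)
  simp only [dot3_neg] at q
  rw [zc, zd, dot3_crs, dot3_crs] at p q
  constructor
  · rcases p with p | p | p | p <;> rcases q with q | q | q | q <;> nlinarith
  · rcases le_total 0 (dot3 a (crs c d)) with s | s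
    · exact ⟨_, v0, s, zc.ge, zd.ge⟩
    · refine ⟨_, neg_ne_zero.mpr v0, ?_, ?_, ?_⟩ <;> rw [dot3_neg] <;> linarith

def sn (s : Bool) : ℝ := Bool.rec (-1) 1 s

lemma val_sn (s : Bool) (x : ℝ) : val s x ↔ 0 < sn s * x := by cases s <;> simp [val, sn]

def p1 (e : ℕ) : ℕ := [0, 0, 0, 0, 1, 1, 1, 2, 2, 3].getD e 0
def p2 (e : ℕ) : ℕ := [1, 2, 3, 4, 2, 3, 4, 3, 4, 4].getD e 0

set_option synthInstance.maxSize 100000 in
lemma ix_spec : ∀ u < 5, ∀ j < 5, u ≠ j → ix u j ≠ 10 ∧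
    ((u < j ∧ sg u j = true ∧ p1 (ix u j) = u ∧ p2 (ix u j) = j ∧ ix u j = eid u j) ∨
      (j < u ∧ sg u j = false ∧ p1 (ix u j) = j ∧ p2 (ix u j) = u ∧ ix u j = eid j u)) := by
  decide +kernel

set_option synthInstance.maxSize 100000 in
lemma cover : ∀ i < 5, ∀ a < 5, ∀ b < 5, ∀ c < 5, ∀ e < 5, dist5 i a b c e = true →
    ∀ j < 5, j ≠ i → j = a ∨ j = b ∨ j = c ∨ j = e := by
  decide +kernel

lemma ex3 : ∀ i < 5, ∀ k < 5, i ≠ k → ∃ a < 5, ∃ c < 5, ∃ e < 5, dist5 i a k c e = true := by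
  decide +kernel

theorem abstract (U : ℕ → Set E3) (W : ℕ → ℕ → ℕ → ℝ)
    (hW : ∀ i j, i < j → j < 5 → (∀ x ∈ U i, 0 < dot (W i j) (lift x)) ∧
      ∀ x ∈ U j, dot (W i j) (lift x) < 0)
    (hB : ∀ i < 5, ∀ v : E3, v ≠ 0 → ∃ t : ℝ, 0 < t ∧ ∃ j < 5, j ≠ i ∧ ∃ x ∈ U i, x + t • v ∈ U j) :
    False := by
  let w : ℕ → ℕ → ℝ := fun e => if e = 10 then (fun n => if n = 3 then 1 else 0)
    else W (p1 e) (p2 e)
  let N : ℕ → ℕ → ℕ → ℝ := fun u j n => sn (sg u j) * w (ix u j) n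
  have dN : ∀ u j x, dot (N u j) x = sn (sg u j) * dot (w (ix u j)) x := by
    intro u j x; simp only [N, dot]; ring
  have sep : ∀ u < 5, ∀ j < 5, u ≠ j → (∀ x ∈ U u, 0 < dot (N u j) (lift x)) ∧
      ∀ x ∈ U j, dot (N u j) (lift x) < 0 := by
    intro u hu j hj huj
    obtain ⟨n10, ⟨a1, a2, a3, a4, -⟩ | ⟨a1, a2, a3, a4, -⟩⟩ := ix_spec u hu j hj huj
    · simp only [dN, a2, w, n10, a3, a4, sn, if_false, one_mul]
      exact hW u j a1 hj
    · simp only [dN, a2, w, n10, a3, a4, sn, if_false, neg_mul, one_mul, neg_pos, neg_lt_zero]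
      exact (hW j u a1 hu).symm
  have P : ∀ i < 5, ∀ v : E3, v ≠ 0 → ∃ j < 5, j ≠ i ∧ dot3 (N i j) v < 0 := by
    intro i hi v hv
    obtain ⟨t, t0, j, hj, ji, x, hx, hy⟩ := hB i hi v hv
    refine ⟨j, hj, ji, ?_⟩
    have h1 := (sep i hi j hj ji.symm).1 x hx
    have h2 := (sep i hi j hj ji.symm).2 _ hy
    rw [dot_lift] at h1 h2
    rw [dot3_add] at h2
    by_contra hc
    have := mul_nonneg t0.le (not_lt.mp hc)
    linarith
  have P4 : ∀ i a b c e, dist5 i a b c e = true → ∀ v : E3, v ≠ 0 →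
      dot3 (N i a) v < 0 ∨ dot3 (N i b) v < 0 ∨ dot3 (N i c) v < 0 ∨ dot3 (N i e) v < 0 := by
    intro i a b c e h v hv
    have h' := h
    simp only [dist5, Bool.and_eq_true, Nat.blt_eq] at h'
    obtain ⟨⟨⟨⟨⟨hi, ha⟩, hb⟩, hc⟩, he⟩, -⟩ := h'
    obtain ⟨j, hj, ji, h1⟩ := P i hi v hv
    rcases cover i hi a ha b hb c hc e he h j hj ji with rfl | rfl | rfl | rfl <;> tauto
  have pair : ∀ i < 5, ∀ k < 5, i ≠ k → ∃ b ∈ U k, ∀ j < 5, j ≠ i → j ≠ k →
      0 < dot (N i j) (lift b) := by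
    intro i hi k hk ik
    obtain ⟨a, ha, c, hc, e, he, h⟩ := ex3 i hi k hk ik
    obtain ⟨-, v, hv, s1, s2, s3⟩ := star _ _ _ _ (P4 i a k c e h)
    obtain ⟨t, t0, j, hj, ji, x, hx, hy⟩ := hB i hi v hv
    have key : ∀ j < 5, j ≠ i → j ≠ k → 0 < dot (N i j) (lift (x + t • v)) := by
      intro j hj ji jk
      have h1 := (sep i hi j hj ji.symm).1 x hx
      have h2 : 0 ≤ dot3 (N i j) v := by
        rcases cover i hi a ha k hk c hc e he h j hj ji with rfl | rfl | rfl | rfl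
        · exact s1
        · exact absurd rfl jk
        · exact s2
        · exact s3
      rw [dot_lift] at h1 ⊢
      rw [dot3_add]
      have := mul_nonneg t0.le h2
      linarith
    have jk : j = k := by
      by_contra jk
      have h1 := key j hj ji jk
      have h2 := (sep i hi j hj ji.symm).2 _ hy
      linarith
    subst jk
    exact ⟨_, hy, key⟩
  refine not_open w ⟨fun i k ik hk => ?_, fun i a b c e h => ?_⟩
  · have hi : i < 5 := by omega
    obtain ⟨b, hb, b1⟩ := pair i hi k hk ik.ne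
    obtain ⟨a, ha, a1⟩ := pair k hk i hi ik.ne'
    obtain ⟨-, ⟨-, c2, -, -, c5⟩ | ⟨c1, -⟩⟩ := ix_spec i hi k hk ik.ne
    swap
    · omega
    have d1 := (sep i hi k hk ik.ne).1 a ha
    have d2 := (sep i hi k hk ik.ne).2 b hb
    rw [dN, c2, c5] at d1 d2
    simp only [sn, one_mul] at d1 d2
    refine ⟨lift a, lift b, d1, d2, fun u j hu => ?_⟩
    simp only [allowed, Bool.or_eq_true, Bool.and_eq_true, Nat.beq_eq, Nat.blt_eq,
      Bool.not_eq_true', ← Bool.not_eq_true] at hu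
    rw [val_sn, val_sn, ← dN, ← dN]
    rcases hu with rfl | ⟨⟨⟨rfl | rfl, ji⟩, jk⟩, hj⟩
    · simp [N, w, ix, sg, sn, dot, lift]
    · have ji : j ≠ u := by simpa using ji
      have jk : j ≠ k := by simpa using jk
      exact ⟨(sep u hi j hj ji.symm).1 a ha, b1 j hj ji jk⟩
    · have ji : j ≠ i := by simpa using ji
      have jk : j ≠ u := by simpa using jk
      exact ⟨a1 j hj jk ji, (sep u hk j hj jk.symm).1 b hb⟩
  · have h1 := (star _ _ _ _ (P4 i a b c e h)).1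
    have e1 : ∀ p q r : ℕ → ℝ, det4 (w 10) p q r = - det3 p q r 0 1 2 := by
      intro p q r; simp [det4, w]
    rw [e1, e1]
    simp only [N, det3] at h1 ⊢
    generalize sg i a = s1 at h1 ⊢
    generalize sg i b = s2 at h1 ⊢
    generalize sg i c = s3 at h1 ⊢
    generalize sg i e = s4 at h1 ⊢
    cases s1 <;> cases s2 <;> cases s3 <;> cases s4 <;> simp only [sn, val] at h1 ⊢ <;>
      simp only [BEq.rfl, Bool.not_true, Bool.not_false, Bool.true_beq, Bool.false_beq] <;> linarith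

theorem main (K : Fin 5 → Set E3) (hK : ∀ i, IsBody (K i))
    (hd : ∀ i j, i ≠ j → interior (K i) ∩ interior (K j) = ∅) : ∃ i, ¬ Blocked K i := by
  by_contra hc
  push Not at hc
  let U : ℕ → Set E3 := fun n => if h : n < 5 then interior (K ⟨n, h⟩) else ∅
  have hW : ∀ i j, i < j → j < 5 → ∃ W : ℕ → ℝ, (∀ x ∈ U i, 0 < dot W (lift x)) ∧
      ∀ x ∈ U j, dot W (lift x) < 0 := by
    intro i j ij hj
    have hi : i < 5 := by omega
    obtain ⟨f, u, h1, h2⟩ := geometric_hahn_banach_open_open (hK ⟨j, hj⟩).2.1.interior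
      isOpen_interior (hK ⟨i, hi⟩).2.1.interior isOpen_interior
      (Set.disjoint_iff_inter_eq_empty.mpr (hd _ _ (by simp; omega)))
    have e : ∀ x : E3, dot (fun n => if h : n < 3 then f (EuclideanSpace.single ⟨n, h⟩ 1) else -u)
        (lift x) = f x - u := by
      intro x
      have : x = x 0 • EuclideanSpace.single 0 1 + x 1 • EuclideanSpace.single 1 1 +
          x 2 • EuclideanSpace.single 2 1 := by
        ext c; fin_cases c <;> simp
      conv_rhs => rw [this]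
      simp [dot, lift]
      ring
    refine ⟨fun n => if h : n < 3 then f (EuclideanSpace.single ⟨n, h⟩ 1) else -u,
      fun x hx => ?_, fun x hx => ?_⟩ <;> rw [e]
    · simp only [U, hi, dif_pos] at hx
      linarith [h2 x hx]
    · simp only [U, hj, dif_pos] at hx
      linarith [h1 x hx]
  choose! W hW using hW
  refine abstract U W hW fun i hi v hv => ?_
  have n0 : 0 < ‖v‖ := norm_pos_iff.mpr hv
  obtain ⟨t, t0, -, j, ji, y, y1, y2⟩ := hc ⟨i, hi⟩ (‖v‖⁻¹ • v)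
    (by rw [norm_smul]; simp [n0.ne']) 1 one_pos
  have e := (Homeomorph.addRight (t • ‖v‖⁻¹ • v)).image_interior (K ⟨i, hi⟩)
  simp only [Homeomorph.coe_addRight] at e
  rw [← e] at y1
  obtain ⟨x, hx, rfl⟩ := y1
  refine ⟨t * ‖v‖⁻¹, by positivity, j, j.2, fun h => ji (Fin.ext h), x, ?_, ?_⟩
  · simpa only [U, hi, dif_pos] using hx
  · simpa only [U, j.2, dif_pos, mul_smul] using y2

end Pool.Agent.H10.Five
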