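import Pool.Agent.H10.FiveCore

set_option autoImplicit false

namespace Pool.Agent.H10.Five
open Filter Topology

def det3 (a b c : ℕ → ℝ) (i j k : ℕ) : ℝ :=
  a i * (b j * c k - b k * c j) - a j * (b i * c k - b k * c i) + a k * (b i * c j - b j * c i)

def det4 (a b c d : ℕ → ℝ) : ℝ :=
  a 0 * det3 b c d 1 2 3 - a 1 * det3 b c d 0 2 3 + a 2 * det3 b c d 0 1 3 -
    a 3 * det3 b c d 0 1 2

def dot (a x : ℕ → ℝ) : ℝ := a 0 * x 0 + a 1 * x 1 + a 2 * x 2 + a 3 * x 3

lemma gp4 (a b p q r s : ℕ → ℝ) :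
    det4 a b p q * det4 a b r s - det4 a b p r * det4 a b q s + det4 a b p s * det4 a b q r = 0 := by
  unfold det4 det3; ring

lemma cramer (z l0 l1 l2 l3 x : ℕ → ℝ) :
    det4 z l1 l2 l3 * dot l0 x - det4 z l0 l2 l3 * dot l1 x + det4 z l0 l1 l3 * dot l2 x -
      det4 z l0 l1 l2 * dot l3 x = det4 l0 l1 l2 l3 * dot z x := by
  unfold det4 det3 dot; ring

lemma sw1 (a b c d : ℕ → ℝ) : det4 b a c d = - det4 a b c d := by unfold det4 det3; ring
lemma sw2 (a b c d : ℕ → ℝ) : det4 a c b d = - det4 a b c d := by unfold det4 det3; ring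
lemma sw3 (a b c d : ℕ → ℝ) : det4 a b d c = - det4 a b c d := by unfold det4 det3; ring

structure Open (w : ℕ → ℕ → ℝ) : Prop where
  hC : ∀ i k, i < k → k < 5 → ∃ a b : ℕ → ℝ, 0 < dot (w (eid i k)) a ∧ dot (w (eid i k)) b < 0 ∧
    ∀ u j, allowed i k u j = true →
      val (sg u j) (dot (w (ix u j)) a) ∧ val (sg u j) (dot (w (ix u j)) b)
  hS : ∀ i a b c e, dist5 i a b c e = true → val (!(sg i a == sg i b))
    (det4 (w 10) (w (ix i a)) (w (ix i c)) (w (ix i e)) *
      det4 (w 10) (w (ix i b)) (w (ix i c)) (w (ix i e)))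

lemma val_comb {s : Bool} {x y p q : ℝ} (hp : 0 < p) (hq : 0 < q) (hx : val s x) (hy : val s y) :
    val s (p * x + q * y) := by
  cases s
  · have := mul_neg_of_pos_of_neg hp hx
    have := mul_neg_of_pos_of_neg hq hy
    show _ < 0
    linarith
  · have := mul_pos hp hx
    have := mul_pos hq hy
    show 0 < _
    linarith

lemma generic (w : ℕ → ℕ → ℝ) (hw : Open w)
    (nz : ∀ a b c e, a < b → b < c → c < e → e < 11 → det4 (w a) (w b) (w c) (w e) ≠ 0) :
    False := by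
  set σ := det4 (w 0) (w 1) (w 2) (w 3) with hσ
  have σ0 : σ ≠ 0 := nz 0 1 2 3 (by norm_num) (by norm_num) (by norm_num) (by norm_num)
  refine core (fun a b c e => σ * det4 (w a) (w b) (w c) (w e)) ⟨⟨?_, ?_, ?_, ?_⟩, ?_, ?_, ?_, ?_⟩
  · intro a b c e; rw [sw1 (w a)]; ring
  · intro a b c e; rw [sw2 (w a) (w b)]; ring
  · intro a b c e; rw [sw3 (w a) (w b) (w c)]; ring
  · intro a b c e h1 h2 h3 h4; exact mul_ne_zero σ0 (nz a b c e h1 h2 h3 h4)
  · intro a b p q r s
    have := gp4 (w a) (w b) (w p) (w q) (w r) (w s)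
    linear_combination σ ^ 2 * this
  · intro i k hi hk
    obtain ⟨a, b, ha, hb, h⟩ := hw.hC i k hi hk
    set p := - dot (w (eid i k)) b with hp
    set q := dot (w (eid i k)) a with hq
    have lin : ∀ l : ℕ → ℝ, dot l (fun n => p * a n + q * b n) = p * dot l a + q * dot l b := by
      intro l; unfold dot; ring
    refine ⟨fun l => dot (w l) (fun n => p * a n + q * b n), fun l0 l1 l2 l3 => ?_, fun u j hu => ?_⟩
    · have h1 := cramer (w (eid i k)) (w l0) (w l1) (w l2) (w l3) (fun n => p * a n + q * b n)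
      have h2 : dot (w (eid i k)) (fun n => p * a n + q * b n) = 0 := by
        rw [lin, hp, ← hq]; ring
      rw [h2] at h1
      linear_combination σ * h1
    · show val _ (dot _ _)
      rw [lin]
      exact val_comb (by linarith) ha (h u j hu).1 (h u j hu).2
  · intro i a b c e h
    have h1 := hw.hS i a b c e h
    have h2 : val true (σ * σ) := mul_self_pos.mpr σ0
    have h3 := val_mul h2 h1
    have e1 : ∀ s : Bool, (true == s) = s := by decide
    rw [e1] at h3
    convert h3 using 1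
    ring
  · exact mul_self_pos.mpr σ0

noncomputable def pert (w : ℕ → ℕ → ℝ) (t : ℝ) (e n : ℕ) : ℝ := (1 - t) * w e n + t * (e : ℝ) ^ n

lemma pert0 (w : ℕ → ℕ → ℝ) : pert w 0 = w := by funext e n; simp [pert]

lemma ev_lt {l : Filter ℝ} (n : ℕ) (p : ℕ → ℝ → Prop) (h : ∀ i < n, ∀ᶠ x in l, p i x) :
    ∀ᶠ x in l, ∀ i < n, p i x :=
  (eventually_all_finite (Set.finite_Iio n)).mpr h

lemma ev_val (g : ℝ → ℝ) (hg : Continuous g) : ∀ᶠ t in 𝓝 (0 : ℝ), ∀ s, val s (g 0) → val s (g t) := by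
  rw [eventually_all]
  intro s
  by_cases h : val s (g 0)
  · cases s
    · filter_upwards [hg.continuousAt.eventually_lt continuousAt_const h] with t ht _ using ht
    · filter_upwards [continuousAt_const.eventually_lt hg.continuousAt h] with t ht _ using ht
  · exact Eventually.of_forall fun t h' => absurd h' h

lemma ev_ne (f : ℝ → ℝ) (hf : AnalyticOnNhd ℝ f Set.univ) (h1 : f 1 ≠ 0) :
    ∀ᶠ t in 𝓝[≠] (0 : ℝ), f t ≠ 0 := by
  rcases (hf 0 trivial).eventually_eq_zero_or_eventually_ne_zero with h | h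
  · exact absurd (hf.eqOn_zero_of_preconnected_of_eventuallyEq_zero isPreconnected_univ
      (Set.mem_univ 0) h (Set.mem_univ 1)) h1
  · exact h

lemma an_det (w : ℕ → ℕ → ℝ) (a b c e : ℕ) :
    AnalyticOnNhd ℝ (fun t => det4 (pert w t a) (pert w t b) (pert w t c) (pert w t e)) Set.univ := by
  intro x _
  unfold det4 det3 pert
  fun_prop

lemma vand (w : ℕ → ℕ → ℝ) (a b c e : ℕ) (h1 : a < b) (h2 : b < c) (h3 : c < e) :
    det4 (pert w 1 a) (pert w 1 b) (pert w 1 c) (pert w 1 e) ≠ 0 := by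
  have e1 : det4 (pert w 1 a) (pert w 1 b) (pert w 1 c) (pert w 1 e) =
      ((b : ℝ) - a) * (c - a) * (e - a) * (c - b) * (e - b) * (e - c) := by
    unfold det4 det3 pert; ring
  have : (a : ℝ) < b := by exact_mod_cast h1
  have : (b : ℝ) < c := by exact_mod_cast h2
  have : (c : ℝ) < e := by exact_mod_cast h3
  rw [e1]
  have : 0 < ((b : ℝ) - a) * (c - a) * (e - a) * (c - b) * (e - b) * (e - c) := by
    repeat apply mul_pos
    all_goals linarith
  exact this.ne'

lemma ix_lt (u j : ℕ) (hu : u < 6) (hj : u = 5 ∨ j < 5) : ix u j < 11 := by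
  rcases hj with rfl | hj
  · simp [ix]
  · interval_cases u <;> interval_cases j <;> decide

lemma eid_lt (i k : ℕ) (hi : i < k) (hk : k < 5) : eid i k < 11 := by
  interval_cases k <;> interval_cases i <;> decide

lemma not_open (w : ℕ → ℕ → ℝ) (hw : Open w) : False := by
  choose! A B hA hB hAB using hw.hC
  have cd : ∀ (x : ℕ → ℝ) (e : ℕ), Continuous fun t => dot (pert w t e) x := by
    intro x e; unfold dot pert; fun_prop
  have cdet : ∀ a b c e, Continuous fun t =>
      det4 (pert w t a) (pert w t b) (pert w t c) (pert w t e) := fun a b c e =>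
    continuousOn_univ.mp (an_det w a b c e).continuousOn
  have E1 : ∀ᶠ t in 𝓝 (0 : ℝ), ∀ i < 5, ∀ k < 5, ∀ e < 11,
      (∀ s, val s (dot (pert w 0 e) (A i k)) → val s (dot (pert w t e) (A i k))) ∧
      (∀ s, val s (dot (pert w 0 e) (B i k)) → val s (dot (pert w t e) (B i k))) :=
    ev_lt 5 _ fun i _ => ev_lt 5 _ fun k _ => ev_lt 11 _ fun e _ =>
      (ev_val _ (cd _ e)).and (ev_val _ (cd _ e))
  have E2 : ∀ᶠ t in 𝓝 (0 : ℝ), ∀ a < 11, ∀ b < 11, ∀ c < 11, ∀ e < 11, ∀ s,
      val s (det4 (pert w 0 10) (pert w 0 a) (pert w 0 c) (pert w 0 e) *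
        det4 (pert w 0 10) (pert w 0 b) (pert w 0 c) (pert w 0 e)) →
      val s (det4 (pert w t 10) (pert w t a) (pert w t c) (pert w t e) *
        det4 (pert w t 10) (pert w t b) (pert w t c) (pert w t e)) :=
    ev_lt 11 _ fun a _ => ev_lt 11 _ fun b _ => ev_lt 11 _ fun c _ => ev_lt 11 _ fun e _ =>
      ev_val _ ((cdet 10 a c e).mul (cdet 10 b c e))
  have E3 : ∀ᶠ t in 𝓝[≠] (0 : ℝ), ∀ a < 11, ∀ b < 11, ∀ c < 11, ∀ e < 11, a < b → b < c → c < e →
      det4 (pert w t a) (pert w t b) (pert w t c) (pert w t e) ≠ 0 :=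
    ev_lt 11 _ fun a _ => ev_lt 11 _ fun b _ => ev_lt 11 _ fun c _ => ev_lt 11 _ fun e _ => by
      by_cases h : a < b ∧ b < c ∧ c < e
      · filter_upwards [ev_ne _ (an_det w a b c e) (vand w a b c e h.1 h.2.1 h.2.2)] with t ht _ _ _
          using ht
      · exact Eventually.of_forall fun t h1 h2 h3 => absurd ⟨h1, h2, h3⟩ h
  obtain ⟨t, ⟨h1, h2⟩, h3⟩ := (((E1.and E2).filter_mono nhdsWithin_le_nhds).and E3).exists
  rw [pert0] at h1 h2
  refine generic (pert w t) ⟨fun i k hi hk => ⟨A i k, B i k, ?_, ?_, fun u j hu => ?_⟩, ?_⟩ ?_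
  · exact (h1 i (by omega) k hk _ (eid_lt i k hi hk)).1 true (hA i k hi hk)
  · exact (h1 i (by omega) k hk _ (eid_lt i k hi hk)).2 false (hB i k hi hk)
  · have hl : ix u j < 11 := by
      simp only [allowed, Bool.or_eq_true, Bool.and_eq_true, Nat.beq_eq, Nat.blt_eq] at hu
      apply ix_lt <;> omega
    exact ⟨(h1 i (by omega) k hk _ hl).1 _ (hAB i k hi hk u j hu).1,
      (h1 i (by omega) k hk _ hl).2 _ (hAB i k hi hk u j hu).2⟩
  · intro i a b c e h
    have h' := h
    simp only [dist5, Bool.and_eq_true, Nat.blt_eq] at h'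
    exact h2 _ (ix_lt i a (by omega) (by omega)) _ (ix_lt i b (by omega) (by omega)) _
      (ix_lt i c (by omega) (by omega)) _ (ix_lt i e (by omega) (by omega)) _ (hw.hS i a b c e h)
  · intro a b c e a1 a2 a3 a4
    exact h3 a (by omega) b (by omega) c (by omega) e a4 a1 a2 a3

end Pool.Agent.H10.Five
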