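import Mathlib
import Pool.Agent.H10.FlipRP
import Pool.Agent.H10.CedBall

set_option autoImplicit false

/-! A bit-parallel checker for sequences of centrally symmetric pairs of bistellar flips. -/

namespace Pool.Agent.H10.Flip
open Finset Pool.Agent.H10.Ced

inductive Tr
  | leaf (z d : ℕ) : Tr
  | node (l r : Tr) : Tr

def frc (x : ℕ) (k : ℕ → Bool) : Bool :=
  Nat.rec (motive := fun _ => Bool) false (fun n _ => k n) (Nat.succ x)

/-! the unused first argument only keeps the hash codes of the evaluated terms apart -/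

def sl (_z a b : ℕ) : ℕ := Nat.lor a b
def sa (_z a b : ℕ) : ℕ := Nat.land a b
def sx (_z a b : ℕ) : ℕ := Nat.xor a b
def sz (_z a : ℕ) : Bool := Nat.beq a 0

lemma frc_eq (x : ℕ) (k : ℕ → Bool) : frc x k = k x := rfl

noncomputable def Tr.get (t : Tr) : ℕ → ℕ :=
  Tr.rec (motive := fun _ => ℕ → ℕ) (fun _ d _ => d)
    (fun _ _ fl fr i => Bool.rec (fr (Nat.shiftRight i 1)) (fl (Nat.shiftRight i 1))
      (Nat.beq (Nat.land i 1) 0)) t

noncomputable def Tr.upd (z : ℕ) (t : Tr) : ℕ → ℕ → (Tr → Bool) → Bool :=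
  Tr.rec (motive := fun _ => ℕ → ℕ → (Tr → Bool) → Bool)
    (fun _ d _ x k => frc (sl z d x) fun y => k (.leaf z y))
    (fun l r fl fr i x k => Bool.rec (fr (Nat.shiftRight i 1) x fun r' => k (.node l r'))
      (fl (Nat.shiftRight i 1) x fun l' => k (.node l' r)) (Nat.beq (Nat.land i 1) 0)) t

def Perf : ℕ → Tr → Prop
  | 0, .leaf _ _ => True
  | d + 1, .node l r => Perf d l ∧ Perf d r
  | _, _ => False

lemma beq_land (i : ℕ) : Nat.beq (Nat.land i 1) 0 = decide (i % 2 = 0) := by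
  have : Nat.land i 1 = i % 2 := Nat.and_one_is_mod i
  rw [this]
  rcases Nat.mod_two_eq_zero_or_one i with h | h <;> rw [h] <;> rfl

lemma get_node (l r : Tr) (i : ℕ) :
    (Tr.node l r).get i = if i % 2 = 0 then l.get (i / 2) else r.get (i / 2) := by
  have : (Tr.node l r).get i = Bool.rec (r.get (i / 2)) (l.get (i / 2))
    (Nat.beq (Nat.land i 1) 0) := rfl
  rw [this, beq_land]
  by_cases h : i % 2 = 0 <;> simp [h]

lemma upd_spec (z : ℕ) (t : Tr) : ∀ d i x k, Perf d t → i < 2 ^ d → t.upd z i x k = true →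
    ∃ t', Perf d t' ∧ k t' = true ∧ ∀ j < 2 ^ d, t'.get j = if j = i then t.get j ||| x
      else t.get j := by
  induction t with
  | leaf _ a =>
    intro d i x k h hi e
    cases d with
    | succ d => exact h.elim
    | zero => exact ⟨.leaf z (a ||| x), trivial, e, fun j hj => by rw [if_pos (by omega)]; rfl⟩
  | node l r il ir =>
    intro d i x k h hi e
    cases d with
    | zero => exact h.elim
    | succ d =>
      have e' : Bool.rec (r.upd z (i / 2) x fun r' => k (.node l r'))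
        (l.upd z (i / 2) x fun l' => k (.node l' r)) (Nat.beq (Nat.land i 1) 0) = true := e
      rw [beq_land] at e'
      by_cases c : i % 2 = 0
      · simp only [c, decide_true] at e'
        obtain ⟨l', a1, a2, a3⟩ := il d _ x _ h.1 (by omega) e'
        refine ⟨.node l' r, ⟨a1, h.2⟩, a2, fun j hj => ?_⟩
        rw [get_node, get_node, a3 _ (by omega)]
        split_ifs <;> first | rfl | omega
      · simp only [c, decide_false] at e'
        obtain ⟨r', a1, a2, a3⟩ := ir d _ x _ h.2 (by omega) e'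
        refine ⟨.node l r', ⟨h.1, a1⟩, a2, fun j hj => ?_⟩
        rw [get_node, get_node, a3 _ (by omega)]
        split_ifs <;> first | rfl | omega

noncomputable def updL (z : ℕ) (l : List (ℕ × ℕ)) : Tr → (Tr → Bool) → Bool :=
  List.rec (motive := fun _ => Tr → (Tr → Bool) → Bool) (fun t k => k t)
    (fun p _ ih t k => t.upd z p.1 p.2 fun t' => ih t' k) l

lemma updL_spec (z : ℕ) (l : List (ℕ × ℕ)) : ∀ t k, Perf 7 t → (∀ p ∈ l, p.1 < 128) →
    updL z l t k = true →
    ∃ t', Perf 7 t' ∧ k t' = true ∧ ∀ j < 128, ∀ x, (t'.get j).testBit x = true ↔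
      (t.get j).testBit x = true ∨ ∃ p ∈ l, p.1 = j ∧ p.2.testBit x = true := by
  induction l with
  | nil => intro t k h _ e; exact ⟨t, h, e, by simp⟩
  | cons p l ih =>
    intro t k h hl e
    obtain ⟨t1, a1, a2, a3⟩ := upd_spec z t 7 p.1 p.2 _ h (hl p List.mem_cons_self) e
    obtain ⟨t2, b1, b2, b3⟩ := ih t1 k a1 (fun q hq => hl q (List.mem_cons_of_mem _ hq)) a2
    refine ⟨t2, b1, b2, fun j hj x => ?_⟩
    rw [b3 j hj, a3 j hj]
    simp only [List.mem_cons, exists_eq_or_imp]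
    by_cases c : j = p.1
    · simp [c, or_assoc]
    · simp [c, Ne.symm c]

noncomputable def andP (t : Tr) (a : ℕ) (l : List ℕ) : ℕ :=
  List.rec a (fun v _ r => Nat.land (t.get v) r) l

noncomputable def andN (t : Tr) (a : ℕ) (l : List ℕ) : ℕ :=
  List.rec a (fun v _ r => Nat.land (t.get (Nat.xor v 1)) r) l

lemma andP_bit (t : Tr) (a : ℕ) (l : List ℕ) (x : ℕ) : (andP t a l).testBit x = true ↔
    a.testBit x = true ∧ ∀ v ∈ l, (t.get v).testBit x = true := by
  induction l with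
  | nil => simp [andP]
  | cons v l ih =>
    have : andP t a (v :: l) = t.get v &&& andP t a l := rfl
    rw [this, Nat.testBit_and, Bool.and_eq_true, ih, List.forall_mem_cons]
    tauto

lemma andN_bit (t : Tr) (a : ℕ) (l : List ℕ) (x : ℕ) : (andN t a l).testBit x = true ↔
    a.testBit x = true ∧ ∀ v ∈ l, (t.get (ng v)).testBit x = true := by
  induction l with
  | nil => simp [andN]
  | cons v l ih =>
    have : andN t a (v :: l) = t.get (ng v) &&& andN t a l := rfl
    rw [this, Nat.testBit_and, Bool.and_eq_true, ih, List.forall_mem_cons]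
    tauto

noncomputable def miss (z : ℕ) (t : Tr) (P Q : ℕ) (l : List ℕ) : ℕ → ℕ → Bool :=
  List.rec (motive := fun _ => ℕ → ℕ → Bool) (fun _ _ => true)
    (fun y _ ih op oq => frc (Nat.xor P (Nat.land P (t.get y))) fun mp =>
      frc (Nat.xor Q (Nat.land Q (t.get (Nat.xor y 1)))) fun mq =>
        !sz z (sl z mp mq) && sz z (sl z (sa z op mp) (sa z oq mq)) &&
          ih (sl z op mp) (sl z oq mq)) l

lemma bit_rest (P B x : ℕ) : (P ^^^ (P &&& B)).testBit x = true ↔
    P.testBit x = true ∧ ¬ B.testBit x = true := by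
  rw [Nat.testBit_xor, Nat.testBit_and]
  cases P.testBit x <;> cases B.testBit x <;> simp

lemma miss_spec (c : ℕ) (t : Tr) (P Q : ℕ) (l : List ℕ) : ∀ op oq, miss c t P Q l op oq = true →
    (∀ y ∈ l, ∃ x, (P.testBit x = true ∧ ¬ (t.get y).testBit x = true) ∨
      (Q.testBit x = true ∧ ¬ (t.get (ng y)).testBit x = true)) ∧
    ∀ x, (P.testBit x = true → ∀ y ∈ l, ¬ (t.get y).testBit x = true → ¬ op.testBit x = true ∧
        ∀ z ∈ l, ¬ (t.get z).testBit x = true → y = z) ∧
      (Q.testBit x = true → ∀ y ∈ l, ¬ (t.get (ng y)).testBit x = true → ¬ oq.testBit x = true ∧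
        ∀ z ∈ l, ¬ (t.get (ng z)).testBit x = true → y = z) := by
  induction l with
  | nil => simp
  | cons y l ih =>
    intro op oq h
    have h' : (!Nat.beq ((P ^^^ (P &&& t.get y)) ||| (Q ^^^ (Q &&& t.get (ng y)))) 0 &&
      Nat.beq ((op &&& (P ^^^ (P &&& t.get y))) ||| (oq &&& (Q ^^^ (Q &&& t.get (ng y))))) 0 &&
      miss c t P Q l (op ||| (P ^^^ (P &&& t.get y))) (oq ||| (Q ^^^ (Q &&& t.get (ng y))))) =
      true := h
    simp only [Bool.and_eq_true, Bool.not_eq_true', Nat.beq_eq, ← Bool.not_eq_true] at h'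
    obtain ⟨⟨h1, h2⟩, h3⟩ := h'
    obtain ⟨i1, i2⟩ := ih _ _ h3
    refine ⟨List.forall_mem_cons.2 ⟨?_, i1⟩, fun x => ?_⟩
    · obtain ⟨x, hx⟩ := Nat.exists_testBit_of_ne_zero h1
      rw [Nat.testBit_or, Bool.or_eq_true, bit_rest, bit_rest] at hx
      exact ⟨x, hx⟩
    · have h4 := congrArg (fun z => Nat.testBit z x = true) h2
      have h5 := i2 x
      simp only [Nat.testBit_or, Nat.testBit_and, Bool.or_eq_true, Bool.and_eq_true, bit_rest,
        Nat.zero_testBit, List.forall_mem_cons, eq_iff_iff] at h4 h5 ⊢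
      refine ⟨fun p => ⟨fun a => ⟨by tauto, fun _ => trivial, fun z hz b => ?_⟩,
        fun z hz a => ⟨fun b => (h5.1 p z hz a).1 (Or.inl b), fun b => ?_, (h5.1 p z hz a).2⟩⟩,
        fun p => ⟨fun a => ⟨by tauto, fun _ => trivial, fun z hz b => ?_⟩,
        fun z hz a => ⟨fun b => (h5.2 p z hz a).1 (Or.inl b), fun b => ?_, (h5.2 p z hz a).2⟩⟩⟩
      exacts [absurd (Or.inr ⟨p, a⟩) (h5.1 p z hz b).1, absurd (Or.inr ⟨p, b⟩) (h5.1 p z hz a).1,
        absurd (Or.inr ⟨p, a⟩) (h5.2 p z hz b).1, absurd (Or.inr ⟨p, b⟩) (h5.2 p z hz a).1]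

def nd (l : List ℕ) : Bool := List.rec true (fun v l r => !mem v l && r) l

lemma nd_spec (l : List ℕ) : nd l = true → l.Nodup := by
  induction l with
  | nil => simp
  | cons v l ih =>
    intro h
    have h' : (!mem v l && nd l) = true := h
    simp only [Bool.and_eq_true, Bool.not_eq_true', mem_false] at h'
    exact List.nodup_cons.2 ⟨h'.1, ih h'.2⟩

def mk (full : ℕ) (rest : List (ℕ × ℕ)) (s : List ℕ) : ℕ → List (ℕ × ℕ) :=
  List.rec (motive := fun _ => ℕ → List (ℕ × ℕ)) (fun _ => rest)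
    (fun v _ ih b => (v, Nat.xor full (Nat.shiftLeft 1 b)) :: ih (Nat.succ b)) s

lemma mem_mk (full : ℕ) (rest : List (ℕ × ℕ)) (s : List ℕ) (p : ℕ × ℕ) : ∀ b, p ∈ mk full rest s b ↔
    (∃ j, ∃ h : j < s.length, p = (s[j], full ^^^ 2 ^ (b + j))) ∨ p ∈ rest := by
  induction s with
  | nil => simp [mk]
  | cons v s ih =>
    intro b
    have : mk full rest (v :: s) b = (v, full ^^^ (1 <<< b)) :: mk full rest s (b + 1) := rfl
    rw [this, List.mem_cons, ih, ← or_assoc, Nat.one_shiftLeft]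
    refine or_congr_left ⟨?_, ?_⟩
    · rintro (a | ⟨j, a, c⟩)
      exacts [⟨0, by simp, a⟩, ⟨j + 1, by simpa using a, by rw [c, add_assoc, add_comm 1 j]; rfl⟩]
    · rintro ⟨j, a, c⟩
      cases j with
      | zero => exact Or.inl c
      | succ j => exact Or.inr ⟨j, by simpa using a, by rw [c, add_assoc, add_comm 1 j]; rfl⟩

/-- one pair of flips -/
noncomputable def mv (s u : List ℕ) (L c : ℕ) (t : Tr) (k : ℕ → ℕ → Tr → Bool) : Bool :=
  frc (andP t L s) fun P => frc (andN t L s) fun Q =>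
    nd ((s ++ u).map fun v => Nat.shiftRight v 1) &&
    Nat.beq (Nat.lor (andP t L u) (andN t L u)) 0 && miss c t P Q u 0 0 &&
    frc (Nat.shiftLeft (Nat.pred (Nat.shiftLeft 1 s.length)) c) fun full =>
      frc (sl c (sx c L (sl c P Q)) full) fun L' => frc (Nat.add c s.length) fun c' =>
        updL c (mk full (u.map fun v => (v, sa c full full)) s c) t (k L' c')

noncomputable def fac (t : Tr) (x : ℕ) : Finset ℕ := (range 128).filter fun v => (t.get v).testBit x = true

def DD (L : ℕ) (t : Tr) : Set (Finset ℕ) :=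
  {F | ∃ x, L.testBit x = true ∧ (F = fac t x ∨ F = nf (fac t x))}

structure Inv (n L c : ℕ) (t : Tr) : Prop where
  pf : Perf 7 t
  hi : ∀ v < 128, ∀ x, c ≤ x → ¬ (t.get v).testBit x = true
  lo : ∀ x, c ≤ x → ¬ L.testBit x = true
  cd : ∀ x, L.testBit x = true → (fac t x).card = n
  rel : Rel (fun y : Sph n => -y) (DD L t)

lemma ng_lt {v : ℕ} (h : v < 128) : ng v < 128 := by rw [ng_eq]; split_ifs <;> omega

lemma mem_fac {t : Tr} {x v : ℕ} (h : v < 128) : v ∈ fac t x ↔ (t.get v).testBit x = true := by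
  simp [fac, h]

lemma DD_nf (L : ℕ) (t : Tr) : ∀ F ∈ DD L t, nf F ∈ DD L t := by
  rintro F ⟨x, a, rfl | rfl⟩
  exacts [⟨x, a, Or.inr rfl⟩, ⟨x, a, Or.inl (nf_nf _)⟩]

lemma andP_sub (L : ℕ) (t : Tr) (l : List ℕ) (hl : ∀ v ∈ l, v < 128) (x : ℕ) :
    (andP t L l).testBit x = true ↔ L.testBit x = true ∧ l.toFinset ⊆ fac t x := by
  rw [andP_bit]
  exact and_congr_right' ⟨fun b v hv => (mem_fac (hl v (List.mem_toFinset.1 hv))).2
    (b v (List.mem_toFinset.1 hv)), fun b v hv => (mem_fac (hl v hv)).1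
      (b (List.mem_toFinset.2 hv))⟩

lemma andN_sub (L : ℕ) (t : Tr) (l : List ℕ) (hl : ∀ v ∈ l, v < 128) (x : ℕ) :
    (andN t L l).testBit x = true ↔ L.testBit x = true ∧ l.toFinset ⊆ nf (fac t x) := by
  rw [andN_bit]
  exact and_congr_right' ⟨fun b v hv => mem_nf.2 ((mem_fac (ng_lt (hl v
    (List.mem_toFinset.1 hv)))).2 (b v (List.mem_toFinset.1 hv))), fun b v hv =>
      (mem_fac (ng_lt (hl v hv))).1 (mem_nf.1 (b (List.mem_toFinset.2 hv)))⟩

lemma noface (L : ℕ) (t : Tr) (u : List ℕ) (hu : ∀ v ∈ u, v < 128)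
    (e : andP t L u ||| andN t L u = 0) : ∀ F ∈ DD L t, ¬ u.toFinset ⊆ F := by
  rintro F ⟨x, b, d⟩ q
  have := congrArg (fun z => Nat.testBit z x = true) e
  simp only [Nat.testBit_or, Bool.or_eq_true, andP_sub L t u hu, andN_sub L t u hu,
    Nat.zero_testBit, eq_iff_iff, Bool.false_eq_true, iff_false, not_or] at this
  rcases d with rfl | rfl
  exacts [this.1 ⟨b, q⟩, this.2 ⟨b, q⟩]

lemma mv_spec (n : ℕ) (s u : List ℕ) (L c : ℕ) (t : Tr) (k : ℕ → ℕ → Tr → Bool) (h : Inv n L c t)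
    (hs : ∀ v ∈ s, v < 128) (hu : ∀ v ∈ u, v < 128) (s0 : s ≠ []) (u0 : u ≠ [])
    (hn : s.length + u.length = n + 1) (e : mv s u L c t k = true) :
    ∃ L' c' t', Inv n L' c' t' ∧ k L' c' t' = true := by
  have e' : (nd ((s ++ u).map fun v => v / 2) && Nat.beq (andP t L u ||| andN t L u) 0 &&
      miss c t (andP t L s) (andN t L s) u 0 0 &&
      updL c (mk ((1 <<< s.length - 1) <<< c) (u.map fun v =>
        (v, (1 <<< s.length - 1) <<< c &&& (1 <<< s.length - 1) <<< c)) s c)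
        t (k ((L ^^^ (andP t L s ||| andN t L s)) ||| (1 <<< s.length - 1) <<< c)
          (c + s.length))) = true := e
  simp only [Bool.and_eq_true, Nat.beq_eq, Nat.one_shiftLeft, Nat.and_self] at e'
  obtain ⟨⟨⟨e1, e2⟩, e3⟩, e4⟩ := e'
  have n1 := nd_spec _ e1
  have n2 := n1.of_map
  obtain ⟨ns, nu, nsu⟩ := List.nodup_append.1 n2
  obtain ⟨m1, m2⟩ := miss_spec _ _ _ _ _ _ _ e3
  generalize hf : (2 ^ s.length - 1) <<< c = full at e4
  have fb : ∀ x, full.testBit x = true ↔ c ≤ x ∧ x < c + s.length := by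
    intro x
    rw [← hf, Nat.testBit_shiftLeft, Nat.testBit_two_pow_sub_one]
    simp only [Bool.and_eq_true, decide_eq_true_eq]
    omega
  obtain ⟨t', a1, a2, a3⟩ := updL_spec _ _ t _ h.pf (by
    intro p hp
    rcases (mem_mk _ _ _ _ _).1 hp with ⟨j, b, rfl⟩ | b
    · exact hs _ (List.getElem_mem _)
    · obtain ⟨v, b', rfl⟩ := List.mem_map.1 b
      exact hu v b') e4
  have a4 : ∀ j < 128, ∀ x, (t'.get j).testBit x = true ↔ (t.get j).testBit x = true ∨
      ((c ≤ x ∧ x < c + s.length) ∧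
        ((∃ i, ∃ h : i < s.length, s[i] = j ∧ x ≠ c + i) ∨ j ∈ u)) := by
    intro j hj x
    rw [a3 j hj]
    refine or_congr_right ⟨?_, ?_⟩
    · rintro ⟨p, hp, rfl, b⟩
      rcases (mem_mk _ _ _ _ _).1 hp with ⟨i, d, rfl⟩ | d
      · rw [Nat.testBit_xor, Nat.testBit_two_pow] at b
        by_cases q : c + i = x
        · simp [q, (fb x).2 (by omega)] at b
        · exact ⟨(fb x).1 (by simpa [q] using b), Or.inl ⟨i, d, rfl, Ne.symm q⟩⟩
      · obtain ⟨v, d', rfl⟩ := List.mem_map.1 d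
        exact ⟨(fb x).1 b, Or.inr d'⟩
    · rintro ⟨b, ⟨i, d, rfl, q⟩ | d⟩
      · refine ⟨_, (mem_mk _ _ _ _ _).2 (Or.inl ⟨i, d, rfl⟩), rfl, ?_⟩
        rw [Nat.testBit_xor, Nat.testBit_two_pow]
        simp [Ne.symm q, (fb x).2 b]
      · exact ⟨_, (mem_mk _ _ _ _ _).2 (Or.inr (List.mem_map.2 ⟨j, d, rfl⟩)), rfl, (fb x).2 b⟩
  have f1 : ∀ x < c, fac t' x = fac t x := fun x hx => filter_congr fun v hv => by
    rw [a4 v (mem_range.1 hv)]
    exact or_iff_left fun b => by omega
  have f2 : ∀ i (hi : i < s.length), fac t' (c + i) = (s.toFinset ∪ u.toFinset).erase s[i] := by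
    intro i hi
    ext v
    simp only [mem_erase, mem_union, List.mem_toFinset]
    by_cases hv : v < 128
    · rw [mem_fac hv, a4 v hv, or_iff_right (h.hi v hv _ (by omega)), and_iff_right (by omega)]
      constructor
      · rintro (⟨j, d, rfl, q⟩ | d)
        · exact ⟨fun b => q (by rw [(ns.getElem_inj_iff).1 b]), Or.inl (List.getElem_mem _)⟩
        · exact ⟨fun b => nsu _ (List.getElem_mem _) v d b.symm, Or.inr d⟩
      · rintro ⟨b, d | d⟩
        · obtain ⟨j, q, rfl⟩ := List.getElem_of_mem d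
          exact Or.inl ⟨j, q, rfl, fun r => b (by simp [show i = j by omega])⟩
        · exact Or.inr d
    · exact ⟨fun b => absurd (mem_range.1 (mem_filter.1 b).1) hv,
        fun b => absurd (b.2.elim (hs v) (hu v)) hv⟩
  have dis : Disjoint s.toFinset u.toFinset := disjoint_left.2 fun v a b =>
    nsu v (List.mem_toFinset.1 a) v (List.mem_toFinset.1 b) rfl
  have cd : ∀ y ∈ s.toFinset ∪ u.toFinset, ((s.toFinset ∪ u.toFinset).erase y).card = n := by
    intro y hy
    rw [card_erase_of_mem hy, card_union_of_disjoint dis, List.toFinset_card_of_nodup ns,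
      List.toFinset_card_of_nodup nu, hn]
    rfl
  have sp := andP_sub L t
  have sn := andN_sub L t
  have nfc := noface L t u hu e2
  have one : ∀ F ∈ DD L t, s.toFinset ⊆ F → ∀ y ∈ u, y ∉ F →
      F = (s.toFinset ∪ u.toFinset).erase y := by
    rintro F ⟨x, b, d⟩ q y hy r
    have : ∀ z ∈ u, z ∉ F → y = z := by
      rcases d with rfl | rfl
      · exact fun z hz w => ((m2 x).1 ((sp s hs x).2 ⟨b, q⟩) y hy (by rwa [← mem_fac (hu y hy)])).2
          z hz (by rwa [← mem_fac (hu z hz)])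
      · exact fun z hz w => ((m2 x).2 ((sn s hs x).2 ⟨b, q⟩) y hy
          (by rwa [← mem_fac (ng_lt (hu y hy)), ← mem_nf])).2
          z hz (by rwa [← mem_fac (ng_lt (hu z hz)), ← mem_nf])
    refine (eq_of_subset_of_card_le (fun v hv => ?_) ?_).symm
    · obtain ⟨v1, v2⟩ := mem_erase.1 hv
      exact (mem_union.1 v2).elim (fun w => q w) fun w =>
        by_contra fun w' => v1 (this v (List.mem_toFinset.1 w) w').symm
    · rw [cd y (mem_union_right _ (List.mem_toFinset.2 hy))]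
      rcases d with rfl | rfl
      exacts [(h.cd x b).le, by rw [card_nf, h.cd x b]]
  have val : Valid (DD L t) s.toFinset u.toFinset := by
    refine ⟨dis, by simpa using s0, by simpa using u0, fun F hF q => ?_, fun y hy => ?_, nfc⟩
    · obtain ⟨y, b, d⟩ := not_subset.1 (nfc F hF)
      exact ⟨y, b, one F hF q y (List.mem_toFinset.1 b) d⟩
    · rw [List.mem_toFinset] at hy
      obtain ⟨x, ⟨b, d⟩ | ⟨b, d⟩⟩ := m1 y hy
      · obtain ⟨b1, b2⟩ := (sp s hs x).1 b
        rw [← one _ ⟨x, b1, Or.inl rfl⟩ b2 y hy (by rwa [mem_fac (hu y hy)])]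
        exact ⟨x, b1, Or.inl rfl⟩
      · obtain ⟨b1, b2⟩ := (sn s hs x).1 b
        rw [← one _ ⟨x, b1, Or.inr rfl⟩ b2 y hy (by rwa [mem_nf, mem_fac (ng_lt (hu y hy))])]
        exact ⟨x, b1, Or.inr rfl⟩
  have st := h.rel.step (DD_nf L t) val (disjoint_left.2 fun v b d => by
    have b' : v ∈ s ++ u := by simpa using b
    have d' : ng v ∈ s ++ u := by simpa using d
    have := List.inj_on_of_nodup_map n1 b' d' (by rw [ng_eq]; split_ifs <;> omega)
    rw [ng_eq] at this
    split_ifs at this <;> omega)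
  have lb : ∀ x, ((L ^^^ (andP t L s ||| andN t L s)) ||| full).testBit x = true ↔
      (L.testBit x = true ∧ ¬ s.toFinset ⊆ fac t x ∧ ¬ s.toFinset ⊆ nf (fac t x)) ∨
        (c ≤ x ∧ x < c + s.length) := by
    intro x
    rw [Nat.testBit_or, Bool.or_eq_true, fb, Nat.testBit_xor, Nat.testBit_or]
    refine or_congr_left ?_
    have b := sp s hs x
    have d := sn s hs x
    generalize (andP t L s).testBit x = p at b ⊢
    generalize (andN t L s).testBit x = q at d ⊢
    generalize L.testBit x = r at b d ⊢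
    generalize (s.toFinset ⊆ fac t x) = A at b ⊢
    generalize (s.toFinset ⊆ nf (fac t x)) = B at d ⊢
    clear * - b d
    cases p <;> cases q <;> cases r <;> simp at b d ⊢ <;> tauto
  refine ⟨_, _, t', ⟨a1, fun v hv x hx b => ?_, fun x hx b => ?_, fun x b => ?_, ?_⟩, a2⟩
  · exact ((a4 v hv x).1 b).elim (h.hi v hv x (by omega)) fun d => by omega
  · exact ((lb x).1 b).elim (fun d => h.lo x (by omega) d.1) fun d => by omega
  · rcases (lb x).1 b with d | d
    · rw [f1 x (not_le.1 fun q => h.lo x q d.1), h.cd x d.1]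
    · obtain ⟨i, rfl⟩ := Nat.exists_eq_add_of_le d.1
      rw [f2 i (by omega), cd _ (mem_union_left _ (List.mem_toFinset.2 (List.getElem_mem _)))]
  · convert st using 1
    ext F
    constructor
    · rintro ⟨x, b, q⟩
      rcases (lb x).1 b with d | d
      · rw [f1 x (not_le.1 fun q => h.lo x q d.1)] at q
        refine Or.inl ⟨⟨x, d.1, q⟩, ?_⟩
        rcases q with rfl | rfl
        exacts [⟨d.2.1, fun r => d.2.2 (nf_sub.1 r)⟩,
          ⟨d.2.2, fun r => d.2.1 (by simpa using nf_sub.1 r)⟩]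
      · obtain ⟨i, rfl⟩ := Nat.exists_eq_add_of_le d.1
        rw [f2 i (by omega)] at q
        exact Or.inr ⟨_, List.mem_toFinset.2 (List.getElem_mem _), q⟩
    · rintro (⟨⟨x, b, q⟩, d1, d2⟩ | ⟨y, b, q⟩)
      · refine ⟨x, (lb x).2 (Or.inl ⟨b, ?_⟩), by rwa [f1 x (not_le.1 fun q => h.lo x q b)]⟩
        rcases q with rfl | rfl
        exacts [⟨d1, fun r => d2 (nf_sub.2 r)⟩, ⟨fun r => d2 (nf_sub.2 (by simpa using r)), d1⟩]
      · obtain ⟨i, d, rfl⟩ := List.getElem_of_mem (List.mem_toFinset.1 b)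
        exact ⟨c + i, (lb _).2 (Or.inr (by omega)), by rwa [f2 i d]⟩

noncomputable def dec (m : ℕ) : ℕ → (List ℕ → ℕ → Bool) → Bool :=
  Nat.rec (motive := fun _ => ℕ → (List ℕ → ℕ → Bool) → Bool) (fun x k => k [] x)
    (fun _ ih x k => frc (Nat.land x 127) fun v => frc (Nat.shiftRight x 7) fun y =>
      ih y fun l z => k (v :: l) z) m

lemma dec_spec (m : ℕ) : ∀ x k, dec m x k = true →
    ∃ l z, l.length = m ∧ (∀ v ∈ l, v < 128) ∧ k l z = true := by
  induction m with
  | zero => exact fun x k h => ⟨[], x, rfl, by simp, h⟩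
  | succ m ih =>
    intro x k h
    obtain ⟨l, z, a, b, c⟩ := ih _ _ h
    exact ⟨_, z, by simp [a], List.forall_mem_cons.2
      ⟨Nat.lt_succ_of_le Nat.and_le_right, b⟩, c⟩

/-- run a list of packed pairs of flips -/
noncomputable def run (n : ℕ) (fin : ℕ → ℕ → Tr → Bool) (l : List ℕ) : ℕ → ℕ → Tr → Bool :=
  List.rec (motive := fun _ => ℕ → ℕ → Tr → Bool) fin
    (fun x _ ih L c t => frc (Nat.succ (Nat.land x 15)) fun j => Nat.ble j n &&
      dec j (Nat.shiftRight x 4) fun s y => dec (Nat.succ (Nat.sub n j)) y fun u _ =>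
        mv s u L c t ih) l

lemma run_spec (n : ℕ) (fin : ℕ → ℕ → Tr → Bool) (l : List ℕ) : ∀ L c t, Inv n L c t →
    run n fin l L c t = true → ∃ L' c' t', Inv n L' c' t' ∧ fin L' c' t' = true := by
  induction l with
  | nil => exact fun L c t h e => ⟨L, c, t, h, e⟩
  | cons x l ih =>
    intro L c t h e
    have e' : (Nat.ble (Nat.land x 15 + 1) n && dec (Nat.land x 15 + 1) (Nat.shiftRight x 4)
      fun s y => dec (n - (Nat.land x 15 + 1) + 1) y fun u _ =>
        mv s u L c t (run n fin l)) = true := e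
    rw [Bool.and_eq_true, Nat.ble_eq] at e'
    obtain ⟨s, y, a1, a2, a3⟩ := dec_spec _ _ _ e'.2
    obtain ⟨u, -, b1, b2, b3⟩ := dec_spec _ _ _ a3
    obtain ⟨L', c', t', d1, d2⟩ := mv_spec n s u L c t _ h a2 b2 (List.ne_nil_of_length_pos (by omega))
      (List.ne_nil_of_length_pos (by omega)) (by omega) b3
    exact ih L' c' t' d1 d2

def below (m : ℕ) (p : ℕ → Bool) : Bool := Nat.rec true (fun i r => p i && r) m

lemma below_spec (m : ℕ) (p : ℕ → Bool) : below m p = true → ∀ i < m, p i = true := by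
  induction m with
  | zero => simp
  | succ m ih =>
    intro h i hi
    have h' : (p m && below m p) = true := h
    rw [Bool.and_eq_true] at h'
    rcases Nat.lt_succ_iff_lt_or_eq.1 hi with a | rfl
    exacts [ih h'.2 i a, h'.1]

noncomputable def nof (L : ℕ) (t : Tr) (a b : ℕ) : Bool :=
  Nat.beq (Nat.lor (andP t L [a, b]) (andN t L [a, b])) 0

lemma nof_spec {L : ℕ} {t : Tr} {a b : ℕ} (ha : a < 128) (hb : b < 128) (h : nof L t a b = true) :
    ∀ F ∈ DD L t, a ∈ F → b ∉ F := fun F hF c d =>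
  noface L t [a, b] (by simp [ha, hb]) (Nat.eq_of_beq_eq_true h) F hF (by
    intro v hv
    simp only [List.toFinset_cons, List.toFinset_nil, mem_insert, notMem_empty, or_false] at hv
    rcases hv with rfl | rfl <;> assumption)

/-- the quotient is a simplicial complex on fewer than `m` vertices -/
noncomputable def last (m L _c : ℕ) (t : Tr) : Bool :=
  below 128 fun a => frc a fun a => (Nat.ble (Nat.succ a) (Nat.mul 2 m) || nof L t a a) &&
    below 128 fun b => frc b fun b => nof L t a b || nof L t a (Nat.xor b 1)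

noncomputable def first (n : ℕ) (t : Tr) : Bool :=
  below 128 fun v => decide (t.get v < 2 ^ 2 ^ n) && below (2 ^ n) fun x =>
    (t.get v).testBit x == decide (v / 2 < n ∧ v % 2 = (x.testBit (v / 2)).toNat)

lemma first_spec (n : ℕ) (t : Tr) (hn : n ≤ 64) (p : Perf 7 t) (h : first n t = true) :
    Inv n (2 ^ 2 ^ n - 1) (2 ^ n) t := by
  have h1 := fun v hv => Bool.and_eq_true_iff.1 (below_spec _ _ h v hv)
  have lb : ∀ x, (2 ^ 2 ^ n - 1).testBit x = true ↔ x < 2 ^ n := fun x => by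
    rw [Nat.testBit_two_pow_sub_one, decide_eq_true_eq]
  have e2 : ∀ x i : ℕ, (x.testBit i).toNat < 2 := fun x i => Bool.toNat_lt _
  have f : ∀ x < 2 ^ n, fac t x = cr n fun i => (x.testBit i).toNat := by
    intro x hx
    ext v
    rw [mem_cr (e2 x)]
    by_cases hv : v < 128
    · rw [mem_fac hv, beq_iff_eq.1 (below_spec _ _ (h1 v hv).2 x hx), decide_eq_true_eq]
    · exact ⟨fun b => absurd (mem_range.1 (mem_filter.1 b).1) hv, fun b => by omega⟩
  refine ⟨p, fun v hv x hx => ?_, fun x hx => by rw [lb]; omega, fun x hx => ?_, ?_⟩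
  · rw [Nat.testBit_lt_two_pow ((of_decide_eq_true (h1 v hv).1).trans_le
      (Nat.pow_le_pow_right two_pos hx))]
    simp
  · rw [f x ((lb x).1 hx), cr, card_image_of_injOn, card_range]
    intro i _ j _ b
    have := e2 x i
    have := e2 x j
    simp only at b
    omega
  · convert rel_cross n using 1
    ext F
    constructor
    · rintro ⟨x, a, rfl | rfl⟩ <;> rw [f x ((lb x).1 a)]
      · exact ⟨_, e2 x, rfl⟩
      · refine ⟨fun i => 1 - (x.testBit i).toNat, fun i => by simp only; omega, ?_⟩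
        ext v
        have := e2 x (v / 2)
        rw [mem_nf, mem_cr (e2 x), mem_cr fun i => by omega, ng_eq]
        split_ifs
        · rw [show (v + 1) / 2 = v / 2 by omega]; omega
        · rw [show (v - 1) / 2 = v / 2 by omega]; omega
    · rintro ⟨e, he, rfl⟩
      have a := Nat.ofBits_lt_two_pow fun i : Fin n => decide (e i = 1)
      refine ⟨_, (lb _).2 a, Or.inl ?_⟩
      rw [f _ a]
      refine image_congr fun i hi => ?_
      have := he i
      simp only [Nat.testBit_ofBits_lt _ _ (mem_range.1 hi)]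
      by_cases b : e i = 1 <;> simp [b]
      omega

theorem main (d m : ℕ) (t : Tr) (l : List ℕ) (hd : d < 64) (p : Perf 7 t)
    (h : first (d + 1) t = true)
    (e : run (d + 1) (last m) l (2 ^ 2 ^ (d + 1) - 1) (2 ^ (d + 1)) t = true) :
    ∃ K : Cx, IsCx K ∧ (∀ s ∈ K, ∀ v ∈ s, v < m) ∧ Nonempty (real K ≃ₜ Proj.RP d) := by
  obtain ⟨L, c, t, h1, h2⟩ := run_spec _ _ _ _ _ _ (first_spec _ t hd p h) e
  have h3 := fun a ha => Bool.and_eq_true_iff.1 (below_spec _ _ h2 a ha)
  have lt : ∀ F ∈ DD L t, ∀ v ∈ F, v < 128 := by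
    rintro F ⟨x, -, rfl | rfl⟩ v hv
    · exact mem_range.1 (mem_filter.1 hv).1
    · simpa using ng_lt (mem_range.1 (mem_filter.1 (mem_nf.1 hv)).1)
  have q := h1.rel.quot fun F hF G hG a ha b hb c => by
    rcases Bool.or_eq_true_iff.1 (below_spec _ _ (h3 a (lt F hF a ha)).2 b (lt F hF b hb))
      with r | r
    exacts [absurd hb (nof_spec (lt F hF a ha) (lt F hF b hb) r F hF ha),
      nof_spec (lt F hF a ha) (ng_lt (lt F hF b hb)) r G hG c]
  have bd : ∀ s : Finset ℕ, (∃ F ∈ image (· / 2) '' DD L t, s ⊆ F) → ∀ v ∈ s, v < m := by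
    rintro s ⟨_, ⟨F, hF, rfl⟩, a⟩ v hv
    obtain ⟨w, b, rfl⟩ := mem_image.1 (a hv)
    rcases Bool.or_eq_true_iff.1 (h3 w (lt F hF w b)).1 with r | r
    · have : w + 1 ≤ 2 * m := Nat.le_of_ble_eq_true r
      omega
    · exact absurd b (nof_spec (lt F hF w b) (lt F hF w b) r F hF b)
  refine ⟨{s | ∃ F ∈ image (· / 2) '' DD L t, s ⊆ F}, ⟨(range m).powerset.finite_toSet.subset
    fun s hs => mem_coe.2 (mem_powerset.2 fun v hv => mem_range.2 (bd s hs v hv)),
    fun s ⟨F, a, b⟩ u c => ⟨F, a, c.trans b⟩⟩, bd, ?_⟩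
  rw [show real {s | ∃ F ∈ image (· / 2) '' DD L t, s ⊆ F} = R (image (· / 2) '' DD L t) from ?_]
  · exact q
  ext x
  refine and_congr_right fun _ => ⟨?_, fun ⟨F, a, b⟩ => ⟨F, ⟨F, a, Subset.rfl⟩, b⟩⟩
  rintro ⟨s, ⟨F, a, b⟩, c, d⟩
  exact ⟨F, a, fun v hv => c v fun e => hv (b e), by
    rw [← d, sum_subset b fun v _ e => c v e]⟩

end Pool.Agent.H10.Flip
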