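import Mathlib
import Pool.Agent.H10.CedBall

set_option autoImplicit false

/-! The standard geometric realization of the complex generated by a list of vertex lists. -/

namespace Pool.Agent.H10.Geo
open Finset Pool.Agent.H10.Ced

abbrev E (n : ℕ) := EuclideanSpace ℝ (Fin n)

noncomputable def pt (n : ℕ) (i : Fin n) : E n := EuclideanSpace.single i 1

lemma pt_indep (n : ℕ) : AffineIndependent ℝ (pt n) := by
  have h := (EuclideanSpace.basisFun (Fin n) ℝ).toBasis.linearIndependent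
  have e : ⇑(EuclideanSpace.basisFun (Fin n) ℝ).toBasis = pt n := by
    funext i; simp [pt]
  rw [e] at h
  exact h.affineIndependent

lemma pt_inj (n : ℕ) : Function.Injective (pt n) := (pt_indep n).injective

/-- the vertices below `n` that occur in the list `F` -/
def fin (n : ℕ) (F : List ℕ) : Finset (Fin n) := univ.filter fun i => i.val ∈ F

@[simp] lemma mem_fin (n : ℕ) (F : List ℕ) (i : Fin n) : i ∈ fin n F ↔ i.val ∈ F := by simp [fin]

open Classical in
noncomputable def im (n : ℕ) (s : Finset (Fin n)) : Finset (E n) := s.image (pt n)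

lemma im_sub (n : ℕ) (s t : Finset (Fin n)) : im n s ⊆ im n t ↔ s ⊆ t := by
  classical
  unfold im
  convert Finset.image_subset_image_iff (pt_inj n)

lemma im_inj (n : ℕ) (s t : Finset (Fin n)) (h : im n s = im n t) : s = t :=
  subset_antisymm ((im_sub n s t).1 h.subset) ((im_sub n t s).1 h.symm.subset)

lemma sub_im (n : ℕ) (t : Finset (Fin n)) (u : Finset (E n)) (h : u ⊆ im n t) :
    ∃ s, s ⊆ t ∧ u = im n s := by
  classical
  unfold im at h ⊢
  obtain ⟨s, hs, e⟩ := Finset.subset_image_iff.1 (by convert h)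
  exact ⟨s, hs, by convert e.symm⟩

lemma coe_im (n : ℕ) (s : Finset (Fin n)) : (im n s : Set (E n)) = pt n '' s := by
  simp [im]

def pre (n : ℕ) (L : List (List ℕ)) : PreAbstractSimplicialComplex (E n) where
  faces := {u | u.Nonempty ∧ ∃ F ∈ L, u ⊆ im n (fin n F)}
  isRelLowerSet_faces := by
    rintro u ⟨h1, F, hF, h2⟩
    exact ⟨h1, fun b hb hb' => ⟨hb', F, hF, subset_trans hb h2⟩⟩

open Classical in
noncomputable def KK (n : ℕ) (L : List (List ℕ)) : Geometry.SimplicialComplex ℝ (E n) :=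
  Geometry.SimplicialComplex.ofAffineIndependent (pre n L) (by
    refine (pt_indep n).range.mono fun x hx => ?_
    simp only [Set.mem_iUnion, Finset.mem_coe] at hx
    obtain ⟨u, ⟨-, F, -, h⟩, hx⟩ := hx
    have : x ∈ (im n (fin n F) : Set (E n)) := h hx
    rw [coe_im] at this
    obtain ⟨i, -, rfl⟩ := this
    exact ⟨i, rfl⟩)

lemma mem_faces (n : ℕ) (L : List (List ℕ)) (u : Finset (E n)) :
    u ∈ (KK n L).faces ↔ u.Nonempty ∧ ∃ F ∈ L, u ⊆ im n (fin n F) := Iff.rfl

lemma faces_finite (n : ℕ) (L : List (List ℕ)) : (KK n L).faces.Finite := by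
  refine (Finset.finite_toSet (im n univ).powerset).subset ?_
  rintro u ⟨-, F, -, h⟩
  exact Finset.mem_coe.2 (Finset.mem_powerset.2 (h.trans ((im_sub n _ _).2 (subset_univ _))))

lemma mem_hull (n : ℕ) (s : Finset (Fin n)) (x : E n) :
    x ∈ convexHull ℝ (im n s : Set (E n)) ↔
      (∀ i, 0 ≤ x i) ∧ (∀ i, i ∉ s → x i = 0) ∧ ∑ i ∈ s, x i = 1 := by
  constructor
  · intro hx
    have : convexHull ℝ (im n s : Set (E n)) ⊆
        {x | (∀ i, 0 ≤ x i) ∧ (∀ i, i ∉ s → x i = 0) ∧ ∑ i ∈ s, x i = 1} := by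
      refine convexHull_min ?_ ?_
      · rw [coe_im]
        rintro _ ⟨j, hj, rfl⟩
        refine ⟨fun i => ?_, fun i hi => ?_, ?_⟩
        · simp only [pt, PiLp.single_apply]; split_ifs <;> norm_num
        · have : i ≠ j := fun h => hi (h ▸ hj)
          simp [pt, this]
        · simp [pt, Finset.mem_coe.1 hj]
      · rintro y ⟨y0, y1, y2⟩ z ⟨z0, z1, z2⟩ a b ha hb hab
        refine ⟨fun i => ?_, fun i hi => ?_, ?_⟩
        · have := y0 i
          have := z0 i
          simp only [PiLp.add_apply, PiLp.smul_apply, smul_eq_mul]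
          positivity
        · simp [y1 i hi, z1 i hi]
        · simp only [PiLp.add_apply, PiLp.smul_apply, smul_eq_mul, Finset.sum_add_distrib,
            ← Finset.mul_sum, y2, z2]
          linarith
    exact this hx
  · rintro ⟨h0, h1, h2⟩
    have e : x = ∑ i ∈ s, x i • pt n i := by
      ext j
      by_cases hj : j ∈ s
      · simp [pt, Finset.sum_apply, Pi.single_apply, hj]
      · simp [pt, Finset.sum_apply, Pi.single_apply, hj, h1 j hj]
    rw [e]
    refine (convex_convexHull ℝ _).sum_mem (fun i _ => h0 i) h2 fun i hi => ?_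
    refine subset_convexHull ℝ _ ?_
    rw [coe_im]
    exact ⟨i, hi, rfl⟩

lemma sum_fin (n : ℕ) (F : List ℕ) (hF : ∀ v ∈ F, v < n) (y : ℕ → ℝ) :
    ∑ i ∈ fin n F, y i.val = ∑ v ∈ F.toFinset, y v := by
  refine Finset.sum_bij (fun i _ => i.val) (fun i hi => by simpa using hi)
    (fun i _ j _ h => Fin.ext h) (fun v hv => ?_) fun _ _ => rfl
  rw [List.mem_toFinset] at hv
  exact ⟨⟨v, hF v hv⟩, by simpa using hv, rfl⟩

lemma mem_space (n : ℕ) (L : List (List ℕ)) (x : E n) :
    x ∈ (KK n L).space ↔ ∃ F ∈ L, x ∈ convexHull ℝ (im n (fin n F) : Set (E n)) := by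
  rw [Geometry.SimplicialComplex.mem_space_iff]
  constructor
  · rintro ⟨u, ⟨-, F, hF, h⟩, hx⟩
    exact ⟨F, hF, convexHull_mono (by exact_mod_cast h) hx⟩
  · rintro ⟨F, hF, hx⟩
    refine ⟨_, ⟨?_, F, hF, subset_rfl⟩, hx⟩
    exact_mod_cast convexHull_nonempty_iff.1 ⟨x, hx⟩

lemma space_homeo (n : ℕ) (L : List (List ℕ)) (hL : ∀ F ∈ L, ∀ v ∈ F, v < n) :
    Nonempty ((KK n L).space ≃ₜ R L) := by
  let g : (ℕ → ℝ) → E n := fun y => WithLp.toLp 2 fun i => y i.val
  have gc : Continuous g := (PiLp.continuous_toLp 2 _).comp (by fun_prop)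
  have maps : ∀ y ∈ R L, g y ∈ (KK n L).space := by
    rintro y ⟨h0, F, hF, h1, h2⟩
    refine (mem_space n L _).2 ⟨F, hF, (mem_hull n _ _).2 ⟨fun i => h0 _, fun i hi => ?_, ?_⟩⟩
    · exact h1 _ (by simpa using hi)
    · rw [← h2, ← sum_fin n F (hL F hF)]
  let f : R L → (KK n L).space := fun y => ⟨g y, maps y y.2⟩
  have inj : Function.Injective f := by
    rintro ⟨x, hx0, F, hF, x1, x2⟩ ⟨y, hy0, G, hG, y1, y2⟩ h
    have h' : g x = g y := congrArg Subtype.val h
    refine Subtype.ext (funext fun u => ?_)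
    by_cases hu : u < n
    · exact congrArg (fun z : E n => z ⟨u, hu⟩) h'
    · exact (x1 u fun a => hu (hL F hF u a)).trans (y1 u fun a => hu (hL G hG u a)).symm
  have surj : Function.Surjective f := by
    rintro ⟨x, hx⟩
    obtain ⟨F, hF, h⟩ := (mem_space n L x).1 hx
    obtain ⟨h0, h1, h2⟩ := (mem_hull n _ _).1 h
    let y : ℕ → ℝ := fun v => if hv : v < n then x ⟨v, hv⟩ else 0
    have hy : ∀ i : Fin n, y i.val = x i := fun i => by simp [y]
    refine ⟨⟨y, fun v => ?_, F, hF, fun v hv => ?_, ?_⟩, Subtype.ext ?_⟩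
    · simp only [y]; split_ifs; exacts [h0 _, le_rfl]
    · simp only [y]; split_ifs with a
      exacts [h1 _ (by simpa using hv), rfl]
    · rw [← sum_fin n F (hL F hF), ← h2]
      exact Finset.sum_congr rfl fun i _ => hy i
    · ext i; exact hy i
  have : CompactSpace (R L) := isCompact_iff_compactSpace.1 (R_compact _)
  have cont : Continuous f := (gc.comp continuous_subtype_val).subtype_mk _
  exact ⟨((Equiv.ofBijective f ⟨inj, surj⟩).toHomeomorphOfContinuousClosed cont
    cont.isClosedMap).symm⟩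

lemma fin_sub (n : ℕ) (F G : List ℕ) (hF : ∀ v ∈ F, v < n) :
    fin n F ⊆ fin n G ↔ ∀ v ∈ F, v ∈ G := by
  constructor
  · intro h v hv
    simpa using h (x := ⟨v, hF v hv⟩) (by simpa using hv)
  · intro h i hi
    simpa using h _ (by simpa using hi)

/-- facets of the realization of an antichain of nonempty lists -/
lemma mem_facets (n : ℕ) (L : List (List ℕ)) (hL : ∀ F ∈ L, ∀ v ∈ F, v < n)
    (h0 : ∀ F ∈ L, F ≠ []) (ha : ∀ F ∈ L, ∀ G ∈ L, (∀ v ∈ F, v ∈ G) → F = G) (u : Finset (E n)) :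
    u ∈ (KK n L).facets ↔ ∃ F ∈ L, u = im n (fin n F) := by
  have hf : ∀ F ∈ L, im n (fin n F) ∈ (KK n L).faces := by
    intro F hF
    obtain ⟨v, hv⟩ := List.exists_mem_of_ne_nil F (h0 F hF)
    refine ⟨?_, F, hF, subset_rfl⟩
    unfold im
    exact Finset.Nonempty.image ⟨⟨v, hL F hF v hv⟩, by simpa using hv⟩ _
  rw [Geometry.SimplicialComplex.mem_facets]
  constructor
  · rintro ⟨⟨-, F, hF, h⟩, h2⟩
    exact ⟨F, hF, h2 _ (hf F hF) h⟩
  · rintro ⟨F, hF, rfl⟩
    refine ⟨hf F hF, ?_⟩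
    rintro t ⟨-, G, hG, h⟩ h2
    have := ha F hF G hG ((fin_sub n F G (hL F hF)).1 ((im_sub n _ _).1 (h2.trans h)))
    subst this
    exact subset_antisymm h2 h

end Pool.Agent.H10.Geo
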