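import Mathlib

namespace Pool.Agent.H10.Ht
open Finset

variable {V : Type} [Fintype V]

open Classical in
/-- transition matrix of the simple random walk -/
noncomputable def Pw (G : SimpleGraph V) (v u : V) : ℝ :=
  if G.Adj v u then 1 / (G.degree v : ℝ) else 0

open Classical in
/-- stationary distribution `deg v / (2|E|)` -/
noncomputable def piw (G : SimpleGraph V) (v : V) : ℝ :=
  (G.degree v : ℝ) / (2 * (G.edgeFinset.card : ℝ))

open Classical in
/-- the isoperimetric constant `φ_{1/2}(G)` -/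
noncomputable def phiHalf (G : SimpleGraph V) : ℝ :=
  sInf {x : ℝ | ∃ S : Finset V, S.Nonempty ∧ ∑ v ∈ S, piw G v ≤ 1 / 2 ∧
    x = (∑ v ∈ S, piw G v * √(∑ u ∈ Sᶜ, Pw G v u)) / ∑ v ∈ S, piw G v}

/-- the least nonzero eigenvalue of `I - P`; for a connected graph `0` is a simple eigenvalue and
all eigenvalues are real and nonnegative, so this is the second smallest eigenvalue `λ₂` -/
noncomputable def lam2 (G : SimpleGraph V) : ℝ :=
  sInf {μ : ℝ | μ ≠ 0 ∧ ∃ f : V → ℝ, f ≠ 0 ∧ ∀ v, f v - ∑ u, Pw G v u * f u = μ * f v}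

end Pool.Agent.H10.Ht
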