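import Mathlib
import Pool.Agent.H10.HtDefs

namespace Pool.Agent.H10.Ht
open Finset

variable {V : Type} [Fintype V]

noncomputable def Bf (P : V → V → ℝ) (f g : V → ℝ) : ℝ := ∑ v, f v * (g v - ∑ u, P v u * g u)

lemma Bf_symm (P : V → V → ℝ) (hs : ∀ u v, P u v = P v u) (f g : V → ℝ) : Bf P f g = Bf P g f := by
  unfold Bf
  simp only [mul_sub, sum_sub_distrib, mul_sum]
  congr 1
  · exact sum_congr rfl fun v _ => mul_comm _ _
  · rw [sum_comm]
    exact sum_congr rfl fun v _ => sum_congr rfl fun u _ => by rw [hs u v]; ring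

lemma Bf_dir (P : V → V → ℝ) (hs : ∀ u v, P u v = P v u) (hr : ∀ v, ∑ u, P v u = 1) (f : V → ℝ) :
    2 * Bf P f f = ∑ v, ∑ u, P v u * (f v - f u) ^ 2 := by
  have h1 : ∑ v, ∑ u, P v u * f v ^ 2 = ∑ v, f v ^ 2 :=
    sum_congr rfl fun v _ => by rw [← sum_mul, hr, one_mul]
  have h2 : ∑ v, ∑ u, P v u * f u ^ 2 = ∑ v, f v ^ 2 := by
    rw [sum_comm, ← h1]
    exact sum_congr rfl fun v _ => sum_congr rfl fun u _ => by rw [hs u v]
  have h3 : ∑ v, ∑ u, P v u * (f v - f u) ^ 2 = ∑ v, ∑ u, P v u * f v ^ 2 +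
      ∑ v, ∑ u, P v u * f u ^ 2 - 2 * ∑ v, ∑ u, f v * (P v u * f u) := by
    simp only [mul_sum, ← sum_add_distrib, ← sum_sub_distrib]
    exact sum_congr rfl fun v _ => sum_congr rfl fun u _ => by ring
  rw [h3, h1, h2]
  unfold Bf
  simp only [mul_sub, sum_sub_distrib, mul_sum, sq]
  simp only [← mul_sum]
  ring

lemma Bf_add (P : V → V → ℝ) (hs : ∀ u v, P u v = P v u) (f g : V → ℝ) (t : ℝ) :
    Bf P (fun v => f v + t * g v) (fun v => f v + t * g v) =
      Bf P f f + 2 * t * Bf P g f + t ^ 2 * Bf P g g := by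
  have := Bf_symm P hs f g
  have e : Bf P (fun v => f v + t * g v) (fun v => f v + t * g v) =
      Bf P f f + t * Bf P g f + t * Bf P f g + t ^ 2 * Bf P g g := by
    unfold Bf
    simp only [mul_sum, ← sum_add_distrib]
    refine sum_congr rfl fun v _ => ?_
    have : ∑ u, P v u * (f u + t * g u) = ∑ u, P v u * f u + t * ∑ u, P v u * g u := by
      rw [mul_sum, ← sum_add_distrib]; exact sum_congr rfl fun u _ => by ring
    rw [this]; ring
  rw [e, this]; ring

lemma Bf_smul (P : V → V → ℝ) (f : V → ℝ) (t : ℝ) :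
    Bf P (fun v => t * f v) (fun v => t * f v) = t ^ 2 * Bf P f f := by
  unfold Bf
  rw [mul_sum]
  refine sum_congr rfl fun v _ => ?_
  have : ∑ u, P v u * (t * f u) = t * ∑ u, P v u * f u := by
    rw [mul_sum]; exact sum_congr rfl fun u _ => by ring
  rw [this]; ring

lemma exists_eig (P : V → V → ℝ) (hs : ∀ u v, P u v = P v u) (hr : ∀ v, ∑ u, P v u = 1)
    (hc : ∀ f : V → ℝ, Bf P f f = 0 → ∀ u v, f u = f v) (g : V → ℝ) (hg : ∑ v, g v = 0)
    (hg0 : 0 < ∑ v, g v ^ 2) (R : ℝ) (hR : Bf P g g ≤ R * ∑ v, g v ^ 2) :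
    ∃ μ : ℝ, μ ≠ 0 ∧ μ ≤ R ∧ ∃ f : V → ℝ, f ≠ 0 ∧ ∀ v, f v - ∑ u, P v u * f u = μ * f v := by
  set K : Set (V → ℝ) := {f | ∑ v, f v = 0 ∧ ∑ v, f v ^ 2 = 1} with hK
  have hnorm : ∀ h : V → ℝ, ∑ v, h v = 0 → 0 < ∑ v, h v ^ 2 →
      (fun v => (√(∑ v, h v ^ 2))⁻¹ * h v) ∈ K := by
    intro h h1 h2
    refine ⟨by rw [← mul_sum, h1, mul_zero], ?_⟩
    simp only [mul_pow, ← mul_sum, inv_pow]
    rw [Real.sq_sqrt h2.le, inv_mul_cancel₀ h2.ne']
  have hKc : IsCompact K := by
    apply Metric.isCompact_of_isClosed_isBounded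
    · exact (isClosed_eq (by fun_prop) continuous_const).inter
        (isClosed_eq (by fun_prop) continuous_const)
    · refine (Metric.isBounded_closedBall (x := 0) (r := 1)).subset fun f hf => ?_
      rw [mem_closedBall_zero_iff, pi_norm_le_iff_of_nonneg zero_le_one]
      intro v
      have : f v ^ 2 ≤ 1 := hf.2 ▸ single_le_sum (f := fun v => f v ^ 2)
        (fun _ _ => sq_nonneg _) (mem_univ v)
      rw [Real.norm_eq_abs, ← sq_le_one_iff_abs_le_one]; exact this
  obtain ⟨f, hf, hmin⟩ := hKc.exists_isMinOn ⟨_, hnorm g hg hg0⟩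
    (f := fun f => Bf P f f) (by unfold Bf; fun_prop)
  set μ := Bf P f f with hμ
  have hq : ∀ h : V → ℝ, ∑ v, h v = 0 → μ * ∑ v, h v ^ 2 ≤ Bf P h h := by
    intro h h1
    rcases (sum_nonneg fun v _ => sq_nonneg (h v)).eq_or_lt with h2 | h2
    · have : h = 0 := by
        funext v
        have := (sum_eq_zero_iff_of_nonneg fun v _ => sq_nonneg (h v)).1 h2.symm v (mem_univ v)
        simpa using this
      subst this; simp [Bf]
    · have := hmin (hnorm h h1 h2)
      simp only [Set.mem_setOf_eq] at this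
      rw [Bf_smul, inv_pow, Real.sq_sqrt h2.le] at this
      rw [← le_div_iff₀ h2, div_eq_inv_mul]; exact this
  have hf0 : f ≠ 0 := by
    rintro rfl
    have := hf.2; simp at this
  refine ⟨μ, ?_, ?_, f, hf0, ?_⟩
  · intro h0
    have hcst := hc f h0
    apply hf0
    funext v
    have : ∑ u, f u = ∑ _u : V, f v := sum_congr rfl fun u _ => hcst u v
    rw [hf.1] at this
    simp only [sum_const, card_univ, nsmul_eq_mul] at this
    have hN : (Fintype.card V : ℝ) ≠ 0 := by
      have : Nonempty V := ⟨v⟩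
      exact_mod_cast Fintype.card_ne_zero
    simpa [hN] using this.symm
  · exact le_of_mul_le_mul_right ((hq g hg).trans hR) hg0
  · set r : V → ℝ := fun v => f v - ∑ u, P v u * f u - μ * f v with hr'
    have hr0 : ∑ v, r v = 0 := by
      simp only [hr', sum_sub_distrib, ← mul_sum]
      rw [sum_comm]
      have : ∑ u, ∑ v, P v u * f u = ∑ u, f u := sum_congr rfl fun u _ => by
        rw [← sum_mul]; simp_rw [fun v => hs v u]; rw [hr, one_mul]
      rw [this, hf.1]; ring
    have hb : Bf P r f - μ * ∑ v, r v * f v = ∑ v, r v ^ 2 := by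
      unfold Bf
      rw [mul_sum, ← sum_sub_distrib]
      exact sum_congr rfl fun v _ => by simp only [hr']; ring
    have key : ∀ t : ℝ, 0 ≤ 2 * t * (∑ v, r v ^ 2) + t ^ 2 * (Bf P r r - μ * ∑ v, r v ^ 2) := by
      intro t
      have h1 := hq (fun v => f v + t * r v) (by rw [sum_add_distrib, ← mul_sum, hf.1, hr0]; ring)
      rw [Bf_add P hs] at h1
      have h2 : ∑ v, (f v + t * r v) ^ 2 = 1 + 2 * t * ∑ v, r v * f v + t ^ 2 * ∑ v, r v ^ 2 := by
        rw [← hf.2]
        simp only [mul_sum, ← sum_add_distrib]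
        exact sum_congr rfl fun v _ => by ring
      rw [h2] at h1
      rw [← hb]
      rw [← hb] at h1
      nlinarith
    set a := ∑ v, r v ^ 2 with ha
    set b := Bf P r r - μ * a with hb'
    have ha0 : 0 ≤ a := sum_nonneg fun v _ => sq_nonneg _
    have hb0 : 0 ≤ b := by have := hq r hr0; linarith
    have : a = 0 := by
      by_contra hne
      have hpos : 0 < a := lt_of_le_of_ne ha0 (Ne.symm hne)
      have h1 := key (-(a / (b + 1)))
      have h2 : 0 < a / (b + 1) := by positivity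
      have h3 : a / (b + 1) * b < a := by
        rw [div_mul_eq_mul_div, div_lt_iff₀ (by positivity)]; nlinarith
      nlinarith
    intro v
    have h4 := (sum_eq_zero_iff_of_nonneg fun v _ => sq_nonneg (r v)).1 this v (mem_univ v)
    have h5 : r v = 0 := by simpa using h4
    simp only [hr'] at h5
    linarith

end Pool.Agent.H10.Ht
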