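import Mathlib

namespace Pool.Agent.H10.Ht
open Finset

noncomputable def hh (m : ℕ) : ℝ := ∑ i ∈ range m, (1 / (i + 1) : ℝ)

lemma hh_succ (m : ℕ) : hh (m + 1) = hh m + 1 / (m + 1) := sum_range_succ _ _

lemma hh_nonneg (m : ℕ) : 0 ≤ hh m := sum_nonneg fun _ _ => by positivity

lemma hh_le (m : ℕ) : hh m ≤ m := by
  induction m with
  | zero => simp [hh]
  | succ m ih =>
    rw [hh_succ]
    have : (1 / (m + 1) : ℝ) ≤ 1 := by
      rw [div_le_one (by positivity)]; have : (0 : ℝ) ≤ m := by positivity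
      linarith
    push_cast; linarith

lemma hh_avg (t s : ℕ) (h : t ≤ s) : t * hh s ≤ s * hh t := by
  induction s, h using Nat.le_induction with
  | base => exact le_rfl
  | succ s hs ih =>
    rw [hh_succ]
    have : (t : ℝ) * (1 / (s + 1)) ≤ hh t := by
      have : ∑ _i ∈ range t, (1 / (s + 1) : ℝ) ≤ hh t := sum_le_sum fun i hi => by
        have : (i : ℝ) ≤ s := by exact_mod_cast (by have := mem_range.1 hi; omega)
        gcongr
      simpa using this
    push_cast; nlinarith

lemma greedy {α : Type} [DecidableEq α] (T : Finset α) (y : α → ℝ) (hy : ∀ i, 0 ≤ y i) (c : ℝ) (m0 : ℕ)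
    (h : ∀ m : ℕ, 1 ≤ m → m ≤ m0 → ∃ B ⊆ T, m ≤ B.card ∧ ∀ i ∈ B, c / m ≤ y i) :
    c * hh m0 ≤ ∑ i ∈ T, y i := by
  have key : ∀ m, m ≤ m0 → ∃ F ⊆ T, F.card = m ∧ c * hh m ≤ ∑ i ∈ F, y i := by
    intro m
    induction m with
    | zero => intro _; exact ⟨∅, empty_subset _, rfl, by simp [hh]⟩
    | succ m ih =>
      intro hm
      obtain ⟨F, hF, h1, h2⟩ := ih (by omega)
      obtain ⟨B, hB, h3, h4⟩ := h (m + 1) (by omega) hm
      obtain ⟨i, hi, hi'⟩ := exists_mem_notMem_of_card_lt_card (s := F) (t := B) (by omega)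
      refine ⟨insert i F, insert_subset (hB hi) hF, by rw [card_insert_of_notMem hi', h1], ?_⟩
      rw [sum_insert hi', hh_succ]
      have := h4 i hi
      push_cast at this
      rw [mul_add, mul_one_div]; linarith
  obtain ⟨F, hF, -, h2⟩ := key m0 le_rfl
  exact h2.trans (sum_le_sum_of_subset_of_nonneg hF fun i _ _ => hy i)

lemma window (n0 m : ℕ) (U : Finset ℕ) (hU : U ⊆ range (8 * n0)) (hc : 2 * n0 ≤ U.card)
    (hm1 : 1 ≤ m) (hm : m ≤ n0) (hT : m ≤ (range (8 * n0) \ U).card) :
    ∃ B ⊆ range (8 * n0) \ U, m ≤ B.card ∧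
      ∀ i ∈ B, m ≤ (U.filter fun j => i < j + 8 * m ∧ j < i + 8 * m).card := by
  set g : ℕ → ℕ := fun s => (U.filter fun j => s ≤ j ∧ j < s + 8 * m).card with hg
  have hsub : ∀ s i, s ≤ i → i < s + 8 * m →
      g s ≤ (U.filter fun j => i < j + 8 * m ∧ j < i + 8 * m).card := by
    intro s i h1 h2
    refine card_le_card fun j hj => ?_
    rw [mem_filter] at hj ⊢
    exact ⟨hj.1, by omega, by omega⟩
  by_cases hex : ∃ s, s + 8 * m ≤ 8 * n0 ∧ g s = m
  · obtain ⟨s, hs1, hs2⟩ := hex
    refine ⟨Ico s (s + 8 * m) \ U, ?_, ?_, ?_⟩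
    · intro i hi
      rw [mem_sdiff, mem_Ico] at hi
      exact mem_sdiff.2 ⟨mem_range.2 (by omega), hi.2⟩
    · have e : Ico s (s + 8 * m) ∩ U = U.filter fun j => s ≤ j ∧ j < s + 8 * m := by
        ext j; simp [and_comm]
      have := card_sdiff_add_card_inter (Ico s (s + 8 * m)) U
      rw [e, Nat.card_Ico] at this
      simp only [hg] at hs2
      omega
    · intro i hi
      rw [mem_sdiff, mem_Ico] at hi
      exact hs2 ▸ hsub s i hi.1.1 hi.1.2
  · push Not at hex
    have step : ∀ s, g (s + 1) ≤ g s + 1 ∧ g s ≤ g (s + 1) + 1 := by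
      intro s
      constructor
      · refine le_trans (card_le_card (t := insert (s + 8 * m) (U.filter fun j => s ≤ j ∧ j < s + 8 * m))
          fun j hj => ?_) (card_insert_le _ _)
        rw [mem_filter] at hj
        rw [mem_insert, mem_filter]
        by_cases e : j = s + 8 * m
        · exact Or.inl e
        · exact Or.inr ⟨hj.1, by omega, by omega⟩
      · refine le_trans (card_le_card (t := insert s (U.filter fun j => s + 1 ≤ j ∧ j < s + 1 + 8 * m))
          fun j hj => ?_) (card_insert_le _ _)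
        rw [mem_filter] at hj
        rw [mem_insert, mem_filter]
        by_cases e : j = s
        · exact Or.inl e
        · exact Or.inr ⟨hj.1, by omega, by omega⟩
    have hconst : ∀ s, s + 8 * m ≤ 8 * n0 → (g s < m ↔ g 0 < m) := by
      intro s
      induction s with
      | zero => intro _; rfl
      | succ s ih =>
        intro hs
        have h1 := hex s (by omega)
        have h2 := hex (s + 1) hs
        have h3 := step s
        rw [← ih (by omega)]
        omega
    by_cases h0 : g 0 < m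
    · exfalso
      have hall : ∀ s, s + 8 * m ≤ 8 * n0 → g s < m := fun s hs => (hconst s hs).2 h0
      have hcov : U ⊆ (range (n0 / m + 1)).biUnion fun t =>
          U.filter fun j => min (8 * m * t) (8 * n0 - 8 * m) ≤ j ∧
            j < min (8 * m * t) (8 * n0 - 8 * m) + 8 * m := by
        intro j hj
        have hj' := mem_range.1 (hU hj)
        have e1 := Nat.div_add_mod j (8 * m)
        have e2 := Nat.mod_lt j (show 8 * m > 0 by omega)
        refine mem_biUnion.2 ⟨j / (8 * m), mem_range.2 ?_, mem_filter.2 ⟨hj, by omega, by omega⟩⟩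
        have : j / (8 * m) ≤ (8 * n0) / (8 * m) := Nat.div_le_div_right hj'.le
        rw [Nat.mul_div_mul_left _ _ (by norm_num)] at this
        omega
      have h1 := (card_le_card hcov).trans card_biUnion_le
      have h2 : ∑ t ∈ range (n0 / m + 1), (U.filter fun j => min (8 * m * t) (8 * n0 - 8 * m) ≤ j ∧
            j < min (8 * m * t) (8 * n0 - 8 * m) + 8 * m).card ≤ ∑ _t ∈ range (n0 / m + 1), (m - 1) :=
        sum_le_sum fun t _ => by
          have := hall (min (8 * m * t) (8 * n0 - 8 * m)) (by omega)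
          simp only [hg] at this
          omega
      simp only [sum_const, card_range, smul_eq_mul] at h2
      have h3 := Nat.div_mul_le_self n0 m
      obtain ⟨k, rfl⟩ : ∃ k, m = k + 1 := ⟨m - 1, by omega⟩
      simp only [Nat.add_sub_cancel] at h2
      nlinarith [Nat.zero_le (n0 / (k + 1))]
    · refine ⟨range (8 * n0) \ U, Subset.rfl, hT, fun i hi => ?_⟩
      have hi' := mem_range.1 (mem_sdiff.1 hi).1
      have h1 := hconst (min i (8 * n0 - 8 * m)) (by omega)
      have h2 := hsub (min i (8 * n0 - 8 * m)) i (by omega) (by omega)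
      omega

/-- cyclic distance -/
def cd (n i j : ℕ) : ℕ := min (i - j + (j - i)) (n - (i - j + (j - i)))

lemma cd_symm (n i j : ℕ) : cd n i j = cd n j i := by unfold cd; omega

lemma sum_cd (n i : ℕ) (hi : i < n) (F : ℕ → ℝ) :
    ∑ j ∈ range n, F (cd n i j) = ∑ j ∈ range n, F (min j (n - j)) := by
  refine sum_bij' (fun j _ => if i ≤ j then j - i else j + n - i)
    (fun j _ => if i + j < n then i + j else i + j - n) ?_ ?_ ?_ ?_ ?_
  · intro j hj; rw [mem_range] at *; split_ifs <;> omega
  · intro j hj; rw [mem_range] at *; split_ifs <;> omega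
  · intro j hj; rw [mem_range] at *; split_ifs <;> omega
  · intro j hj; rw [mem_range] at *; split_ifs <;> omega
  · intro j hj; rw [mem_range] at *; congr 1; unfold cd; split_ifs <;> omega

lemma sum_min_le (n : ℕ) (F : ℕ → ℝ) (hF : ∀ j, 0 ≤ F j) :
    ∑ j ∈ range n, F (min j (n - j)) ≤ 2 * ∑ j ∈ range (n + 1), F j := by
  have h1 : ∑ j ∈ range n, F (min j (n - j)) ≤ ∑ j ∈ range (n + 1), (F j + F (n - j)) := by
    refine le_trans (sum_le_sum fun j _ => (?_ : F (min j (n - j)) ≤ F j + F (n - j)))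
      (sum_le_sum_of_subset_of_nonneg (range_subset_range.2 (Nat.le_succ n))
        fun j _ _ => add_nonneg (hF _) (hF _))
    rcases min_choice j (n - j) with h | h <;> rw [h] <;> linarith [hF j, hF (n - j)]
  rw [sum_add_distrib] at h1
  have h2 := sum_range_reflect F (n + 1)
  simp only [Nat.add_sub_cancel] at h2
  linarith

lemma sum_inv_sq (n : ℕ) : ∑ j ∈ range (n + 1), (1 : ℝ) / ((j : ℕ) : ℝ) ^ 2 ≤ 2 := by
  have : ∀ k : ℕ, ∑ j ∈ range (k + 2), (1 : ℝ) / ((j : ℕ) : ℝ) ^ 2 ≤ 2 - 1 / ((k : ℝ) + 1) := by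
    intro k
    induction k with
    | zero => simp [sum_range_succ]; norm_num
    | succ k ih =>
      rw [sum_range_succ]
      have : ((1 : ℝ) / ((k + 2 : ℕ) : ℝ) ^ 2) ≤ 1 / (k + 1) - 1 / (((k + 1 : ℕ) : ℝ) + 1) := by
        push_cast
        rw [div_sub_div _ _ (by positivity) (by positivity), div_le_div_iff₀ (by positivity) (by positivity)]
        nlinarith [show (0 : ℝ) ≤ k by positivity]
      linarith
  cases n with
  | zero => simp
  | succ k =>
    have h := this k
    have : (0 : ℝ) ≤ 1 / (k + 1) := by positivity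
    linarith

end Pool.Agent.H10.Ht
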