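import Mathlib
import Pool.Agent.H10.HtA
import Pool.Agent.H10.HtB

namespace Pool.Agent.H10.Ht
open Finset

section gen
variable {V : Type} [Fintype V]

open Classical in
noncomputable def ee (G : SimpleGraph V) (v u : V) : ℝ := if G.Adj v u then 1 else 0

lemma ee_nonneg (G : SimpleGraph V) (v u : V) : 0 ≤ ee G v u := by
  unfold ee; split_ifs <;> norm_num

lemma ee_symm (G : SimpleGraph V) (v u : V) : ee G v u = ee G u v := by
  unfold ee; rw [G.adj_comm]

open Classical in
lemma deg_eq (G : SimpleGraph V) (v : V) : (G.degree v : ℝ) = ∑ u, ee G v u := by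
  unfold ee
  rw [sum_boole, ← SimpleGraph.card_neighborFinset_eq_degree, SimpleGraph.neighborFinset_eq_filter]

lemma Pw_eq (G : SimpleGraph V) (D : ℝ) (hD : ∀ v, ∑ u, ee G v u = D) (v u : V) :
    Pw G v u = ee G v u / D := by
  unfold Pw
  rw [deg_eq, hD]
  unfold ee
  split_ifs <;> simp

lemma piw_eq (G : SimpleGraph V) (D : ℝ) (hD : ∀ v, ∑ u, ee G v u = D) (h0 : 0 < D) (v : V) :
    piw G v = 1 / Fintype.card V := by
  classical
  unfold piw
  have h := G.sum_degrees_eq_twice_card_edges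
  have h' : (2 * (G.edgeFinset.card : ℝ)) = ∑ v, (G.degree v : ℝ) := by exact_mod_cast h.symm
  have h2 : ∑ v, (G.degree v : ℝ) = Fintype.card V * D := by
    simp only [deg_eq, hD]; simp
  have h3 : (2 * (G.edgeFinset.card : ℝ)) = Fintype.card V * D := h'.trans h2
  have hN : (Fintype.card V : ℝ) ≠ 0 := by
    have : Nonempty V := ⟨v⟩
    exact_mod_cast Fintype.card_ne_zero
  rw [deg_eq, hD]
  convert (show D / (Fintype.card V * D) = 1 / Fintype.card V by field_simp) using 2

open Classical in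
lemma phi_ge (G : SimpleGraph V) (D : ℝ) (hD : ∀ v, ∑ u, ee G v u = D) (h0 : 0 < D)
    (hN : 2 ≤ Fintype.card V) (c : ℝ)
    (h : ∀ S : Finset V, 2 * S.card ≤ Fintype.card V →
      c * √D * S.card ≤ ∑ v ∈ S, √(∑ u ∈ Sᶜ, ee G v u)) : c ≤ phiHalf G := by
  have hN' : (2 : ℝ) ≤ Fintype.card V := by exact_mod_cast hN
  have : Nonempty V := Fintype.card_pos_iff.1 (by omega)
  unfold phiHalf
  apply le_csInf
  · refine ⟨_, {Classical.arbitrary V}, singleton_nonempty _, ?_, rfl⟩
    rw [sum_singleton, piw_eq G D hD h0]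
    gcongr
  · rintro x ⟨S, hS, h1, rfl⟩
    simp only [piw_eq G D hD h0, Pw_eq G D hD, sum_const, nsmul_eq_mul] at h1 ⊢
    have hS' : (0 : ℝ) < S.card := by exact_mod_cast hS.card_pos
    have h2 : 2 * S.card ≤ Fintype.card V := by
      rw [mul_one_div, div_le_div_iff₀ (by positivity) (by norm_num)] at h1
      have : (2 * S.card : ℝ) ≤ Fintype.card V := by linarith
      exact_mod_cast this
    have h3 := h S h2
    have hsq : 0 < √D := Real.sqrt_pos.2 h0
    have h4 : ∑ v ∈ S, 1 / (Fintype.card V : ℝ) * √(∑ u ∈ Sᶜ, ee G v u / D) =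
        1 / (Fintype.card V : ℝ) / √D * ∑ v ∈ S, √(∑ u ∈ Sᶜ, ee G v u) := by
      rw [mul_sum]
      refine sum_congr rfl fun v _ => ?_
      rw [← sum_div, Real.sqrt_div' _ h0.le]; ring
    rw [h4, le_div_iff₀ (by positivity)]
    calc c * (S.card * (1 / (Fintype.card V : ℝ)))
        = 1 / (Fintype.card V : ℝ) / √D * (c * √D * S.card) := by field_simp
      _ ≤ _ := by gcongr

lemma lam_le (G : SimpleGraph V) (hG : G.Connected) (D : ℝ) (hD : ∀ v, ∑ u, ee G v u = D)
    (h0 : 0 < D) (g : V → ℝ) (hg : ∑ v, g v = 0) (hg0 : 0 < ∑ v, g v ^ 2) (R : ℝ) (hR0 : 0 ≤ R)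
    (hR : ∑ v, ∑ u, ee G v u * (g v - g u) ^ 2 ≤ 2 * D * R * ∑ v, g v ^ 2) : lam2 G ≤ R := by
  have hs : ∀ u v, Pw G u v = Pw G v u := fun u v => by
    rw [Pw_eq G D hD, Pw_eq G D hD, ee_symm]
  have hr : ∀ v, ∑ u, Pw G v u = 1 := fun v => by
    simp only [Pw_eq G D hD]; rw [← sum_div, hD, div_self h0.ne']
  have hdir : ∀ f : V → ℝ, 2 * D * Bf (Pw G) f f = ∑ v, ∑ u, ee G v u * (f v - f u) ^ 2 := by
    intro f
    have := Bf_dir (Pw G) hs hr f
    rw [mul_right_comm, this, sum_mul]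
    refine sum_congr rfl fun v _ => ?_
    rw [sum_mul]
    refine sum_congr rfl fun u _ => ?_
    rw [Pw_eq G D hD]; field_simp
  obtain ⟨μ, h1, h2, h3⟩ := exists_eig (Pw G) hs hr (by
    intro f hf u v
    have h := hdir f
    rw [hf, mul_zero] at h
    have hadj : ∀ a b, G.Adj a b → f a = f b := by
      intro a b hab
      have e1 := (sum_eq_zero_iff_of_nonneg fun v _ => sum_nonneg fun u _ =>
        mul_nonneg (ee_nonneg G v u) (sq_nonneg (f v - f u))).1 h.symm a (mem_univ _)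
      have e2 := (sum_eq_zero_iff_of_nonneg fun u _ =>
        mul_nonneg (ee_nonneg G a u) (sq_nonneg (f a - f u))).1 e1 b (mem_univ _)
      simp only [ee, hab, if_true, one_mul] at e2
      have := pow_eq_zero_iff (two_ne_zero) |>.1 e2
      linarith
    obtain ⟨p⟩ := hG.preconnected u v
    induction p with
    | nil => rfl
    | cons h _ ih => exact (hadj _ _ h).trans ih) g hg hg0 R (by
      have := hdir g
      have h5 : 2 * D * Bf (Pw G) g g ≤ 2 * D * (R * ∑ v, g v ^ 2) := by linarith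
      exact le_of_mul_le_mul_left h5 (by positivity))
  unfold lam2
  by_cases hb : BddBelow {μ : ℝ | μ ≠ 0 ∧ ∃ f : V → ℝ, f ≠ 0 ∧
      ∀ v, f v - ∑ u, Pw G v u * f u = μ * f v}
  · exact (csInf_le hb ⟨h1, h3⟩).trans h2
  · rw [Real.sInf_of_not_bddBelow hb]; exact hR0

end gen

def ww (n M i j : ℕ) : ℕ := M / cd n i j ^ 3

lemma ww_self (n M i : ℕ) : ww n M i i = 0 := by simp [ww, cd]

def GG (n M : ℕ) [NeZero M] : SimpleGraph (Fin n × Fin M) where
  Adj x y := (x.1 = y.1 ∧ x.2 ≠ y.2) ∨ (x.2 + y.2).val < ww n M x.1 y.1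
  symm := ⟨by
    rintro x y (h | h)
    · exact Or.inl ⟨h.1.symm, h.2.symm⟩
    · right; rw [add_comm]; unfold ww at *; rwa [cd_symm]⟩
  loopless := ⟨by
    rintro x (h | h)
    · exact h.2 rfl
    · rw [ww_self] at h; exact Nat.not_lt_zero _ h⟩

variable {n M : ℕ} [NeZero M]

lemma ee_ne {i j : Fin n} (h : i ≠ j) (a : Fin M) :
    ∑ b, ee (GG n M) (i, a) (j, b) = ww n M i j := by
  have e : ∀ b, ee (GG n M) (i, a) (j, b) = if (a + b).val < ww n M i j then 1 else 0 := by
    intro b; simp [ee, GG, h]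
  simp only [e]
  have e2 := Equiv.sum_comp (Equiv.addLeft a) (fun b => if b.val < ww n M i j then (1 : ℝ) else 0)
  refine Eq.trans e2 ?_
  rw [Fin.sum_univ_eq_sum_range (fun b => if b < ww n M i j then (1 : ℝ) else 0), sum_boole]
  have : (range M).filter (fun b => b < ww n M i j) = range (ww n M i j) := by
    ext b
    have : ww n M i j ≤ M := Nat.div_le_self _ _
    simp only [mem_filter, mem_range]; omega
  rw [this, card_range]

lemma ee_same (i : Fin n) (a b : Fin M) :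
    ee (GG n M) (i, a) (i, b) = if a = b then 0 else 1 := by
  simp [ee, GG, ww_self]

lemma ee_eq (i : Fin n) (a : Fin M) : ∑ b, ee (GG n M) (i, a) (i, b) = M - 1 := by
  simp only [ee_same]
  have : ∀ b : Fin M, (if a = b then (0 : ℝ) else 1) = 1 - if a = b then 1 else 0 := by
    intro b; split_ifs <;> simp
  simp [this]

noncomputable def WW (n M : ℕ) : ℝ := ∑ j ∈ range n, ((M / (min j (n - j)) ^ 3 : ℕ) : ℝ)

lemma sum_ww (i : Fin n) : ∑ j : Fin n, (ww n M i j : ℝ) = WW n M := by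
  rw [Fin.sum_univ_eq_sum_range (fun j => (ww n M i j : ℝ))]
  exact sum_cd n i i.2 (fun d => ((M / d ^ 3 : ℕ) : ℝ))

lemma WW_le : WW n M ≤ 4 * M := by
  have h1 := sum_min_le n (fun d => ((M / d ^ 3 : ℕ) : ℝ)) (fun _ => by positivity)
  have h2 : ∑ j ∈ range (n + 1), ((M / j ^ 3 : ℕ) : ℝ) ≤
      ∑ j ∈ range (n + 1), M * ((1 : ℝ) / ((j : ℕ) : ℝ) ^ 2) := by
    refine sum_le_sum fun j _ => ?_
    rcases Nat.eq_zero_or_pos j with rfl | hj
    · simp
    · refine Nat.cast_div_le.trans ?_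
      have : (1 : ℝ) ≤ j := by exact_mod_cast hj
      push_cast
      rw [mul_one_div]
      gcongr
      norm_num
  rw [← mul_sum] at h2
  have h3 := sum_inv_sq n
  have : (0 : ℝ) ≤ M := by positivity
  unfold WW
  nlinarith

lemma GG_reg (x : Fin n × Fin M) : ∑ y, ee (GG n M) x y = M - 1 + WW n M := by
  obtain ⟨i, a⟩ := x
  rw [Fintype.sum_prod_type, ← sum_ww i, ← add_sum_erase _ _ (mem_univ i),
    ← add_sum_erase _ (fun j : Fin n => (ww n M i j : ℝ)) (mem_univ i), ee_eq, ww_self]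
  simp only [Nat.cast_zero, zero_add]
  congr 1
  exact sum_congr rfl fun j hj => ee_ne (ne_of_mem_erase hj).symm a

lemma GG_conn (hn : 0 < n) (hM : n ^ 3 ≤ M) : (GG n M).Connected := by
  have : Nonempty (Fin n × Fin M) := ⟨(⟨0, hn⟩, 0)⟩
  have h1 : ∀ x : Fin n × Fin M, (GG n M).Reachable x (x.1, 0) := by
    rintro ⟨i, a⟩
    by_cases h : a = 0
    · subst h; rfl
    · exact SimpleGraph.Adj.reachable (Or.inl ⟨rfl, h⟩)
  have h2 : ∀ i j : Fin n, (GG n M).Reachable (i, 0) (j, 0) := by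
    intro i j
    by_cases h : i = j
    · subst h; rfl
    · refine SimpleGraph.Adj.reachable (Or.inr ?_)
      simp only [add_zero, Fin.val_zero]
      have hc : 0 < cd n i j ∧ cd n i j ≤ n := by
        have := i.2; have := j.2; have : i.val ≠ j.val := fun e => h (Fin.ext e)
        unfold cd; omega
      exact Nat.div_pos ((Nat.pow_le_pow_left hc.2 3).trans hM) (by have := hc.1; positivity)
  exact ⟨fun x y => (h1 x).trans ((h2 _ _).trans (h1 y).symm)⟩

end Pool.Agent.H10.Ht
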