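import Mathlib
import Pool.Agent.H10.HtC

namespace Pool.Agent.H10.Ht
open Finset

variable {n M : ℕ} [NeZero M]

def ch (S : Finset (Fin n × Fin M)) (i : Fin n) (a : Fin M) : ℝ := if (i, a) ∈ S then 1 else 0

lemma ch_nonneg (S : Finset (Fin n × Fin M)) (i a) : 0 ≤ ch S i a := by
  unfold ch; split_ifs <;> norm_num

lemma ch_le (S : Finset (Fin n × Fin M)) (i a) : 0 ≤ 1 - ch S i a := by
  unfold ch; split_ifs <;> norm_num

noncomputable def XX (S : Finset (Fin n × Fin M)) (v : Fin n × Fin M) : ℝ :=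
  ∑ j, ∑ b, (1 - ch S j b) * ee (GG n M) v (j, b)

noncomputable def ss (S : Finset (Fin n × Fin M)) (i : Fin n) : ℝ := ∑ a, ch S i a

noncomputable def FF (S : Finset (Fin n × Fin M)) (i : Fin n) : ℝ := ∑ a, ch S i a * √(XX S (i, a))

lemma sum_ch (S : Finset (Fin n × Fin M)) (f : Fin n × Fin M → ℝ) :
    ∑ v ∈ S, f v = ∑ i, ∑ a, ch S i a * f (i, a) := by
  rw [← Fintype.sum_prod_type (fun x : Fin n × Fin M => ch S x.1 x.2 * f x)]
  simp [ch]

lemma XX_eq (S : Finset (Fin n × Fin M)) [DecidableEq (Fin n × Fin M)] (v : Fin n × Fin M) :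
    ∑ u ∈ Sᶜ, ee (GG n M) v u = XX S v := by
  rw [sum_ch]
  refine sum_congr rfl fun j _ => sum_congr rfl fun b _ => ?_
  congr 1
  unfold ch
  by_cases h : (j, b) ∈ S <;> simp [h]

lemma ss_nonneg (S : Finset (Fin n × Fin M)) (i) : 0 ≤ ss S i := sum_nonneg fun a _ => ch_nonneg S i a

lemma ss_compl (S : Finset (Fin n × Fin M)) (i) : ∑ a, (1 - ch S i a) = M - ss S i := by
  simp [ss]

lemma FF_nonneg (S : Finset (Fin n × Fin M)) (i) : 0 ≤ FF S i :=
  sum_nonneg fun a _ => mul_nonneg (ch_nonneg S i a) (Real.sqrt_nonneg _)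

lemma term_nonneg (S : Finset (Fin n × Fin M)) (v) (j : Fin n) :
    0 ≤ ∑ b, (1 - ch S j b) * ee (GG n M) v (j, b) :=
  sum_nonneg fun b _ => mul_nonneg (ch_le S j b) (ee_nonneg _ _ _)

lemma FF_ge1 (S : Finset (Fin n × Fin M)) (i) : ss S i * √(M - ss S i) ≤ FF S i := by
  unfold FF
  rw [show ss S i * √(M - ss S i) = ∑ a, ch S i a * √(M - ss S i) by rw [← sum_mul]; rfl]
  refine sum_le_sum fun a _ => ?_
  by_cases h : (i, a) ∈ S
  · refine mul_le_mul_of_nonneg_left (Real.sqrt_le_sqrt ?_) (ch_nonneg _ _ _)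
    refine le_trans ?_ (single_le_sum (f := fun j => ∑ b, (1 - ch S j b) * ee (GG n M) (i, a) (j, b))
      (fun j _ => term_nonneg S _ j) (mem_univ i))
    rw [← ss_compl]
    refine le_of_eq (sum_congr rfl fun b _ => ?_)
    rw [ee_same]
    split_ifs with e
    · subst e; simp [ch, h]
    · simp
  · simp [ch, h]

lemma FF_ge2 (S : Finset (Fin n × Fin M)) (U : Finset (Fin n)) (hU : ∀ j ∈ U, ss S j ≤ 2 * M / 3)
    (i : Fin n) (hi : i ∉ U) (hs : 2 * M / 3 ≤ ss S i) :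
    M * √(∑ j ∈ U, (ww n M i j : ℝ)) / 9 ≤ FF S i := by
  set W := ∑ j ∈ U, (ww n M i j : ℝ) with hW
  have hM : (0 : ℝ) ≤ M := by positivity
  have hW0 : 0 ≤ W := sum_nonneg fun _ _ => by positivity
  have hW4 : W ≤ 4 * M := by
    refine le_trans ?_ (WW_le (n := n) (M := M))
    rw [← sum_ww i]
    exact sum_le_sum_of_subset_of_nonneg (subset_univ _) fun _ _ _ => by positivity
  have hsq := Real.sqrt_nonneg W
  by_cases hc : ss S i ≤ 5 * M / 6
  · refine le_trans ?_ (FF_ge1 S i)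
    have h1 : √W / 5 ≤ √(M - ss S i) := by
      apply Real.le_sqrt_of_sq_le
      rw [div_pow, Real.sq_sqrt hW0]; linarith
    calc M * √W / 9 ≤ (2 * M / 3) * (√W / 5) := by nlinarith [mul_nonneg hM hsq]
      _ ≤ _ := by gcongr; exact ss_nonneg _ _
  push Not at hc
  set X' : Fin M → ℝ := fun a => ∑ j ∈ U, ∑ b, (1 - ch S j b) * ee (GG n M) (i, a) (j, b) with hX'
  have hne : ∀ j ∈ U, i ≠ j := fun j hj e => hi (e ▸ hj)
  have h0 : ∀ a, 0 ≤ X' a := fun a => sum_nonneg fun j _ => term_nonneg S _ j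
  have h1 : ∀ a, X' a ≤ XX S (i, a) := fun a =>
    sum_le_sum_of_subset_of_nonneg (subset_univ _) fun j _ _ => term_nonneg S _ j
  have h2 : ∀ a, X' a ≤ W := fun a => sum_le_sum fun j hj => by
    rw [← ee_ne (hne j hj) a]
    refine sum_le_sum fun b _ => ?_
    have := ee_nonneg (GG n M) (i, a) (j, b)
    have := ch_nonneg S j b
    nlinarith
  have h3 : M * W / 3 ≤ ∑ a, X' a := by
    simp only [hX']
    rw [sum_comm, hW, mul_sum, sum_div]
    refine sum_le_sum fun j hj => ?_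
    rw [sum_comm]
    have : ∀ b, ∑ a, (1 - ch S j b) * ee (GG n M) (i, a) (j, b) = (1 - ch S j b) * ww n M i j := by
      intro b
      rw [← mul_sum]
      congr 1
      simp only [fun a => ee_symm (GG n M) (i, a) (j, b)]
      rw [ee_ne (hne j hj).symm]; unfold ww; rw [cd_symm]
    simp only [this]
    rw [← sum_mul, ss_compl]
    have := hU j hj
    have : (0 : ℝ) ≤ ww n M i j := by positivity
    nlinarith
  have h4 : ∑ a, X' a - (M - ss S i) * W ≤ √W * FF S i := by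
    unfold FF
    rw [← ss_compl, sum_mul, ← sum_sub_distrib, mul_sum]
    refine sum_le_sum fun a _ => ?_
    unfold ch
    split_ifs
    · have : X' a ≤ √W * √(XX S (i, a)) := by
        rw [← Real.sqrt_mul hW0]
        apply Real.le_sqrt_of_sq_le
        rw [sq]; exact mul_le_mul (h2 a) (h1 a) (h0 a) hW0
      linarith
    · have := h2 a; linarith
  rcases hsq.eq_or_lt with h | h
  · rw [← h]; simpa using FF_nonneg S i
  · have h5 : √W * √W = W := Real.mul_self_sqrt hW0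
    have : √W * (M * √W / 9) ≤ √W * FF S i := by nlinarith [mul_nonneg hM hW0]
    exact le_of_mul_le_mul_left this h

lemma sum_sqrt_W (n0 M : ℕ) (hM : (8 * n0) ^ 3 ≤ M) (U : Finset ℕ) (hU : U ⊆ range (8 * n0))
    (hc : 2 * n0 ≤ U.card) :
    √M / 32 * hh (min (range (8 * n0) \ U).card n0) ≤
      ∑ i ∈ range (8 * n0) \ U, √(∑ j ∈ U, (ww (8 * n0) M i j : ℝ)) := by
  refine greedy _ _ (fun _ => Real.sqrt_nonneg _) _ _ fun m hm1 hm => ?_
  obtain ⟨B, hB, h1, h2⟩ := window n0 m U hU hc hm1 (by omega) (by omega)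
  refine ⟨B, hB, h1, fun i hi => ?_⟩
  have hm' : (0 : ℝ) < m := by exact_mod_cast hm1
  apply Real.le_sqrt_of_sq_le
  have h3 : ∀ j ∈ U.filter fun j => i < j + 8 * m ∧ j < i + 8 * m,
      (M : ℝ) / (1024 * m ^ 3) ≤ ww (8 * n0) M i j := by
    intro j hj
    rw [mem_filter] at hj
    have hi' := mem_sdiff.1 (hB hi)
    have e1 := mem_range.1 hi'.1
    have e2 := mem_range.1 (hU hj.1)
    have e3 : i ≠ j := fun e => hi'.2 (e ▸ hj.1)
    have hcd : 0 < cd (8 * n0) i j ∧ cd (8 * n0) i j ≤ 8 * m ∧ cd (8 * n0) i j ≤ 8 * n0 := by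
      unfold cd; omega
    set c := cd (8 * n0) i j ^ 3 with hc'
    have c0 : 0 < c := by have := hcd.1; positivity
    have c1 : c ≤ (8 * m) ^ 3 := Nat.pow_le_pow_left hcd.2.1 3
    have c2 : c ≤ M := (Nat.pow_le_pow_left hcd.2.2 3).trans hM
    have c3 : 1 ≤ M / c := Nat.div_pos c2 c0
    have c4 := Nat.div_add_mod M c
    have c5 := Nat.mod_lt M c0
    have c6 : M ≤ M / c * (1024 * m ^ 3) := by
      calc M ≤ M / c * (2 * c) := by nlinarith
        _ ≤ M / c * (1024 * m ^ 3) := Nat.mul_le_mul_left _ (by nlinarith)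
    rw [div_le_iff₀ (by positivity)]
    exact_mod_cast c6
  have h4 := card_nsmul_le_sum _ _ _ h3
  have h5 : (m : ℝ) ≤ (U.filter fun j => i < j + 8 * m ∧ j < i + 8 * m).card := by
    exact_mod_cast h2 i hi
  rw [nsmul_eq_mul] at h4
  calc (√M / 32 / m) ^ 2 = m * ((M : ℝ) / (1024 * m ^ 3)) := by
        rw [div_pow, div_pow, Real.sq_sqrt (by positivity)]; field_simp; norm_num
    _ ≤ _ := by gcongr
    _ ≤ _ := h4
    _ ≤ _ := sum_le_sum_of_subset_of_nonneg (filter_subset _ _) fun _ _ _ => by positivity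

lemma iso (n0 M : ℕ) [NeZero M] (hn : 0 < n0) (hM : (8 * n0) ^ 3 ≤ M)
    (S : Finset (Fin (8 * n0) × Fin M)) (hS : 2 * S.card ≤ 8 * n0 * M) :
    hh n0 / n0 / 2304 * √M * S.card ≤ ∑ v ∈ S, √(XX S v) := by
  classical
  have hM0 : (0 : ℝ) < M := by exact_mod_cast Nat.pos_of_ne_zero (NeZero.ne M)
  have hn' : (0 : ℝ) < n0 := by exact_mod_cast hn
  set U : Finset (Fin (8 * n0)) := univ.filter fun j => ss S j ≤ 2 * M / 3 with hU
  have hcard : (S.card : ℝ) = ∑ i, ss S i := by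
    have := sum_ch S (fun _ => 1)
    simpa [ss] using this
  have hT : ∀ i ∈ Uᶜ, 2 * (M : ℝ) / 3 ≤ ss S i := fun i hi => by
    simp only [hU, mem_compl, mem_filter, mem_univ, true_and, not_le] at hi; exact hi.le
  have hU' : ∀ i ∈ U, ss S i ≤ 2 * (M : ℝ) / 3 := fun i hi => (mem_filter.1 hi).2
  have hsplit := sum_compl_add_sum U (ss S)
  have hU0 : 0 ≤ ∑ i ∈ U, ss S i := sum_nonneg fun i _ => ss_nonneg S i
  have hTc : Uᶜ.card ≤ 6 * n0 := by
    have h1 := card_nsmul_le_sum _ _ _ hT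
    rw [nsmul_eq_mul] at h1
    have h2 : (2 * S.card : ℝ) ≤ 8 * n0 * M := by exact_mod_cast hS
    have : (Uᶜ.card : ℝ) * M ≤ 6 * n0 * M := by nlinarith
    exact_mod_cast le_of_mul_le_mul_right this hM0
  have hUc : U.card + Uᶜ.card = 8 * n0 := by simp
  have hTs : ∑ i ∈ Uᶜ, ss S i ≤ Uᶜ.card * M := by
    have := sum_le_card_nsmul Uᶜ (ss S) M fun i _ => by
      have := ss_compl S i
      have h2 : 0 ≤ ∑ a, (1 - ch S i a) := sum_nonneg fun a _ => ch_le S i a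
      linarith
    simpa using this
  have hmap : range (8 * n0) \ U.map Fin.valEmbedding = Uᶜ.map Fin.valEmbedding := by
    ext i
    simp only [mem_sdiff, mem_range, mem_map, Fin.valEmbedding_apply, mem_compl]
    constructor
    · rintro ⟨h1, h2⟩
      exact ⟨⟨i, h1⟩, fun h => h2 ⟨_, h, rfl⟩, rfl⟩
    · rintro ⟨j, h1, rfl⟩
      exact ⟨j.2, fun ⟨k, hk, e⟩ => h1 (Fin.ext e ▸ hk)⟩
  have hW := sum_sqrt_W n0 M hM (U.map Fin.valEmbedding)
    (fun i hi => by obtain ⟨j, -, rfl⟩ := mem_map.1 hi; exact mem_range.2 j.2)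
    (by rw [card_map]; omega)
  rw [hmap, card_map, sum_map] at hW
  simp only [sum_map, Fin.valEmbedding_apply] at hW
  rw [sum_ch, ← sum_compl_add_sum U]
  have hsq := Real.sqrt_nonneg (M : ℝ)
  have a1 : M * (√M / 32 * hh (min Uᶜ.card n0)) / 9 ≤ ∑ i ∈ Uᶜ, FF S i := by
    refine le_trans ?_ (sum_le_sum fun i hi => FF_ge2 S U hU' i (mem_compl.1 hi) (hT i hi))
    rw [← sum_div, ← mul_sum]
    gcongr
  have a2 : √M / 2 * ∑ i ∈ U, ss S i ≤ ∑ i ∈ U, FF S i := by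
    rw [mul_sum]
    refine sum_le_sum fun i hi => le_trans ?_ (FF_ge1 S i)
    rw [mul_comm]
    refine mul_le_mul_of_nonneg_left ?_ (ss_nonneg _ _)
    apply Real.le_sqrt_of_sq_le
    rw [div_pow, Real.sq_sqrt hM0.le]
    have := hU' i hi
    linarith
  set ρ := hh n0 / n0 with hρ
  have r0 : 0 ≤ ρ := div_nonneg (hh_nonneg _) hn'.le
  have r1 : ρ ≤ 1 := (div_le_one hn').2 (hh_le _)
  have r2 : Uᶜ.card / 8 * ρ ≤ hh (min Uᶜ.card n0) := by
    have h1 := hh_avg (min Uᶜ.card n0) n0 (min_le_right _ _)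
    have h2 : (Uᶜ.card : ℝ) ≤ 8 * (min Uᶜ.card n0 : ℕ) := by
      exact_mod_cast (show Uᶜ.card ≤ 8 * min Uᶜ.card n0 by omega)
    calc Uᶜ.card / 8 * ρ ≤ (min Uᶜ.card n0 : ℕ) * ρ := by gcongr; linarith
      _ ≤ _ := by rw [hρ, ← mul_div_assoc, div_le_iff₀ hn']; linarith
  change _ ≤ ∑ i ∈ Uᶜ, FF S i + ∑ i ∈ U, FF S i
  have a3 : M * (√M / 32 * (Uᶜ.card / 8 * ρ)) / 9 ≤ M * (√M / 32 * hh (min Uᶜ.card n0)) / 9 := by
    gcongr
  have a4 : ρ / 2304 * √M * ∑ i ∈ U, ss S i ≤ √M / 2 * ∑ i ∈ U, ss S i := by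
    gcongr ?_ * _
    nlinarith
  have a5 : ρ / 2304 * √M * ∑ i ∈ Uᶜ, ss S i ≤ ρ / 2304 * √M * (Uᶜ.card * M) := by gcongr
  rw [hcard, ← hsplit, mul_add]
  nlinarith

end Pool.Agent.H10.Ht
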