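import Mathlib
import Pool.Agent.H10.HtD

namespace Pool.Agent.H10.Ht
open Finset

noncomputable def tg (n0 i : ℕ) : ℝ := (min i (8 * n0 - i) : ℕ) - 2 * n0

lemma tg_sum (n0 : ℕ) : ∑ i ∈ range (8 * n0), tg n0 i = 0 := by
  rw [show 8 * n0 = 4 * n0 + 4 * n0 by ring, sum_range_add, ← sum_add_distrib]
  refine sum_eq_zero fun i hi => ?_
  have := mem_range.1 hi
  unfold tg
  rw [show min i (8 * n0 - i) = i by omega, show min (4 * n0 + i) (8 * n0 - (4 * n0 + i)) = 4 * n0 - i by omega,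
    Nat.cast_sub this.le]
  push_cast; ring

lemma tg_sq (n0 : ℕ) : (n0 : ℝ) ^ 3 ≤ ∑ i ∈ range (8 * n0), tg n0 i ^ 2 := by
  have h1 : ∀ i ∈ range n0, (n0 : ℝ) ^ 2 ≤ tg n0 i ^ 2 := by
    intro i hi
    have := mem_range.1 hi
    unfold tg
    rw [show min i (8 * n0 - i) = i by omega]
    have h : (i : ℝ) ≤ n0 := by exact_mod_cast this.le
    have : (0 : ℝ) ≤ n0 := by positivity
    nlinarith
  have h2 := card_nsmul_le_sum _ _ _ h1
  simp only [card_range, nsmul_eq_mul] at h2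
  calc (n0 : ℝ) ^ 3 = n0 * n0 ^ 2 := by ring
    _ ≤ _ := h2
    _ ≤ _ := sum_le_sum_of_subset_of_nonneg (range_subset_range.2 (by omega)) fun _ _ _ => sq_nonneg _

lemma tg_lip (n0 i j : ℕ) (hi : i < 8 * n0) (hj : j < 8 * n0) :
    (tg n0 i - tg n0 j) ^ 2 ≤ (cd (8 * n0) i j : ℝ) ^ 2 := by
  unfold tg
  have h1 : min i (8 * n0 - i) ≤ min j (8 * n0 - j) + cd (8 * n0) i j := by unfold cd; omega
  have h2 : min j (8 * n0 - j) ≤ min i (8 * n0 - i) + cd (8 * n0) i j := by unfold cd; omega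
  have h1' : ((min i (8 * n0 - i) : ℕ) : ℝ) ≤ (min j (8 * n0 - j) : ℕ) + cd (8 * n0) i j := by
    exact_mod_cast h1
  have h2' : ((min j (8 * n0 - j) : ℕ) : ℝ) ≤ (min i (8 * n0 - i) : ℕ) + cd (8 * n0) i j := by
    exact_mod_cast h2
  apply sq_le_sq' <;> linarith

lemma energy (n0 M : ℕ) [NeZero M] (v : Fin (8 * n0) × Fin M) :
    ∑ u, ee (GG (8 * n0) M) v u * (tg n0 v.1 - tg n0 u.1) ^ 2 ≤ 16 * M * hh n0 := by
  obtain ⟨i, a⟩ := v
  have hM : (0 : ℝ) ≤ M := by positivity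
  rw [Fintype.sum_prod_type]
  have h1 : ∀ j : Fin (8 * n0), ∑ b, ee (GG (8 * n0) M) (i, a) (j, b) * (tg n0 i - tg n0 j) ^ 2 ≤
      (M : ℝ) / cd (8 * n0) i j := by
    intro j
    rw [← sum_mul]
    by_cases h : i = j
    · subst h; simp; positivity
    · rw [ee_ne h]
      have hc : 0 < cd (8 * n0) i j := by
        have := i.2; have := j.2; have : i.val ≠ j.val := fun e => h (Fin.ext e)
        unfold cd; omega
      have hc' : (0 : ℝ) < cd (8 * n0) i j := by exact_mod_cast hc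
      have h2 : (ww (8 * n0) M i j : ℝ) ≤ M / (cd (8 * n0) i j : ℝ) ^ 3 := by
        refine Nat.cast_div_le.trans ?_; push_cast; rfl
      calc _ ≤ M / (cd (8 * n0) i j : ℝ) ^ 3 * (cd (8 * n0) i j : ℝ) ^ 2 :=
            mul_le_mul h2 (tg_lip n0 i j i.2 j.2) (sq_nonneg _) (by positivity)
        _ = _ := by field_simp
  refine (sum_le_sum fun j _ => h1 j).trans ?_
  rw [Fin.sum_univ_eq_sum_range (fun j => (M : ℝ) / cd (8 * n0) i j),
    sum_cd (8 * n0) i i.2 (fun d => (M : ℝ) / d)]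
  refine (sum_min_le (8 * n0) (fun d => (M : ℝ) / d) fun _ => by positivity).trans ?_
  rw [sum_range_succ']
  have h3 : ∑ k ∈ range (8 * n0), (M : ℝ) / ((k + 1 : ℕ) : ℝ) = M * hh (8 * n0) := by
    unfold hh; rw [mul_sum]
    exact sum_congr rfl fun k _ => by push_cast; ring
  rw [h3]
  have hn : 0 < n0 := by have := i.2; omega
  have hn' : (0 : ℝ) < n0 := by exact_mod_cast hn
  have h4 := hh_avg n0 (8 * n0) (by omega)
  have h5 : hh (8 * n0) ≤ 8 * hh n0 := by
    push_cast at h4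
    exact le_of_mul_le_mul_left (by linarith) hn'
  simp only [Nat.cast_zero, div_zero, add_zero]
  nlinarith

lemma both (n0 M : ℕ) [NeZero M] (hn : 0 < n0) (hM : (8 * n0) ^ 3 ≤ M) :
    hh n0 / n0 / 6912 ≤ phiHalf (GG (8 * n0) M) ∧ lam2 (GG (8 * n0) M) ≤ 128 * hh n0 / n0 ^ 2 := by
  have hM2 : 2 ≤ M := le_trans (by nlinarith [Nat.one_le_pow 3 n0 hn]) hM
  have hM2' : (2 : ℝ) ≤ M := by exact_mod_cast hM2
  have hn' : (0 : ℝ) < n0 := by exact_mod_cast hn
  have hW0 : 0 ≤ WW (8 * n0) M := sum_nonneg fun _ _ => by positivity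
  have hW4 := WW_le (n := 8 * n0) (M := M)
  have hD : 0 < (M : ℝ) - 1 + WW (8 * n0) M := by linarith
  have h0 := hh_nonneg n0
  constructor
  · refine phi_ge _ _ GG_reg hD (by simp; nlinarith) _ fun S hS => ?_
    simp only [@XX_eq _ _ _ S (fun a b => Classical.propDecidable (a = b))]
    refine le_trans ?_ (iso n0 M hn hM S (by simpa using hS))
    have : √(M - 1 + WW (8 * n0) M) ≤ 3 * √M := by
      rw [Real.sqrt_le_left (by positivity), mul_pow, Real.sq_sqrt (by positivity)]; linarith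
    calc _ ≤ hh n0 / n0 / 6912 * (3 * √M) * S.card := by gcongr
      _ = _ := by ring
  · have e : ∑ v : Fin (8 * n0) × Fin M, tg n0 v.1 ^ 2 = M * ∑ i ∈ range (8 * n0), tg n0 i ^ 2 := by
      rw [Fintype.sum_prod_type, ← Fin.sum_univ_eq_sum_range (fun i => tg n0 i ^ 2), mul_sum]
      simp
    have hsq := tg_sq n0
    refine lam_le _ (GG_conn (by omega) hM) _ GG_reg hD (fun v => tg n0 v.1) ?_ ?_ _ (by positivity) ?_
    · rw [Fintype.sum_prod_type]
      simp only [sum_const, card_univ, Fintype.card_fin, nsmul_eq_mul]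
      rw [← mul_sum, Fin.sum_univ_eq_sum_range (fun i => tg n0 i), tg_sum, mul_zero]
    · rw [e]; exact mul_pos (by linarith) (lt_of_lt_of_le (by positivity) hsq)
    · refine (sum_le_sum fun v _ => energy n0 M v).trans ?_
      rw [e]
      simp only [sum_const, card_univ, Fintype.card_prod, Fintype.card_fin, nsmul_eq_mul]
      push_cast
      calc 8 * (n0 : ℝ) * M * (16 * M * hh n0) = 2 * (M / 2) * (128 * hh n0 / n0 ^ 2) * (M * n0 ^ 3) := by
            field_simp; ring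
        _ ≤ _ := by gcongr; linarith

end Pool.Agent.H10.Ht
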