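import Mathlib

set_option autoImplicit false

namespace Pool.Agent.H10.Lad
open MeasureTheory

variable {V W : Type}

/-- `l` is a path of `H` starting at `o`, listed from its last vertex back to `o` -/
def IsP (H : SimpleGraph V) (o : V) (l : List V) : Prop :=
  l.IsChain H.Adj ∧ l.Nodup ∧ l.getLast? = some o

/-- the path tree (lists that are not paths from `o` are isolated vertices) -/
def pathTree (H : SimpleGraph V) (o : V) : SimpleGraph (List V) where
  Adj l m := IsP H o l ∧ IsP H o m ∧ (m = l.tail ∨ l = m.tail)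
  symm := ⟨fun _ _ h => ⟨h.2.1, h.1, h.2.2.symm⟩⟩
  loopless := ⟨fun l h => by
    have := congrArg List.length (h.2.2.elim id id)
    cases l <;> simp_all [IsP]⟩

/-- the adjacency operator -/
noncomputable def adjOp (T : SimpleGraph W) (f : W → ℝ) (t : W) : ℝ := ∑ᶠ s ∈ T.neighborSet t, f s

/-- `ν` is the matching measure of `(H, o)` -/
def IsMM (H : SimpleGraph V) (D : ℕ) (o : V) (ν : Measure ℝ) : Prop :=
  IsProbabilityMeasure ν ∧ ν (Set.Icc (-D : ℝ) D)ᶜ = 0 ∧ ∀ n ≥ 1,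
    ∫ x, x ^ n ∂ν = (adjOp (pathTree H o))^[n] (Set.indicator {[o]} 1) [o]

/-- `G - u` (the vertex `u` is kept as an isolated vertex) -/
def del (G : SimpleGraph V) (u : V) : SimpleGraph V where
  Adj x y := G.Adj x y ∧ x ≠ u ∧ y ≠ u
  symm := ⟨fun _ _ h => ⟨h.1.symm, h.2.2, h.2.1⟩⟩
  loopless := ⟨fun _ h => h.1.ne rfl⟩

/-- `u` is `0`-positive -/
def ZeroPos (G : SimpleGraph V) (D : ℕ) (u : V) : Prop :=
  ∀ ν : V → Measure ℝ, (∀ v, G.Adj u v → IsMM (del G u) D v (ν v)) →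
    0 < ∑' v : G.neighborSet u, ν v {0}

/-- the ladder `ℤ × K₂` -/
def ladder : SimpleGraph (ℤ × Bool) where
  Adj p q := (p.2 = q.2 ∧ (q.1 = p.1 + 1 ∨ p.1 = q.1 + 1)) ∨ (p.1 = q.1 ∧ p.2 ≠ q.2)
  symm := ⟨by grind⟩
  loopless := ⟨by grind⟩

end Pool.Agent.H10.Lad
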