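import Mathlib
import Pool.Agent.H10.LadDefs

set_option autoImplicit false

namespace Pool.Agent.H10.Lad
open MeasureTheory Finset Finsupp Filter Topology Polynomial

variable {W : Type}

lemma atom (T : SimpleGraph W) (hT : ∀ t, (T.neighborSet t).Finite) (o : W) (f : W → ℝ)
    (h0 : ∀ t, adjOp T f t = 0) (h1 : f o = 1) (C : ℝ) (hC : ∀ S : Finset W, ∑ t ∈ S, f t ^ 2 ≤ C)
    (ν : Measure ℝ) [IsProbabilityMeasure ν] (hD : ν (Set.Icc (-3 : ℝ) 3)ᶜ = 0)
    (hm : ∀ n ≥ 1, ∫ x, x ^ n ∂ν = (adjOp T)^[n] (Set.indicator {o} 1) o) : 0 < ν {0} := by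
  classical
  have hA : ∀ g t, adjOp T g t = ∑ s ∈ (hT t).toFinset, g s := fun g t =>
    finsum_mem_eq_finite_toFinset_sum g (hT t)
  let L : Module.End ℝ (W →₀ ℝ) :=
    linearCombination ℝ fun t => ∑ s ∈ (hT t).toFinset, single s 1
  have pr : ∀ g F, linearCombination ℝ F (L g) = linearCombination ℝ (adjOp T F) g := fun g F =>
    DFunLike.congr_fun (by ext t; simp [L, hA] :
      linearCombination ℝ F ∘ₗ L = linearCombination ℝ (adjOp T F)) g
  have co : ∀ g, ⇑(L g) = adjOp T g := fun g => funext fun t =>
    DFunLike.congr_fun (by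
      ext s; simp [L, single_apply, T.adj_comm s] :
      lapply t ∘ₗ L = ∑ s ∈ (hT t).toFinset, lapply s) g |>.trans (by simp [hA])
  have it : ∀ n g, ⇑((L ^ n) g) = (adjOp T)^[n] g := fun n => by
    induction n with
    | zero => simp
    | succ n ih => simp [pow_succ, ih, co]
  have ae : ∀ᵐ x ∂ν, x ∈ Set.Icc (-3 : ℝ) 3 := hD
  have ig : ∀ p : ℝ[X], Integrable (fun x => p.eval x) ν := fun p => by
    rw [← Measure.restrict_eq_self_of_ae_mem ae]
    exact p.continuous.integrableOn_Icc
  have mo : ∀ p : ℝ[X], aeval L p (single o 1) o = ∫ x, p.eval x ∂ν := fun p => by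
    induction p using Polynomial.induction_on' with
    | add p q a b => simp [integral_add (ig _) (ig _), a, b]
    | monomial n a =>
      have : Set.indicator {o} 1 = ⇑(single o (1 : ℝ)) := by
        ext; simp [Set.indicator, single_apply, eq_comm]
      obtain rfl | h := n.eq_zero_or_pos
      · simp
      simp [aeval_monomial, integral_const_mul, hm n h, it, this]
  let q : ℝ[X] := 1 - Polynomial.C (1 / 9) * X ^ 2
  have hq : ∀ g, aeval L q g = g - (1 / 9 : ℝ) • L (L g) := by simp [q, sq]
  have sm : ∀ (F G : W → ℝ) (c : ℝ) g, linearCombination ℝ (F - c • G) g =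
      linearCombination ℝ F g - c * linearCombination ℝ G g := fun F G c g => by
    simp [linearCombination_apply, Finsupp.sum, mul_sub, Finset.mul_sum, mul_left_comm]
  have sy : ∀ n g (k : W →₀ ℝ), linearCombination ℝ k (aeval L (q ^ n) g) =
      linearCombination ℝ (aeval L (q ^ n) k) g := fun n => by
    induction n with
    | zero => simp
    | succ n ih =>
      intro g k
      conv_rhs => rw [pow_succ, map_mul, Module.End.mul_apply, ← ih]
      rw [pow_succ', map_mul, Module.End.mul_apply, hq, hq, map_sub, map_smul, pr, pr, Finsupp.coe_sub,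
        Finsupp.coe_smul, sm, co, co, smul_eq_mul]
  have kf : ∀ n, linearCombination ℝ f (aeval L (q ^ n) (single o 1)) = 1 := fun n => by
    induction n with
    | zero => simp [h1]
    | succ n ih =>
      rw [pow_succ', map_mul, Module.End.mul_apply, hq, map_sub, map_smul, pr, ih,
        show adjOp T f = 0 from funext h0]
      simp
  have key : ∀ n, 1 ≤ (∫ x, (q ^ n * q ^ n).eval x ∂ν) * C := fun n => by
    have := sy n (single o 1) (aeval L (q ^ n) (single o 1))
    rw [← mo, map_mul, Module.End.mul_apply]
    rw [linearCombination_single, smul_eq_mul, one_mul] at this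
    have e := kf n
    rw [← this]
    simp only [linearCombination_apply, Finsupp.sum, smul_eq_mul, ← sq] at e ⊢
    have := sum_mul_sq_le_sq_mul_sq (aeval L (q ^ n) (single o 1)).support
      (aeval L (q ^ n) (single o 1)) f
    rw [e, one_pow] at this
    exact this.trans (mul_le_mul_of_nonneg_left (hC _) (by positivity))
  have lim := tendsto_integral_of_dominated_convergence (μ := ν) (f := Set.indicator {0} 1)
    (F := fun n x => (q ^ n * q ^ n).eval x) (fun _ => 1) (fun n => (ig _).1) (by simp)
    (fun n => ae.mono fun x h => ?_) (ae.mono fun x h => ?_)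
  · have := ge_of_tendsto' (lim.mul_const C) key
    rw [integral_indicator_one (by simp), Measure.real] at this
    exact pos_iff_ne_zero.2 fun e => by norm_num [e] at this
  · have : 0 ≤ 1 - 1 / 9 * x ^ 2 := by nlinarith [h.1, h.2]
    simp only [q, eval_mul, eval_pow, eval_sub, eval_one, eval_C, eval_X, ← pow_add]
    rw [Real.norm_of_nonneg (by positivity)]
    exact pow_le_one₀ this (by nlinarith)
  · simp only [q, eval_mul, eval_pow, eval_sub, eval_one, eval_C, eval_X]
    obtain rfl | e := eq_or_ne x 0
    · simp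
    have := tendsto_pow_atTop_nhds_zero_of_lt_one (r := 1 - 1 / 9 * x ^ 2) (by nlinarith [h.1, h.2])
      (by nlinarith [sq_pos_of_ne_zero e])
    simpa [e] using this.mul this

end Pool.Agent.H10.Lad
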