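import Mathlib
import Pool.Agent.H10.LadA

set_option autoImplicit false

namespace Pool.Agent.H10.Lad
open Finset

inductive St
  | R | Q (d : ℤ) | A (d : ℤ) | B (d : ℤ) | N (d : ℤ) | S (d : ℤ) | C (d : ℤ) | L | Z

open St

noncomputable def tr : St → ℤ → St × ℝ
  | R, e => if e = 0 then (Z, 0) else (Q e, 1)
  | Q d, e => if e = 0 then (A d, -1 / 2) else if e = d then (B d, -1 / 2) else (Z, 0)
  | A d, e => if e = d then (Q d, 1) else (Z, 0)
  | B d, e => if e = 0 then (N d, 1) else if e = d then (S d, 1) else (Z, 0)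
  | N d, e => if e = -d then (L, -1) else (Z, 0)
  | S d, e => if e = 0 then (C d, -1) else (Z, 0)
  | C d, e => if e = d then (Q d, 1) else if e = -d then (N d, 1) else (Z, 0)
  | _, _ => (Z, 0)

noncomputable def st : List (ℤ × Bool) → St × ℝ
  | [] => (Z, 0)
  | [_] => (R, 1)
  | z :: p :: l => ((tr (st (p :: l)).1 (z.1 - p.1)).1,
      (st (p :: l)).2 * (tr (st (p :: l)).1 (z.1 - p.1)).2)

def ev : St → ℝ
  | Q _ | N _ | S _ | Z => 0
  | _ => 1

def od : St → ℝ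
  | Q _ | N _ | S _ => 1
  | _ => 0

noncomputable def cost : St → ℝ
  | R => 6 | Q _ => 5 / 2 | A _ => 7 / 2 | B _ => 13 / 2 | N _ => 1 | S _ => 9 / 2 | C _ => 9 / 2
  | L => 1 | Z => 0

noncomputable def ff (l : List (ℤ × Bool)) : ℝ := (st l).2 * ev (st l).1
noncomputable def gg (l : List (ℤ × Bool)) : ℝ := (st l).2 ^ 2 * cost (st l).1

def Fr (d x : ℤ) (U : List (ℤ × Bool)) : Prop := (d = 1 ∨ d = -1) ∧ ∀ z ∈ U, d * z.1 ≤ d * x

def Inv (x : ℤ) (y : Bool) (U : List (ℤ × Bool)) : St → Prop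
  | R => ∀ z, z ∈ U ↔ z.1 = x
  | Q d => Fr d x U ∧ (x, !y) ∉ U ∧ (x - d, !y) ∈ U ∧ (x - d, y) ∈ U
  | A d => Fr d x U ∧ (x, !y) ∈ U ∧ (x - d, y) ∈ U
  | B d => Fr d x U ∧ (x, !y) ∉ U ∧ (x - d, !y) ∉ U ∧ (x - 2 * d, !y) ∈ U ∧ (x - d, y) ∈ U
  | N d => (d = 1 ∨ d = -1) ∧ (x - d, y) ∉ U ∧ (x - 2 * d, y) ∈ U ∧ (x - d, !y) ∈ U
  | S d => Fr d x U ∧ (x, !y) ∉ U ∧ (x - d, !y) ∉ U ∧ (x - 2 * d, !y) ∉ U ∧ (x - 3 * d, !y) ∈ U ∧
      (x - d, y) ∈ U ∧ (x - 2 * d, y) ∈ U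
  | C d => Fr d x U ∧ (x, !y) ∈ U ∧ (x - d, y) ∉ U ∧ (x - 2 * d, y) ∉ U ∧ (x - 3 * d, y) ∈ U ∧
      (x - d, !y) ∈ U ∧ (x - 2 * d, !y) ∈ U
  | L => (x, !y) ∈ U ∧ (x + 1, y) ∈ U ∧ (x - 1, y) ∈ U
  | Z => True

variable {V : Type} {H : SimpleGraph V} {o z p : V} {l : List V}

lemma p0 : ¬ IsP H o [] := by simp [IsP]
lemma p1 : IsP H o [z] ↔ z = o := by simp [IsP]
lemma p2 : IsP H o (z :: p :: l) ↔ H.Adj z p ∧ z ∉ p :: l ∧ IsP H o (p :: l) := by
  simp only [IsP, List.isChain_cons_cons, List.getLast?_cons_cons, List.nodup_cons (a := z)]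
  tauto

def nb (p : ℤ × Bool) : Finset (ℤ × Bool) := {(p.1, !p.2), (p.1 + 1, p.2), (p.1 - 1, p.2)}

lemma mnb {p z : ℤ × Bool} : z ∈ nb p ↔ ladder.Adj z p := by
  simp only [nb, ladder, mem_insert, mem_singleton, Prod.ext_iff]
  grind

lemma snb (p : ℤ × Bool) (F : ℤ × Bool → ℝ) :
    ∑ z ∈ nb p, F z = F (p.1, !p.2) + F (p.1 + 1, p.2) + F (p.1 - 1, p.2) := by
  rw [nb, sum_insert (by simp), sum_pair (by simp; omega), add_assoc]

lemma step (s : St) (x : ℤ) (y : Bool) (U : List (ℤ × Bool)) (z : ℤ × Bool) (h : Inv x y U s)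
    (hx : (x, y) ∈ U) (a : z ∈ nb (x, y)) (b : z ∉ U) (U' : List (ℤ × Bool))
    (hU : ∀ w, w ∈ U' ↔ w = z ∨ w ∈ U) : Inv z.1 z.2 U' (tr s (z.1 - x)).1 ∧
      ev s = (tr s (z.1 - x)).2 * od (tr s (z.1 - x)).1 := by
  simp only [nb, mem_insert, mem_singleton] at a
  cases s <;> simp only [tr] <;> (try split_ifs) <;> simp only [Inv, Fr, ev, od, hU] at h ⊢ <;>
    rcases a with rfl | rfl | rfl <;> grind

lemma ker (s : St) (x : ℤ) (y : Bool) (U : List (ℤ × Bool)) (h : Inv x y U s) :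
    od s + ∑ z ∈ nb (x, y), (if z ∉ U then (tr s (z.1 - x)).2 * ev (tr s (z.1 - x)).1 else 0) = 0 := by
  rw [snb]
  cases s <;> simp only [tr, Inv, Fr] at h ⊢ <;> split_ifs <;> simp only [ev, od] <;> grind

lemma pot (s : St) (p : ℤ × Bool) : ev s ^ 2 +
    ∑ z ∈ nb p, (tr s (z.1 - p.1)).2 ^ 2 * cost (tr s (z.1 - p.1)).1 ≤ cost s := by
  rw [snb]
  cases s <;> simp only [tr] <;> (try split_ifs) <;> simp only [ev, cost] <;> grind

variable (u : ℤ × Bool)

lemma inv : ∀ (l : List (ℤ × Bool)) (p : ℤ × Bool), IsP (del ladder u) (u.1, !u.2) (p :: l) →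
    p ≠ u ∧ Inv p.1 p.2 (u :: p :: l) (st (p :: l)).1 ∧ ff l = (st (p :: l)).2 * od (st (p :: l)).1
  | [], p, h => by
    obtain rfl := p1.1 h
    simp [st, Inv, ff, od, Prod.ext_iff]
    grind
  | p :: l, z, h => by
    obtain ⟨⟨a, b, -⟩, c, d⟩ := p2.1 h
    have := step _ p.1 p.2 _ z (inv l p d).2.1 (by simp) (mnb.2 a) (by simp_all) (u :: z :: p :: l)
      (by grind)
    exact ⟨b, this.1, by rw [ff, this.2, st, mul_assoc]⟩

lemma nbr (p : ℤ × Bool) (l m : List (ℤ × Bool)) (h : IsP (del ladder u) (u.1, !u.2) (p :: l)) :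
    (pathTree (del ladder u) (u.1, !u.2)).Adj (p :: l) m ↔ (m = l ∧ l ≠ []) ∨
      m ∈ ({z ∈ nb p | z ∉ u :: p :: l}.image (· :: p :: l)) := by
  have := (inv u l p h).1
  simp only [pathTree, h, true_and, mem_image, mem_filter, mnb, List.tail_cons]
  refine ⟨fun ⟨a, b⟩ => b.imp (fun b => ⟨b, fun e => p0 (e ▸ b ▸ a)⟩) fun b => ?_, ?_⟩
  · obtain _ | ⟨z, m⟩ := m
    · exact (p0 a).elim
    obtain rfl : p :: l = m := b
    obtain ⟨⟨a, b, -⟩, c, -⟩ := p2.1 a
    exact ⟨z, ⟨a, by simp_all⟩, rfl⟩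
  · rintro (⟨rfl, a⟩ | ⟨z, ⟨a, b⟩, rfl⟩)
    · obtain _ | ⟨z, m⟩ := m
      exacts [(a rfl).elim, ⟨(p2.1 h).2.2, .inl rfl⟩]
    · exact ⟨p2.2 ⟨⟨a, by simp_all, this⟩, by simp_all, h⟩, .inr rfl⟩

lemma bound (S : Finset (List (ℤ × Bool))) (h : ∀ s ∈ S, IsP (del ladder u) (u.1, !u.2) s) :
    ∑ s ∈ S, ff s ^ 2 ≤ 6 := by
  have g0 : ∀ l, 0 ≤ gg l := fun l => mul_nonneg (sq_nonneg _) (by cases (st l).1 <;> simp [cost] <;> norm_num)
  have sf : ∀ s, IsP (del ladder u) (u.1, !u.2) s → ∀ t, t <:+ s → t ≠ [] →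
      IsP (del ladder u) (u.1, !u.2) t := fun s h t e n =>
    ⟨h.1.suffix e, h.2.1.sublist e.sublist, by
      obtain ⟨w, rfl⟩ := e
      simpa [List.getLast?_append, List.getLast?_eq_some_getLast n] using h.2.2⟩
  set T := (S.biUnion fun s => s.tails.toFinset).erase []
  have mT : ∀ t, t ∈ T ↔ t ≠ [] ∧ ∃ s ∈ S, t <:+ s := by simp [T]
  have pT : ∀ t ∈ T, IsP (del ladder u) (u.1, !u.2) t := fun t e =>
    let ⟨a, s, b, c⟩ := (mT t).1 e; sf s (h s b) t c a
  refine (sum_le_sum_of_subset_of_nonneg (t := T) (fun s e => (mT s).2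
    ⟨fun r => p0 (r ▸ h s e), s, e, List.suffix_rfl⟩) fun _ _ _ => sq_nonneg _).trans ?_
  have e1 := sum_fiberwise_of_maps_to (s := T.erase [(u.1, !u.2)]) (t := T) (g := List.tail)
    (fun t e => by
      obtain ⟨a, s, b, c⟩ := (mT t).1 (mem_erase.1 e).2
      refine (mT _).2 ⟨fun r => ?_, s, b, t.tail_suffix.trans c⟩
      obtain _ | ⟨z, _ | _⟩ := t <;> simp at a r
      exact (mem_erase.1 e).1 (by rw [p1.1 (pT _ (mem_erase.1 e).2)])) gg
  have e2 : ∑ t ∈ T, gg t ≤ 6 + ∑ t ∈ T.erase [(u.1, !u.2)], gg t := by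
    by_cases r : [(u.1, !u.2)] ∈ T
    · rw [← add_sum_erase _ _ r]; simp [gg, st, cost]
    · rw [erase_eq_of_notMem r]; linarith
  have e3 : ∑ t ∈ T, (ff t ^ 2 + ∑ s ∈ T.erase [(u.1, !u.2)] with s.tail = t, gg s) ≤
      ∑ t ∈ T, gg t := sum_le_sum fun t e => by
    obtain _ | ⟨p, l⟩ := t
    · exact (p0 (pT _ e)).elim
    have := mul_le_mul_of_nonneg_left (pot (st (p :: l)).1 p) (sq_nonneg (st (p :: l)).2)
    refine le_trans ?_ this
    rw [mul_add, ff, mul_pow, mul_sum]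
    refine add_le_add le_rfl ((sum_le_sum_of_subset_of_nonneg (t := (nb p).image (· :: p :: l))
      (fun s r => ?_) fun _ _ _ => g0 _).trans_eq ?_)
    · obtain ⟨a, b⟩ := mem_filter.1 r
      obtain _ | ⟨z, s⟩ := s
      · cases b
      obtain rfl : s = p :: l := b
      exact mem_image_of_mem _ (mnb.2 (p2.1 (pT _ (mem_erase.1 a).2)).1.1)
    · rw [sum_image (by simp [Set.InjOn])]
      exact sum_congr rfl fun z _ => by simp only [gg, st]; ring
  rw [sum_add_distrib, e1] at e3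
  linarith

lemma zp : ZeroPos ladder 3 u := fun ν hν => by
  classical
  have a : ladder.Adj u (u.1, !u.2) := by simp [ladder]
  obtain ⟨h1, h2, h3⟩ := hν _ a
  refine lt_of_lt_of_le ?_ (ENNReal.le_tsum ⟨_, a⟩)
  have em : ∀ t, ¬ IsP (del ladder u) (u.1, !u.2) t →
    (pathTree (del ladder u) (u.1, !u.2)).neighborSet t = ∅ := fun t h => by
      ext; simp [pathTree, h]
  refine atom (pathTree (del ladder u) (u.1, !u.2)) (fun t => ?_) [(u.1, !u.2)]
    (fun t => if IsP (del ladder u) (u.1, !u.2) t then ff t else 0) (fun t => ?_)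
    (by simp [p1, ff, st, ev]) 6 (fun S => ?_) _ (by simpa using h2) h3
  · by_cases h : IsP (del ladder u) (u.1, !u.2) t
    · obtain _ | ⟨p, l⟩ := t
      · exact (p0 h).elim
      exact ((Finset.finite_toSet _).insert l).subset fun m e =>
        ((nbr u p l m h).1 e).imp (·.1) id
    · simp [em t h]
  · by_cases h : IsP (del ladder u) (u.1, !u.2) t
    · obtain _ | ⟨p, l⟩ := t
      · exact (p0 h).elim
      obtain ⟨-, i1, i2⟩ := inv u l p h
      rw [adjOp, finsum_mem_congr (s := (pathTree (del ladder u) (u.1, !u.2)).neighborSet (p :: l)) rfl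
        fun s e => if_pos (e.2.1 : IsP _ _ s),
        finsum_mem_eq_sum_of_inter_support_eq (t := insert l ({z ∈ nb p | z ∉ u :: p :: l}.image
          (· :: p :: l))), sum_insert fun e => by
            obtain ⟨_, -, e⟩ := mem_image.1 e
            have := congrArg List.length e
            simp only [List.length_cons] at this
            omega,
        sum_image (by simp [Set.InjOn]), sum_filter, i2]
      · have := congrArg ((st (p :: l)).2 * ·) (ker _ _ _ _ i1)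
        simp only [mul_add, mul_sum, mul_zero, mul_ite, ← mul_assoc] at this
        exact this
      · ext m
        simp only [Set.mem_inter_iff, SimpleGraph.mem_neighborSet, nbr u p l m h, coe_insert,
          Set.mem_insert_iff, mem_coe, Function.mem_support]
        refine and_congr_left fun e => or_congr_left (and_iff_left_of_imp ?_)
        rintro rfl rfl
        simp [ff, st] at e
    · simp [adjOp, em t h]
  · refine le_trans (le_of_eq ?_) (bound u (S.filter _) fun s e => (mem_filter.1 e).2)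
    rw [sum_filter]
    exact sum_congr rfl fun _ _ => by split_ifs <;> simp

end Pool.Agent.H10.Lad
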