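import Pool.Agent.H10.LinkData

set_option autoImplicit false
set_option maxRecDepth 100000

namespace Pool.Agent.H10.Link
open Pool.Agent.H10.Ced Pool.Agent.H10.Geo

def vs (E : Ent) : List ℕ := E.map Prod.fst

def lab (p : ℕ × List ℕ) (i : ℕ) : ℕ := p.2.getD i 0

def TT (k : ℕ) : List Ent :=
  if k = 0 then T0 else if k = 1 then T1 else if k = 2 then T2 else if k = 3 then T3 else T4

def rg (k : ℕ) : List ℕ := if k = 4 then [0, 1, 2, 3, 4, 5, 6, 7, 8] else [0, 1, 2]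

def pr (k v c : ℕ) : ℕ :=
  (fun f => if v < 6 then min f 1 else f)
    ((if k = 0 then c / 3 else if k = 1 then c else if k = 2 then c / 3 + c else c / 3 + 2 * c) % 3)

def ck0 (T : List Ent) (r : List ℕ) : Bool := T.all fun E => E.all fun p => r.all fun i =>
  (r.all fun j => !Nat.beq (lab p i) (lab p j) || (Nat.blt p.1 6 && !Nat.beq (lab p i) 0) ||
    Nat.beq i j) &&
  E.all fun q => (!Nat.beq p.1 q.1 || Nat.beq (lab p i) (lab q i)) &&
    (!Nat.blt p.1 6 || !Nat.blt q.1 6 || !Nat.beq (lab p i) 0 || Nat.beq (lab q i) 0)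

def ck1 (T : List Ent) (r : List ℕ) : Bool := T.all fun E => T.all fun G => (vs G).all fun w =>
  ((vs G).any fun v => !Nat.beq v w && !mem v (vs E)) || r.all fun i => r.any fun j =>
    G.all fun q => Nat.beq q.1 w || E.all fun p => !Nat.beq p.1 q.1 || Nat.beq (lab p i) (lab q j)

def ck2 (T : List Ent) : Bool := T.all fun E => T.all fun G => !sub (vs E) (vs G) || decide (E = G)

def ck3 (k : ℕ) (T : List Ent) : Bool := T4.all fun E => T.any fun G => eqL (vs E) (vs G) &&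
  (rg 4).all fun i => (rg 0).any fun j => G.all fun q => E.any fun p =>
    Nat.beq p.1 q.1 && Nat.beq (pr k p.1 (lab p i)) (lab q j)

def sat : List Ent → List (ℕ × ℕ) → Bool
  | [], _ => true
  | E :: L, a => (rg 0).any fun i => (E.all fun p => a.all fun x =>
      !Nat.beq x.1 p.1 || Nat.beq x.2 (lab p i)) && sat L (E.map (fun p => (p.1, lab p i)) ++ a)

lemma a0 : (ck0 T0 (rg 0) && ck2 T0 && ck3 0 T0 && !sat T0 []) = true := by decide +kernel
lemma a1 : (ck0 T1 (rg 1) && ck2 T1 && ck3 1 T1 && !sat T1 []) = true := by decide +kernel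
lemma a2 : (ck0 T2 (rg 2) && ck2 T2 && ck3 2 T2 && !sat T2 []) = true := by decide +kernel
lemma a3 : (ck0 T3 (rg 3) && ck2 T3 && ck3 3 T3 && !sat T3 []) = true := by decide +kernel
lemma a4 : (ck0 T4 (rg 4) && ck2 T4) = true := by decide +kernel
lemma b0 : ck1 T0 (rg 0) = true := by decide +kernel
lemma b1 : ck1 T1 (rg 1) = true := by decide +kernel
lemma b2 : ck1 T2 (rg 2) = true := by decide +kernel
lemma b3 : ck1 T3 (rg 3) = true := by decide +kernel
lemma b4 : ck1 T4 (rg 4) = true := by decide +kernel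

lemma vsT : ∀ k < 5, (TT k).map vs = BL := by decide +kernel

lemma BL_ok : ∀ F ∈ BL, F.length = 4 ∧ F.Nodup ∧ (∀ v ∈ F, v < 16) ∧
    (∀ w ∈ F, ∃ v ∈ F, v ≠ w ∧ 6 ≤ v) ∧ ∀ a ∈ F, ∀ b ∈ F, a < 6 → b < 6 → a / 3 = b / 3 := by
  decide +kernel

lemma T4_ok : ∀ E ∈ T4, ∀ p ∈ E, (∃ i ∈ rg 4, lab p i = 0) ∧
    ∀ i ∈ rg 4, p.1 < 6 → ∃ k < 4, pr k p.1 (lab p i) = 0 := by decide +kernel

lemma pr0 : ∀ k < 4, ∀ v < 6, pr k v 0 = 0 := by decide +kernel

end Pool.Agent.H10.Link
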