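import Mathlib

set_option autoImplicit false

/-! Along a shelling of a 3-complex containing two disjoint triangles `012` and `345`, one of four
threefold branched covers (all quotients of one ninefold cover) has a section. -/

namespace Pool.Agent.H10.Link
open Finset Function

def Two (O : ℕ → Prop) (l : ℕ → ℕ) (c : ℕ) : Prop :=
  ∃ a b, a ≠ b ∧ a / 3 = c ∧ b / 3 = c ∧ O a ∧ O b ∧ l a = 0 ∧ l b = 0

lemma Two.mono {O O' : ℕ → Prop} {l l' : ℕ → ℕ} {c : ℕ} (h : Two O l c) (h1 : ∀ v, O v → O' v)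
    (h2 : ∀ v, O v → v / 3 = c → l v = 0 → l' v = 0) : Two O' l' c := by
  obtain ⟨a, b, e, a1, b1, a2, b2, a3, b3⟩ := h
  exact ⟨a, b, e, a1, b1, h1 a a2, h1 b b2, h2 a a2 a1 a3, h2 b b2 b1 b3⟩

theorem exists_section (X : Set (Finset ℕ)) (hX : X.Finite) (t : Finset ℕ → ℕ)
    (inj : ∀ F ∈ X, ∀ G ∈ X, t F = t G → F = G) (A : ℕ → Finset ℕ → (ℕ → ℕ) → Prop)
    (pr : ℕ → ℕ → ℕ → ℕ) (h4 : ∀ G ∈ X, G.card = 4)
    (P : ∀ G ∈ X, ∀ F ∈ X, t F < t G → ∃ w ∈ G, w ∉ F ∧ ∃ N ∈ X, t N < t G ∧ G.erase w ⊆ N)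
    (loc : ∀ k G l l', (∀ v ∈ G, l v = l' v) → A k G l → A k G l')
    (E : ∀ k < 5, ∀ F ∈ X, ∀ G ∈ X, ∀ w ∈ G, G.erase w ⊆ F → ∀ l, A k F l →
      ∃ c, A k G (update l w c))
    (U : ∀ k < 5, ∀ G ∈ X, ∀ l l', A k G l → A k G l' → ∀ v ∈ G, l v = l' v →
      (6 ≤ v ∨ l v = 0) → ∀ u ∈ G, l u = l' u)
    (Z : ∀ k < 5, ∀ G ∈ X, ∀ l, A k G l → ∀ a ∈ G, ∀ b ∈ G, a < 6 → b < 6 → l a = 0 → l b = 0)
    (ex : ∀ G ∈ X, ∀ a ∈ G, ∃ l, A 4 G l ∧ l a = 0)
    (ns : ∀ G ∈ X, ∀ w, ∃ v ∈ G, v ≠ w ∧ 6 ≤ v)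
    (sep : ∀ G ∈ X, ∀ a ∈ G, ∀ b ∈ G, a < 6 → b < 6 → a / 3 = b / 3)
    (proj : ∀ k < 4, ∀ G ∈ X, ∀ l, A 4 G l → A k G fun v => pr k v (l v))
    (pr0 : ∀ k < 4, ∀ v < 6, pr k v 0 = 0)
    (pick : ∀ G ∈ X, ∀ l, A 4 G l → ∀ v ∈ G, v < 6 → ∃ k < 4, pr k v (l v) = 0) :
    ∃ k < 4, ∃ l, ∀ G ∈ X, A k G l := by
  classical
  let Sec : ℕ → ℕ → (ℕ → ℕ) → Prop := fun k n l => ∀ F ∈ X, t F < n → A k F l
  let Old : ℕ → ℕ → Prop := fun n v => ∃ F ∈ X, t F < n ∧ v ∈ F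
  let IA : ℕ → Prop := fun n => ∀ F ∈ X, t F < n → ∀ l0, A 4 F l0 →
    ∃ l, Sec 4 n l ∧ ∀ v ∈ F, l v = l0 v
  let IB : ℕ → Prop := fun n => ∃ l, Sec 4 n l ∧ ∃ c < 2, Two (Old n) l c
  let IC : ℕ → Prop := fun n => ∃ k < 4, ∃ l, Sec k n l ∧ ∀ c < 2, Two (Old n) l c
  have main : ∀ n, IA n ∨ IB n ∨ IC n := by
    intro n
    induction n with
    | zero => exact Or.inl fun F _ h => absurd h (by omega)
    | succ n ih =>
      have om : ∀ v, Old n v → Old (n + 1) v := fun v ⟨F, h1, h2, h3⟩ => ⟨F, h1, by omega, h3⟩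
      by_cases hG : ∃ G ∈ X, t G = n
      swap
      · have e : ∀ F ∈ X, t F < n + 1 → t F < n := fun F hF h =>
          lt_of_le_of_ne (by omega) fun e => hG ⟨F, hF, e⟩
        rcases ih with ih | ⟨l, h1, c, hc, h2⟩ | ⟨k, hk, l, h1, h2⟩
        · refine Or.inl fun F hF h l0 h0 => ?_
          obtain ⟨l, h1, h2⟩ := ih F hF (e F hF h) l0 h0
          exact ⟨l, fun F hF h => h1 F hF (e F hF h), h2⟩
        · exact Or.inr (Or.inl ⟨l, fun F hF h => h1 F hF (e F hF h), c, hc,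
            h2.mono om fun _ _ _ h => h⟩)
        · exact Or.inr (Or.inr ⟨k, hk, l, fun F hF h => h1 F hF (e F hF h), fun c hc =>
            (h2 c hc).mono om fun _ _ _ h => h⟩)
      obtain ⟨G, hG, hn⟩ := hG
      have e : ∀ F ∈ X, t F < n + 1 → t F < n ∨ F = G := fun F hF h =>
        (lt_or_eq_of_le (Nat.lt_succ_iff.1 h)).imp_right fun e => inj F hF G hG (e.trans hn.symm)
      by_cases h0 : ∃ F ∈ X, t F < n
      swap
      · refine Or.inl fun F hF h l0 hl => ⟨l0, fun F' hF' h' => ?_, fun _ _ => rfl⟩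
        rw [(e F' hF' h').resolve_left fun h => h0 ⟨F', hF', h⟩,
          ← (e F hF h).resolve_left fun h => h0 ⟨F, hF, h⟩]
        exact hl
      obtain ⟨F0, hF0, h0⟩ := h0
      obtain ⟨w, hw, -, N, hN, hNt, hGN⟩ := P G hG F0 hF0 (hn ▸ h0)
      rw [hn] at hNt
      have two : ∀ w' ∈ G, w' ≠ w → ∃ a b, a ≠ b ∧ ∀ v, (v ∈ G ∧ v ≠ w ∧ v ≠ w') ↔
          v = a ∨ v = b := by
        intro w' hw' hne
        obtain ⟨a, b, h1, h2⟩ := card_eq_two.1 (show ((G.erase w).erase w').card = 2 by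
          rw [card_erase_of_mem (mem_erase.2 ⟨hne, hw'⟩), card_erase_of_mem hw, h4 G hG])
        refine ⟨a, b, h1, fun v => ?_⟩
        have := Finset.ext_iff.1 h2 v
        simp only [mem_erase, mem_insert, mem_singleton] at this
        tauto
      have ext : ∀ k < 5, ∀ l, Sec k n l → (∀ w' ∈ G, w' ≠ w → (∀ v ∈ G, v ≠ w → v ≠ w' → v < 6) →
          ∃ a ∈ G, a ≠ w ∧ a ≠ w' ∧ l a = 0) →
          ∃ l', Sec k (n + 1) l' ∧ ∀ v, Old n v → l' v = l v := by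
        intro k hk l hl hc
        obtain ⟨c, h1⟩ := E k hk N hN G hG w hw hGN l (hl N hN hNt)
        by_cases ho : Old n w
        · obtain ⟨F, hF, h2, h3⟩ := id ho
          obtain ⟨w', hw', h5, N', hN', h6, h7⟩ := P G hG F hF (hn ▸ h2)
          have hne : w' ≠ w := fun e => h5 (e ▸ h3)
          obtain ⟨c', h8⟩ := E k hk N' hN' G hG w' hw' h7 l (hl N' hN' (hn ▸ h6))
          obtain ⟨a, a1, a2, a3, a4⟩ : ∃ a ∈ G, a ≠ w ∧ a ≠ w' ∧ (6 ≤ a ∨ l a = 0) := by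
            by_contra hcon
            push Not at hcon
            obtain ⟨a, a1, a2, a3, a4⟩ := hc w' hw' hne fun v b1 b2 b3 => (hcon v b1 b2 b3).1
            exact (hcon a a1 a2 a3).2 a4
          have h9 := U k hk G hG _ _ h1 h8 a a1 (by rw [update_of_ne a2, update_of_ne a3])
            (by rwa [update_of_ne a2]) w hw
          rw [update_self, update_of_ne hne.symm] at h9
          rw [h9, update_eq_self] at h1
          refine ⟨l, fun F hF h => ?_, fun _ _ => rfl⟩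
          rcases e F hF h with h | rfl
          exacts [hl F hF h, h1]
        · have ag : ∀ v, Old n v → update l w c v = l v := fun v hv =>
            update_of_ne (fun e : v = w => ho (e ▸ hv)) _ _
          refine ⟨update l w c, fun F hF h => ?_, ag⟩
          rcases e F hF h with h | rfl
          exacts [loc k F l _ (fun v hv => (ag v ⟨F, hF, h, hv⟩).symm) (hl F hF h), h1]
      have hit : ∀ l c, Two (Old n) l c → ∀ w' ∈ G, w' ≠ w → (∀ v ∈ G, v ≠ w → v ≠ w' → v / 3 = c) →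
          ∃ a ∈ G, a ≠ w ∧ a ≠ w' ∧ l a = 0 := by
        rintro l c ⟨a, b, h2, h3, h4, -, -, h7, h8⟩ w' hw' hne hs
        obtain ⟨x, y, c1, c2⟩ := two w' hw' hne
        obtain ⟨x1, x2, x3⟩ := (c2 x).2 (Or.inl rfl)
        obtain ⟨y1, y2, y3⟩ := (c2 y).2 (Or.inr rfl)
        have sx := hs x x1 x2 x3
        have sy := hs y y1 y2 y3
        have : (x = a ∨ x = b) ∨ y = a ∨ y = b := by omega
        rcases this with (h | h) | h | h
        exacts [⟨x, x1, x2, x3, h ▸ h7⟩, ⟨x, x1, x2, x3, h ▸ h8⟩, ⟨y, y1, y2, y3, h ▸ h7⟩,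
          ⟨y, y1, y2, y3, h ▸ h8⟩]
      have stepC : IC n → IC (n + 1) := by
        rintro ⟨k, hk, l, h1, h2⟩
        obtain ⟨l', b1, b2⟩ := ext k (by omega) l h1 fun w' hw' hne hs => by
          obtain ⟨x, y, c1, c2⟩ := two w' hw' hne
          obtain ⟨x1, x2, x3⟩ := (c2 x).2 (Or.inl rfl)
          have sx := hs x x1 x2 x3
          exact hit l (x / 3) (h2 _ (by omega)) w' hw' hne fun v v1 v2 v3 =>
            sep G hG v v1 x x1 (hs v v1 v2 v3) sx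
        exact ⟨k, hk, l', b1, fun c hc => (h2 c hc).mono om fun v a _ b => (b2 v a).trans b⟩
      have stepB : IB n → IB (n + 1) ∨ IC (n + 1) := by
        rintro ⟨l, h1, c, hc, h2⟩
        by_cases hd : ∃ w' ∈ G, w' ≠ w ∧ ∀ v ∈ G, v ≠ w → v ≠ w' → v < 6 ∧ v / 3 ≠ c
        · obtain ⟨w', hw', hne, hs⟩ := hd
          obtain ⟨x, y, c1, c2⟩ := two w' hw' hne
          obtain ⟨x1, x2, x3⟩ := (c2 x).2 (Or.inl rfl)
          obtain ⟨y1, y2, y3⟩ := (c2 y).2 (Or.inr rfl)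
          have xN := hGN (mem_erase.2 ⟨x2, x1⟩)
          have yN := hGN (mem_erase.2 ⟨y2, y1⟩)
          have sx := hs x x1 x2 x3
          have sy := hs y y1 y2 y3
          obtain ⟨k, hk, b1⟩ := pick N hN l (h1 N hN hNt) x xN sx.1
          refine Or.inr (stepC ⟨k, hk, fun v => pr k v (l v),
            fun F hF h => proj k hk F hF l (h1 F hF h), fun d hd => ?_⟩)
          by_cases hdc : d = c
          · subst hdc
            refine h2.mono (fun _ h => h) fun v _ a b => ?_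
            show pr k v (l v) = 0
            rw [b, pr0 k hk v (by omega)]
          · exact ⟨x, y, c1, by omega, by omega, ⟨N, hN, hNt, xN⟩, ⟨N, hN, hNt, yN⟩, b1,
              Z k (by omega) N hN _ (proj k hk N hN l (h1 N hN hNt)) x xN y yN sx.1 sy.1 b1⟩
        · obtain ⟨l', b1, b2⟩ := ext 4 (by omega) l h1 fun w' hw' hne hs => by
            refine hit l c h2 w' hw' hne fun v v1 v2 v3 => ?_
            by_contra hv
            exact hd ⟨w', hw', hne, fun u u1 u2 u3 => ⟨hs u u1 u2 u3, by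
              rwa [sep G hG u u1 v v1 (hs u u1 u2 u3) (hs v v1 v2 v3)]⟩⟩
          exact Or.inl ⟨l', b1, c, hc, h2.mono om fun v a _ b => (b2 v a).trans b⟩
      rcases ih with ih | ih | ih
      rotate_left
      · exact Or.inr (stepB ih)
      · exact Or.inr (Or.inr (stepC ih))
      by_cases hc : ∃ w' ∈ G, w' ≠ w ∧ ∀ v ∈ G, v ≠ w → v ≠ w' → v < 6
      · obtain ⟨w', hw', hne, hs⟩ := hc
        obtain ⟨x, y, c1, c2⟩ := two w' hw' hne
        obtain ⟨x1, x2, x3⟩ := (c2 x).2 (Or.inl rfl)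
        obtain ⟨y1, y2, y3⟩ := (c2 y).2 (Or.inr rfl)
        have xN := hGN (mem_erase.2 ⟨x2, x1⟩)
        have yN := hGN (mem_erase.2 ⟨y2, y1⟩)
        have sx := hs x x1 x2 x3
        have sy := hs y y1 y2 y3
        obtain ⟨l0, b1, b2⟩ := ex N hN x xN
        obtain ⟨l, b3, b4⟩ := ih N hN hNt l0 b1
        exact Or.inr (stepB ⟨l, b3, x / 3, by omega, x, y, c1, rfl, sep G hG y y1 x x1 sy sx,
          ⟨N, hN, hNt, xN⟩, ⟨N, hN, hNt, yN⟩, (b4 x xN).trans b2, (b4 y yN).trans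
            (Z 4 (by omega) N hN l0 b1 x xN y yN sx sy b2)⟩)
      have ext' : ∀ l, Sec 4 n l → ∃ l', Sec 4 (n + 1) l' ∧ ∀ v, Old n v → l' v = l v :=
        fun l hl => ext 4 (by omega) l hl fun w' hw' hne hs => absurd ⟨w', hw', hne, hs⟩ hc
      refine Or.inl fun F hF h l0 hl => ?_
      rcases e F hF h with h | rfl
      · obtain ⟨l, b1, b2⟩ := ih F hF h l0 hl
        obtain ⟨l', b3, b4⟩ := ext' l b1
        exact ⟨l', b3, fun v hv => (b4 v ⟨F, hF, h, hv⟩).trans (b2 v hv)⟩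
      · obtain ⟨x, hx, hx'⟩ := exists_mem_notMem_of_card_lt_card (s := F.erase w) (t := N)
          (by rw [card_erase_of_mem hw, h4 F hF, h4 N hN]; omega)
        have hE : F.erase w = N.erase x := eq_of_subset_of_card_le (subset_erase.2 ⟨hGN, hx'⟩)
          (by rw [card_erase_of_mem hw, card_erase_of_mem hx, h4 F hF, h4 N hN])
        obtain ⟨c, b0⟩ := E 4 (by omega) F hF N hN x hx (hE ▸ erase_subset _ _) l0 hl
        obtain ⟨l, b1, b2⟩ := ih N hN hNt _ b0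
        obtain ⟨l', b3, b4⟩ := ext' l b1
        obtain ⟨v, v1, v2, v3⟩ := ns F hF w
        have v4 := mem_erase.2 ⟨v2, v1⟩
        refine ⟨l', b3, U 4 (by omega) F hF l' l0 (b3 F hF h) hl v v1 ?_ (Or.inl v3)⟩
        rw [b4 v ⟨N, hN, hNt, hGN v4⟩, b2 v (hGN v4), update_of_ne fun e : v = x => hx' (e ▸ v4)]
  obtain ⟨n, hn⟩ := (hX.image t).bddAbove
  have hn' : ∀ F ∈ X, t F < n + 1 := fun F hF => Nat.lt_succ_of_le (hn ⟨F, hF, rfl⟩)
  rcases main (n + 1) with h | ⟨l, h, -⟩ | ⟨k, hk, l, h, -⟩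
  · rcases X.eq_empty_or_nonempty with rfl | ⟨F, hF⟩
    · exact ⟨0, by omega, 0, by simp⟩
    · obtain ⟨v, hv, -⟩ := ns F hF 0
      obtain ⟨l0, h1, -⟩ := ex F hF v hv
      obtain ⟨l, h2, -⟩ := h F hF (hn' F hF) l0 h1
      exact ⟨0, by omega, _, fun G hG => proj 0 (by omega) G hG l (h2 G hG (hn' G hG))⟩
  · exact ⟨0, by omega, _, fun G hG => proj 0 (by omega) G hG l (h G hG (hn' G hG))⟩
  · exact ⟨k, hk, l, fun G hG => h G hG (hn' G hG)⟩

end Pool.Agent.H10.Link
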