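import Pool.Agent.H10.Sph

set_option autoImplicit false
set_option maxRecDepth 100000

namespace Pool.Agent.H10.Link
open Pool.Agent.H10.Ced Pool.Agent.H10.Geo

abbrev Ent := List (ℕ × List ℕ)

def T0 : List Ent :=
  [[(0, [0, 1, 1]), (2, [0, 1, 1]), (6, [0, 1, 2]), (8, [0, 1, 2])],
   [(0, [0, 1, 1]), (2, [0, 1, 1]), (6, [0, 1, 2]), (12, [0, 2, 1])],
   [(0, [0, 1, 1]), (2, [0, 1, 1]), (8, [0, 1, 2]), (12, [0, 1, 2])],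
   [(0, [0, 1, 1]), (6, [0, 1, 2]), (8, [0, 1, 2]), (9, [0, 1, 2])],
   [(2, [0, 1, 1]), (6, [0, 1, 2]), (8, [0, 1, 2]), (10, [0, 1, 2])],
   [(0, [0, 1, 1]), (6, [0, 1, 2]), (7, [0, 1, 2]), (12, [0, 2, 1])],
   [(2, [0, 1, 1]), (6, [0, 1, 2]), (12, [0, 2, 1]), (14, [0, 2, 1])],
   [(0, [0, 1, 1]), (8, [0, 1, 2]), (9, [0, 1, 2]), (12, [0, 1, 2])],
   [(2, [0, 1, 1]), (8, [0, 1, 2]), (12, [0, 1, 2]), (14, [0, 1, 2])],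
   [(0, [0, 1, 1]), (6, [0, 1, 2]), (7, [0, 1, 2]), (9, [0, 1, 2])],
   [(5, [1, 1, 0]), (6, [0, 1, 2]), (8, [0, 1, 2]), (9, [0, 1, 2])],
   [(2, [0, 1, 1]), (6, [0, 1, 2]), (10, [0, 1, 2]), (14, [0, 2, 1])],
   [(2, [0, 1, 1]), (8, [0, 1, 2]), (10, [0, 1, 2]), (11, [0, 1, 2])],
   [(6, [0, 1, 2]), (8, [0, 1, 2]), (10, [0, 1, 2]), (13, [0, 1, 2])],
   [(0, [0, 1, 1]), (7, [0, 1, 2]), (10, [0, 2, 1]), (12, [0, 2, 1])],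
   [(6, [0, 1, 2]), (7, [0, 1, 2]), (12, [0, 2, 1]), (14, [0, 2, 1])],
   [(0, [0, 1, 1]), (9, [0, 1, 2]), (12, [0, 1, 2]), (13, [0, 1, 2])],
   [(3, [1, 1, 0]), (8, [0, 1, 2]), (9, [0, 1, 2]), (12, [0, 1, 2])],
   [(2, [0, 1, 1]), (8, [0, 1, 2]), (11, [0, 1, 2]), (14, [0, 1, 2])],
   [(4, [1, 1, 0]), (8, [0, 1, 2]), (12, [0, 1, 2]), (14, [0, 1, 2])],
   [(0, [0, 1, 1]), (7, [0, 1, 2]), (9, [0, 1, 2]), (10, [0, 2, 1])],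
   [(1, [0, 1, 1]), (6, [0, 1, 2]), (7, [0, 1, 2]), (9, [0, 1, 2])],
   [(5, [1, 1, 0]), (6, [0, 1, 2]), (8, [0, 1, 2]), (13, [0, 1, 2])],
   [(5, [1, 1, 0]), (6, [0, 1, 2]), (9, [0, 1, 2]), (15, [0, 2, 1])],
   [(3, [1, 1, 0]), (5, [1, 1, 0]), (8, [0, 1, 2]), (9, [0, 1, 2])],
   [(2, [0, 1, 1]), (9, [0, 2, 1]), (10, [0, 1, 2]), (14, [0, 2, 1])],
   [(1, [0, 1, 1]), (6, [0, 1, 2]), (10, [0, 1, 2]), (14, [0, 2, 1])],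
   [(2, [0, 1, 1]), (10, [0, 1, 2]), (11, [0, 1, 2]), (15, [0, 2, 1])],
   [(4, [1, 1, 0]), (8, [0, 1, 2]), (10, [0, 1, 2]), (11, [0, 1, 2])],
   [(1, [0, 1, 1]), (6, [0, 1, 2]), (10, [0, 1, 2]), (13, [0, 1, 2])],
   [(4, [1, 1, 0]), (8, [0, 1, 2]), (10, [0, 1, 2]), (13, [0, 1, 2])],
   [(0, [0, 1, 1]), (10, [0, 2, 1]), (12, [0, 2, 1]), (13, [0, 2, 1])],
   [(3, [1, 0, 1]), (7, [0, 1, 2]), (10, [0, 2, 1]), (12, [0, 2, 1])],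
   [(1, [0, 1, 1]), (6, [0, 1, 2]), (7, [0, 1, 2]), (14, [0, 2, 1])],
   [(5, [1, 0, 1]), (7, [0, 1, 2]), (12, [0, 2, 1]), (14, [0, 2, 1])],
   [(0, [0, 1, 1]), (9, [0, 1, 2]), (13, [0, 1, 2]), (14, [0, 1, 2])],
   [(3, [1, 1, 0]), (9, [0, 1, 2]), (12, [0, 1, 2]), (13, [0, 1, 2])],
   [(3, [1, 1, 0]), (8, [0, 1, 2]), (12, [0, 1, 2]), (15, [2, 0, 1])],
   [(2, [0, 1, 1]), (9, [0, 1, 2]), (11, [0, 1, 2]), (14, [0, 1, 2])],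
   [(4, [1, 1, 0]), (8, [0, 1, 2]), (11, [0, 1, 2]), (14, [0, 1, 2])],
   [(4, [1, 1, 0]), (8, [0, 1, 2]), (12, [0, 1, 2]), (15, [2, 0, 1])],
   [(4, [1, 1, 0]), (5, [1, 1, 0]), (12, [0, 1, 2]), (14, [0, 1, 2])],
   [(0, [0, 1, 1]), (9, [0, 1, 2]), (10, [0, 2, 1]), (14, [0, 1, 2])],
   [(2, [0, 1, 1]), (7, [0, 1, 2]), (9, [0, 1, 2]), (10, [0, 2, 1])],
   [(1, [0, 1, 1]), (6, [0, 1, 2]), (9, [0, 1, 2]), (15, [0, 2, 1])],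
   [(1, [0, 1, 1]), (2, [0, 1, 1]), (7, [0, 1, 2]), (9, [0, 1, 2])],
   [(5, [1, 1, 0]), (6, [0, 1, 2]), (13, [0, 1, 2]), (15, [0, 2, 1])],
   [(5, [1, 1, 0]), (7, [2, 0, 1]), (8, [0, 1, 2]), (13, [0, 1, 2])],
   [(3, [1, 1, 0]), (5, [1, 1, 0]), (9, [0, 1, 2]), (15, [0, 2, 1])],
   [(3, [1, 1, 0]), (5, [1, 1, 0]), (8, [0, 1, 2]), (15, [2, 0, 1])],
   [(0, [0, 1, 1]), (1, [0, 1, 1]), (10, [0, 1, 2]), (14, [0, 2, 1])],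
   [(2, [0, 1, 1]), (7, [0, 2, 1]), (10, [0, 1, 2]), (15, [0, 2, 1])],
   [(2, [0, 1, 1]), (9, [0, 1, 2]), (11, [0, 1, 2]), (15, [0, 2, 1])],
   [(4, [1, 1, 0]), (10, [0, 1, 2]), (11, [0, 1, 2]), (15, [0, 2, 1])],
   [(1, [0, 1, 1]), (6, [0, 1, 2]), (13, [0, 1, 2]), (15, [0, 2, 1])],
   [(0, [0, 1, 1]), (1, [0, 1, 1]), (10, [0, 1, 2]), (13, [0, 1, 2])],
   [(4, [1, 1, 0]), (7, [2, 0, 1]), (8, [0, 1, 2]), (13, [0, 1, 2])],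
   [(3, [1, 1, 0]), (4, [1, 1, 0]), (10, [0, 1, 2]), (13, [0, 1, 2])],
   [(3, [1, 0, 1]), (10, [0, 2, 1]), (12, [0, 2, 1]), (13, [0, 2, 1])],
   [(3, [1, 0, 1]), (4, [1, 0, 1]), (7, [0, 1, 2]), (10, [0, 2, 1])],
   [(3, [1, 0, 1]), (7, [0, 1, 2]), (11, [1, 2, 0]), (12, [0, 2, 1])],
   [(1, [0, 1, 1]), (7, [0, 1, 2]), (14, [0, 2, 1]), (15, [0, 1, 2])],
   [(5, [1, 0, 1]), (7, [0, 1, 2]), (11, [1, 2, 0]), (12, [0, 2, 1])],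
   [(5, [1, 0, 1]), (7, [0, 1, 2]), (14, [0, 2, 1]), (15, [0, 1, 2])],
   [(0, [0, 1, 1]), (1, [0, 1, 1]), (13, [0, 1, 2]), (14, [0, 1, 2])],
   [(9, [0, 1, 2]), (11, [0, 1, 2]), (13, [0, 1, 2]), (14, [0, 1, 2])],
   [(3, [1, 1, 0]), (9, [0, 1, 2]), (11, [0, 1, 2]), (13, [0, 1, 2])],
   [(3, [1, 1, 0]), (11, [1, 0, 2]), (12, [0, 1, 2]), (15, [2, 0, 1])],
   [(4, [1, 1, 0]), (5, [1, 1, 0]), (11, [0, 1, 2]), (14, [0, 1, 2])],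
   [(4, [1, 1, 0]), (7, [2, 0, 1]), (8, [0, 1, 2]), (15, [2, 0, 1])],
   [(4, [1, 1, 0]), (11, [1, 0, 2]), (12, [0, 1, 2]), (15, [2, 0, 1])],
   [(4, [1, 1, 0]), (5, [1, 1, 0]), (11, [1, 0, 2]), (12, [0, 1, 2])],
   [(1, [0, 1, 1]), (2, [0, 1, 1]), (9, [0, 1, 2]), (15, [0, 2, 1])],
   [(1, [0, 1, 1]), (2, [0, 1, 1]), (7, [0, 1, 2]), (15, [0, 1, 2])],
   [(5, [1, 1, 0]), (13, [0, 1, 2]), (14, [0, 1, 2]), (15, [0, 2, 1])],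
   [(5, [1, 1, 0]), (7, [2, 0, 1]), (8, [0, 1, 2]), (15, [2, 0, 1])],
   [(5, [1, 1, 0]), (7, [2, 0, 1]), (11, [0, 1, 2]), (13, [0, 1, 2])],
   [(3, [1, 1, 0]), (9, [0, 1, 2]), (11, [0, 1, 2]), (15, [0, 2, 1])],
   [(4, [1, 1, 0]), (7, [0, 2, 1]), (10, [0, 1, 2]), (15, [0, 2, 1])],
   [(1, [0, 1, 1]), (13, [0, 1, 2]), (14, [0, 1, 2]), (15, [0, 2, 1])],
   [(3, [1, 1, 0]), (4, [1, 1, 0]), (7, [2, 0, 1]), (13, [0, 1, 2])],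
   [(3, [1, 0, 1]), (7, [0, 1, 2]), (11, [1, 2, 0]), (13, [1, 2, 0])],
   [(5, [1, 1, 0]), (11, [0, 1, 2]), (13, [0, 1, 2]), (14, [0, 1, 2])]]

def T1 : List Ent :=
  [[(0, [1, 0, 1]), (2, [1, 0, 1]), (6, [0, 1, 2]), (8, [0, 1, 2])],
   [(0, [1, 0, 1]), (2, [1, 0, 1]), (6, [0, 1, 2]), (12, [2, 1, 0])],
   [(0, [1, 0, 1]), (2, [1, 0, 1]), (8, [0, 1, 2]), (12, [0, 1, 2])],
   [(0, [1, 0, 1]), (6, [0, 1, 2]), (8, [0, 1, 2]), (9, [0, 1, 2])],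
   [(2, [1, 0, 1]), (6, [0, 1, 2]), (8, [0, 1, 2]), (10, [0, 1, 2])],
   [(0, [1, 0, 1]), (6, [0, 1, 2]), (7, [0, 1, 2]), (12, [2, 1, 0])],
   [(2, [1, 0, 1]), (6, [0, 1, 2]), (12, [2, 1, 0]), (14, [0, 2, 1])],
   [(0, [1, 0, 1]), (8, [0, 1, 2]), (9, [0, 1, 2]), (12, [0, 1, 2])],
   [(2, [1, 0, 1]), (8, [0, 1, 2]), (12, [0, 1, 2]), (14, [1, 2, 0])],
   [(0, [1, 0, 1]), (6, [0, 1, 2]), (7, [0, 1, 2]), (9, [0, 1, 2])],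
   [(5, [1, 1, 0]), (6, [0, 1, 2]), (8, [0, 1, 2]), (9, [0, 1, 2])],
   [(2, [1, 0, 1]), (6, [0, 1, 2]), (10, [0, 1, 2]), (14, [0, 2, 1])],
   [(2, [1, 0, 1]), (8, [0, 1, 2]), (10, [0, 1, 2]), (11, [1, 2, 0])],
   [(6, [0, 1, 2]), (8, [0, 1, 2]), (10, [0, 1, 2]), (13, [2, 0, 1])],
   [(0, [1, 0, 1]), (7, [0, 1, 2]), (10, [0, 2, 1]), (12, [2, 1, 0])],
   [(6, [0, 1, 2]), (7, [0, 1, 2]), (12, [2, 1, 0]), (14, [0, 2, 1])],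
   [(0, [1, 0, 1]), (9, [0, 1, 2]), (12, [0, 1, 2]), (13, [0, 1, 2])],
   [(3, [1, 1, 0]), (8, [0, 1, 2]), (9, [0, 1, 2]), (12, [0, 1, 2])],
   [(2, [1, 0, 1]), (8, [0, 1, 2]), (11, [1, 2, 0]), (14, [1, 2, 0])],
   [(4, [0, 1, 1]), (8, [0, 1, 2]), (12, [0, 1, 2]), (14, [1, 2, 0])],
   [(0, [1, 0, 1]), (7, [0, 1, 2]), (9, [0, 1, 2]), (10, [0, 2, 1])],
   [(1, [1, 1, 0]), (6, [0, 1, 2]), (7, [0, 1, 2]), (9, [0, 1, 2])],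
   [(5, [1, 1, 0]), (6, [0, 1, 2]), (8, [0, 1, 2]), (13, [2, 0, 1])],
   [(5, [1, 1, 0]), (6, [0, 1, 2]), (9, [0, 1, 2]), (15, [1, 0, 2])],
   [(3, [1, 1, 0]), (5, [1, 1, 0]), (8, [0, 1, 2]), (9, [0, 1, 2])],
   [(2, [1, 0, 1]), (9, [0, 2, 1]), (10, [0, 1, 2]), (14, [0, 2, 1])],
   [(1, [1, 1, 0]), (6, [0, 1, 2]), (10, [0, 1, 2]), (14, [0, 2, 1])],
   [(2, [1, 0, 1]), (10, [0, 1, 2]), (11, [1, 2, 0]), (15, [0, 2, 1])],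
   [(4, [0, 1, 1]), (8, [0, 1, 2]), (10, [0, 1, 2]), (11, [1, 2, 0])],
   [(1, [1, 1, 0]), (6, [0, 1, 2]), (10, [0, 1, 2]), (13, [2, 0, 1])],
   [(4, [0, 1, 1]), (8, [0, 1, 2]), (10, [0, 1, 2]), (13, [2, 0, 1])],
   [(0, [1, 0, 1]), (10, [0, 2, 1]), (12, [2, 1, 0]), (13, [2, 1, 0])],
   [(3, [0, 1, 1]), (7, [0, 1, 2]), (10, [0, 2, 1]), (12, [2, 1, 0])],
   [(1, [1, 1, 0]), (6, [0, 1, 2]), (7, [0, 1, 2]), (14, [0, 2, 1])],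
   [(5, [1, 1, 0]), (7, [0, 1, 2]), (12, [2, 1, 0]), (14, [0, 2, 1])],
   [(0, [1, 0, 1]), (9, [0, 1, 2]), (13, [0, 1, 2]), (14, [0, 1, 2])],
   [(3, [1, 1, 0]), (9, [0, 1, 2]), (12, [0, 1, 2]), (13, [0, 1, 2])],
   [(3, [1, 1, 0]), (8, [0, 1, 2]), (12, [0, 1, 2]), (15, [0, 1, 2])],
   [(2, [1, 0, 1]), (9, [1, 2, 0]), (11, [1, 2, 0]), (14, [1, 2, 0])],
   [(4, [0, 1, 1]), (8, [0, 1, 2]), (11, [1, 2, 0]), (14, [1, 2, 0])],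
   [(4, [0, 1, 1]), (8, [0, 1, 2]), (12, [0, 1, 2]), (15, [0, 1, 2])],
   [(4, [0, 1, 1]), (5, [0, 1, 1]), (12, [0, 1, 2]), (14, [1, 2, 0])],
   [(0, [1, 0, 1]), (9, [0, 1, 2]), (10, [0, 2, 1]), (14, [0, 1, 2])],
   [(2, [1, 1, 0]), (7, [0, 1, 2]), (9, [0, 1, 2]), (10, [0, 2, 1])],
   [(1, [1, 1, 0]), (6, [0, 1, 2]), (9, [0, 1, 2]), (15, [1, 0, 2])],
   [(1, [1, 1, 0]), (2, [1, 1, 0]), (7, [0, 1, 2]), (9, [0, 1, 2])],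
   [(5, [1, 1, 0]), (6, [0, 1, 2]), (13, [2, 0, 1]), (15, [1, 0, 2])],
   [(5, [1, 1, 0]), (7, [0, 1, 2]), (8, [0, 1, 2]), (13, [2, 0, 1])],
   [(3, [1, 1, 0]), (5, [1, 1, 0]), (9, [0, 1, 2]), (15, [1, 0, 2])],
   [(3, [1, 1, 0]), (5, [1, 1, 0]), (8, [0, 1, 2]), (15, [0, 1, 2])],
   [(0, [1, 1, 0]), (1, [1, 1, 0]), (10, [0, 1, 2]), (14, [0, 2, 1])],
   [(2, [1, 0, 1]), (7, [0, 2, 1]), (10, [0, 1, 2]), (15, [0, 2, 1])],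
   [(2, [1, 0, 1]), (9, [1, 2, 0]), (11, [1, 2, 0]), (15, [0, 2, 1])],
   [(4, [0, 1, 1]), (10, [0, 1, 2]), (11, [1, 2, 0]), (15, [0, 2, 1])],
   [(1, [1, 1, 0]), (6, [0, 1, 2]), (13, [2, 0, 1]), (15, [1, 0, 2])],
   [(0, [1, 1, 0]), (1, [1, 1, 0]), (10, [0, 1, 2]), (13, [2, 0, 1])],
   [(4, [0, 1, 1]), (7, [0, 1, 2]), (8, [0, 1, 2]), (13, [2, 0, 1])],
   [(3, [0, 1, 1]), (4, [0, 1, 1]), (10, [0, 1, 2]), (13, [2, 0, 1])],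
   [(3, [0, 1, 1]), (10, [0, 2, 1]), (12, [2, 1, 0]), (13, [2, 1, 0])],
   [(3, [0, 1, 1]), (4, [0, 1, 1]), (7, [0, 1, 2]), (10, [0, 2, 1])],
   [(3, [0, 1, 1]), (7, [0, 1, 2]), (11, [2, 0, 1]), (12, [2, 1, 0])],
   [(1, [1, 1, 0]), (7, [0, 1, 2]), (14, [0, 2, 1]), (15, [0, 1, 2])],
   [(5, [1, 1, 0]), (7, [0, 1, 2]), (11, [2, 0, 1]), (12, [2, 1, 0])],
   [(5, [1, 1, 0]), (7, [0, 1, 2]), (14, [0, 2, 1]), (15, [0, 1, 2])],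
   [(0, [1, 0, 1]), (1, [1, 0, 1]), (13, [0, 1, 2]), (14, [0, 1, 2])],
   [(9, [0, 1, 2]), (11, [0, 1, 2]), (13, [0, 1, 2]), (14, [0, 1, 2])],
   [(3, [1, 1, 0]), (9, [0, 1, 2]), (11, [0, 1, 2]), (13, [0, 1, 2])],
   [(3, [1, 1, 0]), (11, [1, 0, 2]), (12, [0, 1, 2]), (15, [0, 1, 2])],
   [(4, [0, 1, 1]), (5, [0, 1, 1]), (11, [1, 2, 0]), (14, [1, 2, 0])],
   [(4, [0, 1, 1]), (7, [0, 1, 2]), (8, [0, 1, 2]), (15, [0, 1, 2])],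
   [(4, [0, 1, 1]), (11, [1, 0, 2]), (12, [0, 1, 2]), (15, [0, 1, 2])],
   [(4, [0, 1, 1]), (5, [0, 1, 1]), (11, [1, 0, 2]), (12, [0, 1, 2])],
   [(1, [1, 1, 0]), (2, [1, 1, 0]), (9, [0, 1, 2]), (15, [1, 0, 2])],
   [(1, [1, 1, 0]), (2, [1, 1, 0]), (7, [0, 1, 2]), (15, [0, 1, 2])],
   [(5, [1, 1, 0]), (13, [2, 0, 1]), (14, [2, 0, 1]), (15, [1, 0, 2])],
   [(5, [1, 1, 0]), (7, [0, 1, 2]), (8, [0, 1, 2]), (15, [0, 1, 2])],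
   [(5, [1, 1, 0]), (7, [0, 1, 2]), (11, [2, 0, 1]), (13, [2, 0, 1])],
   [(3, [1, 1, 0]), (9, [0, 1, 2]), (11, [0, 1, 2]), (15, [1, 0, 2])],
   [(4, [0, 1, 1]), (7, [0, 2, 1]), (10, [0, 1, 2]), (15, [0, 2, 1])],
   [(1, [1, 1, 0]), (13, [2, 0, 1]), (14, [2, 0, 1]), (15, [1, 0, 2])],
   [(3, [0, 1, 1]), (4, [0, 1, 1]), (7, [0, 1, 2]), (13, [2, 0, 1])],
   [(3, [0, 1, 1]), (7, [0, 1, 2]), (11, [2, 0, 1]), (13, [2, 0, 1])],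
   [(5, [1, 0, 1]), (11, [0, 1, 2]), (13, [0, 1, 2]), (14, [0, 1, 2])]]

def T2 : List Ent :=
  [[(0, [1, 0, 1]), (2, [1, 0, 1]), (6, [0, 1, 2]), (8, [0, 1, 2])],
   [(0, [1, 0, 1]), (2, [1, 0, 1]), (6, [0, 1, 2]), (12, [2, 1, 0])],
   [(0, [1, 0, 1]), (2, [1, 0, 1]), (8, [0, 1, 2]), (12, [0, 1, 2])],
   [(0, [1, 0, 1]), (6, [0, 1, 2]), (8, [0, 1, 2]), (9, [0, 1, 2])],
   [(2, [1, 0, 1]), (6, [0, 1, 2]), (8, [0, 1, 2]), (10, [0, 1, 2])],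
   [(0, [1, 0, 1]), (6, [0, 1, 2]), (7, [0, 1, 2]), (12, [2, 1, 0])],
   [(2, [1, 0, 1]), (6, [0, 1, 2]), (12, [2, 1, 0]), (14, [0, 2, 1])],
   [(0, [1, 0, 1]), (8, [0, 1, 2]), (9, [0, 1, 2]), (12, [0, 1, 2])],
   [(2, [1, 0, 1]), (8, [0, 1, 2]), (12, [0, 1, 2]), (14, [1, 2, 0])],
   [(0, [1, 0, 1]), (6, [0, 1, 2]), (7, [0, 1, 2]), (9, [0, 1, 2])],
   [(5, [1, 0, 1]), (6, [0, 1, 2]), (8, [0, 1, 2]), (9, [0, 1, 2])],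
   [(2, [1, 0, 1]), (6, [0, 1, 2]), (10, [0, 1, 2]), (14, [0, 2, 1])],
   [(2, [1, 0, 1]), (8, [0, 1, 2]), (10, [0, 1, 2]), (11, [1, 2, 0])],
   [(6, [0, 1, 2]), (8, [0, 1, 2]), (10, [0, 1, 2]), (13, [2, 0, 1])],
   [(0, [1, 0, 1]), (7, [0, 1, 2]), (10, [0, 2, 1]), (12, [2, 1, 0])],
   [(6, [0, 1, 2]), (7, [0, 1, 2]), (12, [2, 1, 0]), (14, [0, 2, 1])],
   [(0, [1, 0, 1]), (9, [0, 1, 2]), (12, [0, 1, 2]), (13, [0, 1, 2])],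
   [(3, [1, 0, 1]), (8, [0, 1, 2]), (9, [0, 1, 2]), (12, [0, 1, 2])],
   [(2, [1, 0, 1]), (8, [0, 1, 2]), (11, [1, 2, 0]), (14, [1, 2, 0])],
   [(4, [1, 1, 0]), (8, [0, 1, 2]), (12, [0, 1, 2]), (14, [1, 2, 0])],
   [(0, [1, 0, 1]), (7, [0, 1, 2]), (9, [0, 1, 2]), (10, [0, 2, 1])],
   [(1, [1, 1, 0]), (6, [0, 1, 2]), (7, [0, 1, 2]), (9, [0, 1, 2])],
   [(5, [1, 0, 1]), (6, [0, 1, 2]), (8, [0, 1, 2]), (13, [2, 0, 1])],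
   [(5, [1, 0, 1]), (6, [0, 1, 2]), (9, [0, 1, 2]), (15, [1, 0, 2])],
   [(3, [1, 0, 1]), (5, [1, 0, 1]), (8, [0, 1, 2]), (9, [0, 1, 2])],
   [(2, [1, 0, 1]), (9, [0, 2, 1]), (10, [0, 1, 2]), (14, [0, 2, 1])],
   [(1, [1, 1, 0]), (6, [0, 1, 2]), (10, [0, 1, 2]), (14, [0, 2, 1])],
   [(2, [1, 0, 1]), (10, [0, 1, 2]), (11, [1, 2, 0]), (15, [0, 2, 1])],
   [(4, [1, 1, 0]), (8, [0, 1, 2]), (10, [0, 1, 2]), (11, [1, 2, 0])],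
   [(1, [1, 1, 0]), (6, [0, 1, 2]), (10, [0, 1, 2]), (13, [2, 0, 1])],
   [(4, [1, 1, 0]), (8, [0, 1, 2]), (10, [0, 1, 2]), (13, [2, 0, 1])],
   [(0, [1, 0, 1]), (10, [0, 2, 1]), (12, [2, 1, 0]), (13, [2, 1, 0])],
   [(3, [1, 0, 1]), (7, [0, 1, 2]), (10, [0, 2, 1]), (12, [2, 1, 0])],
   [(1, [1, 1, 0]), (6, [0, 1, 2]), (7, [0, 1, 2]), (14, [0, 2, 1])],
   [(5, [0, 1, 1]), (7, [0, 1, 2]), (12, [2, 1, 0]), (14, [0, 2, 1])],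
   [(0, [1, 0, 1]), (9, [0, 1, 2]), (13, [0, 1, 2]), (14, [0, 1, 2])],
   [(3, [1, 0, 1]), (9, [0, 1, 2]), (12, [0, 1, 2]), (13, [0, 1, 2])],
   [(3, [1, 0, 1]), (8, [0, 1, 2]), (12, [0, 1, 2]), (15, [2, 0, 1])],
   [(2, [1, 0, 1]), (9, [1, 2, 0]), (11, [1, 2, 0]), (14, [1, 2, 0])],
   [(4, [1, 1, 0]), (8, [0, 1, 2]), (11, [1, 2, 0]), (14, [1, 2, 0])],
   [(4, [1, 1, 0]), (8, [0, 1, 2]), (12, [0, 1, 2]), (15, [2, 0, 1])],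
   [(4, [1, 1, 0]), (5, [1, 1, 0]), (12, [0, 1, 2]), (14, [1, 2, 0])],
   [(0, [1, 0, 1]), (9, [0, 1, 2]), (10, [0, 2, 1]), (14, [0, 1, 2])],
   [(2, [1, 1, 0]), (7, [0, 1, 2]), (9, [0, 1, 2]), (10, [0, 2, 1])],
   [(1, [1, 1, 0]), (6, [0, 1, 2]), (9, [0, 1, 2]), (15, [1, 0, 2])],
   [(1, [1, 1, 0]), (2, [1, 1, 0]), (7, [0, 1, 2]), (9, [0, 1, 2])],
   [(5, [1, 0, 1]), (6, [0, 1, 2]), (13, [2, 0, 1]), (15, [1, 0, 2])],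
   [(5, [1, 0, 1]), (7, [2, 0, 1]), (8, [0, 1, 2]), (13, [2, 0, 1])],
   [(3, [1, 0, 1]), (5, [1, 0, 1]), (9, [0, 1, 2]), (15, [1, 0, 2])],
   [(3, [1, 0, 1]), (5, [1, 0, 1]), (8, [0, 1, 2]), (15, [2, 0, 1])],
   [(0, [1, 1, 0]), (1, [1, 1, 0]), (10, [0, 1, 2]), (14, [0, 2, 1])],
   [(2, [1, 0, 1]), (7, [0, 2, 1]), (10, [0, 1, 2]), (15, [0, 2, 1])],
   [(2, [1, 0, 1]), (9, [1, 2, 0]), (11, [1, 2, 0]), (15, [0, 2, 1])],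
   [(4, [1, 1, 0]), (10, [0, 1, 2]), (11, [1, 2, 0]), (15, [0, 2, 1])],
   [(1, [1, 1, 0]), (6, [0, 1, 2]), (13, [2, 0, 1]), (15, [1, 0, 2])],
   [(0, [1, 1, 0]), (1, [1, 1, 0]), (10, [0, 1, 2]), (13, [2, 0, 1])],
   [(4, [1, 1, 0]), (7, [2, 0, 1]), (8, [0, 1, 2]), (13, [2, 0, 1])],
   [(3, [1, 1, 0]), (4, [1, 1, 0]), (10, [0, 1, 2]), (13, [2, 0, 1])],
   [(3, [1, 0, 1]), (10, [0, 2, 1]), (12, [2, 1, 0]), (13, [2, 1, 0])],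
   [(3, [1, 0, 1]), (4, [1, 0, 1]), (7, [0, 1, 2]), (10, [0, 2, 1])],
   [(3, [1, 0, 1]), (7, [0, 1, 2]), (11, [0, 1, 2]), (12, [2, 1, 0])],
   [(1, [1, 1, 0]), (7, [0, 1, 2]), (14, [0, 2, 1]), (15, [0, 1, 2])],
   [(5, [0, 1, 1]), (7, [0, 1, 2]), (11, [0, 1, 2]), (12, [2, 1, 0])],
   [(5, [0, 1, 1]), (7, [0, 1, 2]), (14, [0, 2, 1]), (15, [0, 1, 2])],
   [(0, [1, 0, 1]), (1, [1, 0, 1]), (13, [0, 1, 2]), (14, [0, 1, 2])],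
   [(9, [0, 1, 2]), (11, [0, 1, 2]), (13, [0, 1, 2]), (14, [0, 1, 2])],
   [(3, [1, 0, 1]), (9, [0, 1, 2]), (11, [0, 1, 2]), (13, [0, 1, 2])],
   [(3, [1, 0, 1]), (11, [2, 1, 0]), (12, [0, 1, 2]), (15, [2, 0, 1])],
   [(4, [1, 1, 0]), (5, [1, 1, 0]), (11, [1, 2, 0]), (14, [1, 2, 0])],
   [(4, [1, 1, 0]), (7, [2, 0, 1]), (8, [0, 1, 2]), (15, [2, 0, 1])],
   [(4, [1, 1, 0]), (11, [2, 1, 0]), (12, [0, 1, 2]), (15, [2, 0, 1])],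
   [(4, [1, 1, 0]), (5, [1, 1, 0]), (11, [2, 1, 0]), (12, [0, 1, 2])],
   [(1, [1, 1, 0]), (2, [1, 1, 0]), (9, [0, 1, 2]), (15, [1, 0, 2])],
   [(1, [1, 1, 0]), (2, [1, 1, 0]), (7, [0, 1, 2]), (15, [0, 1, 2])],
   [(5, [1, 0, 1]), (13, [2, 0, 1]), (14, [2, 0, 1]), (15, [1, 0, 2])],
   [(5, [1, 0, 1]), (7, [2, 0, 1]), (8, [0, 1, 2]), (15, [2, 0, 1])],
   [(5, [1, 0, 1]), (7, [2, 0, 1]), (11, [2, 0, 1]), (13, [2, 0, 1])],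
   [(3, [1, 0, 1]), (9, [0, 1, 2]), (11, [0, 1, 2]), (15, [1, 0, 2])],
   [(4, [1, 1, 0]), (7, [0, 2, 1]), (10, [0, 1, 2]), (15, [0, 2, 1])],
   [(1, [1, 1, 0]), (13, [2, 0, 1]), (14, [2, 0, 1]), (15, [1, 0, 2])],
   [(3, [1, 1, 0]), (4, [1, 1, 0]), (7, [2, 0, 1]), (13, [2, 0, 1])],
   [(3, [1, 0, 1]), (7, [0, 1, 2]), (11, [0, 1, 2]), (13, [0, 1, 2])],
   [(5, [0, 1, 1]), (11, [0, 1, 2]), (13, [0, 1, 2]), (14, [0, 1, 2])]]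

def T3 : List Ent :=
  [[(0, [1, 0, 1]), (2, [1, 0, 1]), (6, [0, 2, 1]), (8, [0, 2, 1])],
   [(0, [1, 0, 1]), (2, [1, 0, 1]), (6, [0, 2, 1]), (12, [1, 2, 0])],
   [(0, [1, 0, 1]), (2, [1, 0, 1]), (8, [0, 2, 1]), (12, [0, 2, 1])],
   [(0, [1, 0, 1]), (6, [0, 2, 1]), (8, [0, 2, 1]), (9, [0, 2, 1])],
   [(2, [1, 0, 1]), (6, [0, 2, 1]), (8, [0, 2, 1]), (10, [0, 2, 1])],
   [(0, [1, 0, 1]), (6, [0, 2, 1]), (7, [0, 2, 1]), (12, [1, 2, 0])],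
   [(2, [1, 0, 1]), (6, [0, 2, 1]), (12, [1, 2, 0]), (14, [0, 1, 2])],
   [(0, [1, 0, 1]), (8, [0, 2, 1]), (9, [0, 2, 1]), (12, [0, 2, 1])],
   [(2, [1, 0, 1]), (8, [0, 2, 1]), (12, [0, 2, 1]), (14, [2, 1, 0])],
   [(0, [1, 0, 1]), (6, [0, 2, 1]), (7, [0, 2, 1]), (9, [0, 2, 1])],
   [(5, [0, 1, 1]), (6, [0, 2, 1]), (8, [0, 2, 1]), (9, [0, 2, 1])],
   [(2, [1, 0, 1]), (6, [0, 2, 1]), (10, [0, 2, 1]), (14, [0, 1, 2])],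
   [(2, [1, 0, 1]), (8, [0, 2, 1]), (10, [0, 2, 1]), (11, [2, 1, 0])],
   [(6, [0, 2, 1]), (8, [0, 2, 1]), (10, [0, 2, 1]), (13, [1, 0, 2])],
   [(0, [1, 0, 1]), (7, [0, 2, 1]), (10, [0, 1, 2]), (12, [1, 2, 0])],
   [(6, [0, 2, 1]), (7, [0, 2, 1]), (12, [1, 2, 0]), (14, [0, 1, 2])],
   [(0, [1, 0, 1]), (9, [0, 2, 1]), (12, [0, 2, 1]), (13, [0, 2, 1])],
   [(3, [0, 1, 1]), (8, [0, 2, 1]), (9, [0, 2, 1]), (12, [0, 2, 1])],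
   [(2, [1, 0, 1]), (8, [0, 2, 1]), (11, [2, 1, 0]), (14, [2, 1, 0])],
   [(4, [1, 0, 1]), (8, [0, 2, 1]), (12, [0, 2, 1]), (14, [2, 1, 0])],
   [(0, [1, 0, 1]), (7, [0, 2, 1]), (9, [0, 2, 1]), (10, [0, 1, 2])],
   [(1, [1, 1, 0]), (6, [0, 2, 1]), (7, [0, 2, 1]), (9, [0, 2, 1])],
   [(5, [0, 1, 1]), (6, [0, 2, 1]), (8, [0, 2, 1]), (13, [1, 0, 2])],
   [(5, [0, 1, 1]), (6, [0, 2, 1]), (9, [0, 2, 1]), (15, [2, 0, 1])],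
   [(3, [0, 1, 1]), (5, [0, 1, 1]), (8, [0, 2, 1]), (9, [0, 2, 1])],
   [(2, [1, 0, 1]), (9, [0, 1, 2]), (10, [0, 2, 1]), (14, [0, 1, 2])],
   [(1, [1, 1, 0]), (6, [0, 2, 1]), (10, [0, 2, 1]), (14, [0, 1, 2])],
   [(2, [1, 0, 1]), (10, [0, 2, 1]), (11, [2, 1, 0]), (15, [0, 1, 2])],
   [(4, [1, 0, 1]), (8, [0, 2, 1]), (10, [0, 2, 1]), (11, [2, 1, 0])],
   [(1, [1, 1, 0]), (6, [0, 2, 1]), (10, [0, 2, 1]), (13, [1, 0, 2])],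
   [(4, [1, 0, 1]), (8, [0, 2, 1]), (10, [0, 2, 1]), (13, [1, 0, 2])],
   [(0, [1, 0, 1]), (10, [0, 1, 2]), (12, [1, 2, 0]), (13, [1, 2, 0])],
   [(3, [1, 1, 0]), (7, [0, 2, 1]), (10, [0, 1, 2]), (12, [1, 2, 0])],
   [(1, [1, 1, 0]), (6, [0, 2, 1]), (7, [0, 2, 1]), (14, [0, 1, 2])],
   [(5, [1, 0, 1]), (7, [0, 2, 1]), (12, [1, 2, 0]), (14, [0, 1, 2])],
   [(0, [1, 0, 1]), (9, [0, 2, 1]), (13, [0, 2, 1]), (14, [0, 2, 1])],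
   [(3, [0, 1, 1]), (9, [0, 2, 1]), (12, [0, 2, 1]), (13, [0, 2, 1])],
   [(3, [0, 1, 1]), (8, [0, 2, 1]), (12, [0, 2, 1]), (15, [2, 1, 0])],
   [(2, [1, 0, 1]), (9, [2, 1, 0]), (11, [2, 1, 0]), (14, [2, 1, 0])],
   [(4, [1, 0, 1]), (8, [0, 2, 1]), (11, [2, 1, 0]), (14, [2, 1, 0])],
   [(4, [1, 0, 1]), (8, [0, 2, 1]), (12, [0, 2, 1]), (15, [2, 1, 0])],
   [(4, [1, 0, 1]), (5, [1, 0, 1]), (12, [0, 2, 1]), (14, [2, 1, 0])],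
   [(0, [1, 0, 1]), (9, [0, 2, 1]), (10, [0, 1, 2]), (14, [0, 2, 1])],
   [(2, [1, 1, 0]), (7, [0, 2, 1]), (9, [0, 2, 1]), (10, [0, 1, 2])],
   [(1, [1, 1, 0]), (6, [0, 2, 1]), (9, [0, 2, 1]), (15, [2, 0, 1])],
   [(1, [1, 1, 0]), (2, [1, 1, 0]), (7, [0, 2, 1]), (9, [0, 2, 1])],
   [(5, [0, 1, 1]), (6, [0, 2, 1]), (13, [1, 0, 2]), (15, [2, 0, 1])],
   [(5, [0, 1, 1]), (7, [2, 1, 0]), (8, [0, 2, 1]), (13, [1, 0, 2])],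
   [(3, [0, 1, 1]), (5, [0, 1, 1]), (9, [0, 2, 1]), (15, [2, 0, 1])],
   [(3, [0, 1, 1]), (5, [0, 1, 1]), (8, [0, 2, 1]), (15, [2, 1, 0])],
   [(0, [1, 1, 0]), (1, [1, 1, 0]), (10, [0, 2, 1]), (14, [0, 1, 2])],
   [(2, [1, 0, 1]), (7, [0, 1, 2]), (10, [0, 2, 1]), (15, [0, 1, 2])],
   [(2, [1, 0, 1]), (9, [2, 1, 0]), (11, [2, 1, 0]), (15, [0, 1, 2])],
   [(4, [1, 0, 1]), (10, [0, 2, 1]), (11, [2, 1, 0]), (15, [0, 1, 2])],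
   [(1, [1, 1, 0]), (6, [0, 2, 1]), (13, [1, 0, 2]), (15, [2, 0, 1])],
   [(0, [1, 1, 0]), (1, [1, 1, 0]), (10, [0, 2, 1]), (13, [1, 0, 2])],
   [(4, [1, 0, 1]), (7, [2, 1, 0]), (8, [0, 2, 1]), (13, [1, 0, 2])],
   [(3, [1, 0, 1]), (4, [1, 0, 1]), (10, [0, 2, 1]), (13, [1, 0, 2])],
   [(3, [1, 1, 0]), (10, [0, 1, 2]), (12, [1, 2, 0]), (13, [1, 2, 0])],
   [(3, [1, 1, 0]), (4, [1, 1, 0]), (7, [0, 2, 1]), (10, [0, 1, 2])],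
   [(3, [1, 1, 0]), (7, [0, 2, 1]), (11, [2, 1, 0]), (12, [1, 2, 0])],
   [(1, [1, 1, 0]), (7, [0, 2, 1]), (14, [0, 1, 2]), (15, [0, 2, 1])],
   [(5, [1, 0, 1]), (7, [0, 2, 1]), (11, [2, 1, 0]), (12, [1, 2, 0])],
   [(5, [1, 0, 1]), (7, [0, 2, 1]), (14, [0, 1, 2]), (15, [0, 2, 1])],
   [(0, [1, 0, 1]), (1, [1, 0, 1]), (13, [0, 2, 1]), (14, [0, 2, 1])],
   [(9, [0, 2, 1]), (11, [0, 2, 1]), (13, [0, 2, 1]), (14, [0, 2, 1])],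
   [(3, [0, 1, 1]), (9, [0, 2, 1]), (11, [0, 2, 1]), (13, [0, 2, 1])],
   [(3, [0, 1, 1]), (11, [0, 1, 2]), (12, [0, 2, 1]), (15, [2, 1, 0])],
   [(4, [1, 0, 1]), (5, [1, 0, 1]), (11, [2, 1, 0]), (14, [2, 1, 0])],
   [(4, [1, 0, 1]), (7, [2, 1, 0]), (8, [0, 2, 1]), (15, [2, 1, 0])],
   [(4, [1, 0, 1]), (11, [0, 1, 2]), (12, [0, 2, 1]), (15, [2, 1, 0])],
   [(4, [1, 0, 1]), (5, [1, 0, 1]), (11, [0, 1, 2]), (12, [0, 2, 1])],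
   [(1, [1, 1, 0]), (2, [1, 1, 0]), (9, [0, 2, 1]), (15, [2, 0, 1])],
   [(1, [1, 1, 0]), (2, [1, 1, 0]), (7, [0, 2, 1]), (15, [0, 2, 1])],
   [(5, [0, 1, 1]), (13, [1, 0, 2]), (14, [1, 0, 2]), (15, [2, 0, 1])],
   [(5, [0, 1, 1]), (7, [2, 1, 0]), (8, [0, 2, 1]), (15, [2, 1, 0])],
   [(5, [0, 1, 1]), (7, [2, 1, 0]), (11, [1, 0, 2]), (13, [1, 0, 2])],
   [(3, [0, 1, 1]), (9, [0, 2, 1]), (11, [0, 2, 1]), (15, [2, 0, 1])],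
   [(4, [1, 0, 1]), (7, [0, 1, 2]), (10, [0, 2, 1]), (15, [0, 1, 2])],
   [(1, [1, 1, 0]), (13, [1, 0, 2]), (14, [1, 0, 2]), (15, [2, 0, 1])],
   [(3, [1, 0, 1]), (4, [1, 0, 1]), (7, [2, 1, 0]), (13, [1, 0, 2])],
   [(3, [1, 1, 0]), (7, [0, 2, 1]), (11, [2, 1, 0]), (13, [2, 1, 0])],
   [(5, [1, 1, 0]), (11, [0, 2, 1]), (13, [0, 2, 1]), (14, [0, 2, 1])]]

def T4 : List Ent :=
  [[(0, [1, 0, 1, 5, 3, 4, 4, 3, 5]), (2, [1, 0, 1, 5, 3, 4, 4, 3, 5]), (6, [0, 1, 2, 3, 4, 5, 6, 7, 8]), (8, [0, 1, 2, 3, 4, 5, 6, 7, 8])],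
   [(0, [1, 0, 1, 5, 3, 4, 4, 3, 5]), (2, [1, 0, 1, 5, 3, 4, 4, 3, 5]), (6, [0, 1, 2, 3, 4, 5, 6, 7, 8]), (12, [2, 1, 0, 8, 7, 6, 5, 4, 3])],
   [(0, [1, 0, 1, 5, 3, 4, 4, 3, 5]), (2, [1, 0, 1, 5, 3, 4, 4, 3, 5]), (8, [0, 1, 2, 3, 4, 5, 6, 7, 8]), (12, [0, 1, 2, 3, 4, 5, 6, 7, 8])],
   [(0, [1, 0, 1, 5, 3, 4, 4, 3, 5]), (6, [0, 1, 2, 3, 4, 5, 6, 7, 8]), (8, [0, 1, 2, 3, 4, 5, 6, 7, 8]), (9, [0, 1, 2, 3, 4, 5, 6, 7, 8])],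
   [(2, [1, 0, 1, 5, 3, 4, 4, 3, 5]), (6, [0, 1, 2, 3, 4, 5, 6, 7, 8]), (8, [0, 1, 2, 3, 4, 5, 6, 7, 8]), (10, [0, 1, 2, 3, 4, 5, 6, 7, 8])],
   [(0, [1, 0, 1, 5, 3, 4, 4, 3, 5]), (6, [0, 1, 2, 3, 4, 5, 6, 7, 8]), (7, [0, 1, 2, 3, 4, 5, 6, 7, 8]), (12, [2, 1, 0, 8, 7, 6, 5, 4, 3])],
   [(2, [1, 0, 1, 5, 3, 4, 4, 3, 5]), (6, [0, 1, 2, 3, 4, 5, 6, 7, 8]), (12, [2, 1, 0, 8, 7, 6, 5, 4, 3]), (14, [0, 2, 1, 6, 8, 7, 3, 5, 4])],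
   [(0, [1, 0, 1, 5, 3, 4, 4, 3, 5]), (8, [0, 1, 2, 3, 4, 5, 6, 7, 8]), (9, [0, 1, 2, 3, 4, 5, 6, 7, 8]), (12, [0, 1, 2, 3, 4, 5, 6, 7, 8])],
   [(2, [1, 0, 1, 5, 3, 4, 4, 3, 5]), (8, [0, 1, 2, 3, 4, 5, 6, 7, 8]), (12, [0, 1, 2, 3, 4, 5, 6, 7, 8]), (14, [1, 2, 0, 4, 5, 3, 7, 8, 6])],
   [(0, [1, 0, 1, 5, 3, 4, 4, 3, 5]), (6, [0, 1, 2, 3, 4, 5, 6, 7, 8]), (7, [0, 1, 2, 3, 4, 5, 6, 7, 8]), (9, [0, 1, 2, 3, 4, 5, 6, 7, 8])],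
   [(5, [4, 5, 3, 5, 4, 3, 1, 1, 0]), (6, [0, 1, 2, 3, 4, 5, 6, 7, 8]), (8, [0, 1, 2, 3, 4, 5, 6, 7, 8]), (9, [0, 1, 2, 3, 4, 5, 6, 7, 8])],
   [(2, [1, 0, 1, 5, 3, 4, 4, 3, 5]), (6, [0, 1, 2, 3, 4, 5, 6, 7, 8]), (10, [0, 1, 2, 3, 4, 5, 6, 7, 8]), (14, [0, 2, 1, 6, 8, 7, 3, 5, 4])],
   [(2, [1, 0, 1, 5, 3, 4, 4, 3, 5]), (8, [0, 1, 2, 3, 4, 5, 6, 7, 8]), (10, [0, 1, 2, 3, 4, 5, 6, 7, 8]), (11, [1, 2, 0, 4, 5, 3, 7, 8, 6])],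
   [(6, [0, 1, 2, 3, 4, 5, 6, 7, 8]), (8, [0, 1, 2, 3, 4, 5, 6, 7, 8]), (10, [0, 1, 2, 3, 4, 5, 6, 7, 8]), (13, [2, 0, 1, 5, 3, 4, 8, 6, 7])],
   [(0, [1, 0, 1, 5, 3, 4, 4, 3, 5]), (7, [0, 1, 2, 3, 4, 5, 6, 7, 8]), (10, [0, 2, 1, 6, 8, 7, 3, 5, 4]), (12, [2, 1, 0, 8, 7, 6, 5, 4, 3])],
   [(6, [0, 1, 2, 3, 4, 5, 6, 7, 8]), (7, [0, 1, 2, 3, 4, 5, 6, 7, 8]), (12, [2, 1, 0, 8, 7, 6, 5, 4, 3]), (14, [0, 2, 1, 6, 8, 7, 3, 5, 4])],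
   [(0, [1, 0, 1, 5, 3, 4, 4, 3, 5]), (9, [0, 1, 2, 3, 4, 5, 6, 7, 8]), (12, [0, 1, 2, 3, 4, 5, 6, 7, 8]), (13, [0, 1, 2, 3, 4, 5, 6, 7, 8])],
   [(3, [4, 5, 3, 5, 4, 3, 1, 1, 0]), (8, [0, 1, 2, 3, 4, 5, 6, 7, 8]), (9, [0, 1, 2, 3, 4, 5, 6, 7, 8]), (12, [0, 1, 2, 3, 4, 5, 6, 7, 8])],
   [(2, [1, 0, 1, 5, 3, 4, 4, 3, 5]), (8, [0, 1, 2, 3, 4, 5, 6, 7, 8]), (11, [1, 2, 0, 4, 5, 3, 7, 8, 6]), (14, [1, 2, 0, 4, 5, 3, 7, 8, 6])],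
   [(4, [3, 4, 5, 3, 5, 4, 0, 1, 1]), (8, [0, 1, 2, 3, 4, 5, 6, 7, 8]), (12, [0, 1, 2, 3, 4, 5, 6, 7, 8]), (14, [1, 2, 0, 4, 5, 3, 7, 8, 6])],
   [(0, [1, 0, 1, 5, 3, 4, 4, 3, 5]), (7, [0, 1, 2, 3, 4, 5, 6, 7, 8]), (9, [0, 1, 2, 3, 4, 5, 6, 7, 8]), (10, [0, 2, 1, 6, 8, 7, 3, 5, 4])],
   [(1, [1, 1, 0, 4, 5, 3, 5, 4, 3]), (6, [0, 1, 2, 3, 4, 5, 6, 7, 8]), (7, [0, 1, 2, 3, 4, 5, 6, 7, 8]), (9, [0, 1, 2, 3, 4, 5, 6, 7, 8])],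
   [(5, [4, 5, 3, 5, 4, 3, 1, 1, 0]), (6, [0, 1, 2, 3, 4, 5, 6, 7, 8]), (8, [0, 1, 2, 3, 4, 5, 6, 7, 8]), (13, [2, 0, 1, 5, 3, 4, 8, 6, 7])],
   [(5, [4, 5, 3, 5, 4, 3, 1, 1, 0]), (6, [0, 1, 2, 3, 4, 5, 6, 7, 8]), (9, [0, 1, 2, 3, 4, 5, 6, 7, 8]), (15, [1, 0, 2, 7, 6, 8, 4, 3, 5])],
   [(3, [4, 5, 3, 5, 4, 3, 1, 1, 0]), (5, [4, 5, 3, 5, 4, 3, 1, 1, 0]), (8, [0, 1, 2, 3, 4, 5, 6, 7, 8]), (9, [0, 1, 2, 3, 4, 5, 6, 7, 8])],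
   [(2, [1, 0, 1, 5, 3, 4, 4, 3, 5]), (9, [0, 2, 1, 6, 8, 7, 3, 5, 4]), (10, [0, 1, 2, 3, 4, 5, 6, 7, 8]), (14, [0, 2, 1, 6, 8, 7, 3, 5, 4])],
   [(1, [1, 1, 0, 4, 5, 3, 5, 4, 3]), (6, [0, 1, 2, 3, 4, 5, 6, 7, 8]), (10, [0, 1, 2, 3, 4, 5, 6, 7, 8]), (14, [0, 2, 1, 6, 8, 7, 3, 5, 4])],
   [(2, [1, 0, 1, 5, 3, 4, 4, 3, 5]), (10, [0, 1, 2, 3, 4, 5, 6, 7, 8]), (11, [1, 2, 0, 4, 5, 3, 7, 8, 6]), (15, [0, 2, 1, 6, 8, 7, 3, 5, 4])],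
   [(4, [3, 4, 5, 3, 5, 4, 0, 1, 1]), (8, [0, 1, 2, 3, 4, 5, 6, 7, 8]), (10, [0, 1, 2, 3, 4, 5, 6, 7, 8]), (11, [1, 2, 0, 4, 5, 3, 7, 8, 6])],
   [(1, [1, 1, 0, 4, 5, 3, 5, 4, 3]), (6, [0, 1, 2, 3, 4, 5, 6, 7, 8]), (10, [0, 1, 2, 3, 4, 5, 6, 7, 8]), (13, [2, 0, 1, 5, 3, 4, 8, 6, 7])],
   [(4, [3, 4, 5, 3, 5, 4, 0, 1, 1]), (8, [0, 1, 2, 3, 4, 5, 6, 7, 8]), (10, [0, 1, 2, 3, 4, 5, 6, 7, 8]), (13, [2, 0, 1, 5, 3, 4, 8, 6, 7])],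
   [(0, [1, 0, 1, 5, 3, 4, 4, 3, 5]), (10, [0, 2, 1, 6, 8, 7, 3, 5, 4]), (12, [2, 1, 0, 8, 7, 6, 5, 4, 3]), (13, [2, 1, 0, 8, 7, 6, 5, 4, 3])],
   [(3, [3, 5, 4, 0, 1, 1, 3, 4, 5]), (7, [0, 1, 2, 3, 4, 5, 6, 7, 8]), (10, [0, 2, 1, 6, 8, 7, 3, 5, 4]), (12, [2, 1, 0, 8, 7, 6, 5, 4, 3])],
   [(1, [1, 1, 0, 4, 5, 3, 5, 4, 3]), (6, [0, 1, 2, 3, 4, 5, 6, 7, 8]), (7, [0, 1, 2, 3, 4, 5, 6, 7, 8]), (14, [0, 2, 1, 6, 8, 7, 3, 5, 4])],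
   [(5, [5, 4, 3, 1, 1, 0, 4, 5, 3]), (7, [0, 1, 2, 3, 4, 5, 6, 7, 8]), (12, [2, 1, 0, 8, 7, 6, 5, 4, 3]), (14, [0, 2, 1, 6, 8, 7, 3, 5, 4])],
   [(0, [1, 0, 1, 5, 3, 4, 4, 3, 5]), (9, [0, 1, 2, 3, 4, 5, 6, 7, 8]), (13, [0, 1, 2, 3, 4, 5, 6, 7, 8]), (14, [0, 1, 2, 3, 4, 5, 6, 7, 8])],
   [(3, [4, 5, 3, 5, 4, 3, 1, 1, 0]), (9, [0, 1, 2, 3, 4, 5, 6, 7, 8]), (12, [0, 1, 2, 3, 4, 5, 6, 7, 8]), (13, [0, 1, 2, 3, 4, 5, 6, 7, 8])],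
   [(3, [4, 5, 3, 5, 4, 3, 1, 1, 0]), (8, [0, 1, 2, 3, 4, 5, 6, 7, 8]), (12, [0, 1, 2, 3, 4, 5, 6, 7, 8]), (15, [6, 7, 8, 0, 1, 2, 3, 4, 5])],
   [(2, [1, 0, 1, 5, 3, 4, 4, 3, 5]), (9, [1, 2, 0, 4, 5, 3, 7, 8, 6]), (11, [1, 2, 0, 4, 5, 3, 7, 8, 6]), (14, [1, 2, 0, 4, 5, 3, 7, 8, 6])],
   [(4, [3, 4, 5, 3, 5, 4, 0, 1, 1]), (8, [0, 1, 2, 3, 4, 5, 6, 7, 8]), (11, [1, 2, 0, 4, 5, 3, 7, 8, 6]), (14, [1, 2, 0, 4, 5, 3, 7, 8, 6])],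
   [(4, [3, 4, 5, 3, 5, 4, 0, 1, 1]), (8, [0, 1, 2, 3, 4, 5, 6, 7, 8]), (12, [0, 1, 2, 3, 4, 5, 6, 7, 8]), (15, [6, 7, 8, 0, 1, 2, 3, 4, 5])],
   [(4, [3, 4, 5, 3, 5, 4, 0, 1, 1]), (5, [3, 4, 5, 3, 5, 4, 0, 1, 1]), (12, [0, 1, 2, 3, 4, 5, 6, 7, 8]), (14, [1, 2, 0, 4, 5, 3, 7, 8, 6])],
   [(0, [1, 0, 1, 5, 3, 4, 4, 3, 5]), (9, [0, 1, 2, 3, 4, 5, 6, 7, 8]), (10, [0, 2, 1, 6, 8, 7, 3, 5, 4]), (14, [0, 1, 2, 3, 4, 5, 6, 7, 8])],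
   [(2, [1, 1, 0, 4, 5, 3, 5, 4, 3]), (7, [0, 1, 2, 3, 4, 5, 6, 7, 8]), (9, [0, 1, 2, 3, 4, 5, 6, 7, 8]), (10, [0, 2, 1, 6, 8, 7, 3, 5, 4])],
   [(1, [1, 1, 0, 4, 5, 3, 5, 4, 3]), (6, [0, 1, 2, 3, 4, 5, 6, 7, 8]), (9, [0, 1, 2, 3, 4, 5, 6, 7, 8]), (15, [1, 0, 2, 7, 6, 8, 4, 3, 5])],
   [(1, [1, 1, 0, 4, 5, 3, 5, 4, 3]), (2, [1, 1, 0, 4, 5, 3, 5, 4, 3]), (7, [0, 1, 2, 3, 4, 5, 6, 7, 8]), (9, [0, 1, 2, 3, 4, 5, 6, 7, 8])],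
   [(5, [4, 5, 3, 5, 4, 3, 1, 1, 0]), (6, [0, 1, 2, 3, 4, 5, 6, 7, 8]), (13, [2, 0, 1, 5, 3, 4, 8, 6, 7]), (15, [1, 0, 2, 7, 6, 8, 4, 3, 5])],
   [(5, [4, 5, 3, 5, 4, 3, 1, 1, 0]), (7, [6, 7, 8, 0, 1, 2, 3, 4, 5]), (8, [0, 1, 2, 3, 4, 5, 6, 7, 8]), (13, [2, 0, 1, 5, 3, 4, 8, 6, 7])],
   [(3, [4, 5, 3, 5, 4, 3, 1, 1, 0]), (5, [4, 5, 3, 5, 4, 3, 1, 1, 0]), (9, [0, 1, 2, 3, 4, 5, 6, 7, 8]), (15, [1, 0, 2, 7, 6, 8, 4, 3, 5])],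
   [(3, [4, 5, 3, 5, 4, 3, 1, 1, 0]), (5, [4, 5, 3, 5, 4, 3, 1, 1, 0]), (8, [0, 1, 2, 3, 4, 5, 6, 7, 8]), (15, [6, 7, 8, 0, 1, 2, 3, 4, 5])],
   [(0, [1, 1, 0, 4, 5, 3, 5, 4, 3]), (1, [1, 1, 0, 4, 5, 3, 5, 4, 3]), (10, [0, 1, 2, 3, 4, 5, 6, 7, 8]), (14, [0, 2, 1, 6, 8, 7, 3, 5, 4])],
   [(2, [1, 0, 1, 5, 3, 4, 4, 3, 5]), (7, [0, 2, 1, 6, 8, 7, 3, 5, 4]), (10, [0, 1, 2, 3, 4, 5, 6, 7, 8]), (15, [0, 2, 1, 6, 8, 7, 3, 5, 4])],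
   [(2, [1, 0, 1, 5, 3, 4, 4, 3, 5]), (9, [1, 2, 0, 4, 5, 3, 7, 8, 6]), (11, [1, 2, 0, 4, 5, 3, 7, 8, 6]), (15, [0, 2, 1, 6, 8, 7, 3, 5, 4])],
   [(4, [3, 4, 5, 3, 5, 4, 0, 1, 1]), (10, [0, 1, 2, 3, 4, 5, 6, 7, 8]), (11, [1, 2, 0, 4, 5, 3, 7, 8, 6]), (15, [0, 2, 1, 6, 8, 7, 3, 5, 4])],
   [(1, [1, 1, 0, 4, 5, 3, 5, 4, 3]), (6, [0, 1, 2, 3, 4, 5, 6, 7, 8]), (13, [2, 0, 1, 5, 3, 4, 8, 6, 7]), (15, [1, 0, 2, 7, 6, 8, 4, 3, 5])],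
   [(0, [1, 1, 0, 4, 5, 3, 5, 4, 3]), (1, [1, 1, 0, 4, 5, 3, 5, 4, 3]), (10, [0, 1, 2, 3, 4, 5, 6, 7, 8]), (13, [2, 0, 1, 5, 3, 4, 8, 6, 7])],
   [(4, [3, 4, 5, 3, 5, 4, 0, 1, 1]), (7, [6, 7, 8, 0, 1, 2, 3, 4, 5]), (8, [0, 1, 2, 3, 4, 5, 6, 7, 8]), (13, [2, 0, 1, 5, 3, 4, 8, 6, 7])],
   [(3, [3, 4, 5, 3, 5, 4, 0, 1, 1]), (4, [3, 4, 5, 3, 5, 4, 0, 1, 1]), (10, [0, 1, 2, 3, 4, 5, 6, 7, 8]), (13, [2, 0, 1, 5, 3, 4, 8, 6, 7])],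
   [(3, [3, 5, 4, 0, 1, 1, 3, 4, 5]), (10, [0, 2, 1, 6, 8, 7, 3, 5, 4]), (12, [2, 1, 0, 8, 7, 6, 5, 4, 3]), (13, [2, 1, 0, 8, 7, 6, 5, 4, 3])],
   [(3, [3, 5, 4, 0, 1, 1, 3, 4, 5]), (4, [3, 5, 4, 0, 1, 1, 3, 4, 5]), (7, [0, 1, 2, 3, 4, 5, 6, 7, 8]), (10, [0, 2, 1, 6, 8, 7, 3, 5, 4])],
   [(3, [3, 5, 4, 0, 1, 1, 3, 4, 5]), (7, [0, 1, 2, 3, 4, 5, 6, 7, 8]), (11, [5, 3, 4, 8, 6, 7, 2, 0, 1]), (12, [2, 1, 0, 8, 7, 6, 5, 4, 3])],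
   [(1, [1, 1, 0, 4, 5, 3, 5, 4, 3]), (7, [0, 1, 2, 3, 4, 5, 6, 7, 8]), (14, [0, 2, 1, 6, 8, 7, 3, 5, 4]), (15, [0, 1, 2, 3, 4, 5, 6, 7, 8])],
   [(5, [5, 4, 3, 1, 1, 0, 4, 5, 3]), (7, [0, 1, 2, 3, 4, 5, 6, 7, 8]), (11, [5, 3, 4, 8, 6, 7, 2, 0, 1]), (12, [2, 1, 0, 8, 7, 6, 5, 4, 3])],
   [(5, [5, 4, 3, 1, 1, 0, 4, 5, 3]), (7, [0, 1, 2, 3, 4, 5, 6, 7, 8]), (14, [0, 2, 1, 6, 8, 7, 3, 5, 4]), (15, [0, 1, 2, 3, 4, 5, 6, 7, 8])],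
   [(0, [1, 0, 1, 5, 3, 4, 4, 3, 5]), (1, [1, 0, 1, 5, 3, 4, 4, 3, 5]), (13, [0, 1, 2, 3, 4, 5, 6, 7, 8]), (14, [0, 1, 2, 3, 4, 5, 6, 7, 8])],
   [(9, [0, 1, 2, 3, 4, 5, 6, 7, 8]), (11, [0, 1, 2, 3, 4, 5, 6, 7, 8]), (13, [0, 1, 2, 3, 4, 5, 6, 7, 8]), (14, [0, 1, 2, 3, 4, 5, 6, 7, 8])],
   [(3, [4, 5, 3, 5, 4, 3, 1, 1, 0]), (9, [0, 1, 2, 3, 4, 5, 6, 7, 8]), (11, [0, 1, 2, 3, 4, 5, 6, 7, 8]), (13, [0, 1, 2, 3, 4, 5, 6, 7, 8])],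
   [(3, [4, 5, 3, 5, 4, 3, 1, 1, 0]), (11, [4, 3, 5, 1, 0, 2, 7, 6, 8]), (12, [0, 1, 2, 3, 4, 5, 6, 7, 8]), (15, [6, 7, 8, 0, 1, 2, 3, 4, 5])],
   [(4, [3, 4, 5, 3, 5, 4, 0, 1, 1]), (5, [3, 4, 5, 3, 5, 4, 0, 1, 1]), (11, [1, 2, 0, 4, 5, 3, 7, 8, 6]), (14, [1, 2, 0, 4, 5, 3, 7, 8, 6])],
   [(4, [3, 4, 5, 3, 5, 4, 0, 1, 1]), (7, [6, 7, 8, 0, 1, 2, 3, 4, 5]), (8, [0, 1, 2, 3, 4, 5, 6, 7, 8]), (15, [6, 7, 8, 0, 1, 2, 3, 4, 5])],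
   [(4, [3, 4, 5, 3, 5, 4, 0, 1, 1]), (11, [4, 3, 5, 1, 0, 2, 7, 6, 8]), (12, [0, 1, 2, 3, 4, 5, 6, 7, 8]), (15, [6, 7, 8, 0, 1, 2, 3, 4, 5])],
   [(4, [3, 4, 5, 3, 5, 4, 0, 1, 1]), (5, [3, 4, 5, 3, 5, 4, 0, 1, 1]), (11, [4, 3, 5, 1, 0, 2, 7, 6, 8]), (12, [0, 1, 2, 3, 4, 5, 6, 7, 8])],
   [(1, [1, 1, 0, 4, 5, 3, 5, 4, 3]), (2, [1, 1, 0, 4, 5, 3, 5, 4, 3]), (9, [0, 1, 2, 3, 4, 5, 6, 7, 8]), (15, [1, 0, 2, 7, 6, 8, 4, 3, 5])],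
   [(1, [1, 1, 0, 4, 5, 3, 5, 4, 3]), (2, [1, 1, 0, 4, 5, 3, 5, 4, 3]), (7, [0, 1, 2, 3, 4, 5, 6, 7, 8]), (15, [0, 1, 2, 3, 4, 5, 6, 7, 8])],
   [(5, [4, 5, 3, 5, 4, 3, 1, 1, 0]), (13, [2, 0, 1, 5, 3, 4, 8, 6, 7]), (14, [2, 0, 1, 5, 3, 4, 8, 6, 7]), (15, [1, 0, 2, 7, 6, 8, 4, 3, 5])],
   [(5, [4, 5, 3, 5, 4, 3, 1, 1, 0]), (7, [6, 7, 8, 0, 1, 2, 3, 4, 5]), (8, [0, 1, 2, 3, 4, 5, 6, 7, 8]), (15, [6, 7, 8, 0, 1, 2, 3, 4, 5])],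
   [(5, [4, 5, 3, 5, 4, 3, 1, 1, 0]), (7, [6, 7, 8, 0, 1, 2, 3, 4, 5]), (11, [2, 0, 1, 5, 3, 4, 8, 6, 7]), (13, [2, 0, 1, 5, 3, 4, 8, 6, 7])],
   [(3, [4, 5, 3, 5, 4, 3, 1, 1, 0]), (9, [0, 1, 2, 3, 4, 5, 6, 7, 8]), (11, [0, 1, 2, 3, 4, 5, 6, 7, 8]), (15, [1, 0, 2, 7, 6, 8, 4, 3, 5])],
   [(4, [3, 4, 5, 3, 5, 4, 0, 1, 1]), (7, [0, 2, 1, 6, 8, 7, 3, 5, 4]), (10, [0, 1, 2, 3, 4, 5, 6, 7, 8]), (15, [0, 2, 1, 6, 8, 7, 3, 5, 4])],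
   [(1, [1, 1, 0, 4, 5, 3, 5, 4, 3]), (13, [2, 0, 1, 5, 3, 4, 8, 6, 7]), (14, [2, 0, 1, 5, 3, 4, 8, 6, 7]), (15, [1, 0, 2, 7, 6, 8, 4, 3, 5])],
   [(3, [3, 4, 5, 3, 5, 4, 0, 1, 1]), (4, [3, 4, 5, 3, 5, 4, 0, 1, 1]), (7, [6, 7, 8, 0, 1, 2, 3, 4, 5]), (13, [2, 0, 1, 5, 3, 4, 8, 6, 7])],
   [(3, [3, 5, 4, 0, 1, 1, 3, 4, 5]), (7, [0, 1, 2, 3, 4, 5, 6, 7, 8]), (11, [5, 3, 4, 8, 6, 7, 2, 0, 1]), (13, [5, 3, 4, 8, 6, 7, 2, 0, 1])],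
   [(5, [5, 3, 4, 4, 3, 5, 1, 0, 1]), (11, [0, 1, 2, 3, 4, 5, 6, 7, 8]), (13, [0, 1, 2, 3, 4, 5, 6, 7, 8]), (14, [0, 1, 2, 3, 4, 5, 6, 7, 8])]]

def BL : List (List ℕ) := [[0, 2, 6, 8], [0, 2, 6, 12], [0, 2, 8, 12], [0, 6, 8, 9], [2, 6, 8, 10], [0, 6, 7, 12], [2, 6, 12, 14], [0, 8, 9, 12], [2, 8, 12, 14], [0, 6, 7, 9], [5, 6, 8, 9], [2, 6, 10, 14], [2, 8, 10, 11], [6, 8, 10, 13], [0, 7, 10, 12], [6, 7, 12, 14], [0, 9, 12, 13], [3, 8, 9, 12], [2, 8, 11, 14], [4, 8, 12, 14], [0, 7, 9, 10], [1, 6, 7, 9], [5, 6, 8, 13], [5, 6, 9, 15], [3, 5, 8, 9], [2, 9, 10, 14], [1, 6, 10, 14], [2, 10, 11, 15], [4, 8, 10, 11], [1, 6, 10, 13], [4, 8, 10, 13], [0, 10, 12, 13], [3, 7, 10, 12], [1, 6, 7, 14], [5, 7, 12, 14], [0, 9, 13, 14], [3, 9, 12, 13], [3, 8, 12, 15], [2,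 9, 11, 14], [4, 8, 11, 14], [4, 8, 12, 15], [4, 5, 12, 14], [0, 9, 10, 14], [2, 7, 9, 10], [1, 6, 9, 15], [1, 2, 7, 9], [5, 6, 13, 15], [5, 7, 8, 13], [3, 5, 9, 15], [3, 5, 8, 15], [0, 1, 10, 14], [2, 7, 10, 15], [2, 9, 11, 15], [4, 10, 11, 15], [1, 6, 13, 15], [0, 1, 10, 13], [4, 7, 8, 13], [3, 4, 10, 13], [3, 10, 12, 13], [3, 4, 7, 10], [3, 7, 11, 12], [1, 7, 14, 15], [5, 7, 11, 12], [5, 7, 14, 15], [0, 1, 13, 14], [9, 11, 13, 14], [3, 9, 11, 13], [3, 11, 12, 15], [4, 5, 11, 14], [4, 7, 8, 15], [4, 11, 12, 15], [4, 5, 11, 12], [1, 2, 9, 15], [1, 2, 7, 15], [5, 13, 14, 15], [5, 7, 8, 15], [5, 7, 11, 13], [3, 9, 11, 15], [4, 7, 10, 15], [1, 13, 14, 15], [3, 4, 7, 13], [3, 7, 11, 13], [5, 11, 13, 14]]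

def ML : List (List ℕ × List ℕ × List (List ℕ)) :=
  [([3, 4], [7, 10, 13], [[4, 7, 10, 13], [3, 7, 10, 13]]),
   ([4, 13], [7, 8, 10], [[7, 8, 10, 13], [4, 7, 8, 10]]),
   ([4, 5], [11, 12, 14], [[5, 11, 12, 14], [4, 11, 12, 14]]),
   ([0, 1], [10, 13, 14], [[1, 10, 13, 14], [0, 10, 13, 14]]),
   ([5, 12], [7, 11, 14], [[5, 7, 11, 14], [7, 11, 12, 14]]),
   ([4, 14], [8, 11, 12], [[8, 11, 12, 14], [4, 8, 11, 12]]),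
   ([3, 10], [7, 12, 13], [[3, 7, 12, 13], [7, 10, 12, 13]]),
   ([0, 14], [9, 10, 13], [[9, 10, 13, 14], [0, 9, 10, 13]]),
   ([4, 7], [8, 10, 15], [[7, 8, 10, 15], [4, 8, 10, 15]]),
   ([3, 7], [11, 12, 13], [[7, 11, 12, 13], [3, 11, 12, 13]]),
   ([0, 13], [9, 10, 12], [[9, 10, 12, 13], [0, 9, 10, 12]]),
   ([5, 11], [7, 13, 14], [[5, 7, 13, 14], [7, 11, 13, 14]]),
   ([1, 2], [7, 9, 15], [[2, 7, 9, 15], [1, 7, 9, 15]]),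
   ([1, 9], [6, 7, 15], [[6, 7, 9, 15], [1, 6, 7, 15]]),
   ([0, 2], [6, 8, 12], [[2, 6, 8, 12], [0, 6, 8, 12]]),
   ([2, 12], [6, 8, 14], [[6, 8, 12, 14], [2, 6, 8, 14]]),
   ([4, 10], [8, 11, 15], [[4, 8, 11, 15], [8, 10, 11, 15]]),
   ([4], [8, 11, 12, 15], [[8, 11, 12, 15]]),
   ([0, 8], [6, 9, 12], [[6, 8, 9, 12], [0, 6, 9, 12]]),
   ([10, 11], [2, 8, 15], [[2, 8, 11, 15], [2, 8, 10, 15]]),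
   ([5, 14], [7, 13, 15], [[7, 13, 14, 15], [5, 7, 13, 15]]),
   ([0, 6], [7, 9, 12], [[6, 7, 9, 12], [0, 7, 9, 12]]),
   ([0], [7, 9, 10, 12], [[7, 9, 10, 12]]),
   ([1, 10], [6, 13, 14], [[6, 10, 13, 14], [1, 6, 13, 14]]),
   ([12, 15], [3, 8, 11], [[3, 8, 11, 15], [3, 8, 11, 12]]),
   ([10, 12], [7, 9, 13], [[7, 9, 12, 13], [7, 9, 10, 13]]),
   ([14, 15], [1, 7, 13], [[1, 7, 13, 15], [1, 7, 13, 14]]),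
   ([7, 11], [12, 13, 14], [[7, 12, 13, 14], [11, 12, 13, 14]]),
   ([3, 13], [9, 11, 12], [[9, 11, 12, 13], [3, 9, 11, 12]]),
   ([3, 5], [8, 9, 15], [[5, 8, 9, 15], [3, 8, 9, 15]]),
   ([2, 7], [9, 10, 15], [[7, 9, 10, 15], [2, 9, 10, 15]]),
   ([2, 6], [8, 10, 14], [[6, 8, 10, 14], [2, 8, 10, 14]]),
   ([3, 15], [8, 9, 11], [[8, 9, 11, 15], [3, 8, 9, 11]]),
   ([3], [8, 9, 11, 12], [[8, 9, 11, 12]]),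
   ([11, 15], [2, 8, 9], [[2, 8, 9, 15], [2, 8, 9, 11]]),
   ([5, 7], [8, 13, 15], [[7, 8, 13, 15], [5, 8, 13, 15]]),
   ([6, 10], [8, 13, 14], [[6, 8, 13, 14], [8, 10, 13, 14]]),
   ([7, 8], [10, 13, 15], [[7, 10, 13, 15], [8, 10, 13, 15]]),
   ([11, 13], [9, 12, 14], [[9, 12, 13, 14], [9, 11, 12, 14]]),
   ([7, 10], [9, 13, 15], [[7, 9, 13, 15], [9, 10, 13, 15]]),
   ([1, 15], [6, 7, 13], [[6, 7, 13, 15], [1, 6, 7, 13]]),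
   ([1], [6, 7, 13, 14], [[6, 7, 13, 14]]),
   ([5, 9], [6, 8, 15], [[5, 6, 8, 15], [6, 8, 9, 15]]),
   ([5], [6, 8, 13, 15], [[6, 8, 13, 15]]),
   ([7, 15], [6, 9, 13], [[6, 7, 9, 13], [6, 9, 13, 15]]),
   ([12, 13], [7, 9, 14], [[7, 9, 13, 14], [7, 9, 12, 14]]),
   ([2, 11], [8, 9, 14], [[8, 9, 11, 14], [2, 8, 9, 14]]),
   ([11], [8, 9, 12, 14], [[8, 9, 12, 14]]),
   ([7, 12], [6, 9, 14], [[6, 7, 9, 14], [6, 9, 12, 14]]),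
   ([12], [6, 8, 9, 14], [[6, 8, 9, 14]]),
   ([7], [6, 9, 13, 14], [[6, 9, 13, 14]]),
   ([2, 15], [8, 9, 10], [[8, 9, 10, 15], [2, 8, 9, 10]]),
   ([2], [8, 9, 10, 14], [[8, 9, 10, 14]]),
   ([10, 15], [8, 9, 13], [[8, 9, 13, 15], [8, 9, 10, 13]]),
   ([10], [8, 9, 13, 14], [[8, 9, 13, 14]]),
   ([15], [6, 8, 9, 13], [[6, 8, 9, 13]])]

def c0 : Ct := .node (.node (.node (.node (.node (.node (.node (.node (.node (.node (.node (.node (.node (.node (.node (.node (.node (.node (.node (.node (.node (.node (.node (.node (.node (.node (.node (.node (.node (.node (.node (.leaf [0, 9, 13, 14]) (.leaf [0, 1, 13, 14]) (.leaf [0, 13, 14])) (.leaf [9, 11, 13, 14]) (.leaf [9, 13, 14])) (.leaf [0, 1, 10, 13]) (.leaf [0, 1, 13])) (.leaf [2, 9, 11, 14]) (.leaf [9, 11,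 14])) (.leaf [0, 10, 12, 13]) (.leaf [0, 10, 13])) (.leaf [3, 10, 12, 13]) (.leaf [10, 12, 13])) (.leaf [3, 4, 10, 13]) (.leaf [3, 10, 13])) (.leaf [3, 4, 7, 13]) (.leaf [3, 4, 13])) (.leaf [2, 9, 11, 15]) (.leaf [2, 9, 11])) (.leaf [4, 7, 8, 13]) (.leaf [4, 7, 13])) (.leaf [3, 4, 7, 10]) (.node (.leaf [3, 4, 10]) (.leaf [3, 4, 7]) (.leaf [3, 4]))) (.leaf [0, 1, 10, 14]) (.node (.leaf [0, 1, 14]) (.leaf [0, 1, 10]) (.leaf [0, 1]))) (.leaf [3, 7, 10, 12]) (.node (.leaf [3, 7, 10]) (.leaf [3, 10, 12]) (.leaf [3, 10]))) (.leaf [0, 7, 10, 12]) (.node (.leaf [7, 10, 12]) (.leaf [0, 10, 12]) (.leaf [10, 12]))) (.leaf [0, 9, 12, 13]) (.node (.leaf [0, 12, 13]) (.leaf [0, 9, 13]) (.leaf [0, 13]))) (.leaf [0, 9, 10, 14]) (.node (.leaf [0, 9, 14]) (.leaf [0, 10,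 14]) (.leaf [0, 14]))) (.leaf [3, 9, 12, 13]) (.node (.leaf [3, 12, 13]) (.leaf [9, 12, 13]) (.leaf [12, 13]))) (.leaf [3, 9, 11, 13]) (.node (.leaf [3, 9, 13]) (.leaf [9, 11, 13]) (.leaf [9, 13]))) (.leaf [1, 6, 10, 13]) (.leaf [1, 10, 13])) (.leaf [3, 7, 11, 13]) (.node (.leaf [3, 11, 13]) (.leaf [3, 7, 13]) (.leaf [3, 13]))) (.leaf [5, 11, 13, 14]) (.leaf [11, 13, 14])) (.leaf [0, 7, 9, 10]) (.node (.leaf [0, 7, 10]) (.leaf [0, 9, 10]) (.leaf [0, 10]))) (.leaf [2, 9, 10, 14]) (.node (.leaf [2, 9, 14]) (.leaf [9, 10, 14]) (.leaf [9, 14]))) (.leaf [3, 9, 11, 15]) (.node (.leaf [9, 11, 15]) (.leaf [3, 9, 11]) (.leaf [9, 11]))) (.leaf [1, 6, 10, 14]) (.node (.leaf [1, 6, 10]) (.leaf [1, 10, 14]) (.leaf [1, 10]))) (.leaf [4, 8, 10, 13]) (.node (.leaf [4,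 8, 13]) (.leaf [4, 10, 13]) (.leaf [4, 13]))) (.leaf [3, 7, 11, 12]) (.node (.leaf [3, 7, 11]) (.leaf [3, 7, 12]) (.leaf [3, 7]))) (.leaf [5, 7, 11, 13]) (.node (.leaf [5, 11, 13]) (.leaf [7, 11, 13]) (.leaf [11, 13]))) (.leaf [2, 7, 9, 10]) (.node (.leaf [7, 9, 10]) (.leaf [2, 9, 10]) (.leaf [9, 10]))) (.leaf [5, 7, 11, 12]) (.node (.leaf [5, 7, 11]) (.leaf [7, 11, 12]) (.leaf [7, 11]))) (.leaf [3, 11, 12, 15]) (.node (.leaf [3, 11, 15]) (.leaf [3, 11, 12]) (.leaf [3, 11]))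

def c1 : Ct := .node (.node (.node (.node (.node (.node (.node (.node (.node (.node (.node (.node (.node (.node (.node (.node (.node (.node (.node (.node (.node (.node (.node (.node (.node (.leaf [1, 2, 7, 15]) (.leaf [1, 2, 9, 15]) (.leaf [1, 2, 15])) (.leaf [1, 7, 14, 15]) (.leaf [1, 7, 15])) (.leaf [1, 13, 14, 15]) (.leaf [1, 14, 15])) (.leaf [1, 6, 13, 15]) (.leaf [1, 13, 15])) (.leaf [1, 2, 7, 9]) (.node (.leaf [1, 2, 9]) (.leaf [1, 2, 7]) (.leaf [1, 2]))) (.leaf [1, 6, 9, 15]) (.node (.leaf [1, 9, 15]) (.leaf [1, 6, 15]) (.leaf [1, 15]))) (.leaf [5, 6, 9, 15]) (.leaf [6, 9, 15])) (.leaf [1, 6, 7, 9]) (.node (.leaf [1, 7, 9]) (.leaf [1, 6, 9]) (.leaf [1, 9]))) (.leaf [1, 6, 7, 14]) (.node (.leaf [1, 7, 14]) (.leaf [1, 6, 7]) (.leaf [1, 7]))) (.leaf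 [3, 5, 9, 15]) (.leaf [5, 9, 15])) (.leaf [5, 6, 13, 15]) (.node (.leaf [5, 6, 15]) (.leaf [6, 13, 15]) (.leaf [6, 15]))) (.leaf [5, 6, 8, 9]) (.leaf [5, 6, 9])) (.leaf [6, 7, 12, 14]) (.leaf [6, 7, 14])) (.leaf [3, 5, 8, 9]) (.node (.leaf [3, 5, 9]) (.leaf [5, 8, 9]) (.leaf [5, 9]))) (.leaf [5, 13, 14, 15]) (.node (.leaf [13, 14, 15]) (.leaf [5, 13, 15]) (.leaf [13, 15]))) (.leaf [3, 5, 8, 15]) (.node (.leaf [3, 5, 8]) (.leaf [3, 5, 15]) (.leaf [3, 5]))) (.leaf [0, 6, 7, 9]) (.leaf [6, 7, 9])) (.leaf [0, 6, 7, 12]) (.node (.leaf [0, 6, 7]) (.leaf [6, 7, 12]) (.leaf [6, 7]))) (.leaf [5, 7, 14, 15]) (.node (.leaf [7, 14, 15]) (.leaf [5, 14, 15]) (.leaf [14, 15]))) (.leaf [5, 7, 8, 15]) (.node (.leaf [5, 7, 15]) (.leaf [5, 8, 15]) (.leaf [5, 15]))) (.leaf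 [5, 7, 12, 14]) (.node (.leaf [7, 12, 14]) (.leaf [5, 7, 14]) (.leaf [7, 14]))) (.leaf [5, 6, 8, 13]) (.node (.leaf [5, 6, 8]) (.leaf [5, 6, 13]) (.leaf [5, 6]))) (.leaf [6, 8, 10, 13]) (.leaf [6, 8, 13])) (.leaf [5, 7, 8, 13]) (.node (.leaf [5, 8, 13]) (.leaf [5, 7, 8]) (.leaf [5, 8]))) (.leaf [4, 7, 8, 15]) (.leaf [7, 8, 15])

def c2 : Ct := .node (.node (.node (.node (.node (.node (.node (.node (.node (.node (.node (.node (.node (.node (.node (.node (.node (.node (.node (.node (.node (.node (.node (.node (.leaf [4, 10, 11, 15]) (.leaf [4, 11, 12, 15]) (.leaf [4, 11, 15])) (.leaf [4, 5, 11, 12]) (.leaf [4, 11, 12])) (.leaf [4, 5, 11, 14]) (.leaf [4, 5, 11])) (.leaf [4, 8, 12, 15]) (.leaf [4, 12, 15])) (.leaf [3, 8, 12, 15]) (.leaf [8, 12, 15])) (.leaf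 [4, 5, 12, 14]) (.node (.leaf [4, 5, 14]) (.leaf [4, 5, 12]) (.leaf [4, 5]))) (.leaf [4, 8, 12, 14]) (.node (.leaf [4, 8, 12]) (.leaf [4, 12, 14]) (.leaf [4, 12]))) (.leaf [2, 8, 12, 14]) (.leaf [8, 12, 14])) (.leaf [4, 7, 10, 15]) (.leaf [4, 10, 15])) (.leaf [0, 2, 8, 12]) (.leaf [2, 8, 12])) (.leaf [0, 2, 6, 8]) (.leaf [0, 2, 8])) (.leaf [4, 8, 11, 14]) (.node (.leaf [4, 8, 14]) (.leaf [4, 11, 14]) (.leaf [4, 14]))) (.leaf [2, 8, 11, 14]) (.node (.leaf [8, 11, 14]) (.leaf [2, 8, 14]) (.leaf [8, 14]))) (.leaf [0, 2, 6, 12]) (.node (.leaf [0, 2, 12]) (.leaf [0, 2, 6]) (.leaf [0, 2]))) (.leaf [2, 6, 12, 14]) (.node (.leaf [2, 12, 14]) (.leaf [2, 6, 12]) (.leaf [2, 12]))) (.leaf [4, 8, 10, 11]) (.node (.leaf [4, 10, 11]) (.leaf [4, 8, 11]) (.leaf [4, 11])))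 (.leaf [2, 8, 10, 11]) (.node (.leaf [8, 10, 11]) (.leaf [2, 8, 11]) (.leaf [8, 11]))) (.leaf [0, 6, 8, 9]) (.leaf [0, 6, 8])) (.leaf [2, 10, 11, 15]) (.node (.leaf [10, 11, 15]) (.leaf [2, 10, 11]) (.leaf [10, 11]))) (.leaf [2, 6, 8, 10]) (.node (.leaf [2, 8, 10]) (.leaf [2, 6, 8]) (.leaf [2, 8]))) (.leaf [2, 7, 10, 15]) (.node (.leaf [7, 10, 15]) (.leaf [2, 10, 15]) (.leaf [10, 15]))) (.leaf [0, 8, 9, 12]) (.node (.leaf [0, 8, 9]) (.leaf [0, 8, 12]) (.leaf [0, 8]))) (.leaf [2, 6, 10, 14]) (.node (.leaf [2, 6, 14]) (.leaf [2, 6, 10]) (.leaf [2, 6]))) (.leaf [3, 8, 9, 12]) (.node (.leaf [8, 9, 12]) (.leaf [3, 8, 12]) (.leaf [8, 12]))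

def c3 : Ct := .node (.node (.node (.node (.node (.node (.node (.node (.node (.node (.node (.node (.node (.node (.leaf [7, 8, 13]) (.leaf [5, 7, 13]) (.leaf [7, 13])) (.leaf [5, 7, 12]) (.leaf [5, 7])) (.leaf [0, 7, 12]) (.leaf [7, 12])) (.leaf [8, 10, 13]) (.leaf [8, 13])) (.leaf [0, 7, 9]) (.leaf [0, 7])) (.leaf [6, 10, 13]) (.leaf [10, 13])) (.leaf [1, 6, 13]) (.leaf [6, 13])) (.leaf [2, 7, 9]) (.leaf [7, 9])) (.leaf [1, 13, 14]) (.leaf [1, 13])) (.leaf [1, 6, 14]) (.node (.leaf [1, 6]) (.leaf [1, 14]) (.leaf [1]))) (.leaf [2, 9, 15]) (.leaf [2, 9])) (.leaf [3, 9, 15]) (.leaf [9, 15])) (.leaf [5, 13, 14]) (.node (.leaf [13, 14]) (.leaf [5, 13]) (.leaf [13]))) (.leaf [4, 7, 8]) (.leaf [7, 8])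

def c4 : Ct := .node (.node (.node (.node (.node (.node (.node (.node (.node (.node (.node (.node (.node (.node (.node (.node (.node (.node (.node (.node (.node (.node (.node (.leaf [3, 8, 9]) (.leaf [3, 8, 15]) (.leaf [3, 8])) (.leaf [3, 12, 15]) (.leaf [3, 15])) (.leaf [4, 8, 15]) (.leaf [8, 15])) (.leaf [6, 8, 9]) (.leaf [8, 9])) (.leaf [4, 8, 10]) (.leaf [4, 8])) (.leaf [3, 9, 12]) (.node (.leaf [3, 12]) (.leaf [3, 9]) (.leaf [3]))) (.leaf [4, 7, 10]) (.leaf [4, 10])) (.leaf [11, 12, 15]) (.leaf [12, 15])) (.leaf [6, 8, 10]) (.node (.leaf [8, 10]) (.leaf [6, 8]) (.leaf [8]))) (.leaf [0, 9, 12]) (.leaf [9, 12])) (.leaf [4, 7, 15]) (.node (.leaf [4, 7]) (.leaf [4, 15]) (.leaf [4]))) (.leaf [0, 6, 9]) (.node (.leaf [6, 9]) (.leaf [0, 9]) (.leaf [9])))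 (.leaf [0, 6, 12]) (.node (.leaf [0, 12]) (.leaf [0, 6]) (.leaf [0]))) (.leaf [6, 10, 14]) (.leaf [6, 10])) (.leaf [5, 11, 12]) (.leaf [11, 12])) (.leaf [2, 10, 14]) (.leaf [10, 14])) (.leaf [2, 7, 10]) (.node (.leaf [7, 10]) (.leaf [2, 10]) (.leaf [10]))) (.leaf [6, 12, 14]) (.node (.leaf [6, 14]) (.leaf [6, 12]) (.leaf [6]))) (.leaf [5, 12, 14]) (.node (.leaf [5, 12]) (.leaf [12, 14]) (.leaf [12]))) (.leaf [5, 11, 14]) (.node (.leaf [5, 11]) (.leaf [5, 14]) (.leaf [5]))) (.leaf [2, 11, 14]) (.node (.leaf [11, 14]) (.leaf [2, 14]) (.leaf [14]))) (.leaf [2, 7, 15]) (.node (.leaf [2, 7]) (.leaf [7, 15]) (.leaf [7]))) (.leaf [2, 11, 15]) (.node (.node (.leaf [2, 11]) (.leaf [2, 15]) (.leaf [2])) (.leaf [11, 15]) (.node (.leaf [15]) (.leaf [11]) (.leaf [])))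

theorem chainS : chain [[6, 8, 9, 13], [6, 8, 9, 14], [6, 8, 13, 14], [6, 9, 13, 14], [8, 9, 13, 14]] ML BL = true := by decide +kernel

def cert : Ct := .node (.node c0 c1 c3) c2 c4

theorem cert_ok : cert.ok 16 4 = true := by decide +kernel

theorem cert_fa : same cert.fa BL = true := by decide +kernel

end Pool.Agent.H10.Link
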