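import Mathlib
import Pool.Agent.H10.LinkChk
import Pool.Agent.H10.LinkCore

set_option autoImplicit false

namespace Pool.Agent.H10.Link
open Finset Function Pool.Agent.H10.Ced Pool.Agent.H10.Geo

lemma five {p : ℕ → Prop} (h0 : p 0) (h1 : p 1) (h2 : p 2) (h3 : p 3) (h4 : p 4) :
    ∀ k < 5, p k := by
  intro k hk
  interval_cases k <;> assumption

lemma c0' : ∀ k < 5, ck0 (TT k) (rg k) = true ∧ ck2 (TT k) = true := by
  have a0 := a0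
  have a1 := a1
  have a2 := a2
  have a3 := a3
  have a4 := a4
  simp only [Bool.and_eq_true] at a0 a1 a2 a3 a4
  exact five a0.1.1 a1.1.1 a2.1.1 a3.1.1 a4

lemma c1' : ∀ k < 5, ck1 (TT k) (rg k) = true := five b0 b1 b2 b3 b4

lemma c3' : ∀ k < 4, ck3 k (TT k) = true ∧ sat (TT k) [] = false ∧ rg k = rg 0 := by
  have a0 := a0
  have a1 := a1
  have a2 := a2
  have a3 := a3
  simp only [Bool.and_eq_true, Bool.not_eq_true'] at a0 a1 a2 a3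
  intro k hk
  interval_cases k
  exacts [⟨a0.1.2, a0.2, rfl⟩, ⟨a1.1.2, a1.2, rfl⟩, ⟨a2.1.2, a2.2, rfl⟩, ⟨a3.1.2, a3.2, rfl⟩]

lemma d4 (k : ℕ) (hk : k < 5) (E : Ent) (hE : E ∈ TT k) (G : Ent) (hG : G ∈ TT k)
    (h : ∀ v ∈ vs E, v ∈ vs G) : E = G := by
  have := List.all_eq_true.1 (List.all_eq_true.1 (c0' k hk).2 E hE) G hG
  simp only [Bool.or_eq_true, Bool.not_eq_true', ← Bool.not_eq_true, sub_iff,
    decide_eq_true_eq] at this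
  exact this.resolve_left (not_not.2 h)

lemma d0 (k : ℕ) (hk : k < 5) (E : Ent) (hE : E ∈ TT k) (p : ℕ × List ℕ) (hp : p ∈ E) (i : ℕ)
    (hi : i ∈ rg k) : (∀ j ∈ rg k, lab p i = lab p j → (6 ≤ p.1 ∨ lab p i = 0) → i = j) ∧
      ∀ q ∈ E, (p.1 = q.1 → lab p i = lab q i) ∧
        (p.1 < 6 → q.1 < 6 → lab p i = 0 → lab q i = 0) := by
  have h := List.all_eq_true.1 (List.all_eq_true.1 (List.all_eq_true.1 (c0' k hk).1 E hE) p hp) i hi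
  simp only [Bool.and_eq_true, Bool.not_eq_true', List.all_eq_true, Bool.or_eq_true, Nat.beq_eq,
    ← Bool.not_eq_true, Nat.blt_eq] at h
  refine ⟨fun j hj a b => ?_, fun q hq => ⟨fun a => ?_, fun a b c => ?_⟩⟩
  · have := h.1 j hj
    omega
  · have := (h.2 q hq).1
    tauto
  · have := (h.2 q hq).2
    tauto

lemma d1 (k : ℕ) (hk : k < 5) (E : Ent) (hE : E ∈ TT k) (G : Ent) (hG : G ∈ TT k) (w : ℕ)
    (hw : w ∈ vs G) (h : ∀ v ∈ vs G, v ≠ w → v ∈ vs E) (i : ℕ) (hi : i ∈ rg k) :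
    ∃ j ∈ rg k, ∀ q ∈ G, q.1 ≠ w → ∀ p ∈ E, p.1 = q.1 → lab p i = lab q j := by
  have h1 := List.all_eq_true.1 (List.all_eq_true.1 (List.all_eq_true.1 (c1' k hk) E hE) G hG) w hw
  simp only [Bool.and_eq_true, List.any_eq_true, Bool.not_eq_true',
    List.all_eq_true, Bool.or_eq_true, Nat.beq_eq, ← Bool.not_eq_true, mem_iff] at h1
  obtain ⟨j, hj, h2⟩ := h1.resolve_left (fun ⟨v, a, b, c⟩ => c (h v a b)) i hi
  exact ⟨j, hj, fun q hq a p hp b => ((h2 q hq).resolve_left a p hp).resolve_left (not_not.2 b)⟩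

lemma d3 (k : ℕ) (hk : k < 4) (E : Ent) (hE : E ∈ T4) : ∃ G ∈ TT k, vs E = vs G ∧
    ∀ i ∈ rg 4, ∃ j ∈ rg 0, ∀ q ∈ G, ∃ p ∈ E, p.1 = q.1 ∧ pr k p.1 (lab p i) = lab q j := by
  have h := List.all_eq_true.1 (c3' k hk).1 E hE
  simpa only [Bool.and_eq_true, List.any_eq_true, List.all_eq_true, Nat.beq_eq, eqL_iff] using h

lemma sat_of (l : ℕ → ℕ) : ∀ (L : List Ent) (a : List (ℕ × ℕ)), (∀ x ∈ a, l x.1 = x.2) →
    (∀ E ∈ L, ∃ i ∈ rg 0, ∀ p ∈ E, l p.1 = lab p i) → sat L a = true := by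
  intro L
  induction L with
  | nil => intro _ _ _; rfl
  | cons E L ih =>
    intro a ha h
    obtain ⟨i, hi, h1⟩ := h E List.mem_cons_self
    simp only [sat, List.any_eq_true, Bool.and_eq_true, List.all_eq_true, Bool.or_eq_true,
      Bool.not_eq_true', ← Bool.not_eq_true, Nat.beq_eq]
    refine ⟨i, hi, fun p hp x hx => or_iff_not_imp_left.2 fun e => ?_,
      ih _ (fun x hx => ?_) fun F hF => h F (List.mem_cons_of_mem _ hF)⟩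
    · rw [← ha x hx, not_not.1 e, h1 p hp]
    · rcases List.mem_append.1 hx with hx | hx
      · obtain ⟨p, hp, rfl⟩ := List.mem_map.1 hx
        exact h1 p hp
      · exact ha x hx

def A (k : ℕ) (G : Finset ℕ) (l : ℕ → ℕ) : Prop :=
  ∃ E ∈ TT k, G = (vs E).toFinset ∧ ∃ i ∈ rg k, ∀ p ∈ E, l p.1 = lab p i

lemma A_in (k : ℕ) (hk : k < 5) (E : Ent) (hE : E ∈ TT k) (l : ℕ → ℕ) :
    A k (vs E).toFinset l ↔ ∃ i ∈ rg k, ∀ p ∈ E, l p.1 = lab p i := by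
  refine ⟨?_, fun h => ⟨E, hE, rfl, h⟩⟩
  rintro ⟨G, hG, e, h⟩
  rwa [d4 k hk E hE G hG fun v hv => List.mem_toFinset.1 (e ▸ List.mem_toFinset.2 hv)]

lemma mem_vs {E : Ent} {v : ℕ} : v ∈ (vs E).toFinset ↔ ∃ p ∈ E, p.1 = v := by simp [vs]

def X : Set (Finset ℕ) := {G | ∃ F ∈ BL, G = F.toFinset}

lemma cl (k : ℕ) (hk : k < 5) (G : Finset ℕ) : G ∈ X ↔ ∃ E ∈ TT k, G = (vs E).toFinset := by
  simp [X, ← vsT k hk]

theorem no_order (t : Finset ℕ → ℕ) (inj : ∀ F ∈ X, ∀ G ∈ X, t F = t G → F = G)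
    (P : ∀ G ∈ X, ∀ F ∈ X, t F < t G → ∃ w ∈ G, w ∉ F ∧ ∃ N ∈ X, t N < t G ∧ G.erase w ⊆ N) :
    False := by
  have hX : X.Finite := by
    refine (BL.map List.toFinset).finite_toSet.subset ?_
    rintro _ ⟨F, hF, rfl⟩
    exact List.mem_map.2 ⟨F, hF, rfl⟩
  have h4 : ∀ G ∈ X, G.card = 4 := by
    rintro _ ⟨F, hF, rfl⟩
    rw [List.toFinset_card_of_nodup (BL_ok F hF).2.1, (BL_ok F hF).1]
  have up : ∀ k < 5, ∀ E ∈ TT k, ∀ w ∈ (vs E).toFinset, ∀ l : ℕ → ℕ, ∀ j ∈ rg k,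
      (∀ q ∈ E, q.1 ≠ w → l q.1 = lab q j) → ∃ c, A k (vs E).toFinset (update l w c) := by
    intro k hk E hE w hw l j hj h
    obtain ⟨p, hp, rfl⟩ := mem_vs.1 hw
    refine ⟨lab p j, (A_in k hk E hE _).2 ⟨j, hj, fun q hq => ?_⟩⟩
    by_cases e : q.1 = p.1
    · rw [e, update_self]
      exact ((d0 k hk E hE p hp j hj).2 q hq).1 e.symm
    · rw [update_of_ne e, h q hq e]
  refine (exists_section X hX t inj A pr h4 P ?_ ?_ ?_ ?_ ?_ ?_ ?_ ?_ pr0 ?_).elim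
    fun k ⟨hk, l, hl⟩ => ?_
  rotate_right
  · have := sat_of l (TT k) [] (by simp) fun E hE => (c3' k hk).2.2 ▸
      (A_in k (by omega) E hE l).1 (hl _ ((cl k (by omega) _).2 ⟨E, hE, rfl⟩))
    rw [(c3' k hk).2.1] at this
    exact absurd this (by simp)
  · rintro k G l l' h ⟨E, hE, rfl, i, hi, h1⟩
    exact ⟨E, hE, rfl, i, hi, fun p hp => h _ (mem_vs.2 ⟨p, hp, rfl⟩) ▸ h1 p hp⟩
  · rintro k hk F hF G hG w hw hs l ⟨E, hE, rfl, i, hi, h1⟩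
    obtain ⟨E', hE', rfl⟩ := (cl k hk G).1 hG
    have hs' : ∀ v ∈ vs E', v ≠ w → v ∈ (vs E).toFinset := fun v hv e =>
      hs (mem_erase.2 ⟨e, List.mem_toFinset.2 hv⟩)
    obtain ⟨j, hj, h2⟩ := d1 k hk E hE E' hE' w (List.mem_toFinset.1 hw)
      (fun v hv e => List.mem_toFinset.1 (hs' v hv e)) i hi
    refine up k hk E' hE' w hw l j hj fun q hq e => ?_
    obtain ⟨p, hp, e'⟩ := mem_vs.1 (hs' _ (List.mem_map.2 ⟨q, hq, rfl⟩) e)
    rw [← h2 q hq e p hp e', ← h1 p hp, e']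
  · rintro k hk G hG l l' ⟨E, hE, rfl, i, hi, h1⟩ h2 v hv e hc u hu
    obtain ⟨j, hj, h2⟩ := (A_in k hk E hE _).1 h2
    obtain ⟨p, hp, rfl⟩ := mem_vs.1 hv
    obtain ⟨q, hq, rfl⟩ := mem_vs.1 hu
    rw [h1 p hp] at hc
    rw [h1 p hp, h2 p hp] at e
    rw [h1 q hq, h2 q hq, (d0 k hk E hE p hp i hi).1 j hj e hc]
  · rintro k hk G hG l ⟨E, hE, rfl, i, hi, h1⟩ a ha b hb sa sb e
    obtain ⟨p, hp, rfl⟩ := mem_vs.1 ha
    obtain ⟨q, hq, rfl⟩ := mem_vs.1 hb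
    rw [h1 p hp] at e
    rw [h1 q hq, ((d0 k hk E hE p hp i hi).2 q hq).2 sa sb e]
  · intro G hG a ha
    obtain ⟨E, hE, rfl⟩ := (cl 4 (by omega) G).1 hG
    obtain ⟨p, hp, rfl⟩ := mem_vs.1 ha
    obtain ⟨i, hi, e⟩ := (T4_ok E hE p hp).1
    choose! f hf using fun v (hv : v ∈ (vs E).toFinset) => mem_vs.1 hv
    have : ∀ q ∈ E, lab (f q.1) i = lab q i := fun q hq => by
      obtain ⟨a1, a2⟩ := hf q.1 (mem_vs.2 ⟨q, hq, rfl⟩)
      exact ((d0 4 (by omega) E hE _ a1 i hi).2 q hq).1 a2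
    exact ⟨fun v => lab (f v) i, ⟨E, hE, rfl, i, hi, this⟩, (this p hp).trans e⟩
  · rintro _ ⟨F, hF, rfl⟩ w
    obtain ⟨h1, -, -, h2, -⟩ := BL_ok F hF
    by_cases h : w ∈ F
    · simpa using h2 w h
    · obtain ⟨x, hx⟩ := List.exists_mem_of_length_pos (show 0 < F.length by omega)
      obtain ⟨v, a, -, c⟩ := h2 x hx
      exact ⟨v, List.mem_toFinset.2 a, fun e => h (e ▸ a), c⟩
  · rintro _ ⟨F, hF, rfl⟩ a ha b hb
    exact (BL_ok F hF).2.2.2.2 a (List.mem_toFinset.1 ha) b (List.mem_toFinset.1 hb)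
  · rintro k hk G hG l ⟨E, hE, rfl, i, hi, h1⟩
    obtain ⟨E', hE', e, h2⟩ := d3 k hk E hE
    obtain ⟨j, hj, h3⟩ := h2 i hi
    refine ⟨E', hE', by rw [e], j, (c3' k hk).2.2 ▸ hj, fun q hq => ?_⟩
    obtain ⟨p, hp, e1, e2⟩ := h3 q hq
    rw [← e2, ← h1 p hp, e1]
  · rintro G hG l ⟨E, hE, rfl, i, hi, h1⟩ v hv h6
    obtain ⟨p, hp, rfl⟩ := mem_vs.1 hv
    rw [h1 p hp]
    exact (T4_ok E hE p hp).2 i hi h6

theorem no_shelling : ¬ ∃ L : List (Finset (Fin 16)), L.Nodup ∧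
    L.toFinset = (BL.map (fin 16)).toFinset ∧
      ∀ i j : Fin L.length, i < j → ∃ k : Fin L.length, k < j ∧
        L.get i ∩ L.get j ⊆ L.get k ∩ L.get j ∧ (L.get j \ L.get k).card = 1 := by
  rintro ⟨L, hn, hL, hs⟩
  let bk : Finset ℕ → Finset (Fin 16) := fun G => univ.filter fun i => i.val ∈ G
  have mb : ∀ G i, i ∈ bk G ↔ i.val ∈ G := fun G i => by simp [bk]
  have lt : ∀ G ∈ X, ∀ v ∈ G, v < 16 := by
    rintro _ ⟨F, hF, rfl⟩ v hv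
    exact (BL_ok F hF).2.2.1 v (List.mem_toFinset.1 hv)
  have e1 : ∀ F : List ℕ, bk F.toFinset = fin 16 F := fun F => by ext i; simp [mb]
  have mem : ∀ s, s ∈ L ↔ ∃ G ∈ X, bk G = s := by
    intro s
    rw [← List.mem_toFinset, hL, List.mem_toFinset, List.mem_map]
    exact ⟨fun ⟨F, hF, e⟩ => ⟨_, ⟨F, hF, rfl⟩, (e1 F).trans e⟩,
      fun ⟨_, ⟨F, hF, rfl⟩, e⟩ => ⟨F, hF, (e1 F).symm.trans e⟩⟩
  have ix : ∀ G ∈ X, L.idxOf (bk G) < L.length := fun G hG =>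
    List.idxOf_lt_length_iff.2 ((mem _).2 ⟨G, hG, rfl⟩)
  have gt : ∀ G (hG : G ∈ X), L.get ⟨_, ix G hG⟩ = bk G := fun G hG => List.idxOf_get _
  refine no_order (fun G => L.idxOf (bk G)) (fun F hF G hG h => ?_) fun G hG F hF h => ?_
  · have : bk F = bk G := by
      rw [← gt F hF, ← gt G hG]
      exact congrArg _ (Fin.ext h)
    ext v
    exact ⟨fun hv => (mb G ⟨v, lt F hF v hv⟩).1 (this ▸ (mb F _).2 hv),
      fun hv => (mb F ⟨v, lt G hG v hv⟩).1 (this ▸ (mb G _).2 hv)⟩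
  · obtain ⟨k, hk, h1, h2⟩ := hs ⟨_, ix F hF⟩ ⟨_, ix G hG⟩ h
    rw [gt F hF, gt G hG] at h1
    rw [gt G hG] at h2
    obtain ⟨w, hw⟩ := card_eq_one.1 h2
    obtain ⟨N, hN, e⟩ := (mem _).1 (List.get_mem L k)
    have hw' : ∀ i, i ∈ bk G ∧ i ∉ L.get k ↔ i = w := fun i => by
      rw [← mem_sdiff, hw, mem_singleton]
    obtain ⟨w1, w2⟩ := (hw' w).2 rfl
    refine ⟨w.val, (mb _ _).1 w1, fun a => w2 (mem_inter.1 (h1 (mem_inter.2 ⟨(mb _ _).2 a, w1⟩))).1,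
      N, hN, ?_, fun v hv => ?_⟩
    · show L.idxOf (bk N) < _
      rw [e, List.get_idxOf hn]
      exact hk
    · obtain ⟨v1, v2⟩ := mem_erase.1 hv
      by_contra a
      refine v1 (congrArg Fin.val ((hw' ⟨v, lt G hG v v2⟩).1 ⟨(mb _ _).2 v2, fun b => a ?_⟩))
      exact (mb N _).1 (e ▸ b)

lemma fa_eq : (cert.fa.map (fin 16)).toFinset = (BL.map (fin 16)).toFinset := by
  have h := cert_fa
  simp only [same, Bool.and_eq_true, List.all_eq_true, memL_iff] at h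
  ext s
  simp only [List.mem_toFinset, List.mem_map]
  exact ⟨fun ⟨F, a, b⟩ => ⟨F, h.1 F a, b⟩, fun ⟨F, a, b⟩ => ⟨F, h.2 F a, b⟩⟩

end Pool.Agent.H10.Link
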