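import Mathlib

set_option autoImplicit false

namespace Pool.Agent.H10.MW

/-- the 26 tetrahedra of the Mani-Walkup complex; the vertices a,b,c,d,m,n,o,p,q,r,s,t are
numbered 0,...,11 -/
def tets : List (List ℕ) :=
  [[0, 1, 2, 3], [0, 1, 2, 9], [0, 2, 3, 9], [0, 1, 3, 11], [1, 2, 3, 11], [0, 1, 4, 9],
   [1, 2, 5, 9], [2, 3, 6, 9], [0, 3, 7, 9], [0, 1, 4, 11], [1, 2, 5, 11], [2, 3, 6, 11],
   [0, 3, 7, 11], [4, 5, 6, 7], [4, 5, 6, 8], [4, 6, 7, 8], [5, 6, 7, 10], [4, 5, 7, 10],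
   [0, 5, 6, 8], [1, 6, 7, 8], [2, 4, 7, 8], [3, 4, 8, 9], [0, 5, 6, 10], [1, 6, 7, 10],
   [2, 4, 7, 10], [3, 4, 9, 10]]

/-- the Mani-Walkup complex: all faces of the 26 tetrahedra -/
def MWK : Set (Finset ℕ) := {s | ∃ F ∈ tets, s ⊆ F.toFinset}

end Pool.Agent.H10.MW
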