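import Mathlib
import Pool.Agent.H10.MWDefs

set_option autoImplicit false
set_option linter.unusedSimpArgs false
set_option linter.unusedTactic false
set_option linter.style.longLine false

namespace Pool.Agent.H10.MW

structure Chi (c : ℕ → ℕ → ℕ → ℕ → ℕ → ℝ) : Prop where
  s1 : ∀ i j k l m, j < i → c i j k l m = -c j i k l m
  s2 : ∀ i j k l m, k < j → c i j k l m = -c i k j l m
  s3 : ∀ i j k l m, l < k → c i j k l m = -c i j l k m
  s4 : ∀ i j k l m, m < l → c i j k l m = -c i j k m l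
  gp : ∀ i j k a b d e, c i j k a b * c i j k d e - c i j k a d * c i j k b e +
    c i j k a e * c i j k b d = 0
  fc : ∀ i j k l v w, [i, j, k, l] ∈ tets → v < 12 ∧ v ∉ [i, j, k, l] →
    w < 12 ∧ w ∉ [i, j, k, l] → 0 < c i j k l v * c i j k l w

lemma case0 (c : ℕ → ℕ → ℕ → ℕ → ℕ → ℝ) (H : Chi c)
    (h0_1_2_3_4 : 0 < c 0 1 2 3 4) (h0_4_5_6_7 : 0 < c 0 4 5 6 7) (h0_3_4_8_9 : 0 < c 0 3 4 8 9) : False := by
  obtain ⟨s1, s2, s3, s4, gp, fc⟩ := H
  have h0_1_2_3_9 : 0 < c 0 1 2 3 9 := by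
    have q := fc 0 1 2 3 4 9 (by decide) (by decide) (by decide)
    exact not_le.1 fun r => by linarith [mul_nonneg h0_1_2_3_4.le (neg_nonneg.2 r)]
  have h0_2_3_7_9 : 0 < c 0 2 3 7 9 := by
    have q := fc 0 2 3 9 1 7 (by decide) (by decide) (by decide)
    simp (disch := decide) only [s1, s2, s3, s4, neg_neg] at q
    exact not_le.1 fun r => by linarith [mul_nonneg h0_1_2_3_9.le (neg_nonneg.2 r)]
  have h0_3_5_7_9 : 0 < -c 0 3 5 7 9 := by
    have q := fc 0 3 7 9 2 5 (by decide) (by decide) (by decide)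
    simp (disch := decide) only [s1, s2, s3, s4, neg_neg] at q
    exact not_le.1 fun r => by linarith [mul_nonneg h0_2_3_7_9.le (neg_nonneg.2 r)]
  have h0_3_4_7_9 : 0 < -c 0 3 4 7 9 := by
    have q := fc 0 3 7 9 2 4 (by decide) (by decide) (by decide)
    simp (disch := decide) only [s1, s2, s3, s4, neg_neg] at q
    exact not_le.1 fun r => by linarith [mul_nonneg h0_2_3_7_9.le (neg_nonneg.2 r)]
  have h0_3_7_8_9 : 0 < c 0 3 7 8 9 := by
    have q := fc 0 3 7 9 2 8 (by decide) (by decide) (by decide)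
    simp (disch := decide) only [s1, s2, s3, s4, neg_neg] at q
    exact not_le.1 fun r => by linarith [mul_nonneg h0_2_3_7_9.le (neg_nonneg.2 r)]
  have h0_1_2_4_9 : 0 < c 0 1 2 4 9 := by
    have q := fc 0 1 2 9 3 4 (by decide) (by decide) (by decide)
    simp (disch := decide) only [s1, s2, s3, s4, neg_neg] at q
    exact not_le.1 fun r => by linarith [mul_nonneg h0_1_2_3_9.le (neg_nonneg.2 r)]
  have h0_1_3_4_9 : 0 < c 0 1 3 4 9 := by
    have q := fc 0 1 4 9 2 3 (by decide) (by decide) (by decide)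
    simp (disch := decide) only [s1, s2, s3, s4, neg_neg] at q
    exact not_le.1 fun r => by linarith [mul_nonneg h0_1_2_4_9.le (neg_nonneg.2 r)]
  have h0_1_4_7_9 : 0 < -c 0 1 4 7 9 := by
    have q := fc 0 1 4 9 2 7 (by decide) (by decide) (by decide)
    simp (disch := decide) only [s1, s2, s3, s4, neg_neg] at q
    exact not_le.1 fun r => by linarith [mul_nonneg h0_1_2_4_9.le (neg_nonneg.2 r)]
  have h0_2_3_4_9 : 0 < c 0 2 3 4 9 := by
    have q := fc 0 2 3 9 1 4 (by decide) (by decide) (by decide)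
    simp (disch := decide) only [s1, s2, s3, s4, neg_neg] at q
    exact not_le.1 fun r => by linarith [mul_nonneg h0_1_2_3_9.le (neg_nonneg.2 r)]
  have h0_2_4_7_9 : 0 < -c 0 2 4 7 9 := by
    have q := gp 0 4 9 1 2 3 7
    simp (disch := decide) only [s1, s2, s3, s4, neg_neg] at q
    exact not_le.1 fun r => by
     linarith [mul_pos h0_1_2_4_9 h0_3_4_7_9,
      mul_nonneg h0_1_3_4_9.le (neg_nonneg.2 r),
      mul_pos h0_1_4_7_9 h0_2_3_4_9]
  have h3_4_8_9_10 : 0 < c 3 4 8 9 10 := by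
    have q := fc 3 4 8 9 0 10 (by decide) (by decide) (by decide)
    simp (disch := decide) only [s1, s2, s3, s4, neg_neg] at q
    exact not_le.1 fun r => by linarith [mul_nonneg h0_3_4_8_9.le (neg_nonneg.2 r)]
  have h3_4_7_9_10 : 0 < c 3 4 7 9 10 := by
    have q := fc 3 4 9 10 8 7 (by decide) (by decide) (by decide)
    simp (disch := decide) only [s1, s2, s3, s4, neg_neg] at q
    exact not_le.1 fun r => by linarith [mul_nonneg h3_4_8_9_10.le (neg_nonneg.2 r)]
  have h4_5_6_7_10 : 0 < c 4 5 6 7 10 := by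
    have q := fc 4 5 6 7 0 10 (by decide) (by decide) (by decide)
    simp (disch := decide) only [s1, s2, s3, s4, neg_neg] at q
    exact not_le.1 fun r => by linarith [mul_nonneg h0_4_5_6_7.le (neg_nonneg.2 r)]
  have h2_4_5_7_10 : 0 < c 2 4 5 7 10 := by
    have q := fc 4 5 7 10 6 2 (by decide) (by decide) (by decide)
    simp (disch := decide) only [s1, s2, s3, s4, neg_neg] at q
    exact not_le.1 fun r => by linarith [mul_nonneg h4_5_6_7_10.le (neg_nonneg.2 r)]
  have h2_4_7_9_10 : 0 < -c 2 4 7 9 10 := by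
    have q := fc 2 4 7 10 5 9 (by decide) (by decide) (by decide)
    simp (disch := decide) only [s1, s2, s3, s4, neg_neg] at q
    exact not_le.1 fun r => by linarith [mul_nonneg h2_4_5_7_10.le (neg_nonneg.2 r)]
  have h3_4_7_8_9 : 0 < c 3 4 7 8 9 := by
    have q := fc 3 4 8 9 0 7 (by decide) (by decide) (by decide)
    simp (disch := decide) only [s1, s2, s3, s4, neg_neg] at q
    exact not_le.1 fun r => by linarith [mul_nonneg h0_3_4_8_9.le (neg_nonneg.2 r)]
  have h2_3_4_8_9 : 0 < c 2 3 4 8 9 := by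
    have q := fc 3 4 8 9 0 2 (by decide) (by decide) (by decide)
    simp (disch := decide) only [s1, s2, s3, s4, neg_neg] at q
    exact not_le.1 fun r => by linarith [mul_nonneg h0_3_4_8_9.le (neg_nonneg.2 r)]
  have h2_3_4_7_9 : 0 < -c 2 3 4 7 9 := by
    have q := gp 3 4 9 0 2 7 8
    simp (disch := decide) only [s1, s2, s3, s4, neg_neg] at q
    exact not_le.1 fun r => by
     linarith [mul_pos h0_2_3_4_9 h3_4_7_8_9,
      mul_pos h0_3_4_7_9 h2_3_4_8_9,
      mul_nonneg h0_3_4_8_9.le (neg_nonneg.2 r)]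
  have h0_4_7_9_10 : 0 < -c 0 4 7 9 10 := by
    have q := gp 4 7 9 0 2 3 10
    simp (disch := decide) only [s1, s2, s3, s4, neg_neg] at q
    exact not_le.1 fun r => by
     linarith [mul_pos h0_2_4_7_9 h3_4_7_9_10,
      mul_pos h0_3_4_7_9 h2_4_7_9_10,
      mul_nonneg h2_3_4_7_9.le (neg_nonneg.2 r)]
  have h0_3_7_9_10 : 0 < -c 0 3 7 9 10 := by
    have q := fc 0 3 7 9 2 10 (by decide) (by decide) (by decide)
    simp (disch := decide) only [s1, s2, s3, s4, neg_neg] at q
    exact not_le.1 fun r => by linarith [mul_nonneg h0_2_3_7_9.le (neg_nonneg.2 r)]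
  have h0_1_4_8_9 : 0 < -c 0 1 4 8 9 := by
    have q := fc 0 1 4 9 2 8 (by decide) (by decide) (by decide)
    simp (disch := decide) only [s1, s2, s3, s4, neg_neg] at q
    exact not_le.1 fun r => by linarith [mul_nonneg h0_1_2_4_9.le (neg_nonneg.2 r)]
  have h0_4_7_8_9 : 0 < -c 0 4 7 8 9 := by
    have q := gp 0 4 9 1 3 7 8
    simp (disch := decide) only [s1, s2, s3, s4, neg_neg] at q
    exact not_le.1 fun r => by
     linarith [mul_nonneg h0_1_3_4_9.le (neg_nonneg.2 r),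
      mul_pos h0_1_4_7_9 h0_3_4_8_9,
      mul_pos h0_1_4_8_9 h0_3_4_7_9]
  have h0_7_8_9_10 : 0 < c 0 7 8 9 10 := by
    have q := gp 0 7 9 3 4 8 10
    simp (disch := decide) only [s1, s2, s3, s4, neg_neg] at q
    exact not_le.1 fun r => by
     linarith [mul_nonneg h0_3_4_7_9.le (neg_nonneg.2 r),
      mul_pos h0_3_7_8_9 h0_4_7_9_10,
      mul_pos h0_3_7_9_10 h0_4_7_8_9]
  have h0_5_6_7_10 : 0 < c 0 5 6 7 10 := by
    have q := fc 5 6 7 10 4 0 (by decide) (by decide) (by decide)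
    simp (disch := decide) only [s1, s2, s3, s4, neg_neg] at q
    exact not_le.1 fun r => by linarith [mul_nonneg h4_5_6_7_10.le (neg_nonneg.2 r)]
  have h0_4_5_6_10 : 0 < c 0 4 5 6 10 := by
    have q := fc 0 5 6 10 7 4 (by decide) (by decide) (by decide)
    simp (disch := decide) only [s1, s2, s3, s4, neg_neg] at q
    exact not_le.1 fun r => by linarith [mul_nonneg h0_5_6_7_10.le (neg_nonneg.2 r)]
  have h0_4_5_7_10 : 0 < c 0 4 5 7 10 := by
    have q := fc 4 5 7 10 6 0 (by decide) (by decide) (by decide)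
    simp (disch := decide) only [s1, s2, s3, s4, neg_neg] at q
    exact not_le.1 fun r => by linarith [mul_nonneg h4_5_6_7_10.le (neg_nonneg.2 r)]
  have h0_5_6_9_10 : 0 < c 0 5 6 9 10 := by
    have q := fc 0 5 6 10 7 9 (by decide) (by decide) (by decide)
    simp (disch := decide) only [s1, s2, s3, s4, neg_neg] at q
    exact not_le.1 fun r => by linarith [mul_nonneg h0_5_6_7_10.le (neg_nonneg.2 r)]
  have h0_3_4_9_10 : 0 < c 0 3 4 9 10 := by
    have q := fc 3 4 9 10 8 0 (by decide) (by decide) (by decide)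
    simp (disch := decide) only [s1, s2, s3, s4, neg_neg] at q
    exact not_le.1 fun r => by linarith [mul_nonneg h3_4_8_9_10.le (neg_nonneg.2 r)]
  have h0_1_4_9_10 : 0 < c 0 1 4 9 10 := by
    have q := fc 0 1 4 9 2 10 (by decide) (by decide) (by decide)
    simp (disch := decide) only [s1, s2, s3, s4, neg_neg] at q
    exact not_le.1 fun r => by linarith [mul_nonneg h0_1_2_4_9.le (neg_nonneg.2 r)]
  have h0_2_4_9_10 : 0 < c 0 2 4 9 10 := by
    have q := gp 0 4 9 1 2 3 10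
    simp (disch := decide) only [s1, s2, s3, s4, neg_neg] at q
    exact not_le.1 fun r => by
     linarith [mul_pos h0_1_2_4_9 h0_3_4_9_10,
      mul_nonneg h0_1_3_4_9.le (neg_nonneg.2 r),
      mul_pos h0_1_4_9_10 h0_2_3_4_9]
  have h3_4_5_9_10 : 0 < c 3 4 5 9 10 := by
    have q := fc 3 4 9 10 8 5 (by decide) (by decide) (by decide)
    simp (disch := decide) only [s1, s2, s3, s4, neg_neg] at q
    exact not_le.1 fun r => by linarith [mul_nonneg h3_4_8_9_10.le (neg_nonneg.2 r)]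
  have h2_3_4_9_10 : 0 < c 2 3 4 9 10 := by
    have q := fc 3 4 9 10 8 2 (by decide) (by decide) (by decide)
    simp (disch := decide) only [s1, s2, s3, s4, neg_neg] at q
    exact not_le.1 fun r => by linarith [mul_nonneg h3_4_8_9_10.le (neg_nonneg.2 r)]
  have h4_5_7_9_10 : 0 < -c 4 5 7 9 10 := by
    have q := fc 4 5 7 10 6 9 (by decide) (by decide) (by decide)
    simp (disch := decide) only [s1, s2, s3, s4, neg_neg] at q
    exact not_le.1 fun r => by linarith [mul_nonneg h4_5_6_7_10.le (neg_nonneg.2 r)]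
  have h2_4_5_9_10 : 0 < -c 2 4 5 9 10 := by
    have q := gp 4 9 10 2 3 5 7
    simp (disch := decide) only [s1, s2, s3, s4, neg_neg] at q
    exact not_le.1 fun r => by
     linarith [mul_pos h2_3_4_9_10 h4_5_7_9_10,
      mul_nonneg h3_4_7_9_10.le (neg_nonneg.2 r),
      mul_pos h2_4_7_9_10 h3_4_5_9_10]
  have h0_4_5_9_10 : 0 < -c 0 4 5 9 10 := by
    have q := gp 4 9 10 0 2 3 5
    simp (disch := decide) only [s1, s2, s3, s4, neg_neg] at q
    exact not_le.1 fun r => by
     linarith [mul_pos h0_2_4_9_10 h3_4_5_9_10,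
      mul_pos h0_3_4_9_10 h2_4_5_9_10,
      mul_nonneg h2_3_4_9_10.le (neg_nonneg.2 r)]
  have h0_5_7_9_10 : 0 < c 0 5 7 9 10 := by
    have q := gp 0 5 10 4 6 7 9
    simp (disch := decide) only [s1, s2, s3, s4, neg_neg] at q
    exact not_le.1 fun r => by
     linarith [mul_nonneg h0_4_5_6_10.le (neg_nonneg.2 r),
      mul_pos h0_4_5_7_10 h0_5_6_9_10,
      mul_pos h0_4_5_9_10 h0_5_6_7_10]
  have h4_5_6_7_8 : 0 < c 4 5 6 7 8 := by
    have q := fc 4 5 6 7 0 8 (by decide) (by decide) (by decide)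
    simp (disch := decide) only [s1, s2, s3, s4, neg_neg] at q
    exact not_le.1 fun r => by linarith [mul_nonneg h0_4_5_6_7.le (neg_nonneg.2 r)]
  have h0_4_5_6_8 : 0 < -c 0 4 5 6 8 := by
    have q := fc 4 5 6 8 7 0 (by decide) (by decide) (by decide)
    simp (disch := decide) only [s1, s2, s3, s4, neg_neg] at q
    exact not_le.1 fun r => by linarith [mul_nonneg h4_5_6_7_8.le (neg_nonneg.2 r)]
  have h2_4_6_7_8 : 0 < -c 2 4 6 7 8 := by
    have q := fc 4 6 7 8 5 2 (by decide) (by decide) (by decide)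
    simp (disch := decide) only [s1, s2, s3, s4, neg_neg] at q
    exact not_le.1 fun r => by linarith [mul_nonneg h4_5_6_7_8.le (neg_nonneg.2 r)]
  have h0_2_4_7_8 : 0 < -c 0 2 4 7 8 := by
    have q := fc 2 4 7 8 6 0 (by decide) (by decide) (by decide)
    simp (disch := decide) only [s1, s2, s3, s4, neg_neg] at q
    exact not_le.1 fun r => by linarith [mul_nonneg h2_4_6_7_8.le (neg_nonneg.2 r)]
  have h3_4_5_8_9 : 0 < c 3 4 5 8 9 := by
    have q := fc 3 4 8 9 0 5 (by decide) (by decide) (by decide)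
    simp (disch := decide) only [s1, s2, s3, s4, neg_neg] at q
    exact not_le.1 fun r => by linarith [mul_nonneg h0_3_4_8_9.le (neg_nonneg.2 r)]
  have h4_6_7_8_9 : 0 < -c 4 6 7 8 9 := by
    have q := fc 4 6 7 8 5 9 (by decide) (by decide) (by decide)
    simp (disch := decide) only [s1, s2, s3, s4, neg_neg] at q
    exact not_le.1 fun r => by linarith [mul_nonneg h4_5_6_7_8.le (neg_nonneg.2 r)]
  have h3_4_6_8_9 : 0 < c 3 4 6 8 9 := by
    have q := fc 3 4 8 9 0 6 (by decide) (by decide) (by decide)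
    simp (disch := decide) only [s1, s2, s3, s4, neg_neg] at q
    exact not_le.1 fun r => by linarith [mul_nonneg h0_3_4_8_9.le (neg_nonneg.2 r)]
  have h4_5_6_8_9 : 0 < -c 4 5 6 8 9 := by
    have q := fc 4 5 6 8 7 9 (by decide) (by decide) (by decide)
    simp (disch := decide) only [s1, s2, s3, s4, neg_neg] at q
    exact not_le.1 fun r => by linarith [mul_nonneg h4_5_6_7_8.le (neg_nonneg.2 r)]
  have h4_5_7_8_9 : 0 < -c 4 5 7 8 9 := by
    have q := gp 4 8 9 3 5 6 7
    simp (disch := decide) only [s1, s2, s3, s4, neg_neg] at q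
    exact not_le.1 fun r => by
     linarith [mul_pos h3_4_5_8_9 h4_6_7_8_9,
      mul_nonneg h3_4_6_8_9.le (neg_nonneg.2 r),
      mul_pos h3_4_7_8_9 h4_5_6_8_9]
  have h2_4_7_8_9 : 0 < -c 2 4 7 8 9 := by
    have q := fc 2 4 7 8 6 9 (by decide) (by decide) (by decide)
    simp (disch := decide) only [s1, s2, s3, s4, neg_neg] at q
    exact not_le.1 fun r => by linarith [mul_nonneg h2_4_6_7_8.le (neg_nonneg.2 r)]
  have h2_4_5_7_8 : 0 < -c 2 4 5 7 8 := by
    have q := fc 2 4 7 8 6 5 (by decide) (by decide) (by decide)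
    simp (disch := decide) only [s1, s2, s3, s4, neg_neg] at q
    exact not_le.1 fun r => by linarith [mul_nonneg h2_4_6_7_8.le (neg_nonneg.2 r)]
  have h0_4_5_7_8 : 0 < -c 0 4 5 7 8 := by
    have q := gp 4 7 8 0 2 5 9
    simp (disch := decide) only [s1, s2, s3, s4, neg_neg] at q
    exact not_le.1 fun r => by
     linarith [mul_pos h0_2_4_7_8 h4_5_7_8_9,
      mul_nonneg h2_4_7_8_9.le (neg_nonneg.2 r),
      mul_pos h0_4_7_8_9 h2_4_5_7_8]
  have h0_5_6_8_9 : 0 < c 0 5 6 8 9 := by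
    have q := fc 0 5 6 8 4 9 (by decide) (by decide) (by decide)
    simp (disch := decide) only [s1, s2, s3, s4, neg_neg] at q
    exact not_le.1 fun r => by linarith [mul_nonneg h0_4_5_6_8.le (neg_nonneg.2 r)]
  have h0_4_5_8_9 : 0 < -c 0 4 5 8 9 := by
    have q := gp 4 8 9 0 3 5 7
    simp (disch := decide) only [s1, s2, s3, s4, neg_neg] at q
    exact not_le.1 fun r => by
     linarith [mul_pos h0_3_4_8_9 h4_5_7_8_9,
      mul_nonneg h3_4_7_8_9.le (neg_nonneg.2 r),
      mul_pos h0_4_7_8_9 h3_4_5_8_9]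
  have h0_5_6_7_8 : 0 < -c 0 5 6 7 8 := by
    have q := fc 0 5 6 8 4 7 (by decide) (by decide) (by decide)
    simp (disch := decide) only [s1, s2, s3, s4, neg_neg] at q
    exact not_le.1 fun r => by linarith [mul_nonneg h0_4_5_6_8.le (neg_nonneg.2 r)]
  have h0_5_7_8_9 : 0 < c 0 5 7 8 9 := by
    have q := gp 0 5 8 4 6 7 9
    simp (disch := decide) only [s1, s2, s3, s4, neg_neg] at q
    exact not_le.1 fun r => by
     linarith [mul_nonneg h0_4_5_6_8.le (neg_nonneg.2 r),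
      mul_pos h0_4_5_7_8 h0_5_6_8_9,
      mul_pos h0_4_5_8_9 h0_5_6_7_8]
  have q := gp 0 7 9 3 5 8 10
  simp (disch := decide) only [s1, s2, s3, s4, neg_neg] at q
  linarith [mul_pos h0_3_5_7_9 h0_7_8_9_10,
      mul_pos h0_3_7_8_9 h0_5_7_9_10,
      mul_pos h0_3_7_9_10 h0_5_7_8_9]

lemma case1 (c : ℕ → ℕ → ℕ → ℕ → ℕ → ℝ) (H : Chi c)
    (h0_1_2_3_4 : 0 < c 0 1 2 3 4) (h0_4_5_6_7 : 0 < c 0 4 5 6 7) (h0_3_4_8_9 : 0 < -c 0 3 4 8 9) : False := by
  obtain ⟨s1, s2, s3, s4, gp, fc⟩ := H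
  have h0_1_2_3_9 : 0 < c 0 1 2 3 9 := by
    have q := fc 0 1 2 3 4 9 (by decide) (by decide) (by decide)
    exact not_le.1 fun r => by linarith [mul_nonneg h0_1_2_3_4.le (neg_nonneg.2 r)]
  have h0_2_3_6_9 : 0 < c 0 2 3 6 9 := by
    have q := fc 0 2 3 9 1 6 (by decide) (by decide) (by decide)
    simp (disch := decide) only [s1, s2, s3, s4, neg_neg] at q
    exact not_le.1 fun r => by linarith [mul_nonneg h0_1_2_3_9.le (neg_nonneg.2 r)]
  have h2_4_5_6_7 : 0 < c 2 4 5 6 7 := by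
    have q := fc 4 5 6 7 0 2 (by decide) (by decide) (by decide)
    simp (disch := decide) only [s1, s2, s3, s4, neg_neg] at q
    exact not_le.1 fun r => by linarith [mul_nonneg h0_4_5_6_7.le (neg_nonneg.2 r)]
  have h2_3_4_8_9 : 0 < -c 2 3 4 8 9 := by
    have q := fc 3 4 8 9 0 2 (by decide) (by decide) (by decide)
    simp (disch := decide) only [s1, s2, s3, s4, neg_neg] at q
    exact not_le.1 fun r => by linarith [mul_nonneg h0_3_4_8_9.le (neg_nonneg.2 r)]
  have h4_5_6_7_8 : 0 < c 4 5 6 7 8 := by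
    have q := fc 4 5 6 7 0 8 (by decide) (by decide) (by decide)
    simp (disch := decide) only [s1, s2, s3, s4, neg_neg] at q
    exact not_le.1 fun r => by linarith [mul_nonneg h0_4_5_6_7.le (neg_nonneg.2 r)]
  have h4_6_7_8_9 : 0 < -c 4 6 7 8 9 := by
    have q := fc 4 6 7 8 5 9 (by decide) (by decide) (by decide)
    simp (disch := decide) only [s1, s2, s3, s4, neg_neg] at q
    exact not_le.1 fun r => by linarith [mul_nonneg h4_5_6_7_8.le (neg_nonneg.2 r)]
  have h3_4_7_8_9 : 0 < -c 3 4 7 8 9 := by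
    have q := fc 3 4 8 9 0 7 (by decide) (by decide) (by decide)
    simp (disch := decide) only [s1, s2, s3, s4, neg_neg] at q
    exact not_le.1 fun r => by linarith [mul_nonneg h0_3_4_8_9.le (neg_nonneg.2 r)]
  have h2_4_6_7_8 : 0 < -c 2 4 6 7 8 := by
    have q := fc 4 6 7 8 5 2 (by decide) (by decide) (by decide)
    simp (disch := decide) only [s1, s2, s3, s4, neg_neg] at q
    exact not_le.1 fun r => by linarith [mul_nonneg h4_5_6_7_8.le (neg_nonneg.2 r)]
  have h2_4_7_8_9 : 0 < -c 2 4 7 8 9 := by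
    have q := fc 2 4 7 8 6 9 (by decide) (by decide) (by decide)
    simp (disch := decide) only [s1, s2, s3, s4, neg_neg] at q
    exact not_le.1 fun r => by linarith [mul_nonneg h2_4_6_7_8.le (neg_nonneg.2 r)]
  have h3_4_6_8_9 : 0 < -c 3 4 6 8 9 := by
    have q := fc 3 4 8 9 0 6 (by decide) (by decide) (by decide)
    simp (disch := decide) only [s1, s2, s3, s4, neg_neg] at q
    exact not_le.1 fun r => by linarith [mul_nonneg h0_3_4_8_9.le (neg_nonneg.2 r)]
  have h2_4_6_8_9 : 0 < -c 2 4 6 8 9 := by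
    have q := gp 4 8 9 2 3 6 7
    simp (disch := decide) only [s1, s2, s3, s4, neg_neg] at q
    exact not_le.1 fun r => by
     linarith [mul_pos h2_3_4_8_9 h4_6_7_8_9,
      mul_nonneg h3_4_7_8_9.le (neg_nonneg.2 r),
      mul_pos h2_4_7_8_9 h3_4_6_8_9]
  have h2_4_5_6_8 : 0 < -c 2 4 5 6 8 := by
    have q := fc 4 5 6 8 7 2 (by decide) (by decide) (by decide)
    simp (disch := decide) only [s1, s2, s3, s4, neg_neg] at q
    exact not_le.1 fun r => by linarith [mul_nonneg h4_5_6_7_8.le (neg_nonneg.2 r)]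
  have h2_3_4_6_9 : 0 < c 2 3 4 6 9 := by
    have q := fc 2 3 6 9 0 4 (by decide) (by decide) (by decide)
    simp (disch := decide) only [s1, s2, s3, s4, neg_neg] at q
    exact not_le.1 fun r => by linarith [mul_nonneg h0_2_3_6_9.le (neg_nonneg.2 r)]
  have h0_2_3_4_9 : 0 < c 0 2 3 4 9 := by
    have q := fc 0 2 3 9 1 4 (by decide) (by decide) (by decide)
    simp (disch := decide) only [s1, s2, s3, s4, neg_neg] at q
    exact not_le.1 fun r => by linarith [mul_nonneg h0_1_2_3_9.le (neg_nonneg.2 r)]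
  have h0_2_3_7_9 : 0 < c 0 2 3 7 9 := by
    have q := fc 0 2 3 9 1 7 (by decide) (by decide) (by decide)
    simp (disch := decide) only [s1, s2, s3, s4, neg_neg] at q
    exact not_le.1 fun r => by linarith [mul_nonneg h0_1_2_3_9.le (neg_nonneg.2 r)]
  have h0_3_4_7_9 : 0 < -c 0 3 4 7 9 := by
    have q := fc 0 3 7 9 2 4 (by decide) (by decide) (by decide)
    simp (disch := decide) only [s1, s2, s3, s4, neg_neg] at q
    exact not_le.1 fun r => by linarith [mul_nonneg h0_2_3_7_9.le (neg_nonneg.2 r)]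
  have h2_3_4_7_9 : 0 < -c 2 3 4 7 9 := by
    have q := gp 3 4 9 0 2 7 8
    simp (disch := decide) only [s1, s2, s3, s4, neg_neg] at q
    exact not_le.1 fun r => by
     linarith [mul_pos h0_2_3_4_9 h3_4_7_8_9,
      mul_pos h0_3_4_7_9 h2_3_4_8_9,
      mul_nonneg h0_3_4_8_9.le (neg_nonneg.2 r)]
  have h2_4_6_7_9 : 0 < -c 2 4 6 7 9 := by
    have q := gp 2 4 9 3 6 7 8
    simp (disch := decide) only [s1, s2, s3, s4, neg_neg] at q
    exact not_le.1 fun r => by
     linarith [mul_pos h2_3_4_6_9 h2_4_7_8_9,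
      mul_pos h2_3_4_7_9 h2_4_6_8_9,
      mul_nonneg h2_3_4_8_9.le (neg_nonneg.2 r)]
  have h2_4_5_6_9 : 0 < -c 2 4 5 6 9 := by
    have q := gp 2 4 6 5 7 8 9
    simp (disch := decide) only [s1, s2, s3, s4, neg_neg] at q
    exact not_le.1 fun r => by
     linarith [mul_pos h2_4_5_6_7 h2_4_6_8_9,
      mul_pos h2_4_5_6_8 h2_4_6_7_9,
      mul_nonneg h2_4_6_7_8.le (neg_nonneg.2 r)]
  have h0_1_2_4_9 : 0 < c 0 1 2 4 9 := by
    have q := fc 0 1 2 9 3 4 (by decide) (by decide) (by decide)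
    simp (disch := decide) only [s1, s2, s3, s4, neg_neg] at q
    exact not_le.1 fun r => by linarith [mul_nonneg h0_1_2_3_9.le (neg_nonneg.2 r)]
  have h0_1_3_4_9 : 0 < c 0 1 3 4 9 := by
    have q := fc 0 1 4 9 2 3 (by decide) (by decide) (by decide)
    simp (disch := decide) only [s1, s2, s3, s4, neg_neg] at q
    exact not_le.1 fun r => by linarith [mul_nonneg h0_1_2_4_9.le (neg_nonneg.2 r)]
  have h0_1_4_8_9 : 0 < -c 0 1 4 8 9 := by
    have q := fc 0 1 4 9 2 8 (by decide) (by decide) (by decide)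
    simp (disch := decide) only [s1, s2, s3, s4, neg_neg] at q
    exact not_le.1 fun r => by linarith [mul_nonneg h0_1_2_4_9.le (neg_nonneg.2 r)]
  have h0_2_4_8_9 : 0 < -c 0 2 4 8 9 := by
    have q := gp 0 4 9 1 2 3 8
    simp (disch := decide) only [s1, s2, s3, s4, neg_neg] at q
    exact not_le.1 fun r => by
     linarith [mul_pos h0_1_2_4_9 h0_3_4_8_9,
      mul_nonneg h0_1_3_4_9.le (neg_nonneg.2 r),
      mul_pos h0_1_4_8_9 h0_2_3_4_9]
  have h0_2_4_6_9 : 0 < c 0 2 4 6 9 := by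
    have q := gp 2 4 9 0 3 6 8
    simp (disch := decide) only [s1, s2, s3, s4, neg_neg] at q
    exact not_le.1 fun r => by
     linarith [mul_pos h0_2_3_4_9 h2_4_6_8_9,
      mul_nonneg h2_3_4_8_9.le (neg_nonneg.2 r),
      mul_pos h0_2_4_8_9 h2_3_4_6_9]
  have h2_3_5_6_9 : 0 < c 2 3 5 6 9 := by
    have q := fc 2 3 6 9 0 5 (by decide) (by decide) (by decide)
    simp (disch := decide) only [s1, s2, s3, s4, neg_neg] at q
    exact not_le.1 fun r => by linarith [mul_nonneg h0_2_3_6_9.le (neg_nonneg.2 r)]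
  have h0_1_2_5_9 : 0 < c 0 1 2 5 9 := by
    have q := fc 0 1 2 9 3 5 (by decide) (by decide) (by decide)
    simp (disch := decide) only [s1, s2, s3, s4, neg_neg] at q
    exact not_le.1 fun r => by linarith [mul_nonneg h0_1_2_3_9.le (neg_nonneg.2 r)]
  have h0_2_3_5_9 : 0 < c 0 2 3 5 9 := by
    have q := fc 0 2 3 9 1 5 (by decide) (by decide) (by decide)
    simp (disch := decide) only [s1, s2, s3, s4, neg_neg] at q
    exact not_le.1 fun r => by linarith [mul_nonneg h0_1_2_3_9.le (neg_nonneg.2 r)]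
  have h1_2_5_6_9 : 0 < -c 1 2 5 6 9 := by
    have q := fc 1 2 5 9 0 6 (by decide) (by decide) (by decide)
    simp (disch := decide) only [s1, s2, s3, s4, neg_neg] at q
    exact not_le.1 fun r => by linarith [mul_nonneg h0_1_2_5_9.le (neg_nonneg.2 r)]
  have h1_2_3_5_9 : 0 < c 1 2 3 5 9 := by
    have q := fc 1 2 5 9 0 3 (by decide) (by decide) (by decide)
    simp (disch := decide) only [s1, s2, s3, s4, neg_neg] at q
    exact not_le.1 fun r => by linarith [mul_nonneg h0_1_2_5_9.le (neg_nonneg.2 r)]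
  have h0_2_5_6_9 : 0 < -c 0 2 5 6 9 := by
    have q := gp 2 5 9 0 1 3 6
    simp (disch := decide) only [s1, s2, s3, s4, neg_neg] at q
    exact not_le.1 fun r => by
     linarith [mul_pos h0_1_2_5_9 h2_3_5_6_9,
      mul_pos h0_2_3_5_9 h1_2_5_6_9,
      mul_nonneg h1_2_3_5_9.le (neg_nonneg.2 r)]
  have q := gp 2 6 9 0 3 4 5
  simp (disch := decide) only [s1, s2, s3, s4, neg_neg] at q
  linarith [mul_pos h0_2_3_6_9 h2_4_5_6_9,
      mul_pos h0_2_4_6_9 h2_3_5_6_9,
      mul_pos h0_2_5_6_9 h2_3_4_6_9]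

lemma case2 (c : ℕ → ℕ → ℕ → ℕ → ℕ → ℝ) (H : Chi c)
    (h0_1_2_3_4 : 0 < c 0 1 2 3 4) (h0_4_5_6_7 : 0 < -c 0 4 5 6 7) (h0_3_4_8_9 : 0 < c 0 3 4 8 9) : False := by
  obtain ⟨s1, s2, s3, s4, gp, fc⟩ := H
  have h4_5_6_7_8 : 0 < -c 4 5 6 7 8 := by
    have q := fc 4 5 6 7 0 8 (by decide) (by decide) (by decide)
    simp (disch := decide) only [s1, s2, s3, s4, neg_neg] at q
    exact not_le.1 fun r => by linarith [mul_nonneg h0_4_5_6_7.le (neg_nonneg.2 r)]
  have h2_4_6_7_8 : 0 < c 2 4 6 7 8 := by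
    have q := fc 4 6 7 8 5 2 (by decide) (by decide) (by decide)
    simp (disch := decide) only [s1, s2, s3, s4, neg_neg] at q
    exact not_le.1 fun r => by linarith [mul_nonneg h4_5_6_7_8.le (neg_nonneg.2 r)]
  have h2_4_7_8_9 : 0 < c 2 4 7 8 9 := by
    have q := fc 2 4 7 8 6 9 (by decide) (by decide) (by decide)
    simp (disch := decide) only [s1, s2, s3, s4, neg_neg] at q
    exact not_le.1 fun r => by linarith [mul_nonneg h2_4_6_7_8.le (neg_nonneg.2 r)]
  have h0_2_4_7_8 : 0 < c 0 2 4 7 8 := by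
    have q := fc 2 4 7 8 6 0 (by decide) (by decide) (by decide)
    simp (disch := decide) only [s1, s2, s3, s4, neg_neg] at q
    exact not_le.1 fun r => by linarith [mul_nonneg h2_4_6_7_8.le (neg_nonneg.2 r)]
  have h0_1_2_3_9 : 0 < c 0 1 2 3 9 := by
    have q := fc 0 1 2 3 4 9 (by decide) (by decide) (by decide)
    exact not_le.1 fun r => by linarith [mul_nonneg h0_1_2_3_4.le (neg_nonneg.2 r)]
  have h0_2_3_4_9 : 0 < c 0 2 3 4 9 := by
    have q := fc 0 2 3 9 1 4 (by decide) (by decide) (by decide)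
    simp (disch := decide) only [s1, s2, s3, s4, neg_neg] at q
    exact not_le.1 fun r => by linarith [mul_nonneg h0_1_2_3_9.le (neg_nonneg.2 r)]
  have h3_4_7_8_9 : 0 < c 3 4 7 8 9 := by
    have q := fc 3 4 8 9 0 7 (by decide) (by decide) (by decide)
    simp (disch := decide) only [s1, s2, s3, s4, neg_neg] at q
    exact not_le.1 fun r => by linarith [mul_nonneg h0_3_4_8_9.le (neg_nonneg.2 r)]
  have h0_2_3_7_9 : 0 < c 0 2 3 7 9 := by
    have q := fc 0 2 3 9 1 7 (by decide) (by decide) (by decide)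
    simp (disch := decide) only [s1, s2, s3, s4, neg_neg] at q
    exact not_le.1 fun r => by linarith [mul_nonneg h0_1_2_3_9.le (neg_nonneg.2 r)]
  have h0_3_4_7_9 : 0 < -c 0 3 4 7 9 := by
    have q := fc 0 3 7 9 2 4 (by decide) (by decide) (by decide)
    simp (disch := decide) only [s1, s2, s3, s4, neg_neg] at q
    exact not_le.1 fun r => by linarith [mul_nonneg h0_2_3_7_9.le (neg_nonneg.2 r)]
  have h2_3_4_8_9 : 0 < c 2 3 4 8 9 := by
    have q := fc 3 4 8 9 0 2 (by decide) (by decide) (by decide)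
    simp (disch := decide) only [s1, s2, s3, s4, neg_neg] at q
    exact not_le.1 fun r => by linarith [mul_nonneg h0_3_4_8_9.le (neg_nonneg.2 r)]
  have h2_3_4_7_9 : 0 < -c 2 3 4 7 9 := by
    have q := gp 3 4 9 0 2 7 8
    simp (disch := decide) only [s1, s2, s3, s4, neg_neg] at q
    exact not_le.1 fun r => by
     linarith [mul_pos h0_2_3_4_9 h3_4_7_8_9,
      mul_pos h0_3_4_7_9 h2_3_4_8_9,
      mul_nonneg h0_3_4_8_9.le (neg_nonneg.2 r)]
  have h0_1_2_4_9 : 0 < c 0 1 2 4 9 := by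
    have q := fc 0 1 2 9 3 4 (by decide) (by decide) (by decide)
    simp (disch := decide) only [s1, s2, s3, s4, neg_neg] at q
    exact not_le.1 fun r => by linarith [mul_nonneg h0_1_2_3_9.le (neg_nonneg.2 r)]
  have h0_1_3_4_9 : 0 < c 0 1 3 4 9 := by
    have q := fc 0 1 4 9 2 3 (by decide) (by decide) (by decide)
    simp (disch := decide) only [s1, s2, s3, s4, neg_neg] at q
    exact not_le.1 fun r => by linarith [mul_nonneg h0_1_2_4_9.le (neg_nonneg.2 r)]
  have h0_1_4_7_9 : 0 < -c 0 1 4 7 9 := by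
    have q := fc 0 1 4 9 2 7 (by decide) (by decide) (by decide)
    simp (disch := decide) only [s1, s2, s3, s4, neg_neg] at q
    exact not_le.1 fun r => by linarith [mul_nonneg h0_1_2_4_9.le (neg_nonneg.2 r)]
  have h0_2_4_7_9 : 0 < -c 0 2 4 7 9 := by
    have q := gp 0 4 9 1 2 3 7
    simp (disch := decide) only [s1, s2, s3, s4, neg_neg] at q
    exact not_le.1 fun r => by
     linarith [mul_pos h0_1_2_4_9 h0_3_4_7_9,
      mul_nonneg h0_1_3_4_9.le (neg_nonneg.2 r),
      mul_pos h0_1_4_7_9 h0_2_3_4_9]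
  have h2_3_4_7_8 : 0 < -c 2 3 4 7 8 := by
    have q := fc 2 4 7 8 6 3 (by decide) (by decide) (by decide)
    simp (disch := decide) only [s1, s2, s3, s4, neg_neg] at q
    exact not_le.1 fun r => by linarith [mul_nonneg h2_4_6_7_8.le (neg_nonneg.2 r)]
  have h0_2_3_4_7 : 0 < -c 0 2 3 4 7 := by
    have q := gp 2 4 7 0 3 8 9
    simp (disch := decide) only [s1, s2, s3, s4, neg_neg] at q
    exact not_le.1 fun r => by
     linarith [mul_nonneg h2_4_7_8_9.le (neg_nonneg.2 r),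
      mul_pos h0_2_4_7_8 h2_3_4_7_9,
      mul_pos h0_2_4_7_9 h2_3_4_7_8]
  have h2_4_7_8_11 : 0 < c 2 4 7 8 11 := by
    have q := fc 2 4 7 8 6 11 (by decide) (by decide) (by decide)
    simp (disch := decide) only [s1, s2, s3, s4, neg_neg] at q
    exact not_le.1 fun r => by linarith [mul_nonneg h2_4_6_7_8.le (neg_nonneg.2 r)]
  have h0_2_3_6_9 : 0 < c 0 2 3 6 9 := by
    have q := fc 0 2 3 9 1 6 (by decide) (by decide) (by decide)
    simp (disch := decide) only [s1, s2, s3, s4, neg_neg] at q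
    exact not_le.1 fun r => by linarith [mul_nonneg h0_1_2_3_9.le (neg_nonneg.2 r)]
  have h2_3_4_6_9 : 0 < c 2 3 4 6 9 := by
    have q := fc 2 3 6 9 0 4 (by decide) (by decide) (by decide)
    simp (disch := decide) only [s1, s2, s3, s4, neg_neg] at q
    exact not_le.1 fun r => by linarith [mul_nonneg h0_2_3_6_9.le (neg_nonneg.2 r)]
  have h3_4_6_8_9 : 0 < c 3 4 6 8 9 := by
    have q := fc 3 4 8 9 0 6 (by decide) (by decide) (by decide)
    simp (disch := decide) only [s1, s2, s3, s4, neg_neg] at q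
    exact not_le.1 fun r => by linarith [mul_nonneg h0_3_4_8_9.le (neg_nonneg.2 r)]
  have h3_4_6_7_8 : 0 < c 3 4 6 7 8 := by
    have q := fc 4 6 7 8 5 3 (by decide) (by decide) (by decide)
    simp (disch := decide) only [s1, s2, s3, s4, neg_neg] at q
    exact not_le.1 fun r => by linarith [mul_nonneg h4_5_6_7_8.le (neg_nonneg.2 r)]
  have h2_3_4_6_8 : 0 < -c 2 3 4 6 8 := by
    have q := gp 3 4 8 2 6 7 9
    simp (disch := decide) only [s1, s2, s3, s4, neg_neg] at q
    exact not_le.1 fun r => by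
     linarith [mul_nonneg h3_4_7_8_9.le (neg_nonneg.2 r),
      mul_pos h2_3_4_7_8 h3_4_6_8_9,
      mul_pos h2_3_4_8_9 h3_4_6_7_8]
  have h2_3_4_6_7 : 0 < c 2 3 4 6 7 := by
    have q := gp 2 3 4 6 7 8 9
    exact not_le.1 fun r => by
     linarith [mul_nonneg h2_3_4_8_9.le (neg_nonneg.2 r),
      mul_pos h2_3_4_6_8 h2_3_4_7_9,
      mul_pos h2_3_4_6_9 h2_3_4_7_8]
  have h0_2_3_4_6 : 0 < c 0 2 3 4 6 := by
    have q := gp 2 3 4 0 6 7 9
    simp (disch := decide) only [s1, s2, s3, s4, neg_neg] at q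
    exact not_le.1 fun r => by
     linarith [mul_nonneg h2_3_4_7_9.le (neg_nonneg.2 r),
      mul_pos h0_2_3_4_7 h2_3_4_6_9,
      mul_pos h0_2_3_4_9 h2_3_4_6_7]
  have h0_1_2_3_11 : 0 < c 0 1 2 3 11 := by
    have q := fc 0 1 2 3 4 11 (by decide) (by decide) (by decide)
    exact not_le.1 fun r => by linarith [mul_nonneg h0_1_2_3_4.le (neg_nonneg.2 r)]
  have h1_2_3_6_11 : 0 < -c 1 2 3 6 11 := by
    have q := fc 1 2 3 11 0 6 (by decide) (by decide) (by decide)
    simp (disch := decide) only [s1, s2, s3, s4, neg_neg] at q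
    exact not_le.1 fun r => by linarith [mul_nonneg h0_1_2_3_11.le (neg_nonneg.2 r)]
  have h2_3_4_6_11 : 0 < -c 2 3 4 6 11 := by
    have q := fc 2 3 6 11 1 4 (by decide) (by decide) (by decide)
    simp (disch := decide) only [s1, s2, s3, s4, neg_neg] at q
    exact not_le.1 fun r => by linarith [mul_nonneg h1_2_3_6_11.le (neg_nonneg.2 r)]
  have h0_1_3_7_11 : 0 < -c 0 1 3 7 11 := by
    have q := fc 0 1 3 11 2 7 (by decide) (by decide) (by decide)
    simp (disch := decide) only [s1, s2, s3, s4, neg_neg] at q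
    exact not_le.1 fun r => by linarith [mul_nonneg h0_1_2_3_11.le (neg_nonneg.2 r)]
  have h0_2_3_7_11 : 0 < -c 0 2 3 7 11 := by
    have q := fc 0 3 7 11 1 2 (by decide) (by decide) (by decide)
    simp (disch := decide) only [s1, s2, s3, s4, neg_neg] at q
    exact not_le.1 fun r => by linarith [mul_nonneg h0_1_3_7_11.le (neg_nonneg.2 r)]
  have h0_1_2_3_7 : 0 < c 0 1 2 3 7 := by
    have q := fc 0 1 2 3 4 7 (by decide) (by decide) (by decide)
    exact not_le.1 fun r => by linarith [mul_nonneg h0_1_2_3_4.le (neg_nonneg.2 r)]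
  have h0_2_3_4_11 : 0 < -c 0 2 3 4 11 := by
    have q := gp 0 2 3 1 4 7 11
    simp (disch := decide) only [s1, s2, s3, s4, neg_neg] at q
    exact not_le.1 fun r => by
     linarith [mul_pos h0_1_2_3_4 h0_2_3_7_11,
      mul_nonneg h0_1_2_3_7.le (neg_nonneg.2 r),
      mul_pos h0_1_2_3_11 h0_2_3_4_7]
  have h2_3_4_7_11 : 0 < c 2 3 4 7 11 := by
    have q := gp 2 3 4 0 6 7 11
    simp (disch := decide) only [s1, s2, s3, s4, neg_neg] at q
    exact not_le.1 fun r => by
     linarith [mul_nonneg h0_2_3_4_6.le (neg_nonneg.2 r),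
      mul_pos h0_2_3_4_7 h2_3_4_6_11,
      mul_pos h0_2_3_4_11 h2_3_4_6_7]
  have h0_1_2_4_7 : 0 < -c 0 1 2 4 7 := by
    have q := gp 0 2 4 1 3 7 9
    simp (disch := decide) only [s1, s2, s3, s4, neg_neg] at q
    exact not_le.1 fun r => by
     linarith [mul_pos h0_1_2_3_4 h0_2_4_7_9,
      mul_nonneg h0_2_3_4_9.le (neg_nonneg.2 r),
      mul_pos h0_1_2_4_9 h0_2_3_4_7]
  have h0_3_4_7_11 : 0 < c 0 3 4 7 11 := by
    have q := fc 0 3 7 11 1 4 (by decide) (by decide) (by decide)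
    simp (disch := decide) only [s1, s2, s3, s4, neg_neg] at q
    exact not_le.1 fun r => by linarith [mul_nonneg h0_1_3_7_11.le (neg_nonneg.2 r)]
  have h0_1_3_4_7 : 0 < -c 0 1 3 4 7 := by
    have q := gp 0 3 4 1 2 7 9
    simp (disch := decide) only [s1, s2, s3, s4, neg_neg] at q
    exact not_le.1 fun r => by
     linarith [mul_pos h0_1_2_3_4 h0_3_4_7_9,
      mul_nonneg h0_2_3_4_9.le (neg_nonneg.2 r),
      mul_pos h0_1_3_4_9 h0_2_3_4_7]
  have h0_1_3_4_11 : 0 < -c 0 1 3 4 11 := by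
    have q := fc 0 1 3 11 2 4 (by decide) (by decide) (by decide)
    simp (disch := decide) only [s1, s2, s3, s4, neg_neg] at q
    exact not_le.1 fun r => by linarith [mul_nonneg h0_1_2_3_11.le (neg_nonneg.2 r)]
  have h0_1_4_7_11 : 0 < c 0 1 4 7 11 := by
    have q := fc 0 1 4 11 3 7 (by decide) (by decide) (by decide)
    simp (disch := decide) only [s1, s2, s3, s4, neg_neg] at q
    exact not_le.1 fun r => by linarith [mul_nonneg h0_1_3_4_11.le (neg_nonneg.2 r)]
  have h0_2_4_7_11 : 0 < c 0 2 4 7 11 := by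
    have q := gp 0 4 7 1 2 3 11
    simp (disch := decide) only [s1, s2, s3, s4, neg_neg] at q
    exact not_le.1 fun r => by
     linarith [mul_pos h0_1_2_4_7 h0_3_4_7_11,
      mul_nonneg h0_1_3_4_7.le (neg_nonneg.2 r),
      mul_pos h0_1_4_7_11 h0_2_3_4_7]
  have q := gp 2 4 7 0 3 8 11
  simp (disch := decide) only [s1, s2, s3, s4, neg_neg] at q
  linarith [mul_pos h0_2_3_4_7 h2_4_7_8_11,
      mul_pos h0_2_4_7_8 h2_3_4_7_11,
      mul_pos h0_2_4_7_11 h2_3_4_7_8]

lemma case3 (c : ℕ → ℕ → ℕ → ℕ → ℕ → ℝ) (H : Chi c)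
    (h0_1_2_3_4 : 0 < c 0 1 2 3 4) (h0_4_5_6_7 : 0 < -c 0 4 5 6 7) (h0_3_4_8_9 : 0 < -c 0 3 4 8 9) : False := by
  obtain ⟨s1, s2, s3, s4, gp, fc⟩ := H
  have h0_1_2_3_9 : 0 < c 0 1 2 3 9 := by
    have q := fc 0 1 2 3 4 9 (by decide) (by decide) (by decide)
    exact not_le.1 fun r => by linarith [mul_nonneg h0_1_2_3_4.le (neg_nonneg.2 r)]
  have h0_2_3_7_9 : 0 < c 0 2 3 7 9 := by
    have q := fc 0 2 3 9 1 7 (by decide) (by decide) (by decide)
    simp (disch := decide) only [s1, s2, s3, s4, neg_neg] at q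
    exact not_le.1 fun r => by linarith [mul_nonneg h0_1_2_3_9.le (neg_nonneg.2 r)]
  have h0_3_4_7_9 : 0 < -c 0 3 4 7 9 := by
    have q := fc 0 3 7 9 2 4 (by decide) (by decide) (by decide)
    simp (disch := decide) only [s1, s2, s3, s4, neg_neg] at q
    exact not_le.1 fun r => by linarith [mul_nonneg h0_2_3_7_9.le (neg_nonneg.2 r)]
  have h4_5_6_7_8 : 0 < -c 4 5 6 7 8 := by
    have q := fc 4 5 6 7 0 8 (by decide) (by decide) (by decide)
    simp (disch := decide) only [s1, s2, s3, s4, neg_neg] at q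
    exact not_le.1 fun r => by linarith [mul_nonneg h0_4_5_6_7.le (neg_nonneg.2 r)]
  have h0_4_5_6_8 : 0 < c 0 4 5 6 8 := by
    have q := fc 4 5 6 8 7 0 (by decide) (by decide) (by decide)
    simp (disch := decide) only [s1, s2, s3, s4, neg_neg] at q
    exact not_le.1 fun r => by linarith [mul_nonneg h4_5_6_7_8.le (neg_nonneg.2 r)]
  have h0_4_6_7_8 : 0 < c 0 4 6 7 8 := by
    have q := fc 4 6 7 8 5 0 (by decide) (by decide) (by decide)
    simp (disch := decide) only [s1, s2, s3, s4, neg_neg] at q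
    exact not_le.1 fun r => by linarith [mul_nonneg h4_5_6_7_8.le (neg_nonneg.2 r)]
  have h0_5_6_8_9 : 0 < -c 0 5 6 8 9 := by
    have q := fc 0 5 6 8 4 9 (by decide) (by decide) (by decide)
    simp (disch := decide) only [s1, s2, s3, s4, neg_neg] at q
    exact not_le.1 fun r => by linarith [mul_nonneg h0_4_5_6_8.le (neg_nonneg.2 r)]
  have h0_1_2_4_9 : 0 < c 0 1 2 4 9 := by
    have q := fc 0 1 2 9 3 4 (by decide) (by decide) (by decide)
    simp (disch := decide) only [s1, s2, s3, s4, neg_neg] at q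
    exact not_le.1 fun r => by linarith [mul_nonneg h0_1_2_3_9.le (neg_nonneg.2 r)]
  have h0_1_3_4_9 : 0 < c 0 1 3 4 9 := by
    have q := fc 0 1 4 9 2 3 (by decide) (by decide) (by decide)
    simp (disch := decide) only [s1, s2, s3, s4, neg_neg] at q
    exact not_le.1 fun r => by linarith [mul_nonneg h0_1_2_4_9.le (neg_nonneg.2 r)]
  have h0_1_4_6_9 : 0 < -c 0 1 4 6 9 := by
    have q := fc 0 1 4 9 2 6 (by decide) (by decide) (by decide)
    simp (disch := decide) only [s1, s2, s3, s4, neg_neg] at q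
    exact not_le.1 fun r => by linarith [mul_nonneg h0_1_2_4_9.le (neg_nonneg.2 r)]
  have h0_1_4_8_9 : 0 < -c 0 1 4 8 9 := by
    have q := fc 0 1 4 9 2 8 (by decide) (by decide) (by decide)
    simp (disch := decide) only [s1, s2, s3, s4, neg_neg] at q
    exact not_le.1 fun r => by linarith [mul_nonneg h0_1_2_4_9.le (neg_nonneg.2 r)]
  have h0_2_3_4_9 : 0 < c 0 2 3 4 9 := by
    have q := fc 0 2 3 9 1 4 (by decide) (by decide) (by decide)
    simp (disch := decide) only [s1, s2, s3, s4, neg_neg] at q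
    exact not_le.1 fun r => by linarith [mul_nonneg h0_1_2_3_9.le (neg_nonneg.2 r)]
  have h3_4_6_8_9 : 0 < -c 3 4 6 8 9 := by
    have q := fc 3 4 8 9 0 6 (by decide) (by decide) (by decide)
    simp (disch := decide) only [s1, s2, s3, s4, neg_neg] at q
    exact not_le.1 fun r => by linarith [mul_nonneg h0_3_4_8_9.le (neg_nonneg.2 r)]
  have h2_3_4_8_9 : 0 < -c 2 3 4 8 9 := by
    have q := fc 3 4 8 9 0 2 (by decide) (by decide) (by decide)
    simp (disch := decide) only [s1, s2, s3, s4, neg_neg] at q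
    exact not_le.1 fun r => by linarith [mul_nonneg h0_3_4_8_9.le (neg_nonneg.2 r)]
  have h0_2_3_6_9 : 0 < c 0 2 3 6 9 := by
    have q := fc 0 2 3 9 1 6 (by decide) (by decide) (by decide)
    simp (disch := decide) only [s1, s2, s3, s4, neg_neg] at q
    exact not_le.1 fun r => by linarith [mul_nonneg h0_1_2_3_9.le (neg_nonneg.2 r)]
  have h2_3_4_6_9 : 0 < c 2 3 4 6 9 := by
    have q := fc 2 3 6 9 0 4 (by decide) (by decide) (by decide)
    simp (disch := decide) only [s1, s2, s3, s4, neg_neg] at q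
    exact not_le.1 fun r => by linarith [mul_nonneg h0_2_3_6_9.le (neg_nonneg.2 r)]
  have h0_3_4_6_9 : 0 < c 0 3 4 6 9 := by
    have q := gp 3 4 9 0 2 6 8
    simp (disch := decide) only [s1, s2, s3, s4, neg_neg] at q
    exact not_le.1 fun r => by
     linarith [mul_pos h0_2_3_4_9 h3_4_6_8_9,
      mul_nonneg h2_3_4_8_9.le (neg_nonneg.2 r),
      mul_pos h0_3_4_8_9 h2_3_4_6_9]
  have h0_4_6_8_9 : 0 < c 0 4 6 8 9 := by
    have q := gp 0 4 9 1 3 6 8
    simp (disch := decide) only [s1, s2, s3, s4, neg_neg] at q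
    exact not_le.1 fun r => by
     linarith [mul_nonneg h0_1_3_4_9.le (neg_nonneg.2 r),
      mul_pos h0_1_4_6_9 h0_3_4_8_9,
      mul_pos h0_1_4_8_9 h0_3_4_6_9]
  have h0_5_6_7_8 : 0 < c 0 5 6 7 8 := by
    have q := fc 0 5 6 8 4 7 (by decide) (by decide) (by decide)
    simp (disch := decide) only [s1, s2, s3, s4, neg_neg] at q
    exact not_le.1 fun r => by linarith [mul_nonneg h0_4_5_6_8.le (neg_nonneg.2 r)]
  have h0_6_7_8_9 : 0 < -c 0 6 7 8 9 := by
    have q := gp 0 6 8 4 5 7 9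
    simp (disch := decide) only [s1, s2, s3, s4, neg_neg] at q
    exact not_le.1 fun r => by
     linarith [mul_nonneg h0_4_5_6_8.le (neg_nonneg.2 r),
      mul_pos h0_4_6_7_8 h0_5_6_8_9,
      mul_pos h0_4_6_8_9 h0_5_6_7_8]
  have h0_3_6_7_9 : 0 < -c 0 3 6 7 9 := by
    have q := fc 0 3 7 9 2 6 (by decide) (by decide) (by decide)
    simp (disch := decide) only [s1, s2, s3, s4, neg_neg] at q
    exact not_le.1 fun r => by linarith [mul_nonneg h0_2_3_7_9.le (neg_nonneg.2 r)]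
  have h0_1_4_7_9 : 0 < -c 0 1 4 7 9 := by
    have q := fc 0 1 4 9 2 7 (by decide) (by decide) (by decide)
    simp (disch := decide) only [s1, s2, s3, s4, neg_neg] at q
    exact not_le.1 fun r => by linarith [mul_nonneg h0_1_2_4_9.le (neg_nonneg.2 r)]
  have h0_2_4_7_9 : 0 < -c 0 2 4 7 9 := by
    have q := gp 0 4 9 1 2 3 7
    simp (disch := decide) only [s1, s2, s3, s4, neg_neg] at q
    exact not_le.1 fun r => by
     linarith [mul_pos h0_1_2_4_9 h0_3_4_7_9,
      mul_nonneg h0_1_3_4_9.le (neg_nonneg.2 r),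
      mul_pos h0_1_4_7_9 h0_2_3_4_9]
  have h3_4_7_8_9 : 0 < -c 3 4 7 8 9 := by
    have q := fc 3 4 8 9 0 7 (by decide) (by decide) (by decide)
    simp (disch := decide) only [s1, s2, s3, s4, neg_neg] at q
    exact not_le.1 fun r => by linarith [mul_nonneg h0_3_4_8_9.le (neg_nonneg.2 r)]
  have h2_4_6_7_8 : 0 < c 2 4 6 7 8 := by
    have q := fc 4 6 7 8 5 2 (by decide) (by decide) (by decide)
    simp (disch := decide) only [s1, s2, s3, s4, neg_neg] at q
    exact not_le.1 fun r => by linarith [mul_nonneg h4_5_6_7_8.le (neg_nonneg.2 r)]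
  have h2_4_7_8_9 : 0 < c 2 4 7 8 9 := by
    have q := fc 2 4 7 8 6 9 (by decide) (by decide) (by decide)
    simp (disch := decide) only [s1, s2, s3, s4, neg_neg] at q
    exact not_le.1 fun r => by linarith [mul_nonneg h2_4_6_7_8.le (neg_nonneg.2 r)]
  have h2_3_4_7_9 : 0 < -c 2 3 4 7 9 := by
    have q := gp 3 4 9 0 2 7 8
    simp (disch := decide) only [s1, s2, s3, s4, neg_neg] at q
    exact not_le.1 fun r => by
     linarith [mul_pos h0_2_3_4_9 h3_4_7_8_9,
      mul_pos h0_3_4_7_9 h2_3_4_8_9,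
      mul_nonneg h0_3_4_8_9.le (neg_nonneg.2 r)]
  have h0_4_7_8_9 : 0 < c 0 4 7 8 9 := by
    have q := gp 4 7 9 0 2 3 8
    simp (disch := decide) only [s1, s2, s3, s4, neg_neg] at q
    exact not_le.1 fun r => by
     linarith [mul_pos h0_2_4_7_9 h3_4_7_8_9,
      mul_pos h0_3_4_7_9 h2_4_7_8_9,
      mul_nonneg h2_3_4_7_9.le (neg_nonneg.2 r)]
  have h0_3_7_8_9 : 0 < c 0 3 7 8 9 := by
    have q := fc 0 3 7 9 2 8 (by decide) (by decide) (by decide)
    simp (disch := decide) only [s1, s2, s3, s4, neg_neg] at q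
    exact not_le.1 fun r => by linarith [mul_nonneg h0_2_3_7_9.le (neg_nonneg.2 r)]
  have h0_4_6_7_9 : 0 < c 0 4 6 7 9 := by
    have q := gp 0 4 9 1 3 6 7
    simp (disch := decide) only [s1, s2, s3, s4, neg_neg] at q
    exact not_le.1 fun r => by
     linarith [mul_nonneg h0_1_3_4_9.le (neg_nonneg.2 r),
      mul_pos h0_1_4_6_9 h0_3_4_7_9,
      mul_pos h0_1_4_7_9 h0_3_4_6_9]
  have q := gp 0 7 9 3 4 6 8
  simp (disch := decide) only [s1, s2, s3, s4, neg_neg] at q
  linarith [mul_pos h0_3_4_7_9 h0_6_7_8_9,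
      mul_pos h0_3_6_7_9 h0_4_7_8_9,
      mul_pos h0_3_7_8_9 h0_4_6_7_9]

lemma Chi.neg {c : ℕ → ℕ → ℕ → ℕ → ℕ → ℝ} (H : Chi c) : Chi fun i j k l m => -c i j k l m :=
  ⟨fun i j k l m h => by rw [H.s1 i j k l m h], fun i j k l m h => by rw [H.s2 i j k l m h],
    fun i j k l m h => by rw [H.s3 i j k l m h], fun i j k l m h => by rw [H.s4 i j k l m h],
    fun i j k a b d e => by linarith [H.gp i j k a b d e],
    fun i j k l v w a b d => by linarith [H.fc i j k l v w a b d]⟩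

theorem no_chi (c : ℕ → ℕ → ℕ → ℕ → ℕ → ℝ) : ¬ Chi c := by
  have key : ∀ c, Chi c → ¬ 0 < c 0 1 2 3 4 := by
    intro c H h
    have a := H.fc 4 5 6 7 0 0 (by decide) (by decide) (by decide)
    have b := H.fc 3 4 8 9 0 0 (by decide) (by decide) (by decide)
    simp (disch := decide) only [H.s1, H.s2, H.s3, H.s4, neg_neg] at a b
    rcases (mul_self_pos.1 a).lt_or_gt with a | a <;> rcases (mul_self_pos.1 b).lt_or_gt with b | b
    exacts [case3 c H h (neg_pos.2 a) (neg_pos.2 b), case2 c H h (neg_pos.2 a) b,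
      case1 c H h a (neg_pos.2 b), case0 c H h a b]
  intro H
  rcases (mul_self_pos.1 (H.fc 0 1 2 3 4 4 (by decide) (by decide) (by decide))).lt_or_gt
    with a | a
  exacts [key _ H.neg (neg_pos.2 a), key c H a]

def d4 (x y z w : Fin 4 → ℝ) : ℝ :=
  x 0 * (y 1 * (z 2 * w 3 - z 3 * w 2) - y 2 * (z 1 * w 3 - z 3 * w 1) +
      y 3 * (z 1 * w 2 - z 2 * w 1)) -
    x 1 * (y 0 * (z 2 * w 3 - z 3 * w 2) - y 2 * (z 0 * w 3 - z 3 * w 0) +
      y 3 * (z 0 * w 2 - z 2 * w 0)) +
    x 2 * (y 0 * (z 1 * w 3 - z 3 * w 1) - y 1 * (z 0 * w 3 - z 3 * w 0) +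
      y 3 * (z 0 * w 1 - z 1 * w 0)) -
    x 3 * (y 0 * (z 1 * w 2 - z 2 * w 1) - y 1 * (z 0 * w 2 - z 2 * w 0) +
      y 2 * (z 0 * w 1 - z 1 * w 0))

lemma d4_det (x y z w : Fin 4 → ℝ) : (Matrix.of ![x, y, z, w]).det = d4 x y z w := by
  simp [Matrix.det_succ_row_zero, Fin.sum_univ_succ, Fin.succAbove, d4]
  ring

lemma d4_gp (x y a b d e : Fin 4 → ℝ) :
    d4 x y a b * d4 x y d e - d4 x y a d * d4 x y b e + d4 x y a e * d4 x y b d = 0 := by
  unfold d4; ring

def d5 (a b c d e : Fin 4 → ℝ) : ℝ := d4 (b - a) (c - a) (d - a) (e - a)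

lemma face (a b c d v w : Fin 4 → ℝ) (hi : AffineIndependent ℝ ![a, b, c, d])
    (l : (Fin 4 → ℝ) →ₗ[ℝ] ℝ) (hb : l b = l a) (hc : l c = l a) (hd : l d = l a) (hv : l v < l a)
    (hw : l w < l a) : 0 < d5 a b c d v * d5 a b c d w := by
  have ne : d5 a b c d v ≠ 0 := by
    intro h
    rw [d5, ← d4_det] at h
    obtain ⟨u, u0, e⟩ := Matrix.exists_vecMul_eq_zero_iff.2 h
    have e' : u 0 • (b - a) + u 1 • (c - a) + u 2 • (d - a) + u 3 • (v - a) = 0 := by
      rw [← e]
      funext i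
      simp [Matrix.vecMul, dotProduct, Fin.sum_univ_four]
    have e2 := congrArg l e'
    simp only [map_add, map_smul, map_sub, hb, hc, hd, sub_self, smul_eq_mul, mul_zero, zero_add,
      map_zero] at e2
    have u3 : u 3 = 0 := (mul_eq_zero.1 e2).resolve_right (by linarith)
    have := affineIndependent_iff.1 hi Finset.univ ![-(u 0 + u 1 + u 2), u 0, u 1, u 2]
      (by simp [Fin.sum_univ_four]; ring) (by
        rw [← e', u3]
        simp [Fin.sum_univ_four]
        module)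
    refine u0 (funext fun i => ?_)
    fin_cases i
    exacts [this 1 (by simp), this 2 (by simp), this 3 (by simp), u3]
  have ex : ∀ z, l z = z 0 * l (Pi.single 0 1) + z 1 * l (Pi.single 1 1) + z 2 * l (Pi.single 2 1)
      + z 3 * l (Pi.single 3 1) := fun z => by
    conv_lhs => rw [← Finset.univ_sum_single z]
    have : ∀ i, Pi.single i (z i) = z i • (Pi.single i (1 : ℝ) : Fin 4 → ℝ) := fun i => by
      rw [← Pi.single_smul, smul_eq_mul, mul_one]
    simp only [Fin.sum_univ_four, map_add, this, map_smul, smul_eq_mul]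
  have id : ∀ x y z s t, l s * d4 x y z t - l t * d4 x y z s =
      l x * d4 y z s t - l y * d4 x z s t + l z * d4 x y s t := fun x y z s t => by
    rw [ex x, ex y, ex z, ex s, ex t]; unfold d4; ring
  have := id (b - a) (c - a) (d - a) (v - a) (w - a)
  simp only [map_sub, hb, hc, hd, sub_self, zero_mul, add_zero] at this
  have p := mul_pos (sub_pos.2 hw) (mul_self_pos.2 ne)
  unfold d5 at p ⊢
  have q := congrArg (· * d4 (b - a) (c - a) (d - a) (v - a)) this
  exact not_le.1 fun r => by linarith [mul_nonneg (sub_pos.2 hv).le (neg_nonneg.2 r)]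

lemma chi_of (p : ℕ → Fin 4 → ℝ) (h : ∀ i j k l v w, [i, j, k, l] ∈ tets →
    v < 12 ∧ v ∉ [i, j, k, l] → w < 12 ∧ w ∉ [i, j, k, l] →
    0 < d5 (p i) (p j) (p k) (p l) (p v) * d5 (p i) (p j) (p k) (p l) (p w)) : False :=
  no_chi (fun i j k l m => d5 (p i) (p j) (p k) (p l) (p m))
    ⟨fun _ _ _ _ _ _ => by simp only [d5, d4, Pi.sub_apply]; ring,
      fun _ _ _ _ _ _ => by simp only [d5, d4]; ring, fun _ _ _ _ _ _ => by simp only [d5, d4]; ring,
      fun _ _ _ _ _ _ => by simp only [d5, d4]; ring, fun _ _ _ _ _ _ _ => d4_gp .., h⟩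

end Pool.Agent.H10.MW
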