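import Mathlib

set_option autoImplicit false

namespace Pool.Agent.H10.MaxSum

/-- `σ` describes a perfect matching of the finite set `X`: each `x ∈ X` is paired with
`σ x ∈ X`, `σ x ≠ x`, and the partner of `σ x` is `x`. -/
def IsPerfectMatching {E : Type} (X : Finset E) (σ : E → E) : Prop :=
  ∀ x ∈ X, σ x ∈ X ∧ σ x ≠ x ∧ σ (σ x) = x

/-- The total length of the pairs of the matching (each pair is met twice in the sum). -/
noncomputable def weight {E : Type} [PseudoMetricSpace E] (X : Finset E) (σ : E → E) : ℝ :=
  (∑ x ∈ X, dist x (σ x)) / 2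

/-- A perfect matching of `X` of maximum total length. -/
def IsMaxSumMatching {E : Type} [PseudoMetricSpace E] (X : Finset E) (σ : E → E) : Prop :=
  IsPerfectMatching X σ ∧ ∀ τ : E → E, IsPerfectMatching X τ → weight X τ ≤ weight X σ

end Pool.Agent.H10.MaxSum
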