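import Mathlib
import Pool.Agent.H10.MaxSumDefs

set_option autoImplicit false

namespace Pool.Agent.H10.MaxSum

open scoped InnerProductSpace

def cf : Fin 6 → Fin 3 → ℝ :=
  ![![0, 0, 0], ![0, 0, 1], ![0, 0, -1], ![10, 0, 0], ![-6, 8, 0], ![-6, -8, 0]]

def tau : Fin 6 → Fin 6 := ![3, 4, 5, 0, 1, 2]

noncomputable def u : Fin 6 → ℝ := ![1, √101 - 9, √101 - 9, 9, 9, 9]

section
variable {E : Type} [NormedAddCommGroup E] [InnerProductSpace ℝ E] (e : Fin 3 → E)

noncomputable def P (i : Fin 6) : E := cf i 0 • e 0 + cf i 1 • e 1 + cf i 2 • e 2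

variable {e}

lemma normsq (he : Orthonormal ℝ e) (a b c : ℝ) :
    ‖a • e 0 + b • e 1 + c • e 2‖ ^ 2 = a ^ 2 + b ^ 2 + c ^ 2 := by
  have h := orthonormal_iff_ite.mp he
  rw [← real_inner_self_eq_norm_sq]
  simp only [inner_add_left, inner_add_right, real_inner_smul_left, real_inner_smul_right, h]
  simp
  ring

lemma distP (he : Orthonormal ℝ e) (i j : Fin 6) :
    dist (P e i) (P e j) =
      √((cf i 0 - cf j 0) ^ 2 + (cf i 1 - cf j 1) ^ 2 + (cf i 2 - cf j 2) ^ 2) := by
  rw [← normsq he, Real.sqrt_sq (norm_nonneg _), dist_eq_norm]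
  congr 1
  simp only [P, sub_smul]
  abel

lemma P_inj (he : Orthonormal ℝ e) : Function.Injective (P e) := by
  intro i j h
  have h1 := distP he i j
  rw [h, dist_self, eq_comm, Real.sqrt_eq_zero (by positivity)] at h1
  revert h1
  fin_cases i <;> fin_cases j <;> simp [cf] <;> norm_num

lemma s101 : 10 ≤ √101 := by
  rw [Real.le_sqrt (by norm_num) (by norm_num)]; norm_num

lemma dist_le (he : Orthonormal ℝ e) (i j : Fin 6) (hij : i ≠ j) :
    dist (P e i) (P e j) ≤ u i + u j := by
  rw [distP he]
  have h := s101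
  have h2 : √101 ^ 2 = 101 := Real.sq_sqrt (by norm_num)
  have hn : 0 ≤ u i + u j := by
    fin_cases i <;> fin_cases j <;> simp [u] <;> linarith
  rw [Real.sqrt_le_left hn]
  revert hij
  fin_cases i <;> fin_cases j <;> simp [cf, u, -one_le_sq_iff_one_le_abs] <;> nlinarith

lemma dist_tau (he : Orthonormal ℝ e) (i : Fin 6) :
    dist (P e i) (P e (tau i)) = u i + u (tau i) := by
  rw [distP he]
  have h : √100 = 10 := by
    rw [show (100 : ℝ) = 10 ^ 2 by norm_num]; exact Real.sqrt_sq (by norm_num)
  fin_cases i <;> simp [cf, u, tau] <;> norm_num [h]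

lemma mem_ball_iff (x y z : E) :
    z ∈ Metric.closedBall (midpoint ℝ x y) (dist x y / 2) ↔ ⟪z - x, z - y⟫_ℝ ≤ 0 := by
  rw [Metric.mem_closedBall, dist_eq_norm, dist_eq_norm]
  have e1 : z - midpoint ℝ x y = (1 / 2 : ℝ) • ((z - x) + (z - y)) := by
    rw [midpoint_eq_smul_add]
    simp only [invOf_eq_inv, one_div]
    module
  have e2 : x - y = (z - y) - (z - x) := by abel
  rw [e1, e2, norm_smul]
  set a := z - x
  set b := z - y
  have h1 := norm_add_sq_real a b
  have h2 := norm_sub_sq_real b a
  rw [real_inner_comm] at h2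
  have h3 := norm_nonneg (a + b)
  have h4 := norm_nonneg (b - a)
  simp only [one_div, norm_inv, Real.norm_ofNat]
  constructor
  · intro h
    have : ‖a + b‖ ≤ ‖b - a‖ := by linarith
    nlinarith
  · intro h
    have : ‖a + b‖ ≤ ‖b - a‖ := by
      apply (sq_le_sq₀ h3 h4).mp
      linarith
    linarith

theorem main (he : Orthonormal ℝ e) : ∃ (X : Finset E) (σ : E → E), X.card = 6 ∧
    IsMaxSumMatching X σ ∧
    ⋂ x ∈ X, Metric.closedBall (midpoint ℝ x (σ x)) (dist x (σ x) / 2) = {0} := by
  classical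
  have hinj := P_inj he
  let σ : E → E := Function.extend (P e) (fun i => P e (tau i)) id
  have hσ : ∀ i, σ (P e i) = P e (tau i) := fun i => hinj.extend_apply _ _ i
  have htt : ∀ i, tau (tau i) = i := by decide
  have htn : ∀ i, tau i ≠ i := by decide
  let U : E → ℝ := Function.extend (P e) u 0
  have hU : ∀ i, U (P e i) = u i := fun i => hinj.extend_apply _ _ i
  have hsum : ∀ τ : E → E, IsPerfectMatching (Finset.univ.image (P e)) τ →
      ∑ x ∈ Finset.univ.image (P e), (U x + U (τ x)) =
        2 * ∑ x ∈ Finset.univ.image (P e), U x := by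
    intro τ hτ
    rw [Finset.sum_add_distrib, two_mul]
    congr 1
    exact Finset.sum_nbij' τ τ (fun x hx => (hτ x hx).1) (fun x hx => (hτ x hx).1)
      (fun x hx => (hτ x hx).2.2) (fun x hx => (hτ x hx).2.2) (fun x _ => rfl)
  have hpm : IsPerfectMatching (Finset.univ.image (P e)) σ := by
    intro x hx
    obtain ⟨i, -, rfl⟩ := Finset.mem_image.mp hx
    refine ⟨by rw [hσ]; simp, ?_, by rw [hσ, hσ, htt]⟩
    rw [hσ]
    exact fun h => htn i (hinj h)
  refine ⟨Finset.univ.image (P e), σ, ?_, ⟨hpm, ?_⟩, ?_⟩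
  · rw [Finset.card_image_of_injective _ hinj]; simp
  · intro τ hτ
    unfold weight
    have h1 : ∑ x ∈ Finset.univ.image (P e), dist x (τ x) ≤
        ∑ x ∈ Finset.univ.image (P e), (U x + U (τ x)) := by
      apply Finset.sum_le_sum
      intro x hx
      obtain ⟨h1, h2, -⟩ := hτ x hx
      obtain ⟨i, -, rfl⟩ := Finset.mem_image.mp hx
      obtain ⟨j, -, hj⟩ := Finset.mem_image.mp h1
      rw [← hj, hU, hU]
      apply dist_le he
      rintro rfl
      exact h2 hj.symm
    have h2 : ∑ x ∈ Finset.univ.image (P e), dist x (σ x) =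
        ∑ x ∈ Finset.univ.image (P e), (U x + U (σ x)) := by
      apply Finset.sum_congr rfl
      intro x hx
      obtain ⟨i, -, rfl⟩ := Finset.mem_image.mp hx
      rw [hσ, hU, hU, dist_tau he]
    rw [hsum τ hτ] at h1
    rw [hsum σ hpm] at h2
    linarith
  · have h := orthonormal_iff_ite.mp he
    ext z
    simp only [Set.mem_iInter, Finset.mem_image, Finset.mem_univ, true_and, forall_exists_index,
      forall_apply_eq_imp_iff, mem_ball_iff, hσ, Set.mem_singleton_iff]
    constructor
    · intro hz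
      have h0 := hz 0
      have h1 := hz 1
      have h2 := hz 2
      simp only [P, inner_sub_left, inner_sub_right, inner_add_left, inner_add_right,
        real_inner_smul_left, real_inner_smul_right, h] at h0 h1 h2
      simp [cf, tau, real_inner_comm z] at h0 h1 h2
      have : ‖z‖ ^ 2 ≤ 0 := by linarith
      have h3 : ‖z‖ = 0 := by
        have := norm_nonneg z
        nlinarith
      exact norm_eq_zero.mp h3
    · rintro rfl i
      simp only [P, inner_sub_left, inner_sub_right, inner_add_left, inner_add_right,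
        real_inner_smul_left, real_inner_smul_right, h]
      fin_cases i <;> simp [cf, tau]

end

end Pool.Agent.H10.MaxSum
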