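import Pool.Agent.H10.MpcDefs

namespace Pool.Agent.H10.Mpc
open Finset

theorem keyK {A B M : ℝ} {m : ℕ} (hB : 0 ≤ B) (hM : (m : ℝ) + 1 ≤ M) {xs xt xt' xs' rs rt rt' rs' : ℕ}
    (h1 : xs < xt) (h2 : xt < xt') (h3 : xs' ≤ xt) (h4 : xt' < m) (h5 : rs' ≤ rt) (h6 : rt < rt')
    (h : A * xs + B * M ^ rs < A * xt + B * M ^ rt) :
    A * xs' + B * M ^ rs' < A * xt' + B * M ^ rt' := by
  have hm : (0 : ℝ) ≤ m := Nat.cast_nonneg _
  have hM1 : 1 ≤ M := by linarith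
  have e1 : M ^ rs' ≤ M ^ rt := pow_le_pow_right₀ hM1 h5
  have e2 : M * M ^ rt ≤ M ^ rt' := by rw [← pow_succ']; exact pow_le_pow_right₀ hM1 h6
  have e3 : 0 < M ^ rt := by positivity
  have e4 : 0 < M ^ rs := by positivity
  have c1 : (xs : ℝ) + 1 ≤ xt := by exact_mod_cast h1
  have c2 : (xt : ℝ) + 1 ≤ xt' := by exact_mod_cast h2
  have c3 : (xs' : ℝ) ≤ xt := by exact_mod_cast h3
  have c4 : (xt' : ℝ) < m := by exact_mod_cast h4
  have c5 : (0 : ℝ) ≤ xs' := Nat.cast_nonneg _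
  have e5 : (m + 1) * M ^ rt ≤ M ^ rt' := le_trans (mul_le_mul_of_nonneg_right hM e3.le) e2
  have e6 : B * M ^ rs' + m * (B * M ^ rt) ≤ B * M ^ rt' := by
    nlinarith [mul_le_mul_of_nonneg_left e5 hB, mul_le_mul_of_nonneg_left e1 hB]
  rcases lt_or_ge 0 A with hA | hA
  · nlinarith [mul_nonneg hm (mul_nonneg hB e3.le)]
  · have e7 : -A < B * M ^ rt := by nlinarith [mul_nonneg hB e4.le]
    have e8 : -A * (xt' - xs') ≤ -A * m := mul_le_mul_of_nonneg_left (by linarith) (by linarith)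
    have e9 : (m : ℝ) * (-A) < m * (B * M ^ rt) := mul_lt_mul_of_pos_left e7 (by linarith)
    linarith

def rk (m : ℕ) (g : ℕ × ℕ) : ℕ := m * g.1 + g.2

theorem rk_lt {m : ℕ} {g g' : ℕ × ℕ} (h : g.2 < m) (h' : g.1 < g'.1) : rk m g < rk m g' := by
  unfold rk; nlinarith [Nat.zero_le g'.2]

theorem keyZ0 {A B M : ℝ} {m q : ℕ} (hB : 0 ≤ B) (hM : (m : ℝ) + 1 ≤ M) {s1 t1 s2 t2 s3 : ℕ × ℕ}
    (a2 : s2.1 < q) (a1 : s1.1 < q) (a3 : s3.1 < q) (b1 : q ≤ t1.1) (b2 : q ≤ t2.1)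
    (g1 : t1.1 < m ∧ t1.2 < m) (g2 : t2.1 < m ∧ t2.2 < m) (g3 : s2.2 < m) (g4 : s3.2 < m)
    (he : t1.1 = t2.1 → t1 = t2)
    (h1 : A * s1.1 + B * M ^ rk m s1 < A * t1.1 + B * M ^ rk m t1)
    (h2 : A * t1.1 + B * M ^ rk m t1 < A * s2.1 + B * M ^ rk m s2)
    (h3 : A * s2.1 + B * M ^ rk m s2 < A * t2.1 + B * M ^ rk m t2)
    (h4 : A * t2.1 + B * M ^ rk m t2 < A * s3.1 + B * M ^ rk m s3) : False := by
  rcases lt_trichotomy t1.1 t2.1 with h | h | h
  · have := keyK hB hM (by omega) h (show s3.1 ≤ t1.1 by omega) g2.1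
      (rk_lt g4 (show s3.1 < t1.1 by omega)).le (rk_lt g1.2 h) h1
    linarith
  · rw [he h] at h2; linarith
  · have := keyK hB hM (by omega) h (show s2.1 ≤ t2.1 by omega) g1.1
      (rk_lt g3 (show s2.1 < t2.1 by omega)).le (rk_lt g2.2 h) h3
    linarith

theorem keyZ {u1 u2 B M : ℝ} {m q : ℕ} (hM : (m : ℝ) + 1 ≤ M) {v1 v2 D : ℤ} (hv : v1 ≠ 0)
    {g : ℕ → ℕ × ℕ} {f : ℕ → ℝ} {t : ℕ} (hg : ∀ i ≤ t, (g i).1 < m ∧ (g i).2 < m)
    (hf : ∀ i, f i = (g i).1 * u1 + (g i).2 * u2 + B * M ^ rk m (g i))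
    (hmono : ∀ i < t, f i < f (i + 1)) {i1 i2 i3 i4 i5 : ℕ} (l1 : i1 ≤ i2) (l2 : i2 ≤ i3)
    (l3 : i3 ≤ i4) (l4 : i4 ≤ i5) (l5 : i5 ≤ t)
    (a1 : (g i1).1 < q) (a2 : q ≤ (g i2).1) (a3 : (g i3).1 < q) (a4 : q ≤ (g i4).1)
    (a5 : (g i5).1 < q)
    (d1 : (g i1).1 * v2 - (g i1).2 * v1 = D) (d2 : (g i2).1 * v2 - (g i2).2 * v1 = D)
    (d3 : (g i3).1 * v2 - (g i3).2 * v1 = D) (d4 : (g i4).1 * v2 - (g i4).2 * v1 = D)
    (d5 : (g i5).1 * v2 - (g i5).2 * v1 = D) : False := by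
  have hs : ∀ i j, i < j → j ≤ t → f i < f j := by
    intro i j hij hj
    induction j, hij using Nat.le_induction with
    | base => exact hmono i (by omega)
    | succ j _ ih => exact (ih (by omega)).trans (hmono j (by omega))
  have hv' : (v1 : ℝ) ≠ 0 := by exact_mod_cast hv
  have hl : ∀ i, (g i).1 * v2 - (g i).2 * v1 = D →
      f i = (u1 + u2 * v2 / v1) * (g i).1 + B * M ^ rk m (g i) - u2 * D / v1 := by
    intro i hi
    rw [hf, ← hi]; push_cast; field_simp; ring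
  have n1 : i1 ≠ i2 := by rintro rfl; omega
  have n2 : i2 ≠ i3 := by rintro rfl; omega
  have n3 : i3 ≠ i4 := by rintro rfl; omega
  have n4 : i4 ≠ i5 := by rintro rfl; omega
  have h1 := hs i1 i2 (by omega) (by omega)
  have h2 := hs i2 i3 (by omega) (by omega)
  have h3 := hs i3 i4 (by omega) (by omega)
  have h4 := hs i4 i5 (by omega) (by omega)
  rw [hl _ d1, hl _ d2] at h1
  rw [hl _ d2, hl _ d3] at h2
  rw [hl _ d3, hl _ d4] at h3
  rw [hl _ d4, hl _ d5] at h4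
  have he : (g i2).1 = (g i4).1 → g i2 = g i4 := by
    intro h
    refine Prod.ext h ?_
    rw [h, ← d4] at d2
    have : (((g i2).2 : ℤ) - (g i4).2) * v1 = 0 := by linarith
    rcases mul_eq_zero.1 this with h' | h'
    · omega
    · exact absurd h' hv
  rcases le_total 0 B with hB | hB
  · exact keyZ0 (A := u1 + u2 * v2 / v1) hB hM a3 a1 a5 a2 a4 (hg i2 (by omega)) (hg i4 (by omega))
      (hg i3 (by omega)).2 (hg i5 l5).2 he (by linarith) (by linarith) (by linarith) (by linarith)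
  · exact keyZ0 (A := -(u1 + u2 * v2 / v1)) (B := -B) (by linarith) hM a3 a5 a1 a4 a2
      (hg i4 (by omega)) (hg i2 (by omega)) (hg i3 (by omega)).2 (hg i1 (by omega)).2
      (fun h => (he h.symm).symm) (by linarith) (by linarith) (by linarith) (by linarith)

theorem three {s : Finset ℕ} (h : 2 < s.card) : ∃ a ∈ s, ∃ b ∈ s, ∃ c ∈ s, a < b ∧ b < c := by
  obtain ⟨a, b, c, ha, hb, hc, h1, h2, h3⟩ := two_lt_card_iff.1 h
  rcases lt_trichotomy a b with l | l | l <;> rcases lt_trichotomy b c with l' | l' | l' <;>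
    rcases lt_trichotomy a c with l'' | l'' | l'' <;> first
    | omega
    | exact ⟨a, ha, b, hb, c, hc, by omega, by omega⟩
    | exact ⟨a, ha, c, hc, b, hb, by omega, by omega⟩
    | exact ⟨b, hb, a, ha, c, hc, by omega, by omega⟩
    | exact ⟨b, hb, c, hc, a, ha, by omega, by omega⟩
    | exact ⟨c, hc, a, ha, b, hb, by omega, by omega⟩
    | exact ⟨c, hc, b, hb, a, ha, by omega, by omega⟩

def Cr (q : ℕ) (a b : ℕ × ℕ) : Prop := (a.1 < q ∧ q ≤ b.1) ∨ (b.1 < q ∧ q ≤ a.1)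

instance (q : ℕ) (a b : ℕ × ℕ) : Decidable (Cr q a b) := by unfold Cr; infer_instance

theorem line_four {u1 u2 B M : ℝ} {m q : ℕ} (hM : (m : ℝ) + 1 ≤ M) {v1 v2 D : ℤ} (hv : v1 ≠ 0)
    {g : ℕ → ℕ × ℕ} {f : ℕ → ℝ} {t : ℕ} (hg : ∀ i ≤ t, (g i).1 < m ∧ (g i).2 < m)
    (hf : ∀ i, f i = (g i).1 * u1 + (g i).2 * u2 + B * M ^ rk m (g i))
    (hmono : ∀ i < t, f i < f (i + 1)) (s : Finset ℕ)
    (hs : ∀ i ∈ s, i < t ∧ Cr q (g i) (g (i + 1)) ∧ (g i).1 * v2 - (g i).2 * v1 = D ∧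
      (g (i + 1)).1 * v2 - (g (i + 1)).2 * v1 = D) : s.card ≤ 4 := by
  have e := card_filter_add_card_filter_not (s := s) (fun i => (g i).1 < q)
  have h1 : (s.filter (fun i => (g i).1 < q)).card ≤ 2 := by
    by_contra h
    obtain ⟨a, ha, b, hb, c, hc, l1, l2⟩ := three (not_le.1 h)
    rw [mem_filter] at ha hb hc
    obtain ⟨a1, a2, a3, a4⟩ := hs a ha.1
    obtain ⟨b1, b2, b3, b4⟩ := hs b hb.1
    obtain ⟨c1, c2, c3, c4⟩ := hs c hc.1
    unfold Cr at a2 b2 c2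
    exact keyZ hM hv hg hf hmono (Nat.le_add_right a 1) (show a + 1 ≤ b from l1)
      (Nat.le_add_right b 1) (show b + 1 ≤ c from l2) c1.le ha.2 (by omega) hb.2
      (by omega) hc.2 a3 a4 b3 b4 c3
  have h2 : (s.filter (fun i => ¬ (g i).1 < q)).card ≤ 2 := by
    by_contra h
    obtain ⟨a, ha, b, hb, c, hc, l1, l2⟩ := three (not_le.1 h)
    rw [mem_filter] at ha hb hc
    obtain ⟨a1, a2, a3, a4⟩ := hs a ha.1
    obtain ⟨b1, b2, b3, b4⟩ := hs b hb.1
    obtain ⟨c1, c2, c3, c4⟩ := hs c hc.1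
    unfold Cr at a2 b2 c2
    exact keyZ (q := q) hM hv hg hf hmono (show a + 1 ≤ b from l1) (Nat.le_add_right b 1)
      (show b + 1 ≤ c from l2) (Nat.le_add_right c 1) c1 (by omega)
      (by omega) (by omega) (by omega) (by omega) a4 b3 b4 c3 c4
  omega

def kk (a b : ℕ × ℕ) : ℕ := Int.gcd ((b.1 : ℤ) - a.1) ((b.2 : ℤ) - a.2)

theorem path_bound {u1 u2 B M c : ℝ} {m q : ℕ} (hm : 0 < m) (hM : (m : ℝ) + 1 ≤ M) (hc : 0 < c)
    (c1 : |u1| ≤ c) (c2 : |u2| ≤ c) (c3 : |u1| = c ∨ |u2| = c)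
    {g : ℕ → ℕ × ℕ} {f : ℕ → ℝ} {t : ℕ} (hg : ∀ i ≤ t, (g i).1 < m ∧ (g i).2 < m)
    (hf : ∀ i, f i = (g i).1 * u1 + (g i).2 * u2 + B * M ^ rk m (g i))
    (hB : ∀ i ≤ t, |B * M ^ rk m (g i)| ≤ c / (8 * m))
    (hmono : ∀ i < t, f i < f (i + 1)) :
    ∑ i ∈ (range t).filter (fun i => Cr q (g i) (g (i + 1))), kk (g i) (g (i + 1)) ≤ 44 * m ^ 2 := by
  set X := (range t).filter (fun i => Cr q (g i) (g (i + 1))) with hX
  have hm' : (0 : ℝ) < m := by exact_mod_cast hm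
  have hm1 : (1 : ℝ) ≤ m := by exact_mod_cast hm
  set k : ℕ → ℕ := fun i => kk (g i) (g (i + 1)) with hk
  have hv : ∀ i, ∃ v : ℤ × ℤ, ((g (i + 1)).1 : ℤ) - (g i).1 = k i * v.1 ∧
      ((g (i + 1)).2 : ℤ) - (g i).2 = k i * v.2 := by
    intro i
    obtain ⟨a, ha⟩ := Int.gcd_dvd_left (((g (i + 1)).1 : ℤ) - (g i).1) (((g (i + 1)).2 : ℤ) - (g i).2)
    obtain ⟨b, hb⟩ := Int.gcd_dvd_right (((g (i + 1)).1 : ℤ) - (g i).1) (((g (i + 1)).2 : ℤ) - (g i).2)
    exact ⟨(a, b), ha, hb⟩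
  choose v hv using hv
  have hX1 : ∀ i ∈ X, i < t ∧ 1 ≤ k i ∧ (v i).1 ≠ 0 ∧
      k i * ((v i).1.natAbs + (v i).2.natAbs) ≤ 2 * m ∧ (v i).1.natAbs ≤ m ∧ (v i).2.natAbs ≤ m := by
    intro i hi
    obtain ⟨h1, h2⟩ := mem_filter.1 hi
    rw [mem_range] at h1
    obtain ⟨e1, e2⟩ := hv i
    have g1 := hg i h1.le
    have g2 := hg (i + 1) h1
    have n1 := congrArg Int.natAbs e1
    have n2 := congrArg Int.natAbs e2
    rw [Int.natAbs_mul, Int.natAbs_natCast] at n1 n2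
    have hne : (k i : ℤ) * (v i).1 ≠ 0 := by rw [← e1]; unfold Cr at h2; omega
    have k1 : 1 ≤ k i := Nat.pos_of_ne_zero (fun h => hne (by rw [h]; simp))
    have b1 : k i * (v i).1.natAbs ≤ m := by omega
    have b2 : k i * (v i).2.natAbs ≤ m := by omega
    refine ⟨h1, k1, right_ne_zero_of_mul hne, by rw [mul_add]; omega, by nlinarith, by nlinarith⟩
  rw [← sum_filter_add_sum_filter_not X (fun i => |(v i).1 * u1 + (v i).2 * u2| < c / (2 * m))]
  have S1 : ∑ i ∈ X.filter (fun i => ¬ |(v i).1 * u1 + (v i).2 * u2| < c / (2 * m)), k i ≤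
      20 * m ^ 2 := by
    have h1 : ∀ i ∈ X.filter (fun i => ¬ |(v i).1 * u1 + (v i).2 * u2| < c / (2 * m)),
        (k i : ℝ) * c ≤ 4 * m * (f (i + 1) - f i) := by
      intro i hi
      obtain ⟨h1, h2⟩ := mem_filter.1 hi
      obtain ⟨l, k1, -⟩ := hX1 i h1
      have k1' : (1 : ℝ) ≤ k i := by exact_mod_cast k1
      have e1 : (((g (i + 1)).1 : ℝ) - (g i).1) = k i * (v i).1 := by exact_mod_cast (hv i).1
      have e2 : (((g (i + 1)).2 : ℝ) - (g i).2) = k i * (v i).2 := by exact_mod_cast (hv i).2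
      have e3 : f (i + 1) - f i = k i * ((v i).1 * u1 + (v i).2 * u2) +
          (B * M ^ rk m (g (i + 1)) - B * M ^ rk m (g i)) := by
        rw [hf, hf]; linear_combination u1 * e1 + u2 * e2
      have b1 := abs_le.1 (hB i l.le)
      have b2 := abs_le.1 (hB (i + 1) l)
      have e4 : c / (2 * m) = 4 * (c / (8 * m)) := by field_simp; norm_num
      have e5 : c = 8 * m * (c / (8 * m)) := by field_simp
      have e6 : 0 < c / (8 * m) := by positivity
      have := hmono i l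
      rw [not_lt, e4] at h2
      generalize c / (8 * m) = z at *
      have e7 : 2 * (k i * z) ≤ f (i + 1) - f i := by
        rcases le_abs'.1 h2 with h | h <;> nlinarith
      rw [e5]; nlinarith
    have h2 := sum_le_sum h1
    rw [← sum_mul, ← mul_sum] at h2
    have h3 : ∑ i ∈ X.filter (fun i => ¬ |(v i).1 * u1 + (v i).2 * u2| < c / (2 * m)),
        (f (i + 1) - f i) ≤ ∑ i ∈ range t, (f (i + 1) - f i) :=
      sum_le_sum_of_subset_of_nonneg ((filter_subset _ _).trans (filter_subset _ _))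
        (fun i hi _ => by linarith [hmono i (mem_range.1 hi)])
    rw [sum_range_sub] at h3
    have h4 : ∀ i ≤ t, |f i| ≤ 5 / 2 * m * c := by
      intro i hi
      have x1 : ((g i).1 : ℝ) ≤ m := by exact_mod_cast (hg i hi).1.le
      have x2 : ((g i).2 : ℝ) ≤ m := by exact_mod_cast (hg i hi).2.le
      have y1 : |((g i).1 : ℝ) * u1| ≤ m * c := by
        rw [abs_mul, Nat.abs_cast]; exact mul_le_mul x1 c1 (abs_nonneg _) hm'.le
      have y2 : |((g i).2 : ℝ) * u2| ≤ m * c := by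
        rw [abs_mul, Nat.abs_cast]; exact mul_le_mul x2 c2 (abs_nonneg _) hm'.le
      have y3 : c / (8 * m) ≤ 1 / 2 * m * c := by
        rw [div_le_iff₀ (by positivity)]; nlinarith [mul_pos hm' hc]
      rw [hf]
      have := abs_add_three (((g i).1 : ℝ) * u1) (((g i).2 : ℝ) * u2) (B * M ^ rk m (g i))
      linarith [hB i hi]
    have h5 := abs_le.1 (h4 t le_rfl)
    have h6 := abs_le.1 (h4 0 (Nat.zero_le _))
    have h7 : (∑ i ∈ X.filter (fun i => ¬ |(v i).1 * u1 + (v i).2 * u2| < c / (2 * m)), (k i : ℝ))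
        * c ≤ (20 * m ^ 2) * c := by nlinarith
    exact_mod_cast le_of_mul_le_mul_right h7 hc
  have S2 : ∑ i ∈ X.filter (fun i => |(v i).1 * u1 + (v i).2 * u2| < c / (2 * m)), k i ≤
      24 * m ^ 2 := by
    set Y := X.filter (fun i => |(v i).1 * u1 + (v i).2 * u2| < c / (2 * m)) with hY
    rcases Y.eq_empty_or_nonempty with h | h
    · rw [h]; simp
    obtain ⟨j, hj, hmin⟩ := exists_min_image Y (fun i => (v i).1.natAbs + (v i).2.natAbs) h
    set s := (v j).1.natAbs + (v j).2.natAbs with hs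
    obtain ⟨-, -, j1, -, j2, j3⟩ := hX1 j (mem_filter.1 hj).1
    have hs1 : 1 ≤ s := by omega
    have hdet : ∀ i ∈ Y, (v i).1 * (v j).2 - (v i).2 * (v j).1 = 0 := by
      intro i hi
      obtain ⟨-, -, -, -, i2, i3⟩ := hX1 i (mem_filter.1 hi).1
      have p1 := (mem_filter.1 hi).2
      have p2 := (mem_filter.1 hj).2
      have q : ∀ z : ℤ, z.natAbs ≤ m → |(z : ℝ)| ≤ m := by
        intro z hz
        have : |z| ≤ m := by rw [Int.abs_eq_natAbs]; exact_mod_cast hz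
        exact_mod_cast this
      have e5 : c = m * (c / (2 * m)) + m * (c / (2 * m)) := by field_simp; norm_num
      have w : ∀ a b : ℝ, |a| ≤ m → |b| ≤ m → |((v i).1 * u1 + (v i).2 * u2) * a -
          ((v j).1 * u1 + (v j).2 * u2) * b| < c := by
        intro a b ha hb
        refine (abs_sub _ _).trans_lt ?_
        rw [abs_mul, abs_mul, e5]
        have := mul_le_mul_of_nonneg_left ha (abs_nonneg ((v i).1 * u1 + (v i).2 * u2))
        have := mul_le_mul_of_nonneg_left hb (abs_nonneg ((v j).1 * u1 + (v j).2 * u2))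
        nlinarith
      have : |(((v i).1 * (v j).2 - (v i).2 * (v j).1 : ℤ) : ℝ)| * c < 1 * c := by
        rw [one_mul]
        rcases c3 with h | h
        · have := w _ _ (q _ j3) (q _ i3)
          convert this using 1
          rw [← h, ← abs_mul]; congr 1; push_cast; ring
        · have := w _ _ (q _ j2) (q _ i2)
          convert this using 1
          rw [← h, ← abs_mul, ← abs_neg]; congr 1; push_cast; ring
      have := lt_of_mul_lt_mul_right this hc.le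
      have : |(v i).1 * (v j).2 - (v i).2 * (v j).1| < 1 := by exact_mod_cast this
      exact Int.abs_lt_one_iff.1 this
    have hcard : Y.card ≤ 4 * (Icc (-(m * s : ℤ)) (m * s)).card := by
      refine card_le_mul_card_image_of_maps_to
        (f := fun i => ((g i).1 : ℤ) * (v j).2 - (g i).2 * (v j).1) ?_ _ ?_
      · intro i hi
        obtain ⟨x1, x2⟩ := hg i (hX1 i (mem_filter.1 hi).1).1.le
        rw [mem_Icc, ← abs_le]
        refine (abs_sub _ _).trans ?_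
        rw [abs_mul, abs_mul, hs, Nat.abs_cast, Nat.abs_cast]
        push_cast
        have x1' : ((g i).1 : ℤ) ≤ m := by omega
        have x2' : ((g i).2 : ℤ) ≤ m := by omega
        nlinarith [abs_nonneg (v j).1, abs_nonneg (v j).2]
      · intro D _
        refine line_four (q := q) (v2 := (v j).2) (D := D) hM j1 hg hf hmono _ (fun i hi => ?_)
        obtain ⟨h1, h2⟩ := mem_filter.1 hi
        have h3 := (mem_filter.1 h1).1
        refine ⟨(hX1 i h3).1, (mem_filter.1 h3).2, h2, ?_⟩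
        linear_combination h2 + (v j).2 * (hv i).1 - (v j).1 * (hv i).2 + k i * hdet i h1
    rw [Int.card_Icc] at hcard
    have e : ((m * s : ℤ) + 1 - -(m * s : ℤ)).toNat = 2 * (m * s) + 1 := by
      have : ((m * s : ℤ) + 1 - -(m * s : ℤ)) = ((2 * (m * s) + 1 : ℕ) : ℤ) := by push_cast; ring
      rw [this, Int.toNat_natCast]
    rw [e] at hcard
    have h1 : ∑ i ∈ Y, k i * s ≤ Y.card • (2 * m) := sum_le_card_nsmul _ _ _ (fun i hi =>
      (Nat.mul_le_mul_left _ (hmin i hi)).trans (hX1 i (mem_filter.1 hi).1).2.2.2.1)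
    rw [← sum_mul, smul_eq_mul] at h1
    have h2 : 1 ≤ m * s := Nat.mul_pos hm hs1
    have h3 : Y.card ≤ 12 * (m * s) := by omega
    have h4 : (∑ i ∈ Y, k i) * s ≤ (24 * m ^ 2) * s := by nlinarith
    exact Nat.le_of_mul_le_mul_right h4 hs1
  exact (Nat.add_le_add S2 S1).trans (by omega)

end Pool.Agent.H10.Mpc
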