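import Pool.Agent.H10.MpcA

namespace Pool.Agent.H10.Mpc
open Finset

def MM (m : ℕ) : ℕ := 2 * m ^ 2 + 2
def QQ (m : ℕ) : ℕ := 16 * m * (m + 1) * MM m ^ (m ^ 2)
noncomputable def eps (m : ℕ) : ℝ := √2 / QQ m
noncomputable def hh (m : ℕ) (g : ℕ × ℕ) : ℝ := eps m * (MM m : ℝ) ^ rk m g
noncomputable def pt (m : ℕ) (g : ℕ × ℕ) : E := !₂[g.1 - hh m g, g.2 + m * hh m g]

theorem rk_bd {m : ℕ} {g : ℕ × ℕ} (h : g.1 < m ∧ g.2 < m) : rk m g < m ^ 2 := by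
  unfold rk; nlinarith [h.1, h.2]

theorem hh_bd {m : ℕ} {g : ℕ × ℕ} (h : g.1 < m ∧ g.2 < m) :
    0 < hh m g ∧ (m + 1) * hh m g ≤ 1 / (8 * m) := by
  have hm : (0 : ℝ) < m := by exact_mod_cast (by omega : 0 < m)
  have hM : (1 : ℝ) ≤ MM m := by unfold MM; push_cast; nlinarith
  have h1 : (MM m : ℝ) ^ rk m g ≤ (MM m : ℝ) ^ (m ^ 2) := pow_le_pow_right₀ hM (rk_bd h).le
  have h2 : √2 ≤ 2 := Real.sqrt_le_iff.2 ⟨by norm_num, by norm_num⟩
  have h3 : (0 : ℝ) < (MM m : ℝ) ^ rk m g := by positivity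
  have h4 : (0 : ℝ) < √2 := by positivity
  unfold hh eps QQ
  push_cast
  refine ⟨by positivity, ?_⟩
  rw [div_mul_eq_mul_div, ← mul_div_assoc, div_le_div_iff₀ (by positivity) (by positivity)]
  have : √2 * (MM m : ℝ) ^ rk m g ≤ 2 * (MM m : ℝ) ^ (m ^ 2) := by nlinarith
  nlinarith [mul_le_mul_of_nonneg_left this (show (0 : ℝ) ≤ 8 * m * (m + 1) by positivity)]

theorem hh_small {m : ℕ} {g : ℕ × ℕ} (h : g.1 < m ∧ g.2 < m) :
    0 < hh m g ∧ hh m g ≤ 1 / 8 ∧ 0 ≤ m * hh m g ∧ m * hh m g ≤ 1 / 8 := by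
  obtain ⟨h1, h2⟩ := hh_bd h
  have hm : (1 : ℝ) ≤ m := by exact_mod_cast (by omega : 1 ≤ m)
  have : 1 / (8 * (m : ℝ)) ≤ 1 / 8 := by
    apply one_div_le_one_div_of_le <;> linarith
  refine ⟨h1, by nlinarith, by positivity, by nlinarith⟩

theorem dist_pt (m : ℕ) (a b : ℕ × ℕ) : dist (pt m a) (pt m b) =
    √(((a.1 : ℝ) - hh m a - (b.1 - hh m b)) ^ 2 + ((a.2 : ℝ) + m * hh m a - (b.2 + m * hh m b)) ^ 2) := by
  rw [EuclideanSpace.dist_eq, Fin.sum_univ_two]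
  simp [pt, Real.dist_eq]
  congr 1; ring

theorem dist_lo {m : ℕ} {a b : ℕ × ℕ} (ha : a.1 < m ∧ a.2 < m) (hb : b.1 < m ∧ b.2 < m)
    (h : a ≠ b) : 1 / 2 ≤ dist (pt m a) (pt m b) := by
  rw [dist_pt]
  apply Real.le_sqrt_of_sq_le
  obtain ⟨a1, a2, a3, a4⟩ := hh_small ha
  obtain ⟨b1, b2, b3, b4⟩ := hh_small hb
  have : a.1 + 1 ≤ b.1 ∨ b.1 + 1 ≤ a.1 ∨ a.2 + 1 ≤ b.2 ∨ b.2 + 1 ≤ a.2 := by
    by_contra h'
    exact h (Prod.ext (by omega) (by omega))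
  generalize m * hh m a = x at *
  generalize m * hh m b = y at *
  rcases this with h | h | h | h
  · have : (a.1 : ℝ) + 1 ≤ b.1 := by exact_mod_cast h
    nlinarith [sq_nonneg ((a.2 : ℝ) + x - (b.2 + y))]
  · have : (b.1 : ℝ) + 1 ≤ a.1 := by exact_mod_cast h
    nlinarith [sq_nonneg ((a.2 : ℝ) + x - (b.2 + y))]
  · have : (a.2 : ℝ) + 1 ≤ b.2 := by exact_mod_cast h
    nlinarith [sq_nonneg ((a.1 : ℝ) - hh m a - (b.1 - hh m b))]
  · have : (b.2 : ℝ) + 1 ≤ a.2 := by exact_mod_cast h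
    nlinarith [sq_nonneg ((a.1 : ℝ) - hh m a - (b.1 - hh m b))]

theorem dist_hi {m : ℕ} {a b : ℕ × ℕ} (ha : a.1 < m ∧ a.2 < m) (hb : b.1 < m ∧ b.2 < m) :
    dist (pt m a) (pt m b) ≤ 2 * m := by
  rw [dist_pt]
  apply Real.sqrt_le_iff.2 ⟨by positivity, ?_⟩
  obtain ⟨a1, a2, a3, a4⟩ := hh_small ha
  obtain ⟨b1, b2, b3, b4⟩ := hh_small hb
  have c1 : (a.1 : ℝ) + 1 ≤ m := by exact_mod_cast ha.1
  have c2 : (a.2 : ℝ) + 1 ≤ m := by exact_mod_cast ha.2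
  have c3 : (b.1 : ℝ) + 1 ≤ m := by exact_mod_cast hb.1
  have c4 : (b.2 : ℝ) + 1 ≤ m := by exact_mod_cast hb.2
  have d1 : (0 : ℝ) ≤ a.1 := Nat.cast_nonneg _
  have d2 : (0 : ℝ) ≤ a.2 := Nat.cast_nonneg _
  have d3 : (0 : ℝ) ≤ b.1 := Nat.cast_nonneg _
  have d4 : (0 : ℝ) ≤ b.2 := Nat.cast_nonneg _
  have e1 : ((a.1 : ℝ) - hh m a - (b.1 - hh m b)) ^ 2 ≤ m ^ 2 :=
    sq_le_sq' (by linarith) (by linarith)
  have e2 : ((a.2 : ℝ) + m * hh m a - (b.2 + m * hh m b)) ^ 2 ≤ m ^ 2 :=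
    sq_le_sq' (by linarith) (by linarith)
  nlinarith

theorem pt_inj {m : ℕ} {a b : ℕ × ℕ} (ha : a.1 < m ∧ a.2 < m) (hb : b.1 < m ∧ b.2 < m)
    (h : pt m a = pt m b) : a = b := by
  by_contra h'
  have := dist_lo ha hb h'
  rw [h, dist_self] at this
  norm_num at this

theorem conv0 {M : ℤ} {R a b c : ℕ} (hM : 2 * R + 2 ≤ M) (hc : c < R) (ha : a < c) (hb : b < c)
    (hab : a ≠ b) : M ^ a * (c - b) + M ^ b * (a - c) + M ^ c * (b - a) ≠ 0 := by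
  obtain ⟨d, rfl⟩ : ∃ d, c = d + 1 := ⟨c - 1, by omega⟩
  have hM1 : 1 ≤ M := by omega
  have h1 : M ^ a ≤ M ^ d := pow_le_pow_right₀ hM1 (by omega)
  have h2 : M ^ b ≤ M ^ d := pow_le_pow_right₀ hM1 (by omega)
  have h3 : 0 < M ^ a := by positivity
  have h4 : 0 < M ^ b := by positivity
  have h5 : 0 < M ^ d := by positivity
  have e1 : M ^ a * (((d + 1 : ℕ) : ℤ) - b) ≤ M ^ d * R := mul_le_mul h1 (by omega) (by omega) h5.le
  have e2 : M ^ b * (((d + 1 : ℕ) : ℤ) - a) ≤ M ^ d * R := mul_le_mul h2 (by omega) (by omega) h5.le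
  have e3 : 0 ≤ M ^ a * (((d + 1 : ℕ) : ℤ) - b) := mul_nonneg h3.le (by omega)
  have e4 : 0 ≤ M ^ b * (((d + 1 : ℕ) : ℤ) - a) := mul_nonneg h4.le (by omega)
  have e5 : M ^ d * (2 * R + 2) ≤ M ^ (d + 1) := by
    rw [pow_succ]; exact mul_le_mul_of_nonneg_left hM h5.le
  have e6 : 0 < M ^ (d + 1) := by positivity
  have e7 : (0 : ℤ) ≤ M ^ d * R := by positivity
  intro h
  rcases lt_or_gt_of_ne hab with l | l
  · have : M ^ (d + 1) * 1 ≤ M ^ (d + 1) * ((b : ℤ) - a) :=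
      mul_le_mul_of_nonneg_left (by omega) e6.le
    nlinarith
  · have : M ^ (d + 1) * 1 ≤ M ^ (d + 1) * ((a : ℤ) - b) :=
      mul_le_mul_of_nonneg_left (by omega) e6.le
    nlinarith

theorem conv {M : ℤ} {R a b c : ℕ} (hM : 2 * R + 2 ≤ M) (ha : a < R) (hb : b < R) (hc : c < R)
    (hab : a ≠ b) (hac : a ≠ c) (hbc : b ≠ c) :
    M ^ a * (c - b) + M ^ b * (a - c) + M ^ c * (b - a) ≠ 0 := by
  intro h
  have : (a < c ∧ b < c) ∨ (b < a ∧ c < a) ∨ (c < b ∧ a < b) := by omega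
  rcases this with l | l | l
  · exact conv0 hM hc l.1 l.2 hab h
  · exact conv0 hM ha l.1 l.2 hbc (by linarith)
  · exact conv0 hM hb l.1 l.2 hac.symm (by linarith)

theorem rk_inj {m : ℕ} {a b : ℕ × ℕ} (ha : a.2 < m) (hb : b.2 < m) (h : a ≠ b) :
    rk m a ≠ rk m b := by
  rcases lt_trichotomy a.1 b.1 with l | l | l
  · exact (rk_lt ha l).ne
  · intro e
    unfold rk at e
    rw [l] at e
    exact h (Prod.ext l (by omega))
  · exact (rk_lt hb l).ne'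

theorem not_col {m : ℕ} {a b c : ℕ × ℕ} (ha : a.1 < m ∧ a.2 < m) (hb : b.1 < m ∧ b.2 < m)
    (hc : c.1 < m ∧ c.2 < m) (hab : a ≠ b) (hac : a ≠ c) (hbc : b ≠ c) :
    ¬ Collinear ℝ {pt m a, pt m b, pt m c} := by
  intro h
  obtain ⟨w, hw⟩ := (collinear_iff_of_mem (p₀ := pt m a) (by simp)).1 h
  obtain ⟨r, hr⟩ := hw (pt m b) (by simp)
  obtain ⟨s, hs⟩ := hw (pt m c) (by simp)
  have r0 := congrArg (fun p : E => p 0) hr
  have r1 := congrArg (fun p : E => p 1) hr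
  have s0 := congrArg (fun p : E => p 0) hs
  have s1 := congrArg (fun p : E => p 1) hs
  simp [pt] at r0 r1 s0 s1
  have hD := conv (M := (MM m : ℤ)) (R := m ^ 2) (by unfold MM; push_cast; omega) (rk_bd ha) (rk_bd hb)
    (rk_bd hc) (rk_inj ha.2 hb.2 hab) (rk_inj ha.2 hc.2 hac) (rk_inj hb.2 hc.2 hbc)
  have hQ : (QQ m : ℝ) ≠ 0 := by
    have : 0 < m := by omega
    unfold QQ MM; positivity
  set D := (MM m : ℤ) ^ rk m a * ((rk m c : ℤ) - rk m b) + (MM m : ℤ) ^ rk m b * ((rk m a : ℤ) - rk m c) +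
    (MM m : ℤ) ^ rk m c * ((rk m b : ℤ) - rk m a) with hDe
  have e : eps m * D = (((b.2 : ℤ) - a.2) * ((c.1 : ℤ) - a.1) - ((b.1 : ℤ) - a.1) * ((c.2 : ℤ) - a.2) : ℤ) := by
    have x0 : r * w 0 = b.1 - hh m b - (a.1 - hh m a) := by linarith
    have x1 : r * w 1 = b.2 + m * hh m b - (a.2 + m * hh m a) := by linarith
    have y0 : s * w 0 = c.1 - hh m c - (a.1 - hh m a) := by linarith
    have y1 : s * w 1 = c.2 + m * hh m c - (a.2 + m * hh m a) := by linarith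
    have z : (r * w 0) * (s * w 1) = (r * w 1) * (s * w 0) := by ring
    rw [x0, x1, y0, y1] at z
    rw [hDe]
    unfold hh at z
    push_cast
    simp only [show ∀ g : ℕ × ℕ, ((rk m g : ℕ) : ℝ) = m * g.1 + g.2 from fun g => by simp [rk]]
    linear_combination z
  have e' : √2 * D = (QQ m * (((b.2 : ℤ) - a.2) * ((c.1 : ℤ) - a.1) -
      ((b.1 : ℤ) - a.1) * ((c.2 : ℤ) - a.2)) : ℤ) := by
    rw [Int.cast_mul, ← e, eps]; push_cast; field_simp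
  exact (irrational_sqrt_two.mul_intCast hD).ne_int _ e'

theorem cover_bound {m q : ℕ} (hm : 0 < m) {A : Finset E}
    (hA : ∀ a ∈ A, ∃ g : ℕ × ℕ, (g.1 < m ∧ g.2 < m) ∧ pt m g = a) (S : Finset ((ℕ × ℕ) × ℕ × ℕ))
    (hS : ∀ e ∈ S, (e.1.1 < q ∧ q ≤ e.2.1) ∧ (e.1.1 < m ∧ e.1.2 < m) ∧ (e.2.1 < m ∧ e.2.2 < m) ∧
      pt m e.1 ∈ A ∧ pt m e.2 ∈ A)
    {F : Finset (MPath A)} (hF : Covers F) : ∑ e ∈ S, kk e.1 e.2 ≤ F.card * (44 * m ^ 2) := by
  classical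
  have hg : ∀ (p : MPath A) (i : ℕ), ∃ g : ℕ × ℕ, i ≤ p.t → (g.1 < m ∧ g.2 < m) ∧ pt m g = p.v i := by
    intro p i
    by_cases h : i ≤ p.t
    · obtain ⟨g, hg⟩ := hA _ (p.mem i h); exact ⟨g, fun _ => hg⟩
    · exact ⟨0, fun h' => absurd h' h⟩
  choose g hg using hg
  have hm' : (0 : ℝ) < m := by exact_mod_cast hm
  have hp : ∀ p ∈ F, ∑ i ∈ (range p.t).filter (fun i => Cr q (g p i) (g p (i + 1))),
      kk (g p i) (g p (i + 1)) ≤ 44 * m ^ 2 := by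
    intro p _
    obtain ⟨u, hu, hmono⟩ := p.mono
    have hc : 0 < max |u 0| |u 1| := by
      by_contra h
      rw [not_lt, max_le_iff, abs_nonpos_iff, abs_nonpos_iff] at h
      apply hu
      ext i; fin_cases i <;> simp [h.1, h.2]
    refine path_bound (u1 := u 0) (u2 := u 1) (B := eps m * (m * u 1 - u 0)) (M := MM m) hm
      (by unfold MM; push_cast; nlinarith [sq_nonneg ((m : ℝ) - 1)]) hc (le_max_left _ _)
      (le_max_right _ _) (max_choice _ _ |>.imp Eq.symm Eq.symm) (fun i hi => (hg p i hi).1)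
      (fun i => rfl) ?_ ?_
    · intro i hi
      obtain ⟨h1, h2⟩ := hh_bd (hg p i hi).1
      have e : eps m * (m * u 1 - u 0) * (MM m : ℝ) ^ rk m (g p i) =
          hh m (g p i) * (m * u 1 - u 0) := by unfold hh; ring
      rw [e, abs_mul, abs_of_pos h1]
      have h3 : |m * u 1 - u 0| ≤ (m + 1) * max |u 0| |u 1| := by
        refine (abs_sub _ _).trans ?_
        rw [abs_mul, Nat.abs_cast]
        nlinarith [le_max_left |u 0| |u 1|, le_max_right |u 0| |u 1|]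
      have h4 := mul_le_mul_of_nonneg_left h3 h1.le
      have h5 := mul_le_mul_of_nonneg_right h2 hc.le
      rw [div_eq_mul_one_div]
      linarith
    · intro i hi
      have := hmono i hi
      rw [← (hg p i hi.le).2, ← (hg p (i + 1) hi).2] at this
      simp [pt, PiLp.inner_apply, Fin.sum_univ_two] at this
      unfold hh at this
      linarith
  have h1 := sum_le_card_nsmul _ _ _ hp
  rw [smul_eq_mul, sum_sigma'] at h1
  refine le_trans ?_ h1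
  set T := F.sigma (fun p => (range p.t).filter (fun i => Cr q (g p i) (g p (i + 1)))) with hT
  let o : (Σ _ : MPath A, ℕ) → (ℕ × ℕ) × ℕ × ℕ := fun x =>
    if (g x.1 x.2).1 < q then (g x.1 x.2, g x.1 (x.2 + 1)) else (g x.1 (x.2 + 1), g x.1 x.2)
  have hsub : S ⊆ T.image o := by
    intro e he
    obtain ⟨⟨a1, a2⟩, b, c, d1, d2⟩ := hS e he
    obtain ⟨p, hp, i, hi, h⟩ := hF _ d1 _ d2 (fun h => by
      have := pt_inj b c h
      rw [this] at a1; omega)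
    have x := hg p i hi.le
    have y := hg p (i + 1) hi
    refine mem_image.2 ⟨⟨p, i⟩, ?_, ?_⟩
    · simp only [hT, mem_sigma, mem_filter, mem_range]
      refine ⟨hp, hi, ?_⟩
      rcases h with h | h
      · rw [pt_inj x.1 b (x.2.trans h.1), pt_inj y.1 c (y.2.trans h.2)]; exact Or.inl ⟨a1, a2⟩
      · rw [pt_inj x.1 c (x.2.trans h.1), pt_inj y.1 b (y.2.trans h.2)]; exact Or.inr ⟨a1, a2⟩
    · rcases h with h | h
      · simp only [o, pt_inj x.1 b (x.2.trans h.1), pt_inj y.1 c (y.2.trans h.2), if_pos a1]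
      · simp only [o, pt_inj x.1 c (x.2.trans h.1), pt_inj y.1 b (y.2.trans h.2),
          if_neg (not_lt.2 a2)]
  refine (sum_le_sum_of_subset hsub).trans ((sum_image_le_of_nonneg (fun _ _ => Nat.zero_le _)).trans
    (sum_le_sum (fun x _ => le_of_eq ?_)))
  simp only [o]
  split_ifs
  · rfl
  · unfold kk
    rw [← Int.neg_gcd, ← Int.gcd_neg]; simp

end Pool.Agent.H10.Mpc
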