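import Pool.Agent.H10.MpcB

namespace Pool.Agent.H10.Mpc
open Finset

def SS (q : ℕ) : Finset ((ℕ × ℕ) × ℕ × ℕ) := (range q ×ˢ range q) ×ˢ (Ico q (3 * q) ×ˢ range (3 * q))

theorem cnt {q p : ℕ} (hp : 0 < p) :
    q ^ 2 * (q / p) ^ 2 ≤ ((SS q).filter (fun e => p ∣ kk e.1 e.2)).card := by
  have := card_le_card_of_injOn (s := (range q ×ˢ range q) ×ˢ (range (q / p) ×ˢ range (q / p)))
    (t := (SS q).filter (fun e => p ∣ kk e.1 e.2))
    (fun x => (x.1, (x.1.1 + p * (q / p + 1 + x.2.1), x.1.2 + p * x.2.2))) ?_ ?_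
  · simp only [card_product, card_range] at this
    nlinarith
  · rintro ⟨⟨a, b⟩, i, j⟩ h
    simp only [coe_product, coe_range, Set.mem_prod, Set.mem_Iio] at h
    obtain ⟨⟨h1, h2⟩, h3, h4⟩ := h
    have e1 := Nat.mul_div_le q p
    have e2 := Nat.lt_mul_div_succ q hp
    simp only [SS, mem_coe, mem_filter, mem_product, mem_range, mem_Ico, kk]
    refine ⟨⟨⟨h1, h2⟩, ⟨by nlinarith, by nlinarith⟩, by nlinarith⟩, ?_⟩
    rw [← Int.natCast_dvd_natCast]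
    refine Int.dvd_coe_gcd ⟨q / p + 1 + i, by push_cast; ring⟩ ⟨j, by push_cast; ring⟩
  · rintro ⟨⟨a, b⟩, i, j⟩ - ⟨⟨a', b'⟩, i', j'⟩ - h
    simp only [Prod.mk.injEq] at h ⊢
    obtain ⟨⟨rfl, rfl⟩, h1, h2⟩ := h
    have x := Nat.eq_of_mul_eq_mul_left hp (Nat.add_left_cancel h1)
    have y := Nat.eq_of_mul_eq_mul_left hp (Nat.add_left_cancel h2)
    exact ⟨⟨rfl, rfl⟩, by omega, y⟩

theorem wt_lower {q : ℕ} (Pz : Finset ℕ) (hP : ∀ p ∈ Pz, p.Prime ∧ p ≤ q) :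
    (q : ℝ) ^ 4 / 8 * ∑ p ∈ Pz, (1 : ℝ) / p ≤ ((∑ e ∈ SS q, kk e.1 e.2 : ℕ) : ℝ) := by
  have h1 : ∀ e ∈ SS q, ∑ p ∈ Pz, (if p ∣ kk e.1 e.2 then p - 1 else 0) ≤ kk e.1 e.2 := by
    intro e he
    simp only [SS, mem_product, mem_range, mem_Ico] at he
    have hk : kk e.1 e.2 ≠ 0 := by
      unfold kk
      rw [Ne, Int.gcd_eq_zero_iff]; omega
    rw [← sum_filter]
    conv_rhs => rw [← Nat.sum_totient (kk e.1 e.2)]
    calc _ = ∑ p ∈ Pz.filter (fun p => p ∣ kk e.1 e.2), Nat.totient p :=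
          sum_congr rfl (fun p hp => (Nat.totient_prime (hP p (mem_filter.1 hp).1).1).symm)
      _ ≤ _ := sum_le_sum_of_subset (fun p hp => Nat.mem_divisors.2 ⟨(mem_filter.1 hp).2, hk⟩)
  have h2 := sum_le_sum h1
  rw [sum_comm] at h2
  have h3 : ∀ p ∈ Pz, (q : ℝ) ^ 4 / 8 * (1 / p) ≤
      ((∑ e ∈ SS q, (if p ∣ kk e.1 e.2 then p - 1 else 0) : ℕ) : ℝ) := by
    intro p hp
    obtain ⟨a, b⟩ := hP p hp
    rw [← sum_filter, sum_const, smul_eq_mul]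
    have c := cnt (q := q) a.pos
    have d1 := Nat.lt_mul_div_succ q a.pos
    have d2 : 1 ≤ q / p := (Nat.one_le_div_iff a.pos).2 b
    have d3 : q ≤ 2 * (p * (q / p)) := by nlinarith
    have d4 : p ≤ 2 * (p - 1) := by have := a.two_le; omega
    have d5 : q ^ 2 ≤ 4 * p ^ 2 * (q / p) ^ 2 := by nlinarith
    have d6 : q ^ 4 ≤ (q ^ 2 * (q / p) ^ 2 * (p - 1)) * (8 * p) := by
      calc q ^ 4 = q ^ 2 * q ^ 2 := by ring
        _ ≤ q ^ 2 * (4 * p ^ 2 * (q / p) ^ 2) := Nat.mul_le_mul_left _ d5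
        _ = (q ^ 2 * (q / p) ^ 2 * (4 * p)) * p := by ring
        _ ≤ (q ^ 2 * (q / p) ^ 2 * (4 * p)) * (2 * (p - 1)) := Nat.mul_le_mul_left _ d4
        _ = _ := by ring
    have d7 := d6.trans (Nat.mul_le_mul_right _ (Nat.mul_le_mul_right _ c))
    have hp0 : (0 : ℝ) < p := by exact_mod_cast a.pos
    rw [div_mul_div_comm, mul_one, div_le_iff₀ (by positivity)]
    exact_mod_cast d7
  rw [mul_sum]
  refine (sum_le_sum h3).trans ?_
  exact_mod_cast h2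

theorem exists_cover (A : Finset E) : ∃ F : Finset (MPath A), Covers F := by
  classical
  have h : ∀ x : A × A, ∃ p : MPath A, x.1 ≠ x.2 → p.t = 1 ∧ p.v 0 = x.1 ∧ p.v 1 = x.2 := by
    rintro ⟨a, b⟩
    by_cases hab : a = b
    · exact ⟨⟨0, fun _ => a, fun _ _ => a.2, ⟨!₂[1, 0], fun h => by
        simpa using congrArg (fun p : E => p 0) h, fun i hi => by omega⟩⟩, fun h => absurd hab h⟩
    · have hne : (b : E) - a ≠ 0 := sub_ne_zero.2 (fun h => hab (Subtype.ext h).symm)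
      refine ⟨⟨1, fun i => if i = 0 then a else b, fun i _ => ?_, ⟨b - a, hne, fun i hi => ?_⟩⟩,
        fun _ => ⟨rfl, rfl, rfl⟩⟩
      · split_ifs; exacts [a.2, b.2]
      · obtain rfl : i = 0 := by omega
        simpa using real_inner_self_pos.2 hne
  choose p hp using h
  refine ⟨univ.image p, fun a ha b hb hab => ?_⟩
  obtain ⟨h1, h2, h3⟩ := hp (⟨a, ha⟩, ⟨b, hb⟩) (fun h => hab (congrArg Subtype.val h))
  exact ⟨_, mem_image_of_mem _ (mem_univ _), 0, by omega, Or.inl ⟨h2, h3⟩⟩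

theorem exists_set (n : ℕ) : ∃ A : Finset E, A.card = n ∧
    (∀ a ∈ A, ∃ g : ℕ × ℕ, (g.1 < n.sqrt + 1 ∧ g.2 < n.sqrt + 1) ∧ pt (n.sqrt + 1) g = a) ∧
    ∀ g : ℕ × ℕ, g.1 < n.sqrt → g.2 < n.sqrt → pt (n.sqrt + 1) g ∈ A := by
  classical
  obtain ⟨G, h1, h2, h3⟩ := exists_subsuperset_card_eq (s := range n.sqrt ×ˢ range n.sqrt)
    (t := range (n.sqrt + 1) ×ˢ range (n.sqrt + 1)) (n := n)
    (product_subset_product (by simp) (by simp))
    (by simpa using Nat.sqrt_le n) (by simpa using (Nat.lt_succ_sqrt n).le)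
  have h4 : ∀ g ∈ G, g.1 < n.sqrt + 1 ∧ g.2 < n.sqrt + 1 := fun g hg => by simpa using h2 hg
  refine ⟨G.image (pt (n.sqrt + 1)), ?_, fun a ha => ?_, fun g a b => ?_⟩
  · rw [card_image_of_injOn (fun a ha b hb h => pt_inj (h4 a ha) (h4 b hb) h), h3]
  · obtain ⟨g, hg, e⟩ := mem_image.1 ha
    exact ⟨g, h4 g hg, e⟩
  · exact mem_image_of_mem _ (h1 (by simp [a, b]))

theorem primes_big (T : ℝ) : ∃ Pz : Finset ℕ, (∀ p ∈ Pz, p.Prime) ∧ T ≤ ∑ p ∈ Pz, (1 : ℝ) / p := by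
  by_contra h
  push Not at h
  refine Nat.Primes.not_summable_one_div (summable_of_sum_le (c := T) (fun p => by positivity)
    (fun u => ?_))
  have := h (u.map ⟨Subtype.val, Subtype.val_injective⟩) (fun p hp => by
    obtain ⟨x, -, rfl⟩ := mem_map.1 hp; exact x.2)
  rw [sum_map] at this
  exact this.le

theorem main : ∃ A : ℕ → Finset E, (∀ n, (A n).card = n ∧ GenPos (A n) ∧ IsDense 8 (A n)) ∧
    Filter.Tendsto (fun n : ℕ => (mc (A n) : ℝ) / n) Filter.atTop Filter.atTop := by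
  choose A h1 h2 h3 using exists_set
  refine ⟨A, fun n => ⟨h1 n, ?_, ?_⟩, ?_⟩
  · intro a ha b hb c hc ab ac bc
    obtain ⟨x, hx, rfl⟩ := h2 n a ha
    obtain ⟨y, hy, rfl⟩ := h2 n b hb
    obtain ⟨z, hz, rfl⟩ := h2 n c hc
    exact not_col hx hy hz (by rintro rfl; exact ab rfl) (by rintro rfl; exact ac rfl)
      (by rintro rfl; exact bc rfl)
  · intro a ha b hb c hc d hd cd
    have hn : 0 < n := by rw [← h1 n]; exact card_pos.2 ⟨a, ha⟩
    obtain ⟨x, hx, rfl⟩ := h2 n a ha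
    obtain ⟨y, hy, rfl⟩ := h2 n b hb
    obtain ⟨z, hz, rfl⟩ := h2 n c hc
    obtain ⟨w, hw, rfl⟩ := h2 n d hd
    have e1 := dist_hi hx hy
    have e2 := dist_lo hz hw (by rintro rfl; exact cd rfl)
    have e3 : (n.sqrt : ℝ) ≤ √n := Real.nat_sqrt_le_real_sqrt
    have e4 : (1 : ℝ) ≤ n.sqrt := by exact_mod_cast Nat.sqrt_pos.2 hn
    rw [h1]
    push_cast at e1
    nlinarith
  · rw [Filter.tendsto_atTop_atTop]
    intro C
    obtain ⟨Pz, hP, hT⟩ := primes_big (8 * 44 * 36 * 36 * |C|)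
    refine ⟨(3 * (Pz.sup id + 1)) ^ 2, fun n hn => ?_⟩
    have hs : 3 * (Pz.sup id + 1) ≤ n.sqrt := Nat.le_sqrt'.2 hn
    set q := n.sqrt / 3 with hq
    have hw := wt_lower (q := q) Pz (fun p hp => ⟨hP p hp, by
      have : p ≤ Pz.sup id := le_sup (f := id) hp
      omega⟩)
    obtain ⟨F0, hF0⟩ := exists_cover (A n)
    obtain ⟨F, hF, e⟩ := Nat.sInf_mem (s := {N | ∃ F : Finset (MPath (A n)), Covers F ∧ F.card = N})
      ⟨_, F0, hF0, rfl⟩
    have hb := cover_bound (q := q) (Nat.succ_pos _) (h2 n) (SS q) (fun e he => by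
      simp only [SS, mem_product, mem_range, mem_Ico] at he
      exact ⟨by omega, by omega, by omega, h3 n _ (by omega) (by omega),
        h3 n _ (by omega) (by omega)⟩) hF
    rw [e] at hb
    change _ ≤ mc (A n) * _ at hb
    have a1 : (n.sqrt + 1) ^ 2 ≤ 36 * q ^ 2 := by
      have : n.sqrt + 1 ≤ 6 * q := by omega
      nlinarith
    have a2 : n ≤ 36 * q ^ 2 := (Nat.lt_succ_sqrt' n).le.trans a1
    have a3 : ((∑ e ∈ SS q, kk e.1 e.2 : ℕ) : ℝ) ≤ mc (A n) * (44 * (36 * q ^ 2)) := by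
      exact_mod_cast hb.trans (Nat.mul_le_mul_left _ (Nat.mul_le_mul_left _ a1))
    have q0 : (0 : ℝ) < q := by exact_mod_cast (by omega : 0 < q)
    have n0 : (0 : ℝ) < n := by exact_mod_cast lt_of_lt_of_le (by positivity) hn
    have a4 : (n : ℝ) ≤ 36 * q ^ 2 := by exact_mod_cast a2
    have a5 := mul_le_mul_of_nonneg_left hT (show (0 : ℝ) ≤ q ^ 4 / 8 by positivity)
    have a6 : (36 * q ^ 2 * |C|) * (44 * (36 * q ^ 2)) ≤ (mc (A n) : ℝ) * (44 * (36 * q ^ 2)) := by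
      nlinarith
    have a7 := le_of_mul_le_mul_right a6 (by positivity)
    rw [le_div_iff₀ n0]
    nlinarith [le_abs_self C, abs_nonneg C]

end Pool.Agent.H10.Mpc
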