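import Mathlib

namespace Pool.Agent.H10.Mpc

abbrev E := EuclideanSpace ℝ (Fin 2)

/-- A monotone path on `A` with vertices `v 0, …, v t` (and `t` edges). -/
structure MPath (A : Finset E) where
  t : ℕ
  v : ℕ → E
  mem : ∀ i ≤ t, v i ∈ A
  mono : ∃ u : E, u ≠ 0 ∧ ∀ i < t, 0 < inner ℝ (v (i + 1) - v i) u

/-- Every edge of the complete geometric graph on `A` is an edge of a path of `F`. -/
def Covers {A : Finset E} (F : Finset (MPath A)) : Prop :=
  ∀ a ∈ A, ∀ b ∈ A, a ≠ b → ∃ p ∈ F, ∃ i < p.t,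
    (p.v i = a ∧ p.v (i + 1) = b) ∨ (p.v i = b ∧ p.v (i + 1) = a)

/-- The least size of a covering family of monotone paths. -/
noncomputable def mc (A : Finset E) : ℕ :=
  sInf {N | ∃ F : Finset (MPath A), Covers F ∧ F.card = N}

/-- No three points of `A` are collinear. -/
def GenPos (A : Finset E) : Prop :=
  ∀ a ∈ A, ∀ b ∈ A, ∀ c ∈ A, a ≠ b → a ≠ c → b ≠ c → ¬ Collinear ℝ {a, b, c}

/-- The largest pairwise distance is at most `α √|A|` times the smallest one. -/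
def IsDense (α : ℝ) (A : Finset E) : Prop :=
  ∀ a ∈ A, ∀ b ∈ A, ∀ c ∈ A, ∀ d ∈ A, c ≠ d → dist a b ≤ α * √(A.card) * dist c d

end Pool.Agent.H10.Mpc
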