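import Pool.Agent.H10.MvDefs

namespace Pool.Agent.H10.Mv

open Finset

variable {d k : ℕ}

def Cvx (V : Finset (Pt d k)) : Prop :=
  ∀ v ∈ V, emb v ∉ convexHull ℝ (emb '' ((V.erase v : Finset (Pt d k)) : Set (Pt d k)))

lemma emb_inj : Function.Injective (emb : Pt d k → _) := by
  intro x y h
  funext i
  have := congrFun h i
  simp only [emb, Nat.cast_inj] at this
  exact Fin.ext this

lemma Cvx.mono {V W : Finset (Pt d k)} (h : Cvx V) (hW : W ⊆ V) : Cvx W := fun v hv hc =>
  h v (hW hv) (convexHull_mono (Set.image_mono (coe_subset.mpr (erase_subset_erase v hW))) hc)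

lemma span_mono {s t : Set (Fin d → ℝ)} (h : affineSpan ℝ s = ⊤) (hst : s ⊆ t) :
    affineSpan ℝ t = ⊤ := top_le_iff.mp (h ▸ affineSpan_mono ℝ hst)

lemma deg_ge (P : Poly d k) : P.1.card ≤ ((Lam d k).neighborSet P).ncard + (d + 1) := by
  classical
  obtain ⟨t, ht, hsp, hind⟩ := exists_affineIndependent ℝ (Fin d → ℝ) (emb '' (P.1 : Set (Pt d k)))
  rw [P.2.2] at hsp
  have htf : t.Finite := (P.1.finite_toSet.image _).subset ht
  have := htf.fintype
  have h1 : Fintype.card t ≤ d + 1 := by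
    have h2 : Fintype.card t ≤
        Module.finrank ℝ (vectorSpan ℝ (Set.range ((↑) : t → (Fin d → ℝ)))) + 1 := by
      convert hind.card_le_finrank_succ
    have h3 := Submodule.finrank_le (vectorSpan ℝ (Set.range ((↑) : t → (Fin d → ℝ))))
    rw [Module.finrank_fin_fun] at h3
    omega
  have h2 : (P.1.filter (fun v => emb v ∈ t)).card ≤ d + 1 := by
    refine le_trans ?_ h1
    rw [← Set.toFinset_card]
    exact card_le_card_of_injOn emb (fun v hv => by simpa using (mem_filter.mp hv).2)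
      (emb_inj.injOn)
  have hp : ∀ v ∈ P.1.filter (fun v => emb v ∉ t), IsPoly (P.1.erase v) := by
    intro v hv
    refine ⟨Cvx.mono P.2.1 (erase_subset _ _), span_mono hsp fun y hy => ?_⟩
    obtain ⟨w, hw, rfl⟩ := ht hy
    refine ⟨w, ?_, rfl⟩
    simp only [coe_erase, Set.mem_sdiff, Set.mem_singleton_iff]
    exact ⟨hw, fun h => (mem_filter.mp hv).2 (h ▸ hy)⟩
  have h3 : (P.1.filter (fun v => emb v ∉ t)).card ≤ ((Lam d k).neighborSet P).ncard := by
    rw [← Set.ncard_coe_finset]
    refine Set.ncard_le_ncard_of_injOn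
      (fun v => if h : IsPoly (P.1.erase v) then (⟨_, h⟩ : Poly d k) else P) ?_ ?_
    · intro v hv
      rw [dif_pos (hp v hv)]
      exact Or.inr ⟨v, notMem_erase _ _, (insert_erase (mem_filter.mp hv).1).symm⟩
    · intro v hv w hw h
      simp only [dif_pos (hp v hv), dif_pos (hp w hw), Subtype.mk.injEq] at h
      exact erase_injOn P.1 (mem_filter.mp hv).1 (mem_filter.mp hw).1 h
  have h4 := card_filter_add_card_filter_not (s := P.1) (fun v => emb v ∈ t)
  omega

lemma adj_c {P Q : Poly d k} (c : Pt d k) (h : (Lam d k).Adj P Q) (hP : c ∈ P.1)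
    (hQ : c ∉ Q.1) : P.1 = insert c Q.1 := by
  rcases h with ⟨x, _, h⟩ | ⟨x, _, h⟩
  · exact absurd (h ▸ mem_insert_of_mem hP) hQ
  · rw [h] at hP
    rcases mem_insert.mp hP with h1 | h1
    · rw [h, h1]
    · exact absurd h1 hQ

lemma cut_le (c : Pt d k) (T : Finset (Poly d k))
    (hT : (∀ P, P ∈ T ↔ c ∈ P.1) ∨ (∀ P, P ∈ T ↔ c ∉ P.1)) : cut (Lam d k) T ≤ T.card := by
  unfold cut
  rw [← Set.ncard_coe_finset]
  refine Set.ncard_le_ncard_of_injOn Prod.fst (fun p hp => hp.1) ?_
  rintro ⟨P, Q⟩ ⟨h1, h2, h3⟩ ⟨P', Q'⟩ ⟨h1', h2', h3'⟩ h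
  simp only at h h1 h2 h3 h1' h2' h3'
  subst h
  refine Prod.ext rfl (Subtype.ext ?_)
  rcases hT with hT | hT
  · rw [hT] at h1 h2 h2'
    have e1 := adj_c c h3 h1 h2
    have e2 := adj_c c h3' h1 h2'
    show Q.1 = Q'.1
    rw [← erase_insert h2, ← erase_insert h2', ← e1, ← e2]
  · rw [hT] at h1 h2 h2'
    have e1 := adj_c c h3.symm (not_not.mp h2) h1
    have e2 := adj_c c h3'.symm (not_not.mp h2') h1
    show Q.1 = Q'.1
    rw [e1, e2]

lemma small_le (m : ℕ) (T : Finset (Poly d k)) :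
    (T.filter (fun P => P.1.card ≤ m)).card ≤ (m + 1) * ((k + 1) ^ d) ^ m := by
  classical
  have h1 : (T.filter (fun P => P.1.card ≤ m)).card ≤
      ((range (m + 1)).biUnion (fun j => powersetCard j (univ : Finset (Pt d k)))).card := by
    refine card_le_card_of_injOn Subtype.val (fun P hP => ?_) Subtype.val_injective.injOn
    have := (mem_filter.mp hP).2
    simp only [coe_biUnion, coe_range, Set.mem_Iio, Set.mem_iUnion, mem_coe, mem_powersetCard]
    exact ⟨P.1.card, by omega, subset_univ _, rfl⟩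
  refine h1.trans (card_biUnion_le.trans ?_)
  have h2 : ∀ j ∈ range (m + 1), (powersetCard j (univ : Finset (Pt d k))).card ≤
      ((k + 1) ^ d) ^ m := by
    intro j hj
    rw [card_powersetCard, card_univ]
    have h3 : Fintype.card (Pt d k) = (k + 1) ^ d := by simp
    rw [h3]
    exact (Nat.choose_le_pow _ _).trans (Nat.pow_le_pow_right (by positivity)
      (by have := mem_range.mp hj; omega))
  simpa using sum_le_card_nsmul _ _ _ h2

lemma many (C B D : Finset (Pt d k)) (hC : Cvx C) (hBC : B ⊆ C) (hDC : D ⊆ C)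
    (hBD : Disjoint B D) (hB : affineSpan ℝ (emb '' (B : Set (Pt d k))) = ⊤)
    (T : Finset (Poly d k)) (hT : ∀ P : Poly d k, B ⊆ P.1 → P.1 ⊆ B ∪ D → P ∈ T) :
    2 ^ D.card ≤ T.card := by
  classical
  have hp : ∀ A ∈ D.powerset, IsPoly (B ∪ A) := fun A hA =>
    ⟨hC.mono (union_subset hBC ((mem_powerset.mp hA).trans hDC)),
      span_mono hB (Set.image_mono (coe_subset.mpr subset_union_left))⟩
  have hB0 : IsPoly B := ⟨hC.mono hBC, hB⟩
  rw [← card_powerset]
  refine card_le_card_of_injOn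
    (fun A => if h : IsPoly (B ∪ A) then (⟨_, h⟩ : Poly d k) else ⟨B, hB0⟩) ?_ ?_
  · intro A hA
    simp only [dif_pos (hp A hA)]
    exact hT _ subset_union_left (union_subset_union_right (mem_powerset.mp hA))
  · intro A hA A' hA' h
    simp only [dif_pos (hp A hA), dif_pos (hp A' hA'), Subtype.mk.injEq] at h
    have e1 := union_sdiff_cancel_left (hBD.mono_right (mem_powerset.mp hA))
    have e2 := union_sdiff_cancel_left (hBD.mono_right (mem_powerset.mp hA'))
    rw [← e1, ← e2, h]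

lemma vol_ge (M : ℕ) (T : Finset (Poly d k))
    (hT : 2 * ((d + M + 1) * ((k + 1) ^ d) ^ (d + M)) ≤ T.card) :
    M * T.card ≤ 2 * vol (Lam d k) T := by
  classical
  have h1 := small_le (d + M) T
  have h2 := card_filter_add_card_filter_not (s := T) (fun P => P.1.card ≤ d + M)
  have h3 : (T.filter (fun P => ¬ P.1.card ≤ d + M)).card * M ≤ vol (Lam d k) T := by
    refine le_trans ?_ (sum_le_sum_of_subset (filter_subset (fun P => ¬ P.1.card ≤ d + M) T))
    refine card_nsmul_le_sum _ _ _ fun P hP => ?_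
    have := deg_ge P
    have := (mem_filter.mp hP).2
    omega
  have h4 : T.card ≤ 2 * (T.filter (fun P => ¬ P.1.card ≤ d + M)).card := by omega
  nlinarith

lemma phi_nonneg {α : Type} [Finite α] (G : SimpleGraph α) : 0 ≤ Phi G :=
  Real.sInf_nonneg (by rintro r ⟨S, -, -, rfl⟩; positivity)

theorem main (M : ℕ) (hM : 0 < M) (C B : Finset (Pt d k)) (hC : Cvx C) (hBC : B ⊆ C)
    (hB : affineSpan ℝ (emb '' (B : Set (Pt d k))) = ⊤) (hBc : B.card ≤ d + 1)
    (hbig : 2 * ((d + M + 1) * ((k + 1) ^ d) ^ (d + M)) * 2 ^ (d + 2) ≤ 2 ^ C.card) :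
    Phi (Lam d k) ≤ 2 / M := by
  classical
  letI := Fintype.ofFinite (Poly d k)
  have hpos : 0 < 2 * ((d + M + 1) * ((k + 1) ^ d) ^ (d + M)) := by positivity
  have hcard : d + 2 ≤ C.card := by
    refine (Nat.pow_le_pow_iff_right (by norm_num : 1 < 2)).mp (le_trans ?_ hbig)
    exact Nat.le_mul_of_pos_left _ hpos
  obtain ⟨c, hcC, hcB⟩ := exists_mem_notMem_of_card_lt_card (s := B) (t := C) (by omega)
  have hD : C.card ≤ (C \ insert c B).card + (d + 2) := by
    have h1 := le_card_sdiff (insert c B) C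
    have h2 := card_insert_le c B
    omega
  have hD2 : 2 * ((d + M + 1) * ((k + 1) ^ d) ^ (d + M)) ≤ 2 ^ (C \ insert c B).card := by
    have h1 := hbig.trans (Nat.pow_le_pow_right (by norm_num) hD)
    rw [pow_add 2 (C \ insert c B).card] at h1
    exact Nat.le_of_mul_le_mul_right h1 (by positivity)
  have key : ∀ T : Finset (Poly d k), ((∀ P, P ∈ T ↔ c ∈ P.1) ∨ (∀ P, P ∈ T ↔ c ∉ P.1)) →
      2 * vol (Lam d k) T ≤ vol (Lam d k) univ → Phi (Lam d k) ≤ 2 / M := by
    intro T hT hv
    have h1 : 2 ^ (C \ insert c B).card ≤ T.card := by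
      rcases hT with hT | hT
      · refine many C (insert c B) _ hC (insert_subset hcC hBC) sdiff_subset disjoint_sdiff
          (span_mono hB (Set.image_mono (coe_subset.mpr (subset_insert _ _)))) T
          fun P h _ => (hT P).mpr (h (mem_insert_self _ _))
      · refine many C B _ hC hBC sdiff_subset
          (disjoint_sdiff.mono_left (subset_insert _ _)) hB T fun P _ h => (hT P).mpr fun hc => ?_
        have := h hc
        simp [hcB] at this
    have h2 := vol_ge M T (hD2.trans h1)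
    have h3 := cut_le c T hT
    have h4 : 0 < T.card := lt_of_lt_of_le (by positivity) h1
    have h5 : 0 < vol (Lam d k) T := by
      have : 0 < M * T.card := Nat.mul_pos hM h4
      omega
    refine le_trans (csInf_le ⟨0, by rintro r ⟨S, -, -, rfl⟩; positivity⟩
      ⟨T, card_pos.mp h4, hv, rfl⟩) ?_
    rw [div_le_div_iff₀ (by exact_mod_cast h5) (by exact_mod_cast hM)]
    have : cut (Lam d k) T * M ≤ 2 * vol (Lam d k) T := by nlinarith
    exact_mod_cast this
  have hs : vol (Lam d k) (univ.filter (fun P => c ∈ P.1)) +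
      vol (Lam d k) (univ.filter (fun P => c ∉ P.1)) = vol (Lam d k) univ :=
    sum_filter_add_sum_filter_not _ _ _
  by_cases h : 2 * vol (Lam d k) (univ.filter (fun P => c ∈ P.1)) ≤ vol (Lam d k) univ
  · exact key _ (Or.inl (by simp)) h
  · exact key (univ.filter (fun P => c ∉ P.1)) (Or.inr (by simp)) (by omega)

end Pool.Agent.H10.Mv
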