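import Pool.Agent.H10.MvA

namespace Pool.Agent.H10.Mv

open Finset Filter

variable {d k : ℕ}

lemma cvx_of (C : Finset (Pt d k))
    (h : ∀ v ∈ C, ∃ a : Fin d → ℝ, ∀ w ∈ C, w ≠ v → ∑ i, a i * emb w i < ∑ i, a i * emb v i) :
    Cvx C := by
  intro v hv hc
  obtain ⟨a, ha⟩ := h v hv
  have hl : IsLinearMap ℝ (fun y : Fin d → ℝ => ∑ i, a i * y i) :=
    ⟨fun x y => by simp [mul_add, sum_add_distrib],
     fun c x => by simp [mul_sum, mul_left_comm]⟩
  have := convexHull_min (t := {y | ∑ i, a i * y i < ∑ i, a i * emb v i}) (by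
    rintro _ ⟨w, hw, rfl⟩
    have hw' := mem_erase.mp hw
    exact ha w hw'.2 hw'.1) (convex_halfSpace_lt hl _) hc
  have h2 : ∑ i, a i * emb v i < ∑ i, a i * emb v i := this
  exact lt_irrefl _ h2

/-- unit vector -/
def ue (hk : 1 ≤ k) (j : Fin d) : Pt d k := fun i => if i = j then ⟨1, by omega⟩ else 0

lemma emb_ue (hk : 1 ≤ k) (j : Fin d) : emb (ue hk j) = Pi.single j 1 := by
  funext i
  by_cases h : i = j
  · subst h; simp [emb, ue]
  · simp [emb, ue, h]

lemma emb_zero : emb (0 : Pt d k) = 0 := by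
  funext i; simp [emb]

def base (d : ℕ) (hk : 1 ≤ k) : Finset (Pt d k) := insert 0 (univ.image (ue hk))

lemma base_card (hk : 1 ≤ k) : (base d hk).card ≤ d + 1 := by
  refine (card_insert_le _ _).trans ?_
  have := card_image_le (s := (univ : Finset (Fin d))) (f := ue hk)
  simpa using this

lemma base_span (hk : 1 ≤ k) : affineSpan ℝ (emb '' (base d hk : Set (Pt d k))) = ⊤ := by
  have h0 : (0 : Fin d → ℝ) ∈ affineSpan ℝ (emb '' (base d hk : Set (Pt d k))) :=
    subset_affineSpan _ _ ⟨0, by simp [base], emb_zero⟩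
  rw [← AffineSubspace.direction_eq_top_iff_of_nonempty ⟨_, h0⟩, eq_top_iff,
    ← (Pi.basisFun ℝ (Fin d)).span_eq, Submodule.span_le]
  rintro _ ⟨j, rfl⟩
  have h1 : Pi.single j (1 : ℝ) ∈ affineSpan ℝ (emb '' (base d hk : Set (Pt d k))) :=
    subset_affineSpan _ _ ⟨ue hk j, by simp [base], emb_ue hk j⟩
  have := AffineSubspace.vsub_mem_direction h1 h0
  simpa using this

lemma poly_exp (A r : ℕ) : ∀ᶠ n : ℕ in atTop, A * (n + 1) ^ r ≤ 2 ^ n := by
  have h := (tendsto_pow_const_div_const_pow_of_one_lt r (by norm_num : (1 : ℝ) < 2)).comp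
    (tendsto_add_atTop_nat 1)
  have h2 := h.eventually (gt_mem_nhds (by positivity : (0 : ℝ) < 1 / (2 * (A + 1))))
  filter_upwards [h2] with n hn
  simp only [Function.comp] at hn
  rw [div_lt_div_iff₀ (by positivity) (by positivity), pow_succ] at hn
  have h3 : (A : ℝ) * (n + 1) ^ r ≤ 2 ^ n := by
    push_cast at hn
    have : (0 : ℝ) ≤ (n + 1) ^ r := by positivity
    nlinarith
  exact_mod_cast h3

lemma tends {f : ℕ → ℝ} (h0 : ∀ n, 0 ≤ f n)
    (h : ∀ M : ℕ, 0 < M → ∀ᶠ n in atTop, f n ≤ 2 / M) : Tendsto f atTop (nhds 0) := by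
  refine tendsto_order.mpr ⟨fun a ha => Eventually.of_forall fun n => ha.trans_le (h0 n),
    fun a ha => ?_⟩
  obtain ⟨M, hM⟩ := exists_nat_gt (2 / a)
  have hM0 : (0 : ℝ) < M := lt_trans (by positivity) hM
  filter_upwards [h M (by exact_mod_cast hM0)] with n hn
  refine hn.trans_lt ?_
  rw [div_lt_iff₀ hM0]
  rw [div_lt_iff₀ ha] at hM
  linarith

/-- points with coordinates 0 or 1 -/
def bin (hk : 1 ≤ k) (b : Fin d → Bool) : Pt d k := fun i => if b i then ⟨1, by omega⟩ else 0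

lemma bin_inj (hk : 1 ≤ k) : Function.Injective (bin (d := d) hk) := by
  intro b b' h
  funext i
  have := congrArg Fin.val (congrFun h i)
  simp only [bin] at this
  cases hb : b i <;> cases hb' : b' i <;> simp_all

lemma cube_cvx (hk : 1 ≤ k) : Cvx (univ.image (bin (d := d) hk)) := by
  refine cvx_of _ fun v hv => ?_
  obtain ⟨b, -, rfl⟩ := mem_image.mp hv
  refine ⟨fun i => if b i then 1 else -1, fun w hw hne => ?_⟩
  obtain ⟨b', -, rfl⟩ := mem_image.mp hw
  obtain ⟨i, hi⟩ := Function.ne_iff.mp (fun h => hne (congrArg _ h) : b' ≠ b)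
  refine sum_lt_sum (fun j _ => ?_) ⟨i, mem_univ _, ?_⟩
  · simp only [emb, bin]
    cases b j <;> cases b' j <;> simp
  · simp only [emb, bin]
    revert hi
    cases b i <;> cases b' i <;> simp

theorem tends_d (hk : 1 ≤ k) : Tendsto (fun d => Phi (Lam d k)) atTop (nhds 0) := by
  refine tends (fun _ => phi_nonneg _) fun M hM => ?_
  filter_upwards [poly_exp (k * (M + 1) + M + 4) 2] with d hd
  refine main M hM _ (base d hk) (cube_cvx hk) ?_ (base_span hk) (base_card hk) ?_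
  · intro x hx
    rcases mem_insert.mp hx with rfl | hx
    · exact mem_image.mpr ⟨fun _ => false, mem_univ _, by funext i; simp [bin]⟩
    · obtain ⟨j, -, rfl⟩ := mem_image.mp hx
      exact mem_image.mpr ⟨fun i => decide (i = j), mem_univ _, by funext i; simp [bin, ue]⟩
  · rw [card_image_of_injective _ (bin_inj hk)]
    have h1 : (univ : Finset (Fin d → Bool)).card = 2 ^ d := by simp
    rw [h1]
    have h2 : d + M + 1 ≤ 2 ^ (d + M) := Nat.lt_two_pow_self
    have h3 : k + 1 ≤ 2 ^ k := Nat.lt_two_pow_self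
    calc 2 * ((d + M + 1) * ((k + 1) ^ d) ^ (d + M)) * 2 ^ (d + 2)
        ≤ 2 * (2 ^ (d + M) * ((2 ^ k) ^ d) ^ (d + M)) * 2 ^ (d + 2) := by gcongr
      _ = 2 ^ (1 + (d + M) + k * d * (d + M) + (d + 2)) := by
          rw [← pow_mul, ← pow_mul]
          ring
      _ ≤ 2 ^ 2 ^ d := by
          refine Nat.pow_le_pow_right (by norm_num) (le_trans ?_ hd)
          have e : (k * (M + 1) + M + 4) * (d + 1) ^ 2 =
              1 + (d + M) + k * d * (d + M) + (d + 2) + (k * M * d * d + k * M * d + k * M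
                + 2 * k * d + k + M * d * d + 2 * M * d + 4 * d * d + 6 * d + 1) := by ring
          omega

/-- points on a parabola -/
def par (e n : ℕ) (hn : n * n ≤ k) (i : Fin (n + 1)) : Pt (e + 2) k := fun j =>
  if j = 0 then ⟨i, by have := i.2; nlinarith⟩ else if j = 1 then
    ⟨i * (i - 1), by
      have h1 : (i : ℕ) ≤ n := by have := i.2; omega
      have h2 : (i : ℕ) * (i - 1) ≤ n * n := Nat.mul_le_mul h1 (by omega)
      omega⟩ else 0

lemma sum_par (e n : ℕ) (hn : n * n ≤ k) (i : Fin (n + 1)) (a : Fin (e + 2) → ℝ) :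
    ∑ j, a j * emb (par e n hn i) j = a 0 * (i : ℕ) + a 1 * ((i : ℕ) ^ 2 - (i : ℕ)) := by
  rw [Fin.sum_univ_succ, Fin.sum_univ_succ]
  have h1 : ∀ j : Fin e, emb (par e n hn i) j.succ.succ = 0 := fun j => by
    have h2 : j.succ.succ ≠ 1 := fun h => Fin.succ_ne_zero j (Fin.succ_injective _ h)
    simp [emb, par, h2]
  have h2 : (((i : ℕ) * (i - 1) : ℕ) : ℝ) = (i : ℕ) ^ 2 - (i : ℕ) := by
    rcases (i : ℕ) with _ | m
    · simp
    · simp only [Nat.add_sub_cancel]
      push_cast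
      ring
  simp only [h1, mul_zero, sum_const_zero, add_zero]
  rw [← h2]
  simp [emb, par]

lemma sum_ue (hk : 1 ≤ k) (j : Fin d) (a : Fin d → ℝ) : ∑ l, a l * emb (ue hk j) l = a j := by
  rw [emb_ue]
  simp [Pi.single_apply]

lemma par_inj (e n : ℕ) (hn : n * n ≤ k) : Function.Injective (par e n hn) := by
  intro i i' h
  have := congrArg Fin.val (congrFun h 0)
  simp only [par, if_true] at this
  exact Fin.ext this

lemma par_cvx (e n : ℕ) (hn : n * n ≤ k) (hk : 1 ≤ k) :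
    Cvx (univ.image (par e n hn) ∪ (univ.erase 0).image (ue hk)) := by
  refine cvx_of _ fun v hv => ?_
  rcases mem_union.mp hv with hv | hv
  · obtain ⟨i, -, rfl⟩ := mem_image.mp hv
    refine ⟨fun j => if j = 0 then 2 * ((i : ℕ) : ℝ) - 1 else -1, fun w hw hne => ?_⟩
    rw [sum_par]
    rcases mem_union.mp hw with hw | hw
    · obtain ⟨i', -, rfl⟩ := mem_image.mp hw
      rw [sum_par]
      have h1 : ((i' : ℕ) : ℝ) ≠ (i : ℕ) := fun h =>
        hne (congrArg _ (Fin.ext (by exact_mod_cast h)))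
      have h2 := sq_pos_of_ne_zero (sub_ne_zero.mpr h1)
      simp only [if_true, one_ne_zero, if_false]
      nlinarith
    · obtain ⟨j, hj, rfl⟩ := mem_image.mp hw
      rw [sum_ue]
      simp only [if_true, one_ne_zero, if_false, (mem_erase.mp hj).1]
      nlinarith [sq_nonneg ((i : ℕ) : ℝ)]
  · obtain ⟨j, hj, rfl⟩ := mem_image.mp hv
    have hj0 := (mem_erase.mp hj).1
    refine ⟨fun l => if l = 0 then -(n : ℝ) else if l = j then 1 else 0, fun w hw hne => ?_⟩
    rw [sum_ue]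
    simp only [hj0, if_false, if_true]
    rcases mem_union.mp hw with hw | hw
    · obtain ⟨i, -, rfl⟩ := mem_image.mp hw
      rw [sum_par]
      have h1 : ((i : ℕ) : ℝ) ≤ n := by exact_mod_cast Nat.lt_succ_iff.mp i.2
      have h2 : (0 : ℝ) ≤ (i : ℕ) := by positivity
      simp only [if_true, one_ne_zero, if_false]
      split_ifs <;> nlinarith
    · obtain ⟨l, hl, rfl⟩ := mem_image.mp hw
      rw [sum_ue]
      have h1 : l ≠ j := fun h => hne (congrArg _ h)
      simp [(mem_erase.mp hl).1, h1]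

theorem tends_k (hd : 2 ≤ d) : Tendsto (fun k => Phi (Lam d k)) atTop (nhds 0) := by
  obtain ⟨e, rfl⟩ := Nat.exists_eq_add_of_le' hd
  refine tends (fun _ => phi_nonneg _) fun M hM => ?_
  obtain ⟨n0, hn0⟩ := eventually_atTop.mp
    (poly_exp (2 * (e + 2 + M + 1) * 2 ^ (e + 2 + 2)) (2 * (e + 2) * (e + 2 + M)))
  filter_upwards [eventually_ge_atTop ((n0 + 1) * (n0 + 1))] with k hk
  have hk1 : 1 ≤ k := le_trans (Nat.mul_pos (by omega) (by omega)) hk
  have hn : Nat.sqrt k * Nat.sqrt k ≤ k := Nat.sqrt_le k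
  have hn1 : n0 + 1 ≤ Nat.sqrt k := Nat.le_sqrt.mpr hk
  have hn2 : k + 1 ≤ (Nat.sqrt k + 1) ^ 2 := Nat.lt_succ_sqrt' k
  refine main M hM _ (base (e + 2) hk1) (par_cvx e _ hn hk1) ?_ (base_span hk1) (base_card hk1) ?_
  · intro x hx
    rcases mem_insert.mp hx with rfl | hx
    · refine mem_union_left _ (mem_image.mpr ⟨0, mem_univ _, ?_⟩)
      funext j
      simp [par]
    · obtain ⟨j, -, rfl⟩ := mem_image.mp hx
      by_cases hj : j = 0
      · subst hj
        refine mem_union_left _ (mem_image.mpr ⟨⟨1, by omega⟩, mem_univ _, ?_⟩)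
        funext j
        by_cases h : j = 0 <;> simp [par, ue, h]
      · exact mem_union_right _ (mem_image.mpr ⟨j, by simp [hj], rfl⟩)
  · have h1 : Nat.sqrt k + 1 ≤ (univ.image (par e _ hn) ∪ (univ.erase 0).image (ue hk1)).card := by
      refine le_trans ?_ (card_le_card subset_union_left)
      rw [card_image_of_injective _ (par_inj e _ hn)]
      simp
    calc 2 * ((e + 2 + M + 1) * ((k + 1) ^ (e + 2)) ^ (e + 2 + M)) * 2 ^ (e + 2 + 2)
        ≤ 2 * ((e + 2 + M + 1) * (((Nat.sqrt k + 1) ^ 2) ^ (e + 2)) ^ (e + 2 + M))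
          * 2 ^ (e + 2 + 2) := by gcongr
      _ = 2 * (e + 2 + M + 1) * 2 ^ (e + 2 + 2) * (Nat.sqrt k + 1) ^ (2 * (e + 2) * (e + 2 + M)) := by
          rw [← pow_mul, ← pow_mul]
          ring
      _ ≤ 2 ^ Nat.sqrt k := hn0 _ (by omega)
      _ ≤ _ := Nat.pow_le_pow_right (by norm_num) (by omega)

end Pool.Agent.H10.Mv
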