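import Mathlib

namespace Pool.Agent.H10.Mv

open Finset

/-- Lattice points of the cube `[0,k]^d`. -/
abbrev Pt (d k : ℕ) := Fin d → Fin (k + 1)

/-- The point of `ℝ^d` with these integer coordinates. -/
def emb {d k : ℕ} (x : Pt d k) : Fin d → ℝ := fun i => ((x i : ℕ) : ℝ)

/-- `V` is the vertex set of a `d`-dimensional lattice polytope in `[0,k]^d`: no point of `V`
lies in the convex hull of the others, and `V` affinely spans `ℝ^d`. -/
def IsPoly {d k : ℕ} (V : Finset (Pt d k)) : Prop :=
  (∀ v ∈ V, emb v ∉ convexHull ℝ (emb '' ((V.erase v : Finset (Pt d k)) : Set (Pt d k)))) ∧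
    affineSpan ℝ (emb '' (V : Set (Pt d k))) = ⊤

/-- The `d`-dimensional lattice polytopes in `[0,k]^d`, recorded by their vertex sets. -/
abbrev Poly (d k : ℕ) := {V : Finset (Pt d k) // IsPoly V}

/-- The move graph: two polytopes are adjacent when the vertex set of one is the vertex set of
the other together with one new point. -/
def Lam (d k : ℕ) : SimpleGraph (Poly d k) where
  Adj P Q := (∃ x ∉ P.1, Q.1 = insert x P.1) ∨ (∃ x ∉ Q.1, P.1 = insert x Q.1)
  symm := ⟨fun _ _ h => h.symm⟩
  loopless := ⟨fun P h => by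
    rcases h with ⟨x, hx, h⟩ | ⟨x, hx, h⟩ <;> exact hx (h ▸ mem_insert_self x _)⟩

/-- The sum of the degrees over `S`. -/
noncomputable def vol {α : Type} (G : SimpleGraph α) (S : Finset α) : ℕ :=
  ∑ v ∈ S, (G.neighborSet v).ncard

/-- The number of edges between `S` and its complement. -/
noncomputable def cut {α : Type} (G : SimpleGraph α) (S : Finset α) : ℕ :=
  {p : α × α | p.1 ∈ S ∧ p.2 ∉ S ∧ G.Adj p.1 p.2}.ncard

/-- The conductance of a finite graph. -/
noncomputable def Phi {α : Type} [Finite α] (G : SimpleGraph α) : ℝ :=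
  sInf {r : ℝ | ∃ S : Finset α, S.Nonempty ∧
    2 * vol G S ≤ vol G (@univ α (Fintype.ofFinite α)) ∧ r = (cut G S : ℝ) / vol G S}

end Pool.Agent.H10.Mv
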