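import Pool.Agent.H10.NspDefs

namespace Pool.Agent.H10.Nsp
open Finset

theorem fin_set (n : ℕ) : {t : Multiset ℕ | 0 ∉ t ∧ t.sum ≤ n}.Finite := by
  refine (Set.finite_iUnion (fun k : Fin (n + 1) =>
    Set.finite_range (fun p : Nat.Partition k => p.parts))).subset ?_
  rintro t ⟨h0, hs⟩
  refine Set.mem_iUnion.2 ⟨⟨t.sum, by omega⟩, ⟨⟨t, ?_, rfl⟩, rfl⟩⟩
  intro i hi
  exact Nat.pos_of_ne_zero (fun h => h0 (h ▸ hi))

noncomputable def U (n j : ℕ) : Finset (Multiset ℕ) :=
  (fin_set n).toFinset.filter (fun t => t.sum + j ≤ n)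

noncomputable def T (n j : ℕ) : Finset (Multiset ℕ) :=
  (fin_set n).toFinset.filter (fun t => t.sum + j = n)

theorem mem_U {n j : ℕ} {t : Multiset ℕ} : t ∈ U n j ↔ 0 ∉ t ∧ t.sum + j ≤ n := by
  simp only [U, mem_filter, Set.Finite.mem_toFinset, Set.mem_setOf_eq]
  constructor
  · rintro ⟨⟨a, _⟩, c⟩; exact ⟨a, c⟩
  · rintro ⟨a, c⟩; exact ⟨⟨a, by omega⟩, c⟩

theorem mem_T {n j : ℕ} {t : Multiset ℕ} : t ∈ T n j ↔ 0 ∉ t ∧ t.sum + j = n := by
  simp only [T, mem_filter, Set.Finite.mem_toFinset, Set.mem_setOf_eq]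
  constructor
  · rintro ⟨⟨a, _⟩, c⟩; exact ⟨a, c⟩
  · rintro ⟨a, c⟩; exact ⟨⟨a, by omega⟩, c⟩

theorem P_eq (n : ℕ) : P n = (U n 0).card := by
  rw [P, Set.ncard_eq_toFinset_card _ (fin_set n)]
  congr 1
  ext t
  simp [mem_U]

theorem U_succ (n j : ℕ) : U (n + 1) (j + 1) = U n j := by
  ext t; simp only [mem_U]; constructor <;> rintro ⟨a, b⟩ <;> exact ⟨a, by omega⟩

theorem split (n j : ℕ) : (U n j).card = (T n j).card + (U n (j + 1)).card := by
  rw [← card_union_of_disjoint]
  · congr 1
    ext t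
    simp only [mem_union, mem_U, mem_T]
    constructor
    · rintro ⟨a, b⟩
      by_cases h : t.sum + j = n
      · exact Or.inl ⟨a, h⟩
      · exact Or.inr ⟨a, by omega⟩
    · rintro (⟨a, b⟩ | ⟨a, b⟩) <;> exact ⟨a, by omega⟩
  · rw [disjoint_left]
    intro t h1 h2
    have := (mem_T.1 h1).2
    have := (mem_U.1 h2).2
    omega

theorem split_sum (n j M : ℕ) :
    ∑ k ∈ range M, (T n (j + k)).card + (U n (j + M)).card = (U n j).card := by
  induction M with
  | zero => simp
  | succ M ih =>
    rw [sum_range_succ, ← ih, split n (j + M)]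
    have : j + (M + 1) = j + M + 1 := by ring
    rw [this]; ring

theorem T_anti (n j : ℕ) : (T n (j + 1)).card ≤ (T n j).card := by
  refine card_le_card_of_injOn (fun t => 1 ::ₘ t) ?_ ?_
  · intro t ht
    obtain ⟨a, b⟩ := mem_T.1 ht
    refine mem_T.2 ⟨by simpa using a, ?_⟩
    rw [Multiset.sum_cons]; omega
  · intro a _ b _ h
    exact (Multiset.cons_inj_right 1).1 h

theorem T_anti' (n : ℕ) : Antitone (fun j => (T n j).card) :=
  antitone_nat_of_succ_le (T_anti n)

theorem distinct_le {t : Multiset ℕ} {r : ℕ} (h0 : 0 ∉ t) (hs : t.sum ≤ r ^ 2) :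
    t.toFinset.card ≤ 2 * r := by
  have h1 : (t.toFinset.filter (fun x => x ≤ r)).card ≤ r := by
    have : t.toFinset.filter (fun x => x ≤ r) ⊆ Icc 1 r := by
      intro x hx
      simp only [mem_filter, Multiset.mem_toFinset] at hx
      have : x ≠ 0 := fun h => h0 (h ▸ hx.1)
      rw [mem_Icc]; omega
    simpa using card_le_card this
  have h2 : (t.toFinset.filter (fun x => ¬ x ≤ r)).card * (r + 1) ≤ t.sum := by
    calc _ ≤ ∑ x ∈ t.toFinset.filter (fun x => ¬ x ≤ r), x := by
          have := card_nsmul_le_sum (t.toFinset.filter (fun x => ¬ x ≤ r)) (fun x => x) (r + 1)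
            (fun x hx => by have := (mem_filter.1 hx).2; omega)
          simpa using this
      _ ≤ ∑ x ∈ t.toFinset, x := sum_le_sum_of_subset (filter_subset _ _)
      _ ≤ ∑ x ∈ t.toFinset, t.count x • x := by
          refine sum_le_sum (fun x hx => ?_)
          have := Multiset.count_pos.2 (Multiset.mem_toFinset.1 hx)
          rw [smul_eq_mul]; exact Nat.le_mul_of_pos_left _ this
      _ = t.sum := (Finset.sum_multiset_count t).symm
  have h3 := card_filter_add_card_filter_not (s := t.toFinset) (fun x => x ≤ r)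
  have h4 : (t.toFinset.filter (fun x => ¬ x ≤ r)).card ≤ r := by
    by_contra h
    rw [not_le] at h
    nlinarith
  omega

theorem lower {n r : ℕ} (h : n ≤ r ^ 2) (j : ℕ) :
    (U n (j + 1)).card ≤ 2 * r * (T n j).card := by
  refine card_le_mul_card_image_of_maps_to (f := fun s => (n - j - s.sum) ::ₘ s) ?_ _ ?_
  · intro s hs
    obtain ⟨a, b⟩ := mem_U.1 hs
    refine mem_T.2 ⟨?_, ?_⟩
    · rw [Multiset.mem_cons]; push Not; exact ⟨by omega, a⟩
    · rw [Multiset.sum_cons]; omega
  · intro t ht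
    obtain ⟨a, b⟩ := mem_T.1 ht
    refine le_trans ?_ (distinct_le a (by omega))
    refine card_le_card_of_injOn (fun s => n - j - s.sum) ?_ ?_
    · intro s hs
      have := (mem_filter.1 (mem_coe.1 hs)).2
      simp only [mem_coe, Multiset.mem_toFinset]
      rw [← this]; exact Multiset.mem_cons_self _ _
    · intro s hs s' hs' e
      have h1 := (mem_filter.1 (mem_coe.1 hs)).2
      have h2 := (mem_filter.1 (mem_coe.1 hs')).2
      simp only at e h1 h2
      rw [e, ← h2] at h1
      exact (Multiset.cons_inj_right _).1 h1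

theorem sub_facts {t : Multiset ℕ} {b x : ℕ} (h : b ≤ t.count x) :
    (t - Multiset.replicate b x) + Multiset.replicate b x = t :=
  Multiset.sub_add_cancel (Multiset.le_count_iff_replicate_le.1 h)

theorem sub_sum {t : Multiset ℕ} {b x : ℕ} (h : b ≤ t.count x) :
    (t - Multiset.replicate b x).sum + x * b = t.sum := by
  conv_rhs => rw [← sub_facts h]
  rw [Multiset.sum_add, Multiset.sum_replicate, smul_eq_mul, mul_comm]

theorem many_T (n b x : ℕ) :
    ((T n 0).filter (fun t => b ≤ t.count x)).card ≤ (T n (x * b)).card := by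
  refine card_le_card_of_injOn (fun t => t - Multiset.replicate b x) ?_ ?_
  · intro t ht
    obtain ⟨h1, h2⟩ := mem_filter.1 (mem_coe.1 ht)
    obtain ⟨a, c⟩ := mem_T.1 h1
    refine mem_T.2 ⟨fun h => a (Multiset.mem_of_le (Multiset.sub_le_self _ _) h), ?_⟩
    have := sub_sum h2
    simp only; omega
  · intro s hs s' hs' e
    rw [← sub_facts (mem_filter.1 (mem_coe.1 hs)).2, ← sub_facts (mem_filter.1 (mem_coe.1 hs')).2]
    simp only at e
    rw [e]

theorem many_U (n b : ℕ) :
    ((U n 0).filter (fun t => b ≤ t.count 1)).card ≤ (U n b).card := by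
  refine card_le_card_of_injOn (fun t => t - Multiset.replicate b 1) ?_ ?_
  · intro t ht
    obtain ⟨h1, h2⟩ := mem_filter.1 (mem_coe.1 ht)
    obtain ⟨a, c⟩ := mem_U.1 h1
    refine mem_U.2 ⟨fun h => a (Multiset.mem_of_le (Multiset.sub_le_self _ _) h), ?_⟩
    have := sub_sum h2
    simp only; omega
  · intro s hs s' hs' e
    rw [← sub_facts (mem_filter.1 (mem_coe.1 hs)).2, ← sub_facts (mem_filter.1 (mem_coe.1 hs')).2]
    simp only at e
    rw [e]

theorem weight (n : ℕ) : n * (T n 0).card ≤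
    ∑ x ∈ range n, (x + 1) * ∑ b ∈ range (n + 1), (T n ((x + 1) * (b + 1))).card := by
  have h1 : ∀ t ∈ T n 0, n ≤ ∑ x ∈ range n, (x + 1) *
      ∑ b ∈ range (n + 1), if b + 1 ≤ t.count (x + 1) then 1 else 0 := by
    intro t ht
    obtain ⟨a, c⟩ := mem_T.1 ht
    have hsub : t.toFinset ⊆ range (n + 1) := by
      intro x hx
      have := Multiset.single_le_sum (fun _ _ => Nat.zero_le _) x (Multiset.mem_toFinset.1 hx)
      rw [mem_range]; omega
    have e := Finset.sum_multiset_count_of_subset t _ hsub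
    rw [sum_range_succ'] at e
    simp only [smul_eq_mul, mul_zero, add_zero] at e c
    rw [c] at e
    refine e.le.trans (sum_le_sum (fun x hx => ?_))
    rw [mul_comm]
    refine Nat.mul_le_mul_left _ ?_
    have h3 : t.count (x + 1) ≤ n := by
      have := sub_sum (t := t) (x := x + 1) le_rfl
      nlinarith [Nat.zero_le (t - Multiset.replicate (t.count (x + 1)) (x + 1)).sum]
    rw [← card_filter]
    have : range (t.count (x + 1)) ⊆ (range (n + 1)).filter (fun b => b + 1 ≤ t.count (x + 1)) := by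
      intro b hb
      rw [mem_range] at hb
      rw [mem_filter, mem_range]; omega
    simpa using card_le_card this
  calc n * (T n 0).card = ∑ t ∈ T n 0, n := by simp [mul_comm]
    _ ≤ _ := sum_le_sum h1
    _ = ∑ x ∈ range n, (x + 1) * ∑ b ∈ range (n + 1),
          ((T n 0).filter (fun t => b + 1 ≤ t.count (x + 1))).card := by
        rw [sum_comm]
        refine sum_congr rfl (fun x _ => ?_)
        rw [← mul_sum, sum_comm]
        simp only [card_filter]
    _ ≤ _ := sum_le_sum (fun x _ => Nat.mul_le_mul_left _ (sum_le_sum (fun b _ => many_T _ _ _)))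

theorem blocks {f : ℕ → ℕ} (hf : Antitone f) (x B : ℕ) :
    x * ∑ b ∈ range B, f (x * (b + 1 + 1)) ≤ ∑ k ∈ range (x * B), f (x + 1 + k) := by
  induction B with
  | zero => simp
  | succ B ih =>
    rw [sum_range_succ, mul_add x B 1, mul_one, sum_range_add, mul_add]
    refine Nat.add_le_add ih ?_
    have := card_nsmul_le_sum (range x) (fun i => f (x + 1 + (x * B + i))) (f (x * (B + 1 + 1)))
      (fun i hi => hf (by rw [mem_range] at hi; nlinarith))
    simpa using this

theorem abel (n M : ℕ) : ∑ x ∈ range M, (x + 1) * (T n (x + 1)).card + M * (U n (M + 1)).card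
    = ∑ j ∈ range M, (U n (j + 1)).card := by
  induction M with
  | zero => simp
  | succ M ih =>
    rw [sum_range_succ, sum_range_succ, ← ih, split n (M + 1)]
    ring

theorem tail {n r : ℕ} (h : n ≤ r ^ 2) (M : ℕ) :
    ∑ j ∈ range M, (U n (j + 1 + 1)).card ≤ 2 * r * (U n 1).card := by
  calc _ ≤ ∑ j ∈ range M, 2 * r * (T n (1 + j)).card :=
        sum_le_sum (fun j _ => by rw [add_comm 1 j]; exact lower h (j + 1))
    _ ≤ _ := by
        rw [← mul_sum]
        refine Nat.mul_le_mul_left _ ?_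
        have := split_sum n 1 M
        omega

theorem upper {n r : ℕ} (h : n ≤ r ^ 2) : n * (T n 0).card ≤ (4 * r + 1) * (U n 1).card := by
  have h1 : ∀ x ∈ range n, (x + 1) * ∑ b ∈ range (n + 1), (T n ((x + 1) * (b + 1))).card ≤
      (x + 1) * (T n (x + 1)).card + (U n (x + 1 + 1)).card := by
    intro x _
    rw [sum_range_succ', mul_add, add_comm, zero_add, mul_one]
    refine Nat.add_le_add_left ((blocks (T_anti' n) (x + 1) n).trans ?_) _
    have := split_sum n (x + 1 + 1) ((x + 1) * n)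
    omega
  have h2 := (weight n).trans (sum_le_sum h1)
  rw [sum_add_distrib] at h2
  have h3 := abel n (n + 1)
  rw [sum_range_succ, sum_range_succ'] at h3
  have h4 := tail h n
  simp only [zero_add] at h3
  nlinarith [Nat.zero_le ((n + 1) * (T n (n + 1)).card), Nat.zero_le ((n + 1) * (U n (n + 1 + 1)).card)]

theorem few_ones {n r : ℕ} (h : n ≤ r ^ 2) (j : ℕ) : j * (U n j).card ≤ 2 * r * (U n 0).card := by
  have hU : Antitone (fun j => (U n j).card) :=
    antitone_nat_of_succ_le (fun j => by have := split n j; omega)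
  have h1 := card_nsmul_le_sum (range j) (fun i => 2 * r * (T n (0 + i)).card) (U n j).card
    (fun i hi => (hU (show i + 1 ≤ j by rw [mem_range] at hi; omega)).trans
      (by rw [zero_add]; exact lower h i))
  rw [← mul_sum, card_range, smul_eq_mul] at h1
  refine h1.trans (Nat.mul_le_mul_left _ ?_)
  have := split_sum n 0 j
  omega

theorem growth {n R : ℕ} (hn : 0 < n) (j : ℕ) (h : n + j ≤ R ^ 2) :
    (P (n + j) : ℝ) ≤ Real.exp (j * ((4 * R + 1) / n)) * P n := by
  induction j with
  | zero => simp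
  | succ j ih =>
    have h1 := upper (n := n + j + 1) (r := R) h
    have h2 := split (n + j + 1) 0
    rw [U_succ, ← P_eq] at h1 h2
    rw [← P_eq] at h2
    have hn' : (0 : ℝ) < n := by exact_mod_cast hn
    have h3 : ((T (n + j + 1) 0).card : ℝ) ≤ (4 * R + 1) / n * P (n + j) := by
      rw [div_mul_eq_mul_div, le_div_iff₀ hn']
      have : (T (n + j + 1) 0).card * n ≤ (4 * R + 1) * P (n + j) := by nlinarith
      exact_mod_cast this
    have h4 := Real.add_one_le_exp ((4 * R + 1) / n)
    have h5 := ih (by omega)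
    rw [← add_assoc, h2]
    push_cast
    rw [add_mul, one_mul, add_comm ((j : ℝ) * _), Real.exp_add, mul_assoc]
    have h6 : (0 : ℝ) ≤ P (n + j) := Nat.cast_nonneg _
    calc _ ≤ ((4 * (R : ℝ) + 1) / n + 1) * (P (n + j) : ℝ) := by linarith
      _ ≤ Real.exp ((4 * R + 1) / n) * P (n + j) := mul_le_mul_of_nonneg_right h4 h6
      _ ≤ _ := mul_le_mul_of_nonneg_left h5 (Real.exp_pos _).le

end Pool.Agent.H10.Nsp
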