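import Pool.Agent.H10.NspA

namespace Pool.Agent.H10.Nsp
open Finset

theorem inf_compl (G : Finset ℕ) : ({s | s ∉ G} : Set ℕ).Infinite := by
  have := G.finite_toSet.infinite_compl
  simpa [Set.compl_def] using this

theorem nth_eq (G : Finset ℕ) (a : ℕ) :
    Nat.nth (fun s => s ∉ G) a = a + Multiset.card ((phi G).filter (fun x => x ≤ a)) := by
  set s := Nat.nth (fun s => s ∉ G) a with hs
  have hmem : s ∉ G := Nat.nth_mem_of_infinite (inf_compl G) a
  have hc : Nat.count (fun s => s ∉ G) s = a := Nat.count_nth_of_infinite (inf_compl G) a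
  have h1 : Multiset.card ((phi G).filter (fun x => x ≤ a)) =
      ((range s).filter (fun x => ¬ (x ∉ G))).card := by
    rw [phi, Multiset.filter_map, Multiset.card_map, ← Finset.filter_val, Finset.card_val]
    congr 1
    ext g
    simp only [mem_filter, Function.comp, mem_range, not_not]
    rw [Nat.count_le_iff_le_nth (inf_compl G), ← hs]
    constructor
    · rintro ⟨a, b⟩
      exact ⟨lt_of_le_of_ne b (fun h => hmem (h ▸ a)), a⟩
    · rintro ⟨a, b⟩; exact ⟨b, a.le⟩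
  have h2 := card_filter_add_card_filter_not (s := range s) (fun x => x ∉ G)
  rw [← Nat.count_eq_card_filter_range, hc, card_range] at h2
  omega

theorem phi_inj {G H : Finset ℕ} (h : phi G = phi H) : G = H := by
  have h1 : Nat.nth (fun s => s ∉ G) = Nat.nth (fun s => s ∉ H) := by
    funext a; rw [nth_eq, nth_eq, h]
  have h2 := Nat.range_nth_of_infinite (inf_compl G)
  rw [h1, Nat.range_nth_of_infinite (inf_compl H)] at h2
  ext x
  have := Set.ext_iff.1 h2 x
  simp only [Set.mem_setOf_eq] at this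
  tauto

theorem zero_not_mem {G : Finset ℕ} (h : 0 ∉ G) : 0 ∉ phi G := by
  intro h0
  obtain ⟨g, hg, e⟩ := Multiset.mem_map.1 h0
  rw [Nat.count_iff_forall_not] at e
  have : g ≠ 0 := fun h' => h (h' ▸ hg)
  exact e 0 (by omega) h

noncomputable def el (G : Finset ℕ) (i : ℕ) : ℕ := Nat.nth (fun s => s ∉ G) i

theorem el_mem (G : Finset ℕ) (i : ℕ) : el G i ∉ G := Nat.nth_mem_of_infinite (inf_compl G) i

theorem el_pos (G : Finset ℕ) (i : ℕ) : 0 < el G (i + 1) :=
  lt_of_le_of_lt (Nat.zero_le _) (Nat.nth_strictMono (inf_compl G) (Nat.succ_pos i))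

theorem el_min {G : Finset ℕ} (h : 0 ∉ G) {x : ℕ} (hx : 0 < x) (hG : x ∉ G) : el G 1 ≤ x := by
  have h1 : 1 ≤ Nat.count (fun s => s ∉ G) x :=
    Nat.pos_of_ne_zero (Nat.count_ne_iff_exists.2 ⟨0, hx, h⟩)
  have h2 := Nat.nth_monotone (inf_compl G) h1
  rwa [Nat.nth_count (p := fun s => s ∉ G) hG] at h2

theorem el_one {G : Finset ℕ} (h : 0 ∉ G) : el G 1 = 1 + (phi G).count 1 := by
  rw [el, nth_eq, Multiset.count_eq_card_filter_eq]
  congr 2
  refine Multiset.filter_congr (fun x hx => ?_)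
  have : x ≠ 0 := fun h' => zero_not_mem h (h' ▸ hx)
  omega

noncomputable def mv (G : Finset ℕ) (i : ℕ) : Finset ℕ := insert (el G (i + 1) + el G 1) G

theorem mv_zero {G : Finset ℕ} (h : 0 ∉ G) (i : ℕ) : 0 ∉ mv G i := by
  have := el_pos G i
  rw [mv, mem_insert]; push Not; exact ⟨by omega, h⟩

theorem mv_sum {G : Finset ℕ} (h : IsGapSet G) (i : ℕ) :
    (phi (mv G i)).sum ≤ (phi G).sum + (i + 1 + el G 1) := by
  have hy := h.2 _ _ (el_mem G (i + 1)) (el_mem G 1)
  have hm : ∀ g, Nat.count (fun s => s ∉ mv G i) g ≤ Nat.count (fun s => s ∉ G) g :=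
    fun g => Nat.count_mono_left (fun k _ hk hG => hk (mem_insert_of_mem hG))
  have e : (phi (mv G i)).sum = ∑ g ∈ mv G i, Nat.count (fun s => s ∉ mv G i) g := rfl
  have e' : (phi G).sum = ∑ g ∈ G, Nat.count (fun s => s ∉ G) g := rfl
  rw [e, e']
  refine (sum_le_sum (fun g _ => hm g)).trans ?_
  rw [mv, sum_insert hy, Nat.count_add, add_comm]
  have h1 : Nat.count (fun s => s ∉ G) (el G (i + 1)) = i + 1 :=
    Nat.count_nth_of_infinite (inf_compl G) _
  have h2 := Nat.count_le (p := fun k => el G (i + 1) + k ∉ G) (n := el G 1)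
  omega

theorem mv_inj {G H : Finset ℕ} (hG : IsGapSet G) (hH : IsGapSet H) {i j : ℕ}
    (e : mv G i = mv H j) : G = H ∧ i = j := by
  have key : ∀ {G H : Finset ℕ} {i j : ℕ}, 0 ∉ H → mv G i = mv H j → el H 1 ≤ el G 1 := by
    intro G H i j h0 e
    refine el_min h0 (el_pos G 0) (fun h => ?_)
    have h1 : el G 1 ∈ mv G i := by rw [e]; exact mem_insert_of_mem h
    have := el_pos G i
    rcases mem_insert.1 h1 with h2 | h2
    · omega
    · exact el_mem G 1 h2
  have hm : el G 1 = el H 1 := le_antisymm (key hG.1 e.symm) (key hH.1 e)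
  have h1 : el G (i + 1) ∉ H := by
    intro h
    have h1 : el G (i + 1) ∈ mv G i := by rw [e]; exact mem_insert_of_mem h
    have := el_pos G 0
    rcases mem_insert.1 h1 with h2 | h2
    · simp only [zero_add] at this; omega
    · exact el_mem G _ h2
  have h2 := hH.2 _ _ h1 (el_mem H 1)
  have h3 : el G (i + 1) + el G 1 ∈ mv H j := by rw [← e]; exact mem_insert_self _ _
  rw [hm] at h3
  have h4 : el G (i + 1) + el H 1 = el H (j + 1) + el H 1 := by
    rcases mem_insert.1 h3 with h | h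
    · exact h
    · exact absurd h h2
  have h5 : G = H := by
    have a := hG.2 _ _ (el_mem G (i + 1)) (el_mem G 1)
    have b := hH.2 _ _ (el_mem H (j + 1)) (el_mem H 1)
    rw [← erase_insert a, ← erase_insert b]
    change (mv G i).erase _ = (mv H j).erase _
    rw [e, hm, h4]
  subst h5
  have := Nat.nth_injective (inf_compl G) (show el G (i + 1) = el G (j + 1) by omega)
  exact ⟨rfl, by omega⟩

open Classical in
theorem main_count (n r K : ℕ) :
    ((U n 0).filter (fun t => (∃ G, IsGapSet G ∧ t = phi G) ∧ t.count 1 < K * r)).card * r ≤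
      P (n + (K + 1) * r) := by
  set D := (U n 0).filter (fun t => (∃ G, IsGapSet G ∧ t = phi G) ∧ t.count 1 < K * r) with hD
  have hc : ∀ t : Multiset ℕ, ∃ G, t ∈ D → IsGapSet G ∧ t = phi G := by
    intro t
    by_cases h : t ∈ D
    · obtain ⟨G, hG⟩ := (mem_filter.1 h).2.1
      exact ⟨G, fun _ => hG⟩
    · exact ⟨∅, fun h' => absurd h' h⟩
  choose g hg using hc
  rw [P_eq]
  have := card_le_card_of_injOn (s := D ×ˢ range r) (t := U (n + (K + 1) * r) 0)
    (fun q => phi (mv (g q.1) q.2)) ?_ ?_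
  · simpa using this
  · rintro ⟨t, i⟩ hq
    obtain ⟨h1, h2⟩ := mem_product.1 (mem_coe.1 hq)
    obtain ⟨a, b⟩ := hg t h1
    obtain ⟨c, -, d⟩ := mem_filter.1 h1
    refine mem_U.2 ⟨zero_not_mem (mv_zero a.1 _), ?_⟩
    have e1 := mv_sum a i
    have e2 := el_one a.1
    have e3 := (mem_U.1 c).2
    rw [← b] at e1 e2
    simp only [mem_range] at h2 d e3 ⊢
    rw [add_mul, one_mul]
    omega
  · rintro ⟨t, i⟩ hq ⟨t', i'⟩ hq' e
    have h1 := hg t (mem_product.1 (mem_coe.1 hq)).1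
    have h2 := hg t' (mem_product.1 (mem_coe.1 hq')).1
    obtain ⟨a, b⟩ := mv_inj h1.1 h2.1 (phi_inj e)
    simp only at a b
    rw [Prod.mk.injEq, h1.2, h2.2, a]
    exact ⟨rfl, b⟩

open Classical in
theorem S_le (n r K : ℕ) : S' n ≤ (U n (K * r)).card +
    ((U n 0).filter (fun t => (∃ G, IsGapSet G ∧ t = phi G) ∧ t.count 1 < K * r)).card := by
  refine le_trans ?_ (Nat.add_le_add_right (many_U n (K * r)) _)
  refine le_trans ?_ (card_union_le _ _)
  rw [S', ← Set.ncard_coe_finset]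
  refine Set.ncard_le_ncard ?_ (Finset.finite_toSet _)
  rintro t ⟨a, b, c⟩
  simp only [coe_union, Set.mem_union, mem_coe, mem_filter, mem_U]
  by_cases h : K * r ≤ t.count 1
  · exact Or.inl ⟨⟨a, b⟩, h⟩
  · exact Or.inr ⟨⟨a, b⟩, c, by omega⟩

theorem bound {n K : ℕ} (hK : 0 < K) (hn : 0 < n) (hr : K + 1 ≤ Nat.sqrt n + 1) :
    (S' n : ℝ) / P n ≤ 2 / K + Real.exp (36 * (K + 1)) / ((Nat.sqrt n + 1 : ℕ) : ℝ) := by
  set r := Nat.sqrt n + 1 with hr'
  have h1 : n ≤ r ^ 2 := (Nat.lt_succ_sqrt' n).le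
  have h2 : r ^ 2 ≤ 4 * n := by
    have a := Nat.sqrt_le' n
    have b := Nat.sqrt_pos.2 hn
    nlinarith
  have hP : (0 : ℝ) < P n := by
    rw [P_eq]; exact_mod_cast card_pos.2 ⟨0, mem_U.2 ⟨by simp, by simp⟩⟩
  have hr0 : (0 : ℝ) < r := by positivity
  have hK0 : (0 : ℝ) < K := by exact_mod_cast hK
  have hn0 : (0 : ℝ) < n := by exact_mod_cast hn
  have h3 := few_ones h1 (K * r)
  rw [← P_eq] at h3
  have h4 : ((U n (K * r)).card : ℝ) ≤ 2 / K * P n := by
    rw [div_mul_eq_mul_div, le_div_iff₀ hK0]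
    have : r * ((U n (K * r)).card * K) ≤ r * (2 * P n) := by nlinarith
    exact_mod_cast Nat.le_of_mul_le_mul_left this (by omega)
  have h5 := growth (R := r + (K + 1)) hn ((K + 1) * r) (by nlinarith)
  have h6 : Real.exp ((((K + 1) * r : ℕ) : ℝ) * ((4 * ((r + (K + 1) : ℕ) : ℝ) + 1) / n)) ≤
      Real.exp (36 * (K + 1)) := by
    rw [Real.exp_le_exp, ← mul_div_assoc, div_le_iff₀ hn0]
    have a : r * (4 * (r + (K + 1)) + 1) ≤ 36 * n := by nlinarith
    have b : (K + 1) * r * (4 * (r + (K + 1)) + 1) ≤ 36 * (K + 1) * n := by nlinarith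
    exact_mod_cast b
  obtain ⟨d, h7, h8⟩ : ∃ d, d * r ≤ P (n + (K + 1) * r) ∧ S' n ≤ (U n (K * r)).card + d :=
    ⟨_, main_count n r K, S_le n r K⟩
  have h9 : (d : ℝ) ≤ Real.exp (36 * (K + 1)) / r * P n := by
    rw [div_mul_eq_mul_div, le_div_iff₀ hr0]
    calc (d : ℝ) * r ≤ P (n + (K + 1) * r) := by exact_mod_cast h7
      _ ≤ _ := h5.trans (mul_le_mul_of_nonneg_right h6 hP.le)
  rw [div_le_iff₀ hP, add_mul]
  have : (S' n : ℝ) ≤ (U n (K * r)).card + d := by exact_mod_cast h8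
  linarith

theorem main : Filter.Tendsto (fun n => (S' n : ℝ) / P n) Filter.atTop (nhds 0) := by
  rw [Metric.tendsto_atTop]
  intro ε hε
  obtain ⟨K, hK⟩ := exists_nat_gt (4 / ε)
  have hK0 : (0 : ℝ) < K := lt_trans (by positivity) hK
  obtain ⟨M, hM⟩ := exists_nat_gt (Real.exp (36 * (K + 1)) * 2 / ε)
  refine ⟨(M + K + 1) ^ 2, fun n hn => ?_⟩
  have h1 : M + K + 1 ≤ Nat.sqrt n := Nat.le_sqrt'.2 hn
  have h2 := bound (n := n) (K := K) (by exact_mod_cast hK0)
    (lt_of_lt_of_le (by positivity) hn) (by omega)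
  rw [Real.dist_eq, sub_zero, abs_of_nonneg (by positivity)]
  have h3 : 2 / (K : ℝ) < ε / 2 := by
    rw [div_lt_iff₀ hε] at hK
    rw [div_lt_iff₀ hK0]; linarith
  have h4 : Real.exp (36 * (K + 1)) / ((Nat.sqrt n + 1 : ℕ) : ℝ) < ε / 2 := by
    rw [div_lt_iff₀ hε] at hM
    rw [div_lt_iff₀ (by positivity)]
    have : (M : ℝ) ≤ ((Nat.sqrt n + 1 : ℕ) : ℝ) := by exact_mod_cast (by omega)
    nlinarith
  linarith

end Pool.Agent.H10.Nsp
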