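import Mathlib

namespace Pool.Agent.H10.Nsp

/-- The partition attached to the numerical set with finite gap set `G`: one part
`#{s ∉ G : s < g}` for each gap `g`. -/
def phi (G : Finset ℕ) : Multiset ℕ := G.val.map (Nat.count (fun s => s ∉ G))

/-- `G` is the gap set of a numerical semigroup: its complement contains `0` and is closed under
addition. -/
def IsGapSet (G : Finset ℕ) : Prop := 0 ∉ G ∧ ∀ a b, a ∉ G → b ∉ G → a + b ∉ G

/-- Number of partitions (multisets of positive integers) of size at most `n`. -/
noncomputable def P (n : ℕ) : ℕ := Set.ncard {t : Multiset ℕ | 0 ∉ t ∧ t.sum ≤ n}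

/-- Number of partitions of size at most `n` associated to a numerical semigroup. -/
noncomputable def S' (n : ℕ) : ℕ :=
  Set.ncard {t : Multiset ℕ | 0 ∉ t ∧ t.sum ≤ n ∧ ∃ G, IsGapSet G ∧ t = phi G}

end Pool.Agent.H10.Nsp
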