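import Mathlib

set_option autoImplicit false

namespace Pool.Agent.H10.PR

variable {P : Type*}

/-- four points of `S`, no three of them on a line of `L` -/
def Quad (L : Set (Set P)) (S : Set P) : Prop :=
  ∃ q : Fin 4 → P, Function.Injective q ∧ (∀ i, q i ∈ S) ∧
    ∀ l ∈ L, ∀ i j k, i ≠ j → i ≠ k → j ≠ k → ¬ (q i ∈ l ∧ q j ∈ l ∧ q k ∈ l)

/-- projective rectangle with lines `L` and distinguished point `D` (axioms A1 - A6) -/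
structure IsPR (L : Set (Set P)) (D : P) : Prop where
  a1 : ∀ p q, p ≠ q → ∃! l, l ∈ L ∧ p ∈ l ∧ q ∈ l
  a2 : Quad L Set.univ
  a3 : ∀ l ∈ L, ∃ x ∈ l, ∃ y ∈ l, ∃ z ∈ l, x ≠ y ∧ x ≠ z ∧ y ≠ z
  a5 : ∀ s ∈ L, D ∈ s → ∀ l ∈ L, l ≠ s → ∃! p, p ∈ s ∧ p ∈ l
  a6 : ∀ l₁ ∈ L, ∀ l₂ ∈ L, ∀ l₃ ∈ L, ∀ l₄ ∈ L, D ∉ l₁ → D ∉ l₂ → l₁ ≠ l₂ → (l₁ ∩ l₂).Nonempty →
    l₃ ≠ l₄ → ∀ a ∈ l₃ ∩ l₁, ∀ b ∈ l₃ ∩ l₂, ∀ c ∈ l₄ ∩ l₁, ∀ d ∈ l₄ ∩ l₂,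
      [a, b, c, d].Nodup → (l₃ ∩ l₄).Nonempty

/-- `S`, with the sets `l ∩ S` of at least two points as lines, is a projective plane: two such
lines meet, and there is a quadrangle (two points of `S` lie on exactly one such line by A1) -/
def Subplane (L : Set (Set P)) (S : Set P) : Prop :=
  (∀ l ∈ L, ∀ l' ∈ L, (l ∩ S).Nontrivial → (l' ∩ S).Nontrivial → (l ∩ l' ∩ S).Nonempty) ∧ Quad L S

/-- a plane is a maximal projective subplane -/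
def Plane (L : Set (Set P)) (S : Set P) : Prop := Maximal (Subplane L) S

end Pool.Agent.H10.PR
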