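import Mathlib
import Pool.Agent.H10.PRDefs

set_option autoImplicit false

namespace Pool.Agent.H10.PR
open Set

variable {P : Type*} {L : Set (Set P)} {D : P} (h : IsPR L D)
include h

lemma IsPR.ex {p q : P} (a : p ≠ q) : ∃ l ∈ L, p ∈ l ∧ q ∈ l := (h.a1 p q a).exists

lemma IsPR.uq {l l' : Set P} (a : l ∈ L) (b : l' ∈ L) {p q : P} (c : p ∈ l) (d : q ∈ l)
    (e : p ∈ l') (f : q ∈ l') : l = l' ∨ p = q :=
  or_iff_not_imp_right.2 fun g => (h.a1 p q g).unique ⟨a, c, d⟩ ⟨b, e, f⟩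

lemma IsPR.ne {l : Set P} (a : l ∈ L) : l.Nonempty := (h.a3 l a).imp fun _ b => b.1

lemma IsPR.sp {s l : Set P} (a : s ∈ L) (b : D ∈ s) (c : l ∈ L) : (s ∩ l).Nonempty := by
  by_cases d : l = s
  · exact ⟨D, b, d ▸ b⟩
  · exact (h.a5 s a b l c d).exists

lemma IsPR.six {l₁ l₂ l₃ l₄ : Set P} (h1 : l₁ ∈ L) (h2 : l₂ ∈ L) (h3 : l₃ ∈ L) (h4 : l₄ ∈ L)
    (o1 : D ∉ l₁) (o2 : D ∉ l₂) (n : l₁ ≠ l₂) (m : (l₁ ∩ l₂).Nonempty) {a b c d : P}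
    (a3 : a ∈ l₃) (a1 : a ∈ l₁) (b3 : b ∈ l₃) (b2 : b ∈ l₂) (c4 : c ∈ l₄) (c1 : c ∈ l₁)
    (d4 : d ∈ l₄) (d2 : d ∈ l₂) (ab : a ≠ b) (cd : c ≠ d) : (l₃ ∩ l₄).Nonempty := by
  by_contra e
  refine e (h.a6 _ h1 _ h2 _ h3 _ h4 o1 o2 n m (fun f => e ⟨a, a3, f ▸ a3⟩) a ⟨a3, a1⟩ b ⟨b3, b2⟩
    c ⟨c4, c1⟩ d ⟨d4, d2⟩ ?_)
  have : ∀ x ∈ l₃, ∀ y ∈ l₄, x ≠ y := fun x f y g i => e ⟨x, f, i ▸ g⟩
  simp [ab, cd, this a a3 c c4, this a a3 d d4, this b b3 c c4, this b b3 d d4]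

/-- a point of `l` off two other lines -/
lemma IsPR.third {l m n : Set P} (a : l ∈ L) (b : m ∈ L) (c : n ∈ L) (d : l ≠ m) (e : l ≠ n) :
    ∃ x ∈ l, x ∉ m ∧ x ∉ n := by
  obtain ⟨x, hx, y, hy, z, hz, xy, xz, yz⟩ := h.a3 l a
  by_contra! f
  have u := fun p q (i : p ∈ l) (j : q ∈ l) k r => (h.uq a b i j k r).resolve_left d
  have v := fun p q (i : p ∈ l) (j : q ∈ l) k r => (h.uq a c i j k r).resolve_left e
  have := u x y hx hy; have := u x z hx hz; have := u y z hy hz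
  have := v x y hx hy; have := v x z hx hz; have := v y z hy hz
  have := f x hx; have := f y hy; have := f z hz
  tauto

def Closed (L : Set (Set P)) (D : P) (S : Set P) : Prop :=
  D ∈ S ∧ ∀ l ∈ L, D ∉ l → ∀ p ∈ l, ∀ q ∈ l, p ≠ q → p ∈ S → q ∈ S → l ⊆ S

def Good (L : Set (Set P)) (D : P) (S : Set P) : Prop :=
  Closed L D S ∧ (∀ l ∈ L, ∀ l' ∈ L, D ∉ l → D ∉ l' → l ⊆ S → l' ⊆ S → (l ∩ l').Nonempty) ∧
    ∃ l ∈ L, ∃ l' ∈ L, D ∉ l ∧ D ∉ l' ∧ l ≠ l' ∧ l ⊆ S ∧ l' ⊆ S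

lemma IsPR.absorb {U S l m : Set P} (u : Subplane L U) (c : Closed L D S) (hl : l ∈ L) (hm : m ∈ L)
    (mS : m ⊆ S) (mU : (m ∩ U).Nontrivial) (o : D ∉ l) {a b : P} (ab : a ≠ b) (al : a ∈ l) (bl : b ∈ l)
    (aU : a ∈ U ∩ S) (bU : b ∈ U ∩ S) (am : a ∉ m) (bm : b ∉ m) : U ⊆ S := by
  intro p hp
  by_contra e
  have key : ∀ a ∈ U ∩ S, a ∉ m → ∃ g ∈ L, p ∈ g ∧ a ∈ g ∧ D ∈ g := fun a aU am => by
    have pa : p ≠ a := fun f => e (f ▸ aU.2)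
    obtain ⟨g, g1, g2, g3⟩ := h.ex pa
    refine ⟨g, g1, g2, g3, by_contra fun f => ?_⟩
    obtain ⟨x, x1, -⟩ := u.1 g g1 m hm ⟨p, ⟨g2, hp⟩, a, ⟨g3, aU.1⟩, pa⟩ mU
    exact e (c.2 g g1 f a g3 x x1.1 (fun i => am (i ▸ x1.2)) aU.2 (mS x1.2) g2)
  obtain ⟨g, g1, g2, g3, g4⟩ := key a aU am
  obtain ⟨g', i1, i2, i3, i4⟩ := key b bU bm
  obtain rfl := (h.uq g1 i1 g2 g4 i2 i4).resolve_right fun f => e (f ▸ c.1)
  exact o (((h.uq g1 hl g3 i3 al bl).resolve_right ab) ▸ g4)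

lemma IsPR.two {l m : Set P} (a : l ∈ L) (b : m ∈ L) (d : l ≠ m) :
    ∃ x ∈ l, ∃ y ∈ l, x ≠ y ∧ x ∉ m ∧ y ∉ m := by
  obtain ⟨x, hx, y, hy, z, hz, xy, xz, yz⟩ := h.a3 l a
  have u := fun p q (i : p ∈ l) (j : q ∈ l) k r => (h.uq a b i j k r).resolve_left d
  by_cases e : x ∈ m
  · exact ⟨y, hy, z, hz, yz, fun f => xy (u x y hx hy e f), fun f => xz (u x z hx hz e f)⟩
  by_cases f : y ∈ m
  · exact ⟨x, hx, z, hz, xz, e, fun g => yz (u y z hy hz f g)⟩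
  · exact ⟨x, hx, y, hy, xy, e, f⟩

lemma IsPR.good_sub {S : Set P} (g : Good L D S) : Subplane L S := by
  obtain ⟨c, m, l, hl, l', hl', o, o', n, lS, lS'⟩ := g
  refine ⟨fun a ha b hb ⟨p, p1, q, q1, pq⟩ ⟨r, r1, s, s1, rs⟩ => ?_, ?_⟩
  · by_cases e : D ∈ a <;> by_cases f : D ∈ b
    · exact ⟨D, ⟨e, f⟩, c.1⟩
    · exact (h.sp ha e hb).imp fun x i => ⟨i, c.2 b hb f r r1.1 s s1.1 rs r1.2 s1.2 i.2⟩
    · exact (h.sp hb f ha).imp fun x i => ⟨i.symm, c.2 a ha e p p1.1 q q1.1 pq p1.2 q1.2 i.2⟩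
    · have i := c.2 a ha e p p1.1 q q1.1 pq p1.2 q1.2
      exact (m a ha b hb e f i (c.2 b hb f r r1.1 s s1.1 rs r1.2 s1.2)).imp fun x j => ⟨j, i j.1⟩
  · obtain ⟨x, x1, y, y1, xy, x2, y2⟩ := h.two hl hl' n
    obtain ⟨z, z1, w, w1, zw, z2, w2⟩ := h.two hl' hl n.symm
    have : ∀ a ∈ l, ∀ b, b ∉ l → a ≠ b := fun a i b j k => j (k ▸ i)
    refine ⟨![x, y, z, w], List.nodup_ofFn.1 (by simp [*]), fun i => by
      fin_cases i <;> simp [lS x1, lS y1, lS' z1, lS' w1], fun k hk => ?_⟩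
    have u : x ∈ k → y ∈ k → z ∉ k ∧ w ∉ k := fun i j => by
      rw [(h.uq hk hl i j x1 y1).resolve_right xy]; exact ⟨z2, w2⟩
    have v : z ∈ k → w ∈ k → x ∉ k ∧ y ∉ k := fun i j => by
      rw [(h.uq hk hl' i j z1 w1).resolve_right zw]; exact ⟨x2, y2⟩
    simp only [Fin.forall_fin_succ]
    simp
    tauto

lemma IsPR.good_le {U S l m : Set P} (u : Subplane L U) (c : Closed L D S) (hl : l ∈ L)
    (hm : m ∈ L) (o : D ∉ l) (n : l ≠ m) (lS : l ⊆ U ∩ S) (mS : m ⊆ U ∩ S) : U ⊆ S := by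
  obtain ⟨x, x1, y, y1, xy, x2, y2⟩ := h.two hl hm n
  obtain ⟨z, z1, w, w1, zw, -⟩ := h.two hm hl n.symm
  exact h.absorb u c hl hm (fun _ a => (mS a).2) ⟨z, ⟨z1, (mS z1).1⟩, w, ⟨w1, (mS w1).1⟩, zw⟩ o xy
    x1 y1 (lS x1) (lS y1) x2 y2

lemma IsPR.good_plane {S : Set P} (g : Good L D S) : Plane L S := by
  refine ⟨h.good_sub g, fun U u a => ?_⟩
  obtain ⟨c, -, l, hl, l', hl', o, -, n, lS, lS'⟩ := g
  exact h.good_le u c hl hl' o n (subset_inter (lS.trans a) lS) (subset_inter (lS'.trans a) lS')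

def Tri (L : Set (Set P)) (D : P) (a b c : Set P) : Prop :=
  (a ∈ L ∧ b ∈ L ∧ c ∈ L) ∧ (D ∉ a ∧ D ∉ b ∧ D ∉ c) ∧
    ((a ∩ b).Nonempty ∧ (a ∩ c).Nonempty ∧ (b ∩ c).Nonempty) ∧ ∀ x ∈ a, x ∈ b → x ∉ c

lemma IsPR.meet {a b c g k : Set P} (t : Tri L D a b c) (hg : g ∈ L) (hk : k ∈ L)
    (g1 : (g ∩ a).Nonempty ∧ (g ∩ b).Nonempty ∧ (g ∩ c).Nonempty)
    (k1 : (k ∩ a).Nonempty ∧ (k ∩ b).Nonempty ∧ (k ∩ c).Nonempty) : (g ∩ k).Nonempty := by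
  obtain ⟨⟨a1, b1, c1⟩, ⟨a2, b2, c2⟩, ⟨ab, ac, bc⟩, n⟩ := t
  obtain ⟨⟨x, x1, x2⟩, ⟨y, y1, y2⟩, ⟨z, z1, z2⟩⟩ := g1
  obtain ⟨⟨u, u1, u2⟩, ⟨v, v1, v2⟩, ⟨w, w1, w2⟩⟩ := k1
  have e1 := h.six a1 b1 hg hk a2 b2 (fun e => ac.elim fun p f => n p f.1 (e ▸ f.1) f.2) ab
    x1 x2 y1 y2 u1 u2 v1 v2
  have e2 := h.six a1 c1 hg hk a2 c2 (fun e => ab.elim fun p f => n p f.1 f.2 (e ▸ f.1)) ac
    x1 x2 z1 z2 u1 u2 w1 w2
  have e3 := h.six b1 c1 hg hk b2 c2 (fun e => ab.elim fun p f => n p f.1 f.2 (e ▸ f.2)) bc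
    y1 y2 z1 z2 v1 v2 w1 w2
  have f : ∀ {x y z}, x ∈ a → y ∈ b → z ∈ c → (x = y → x ≠ z ∧ y ≠ z) ∧ (x = z → y ≠ z) :=
    fun i j k => ⟨fun e => ⟨fun r => n _ i (e ▸ j) (r ▸ k), fun r => n _ (e ▸ i) j (r ▸ k)⟩,
      fun e r => n _ (e ▸ i) (r ▸ j) k⟩
  have := f x2 y2 z2
  have := f u2 v2 w2
  tauto

lemma IsPR.span {a b : Set P} (ha : a ∈ L) (hb : b ∈ L) (oa : D ∉ a) (ob : D ∉ b) (n : a ≠ b)
    (m : (a ∩ b).Nonempty) : ∃ S, Good L D S ∧ a ⊆ S ∧ b ⊆ S := by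
  obtain ⟨x, x1, -, -, -, x2, -⟩ := h.two ha hb n
  obtain ⟨s, s1, s2, s3⟩ := h.ex (show x ≠ D from fun e => oa (e ▸ x1))
  obtain ⟨y, y1, y2, y3⟩ := h.third hb ha s1 n.symm fun e => ob (e ▸ s3)
  obtain ⟨c, hc, c2, c3⟩ := h.ex (show x ≠ y from fun e => y2 (e ▸ x1))
  have oc : D ∉ c := fun e => (h.uq hc s1 c2 e s2 s3).elim (fun f => y3 (f ▸ c3))
    fun f => oa (f ▸ x1)
  have t : Tri L D a b c := ⟨⟨ha, hb, hc⟩, ⟨oa, ob, oc⟩, ⟨m, ⟨x, x1, c2⟩, y, y1, c3⟩,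
    fun z i j k => (h.uq ha hc x1 i c2 k).elim (fun f => y2 (f ▸ c3)) fun f => x2 (f ▸ j)⟩
  let M : Set P → Prop := fun g => (g ∩ a).Nonempty ∧ (g ∩ b).Nonempty ∧ (g ∩ c).Nonempty
  have Ma : M a := ⟨by simpa using h.ne ha, m, t.2.2.1.2.1⟩
  have Mb : M b := ⟨inter_comm a b ▸ m, by simpa using h.ne hb, t.2.2.1.2.2⟩
  have Mc : M c := ⟨⟨x, c2, x1⟩, ⟨y, c3, y1⟩, by simpa using h.ne hc⟩
  let S := {p | p = D ∨ ∃ g ∈ L, D ∉ g ∧ M g ∧ p ∈ g}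
  have key : ∀ l ∈ L, D ∉ l → ∀ p ∈ l, ∀ q ∈ l, p ≠ q → p ∈ S → q ∈ S → M l := by
    rintro l hl o p p1 q q1 pq (rfl | ⟨g, g1, g2, g3, g4⟩) (rfl | ⟨k, k1, k2, k3, k4⟩)
    iterate 3 contradiction
    by_cases e : g = k
    · rw [(h.uq hl g1 p1 q1 g4 (e ▸ k4)).resolve_right pq]
      exact g3
    obtain ⟨z, z1, z2⟩ := h.meet t g1 k1 g3 k3
    obtain ⟨j, j1, j2, j3, j4⟩ : ∃ j ∈ L, D ∉ j ∧ M j ∧ z ∉ j := by
      by_contra! f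
      exact t.2.2.2 z (f a ha oa Ma) (f b hb ob Mb) (f c hc oc Mc)
    obtain ⟨u, u1, u2⟩ := h.meet t g1 j1 g3 j3
    obtain ⟨w, w1, w2⟩ := h.meet t k1 j1 k3 j3
    have n' : ∀ x ∈ g, x ∈ k → x ∉ j := fun x i i' => by
      rwa [(h.uq g1 k1 i z1 i' z2).resolve_left e]
    have t' : Tri L D g k j := ⟨⟨g1, k1, j1⟩, ⟨g2, k2, j2⟩, ⟨⟨z, z1, z2⟩, ⟨u, u1, u2⟩, w, w1, w2⟩, n'⟩
    have := fun r (r1 : r ∈ L) (r2 : M r) => h.meet t' hl r1 ⟨⟨p, p1, g4⟩, ⟨q, q1, k4⟩,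
      h.six g1 k1 hl j1 g2 k2 e ⟨z, z1, z2⟩ p1 g4 q1 k4 u2 u1 w2 w1 pq fun f => n' u u1 (f ▸ w1) u2⟩
      ⟨h.meet t r1 g1 r2 g3, h.meet t r1 k1 r2 k3, h.meet t r1 j1 r2 j3⟩
    exact ⟨this a ha Ma, this b hb Mb, this c hc Mc⟩
  have sub : ∀ g ∈ L, D ∉ g → M g → g ⊆ S := fun g i j k p r => Or.inr ⟨g, i, j, k, r⟩
  have all : ∀ l ∈ L, D ∉ l → l ⊆ S → M l := fun l i j k => by
    obtain ⟨x, hx, y, hy, -, -, xy, -⟩ := h.a3 l i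
    exact key l i j x hx y hy xy (k hx) (k hy)
  exact ⟨S, ⟨⟨Or.inl rfl, fun l i j p p1 q q1 pq p2 q2 => sub l i j (key l i j p p1 q q1 pq p2 q2)⟩,
    fun l i l' i' j j' k k' => h.meet t i i' (all l i j k) (all l' i' j' k'),
    a, ha, b, hb, oa, ob, n, sub a ha oa Ma, sub b hb ob Mb⟩, sub a ha oa Ma, sub b hb ob Mb⟩

lemma IsPR.plane_good {U : Set P} (u : Plane L U) : Good L D U := by
  obtain ⟨q, q1, q2, q3⟩ := u.1.2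
  have key : ∀ i j k r, [i, j, k, r].Nodup → ∀ a ∈ L, ∀ b ∈ L, q i ∈ a → q j ∈ a → q i ∈ b →
      q k ∈ b → D ∉ a → D ∉ b → Good L D U := by
    intro i j k r n a ha b hb ia ja ib kb oa ob
    simp only [List.nodup_cons, List.mem_cons, List.not_mem_nil, or_false, not_or] at n
    obtain ⟨⟨ij, ik, ir⟩, ⟨jk, jr⟩, kr, -⟩ := n
    have ab : a ≠ b := fun e => q3 a ha i j k ij ik jk ⟨ia, ja, e ▸ kb⟩
    obtain ⟨S, g, aS, bS⟩ := h.span ha hb oa ob ab ⟨_, ia, ib⟩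
    obtain ⟨c, hc, kc, rc⟩ := h.ex (q1.ne kr)
    obtain ⟨x, ⟨x1, x2⟩, x3⟩ := u.1.1 a ha c hc ⟨_, ⟨ia, q2 i⟩, _, ⟨ja, q2 j⟩, q1.ne ij⟩
      ⟨_, ⟨kc, q2 k⟩, _, ⟨rc, q2 r⟩, q1.ne kr⟩
    have := h.absorb u.1 g.1 ha hb bS ⟨_, ⟨ib, q2 i⟩, _, ⟨kb, q2 k⟩, q1.ne ik⟩ oa
      (fun e : q j = x => q3 c hc j k r jk jr kr ⟨e ▸ x2, kc, rc⟩) ja x1 ⟨q2 j, aS ja⟩ ⟨x3, aS x1⟩
      (fun e => q3 b hb i j k ij ik jk ⟨ib, e, kb⟩) fun e => q3 c hc i k r ik ir kr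
        ⟨((h.uq ha hb ia x1 ib e).resolve_left ab) ▸ x2, kc, rc⟩
    rwa [this.antisymm (u.2 (h.good_sub g) this)]
  have k2 : ∀ i j k r, [i, j, k, r].Nodup → q i ≠ D → Good L D U := by
    intro i j k r n o
    have n' := n
    simp only [List.nodup_cons, List.mem_cons, List.not_mem_nil, or_false, not_or] at n'
    obtain ⟨⟨ij, ik, ir⟩, ⟨jk, jr⟩, kr, -⟩ := n'
    obtain ⟨a, ha, ia, ja⟩ := h.ex (q1.ne ij)
    obtain ⟨b, hb, ib, kb⟩ := h.ex (q1.ne ik)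
    obtain ⟨c, hc, ic, rc⟩ := h.ex (q1.ne ir)
    have z : ∀ {a b : Set P} {j k}, a ∈ L → b ∈ L → q i ∈ a → q j ∈ a → q i ∈ b → q k ∈ b → i ≠ j →
        i ≠ k → j ≠ k → D ∈ a → D ∉ b := fun {a b j k} ha hb ia ja ib kb ij ik jk e f =>
      q3 a ha i j k ij ik jk ⟨ia, ja, (h.uq ha hb ia e ib f).resolve_right o ▸ kb⟩
    by_cases e : D ∈ a
    · exact key i k r j (by simp [*, Ne.symm jk, Ne.symm jr]) b hb c hc ib kb ic rc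
        (z ha hb ia ja ib kb ij ik jk e) (z ha hc ia ja ic rc ij ir jr e)
    by_cases f : D ∈ b
    · exact key i j r k (by simp [*, Ne.symm kr]) a ha c hc ia ja ic rc e
        (z hb hc ib kb ic rc ik ir kr f)
    · exact key i j k r n a ha b hb ia ja ib kb e f
  by_cases e : q 0 = D
  · exact k2 1 0 2 3 (by decide) fun f => by simpa using q1 (e.trans f.symm)
  · exact k2 0 1 2 3 (by decide) e

lemma IsPR.od {s l : Set P} (hs : s ∈ L) (sD : D ∈ s) (hl : l ∈ L) {p a : P} (ps : p ∈ s)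
    (pD : p ≠ D) (a1 : a ∉ s) (pl : p ∈ l) (al : a ∈ l) : D ∉ l := fun e =>
  a1 ((h.uq hl hs pl e ps sD).resolve_right pD ▸ al)

lemma IsPR.off {S s t : Set P} (g : Good L D S) (hs : s ∈ L) (sD : D ∈ s) (ht : t ∈ L)
    (tD : D ∈ t) : ∃ a ∈ S, a ∉ s ∧ a ∉ t := by
  obtain ⟨-, -, l, hl, -, -, o, -, -, lS, -⟩ := g
  obtain ⟨a, a1, a2⟩ := h.third hl hs ht (fun e => o (e ▸ sD)) fun e => o (e ▸ tD)
  exact ⟨a, lS a1, a2⟩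

lemma IsPR.des {S T s : Set P} (gS : Good L D S) (gT : Good L D T) (hs : s ∈ L) (sD : D ∈ s)
    {p p' : P} (pp : p ≠ p') (ps : p ∈ s) (ps' : p' ∈ s) (pD : p ≠ D) (pD' : p' ≠ D)
    (pS : p ∈ S ∩ T) (pS' : p' ∈ S ∩ T) (ST : ∀ x ∈ S, x ∈ T → x ∈ s) : s ∩ S ⊆ T := by
  rintro q ⟨qs, qS⟩
  by_contra qT
  have qD : q ≠ D := fun e => qT (e ▸ gT.1.1)
  have ne : ∀ {a b : P} {s : Set P}, a ∈ s → b ∉ s → a ≠ b := fun i j k => j (k ▸ i)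
  have one : ∀ {s l : Set P} {a b : P}, s ∈ L → D ∈ s → l ∈ L → D ∉ l → a ∈ s → b ∈ s → a ∈ l →
      b ∈ l → a = b := fun i j k o a b c d => (h.uq i k a b c d).resolve_left fun e => o (e ▸ j)
  obtain ⟨a', a'T, a's, -⟩ := h.off gT hs sD hs sD
  have a'D : a' ≠ D := (ne sD a's).symm
  obtain ⟨t, ht, a't, tD⟩ := h.ex a'D
  obtain ⟨a, aS, as, at'⟩ := h.off gS hs sD ht tD
  obtain ⟨g, hg, a'g, ag⟩ := h.ex (ne a't at')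
  have og := h.od ht tD hg a't a'D at' a'g ag
  obtain ⟨c, cs, cg⟩ := h.sp hs sD hg
  have cD : c ≠ D := ne cg og
  have cS : c ∉ S := fun e => a's (ST _ (gS.1.2 g hg og c cg a ag (ne cs as) e aS a'g) a'T)
  have cT : c ∉ T := fun e => as (ST _ aS (gT.1.2 g hg og c cg a' a'g (ne cs a's) e a'T ag))
  obtain ⟨k, hk, qk, ak⟩ := h.ex (ne qs as)
  have ok := h.od hs sD hk qs qD as qk ak
  have kS := gS.1.2 k hk ok q qk a ak (ne qs as) qS aS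
  obtain ⟨x, xt, xk⟩ := h.sp ht tD hk
  have xs : x ∉ s := fun e => a's ((h.uq ht hs xt tD e sD).resolve_right (ne xk ok) ▸ a't)
  obtain ⟨l, hl, pl, xl⟩ := h.ex (ne ps xs)
  have ol := h.od hs sD hl ps pD xs pl xl
  have lS := gS.1.2 l hl ol p pl x xl (ne ps xs) pS.1 (kS xk)
  obtain ⟨m, hm, pm, am⟩ := h.ex (ne ps' as)
  have om := h.od hs sD hm ps' pD' as pm am
  have mS := gS.1.2 m hm om p' pm a am (ne ps' as) pS'.1 aS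
  obtain ⟨y, yl, ym⟩ := gS.2.1 l hl m hm ol om lS mS
  have ys : y ∉ s := fun e => pp ((one hs sD hl ol ps e pl yl).trans (one hs sD hm om e ps' ym pm))
  obtain ⟨u, hu, cu, yu⟩ := h.ex (ne cs ys)
  have ou := h.od hs sD hu cs cD ys cu yu
  obtain ⟨m', hm', pm', am'⟩ := h.ex (ne ps' a's)
  have mT := gT.1.2 m' hm' (h.od hs sD hm' ps' pD' a's pm' am') p' pm' a' am' (ne ps' a's) pS'.2 a'T
  obtain ⟨y', yu', ym'⟩ := h.six hg hm hu hm' og om (fun e => cS (mS (e ▸ cg))) ⟨a, ag, am⟩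
    cu cg yu ym am' a'g pm' pm (ne cs ys) (ne ps' a's).symm
  have ys' : y' ∉ s := fun e => cT (one hs sD hu ou e cs yu' cu ▸ mT ym')
  obtain ⟨v, hv, cv, xv⟩ := h.ex (ne cs xs)
  have ov := h.od hs sD hv cs cD xs cv xv
  obtain ⟨l', hl', pl', yl'⟩ := h.ex (ne ps ys')
  have lT := gT.1.2 l' hl' (h.od hs sD hl' ps pD ys' pl' yl') p pl' y' yl' (ne ps ys') pS.2 (mT ym')
  obtain ⟨x', xv', xl'⟩ := h.six hl hu hv hl' ol ou (fun e => cS (lS (e ▸ cu))) ⟨y, yl, yu⟩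
    xv xl cv cu pl' pl yl' yu' (ne cs xs).symm (ne ps ys')
  have gv : g ≠ v := fun e => cS (gS.1.2 g hg og x (e ▸ xv) a ag (ne xt at') (kS xk) aS cg)
  have ax : a' ≠ x' := fun e => (h.uq hg hv cg a'g cv (e ▸ xv')).elim gv (ne cs a's)
  obtain ⟨k', hk', ak', xk'⟩ := h.ex ax
  have xt' : x' ∉ t := fun e => xs (ST x (kS xk) (one ht tD hv ov e xt xv' xv ▸ lT xl'))
  have kT := gT.1.2 k' hk' (h.od ht tD hk' a't a'D xt' ak' xk') a' ak' x' xk' ax a'T (lT xl')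
  obtain ⟨w, wk, wk'⟩ := h.six hg hv hk hk' og ov gv ⟨c, cg, cv⟩ ak ag xk xv ak' a'g xk' xv'
    (ne xt at').symm ax
  exact qT (one hs sD hk ok (ST w (kS wk) (kT wk')) qs wk qk ▸ kT wk')

theorem IsPR.main (nt : ¬ Subplane L univ) {S s : Set P} (hS : Plane L S) (hs : s ∈ L)
    (sD : D ∈ s) : ∃ T, Plane L T ∧ T ≠ S ∧ s ∩ T = s ∩ S := by
  have g := h.plane_good hS
  have ne : ∀ {a b : P} {s : Set P}, a ∈ s → b ∉ s → a ≠ b := fun i j k => j (k ▸ i)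
  obtain ⟨r, rS, rs⟩ : ∃ r, r ∉ S ∧ r ∉ s := by
    obtain ⟨r, rS⟩ : ∃ r, r ∉ S := by
      by_contra! e
      exact nt (eq_univ_of_forall e ▸ hS.1)
    by_cases e : r ∈ s
    · obtain ⟨a, aS, as, -⟩ := h.off g hs sD hs sD
      obtain ⟨l, hl, rl, al⟩ := h.ex (ne e as)
      have ol := h.od hs sD hl e (ne g.1.1 rS).symm as rl al
      obtain ⟨t, ht, a1, tD⟩ := h.ex (ne sD as).symm
      obtain ⟨x, x1, x2, x3⟩ := h.third hl hs ht (fun f => ol (f ▸ sD)) fun f => ol (f ▸ tD)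
      exact ⟨x, fun f => rS (g.1.2 l hl ol a al x x1 (ne a1 x3) aS f rl), x2⟩
    · exact ⟨r, rS, e⟩
  obtain ⟨p, p', pp, ps, ps', pD, pD', pS, pS'⟩ : ∃ p p', p ≠ p' ∧ p ∈ s ∧ p' ∈ s ∧ p ≠ D ∧
      p' ≠ D ∧ p ∈ S ∧ p' ∈ S := by
    obtain ⟨c, -, l, hl, l', hl', o, o', n, lS, lS'⟩ := g
    obtain ⟨p, ps, pl⟩ := h.sp hs sD hl
    obtain ⟨p', ps', pl'⟩ := h.sp hs sD hl'
    by_cases e : p = p'
    · obtain ⟨x, x1, x2, x3⟩ := h.third hl hl' hs n fun f => o (f ▸ sD)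
      obtain ⟨t, ht, xt, tD⟩ := h.ex (ne x1 o)
      obtain ⟨y, y1, y2, y3⟩ := h.third hl' hl ht n.symm fun f => o' (f ▸ tD)
      obtain ⟨k, hk, xk, yk⟩ := h.ex (ne x1 y2)
      have ok := h.od ht tD hk xt (ne x1 o) y3 xk yk
      obtain ⟨z, zs, zk⟩ := h.sp hs sD hk
      refine ⟨p, z, fun f => ?_, ps, zs, ne pl o, ne zk ok, lS pl,
        c.2 k hk ok x xk y yk (ne x1 y2) (lS x1) (lS' y1) zk⟩
      exact (h.uq hk hl xk (f ▸ zk) x1 pl).elim (fun i => y2 (i ▸ yk)) (ne ps x3).symm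
    · exact ⟨p, p', e, ps, ps', ne pl o, ne pl' o', lS pl, lS' pl'⟩
  have two : ∀ r, r ∉ s → ∃ a ∈ L, ∃ b ∈ L, D ∉ a ∧ D ∉ b ∧ a ≠ b ∧ p ∈ a ∧ r ∈ a ∧ p' ∈ b ∧ r ∈ b := by
    intro r rs
    obtain ⟨a, ha, pa, ra⟩ := h.ex (ne ps rs)
    obtain ⟨b, hb, pb, rb⟩ := h.ex (ne ps' rs)
    exact ⟨a, ha, b, hb, h.od hs sD ha ps pD rs pa ra, h.od hs sD hb ps' pD' rs pb rb, fun e =>
      (h.uq ha hs pa (e ▸ pb) ps ps').elim (fun f => rs (f ▸ ra)) pp, pa, ra, pb, rb⟩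
  obtain ⟨a, ha, b, hb, oa, ob, ab, pa, ra, pb, rb⟩ := two r rs
  obtain ⟨T, gT, aT, bT⟩ := h.span ha hb oa ob ab ⟨r, ra, rb⟩
  have ST : ∀ x ∈ S, x ∈ T → x ∈ s := fun x xS xT => by_contra fun xs => by
    obtain ⟨c, hc, d, hd, oc, od, cd, pc, xc, pd, xd⟩ := two x xs
    exact rS (h.good_le (h.good_sub gT) g.1 hc hd oc cd (subset_inter
      (gT.1.2 c hc oc p pc x xc (ne ps xs) (aT pa) xT) (g.1.2 c hc oc p pc x xc (ne ps xs) pS xS))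
      (subset_inter (gT.1.2 d hd od p' pd x xd (ne ps' xs) (bT pb) xT)
        (g.1.2 d hd od p' pd x xd (ne ps' xs) pS' xS)) (aT ra))
  exact ⟨T, h.good_plane gT, fun e => rS (e ▸ aT ra), subset_antisymm
    (subset_inter inter_subset_left (h.des gT g hs sD pp ps ps' pD pD' ⟨aT pa, pS⟩ ⟨bT pb, pS'⟩
      fun x i j => ST x j i)) (subset_inter inter_subset_left
        (h.des g gT hs sD pp ps ps' pD pD' ⟨pS, aT pa⟩ ⟨pS', bT pb⟩ ST))⟩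

end Pool.Agent.H10.PR
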