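import Mathlib
import Pool.Agent.H10.PartData
import Pool.Agent.H10.Geo

set_option autoImplicit false

namespace Pool.Agent.H10.Part
open Pool.Agent.H10.Rup Pool.Agent.H10.Ced Pool.Agent.H10.PartData Pool.Agent.H10.Geo

def fc (i : ℕ) : List ℕ := B.getD i []

def sel (k : ℕ) : List ℕ :=
  ((List.range 4).filter fun t => (k % 16).testBit t).map fun t => (fc (k / 16)).getD t 0

def Y (r : ℕ → ℕ → Prop) (k : ℕ) : Prop := ∀ v, r (k / 16) v → v ∈ sel k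

def Lit (r : ℕ → ℕ → Prop) (j : ℕ) : Prop :=
  (64 ≤ j ∧ j < 592 ∧ Y r (j - 64)) ∨ (592 ≤ j ∧ j < 1120 ∧ ¬ Y r (j - 592))

lemma good (r : ℕ → ℕ → Prop) : Good 528 (Lit r) := by
  refine ⟨fun j hj h => ?_, fun j h1 h2 => ?_⟩
  · rcases h with h | h <;> omega
  · rcases h1 with h1 | h1 <;> rcases h2 with h2 | h2
    · omega
    · have e : j + 528 - 592 = j - 64 := by omega
      rw [e] at h2
      exact h2.2.2 h1.2.2
    · omega
    · omega

def ok0 (d a : ℕ) : Bool :=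
  decide (a < 528) && sub (sel a) (fc (a / 16)) && (List.range 33).all fun j =>
    !sub (sel a) (fc j) ||
      (List.range 16).any fun m => sub (sel a) (sel (16 * j + m)) && d.testBit (64 + (16 * j + m))

def ok1 (d a b : ℕ) : Bool :=
  decide (a < 528) && decide (b < 528) && decide (a / 16 ≠ b / 16) &&
    sub (sel a ++ sel b) (fc (a / 16)) && sub (sel a ++ sel b) (fc (b / 16)) &&
    d.testBit (592 + a) && d.testBit (592 + b)

def ok2 (d a b c : ℕ) : Bool :=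
  decide (a < 528) && decide (b < 528) && decide (c < 528) && decide (a / 16 = c / 16) &&
    decide (b / 16 = c / 16) && ((sel a).all fun v => !mem v (sel b) || mem v (sel c)) &&
    d.testBit (592 + a) && d.testBit (592 + b) && d.testBit (64 + c)

def ok (d : ℕ) (p : ℕ × ℕ × ℕ × ℕ) : Bool :=
  if p.1 = 0 then ok0 d p.2.1 else if p.1 = 1 then ok1 d p.2.1 p.2.2.1
  else ok2 d p.2.1 p.2.2.1 p.2.2.2

lemma pos (r : ℕ → ℕ → Prop) (d k : ℕ) (hk : k < 528) (hd : d.testBit (64 + k) = true)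
    (h : Y r k) : Sat (Lit r) d :=
  ⟨64 + k, hd, Or.inl ⟨by omega, by omega, by simpa using h⟩⟩

lemma neg (r : ℕ → ℕ → Prop) (d k : ℕ) (hk : k < 528) (hd : d.testBit (592 + k) = true)
    (h : ¬ Y r k) : Sat (Lit r) d :=
  ⟨592 + k, hd, Or.inr ⟨by omega, by omega, by simpa using h⟩⟩

lemma ok_sound (r : ℕ → ℕ → Prop)
    (H2 : ∀ i < 33, ∀ s : List ℕ, (∀ v ∈ s, v ∈ fc i) →
      ∃ j < 33, (∀ v ∈ s, v ∈ fc j) ∧ ∀ v, r j v → v ∈ s)
    (H3 : ∀ i < 33, ∀ j < 33, ∀ s : List ℕ, (∀ v ∈ s, v ∈ fc i) → (∀ v ∈ s, v ∈ fc j) →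
      (∀ v, r i v → v ∈ s) → (∀ v, r j v → v ∈ s) → i = j)
    (d : ℕ) (p : ℕ × ℕ × ℕ × ℕ) (h : ok d p = true) : Sat (Lit r) d := by
  obtain ⟨t, a, b, c⟩ := p
  unfold ok at h
  split_ifs at h
  · simp only [ok0, Bool.and_eq_true, decide_eq_true_eq, sub_iff, List.all_eq_true, List.mem_range,
      Bool.or_eq_true, Bool.not_eq_true', List.any_eq_true] at h
    obtain ⟨⟨h1, h2⟩, h3⟩ := h
    obtain ⟨j, hj, a1, a2⟩ := H2 (a / 16) (by omega) _ h2
    rcases h3 j hj with h4 | ⟨m, hm, h4, h5⟩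
    · rw [← sub_iff, h4] at a1
      exact absurd a1 (by simp)
    · refine pos r d _ (by omega) h5 fun v hv => h4 v (a2 v ?_)
      have e : (16 * j + m) / 16 = j := by omega
      rwa [e] at hv
  · simp only [ok1, Bool.and_eq_true, decide_eq_true_eq, sub_iff] at h
    obtain ⟨⟨⟨⟨⟨⟨h1, h2⟩, h3⟩, h4⟩, h5⟩, h6⟩, h7⟩ := h
    by_cases ya : Y r a
    · refine neg r d b h2 h7 fun yb => h3 ?_
      exact H3 _ (by omega) _ (by omega) _ h4 h5
        (fun v hv => List.mem_append_left _ (ya v hv))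
        (fun v hv => List.mem_append_right _ (yb v hv))
    · exact neg r d a h1 h6 ya
  · simp only [ok2, Bool.and_eq_true, decide_eq_true_eq, List.all_eq_true, Bool.or_eq_true,
      Bool.not_eq_true', mem_iff, mem_false] at h
    obtain ⟨⟨⟨⟨⟨⟨⟨⟨h1, h2⟩, h3⟩, h4⟩, h5⟩, h6⟩, h7⟩, h8⟩, h9⟩ := h
    by_cases ya : Y r a
    · by_cases yb : Y r b
      · refine pos r d c h3 h9 fun v hv => ?_
        exact (h6 v (ya v (h4 ▸ hv))).resolve_left (not_not.2 (yb v (h5 ▸ hv)))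
      · exact neg r d b h2 h8 yb
    · exact neg r d a h1 h7 ya

theorem all_ok : ((List.range 188).all fun i => ok (db.get i) (par.getD i (0, 0, 0, 0))) = true := by
  decide +kernel

theorem no_part (r : ℕ → ℕ → Prop)
    (H2 : ∀ i < 33, ∀ s : List ℕ, (∀ v ∈ s, v ∈ fc i) →
      ∃ j < 33, (∀ v ∈ s, v ∈ fc j) ∧ ∀ v, r j v → v ∈ s)
    (H3 : ∀ i < 33, ∀ j < 33, ∀ s : List ℕ, (∀ v ∈ s, v ∈ fc i) → (∀ v ∈ s, v ∈ fc j) →
      (∀ v, r i v → v ∈ s) → (∀ v, r j v → v ∈ s) → i = j) : False := by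
  refine unsat (Lit r) (good r) fun i hi => ok_sound r H2 H3 _ (par.getD i (0, 0, 0, 0)) ?_
  exact List.all_eq_true.1 all_ok i (List.mem_range.2 hi)

lemma B_lt : ∀ F ∈ B, ∀ v ∈ F, v < 13 := by decide +kernel
lemma B_ne : ∀ F ∈ B, F ≠ [] := by decide +kernel
lemma B_anti : ∀ F ∈ B, ∀ G ∈ B, (∀ v ∈ F, v ∈ G) → F = G := by decide +kernel
lemma B_fc : ∀ F ∈ B, ∃ i < 33, fc i = F := by decide +kernel
lemma fc_B : ∀ i < 33, fc i ∈ B := by decide +kernel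
lemma fc_inj : ∀ i < 33, ∀ j < 33, fc i = fc j → i = j := by decide +kernel

theorem is_ball :
    Nonempty ((KK 13 B).space ≃ₜ Metric.closedBall (0 : EuclideanSpace ℝ (Fin 3)) 1) := by
  obtain ⟨f⟩ := space_homeo 13 B B_lt
  obtain ⟨g⟩ := chain_homeo _ _ _ ball
  obtain ⟨k⟩ := simplex_ball 0 4 9 12 (by decide)
  exact ⟨(f.trans g).trans k⟩

theorem not_part (R : Finset (E 13) → Finset (E 13)) (h1 : ∀ F ∈ (KK 13 B).facets, R F ⊆ F)
    (h2 : ∀ s : Finset (E 13), (s = ∅ ∨ s ∈ (KK 13 B).faces) →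
      ∃! F, F ∈ (KK 13 B).facets ∧ R F ⊆ s ∧ s ⊆ F) : False := by
  have hfac := mem_facets 13 B B_lt B_ne B_anti
  have fa : ∀ i < 33, im 13 (fin 13 (fc i)) ∈ (KK 13 B).facets := fun i hi =>
    (hfac _).2 ⟨_, fc_B i hi, rfl⟩
  let r : ℕ → ℕ → Prop := fun i v => ∃ a : Fin 13, a.val = v ∧ pt 13 a ∈ R (im 13 (fin 13 (fc i)))
  have key : ∀ i < 33, ∀ s : List ℕ,
      R (im 13 (fin 13 (fc i))) ⊆ im 13 (fin 13 s) ↔ ∀ v, r i v → v ∈ s := by
    intro i hi s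
    obtain ⟨t, -, ht⟩ := sub_im 13 _ _ (h1 _ (fa i hi))
    have mem : ∀ (u : Finset (Fin 13)) (a : Fin 13), pt 13 a ∈ im 13 u ↔ a ∈ u := by
      intro u a
      rw [← Finset.mem_coe, coe_im, (pt_inj 13).mem_set_image, Finset.mem_coe]
    simp only [r]
    rw [ht, im_sub]
    constructor
    · rintro h v ⟨a, rfl, ha⟩
      simpa using h ((mem _ _).1 ha)
    · intro h a ha
      simpa using h _ ⟨a, rfl, (mem _ _).2 ha⟩
  have sb : ∀ i < 33, ∀ s : List ℕ, (∀ v ∈ s, v ∈ fc i) → ∀ j,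
      im 13 (fin 13 s) ⊆ im 13 (fin 13 (fc j)) ↔ ∀ v ∈ s, v ∈ fc j := by
    intro i hi s hs j
    rw [im_sub, fin_sub 13 s _ fun v hv => B_lt _ (fc_B i hi) v (hs v hv)]
  have face : ∀ i < 33, ∀ s : List ℕ, (∀ v ∈ s, v ∈ fc i) →
      (im 13 (fin 13 s) = ∅ ∨ im 13 (fin 13 s) ∈ (KK 13 B).faces) := by
    intro i hi s hs
    rcases (im 13 (fin 13 s)).eq_empty_or_nonempty with h | h
    · exact Or.inl h
    · exact Or.inr ⟨h, _, fc_B i hi, (sb i hi s hs i).2 hs⟩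
  refine no_part r (fun i hi s hs => ?_) fun i hi j hj s si sj ri rj => ?_
  · obtain ⟨F, ⟨a1, a2, a3⟩, -⟩ := h2 _ (face i hi s hs)
    obtain ⟨G, hG, rfl⟩ := (hfac F).1 a1
    obtain ⟨j, hj, rfl⟩ := B_fc G hG
    exact ⟨j, hj, (sb i hi s hs j).1 a3, (key j hj s).1 a2⟩
  · have e := (h2 _ (face i hi s si)).unique
      ⟨fa i hi, (key i hi s).2 ri, (sb i hi s si i).2 si⟩
      ⟨fa j hj, (key j hj s).2 rj, (sb i hi s si j).2 sj⟩
    refine fc_inj i hi j hj (B_anti _ (fc_B i hi) _ (fc_B j hj) ?_)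
    exact (sb i hi (fc i) (fun _ h => h) j).1 e.subset

end Pool.Agent.H10.Part
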