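import Mathlib

set_option autoImplicit false

namespace Pool.Agent.H10.Pat

/-- occurrences in `n` of the pattern of length `L` with binary value `V` -/
def e (L V : ℕ) (n : ℕ) : ℕ :=
  if n = 0 then 0 else (if n % 2 ^ L = V then 1 else 0) + e L V (n / 2)
decreasing_by omega

/-- `A_v(n, d)` -/
noncomputable def A (L V n d : ℕ) : ℕ := sInf {l | 1 ≤ l ∧ ¬ e L V (n + l * d) ≡ e L V n [MOD 2]}

end Pool.Agent.H10.Pat
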