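import Mathlib
import Pool.Agent.H10.PatDefs

set_option autoImplicit false

namespace Pool.Agent.H10.Pat

section
variable {f : ℕ → ZMod 2} {L V : ℕ} (h0 : f 0 = 0) (h2 : ∀ n, f (n * 2) = f n) (hV : f V = 1)
  (loc : ∀ K a a' b, b < 2 ^ K → a ≡ a' [MOD 2 ^ L] →
    f (a * 2 ^ K + b) - f a = f (a' * 2 ^ K + b) - f a')
include h2

lemma pw (n k : ℕ) : f (n * 2 ^ k) = f n := by
  induction k with
  | zero => simp
  | succ k ih => rw [pow_succ, ← mul_assoc, h2, ih]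

include h0 loc

lemma add (a b K : ℕ) (h : b < 2 ^ K) : f (a * 2 ^ (L + K) + b) = f a + f b := by
  have := loc K (a * 2 ^ L) 0 b h (by simp [Nat.ModEq])
  rw [pw h2, mul_assoc, ← pow_add, zero_mul, zero_add, h0] at this
  linear_combination this

lemma cat (l a b : ℕ) : ∃ d, ∀ j ≤ l, f (j * d) = f (j * a) + f (j * b) :=
  ⟨a * 2 ^ (L + l * b) + b, fun j h => by
    rw [mul_add, ← mul_assoc, add h0 h2 loc _ _ _
      ((Nat.mul_le_mul_right b h).trans_lt Nat.lt_two_pow_self)]⟩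

include hV

lemma fin (d : ℕ) (h : d ≠ 0) : ∃ l, f (l * d) = 1 := by
  obtain ⟨k, d, o, rfl⟩ := Nat.exists_eq_two_pow_mul_odd h
  have : ∀ k, ∃ n, n ≡ k * V [MOD d] ∧ f n = k := fun k => by
    induction k with
    | zero => exact ⟨0, by simp [Nat.ModEq], by simpa⟩
    | succ k ih =>
      obtain ⟨n, a, b⟩ := ih
      obtain ⟨K, hK⟩ := Nat.exists_eq_add_of_le (Nat.le_mul_of_pos_left (L + n) (Nat.totient_pos.2 o.pos))
      refine ⟨V * 2 ^ (L + (n + K)) + n, ?_, ?_⟩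
      · have := ((Nat.ModEq.pow_totient (Nat.coprime_two_left.2 o)).pow (L + n)).mul_left V
        rw [← pow_mul, hK, add_assoc, one_pow, mul_one] at this
        simpa [add_mul, add_comm] using this.add a
      · rw [add h0 h2 loc _ _ _ (Nat.lt_two_pow_self.trans_le (Nat.pow_le_pow_right two_pos (by omega))),
          hV, b]
        push_cast
        ring
  obtain ⟨n, a, b⟩ := this d
  obtain ⟨l, rfl⟩ := (Nat.modEq_zero_iff_dvd.1 (a.trans (Nat.modEq_zero_iff_dvd.2 (dvd_mul_right ..))))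
  exact ⟨l, by rw [mul_left_comm, mul_comm, pw h2, mul_comm, b, (ZMod.natCast_eq_one_iff_odd).2 o]⟩

lemma odd (l : ℕ) (o : Odd l) : ∃ d, f (l * d) = 1 ∧ ∀ j < l, f (j * d) = 0 := by
  obtain ⟨n1, n2, m, ne⟩ : ∃ n1 n2, n1 ≡ n2 [MOD 2 ^ L] ∧ f (n1 + 1) - f n1 ≠ f (n2 + 1) - f n2 := by
    by_contra! r
    have a : ∀ n, f (n + 2 ^ L) - f n = f (2 ^ L) := fun n => by
      induction n with
      | zero => simp [h0]
      | succ n ih => rw [add_right_comm]; linear_combination ih + r (n + 2 ^ L) n (by simp [Nat.ModEq])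
    have b : ∀ k, f (k * 2 ^ (L + 1)) = 0 := fun k => by
      induction k with
      | zero => simpa
      | succ k ih =>
        rw [show (k + 1) * 2 ^ (L + 1) = k * 2 ^ (L + 1) + 2 ^ L + 2 ^ L by ring]
        linear_combination ih + a (k * 2 ^ (L + 1)) + a (k * 2 ^ (L + 1) + 2 ^ L) +
          CharTwo.add_self_eq_zero (f (2 ^ L))
    simpa [pw h2, hV] using b V
  have lift : ∀ n, ∃ h, f (l * h + 1) - f (l * h) = f (n + 1) - f n ∧ l * h ≡ n [MOD 2 ^ L] := fun n => by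
    obtain ⟨h, -, e⟩ := Nat.exists_mul_mod_eq_of_coprime (k := 2 ^ (L + (n + 1))) n
      ((Nat.coprime_two_right.2 o).pow_right _) (by positivity)
    have p := Nat.lt_two_pow_self (n := n + 1)
    refine ⟨h, ?_, Nat.ModEq.of_dvd (pow_dvd_pow 2 (Nat.le_add_right ..)) e⟩
    rw [Nat.mod_eq_of_lt (show n < _ from (Nat.lt_of_succ_lt p).trans_le
      (Nat.pow_le_pow_right two_pos (by omega)))] at e
    rw [← Nat.div_add_mod' (l * h) (2 ^ (L + (n + 1))), e, add_assoc, add h0 h2 loc _ _ _ p,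
      add h0 h2 loc _ _ _ (Nat.lt_of_succ_lt p)]
    ring
  obtain ⟨h1, a1, b1⟩ := lift n1
  obtain ⟨h3, a2, b2⟩ := lift n2
  have m1 := b1.trans (m.trans b2.symm)
  have m2 := Nat.ModEq.cancel_left_of_coprime ((Nat.coprime_two_left.2 o).pow_left _) m1
  have k1 := Nat.lt_two_pow_self (n := l * l)
  obtain ⟨K, k1⟩ : ∃ K, l * l < 2 ^ K := ⟨_, k1⟩
  have l0 := o.pos
  have k2 := Nat.lt_mul_div_succ (2 ^ K) l0
  have k3 := Nat.mul_div_le (2 ^ K) l
  have k4 := (Nat.le_div_iff_mul_le l0).2 k1.le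
  generalize 2 ^ K / l = w at k2 k3 k4
  obtain ⟨r, hr⟩ := Nat.exists_eq_add_of_le k2.le
  obtain ⟨x, hx⟩ := cat h0 h2 loc l (h1 * 2 ^ K + (w + 1)) (h3 * 2 ^ K + (w + 1))
  obtain ⟨y, hy⟩ := cat h0 h2 loc l h1 h3
  obtain ⟨d, hd⟩ := cat h0 h2 loc l x y
  have z1 : ∀ a b c d : ZMod 2, a - b = c - d → a + c + (b + d) = 0 := by decide
  have z2 : ∀ a b c d x y : ZMod 2, a - b = c - d → b - x ≠ d - y → a + c + (x + y) = 1 := by decide
  refine ⟨d, ?_, fun j h => ?_⟩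
  · rw [hd l le_rfl, hx l le_rfl, hy l le_rfl, mul_add, mul_add l (h3 * _), hr, ← mul_assoc, ← mul_assoc,
      ← add_assoc (l * h1 * _), ← add_assoc (l * h3 * _), ← add_one_mul, ← add_one_mul]
    exact z2 _ _ _ _ _ _ (loc K _ _ r (by nlinarith) (m1.add_right 1)) (by rwa [a1, a2])
  · rw [hd j h.le, hx j h.le, hy j h.le, mul_add, mul_add j (h3 * _), ← mul_assoc, ← mul_assoc]
    exact z1 _ _ _ _ (loc K _ _ _ (by nlinarith [Nat.mul_le_mul_right (w + 1) h]) (m2.mul_left j))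
end

variable {L V : ℕ}

lemma e0 : e L V 0 = 0 := by rw [e]; simp

lemma er (h : V ≠ 0) (n : ℕ) : e L V n = (if n % 2 ^ L = V then 1 else 0) + e L V (n / 2) := by
  rw [e]
  split_ifs <;> simp_all [e0]

lemma loc (h : V ≠ 0) (K a a' b : ℕ) (hb : b < 2 ^ K) (m : a ≡ a' [MOD 2 ^ L]) :
    (e L V (a * 2 ^ K + b) : ZMod 2) - e L V a = e L V (a' * 2 ^ K + b) - e L V a' := by
  induction K generalizing b with
  | zero => simp [show b = 0 by omega]
  | succ K ih =>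
    have t : ∀ a, (a * 2 ^ (K + 1) + b) / 2 = a * 2 ^ K + b / 2 := fun a => by
      rw [pow_succ, ← mul_assoc]; omega
    rw [er h (a * _ + _), er h (a' * _ + _), t, t, show (a * 2 ^ (K + 1) + b) % 2 ^ L = _ from
      (m.mul_right _).add_right b]
    push_cast
    linear_combination ih (b / 2) (by omega)

lemma pack (h : V ≠ 0) (hV : V < 2 ^ L) : (∀ d ≠ 0, ∃ l, (e L V (l * d * 2 ^ L) : ZMod 2) = 1) ∧
    ∀ l, Odd l → ∃ d, (e L V (l * d * 2 ^ L) : ZMod 2) = 1 ∧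
      ∀ j < l, (e L V (j * d * 2 ^ L) : ZMod 2) = 0 := by
  have h0 : (e L V (0 * 2 ^ L) : ZMod 2) = 0 := by simp [e0]
  have h2 : ∀ n, (e L V (n * 2 * 2 ^ L) : ZMod 2) = e L V (n * 2 ^ L) := fun n => by
    rw [er h, mul_right_comm, Nat.mul_div_cancel _ two_pos, mul_right_comm, Nat.mul_mod_left,
      if_neg h.symm, zero_add]
  have a : ∀ m < V, e L V m = 0 := fun m => by
    induction m using Nat.strong_induction_on with | _ m ih =>
    intro l
    rw [e]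
    split_ifs with x y
    exacts [rfl, (l.ne (Nat.mod_eq_of_lt (l.trans hV) ▸ y)).elim, by rw [ih _ (by omega) (by omega)]]
  have b : ∀ k, e L V (V * 2 ^ k) = 1 := fun k => by
    induction k with
    | zero => rw [pow_zero, mul_one, er h, a _ (by omega), if_pos (Nat.mod_eq_of_lt hV)]
    | succ k ih =>
      rw [er h, pow_succ, ← mul_assoc, Nat.mul_div_cancel _ two_pos, ih, if_neg fun r => ?_]
      obtain ⟨t, ht⟩ := Nat.exists_eq_add_of_le' (Nat.two_pow_pos k)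
      have : V * 1 + V * (2 * t + 1) ≡ V * 1 + 0 [MOD 2 ^ L] := by
        rw [Nat.ModEq, show V * 1 + V * (2 * t + 1) = V * 2 ^ k * 2 by rw [ht]; ring, r]
        simp [Nat.mod_eq_of_lt hV]
      exact (Nat.le_of_dvd (Nat.pos_of_ne_zero h) (((Nat.coprime_two_left.2 ⟨t, rfl⟩).pow_left L
        ).dvd_of_dvd_mul_right (Nat.modEq_zero_iff_dvd.1 (this.add_left_cancel' _)))).not_gt hV
  have lc : ∀ K a a' b, b < 2 ^ K → a ≡ a' [MOD 2 ^ L] →
      (e L V ((a * 2 ^ K + b) * 2 ^ L) : ZMod 2) - e L V (a * 2 ^ L) =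
        e L V ((a' * 2 ^ K + b) * 2 ^ L) - e L V (a' * 2 ^ L) := fun K a a' b x y => by
    have p := loc h (K + L) a a' (b * 2 ^ L) (by rw [pow_add]; gcongr) y
    have q := loc h L a a' 0 (by positivity) y
    simp only [add_mul, mul_assoc, ← pow_add, add_zero] at q ⊢
    linear_combination p - q
  have hv : (e L V (V * 2 ^ L) : ZMod 2) = 1 := by simp [b]
  exact ⟨fin (f := fun n => e L V (n * 2 ^ L)) h0 h2 hv lc,
    odd (f := fun n => e L V (n * 2 ^ L)) h0 h2 hv lc⟩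

lemma mem (d l : ℕ) : l ∈ {l | 1 ≤ l ∧ ¬ e L V (0 + l * d) ≡ e L V 0 [MOD 2]} ↔
    (e L V (l * d) : ZMod 2) = 1 := by
  simp only [Set.mem_setOf_eq, e0, zero_add, ZMod.natCast_eq_one_iff_odd, Nat.odd_iff, Nat.ModEq]
  cases l <;> simp [e0]

lemma half {d j : ℕ} (d0 : 1 ≤ d) (j0 : 1 ≤ j) :
    e L V (2 * j * d) = (if 2 * j * d % 2 ^ L = V then 1 else 0) + e L V (j * d) := by
  rw [e, if_neg (by positivity), mul_assoc, Nat.mul_div_cancel_left _ two_pos]

lemma small {d j : ℕ} (d0 : 1 ≤ d) (j0 : 1 ≤ j) (h : 2 * j * d % 2 ^ L = V) :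
    ∃ l ≤ 2 * j, (e L V (l * d) : ZMod 2) = 1 := by
  have z : ∀ a : ZMod 2, a = 1 ∨ 1 + a = 1 := by decide
  exact (z _).elim (fun r => ⟨j, by omega, r⟩) fun r => ⟨_, le_rfl, by rw [half d0 j0, if_pos h]; simpa using r⟩

end Pool.Agent.H10.Pat
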