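import Pool.Agent.H10.PcDefs

namespace Pool.Agent.H10.Pc

open SimpleGraph Finset

variable {V : Type} [Fintype V] [DecidableEq V] {G : SimpleGraph V} [DecidableRel G.Adj]

lemma extend (K W : Finset V) (t : ℕ) (h : ∀ c ∈ K, (W \ G.neighborFinset c).card ≤ t)
    (ht : K.card * t < W.card) : ∃ w ∈ W, ∀ c ∈ K, G.Adj w c := by
  by_contra hc
  push Not at hc
  have h1 : W ⊆ K.biUnion fun c => W \ G.neighborFinset c := fun w hw => by
    obtain ⟨c, h2, h3⟩ := hc w hw
    exact mem_biUnion.mpr ⟨c, h2, mem_sdiff.mpr ⟨hw, fun h4 =>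
      h3 ((G.mem_neighborFinset _ _).mp h4).symm⟩⟩
  have := (card_le_card h1).trans (card_biUnion_le_card_mul _ _ t h)
  omega

lemma greedy (S : Finset V) (t : ℕ) (h : ∀ c ∈ S, (S \ G.neighborFinset c).card ≤ t) (j : ℕ)
    (hj : j * t < S.card) : ∃ K ⊆ S, G.IsNClique (j + 1) K := by
  induction j with
  | zero =>
    obtain ⟨x, hx⟩ := card_pos.mp (by omega : 0 < S.card)
    exact ⟨{x}, singleton_subset_iff.mpr hx, by simp⟩
  | succ j ih =>
    obtain ⟨K, hK, h1⟩ := ih (by nlinarith)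
    obtain ⟨w, hw, h2⟩ := extend (G := G) K S t (fun c hc => h c (hK hc)) (by rwa [h1.card_eq])
    exact ⟨insert w K, insert_subset hw hK, h1.insert h2⟩

lemma inter_card (G : SimpleGraph V) [DecidableRel G.Adj] (a b : V) : G.degree a + G.degree b ≤
    (G.neighborFinset a ∩ G.neighborFinset b).card + Fintype.card V := by
  have h1 := card_union_add_card_inter (G.neighborFinset a) (G.neighborFinset b)
  have h2 := card_le_univ (G.neighborFinset a ∪ G.neighborFinset b)
  rw [card_neighborFinset_eq_degree, card_neighborFinset_eq_degree] at h1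
  omega

variable {k δ : ℕ}

lemma comp (hK : G.CliqueFree (k + 4)) (hδ : ∀ x, δ ≤ G.degree x) (u : V) (S : Finset V)
    (hS : S ⊆ G.neighborFinset u) (hne : S.Nonempty)
    (h : ∀ c ∈ S, ∀ w ∈ G.neighborFinset u, G.Adj c w → w ∈ S) :
    (k + 2) * (δ + G.degree u) ≤ (k + 1) * S.card + (k + 2) * Fintype.card V := by
  have h1 : ∀ c ∈ S, (S \ G.neighborFinset c).card + δ + G.degree u ≤ S.card + Fintype.card V := by
    intro c hc
    have e1 := card_sdiff_add_card_inter S (G.neighborFinset c)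
    have e2 := inter_card G c u
    have e3 : G.neighborFinset c ∩ G.neighborFinset u ⊆ S ∩ G.neighborFinset c := fun w hw =>
      mem_inter.mpr ⟨h c hc w (mem_inter.mp hw).2 ((G.mem_neighborFinset _ _).mp
        (mem_inter.mp hw).1), (mem_inter.mp hw).1⟩
    have := card_le_card e3
    have := hδ c
    omega
  obtain ⟨c, hc⟩ := hne
  obtain ⟨t, ht⟩ : ∃ t, S.card + Fintype.card V = δ + G.degree u + t :=
    Nat.exists_eq_add_of_le (by have := h1 c hc; omega)
  by_contra h2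
  obtain ⟨K, g1, g2⟩ := greedy (G := G) S t (fun c hc => by have := h1 c hc; omega) (k + 2)
    (by nlinarith)
  exact hK _ (g2.insert (a := u) fun b hb => (G.mem_neighborFinset _ _).mp (hS (g1 hb)))

lemma loc (hK : G.CliqueFree (k + 4)) (hδ : ∀ x, δ ≤ G.degree x)
    (hn : (2 * k + 4) * Fintype.card V < (3 * k + 7) * δ) (u : V) (P : V → Prop)
    (h : ∀ a b, G.Adj u a → G.Adj u b → G.Adj a b → P a → P b) {a0 : V} (h0 : G.Adj u a0)
    (h1 : P a0) {a : V} (ha : G.Adj u a) : P a := by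
  classical
  by_contra hc
  have e1 := comp hK hδ u ((G.neighborFinset u).filter P) (filter_subset _ _)
    ⟨a0, by simp [h0, h1]⟩ fun c hc w hw h2 => by
      simp only [mem_filter, mem_neighborFinset] at hc hw ⊢
      exact ⟨hw, h c w hc.1 hw h2 hc.2⟩
  have e2 := comp hK hδ u ((G.neighborFinset u).filter fun x => ¬ P x) (filter_subset _ _)
    ⟨a, by simp [ha, hc]⟩ fun c hc w hw h2 => by
      simp only [mem_filter, mem_neighborFinset] at hc hw ⊢
      exact ⟨hw, fun h3 => hc.2 (h w c hw hc.1 h2.symm h3)⟩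
  have e3 := card_filter_add_card_filter_not (s := G.neighborFinset u) P
  rw [card_neighborFinset_eq_degree] at e3
  have := hδ u
  nlinarith

def Bad (G : SimpleGraph V) (v x y : V) : Prop :=
  (∀ c, G.Adj v c → G.Adj x c → ¬ G.Adj y c) ∧
    ∀ c c', G.Adj v c → G.Adj x c → G.Adj v c' → G.Adj y c' → ¬ G.Adj c c'

omit [Fintype V] [DecidableEq V] [DecidableRel G.Adj] in
lemma Bad.symm {v x y : V} (h : Bad G v x y) : Bad G v y x :=
  ⟨fun c h1 h2 h3 => h.1 c h1 h3 h2, fun c c' h1 h2 h3 h4 h5 => h.2 c' c h3 h4 h1 h2 h5.symm⟩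

lemma twobad (hK : G.CliqueFree (k + 4)) (hδ : ∀ x, δ ≤ G.degree x)
    (hn : (2 * k + 4) * Fintype.card V < (3 * k + 7) * δ) {v x y z : V} (h1 : Bad G v x y)
    (h2 : Bad G v x z) (Z : Finset V) (hZ : ∀ w ∈ Z, G.Adj y w)
    (h3 : 2 * δ ≤ Z.card + Fintype.card V)
    (h4 : Z.card ≤ (k + 1) * (Z \ G.neighborFinset z).card) : False := by
  set W := (G.neighborFinset v \ G.neighborFinset y) \ G.neighborFinset z with hW
  set S := G.neighborFinset v ∩ G.neighborFinset x with hS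
  have s1 : S ⊆ W := fun c hc => by
    simp only [hS, hW, mem_inter, mem_sdiff, mem_neighborFinset] at hc ⊢
    exact ⟨⟨hc.1, h1.1 c hc.1 hc.2⟩, h2.1 c hc.1 hc.2⟩
  have s2 : 2 * δ ≤ S.card + Fintype.card V := by
    have := inter_card G v x
    rw [← hS] at this
    have := hδ v
    have := hδ x
    omega
  have s3 : ∀ c ∈ S, (W \ G.neighborFinset c).card + 2 * δ ≤ W.card + Fintype.card V := by
    intro c hc
    have e1 := card_sdiff_add_card_inter W (G.neighborFinset c)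
    have e2 := inter_card G c v
    have e3 : G.neighborFinset c ∩ G.neighborFinset v ⊆ W ∩ G.neighborFinset c := fun w hw => by
      simp only [hS, hW, mem_inter, mem_sdiff, mem_neighborFinset] at hc hw ⊢
      exact ⟨⟨⟨hw.2, fun g => h1.2 c w hc.1 hc.2 hw.2 g hw.1⟩,
        fun g => h2.2 c w hc.1 hc.2 hw.2 g hw.1⟩, hw.1⟩
    have := card_le_card e3
    have := hδ c
    have := hδ v
    omega
  have s4 : W.card + (Z \ G.neighborFinset z).card + δ ≤ Fintype.card V := by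
    have e1 : Disjoint W (Z \ G.neighborFinset z) := disjoint_left.mpr fun w g1 g2 => by
      simp only [hW, mem_sdiff, mem_neighborFinset] at g1 g2
      exact g1.1.2 (hZ w g2.1)
    have e2 : Disjoint (W ∪ Z \ G.neighborFinset z) (G.neighborFinset z) :=
      disjoint_left.mpr fun w g1 g2 => (mem_union.mp g1).elim (fun g => (mem_sdiff.mp g).2 g2)
        fun g => (mem_sdiff.mp g).2 g2
    have e3 := card_le_univ ((W ∪ Z \ G.neighborFinset z) ∪ G.neighborFinset z)
    rw [card_union_of_disjoint e2, card_union_of_disjoint e1, card_neighborFinset_eq_degree] at e3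
    have := hδ z
    omega
  have s5 := card_le_card s1
  obtain ⟨t, ht⟩ : ∃ t, W.card + Fintype.card V = 2 * δ + t := Nat.exists_eq_add_of_le (by omega)
  have s6 : (k + 1) * t + Fintype.card V < 2 * δ := by
    by_contra hc
    nlinarith
  obtain ⟨K, g1, g2⟩ := greedy (G := G) S t (fun c hc => by
    have := s3 c hc
    have := card_le_card (sdiff_subset_sdiff s1 (Subset.refl (G.neighborFinset c)))
    omega) (k + 1) (by omega)
  obtain ⟨w, hw, g3⟩ := extend (G := G) K W t (fun c hc => by have := s3 c (g1 hc); omega)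
    (by rw [g2.card_eq]; nlinarith)
  refine hK _ ((g2.insert g3).insert (a := v) fun b hb => ?_)
  have : b ∈ W := (mem_insert.mp hb).elim (fun g => g ▸ hw) fun g => s1 (g1 g)
  exact (G.mem_neighborFinset _ _).mp (mem_sdiff.mp (mem_sdiff.mp this).1).1

lemma cn (hδ : ∀ x, δ ≤ G.degree x) (hn : (2 * k + 4) * Fintype.card V < (3 * k + 7) * δ)
    (a b : V) : ∃ c, G.Adj a c ∧ G.Adj b c := by
  have h1 := inter_card G a b
  have := hδ a
  have := hδ b
  obtain ⟨c, hc⟩ := card_pos.mp (show 0 < (G.neighborFinset a ∩ G.neighborFinset b).card by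
    by_contra h; nlinarith)
  exact ⟨c, by simpa using hc⟩

lemma third (hK : G.CliqueFree (k + 4)) (hδ : ∀ x, δ ≤ G.degree x)
    (hn : (2 * k + 4) * Fintype.card V < (3 * k + 7) * δ) {v x y : V} (h : G.Adj x y)
    (h1 : Bad G v x y) : ∃ z, G.Adj x z ∧ G.Adj y z ∧ ¬ Bad G v x z ∧ ¬ Bad G v y z := by
  set Z := G.neighborFinset x ∩ G.neighborFinset y with hZ
  have z1 : ∀ w ∈ Z, G.Adj x w ∧ G.Adj y w := fun w hw => by simpa [hZ] using hw
  have z2 : 2 * δ ≤ Z.card + Fintype.card V := by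
    have := inter_card G x y
    rw [← hZ] at this
    have := hδ x
    have := hδ y
    omega
  obtain ⟨z, hz, h2⟩ : ∃ z ∈ Z, Z.card ≤ (k + 1) * (Z \ G.neighborFinset z).card := by
    by_contra hc
    push Not at hc
    obtain ⟨c, hc2⟩ := cn hδ hn x y
    have z3 : 0 < Z.card := card_pos.mpr ⟨c, by simpa [hZ] using hc2⟩
    obtain ⟨K, g1, g2⟩ := greedy (G := G) Z ((Z.card - 1) / (k + 1)) (fun c hc2 =>
      (Nat.le_div_iff_mul_le (by omega)).mpr (by have := hc c hc2; rw [mul_comm]; omega)) (k + 1)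
      (by have := Nat.mul_div_le (Z.card - 1) (k + 1); omega)
    refine hK _ ((g2.insert (a := y) fun b hb => (z1 b (g1 hb)).2).insert (a := x) fun b hb => ?_)
    exact (mem_insert.mp hb).elim (fun g => g ▸ h) fun g => (z1 b (g1 g)).1
  exact ⟨z, (z1 z hz).1, (z1 z hz).2,
    fun h3 => twobad hK hδ hn h1 h3 Z (fun w hw => (z1 w hw).2) z2 h2,
    fun h3 => twobad hK hδ hn h1.symm h3 Z (fun w hw => (z1 w hw).1) z2 h2⟩

theorem abs {Γ : Type} [Group Γ] (hK : G.CliqueFree (k + 4)) (hδ : ∀ x, δ ≤ G.degree x)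
    (hn : (2 * k + 4) * Fintype.card V < (3 * k + 7) * δ) (v : V) (e : V → V → Γ)
    (E1 : ∀ x y, G.Adj x y → e y x = (e x y)⁻¹)
    (E2 : ∀ a b b' c, G.Adj a b → G.Adj b c → G.Adj a b' → G.Adj b' c →
      e a b * e b c = e a b' * e b' c)
    (E4 : ∀ c x, G.Adj v c → G.Adj c x → e v c * e c x = 1) :
    ∃ g, ∀ x y, G.Adj x y → e x y ∈ Subgroup.zpowers g := by
  have tri : ∀ (H : Subgroup Γ) (u a0 b0 : V), G.Adj u a0 → G.Adj u b0 → G.Adj a0 b0 →
      e u a0 * e a0 b0 * e b0 u ∈ H → ∀ a b, G.Adj u a → G.Adj u b → G.Adj a b →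
        e u a * e a b * e b u ∈ H := by
    intro H u a0 b0 h1 h2 h3 h4 a b ha
    refine loc hK hδ hn u (fun a => ∀ b, G.Adj u b → G.Adj a b → e u a * e a b * e b u ∈ H)
      (fun a b g1 g2 g3 g4 c g5 g6 => ?_) h1 (fun b g1 g2 => ?_) ha b
    · rw [mul_assoc, E2 b c a u g6 g5.symm g3.symm g1.symm, E1 a b g3, E1 u a g1,
        ← inv_inv (e u b), ← E1 u b g2, ← mul_inv_rev, ← mul_inv_rev]
      exact H.inv_mem (g4 b g2 g3)
    · rwa [mul_assoc, E2 a0 b b0 u g2 g1.symm h3 h2.symm, ← mul_assoc]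
  obtain ⟨a0, h0, -⟩ := cn hδ hn v v
  obtain ⟨b0, h1, h2⟩ := cn hδ hn v a0
  refine ⟨e v a0 * e a0 b0 * e b0 v, ?_⟩
  set H := Subgroup.zpowers (e v a0 * e a0 b0 * e b0 v)
  have sy : ∀ x y, G.Adj x y → e x y ∈ H → e y x ∈ H := fun x y h g => E1 x y h ▸ H.inv_mem g
  have s1 : ∀ c, G.Adj v c → e v c ∈ H := fun c hc => by
    obtain ⟨u, g1, g2⟩ := cn hδ hn v c
    have := tri H v a0 b0 h0 h1 h2 (Subgroup.mem_zpowers _) u c g1 hc g2.symm
    rw [E4 u c g1 g2.symm, one_mul] at this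
    exact sy _ _ hc.symm this
  have s2 : ∀ c x, G.Adj v c → G.Adj c x → e c x ∈ H := fun c x g1 g2 =>
    (eq_inv_of_mul_eq_one_right (E4 c x g1 g2)) ▸ H.inv_mem (s1 c g1)
  have s3 : ∀ c x y, G.Adj v c → G.Adj x c → G.Adj y c → G.Adj x y → e x y ∈ H := by
    intro c x y g1 g2 g3 g4
    obtain ⟨u, g5, g6⟩ := cn hδ hn v c
    have := tri H c v u g1.symm g6 g5 (H.mul_mem (H.mul_mem (s2 c v g1 g1.symm) (s1 u g5))
      (s2 u c g5 g6.symm)) x y g2.symm g3.symm g4
    rwa [H.mul_mem_cancel_right (sy _ _ g3.symm (s2 c y g1 g3.symm)),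
      H.mul_mem_cancel_left (s2 c x g1 g2.symm)] at this
  have s4 : ∀ x y, G.Adj x y → ¬ Bad G v x y → e x y ∈ H := by
    intro x y h hb
    by_contra hc
    refine hb ⟨fun c g1 g2 g3 => hc (s3 c x y g1 g2 g3 h), fun c c' g1 g2 g3 g4 g5 => hc ?_⟩
    rw [← H.mul_mem_cancel_left (s2 c x g1 g2.symm), E2 c x c' y g2.symm h g5 g4.symm]
    exact H.mul_mem (s2 c c' g1 g5) (s2 c' y g3 g4.symm)
  intro x y h
  by_cases hb : Bad G v x y
  · obtain ⟨z, g1, g2, g3, g4⟩ := third hK hδ hn h hb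
    obtain ⟨c, g5, g6⟩ := cn hδ hn v x
    obtain ⟨u, g7, g8⟩ := cn hδ hn x c
    have := tri H x c u g6 g7 g8 (H.mul_mem (H.mul_mem (sy _ _ g6.symm (s2 c x g5 g6.symm))
      (s2 c u g5 g8)) (s3 c u x g5 g8.symm g6 g7.symm)) y z h g1 g2
    rwa [H.mul_mem_cancel_right (sy _ _ g1 (s4 x z g1 g3)),
      H.mul_mem_cancel_right (s4 y z g2 g4)] at this
  · exact s4 x y h hb

end Pool.Agent.H10.Pc
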