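import Pool.Agent.H10.PcA

namespace Pool.Agent.H10.Pc

open SimpleGraph Relation

variable {V : Type} {G : SimpleGraph V}

lemma Homot.refl {u w : V} (p : G.Walk u w) : Homot G p p := EqvGen.refl _
lemma Homot.symm {u w : V} {p q : G.Walk u w} (h : Homot G p q) : Homot G q p := EqvGen.symm _ _ h
lemma Homot.trans {u w : V} {p q r : G.Walk u w} (h : Homot G p q) (h' : Homot G q r) :
    Homot G p r := EqvGen.trans _ _ _ h h'

lemma Homot.map {u w u' w' : V} (f : G.Walk u w → G.Walk u' w')
    (hf : ∀ p q, Move G p q → Move G (f p) (f q)) {p q : G.Walk u w} (h : Homot G p q) :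
    Homot G (f p) (f q) := by
  induction h with
  | rel _ _ h => exact EqvGen.rel _ _ (hf _ _ h)
  | refl => exact EqvGen.refl _
  | symm _ _ _ ih => exact ih.symm
  | trans _ _ _ _ _ ih ih' => exact ih.trans ih'

lemma Homot.left {t u w : V} (r : G.Walk t u) {p q : G.Walk u w} (h : Homot G p q) :
    Homot G (r.append p) (r.append q) := h.map _ fun p q h => by
  cases h with
  | sub p h1 h2 h3 h4 q => simpa only [Walk.append_assoc] using Move.sub (r.append p) h1 h2 h3 h4 q
  | ins p h q => simpa only [Walk.append_assoc] using Move.ins (r.append p) h q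

lemma Homot.right {t u w : V} (r : G.Walk w t) {p q : G.Walk u w} (h : Homot G p q) :
    Homot G (p.append r) (q.append r) := h.map (fun p => p.append r) fun p q h => by
  cases h with
  | sub p h1 h2 h3 h4 q =>
    simpa only [← Walk.append_assoc, Walk.cons_append] using Move.sub p h1 h2 h3 h4 (q.append r)
  | ins p h q =>
    simpa only [← Walk.append_assoc, Walk.cons_append] using Move.ins p h (q.append r)

lemma Homot.rev {u w : V} {p q : G.Walk u w} (h : Homot G p q) :
    Homot G p.reverse q.reverse := h.map _ fun p q h => by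
  cases h with
  | sub p h1 h2 h3 h4 q =>
    simpa only [← Walk.append_assoc, Walk.cons_append, Walk.reverse_append, Walk.reverse_cons,
      Walk.nil_append] using Move.sub q.reverse h2.symm h1.symm h4.symm h3.symm p.reverse
  | ins p h q =>
    simpa only [← Walk.append_assoc, Walk.cons_append, Walk.reverse_append, Walk.reverse_cons,
      Walk.nil_append] using Move.ins q.reverse h p.reverse

lemma cancel {u w t : V} (p : G.Walk u w) (q : G.Walk w t) :
    Homot G (p.reverse.append (p.append q)) q := by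
  induction p with
  | nil => exact Homot.refl _
  | cons h p ih =>
    refine Homot.trans ?_ (ih q)
    simpa only [← Walk.append_assoc, Walk.cons_append, Walk.reverse_cons, Walk.nil_append] using
      Homot.symm (EqvGen.rel _ _ (Move.ins p.reverse h.symm (p.append q)))

def st (G : SimpleGraph V) (v : V) : Setoid (G.Walk v v) :=
  ⟨Homot G, Homot.refl, Homot.symm, Homot.trans⟩

def Pi1 (G : SimpleGraph V) (v : V) : Type := Quotient (st G v)

def cl {v : V} (p : G.Walk v v) : Pi1 G v := Quotient.mk (st G v) p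

instance (v : V) : Mul (Pi1 G v) := ⟨Quotient.map₂ (fun p q => p.append q)
  fun _ _ h _ _ h' => (Homot.right _ h).trans (Homot.left _ h')⟩
instance (v : V) : One (Pi1 G v) := ⟨cl .nil⟩
instance (v : V) : Inv (Pi1 G v) := ⟨Quotient.map (fun p => p.reverse) fun _ _ h => Homot.rev h⟩

instance (v : V) : Group (Pi1 G v) := Group.ofLeftAxioms
  (by
    rintro ⟨a⟩ ⟨b⟩ ⟨c⟩
    exact congrArg cl (Walk.append_assoc a b c).symm)
  (by
    rintro ⟨a⟩
    rfl)
  (by
    rintro ⟨a⟩
    have h : Homot G (a.reverse.append a) .nil := by simpa using cancel a .nil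
    exact Quotient.sound h)

lemma cl_mul {v : V} (p q : G.Walk v v) : cl p * cl q = cl (p.append q) := rfl
lemma cl_inv {v : V} (p : G.Walk v v) : (cl p)⁻¹ = cl p.reverse := rfl
lemma cl_eq {v : V} {p q : G.Walk v v} : cl p = cl q ↔ Homot G p q := Quotient.eq

lemma cl_pw {v : V} (g : G.Walk v v) (n : ℕ) : cl (pw g n) = cl g ^ n := by
  induction n with
  | zero => rfl
  | succ n ih => rw [pow_succ', ← ih]; rfl

lemma cl_join {v x y z : V} (r : G.Walk v x) (s : G.Walk v y) (t : G.Walk v z) (p : G.Walk x y)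
    (q : G.Walk y z) : cl (r.append (p.append s.reverse)) * cl (s.append (q.append t.reverse)) =
      cl (r.append ((p.append q).append t.reverse)) := by
  rw [cl_mul, cl_eq]
  simpa only [← Walk.append_assoc] using ((cancel s (q.append t.reverse)).left p).left r

theorem cyclic [Fintype V] [DecidableEq V] [DecidableRel G.Adj] {k δ : ℕ}
    (hK : G.CliqueFree (k + 4)) (hδ : ∀ x, δ ≤ G.degree x)
    (hn : (2 * k + 4) * Fintype.card V < (3 * k + 7) * δ) (v : V) : Cyclic G v := by
  choose c c1 c2 using cn hδ hn v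
  let r : ∀ x, G.Walk v x := fun x => .cons (c1 x) (.cons (c2 x).symm .nil)
  let e : V → V → Pi1 G v := fun x y =>
    if h : G.Adj x y then cl ((r x).append ((Walk.cons h .nil).append (r y).reverse)) else 1
  have r0 : Homot G (r v) .nil := Homot.symm (EqvGen.rel _ _ (Move.ins .nil (c1 v) .nil))
  have r1 : ∀ x, cl ((r x).append (r x).reverse) = 1 := fun x =>
    cl_eq.mpr (by simpa using cancel (r x).reverse .nil)
  have e2 : ∀ a b d (h1 : G.Adj a b) (h2 : G.Adj b d), e a b * e b d =
      cl ((r a).append ((Walk.cons h1 (.cons h2 .nil)).append (r d).reverse)) := by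
    intro a b d h1 h2
    simp only [e, dif_pos h1, dif_pos h2]
    exact cl_join _ _ _ _ _
  obtain ⟨g, hg⟩ := abs hK hδ hn v e (fun x y h => by
    simp only [e, dif_pos h, dif_pos h.symm, cl_inv]
    simp [← Walk.append_assoc]) (fun a b b' d h1 h2 h3 h4 => by
    rw [e2 a b d h1 h2, e2 a b' d h3 h4, cl_eq]
    exact EqvGen.rel _ _ (Move.sub _ h1 h2 h3 h4 _)) (fun b x h1 h2 => by
    rw [e2 v b x h1 h2, ← r1 x, cl_eq]
    exact (r0.right _).trans (EqvGen.rel _ _ (Move.sub .nil h1 h2 (c1 x) (c2 x).symm _)))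
  have h1 : ∀ x y (p : G.Walk x y), cl ((r x).append (p.append (r y).reverse)) ∈
      Subgroup.zpowers g := by
    intro x y p
    induction p with
    | nil => exact (r1 _).symm ▸ Subgroup.one_mem _
    | @cons x z y h p ih =>
      have := Subgroup.mul_mem _ (hg x z h) ih
      simp only [e, dif_pos h] at this
      rwa [cl_join] at this
  obtain ⟨g, rfl⟩ := Quotient.exists_rep g
  refine ⟨g, fun p => ?_⟩
  obtain ⟨n, h2⟩ := h1 v v p
  have h3 : cl ((r v).append (p.append (r v).reverse)) = cl p :=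
    cl_eq.mpr ((r0.right _).trans (by simpa using r0.rev.left p))
  simp only [h3] at h2
  obtain ⟨m, rfl | rfl⟩ := n.eq_nat_or_neg
  · exact ⟨m, Or.inl (cl_eq.mp (by rw [cl_pw, ← h2, zpow_natCast]; rfl))⟩
  · exact ⟨m, Or.inr (cl_eq.mp (by rw [cl_pw, ← h2, zpow_neg, zpow_natCast, ← cl_inv, inv_pow]; rfl))⟩

def wt {Γ : Type} [AddCommGroup Γ] (φ : V → V → Γ) : ∀ {u w : V}, G.Walk u w → Γ
  | _, _, .nil => 0
  | _, _, .cons (u := a) (v := b) _ p => φ a b + wt φ p

lemma wt_append {Γ : Type} [AddCommGroup Γ] (φ : V → V → Γ) {u w t : V} (p : G.Walk u w)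
    (q : G.Walk w t) : wt φ (p.append q) = wt φ p + wt φ q := by
  induction p with
  | nil => simp [wt]
  | cons h p ih => simp [wt, ih, add_assoc]

theorem not_cyclic (φ : V → V → ZMod 2 × ZMod 2)
    (h1 : ∀ a b b' c, G.Adj a b → G.Adj b c → G.Adj a b' → G.Adj b' c →
      φ a b + φ b c = φ a b' + φ b' c) (h2 : ∀ a b, φ a b = φ b a) {v : V} (p q : G.Walk v v)
    (hp : wt φ p = (1, 0)) (hq : wt φ q = (0, 1)) : ¬ Cyclic G v := by
  have two : ∀ x : ZMod 2 × ZMod 2, x + x = 0 := by decide
  have inv : ∀ p q : G.Walk v v, Homot G p q → wt φ p = wt φ q := by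
    intro p q h
    induction h with
    | rel _ _ h =>
      cases h with
      | @sub a b b' c p g1 g2 g3 g4 q =>
        rw [wt_append, wt_append, wt, wt, wt, wt, ← add_assoc (φ a b), ← add_assoc (φ a b'),
          h1 _ _ _ _ g1 g2 g3 g4]
      | @ins a b p g q =>
        rw [wt_append, wt_append, wt, wt, h2 b a, ← add_assoc (φ a b), two, zero_add]
    | refl => rfl
    | symm _ _ _ ih => exact ih.symm
    | trans _ _ _ _ _ ih ih' => exact ih.trans ih'
  have rev : ∀ {u w : V} (p : G.Walk u w), wt φ p.reverse = wt φ p := by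
    intro u w p
    induction p with
    | nil => rfl
    | @cons a b c h p ih =>
      rw [Walk.reverse_cons, wt_append, wt, wt, wt, ih, h2 b a, add_zero, add_comm]
  have pow : ∀ (g : G.Walk v v) n, wt φ (pw g n) = 0 ∨ wt φ (pw g n) = wt φ g := by
    intro g n
    induction n with
    | zero => exact Or.inl rfl
    | succ n ih =>
      rw [pw, wt_append]
      rcases ih with ih | ih <;> rw [ih]
      · exact Or.inr (add_zero _)
      · exact Or.inl (two _)
  rintro ⟨g, hg⟩
  have key : ∀ p : G.Walk v v, wt φ p = 0 ∨ wt φ p = wt φ g := fun p => by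
    obtain ⟨n, h | h⟩ := hg p
    · exact inv _ _ h ▸ pow g n
    · exact inv _ _ h ▸ rev g ▸ pow g.reverse n
  have k1 := (key p).resolve_left (by rw [hp]; decide)
  have k2 := (key q).resolve_left (by rw [hq]; decide)
  rw [hp] at k1
  rw [hq, ← k1] at k2
  exact absurd k2 (by decide)

def ex (k : ℕ) : SimpleGraph ((Bool × Fin (k + 2)) ⊕ Fin (k + 3)) where
  Adj
    | .inl x, .inl y => x.1 = y.1 ∧ x.2 ≠ y.2
    | .inl _, .inr _ => True
    | .inr _, .inl _ => True
    | .inr _, .inr _ => False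
  symm := ⟨by rintro (x | x) (y | y) h <;> first | exact ⟨h.1.symm, h.2.symm⟩ | exact h⟩
  loopless := ⟨by rintro (x | x) h; exacts [h.2 rfl, h]⟩

lemma ex_col (k : ℕ) : (ex k).Colorable (k + 3) :=
  ⟨Coloring.mk (Sum.elim (fun x => x.2.castSucc) fun _ => Fin.last _) (by
    rintro (x | x) (y | y) h
    · exact fun g => h.2 (Fin.castSucc_injective _ g)
    · exact (Fin.castSucc_lt_last _).ne
    · exact (Fin.castSucc_lt_last _).ne'
    · exact h.elim)⟩

lemma ex_deg (k : ℕ) [DecidableRel (ex k).Adj] (x) : 2 * k + 4 ≤ (ex k).degree x := by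
  rw [← card_neighborFinset_eq_degree]
  rcases x with ⟨b, i⟩ | x
  · have h : ((Finset.univ.erase i).map ⟨fun j => (b, j), Prod.mk_right_injective b⟩).disjSum
        Finset.univ ⊆ (ex k).neighborFinset (.inl (b, i)) := by
      rintro (⟨c, j⟩ | y) hy
      · simp only [Finset.inl_mem_disjSum, Finset.mem_map, Finset.mem_erase] at hy
        obtain ⟨l, h1, h2⟩ := hy
        obtain ⟨rfl, rfl⟩ := Prod.mk.inj h2
        exact (mem_neighborFinset _ _ _).mpr ⟨rfl, h1.1.symm⟩
      · exact (mem_neighborFinset _ _ _).mpr trivial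
    have := Finset.card_le_card h
    simp at this
    simp
    omega
  · have h : (Finset.univ : Finset (Bool × Fin (k + 2))).disjSum (∅ : Finset (Fin (k + 3))) ⊆
        (ex k).neighborFinset (.inr x) := by
      rintro (y | y) hy
      · exact (mem_neighborFinset _ _ _).mpr trivial
      · simp at hy
    have := Finset.card_le_card h
    simp at this
    simp
    omega

def ph (k : ℕ) : (Bool × Fin (k + 2)) ⊕ Fin (k + 3) → (Bool × Fin (k + 2)) ⊕ Fin (k + 3) →
    ZMod 2 × ZMod 2
  | .inl (true, _), .inl (true, _) => (1, 0)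
  | .inl (false, _), .inl (false, _) => (0, 1)
  | _, _ => 0

lemma ex_not (k : ℕ) : ¬ Cyclic (ex k) (.inr 0) := by
  have h : ∀ b, (ex k).Adj (.inl (b, 0)) (.inl (b, 1)) := fun b => ⟨rfl, by simp⟩
  have g : ∀ x, (ex k).Adj (.inr 0) (.inl x) := fun _ => trivial
  refine not_cyclic (ph k) ?_ ?_
    (.cons (g _) (.cons (h true) (.cons (g _).symm .nil)))
    (.cons (g _) (.cons (h false) (.cons (g _).symm .nil)))
    (by simp [wt, ph]) (by simp [wt, ph])
  · rintro (⟨_ | _, a⟩ | a) (⟨_ | _, b⟩ | b) (⟨_ | _, b'⟩ | b') (⟨_ | _, c⟩ | c) h1 h2 h3 h4 <;>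
      first | rfl | (simp [ex] at h1 h2 h3 h4; done) | (simp only [ph]; decide)
  · rintro (⟨_ | _, a⟩ | a) (⟨_ | _, b⟩ | b) <;> rfl

open Classical in
lemma mem_set {W : Type} [Fintype W] (H : SimpleGraph W) (k : ℕ) (hW : Fintype.card W ≤ k + 4) :
    ∀ (V : Type) [Fintype V] (G : SimpleGraph V), H.Free G →
      ((2 * k + 4 : ℝ) / (3 * k + 7)) * Fintype.card V < G.minDegree → ∀ v, Cyclic G v := by
  intro V _ G h1 h2 v
  refine cyclic (k := k) (δ := G.minDegree) (CliqueFree.mono hW ?_) G.minDegree_le_degree ?_ v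
  · exact cliqueFree_iff_top_free.mpr fun h => h1 ((IsContained.of_le le_top).trans h)
  · rw [div_mul_eq_mul_div, div_lt_iff₀ (by positivity), mul_comm (G.minDegree : ℝ)] at h2
    exact_mod_cast h2

theorem upper {W : Type} [Fintype W] (H : SimpleGraph W) (k : ℕ) (hW : Fintype.card W ≤ k + 4) :
    deltaCyc H ≤ (2 * k + 4 : ℝ) / (3 * k + 7) :=
  csInf_le ⟨0, fun _ h => h.1⟩ ⟨by positivity, mem_set H k hW⟩

theorem lower {W : Type} [Fintype W] (H : SimpleGraph W) (k : ℕ) (hH : ¬ H.Colorable (k + 3)) :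
    (2 * k + 4 : ℝ) / (3 * k + 7) ≤ deltaCyc H := by
  classical
  refine le_csInf ⟨_, by positivity, mem_set H (Fintype.card W) (by omega)⟩ fun α hα => ?_
  by_contra hc
  refine ex_not k (hα.2 _ (ex k) (fun ⟨f⟩ => hH ⟨(ex_col k).some.comp f.toHom⟩) ?_ _)
  rw [not_le, lt_div_iff₀ (by positivity)] at hc
  have h1 := (ex k).le_minDegree_of_forall_le_degree _ (@ex_deg k (fun _ _ => Classical.propDecidable _))
  refine lt_of_lt_of_le ?_ (Nat.cast_le.mpr h1)
  simp only [Fintype.card_sum, Fintype.card_prod, Fintype.card_bool, Fintype.card_fin]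
  push_cast
  linarith

end Pool.Agent.H10.Pc
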