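import Pool.Agent.H10.PcB

namespace Pool.Agent.H10.Pc

open SimpleGraph Relation

lemma hexc {p1 p2 p3 p4 p5 p6 : Prop} [Decidable p1] [Decidable p2] [Decidable p3]
    [Decidable p4] [Decidable p5] [Decidable p6]
    (hu : 3 ≤ (if p1 then 1 else 0) + (if p2 then 1 else 0) + (if p3 then 1 else 0) +
      (if p4 then 1 else 0) + (if p5 then 1 else 0) + (if p6 then 1 else 0))
    (t1 : p1 → p2 → False) (t2 : p2 → p3 → False) (t3 : p3 → p4 → False) (t4 : p4 → p5 → False)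
    (t5 : p5 → p6 → False) (t6 : p6 → p1 → False) : (p1 ∧ p3 ∧ p5) ∨ (p2 ∧ p4 ∧ p6) := by
  by_cases h1 : p1 <;> by_cases h2 : p2 <;> by_cases h3 : p3 <;> by_cases h4 : p4 <;>
    by_cases h5 : p5 <;> by_cases h6 : p6 <;> first
    | exact Or.inl ⟨h1, h3, h5⟩ | exact Or.inr ⟨h2, h4, h6⟩ | exact (t1 h1 h2).elim
    | exact (t2 h2 h3).elim | exact (t3 h3 h4).elim | exact (t4 h4 h5).elim
    | exact (t5 h5 h6).elim | exact (t6 h6 h1).elim
    | (simp [h1, h2, h3, h4, h5, h6] at hu; done)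

lemma sixc {q : Prop} {p1 p2 p3 p4 p5 p6 : Prop} [Decidable p1] [Decidable p2] [Decidable p3]
    [Decidable p4] [Decidable p5] [Decidable p6]
    (hu : 3 ≤ (if p1 then 1 else 0) + (if p2 then 1 else 0) + (if p3 then 1 else 0) +
      (if p4 then 1 else 0) + (if p5 then 1 else 0) + (if p6 then 1 else 0))
    (t1 : p1 → p3 → False) (t2 : p1 → p4 → False) (t3 : p2 → p5 → False) (t4 : p2 → p6 → False)
    (a1 : p1 → p5 → p6 → q) (a2 : p2 → p3 → p4 → q) (a3 : p3 → p4 → p5 → q)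
    (a4 : p3 → p4 → p6 → q) (a5 : p5 → p6 → p3 → q) (a6 : p5 → p6 → p4 → q) : q := by
  by_cases h1 : p1 <;> by_cases h2 : p2 <;> by_cases h3 : p3 <;> by_cases h4 : p4 <;>
    by_cases h5 : p5 <;> by_cases h6 : p6 <;> first
    | exact (t1 h1 h3).elim | exact (t2 h1 h4).elim | exact (t3 h2 h5).elim
    | exact (t4 h2 h6).elim | exact a1 h1 h5 h6 | exact a2 h2 h3 h4 | exact a3 h3 h4 h5
    | exact a4 h3 h4 h6 | exact a5 h5 h6 h3 | exact a6 h5 h6 h4
    | (simp [h1, h2, h3, h4, h5, h6] at hu; done)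

section
variable {V : Type} [Fintype V] [DecidableEq V] {G : SimpleGraph V} [DecidableRel G.Adj] {δ : ℕ}

lemma six (hδ : ∀ x, δ ≤ G.degree x) (hn : Fintype.card V < 3 * δ) (a b c d e f : V) :
    ∃ u, 3 ≤ (if G.Adj a u then 1 else 0) + (if G.Adj b u then 1 else 0) +
      (if G.Adj c u then 1 else 0) + (if G.Adj d u then 1 else 0) + (if G.Adj e u then 1 else 0) +
        (if G.Adj f u then 1 else 0) := by
  by_contra hc
  push Not at hc
  have h1 : ∀ x, ∑ u, (if G.Adj x u then 1 else 0) = G.degree x := fun x => by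
    rw [← Finset.card_filter, ← card_neighborFinset_eq_degree, neighborFinset_eq_filter]
  have h2 := Finset.sum_le_card_nsmul Finset.univ _ 2 fun u _ => Nat.le_of_lt_succ (hc u)
  simp only [Finset.sum_add_distrib, h1, Finset.card_univ, smul_eq_mul] at h2
  have := hδ a
  have := hδ b
  have := hδ c
  have := hδ d
  have := hδ e
  have := hδ f
  omega

lemma hex (T : ∀ a b c, G.Adj a b → G.Adj a c → G.Adj b c → False) (hδ : ∀ x, δ ≤ G.degree x)
    (hn : Fintype.card V < 3 * δ) {a b c d e f : V} (h1 : G.Adj a b) (h2 : G.Adj b c)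
    (h3 : G.Adj c d) (h4 : G.Adj d e) (h5 : G.Adj e f) (h6 : G.Adj f a) :
    ∃ u, (G.Adj a u ∧ G.Adj c u ∧ G.Adj e u) ∨ (G.Adj b u ∧ G.Adj d u ∧ G.Adj f u) := by
  obtain ⟨u, hu⟩ := six hδ hn a b c d e f
  exact ⟨u, hexc hu (T a b u h1) (T b c u h2) (T c d u h3) (T d e u h4) (T e f u h5) (T f a u h6)⟩

lemma tre (T : ∀ a b c, G.Adj a b → G.Adj a c → G.Adj b c → False) (hδ : ∀ x, δ ≤ G.degree x)
    (hn : Fintype.card V < 3 * δ) {a b : V} (h : G.Adj a b) (c : V) :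
    (∃ u, G.Adj c u ∧ G.Adj u a) ∨ ∃ u, G.Adj c u ∧ G.Adj u b := by
  obtain ⟨u, hu⟩ := six hδ hn a a b b c c
  have t1 := T a b u h
  by_cases g1 : G.Adj a u <;> by_cases g2 : G.Adj b u <;> by_cases g3 : G.Adj c u <;> first
    | exact Or.inl ⟨u, g3, g1.symm⟩ | exact Or.inr ⟨u, g3, g2.symm⟩ | exact (t1 g1 g2).elim
    | (simp [g1, g2, g3] at hu; done)

lemma four {A B A' B' : Prop} (h1 : A ∨ B) (h2 : A' ∨ B') (h3 : A ∨ A') (h4 : B ∨ B') :
    (A ∧ B') ∨ (B ∧ A') := by tauto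

theorem abs3 {Γ : Type} [Group Γ] (T : ∀ a b c, G.Adj a b → G.Adj a c → G.Adj b c → False)
    (hδ : ∀ x, δ ≤ G.degree x) (hn : Fintype.card V < 3 * δ) {v v' : V} (hv : G.Adj v v')
    (e : V → V → Γ) (E1 : ∀ x y, G.Adj x y → e y x = (e x y)⁻¹)
    (E2 : ∀ a b b' c, G.Adj a b → G.Adj b c → G.Adj a b' → G.Adj b' c →
      e a b * e b c = e a b' * e b' c)
    (G1 : ∀ c x, G.Adj v c → G.Adj c x → e v c * e c x = 1)
    (G2 : ∀ c x, (¬ ∃ b, G.Adj v b ∧ G.Adj b x) → G.Adj v' c → G.Adj c x →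
      e v v' * e v' c * e c x = 1) :
    ∃ g, ∀ x y, G.Adj x y → e x y ∈ Subgroup.zpowers g := by
  have s1 : ∀ c, G.Adj v c → e v c = 1 := fun c hc => by
    have := G2 v c (fun ⟨b, g1, g2⟩ => T v b c g1 hc g2) hv.symm hc
    rwa [E1 v v' hv, mul_inv_cancel, one_mul] at this
  have s2 : ∀ c x, G.Adj v c → G.Adj c x → e c x = 1 := fun c x g1 g2 => by
    simpa [s1 c g1] using G1 c x g1 g2
  have s2' : ∀ c x, G.Adj v c → G.Adj c x → e x c = 1 := fun c x g1 g2 => by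
    rw [E1 c x g2, s2 c x g1 g2, inv_one]
  have hh : ∀ z, ∃ γ : Γ, (∀ y, G.Adj v' y → G.Adj y z → e y z = γ) ∧
      (γ ≠ 1 → (∃ b, G.Adj v b ∧ G.Adj b z) ∧ ∃ b, G.Adj v' b ∧ G.Adj b z) := fun z => by
    by_cases g : ∃ b, G.Adj v' b ∧ G.Adj b z
    · obtain ⟨b, b1, b2⟩ := g
      refine ⟨e b z, fun y g1 g2 => ?_, fun hz => ⟨?_, b, b1, b2⟩⟩
      · have := E2 v' y b z g1 g2 b1 b2
        rwa [s2 v' y hv g1, s2 v' b hv b1, one_mul, one_mul] at this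
      · by_contra hc
        have := G2 b z hc b1 b2
        rw [s1 v' hv, s2 v' b hv b1, one_mul, one_mul] at this
        exact hz this
    · exact ⟨1, fun y g1 g2 => absurd ⟨y, g1, g2⟩ g, fun h => absurd rfl h⟩
  choose h H1' H0 using hh
  have H1 : ∀ y z, G.Adj v' y → G.Adj y z → e y z = h z := fun y z => H1' z y
  have K1 : ∀ z w, G.Adj z w → (∃ b, G.Adj v b ∧ G.Adj b z) → (∃ b, G.Adj v' b ∧ G.Adj b w) →
      e z w = h w := by
    have k0 : ∀ z w a b, G.Adj z w → G.Adj v a → G.Adj a z → G.Adj v' b → G.Adj b w →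
        G.Adj a b → e z w = h w := fun z w a b g g1 g2 g3 g4 g5 => by
      have := E2 z w a b g g4.symm g2.symm g5
      rw [s2' a z g1 g2, s2 a b g1 g5, one_mul, E1 b w g4, H1 b w g3 g4] at this
      exact mul_inv_eq_one.mp this
    rintro z w g ⟨a, g1, g2⟩ ⟨b, g3, g4⟩
    obtain ⟨u, ⟨u1, u2, u3⟩ | ⟨u1, u2, u3⟩⟩ := hex T hδ hn g1 g2 g g4.symm g3.symm hv.symm
    · exact k0 z w u b g u1 u2.symm g3 g4 u3.symm
    · exact k0 z w a u g g1 g2 u3 u2.symm u1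
  have B : ∀ z w c c', G.Adj v c → G.Adj c z → G.Adj c w → G.Adj v' c' → G.Adj c' z →
      G.Adj c' w → h z = h w := fun z w c c' g1 g2 g3 g4 g5 g6 => by
    have := E2 z c c' w g2.symm g3 g5.symm g6
    rw [s2' c z g1 g2, s2 c w g1 g3, one_mul, E1 c' z g5, H1 c' z g4 g5, H1 c' w g4 g6] at this
    exact inv_mul_eq_one.mp this.symm
  have C1 : ∀ z w c c' d', G.Adj v c → G.Adj c z → G.Adj c w → G.Adj v' c' → G.Adj c' z →
      G.Adj v' d' → G.Adj d' w → h z = h w := fun z w c c' d' g1 g2 g3 g4 g5 g6 g7 => by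
    obtain ⟨u, ⟨u1, u2, u3⟩ | ⟨u1, u2, u3⟩⟩ := hex T hδ hn g2 g5.symm g4.symm g6 g7 g3.symm
    · exact (B z u c c' g1 g2 u1 g4 g5 u2).trans (B u w c d' g1 u1 g3 g6 u3 g7)
    · exact B z w c u g1 g2 g3 u2 u1.symm u3.symm
  have C2 : ∀ z w c' c d, G.Adj v' c' → G.Adj c' z → G.Adj c' w → G.Adj v c → G.Adj c z →
      G.Adj v d → G.Adj d w → h z = h w := fun z w c' c d g1 g2 g3 g4 g5 g6 g7 => by
    obtain ⟨u, ⟨u1, u2, u3⟩ | ⟨u1, u2, u3⟩⟩ := hex T hδ hn g2 g5.symm g4.symm g6 g7 g3.symm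
    · exact (B z u c c' g4 g5 u2 g1 g2 u1).trans (B u w d c' g6 u3 g7 g1 u1 g3)
    · exact B z w u c' u2 u1.symm u3.symm g1 g2 g3
  have D : ∀ z w, h z ≠ 1 → h w ≠ 1 → h w = h z ∨ h w = (h z)⁻¹ := fun z w hz hw => by
    obtain ⟨⟨c, c1, c2⟩, c', c3, c4⟩ := H0 z hz
    obtain ⟨⟨d, d1, d2⟩, d', d3, d4⟩ := H0 w hw
    obtain ⟨u, hu⟩ := six hδ hn z w c c' d d'
    have t1 := T z c u c2.symm
    have t2 := T z c' u c4.symm
    have t3 := T w d u d2.symm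
    have t4 := T w d' u d4.symm
    have a1 : G.Adj z u → G.Adj d u → G.Adj d' u → h w = (h z)⁻¹ := fun g1 g2 g3 => by
      rw [B w u d d' d1 d2 g2 d3 d4 g3, ← K1 z u g1 ⟨c, c1, c2⟩ ⟨d', d3, g3⟩,
        ← K1 u z g1.symm ⟨d, d1, g2⟩ ⟨c', c3, c4⟩, E1 u z g1.symm]
    have a2 : G.Adj w u → G.Adj c u → G.Adj c' u → h w = (h z)⁻¹ := fun g1 g2 g3 => by
      rw [B z u c c' c1 c2 g2 c3 c4 g3, ← K1 w u g1 ⟨d, d1, d2⟩ ⟨c', c3, g3⟩,
        ← K1 u w g1.symm ⟨c, c1, g2⟩ ⟨d', d3, d4⟩, E1 w u g1]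
    have a3 : G.Adj c u → G.Adj c' u → G.Adj d u → h w = h z := fun g1 g2 g3 =>
      (C1 w u d d' c' d1 d2 g3 d3 d4 c3 g2).trans (B u z c c' c1 g1 c2 c3 g2 c4)
    have a4 : G.Adj c u → G.Adj c' u → G.Adj d' u → h w = h z := fun g1 g2 g3 =>
      (C2 w u d' d c d3 d4 g3 d1 d2 c1 g1).trans (B u z c c' c1 g1 c2 c3 g2 c4)
    have a5 : G.Adj d u → G.Adj d' u → G.Adj c u → h w = h z := fun g1 g2 g3 =>
      (B w u d d' d1 d2 g1 d3 d4 g2).trans (C1 u z c d' c' c1 g3 c2 d3 g2 c3 c4)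
    have a6 : G.Adj d u → G.Adj d' u → G.Adj c' u → h w = h z := fun g1 g2 g3 =>
      (B w u d d' d1 d2 g1 d3 d4 g2).trans (C2 u z c' d c c3 g3 c4 d1 g1 c1 c2)
    exact sixc hu t1 t2 t3 t4 (fun x y z => Or.inr (a1 x y z)) (fun x y z => Or.inr (a2 x y z))
      (fun x y z => Or.inl (a3 x y z)) (fun x y z => Or.inl (a4 x y z))
      (fun x y z => Or.inl (a5 x y z)) fun x y z => Or.inl (a6 x y z)
  obtain ⟨g, hg⟩ : ∃ g, ∀ z, h z ∈ Subgroup.zpowers g := by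
    by_cases h1 : ∃ z, h z ≠ 1
    · obtain ⟨z, hz⟩ := h1
      refine ⟨h z, fun w => ?_⟩
      by_cases hw : h w = 1
      · rw [hw]; exact Subgroup.one_mem _
      · rcases D z w hz hw with g | g <;> rw [g]
        · exact Subgroup.mem_zpowers _
        · exact Subgroup.inv_mem _ (Subgroup.mem_zpowers _)
    · push Not at h1
      exact ⟨1, fun z => by rw [h1 z]; exact Subgroup.one_mem _⟩
  refine ⟨g, fun x y hxy => ?_⟩
  have sy : ∀ {a b : V}, (∃ u, G.Adj a u ∧ G.Adj u b) → ∃ u, G.Adj b u ∧ G.Adj u a :=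
    fun ⟨u, g1, g2⟩ => ⟨u, g2.symm, g1.symm⟩
  have q1 := tre T hδ hn hxy v
  have q2 := tre T hδ hn hxy v'
  have q3 := (tre T hδ hn hv x).imp sy sy
  have q4 := (tre T hδ hn hv y).imp sy sy
  rcases four q1 q2 q3 q4 with ⟨g1, g2⟩ | ⟨g1, g2⟩
  · exact K1 x y hxy g1 g2 ▸ hg y
  · rw [E1 y x hxy.symm, K1 y x hxy.symm g1 g2]
    exact Subgroup.inv_mem _ (hg x)

theorem cyclic3 (T : ∀ a b c, G.Adj a b → G.Adj a c → G.Adj b c → False)
    (hδ : ∀ x, δ ≤ G.degree x) (hn : Fintype.card V < 3 * δ) (v : V) : Cyclic G v := by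
  obtain ⟨v', hv⟩ := (G.degree_pos_iff_exists_adj v).mp (by have := hδ v; omega)
  have hr : ∀ x, ∃ p : G.Walk v x,
      (∀ c (h1 : G.Adj v c) (h2 : G.Adj c x), Homot G (.cons h1 (.cons h2 .nil)) p) ∧
      ((¬ ∃ b, G.Adj v b ∧ G.Adj b x) → ∀ c (h1 : G.Adj v' c) (h2 : G.Adj c x),
        Homot G (.cons hv (.cons h1 (.cons h2 .nil))) p) := fun x => by
    by_cases h : ∃ b, G.Adj v b ∧ G.Adj b x
    · obtain ⟨b, b1, b2⟩ := h
      exact ⟨.cons b1 (.cons b2 .nil), fun c h1 h2 => EqvGen.rel _ _ (Move.sub .nil h1 h2 b1 b2 _),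
        fun g => absurd ⟨b, b1, b2⟩ g⟩
    · obtain ⟨b, b1, b2⟩ := (tre T hδ hn hv x).resolve_left fun ⟨u, g1, g2⟩ =>
        h ⟨u, g2.symm, g1.symm⟩
      exact ⟨.cons hv (.cons b2.symm (.cons b1.symm .nil)), fun c h1 h2 => absurd ⟨c, h1, h2⟩ h,
        fun _ c h1 h2 => EqvGen.rel _ _ (Move.sub (.cons hv .nil) h1 h2 b2.symm b1.symm _)⟩
  choose r ra rb using hr
  let e : V → V → Pi1 G v := fun x y =>
    if h : G.Adj x y then cl ((r x).append ((Walk.cons h .nil).append (r y).reverse)) else 1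
  have r0 : Homot G (r v) .nil :=
    (ra v v' hv hv.symm).symm.trans (Homot.symm (EqvGen.rel _ _ (Move.ins .nil hv .nil)))
  have r1 : ∀ x, cl ((r x).append (r x).reverse) = 1 := fun x =>
    cl_eq.mpr (by simpa using cancel (r x).reverse .nil)
  have e2 : ∀ a b d (h1 : G.Adj a b) (h2 : G.Adj b d), e a b * e b d =
      cl ((r a).append ((Walk.cons h1 (.cons h2 .nil)).append (r d).reverse)) := by
    intro a b d h1 h2
    simp only [e, dif_pos h1, dif_pos h2]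
    exact cl_join _ _ _ _ _
  obtain ⟨g, hg⟩ := abs3 T hδ hn hv e (fun x y h => by
    simp only [e, dif_pos h, dif_pos h.symm, cl_inv]
    simp [← Walk.append_assoc]) (fun a b b' d h1 h2 h3 h4 => by
    rw [e2 a b d h1 h2, e2 a b' d h3 h4, cl_eq]
    exact EqvGen.rel _ _ (Move.sub _ h1 h2 h3 h4 _)) (fun b x h1 h2 => by
    rw [e2 v b x h1 h2, ← r1 x, cl_eq]
    exact (r0.right _).trans ((ra x b h1 h2).right _)) (fun b x h0 h1 h2 => by
    rw [e2 v v' b hv h1, ← r1 x]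
    simp only [e, dif_pos h2]
    rw [cl_join, cl_eq]
    exact (r0.right _).trans ((rb x h0 b h1 h2).right _))
  have h1 : ∀ x y (p : G.Walk x y), cl ((r x).append (p.append (r y).reverse)) ∈
      Subgroup.zpowers g := by
    intro x y p
    induction p with
    | nil => exact (r1 _).symm ▸ Subgroup.one_mem _
    | @cons x z y h p ih =>
      have := Subgroup.mul_mem _ (hg x z h) ih
      simp only [e, dif_pos h] at this
      rwa [cl_join] at this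
  obtain ⟨g, rfl⟩ := Quotient.exists_rep g
  refine ⟨g, fun p => ?_⟩
  obtain ⟨n, h2⟩ := h1 v v p
  have h3 : cl ((r v).append (p.append (r v).reverse)) = cl p :=
    cl_eq.mpr ((r0.right _).trans (by simpa using r0.rev.left p))
  simp only [h3] at h2
  obtain ⟨m, rfl | rfl⟩ := n.eq_nat_or_neg
  · exact ⟨m, Or.inl (cl_eq.mp (by rw [cl_pw, ← h2, zpow_natCast]; rfl))⟩
  · exact ⟨m, Or.inr (cl_eq.mp (by rw [cl_pw, ← h2, zpow_neg, zpow_natCast, ← cl_inv, inv_pow]; rfl))⟩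

end

def nb : Fin 7 → Finset (Fin 7) :=
  ![{1, 5, 6}, {0, 2}, {1, 3}, {2, 4, 6}, {3, 5}, {4, 0}, {0, 3}]
def nc : Fin 7 → Finset (Fin 6) := ![{1, 5}, {0, 2}, {1, 3}, {2, 4}, {3, 5}, {4, 0}, {0, 3}]
def pf (a b : Fin 7) : ZMod 2 × ZMod 2 :=
  (if a.val + b.val = 3 ∧ a ≠ 0 ∧ b ≠ 0 then 1 else 0, if a.val + b.val = 9 ∧ a ≠ 6 ∧ b ≠ 6 then 1 else 0)

def cls (t : ℕ) : Option (Fin 6 × Fin (t + 1)) → Fin 7
  | none => 6
  | some x => x.1.castSucc

def ex3 (t : ℕ) : SimpleGraph (Option (Fin 6 × Fin (t + 1))) where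
  Adj x y := cls t y ∈ nb (cls t x)
  symm := ⟨fun x y => (by decide : ∀ a b, b ∈ nb a → a ∈ nb b) _ _⟩
  loopless := ⟨fun x => (by decide : ∀ a, a ∉ nb a) _⟩

lemma ex3_deg (t : ℕ) [DecidableRel (ex3 t).Adj] (x) : 2 * (t + 1) ≤ (ex3 t).degree x := by
  have h : ((nc (cls t x)) ×ˢ Finset.univ).map ⟨some, Option.some_injective _⟩ ⊆
      (ex3 t).neighborFinset x := by
    intro y hy
    obtain ⟨z, hz, rfl⟩ := Finset.mem_map.mp hy
    exact (mem_neighborFinset _ _ _).mpr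
      ((by decide : ∀ a, ∀ b ∈ nc a, b.castSucc ∈ nb a) _ _ (Finset.mem_product.mp hz).1)
  have := Finset.card_le_card h
  rwa [Finset.card_map, Finset.card_product, (by decide : ∀ a, (nc a).card = 2), Finset.card_univ,
    Fintype.card_fin, card_neighborFinset_eq_degree] at this

lemma ex3_not (t : ℕ) : ¬ Cyclic (ex3 t) none := by
  have h : ∀ a b : Fin 6, b.castSucc ∈ nb a.castSucc →
      (ex3 t).Adj (some (a, 0)) (some (b, 0)) := fun _ _ h => h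
  have g0 : (ex3 t).Adj none (some (0, 0)) := (by decide : (0 : Fin 7) ∈ nb 6)
  have g3 : (ex3 t).Adj none (some (3, 0)) := (by decide : (3 : Fin 7) ∈ nb 6)
  refine not_cyclic (fun x y => pf (cls t x) (cls t y)) (fun a b b' c h1 h2 h3 h4 =>
    (by decide +kernel : ∀ a c, ∀ b ∈ nb a, ∀ b' ∈ nb a, c ∈ nb b ∩ nb b' →
      pf a b + pf b c = pf a b' + pf b' c) _ _ _ h1 _ h3 (Finset.mem_inter.mpr ⟨h2, h4⟩))
    (fun a b => (by decide : ∀ a b, pf a b = pf b a) _ _)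
    (.cons g0 (.cons (h 0 1 (by decide)) (.cons (h 1 2 (by decide)) (.cons (h 2 3 (by decide))
      (.cons g3.symm .nil)))))
    (.cons g0 (.cons (h 0 5 (by decide)) (.cons (h 5 4 (by decide)) (.cons (h 4 3 (by decide))
      (.cons g3.symm .nil))))) ?_ ?_ <;> simp only [wt, cls] <;> decide

theorem k3 : deltaCyc (⊤ : SimpleGraph (Fin 3)) = 1 / 3 := by
  classical
  refine le_antisymm (csInf_le ⟨0, fun _ h => h.1⟩ ⟨by positivity, fun V _ G h1 h2 v => ?_⟩)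
    (le_csInf ⟨_, by positivity, mem_set _ 0 (by simp)⟩ fun α hα => ?_)
  · have h3 : G.CliqueFree 3 := by simpa using (cliqueFree_iff_top_free (β := Fin 3)).mpr h1
    refine cyclic3 (δ := G.minDegree) (fun a b c g1 g2 g3 => h3 {a, b, c}
      (is3Clique_triple_iff.mpr ⟨g1, g2, g3⟩)) G.minDegree_le_degree ?_ v
    have h4 : (Fintype.card V : ℝ) < 3 * G.minDegree := by linarith
    exact_mod_cast h4
  · by_contra hc
    obtain ⟨t, ht⟩ := exists_nat_gt (1 / (2 - 6 * α))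
    rw [div_lt_iff₀ (by linarith)] at ht
    refine ex3_not t (hα.2 _ (ex3 t) ?_ ?_ _)
    · refine (cliqueFree_iff_top_free (β := Fin 3)).mp fun s hs => ?_
      obtain ⟨a, b, c, g1, g2, g3, -⟩ := is3Clique_iff.mp (by simpa using hs)
      exact (by decide : ∀ a b c, b ∈ nb a → c ∈ nb a → c ∉ nb b) _ _ _ g1 g2 g3
    · have h1 := (ex3 t).le_minDegree_of_forall_le_degree _
        (@ex3_deg t (fun _ _ => Classical.propDecidable _))
      refine lt_of_lt_of_le ?_ (Nat.cast_le.mpr h1)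
      simp only [Fintype.card_option, Fintype.card_prod, Fintype.card_fin]
      push_cast
      nlinarith

end Pool.Agent.H10.Pc
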