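import Mathlib

namespace Pool.Agent.H10.Pc

open SimpleGraph

variable {V : Type}

/-- One move on walks: `sub` replaces an inner vertex by another common neighbour of its two
neighbours, `ins` replaces `a` by `a b a`; `Del` is the inverse of `ins`. -/
inductive Move (G : SimpleGraph V) {u w : V} : G.Walk u w → G.Walk u w → Prop
  | sub {a b b' c : V} (p : G.Walk u a) (h1 : G.Adj a b) (h2 : G.Adj b c) (h3 : G.Adj a b')
      (h4 : G.Adj b' c) (q : G.Walk c w) :
      Move G (p.append (.cons h1 (.cons h2 q))) (p.append (.cons h3 (.cons h4 q)))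
  | ins {a b : V} (p : G.Walk u a) (h : G.Adj a b) (q : G.Walk a w) :
      Move G (p.append q) (p.append (.cons h (.cons h.symm q)))

/-- Homotopy of walks: the equivalence relation generated by the moves. -/
def Homot (G : SimpleGraph V) {u w : V} (p q : G.Walk u w) : Prop :=
  Relation.EqvGen (Move G) p q

/-- The `n`-fold concatenation of a closed walk. -/
def pw {G : SimpleGraph V} {v : V} (g : G.Walk v v) : ℕ → G.Walk v v
  | 0 => .nil
  | n + 1 => g.append (pw g n)

/-- `π₁(G, v)` is cyclic: every closed walk at `v` is homotopic to a power of one closed walk `g`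
or of its reversal. -/
def Cyclic (G : SimpleGraph V) (v : V) : Prop :=
  ∃ g : G.Walk v v, ∀ p : G.Walk v v, ∃ n : ℕ, Homot G p (pw g n) ∨ Homot G p (pw g.reverse n)

open Classical in
/-- The threshold `δ_cyc(H)`. -/
noncomputable def deltaCyc {W : Type} (H : SimpleGraph W) : ℝ :=
  sInf {α : ℝ | 0 ≤ α ∧ ∀ (V : Type) [Fintype V] (G : SimpleGraph V), H.Free G →
    α * Fintype.card V < G.minDegree → ∀ v, Cyclic G v}

end Pool.Agent.H10.Pc
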