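import Pool.Agent.H10.PinDefs

namespace Pool.Agent.H10.Pin

open Finset

lemma rep_of {V X : Type} [Fintype X] [DecidableEq X] (G : SimpleGraph V) (p : ℕ)
    (S : V → Finset X) (h : ∀ u v, u ≠ v → (G.Adj u v ↔ p ≤ (S u ∩ S v).card)) :
    Rep G p (Fintype.card X) := by
  refine ⟨fun v => (S v).map (Fintype.equivFin X).toEmbedding, fun u v huv => ?_⟩
  rw [← map_inter, card_map]
  exact h u v huv

lemma lowerKK (n k p t : ℕ) (hn : 2 ≤ n) (hp : 1 ≤ p) (h : Rep (KK n k) p t) :
    (k : ℤ) * (k - 1) ≤ p * t := by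
  classical
  obtain ⟨S, hS⟩ := h
  let a0 : Fin n := ⟨0, by omega⟩
  let a1 : Fin n := ⟨1, by omega⟩
  have hne : a0 ≠ a1 := by simp [a0, a1]
  let f : Fin n → Fin k → Fin t → ℤ := fun α l x => if x ∈ S (α, l) then 1 else 0
  have hc : ∀ α β l m, ((S (α, l) ∩ S (β, m)).card : ℤ) = ∑ x, f α l x * f β m x := by
    intro α β l m
    simp only [f, ite_zero_mul_ite_zero, mul_one, sum_boole]
    congr 2
    ext x
    simp
  have hsum : ∀ α β, ∑ x, (∑ l, f α l x) * (∑ m, f β m x) =
      ∑ l, ∑ m, ((S (α, l) ∩ S (β, m)).card : ℤ) := by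
    intro α β
    simp only [hc, sum_mul_sum]
    rw [sum_comm]
    refine sum_congr rfl fun l _ => sum_comm
  have hoff : ∀ c : ℤ, ∑ l : Fin k, ∑ m : Fin k, (if l = m then 0 else c) = c * (k * (k - 1)) := by
    intro c
    have : ∀ l m : Fin k, (if l = m then 0 else c) = c - (if l = m then c else 0) := by
      intro l m
      split_ifs <;> simp
    simp only [this, sum_sub_distrib, sum_const, card_univ, Fintype.card_fin, sum_ite_eq,
      mem_univ, if_true, nsmul_eq_mul]
    ring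
  have h1 : (p : ℤ) * (k * (k - 1)) ≤ ∑ x, (∑ l, f a0 l x) * (∑ m, f a1 m x) := by
    rw [hsum, ← hoff]
    refine sum_le_sum fun l _ => sum_le_sum fun m _ => ?_
    split_ifs with hlm
    · positivity
    · exact_mod_cast (hS (a0, l) (a1, m) (by simp [hne])).mp ⟨hlm, hne⟩
  have h2 : ∀ α, ∑ x, ((∑ l, f α l x) * (∑ m, f α m x) - ∑ l, f α l x) ≤
      (p - 1) * (k * (k - 1)) := by
    intro α
    have e : ∑ x, ∑ l, f α l x = ∑ l : Fin k, ∑ m : Fin k,
        (if l = m then ((S (α, l) ∩ S (α, m)).card : ℤ) else 0) := by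
      rw [sum_comm]
      refine sum_congr rfl fun l _ => ?_
      simp [f]
    rw [sum_sub_distrib, hsum, e, ← hoff, ← sum_sub_distrib]
    refine sum_le_sum fun l _ => ?_
    rw [← sum_sub_distrib]
    refine sum_le_sum fun m _ => ?_
    split_ifs with hlm
    · simp
    · have h3 := (hS (α, l) (α, m) (by simp [hlm])).not.mp (fun h => h.2 rfl)
      omega
  have h3 : ∑ x, ((2 * p - 1) * ((∑ l, f a0 l x) * (∑ m, f a1 m x))
      - p * (((∑ l, f a0 l x) * (∑ m, f a0 m x) - ∑ l, f a0 l x)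
        + ((∑ l, f a1 l x) * (∑ m, f a1 m x) - ∑ l, f a1 l x))) ≤ ∑ _x : Fin t, (p : ℤ) ^ 2 := by
    refine sum_le_sum fun x _ => ?_
    generalize ∑ l, f a0 l x = a
    generalize ∑ l, f a1 l x = b
    have hp' : (1 : ℤ) ≤ p := by exact_mod_cast hp
    nlinarith [sq_nonneg (a - p), sq_nonneg (b - p), mul_nonneg (by omega : (0 : ℤ) ≤ 2 * p - 1)
      (sq_nonneg (a - b))]
  rw [sum_sub_distrib, ← mul_sum, ← mul_sum, sum_add_distrib] at h3
  simp only [sum_const, card_univ, Fintype.card_fin, nsmul_eq_mul] at h3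
  have hp' : (1 : ℤ) ≤ p := by exact_mod_cast hp
  have h4 := h2 a0
  have h5 := h2 a1
  have h6 : (p : ℤ) * (k * (k - 1)) ≤ p * (p * t) := by nlinarith
  exact le_of_mul_le_mul_left h6 (by omega)

def Good (n p N : ℕ) : Prop :=
  ∃ (R : Type) (_ : CommRing R) (_ : Fintype R), Fintype.card R = N ∧ ∃ (z : R) (s : Fin n → R),
    z ^ p = 1 ∧ (∀ α, IsUnit (s α)) ∧
    ∀ α β, ∀ i < p, (α ≠ β ∨ i ≠ 0) → IsUnit (s α - s β * z ^ i)

lemma Good.mul {n p N M : ℕ} (h1 : Good n p N) (h2 : Good n p M) : Good n p (N * M) := by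
  obtain ⟨R, _, _, hc, z, s, hz, hs, hu⟩ := h1
  obtain ⟨R', _, _, hc', z', s', hz', hs', hu'⟩ := h2
  refine ⟨R × R', inferInstance, inferInstance, by simp [hc, hc'], (z, z'),
    fun α => (s α, s' α), by simp [hz, hz', Prod.ext_iff], fun α => ?_, fun α β i hi h => ?_⟩
  · exact Prod.isUnit_iff.mpr ⟨hs α, hs' α⟩
  · exact Prod.isUnit_iff.mpr ⟨hu α β i hi h, hu' α β i hi h⟩

lemma Good.one (n p : ℕ) : Good n p 1 :=
  ⟨PUnit, inferInstance, inferInstance, by simp, 1, fun _ => 1, Subsingleton.elim _ _,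
    fun _ => isUnit_of_subsingleton _, fun _ _ _ _ _ => isUnit_of_subsingleton _⟩

lemma Good.pow {n p N : ℕ} (h : Good n p N) (i : ℕ) : Good n p (N ^ i) := by
  induction i with
  | zero => exact Good.one n p
  | succ i ih => rw [pow_succ]; exact ih.mul h

lemma good_prime (n p : ℕ) (hp : 1 ≤ p) (M : ℕ) : ∃ q, M < q ∧ q.Prime ∧ Good n p q := by
  obtain ⟨q, hq, hlt, hmod⟩ := Nat.exists_prime_gt_modEq_one (M + n * p + 1) (by omega : p ≠ 0)
  have := Fact.mk hq
  obtain ⟨h, hh⟩ := (Nat.modEq_iff_dvd' hq.one_le).mp hmod.symm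
  have hnh : n ≤ h := by
    by_contra hc
    have : p * h ≤ p * n := Nat.mul_le_mul_left _ (by omega)
    have : p * n = n * p := mul_comm _ _
    omega
  obtain ⟨g, hg⟩ := IsCyclic.exists_ofOrder_eq_natCard (α := (ZMod q)ˣ)
  rw [Nat.card_eq_fintype_card, ZMod.card_units, hh] at hg
  refine ⟨q, by omega, hq, ZMod q, inferInstance, inferInstance, ZMod.card q, (g ^ h : (ZMod q)ˣ),
    fun α => (g ^ (α : ℕ) : (ZMod q)ˣ), ?_, fun α => Units.isUnit _, fun α β i hi hne => ?_⟩
  · rw [← Units.val_pow_eq_pow_val, ← pow_mul, mul_comm, ← hg, pow_orderOf_eq_one, Units.val_one]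
  · refine IsUnit.mk0 _ (sub_ne_zero.mpr fun he => ?_)
    rw [← Units.val_pow_eq_pow_val, ← Units.val_mul, Units.val_inj, ← pow_mul, ← pow_add] at he
    have hα := α.2
    have hβ := β.2
    have h1 : h * (i + 1) ≤ h * p := Nat.mul_le_mul_left _ hi
    have h2 : h * 1 ≤ h * p := Nat.mul_le_mul_left _ hp
    have h3 := pow_injOn_Iio_orderOf (by rw [hg, mul_comm]; simp; omega)
      (by rw [hg, mul_comm]; simp; nlinarith) he
    rcases Nat.eq_zero_or_pos i with hi0 | hi0
    · subst hi0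
      rcases hne with hne | hne
      · exact hne (Fin.ext (by simpa using h3))
      · exact hne rfl
    · have : h * 1 ≤ h * i := Nat.mul_le_mul_left _ hi0
      omega

lemma upperKK {n p N k : ℕ} (hp : 1 ≤ p) (hn : 1 ≤ n) (h : Good n p N) (hk : k ≤ N) :
    ∃ t, Rep (KK n k) p t ∧ p * t ≤ N * N := by
  classical
  obtain ⟨R, _, _, hc, z, s, hz, hs, hu⟩ := h
  obtain ⟨e⟩ : Nonempty (Fin k ↪ R) := Function.Embedding.nonempty_of_card_le (by simp [hc, hk])
  let orb : R → Finset R := fun a => (range p).image (fun i => a * z ^ i)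
  have hmem : ∀ a c, c ∈ orb a ↔ ∃ i : ℕ, c = a * z ^ i := by
    intro a c
    simp only [orb, mem_image, mem_range]
    refine ⟨fun ⟨i, _, h⟩ => ⟨i, h.symm⟩, fun ⟨i, h⟩ => ⟨i % p, Nat.mod_lt _ hp, ?_⟩⟩
    rw [h, pow_eq_pow_mod i hz]
  have horb : ∀ a c, c ∈ orb a → orb c = orb a := by
    intro a c hc
    obtain ⟨j, rfl⟩ := (hmem a c).mp hc
    ext y
    rw [hmem, hmem]
    refine ⟨fun ⟨i, h⟩ => ⟨j + i, by rw [h]; ring⟩, fun ⟨i, h⟩ => ⟨(p - 1) * j + i, ?_⟩⟩
    have : z ^ j * z ^ ((p - 1) * j) = 1 := by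
      rw [← pow_add, show j + (p - 1) * j = p * j by
        obtain ⟨r, rfl⟩ := Nat.exists_eq_add_of_le' hp
        simp; ring, pow_mul, hz, one_pow]
    rw [h, pow_add]
    linear_combination (-(a * z ^ i)) * this
  have hzu : IsUnit z := IsUnit.of_pow_eq_one hz (by omega)
  have hinj : ∀ a : R, a ≠ 0 → Set.InjOn (fun i => a * z ^ i) (range p : Set ℕ) := by
    have key : ∀ a : R, a ≠ 0 → ∀ i j, i < j → j < p → a * z ^ i ≠ a * z ^ j := by
      intro a ha i j hij hj he
      obtain ⟨d, rfl⟩ := Nat.exists_eq_add_of_lt hij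
      have h1 := (hu ⟨0, hn⟩ ⟨0, hn⟩ (d + 1) (by omega) (Or.inr (by omega))).mul (hzu.pow i)
      refine ha (h1.mul_right_eq_zero.mp ?_)
      linear_combination (s ⟨0, hn⟩) * he
    intro a ha i hi j hj he
    rcases lt_trichotomy i j with h | h | h
    · exact absurd he (key a ha i j h (by simpa using hj))
    · exact h
    · exact absurd he.symm (key a ha j i h (by simpa using hi))
  let T := (univ.filter (fun a : R => a ≠ 0)).image orb
  have hT : p * T.card ≤ N := by
    refine le_trans (mul_card_image_le_card _ p fun O hO => ?_) ((card_le_univ _).trans hc.le)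
    obtain ⟨a, ha, rfl⟩ := mem_image.mp hO
    have ha0 := (mem_filter.mp ha).2
    calc p = (orb a).card := by rw [card_image_of_injOn (hinj a ha0), card_range]
      _ ≤ _ := card_le_card fun c hc => by
          refine mem_filter.mpr ⟨mem_filter.mpr ⟨mem_univ _, ?_⟩, horb a c hc⟩
          obtain ⟨j, rfl⟩ := (hmem a c).mp hc
          exact fun h => ha0 ((hzu.pow j).mul_left_eq_zero.mp h)
  let S : Fin n × Fin k → Finset (T × R) := fun v =>
    univ.filter (fun x => ∃ c ∈ x.1.1, e v.2 = s v.1 * c + x.2)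
  have hcount : ∀ u v : Fin n × Fin k, (S u ∩ S v).card =
      (univ.filter (fun c : R => c ≠ 0 ∧ ∃ i < p, (s u.1 - s v.1 * z ^ i) * c = e u.2 - e v.2)).card := by
    intro u v
    symm
    refine card_bij (fun c hc => (⟨orb c, mem_image_of_mem _ (by
      simpa using (mem_filter.mp hc).2.1)⟩, e u.2 - s u.1 * c)) ?_ ?_ ?_
    · intro c hc
      obtain ⟨-, -, i, -, hi⟩ := mem_filter.mp hc
      simp only [S, mem_inter, mem_filter, mem_univ, true_and]
      exact ⟨⟨c, (hmem c c).mpr ⟨0, by simp⟩, by ring⟩,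
        ⟨c * z ^ i, (hmem c _).mpr ⟨i, rfl⟩, by linear_combination hi⟩⟩
    · intro c _ c' _ h
      have h1 := (Prod.ext_iff.mp h).2
      exact (hs u.1).mul_left_cancel (by linear_combination -h1)
    · rintro ⟨⟨O, hO⟩, b⟩ hx
      simp only [S, mem_inter, mem_filter, mem_univ, true_and] at hx
      obtain ⟨⟨c, hc1, h1⟩, ⟨c', hc2, h2⟩⟩ := hx
      obtain ⟨a, ha, rfl⟩ := mem_image.mp hO
      have e1 := horb a c hc1
      rw [← e1] at hc2
      obtain ⟨i, hi, rfl⟩ := mem_image.mp hc2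
      refine ⟨c, mem_filter.mpr ⟨mem_univ _, ?_, i, mem_range.mp hi, by linear_combination h2 - h1⟩,
        Prod.ext (Subtype.ext e1) (by simp only; linear_combination h1)⟩
      obtain ⟨j, rfl⟩ := (hmem a c).mp hc1
      exact fun h => (mem_filter.mp ha).2 ((hzu.pow j).mul_left_eq_zero.mp h)
  refine ⟨_, rep_of _ p S fun u v huv => ?_, ?_⟩
  · rw [hcount]
    constructor
    · rintro ⟨h1, h2⟩
      have hd : e u.2 - e v.2 ≠ 0 := sub_ne_zero.mpr (e.injective.ne h1)
      have h3 : ∀ i < p, ∃ c, (s u.1 - s v.1 * z ^ i) * c = e u.2 - e v.2 := fun i hi => by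
        obtain ⟨w, hw⟩ := (hu u.1 v.1 i hi (Or.inl h2)).exists_right_inv
        exact ⟨w * (e u.2 - e v.2), by rw [← mul_assoc, hw, one_mul]⟩
      choose! c hc using h3
      have hc0 : ∀ i < p, c i ≠ 0 := fun i hi h => hd (by rw [← hc i hi, h, mul_zero])
      calc p = (range p).card := (card_range p).symm
        _ ≤ _ := card_le_card_of_injOn c (fun i hi => by
            have hi' : i < p := by simpa using hi
            simp only [coe_filter, mem_univ, true_and, Set.mem_setOf_eq]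
            exact ⟨hc0 i hi', i, hi', hc i hi'⟩) (fun i hi j hj he => by
            have hi' : i < p := by simpa using hi
            have hj' : j < p := by simpa using hj
            refine hinj (c i) (hc0 i hi') hi hj ((hs v.1).mul_left_cancel ?_)
            have e1 := hc i hi'
            have e2 := hc j hj'
            rw [← he] at e2
            linear_combination e2 - e1)
    · intro hle
      by_contra hna
      have h3 : ∀ i, ∃ c0, ∀ c, c ≠ 0 → i < p → (s u.1 - s v.1 * z ^ i) * c = e u.2 - e v.2 →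
          c = c0 ∧ i ≠ 0 := by
        intro i
        by_cases hex : ∃ c, c ≠ 0 ∧ i < p ∧ (s u.1 - s v.1 * z ^ i) * c = e u.2 - e v.2
        · obtain ⟨c0, hc0, hi, h0⟩ := hex
          by_cases h1 : u.1 = v.1
          · have h2 : u.2 ≠ v.2 := fun h => huv (Prod.ext h1 h)
            have hi0 : i ≠ 0 := by
              rintro rfl
              rw [h1] at h0
              exact h2 (e.injective (by linear_combination -h0))
            exact ⟨c0, fun c _ _ h => ⟨(hu _ _ i hi (Or.inr hi0)).mul_left_cancel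
              (h.trans h0.symm), hi0⟩⟩
          · have h2 : u.2 = v.2 := by
              by_contra h2
              exact hna ⟨h2, h1⟩
            rw [h2, sub_self] at h0
            exact absurd ((hu _ _ i hi (Or.inl h1)).mul_right_eq_zero.mp h0) hc0
        · exact ⟨0, fun c h1 h2 h3 => absurd ⟨c, h1, h2, h3⟩ hex⟩
      choose c0 hc0 using h3
      have h4 := hle.trans (card_le_card (t := (Ico 1 p).image c0) fun c hc => by
        obtain ⟨-, h1, i, hi, h2⟩ := mem_filter.mp hc
        obtain ⟨e1, e2⟩ := hc0 i c h1 hi h2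
        exact mem_image.mpr ⟨i, mem_Ico.mpr ⟨by omega, hi⟩, e1.symm⟩)
      have h5 := card_image_le (s := Ico 1 p) (f := c0)
      rw [Nat.card_Ico] at h5
      omega
  · rw [Fintype.card_prod, Fintype.card_coe, hc, ← mul_assoc]
    exact Nat.mul_le_mul_right _ hT

end Pool.Agent.H10.Pin
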