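import Pool.Agent.H10.PinA

namespace Pool.Agent.H10.Pin

open Finset Filter

lemma close (n p : ℕ) (hp : 1 ≤ p) (ε : ℝ) (hε : 0 < ε) :
    ∃ P Q : ℕ, Good n p P ∧ Good n p Q ∧ 1 < Q ∧ Q < P ∧ (P : ℝ) ≤ (1 + ε) * Q := by
  obtain ⟨A, -, hA, gA⟩ := good_prime n p hp 0
  obtain ⟨B, hAB, hB, gB⟩ := good_prime n p hp A
  have lA : 0 < Real.log A := Real.log_pos (by exact_mod_cast hA.one_lt)
  have lB : 0 < Real.log B := Real.log_pos (by exact_mod_cast hB.one_lt)
  have lε : 0 < Real.log (1 + ε) := Real.log_pos (by linarith)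
  obtain ⟨N, hN⟩ := exists_nat_gt (Real.log B / Real.log (1 + ε))
  have hN0 : 0 < N := by
    have : (0 : ℝ) < N := lt_trans (by positivity) hN
    exact_mod_cast this
  obtain ⟨j, k, hk, -, h⟩ := Real.exists_int_int_abs_mul_sub_le (Real.log A / Real.log B) hN0
  have hN1 : (1 : ℝ) ≤ N := by exact_mod_cast hN0
  have hk' : (0 : ℝ) < k := by exact_mod_cast hk
  have h1 : (1 : ℝ) / (N + 1) < 1 := by rw [div_lt_one (by positivity)]; linarith
  have hj : 0 ≤ j := by
    have h2 : (0 : ℝ) < k * (Real.log A / Real.log B) := by positivity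
    have h3 : ((-1 : ℤ) : ℝ) < j := by
      push_cast
      linarith [(abs_le.mp h).2]
    have : (-1 : ℤ) < j := by exact_mod_cast h3
    omega
  lift j to ℕ using hj
  lift k to ℕ using hk.le
  have h2 : |k * Real.log A - j * Real.log B| ≤ Real.log (1 + ε) := by
    have e : (k : ℝ) * Real.log A - j * Real.log B =
        (k * (Real.log A / Real.log B) - j) * Real.log B := by field_simp
    rw [e, abs_mul, abs_of_pos lB]
    push_cast at h
    rw [div_lt_iff₀ lε] at hN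
    calc _ ≤ 1 / (N + 1) * Real.log B := by gcongr
      _ ≤ _ := by
        rw [div_mul_eq_mul_div, one_mul, div_le_iff₀ (by positivity)]
        nlinarith
  have hA0 : (0 : ℝ) < A := by exact_mod_cast hA.pos
  have hB0 : (0 : ℝ) < B := by exact_mod_cast hB.pos
  have hXY : (A : ℝ) ^ k ≤ (1 + ε) * B ^ j := by
    rw [← Real.log_le_log_iff (by positivity) (by positivity),
      Real.log_mul (by positivity) (by positivity), Real.log_pow, Real.log_pow]
    linarith [(abs_le.mp h2).2]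
  have hYX : (B : ℝ) ^ j ≤ (1 + ε) * A ^ k := by
    rw [← Real.log_le_log_iff (by positivity) (by positivity),
      Real.log_mul (by positivity) (by positivity), Real.log_pow, Real.log_pow]
    linarith [(abs_le.mp h2).1]
  have hne : A ^ k ≠ B ^ j := fun he => by
    have h3 : A ∣ B ^ j := he ▸ dvd_pow_self A (by omega)
    have := (Nat.prime_dvd_prime_iff_eq hA hB).mp (hA.dvd_of_dvd_pow h3)
    omega
  have p1 : 0 < A ^ k := pow_pos hA.pos _
  have p2 : 0 < B ^ j := pow_pos hB.pos _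
  have := hA.one_lt
  rcases lt_or_gt_of_ne hne with hlt | hlt
  · refine ⟨B ^ j * A, A ^ k * A, (gB.pow j).mul gA, (gA.pow k).mul gA, by nlinarith,
      by nlinarith, ?_⟩
    push_cast
    nlinarith
  · refine ⟨A ^ k * A, B ^ j * A, (gA.pow k).mul gA, (gB.pow j).mul gA, by nlinarith,
      by nlinarith, ?_⟩
    push_cast
    nlinarith

lemma dense (n p : ℕ) (hp : 1 ≤ p) (ε : ℝ) (hε : 0 < ε) :
    ∀ᶠ k : ℕ in atTop, ∃ N, Good n p N ∧ k ≤ N ∧ (N : ℝ) ≤ (1 + ε) * k := by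
  classical
  obtain ⟨P, Q, gP, gQ, hQ, hQP, hPQ⟩ := close n p hp ε hε
  have hQ0 : (0 : ℝ) < Q := by exact_mod_cast (by omega : 0 < Q)
  obtain ⟨T, hT⟩ := pow_unbounded_of_one_lt (Q : ℝ)
    ((one_lt_div hQ0).mpr (by exact_mod_cast hQP) : (1 : ℝ) < P / Q)
  have hT' : Q * Q ^ T ≤ P ^ T := by
    rw [div_pow, lt_div_iff₀ (by positivity)] at hT
    exact_mod_cast hT.le
  filter_upwards [eventually_ge_atTop (Q ^ T)] with k hk
  have hk0 : k ≠ 0 := by have : 0 < Q ^ T := by positivity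
                         omega
  obtain ⟨w, hw⟩ := Nat.exists_eq_add_of_le (Nat.le_log_of_pow_le hQ hk)
  have h1 := Nat.pow_log_le_self Q hk0
  have h2 := Nat.lt_pow_succ_log_self hQ k
  rw [hw] at h1 h2
  have hex : ∃ s, s ≤ T ∧ k ≤ P ^ s * Q ^ (T - s + w) := ⟨T, le_rfl, by
    rw [Nat.sub_self, zero_add]
    calc k ≤ Q * Q ^ T * Q ^ w := by rw [Nat.succ_eq_add_one] at h2; ring_nf at h2 ⊢; omega
      _ ≤ _ := Nat.mul_le_mul_right _ hT'⟩
  obtain ⟨hs1, hs2⟩ := Nat.find_spec hex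
  refine ⟨_, (gP.pow _).mul (gQ.pow _), hs2, ?_⟩
  rcases Nat.eq_zero_or_pos (Nat.find hex) with h0 | h0
  · rw [h0, pow_zero, one_mul, Nat.sub_zero]
    have : ((Q ^ (T + w) : ℕ) : ℝ) ≤ k := by exact_mod_cast h1
    nlinarith [(Nat.cast_nonneg k : (0 : ℝ) ≤ k)]
  · obtain ⟨s, hs⟩ := Nat.exists_eq_add_of_le' h0
    have h3 := Nat.find_min hex (m := s) (by omega)
    rw [hs] at hs1 ⊢
    have h4 : P ^ s * Q ^ (T - (s + 1) + w) * Q < k := by
      rw [mul_assoc, ← pow_succ, show T - (s + 1) + w + 1 = T - s + w by omega]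
      by_contra hc
      exact h3 ⟨by omega, not_lt.mp hc⟩
    have h5 : (P : ℝ) ^ s * Q ^ (T - (s + 1) + w) * Q ≤ k := by exact_mod_cast h4.le
    push_cast
    calc (P : ℝ) ^ (s + 1) * Q ^ (T - (s + 1) + w) = P ^ s * Q ^ (T - (s + 1) + w) * P := by ring
      _ ≤ P ^ s * Q ^ (T - (s + 1) + w) * ((1 + ε) * Q) := by gcongr
      _ = (1 + ε) * (P ^ s * Q ^ (T - (s + 1) + w) * Q) := by ring
      _ ≤ _ := by gcongr

theorem q1 (n p : ℕ) (hn : 2 ≤ n) (hp : 1 ≤ p) :
    Tendsto (fun k : ℕ => (theta (KK n k) p : ℝ) / ((k : ℝ) ^ 2 / p)) atTop (nhds 1) := by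
  have hp0 : (0 : ℝ) < p := by exact_mod_cast hp
  refine tendsto_order.mpr ⟨fun a ha => ?_, fun b hb => ?_⟩
  · obtain ⟨M, hM⟩ := exists_nat_gt (1 / (1 - a))
    filter_upwards [dense n p hp 1 one_pos, eventually_ge_atTop (M + 1)] with k ⟨N, gN, hkN, _⟩ hk
    obtain ⟨t, ht, -⟩ := upperKK hp (by omega) gN hkN
    have h1 := lowerKK n k p _ hn hp (Nat.sInf_mem (s := {t | Rep (KK n k) p t}) ⟨t, ht⟩)
    have h2 : (k : ℝ) * (k - 1) ≤ p * theta (KK n k) p := by exact_mod_cast h1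
    have h3 : (M : ℝ) + 1 ≤ k := by exact_mod_cast hk
    have h4 : (0 : ℝ) < k := by linarith [(Nat.cast_nonneg M : (0 : ℝ) ≤ M)]
    rw [div_lt_iff₀ (by linarith)] at hM
    rw [lt_div_iff₀ (by positivity), ← mul_div_assoc, div_lt_iff₀ hp0]
    have h5 : a * k < k - 1 := by nlinarith
    nlinarith
  · have hε : 0 < min 1 ((b - 1) / 4) := lt_min one_pos (by linarith)
    filter_upwards [dense n p hp _ hε, eventually_ge_atTop 1] with k ⟨N, gN, hkN, hN⟩ hk
    obtain ⟨t, ht, ht'⟩ := upperKK hp (by omega) gN hkN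
    have h1 : theta (KK n k) p ≤ t := Nat.sInf_le ht
    have h2 : (p : ℝ) * theta (KK n k) p ≤ N * N := by
      exact_mod_cast (Nat.mul_le_mul_left p h1).trans ht'
    have h4 : (0 : ℝ) < k := by exact_mod_cast hk
    have e1 := min_le_left 1 ((b - 1) / 4)
    have e2 := min_le_right 1 ((b - 1) / 4)
    generalize min 1 ((b - 1) / 4) = ε at *
    rw [div_lt_iff₀ (by positivity), ← mul_div_assoc, lt_div_iff₀ hp0]
    have h5 : (N : ℝ) * N ≤ ((1 + ε) * k) * ((1 + ε) * k) := by gcongr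
    have h6 : (1 + ε) * (1 + ε) < b := by nlinarith
    have h7 : (1 + ε) * (1 + ε) * k ^ 2 < b * k ^ 2 := by gcongr
    nlinarith

end Pool.Agent.H10.Pin
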