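import Pool.Agent.H10.PinA

namespace Pool.Agent.H10.Pin

open Finset

lemma small_sets (t p : ℕ) :
    ((univ : Finset (Finset (Fin t))).filter (fun I => I.card < p)).card ≤ p * (t + 1) ^ p := by
  have h1 : (univ : Finset (Finset (Fin t))).filter (fun I => I.card < p) ⊆
      (range p).biUnion (fun j => powersetCard j univ) := by
    intro I hI
    simp only [mem_biUnion, mem_range, mem_powersetCard]
    exact ⟨I.card, (mem_filter.mp hI).2, subset_univ _, rfl⟩
  refine (card_le_card h1).trans (card_biUnion_le.trans ?_)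
  have h2 : ∀ j ∈ range p, (powersetCard j (univ : Finset (Fin t))).card ≤ (t + 1) ^ p := by
    intro j hj
    rw [card_powersetCard, card_univ, Fintype.card_fin]
    exact (Nat.choose_le_pow _ _).trans ((Nat.pow_le_pow_left (by omega) _).trans
      (Nat.pow_le_pow_right (by omega) (mem_range.mp hj).le))
  simpa using sum_le_card_nsmul _ _ _ h2

lemma setpairs (t k p u : ℕ) (A B : Fin k → Finset (Fin t)) (hu : ∀ l, (A l).card + (B l).card ≤ u)
    (h1 : ∀ l, (A l ∩ B l).card < p) (h2 : ∀ l m, l ≠ m → p ≤ (A l ∩ B m).card) :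
    k ≤ 2 ^ u * (p * (t + 1) ^ p) := by
  let C : Fin k → Finset (Finset (Fin t)) := fun l =>
    univ.filter (fun X => A l \ B l ⊆ X ∧ Disjoint (B l \ A l) X)
  have hC : ∀ l, 2 ^ t ≤ (C l).card * 2 ^ u := by
    intro l
    have h3 : (univ : Finset (Finset (Fin t))).card ≤ ((C l) ×ˢ (A l ∪ B l).powerset).card := by
      refine card_le_card_of_injOn (fun X => (X \ (A l ∪ B l) ∪ A l \ B l, X ∩ (A l ∪ B l)))
        (fun X _ => ?_) (fun X _ Y _ h => ?_)
      · simp only [C, coe_product, Set.mem_prod, mem_coe, mem_filter, mem_univ, true_and,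
          mem_powerset]
        refine ⟨⟨subset_union_right, disjoint_left.mpr fun x hx hx' => ?_⟩, inter_subset_right⟩
        simp only [mem_sdiff, mem_union] at hx hx'
        tauto
      · obtain ⟨e1, e2⟩ := Prod.ext_iff.mp h
        ext x
        have a1 := Finset.ext_iff.mp e1 x
        have a2 := Finset.ext_iff.mp e2 x
        simp only [mem_sdiff, mem_union, mem_inter] at a1 a2
        tauto
    rw [card_product, card_powerset, card_univ, Fintype.card_finset, Fintype.card_fin] at h3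
    exact h3.trans (Nat.mul_le_mul_left _ (Nat.pow_le_pow_right (by norm_num)
      ((card_union_le _ _).trans (hu l))))
  have h4 : (univ.sigma C).card ≤ ((univ : Finset (Finset (Fin t))) ×ˢ
      (univ.filter (fun I : Finset (Fin t) => I.card < p))).card := by
    refine card_le_card_of_injOn (fun x => (x.2, A x.1 ∩ B x.1)) (fun x _ => by simp [h1]) ?_
    rintro ⟨l, X⟩ hx ⟨m, Y⟩ hy h
    obtain ⟨e1, e2⟩ := Prod.ext_iff.mp h
    simp only at e1 e2
    subst e1
    have : l = m := by
      by_contra hlm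
      simp only [C, coe_sigma, Set.mem_sigma_iff, mem_coe, mem_filter, mem_univ, true_and] at hx hy
      have h5 : A l ∩ B m ⊆ A l ∩ B l := by
        intro x hx'
        by_contra hc
        have a1 := Finset.ext_iff.mp e2 x
        simp only [mem_inter] at hx' hc a1
        exact disjoint_left.mp hy.2 (mem_sdiff.mpr ⟨hx'.2, by tauto⟩)
          (hx.1 (mem_sdiff.mpr ⟨hx'.1, by tauto⟩))
      have := card_le_card h5
      have := h1 l
      have := h2 l m hlm
      omega
    subst this
    rfl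
  rw [card_sigma, card_product, card_univ, Fintype.card_finset, Fintype.card_fin] at h4
  have h5 : k * 2 ^ t ≤ (∑ l, (C l).card) * 2 ^ u := by
    rw [sum_mul]
    simpa using card_nsmul_le_sum univ (fun l => (C l).card * 2 ^ u) _ fun l _ => hC l
  have h6 := h4.trans (Nat.mul_le_mul_left _ (small_sets t p))
  have h7 : k * 2 ^ t ≤ 2 ^ u * (p * (t + 1) ^ p) * 2 ^ t := by
    calc _ ≤ _ := h5
      _ ≤ 2 ^ t * (p * (t + 1) ^ p) * 2 ^ u := Nat.mul_le_mul_right _ h6
      _ = _ := by ring
  exact Nat.le_of_mul_le_mul_right h7 (by positivity)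

lemma lowerKM (n k p t : ℕ) (hn : 2 ≤ n) (h : Rep (KM n k) p t) :
    ∃ u, n * u ≤ 2 * (t + n * (n * p)) ∧ k ≤ 2 ^ u * (p * (t + 1) ^ p) := by
  obtain ⟨S, hS⟩ := h
  obtain ⟨n, rfl⟩ := Nat.exists_eq_add_of_le' hn
  have hin : ∀ l α β, α ≠ β → (S (α, l) ∩ S (β, l)).card < p := fun l α β hab =>
    not_le.mp ((hS (α, l) (β, l) (by simp [hab])).not.mp (fun h => h rfl))
  have hl : ∀ l, ∃ α : Fin (n + 2), (n + 2) * ((S (α, l)).card + (S (α + 1, l)).card) ≤
      2 * (t + (n + 2) * ((n + 2) * p)) := by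
    intro l
    let S' : Fin (n + 2) → Finset (Fin t) := fun α =>
      S (α, l) \ (univ.erase α).biUnion (fun β => S (α, l) ∩ S (β, l))
    have h1 : ∀ α, (S (α, l)).card ≤ (S' α).card + (n + 2) * p := by
      intro α
      have a1 := le_card_sdiff ((univ.erase α).biUnion (fun β => S (α, l) ∩ S (β, l))) (S (α, l))
      have a2 : ((univ.erase α).biUnion (fun β => S (α, l) ∩ S (β, l))).card ≤ (n + 2) * p := by
        refine card_biUnion_le.trans ((sum_le_card_nsmul _ _ p fun β hβ =>
          (hin l α β (mem_erase.mp hβ).1.symm).le).trans ?_)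
        exact Nat.mul_le_mul_right _ ((card_le_univ _).trans (by simp))
      simp only [S']
      omega
    have h2 : ∑ α, (S' α).card ≤ t := by
      rw [← card_biUnion]
      · exact (card_le_univ _).trans (by simp)
      · intro α _ β _ hab
        refine disjoint_left.mpr fun x hx hy => ?_
        simp only [S', mem_sdiff, mem_biUnion, mem_erase, mem_univ, and_true, mem_inter] at hx hy
        exact hx.2 ⟨β, hab.symm, hx.1, hy.1⟩
    have h3 : ∑ α, (S (α, l)).card ≤ t + (n + 2) * ((n + 2) * p) := by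
      refine (sum_le_sum fun α _ => h1 α).trans ?_
      rw [sum_add_distrib]
      simp only [sum_const, card_univ, Fintype.card_fin, smul_eq_mul]
      omega
    have h4 : ∑ α, (S (α + 1, l)).card = ∑ α, (S (α, l)).card :=
      Equiv.sum_comp (Equiv.addRight 1) (fun α => (S (α, l)).card)
    obtain ⟨α, -, hα⟩ := exists_le_of_sum_le (s := (univ : Finset (Fin (n + 2)))) univ_nonempty
      (f := fun α => (n + 2) * ((S (α, l)).card + (S (α + 1, l)).card))
      (g := fun _ => 2 * (t + (n + 2) * ((n + 2) * p))) (by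
        rw [← mul_sum, sum_add_distrib, h4]
        simp only [sum_const, card_univ, Fintype.card_fin, smul_eq_mul]
        exact Nat.mul_le_mul_left _ (by omega))
    exact ⟨α, hα⟩
  choose α hα using hl
  refine ⟨2 * (t + (n + 2) * ((n + 2) * p)) / (n + 2), Nat.mul_div_le _ _,
    setpairs t k p _ (fun l => S (α l, l)) (fun l => S (α l + 1, l)) (fun l => ?_)
      (fun l => hin l _ _ (by simp)) fun l m hlm => ?_⟩
  · exact (Nat.le_div_iff_mul_le (by omega)).mpr (by rw [mul_comm]; exact hα l)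
  · exact (hS (α l, l) (α m + 1, m) (by simp [hlm])).mp hlm

def Col (Ω : Type) (r : Ω → Ω → Prop) (K : ℕ) : Prop :=
  ∃ (C : Type) (_ : Fintype C), Fintype.card C ≤ K ∧ ∃ f : Ω → C, ∀ x y, x ≠ y → f x = f y → r x y

lemma Col.toZ {Ω : Type} {r : Ω → Ω → Prop} {K : ℕ} [NeZero K] (h : Col Ω r K) :
    ∃ f : Ω → ZMod K, ∀ x y, x ≠ y → f x = f y → r x y := by
  obtain ⟨C, _, hc, f, hf⟩ := h
  obtain ⟨e⟩ : Nonempty (C ↪ ZMod K) := Function.Embedding.nonempty_of_card_le (by simpa using hc)
  exact ⟨fun x => e (f x), fun x y hxy h => hf x y hxy (e.injective h)⟩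

lemma Col.pi {Ω X : Type} [Fintype X] {r : Ω → Ω → Prop} {K : ℕ} (h : Col Ω r K) :
    Col (X → Ω) (fun x y => ∃ s, r (x s) (y s)) (K ^ Fintype.card X) := by
  classical
  obtain ⟨C, _, hc, f, hf⟩ := h
  refine ⟨X → C, inferInstance, by simpa using Nat.pow_le_pow_left hc _, fun x s => f (x s),
    fun x y hxy h => ?_⟩
  obtain ⟨s, hs⟩ := Function.ne_iff.mp hxy
  exact ⟨s, hf _ _ hs (congrFun h s)⟩

lemma Col.mono {Ω : Type} {r : Ω → Ω → Prop} {K L : ℕ} (h : Col Ω r K) (hKL : K ≤ L) :
    Col Ω r L := by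
  obtain ⟨C, i, hc, hf⟩ := h
  exact ⟨C, i, hc.trans hKL, hf⟩

lemma Col.comb {Ω : Type} {r r' : Ω → Ω → Prop} {L : ℕ} (hL : 0 < L) (h : Col Ω r L)
    (h' : Col Ω r' L) (m : ℕ) :
    Col (Fin m → Ω) (fun x y => (∃ j, r (x j) (y j)) ∧ ∃ j, r' (x j) (y j)) (L ^ (m + 1)) := by
  classical
  have : NeZero L := ⟨by omega⟩
  obtain ⟨f, hf⟩ := h.toZ
  obtain ⟨g, hg⟩ := h'.toZ
  refine ⟨Fin (m + 1) → ZMod L, inferInstance, by simp, fun x j =>
    (if h : (j : ℕ) < m then f (x ⟨j, h⟩) else 0) -
      (if h : 0 < (j : ℕ) then g (x ⟨j - 1, by omega⟩) else 0), fun x y hxy he => ?_⟩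
  have hne : (univ.filter (fun j => x j ≠ y j)).Nonempty := by
    obtain ⟨s, hs⟩ := Function.ne_iff.mp hxy
    exact ⟨s, by simpa using hs⟩
  constructor
  · obtain ⟨j, hj, hmin⟩ := exists_min_image _ id hne
    refine ⟨j, hf _ _ (mem_filter.mp hj).2 ?_⟩
    have h1 := congrFun he ⟨j, by omega⟩
    simp only [j.2, dif_pos] at h1
    by_cases h0 : 0 < (j : ℕ)
    · have h2 : x ⟨j - 1, by omega⟩ = y ⟨j - 1, by omega⟩ := by
        by_contra hc
        have := hmin ⟨j - 1, by omega⟩ (by simpa using hc)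
        simp only [id, Fin.le_def] at this
        omega
      simp only [h0, dif_pos, h2] at h1
      exact sub_left_inj.mp h1
    · simpa [h0] using h1
  · obtain ⟨j, hj, hmax⟩ := exists_max_image _ id hne
    refine ⟨j, hg _ _ (mem_filter.mp hj).2 ?_⟩
    have h1 := congrFun he ⟨j + 1, by omega⟩
    simp only [Nat.succ_pos, dif_pos, Nat.add_sub_cancel] at h1
    by_cases h0 : (j : ℕ) + 1 < m
    · have h2 : x ⟨j + 1, h0⟩ = y ⟨j + 1, h0⟩ := by
        by_contra hc
        have := hmax ⟨j + 1, h0⟩ (by simpa using hc)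
        simp only [id, Fin.le_def] at this
        omega
      simp only [h0, dif_pos, h2] at h1
      exact sub_right_inj.mp h1
    · simpa [h0] using h1

lemma Col.iter {Ω ι : Type} (r : ι → Ω → Ω → Prop) {K : ℕ} (hK : 0 < K) (h : ∀ i, Col Ω (r i) K)
    (m : ℕ) (l : List ι) : ∃ (X : Type) (_ : Fintype X), Fintype.card X = m ^ l.length ∧
      Col (X → Ω) (fun x y => ∀ i ∈ l, ∃ s, r i (x s) (y s)) (K ^ (m + 1) ^ l.length) := by
  induction l with
  | nil => exact ⟨Unit, inferInstance, by simp, Unit, inferInstance, by simp; omega,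
      fun _ => (), by simp⟩
  | cons i l ih =>
    obtain ⟨X, _, hX, hc⟩ := ih
    have h1 := ((h i).pi (X := X)).mono (L := K ^ (m + 1) ^ l.length)
      (Nat.pow_le_pow_right hK (by rw [hX]; exact Nat.pow_le_pow_left (by omega) _))
    obtain ⟨C, iC, hC, f, hf⟩ := Col.comb (by positivity) hc h1 m
    refine ⟨Fin m × X, inferInstance, by simp [hX, pow_succ'], C, iC,
      by rwa [← pow_mul, ← pow_succ] at hC, fun x => f (Function.curry x), fun x y hxy he => ?_⟩
    obtain ⟨⟨j, hj⟩, ⟨j', s', hj'⟩⟩ := hf _ _ (fun h => hxy (Function.curry_injective h)) he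
    intro i' hi'
    rcases List.mem_cons.mp hi' with rfl | hi'
    · exact ⟨(j', s'), hj'⟩
    · obtain ⟨s, hs⟩ := hj i' hi'
      exact ⟨(j, s), hs⟩

end Pool.Agent.H10.Pin
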