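import Pool.Agent.H10.PinC

namespace Pool.Agent.H10.Pin

open Finset

abbrev Bal (n r : ℕ) := {w : Fin n × Fin r → Fin n // ∀ a, (univ.filter (fun s => w s = a)).card = r}

def mrg {n r : ℕ} (a b : Fin n) (w : Bal n r) : Fin n × Fin r → Fin n :=
  fun s => if w.1 s = b then a else w.1 s

lemma mrg_sep {n r : ℕ} {a b : Fin n} (x y : Bal n r) (hxy : x ≠ y)
    (he : mrg a b x = mrg a b y) : ∃ s, x.1 s = a ∧ y.1 s = b := by
  by_contra hc
  push Not at hc
  have h0 : ∀ s, (if x.1 s = b then a else x.1 s) = if y.1 s = b then a else y.1 s :=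
    fun s => congrFun he s
  have h1 : univ.filter (fun s => x.1 s = a) ⊆ univ.filter (fun s => y.1 s = a) := by
    intro s hs
    have h2 := (mem_filter.mp hs).2
    have h3 := h0 s
    rw [if_neg (hc s h2), h2, ite_self] at h3
    simp [← h3]
  have h2 := eq_of_subset_of_card_le h1 (by rw [x.2, y.2])
  refine hxy (Subtype.ext (funext fun s => ?_))
  have h3 := Finset.ext_iff.mp h2 s
  have h4 := h0 s
  simp only [mem_filter, mem_univ, true_and] at h3
  split_ifs at h4 with h5 h6 h6
  · rw [h5, h6]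
  · rw [h3.mpr h4.symm, ← h4]
  · rw [h4, h3.mp h4]
  · exact h4

lemma fiber {n r : ℕ} {a b : Fin n} (hab : a ≠ b) (w : Bal n r) :
    (2 * r).choose r ≤ (univ.filter (fun w' => mrg a b w' = mrg a b w)).card := by
  classical
  let U := univ.filter (fun s => w.1 s = a ∨ w.1 s = b)
  have hU : U.card = 2 * r := by
    simp only [U]
    rw [filter_or, card_union_of_disjoint, w.2, w.2, two_mul]
    exact disjoint_filter.mpr fun s _ h1 h2 => hab (h1.symm.trans h2)
  let g : Finset (Fin n × Fin r) → Fin n × Fin r → Fin n :=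
    fun A s => if s ∈ A then a else if s ∈ U then b else w.1 s
  have hga : ∀ A ⊆ U, univ.filter (fun s => g A s = a) = A := by
    intro A hA
    ext s
    simp only [g, U, mem_filter, mem_univ, true_and]
    split_ifs with h1 h2
    · simp [h1]
    · simp [h1, hab.symm]
    · simp only [h1, iff_false]
      tauto
  have hbal : ∀ A ∈ powersetCard r U, ∀ c, (univ.filter (fun s => g A s = c)).card = r := by
    intro A hA c
    obtain ⟨hA1, hA2⟩ := mem_powersetCard.mp hA
    by_cases h1 : c = a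
    · rw [h1, hga A hA1, hA2]
    by_cases h2 : c = b
    · have : univ.filter (fun s => g A s = c) = U \ A := by
        ext s
        simp only [g, U, h2, mem_filter, mem_univ, true_and, mem_sdiff]
        split_ifs with h3 h4
        · simp [h3, hab]
        · simp [h3, h4]
        · simp only [h4, false_and, iff_false]
          tauto
      rw [this, card_sdiff_of_subset hA1]
      omega
    · refine Eq.trans ?_ (w.2 c)
      congr 1
      ext s
      have h5 := @hA1 s
      simp only [g, U, mem_filter, mem_univ, true_and] at h5 ⊢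
      split_ifs with h3 h4
      · have := h5 h3
        constructor
        · exact fun h => absurd h.symm h1
        · intro h
          rw [h] at this
          tauto
      · constructor
        · exact fun h => absurd h.symm h2
        · intro h
          rw [h] at h4
          tauto
      · rfl
  rw [← hU, ← card_powersetCard]
  refine card_le_card_of_injOn (fun A => if h : A ∈ powersetCard r U then (⟨g A, hbal A h⟩ : Bal n r)
    else w) (fun A hA => ?_) (fun A hA B hB h => ?_)
  · have hA' : A ∈ powersetCard r U := hA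
    simp only [dif_pos hA', coe_filter, mem_univ, true_and, Set.mem_setOf_eq]
    funext s
    have h5 := @(mem_powersetCard.mp hA').1 s
    simp only [mrg, g, U, mem_filter, mem_univ, true_and] at h5 ⊢
    by_cases h3 : s ∈ A
    · rcases h5 h3 with h | h <;> simp [h3, h]
    · by_cases h4 : w.1 s = a
      · simp [h3, h4]
      · by_cases h6 : w.1 s = b <;> simp [h3, h4, h6]
  · have hA' : A ∈ powersetCard r U := hA
    have hB' : B ∈ powersetCard r U := hB
    simp only [dif_pos hA', dif_pos hB', Subtype.mk.injEq] at h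
    rw [← hga A (mem_powersetCard.mp hA').1, ← hga B (mem_powersetCard.mp hB').1, h]

def bal0 (n r : ℕ) : Bal n r := ⟨Prod.fst, fun a => by
  have : univ.filter (fun s : Fin n × Fin r => s.1 = a) = {a} ×ˢ univ := by
    ext s
    rw [mem_product]
    simp
  rw [this]
  simp⟩

lemma col_base (n r : ℕ) (hn : 2 ≤ n) : 0 < Fintype.card (Bal n r) / (2 * r).choose r ∧
    ∀ i : Fin n × Fin n, Col (Bal n r) (fun x y => i.1 ≠ i.2 → ∃ s, x.1 s = i.1 ∧ y.1 s = i.2)
      (Fintype.card (Bal n r) / (2 * r).choose r) := by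
  classical
  have hC : 0 < (2 * r).choose r := Nat.choose_pos (by omega)
  have h0 : 0 < Fintype.card (Bal n r) / (2 * r).choose r :=
    Nat.div_pos ((fiber (a := ⟨0, by omega⟩) (b := ⟨1, by omega⟩) (by simp) (bal0 n r)).trans
      (card_le_univ _)) hC
  refine ⟨h0, fun ⟨a, b⟩ => ?_⟩
  by_cases hab : a = b
  · exact ⟨Unit, inferInstance, by simp; omega, fun _ => (), fun _ _ _ _ h => absurd hab h⟩
  · refine ⟨(univ.image (mrg (r := r) a b)), inferInstance, ?_,
      fun w => ⟨mrg a b w, mem_image_of_mem _ (mem_univ _)⟩,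
      fun x y hxy he _ => mrg_sep x y hxy (Subtype.ext_iff.mp he)⟩
    rw [Fintype.card_coe, Nat.le_div_iff_mul_le hC, mul_comm]
    refine mul_card_image_le_card _ _ fun c hc => ?_
    obtain ⟨w, -, rfl⟩ := mem_image.mp hc
    exact fiber hab w

def Code (n t Z : ℕ) : Prop :=
  ∃ (X Y : Type) (_ : Fintype X) (_ : Fintype Y), Fintype.card X = t ∧ Z ≤ Fintype.card Y ∧
    ∃ w : Y → X → Fin n, ∀ y y', y ≠ y' → ∀ a b, a ≠ b → ∃ x, w y x = a ∧ w y' x = b

lemma Code.pow {n t Z : ℕ} (h : Code n t Z) (j : ℕ) : Code n (j * t) (Z ^ j) := by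
  classical
  obtain ⟨X, Y, _, _, hX, hY, w, hw⟩ := h
  refine ⟨Fin j × X, Fin j → Y, inferInstance, inferInstance, by simp [hX],
    by simpa using Nat.pow_le_pow_left hY j, fun y x => w (y x.1) x.2, fun y y' h a b hab => ?_⟩
  obtain ⟨s, hs⟩ := Function.ne_iff.mp h
  obtain ⟨x, hx⟩ := hw _ _ hs a b hab
  exact ⟨(s, x), hx⟩

lemma Code.rep {n t Z k p : ℕ} (h : Code n t Z) (hk : k ≤ Z) (hp : 1 ≤ p) :
    Rep (KM n k) p (t + (n + (p - 1))) := by
  classical
  obtain ⟨X, Y, _, _, hX, hY, w, hw⟩ := h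
  obtain ⟨e⟩ : Nonempty (Fin k ↪ Y) := Function.Embedding.nonempty_of_card_le (by simp; omega)
  let S : Fin n × Fin k → Finset (X ⊕ (Fin n ⊕ Fin (p - 1))) := fun v =>
    (univ.filter (fun x => w (e v.2) x = v.1)).disjSum (({v.1} : Finset (Fin n)).disjSum univ)
  have := rep_of (KM n k) p S fun u v huv => by
    have hc : (S u ∩ S v).card = (univ.filter (fun x => w (e u.2) x = u.1 ∧ w (e v.2) x = v.1)).card
        + ((if u.1 = v.1 then 1 else 0) + (p - 1)) := by
      have : S u ∩ S v = (univ.filter (fun x => w (e u.2) x = u.1 ∧ w (e v.2) x = v.1)).disjSum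
          ((({u.1} : Finset (Fin n)) ∩ {v.1}).disjSum univ) := by
        ext (x | x | x) <;> simp [S]
      rw [this, card_disjSum, card_disjSum]
      by_cases h : u.1 = v.1 <;> simp [h]
    rw [hc]
    constructor
    · intro h
      split_ifs with h1
      · omega
      · obtain ⟨x, hx⟩ := hw _ _ (e.injective.ne h) _ _ h1
        have : 0 < (univ.filter (fun x => w (e u.2) x = u.1 ∧ w (e v.2) x = v.1)).card :=
          card_pos.mpr ⟨x, by simpa using hx⟩
        omega
    · intro h h2
      have h1 : u.1 ≠ v.1 := fun h1 => huv (Prod.ext h1 h2)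
      have : (univ.filter (fun x => w (e u.2) x = u.1 ∧ w (e v.2) x = v.1)).card = 0 := by
        rw [card_eq_zero, filter_eq_empty_iff]
        rintro x - ⟨h3, h4⟩
        rw [h2] at h3
        exact h1 (h3.symm.trans h4)
      rw [if_neg h1] at h
      omega
  simpa [hX] using this

lemma code_base (n D d m : ℕ) (hn : 2 ≤ n) (hD : 1 ≤ D) (hd : 2 * (D * d) + 1 ≤ 2 ^ d)
    (hm : n * n * D * (m + 1) ^ (n * n) ≤ (n * n * D + 1) * m ^ (n * n)) :
    Code n (n * D * (d * m ^ (n * n))) (2 ^ ((2 * D - 2) * (d * m ^ (n * n)))) := by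
  classical
  obtain ⟨hK, hcol⟩ := col_base n (D * d) hn
  obtain ⟨X, _, hX, C, _, hC, f, hf⟩ := Col.iter _ hK hcol m (univ : Finset (Fin n × Fin n)).toList
  simp only [length_toList, card_univ, Fintype.card_prod, Fintype.card_fin] at hX hC
  set K := Fintype.card (Bal n (D * d)) / (2 * (D * d)).choose (D * d) with hKd
  set M := m ^ (n * n) with hM
  obtain ⟨E, hE⟩ := Nat.exists_eq_add_of_le (Nat.pow_le_pow_left (Nat.le_succ m) (n * n))
  rw [Nat.succ_eq_add_one, ← hM] at hE
  rw [hE] at hm hC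
  obtain ⟨D, rfl⟩ := Nat.exists_eq_add_of_le' hD
  have hKC : K * (2 * ((D + 1) * d)).choose ((D + 1) * d) ≤ Fintype.card (Bal n ((D + 1) * d)) :=
    Nat.div_mul_le_self _ _
  have hN : Fintype.card (Bal n ((D + 1) * d)) ≤ 2 ^ (n * (n * ((D + 1) * d))) := by
    refine (Fintype.card_subtype_le _).trans ?_
    rw [pow_mul]
    simpa using Nat.pow_le_pow_left (Nat.lt_two_pow_self (n := n)).le _
  have hK2 : K ≤ 2 ^ (n * (n * ((D + 1) * d))) := (Nat.div_le_self _ _).trans hN
  have hch : 2 ^ ((2 * D + 1) * d) ≤ (2 * ((D + 1) * d)).choose ((D + 1) * d) := by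
    have h1 := Nat.four_pow_le_two_mul_add_one_mul_central_binom ((D + 1) * d)
    have h2 : 4 ^ ((D + 1) * d) = 2 ^ d * 2 ^ ((2 * D + 1) * d) := by
      rw [show (4 : ℕ) = 2 ^ 2 by norm_num, ← pow_mul, ← pow_add]
      congr 1
      ring
    rw [h2] at h1
    exact Nat.le_of_mul_le_mul_left (h1.trans (Nat.mul_le_mul_right _ hd)) (by positivity)
  have hEM : n * (n * ((D + 1) * d)) * E ≤ d * M := by
    have : n * n * (D + 1) * E ≤ M := by nlinarith
    calc _ = d * (n * n * (D + 1) * E) := by ring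
      _ ≤ _ := Nat.mul_le_mul_left _ this
  have hbig : Fintype.card C * 2 ^ ((2 * (D + 1) - 2) * (d * M)) ≤
      Fintype.card (X → Bal n ((D + 1) * d)) := by
    rw [Fintype.card_fun, hX, show 2 * (D + 1) - 2 = 2 * D by omega]
    calc _ ≤ K ^ (M + E) * 2 ^ (2 * D * (d * M)) := Nat.mul_le_mul_right _ hC
      _ = K ^ M * (K ^ E * 2 ^ (2 * D * (d * M))) := by rw [pow_add, mul_assoc]
      _ ≤ K ^ M * ((2 ^ (n * (n * ((D + 1) * d)))) ^ E * 2 ^ (2 * D * (d * M))) := by gcongr
      _ ≤ K ^ M * (2 ^ (d * M) * 2 ^ (2 * D * (d * M))) := by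
          rw [← pow_mul]
          gcongr
          norm_num
      _ = (K * 2 ^ ((2 * D + 1) * d)) ^ M := by
          rw [mul_pow, ← pow_add, ← pow_mul]
          congr 2
          ring
      _ ≤ _ := Nat.pow_le_pow_left ((Nat.mul_le_mul_left _ hch).trans hKC) _
  have : Nonempty C := ⟨f fun _ => bal0 _ _⟩
  obtain ⟨c, hc⟩ := Fintype.exists_le_card_fiber_of_mul_le_card f hbig
  refine ⟨X × (Fin n × Fin ((D + 1) * d)), (univ.filter (fun x => f x = c)), inferInstance,
    inferInstance, by simp [hX]; ring, by rw [Fintype.card_coe]; exact hc, fun y x => (y.1 x.1).1 x.2,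
    fun y y' h a b hab => ?_⟩
  obtain ⟨s, hs⟩ := hf y.1 y'.1 (fun h' => h (Subtype.ext h'))
    ((mem_filter.mp y.2).2.trans (mem_filter.mp y'.2).2.symm) (a, b) (by simp)
  obtain ⟨x, hx⟩ := hs hab
  exact ⟨(s, x), hx⟩

end Pool.Agent.H10.Pin
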