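import Mathlib

namespace Pool.Agent.H10.Pin

/-- `G` has a `p`-intersection representation on `t` points. -/
def Rep {V : Type} (G : SimpleGraph V) (p t : ℕ) : Prop :=
  ∃ S : V → Finset (Fin t), ∀ u v, u ≠ v → (G.Adj u v ↔ p ≤ (S u ∩ S v).card)

/-- The `p`-intersection number. -/
noncomputable def theta {V : Type} (G : SimpleGraph V) (p : ℕ) : ℕ := sInf {t | Rep G p t}

/-- The graph `K(n × k)`: `(α, l)` is adjacent to `(β, m)` iff `l ≠ m` and `α ≠ β`. -/
def KK (n k : ℕ) : SimpleGraph (Fin n × Fin k) where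
  Adj x y := x.2 ≠ y.2 ∧ x.1 ≠ y.1
  symm := ⟨fun _ _ h => ⟨h.1.symm, h.2.symm⟩⟩
  loopless := ⟨fun _ h => h.1 rfl⟩

/-- The complete `k`-partite graph with parts of size `n`. -/
def KM (n k : ℕ) : SimpleGraph (Fin n × Fin k) where
  Adj x y := x.2 ≠ y.2
  symm := ⟨fun _ _ h => h.symm⟩
  loopless := ⟨fun _ h => h rfl⟩

end Pool.Agent.H10.Pin
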