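import Pool.Agent.H10.PinD

namespace Pool.Agent.H10.Pin

open Filter

lemma ex_d (D : ℕ) : ∃ d, 1 ≤ d ∧ 2 * (D * d) + 1 ≤ 2 ^ d := by
  refine ⟨2 * (2 * D + 1), by omega, ?_⟩
  have h1 : 2 * D + 1 < 2 ^ (2 * D) + 1 := by
    have := Nat.lt_two_pow_self (n := 2 * D)
    omega
  have h2 : 2 ^ (2 * (2 * D + 1)) = 4 * (2 ^ (2 * D) * 2 ^ (2 * D)) := by ring
  rw [h2]
  nlinarith

lemma ex_m (A Q : ℕ) (hA : 0 < A) : ∃ m, 1 ≤ m ∧ A * (m + 1) ^ Q ≤ (A + 1) * m ^ Q := by
  have h1 : Tendsto (fun m : ℕ => (1 + 1 / (m : ℝ)) ^ Q) atTop (nhds ((1 + 0) ^ Q)) :=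
    (tendsto_const_nhds.add tendsto_one_div_atTop_nhds_zero_nat).pow Q
  have hA' : (0 : ℝ) < A := by exact_mod_cast hA
  have h2 := h1.eventually (gt_mem_nhds (show ((1 : ℝ) + 0) ^ Q < (A + 1) / A by
    rw [add_zero, one_pow, one_lt_div hA']; linarith))
  obtain ⟨m, hm, hm1⟩ := (h2.and (eventually_ge_atTop 1)).exists
  have hm0 : (0 : ℝ) < m := by exact_mod_cast hm1
  refine ⟨m, hm1, ?_⟩
  rw [one_add_div hm0.ne', div_pow, div_lt_div_iff₀ (by positivity) hA', mul_comm] at hm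
  exact_mod_cast hm.le

lemma upperKM (n p D : ℕ) (hn : 2 ≤ n) (hp : 1 ≤ p) : ∃ c : ℕ, ∀ k, ∃ t, Rep (KM n k) p t ∧
    2 * (D + 1) * t ≤ n * (D + 2) * Nat.log 2 k + c := by
  obtain ⟨d, hd1, hd⟩ := ex_d (D + 2)
  obtain ⟨m, hm1, hm⟩ := ex_m (n * n * (D + 2)) (n * n) (by positivity)
  have hc := code_base n (D + 2) d m hn (by omega) hd hm
  have hg : 0 < d * m ^ (n * n) := by positivity
  generalize d * m ^ (n * n) = g at hc hg
  rw [show 2 * (D + 2) - 2 = 2 * (D + 1) by omega] at hc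
  refine ⟨2 * (D + 1) * (n * (D + 2) * g + (n + (p - 1))), fun k =>
    ⟨_, (hc.pow (Nat.log 2 k / (2 * (D + 1) * g) + 1)).rep ?_ hp, ?_⟩⟩
  · rw [← pow_mul]
    exact (Nat.lt_pow_succ_log_self (by norm_num) k).le.trans (Nat.pow_le_pow_right (by norm_num)
      (Nat.lt_mul_div_succ _ (by positivity)))
  · have h1 := Nat.div_mul_le_self (Nat.log 2 k) (2 * (D + 1) * g)
    generalize Nat.log 2 k / (2 * (D + 1) * g) = j at h1
    have h2 := Nat.mul_le_mul_left (n * (D + 2)) h1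
    nlinarith

theorem q2 (n p : ℕ) (hn : 2 ≤ n) (hp : 1 ≤ p) :
    Tendsto (fun k : ℕ => (theta (KM n k) p : ℝ) / ((n : ℝ) / 2 * Real.logb 2 k)) atTop
      (nhds 1) := by
  have hp0 : (0 : ℝ) < p := by exact_mod_cast hp
  have hn0 : (2 : ℝ) ≤ n := by exact_mod_cast hn
  have l2 : 0 < Real.log 2 := Real.log_pos (by norm_num)
  have hL : Tendsto (fun k : ℕ => Real.logb 2 k) atTop atTop :=
    (Real.tendsto_logb_atTop (by norm_num)).comp tendsto_natCast_atTop_atTop
  refine tendsto_order.mpr ⟨fun a ha => ?_, fun b hb => ?_⟩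
  · obtain ⟨c, hc⟩ := upperKM n p 0 hn hp
    set δ := (1 - a) * Real.log 2 / (p * n * (|a| + 1)) with hδ
    have hδ0 : 0 < δ := div_pos (mul_pos (by linarith) l2) (by positivity)
    filter_upwards [hL.eventually_gt_atTop (2 * (2 * n * p * Real.log 2 + Real.log p
      + p * (δ - Real.log δ)) / ((1 - a) * Real.log 2)), hL.eventually_gt_atTop 0,
      eventually_ge_atTop 1] with k hk hk0 hk1
    obtain ⟨t, ht, -⟩ := hc k
    obtain ⟨u, hu, hku⟩ := lowerKM n k p _ hn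
      (Nat.sInf_mem (s := {t | Rep (KM n k) p t}) ⟨t, ht⟩)
    change n * u ≤ 2 * (theta (KM n k) p + _) at hu
    change k ≤ 2 ^ u * (p * (theta (KM n k) p + 1) ^ p) at hku
    generalize theta (KM n k) p = θ at hu hku ⊢
    have hu' : (n : ℝ) * u ≤ 2 * (θ + n * (n * p)) := by exact_mod_cast hu
    have hku' : (k : ℝ) ≤ 2 ^ u * (p * (θ + 1) ^ p) := by exact_mod_cast hku
    have h1 := Real.log_le_log (by exact_mod_cast hk1) hku'
    rw [Real.log_mul (by positivity) (by positivity), Real.log_mul (by positivity) (by positivity),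
      Real.log_pow, Real.log_pow] at h1
    have h2 := Real.log_le_sub_one_of_pos (show 0 < ((θ : ℝ) + 1) * δ by positivity)
    rw [Real.log_mul (by positivity) hδ0.ne'] at h2
    have h3 : Real.log k = Real.logb 2 k * Real.log 2 := by
      rw [Real.logb, div_mul_cancel₀ _ l2.ne']
    rw [div_lt_iff₀ (mul_pos (by linarith) l2)] at hk
    generalize Real.logb 2 k = L at *
    rw [lt_div_iff₀ (by positivity)]
    by_contra hcon
    have h4 : (θ : ℝ) ≤ a * (n / 2 * L) := not_lt.mp hcon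
    have h5 : (u : ℝ) ≤ a * L + 2 * n * p := by
      refine le_of_mul_le_mul_left ?_ (show (0 : ℝ) < n by linarith)
      nlinarith
    have h6 : (θ : ℝ) ≤ (|a| + 1) * (n / 2 * L) :=
      h4.trans (mul_le_mul_of_nonneg_right (by linarith [le_abs_self a]) (by positivity))
    have h7 : p * (θ * δ) ≤ (1 - a) * Real.log 2 * L / 2 := by
      calc p * (θ * δ) ≤ p * ((|a| + 1) * (n / 2 * L) * δ) := by gcongr
        _ = _ := by rw [hδ]; field_simp
    have h8 : (p : ℝ) * Real.log (θ + 1) ≤ p * ((θ + 1) * δ - Real.log δ) := by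
      gcongr
      linarith
    have h9 := mul_le_mul_of_nonneg_right h5 l2.le
    nlinarith
  · obtain ⟨D, hD⟩ := exists_nat_gt (2 / (b - 1))
    obtain ⟨c, hc⟩ := upperKM n p D hn hp
    filter_upwards [hL.eventually_gt_atTop c, eventually_ge_atTop 1] with k hk hk1
    obtain ⟨t, ht, ht'⟩ := hc k
    have h1 : theta (KM n k) p ≤ t := Nat.sInf_le ht
    have h2 : (2 : ℝ) * (D + 1) * theta (KM n k) p ≤ n * (D + 2) * Nat.log 2 k + c := by
      exact_mod_cast (Nat.mul_le_mul_left _ h1).trans ht'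
    have h3 : (Nat.log 2 k : ℝ) ≤ Real.logb 2 k := by
      exact_mod_cast Real.natLog_le_logb k 2
    have hc0 : (0 : ℝ) ≤ c := by positivity
    have hD0 : (0 : ℝ) ≤ D := by positivity
    generalize Real.logb 2 k = L at *
    have hL0 : 0 < L := by linarith
    rw [div_lt_iff₀ (by linarith)] at hD
    rw [div_lt_iff₀ (by positivity)]
    refine lt_of_mul_lt_mul_left ?_ (show (0 : ℝ) ≤ 2 * (D + 1) by positivity)
    have h4 : (n : ℝ) * (D + 2) * Nat.log 2 k ≤ n * (D + 2) * L := by gcongr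
    have h5 : (D : ℝ) + 3 ≤ (D + 1) * b := by nlinarith
    have h6 : (n : ℝ) * L * (D + 3) ≤ n * L * ((D + 1) * b) := by gcongr
    nlinarith

end Pool.Agent.H10.Pin
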