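import Mathlib

set_option autoImplicit false

namespace Pool.Agent.H10.Plane

abbrev E2 := EuclideanSpace ℝ (Fin 2)

/-- orientation determinant of three points of the plane -/
def o (a b c : E2) : ℝ := (b 0 - a 0) * (c 1 - a 1) - (b 1 - a 1) * (c 0 - a 0)

lemma o_eq_zero_of_collinear (a b c : E2) (h : Collinear ℝ ({a, b, c} : Set E2)) : o a b c = 0 := by
  rw [collinear_iff_exists_forall_eq_smul_vadd] at h
  obtain ⟨p, v, h⟩ := h
  obtain ⟨r1, rfl⟩ := h a (by simp)
  obtain ⟨r2, rfl⟩ := h b (by simp)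
  obtain ⟨r3, rfl⟩ := h c (by simp)
  simp [o]; ring

lemma mem_of_o (S : Set E2) (hS : Convex ℝ S) (a b c p : E2) (ha : a ∈ S) (hb : b ∈ S)
    (hc : c ∈ S) (h0 : 0 < o a b c) (h1 : 0 ≤ o b c p) (h2 : 0 ≤ o c a p) (h3 : 0 ≤ o a b p) :
    p ∈ S := by
  have hsum : o b c p + o c a p + o a b p = o a b c := by unfold o; ring
  have := hS.sum_mem (t := Finset.univ) (w := ![o b c p / o a b c, o c a p / o a b c, o a b p / o a b c])
    (z := ![a, b, c]) (fun i _ => by fin_cases i <;> simp <;> positivity)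
    (by simp [Fin.sum_univ_three]; field_simp; linarith)
    (fun i _ => by fin_cases i <;> simpa)
  convert this using 1
  have h0' := h0.ne'
  ext i
  fin_cases i
  · simp [Fin.sum_univ_three]; field_simp; unfold o; ring
  · simp [Fin.sum_univ_three]; field_simp; unfold o; ring

/-- integer points -/
noncomputable def pt (a : ℤ × ℤ) : E2 := !₂[(a.1 : ℝ), (a.2 : ℝ)]

def oz (a b c : ℤ × ℤ) : ℤ := (b.1 - a.1) * (c.2 - a.2) - (b.2 - a.2) * (c.1 - a.1)

lemma o_pt (a b c : ℤ × ℤ) : o (pt a) (pt b) (pt c) = oz a b c := by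
  simp [o, pt, oz]

lemma pt_inj : Function.Injective pt := by
  intro a b h
  have h0 := congrArg (fun x : E2 => x 0) h
  have h1 := congrArg (fun x : E2 => x 1) h
  simp [pt] at h0 h1
  exact Prod.ext h0 h1

end Pool.Agent.H10.Plane
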