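import Mathlib
import Pool.Agent.H10.CedDefs

set_option autoImplicit false

namespace Pool.Agent.H10.QA
open Pool.Agent.H10.Ced

variable (R : Type) [CommRing R]

/-- simplicial boundary map; a simplex is oriented by the order of its vertices, and a vertex is
sent to the empty simplex (augmented chain complex) -/
noncomputable def bdy : (Finset ℕ →₀ R) →ₗ[R] (Finset ℕ →₀ R) :=
  Finsupp.linearCombination R fun σ =>
    ∑ v ∈ σ, (-1 : ℤ) ^ (σ.filter (· < v)).card • Finsupp.single (σ.erase v) 1

/-- chains of `K` on the faces with `k` vertices -/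
noncomputable def ch (K : Cx) (k : ℕ) : Submodule R (Finset ℕ →₀ R) :=
  Finsupp.supported R R {σ | σ ∈ K ∧ σ.card = k}

/-- cycles on faces with `k` vertices -/
noncomputable def cyc (K : Cx) (k : ℕ) : Submodule R (Finset ℕ →₀ R) :=
  ch R K k ⊓ LinearMap.ker (bdy R)

/-- boundaries of chains on faces with `k + 1` vertices -/
noncomputable def bnd (K : Cx) (k : ℕ) : Submodule R (Finset ℕ →₀ R) := (ch R K (k + 1)).map (bdy R)

/-- the quotient of `Z` by its intersection with `B` -/
abbrev SubQ {M : Type} [AddCommGroup M] [Module R M] (Z B : Submodule R M) : Type :=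
  Z ⧸ B.submoduleOf Z

/-- reduced simplicial homology of `K` with coefficients in `R` in degree `k - 1` -/
abbrev H (K : Cx) (k : ℕ) : Type := SubQ R (cyc R K k) (bnd R K k)

/-- `K` has dimension `d` -/
def Dim (d : ℕ) (K : Cx) : Prop := (∀ σ ∈ K, σ.card ≤ d + 1) ∧ ∃ σ ∈ K, σ.card = d + 1

/-- reduced rational homology vanishes in every degree -/
def QAcyclic (K : Cx) : Prop := ∀ k, Subsingleton (H ℚ K k)

end Pool.Agent.H10.QA
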