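import Mathlib
import Pool.Agent.H10.QADefs

set_option autoImplicit false

namespace Pool.Agent.H10.QA
open Finset Finsupp Pool.Agent.H10.Ced

def sg (σ : Finset ℕ) (v : ℕ) : ℤ := (-1) ^ (σ.filter (· < v)).card

def δ {M : Type} [AddCommGroup M] (φ : Finset ℕ → M) (σ : Finset ℕ) : M :=
  ∑ v ∈ σ, sg σ v • φ (σ.erase v)

variable {R : Type} [CommRing R]

lemma bdy_one (σ : Finset ℕ) : bdy R (single σ 1) = δ (fun τ => single τ 1) σ := by
  simp [bdy, δ, sg]

lemma map_δ {M N F : Type} [AddCommGroup M] [AddCommGroup N] [FunLike F M N]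
    [AddMonoidHomClass F M N] (f : F) (φ : Finset ℕ → M) (σ : Finset ℕ) :
    f (δ φ σ) = δ (fun τ => f (φ τ)) σ := by
  simp only [δ, map_sum, map_zsmul]

lemma sg_lt {σ : Finset ℕ} {u v : ℕ} (hu : u ∈ σ) (h : u < v) : sg σ v = -sg (σ.erase u) v := by
  have : σ.filter (· < v) = insert u ((σ.erase u).filter (· < v)) := by
    ext x
    by_cases a : x = u <;> simp [a, hu, h]
  rw [sg, this, card_insert_of_notMem (by simp), pow_succ, sg]
  ring

lemma sg_ge (σ : Finset ℕ) {u v : ℕ} (h : v ≤ u) : sg (σ.erase u) v = sg σ v := by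
  have : (σ.erase u).filter (· < v) = σ.filter (· < v) := by
    ext x
    simp only [mem_filter, mem_erase]
    exact ⟨fun a => ⟨a.1.2, a.2⟩, fun a => ⟨⟨by omega, a.1⟩, a.2⟩⟩
  rw [sg, this, sg]

lemma δδ {M : Type} [AddCommGroup M] (φ : Finset ℕ → M) (σ : Finset ℕ) : δ (δ φ) σ = 0 := by
  simp only [δ, Finset.smul_sum, smul_smul]
  rw [sum_sigma']
  refine sum_involution (fun p _ => ⟨p.2, p.1⟩) (fun ⟨u, v⟩ h => ?_) (fun ⟨u, v⟩ h _ e => ?_)
    (fun ⟨u, v⟩ h => ?_) fun _ _ => rfl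
  · simp only [mem_sigma, mem_erase] at h
    rw [erase_right_comm, ← add_smul]
    rcases lt_or_gt_of_ne h.2.1 with a | a
    · simp [sg_lt h.2.2 a, sg_ge σ a.le, mul_comm]
    · simp [sg_lt h.1 a, sg_ge σ a.le, mul_comm]
  · simp only [mem_sigma, mem_erase] at h
    exact h.2.1 (congrArg Sigma.fst e)
  · simp only [mem_sigma, mem_erase] at h ⊢
    exact ⟨h.2.2, Ne.symm h.2.1, h.1⟩

lemma bb (z : Finset ℕ →₀ R) : bdy R (bdy R z) = 0 := by
  have : bdy R ∘ₗ bdy R = 0 := lhom_ext' fun σ => LinearMap.ext_ring (by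
    simp [bdy_one, map_δ, δδ])
  exact LinearMap.congr_fun this z

noncomputable def cone (R : Type) [CommRing R] : (Finset ℕ →₀ R) →ₗ[R] (Finset ℕ →₀ R) :=
  linearCombination R fun σ => if 0 ∈ σ then 0 else single (insert 0 σ) 1

lemma cone_one (σ : Finset ℕ) :
    cone R (single σ 1) = if 0 ∈ σ then 0 else single (insert 0 σ) 1 := by simp [cone]

lemma htpy (z : Finset ℕ →₀ R) : bdy R (cone R z) = z - cone R (bdy R z) := by
  have : bdy R ∘ₗ cone R = LinearMap.id - cone R ∘ₗ bdy R := by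
    refine lhom_ext' fun σ => LinearMap.ext_ring ?_
    have s0 : ∀ τ, sg τ 0 = 1 := fun τ => by simp [sg]
    simp only [LinearMap.comp_apply, lsingle_apply, LinearMap.sub_apply, LinearMap.id_apply,
      bdy_one, map_δ, cone_one]
    split_ifs with a
    · rw [δ, sum_eq_single_of_mem 0 a fun v _ b => by simp [a, b.symm]]
      simp [s0, insert_erase a]
    · rw [bdy_one, δ, sum_insert a, erase_insert a, s0, one_smul, δ, sub_eq_add_neg,
        ← sum_neg_distrib]
      congr 1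
      refine sum_congr rfl fun v hv => ?_
      have b : 0 ≠ v := fun e => a (e ▸ hv)
      rw [sg_lt (mem_insert_self 0 σ) (by omega), erase_insert a, if_neg (by simp [a]),
        erase_insert_of_ne b, neg_smul]
  exact LinearMap.congr_fun this z

def Sol {M : Type} [AddCommGroup M] (A T : Finset (Finset ℕ)) (φ : Finset ℕ → M) : Prop :=
  (∀ τ, τ ∉ A → φ τ = 0) ∧ ∀ σ ∈ T, δ φ σ = 0

def Pres (A T : Finset (Finset ℕ)) (G : Type) [AddCommGroup G] : Prop :=
  ∃ φ : Finset ℕ → G, Sol A T φ ∧ (∀ S : AddSubgroup G, (∀ τ, φ τ ∈ S) → S = ⊤) ∧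
    ∀ (M : Type) [AddCommGroup M] (ψ : Finset ℕ → M), Sol A T ψ →
      ∃ f : G →+ M, ∀ τ, ψ τ = f (φ τ)

def X (n d : ℕ) (A T : Finset (Finset ℕ)) : Cx :=
  {σ | σ ⊆ range (n + 1) ∧ (σ.card ≤ d ∨ σ ∈ T ∨ 0 ∈ σ ∧ σ.card = d + 1 ∧ σ.erase 0 ∉ A)}

variable {n d : ℕ} {A T : Finset (Finset ℕ)}

lemma ch_ind {K : Cx} {k : ℕ} (P : Submodule R (Finset ℕ →₀ R))
    (h : ∀ σ ∈ K, σ.card = k → single σ 1 ∈ P) : ch R K k ≤ P := by
  rw [ch, supported_eq_span_single, Submodule.span_le]
  rintro _ ⟨σ, a, rfl⟩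
  exact h σ a.1 a.2

lemma one_ch {K : Cx} {σ : Finset ℕ} {k : ℕ} (h : σ ∈ K) (h2 : σ.card = k) :
    single σ (1 : R) ∈ ch R K k := single_mem_supported R 1 ⟨h, h2⟩

lemma cone_bnd {τ : Finset ℕ} {k : ℕ} (h : τ ⊆ range (n + 1)) (h2 : τ.card = k)
    (h3 : k < d ∨ k = d ∧ τ ∉ A) : bdy R (cone R (single τ 1)) ∈ bnd R (X n d A T) k := by
  rw [cone_one]
  split_ifs with a
  · simp
  · have b := card_insert_of_notMem a
    exact ⟨_, one_ch ⟨insert_subset (by simp) h, h3.imp (by omega) fun c =>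
      Or.inr ⟨by simp, by omega, by rw [erase_insert a]; exact c.2⟩⟩ (by omega), rfl⟩

lemma univ_bnd (hT : ∀ σ ∈ T, σ ⊆ range (n + 1) ∧ σ.card = d + 1) :
    Sol A T fun τ => if τ ∈ A then (bnd R (X n d A T) d).mkQ (bdy R (cone R (single τ 1))) else 0 := by
  refine ⟨fun τ a => if_neg a, fun σ a => ?_⟩
  have : (bnd R (X n d A T) d).mkQ (bdy R (cone R (bdy R (single σ 1)))) = 0 := by
    rw [← sub_sub_cancel (single σ 1) (cone R _), ← htpy, map_sub, bb, sub_zero]
    exact (Submodule.Quotient.mk_eq_zero _).2 ⟨_, one_ch ⟨(hT σ a).1, Or.inr (Or.inl a)⟩ (hT σ a).2, rfl⟩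
  refine .trans ?_ this
  rw [bdy_one, map_δ, map_δ, map_δ]
  refine sum_congr rfl fun v hv => congrArg _ ?_
  dsimp only
  split_ifs with b
  · rfl
  · exact ((Submodule.Quotient.mk_eq_zero _).2 (cone_bnd ((erase_subset _ _).trans (hT σ a).1)
      (by rw [card_erase_of_mem hv, (hT σ a).2]; rfl) (Or.inr ⟨rfl, b⟩))).symm

lemma sub_H {K : Cx} {k : ℕ} (h : ∀ z ∈ ch R K k, bdy R z = 0 → z ∈ bnd R K k) :
    Subsingleton (H R K k) :=
  Submodule.Quotient.subsingleton_iff.2 (top_unique fun z _ => h z z.2.1 z.2.2)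

theorem cone_main {G : Type} [AddCommGroup G] [Finite G]
    (hA : ∀ τ ∈ A, τ ⊆ range (n + 1) ∧ τ.card = d ∧ 0 ∉ τ)
    (hT : ∀ σ ∈ T, σ ⊆ range (n + 1) ∧ σ.card = d + 1) (T0 : T.Nonempty) (hc : T.card ≤ A.card)
    (h : Pres A T G) : IsCx (X n d A T) ∧ Dim d (X n d A T) ∧ QAcyclic (X n d A T) ∧
      Nonempty (H ℤ (X n d A T) d ≃+ G) ∧ {v | {v} ∈ X n d A T}.ncard ≤ n + 1 := by
  obtain ⟨φ, h1, h2, h3⟩ := h
  have dim : ∀ σ ∈ X n d A T, σ.card ≤ d + 1 := fun σ a => by
    rcases a.2 with b | b | b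
    exacts [by omega, (hT σ b).2.le, b.2.1.le]
  refine ⟨⟨(range (n + 1)).powerset.finite_toSet.subset fun s hs => mem_coe.2 (mem_powerset.2 hs.1),
    fun s hs t a => ?_⟩, ⟨dim, T0.imp fun σ a => ⟨⟨(hT σ a).1, Or.inr (Or.inl a)⟩, (hT σ a).2⟩⟩,
    ?_, ?_, ?_⟩
  · rcases a.eq_or_ssubset with rfl | b
    · exact hs
    · exact ⟨a.trans hs.1, Or.inl (Nat.lt_succ_iff.1 ((card_lt_card b).trans_le (dim s hs)))⟩
  · have key : ∀ k ≤ d, ∀ τ ⊆ range (n + 1), τ.card = k →
        bdy ℚ (cone ℚ (single τ 1)) ∈ bnd ℚ (X n d A T) k := by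
      intro k hk τ a b
      by_cases c : k < d ∨ k = d ∧ τ ∉ A
      · exact cone_bnd a b c
      obtain rfl : k = d := by omega
      obtain ⟨f, hf⟩ := h3 _ _ (univ_bnd (R := ℚ) (A := A) hT)
      have := hf τ
      rw [if_pos (by tauto)] at this
      rw [← Submodule.Quotient.mk_eq_zero, ← Submodule.mkQ_apply, this]
      have e : (Nat.card G : ℚ) • f (φ τ) = 0 := by
        rw [Nat.cast_smul_eq_nsmul, ← map_nsmul, card_nsmul_eq_zero', map_zero]
      exact (smul_eq_zero.1 e).resolve_left (by simp [Nat.card_pos.ne'])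
    refine fun k => sub_H fun z a b => ?_
    rcases (show k ≤ d ∨ k = d + 1 ∨ d + 1 < k by omega) with c | rfl | c
    · have := ch_ind (((bnd ℚ (X n d A T) k).comap (bdy ℚ)).comap (cone ℚ))
        (fun σ e f => key k c σ e.1 f) a
      simpa [htpy, b] using this
    · let S := (powersetCard d (range (n + 1))).filter (0 ∉ ·)
      have mS : ∀ τ, τ ∈ S ↔ (τ ⊆ range (n + 1) ∧ τ.card = d) ∧ 0 ∉ τ := by simp [S]
      let Θ : ch ℚ (X n d A T) (d + 1) →ₗ[ℚ] (S → ℚ) :=
        (LinearMap.pi fun s : S => lapply s.1 ∘ₗ bdy ℚ).domRestrict _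
      have sur : Function.Surjective Θ := by
        rw [← LinearMap.range_eq_top, eq_top_iff, ← (Pi.basisFun ℚ S).span_eq, Submodule.span_le]
        rintro _ ⟨⟨τ, e⟩, rfl⟩
        obtain ⟨w, f, g⟩ := key d le_rfl τ ((mS τ).1 e).1.1 ((mS τ).1 e).1.2
        refine ⟨⟨w, f⟩, funext fun ⟨s, hs⟩ => ?_⟩
        have : lapply s ∘ₗ cone ℚ = 0 := lhom_ext' fun σ => LinearMap.ext_ring (by
          simp only [LinearMap.comp_apply, lsingle_apply, cone_one]
          split_ifs
          · simp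
          · exact single_eq_of_ne fun r => ((mS s).1 hs).2 (by simp [r]))
        have : cone ℚ (bdy ℚ (single τ 1)) s = 0 := LinearMap.congr_fun this _
        simp [Θ, g, htpy, this, Pi.single_apply, single_apply, eq_comm]
      classical
      have le := ch_ind (K := X n d A T) (k := d + 1) (Submodule.span ℚ
        ↑((T ∪ (S \ A).image (insert 0)).image fun σ => single σ (1 : ℚ))) fun σ e f =>
        Submodule.subset_span (mem_image_of_mem _ (mem_union.2 ((e.2.resolve_left (by omega)).imp_right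
          fun g => mem_image.2 ⟨σ.erase 0, mem_sdiff.2 ⟨(mS _).2 ⟨⟨(erase_subset _ _).trans e.1,
            by rw [card_erase_of_mem g.1, f]; rfl⟩, by simp⟩, g.2.2⟩, insert_erase g.1⟩)))
      have := Submodule.finiteDimensional_of_le le
      have inj := (LinearMap.injective_iff_surjective_of_finrank_eq_finrank (le_antisymm ?_
        (LinearMap.finrank_le_finrank_of_surjective sur))).2 sur
      · have : (⟨z, a⟩ : ch ℚ _ _) = 0 := inj (funext fun s => by simp [Θ, b])
        simp [show z = 0 from congrArg Subtype.val this]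
      · refine (Submodule.finrank_mono le).trans ((finrank_span_finset_le_card _).trans
          (card_image_le.trans ((card_union_le _ _).trans ?_)))
        have := card_sdiff_add_card_eq_card (show A ⊆ S from fun τ e => (mS τ).2 (by
          have := hA τ e; tauto))
        have := card_image_le (s := S \ A) (f := insert 0)
        simp only [Module.finrank_fintype_fun_eq_card, Fintype.card_coe]
        omega
    · have := ch_ind (R := ℚ) ⊥ (fun σ e f => by have := dim σ e; omega) a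
      simp_all
  · let ψ := linearCombination ℤ φ
    have p1 : ∀ τ, ψ (single τ 1) = φ τ := by simp [ψ]
    have p2 : ∀ z, ψ (cone ℤ z) = 0 := fun z => by
      have : ψ ∘ₗ cone ℤ = 0 := lhom_ext' fun σ => LinearMap.ext_ring (by
        simp only [LinearMap.comp_apply, lsingle_apply, cone_one]
        split_ifs
        · simp
        · exact (p1 _).trans (h1.1 _ fun a => (hA _ a).2.2 (by simp)))
      exact LinearMap.congr_fun this z
    obtain ⟨f, hf⟩ := h3 _ _ (univ_bnd (R := ℤ) (A := A) hT)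
    have e : (bnd ℤ (X n d A T) d).submoduleOf (cyc ℤ (X n d A T) d) =
        LinearMap.ker (ψ.domRestrict (cyc ℤ (X n d A T) d)) := by
      ext ⟨z, a, b⟩
      refine ⟨?_, fun c => ?_⟩
      · rintro ⟨w, c, rfl⟩
        refine ch_ind ((LinearMap.ker ψ).comap (bdy ℤ)) (fun σ e f => ?_) c
        rcases e.2 with e | e | e
        · omega
        · simpa [bdy_one, map_δ, p1] using h1.2 σ e
        · have := cone_one (R := ℤ) (σ.erase 0)
          rw [if_neg (by simp), insert_erase e.1] at this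
          simp [← this, htpy, p1, p2, h1.1 _ e.2.2]
      · have := ch_ind (LinearMap.eqLocus ((bnd ℤ (X n d A T) d).mkQ ∘ₗ bdy ℤ ∘ₗ cone ℤ)
          (f.toIntLinearMap ∘ₗ ψ)) (fun σ e g => ?_) a
        · have b : bdy ℤ z = 0 := b
          have c : ψ z = 0 := c
          show z ∈ bnd ℤ (X n d A T) d
          simpa [htpy, b, c] using this
        · have := hf σ
          by_cases r : σ ∈ A
          · simpa [r, p1] using this
          · simpa [p1, h1.1 _ r] using cone_bnd e.1 g (Or.inr ⟨rfl, r⟩)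
    have s : LinearMap.range (ψ.domRestrict (cyc ℤ (X n d A T) d)) = ⊤ := by
      refine Submodule.toAddSubgroup_injective (h2 _ fun τ => ?_)
      by_cases r : τ ∈ A
      · refine ⟨⟨bdy ℤ (cone ℤ (single τ 1)), ?_, bb _⟩, by simp [htpy, p1, p2]⟩
        rw [cone_one, if_neg (hA τ r).2.2, bdy_one]
        refine Submodule.sum_mem _ fun v hv => zsmul_mem (one_ch (K := X n d A T) ⟨(erase_subset _ _).trans
          (insert_subset (by simp) (hA τ r).1), Or.inl (le_of_eq ?_)⟩ ?_) _ <;>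
        rw [card_erase_of_mem hv, card_insert_of_notMem (hA τ r).2.2, (hA τ r).2.1] <;> rfl
      · simp [h1.1 τ r]
    exact ⟨((Submodule.quotEquivOfEq _ _ e).trans (LinearMap.quotKerEquivOfSurjective _
      (LinearMap.range_eq_top.1 s))).toAddEquiv⟩
  · refine (Set.ncard_le_ncard (t := ↑(range (n + 1))) (fun v a => ?_) (finite_toSet _)).trans (by simp)
    simpa using a.1

end Pool.Agent.H10.QA
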