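import Mathlib
import Pool.Agent.H10.QACone

set_option autoImplicit false
set_option linter.unusedSectionVars false

namespace Pool.Agent.H10.QA
open Finset

lemma δ_image {M : Type} [AddCommGroup M] (φ : Finset ℕ → M) {f : ℕ → ℕ} (hf : StrictMono f)
    (S : Finset ℕ) : δ φ (S.image f) = δ (fun t => φ (t.image f)) S := by
  rw [δ, sum_image hf.injective.injOn]
  refine sum_congr rfl fun v _ => ?_
  simp only [sg, filter_image, card_image_of_injective _ hf.injective, hf.lt_iff_lt,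
    image_erase hf.injective]

lemma sg_Ico {m e v : ℕ} (h : v < e) : sg (Ico m e) v = (-1) ^ (v - m) := by
  rw [sg, Ico_filter_lt_of_le_right h.le, Nat.card_Ico]

variable {I : Type} [Fintype I] [DecidableEq I]

def SolA {M : Type} [AddCommGroup M] (g : I → ℕ → Option I) (x : I → M) : Prop :=
  ∀ j, (g j 0).elim 0 x - (g j 1).elim 0 x + (g j 2).elim 0 x = 0

def PresA (g : I → ℕ → Option I) (G : Type) [AddCommGroup G] : Prop :=
  ∃ x : I → G, SolA g x ∧ (∀ S : AddSubgroup G, (∀ i, x i ∈ S) → S = ⊤) ∧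
    ∀ (M : Type) [AddCommGroup M] (y : I → M), SolA g y → ∃ f : G →+ M, ∀ i, y i = f (x i)

def cl (g : I → ℕ → Option I) (i j : I) : Prop := i = j ∨ ∃ k, g j k = some i

def ow (d : ℕ) (i j : I) (r : ℕ) : I := if r < d then i else j

structure Col (d n : ℕ) (g : I → ℕ → Option I) (v : ℕ → I → ℕ) : Prop where
  d2 : 2 ≤ d
  mono : ∀ r r' i i', r < r' → v r i < v r' i'
  pos : ∀ r i, 0 < v r i
  le : ∀ r ≤ 2 * d, ∀ i, v r i ≤ n
  lt3 : ∀ j k i, g j k = some i → k < 3
  dist : ∀ j k k' i, g j k = some i → g j k' = some i → k = k'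
  inj : ∀ R : Finset ℕ, R.card = d → (∀ r ∈ R, r ≤ 2 * d) → ∀ i j i' j', cl g i j → cl g i' j' →
    (∀ r ∈ R, v r (ow d i j r) = v r (ow d i' j' r)) → ∀ r ∈ R, ow d i j r = ow d i' j' r

def sk (c x : ℕ) : ℕ := if x < c then x else x + 1

lemma sk_mono (c : ℕ) : StrictMono (sk c) := fun a b h => by
  unfold sk
  split_ifs <;> omega

lemma mem_sk {c r : ℕ} {S : Finset ℕ} :
    r ∈ S.image (sk c) ↔ r < c ∧ r ∈ S ∨ c < r ∧ r - 1 ∈ S := by
  refine ⟨fun h => ?_, fun h => mem_image.2 ?_⟩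
  · obtain ⟨x, a, rfl⟩ := mem_image.1 h
    unfold sk
    split_ifs with b
    · exact Or.inl ⟨b, a⟩
    · exact Or.inr ⟨by omega, a⟩
  · exact h.elim (fun a => ⟨r, a.2, if_pos a.1⟩) fun a => ⟨r - 1, a.2, by
      unfold sk; split_ifs <;> omega⟩

variable (d : ℕ) (g : I → ℕ → Option I) (v : ℕ → I → ℕ)

def fc (i j : I) (R : Finset ℕ) : Finset ℕ := R.image fun r => v r (ow d i j r)

def ga (q : ℕ × I × I × ℕ) : Finset ℕ :=
  fc d v q.2.1 q.2.2.1 ((Ico q.2.2.2 (q.2.2.2 + d)).image (sk (d + q.1)))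

def re (q : ℕ × I × I × ℕ) : Finset ℕ :=
  fc d v q.2.1 q.2.2.1 (if q.2.2.2 = 0 then Ico d (2 * d + 1) else
    (Ico (q.2.2.2 - 1) (q.2.2.2 + d)).image (sk (d + q.1)))

def E : Finset (ℕ × I × I × ℕ) := (range 3 ×ˢ univ ×ˢ univ ×ˢ range (d + 1)).filter fun q =>
  q.2.2.2 = 0 ∧ q.1 = 0 ∧ q.2.1 = q.2.2.1 ∨ 0 < q.2.2.2 ∧ g q.2.2.1 q.1 = some q.2.1

variable {d g v} {n : ℕ}

lemma mem_E {k m : ℕ} {i j : I} : (k, i, j, m) ∈ E d g ↔ (k < 3 ∧ m ≤ d) ∧
    (m = 0 ∧ k = 0 ∧ i = j ∨ 0 < m ∧ g j k = some i) := by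
  simp [E, Nat.lt_succ_iff]

lemma Col.sm (h : Col d n g v) (i j : I) : StrictMono fun r => v r (ow d i j r) :=
  fun _ _ a => h.mono _ _ _ _ a

lemma E_cl {k m : ℕ} {i j : I} (a : (k, i, j, m) ∈ E d g) : cl g i j :=
  (mem_E.1 a).2.imp (·.2.2) fun f => ⟨k, f.2⟩

lemma Col.key (h : Col d n g v) {i' j' i j : I} (c : cl g i' j') {R : Finset ℕ} {k m : ℕ}
    (a : (k, i, j, m) ∈ E d g) (e : ga d v (k, i, j, m) = fc d v i' j' R) :
    (∀ r, r ∈ R ↔ r < d + k ∧ m ≤ r ∧ r < m + d ∨ d + k < r ∧ m ≤ r - 1 ∧ r - 1 < m + d) ∧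
      (∀ r ∈ R, r < d → i' = i) ∧ ∀ r ∈ R, d ≤ r → j' = j := by
  have one : ∀ {i j i' j' : I} {R R' : Finset ℕ}, fc d v i j R = fc d v i' j' R' → ∀ r ∈ R,
      r ∈ R' ∧ v r (ow d i j r) = v r (ow d i' j' r) := fun {i j i' j' R R'} e r a => by
    obtain ⟨s, b, c⟩ := mem_image.1 (e.subset (mem_image_of_mem _ a))
    obtain rfl : s = r := by
      by_contra f
      rcases lt_or_gt_of_ne f with f | f
      exacts [(h.mono _ _ _ _ f).ne c, (h.mono _ _ _ _ f).ne' c]
    exact ⟨b, c.symm⟩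
  obtain rfl : R = (Ico m (m + d)).image (sk (d + k)) :=
    ext fun r => ⟨fun b => (one e.symm r b).1, fun b => (one e r b).1⟩
  have b := mem_E.1 a
  have := h.d2
  have z := h.inj ((Ico m (m + d)).image (sk (d + k)))
    (by simp [card_image_of_injective _ (sk_mono _).injective]) (fun r f => by
      simp only [mem_sk, mem_Ico] at f
      omega) _ _ _ _ c (E_cl a) fun r f => (one e.symm r f).2
  exact ⟨fun r => by simp only [mem_sk, mem_Ico], fun r f t => by simpa [ow, t] using z r f,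
    fun r f t => by simpa [ow, t.not_gt] using z r f⟩

lemma Col.ga_inj (h : Col d n g v) : Set.InjOn (ga d v) (E d g) := by
  rintro ⟨k, i, j, m⟩ a ⟨k', i', j', m'⟩ b e
  obtain ⟨c, e1, e2⟩ := h.key (E_cl b) a e
  simp only [mem_sk, mem_Ico] at c e1 e2
  have a := mem_E.1 a
  have b := mem_E.1 b
  have := h.d2
  obtain rfl : m = m' := by
    have := c m
    have := c m'
    omega
  rcases a.2 with ⟨rfl, rfl, rfl⟩ | a'
  · obtain ⟨rfl, rfl⟩ := (b.2.resolve_right (by omega)).2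
    rw [e1 0 (by omega) (by omega)]
  have b' := b.2.resolve_left (by omega)
  obtain rfl := e2 (sk (d + k') d) (by unfold sk; split_ifs <;> omega)
    (by unfold sk; split_ifs <;> omega)
  by_cases f : m < d
  · obtain rfl := e1 m (by omega) f
    rw [h.dist _ _ _ _ a'.2 b'.2]
  · obtain rfl : k = k' := by
      have := c (d + k)
      have := c (d + k')
      omega
    rw [Option.some.inj (a'.2.symm.trans b'.2)]

lemma ga0 (k : ℕ) (i j : I) : ga d v (k, i, j, 0) = ga d v (0, i, i, 0) := by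
  have : ∀ k, (Ico 0 (0 + d)).image (sk (d + k)) = range d := fun k => ext fun r => by
    simp only [mem_sk, mem_Ico, mem_range]
    omega
  simp only [ga, this]
  exact image_congr fun r a => by simp [ow, mem_range.1 a]

variable {M : Type} [AddCommGroup M] {φ : Finset ℕ → M}

lemma Col.strip (h : Col d n g v) (z : ∀ τ, τ ∉ (E d g).image (ga d v) → φ τ = 0) {k m : ℕ}
    {i j : I} (a : (k, i, j, m + 1) ∈ E d g) : δ φ (re d v (k, i, j, m + 1)) =
      φ (ga d v (k, i, j, m + 1)) + (-1 : ℤ) ^ d • φ (ga d v (k, i, j, m)) := by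
  have := h.d2
  simp only [re, if_neg m.succ_ne_zero, fc, δ_image _ (h.sm i j), δ_image _ (sk_mono _),
    Nat.add_sub_cancel]
  rw [δ, sum_eq_add_of_mem m (m + d) (by simp; omega) (by simp) (by omega), sg_Ico (by omega),
    sg_Ico (by omega), show (Ico m (m + 1 + d)).erase m = Ico (m + 1) (m + 1 + d) by simp; rfl,
      show (Ico m (m + 1 + d)).erase (m + d) = Ico m (m + d) by ext; simp; omega]
  · simp [ga, fc]
  · intro l b c
    rw [z, smul_zero]
    intro e
    obtain ⟨⟨k', i', j', m'⟩, a', e⟩ := mem_image.1 e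
    obtain ⟨c, e1, e2⟩ := h.key (E_cl a) a' e
    simp only [mem_sk, mem_Ico, mem_erase] at b c e1 e2
    have a := mem_E.1 a
    have a' := mem_E.1 a'
    obtain rfl : m = m' := by
      have := c m
      have := c m'
      omega
    have t := (c (sk (d + k) (m + d))).1 (by unfold sk; split_ifs <;> omega)
    have u := a'.2.resolve_left (by unfold sk at t; split_ifs at t <;> omega)
    obtain rfl := e1 m (by omega) (by omega)
    obtain rfl := e2 (sk (d + k) (m + d)) (by unfold sk; split_ifs <;> omega)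
      (by unfold sk; split_ifs <;> omega)
    obtain rfl := h.dist _ _ _ _ u.2 (a.2.resolve_left (by omega)).2
    unfold sk at t
    split_ifs at t <;> omega

lemma Col.rel (h : Col d n g v) (z : ∀ τ, τ ∉ (E d g).image (ga d v) → φ τ = 0) (j : I)
    (x : I → M) (hx : ∀ k i, g j k = some i → φ (ga d v (k, i, j, d)) = x i) :
    δ φ (re d v (0, j, j, 0)) = (g j 0).elim 0 x - (g j 1).elim 0 x + (g j 2).elim 0 x := by
  have := h.d2
  have p : ∀ k ≤ d, φ (fc d v j j ((Ico d (2 * d + 1)).erase (d + k))) = (g j k).elim 0 x := by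
    intro k hk
    rcases e : g j k with _ | i
    · refine z _ fun a => ?_
      obtain ⟨⟨k', i', j', m'⟩, a', b⟩ := mem_image.1 a
      obtain ⟨c, -, e2⟩ := h.key (Or.inl rfl) a' b
      simp only [mem_Ico, mem_erase] at c e2
      have a' := mem_E.1 a'
      obtain rfl : m' = d := by
        have := c m'
        omega
      obtain rfl : k = k' := by
        have := c (m' + k')
        omega
      obtain rfl := e2 (sk (m' + k) m') (by unfold sk; split_ifs <;> omega)
        (by unfold sk; split_ifs <;> omega)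
      simpa [e] using (a'.2.resolve_left (by omega)).2
    · have : (Ico d (d + d)).image (sk (d + k)) = (Ico d (2 * d + 1)).erase (d + k) := by
        ext r
        simp only [mem_sk, mem_Ico, mem_erase]
        omega
      rw [Option.elim_some, ← hx k i e, ga, this]
      exact congrArg φ (image_congr fun r a => by
        simp [ow, (mem_Ico.1 (mem_of_mem_erase a)).1.not_gt])
  simp only [re, if_true, fc, δ_image _ (h.sm j j)]
  rw [δ, sum_Ico_eq_sum_range, sum_congr rfl (g := fun k => (-1 : ℤ) ^ k • (g j k).elim 0 x)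
    fun k a => by
      have := mem_range.1 a
      rw [sg_Ico (by omega), Nat.add_sub_cancel_left, ← p k (by omega), fc],
    ← sum_subset (range_mono (show 3 ≤ _ by omega)) fun k _ a => by
      rcases e : g j k with _ | i
      exacts [smul_zero _, absurd (mem_range.2 (h.lt3 _ _ _ e)) a]]
  simp [sum_range_succ, sub_eq_add_neg]

lemma neg_pow_dd (d : ℕ) : (-1 : ℤ) ^ ((d + 1) * d) = 1 :=
  Even.neg_one_pow (by rw [mul_comm]; exact Nat.even_mul_succ_self d)

theorem Col.pres (h : Col d n g v) {G : Type} [AddCommGroup G] (p : PresA g G) :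
    Pres ((E d g).image (ga d v)) ((E d g).image (re d v)) G := by
  obtain ⟨x, h1, h2, h3⟩ := p
  have := h.d2
  let φ : Finset ℕ → G := fun τ => ∑ q ∈ E d g with ga d v q = τ,
    (-1 : ℤ) ^ ((d + 1) * q.2.2.2) • x q.2.1
  have z : ∀ τ, τ ∉ (E d g).image (ga d v) → φ τ = 0 := fun τ a =>
    sum_eq_zero fun q b => (a (mem_image.2 ⟨q, mem_filter.1 b⟩)).elim
  have φ1 : ∀ q ∈ E d g, φ (ga d v q) = (-1 : ℤ) ^ ((d + 1) * q.2.2.2) • x q.2.1 := fun q a =>
    sum_eq_single_of_mem q (mem_filter.2 ⟨a, rfl⟩) fun q' b c =>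
      absurd (h.ga_inj (mem_filter.1 b).1 a (mem_filter.1 b).2) c
  have m0 : ∀ i, (0, i, i, 0) ∈ E d g := fun i => mem_E.2 (by simp)
  have φ0 : ∀ i, φ (ga d v (0, i, i, 0)) = x i := fun i => by simp [φ1 _ (m0 i)]
  have pm : ∀ {k i j m}, (k, i, j, m + 1) ∈ E d g → m ≠ 0 → (k, i, j, m) ∈ E d g := fun a b => by
    rw [mem_E] at a ⊢
    exact ⟨by omega, Or.inr ⟨by omega, (a.2.resolve_left (by omega)).2⟩⟩
  have md : ∀ {k i j}, g j k = some i → (k, i, j, d) ∈ E d g := fun e =>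
    mem_E.2 ⟨⟨h.lt3 _ _ _ e, le_rfl⟩, Or.inr ⟨by omega, e⟩⟩
  refine ⟨φ, ⟨z, fun σ a => ?_⟩, fun S a => h2 S fun i => φ0 i ▸ a _, fun M _ ψ hψ => ?_⟩
  · obtain ⟨⟨k, i, j, _ | m⟩, b, rfl⟩ := mem_image.1 a
    · obtain ⟨rfl, rfl⟩ := ((mem_E.1 b).2.resolve_right (by omega)).2
      rw [h.rel z i x fun k i e => by simp [φ1 _ (md e), neg_pow_dd], h1]
    · have : φ (ga d v (k, i, j, m)) = (-1 : ℤ) ^ ((d + 1) * m) • x i := by
        by_cases c : m = 0
        · simp [c, ga0, φ0]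
        · exact φ1 _ (pm b c)
      rw [h.strip z b, φ1 _ b, this, smul_smul, ← add_smul]
      ring_nf
      simp
  · have s : ∀ m k i j, (k, i, j, m) ∈ E d g →
        ψ (ga d v (k, i, j, m)) = (-1 : ℤ) ^ ((d + 1) * m) • ψ (ga d v (0, i, i, 0)) := by
      intro m k i j
      induction m with
      | zero => simp [ga0]
      | succ m ih =>
        intro b
        have : ψ (ga d v (k, i, j, m)) = (-1 : ℤ) ^ ((d + 1) * m) • ψ (ga d v (0, i, i, 0)) := by
          by_cases c : m = 0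
          · simp [c, ga0]
          · exact ih (pm b c)
        rw [eq_neg_of_add_eq_zero_left ((h.strip hψ.1 b).symm.trans
          (hψ.2 _ (mem_image_of_mem _ b))), this, smul_smul, ← neg_smul]
        ring_nf
    obtain ⟨f, hf⟩ := h3 M (fun i => ψ (ga d v (0, i, i, 0))) fun j => by
      rw [← h.rel hψ.1 j _ fun k i e => by simp [s _ _ _ _ (md e), neg_pow_dd]]
      exact hψ.2 _ (mem_image_of_mem _ (m0 j))
    refine ⟨f, fun τ => ?_⟩
    by_cases a : τ ∈ (E d g).image (ga d v)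
    · obtain ⟨⟨k, i, j, m⟩, b, rfl⟩ := mem_image.1 a
      rw [s _ _ _ _ b, φ1 _ b, map_zsmul, ← hf]
    · rw [hψ.1 τ a, z τ a, map_zero]

theorem Col.main (h : Col d n g v) [Nonempty I] {G : Type} [AddCommGroup G] [Finite G]
    (p : PresA g G) : ∃ K, Ced.IsCx K ∧ Dim d K ∧ QAcyclic K ∧ Nonempty (H ℤ K d ≃+ G) ∧
      {v | {v} ∈ K}.ncard ≤ n + 1 := by
  have := h.d2
  have fcs : ∀ i j R, (∀ r ∈ R, r ≤ 2 * d) → fc d v i j R ⊆ range (n + 1) ∧
      (fc d v i j R).card = R.card ∧ 0 ∉ fc d v i j R := fun i j R a =>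
    ⟨image_subset_iff.2 fun r b => mem_range.2 (Nat.lt_succ_of_le (h.le r (a r b) _)),
      card_image_of_injective _ (h.sm i j).injective, fun b =>
        (mem_image.1 b).elim fun r c => (h.pos _ _).ne' c.2⟩
  refine ⟨_, cone_main (fun τ a => ?_) (fun τ a => ?_)
    ⟨_, mem_image_of_mem _ (mem_E.2 (by simp) : (0, Classical.arbitrary I, Classical.arbitrary I, 0) ∈ _)⟩
    (card_image_le.trans (card_image_of_injOn h.ga_inj).ge) (h.pres p)⟩ <;>
  obtain ⟨⟨k, i, j, m⟩, b, rfl⟩ := mem_image.1 a <;> have b := mem_E.1 b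
  · have := fcs i j ((Ico m (m + d)).image (sk (d + k))) fun r c => by
      simp only [mem_sk, mem_Ico] at c
      omega
    simpa [ga, card_image_of_injective _ (sk_mono _).injective] using this
  · have := fcs i j (if m = 0 then Ico d (2 * d + 1) else
        (Ico (m - 1) (m + d)).image (sk (d + k))) fun r c => by
      split_ifs at c <;> simp only [mem_sk, mem_Ico] at c <;> omega
    refine ⟨this.1, this.2.1.trans ?_⟩
    split_ifs <;> simp [card_image_of_injective _ (sk_mono _).injective] <;> omega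

end Pool.Agent.H10.QA
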