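import Mathlib
import Pool.Agent.H10.QAComp

set_option autoImplicit false

namespace Pool.Agent.H10.QA
open Finset

lemma colour {I : Type} [Fintype I] [DecidableEq I] {g : I → ℕ → Option I} {d q : ℕ} (hd : 2 ≤ d)
    (tm : I → ℕ) (h1 : Function.Injective tm) (h2 : ∀ i, tm i < q ^ d)
    (h3 : ∀ j k i, g j k = some i → k < 3 ∧ tm i ≤ tm j + 4 ∧ tm j ≤ tm i + 4)
    (h4 : ∀ j k k' i, g j k = some i → g j k' = some i → k = k') :
    ∃ v, Col d ((2 * d + 1) * (9 * ((2 * d + 1) * ((2 * d).factorial * q) + 1))) g v := by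
  let p : ℕ → ℕ := fun r => (r + 1) * ((2 * d).factorial * q) + 1
  let Q := 9 * p (2 * d)
  have Q0 : 0 < Q := by simp [Q, p]
  refine ⟨fun r i => 1 + r * Q + tm i % (9 * p r) % Q, hd, fun r r' i i' a => ?_,
    fun r i => by omega, fun r a i => ?_, fun j k i a => (h3 j k i a).1, h4, ?_⟩
  · have := Nat.mod_lt (tm i % (9 * p r)) Q0
    have := Nat.mul_le_mul_right Q (show r + 1 ≤ r' from a)
    rw [add_mul] at this
    omega
  · have := Nat.mod_lt (tm i % (9 * p r)) Q0
    have := Nat.mul_le_mul_right Q a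
    show _ ≤ (2 * d + 1) * Q
    rw [add_mul]
    omega
  intro R a b i j i' j' c c' e
  have e1 : ∀ r ∈ R, ((9 * p r : ℕ) : ℤ) ∣ tm (ow d i' j' r) - tm (ow d i j r) := fun r f => by
    have l : ∀ x, x % (9 * p r) % Q = x % (9 * p r) := fun x => Nat.mod_eq_of_lt
      ((Nat.mod_lt _ (by simp [p])).trans_le (Nat.mul_le_mul_left _ (by
        have := b r f; simp only [p]; gcongr)))
    have := e r f
    simp only [l, add_right_inj] at this
    exact Nat.modEq_iff_dvd.1 this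
  have cl1 : ∀ {i j}, cl g i j → tm i ≤ tm j + 4 ∧ tm j ≤ tm i + 4 := fun c =>
    c.elim (fun a => by simp [a]) fun ⟨k, a⟩ => (h3 _ _ _ a).2
  intro r f
  have e2 : ∀ s ∈ R, (p s : ℤ) ∣ tm (ow d i' j' r) - tm (ow d i j r) := fun s t => by
    have u := (Dvd.intro _ (by push_cast; rfl) : (9 : ℤ) ∣ _).trans (e1 r f)
    have w := (Dvd.intro _ (by push_cast; rfl) : (9 : ℤ) ∣ _).trans (e1 s t)
    refine (Dvd.intro_left 9 (by push_cast; rfl) : (p s : ℤ) ∣ _).trans ((e1 s t).trans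
      (dvd_of_eq ?_))
    have := cl1 c
    have := cl1 c'
    unfold ow at u w ⊢
    split_ifs at u w ⊢ <;> omega
  have cp : ∀ s ∈ R, ∀ t ∈ R, s < t → (p s).Coprime (p t) := fun s _ t a c =>
    Nat.coprime_mul_succ (Dvd.dvd.mul_right
      (Nat.dvd_factorial (by omega) (by have := b t a; omega)) _)
  have e3 := Int.eq_zero_of_abs_lt_dvd (prod_dvd_of_coprime (fun s a t b c =>
    Nat.isCoprime_iff_coprime.2 ((lt_or_gt_of_ne c).elim (cp s a t b) fun e => (cp t b s a e).symm))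
    e2) (by
      have : q ^ R.card ≤ ∏ s ∈ R, p s := pow_card_le_prod _ _ _ fun s _ => by
        have := Nat.factorial_pos (2 * d)
        simp only [p]
        nlinarith [Nat.zero_le (s * ((2 * d).factorial * q))]
      have := h2 (ow d i' j' r)
      have := h2 (ow d i j r)
      rw [← Nat.cast_prod, abs_lt]
      rw [a] at *
      omega)
  exact h1 (by omega)

def g0 (m B t k : ℕ) : Option ℕ :=
  if t % 3 = 0 then (if k = 0 then some (t + 1) else if k = 1 then some t else none)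
  else if t % 3 = 1 then (if t / 3 < B then (if k = 0 then some t else if k = 1 then some (t + 3)
    else if k = 2 then some (t - 1) else none) else if k = 1 then some (t + 1) else none)
  else if k = 1 then some t else if t = 2 then none else if k = 0 then some (t - 3)
    else if k = 2 ∧ m / 2 ^ (t / 3 - 1) % 2 = 1 then some (t - 4) else none

lemma g0_a {m B t k s : ℕ} (h : g0 m B t k = some s) : k < 3 ∧ s ≤ t + 4 ∧ t ≤ s + 4 := by
  unfold g0 at h
  split_ifs at h <;> simp only [Option.some.injEq] at h <;> omega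

lemma g0_b {m B t k k' s : ℕ} (h : g0 m B t k = some s) (h' : g0 m B t k' = some s) : k = k' := by
  unfold g0 at h h'
  split_ifs at h h' <;> simp only [Option.some.injEq] at h h' <;> omega

def val (m t : ℕ) : ℕ := if t % 3 = 2 then m % 2 ^ (t / 3) else 2 ^ (t / 3)

lemma horner {M : Type} [AddCommGroup M] {m B : ℕ} (hm : m < 2 ^ B) (z : ℕ → M) :
    (∀ t < 3 * (B + 1), (g0 m B t 0).elim 0 z - (g0 m B t 1).elim 0 z + (g0 m B t 2).elim 0 z = 0) ↔
      m • z 1 = 0 ∧ ∀ t < 3 * (B + 1), z t = val m t • z 1 := by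
  have sp : ∀ P : ℕ → Prop, (∀ t < 3 * (B + 1), P t) ↔
      ∀ j ≤ B, P (3 * j) ∧ P (3 * j + 1) ∧ P (3 * j + 2) := fun P =>
    ⟨fun a j b => ⟨a _ (by omega), a _ (by omega), a _ (by omega)⟩, fun a t b => by
      have := a (t / 3) (by omega)
      rcases (show t = 3 * (t / 3) ∨ t = 3 * (t / 3) + 1 ∨ t = 3 * (t / 3) + 2 by omega)
        with c | c | c <;> rw [c] <;> tauto⟩
  have a1 : ∀ j, (3 * j + 1) / 3 = j := by omega
  have a2 : ∀ j, (3 * j + 2) / 3 = j := by omega
  have a3 : ∀ j, (3 * j + 1) % 3 = 1 := by omega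
  have a4 : ∀ j, (3 * j + 2) % 3 = 2 := by omega
  rw [sp, sp]
  generalize hr : (fun t =>
    (g0 m B t 0).elim 0 z - (g0 m B t 1).elim 0 z + (g0 m B t 2).elim 0 z) = r
  have hr := congrFun hr
  simp only [hr]
  have r0 : ∀ j, r (3 * j) = z (3 * j + 1) - z (3 * j) := fun j => by simp [← hr, g0]
  have r1 : ∀ j < B, r (3 * j + 1) = z (3 * j + 1) - z (3 * (j + 1) + 1) + z (3 * j) :=
    fun j a => by simp [← hr, g0, a1, a3, a, mul_add]
  have r2 : r (3 * B + 1) = -z (3 * B + 2) := by simp [← hr, g0, a1, a3]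
  have r3 : r (3 * 0 + 2) = -z (3 * 0 + 2) := by simp [← hr, g0]
  have r4 : ∀ j, r (3 * (j + 1) + 2) = z (3 * j + 2) - z (3 * (j + 1) + 2) +
      (m / 2 ^ j % 2) • z (3 * j + 1) := fun j => by
    rcases Nat.mod_two_eq_zero_or_one (m / 2 ^ j) with a | a <;>
      simp [← hr, g0, a2, a4, a] <;> simp [mul_add]
  simp only [val, a1, a2, a3, a4, Nat.mul_mod_right, Nat.mul_div_cancel_left _ three_pos,
    if_true, OfNat.zero_ne_ofNat, OfNat.one_ne_ofNat, if_false]
  refine ⟨fun h => ?_, fun h j a => ⟨by rw [r0, (h.2 j a).1, (h.2 j a).2.1, sub_self], ?_, ?_⟩⟩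
  · have k : ∀ j ≤ B, z (3 * j) = 2 ^ j • z 1 ∧ z (3 * j + 1) = 2 ^ j • z 1 ∧
        z (3 * j + 2) = (m % 2 ^ j) • z 1 := by
      intro j a
      rw [← sub_eq_zero.1 ((r0 j).symm.trans (h j a).1), and_self_left]
      induction j with
      | zero => simpa [Nat.mod_one] using r3.symm.trans (h 0 a).2.2
      | succ j ih =>
        obtain ⟨b, c⟩ := ih (by omega)
        have e0 := (r0 j).symm.trans (h j (by omega)).1
        have e1 := (r1 j a).symm.trans (h j (by omega)).2.1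
        have e2 := (r4 j).symm.trans (h _ a).2.2
        rw [← sub_eq_zero.1 e0, sub_add_eq_add_sub, sub_eq_zero] at e1
        rw [sub_add_eq_add_sub, sub_eq_zero] at e2
        rw [← e1, ← e2, b, c, Nat.mod_pow_succ, pow_succ, mul_two, add_smul, add_smul,
          smul_smul, mul_comm]
        exact ⟨rfl, rfl⟩
    refine ⟨?_, k⟩
    rw [← Nat.mod_eq_of_lt hm, ← (k B le_rfl).2.2, ← neg_eq_zero, ← r2, (h B le_rfl).2.1]
  · rcases a.eq_or_lt with rfl | b
    · rw [r2, (h.2 j a).2.2, Nat.mod_eq_of_lt hm, h.1, neg_zero]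
    · rw [r1 j b, (h.2 j a).1, (h.2 j a).2.1, (h.2 _ b).2.1, pow_succ, mul_two, add_smul]
      abel
  · rcases j with _ | j
    · rw [r3, (h.2 0 a).2.2]
      simp [Nat.mod_one]
    · rw [r4, (h.2 _ a).2.2, (h.2 j (by omega)).2.2, (h.2 j (by omega)).2.1, Nat.mod_pow_succ,
        add_smul, smul_smul, mul_comm]
      abel

theorem final {d : ℕ} (hd : 2 ≤ d) (L : ℕ) (m : Fin (L + 1) → ℕ) (q : ℕ)
    (hq : ∑ c, 3 * (Nat.log 2 (m c) + 1 + 1) ≤ q ^ d) {G : Type} [AddCommGroup G] [Finite G]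
    (e : G ≃+ DirectSum (Fin (L + 1)) fun c => ZMod (m c)) :
    ∃ K, Ced.IsCx K ∧ Dim d K ∧ QAcyclic K ∧ Nonempty (H ℤ K d ≃+ G) ∧ {v | {v} ∈ K}.ncard ≤
      (2 * d + 1) * (9 * ((2 * d + 1) * ((2 * d).factorial * q) + 1)) + 1 := by
  let N : Fin (L + 1) → ℕ := fun c => 3 * (Nat.log 2 (m c) + 1 + 1)
  let g : (Σ c, Fin (N c)) → ℕ → Option (Σ c, Fin (N c)) := fun j k =>
    (g0 (m j.1) (Nat.log 2 (m j.1) + 1) j.2 k).bind fun s =>
      if h : s < N j.1 then some ⟨j.1, s, h⟩ else none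
  have g1 : ∀ j k i, g j k = some i →
      i.1 = j.1 ∧ g0 (m j.1) (Nat.log 2 (m j.1) + 1) j.2 k = some i.2 := fun j k i a => by
    obtain ⟨s, b, c⟩ := Option.bind_eq_some_iff.1 a
    split_ifs at c
    obtain rfl := Option.some.inj c
    exact ⟨rfl, b⟩
  obtain ⟨v, hv⟩ := colour (g := g) hd (fun i => finSigmaFinEquiv i)
    (Fin.val_injective.comp finSigmaFinEquiv.injective) (fun i => (Fin.is_lt _).trans_le hq)
    (fun j k ⟨c, i⟩ a => by
      obtain ⟨rfl, b⟩ := g1 _ _ _ a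
      have := g0_a b
      simp only [finSigmaFinEquiv_apply] at this ⊢
      omega) fun j k k' i a b => g0_b (g1 _ _ _ a).2 (g1 _ _ _ b).2
  have : Nonempty (Σ c, Fin (N c)) := ⟨⟨0, 0, by simp [N]⟩⟩
  refine hv.main ?_
  have N1 : ∀ c, 1 < N c := fun c => by simp only [N]; omega
  have sol : ∀ (M : Type) [AddCommGroup M] (y : (Σ c, Fin (N c)) → M), SolA g y ↔
      ∀ c, m c • y ⟨c, 1, N1 c⟩ = 0 ∧ ∀ t, y ⟨c, t⟩ = val (m c) t • y ⟨c, 1, N1 c⟩ := by
    intro M _ y
    let z : ∀ c, ℕ → M := fun c s => if h : s < N c then y ⟨c, s, h⟩ else 0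
    have a : ∀ c t k, (g ⟨c, t⟩ k).elim 0 y =
        (g0 (m c) (Nat.log 2 (m c) + 1) t k).elim 0 (z c) := fun c t k => by
      simp only [g]
      rcases g0 (m c) (Nat.log 2 (m c) + 1) t k with _ | s
      · rfl
      · by_cases b : s < N c <;> simp [z, b]
    simp only [SolA, Sigma.forall, a]
    refine forall_congr' fun c => Fin.forall_iff.trans ((horner
      (Nat.lt_pow_succ_log_self one_lt_two _) (z c)).trans ?_)
    rw [Fin.forall_iff]
    exact and_congr (by simp [z, N1]) (forall₂_congr fun t b => by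
      simp only [z, dif_pos (N1 c), dif_pos (show t < N c from b)])
  let u : ∀ c, ZMod (m c) →+ G := fun c => e.symm.toAddMonoidHom.comp (DirectSum.of (fun c => ZMod (m c)) c)
  have v1 : ∀ c, val (m c) 1 = 1 := fun c => rfl
  refine ⟨fun i => val (m i.1) i.2 • u i.1 1, (sol _ _).2 fun c => ⟨?_, fun t => by simp [v1]⟩,
    fun S a => top_unique fun x _ => ?_, fun M _ y a => ?_⟩
  · simp [v1, ← map_nsmul]
  · obtain ⟨x, rfl⟩ := e.symm.surjective x
    induction x using DirectSum.induction_on with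
    | zero => simp
    | of c x =>
      obtain ⟨k, rfl⟩ := ZMod.intCast_surjective x
      have := S.zsmul_mem (a ⟨c, 1, N1 c⟩) k
      simpa [v1, ← map_zsmul, u] using this
    | add x y a b => simpa using S.add_mem (a trivial) (b trivial)
  · replace a := (sol _ _).1 a
    refine ⟨(DirectSum.toAddMonoid fun c => ZMod.lift (m c) ⟨zmultiplesHom M (y ⟨c, 1, N1 c⟩),
      by simpa using (a c).1⟩).comp e.toAddMonoidHom, fun ⟨c, t⟩ => ?_⟩
    rw [(a c).2, map_nsmul]
    congr 1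
    simp only [u, AddMonoidHom.comp_apply, AddEquiv.coe_toAddMonoidHom, AddEquiv.apply_symm_apply,
      DirectSum.toAddMonoid_of]
    rw [← Int.cast_one, ZMod.lift_coe]
    simp

theorem bound {d : ℕ} (hd : 2 ≤ d) : ∃ C : ℝ, ∀ (G : Type) [AddCommGroup G] [Finite G]
    [Nontrivial G], ∃ K, Ced.IsCx K ∧ Dim d K ∧ QAcyclic K ∧ Nonempty (H ℤ K d ≃+ G) ∧
      ({v | {v} ∈ K}.ncard : ℝ) ≤ C * Real.log (Nat.card G) ^ (1 / d : ℝ) := by
  refine ⟨((2 * d + 1) * (9 * ((2 * d + 1) * ((2 * d).factorial * 2) + 1)) + 1) * 18 ^ (1 / d : ℝ),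
    fun G _ _ _ => ?_⟩
  obtain ⟨ι, _, n, h1, ⟨e⟩⟩ := AddCommGroup.equiv_directSum_zmod_of_finite' G
  have : Nonempty ι := by
    by_contra a
    have := not_nonempty_iff.1 a
    exact not_subsingleton G e.toEquiv.subsingleton
  obtain ⟨L, hL⟩ := Nat.exists_eq_succ_of_ne_zero (Fintype.card_ne_zero (α := ι))
  replace e := e.trans (DirectSum.equivCongrLeft (Fintype.equivFinOfCardEq hL))
  set m := fun c => n ((Fintype.equivFinOfCardEq hL).symm c)
  have hm : ∀ c, 1 < m c := fun c => h1 _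
  have c1 : Real.log (Nat.card G) = ∑ c, Real.log (m c) := by
    rw [Nat.card_congr (e.trans (DirectSum.addEquivProd _)).toEquiv, Nat.card_pi, Nat.cast_prod,
      Real.log_prod fun c _ => by simpa using (by have := hm c; omega : m c ≠ 0)]
    simp [m]
  have l2 := Real.log_two_gt_d9
  have c2 : ((∑ c, 3 * (Nat.log 2 (m c) + 1 + 1) : ℕ) : ℝ) ≤ 18 * Real.log (Nat.card G) := by
    rw [c1, mul_sum, Nat.cast_sum]
    refine sum_le_sum fun c _ => ?_
    have a : (1 : ℝ) ≤ Nat.log 2 (m c) := by exact_mod_cast Nat.log_pos one_lt_two (hm c)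
    have b : Nat.log 2 (m c) * Real.log 2 ≤ Real.log (m c) := by
      rw [← Real.log_pow]
      exact Real.log_le_log (by positivity)
        (by exact_mod_cast Nat.pow_log_le_self 2 (by have := hm c; omega))
    push_cast
    nlinarith
  have c3 : Real.log 2 ≤ Real.log (Nat.card G) :=
    Real.log_le_log two_pos (by exact_mod_cast Finite.one_lt_card)
  set x := (18 * Real.log (Nat.card G)) ^ (1 / d : ℝ) with hx
  have x1 : 1 ≤ x := Real.one_le_rpow (by linarith) (by positivity)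
  obtain ⟨K, a, b, c, f, g⟩ := final hd L m ⌈x⌉₊ (by
    refine Nat.cast_le (α := ℝ).1 (c2.trans ?_)
    rw [← Real.rpow_inv_natCast_pow (by linarith : 0 ≤ 18 * Real.log (Nat.card G))
      (by omega : d ≠ 0), ← one_div, ← hx,
      Nat.cast_pow]
    gcongr
    exact Nat.le_ceil x) e
  refine ⟨K, a, b, c, f, (Nat.cast_le.2 g).trans ?_⟩
  rw [mul_assoc, ← Real.mul_rpow (by norm_num) (by linarith), ← hx]
  have : (⌈x⌉₊ : ℝ) ≤ 2 * x := by linarith [Nat.ceil_lt_add_one (by linarith : 0 ≤ x)]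
  push_cast
  calc _ ≤ (2 * d + 1 : ℝ) * (9 * ((2 * d + 1) * ((2 * d).factorial * (2 * x)) + x)) + x := by gcongr
    _ = _ := by ring

end Pool.Agent.H10.QA
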