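import Mathlib

set_option autoImplicit false

/-! A Rademacher sum with unit variance is at least one with probability bounded below. -/

namespace Pool.Agent.H10.Radem
open Finset

def e (b : Bool) : ℝ := if b then 1 else -1

def Sm {n : ℕ} (u : Fin n → ℝ) (s : Fin n → Bool) : ℝ := ∑ k, u k * e (s k)

lemma sum_succ {n : ℕ} (u : Fin (n + 1) → ℝ) (F : ℝ → ℝ) :
    ∑ s, F (Sm u s) = ∑ s : Fin n → Bool,
      (F (Sm (Fin.tail u) s + u 0) + F (Sm (Fin.tail u) s - u 0)) := by
  rw [← (Fin.consEquiv (fun _ => Bool)).sum_comp, Fintype.sum_prod_type, sum_comm]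
  refine sum_congr rfl fun s _ => ?_
  simp only [Fintype.univ_bool, mem_singleton, Bool.true_eq_false, not_false_eq_true, sum_insert,
    sum_singleton, Sm, Fin.sum_univ_succ, Fin.consEquiv_apply, Fin.cons_zero, Fin.cons_succ,
    Fin.tail]
  simp only [e, if_true, Bool.false_eq_true, if_false]
  congr 2 <;> ring

lemma moments (n : ℕ) : ∀ u : Fin n → ℝ, ∑ s, Sm u s ^ 2 = 2 ^ n * ∑ k, u k ^ 2 ∧
    ∑ s, Sm u s ^ 4 = 2 ^ n * (3 * (∑ k, u k ^ 2) ^ 2 - 2 * ∑ k, u k ^ 4) ∧
    ∑ s, Sm u s ^ 6 ≤ 2 ^ n * (15 * (∑ k, u k ^ 2) ^ 3) := by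
  induction n with
  | zero => intro u; simp [Sm]
  | succ n ih =>
    intro u
    obtain ⟨h2, h4, h6⟩ := ih (Fin.tail u)
    rw [sum_succ u (fun x => x ^ 2), sum_succ u (fun x => x ^ 4), sum_succ u (fun x => x ^ 6)]
    simp only [Fin.sum_univ_succ]
    simp only [Fin.tail] at h2 h4 h6
    have b0 : 0 ≤ ∑ k : Fin n, u k.succ ^ 4 := sum_nonneg fun k _ => by positivity
    have v0 : 0 ≤ ∑ k : Fin n, u k.succ ^ 2 := sum_nonneg fun k _ => by positivity
    generalize ∑ k : Fin n, u k.succ ^ 4 = b at *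
    generalize ∑ k : Fin n, u k.succ ^ 2 = v at *
    generalize u 0 = a
    have c0 : ∑ _s : Fin n → Bool, (1 : ℝ) = 2 ^ n := by simp
    have p : (0 : ℝ) < 2 ^ n := by positivity
    refine ⟨?_, ?_, ?_⟩
    · have : ∀ x : ℝ, (x + a) ^ 2 + (x - a) ^ 2 = 2 * x ^ 2 + 2 * a ^ 2 * 1 := fun x => by ring
      simp only [this, sum_add_distrib, ← mul_sum]
      erw [h2, c0]; ring
    · have : ∀ x : ℝ, (x + a) ^ 4 + (x - a) ^ 4 =
          2 * x ^ 4 + 12 * a ^ 2 * x ^ 2 + 2 * a ^ 4 * 1 := fun x => by ring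
      simp only [this, sum_add_distrib, ← mul_sum]
      erw [h2, h4, c0]; ring
    · have : ∀ x : ℝ, (x + a) ^ 6 + (x - a) ^ 6 =
          2 * x ^ 6 + 30 * a ^ 2 * x ^ 4 + 30 * a ^ 4 * x ^ 2 + 2 * a ^ 6 * 1 := fun x => by ring
      simp only [this, sum_add_distrib, ← mul_sum]
      erw [h2, h4, c0]
      have h7 : ∑ s, Sm (Fin.tail u) s ^ 6 ≤ 2 ^ n * (15 * v ^ 3) := h6
      have q1 : 0 ≤ 2 ^ n * (a ^ 2 * b) := by positivity
      have q2 : 0 ≤ 2 ^ n * (a ^ 4 * v) := by positivity
      have q3 : 0 ≤ 2 ^ n * a ^ 6 := by positivity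
      rw [pow_succ 2 n]
      nlinarith

lemma count {n : ℕ} (G : (Fin n → Bool) → Prop) [DecidablePred G] (q : (Fin n → Bool) → ℝ)
    (C : ℝ) (h1 : ∀ s, G s → q s ≤ C) (h2 : ∀ s, ¬ G s → q s ≤ 0) :
    ∑ s, q s ≤ C * #(univ.filter G) := by
  calc ∑ s, q s ≤ ∑ s, C * (if G s then 1 else 0) := sum_le_sum fun s _ => by
        split_ifs with h
        · rw [mul_one]; exact h1 s h
        · rw [mul_zero]; exact h2 s h
    _ = _ := by rw [← mul_sum, sum_boole]

lemma double {n : ℕ} (G H : (Fin n → Bool) → Prop) [DecidablePred G] [DecidablePred H]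
    (f : (Fin n → Bool) → Fin n → Bool) (hf : Function.Involutive f)
    (h : ∀ s, G s → H s ∨ H (f s)) : (#(univ.filter G) : ℝ) ≤ 2 * #(univ.filter H) := by
  have h1 : univ.filter G ⊆ univ.filter H ∪ (univ.filter H).image f := by
    intro s hs
    simp only [mem_filter, mem_univ, true_and, mem_union, mem_image] at hs ⊢
    rcases h s hs with a | a
    · exact Or.inl a
    · exact Or.inr ⟨f s, a, hf s⟩
  have h2 := (card_le_card h1).trans (card_union_le _ _)
  have h3 := card_image_le (s := univ.filter H) (f := f)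
  have : #(univ.filter G) ≤ 2 * #(univ.filter H) := by omega
  exact_mod_cast this

lemma e_not (b : Bool) : e (!b) = - e b := by cases b <;> simp [e]

lemma e_sq (b : Bool) : e b ^ 2 = 1 := by cases b <;> simp [e]

open Classical in
lemma sq_count {n : ℕ} (u : Fin n → ℝ) (hu : ∑ k, u k ^ 2 = 1) :
    (2 : ℝ) ^ n ≤ 3000 * #(univ.filter fun s => 1 ≤ Sm u s ^ 2) := by
  have p : (0 : ℝ) < 2 ^ n := by positivity
  by_cases hb : ∑ k, u k ^ 4 ≤ 1 / 2
  · obtain ⟨h2, h4, h6⟩ := moments n u
    rw [hu] at h2 h4 h6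
    have := count (fun s => 1 ≤ Sm u s ^ 2)
      (fun s => - Sm u s ^ 6 + 15 * Sm u s ^ 4 - 14 * Sm u s ^ 2) 3000 (fun s hs => by
        have e6 : Sm u s ^ 6 = (Sm u s ^ 2) ^ 3 := by ring
        have e4 : Sm u s ^ 4 = (Sm u s ^ 2) ^ 2 := by ring
        rw [e6, e4]
        generalize Sm u s ^ 2 = x at *
        nlinarith [mul_nonneg (by linarith : 0 ≤ x) (sq_nonneg (x - 10)), sq_nonneg (x - 20)])
      (fun s hs => by
        have e6 : Sm u s ^ 6 = (Sm u s ^ 2) ^ 3 := by ring
        have e4 : Sm u s ^ 4 = (Sm u s ^ 2) ^ 2 := by ring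
        have x0 : 0 ≤ Sm u s ^ 2 := by positivity
        rw [e6, e4]
        generalize Sm u s ^ 2 = x at *
        have := mul_nonneg (mul_nonneg x0 (by linarith : 0 ≤ 1 - x)) (by linarith : 0 ≤ 14 - x)
        nlinarith)
    simp only [sum_sub_distrib, sum_add_distrib, sum_neg_distrib, ← mul_sum] at this
    rw [h2, h4] at this
    nlinarith
  · have : ∃ i, 1 / 2 < u i ^ 2 := by
      by_contra hc
      push Not at hc
      apply hb
      calc ∑ k, u k ^ 4 ≤ ∑ k, 1 / 2 * u k ^ 2 := sum_le_sum fun k _ => by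
            nlinarith [hc k, sq_nonneg (u k)]
        _ = 1 / 2 := by rw [← mul_sum, hu, mul_one]
    obtain ⟨i, hi⟩ := this
    set u' := Function.update u i 0 with hu'
    have split : ∀ f : Fin n → ℝ → ℝ, (∀ k, f k 0 = 0) →
        ∑ k, f k (u k) = ∑ k, f k (u' k) + f i (u i) := by
      intro f hf
      rw [← sum_erase_add _ _ (mem_univ i), ← sum_erase_add _ _ (mem_univ i)]
      simp only [hu', Function.update_self, hf, add_zero]
      congr 1
      exact sum_congr rfl fun k hk => by rw [Function.update_of_ne (ne_of_mem_erase hk)]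
    have hv := split (fun _ x => x ^ 2) (by simp)
    rw [hu] at hv
    obtain ⟨h2, h4, -⟩ := moments n u'
    have b0 : 0 ≤ ∑ k, u' k ^ 4 := sum_nonneg fun k _ => by positivity
    have v0 : 0 ≤ ∑ k, u' k ^ 2 := sum_nonneg fun k _ => by positivity
    generalize ∑ k, u' k ^ 4 = b at *
    generalize ∑ k, u' k ^ 2 = v at *
    have c1 : (2 : ℝ) ^ n ≤ 5 * #(univ.filter fun s => v / 5 ≤ Sm u' s ^ 2) := by
      rcases v0.eq_or_lt with rfl | v1
      · rw [filter_true_of_mem fun s _ => by rw [zero_div]; positivity]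
        simp only [card_univ, Fintype.card_pi, Fintype.card_bool, prod_const, Fintype.card_fin]
        push_cast
        linarith
      · have := count (fun s => v / 5 ≤ Sm u' s ^ 2)
          (fun s => - Sm u' s ^ 4 + 31 / 5 * v * Sm u' s ^ 2 - 6 / 5 * v ^ 2 * 1) (10 * v ^ 2)
          (fun s hs => by
            have e4 : Sm u' s ^ 4 = (Sm u' s ^ 2) ^ 2 := by ring
            rw [e4]
            generalize Sm u' s ^ 2 = x at *
            nlinarith [sq_nonneg (x - 31 / 10 * v), sq_nonneg v])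
          (fun s hs => by
            have e4 : Sm u' s ^ 4 = (Sm u' s ^ 2) ^ 2 := by ring
            rw [e4]
            generalize Sm u' s ^ 2 = x at *
            have := mul_nonneg (by linarith : 0 ≤ v / 5 - x) (by linarith : 0 ≤ 6 * v - x)
            nlinarith)
        have c0 : ∑ _s : Fin n → Bool, (1 : ℝ) = 2 ^ n := by simp
        simp only [sum_sub_distrib, sum_add_distrib, sum_neg_distrib, ← mul_sum] at this
        rw [h2, h4, c0] at this
        have w := mul_nonneg p.le b0
        have v2 : 0 < v ^ 2 := by positivity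
        have : v ^ 2 * 2 ^ n ≤ v ^ 2 * (5 * #(univ.filter fun s => v / 5 ≤ Sm u' s ^ 2)) := by
          nlinarith
        exact le_of_mul_le_mul_left this v2
    have c2 := double (fun s => v / 5 ≤ Sm u' s ^ 2) (fun s => 1 ≤ Sm u s ^ 2)
      (fun s => Function.update s i (!s i)) (fun s => by simp) (fun s hs => by
        have a1 : Sm u s = Sm u' s + u i * e (s i) := split (fun k x => x * e (s k)) (by simp)
        have a2 : Sm u (Function.update s i (!s i)) = Sm u' s - u i * e (s i) := by
          have := split (fun k x => x * e (Function.update s i (!s i) k)) (by simp)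
          simp only [Function.update_self, e_not] at this
          unfold Sm
          rw [this, sub_eq_add_neg, mul_neg]
          congr 1
          refine sum_congr rfl fun k _ => ?_
          by_cases hk : k = i
          · simp [hk, hu']
          · rw [Function.update_of_ne hk]
        have a3 : (u i * e (s i)) ^ 2 = u i ^ 2 := by rw [mul_pow, e_sq, mul_one]
        rw [a1, a2]
        rw [← a3] at hi hv
        generalize u i * e (s i) = t at *
        generalize Sm u' s = y at *
        by_contra hc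
        push Not at hc
        have k1 := abs_lt.mp ((sq_lt_one_iff_abs_lt_one _).mp hc.1)
        have k2 := abs_lt.mp ((sq_lt_one_iff_abs_lt_one _).mp hc.2)
        rcases le_total 0 t with t0 | t0
        · have : 2 / 3 < t := by nlinarith
          have : y ^ 2 < (1 - t) ^ 2 := sq_lt_sq' (by linarith) (by linarith)
          nlinarith
        · have : t < -(2 / 3) := by nlinarith
          have : y ^ 2 < (1 + t) ^ 2 := sq_lt_sq' (by linarith) (by linarith)
          nlinarith)
    have : (0 : ℝ) ≤ #(univ.filter fun s => 1 ≤ Sm u s ^ 2) := by positivity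
    linarith

open Classical in
theorem anti {n : ℕ} (u : Fin n → ℝ) (hu : ∑ k, u k ^ 2 = 1) :
    (2 : ℝ) ^ n ≤ 6000 * #(univ.filter fun s => 1 ≤ Sm u s) := by
  have c1 := sq_count u hu
  have c2 := double (fun s => 1 ≤ Sm u s ^ 2) (fun s => 1 ≤ Sm u s) (fun s k => !s k)
    (fun s => by simp) (fun s hs => by
      have : Sm u (fun k => !s k) = - Sm u s := by simp [Sm, e_not]
      rw [this]
      by_contra hc
      push Not at hc
      nlinarith [hc.1, hc.2])
  linarith

end Pool.Agent.H10.Radem
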