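import Mathlib

set_option autoImplicit false

namespace Pool.Agent.H10.Ray

variable {X : Type*} [MetricSpace X]

/-- the metric of `X` is generated by the labelled tree `T(l)`: the distance of two distinct
vertices is the largest label on the path joining them -/
def Gen (T : SimpleGraph X) (l : X → ℝ) : Prop :=
  T.IsTree ∧ (∀ v, 0 ≤ l v) ∧ ∀ u v, u ≠ v → ∀ p : T.Walk u v, p.IsPath →
    IsGreatest (l '' {w | w ∈ p.support}) (dist u v)

/-- the subspace `A` is generated by a labelled ray `x 0, x 1, ...` -/
def RayGen (A : Set X) : Prop :=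
  ∃ (x : ℕ → X) (l : ℕ → ℝ), Function.Injective x ∧ Set.range x = A ∧ (∀ n, 0 ≤ l n) ∧
    ∀ i j, i < j → IsGreatest (l '' Set.Icc i j) (dist (x i) (x j))

/-- no ray is a subgraph -/
def Rayless {V : Type*} (T : SimpleGraph V) : Prop :=
  ¬ ∃ f : ℕ → V, Function.Injective f ∧ ∀ n, T.Adj (f n) (f (n + 1))

/-- exactly one vertex has more than two neighbours -/
def Starlike {V : Type*} (T : SimpleGraph V) : Prop := ∃! v, 2 < (T.neighborSet v).encard

end Pool.Agent.H10.Ray
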