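import Mathlib
import Pool.Agent.H10.RayDefs

set_option autoImplicit false

namespace Pool.Agent.H10.Ray
open Set Filter Topology
open SimpleGraph hiding dist dist_comm

variable {X : Type*} [MetricSpace X]

lemma sep_fin {A : Set X} (h : TotallyBounded A) {ε : ℝ} (e : 0 < ε)
    (s : A.Pairwise fun a b => ε ≤ dist a b) : A.Finite := by
  obtain ⟨t, a, b, c⟩ := Metric.finite_approx_of_totallyBounded h ε e
  refine b.subset fun x d => ?_
  obtain ⟨y, f, g⟩ := mem_iUnion₂.1 (c d)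
  by_contra r
  exact (s d (a f) fun q => r (q ▸ f)).not_gt g

theorem fwd [IsUltrametricDist X] [CompleteSpace X] {A : Set X} (h0 : A ≠ univ)
    (h1 : TotallyBounded A) (h2 : RayGen A) (h3 : Dense A) : CompactSpace X ∧
      ∃ (T : SimpleGraph X) (l : X → ℝ), Starlike T ∧ Rayless T ∧ Gen T l := by
  classical
  obtain ⟨x, l, xi, rfl, l0, hl⟩ := h2
  refine ⟨⟨isCompact_iff_totallyBounded_isComplete.2 ⟨h3.closure_eq ▸ h1.closure, isComplete_univ⟩⟩, ?_⟩
  have lt : Tendsto l atTop (𝓝 0) := by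
    rw [← Nat.cofinite_eq_atTop, Metric.tendsto_nhds]
    intro ε e
    refine (Finite.of_finite_image (sep_fin (h1.subset (image_subset_range x {n | ε ≤ l n})) e ?_)
      xi.injOn).subset fun n a => by simpa [abs_of_nonneg (l0 n)] using a
    rintro _ ⟨i, a, rfl⟩ _ ⟨j, b, rfl⟩ c
    rcases lt_or_gt_of_ne (fun q => c (congrArg x q)) with d | d
    · exact le_trans a ((hl i j d).2 ⟨i, ⟨le_rfl, d.le⟩, rfl⟩)
    · exact dist_comm (x j) _ ▸ le_trans b ((hl j i d).2 ⟨j, ⟨le_rfl, d.le⟩, rfl⟩)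
  obtain ⟨c, hc⟩ := cauchySeq_tendsto_of_complete (u := x) (Metric.cauchySeq_iff'.2 fun ε e => by
    obtain ⟨N, a⟩ := Metric.tendsto_atTop.1 lt ε e
    refine ⟨N, fun n b => b.eq_or_lt.elim (fun q => by simpa [q]) fun d => ?_⟩
    obtain ⟨k, f, g⟩ := (hl N n d).1
    rw [dist_comm, ← g]
    simpa [abs_of_nonneg (l0 k)] using a k f.1)
  have all : ∀ u, u = c ∨ ∃ i, x i = u := fun u => (closure_minimal (subset_insert c _)
    hc.isCompact_insert_range.isClosed (h3 u) : u ∈ insert c (range x))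
  have cx : ∀ i, x i ≠ c := fun i e => h0 (eq_univ_of_forall fun u => (all u).elim
    (fun q => ⟨i, e.trans q.symm⟩) id)
  have low : ∀ i k, i ≤ k → l k ≤ dist (x i) c := fun i k a =>
    ge_of_tendsto (tendsto_const_nhds.dist hc) ((eventually_gt_atTop k).mono fun j b =>
      (hl i j (a.trans_lt b)).2 ⟨k, ⟨a, b.le⟩, rfl⟩)
  let R : ℕ → Prop := fun r => ∀ k, r ≤ k → l k ≤ l r
  have up : ∀ r, R r → dist (x r) c ≤ l r := fun r a =>
    le_of_tendsto (tendsto_const_nhds.dist hc) ((eventually_gt_atTop r).mono fun j b => by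
      obtain ⟨k, f, g⟩ := (hl r j b).1
      exact g ▸ a k f.1)
  have ex : ∀ i, ∃ r, i ≤ r ∧ R r := fun i => by
    obtain ⟨k, f, g⟩ := (hl i (i + 1) (by omega)).1
    have p : 0 < l k := g ▸ dist_pos.2 (xi.ne (by omega))
    obtain ⟨N, a⟩ := eventually_atTop.1 (lt.eventually (gt_mem_nhds p))
    obtain ⟨r, b, d⟩ := exists_max_image (Icc i (max N (i + 1))) l (finite_Icc _ _) ⟨i, by simp⟩
    refine ⟨r, b.1, fun j e => ?_⟩
    by_cases q : j ≤ max N (i + 1)
    · exact d j ⟨b.1.trans e, q⟩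
    · exact (a j (by omega)).le.trans (d k ⟨f.1, f.2.trans (le_max_right _ _)⟩)
  let par : ℕ → X := fun i => if R i then c else x (i + 1)
  let T : SimpleGraph X := fromRel fun u v => ∃ i, u = x i ∧ v = par i
  have pn : ∀ i, x i ≠ par i := fun i => by
    simp only [par]
    split_ifs
    exacts [cx i, xi.ne (by omega)]
  have adj : ∀ u v, T.Adj u v ↔ ∃ i, u = x i ∧ v = par i ∨ v = x i ∧ u = par i := fun u v => by
    simp only [T, fromRel_adj, exists_or]
    refine and_iff_right_of_imp ?_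
    rintro (⟨i, rfl, rfl⟩ | ⟨i, rfl, rfl⟩)
    exacts [pn i, (pn i).symm]
  have px : ∀ i j, x j = par i → ¬ R i ∧ j = i + 1 := fun i j e => by
    simp only [par] at e
    split_ifs at e with a
    exacts [absurd e (cx j), ⟨a, xi e⟩]
  let L : X → ℝ := Function.extend x l 0
  have Lx : ∀ i, L (x i) = l i := xi.extend_apply _ _
  have Lc : L c = 0 := Function.extend_apply' _ _ _ fun ⟨i, a⟩ => cx i a
  let W : ℝ → X → X → Prop := fun δ u v => ∃ p : T.Walk u v, ∀ w ∈ p.support, L w ≤ δ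
  have Ws : ∀ {δ u v}, W δ u v → W δ v u := fun ⟨p, a⟩ => ⟨p.reverse, by simpa using a⟩
  have Wt : ∀ {δ u v w}, W δ u v → W δ v w → W δ u w := fun ⟨p, a⟩ ⟨q, b⟩ =>
    ⟨p.append q, fun z e => ((Walk.mem_support_append_iff _ _).1 e).elim (a z) (b z)⟩
  have Wa : ∀ {δ u v}, T.Adj u v → L u ≤ δ → L v ≤ δ → W δ u v := fun a b d =>
    ⟨a.toWalk, by simp [Adj.toWalk, b, d]⟩
  have W1 : ∀ δ i j, i ≤ j → (∀ k ∈ Icc i j, l k ≤ δ) → (∀ k ∈ Ico i j, ¬ R k) →
      W δ (x i) (x j) := by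
    intro δ i j a
    induction j, a using Nat.le_induction with
    | base => exact fun b _ => ⟨.nil, by simpa [Lx] using b⟩
    | succ j a ih =>
      exact fun b d => Wt (ih (fun k e => b k ⟨e.1, by have := e.2; omega⟩) fun k e => d k
        ⟨e.1, by have := e.2; omega⟩) (Wa ((adj _ _).2 ⟨j, Or.inl ⟨rfl, (if_neg (d j
          ⟨a, by omega⟩)).symm⟩⟩) (Lx _ ▸ b j ⟨a, by omega⟩) (Lx _ ▸ b _ ⟨by omega, le_rfl⟩))
  have W2 : ∀ δ i, (∀ k, i ≤ k → l k ≤ δ) → W δ (x i) c := fun δ i a =>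
    have b := Nat.find_spec (ex i)
    Wt (W1 δ i _ b.1 (fun k e => a k e.1) fun k e f => Nat.find_min (ex i) e.2 ⟨e.1, f⟩)
      (Wa ((adj _ _).2 ⟨_, Or.inl ⟨rfl, (if_pos b.2).symm⟩⟩) (Lx _ ▸ a _ b.1)
        (Lc ▸ (l0 i).trans (a i le_rfl)))
  have W3 : ∀ i j, i < j → W (dist (x i) (x j)) (x i) (x j) := fun i j a => by
    have b : ∀ k ∈ Icc i j, l k ≤ dist (x i) (x j) := fun k e => (hl i j a).2 ⟨k, e, rfl⟩
    by_cases d : ∃ r ∈ Ico i j, R r
    · obtain ⟨r, d, e⟩ := d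
      have : ∀ k, i ≤ k → l k ≤ dist (x i) (x j) := fun k f => (le_total k j).elim
        (fun g => b k ⟨f, g⟩) fun g => (e k (d.2.le.trans g)).trans (b r ⟨d.1, d.2.le⟩)
      exact Wt (W2 _ i this) (Ws (W2 _ j fun k f => this k (a.le.trans f)))
    · exact W1 _ i j a.le b fun k e f => d ⟨k, e, f⟩
  have W4 : ∀ u v, u ≠ v → W (dist u v) u v := fun u v a => by
    rcases all u with rfl | ⟨i, rfl⟩ <;> rcases all v with rfl | ⟨j, rfl⟩
    · contradiction
    · exact Ws (dist_comm (x j) _ ▸ W2 _ j (low j))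
    · exact W2 _ i (low i)
    · rcases lt_or_gt_of_ne (fun q => a (congrArg x q)) with d | d
      exacts [W3 i j d, Ws (dist_comm (x j) _ ▸ W3 j i d)]
  have ac : T.IsAcyclic := by
    have key : ∀ i, ¬ (T.deleteEdges {s(x i, par i)}).Reachable (x i) (par i) := fun i a => by
      have : ∀ v, Relation.ReflTransGen (T.deleteEdges {s(x i, par i)}).Adj (x i) v →
          ∃ j ≤ i, v = x j ∧ ∀ k ∈ Ico j i, ¬ R k := fun v b => by
        induction b with
        | refl => exact ⟨i, le_rfl, rfl, by simp⟩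
        | tail _ b ih =>
          obtain ⟨j, d, rfl, e⟩ := ih
          rw [deleteEdges_adj, adj] at b
          obtain ⟨⟨k, ⟨f, rfl⟩ | ⟨rfl, f⟩⟩, b⟩ := b
          · obtain rfl := xi f
            have : j < i := d.lt_of_ne fun q => b (by simp [q])
            exact ⟨j + 1, this, if_neg (e j ⟨le_rfl, this⟩), fun k g => e k ⟨by have := g.1; omega, g.2⟩⟩
          · obtain ⟨g, rfl⟩ := px _ _ f
            refine ⟨k, by omega, rfl, fun m q => q.1.eq_or_lt.elim (fun t => t ▸ g) fun t => e m ⟨t, q.2⟩⟩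
      obtain ⟨j, b, d, -⟩ := this _ ((reachable_iff_reflTransGen _ _).1 a)
      have := (px _ _ d.symm).2
      omega
    refine isAcyclic_iff_forall_adj_isBridge.2 fun u v a => ?_
    obtain ⟨i, ⟨rfl, rfl⟩ | ⟨rfl, rfl⟩⟩ := (adj _ _).1 a
    · exact key i
    · rw [Sym2.eq_swap]
      exact key i
  have L0 : ∀ v, 0 ≤ L v := fun v => (all v).elim (fun q => q ▸ Lc.ge) fun ⟨i, q⟩ => q ▸ Lx i ▸ l0 i
  have lo : ∀ u v (p : T.Walk u v), ∃ w ∈ p.support, dist u v ≤ L w := fun u v p => by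
    have e : ∀ i, dist (x i) (par i) ≤ max (L (x i)) (L (par i)) := fun i => by
      simp only [par]
      split_ifs with a
      · exact le_max_of_le_left (Lx i ▸ up i a)
      · obtain ⟨k, f, g⟩ := (hl i (i + 1) (by omega)).1
        rw [← g, Lx, Lx]
        rcases (show k = i ∨ k = i + 1 by have := f.1; have := f.2; omega) with rfl | rfl <;> simp
    induction p with
    | nil => simp [L0]
    | @cons u v w a p ih =>
      obtain ⟨z, b, d⟩ := ih
      have : dist u v ≤ max (L u) (L v) := by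
        obtain ⟨i, ⟨rfl, rfl⟩ | ⟨rfl, rfl⟩⟩ := (adj _ _).1 a
        exacts [e i, dist_comm (x i) _ ▸ max_comm (L (x i)) _ ▸ e i]
      rcases le_max_iff.1 (IsUltrametricDist.dist_triangle_max u v w) with f | f
      · rcases le_max_iff.1 (f.trans this) with g | g
        exacts [⟨u, by simp, g⟩, ⟨v, by simp, g⟩]
      · exact ⟨z, by simp [b], f.trans d⟩
  have : Nonempty X := ⟨c⟩
  refine ⟨T, L, ⟨c, ?_, fun v a => ?_⟩, ?_, ⟨⟨fun u v => if a : u = v then a ▸ .refl u else
    (W4 u v a).elim fun p _ => ⟨p⟩⟩, ac⟩, L0, fun u v a p b => ?_⟩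
  · have : (T.neighborSet c).Infinite := ((Nat.frequently_atTop_iff_infinite.1
      (frequently_atTop.2 ex)).image xi.injOn).mono (image_subset_iff.2 fun r a =>
        (adj _ _).2 ⟨r, Or.inr ⟨rfl, (if_pos a).symm⟩⟩)
    simp only [this.encard_eq]
    exact ENat.natCast_lt_top 2
  · refine (all v).resolve_right fun ⟨i, e⟩ => a.not_ge ?_
    refine (encard_le_encard (t := {par i, x (i - 1)}) fun w b => ?_).trans
      ((encard_insert_le _ _).trans (by simp; rfl))
    obtain ⟨k, ⟨f, rfl⟩ | ⟨rfl, f⟩⟩ := (adj _ _).1 b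
    · exact Or.inl (by rw [xi (e.trans f)])
    · exact Or.inr (by rw [(px _ _ (e.trans f)).2]; rfl)
  · rintro ⟨f, fi, fa⟩
    obtain ⟨N, hN⟩ := eventually_atTop.1
      ((Nat.cofinite_eq_atTop ▸ fi.tendsto_cofinite).eventually (eventually_cofinite_ne c))
    obtain ⟨i, hi⟩ := (all (f N)).resolve_left (hN N le_rfl)
    obtain ⟨r, a, b⟩ := ex i
    have : ∀ n, f (N + n) ∈ x '' Iic r := fun n => by
      induction n with
      | zero => exact ⟨i, a, hi⟩
      | succ n ih =>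
        obtain ⟨j, d, e⟩ := ih
        obtain ⟨m, g⟩ := (all (f (N + (n + 1)))).resolve_left (hN _ (by omega))
        refine ⟨m, ?_, g⟩
        obtain ⟨k, ⟨p, q⟩ | ⟨p, q⟩⟩ := (adj _ _).1 (fa (N + n))
        · obtain rfl := xi (e.trans p)
          obtain ⟨s, rfl⟩ := px _ _ (g.trans q)
          exact (show j ≤ r from d).lt_of_ne fun t => s (t ▸ b)
        · obtain rfl := xi (g.trans p)
          have := (px _ _ (e.trans q)).2
          simp only [mem_Iic] at d ⊢
          omega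
    exact infinite_of_injective_forall_mem (fi.comp (add_right_injective N)) this
      ((finite_Iic r).image x)
  · obtain ⟨q, d⟩ := W4 u v a
    have e : ∀ w ∈ p.support, L w ≤ dist u v := fun w f => d w (q.support_bypass_subset_support
      ((show p = q.bypass from congrArg Subtype.val
        ((ac.subsingleton_path _ _).elim ⟨p, b⟩ q.toPath)) ▸ f))
    obtain ⟨w, f, g⟩ := lo u v p
    exact ⟨⟨w, f, (e w f).antisymm g⟩, forall_mem_image.2 e⟩

end Pool.Agent.H10.Ray
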