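import Mathlib
import Pool.Agent.H10.RayA

set_option autoImplicit false

namespace Pool.Agent.H10.Ray
open Set Filter Topology
open SimpleGraph hiding dist dist_comm

lemma enum {Q : Type*} [LinearOrder Q] {s : Set Q} (hs : s.Infinite)
    (hf : ∀ a ∈ s, (s ∩ Iio a).Finite) : ∃ e : ℕ → Q, StrictMono e ∧ range e = s := by
  classical
  have m : StrictMono fun a : s => (s ∩ Iio a.1).ncard := fun a b h =>
    ncard_lt_ncard ⟨inter_subset_inter_right _ (Iio_subset_Iio h.le),
      fun c => lt_irrefl _ (c ⟨a.2, h⟩).2⟩ (hf _ b.2)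
  have := hs.to_subtype
  have := (infinite_range_of_injective m.injective).to_subtype
  let φ := (Nat.Subtype.orderIsoOfNat _).trans (m.orderIso _).symm
  exact ⟨fun n => φ n, fun a b h => φ.strictMono h, by
    rw [show (fun n => (φ n : Q)) = Subtype.val ∘ φ from rfl, φ.surjective.range_comp,
      Subtype.range_coe]⟩

variable {X : Type*} [MetricSpace X]

theorem bwd [IsUltrametricDist X] [Infinite X] [CompactSpace X] {T : SimpleGraph X} {l : X → ℝ}
    (h1 : Starlike T) (h : Gen T l) : ∃ A : Set X, A ≠ univ ∧ TotallyBounded A ∧ RayGen A ∧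
      Dense A := by
  classical
  obtain ⟨c, -, hc⟩ := h1
  obtain ⟨t, l0, g⟩ := h
  choose P hP Pu using fun u => t.existsUnique_path u c
  have any : ∀ u v, ∃ p : T.Walk u v, p.IsPath := fun u v => (t.existsUnique_path u v).exists
  have deg : ∀ u, u ≠ c → (T.neighborSet u).encard ≤ 2 := fun u a => not_lt.1 (mt (hc u) a)
  have iso : ∀ u, u ≠ c → {u} ∈ 𝓝 u := fun u a => by
    refine mem_of_superset ((biInter_mem (finite_of_encard_le_coe (k := 2) (deg u a))).2
      fun w b => Metric.ball_mem_nhds u (dist_pos.2 (Adj.ne b))) fun v b => by_contra fun d => ?_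
    obtain ⟨p, e⟩ := any u v
    have f := p.adj_snd (Walk.not_nil_of_ne (Ne.symm d))
    obtain ⟨w, i, j⟩ := (g _ _ f.ne f.toWalk f.isPath_toWalk).1
    refine (Metric.mem_ball.1 (mem_iInter₂.1 b _ f)).not_ge ?_
    rw [← j, dist_comm]
    refine (g _ _ (Ne.symm d) p e).2 ⟨w, ?_, rfl⟩
    simp only [Adj.toWalk, Walk.support_cons, Walk.support_nil, List.mem_cons, mem_ofPred_eq] at i
    rcases i with rfl | rfl | ⟨⟨⟩⟩
    exacts [p.start_mem_support, p.getVert_mem_support 1]
  have fin : ∀ ε > 0, {u | ε ≤ dist u c}.Finite := fun ε e => by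
    obtain ⟨s, -, b⟩ := (isClosed_le continuous_const (by fun_prop) :
      IsClosed {u | ε ≤ dist u c}).isCompact.elim_nhds_subcover (fun u => {u})
        fun u a => iso u fun d => by simp [d, e.not_ge] at a
    exact s.finite_toSet.subset fun u a => by simpa using b a
  have acc : ∀ ε > 0, ∃ u, u ≠ c ∧ dist u c < ε := fun ε e => by
    by_contra! a
    exact infinite_univ (((fin ε e).insert c).subset fun u _ => or_iff_not_imp_left.2 (a u))
  have lc : l c = 0 := (l0 c).antisymm' (le_of_forall_pos_le_add fun ε e => by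
    obtain ⟨u, a, b⟩ := acc ε e
    have := (g u c a _ (hP u)).2 ⟨c, (P u).end_mem_support, rfl⟩
    linarith)
  let a : ℕ → X → X := fun k u => (P u).getVert k
  have a0 : ∀ u, a 0 u = u := fun u => (P u).getVert_zero
  have dr : ∀ k u, P (a k u) = (P u).drop k := fun k u => (Pu _ _ ((hP u).drop k)).symm
  have aa : ∀ i k u, a i (a k u) = a (k + i) u := fun i k u =>
    (congrArg (·.getVert i) (dr k u)).trans (Walk.drop_getVert ..)
  have ac : ∀ k, a k c = c := fun k => by simp [a, ← Pu c .nil Walk.IsPath.nil]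
  have lt : ∀ k u, a k u ≠ c → k < (P u).length := fun k u e =>
    not_le.1 fun f => e ((P u).getVert_of_length_le f)
  have le : ∀ k u, l (a k u) ≤ dist u c := fun k u => by
    by_cases e : u = c
    · simp [e, ac, lc]
    · exact (g u c e _ (hP u)).2 ⟨_, (P u).getVert_mem_support k, rfl⟩
  have ex : ∀ u, ∃ k, u ≠ c → l (a k u) = dist u c ∧ ∀ i > 0, l (a (k + i) u) < dist u c := by
    intro u
    by_cases e : u = c
    · simp [e]
    obtain ⟨w, b, d⟩ := (g u c e _ (hP u)).1
    obtain ⟨k, rfl, f⟩ := Walk.mem_support_iff_exists_getVert.1 b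
    refine ⟨Nat.findGreatest (fun k => l (a k u) = dist u c) (P u).length, fun _ =>
      ⟨Nat.findGreatest_spec (P := fun k => l (a k u) = dist u c) f d, fun i j =>
        (le _ _).lt_of_ne fun r => Nat.findGreatest_is_greatest
          (P := fun k => l (a k u) = dist u c) (lt_add_of_pos_right _ j) (lt _ _ fun s => ?_).le r⟩⟩
    exact (dist_pos.2 e).ne (by rw [← r, s, lc])
  choose k hk using ex
  have uq : ∀ u j, u ≠ c → l (a j u) = dist u c → (∀ i > 0, l (a (j + i) u) < dist u c) →
      k u = j := fun u j e b d => by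
    rcases lt_trichotomy (k u) j with f | f | f
    · obtain ⟨i, rfl⟩ := Nat.exists_eq_add_of_lt f
      exact absurd b ((hk u e).2 (i + 1) (by omega)).ne
    · exact f
    · obtain ⟨i, f⟩ := Nat.exists_eq_add_of_lt f
      exact absurd (f ▸ (hk u e).1) (d (i + 1) (by omega)).ne
  have rc : ∀ u, u ≠ c → a (k u) u ≠ c := fun u e f =>
    (dist_pos.2 e).ne (by rw [← (hk u e).1, f, lc])
  have mono : ∀ j u, dist (a j u) c ≤ dist u c := fun j u => by
    by_cases e : a j u = c
    · simp [e]
    · rw [← (hk _ e).1, aa]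
      exact le _ _
  have same : ∀ u v j, u ≠ c → a j v = a (k u) u → dist v c ≤ dist u c →
      v ≠ c ∧ dist v c = dist u c ∧ k v = j := fun u v j e b d => by
    have f : dist v c = dist u c := d.antisymm ((hk u e).1 ▸ b ▸ le j v)
    have v0 : v ≠ c := fun r => rc u e (by rw [← b, r, ac])
    exact ⟨v0, f, uq v j v0 (by rw [b, f, (hk u e).1]) fun i r => by
      rw [← aa, b, aa, f]; exact (hk u e).2 i r⟩
  have inj : ∀ j u v, a j u = a j v → a j u ≠ c → u = v := by
    have ad : ∀ u, u ≠ c → T.Adj u (a 1 u) := fun u e => (P u).adj_snd (Walk.not_nil_of_ne e)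
    have ln : ∀ u, (P (a 1 u)).length = (P u).length - 1 := fun u => by rw [dr, Walk.drop_length]
    intro j
    induction j with
    | zero => exact fun u v b _ => (a0 u).symm.trans (b.trans (a0 v))
    | succ j ih =>
      intro u v b d
      rw [← aa, ← aa] at b
      rw [← aa] at d
      have e : ∀ x, a 1 x ≠ c → x ≠ c ∧ x ≠ a 1 (a 1 x) := fun x f => ⟨fun r => f (r ▸ ac 1), fun r => by
        have := lt _ _ f
        have := congrArg (fun z => (P z).length) r
        simp only [ln] at this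
        omega⟩
      refine ih u v (by_contra fun f => (deg _ d).not_gt ?_) (e _ d).1
      refine lt_of_lt_of_le ?_ (encard_le_encard (s := {a j u, a j v, a 1 (a 1 (a j u))}) ?_)
      · rw [encard_insert_of_notMem (by simp [f, (e _ d).2]),
          encard_pair (b ▸ (e _ (b ▸ d)).2)]
        norm_num
      · simp only [insert_subset_iff, singleton_subset_iff, mem_neighborSet]
        exact ⟨(ad _ (e _ d).1).symm, b ▸ (ad _ (e _ (b ▸ d)).1).symm, ad _ d⟩
  obtain ⟨o, -⟩ := exists_wellFoundedLT X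
  let κ : X → ℝᵒᵈ ×ₗ X ×ₗ ℕᵒᵈ := fun u => toLex (OrderDual.toDual (dist u c),
    toLex (a (k u) u, OrderDual.toDual (k u)))
  have κl : ∀ u v, κ u ≤ κ v ↔ dist v c < dist u c ∨ dist u c = dist v c ∧
      (a (k u) u < a (k v) v ∨ a (k u) u = a (k v) v ∧ k v ≤ k u) := fun u v => by
    simp [κ, Prod.Lex.toLex_le_toLex]
  have κi : InjOn κ {c}ᶜ := fun u b v _ e => by
    simp only [κ, EmbeddingLike.apply_eq_iff_eq, Prod.mk.injEq] at e
    exact inj (k u) u v (by rw [e.2.1, e.2.2]) (rc u b)
  have inf := (finite_singleton c).infinite_compl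
  obtain ⟨e, e1, e2⟩ := enum (inf.image κi) (by
    rintro _ ⟨u, b, rfl⟩
    refine ((fin _ (dist_pos.2 b)).image κ).subset ?_
    rintro _ ⟨⟨v, -, rfl⟩, d⟩
    exact ⟨v, ((κl _ _).1 (le_of_lt d)).elim le_of_lt fun f => f.1.ge, rfl⟩)
  choose x x1 x2 using fun n => e2.subset (mem_range_self n)
  have xs : ∀ u, u ≠ c → ∃ n, x n = u := fun u b => by
    obtain ⟨n, d⟩ := e2.symm.subset (mem_image_of_mem κ b)
    exact ⟨n, κi (x1 n) b ((x2 n).trans d)⟩
  refine ⟨{c}ᶜ, fun r => (r ▸ mem_univ c : c ∈ ({c}ᶜ : Set X)) rfl,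
    isCompact_univ.totallyBounded.subset (subset_univ _), ⟨x, l ∘ x, fun i j b => e1.injective
      (by rw [← x2, b, x2]), (range_subset_iff.2 x1).antisymm xs, fun n => l0 _, fun i j b => ?_⟩,
    Metric.dense_iff.2 fun u ε r => ?_⟩
  swap
  · by_cases b : u = c
    · exact (acc ε r).imp fun v d => ⟨b ▸ d.2, d.1⟩
    · exact ⟨u, by simpa, b⟩
  have im : x '' Icc i j = {w | w ≠ c ∧ κ (x i) ≤ κ w ∧ κ w ≤ κ (x j)} := by
    refine Subset.antisymm (image_subset_iff.2 fun n d => ⟨x1 n, by simpa [x2, e1.le_iff_le] using d⟩)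
      fun w d => ?_
    obtain ⟨n, rfl⟩ := xs w d.1
    exact ⟨n, by simpa [x2, e1.le_iff_le] using d.2, rfl⟩
  rw [image_comp, im]
  have uv : κ (x i) < κ (x j) := by simpa [x2] using e1 b
  have u0 := x1 i
  have v0 := x1 j
  generalize x i = u, x j = v at *
  have n0 : u ≠ v := fun r => uv.ne (congrArg κ r)
  have d0 : ∀ {u v}, κ u ≤ κ v → dist v c ≤ dist u c := fun r =>
    ((κl _ _).1 r).elim le_of_lt fun f => f.1.ge
  by_cases q : a (k u) u = a (k v) v
  · have d1 : dist u c = dist v c := by rw [← (hk u u0).1, q, (hk v v0).1]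
    have kl : k v ≤ k u := by simpa [κl, d1, q] using uv.le
    have ev : ∀ w, k w ≤ k u → a (k u) u = a (k w) w → a (k u - k w) u = w := fun w r s => by
      have : a (k w) (a (k u - k w) u) = a (k u) u := by rw [aa, Nat.sub_add_cancel r]
      exact inj (k w) _ _ (this.trans s) (this ▸ rc u u0)
    convert g u v n0 (((P u).take (k u - k v)).copy rfl (ev v kl q)) (by simpa using (hP u).take _)
      using 2
    ext w
    simp only [mem_ofPred_eq, Walk.support_copy, Walk.mem_support_iff_exists_getVert,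
      Walk.take_getVert, Walk.take_length]
    have := lt _ _ (rc u u0)
    refine ⟨fun ⟨_, r, s⟩ => ?_, fun ⟨n, r, s⟩ => ?_⟩
    · have d2 : dist u c = dist w c := (d1 ▸ d0 s).antisymm (d0 r)
      rw [κl] at r s
      simp only [d2, ← d1, lt_irrefl, false_or, true_and, ← q] at r s
      have t : a (k u) u = a (k w) w := (r.elim le_of_lt fun f => f.1.le).antisymm
        (s.elim le_of_lt fun f => f.1.le)
      simp only [t, lt_irrefl, false_or, true_and] at r s
      exact ⟨k u - k w, by rw [min_eq_right (by omega)]; exact ev w r t, by omega⟩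
    · rw [min_eq_right (by omega)] at r
      have t : a (k u - n) w = a (k u) u := by rw [← r]; exact (aa ..).trans (by congr 1; omega)
      obtain ⟨w0, w1, w2⟩ := same u w _ u0 t (r ▸ mono n u)
      refine ⟨w0, ?_, ?_⟩ <;> rw [κl, w1, w2, t] <;> simp [d1, q] <;> omega
  · have d1 : dist u v = dist u c := by
      refine le_antisymm ((IsUltrametricDist.dist_triangle_max u c v).trans
        (max_le le_rfl (dist_comm v c ▸ d0 uv.le))) ?_
      obtain ⟨p, b⟩ := any u v
      have : a (k u) u ∈ (p.append (P v)).support := (p.append (P v)).support_bypass_subset_support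
        (by rw [Pu u _ (Walk.bypass_isPath _)]; exact (P u).getVert_mem_support _)
      rcases (Walk.mem_support_append_iff _ _).1 this with r | r
      · exact (hk u u0).1 ▸ (g u v n0 p b).2 ⟨_, r, rfl⟩
      · obtain ⟨j, r, -⟩ := Walk.mem_support_iff_exists_getVert.1 r
        exact (q (by rw [(same u v j u0 r (d0 uv.le)).2.2]; exact r.symm)).elim
    rw [d1]
    refine ⟨⟨a (k u) u, ?_, (hk u u0).1⟩, forall_mem_image.2 fun w r =>
      (a0 w ▸ le 0 w).trans (d0 r.2.1)⟩
    obtain ⟨w0, w1, w2⟩ := same u (a (k u) u) 0 u0 (a0 _) (mono _ _)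
    have := (κl _ _).1 uv.le
    refine ⟨w0, ?_, ?_⟩ <;> rw [κl, w1, w2, a0]
    · simp
    · tauto

end Pool.Agent.H10.Ray
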