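import Mathlib

set_option autoImplicit false

/-! A small verified checker for hinted reverse unit propagation proofs. A clause is one bit mask
over literal positions; positions below 64 are always false and serve as hash salt; the negation
of the literal at position `j` sits at `j + N` or `j - N`. -/

namespace Pool.Agent.H10.Rup

/-- admissible meaning of the literal positions -/
def Good (N : ℕ) (L : ℕ → Prop) : Prop :=
  (∀ j < 64, ¬ L j) ∧ ∀ j, L j → ¬ L (j + N)

def Sat (L : ℕ → Prop) (d : ℕ) : Prop := ∃ j, d.testBit j = true ∧ L j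

inductive Tr
  | leaf (d : ℕ) : Tr
  | node (l r : Tr) : Tr

noncomputable def Tr.get (t : Tr) : ℕ → ℕ :=
  Tr.rec (motive := fun _ => ℕ → ℕ) (fun d _ => d)
    (fun _ _ fl fr i => Bool.rec (fr (Nat.shiftRight i 1)) (fl (Nat.shiftRight i 1))
      (Nat.beq (Nat.land i 1) 0)) t

def force {α : Type} (x : ℕ) (k : ℕ → α) : α :=
  Nat.rec (motive := fun _ => α) (k 0) (fun n _ => k (Nat.succ n)) x

lemma force_eq {α : Type} (x : ℕ) (k : ℕ → α) : force x k = k x := by cases x <;> rfl

def rest (A d : ℕ) : ℕ := Nat.xor d (Nat.land d A)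

def next (N A r h : ℕ) : ℕ :=
  Nat.xor (Nat.lor A (Nat.lor (Nat.shiftLeft r N) (Nat.shiftRight r N)))
    (Nat.shiftLeft (Nat.land h 4294967295) 32)

def Inv (L : ℕ → Prop) (A : ℕ) : Prop := ∀ j, A.testBit j = true → ¬ L j

lemma rest_sat (L : ℕ → Prop) (A d : ℕ) (hI : Inv L A) (hs : Sat L d) : Sat L (rest A d) := by
  obtain ⟨j, a, b⟩ := hs
  refine ⟨j, ?_, b⟩
  have : A.testBit j = false := by
    by_contra hc
    exact hI j (by simpa using hc) b
  show (d ^^^ (d &&& A)).testBit j = true
  simp [Nat.testBit_xor, Nat.testBit_and, a, this]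

lemma next_inv (N : ℕ) (L : ℕ → Prop) (hG : Good N L) (A r h : ℕ) (hI : Inv L A) (hs : Sat L r)
    (h1 : Nat.land r (Nat.sub r 1) = 0) : Inv L (next N A r h) := by
  obtain ⟨i, a, b⟩ := hs
  have r0 : r ≠ 0 := by rintro rfl; simp at a
  obtain ⟨k, rfl⟩ := (Nat.and_sub_one_eq_zero_iff_isPowerOfTwo r0).mp h1
  have ik : k = i := by simpa [Nat.testBit_two_pow] using a
  subst ik
  intro j hj
  have hj' : ((A ||| ((2 ^ k) <<< N ||| (2 ^ k) >>> N)) ^^^
      ((h &&& (2 ^ 32 - 1)) <<< 32)).testBit j = true := hj
  rw [Nat.testBit_xor, Nat.testBit_or, Nat.testBit_or, Nat.testBit_shiftLeft,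
    Nat.testBit_shiftRight, Nat.testBit_shiftLeft, Nat.testBit_and, Nat.testBit_two_pow_sub_one,
    Nat.testBit_two_pow, Nat.testBit_two_pow] at hj'
  by_cases j64 : j < 64
  · exact hG.1 j j64
  · have e : decide (j - 32 < 32) = false := by simp; omega
    rw [e] at hj'
    simp only [Bool.and_false, Bool.xor_false, Bool.or_eq_true, Bool.and_eq_true,
      decide_eq_true_eq, ge_iff_le] at hj'
    rcases hj' with c | ⟨c1, c2⟩ | c
    · exact hI j c
    · have : j = k + N := by omega
      rw [this]; exact hG.2 k b
    · intro hL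
      have : k = j + N := by omega
      rw [this] at b
      exact hG.2 j hL b

/-- propagate along a list of hints, all of which must be smaller than `b` -/
noncomputable def rup (N : ℕ) (db : Tr) (b : ℕ) (hs : List ℕ) : ℕ → Bool :=
  List.rec (motive := fun _ => ℕ → Bool) (fun _ => false)
    (fun h _ ih A => Bool.rec false
      ((fun r => Bool.rec (Bool.rec false (ih (next N A r h))
        (Nat.beq (Nat.land r (Nat.sub r 1)) 0)) true (Nat.beq r 0)) (rest A (db.get h)))
      (Nat.blt h b)) hs

lemma rup_sound (N : ℕ) (L : ℕ → Prop) (hG : Good N L) (db : Tr) (b : ℕ)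
    (hb : ∀ i < b, Sat L (db.get i)) :
    ∀ (hs : List ℕ) (A : ℕ), rup N db b hs A = true → ¬ Inv L A := by
  intro hs
  induction hs with
  | nil => intro A h; exact absurd h (by simp [rup])
  | cons a hs ih =>
    intro A h hI
    have h' : Bool.rec false (Bool.rec (Bool.rec false (rup N db b hs (next N A (rest A (db.get a)) a))
        (Nat.beq (Nat.land (rest A (db.get a)) (Nat.sub (rest A (db.get a)) 1)) 0)) true
        (Nat.beq (rest A (db.get a)) 0)) (Nat.blt a b) = true := h
    cases h1 : Nat.blt a b <;> rw [h1] at h'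
    · exact absurd h' (by simp)
    · have ha : a < b := by simpa [Nat.blt_eq] using h1
      have hsat := rest_sat L A _ hI (hb a ha)
      generalize rest A (db.get a) = r at h' hsat
      cases h2 : Nat.beq r 0 <;> rw [h2] at h'
      · cases h3 : Nat.beq (Nat.land r (Nat.sub r 1)) 0 <;> rw [h3] at h'
        · exact absurd h' (by simp)
        · exact ih _ h' (next_inv N L hG A r a hI hsat (Nat.eq_of_beq_eq_true h3))
      · obtain ⟨j, hj, _⟩ := hsat
        rw [Nat.eq_of_beq_eq_true h2] at hj
        simp at hj

/-- check the clauses `b, b+1, ...` of the database, one for each list of hints -/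
noncomputable def check (N : ℕ) (db : Tr) (H : List (List ℕ)) : ℕ → Bool :=
  List.rec (motive := fun _ => ℕ → Bool) (fun _ => true)
    (fun hs _ ih b => Bool.rec false (force (Nat.succ b) ih)
      (rup N db b hs (Nat.lor (db.get b) (Nat.lor (Nat.shiftLeft (Nat.land b 4294967295) 32)
        4294967295)))) H

lemma check_sound (N : ℕ) (L : ℕ → Prop) (hG : Good N L) (db : Tr) :
    ∀ (H : List (List ℕ)) (b : ℕ),
    check N db H b = true → (∀ i < b, Sat L (db.get i)) →
      ∀ i < b + H.length, Sat L (db.get i) := by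
  intro H
  induction H with
  | nil => intro b _ hb i hi; exact hb i hi
  | cons hs H ih =>
    intro b h hb
    have h' : Bool.rec false (force (b + 1) (check N db H))
        (rup N db b hs (db.get b ||| ((b &&& (2 ^ 32 - 1)) <<< 32 ||| (2 ^ 32 - 1)))) = true := h
    cases h1 : rup N db b hs (db.get b ||| ((b &&& (2 ^ 32 - 1)) <<< 32 ||| (2 ^ 32 - 1))) <;>
      rw [h1] at h'
    · exact absurd h' (by simp)
    · have h2 : check N db H (b + 1) = true := by
        rw [← force_eq (b + 1) (check N db H)]; exact h'
      have hb1 : Sat L (db.get b) := by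
        have := rup_sound N L hG db b hb hs _ h1
        by_contra hc
        apply this
        intro j hj hL
        by_cases j64 : j < 64
        · exact hG.1 j j64 hL
        · rw [Nat.testBit_or, Nat.testBit_or, Nat.testBit_shiftLeft, Nat.testBit_and,
            Nat.testBit_two_pow_sub_one, Nat.testBit_two_pow_sub_one] at hj
          have e : decide (j - 32 < 32) = false := by simp; omega
          have e' : decide (j < 32) = false := by simp; omega
          rw [e, e'] at hj
          exact hc ⟨j, by simpa using hj, hL⟩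
      intro i hi
      apply ih (b + 1) h2 _ i (by simp at hi; omega)
      intro j hj
      rcases Nat.lt_succ_iff_lt_or_eq.mp hj with e | e
      · exact hb j e
      · rw [e]; exact hb1

lemma check_sound' (N : ℕ) (L : ℕ → Prop) (hG : Good N L) (db : Tr) (H : List (List ℕ)) (b e : ℕ)
    (h : check N db H b = true) (he : Nat.beq (b + H.length) e = true)
    (hb : ∀ i < b, Sat L (db.get i)) : ∀ i < e, Sat L (db.get i) := by
  rw [← Nat.eq_of_beq_eq_true he]
  exact check_sound N L hG db H b h hb

lemma not_sat_small (N : ℕ) (L : ℕ → Prop) (hG : Good N L) (d : ℕ) (hd : d < 2 ^ 64) :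
    ¬ Sat L d := by
  rintro ⟨j, a, b⟩
  by_cases j64 : j < 64
  · exact hG.1 j j64 b
  · have : d.testBit j = false :=
      Nat.testBit_lt_two_pow (lt_of_lt_of_le hd (Nat.pow_le_pow_right (by norm_num) (by omega)))
    simp [this] at a

end Pool.Agent.H10.Rup
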