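import Mathlib
import Pool.Agent.H10.Faces

set_option autoImplicit false

namespace Pool.Agent.H10.Scaleno

open Pool.Agent.H10.Faces

abbrev E3 := EuclideanSpace ℝ (Fin 3)

lemma dist3 (x y : E3) (d : ℝ) (hd : 0 ≤ d)
    (h : (x 0 - y 0) ^ 2 + (x 1 - y 1) ^ 2 + (x 2 - y 2) ^ 2 = d ^ 2) : dist x y = d := by
  rw [EuclideanSpace.dist_eq, Fin.sum_univ_three]
  simp only [Real.dist_eq, sq_abs]
  rw [h, Real.sqrt_sq hd]

lemma lin3 (l : E3 →ₗ[ℝ] ℝ) (x y z : ℝ) :
    l !₂[x, y, z] = x * l !₂[1, 0, 0] + y * l !₂[0, 1, 0] + z * l !₂[0, 0, 1] := by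
  have : (!₂[x, y, z] : E3) = x • !₂[1, 0, 0] + y • !₂[0, 1, 0] + z • !₂[0, 0, 1] := by
    ext i; fin_cases i <;> simp
  rw [this]; simp only [map_add, map_smul, smul_eq_mul]

lemma eta3 (x : E3) : x = !₂[x 0, x 1, x 2] := by
  ext i; fin_cases i <;> simp

noncomputable def A (h : ℝ) (s : Bool) : E3 := !₂[0, 0, if s then h else -h]
noncomputable def U (r z : ℝ) (s : Bool) : E3 := !₂[if s then r else -r, 0, z]
noncomputable def D (r z : ℝ) (s : Bool) : E3 := !₂[0, if s then r else -r, -z]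

def V (r h z : ℝ) : Set E3 :=
  {A h true, A h false, U r z true, U r z false, D r z true, D r z false}

lemma span_top (r h z : ℝ) (hr : 0 < r) (hh : 0 < h) : affineSpan ℝ (V r h z) = ⊤ := by
  rw [AffineSubspace.affineSpan_eq_top_iff_vectorSpan_eq_top_of_nonempty ℝ E3 E3
    ⟨A h true, by simp [V]⟩, eq_top_iff]
  intro x _
  have h1 : U r z true -ᵥ U r z false ∈ vectorSpan ℝ (V r h z) :=
    vsub_mem_vectorSpan ℝ (by simp [V]) (by simp [V])
  have h2 : D r z true -ᵥ D r z false ∈ vectorSpan ℝ (V r h z) :=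
    vsub_mem_vectorSpan ℝ (by simp [V]) (by simp [V])
  have h3 : A h true -ᵥ A h false ∈ vectorSpan ℝ (V r h z) :=
    vsub_mem_vectorSpan ℝ (by simp [V]) (by simp [V])
  have : x = (x 0 / (2 * r)) • (U r z true -ᵥ U r z false) +
      (x 1 / (2 * r)) • (D r z true -ᵥ D r z false) +
      (x 2 / (2 * h)) • (A h true -ᵥ A h false) := by
    ext i; fin_cases i <;> simp [U, D, A] <;> field_simp <;> ring
  rw [this]
  exact Submodule.add_mem _ (Submodule.add_mem _ (Submodule.smul_mem _ _ h1)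
    (Submodule.smul_mem _ _ h2)) (Submodule.smul_mem _ _ h3)

lemma faces (r h z : ℝ) (hr : 0 < r) (h1 : z < h) (h2 : -h < z) (F : Set E3)
    (hF : IsExposed ℝ (convexHull ℝ (V r h z)) F)
    (hdim : Module.finrank ℝ (vectorSpan ℝ F) = 2) :
    ∃ s t u : Bool, F = convexHull ℝ {A h s, U r z t, D r z u} := by
  have hh : 0 < h := by linarith
  have hne : F.Nonempty := by
    by_contra hne
    rw [Set.not_nonempty_iff_eq_empty] at hne
    rw [hne, vectorSpan_empty] at hdim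
    simp at hdim
  obtain ⟨L, hL⟩ := hF hne
  have hL' : F = convexHull ℝ {v ∈ V r h z | ∀ u ∈ V r h z, L.toLinearMap u ≤ L.toLinearMap v} := by
    rw [← face_eq]; exact hL
  set l := L.toLinearMap
  set W := {v ∈ V r h z | ∀ u ∈ V r h z, l u ≤ l v} with hW
  rw [hL', vectorSpan_hull] at hdim
  rw [hL']
  set a := l !₂[1, 0, 0]
  set b := l !₂[0, 1, 0]
  set c := l !₂[0, 0, 1]
  have vA1 : l (A h true) = h * c := by rw [A, lin3]; simp [c]
  have vA0 : l (A h false) = -h * c := by rw [A, lin3]; simp [c]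
  have vU1 : l (U r z true) = r * a + z * c := by rw [U, lin3]; simp [a, c]
  have vU0 : l (U r z false) = -r * a + z * c := by rw [U, lin3]; simp [a, c]
  have vD1 : l (D r z true) = r * b - z * c := by rw [D, lin3]; simp [b, c]; ring
  have vD0 : l (D r z false) = -r * b - z * c := by rw [D, lin3]; simp [b, c]; ring
  have hmem : ∀ v, v ∈ W ↔ v ∈ V r h z ∧ h * c ≤ l v ∧ -h * c ≤ l v ∧ r * a + z * c ≤ l v ∧
      -r * a + z * c ≤ l v ∧ r * b - z * c ≤ l v ∧ -r * b - z * c ≤ l v := by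
    intro v
    simp only [hW, V, Set.mem_setOf_eq, Set.mem_insert_iff, Set.mem_singleton_iff,
      forall_eq_or_imp, forall_eq, vA1, vA0, vU1, vU0, vD1, vD0]
  have hnz : ¬ (a = 0 ∧ b = 0 ∧ c = 0) := by
    rintro ⟨ha, hb, hc⟩
    have : W = V r h z := by
      ext v
      rw [hmem, eta3 v, lin3]
      simp [a, b, c] at ha hb hc
      simp [ha, hb, hc, a, b, c]
    rw [this, ← direction_affineSpan, span_top r h z hr hh, AffineSubspace.direction_top,
      finrank_top, finrank_euclideanSpace_fin] at hdim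
    omega
  have zero_of : c = 0 → r * a ≤ 0 → -r * a ≤ 0 → r * b ≤ 0 → -r * b ≤ 0 → False := by
    intro hc e1 e2 e3 e4
    apply hnz
    refine ⟨?_, ?_, hc⟩
    · have : r * a = 0 := by linarith
      exact (mul_eq_zero.mp this).resolve_left hr.ne'
    · have : r * b = 0 := by linarith
      exact (mul_eq_zero.mp this).resolve_left hr.ne'
  have nA : ¬ (A h true ∈ W ∧ A h false ∈ W) := by
    rw [hmem, hmem, vA1, vA0]
    rintro ⟨⟨-, -, e1, e2, e3, e4, e5⟩, ⟨-, e6, -⟩⟩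
    have hc : c = 0 := by
      have : h * c = 0 := by linarith
      exact (mul_eq_zero.mp this).resolve_left hh.ne'
    rw [hc] at e2 e3 e4 e5
    apply zero_of hc <;> linarith
  have nU : ¬ (U r z true ∈ W ∧ U r z false ∈ W) := by
    rw [hmem, hmem, vU1, vU0]
    rintro ⟨⟨-, e1, e2, -, e3, e4, e5⟩, ⟨-, -, -, e6, -⟩⟩
    have hc : c = 0 := by
      have e7 : (h - z) * c ≤ 0 := by linarith
      have e8 : 0 ≤ (h + z) * c := by linarith
      have e9 : c ≤ 0 := by
        by_contra hcon; push Not at hcon; nlinarith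
      have e10 : 0 ≤ c := by
        by_contra hcon; push Not at hcon; nlinarith
      linarith
    rw [hc] at e3 e4 e5 e6
    apply zero_of hc <;> linarith
  have nD : ¬ (D r z true ∈ W ∧ D r z false ∈ W) := by
    rw [hmem, hmem, vD1, vD0]
    rintro ⟨⟨-, e1, e2, e3, e4, -, e5⟩, ⟨-, -, -, -, -, e6, -⟩⟩
    have hc : c = 0 := by
      have e7 : (h + z) * c ≤ 0 := by linarith
      have e8 : 0 ≤ (h - z) * c := by linarith
      have e9 : c ≤ 0 := by
        by_contra hcon; push Not at hcon; nlinarith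
      have e10 : 0 ≤ c := by
        by_contra hcon; push Not at hcon; nlinarith
      linarith
    rw [hc] at e3 e4 e5 e6
    apply zero_of hc <;> linarith
  have pick : ∀ f : Bool → E3, ¬ (f true ∈ W ∧ f false ∈ W) → ∃ s, ∀ s', f s' ∈ W → s' = s := by
    intro f hf
    by_cases h0 : f true ∈ W
    · refine ⟨true, fun s' hs' => ?_⟩
      cases s'
      · exact absurd ⟨h0, hs'⟩ hf
      · rfl
    · refine ⟨false, fun s' hs' => ?_⟩
      cases s'
      · rfl
      · exact absurd hs' h0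
  obtain ⟨s, hs⟩ := pick (A h) nA
  obtain ⟨t, ht⟩ := pick (U r z) nU
  obtain ⟨u, hu⟩ := pick (D r z) nD
  have hsub : W ⊆ {A h s, U r z t, D r z u} := by
    intro v hv
    have hv' := hv.1
    simp only [V, Set.mem_insert_iff, Set.mem_singleton_iff] at hv' ⊢
    rcases hv' with rfl | rfl | rfl | rfl | rfl | rfl
    · left; rw [hs _ hv]
    · left; rw [hs _ hv]
    · right; left; rw [ht _ hv]
    · right; left; rw [ht _ hv]
    · right; right; rw [hu _ hv]
    · right; right; rw [hu _ hv]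
  have npair : ∀ x y : E3, ¬ W ⊆ {x, y} := by
    intro x y hxy
    have := ((collinear_pair ℝ x y).subset hxy).finrank_le_one
    omega
  refine ⟨s, t, u, ?_⟩
  congr 1
  apply Set.Subset.antisymm hsub
  intro v hv
  by_contra hvW
  simp only [Set.mem_insert_iff, Set.mem_singleton_iff] at hv
  rcases hv with rfl | rfl | rfl
  · apply npair (U r z t) (D r z u)
    intro w hw
    rcases hsub hw with rfl | h
    · exact absurd hw hvW
    · exact h
  · apply npair (A h s) (D r z u)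
    intro w hw
    rcases hsub hw with h | rfl | h
    · exact Or.inl h
    · exact absurd hw hvW
    · exact Or.inr h
  · apply npair (A h s) (U r z t)
    intro w hw
    rcases hsub hw with h | h | rfl
    · exact Or.inl h
    · exact Or.inr h
    · exact absurd hw hvW

lemma params (a b c : ℝ) (ha : 0 < a) (hb : 0 < b) (hc : 0 < c) (h1 : a < b + c) (h2 : b < c + a)
    (h3 : c ^ 2 < a ^ 2 + b ^ 2) :
    ∃ r p q : ℝ, 0 < r ∧ 0 < p ∧ 0 < q ∧ r ^ 2 + p ^ 2 = a ^ 2 ∧ r ^ 2 + q ^ 2 = b ^ 2 ∧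
      2 * r ^ 2 + (q - p) ^ 2 = c ^ 2 := by
  set k := (a ^ 2 + b ^ 2 - c ^ 2) / 2 with hk
  have hk0 : 0 < k := by linarith
  have hk1 : k < a * b := by nlinarith
  set S := √((a ^ 2 - b ^ 2) ^ 2 + 4 * k ^ 2) with hS
  have hS2 : S ^ 2 = (a ^ 2 - b ^ 2) ^ 2 + 4 * k ^ 2 := Real.sq_sqrt (by positivity)
  have hS0 : 0 ≤ S := Real.sqrt_nonneg _
  have e1 : a ^ 2 - b ^ 2 < S := by
    apply lt_of_pow_lt_pow_left₀ 2 hS0
    nlinarith
  have e2 : b ^ 2 - a ^ 2 < S := by
    apply lt_of_pow_lt_pow_left₀ 2 hS0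
    nlinarith
  have e3 : S < a ^ 2 + b ^ 2 := by
    apply lt_of_pow_lt_pow_left₀ 2 (by positivity)
    have : k ^ 2 < (a * b) ^ 2 := pow_lt_pow_left₀ hk1 hk0.le two_ne_zero
    nlinarith
  have p0 : 0 < (a ^ 2 - b ^ 2 + S) / 2 := by linarith
  have q0 : 0 < (b ^ 2 - a ^ 2 + S) / 2 := by linarith
  have r0 : 0 < (a ^ 2 + b ^ 2 - S) / 2 := by linarith
  have hp := Real.sq_sqrt p0.le
  have hq := Real.sq_sqrt q0.le
  have hr := Real.sq_sqrt r0.le
  have hpq : √((a ^ 2 - b ^ 2 + S) / 2) * √((b ^ 2 - a ^ 2 + S) / 2) = k := by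
    apply (sq_eq_sq₀ (by positivity) hk0.le).mp
    rw [mul_pow, hp, hq]
    linarith
  refine ⟨_, _, _, Real.sqrt_pos.mpr r0, Real.sqrt_pos.mpr p0, Real.sqrt_pos.mpr q0, ?_, ?_, ?_⟩
  · linarith
  · linarith
  · nlinarith

theorem main_acute (a b c : ℝ) (ha : 0 < a) (hb : 0 < b) (hc : 0 < c) (h1 : a < b + c)
    (h2 : b < c + a) (h3 : c ^ 2 < a ^ 2 + b ^ 2) :
    ∃ V : Set E3, V.Finite ∧ (interior (convexHull ℝ V)).Nonempty ∧
      ∀ F : Set E3, IsExposed ℝ (convexHull ℝ V) F → Module.finrank ℝ (vectorSpan ℝ F) = 2 →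
        ∃ X Y Z : E3, F = convexHull ℝ {X, Y, Z} ∧ dist Y Z = a ∧ dist Z X = b ∧ dist X Y = c := by
  obtain ⟨r, p, q, hr, hp, hq, e1, e2, e3⟩ := params a b c ha hb hc h1 h2 h3
  refine ⟨V r ((p + q) / 2) ((q - p) / 2), by simp [V], ?_, fun F hF hdim => ?_⟩
  · rw [interior_convexHull_nonempty_iff_affineSpan_eq_top]
    exact span_top _ _ _ hr (by linarith)
  · obtain ⟨s, t, u, rfl⟩ := faces _ _ _ hr (by linarith) (by linarith) F hF hdim
    cases s
    · refine ⟨U r ((q - p) / 2) t, D r ((q - p) / 2) u, A ((p + q) / 2) false, ?_, ?_, ?_, ?_⟩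
      · congr 1; ext; simp only [Set.mem_insert_iff, Set.mem_singleton_iff]; tauto
      · apply dist3 _ _ _ ha.le
        cases u <;> simp [A, D] <;> linarith
      · apply dist3 _ _ _ hb.le
        cases t <;> simp [A, U] <;> linarith
      · apply dist3 _ _ _ hc.le
        cases t <;> cases u <;> simp [U, D] <;> linarith
    · refine ⟨D r ((q - p) / 2) u, U r ((q - p) / 2) t, A ((p + q) / 2) true, ?_, ?_, ?_, ?_⟩
      · congr 1; ext; simp only [Set.mem_insert_iff, Set.mem_singleton_iff]; tauto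
      · apply dist3 _ _ _ ha.le
        cases t <;> simp [A, U] <;> linarith
      · apply dist3 _ _ _ hb.le
        cases u <;> simp [A, D] <;> linarith
      · apply dist3 _ _ _ hc.le
        cases t <;> cases u <;> simp [U, D] <;> linarith

theorem main (a b c : ℝ) (ha : 0 < a) (hb : 0 < b) (hc : 0 < c) (h1 : a < b + c)
    (h2 : b < c + a) (h3 : c < a + b) :
    ∃ V : Set E3, V.Finite ∧ (interior (convexHull ℝ V)).Nonempty ∧
      ∀ F : Set E3, IsExposed ℝ (convexHull ℝ V) F → Module.finrank ℝ (vectorSpan ℝ F) = 2 →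
        ∃ X Y Z : E3, F = convexHull ℝ {X, Y, Z} ∧ dist Y Z = a ∧ dist Z X = b ∧ dist X Y = c := by
  by_cases h : c ^ 2 < a ^ 2 + b ^ 2
  · exact main_acute a b c ha hb hc h1 h2 h
  · obtain ⟨V, hV, hint, hF⟩ := main_acute b c a hb hc ha h2 h3 (by nlinarith)
    refine ⟨V, hV, hint, fun F h4 h5 => ?_⟩
    obtain ⟨X, Y, Z, rfl, e1, e2, e3⟩ := hF F h4 h5
    refine ⟨Z, X, Y, ?_, e3, e1, e2⟩
    congr 1; ext; simp only [Set.mem_insert_iff, Set.mem_singleton_iff]; tauto

end Pool.Agent.H10.Scaleno
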