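import Pool.Agent.H10.SdDefs

namespace Pool.Agent.H10.Sd

open Finset Pointwise

lemma core (n L m σ β : ℕ) (a : ℕ → ℕ) (hL : 0 < L) (ha : ∀ i ∈ Icc 1 n, a i ≤ L)
    (hm : 4 * m * L ≤ n) (hK : (Nat.log 2 (2 * L) + 1) * (3 * β + 3) ≤ m)
    (hS : (S n a).card < σ * (β + 1)) : L * L ≤ 2 * σ ^ 3 := by
  classical
  let W : ℕ → Finset ℕ := fun s => Ioc (4 * s * L) (4 * s * L + L)
  let B : ℕ → Finset ℤ := fun s => (W s).image (fun i => (a i : ℤ) - i)
  let D : ℕ → Finset ℤ := fun s => (W s).image (fun i => (a i : ℤ) + i)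
  have hW : ∀ s < m, ∀ i ∈ W s, i ∈ Icc 1 n := by
    intro s hs i hi
    have h1 := mem_Ioc.mp hi
    have h2 : 4 * (s + 1) * L ≤ 4 * m * L := Nat.mul_le_mul_right _ (by omega)
    have h3 : 4 * (s + 1) * L = 4 * s * L + 4 * L := by ring
    rw [mem_Icc]
    omega
  let φ : ℤ → ℕ := fun x => ((x + L) / (4 * L)).toNat
  let w : ℕ → ℕ := fun g => ((S n a).filter (fun x => φ x = g)).card
  have hsub : ∀ s t, s < t → t < m → (B s + D t).card ≤ w (t - s) := by
    intro s t hst ht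
    refine card_le_card fun x hx => ?_
    obtain ⟨_, hb, _, hd, rfl⟩ := mem_add.mp hx
    obtain ⟨i, hi, rfl⟩ := mem_image.mp hb
    obtain ⟨j, hj, rfl⟩ := mem_image.mp hd
    have hi' := hW s (by omega) i hi
    have hj' := hW t ht j hj
    have h1 := mem_Ioc.mp hi
    have h2 := mem_Ioc.mp hj
    obtain ⟨g, rfl⟩ := Nat.exists_eq_add_of_lt hst
    have h3 : 4 * (s + g + 1) * L = 4 * s * L + (g + 1) * (4 * L) := by ring
    have h4 : 1 * (4 * L) ≤ (g + 1) * (4 * L) := Nat.mul_le_mul_right _ (by omega)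
    have a1 := ha i hi'
    have a2 := ha j hj'
    refine mem_filter.mpr ⟨mem_image.mpr ⟨(i, j), mem_filter.mpr ⟨mem_product.mpr ⟨hi', hj'⟩,
      by simp only; omega⟩, by simp only; ring⟩, ?_⟩
    have h5 : ((a i : ℤ) - i + (a j + j) + L) / (4 * L) = (g + 1 : ℕ) := by
      have h6 : (((g + 1) * (4 * L) : ℕ) : ℤ) = (g + 1 : ℕ) * (4 * L) := by push_cast; ring
      rw [Int.ediv_eq_iff_of_pos (by omega), ← h6]
      omega
    simp only [φ, h5]
    omega
  let bad := (range m).filter (fun g => σ < w g)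
  have hbad : bad.card ≤ β := by
    have h1 : ∑ g ∈ bad, w g ≤ (S n a).card := by
      have := sum_card_fiberwise_eq_card_filter (S n a) bad φ
      simp only [w]
      rw [this]
      exact card_filter_le _ _
    have h2 : bad.card * σ ≤ ∑ g ∈ bad, w g :=
      card_nsmul_le_sum _ _ _ fun g hg => (mem_filter.mp hg).2.le
    by_contra hc
    have : (β + 1) * σ ≤ bad.card * σ := Nat.mul_le_mul_right _ (by omega)
    rw [mul_comm] at hS
    omega
  have hgood : ∀ s t, s < t → t < m → t - s ∉ bad → (B s + D t).card ≤ σ := by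
    intro s t hst ht hb
    refine (hsub s t hst ht).trans (not_lt.mp fun h => hb (mem_filter.mpr ⟨?_, h⟩))
    rw [mem_range]
    omega
  have hWc : ∀ s, (W s).card = L := fun s => by simp [W]
  have hBD : ∀ s, L ≤ (D s - B s).card := by
    intro s
    rw [← hWc s]
    refine card_le_card_of_injOn (fun i => (2 * i : ℤ)) (fun i hi => ?_) (fun i _ j _ h => ?_)
    · exact mem_coe.mpr (mem_sub.mpr ⟨_, mem_image_of_mem _ hi, _, mem_image_of_mem _ hi, by ring⟩)
    · simp only at h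
      omega
  obtain ⟨κ, -, hκ⟩ := exists_le_card_fiber_of_mul_le_card_of_maps_to (s := range m)
    (t := range (Nat.log 2 (2 * L) + 1)) (f := fun s => Nat.log 2 (B s).card) (n := 3 * β + 3)
    (fun s _ => mem_range.mpr (Nat.lt_succ_of_le (Nat.log_mono_right
      (card_image_le.trans (by rw [hWc]; omega))))) (by simp) (by simpa using hK)
  set R := (range m).filter (fun s => Nat.log 2 (B s).card = κ) with hR
  have hRne : R.Nonempty := card_pos.mp (by omega)
  obtain ⟨r, hr, hmin⟩ := exists_min_image R id hRne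
  have h1 : ∃ t ∈ R, r + 2 * β + 2 ≤ t ∧ t - r ∉ bad := by
    by_contra hc
    push Not at hc
    have : R ⊆ Ico r (r + 2 * β + 2) ∪ bad.image (fun g => g + r) := by
      intro t ht
      have h2 : r ≤ t := hmin t ht
      by_cases h3 : r + 2 * β + 2 ≤ t
      · exact mem_union_right _ (mem_image.mpr ⟨t - r, hc t ht h3, by omega⟩)
      · exact mem_union_left _ (mem_Ico.mpr ⟨h2, by omega⟩)
    have h4 := (card_le_card this).trans (card_union_le _ _)
    have h5 := card_image_le (s := bad) (f := fun g => g + r)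
    rw [Nat.card_Ico] at h4
    omega
  obtain ⟨t, ht, hrt, hg1⟩ := h1
  have h2 : ∃ s ∈ Ioo r t, s - r ∉ bad ∧ t - s ∉ bad := by
    by_contra hc
    push Not at hc
    have : Ioo r t ⊆ bad.image (fun g => g + r) ∪ bad.image (fun g => t - g) := by
      intro s hs
      have h2 := mem_Ioo.mp hs
      by_cases h3 : s - r ∈ bad
      · exact mem_union_left _ (mem_image.mpr ⟨s - r, h3, by omega⟩)
      · exact mem_union_right _ (mem_image.mpr ⟨t - s, hc s hs h3, by omega⟩)
    have h4 := (card_le_card this).trans (card_union_le _ _)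
    have h5 := card_image_le (s := bad) (f := fun g => g + r)
    have h6 := card_image_le (s := bad) (f := fun g => t - g)
    rw [Nat.card_Ioo] at h4
    omega
  obtain ⟨s, hs, hg2, hg3⟩ := h2
  have hs' := mem_Ioo.mp hs
  have htm : t < m := mem_range.mp (mem_filter.mp ht).1
  have e1 := hgood r t (by omega) htm hg1
  have e2 := hgood r s hs'.1 (by omega) hg2
  have e3 := hgood s t hs'.2 htm hg3
  have r1 := ruzsa_triangle_inequality_sub_add_add (D s) (D t) (B s)
  have r2 := ruzsa_triangle_inequality_add_add_add (D s) (B r) (D t)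
  rw [add_comm (D s) (B r)] at r2
  have r3 : L ≤ (D t).card * (B t).card := (hBD t).trans card_sub_le
  have r4 : (B t).card ≤ 2 * (B r).card := by
    have b1 := Nat.lt_pow_succ_log_self (by norm_num : 1 < 2) (B t).card
    have b0 : (B r).card ≠ 0 := by
      have := (hBD r).trans card_sub_le
      intro h
      rw [h] at this
      omega
    have b2 := Nat.pow_log_le_self 2 b0
    rw [(mem_filter.mp ht).2] at b1
    rw [(mem_filter.mp hr).2] at b2
    rw [pow_succ] at b1
    omega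
  calc L * L ≤ (D s - B s).card * ((D t).card * (2 * (B r).card)) :=
        Nat.mul_le_mul (hBD s) (r3.trans (Nat.mul_le_mul_left _ r4))
    _ = 2 * ((D s - B s).card * (D t).card * (B r).card) := by ring
    _ ≤ 2 * ((D s + D t).card * (B s + D t).card * (B r).card) := by gcongr
    _ = 2 * ((D s + D t).card * (B r).card * (B s + D t).card) := by ring
    _ ≤ 2 * ((B r + D s).card * (B r + D t).card * (B s + D t).card) := by gcongr
    _ ≤ 2 * (σ * σ * σ) := by gcongr
    _ = _ := by ring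

lemma core2 (n q : ℕ) (a : ℕ → ℕ) (hq : 1 ≤ q) (ha : ∀ i ∈ Icc 1 n, a i ≤ 8 * q ^ 3)
    (hn : 4 * ((Nat.log 2 (2 * (8 * q ^ 3)) + 1) * (3 * (8 * q) + 3)) * (8 * q ^ 3) ≤ n) :
    8 * q ^ 3 ≤ (S n a).card := by
  by_contra hc
  have := core n (8 * q ^ 3) _ (q ^ 2) (8 * q) a (by positivity) ha hn le_rfl
    (by nlinarith [pow_pos (show 0 < q by omega) 2])
  have h1 : 0 < q ^ 6 := by positivity
  nlinarith

theorem lower (c : ℝ) (hc0 : 0 ≤ c) (hc : c < 3 / 4) : P c := by
  have hε : 0 < 3 - 4 * c := by linarith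
  have hθ : 0 < 1 - (4 + (3 - 4 * c)) * (c / 3) := by nlinarith
  have h1 := ((tendsto_rpow_atTop hθ).comp tendsto_natCast_atTop_atTop).eventually_ge_atTop
    ((4 * (5 + 6 / (3 - 4 * c)) * 27 * 8) * 2 ^ (4 + (3 - 4 * c)))
  obtain ⟨n0, hn0⟩ := Filter.eventually_atTop.mp h1
  refine ⟨1, one_pos, n0 + 1, fun n hn a ha => ?_⟩
  have hn1 : (1 : ℝ) ≤ n := by exact_mod_cast (by omega : 1 ≤ n)
  have h2 := hn0 n (by omega)
  simp only [Function.comp] at h2
  set y := (n : ℝ) ^ (c / 3) with hy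
  have hy1 : 1 ≤ y := Real.one_le_rpow hn1 (by linarith)
  have hy3 : (n : ℝ) ^ c = y ^ 3 := by
    rw [hy, ← Real.rpow_natCast, ← Real.rpow_mul (by linarith)]
    congr 1
    push_cast
    ring
  set q := ⌈y⌉₊ with hq
  have hq1 : y ≤ q := Nat.le_ceil y
  have hq2 : (q : ℝ) ≤ 2 * y := by linarith [Nat.ceil_lt_add_one (by linarith : 0 ≤ y)]
  have hq3 : (1 : ℝ) ≤ q := hy1.trans hq1
  have hq4 : 1 ≤ q := by exact_mod_cast hq3
  have h3 : y ^ 3 ≤ ((8 * q ^ 3 : ℕ) : ℝ) := by
    push_cast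
    have : y ^ 3 ≤ (q : ℝ) ^ 3 := by gcongr
    nlinarith [pow_pos (by linarith : (0 : ℝ) < q) 3]
  have h4 := core2 n q a hq4 (fun i hi => by exact_mod_cast ((ha i hi).trans (hy3 ▸ h3))) (by
    have l1 : (Nat.log 2 (2 * (8 * q ^ 3)) : ℝ) ≤ 4 + 6 * Real.log q := by
      refine (Real.natLog_le_logb _ 2).trans ?_
      have l2 : (1 : ℝ) / 2 < Real.log 2 := by linarith [Real.log_two_gt_d9]
      push_cast
      rw [Real.logb, div_le_iff₀ (by linarith), show (2 : ℝ) * (8 * q ^ 3) = 2 ^ 4 * q ^ 3 by ring,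
        Real.log_mul (by positivity) (by positivity), Real.log_pow, Real.log_pow]
      have := Real.log_nonneg hq3
      push_cast
      nlinarith
    have l2 := Real.log_le_rpow_div (by linarith : (0 : ℝ) ≤ q) hε
    have l3 : 1 ≤ (q : ℝ) ^ (3 - 4 * c) := Real.one_le_rpow hq3 hε.le
    have l4 : (Nat.log 2 (2 * (8 * q ^ 3)) : ℝ) + 1 ≤ (5 + 6 / (3 - 4 * c)) * q ^ (3 - 4 * c) := by
      have : (5 + 6 / (3 - 4 * c)) * (q : ℝ) ^ (3 - 4 * c) =
        5 * q ^ (3 - 4 * c) + 6 * (q ^ (3 - 4 * c) / (3 - 4 * c)) := by ring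
      linarith
    have l5 : (q : ℝ) ^ (4 + (3 - 4 * c)) ≤ 2 ^ (4 + (3 - 4 * c)) *
        n ^ ((4 + (3 - 4 * c)) * (c / 3)) := by
      rw [mul_comm (4 + (3 - 4 * c)) (c / 3), Real.rpow_mul (by linarith), ← hy,
        ← Real.mul_rpow (by norm_num) (by linarith)]
      exact Real.rpow_le_rpow (by linarith) hq2 (by linarith)
    have l6 : (n : ℝ) ^ (1 - (4 + (3 - 4 * c)) * (c / 3)) * n ^ ((4 + (3 - 4 * c)) * (c / 3)) = n := by
      rw [← Real.rpow_add (by linarith)]
      simp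
    have l7 : (q : ℝ) ^ (4 + (3 - 4 * c)) = q ^ (3 - 4 * c) * q * q ^ 3 := by
      rw [Real.rpow_add (by linarith), show (4 : ℝ) = (4 : ℕ) by norm_num, Real.rpow_natCast]
      ring
    have l8 : (4 : ℝ) * (((Nat.log 2 (2 * (8 * q ^ 3)) : ℝ) + 1) * (3 * (8 * q) + 3)) * (8 * q ^ 3)
        ≤ n := by
      calc _ ≤ (4 : ℝ) * (((5 + 6 / (3 - 4 * c)) * q ^ (3 - 4 * c)) * (27 * q)) * (8 * q ^ 3) := by
            gcongr
            linarith
        _ = (4 * (5 + 6 / (3 - 4 * c)) * 27 * 8) * (q : ℝ) ^ (4 + (3 - 4 * c)) := by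
            rw [l7]; ring
        _ ≤ (4 * (5 + 6 / (3 - 4 * c)) * 27 * 8) * (2 ^ (4 + (3 - 4 * c)) *
            n ^ ((4 + (3 - 4 * c)) * (c / 3))) := by gcongr
        _ ≤ _ := by
            rw [← mul_assoc, ← l6]
            conv_lhs => rw [l6]
            gcongr
    exact_mod_cast l8)
  rw [one_mul, hy3]
  exact h3.trans (by exact_mod_cast h4)

end Pool.Agent.H10.Sd
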