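import Pool.Agent.H10.SdDefs

namespace Pool.Agent.H10.Sd

open Finset

def dx : Fin 31 → ℕ := ![0, 0, 1, 0, 8, 3, 12, 1, 0, 3, 8, 1, 0, 18, 18, 3, 18, 1, 0, 12, 12, 18,
  12, 8, 8, 18, 8, 12, 3, 3, 1]
def dy : Fin 31 → ℕ := ![0, 1, 3, 3, 12, 8, 18, 8, 8, 12, 18, 12, 12, 0, 1, 18, 3, 18, 18, 0, 1,
  8, 3, 0, 1, 12, 3, 8, 0, 1, 0]
def T0 : Finset ℕ := {0, 1, 2, 3, 4, 6, 8, 9, 11, 12, 13, 15, 16, 18, 19, 20, 21, 24, 26, 30, 36}

lemma d1 : ∀ r : Fin 31, (dx r + r) % 31 = dy r ∧ dx r ≤ 18 ∧ dy r ≤ 18 := by decide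
lemma d2 : ∀ r s : Fin 31, dx r + dy s ∈ T0 := by decide +kernel
lemma d3 : T0.card = 21 := by decide

lemma digits (K : ℕ) : ∃ T : Finset ℕ, T.card ≤ 21 ^ K ∧ ∃ (X Y : ℤ → ℕ) (H : ℤ → ℤ),
    (∀ i, X i < 31 ^ K ∧ Y i < 31 ^ K ∧ i = Y i - X i + 31 ^ K * H i) ∧
      ∀ i j, X i + Y j ∈ T := by
  induction K with
  | zero => exact ⟨{0}, by simp, fun _ => 0, fun _ => 0, id, by simp, by simp⟩
  | succ K ih =>
    obtain ⟨T, hT, X, Y, H, h1, h2⟩ := ih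
    have h0 : ∀ i : ℤ, ∃ r : Fin 31, ∃ h : ℤ, i = dy r - dx r + 31 * h := by
      intro i
      have hr := d1 ⟨(i % 31).toNat, by omega⟩
      refine ⟨⟨(i % 31).toNat, by omega⟩, (i - dy ⟨(i % 31).toNat, by omega⟩ +
        dx ⟨(i % 31).toNat, by omega⟩) / 31, ?_⟩
      simp only at hr
      omega
    choose r h hh using h0
    refine ⟨image₂ (fun u v => u + 31 * v) T0 T, (card_image₂_le _ _ _).trans (by
      rw [d3, pow_succ']; exact Nat.mul_le_mul_left _ hT), fun i => dx (r i) + 31 * X (h i),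
      fun i => dy (r i) + 31 * Y (h i), fun i => H (h i), fun i => ?_, fun i j => ?_⟩
    · obtain ⟨a1, a2, a3⟩ := h1 (h i)
      obtain ⟨-, b1, b2⟩ := d1 (r i)
      refine ⟨by simp only [pow_succ]; omega, by simp only [pow_succ]; omega, ?_⟩
      push_cast
      linear_combination hh i + 31 * a3
    · exact mem_image₂.mpr ⟨_, d2 (r i) (r j), _, h2 (h i) (h j), by ring⟩

lemma small (K Q : ℕ) : ∃ a : ℕ → ℕ, (∀ i, a i ≤ 2 * 31 ^ K) ∧
    (S (31 ^ K * Q) a).card ≤ 21 ^ K * (2 * Q + 1) := by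
  obtain ⟨T, hT, X, Y, H, h1, h2⟩ := digits K
  refine ⟨fun i => X i + Y i, fun i => by have := h1 i; simp only; omega, ?_⟩
  have hH : ∀ i ∈ Icc 1 (31 ^ K * Q), 0 ≤ H i ∧ H i ≤ Q := by
    intro i hi
    obtain ⟨a1, a2, a3⟩ := h1 i
    obtain ⟨b1, b2⟩ := mem_Icc.mp hi
    have c1 : (X i : ℤ) < 31 ^ K := by exact_mod_cast a1
    have c2 : (Y i : ℤ) < 31 ^ K := by exact_mod_cast a2
    have c3 : (i : ℤ) ≤ 31 ^ K * Q := by exact_mod_cast b2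
    have c4 : (0 : ℤ) < 31 ^ K := by positivity
    constructor
    · by_contra hc
      have : (31 : ℤ) ^ K * H i ≤ 31 ^ K * (-1) := by gcongr; omega
      omega
    · by_contra hc
      have : (31 : ℤ) ^ K * (Q + 1) ≤ 31 ^ K * H i := by gcongr; omega
      rw [mul_add] at this
      omega
  have h3 : S (31 ^ K * Q) (fun i => X i + Y i) ⊆
      image₂ (fun (u : ℕ) (v : ℤ) => 2 * (u : ℤ) + 31 ^ K * v) T (Icc (-Q) Q) := by
    intro x hx
    obtain ⟨⟨i, j⟩, hp, rfl⟩ := mem_image.mp hx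
    obtain ⟨hi, hj⟩ := mem_product.mp (mem_filter.mp hp).1
    have e1 := hH i hi
    have e2 := hH j hj
    refine mem_image₂.mpr ⟨_, h2 i j, H j - H i, mem_Icc.mpr ⟨by omega, by omega⟩, ?_⟩
    push_cast
    linear_combination (h1 i).2.2 - (h1 j).2.2
  refine (card_le_card h3).trans ((card_image₂_le _ _ _).trans (Nat.mul_le_mul hT ?_))
  simp only [Int.card_Icc]
  omega

theorem upper (c : ℝ) (hc : 9 / 10 ≤ c) : ¬ P c := by
  rintro ⟨δ, hδ, n0, h⟩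
  have h1 := (tendsto_pow_atTop_nhds_zero_of_lt_one (r := (21 ^ 9 / 31 ^ 8 : ℝ)) (by positivity)
    (by norm_num)).eventually (gt_mem_nhds (show (0 : ℝ) < δ / (3 * 31 ^ 2) by positivity))
  obtain ⟨k, hk, hk0⟩ := (h1.and (Filter.eventually_ge_atTop n0)).exists
  obtain ⟨a, ha, hS⟩ := small (9 * k + 8) (31 ^ (k + 2))
  have hn : 31 ^ (9 * k + 8) * 31 ^ (k + 2) = 31 ^ (10 * (k + 1)) := by ring
  rw [hn] at hS
  have h2 : ((31 : ℝ) ^ (9 * (k + 1))) ≤ ((31 ^ (10 * (k + 1)) : ℕ) : ℝ) ^ c := by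
    have h3 : ((31 : ℝ) ^ (9 * (k + 1))) = ((31 ^ (10 * (k + 1)) : ℕ) : ℝ) ^ (9 / 10 : ℝ) := by
      push_cast
      rw [← Real.rpow_natCast, ← Real.rpow_natCast, ← Real.rpow_mul (by norm_num)]
      congr 1
      push_cast
      ring
    rw [h3]
    exact Real.rpow_le_rpow_of_exponent_le (by exact_mod_cast Nat.one_le_pow _ _ (by norm_num)) hc
  have h3 := h (31 ^ (10 * (k + 1))) (by
    have := Nat.lt_pow_self (n := 10 * (k + 1)) (by norm_num : 1 < 31)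
    omega) a (fun i _ => le_trans (by
      have h4 : a i ≤ 31 ^ (9 * (k + 1)) := (ha i).trans (by
        rw [show 9 * (k + 1) = 9 * k + 8 + 1 by ring, pow_succ 31 (9 * k + 8)]
        generalize 31 ^ (9 * k + 8) = z
        omega)
      exact_mod_cast h4) h2)
  have h4 : ((S (31 ^ (10 * (k + 1))) a).card : ℝ) ≤ 21 ^ (9 * k + 8) * (3 * 31 ^ (k + 2)) := by
    have : 2 * 31 ^ (k + 2) + 1 ≤ 3 * 31 ^ (k + 2) := by
      have : 0 < 31 ^ (k + 2) := by positivity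
      omega
    exact_mod_cast hS.trans (Nat.mul_le_mul_left _ this)
  have h5 : δ * 31 ^ (9 * (k + 1)) ≤ 21 ^ (9 * k + 8) * (3 * 31 ^ (k + 2)) :=
    le_trans (by gcongr) (h3.trans h4)
  rw [div_pow, div_lt_div_iff₀ (by positivity) (by positivity)] at hk
  have e1 : (31 : ℝ) ^ (9 * (k + 1)) = (31 ^ 8) ^ k * (31 ^ k * 31 ^ 9) := by
    rw [← pow_mul]; ring
  have e2 : (21 : ℝ) ^ (9 * k + 8) * (3 * 31 ^ (k + 2)) =
    (21 ^ 9) ^ k * (3 * 31 ^ 2) * (31 ^ k * 21 ^ 8) := by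
    rw [← pow_mul]; ring
  rw [e1, e2, ← mul_assoc] at h5
  have h6 : (21 ^ 9 : ℝ) ^ k * (3 * 31 ^ 2) * (31 ^ k * 21 ^ 8) <
      δ * (31 ^ 8) ^ k * (31 ^ k * 31 ^ 9) := by
    refine mul_lt_mul hk ?_ (by positivity) (by positivity)
    gcongr
    norm_num
  linarith

end Pool.Agent.H10.Sd
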