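import Mathlib

namespace Pool.Agent.H10.Sd

open Finset

/-- `S(a) = {a_i + a_j + (j - i) : 1 ≤ i < j ≤ n}`. -/
def S (n : ℕ) (a : ℕ → ℕ) : Finset ℤ :=
  ((Icc 1 n ×ˢ Icc 1 n).filter (fun p => p.1 < p.2)).image
    (fun p => (a p.1 : ℤ) + a p.2 + ((p.2 : ℤ) - p.1))

/-- Property `P(c)`. -/
def P (c : ℝ) : Prop :=
  ∃ δ : ℝ, 0 < δ ∧ ∃ n0 : ℕ, ∀ n ≥ n0, ∀ a : ℕ → ℕ, (∀ i ∈ Icc 1 n, (a i : ℝ) ≤ (n : ℝ) ^ c) →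
    δ * (n : ℝ) ^ c ≤ (S n a).card

/-- The exponent `c'`. -/
noncomputable def cPrime : ℝ := sSup {c | c ∈ Set.Icc (0 : ℝ) 1 ∧ P c}

end Pool.Agent.H10.Sd
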