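import Mathlib

set_option autoImplicit false

namespace Pool.Agent.H10.Sgd
open Finset

variable {V : Type} [Fintype V] (G : SimpleGraph V) [DecidableRel G.Adj]

/-- signed dominating function -/
def SDF (f : V → ℤ) : Prop :=
  (∀ v, f v = 1 ∨ f v = -1) ∧ ∀ v, 1 ≤ f v + ∑ u ∈ G.neighborFinset v, f u

/-- minimal signed dominating function -/
def MinSDF (f : V → ℤ) : Prop := SDF G f ∧ ∀ g, SDF G g → (∀ v, g v ≤ f v) → g = f

/-- signed domination number -/
noncomputable def lowS : ℤ := sInf {w | ∃ f, SDF G f ∧ ∑ v, f v = w}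

/-- upper signed domination number -/
noncomputable def upS : ℤ := sSup {w | ∃ f, MinSDF G f ∧ ∑ v, f v = w}

end Pool.Agent.H10.Sgd
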