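import Mathlib
import Pool.Agent.H10.SgdDefs

set_option autoImplicit false

namespace Pool.Agent.H10.Sgd
open Finset

def F : Fin 8 → ℤ := ![1, 1, 1, 1, -1, -1, -1, -1]
def H : Fin 8 → ℤ := ![1, 1, -1, -1, 1, 1, -1, -1]
def T : Fin 8 → ℤ := ![0, 1, 0, 1, 0, 1, 0, 1]
def W : Fin 8 → Fin 8 → ℤ := ![![-8, -4, -10, -10, -16, -16, -28, -12],
  ![-8, -4, 2, -10, -16, -16, -28, -12], ![-8, -20, -26, -38, -20, -20, -28, -40],
  ![-8, -20, -14, -38, -20, -20, -28, -40], ![-16, -2, -26, 2, -16, -16, -44, -28],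
  ![-16, -2, -14, 2, -16, -16, -44, -28], ![-16, -8, -26, -26, -20, -20, -44, -28],
  ![-16, -8, -14, -26, -20, -20, -44, -28]]

def Ok (t : Fin 8) (a b k : ℤ) : Prop := 1 ≤ F t + a ∧ 1 ≤ H t + b ∧ (T t = 1 ↔ F t + a ≤ 2) ∧
  (F t = 1 → 1 ≤ T t + k)

lemma key (t : Fin 8) (c : Fin 8 → ℕ) :
    (Ok t (∑ i, c i * F i) (∑ i, c i * H i) (∑ i, c i * T i) →
      7 * (F t - H t) - 4 + ∑ i, c i * W t i ≤ -4) ∧
    ∀ s, Ok t (∑ i, c i * F i + F s) (∑ i, c i * H i + H s) (∑ i, c i * T i + T s) →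
      7 * (F t - H t) - 4 + ∑ i, c i * W t i ≤ W s t := by
  refine ⟨?_, fun s => ?_⟩
  · fin_cases t <;> simp [Ok, Fin.sum_univ_eight, F, H, T, W] <;> omega
  · fin_cases t <;> fin_cases s <;> simp [Ok, Fin.sum_univ_eight, F, H, T, W] <;> omega

variable {V : Type} [Fintype V] {G : SimpleGraph V} [DecidableRel G.Adj]

lemma parent [DecidableEq V] (h : G.IsTree) (r : V) : ∃ p : V → V, ∀ (v : V) (φ : V → ℤ),
    ∑ u ∈ G.neighborFinset v, φ u =
      ∑ u ∈ univ.erase r with p u = v, φ u + if v = r then 0 else φ (p v) := by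
  have : ∀ v, ∃ u, v ≠ r → G.Adj v u ∧ G.dist u r < G.dist v r := fun v => by
    obtain ⟨w, hw⟩ := h.connected.exists_walk_length_eq_dist v r
    cases w with
    | nil => exact ⟨r, by simp⟩
    | cons a w => exact ⟨_, fun _ => ⟨a, (G.dist_le w).trans_lt (by simp [← hw])⟩⟩
  choose p hp using this
  have sj := surjOn_of_injOn_of_card_le (s := univ.erase r) (t := G.edgeFinset) (fun v => s(v, p v))
    (fun v e => by simpa using (hp v (by simpa using e)).1) (fun u a v b e => by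
      have := hp u (by simpa using a)
      have := hp v (by simpa using b)
      simp only [Sym2.eq_iff] at e
      grind) (by have := h.card_edgeFinset; simp; omega)
  refine ⟨p, fun v φ => ?_⟩
  have m : ∀ u, G.Adj v u ↔ (u ≠ r ∧ p u = v) ∨ (v ≠ r ∧ u = p v) := fun u => ⟨fun a => by
    obtain ⟨x, x1, x2⟩ := sj (show s(v, u) ∈ (G.edgeFinset : Set _) by simpa)
    simp only [Sym2.eq_iff, coe_erase, coe_univ, Set.mem_diff, Set.mem_singleton_iff] at x1 x2
    grind, by rintro (⟨a, rfl⟩ | ⟨a, rfl⟩); exacts [(hp u a).1.symm, (hp v a).1]⟩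
  split_ifs with e
  · rw [add_zero]; congr 1; ext; subst e; simp [m]
  · rw [add_comm, ← sum_insert (by have := hp v e; have := hp (p v); simp; grind)]
    congr 1; ext; simp [m, e, or_comm]

lemma main (h : G.IsTree) {f g : V → ℤ} (hf : MinSDF G f) (hg : SDF G g) :
    7 * (∑ v, f v - ∑ v, g v) ≤ 4 * Fintype.card V - 4 := by
  classical
  obtain ⟨r⟩ := h.connected.nonempty
  obtain ⟨p, hp⟩ := parent h r
  have : ∀ v, ∃ i, F i = f v ∧ H i = g v ∧
      T i = if f v + ∑ u ∈ G.neighborFinset v, f u ≤ 2 then 1 else 0 := fun v => by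
    rcases hf.1.1 v with a | a <;> rcases hg.1 v with b | b <;> split_ifs <;> rw [a, b] <;> decide
  choose τ t1 t2 t3 using this
  have ok : ∀ v, Ok (τ v) (∑ u ∈ G.neighborFinset v, F (τ u)) (∑ u ∈ G.neighborFinset v, H (τ u))
      (∑ u ∈ G.neighborFinset v, T (τ u)) := fun v => by
    simp only [Ok, t1, t2]
    refine ⟨hf.1.2 v, hg.2 v, by simp [t3], fun e => not_lt.1 fun l => ?_⟩
    have T0 : ∀ i, 0 ≤ T i := by decide
    have := hf.2 (fun u => f u - if u = v then 2 else 0) ⟨fun u => by have := hf.1.1 u; grind,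
      fun u => ?_⟩ (by grind)
    · simpa using congrFun this v
    have a := hf.1.2 u
    have b := t3 u
    have c := T0 (τ v)
    have d := sum_nonneg (s := G.neighborFinset v) fun u _ => T0 (τ u)
    have e := single_le_sum (s := G.neighborFinset v) (fun u _ => T0 (τ u)) (a := u)
    simp only [sum_sub_distrib, sum_ite_eq', SimpleGraph.mem_neighborFinset, G.adj_comm u] at e ⊢
    have := G.irrefl (v := v)
    grind
  have st : ∀ v, 7 * (f v - g v) - 4 + ∑ u ∈ univ.erase r with p u = v, W (τ (p u)) (τ u) ≤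
      if v = r then -4 else W (τ (p v)) (τ v) := fun v => by
    have c : ∀ φ : Fin 8 → ℤ, ∑ u ∈ univ.erase r with p u = v, φ (τ u) =
        ∑ i, (#{u ∈ {u ∈ univ.erase r | p u = v} | τ u = i} : ℕ) * φ i := fun φ => by
      rw [← sum_fiberwise' _ τ]; simp
    have o := ok v
    rw [sum_congr rfl fun u e => by rw [(mem_filter.1 e).2], ← t1, ← t2]
    simp only [hp, c] at o ⊢
    split_ifs at o ⊢
    exacts [(key _ _).1 (by simpa using o), (key _ _).2 _ o]
  have := sum_le_sum fun v (_ : v ∈ univ) => st v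
  rw [sum_add_distrib, sum_fiberwise (univ.erase r) p fun u => W (τ (p u)) (τ u), ← add_sum_erase _ (fun v => ite _ _ _) (mem_univ r),
    if_pos rfl, sum_congr rfl fun v e => if_neg (mem_erase.1 e).1] at this
  simp only [sum_sub_distrib, ← mul_sum, sum_const, card_univ, nsmul_eq_mul] at this
  linarith

end Pool.Agent.H10.Sgd
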