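import Mathlib

set_option autoImplicit false

namespace Pool.Agent.H10.Skeleton

open scoped InnerProductSpace
open Finset

variable {ι : Type} [Fintype ι] [DecidableEq ι] {E : Type} [NormedAddCommGroup E]
  [InnerProductSpace ℝ E]

noncomputable def y (v : ι → E) (a : ι → ℝ) : E := ∑ i, a i • v i

def D (T : Finset ι) : Set (ι → ℝ) :=
  {a | (∀ i, 0 ≤ a i) ∧ (∀ i, i ∉ T → a i = 0) ∧ ∑ i, a i = 1}

noncomputable def Q (v : ι → E) (a : ι → ℝ) : ℝ := ∑ i, a i * ‖v i‖ ^ 2 - ‖y v a‖ ^ 2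

noncomputable def F (v : ι → E) (l : ι → ℝ) (a : ι → ℝ) : ℝ := ‖y v a‖ ^ 2 + ∑ i, l i * a i

omit [DecidableEq ι] in
lemma y_add (v : ι → E) (a b : ι → ℝ) : y v (a + b) = y v a + y v b := by
  simp [y, add_smul, sum_add_distrib]

omit [DecidableEq ι] in
lemma y_sub (v : ι → E) (a b : ι → ℝ) : y v (a - b) = y v a - y v b := by
  simp [y, sub_smul, sum_sub_distrib]

omit [DecidableEq ι] in
lemma y_smul (v : ι → E) (c : ℝ) (a : ι → ℝ) : y v (c • a) = c • y v a := by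
  simp [y, smul_sum, mul_smul]

lemma y_single (v : ι → E) (i : ι) : y v (Pi.single i 1) = v i := by
  simp [y, Pi.single_apply, ite_smul]

omit [DecidableEq ι] in
lemma D_compact (T : Finset ι) : IsCompact (D T) := by
  apply (isCompact_stdSimplex ℝ ι).of_isClosed_subset
  · have : D T = (⋂ i, {a : ι → ℝ | 0 ≤ a i}) ∩ ((⋂ i, ⋂ (_ : i ∉ T), {a : ι → ℝ | a i = 0}) ∩
        {a : ι → ℝ | ∑ i, a i = 1}) := by
      ext a; simp [D]
    rw [this]
    refine IsClosed.inter (isClosed_iInter fun i => isClosed_le continuous_const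
      (continuous_apply i)) (IsClosed.inter (isClosed_iInter fun i => isClosed_iInter fun _ =>
        isClosed_eq (continuous_apply i) continuous_const) (isClosed_eq (by fun_prop)
          continuous_const))
  · intro a ha
    exact ⟨ha.1, ha.2.2⟩

omit [DecidableEq ι] in
lemma F_cont (v : ι → E) (l : ι → ℝ) : Continuous (F v l) := by
  unfold F y
  fun_prop

omit [DecidableEq ι] in
lemma Q_eq (v : ι → E) (a : ι → ℝ) (ha : ∑ i, a i = 1) (z : E) :
    ∑ i, a i * ‖v i - z‖ ^ 2 = Q v a + ‖y v a - z‖ ^ 2 := by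
  have h1 : ∀ i, a i * ‖v i - z‖ ^ 2 =
      a i * ‖v i‖ ^ 2 - 2 * ⟪a i • v i, z⟫_ℝ + a i * ‖z‖ ^ 2 := by
    intro i
    rw [norm_sub_sq_real, real_inner_smul_left]; ring
  simp only [h1, sum_add_distrib, sum_sub_distrib, ← mul_sum, ← sum_mul, ha, ← sum_inner]
  rw [norm_sub_sq_real]
  unfold Q y
  ring

omit [DecidableEq ι] in
lemma Q_nonneg (v : ι → E) (a : ι → ℝ) (h0 : ∀ i, 0 ≤ a i) (ha : ∑ i, a i = 1) : 0 ≤ Q v a := by
  have := Q_eq v a ha (y v a)
  simp only [sub_self, norm_zero] at this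
  have h2 : 0 ≤ ∑ i, a i * ‖v i - y v a‖ ^ 2 :=
    sum_nonneg fun i _ => mul_nonneg (h0 i) (sq_nonneg _)
  linarith

lemma lin_nonneg (L N e0 : ℝ) (he : 0 < e0) (hN : 0 ≤ N)
    (h : ∀ ε, 0 < ε → ε ≤ e0 → 0 ≤ ε * L + ε ^ 2 * N) : 0 ≤ L := by
  by_contra hL
  push Not at hL
  have hp : 0 < -L / (N + 1) := div_pos (by linarith) (by linarith)
  have h1 := h (min e0 (-L / (N + 1))) (lt_min he hp) (min_le_left _ _)
  have h2 : min e0 (-L / (N + 1)) ≤ -L / (N + 1) := min_le_right _ _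
  have h3 : 0 < min e0 (-L / (N + 1)) := lt_min he hp
  set ε := min e0 (-L / (N + 1))
  have h4 : ε * (N + 1) ≤ -L := by rwa [le_div_iff₀ (by linarith)] at h2
  have h5 : 0 ≤ L + ε * N := by
    have : ε * L + ε ^ 2 * N = ε * (L + ε * N) := by ring
    rw [this] at h1
    exact (mul_nonneg_iff_of_pos_left h3).mp h1
  nlinarith

omit [DecidableEq ι] in
lemma F_expand (v : ι → E) (l μ δ : ι → ℝ) (ε : ℝ) :
    F v l (μ + ε • δ) = F v l μ + ε * (2 * ⟪y v μ, y v δ⟫_ℝ + ∑ i, l i * δ i) +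
      ε ^ 2 * ‖y v δ‖ ^ 2 := by
  unfold F
  rw [y_add, y_smul, norm_add_sq_real, real_inner_smul_right, norm_smul, mul_pow, Real.norm_eq_abs,
    sq_abs]
  have : ∑ i, l i * (μ + ε • δ) i = ∑ i, l i * μ i + ε * ∑ i, l i * δ i := by
    rw [mul_sum, ← sum_add_distrib]
    apply sum_congr rfl
    intro i _
    simp only [Pi.add_apply, Pi.smul_apply, smul_eq_mul]; ring
  rw [this]; ring

omit [DecidableEq ι] in
lemma F_interior (v : ι → E) (l : ι → ℝ) (T : Finset ι) (μ : ι → ℝ) (hμ : μ ∈ D T)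
    (hpos : ∀ i ∈ T, 0 < μ i) (hmin : ∀ a ∈ D T, F v l μ ≤ F v l a) (a : ι → ℝ) (ha : a ∈ D T) :
    F v l a = F v l μ + ‖y v a - y v μ‖ ^ 2 := by
  have hT : T.Nonempty := by
    by_contra h
    rw [Finset.not_nonempty_iff_eq_empty] at h
    have : ∑ i, μ i = 0 := sum_eq_zero fun i _ => hμ.2.1 i (by simp [h])
    rw [hμ.2.2] at this
    exact one_ne_zero this
  obtain ⟨j, hj, hjm⟩ := T.exists_min_image μ hT
  have ha1 : ∀ i, a i ≤ 1 := fun i => by
    rw [← ha.2.2]; exact single_le_sum (fun i _ => ha.1 i) (mem_univ i)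
  have hsum : ∀ ε : ℝ, ∑ i, (μ + ε • (a - μ)) i = 1 := by
    intro ε
    simp only [Pi.add_apply, Pi.smul_apply, Pi.sub_apply, smul_eq_mul, sum_add_distrib, ← mul_sum,
      sum_sub_distrib, hμ.2.2, ha.2.2]
    ring
  have hsupp : ∀ ε : ℝ, ∀ i, i ∉ T → (μ + ε • (a - μ)) i = 0 := by
    intro ε i hi
    simp [hμ.2.1 i hi, ha.2.1 i hi]
  set L := 2 * ⟪y v μ, y v (a - μ)⟫_ℝ + ∑ i, l i * (a - μ) i with hL
  have h1 : 0 ≤ L := by
    apply lin_nonneg L (‖y v (a - μ)‖ ^ 2) 1 one_pos (sq_nonneg _)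
    intro ε h0 h1
    have := hmin (μ + ε • (a - μ)) ⟨fun i => ?_, hsupp ε, hsum ε⟩
    · rw [F_expand] at this; linarith
    · simp only [Pi.add_apply, Pi.smul_apply, Pi.sub_apply, smul_eq_mul]
      have := hμ.1 i; have := ha.1 i
      nlinarith
  have h2 : 0 ≤ -L := by
    apply lin_nonneg (-L) (‖y v (a - μ)‖ ^ 2) (μ j) (hpos j hj) (sq_nonneg _)
    intro ε h0 h1
    have := hmin (μ + (-ε) • (a - μ)) ⟨fun i => ?_, hsupp _, hsum _⟩
    · rw [F_expand] at this; linarith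
    · by_cases hi : i ∈ T
      · simp only [Pi.add_apply, Pi.smul_apply, Pi.sub_apply, smul_eq_mul]
        have := hμ.1 i; have := ha1 i; have := hjm i hi
        nlinarith
      · rw [hsupp _ i hi]
  have h3 := F_expand v l μ (a - μ) 1
  rw [one_smul, add_sub_cancel, ← hL, y_sub] at h3
  linarith

lemma star (v : ι → E) (T : Finset ι) (μ : ι → ℝ) (hμ : μ ∈ D T) (hpos : ∀ i ∈ T, 0 < μ i)
    (r : ℝ) (hr : 0 ≤ r)
    (hb : ∀ j ∈ T, ∀ a ∈ D (T.erase j), r ^ 2 ≤ ‖y v a - y v μ‖ ^ 2)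
    (δ : ι → ℝ) (hs : ∀ i, i ∉ T → δ i = 0) (h0 : ∑ i, δ i = 0) (i : ι) (hi : i ∈ T) :
    r * δ i ≤ μ i * ‖y v δ‖ := by
  by_cases hd : δ i ≤ 0
  · have := hpos i hi
    have := norm_nonneg (y v δ)
    nlinarith
  push Not at hd
  obtain ⟨j, hj, hjm⟩ := T.exists_max_image (fun k => δ k / μ k) ⟨i, hi⟩
  set t := δ j / μ j with ht
  have hti : δ i / μ i ≤ t := hjm i hi
  have ht0 : 0 < t := lt_of_lt_of_le (div_pos hd (hpos i hi)) hti
  have hmem : μ - t⁻¹ • δ ∈ D (T.erase j) := by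
    refine ⟨fun k => ?_, fun k hk => ?_, ?_⟩
    · by_cases hk : k ∈ T
      · have h1 : δ k / μ k ≤ t := hjm k hk
        rw [div_le_iff₀ (hpos k hk)] at h1
        simp only [Pi.sub_apply, Pi.smul_apply, smul_eq_mul, sub_nonneg]
        rw [inv_mul_le_iff₀ ht0]; exact h1
      · simp [hμ.2.1 k hk, hs k hk]
    · by_cases hkT : k ∈ T
      · have : k = j := by
          by_contra h
          exact hk (mem_erase.mpr ⟨h, hkT⟩)
        subst this
        simp only [Pi.sub_apply, Pi.smul_apply, smul_eq_mul]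
        have h1 := (hpos k hkT).ne'
        have h2 : δ k ≠ 0 := by
          intro h; rw [h, zero_div] at ht; exact ht0.ne' ht
        rw [ht]; field_simp; ring
      · simp [hμ.2.1 k hkT, hs k hkT]
    · simp only [Pi.sub_apply, Pi.smul_apply, smul_eq_mul, sum_sub_distrib, ← mul_sum, h0,
        hμ.2.2]
      ring
  have h1 := hb j hj _ hmem
  rw [y_sub, y_smul, sub_sub_cancel_left, norm_neg, norm_smul, Real.norm_eq_abs,
    abs_of_pos (inv_pos.mpr ht0)] at h1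
  have h2 : r ≤ t⁻¹ * ‖y v δ‖ :=
    (sq_le_sq₀ hr (mul_nonneg (inv_pos.mpr ht0).le (norm_nonneg _))).mp h1
  rw [le_inv_mul_iff₀ ht0] at h2
  rw [div_le_iff₀ (hpos i hi)] at hti
  have := hpos i hi
  nlinarith

lemma norm_formula (u x : E) (r τ β : ℝ) (hτ : 0 < τ) (hr : 0 ≤ r) (hβ : β * (r + τ) = 1)
    (hx : r ^ 2 = ‖x‖ ^ 2 + τ ^ 2) :
    τ * ‖u - ((‖u‖ - β * ⟪u, x⟫_ℝ) / τ) • x‖ = ‖u‖ * r - ⟪u, x⟫_ℝ := by
  have h1 : ⟪u, x⟫_ℝ ≤ ‖u‖ * ‖x‖ := real_inner_le_norm u x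
  have h2 : ‖x‖ ≤ r := (sq_le_sq₀ (norm_nonneg _) hr).mp (by nlinarith)
  have h3 : 0 ≤ ‖u‖ * r - ⟪u, x⟫_ℝ := by
    have := mul_le_mul_of_nonneg_left h2 (norm_nonneg u)
    linarith
  apply (sq_eq_sq₀ (mul_nonneg hτ.le (norm_nonneg _)) h3).mp
  rw [mul_pow, norm_sub_sq_real, real_inner_smul_right, norm_smul, mul_pow, Real.norm_eq_abs,
    sq_abs]
  have h4 : ‖x‖ ^ 2 = (r - τ) * (r + τ) := by linarith
  rw [h4]
  set N := ‖u‖
  set α := ⟪u, x⟫_ℝ
  field_simp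
  have h5 : r = β⁻¹ - τ := by
    have : β ≠ 0 := by rintro rfl; simp at hβ
    field_simp; linarith
  have : β ≠ 0 := by rintro rfl; simp at hβ
  rw [h5]
  field_simp
  ring

lemma step (v : ι → E) (l : ι → ℝ) (T : Finset ι) (d : ℕ) (hd : 1 ≤ d) (hT : T.card = d + 1)
    (lam : ι → ℝ) (hl : lam ∈ D T) :
    ∃ j ∈ T, ∃ a ∈ D (T.erase j), F v l a ≤ F v l lam + Q v lam / (d : ℝ) ^ 2 := by
  have hQ := Q_nonneg v lam hl.1 hl.2.2
  have hd' : (1 : ℝ) ≤ d := by exact_mod_cast hd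
  have hQd : 0 ≤ Q v lam / (d : ℝ) ^ 2 := by positivity
  have herase : ∀ j ∈ T, ∀ a ∈ D T, a j = 0 → a ∈ D (T.erase j) := by
    intro j _ a ha haj
    refine ⟨ha.1, fun k hk => ?_, ha.2.2⟩
    by_cases hkj : k = j
    · rw [hkj, haj]
    · exact ha.2.1 k (fun h => hk (mem_erase.mpr ⟨hkj, h⟩))
  have hsub : ∀ j, ∀ a ∈ D (T.erase j), a ∈ D T := fun j a ha =>
    ⟨ha.1, fun k hk => ha.2.1 k (fun h => hk (mem_of_mem_erase h)), ha.2.2⟩
  obtain ⟨μ, hμ, hmin⟩ := (D_compact T).exists_isMinOn ⟨lam, hl⟩ (F_cont v l).continuousOn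
  have hmin' : ∀ a ∈ D T, F v l μ ≤ F v l a := fun a ha => hmin ha
  by_cases hz : ∃ j ∈ T, μ j = 0
  · obtain ⟨j, hj, hμj⟩ := hz
    exact ⟨j, hj, μ, herase j hj μ hμ hμj, by linarith [hmin' lam hl]⟩
  push Not at hz
  have hpos : ∀ i ∈ T, 0 < μ i := fun i hi => lt_of_le_of_ne (hμ.1 i) (hz i hi).symm
  have hBc : IsCompact (⋃ j ∈ T, D (T.erase j)) :=
    T.isCompact_biUnion fun j _ => D_compact _
  have hBn : (⋃ j ∈ T, D (T.erase j)).Nonempty := by
    obtain ⟨i, hi, j, hj, hij⟩ := Finset.one_lt_card.mp (show 1 < T.card by omega)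
    refine ⟨Pi.single i 1, Set.mem_biUnion hj ⟨fun k => ?_, fun k hk => ?_, by simp⟩⟩
    · rw [Pi.single_apply]; split_ifs <;> norm_num
    · rw [Pi.single_apply, if_neg]
      rintro rfl
      exact hk (mem_erase.mpr ⟨hij, hi⟩)
  obtain ⟨b, hb, hbmin⟩ := hBc.exists_isMinOn hBn (F_cont v l).continuousOn
  obtain ⟨j, hj, hb⟩ := Set.mem_iUnion₂.mp hb
  refine ⟨j, hj, b, hb, ?_⟩
  by_cases hle : F v l b ≤ F v l lam
  · linarith
  push Not at hle
  set x := y v lam - y v μ with hx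
  set τ := √(F v l b - F v l lam) with hτ
  have hτ0 : 0 < τ := Real.sqrt_pos.mpr (by linarith)
  have hτ2 : τ ^ 2 = F v l b - F v l lam := Real.sq_sqrt (by linarith)
  set r := √(‖x‖ ^ 2 + τ ^ 2) with hr
  have hr0 : 0 ≤ r := Real.sqrt_nonneg _
  have hr2 : r ^ 2 = ‖x‖ ^ 2 + τ ^ 2 := Real.sq_sqrt (by positivity)
  have hτr : τ ≤ r := (sq_le_sq₀ hτ0.le hr0).mp (by nlinarith [sq_nonneg ‖x‖])
  have hFl := F_interior v l T μ hμ hpos hmin' lam hl
  have hbd : ∀ k ∈ T, ∀ a ∈ D (T.erase k), r ^ 2 ≤ ‖y v a - y v μ‖ ^ 2 := by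
    intro k hk a ha
    have h1 := F_interior v l T μ hμ hpos hmin' a (hsub k a ha)
    have h2 : F v l b ≤ F v l a := hbmin (Set.mem_biUnion hk ha)
    rw [← hx] at hFl
    linarith
  set β := (r + τ)⁻¹ with hβ
  have hβ1 : β * (r + τ) = 1 := inv_mul_cancel₀ (by linarith)
  let u : ι → E := fun i => v i - y v μ
  let N : ι → ℝ := fun i => ‖u i‖
  let α : ι → ℝ := fun i => ⟪u i, x⟫_ℝ
  have key : ∀ i ∈ T, r * τ * (1 - μ i) + r * ((N i - β * α i) * (μ i - lam i)) ≤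
      μ i * (N i * r - α i) := by
    intro i hi
    have h1 := star v T μ hμ hpos r hr0 hbd
      (Pi.single i 1 - μ + ((N i - β * α i) / τ) • (μ - lam)) (fun k hk => ?_) ?_ i hi
    · have h2 : y v (Pi.single i 1 - μ + ((N i - β * α i) / τ) • (μ - lam)) =
          u i - ((‖u i‖ - β * ⟪u i, x⟫_ℝ) / τ) • x := by
        rw [y_add, y_sub, y_smul, y_sub, y_single, hx]
        simp only [u, N, α, hx]
        module
      rw [h2] at h1
      have h3 := norm_formula (u i) x r τ β hτ0 hr0 hβ1 hr2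
      simp only [Pi.add_apply, Pi.sub_apply, Pi.smul_apply, Pi.single_eq_same, smul_eq_mul] at h1
      have h4 := mul_le_mul_of_nonneg_left h1 hτ0.le
      have h5 : τ * (r * (1 - μ i + (N i - β * α i) / τ * (μ i - lam i))) =
          r * τ * (1 - μ i) + r * ((N i - β * α i) * (μ i - lam i)) := by
        field_simp
      rw [h5, mul_left_comm τ (μ i), h3] at h4
      exact h4
    · have : k ≠ i := fun h => hk (h ▸ hi)
      simp [hμ.2.1 k hk, hl.2.1 k hk, this]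
    · simp only [Pi.add_apply, Pi.sub_apply, Pi.smul_apply, smul_eq_mul, sum_add_distrib,
        sum_sub_distrib, ← mul_sum, hμ.2.2, hl.2.2]
      simp
  have hsumT : ∀ (a : ι → ℝ), a ∈ D T → ∀ f : ι → ℝ, ∑ i ∈ T, a i * f i = ∑ i, a i * f i := by
    intro a ha f
    apply sum_subset (subset_univ T)
    intro i _ hi
    rw [ha.2.1 i hi, zero_mul]
  have hal : ∀ (a : ι → ℝ), a ∈ D T → ∑ i, a i * α i = ⟪y v a - y v μ, x⟫_ℝ := by
    intro a ha
    have : ∀ i, a i * α i = ⟪a i • v i, x⟫_ℝ - a i * ⟪y v μ, x⟫_ℝ := by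
      intro i
      simp only [α, u, inner_sub_left, real_inner_smul_left]; ring
    simp only [this, sum_sub_distrib, ← sum_mul, ha.2.2, ← sum_inner, inner_sub_left, one_mul]
    rfl
  have hαμ : ∑ i ∈ T, μ i * α i = 0 := by rw [hsumT μ hμ, hal μ hμ]; simp
  have hαl : ∑ i ∈ T, lam i * α i = ‖x‖ ^ 2 := by
    rw [hsumT lam hl, hal lam hl, ← hx, real_inner_self_eq_norm_sq]
  have hμ1 : ∑ i ∈ T, μ i = 1 := by
    have := hsumT μ hμ (fun _ => 1)
    simpa [hμ.2.2] using this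
  have hS := sum_le_sum key
  have e1 : ∑ i ∈ T, (r * τ * (1 - μ i) + r * ((N i - β * α i) * (μ i - lam i))) =
      r * τ * (T.card - ∑ i ∈ T, μ i) + r * (∑ i ∈ T, μ i * N i - ∑ i ∈ T, lam i * N i -
        β * ∑ i ∈ T, μ i * α i + β * ∑ i ∈ T, lam i * α i) := by
    simp only [mul_sum, ← sum_sub_distrib, ← sum_add_distrib, card_eq_sum_ones, Nat.cast_sum,
      Nat.cast_one]
    apply sum_congr rfl
    intro i _; ring
  have e2 : ∑ i ∈ T, μ i * (N i * r - α i) = r * ∑ i ∈ T, μ i * N i - ∑ i ∈ T, μ i * α i := by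
    simp only [mul_sum, ← sum_sub_distrib]
    apply sum_congr rfl
    intro i _; ring
  rw [e1, e2, hαμ, hαl, hμ1, hT, hsumT lam hl] at hS
  have hβx : β * ‖x‖ ^ 2 = r - τ := by
    have : ‖x‖ ^ 2 = (r - τ) * (r + τ) := by linarith
    rw [this]; linear_combination (r - τ) * hβ1
  set S := ∑ i, lam i * N i with hSdef
  have hr0' : 0 < r := lt_of_lt_of_le hτ0 hτr
  have h1 : (d : ℝ) * τ + (r - τ) ≤ S := by
    push_cast at hS
    rw [hβx] at hS
    have : r * ((d : ℝ) * τ + (r - τ)) ≤ r * S := by nlinarith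
    exact le_of_mul_le_mul_left this hr0'
  have h2 : S ^ 2 ≤ Q v lam + ‖x‖ ^ 2 := by
    rw [hx, ← Q_eq v lam hl.2.2]
    have h3 : 0 ≤ ∑ i, lam i * (N i - S) ^ 2 :=
      sum_nonneg fun i _ => mul_nonneg (hl.1 i) (sq_nonneg _)
    have h4 : ∑ i, lam i * (N i - S) ^ 2 =
        ∑ i, lam i * N i ^ 2 - 2 * S * ∑ i, lam i * N i + S ^ 2 * ∑ i, lam i := by
      simp only [mul_sum, ← sum_sub_distrib, ← sum_add_distrib]
      apply sum_congr rfl
      intro i _; ring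
    rw [h4, hl.2.2, ← hSdef] at h3
    have : ∑ i, lam i * ‖v i - y v μ‖ ^ 2 = ∑ i, lam i * N i ^ 2 := rfl
    rw [this]; nlinarith
  have h5 : ((d : ℝ) * τ + (r - τ)) ^ 2 ≤ S ^ 2 :=
    pow_le_pow_left₀ (by nlinarith) h1 2
  have h6 : τ ^ 2 * (d : ℝ) ^ 2 ≤ Q v lam := by
    have : 0 ≤ ((d : ℝ) - 1) * τ * (r - τ) :=
      mul_nonneg (mul_nonneg (by linarith) hτ0.le) (by linarith)
    nlinarith
  have h7 : τ ^ 2 ≤ Q v lam / (d : ℝ) ^ 2 := by
    rw [le_div_iff₀ (by positivity)]; exact h6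
  linarith

noncomputable def c (n m : ℕ) : ℝ := ((n : ℝ) - m) / (m * ((n : ℝ) - 1))

lemma c_rec (n m : ℕ) (hm : 1 ≤ m) (hmn : m ≤ n) :
    c (n + 1) m = c n m + (1 - c n m) / (n : ℝ) ^ 2 ∧ c n m ≤ 1 := by
  unfold c
  have hm' : (1 : ℝ) ≤ m := by exact_mod_cast hm
  have hmn' : (m : ℝ) ≤ n := by exact_mod_cast hmn
  rcases Nat.eq_or_lt_of_le (hm.trans hmn) with h | h
  · have : m = 1 := by omega
    subst this
    subst h
    norm_num
  · have h2 : (2 : ℝ) ≤ n := by exact_mod_cast h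
    have h3 : (n : ℝ) - 1 ≠ 0 := by linarith
    have h4 : (n : ℝ) ≠ 0 := by linarith
    have h5 : (m : ℝ) ≠ 0 := by linarith
    constructor
    · push_cast
      rw [add_sub_cancel_right]
      field_simp
      ring
    · rw [div_le_one (by nlinarith)]
      nlinarith

lemma iter (v : ι → E) (m : ℕ) (hm : 1 ≤ m) : ∀ (n : ℕ), m ≤ n → ∀ (T : Finset ι), T.card = n →
    ∀ (l : ι → ℝ), ∀ lam ∈ D T, ∃ S : Finset ι, S.card = m ∧ ∃ a ∈ D S,
      F v l a ≤ F v l lam + c n m * Q v lam := by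
  intro n hn
  induction n, hn using Nat.le_induction with
  | base =>
    intro T hT l lam hl
    exact ⟨T, hT, lam, hl, by simp [c]⟩
  | succ n hn ih =>
    intro T hT l lam hl
    obtain ⟨hrec, hc1⟩ := c_rec n m hm hn
    set θ := 1 - c n m with hθ
    have hθ0 : 0 ≤ θ := by linarith
    have hs : √θ ^ 2 = θ := Real.sq_sqrt hθ0
    have hy : ∀ a, ‖y (fun i => √θ • v i) a‖ ^ 2 = θ * ‖y v a‖ ^ 2 := by
      intro a
      have : y (fun i => √θ • v i) a = √θ • y v a := by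
        simp only [y, smul_sum]
        apply sum_congr rfl
        intro i _; rw [smul_comm]
      rw [this, norm_smul, mul_pow, Real.norm_eq_abs, sq_abs, hs]
    have hF : ∀ a, F (fun i => √θ • v i) (fun i => l i + c n m * ‖v i‖ ^ 2) a =
        F v l a + c n m * Q v a := by
      intro a
      unfold F Q
      rw [hy]
      have : ∑ i, (l i + c n m * ‖v i‖ ^ 2) * a i =
          ∑ i, l i * a i + c n m * ∑ i, a i * ‖v i‖ ^ 2 := by
        rw [mul_sum, ← sum_add_distrib]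
        apply sum_congr rfl
        intro i _; ring
      rw [this, hθ]; ring
    have hQ : Q (fun i => √θ • v i) lam = θ * Q v lam := by
      unfold Q
      rw [hy, mul_sub, mul_sum]
      congr 1
      apply sum_congr rfl
      intro i _
      rw [norm_smul, mul_pow, Real.norm_eq_abs, sq_abs, hs]; ring
    obtain ⟨j, hj, a, ha, h1⟩ := step (fun i => √θ • v i) (fun i => l i + c n m * ‖v i‖ ^ 2) T n
      (hm.trans hn) hT lam hl
    obtain ⟨S, hS, b, hb, h2⟩ := ih (T.erase j) (by rw [card_erase_of_mem hj, hT]; rfl) l a ha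
    refine ⟨S, hS, b, hb, ?_⟩
    rw [hF, hF, hQ] at h1
    rw [hrec]
    have : (c n m + θ / (n : ℝ) ^ 2) * Q v lam = c n m * Q v lam + θ * Q v lam / (n : ℝ) ^ 2 := by
      ring
    rw [this]
    linarith

theorem main (p : ι → E) (hp : ∀ i, ‖p i‖ ≤ 1) (x : E) (hx : x ∈ convexHull ℝ (Set.range p))
    (m : ℕ) (hm : 1 ≤ m) (hmn : m ≤ Fintype.card ι) :
    ∃ S : Finset ι, S.card = m ∧ ∃ z ∈ convexHull ℝ (p '' (S : Set ι)),
      ‖z - x‖ ^ 2 ≤ c (Fintype.card ι) m := by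
  have hx' : ∃ lam ∈ D (univ : Finset ι), y p lam = x := by
    have hconv : Convex ℝ {x | ∃ lam ∈ D (univ : Finset ι), y p lam = x} := by
      rintro _ ⟨a, ha, rfl⟩ _ ⟨b, hb, rfl⟩ s t hs ht hst
      refine ⟨s • a + t • b, ⟨fun i => ?_, by simp, ?_⟩, by rw [y_add, y_smul, y_smul]⟩
      · have := ha.1 i; have := hb.1 i
        simp only [Pi.add_apply, Pi.smul_apply, smul_eq_mul]; positivity
      · simp only [Pi.add_apply, Pi.smul_apply, smul_eq_mul, sum_add_distrib, ← mul_sum, ha.2.2,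
          hb.2.2]
        linarith
    refine convexHull_min ?_ hconv hx
    rintro _ ⟨i, rfl⟩
    refine ⟨Pi.single i 1, ⟨fun k => ?_, by simp, by simp⟩, y_single p i⟩
    rw [Pi.single_apply]; split_ifs <;> norm_num
  obtain ⟨lam, hl, rfl⟩ := hx'
  obtain ⟨S, hS, a, ha, h⟩ := iter p m hm _ hmn univ card_univ
    (fun i => -2 * ⟪p i, y p lam⟫_ℝ) lam hl
  refine ⟨S, hS, y p a, ?_, ?_⟩
  · have : y p a = ∑ i ∈ S, a i • p i := by
      symm
      apply sum_subset (subset_univ S)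
      intro i _ hi
      rw [ha.2.1 i hi, zero_smul]
    rw [this]
    apply (convex_convexHull ℝ _).sum_mem (fun i _ => ha.1 i)
    · rw [← ha.2.2]
      apply sum_subset (subset_univ S)
      intro i _ hi
      exact ha.2.1 i hi
    · intro i hi
      exact subset_convexHull ℝ _ ⟨i, hi, rfl⟩
  · have hlin : ∀ b : ι → ℝ, ∑ i, -2 * ⟪p i, y p lam⟫_ℝ * b i = -2 * ⟪y p b, y p lam⟫_ℝ := by
      intro b
      rw [show y p b = ∑ i, b i • p i from rfl, sum_inner, mul_sum]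
      apply sum_congr rfl
      intro i _
      rw [real_inner_smul_left]; ring
    unfold F at h
    rw [hlin, hlin, real_inner_self_eq_norm_sq] at h
    rw [norm_sub_sq_real]
    have hQ1 : Q p lam ≤ 1 := by
      unfold Q
      have : ∑ i, lam i * ‖p i‖ ^ 2 ≤ ∑ i, lam i := by
        apply sum_le_sum
        intro i _
        have h1 := hl.1 i
        have h2 : ‖p i‖ ^ 2 ≤ 1 := by
          have := hp i; have := norm_nonneg (p i); nlinarith
        nlinarith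
      rw [hl.2.2] at this
      linarith [sq_nonneg ‖y p lam‖]
    have hc0 : 0 ≤ c (Fintype.card ι) m := by
      unfold c
      have h1 : (1 : ℝ) ≤ m := by exact_mod_cast hm
      have h2 : (m : ℝ) ≤ Fintype.card ι := by exact_mod_cast hmn
      apply div_nonneg (by linarith) (mul_nonneg (by linarith) (by linarith))
    nlinarith

end Pool.Agent.H10.Skeleton
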