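import Mathlib
import Pool.Agent.H10.Geo

set_option autoImplicit false

namespace Pool.Agent.H10.Geo
open Finset Pool.Agent.H10.Ced

lemma int_half (f : E 4 →L[ℝ] ℝ) (hf : Function.Surjective f) (c : ℝ) :
    interior {y | c ≤ f y} = {y | c < f y} := by
  have := (f.isOpenMap hf).preimage_interior_eq_interior_preimage f.continuous (Set.Ici c)
  rw [interior_Ici] at this
  exact this.symm

lemma simplex_sphere (a b c d e : ℕ) (h : [a, b, c, d, e].Nodup) :
    Nonempty (R [[a, b, c, d], [a, b, c, e], [a, b, d, e], [a, c, d, e], [b, c, d, e]] ≃ₜ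
      Metric.sphere (0 : EuclideanSpace ℝ (Fin 4)) 1) := by
  simp only [List.nodup_cons, List.mem_cons, List.not_mem_nil, or_false, not_or, not_false_iff,
    List.nodup_nil, and_true] at h
  obtain ⟨⟨ab, ac, ad, ae⟩, ⟨bc, bd, be⟩, ⟨cd, ce⟩, de⟩ := h
  have hsum : ∀ p q r s : ℕ, [p, q, r, s].Nodup → ∀ x : ℕ → ℝ,
      ∑ v ∈ [p, q, r, s].toFinset, x v = x p + x q + x r + x s := by
    intro p q r s h x
    rw [List.sum_toFinset _ h]
    simp; ring
  set L := [[a, b, c, d], [a, b, c, e], [a, b, d, e], [a, c, d, e], [b, c, d, e]] with hL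
  have hR : ∀ x, x ∈ R L ↔ (∀ v, 0 ≤ x v) ∧ (∀ v, v ∉ [a, b, c, d, e] → x v = 0) ∧
      x a + x b + x c + x d + x e = 1 ∧ (x a = 0 ∨ x b = 0 ∨ x c = 0 ∨ x d = 0 ∨ x e = 0) := by
    intro x
    constructor
    · rintro ⟨h0, F, hF, h1, h2⟩
      simp only [hL, List.mem_cons, List.not_mem_nil, or_false] at hF
      rcases hF with rfl | rfl | rfl | rfl | rfl <;> rw [hsum _ _ _ _ (by simp [*])] at h2 <;>
        refine ⟨h0, fun v hv => h1 v (by simp at hv ⊢; tauto), ?_⟩
      · have := h1 e (by simp; tauto)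
        exact ⟨by linarith, by tauto⟩
      · have := h1 d (by simp; tauto)
        exact ⟨by linarith, by tauto⟩
      · have := h1 c (by simp; tauto)
        exact ⟨by linarith, by tauto⟩
      · have := h1 b (by simp; tauto)
        exact ⟨by linarith, by tauto⟩
      · have := h1 a (by simp; tauto)
        exact ⟨by linarith, by tauto⟩
    · rintro ⟨h0, h1, h2, h3⟩
      have key : ∀ p q r s z : ℕ, [p, q, r, s].Nodup → [p, q, r, s] ∈ L → x z = 0 →
          (∀ v, v ∈ [a, b, c, d, e] → v = z ∨ v ∈ [p, q, r, s]) → x p + x q + x r + x s = 1 →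
          x ∈ R L := by
        intro p q r s z a1 a2 a3 a4 a5
        refine ⟨h0, _, a2, fun v hv => ?_, by rw [hsum _ _ _ _ a1, a5]⟩
        by_cases hv' : v ∈ [a, b, c, d, e]
        · rw [(a4 v hv').resolve_right hv, a3]
        · exact h1 v hv'
      rcases h3 with h | h | h | h | h
      · exact key b c d e a (by simp [*]) (by simp [hL]) h (by simp) (by linarith)
      · exact key a c d e b (by simp [*]) (by simp [hL]) h (by simp) (by linarith)
      · exact key a b d e c (by simp [*]) (by simp [hL]) h (by simp) (by linarith)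
      · exact key a b c e d (by simp [*]) (by simp [hL]) h (by simp) (by linarith)
      · exact key a b c d e (by simp [*]) (by simp [hL]) h (by simp) (by linarith)
  let p : Fin 4 → E 4 →L[ℝ] ℝ := fun i => EuclideanSpace.proj i
  have hp : ∀ i y, p i y = y i := fun _ _ => rfl
  let s : E 4 →L[ℝ] ℝ := -(p 0 + p 1 + p 2 + p 3)
  have hs : ∀ y, s y = -(y 0 + y 1 + y 2 + y 3) := fun _ => rfl
  let T : Set (E 4) := {y | 0 ≤ p 0 y} ∩ ({y | 0 ≤ p 1 y} ∩ ({y | 0 ≤ p 2 y} ∩
    ({y | 0 ≤ p 3 y} ∩ {y | -1 ≤ s y})))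
  have ps : ∀ i, Function.Surjective (p i) := fun i r =>
    ⟨EuclideanSpace.single i r, by simp [hp]⟩
  have ss : Function.Surjective s := fun r =>
    ⟨EuclideanSpace.single 0 (-r), by simp [hs]⟩
  have Ti : interior T = {y | 0 < p 0 y} ∩ ({y | 0 < p 1 y} ∩ ({y | 0 < p 2 y} ∩
      ({y | 0 < p 3 y} ∩ {y | -1 < s y}))) := by
    simp only [T, interior_inter, int_half _ (ps _), int_half _ ss]
  have Tcl : IsClosed T := by
    refine (isClosed_le ?_ ?_).inter ((isClosed_le ?_ ?_).inter ((isClosed_le ?_ ?_).inter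
      ((isClosed_le ?_ ?_).inter (isClosed_le ?_ ?_)))) <;> fun_prop
  have hF : ∀ y : E 4, y ∈ frontier T ↔ (0 ≤ y 0 ∧ 0 ≤ y 1 ∧ 0 ≤ y 2 ∧ 0 ≤ y 3 ∧
      y 0 + y 1 + y 2 + y 3 ≤ 1) ∧
      (y 0 = 0 ∨ y 1 = 0 ∨ y 2 = 0 ∨ y 3 = 0 ∨ y 0 + y 1 + y 2 + y 3 = 1) := by
    intro y
    rw [Tcl.frontier_eq, Ti]
    simp only [T, Set.mem_diff, Set.mem_inter_iff, Set.mem_ofPred_eq, hp, hs, neg_le_neg_iff,
      neg_lt_neg_iff]
    refine and_congr_right fun ⟨a0, a1, a2, a3, a4⟩ => ?_
    constructor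
    · intro h
      by_contra hc
      push Not at hc
      obtain ⟨b0, b1, b2, b3, b4⟩ := hc
      exact h ⟨a0.lt_of_ne' b0, a1.lt_of_ne' b1, a2.lt_of_ne' b2, a3.lt_of_ne' b3, a4.lt_of_ne b4⟩
    · rintro h ⟨b0, b1, b2, b3, b4⟩
      rcases h with h | h | h | h | h <;> linarith
  let g : (ℕ → ℝ) → E 4 := fun x => !₂[x a, x b, x c, x d]
  have gc : Continuous g := by
    refine (PiLp.continuous_toLp 2 _).comp (continuous_pi fun i => ?_)
    fin_cases i <;> simp <;> fun_prop
  have maps : ∀ x ∈ R L, g x ∈ frontier T := by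
    intro x hx
    obtain ⟨h0, -, h2, h3⟩ := (hR x).1 hx
    have := h0 e
    rw [hF]
    simp only [g]
    simp only [Matrix.cons_val_zero, Matrix.cons_val_one, Matrix.cons_val]
    refine ⟨⟨h0 a, h0 b, h0 c, h0 d, by linarith⟩, ?_⟩
    rcases h3 with h | h | h | h | h
    exacts [by tauto, by tauto, by tauto, by tauto, Or.inr (Or.inr (Or.inr (Or.inr (by linarith))))]
  let f : R L → frontier T := fun x => ⟨g x, maps x x.2⟩
  have inj : Function.Injective f := by
    rintro ⟨x, hx⟩ ⟨y, hy⟩ h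
    have h' : g x = g y := congrArg Subtype.val h
    clear h
    obtain ⟨-, x1, x2, -⟩ := (hR x).1 hx
    obtain ⟨-, y1, y2, -⟩ := (hR y).1 hy
    have e0 : x a = y a := by simpa [g] using congrArg (fun z => z 0) h'
    have e1 : x b = y b := by simpa [g] using congrArg (fun z => z 1) h'
    have e2 : x c = y c := by simpa [g] using congrArg (fun z => z 2) h'
    have e3 : x d = y d := by simpa [g] using congrArg (fun z => z 3) h'
    refine Subtype.ext (funext fun u => ?_)
    by_cases hu : u ∈ [a, b, c, d, e]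
    · simp only [List.mem_cons, List.not_mem_nil, or_false] at hu
      rcases hu with rfl | rfl | rfl | rfl | rfl
      exacts [e0, e1, e2, e3, by show x u = y u; linarith]
    · exact (x1 u hu).trans (y1 u hu).symm
  have surj : Function.Surjective f := by
    rintro ⟨y, hy⟩
    obtain ⟨⟨y0, y1, y2, y3, y4⟩, y5⟩ := (hF y).1 hy
    let x : ℕ → ℝ := fun u => if u = a then y 0 else if u = b then y 1 else if u = c then y 2
      else if u = d then y 3 else if u = e then 1 - (y 0 + y 1 + y 2 + y 3) else 0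
    have xa : x a = y 0 := by simp [x]
    have xb : x b = y 1 := by simp [x, Ne.symm ab]
    have xc : x c = y 2 := by simp [x, Ne.symm ac, Ne.symm bc]
    have xd : x d = y 3 := by simp [x, Ne.symm ad, Ne.symm bd, Ne.symm cd]
    have xe : x e = 1 - (y 0 + y 1 + y 2 + y 3) := by
      simp [x, Ne.symm ae, Ne.symm be, Ne.symm ce, Ne.symm de]
    refine ⟨⟨x, (hR x).2 ⟨fun u => ?_, fun u hu => ?_, ?_, ?_⟩⟩, Subtype.ext ?_⟩
    · simp only [x]
      split_ifs <;> linarith
    · simp only [List.mem_cons, List.not_mem_nil, or_false, not_or] at hu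
      simp [x, hu]
    · rw [xa, xb, xc, xd, xe]; ring
    · rw [xa, xb, xc, xd, xe]
      rcases y5 with h | h | h | h | h
      exacts [by tauto, by tauto, by tauto, by tauto, Or.inr (Or.inr (Or.inr (Or.inr (by linarith))))]
    · ext i
      fin_cases i <;> simp [f, g, xa, xb, xc, xd]
  have : CompactSpace (R L) := isCompact_iff_compactSpace.1 (R_compact _)
  have cont : Continuous f := (gc.comp continuous_subtype_val).subtype_mk _
  let e := (Equiv.ofBijective f ⟨inj, surj⟩).toHomeomorphOfContinuousClosed cont cont.isClosedMap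
  have Tv : Convex ℝ T := by
    refine (convex_halfSpace_ge ?_ _).inter ((convex_halfSpace_ge ?_ _).inter
      ((convex_halfSpace_ge ?_ _).inter ((convex_halfSpace_ge ?_ _).inter
        (convex_halfSpace_ge ?_ _)))) <;> exact LinearMap.isLinear (ContinuousLinearMap.toLinearMap _)
  have Tn : (interior T).Nonempty := by
    refine ⟨!₂[1 / 5, 1 / 5, 1 / 5, 1 / 5], ?_⟩
    rw [Ti]
    simp [hp, hs]; norm_num
  have Tb : Bornology.IsBounded T := by
    refine (Metric.isBounded_closedBall (x := 0) (r := 2)).subset ?_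
    rintro y ⟨y0, y1, y2, y3, y4⟩
    simp only [Set.mem_ofPred_eq, hp, hs] at y0 y1 y2 y3 y4
    rw [mem_closedBall_zero_iff, EuclideanSpace.norm_eq, Fin.sum_univ_four]
    refine Real.sqrt_le_iff.2 ⟨by norm_num, ?_⟩
    simp only [Real.norm_eq_abs, sq_abs]
    nlinarith
  obtain ⟨k, -, -, hk⟩ :=
    exists_homeomorph_image_interior_closure_frontier_eq_unitBall Tv Tn Tb
  exact ⟨e.trans ((k.image _).trans (Homeomorph.setCongr hk))⟩

/-- barycentric realization on `Fin n` -/
lemma bary_homeo (n : ℕ) (L : List (List ℕ)) (hL : ∀ F ∈ L, ∀ v ∈ F, v < n) :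
    Nonempty ({x : Fin n → ℝ | (∀ i, 0 ≤ x i) ∧ ∑ i, x i = 1 ∧
      ∃ s ∈ (L.map (fin n)).toFinset, ∀ i, x i ≠ 0 → i ∈ s} ≃ₜ R L) := by
  set S := {x : Fin n → ℝ | (∀ i, 0 ≤ x i) ∧ ∑ i, x i = 1 ∧
      ∃ s ∈ (L.map (fin n)).toFinset, ∀ i, x i ≠ 0 → i ∈ s} with hS
  let g : (ℕ → ℝ) → Fin n → ℝ := fun y i => y i.val
  have gc : Continuous g := by fun_prop
  have sm : ∀ (F : List ℕ) (x : Fin n → ℝ), (∀ i, x i ≠ 0 → i ∈ fin n F) →
      ∑ i ∈ fin n F, x i = ∑ i, x i := fun F x h =>
    Finset.sum_subset (subset_univ _) fun i _ hi => by_contra fun a => hi (h i a)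
  have maps : ∀ y ∈ R L, g y ∈ S := by
    rintro y ⟨h0, F, hF, h1, h2⟩
    have : ∀ i, g y i ≠ 0 → i ∈ fin n F := fun i hi => by
      by_contra a
      exact hi (h1 _ (by simpa using a))
    refine ⟨fun i => h0 _, ?_, fin n F, by simpa using ⟨F, hF, rfl⟩, this⟩
    rw [← sm F _ this, ← h2, ← sum_fin n F (hL F hF)]
  let f : R L → S := fun y => ⟨g y, maps y y.2⟩
  have inj : Function.Injective f := by
    rintro ⟨x, hx0, F, hF, x1, x2⟩ ⟨y, hy0, G, hG, y1, y2⟩ h
    have h' : g x = g y := congrArg Subtype.val h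
    refine Subtype.ext (funext fun u => ?_)
    by_cases hu : u < n
    · exact congrFun h' ⟨u, hu⟩
    · exact (x1 u fun a => hu (hL F hF u a)).trans (y1 u fun a => hu (hL G hG u a)).symm
  have surj : Function.Surjective f := by
    rintro ⟨x, h0, h2, s, hs, h1⟩
    obtain ⟨F, hF, rfl⟩ : ∃ F ∈ L, fin n F = s := by simpa using hs
    let y : ℕ → ℝ := fun v => if hv : v < n then x ⟨v, hv⟩ else 0
    have hy : ∀ i : Fin n, y i.val = x i := fun i => by simp [y]
    refine ⟨⟨y, fun v => ?_, F, hF, fun v hv => ?_, ?_⟩, Subtype.ext ?_⟩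
    · simp only [y]; split_ifs; exacts [h0 _, le_rfl]
    · simp only [y]; split_ifs with a
      exacts [by_contra fun b => hv (by simpa using h1 _ b), rfl]
    · rw [← sum_fin n F (hL F hF), ← h2, ← sm F x h1]
      exact Finset.sum_congr rfl fun i _ => hy i
    · ext i; exact hy i
  have : CompactSpace (R L) := isCompact_iff_compactSpace.1 (R_compact _)
  have cont : Continuous f := (gc.comp continuous_subtype_val).subtype_mk _
  exact ⟨((Equiv.ofBijective f ⟨inj, surj⟩).toHomeomorphOfContinuousClosed cont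
    cont.isClosedMap).symm⟩

lemma card_fin (n : ℕ) (F : List ℕ) (hF : ∀ v ∈ F, v < n) (h : F.Nodup) :
    (fin n F).card = F.length := by
  have := sum_fin n F hF fun _ => 1
  simp only [Finset.sum_const, nsmul_eq_mul, mul_one, Nat.cast_inj] at this
  rw [this, List.toFinset_card_of_nodup h]

/-- certificates of constructibility -/
inductive Ct
  | leaf (s : List ℕ) : Ct
  | node (l r g : Ct) : Ct

def Ct.fa : Ct → List (List ℕ)
  | .leaf s => [s]
  | .node l r _ => l.fa ++ r.fa

def Ct.ok (n : ℕ) : Ct → ℕ → Bool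
  | .leaf s, k => decide (s.length = k) && decide s.Nodup && s.all fun v => decide (v < n)
  | .node l r g, k => decide (1 ≤ k) && l.ok n k && r.ok n k && g.ok n (k - 1) &&
      (g.fa.all fun c => (l.fa.any fun s => sub c s) && r.fa.any fun s => sub c s) &&
      l.fa.all fun s => r.fa.all fun t =>
        g.fa.any fun c => s.all fun v => !mem v t || mem v c

theorem Ct.sound (n : ℕ) (P : ℕ → Finset (Finset (Fin n)) → Prop)
    (h1 : ∀ s : Finset (Fin n), P s.card {s})
    (h2 : ∀ (k : ℕ) (F₁ F₂ G : Finset (Finset (Fin n))), 1 ≤ k →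
        (∀ s ∈ F₁, s.card = k) → (∀ s ∈ F₂, s.card = k) → P k F₁ → P k F₂ →
        (∀ c ∈ G, c.card = k - 1) →
        (∀ r : Finset (Fin n), (∃ c ∈ G, r ⊆ c) ↔ (∃ s ∈ F₁, ∃ t ∈ F₂, r ⊆ s ∧ r ⊆ t)) →
        P (k - 1) G → P k (F₁ ∪ F₂)) (T : Ct) :
    ∀ k, T.ok n k = true → (∀ s ∈ T.fa, (fin n s).card = k) ∧
      P k (T.fa.map (fin n)).toFinset := by
  induction T with
  | leaf s =>
    intro k h
    simp only [Ct.ok, Bool.and_eq_true, decide_eq_true_eq, List.all_eq_true] at h
    have := (card_fin n s h.2 h.1.2).trans h.1.1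
    refine ⟨by simpa [Ct.fa] using this, ?_⟩
    simpa [Ct.fa, this] using h1 (fin n s)
  | node l r g il ir ig =>
    intro k h
    simp only [Ct.ok, Bool.and_eq_true, decide_eq_true_eq, List.all_eq_true, List.any_eq_true,
      sub_iff, Bool.or_eq_true, Bool.not_eq_true', mem_iff, mem_false] at h
    obtain ⟨⟨⟨⟨⟨a1, a2⟩, a3⟩, a4⟩, a5⟩, a6⟩ := h
    obtain ⟨l1, l2⟩ := il k a2
    obtain ⟨r1, r2⟩ := ir k a3
    obtain ⟨g1, g2⟩ := ig _ a4
    refine ⟨fun s hs => (List.mem_append.1 hs).elim (l1 s) (r1 s), ?_⟩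
    rw [Ct.fa, List.map_append, List.toFinset_append]
    refine h2 k _ _ _ a1 (by simpa using l1) (by simpa using r1) l2 r2 (by simpa using g1)
      (fun x => ?_) g2
    simp only [List.mem_toFinset, List.mem_map, exists_exists_and_eq_and]
    constructor
    · rintro ⟨c, hc, hx⟩
      obtain ⟨⟨s, hs, b1⟩, t, ht, b2⟩ := a5 c hc
      exact ⟨s, hs, t, ht, fun i hi => by simpa using b1 _ (by simpa using hx hi),
        fun i hi => by simpa using b2 _ (by simpa using hx hi)⟩
    · rintro ⟨s, hs, t, ht, b1, b2⟩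
      obtain ⟨c, hc, b3⟩ := a6 s hs t ht
      refine ⟨c, hc, fun i hi => ?_⟩
      simpa using (b3 _ (by simpa using b1 hi)).resolve_left (by simpa using b2 hi)

end Pool.Agent.H10.Geo
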