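import Mathlib

set_option autoImplicit false

namespace Pool.Agent.H10.SphereMotion

open scoped InnerProductSpace

abbrev E3 := EuclideanSpace ℝ (Fin 3)
abbrev E5 := EuclideanSpace ℝ (Fin 5)

noncomputable def p : Fin 10 → E3 :=
  ![!₂[1, 0, 0], !₂[0, 1, 0], !₂[0, 0, 1], !₂[3 / 5, 4 / 5, 0], !₂[0, 3 / 5, 4 / 5],
    !₂[1, 0, 0], !₂[0, 1, 0], !₂[0, 0, 1], !₂[4 / 5, -3 / 5, 0], !₂[0, 4 / 5, -3 / 5]]

noncomputable def q : Fin 10 → E3 :=
  ![!₂[1, 0, 0], !₂[0, 1, 0], !₂[0, 0, 1], !₂[3 / 5, 4 / 5, 0], !₂[0, 3 / 5, 4 / 5],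
    !₂[-1, 0, 0], !₂[0, -1, 0], !₂[0, 0, -1], !₂[-4 / 5, 3 / 5, 0], !₂[0, -4 / 5, 3 / 5]]

lemma inner3 (x y : E3) : ⟪x, y⟫_ℝ = x 0 * y 0 + x 1 * y 1 + x 2 * y 2 := by
  simp [PiLp.inner_apply, Fin.sum_univ_three]; ring

lemma norm_one_of (x : E3) (h : x 0 * x 0 + x 1 * x 1 + x 2 * x 2 = 1) : ‖x‖ = 1 := by
  have h1 : ‖x‖ ^ 2 = 1 := by rw [← real_inner_self_eq_norm_sq, inner3, h]
  have := norm_nonneg x
  nlinarith

lemma p_norm (i : Fin 10) : ‖p i‖ = 1 := by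
  apply norm_one_of
  fin_cases i <;> simp [p] <;> norm_num

lemma q_norm (i : Fin 10) : ‖q i‖ = 1 := by
  apply norm_one_of
  fin_cases i <;> simp [q] <;> norm_num

lemma const_of_mono (f : ℝ → ℝ) (h : MonotoneOn f (Set.Icc 0 1) ∨ AntitoneOn f (Set.Icc 0 1))
    (h01 : f 0 = f 1) (t : ℝ) (ht : t ∈ Set.Icc (0 : ℝ) 1) : f t = f 0 := by
  have h0 : (0 : ℝ) ∈ Set.Icc (0 : ℝ) 1 := ⟨le_refl _, zero_le_one⟩
  have h1 : (1 : ℝ) ∈ Set.Icc (0 : ℝ) 1 := ⟨zero_le_one, le_refl _⟩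
  rcases h with h | h
  · have a := h h0 ht ht.1
    have b := h ht h1 ht.2
    linarith
  · have a := h h0 ht ht.1
    have b := h ht h1 ht.2
    linarith

lemma inner_of_dist {E : Type*} [NormedAddCommGroup E] [InnerProductSpace ℝ E] (x y : E)
    (hx : ‖x‖ = 1) (hy : ‖y‖ = 1) : ⟪x, y⟫_ℝ = 1 - dist x y ^ 2 / 2 := by
  rw [dist_eq_norm, norm_sub_sq_real, hx, hy]; ring

lemma comb {E : Type*} [NormedAddCommGroup E] [InnerProductSpace ℝ E] (a u v : E) (α β : ℝ)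
    (ha : ‖a‖ = 1) (hu : ‖u‖ = 1) (hv : ‖v‖ = 1) (huv : ⟪u, v⟫_ℝ = 0)
    (hau : ⟪u, a⟫_ℝ = α) (hav : ⟪v, a⟫_ℝ = β) (h : α ^ 2 + β ^ 2 = 1) :
    a = α • u + β • v := by
  have haa : ⟪a, a⟫_ℝ = 1 := by rw [real_inner_self_eq_norm_sq, ha]; norm_num
  have huu : ⟪u, u⟫_ℝ = 1 := by rw [real_inner_self_eq_norm_sq, hu]; norm_num
  have hvv : ⟪v, v⟫_ℝ = 1 := by rw [real_inner_self_eq_norm_sq, hv]; norm_num
  have hau' : ⟪a, u⟫_ℝ = α := by rw [real_inner_comm]; exact hau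
  have hav' : ⟪a, v⟫_ℝ = β := by rw [real_inner_comm]; exact hav
  have huv' : ⟪v, u⟫_ℝ = 0 := by rw [real_inner_comm]; exact huv
  have h1 : ⟪a - (α • u + β • v), a - (α • u + β • v)⟫_ℝ = 0 := by
    simp only [inner_sub_left, inner_sub_right, inner_add_left, inner_add_right,
      real_inner_smul_left, real_inner_smul_right, haa, huu, hvv, huv,
      hau, hav, hau', hav', huv']
    nlinarith
  exact sub_eq_zero.mp (inner_self_eq_zero.mp h1)

theorem no_motion (ι : E3 →ₗᵢ[ℝ] E5) (m : ℝ → Fin 10 → E5)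
    (h0 : m 0 = fun i => ι (p i)) (h1 : m 1 = fun i => ι (q i))
    (hc : ContinuousOn m (Set.Icc 0 1))
    (hn : ∀ t ∈ Set.Icc (0 : ℝ) 1, ∀ i, ‖m t i‖ = 1)
    (hm : ∀ i j, MonotoneOn (fun t => dist (m t i) (m t j)) (Set.Icc 0 1) ∨
      AntitoneOn (fun t => dist (m t i) (m t j)) (Set.Icc 0 1)) : False := by
  have I0 : (0 : ℝ) ∈ Set.Icc (0 : ℝ) 1 := ⟨le_refl _, zero_le_one⟩
  have I1 : (1 : ℝ) ∈ Set.Icc (0 : ℝ) 1 := ⟨zero_le_one, le_refl _⟩
  have g0 : ∀ i j, ⟪m 0 i, m 0 j⟫_ℝ = ⟪p i, p j⟫_ℝ := by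
    intro i j; rw [h0]; exact ι.inner_map_map _ _
  have g1 : ∀ i j, ⟪m 1 i, m 1 j⟫_ℝ = ⟪q i, q j⟫_ℝ := by
    intro i j; rw [h1]; exact ι.inner_map_map _ _
  have key : ∀ i j, ⟪p i, p j⟫_ℝ = ⟪q i, q j⟫_ℝ → ∀ t ∈ Set.Icc (0 : ℝ) 1,
      ⟪m t i, m t j⟫_ℝ = ⟪p i, p j⟫_ℝ := by
    intro i j hij t ht
    have e0 := inner_of_dist _ _ (hn 0 I0 i) (hn 0 I0 j)
    have e1 := inner_of_dist _ _ (hn 1 I1 i) (hn 1 I1 j)
    have et := inner_of_dist _ _ (hn t ht i) (hn t ht j)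
    rw [g0] at e0
    rw [g1] at e1
    have hd : dist (m 0 i) (m 0 j) = dist (m 1 i) (m 1 j) := by
      have a : dist (m 0 i) (m 0 j) ^ 2 = dist (m 1 i) (m 1 j) ^ 2 := by linarith
      exact (sq_eq_sq₀ dist_nonneg dist_nonneg).mp a
    have := const_of_mono _ (hm i j) hd t ht
    rw [et, this, e0]
  have hcont : ContinuousOn (fun t => ⟪m t 0, m t 5⟫_ℝ) (Set.Icc 0 1) :=
    ContinuousOn.inner ((continuous_apply 0).comp_continuousOn hc)
      ((continuous_apply 5).comp_continuousOn hc)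
  have hz : (0 : ℝ) ∈ Set.Icc (⟪m 1 0, m 1 5⟫_ℝ) (⟪m 0 0, m 0 5⟫_ℝ) := by
    rw [g0, g1, inner3, inner3]
    simp [p, q]
  obtain ⟨t, ht, hz⟩ := intermediate_value_Icc' zero_le_one hcont hz
  simp only at hz
  have K : ∀ i j (c : ℝ), ⟪p i, p j⟫_ℝ = c → ⟪q i, q j⟫_ℝ = c → ⟪m t i, m t j⟫_ℝ = c := by
    intro i j c a b
    rw [key i j (by rw [a, b]) t ht, a]
  have n := hn t ht
  have k01 := K 0 1 0 (by simp [inner3, p]) (by simp [inner3, q])
  have k02 := K 0 2 0 (by simp [inner3, p]) (by simp [inner3, q])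
  have k12 := K 1 2 0 (by simp [inner3, p]) (by simp [inner3, q])
  have k56 := K 5 6 0 (by simp [inner3, p]) (by simp [inner3, q])
  have k57 := K 5 7 0 (by simp [inner3, p]) (by simp [inner3, q])
  have k67 := K 6 7 0 (by simp [inner3, p]) (by simp [inner3, q])
  have k06 := K 0 6 0 (by simp [inner3, p]) (by simp [inner3, q])
  have k07 := K 0 7 0 (by simp [inner3, p]) (by simp [inner3, q])
  have k15 := K 1 5 0 (by simp [inner3, p]) (by simp [inner3, q])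
  have k17 := K 1 7 0 (by simp [inner3, p]) (by simp [inner3, q])
  have k25 := K 2 5 0 (by simp [inner3, p]) (by simp [inner3, q])
  have k26 := K 2 6 0 (by simp [inner3, p]) (by simp [inner3, q])
  have k03 := K 0 3 (3 / 5) (by simp [inner3, p]) (by simp [inner3, q])
  have k13 := K 1 3 (4 / 5) (by simp [inner3, p]) (by simp [inner3, q])
  have k14 := K 1 4 (3 / 5) (by simp [inner3, p]) (by simp [inner3, q])
  have k24 := K 2 4 (4 / 5) (by simp [inner3, p]) (by simp [inner3, q])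
  have k58 := K 5 8 (4 / 5) (by simp [inner3, p]) (by simp [inner3, q]; norm_num)
  have k68 := K 6 8 (-3 / 5) (by simp [inner3, p]) (by simp [inner3, q]; norm_num)
  have k69 := K 6 9 (4 / 5) (by simp [inner3, p]) (by simp [inner3, q]; norm_num)
  have k79 := K 7 9 (-3 / 5) (by simp [inner3, p]) (by simp [inner3, q]; norm_num)
  have k38 := K 3 8 0 (by simp [inner3, p]; norm_num) (by simp [inner3, q]; norm_num)
  have k49 := K 4 9 0 (by simp [inner3, p]; norm_num) (by simp [inner3, q]; norm_num)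
  have e3 := comb _ _ _ _ _ (n 3) (n 0) (n 1) k01 k03 k13 (by norm_num)
  have e4 := comb _ _ _ _ _ (n 4) (n 1) (n 2) k12 k14 k24 (by norm_num)
  have e8 := comb _ _ _ _ _ (n 8) (n 5) (n 6) k56 k58 k68 (by norm_num)
  have e9 := comb _ _ _ _ _ (n 9) (n 6) (n 7) k67 k69 k79 (by norm_num)
  rw [e3, e8] at k38
  rw [e4, e9] at k49
  simp only [inner_add_left, inner_add_right, real_inner_smul_left, real_inner_smul_right,
    hz, k06, k15, k17, k26] at k38 k49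
  have k16 : ⟪m t 1, m t 6⟫_ℝ = 0 := by linarith
  have k27 : ⟪m t 2, m t 7⟫_ℝ = 0 := by linarith
  have horth : Orthonormal ℝ (![m t 0, m t 1, m t 2, m t 5, m t 6, m t 7] : Fin 6 → E5) := by
    refine ⟨fun i => ?_, fun i j hij => ?_⟩
    · fin_cases i <;> simp [n]
    · fin_cases i <;> fin_cases j <;>
        first
        | exact absurd rfl hij
        | assumption
        | (rw [real_inner_comm]; assumption)
  have := horth.linearIndependent.fintype_card_le_finrank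
  simp at this

noncomputable def emb : E3 →ₗᵢ[ℝ] E5 where
  toFun x := !₂[x 0, x 1, x 2, 0, 0]
  map_add' x y := by ext i; fin_cases i <;> simp
  map_smul' c x := by ext i; fin_cases i <;> simp
  norm_map' x := by
    simp [EuclideanSpace.norm_eq, Fin.sum_univ_succ]

end Pool.Agent.H10.SphereMotion
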