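import Mathlib

set_option autoImplicit false

namespace Pool.Agent.H10.Stack

variable {V : Type} [DecidableEq V]

/-- finite abstract simplicial complex -/
def IsCx (K : Set (Finset V)) : Prop := K.Finite ∧ ∀ s ∈ K, ∀ t, t ⊆ s → t ∈ K

/-- `F` is a maximal face of `K` -/
def Facet (K : Set (Finset V)) (F : Finset V) : Prop := F ∈ K ∧ ∀ G ∈ K, F ⊆ G → G = F

/-- all facets have `k` vertices -/
def Pure (k : ℕ) (K : Set (Finset V)) : Prop := ∀ F, Facet K F → F.card = k

/-- `K` is pure and its facets have a shelling order -/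
def Shellable (K : Set (Finset V)) : Prop :=
  ∃ k, Pure k K ∧ ∃ (n : ℕ) (F : Fin n → Finset V), Function.Injective F ∧
    (∀ G, Facet K G ↔ ∃ j, F j = G) ∧
    ∀ j : Fin n, 0 < j.val → Pure (k - 1) {t | t ⊆ F j ∧ ∃ i, i < j ∧ t ⊆ F i}

def lk (K : Set (Finset V)) (v : V) : Set (Finset V) := {s | v ∉ s ∧ insert v s ∈ K}

def del (K : Set (Finset V)) (v : V) : Set (Finset V) := {s | s ∈ K ∧ v ∉ s}

/-- vertex-decomposable complexes (Provan–Billera) -/
inductive VD : Set (Finset V) → Prop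
  | simplex (S : Finset V) : VD {s | s ⊆ S}
  | shed (K : Set (Finset V)) (v : V) : (∃ k, Pure k K) → {v} ∈ K → VD (lk K v) → VD (del K v) →
      (∀ F, Facet (lk K v) F → ¬ Facet (del K v) F) → VD K

/-- stack every facet `F` of `K`, with new vertex `w F` -/
def stack (K : Set (Finset V)) (w : Finset V → V) : Set (Finset V) :=
  {s | (s ∈ K ∧ ¬ Facet K s) ∨ ∃ F, Facet K F ∧ ∃ G, G ⊂ F ∧ s = insert (w F) G}

end Pool.Agent.H10.Stack
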