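import Mathlib
import Pool.Agent.H10.StackDefs

set_option autoImplicit false

namespace Pool.Agent.H10.Stack
open Finset

variable {V : Type} [DecidableEq V]

inductive Sh : Finset (Finset V) → Prop
  | single (F : Finset V) : Sh {F}
  | add (D : Finset (Finset V)) (F : Finset V) : Sh D → F ∉ D →
      (∀ G ∈ D, ∃ H ∈ D, ∃ x ∈ F, x ∉ G ∧ F.erase x ⊆ H) → Sh (insert F D)

lemma Sh.ne {D : Finset (Finset V)} (h : Sh D) : D.Nonempty := by
  cases h <;> simp

lemma Sh.add' {D : Finset (Finset V)} (h : Sh D) (F : Finset V)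
    (h2 : F ∉ D → ∀ G ∈ D, ∃ H ∈ D, ∃ x ∈ F, x ∉ G ∧ F.erase x ⊆ H) : Sh (insert F D) := by
  by_cases e : F ∈ D
  · rwa [insert_eq_of_mem e]
  · exact h.add D F e (h2 e)

/-- pendant facets can be removed from a shelling -/
lemma Sh.pend {D : Finset (Finset V)} (h : Sh D) (k : ℕ) (P : Finset V → Prop) [DecidablePred P]
    (a : Finset V → V) :
    (∀ G ∈ D, G.card = k) → (∀ G ∈ D, P G → a G ∈ G ∧ ∀ H ∈ D, a G ∈ H → H = G) →
    (∀ G ∈ D, ∀ H ∈ D, P G → P H → G.erase (a G) = H.erase (a H) → G = H) →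
    (∃ G, D = {G}) ∨ (Sh (D.filter fun G => ¬ P G) ∧
      ∀ G ∈ D, P G → ∃ H ∈ D, ¬ P H ∧ G.erase (a G) ⊆ H) := by
  induction h with
  | single F => exact fun _ _ _ => Or.inl ⟨F, rfl⟩
  | add D F hD hF hs ih =>
    intro h1 h2 h3
    have mF := mem_insert_self F D
    have K1 : ∀ H ∈ D, ∀ x ∈ F, F.erase x ⊆ H → P H → F.erase x = H.erase (a H) := by
      intro H hH x hx e p
      obtain ⟨b1, b2⟩ := h2 H (mem_insert_of_mem hH) p
      refine eq_of_subset_of_card_le (subset_erase.2 ⟨e, fun c => hF ?_⟩) ?_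
      · rwa [b2 F mF (mem_of_mem_erase c)]
      · rw [card_erase_of_mem hx, card_erase_of_mem b1, h1 F mF, h1 H (mem_insert_of_mem hH)]
    have K2 : ∀ H ∈ D, ∀ x ∈ F, F.erase x ⊆ H → P F → x = a F ∧ ¬ P H := by
      intro H hH x hx e p
      obtain ⟨b1, b2⟩ := h2 F mF p
      have : x = a F := by
        by_contra c
        exact hF (b2 H (mem_insert_of_mem hH) (e (mem_erase.2 ⟨Ne.symm c, b1⟩)) ▸ hH)
      refine ⟨this, fun q => hF ?_⟩
      rwa [h3 F mF H (mem_insert_of_mem hH) p q (this ▸ K1 H hH x hx e q)]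
    refine Or.inr ?_
    rw [filter_insert]
    rcases ih (fun G hG => h1 G (mem_insert_of_mem hG))
      (fun G hG p => ⟨(h2 G (mem_insert_of_mem hG) p).1, fun H hH =>
        (h2 G (mem_insert_of_mem hG) p).2 H (mem_insert_of_mem hH)⟩)
      (fun G hG H hH => h3 G (mem_insert_of_mem hG) H (mem_insert_of_mem hH)) with
      ⟨G, rfl⟩ | ⟨i1, i2⟩
    · obtain ⟨H, hH, x, hx, -, e⟩ := hs G (mem_singleton_self G)
      obtain rfl := mem_singleton.1 hH
      by_cases p : P F
      · obtain ⟨rfl, q⟩ := K2 H hH x hx e p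
        rw [if_neg (not_not.2 p), filter_singleton, if_pos q]
        refine ⟨Sh.single _, fun G hG r => ⟨H, mem_insert_of_mem hH, q, ?_⟩⟩
        rcases mem_insert.1 hG with rfl | hG
        exacts [e, absurd (mem_singleton.1 hG ▸ r) q]
      · rw [if_pos p, filter_singleton]
        by_cases q : P H
        · rw [if_neg (not_not.2 q)]
          refine ⟨Sh.single _, fun G hG r => ⟨F, mF, p, ?_⟩⟩
          rcases mem_insert.1 hG with rfl | hG
          · exact absurd r p
          · rw [mem_singleton.1 hG, ← K1 H hH x hx e q]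
            exact erase_subset _ _
        · rw [if_pos q]
          refine ⟨Sh.add _ _ hD hF hs, fun G hG r => ?_⟩
          rcases mem_insert.1 hG with rfl | hG
          exacts [absurd r p, absurd (mem_singleton.1 hG ▸ r) q]
    · have i3 : ∀ G ∈ D, P G → ∃ H ∈ insert F D, ¬ P H ∧ G.erase (a G) ⊆ H := fun G hG r =>
        (i2 G hG r).imp fun H b => ⟨mem_insert_of_mem b.1, b.2⟩
      by_cases p : P F
      · rw [if_neg (not_not.2 p)]
        refine ⟨i1, fun G hG r => ?_⟩
        rcases mem_insert.1 hG with rfl | hG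
        · obtain ⟨G', hG'⟩ := hD.ne
          obtain ⟨H, hH, x, hx, -, e⟩ := hs G' hG'
          obtain ⟨rfl, q⟩ := K2 H hH x hx e p
          exact ⟨H, mem_insert_of_mem hH, q, e⟩
        · exact i3 G hG r
      · rw [if_pos p]
        refine ⟨i1.add' F fun _ G hG => ?_, fun G hG r => ?_⟩
        · obtain ⟨H, hH, x, hx, b, e⟩ := hs G (mem_filter.1 hG).1
          by_cases q : P H
          · obtain ⟨H', c1, c2, c3⟩ := i2 H hH q
            exact ⟨H', mem_filter.2 ⟨c1, c2⟩, x, hx, b, K1 H hH x hx e q ▸ c3⟩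
          · exact ⟨H, mem_filter.2 ⟨hH, q⟩, x, hx, b, e⟩
        · rcases mem_insert.1 hG with rfl | hG
          exacts [absurd r p, i3 G hG r]

/-- gluing a cone over a shellable complex -/
lemma Sh.cone {Z L : Finset (Finset V)} (hZ : Sh Z) (hL : Sh L) (v : V) (h1 : ∀ G ∈ Z, v ∉ G) :
    (∀ G ∈ L, v ∉ G ∧ ∃ H ∈ Z, G ⊆ H) → Sh (Z ∪ L.image (insert v)) := by
  induction hL with
  | single F =>
    intro h
    obtain ⟨a, H, hH, b⟩ := h F (mem_singleton_self F)
    rw [image_singleton, union_comm, ← insert_eq]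
    exact hZ.add' _ fun _ G hG => ⟨H, hH, v, mem_insert_self _ _, h1 G hG, by
      rwa [erase_insert a]⟩
  | add D F hD hF hs ih =>
    intro h
    obtain ⟨a, H, hH, b⟩ := h F (mem_insert_self F D)
    rw [image_insert, union_insert]
    refine (ih fun G hG => h G (mem_insert_of_mem hG)).add' _ fun _ G hG => ?_
    rcases mem_union.1 hG with hG | hG
    · exact ⟨H, mem_union_left _ hH, v, mem_insert_self _ _, h1 G hG, by rwa [erase_insert a]⟩
    · obtain ⟨G', hG', rfl⟩ := mem_image.1 hG
      obtain ⟨H', c1, x, c2, c3, c4⟩ := hs G' hG'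
      have : x ≠ v := fun e => a (e ▸ c2)
      refine ⟨insert v H', mem_union_right _ (mem_image_of_mem _ c1), x, mem_insert_of_mem c2,
        by simp [this, c3], ?_⟩
      rw [erase_insert_of_ne this.symm]
      exact insert_subset_insert _ c4

/-- a complex in which some facets are stacked and some are pendant -/
def cx (m : ℕ) (N : Finset V) (f : V → Finset V) : Set (Finset V) :=
  {s | ∃ w ∈ N, ∃ t, t ⊆ f w ∧ t.card = m ∧ s ⊆ insert w t}

def un (m : ℕ) (f : V → Finset V) (w : V) : Finset V :=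
  if (f w).card = m then insert w (f w) else f w

structure Ok (m : ℕ) (N : Finset V) (f : V → Finset V) : Prop where
  new : ∀ w ∈ N, ∀ w' ∈ N, w ∉ f w'
  card : ∀ w ∈ N, (f w).card = m ∨ (f w).card = m + 1
  inj : ∀ w ∈ N, ∀ w' ∈ N, (f w).card = m + 1 → f w = f w' → w = w'

lemma sub_un (m : ℕ) (f : V → Finset V) (w : V) : f w ⊆ un m f w := by
  unfold un; split_ifs; exacts [subset_insert _ _, subset_rfl]

lemma un_sub (m : ℕ) (f : V → Finset V) (w : V) : un m f w ⊆ insert w (f w) := by
  unfold un; split_ifs; exacts [subset_rfl, subset_insert _ _]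

lemma Ok.card_un {m : ℕ} {N : Finset V} {f : V → Finset V} (h : Ok m N f) (w : V) (hw : w ∈ N) :
    (un m f w).card = m + 1 := by
  unfold un; split_ifs with c
  · rw [card_insert_of_notMem (h.new w hw w hw), c]
  · exact (h.card w hw).resolve_left c

lemma Ok.ex {m : ℕ} {N : Finset V} {f : V → Finset V} (h : Ok m N f) (w : V) (hw : w ∈ N) :
    ∃ t, t ⊆ f w ∧ t.card = m :=
  exists_subset_card_eq (by rcases h.card w hw with c | c <;> omega)

lemma Ok.shed {m : ℕ} {N : Finset V} {f : V → Finset V} (h : Ok m N f) (u : V)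
    (hs : ∀ F, Facet (lk (cx m N f) u) F → ¬ Facet (del (cx m N f) u) F) (w : V) (hw : w ∈ N)
    (t : Finset V) (h1 : t ⊆ f w) (h2 : t.card = m) (hu : u ∈ insert w t) :
    ∃ w' ∈ N, ∃ t', t' ⊆ f w' ∧ t'.card = m ∧ u ∉ insert w' t' ∧
      (insert w t).erase u ⊆ insert w' t' := by
  have cd : ∀ w ∈ N, ∀ t, t ⊆ f w → t.card = m → (insert w t).card = m + 1 := fun w hw t a b => by
    rw [card_insert_of_notMem fun c => h.new w hw w hw (a c), b]
  have c0 : ((insert w t).erase u).card = m := by rw [card_erase_of_mem hu, cd w hw t h1 h2]; rfl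
  have := hs ((insert w t).erase u) ⟨⟨notMem_erase _ _, w, hw, t, h1, h2, by
    rw [insert_erase hu]⟩, ?_⟩
  · by_contra hc
    refine this ⟨⟨⟨w, hw, t, h1, h2, erase_subset _ _⟩, notMem_erase _ _⟩, ?_⟩
    rintro G ⟨⟨w', hw', t', a1, a2, a3⟩, a4⟩ a5
    have a6 : u ∈ insert w' t' := by
      by_contra a6
      exact hc ⟨w', hw', t', a1, a2, a6, a5.trans a3⟩
    refine (eq_of_subset_of_card_le a5 ?_).symm
    have := card_le_card (subset_erase.2 ⟨a3, a4⟩)
    rw [card_erase_of_mem a6, cd w' hw' t' a1 a2] at this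
    omega
  · rintro G ⟨a4, w', hw', t', a1, a2, a3⟩ a5
    refine (eq_of_subset_of_card_le a5 ?_).symm
    have := card_le_card a3
    rw [card_insert_of_notMem a4, cd w' hw' t' a1 a2] at this
    omega

theorem sh_of_vd (X : Set (Finset V)) (hX : VD X) : ∀ (m : ℕ) (N : Finset V) (f : V → Finset V),
    Ok m N f → X = cx m N f → Sh (N.image (un m f)) := by
  classical
  induction hX with
  | simplex S =>
    intro m N f h e
    obtain ⟨w, hw, t, a1, -, a3⟩ : S ∈ cx m N f := by rw [← e]; exact Finset.Subset.refl S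
    have : N = {w} := by
      refine eq_singleton_iff_unique_mem.2 ⟨hw, fun x hx => ?_⟩
      obtain ⟨t', b1, b2⟩ := h.ex x hx
      have : ({x} : Finset V) ∈ cx m N f := ⟨x, hx, t', b1, b2, by simp⟩
      rw [← e] at this
      exact (mem_insert.1 (a3 (singleton_subset_iff.1 this))).resolve_right
        fun c => h.new x hx w hw (a1 c)
    rw [this, image_singleton]
    exact Sh.single _
  | shed K u _ hu _ _ hs il id =>
    intro m N f h e
    subst e
    have sd := h.shed u hs
    by_cases uN : u ∈ N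
    · have sd' : ∀ t, t ⊆ f u → t.card = m → ∃ w ∈ N.erase u, ∃ t', t' ⊆ f w ∧ t'.card = m ∧
          t ⊆ t' := by
        intro t a1 a2
        obtain ⟨w, hw, t', b1, b2, b3, b4⟩ := sd u uN t a1 a2 (mem_insert_self _ _)
        rw [erase_insert fun c => h.new u uN u uN (a1 c)] at b4
        exact ⟨w, mem_erase.2 ⟨fun c => b3 (c ▸ mem_insert_self _ _), hw⟩, t', b1, b2,
          (subset_insert_iff_of_notMem fun c => h.new w hw u uN (a1 c)).1 b4⟩
      have := id m (N.erase u) f ⟨fun w hw w' hw' => h.new w (mem_of_mem_erase hw) w'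
        (mem_of_mem_erase hw'), fun w hw => h.card w (mem_of_mem_erase hw), fun w hw w' hw' =>
          h.inj w (mem_of_mem_erase hw) w' (mem_of_mem_erase hw')⟩ (by
        ext s
        constructor
        · rintro ⟨⟨w, hw, t, a1, a2, a3⟩, a4⟩
          by_cases c : w = u
          · subst c
            obtain ⟨w', hw', t', b1, b2, b3⟩ := sd' t a1 a2
            exact ⟨w', hw', t', b1, b2, ((subset_insert_iff_of_notMem a4).1 a3).trans
              (b3.trans (subset_insert _ _))⟩
          · exact ⟨w, mem_erase.2 ⟨c, hw⟩, t, a1, a2, a3⟩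
        · rintro ⟨w, hw, t, a1, a2, a3⟩
          obtain ⟨c, hw⟩ := mem_erase.1 hw
          exact ⟨⟨w, hw, t, a1, a2, a3⟩, fun b => (mem_insert.1 (a3 b)).elim (Ne.symm c)
            fun b => h.new u uN w hw (a1 b)⟩)
      rw [← insert_erase uN, image_insert]
      refine this.add' _ fun hn G hG => ?_
      obtain ⟨w, hw, rfl⟩ := mem_image.1 hG
      obtain ⟨c, hw'⟩ := mem_erase.1 hw
      by_cases cu : (f u).card = m
      · obtain ⟨w', a1, t', b1, -, b3⟩ := sd' (f u) subset_rfl cu
        have e : un m f u = insert u (f u) := if_pos cu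
        refine ⟨_, mem_image_of_mem _ a1, u, e ▸ mem_insert_self _ _, fun b =>
          (mem_insert.1 (un_sub m f w b)).elim (Ne.symm c) (h.new u uN w hw'), ?_⟩
        rw [e, erase_insert (h.new u uN u uN)]
        exact b3.trans (b1.trans (sub_un m f w'))
      · have e : un m f u = f u := if_neg cu
        obtain ⟨x, x1, x2⟩ : ∃ x ∈ un m f u, x ∉ un m f w := by
          by_contra hc
          push Not at hc
          exact hn (eq_of_subset_of_card_le hc (by rw [h.card_un u uN, h.card_un w hw']) ▸ hG)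
        obtain ⟨w', a1, t', b1, -, b3⟩ := sd' ((un m f u).erase x)
          (e ▸ erase_subset _ _) (by rw [card_erase_of_mem x1, h.card_un u uN]; rfl)
        exact ⟨_, mem_image_of_mem _ a1, x, x1, x2, b3.trans (b1.trans (sub_un m f w'))⟩
    · obtain ⟨w0, hw0, t0, a1, a2, a3⟩ := hu
      have ut : u ∈ t0 := (mem_insert.1 (singleton_subset_iff.1 a3)).resolve_left
        fun c => uN (c ▸ hw0)
      obtain ⟨m, rfl⟩ : ∃ k, m = k + 1 := ⟨m - 1, by have := card_pos.2 ⟨u, ut⟩; omega⟩
      have big : ∀ w ∈ N, u ∈ f w → (f w).card = m + 2 := by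
        intro w hw c
        refine (h.card w hw).resolve_left fun d => ?_
        obtain ⟨w', hw', t', b1, b2, b3, b4⟩ := sd w hw (f w) subset_rfl d (mem_insert_of_mem c)
        have : w = w' := (mem_insert.1 (b4 (mem_erase.2 ⟨fun e => uN (e ▸ hw),
          mem_insert_self _ _⟩))).resolve_right fun e => h.new w hw w' hw' (b1 e)
        subst this
        exact b3 (mem_insert_of_mem (eq_of_subset_of_card_le b1 (by omega) ▸ c))
      let g : V → Finset V := fun w => (f w).erase u
      have g1 : ∀ w ∈ N, u ∈ f w → (g w).card = m + 1 := fun w hw c => by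
        simp only [g]; rw [card_erase_of_mem c, big w hw c]; rfl
      have g2 : ∀ w, u ∉ f w → g w = f w := fun w c => erase_eq_of_notMem c
      have g3 : ∀ w ∈ N, ∀ w' ∈ N, u ∈ f w → u ∈ f w' → g w = g w' → w = w' :=
        fun w hw w' hw' c c' e => h.inj w hw w' hw' (big w hw c) (by
          rw [← insert_erase c, ← insert_erase c']
          exact congrArg _ e)
      have gn : ∀ w ∈ N, ∀ w' ∈ N, w ∉ g w' := fun w hw w' hw' c =>
        h.new w hw w' hw' (mem_of_mem_erase c)
      have okd : Ok (m + 1) N g := ⟨gn, fun w hw => by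
        by_cases c : u ∈ f w
        exacts [Or.inl (g1 w hw c), g2 w c ▸ h.card w hw], fun w hw w' hw' c e => by
          have c1 : u ∉ f w := fun d => by have := g1 w hw d; omega
          have c2 : u ∉ f w' := fun d => by have := g1 w' hw' d; rw [← e] at this; omega
          rw [g2 w c1] at c e
          exact h.inj w hw w' hw' c (e.trans (g2 w' c2))⟩
      have sD := id (m + 1) N g okd (by
        ext s
        constructor
        · rintro ⟨⟨w, hw, t, b1, b2, b3⟩, b4⟩
          by_cases c : u ∈ t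
          · refine ⟨w, hw, g w, subset_rfl, g1 w hw (b1 c), fun x hx => ?_⟩
            exact mem_insert.2 ((mem_insert.1 (b3 hx)).imp_right fun d =>
              mem_erase.2 ⟨fun e => b4 (e ▸ hx), b1 d⟩)
          · exact ⟨w, hw, t, subset_erase.2 ⟨b1, c⟩, b2, b3⟩
        · rintro ⟨w, hw, t, b1, b2, b3⟩
          exact ⟨⟨w, hw, t, b1.trans (erase_subset _ _), b2, b3⟩, fun b =>
            (mem_insert.1 (b3 b)).elim (fun e => uN (e ▸ hw)) fun e => notMem_erase _ _ (b1 e)⟩)
      have sL := il m (N.filter fun w => u ∈ f w) g ⟨fun w hw w' hw' =>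
        gn w (mem_filter.1 hw).1 w' (mem_filter.1 hw').1,
        fun w hw => Or.inr (g1 w (mem_filter.1 hw).1 (mem_filter.1 hw).2),
        fun w hw w' hw' _ => g3 w (mem_filter.1 hw).1 w' (mem_filter.1 hw').1 (mem_filter.1 hw).2
          (mem_filter.1 hw').2⟩ (by
        ext s
        constructor
        · rintro ⟨b4, w, hw, t, b1, b2, b3⟩
          have c : u ∈ t := (mem_insert.1 (b3 (mem_insert_self _ _))).resolve_left
            fun e => uN (e ▸ hw)
          refine ⟨w, mem_filter.2 ⟨hw, b1 c⟩, t.erase u, erase_subset_erase _ b1, by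
            rw [card_erase_of_mem c, b2]; rfl, fun x hx => ?_⟩
          exact mem_insert.2 ((mem_insert.1 (b3 (mem_insert_of_mem hx))).imp_right fun d =>
            mem_erase.2 ⟨fun e => b4 (e ▸ hx), d⟩)
        · rintro ⟨w, hw, t, b1, b2, b3⟩
          obtain ⟨hw, c⟩ := mem_filter.1 hw
          have d : u ∉ t := fun e => notMem_erase _ _ (b1 e)
          refine ⟨fun b => (mem_insert.1 (b3 b)).elim (fun e => uN (e ▸ hw)) d, w, hw, insert u t,
            insert_subset c (b1.trans (erase_subset _ _)), by rw [card_insert_of_notMem d, b2], ?_⟩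
          rw [insert_comm]
          exact insert_subset_insert _ b3)
      have u1 : ∀ w ∈ N, u ∈ f w → un (m + 1) g w = insert w (g w) := fun w hw c =>
        if_pos (g1 w hw c)
      have u2 : ∀ w, u ∉ f w → un (m + 1) g w = un (m + 1) f w := fun w c => by
        simp only [un, g2 w c]
      have u3 : ∀ w ∈ N, u ∈ f w → un m g w = g w := fun w hw c =>
        if_neg (by rw [g1 w hw c]; omega)
      have u4 : ∀ w ∈ N, u ∈ f w → un (m + 1) f w = f w := fun w hw c =>
        if_neg (by rw [big w hw c]; omega)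
      have own : ∀ w ∈ N, ∀ w' ∈ N, w ∈ un (m + 1) g w' → w = w' := fun w hw w' hw' c =>
        (mem_insert.1 (un_sub _ g w' c)).resolve_right (gn w hw w' hw')
      let P : Finset V → Prop := fun G => ∃ w ∈ N, u ∈ f w ∧ w ∈ G
      let a : Finset V → V := fun G => if c : P G then c.choose else u
      have pa : ∀ w ∈ N, P (un (m + 1) g w) → u ∈ f w ∧ a (un (m + 1) g w) = w := by
        intro w hw p
        obtain ⟨b1, b2, b3⟩ := p.choose_spec
        have := own _ b1 w hw b3
        exact ⟨this ▸ b2, (dif_pos p).trans this⟩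
      have pp : ∀ w ∈ N, u ∈ f w → P (un (m + 1) g w) := fun w hw c =>
        ⟨w, hw, c, u1 w hw c ▸ mem_insert_self _ _⟩
      have pe : ∀ w ∈ N, u ∈ f w → (un (m + 1) g w).erase (a (un (m + 1) g w)) = g w := by
        intro w hw c
        rw [(pa w hw (pp w hw c)).2, u1 w hw c, erase_insert (gn w hw w hw)]
      rcases sD.pend (m + 2) P a (by simpa using okd.card_un) (by
        simp only [mem_image, forall_exists_index, and_imp, forall_apply_eq_imp_iff₂]
        intro w hw p
        obtain ⟨b1, b2⟩ := pa w hw p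
        rw [b2]
        exact ⟨u1 w hw b1 ▸ mem_insert_self _ _, fun w' hw' c => by rw [own w hw w' hw' c]⟩) (by
        simp only [mem_image, forall_exists_index, and_imp, forall_apply_eq_imp_iff₂]
        intro w hw w' hw' p p' e
        rw [pe w hw (pa w hw p).1, pe w' hw' (pa w' hw' p').1] at e
        rw [g3 w hw w' hw' (pa w hw p).1 (pa w' hw' p').1 e]) with ⟨G, hG⟩ | ⟨i1, i2⟩
      · have : N = {w0} := by
          refine eq_singleton_iff_unique_mem.2 ⟨hw0, fun x hx => (own w0 hw0 x hx ?_).symm⟩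
          have e : ∀ y ∈ N, un (m + 1) g y = G := fun y hy =>
            mem_singleton.1 (hG ▸ mem_image_of_mem (un (m + 1) g) hy)
          rw [e x hx, ← e w0 hw0, u1 w0 hw0 (a1 ut)]
          exact mem_insert_self _ _
        rw [this, image_singleton]
        exact Sh.single _
      · have := i1.cone sL u (fun G hG => by
          obtain ⟨w, hw, rfl⟩ := mem_image.1 (mem_filter.1 hG).1
          exact fun c => (mem_insert.1 (un_sub _ g w c)).elim (fun e => uN (e ▸ hw))
            (notMem_erase _ _)) (fun G hG => by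
          obtain ⟨w, hw, rfl⟩ := mem_image.1 hG
          obtain ⟨hw, c⟩ := mem_filter.1 hw
          obtain ⟨H, b1, b2, b3⟩ := i2 _ (mem_image_of_mem _ hw) (pp w hw c)
          rw [pe w hw c] at b3
          rw [u3 w hw c]
          exact ⟨notMem_erase _ _, H, mem_filter.2 ⟨b1, b2⟩, b3⟩)
        convert this using 1
        ext G
        simp only [mem_union, mem_filter, mem_image, exists_exists_and_eq_and]
        constructor
        · rintro ⟨w, hw, rfl⟩
          by_cases c : u ∈ f w
          · exact Or.inr ⟨w, ⟨hw, c⟩, by rw [u3 w hw c, u4 w hw c, insert_erase c]⟩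
          · exact Or.inl ⟨⟨w, hw, u2 w c⟩, fun p => c (pa w hw (u2 w c ▸ p)).1⟩
        · rintro (⟨⟨w, hw, rfl⟩, p⟩ | ⟨w, ⟨hw, c⟩, rfl⟩)
          · exact ⟨w, hw, (u2 w fun c => p (pp w hw c)).symm⟩
          · exact ⟨w, hw, by rw [u3 w hw c, u4 w hw c, insert_erase c]⟩

lemma Sh.list {D : Finset (Finset V)} (h : Sh D) : ∃ (n : ℕ) (F : Fin n → Finset V),
    Function.Injective F ∧ (∀ G, G ∈ D ↔ ∃ j, F j = G) ∧
    ∀ i j, i < j → ∃ l, l < j ∧ ∃ x ∈ F j, x ∉ F i ∧ (F j).erase x ⊆ F l := by
  induction h with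
  | single F =>
    exact ⟨1, fun _ => F, fun i j _ => Subsingleton.elim i j, by simp [eq_comm],
      fun i j h => absurd (Subsingleton.elim i j) h.ne⟩
  | add D F _ hF hs ih =>
    obtain ⟨n, f, h1, h2, h3⟩ := ih
    refine ⟨n + 1, Fin.snoc (α := fun _ => Finset V) f F, ?_, fun G => ?_, fun i j h => ?_⟩
    · refine Fin.snoc_injective_of_injective h1 ?_
      rintro ⟨j, rfl⟩
      exact hF ((h2 _).2 ⟨j, rfl⟩)
    · rw [mem_insert, h2, Fin.exists_fin_succ']
      simp only [Fin.snoc_castSucc, Fin.snoc_last]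
      tauto
    · obtain ⟨i, rfl⟩ := Fin.exists_castSucc_eq.2 (Fin.ne_last_of_lt h)
      rcases Fin.eq_castSucc_or_eq_last j with ⟨j, rfl⟩ | rfl
      · obtain ⟨l, a, b⟩ := h3 i j (Fin.castSucc_lt_castSucc_iff.1 h)
        exact ⟨l.castSucc, Fin.castSucc_lt_castSucc_iff.2 a, by simpa using b⟩
      · obtain ⟨H, a, b⟩ := hs (f i) ((h2 _).2 ⟨i, rfl⟩)
        obtain ⟨l, rfl⟩ := (h2 H).1 a
        exact ⟨l.castSucc, Fin.castSucc_lt_last l, by simpa using b⟩

lemma VD.pure {X : Set (Finset V)} (h : VD X) : ∃ k, Pure k X := by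
  cases h with
  | simplex S => exact ⟨S.card, fun F hF => by rw [hF.2 S (Finset.Subset.refl S) hF.1]⟩
  | shed _ _ h => exact h

lemma VD.ne {X : Set (Finset V)} (h : VD X) : X.Nonempty := by
  cases h with
  | simplex S => exact ⟨S, Finset.Subset.refl S⟩
  | shed _ _ _ h => exact ⟨_, h⟩

omit [DecidableEq V] in
lemma ex_facet {K : Set (Finset V)} (hK : K.Finite) {s : Finset V} (hs : s ∈ K) :
    ∃ F, Facet K F ∧ s ⊆ F := by
  obtain ⟨F, h1, h2⟩ := hK.exists_le_maximal hs
  exact ⟨F, ⟨h2.1, fun G hG e => subset_antisymm (h2.2 hG e) e⟩, h1⟩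

theorem shellable_of_vd (K : Set (Finset V)) (hK : IsCx K) (w : Finset V → V)
    (hi : ∀ F G, Facet K F → Facet K G → w F = w G → F = G) (hn : ∀ F, Facet K F → {w F} ∉ K)
    (h : VD (stack K w)) : Shellable K := by
  classical
  have nw : ∀ F, Facet K F → ∀ s ∈ K, w F ∉ s := fun F hF s hs c =>
    hn F hF (hK.2 s hs _ (singleton_subset_iff.2 c))
  have ne : ∀ F, Facet K F → F.Nonempty := by
    intro F hF
    rw [nonempty_iff_ne_empty]
    rintro rfl
    obtain ⟨s, ⟨a, b⟩ | ⟨G, a, G', b, -⟩⟩ := h.ne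
    · exact b (hF.2 s a (empty_subset _) ▸ hF)
    · rw [hF.2 G a.1 (empty_subset _)] at b
      exact not_ssubset_empty _ b
  obtain ⟨k, hk⟩ := h.pure
  have pure : Pure k K := by
    intro F hF
    obtain ⟨x, hx⟩ := ne F hF
    have := hk (insert (w F) (F.erase x)) ⟨Or.inr ⟨F, hF, _, erase_ssubset hx, rfl⟩, ?_⟩
    · rw [card_insert_of_notMem fun c => nw F hF F hF.1 (mem_of_mem_erase c),
        card_erase_add_one hx] at this
      exact this
    · rintro _ (⟨a, -⟩ | ⟨G, a, G', b, rfl⟩) c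
      · exact absurd (c (mem_insert_self _ _)) (nw F hF _ a)
      · have e : F = G := hi F G hF a ((mem_insert.1 (c (mem_insert_self _ _))).resolve_right
          fun d => nw F hF G a.1 (b.1 d))
        subst e
        refine (eq_of_subset_of_card_le c ?_).symm
        have := card_lt_card b
        rw [card_insert_of_notMem fun c => nw F hF F hF.1 (mem_of_mem_erase c),
          card_erase_add_one hx, card_insert_of_notMem fun c => nw F hF F hF.1 (b.1 c)]
        omega
  have fin : {F | Facet K F}.Finite := hK.1.subset fun F hF => hF.1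
  let f : V → Finset V := fun v => if c : ∃ F, Facet K F ∧ w F = v then c.choose else ∅
  have fw : ∀ F, Facet K F → f (w F) = F := fun F hF => by
    have c : ∃ G, Facet K G ∧ w G = w F := ⟨F, hF, rfl⟩
    exact (dif_pos c).trans (hi _ _ c.choose_spec.1 hF c.choose_spec.2)
  have mN : ∀ v, v ∈ fin.toFinset.image w ↔ ∃ F, Facet K F ∧ w F = v := fun v => by simp
  have k1 : ∀ F, Facet K F → F.card = k - 1 + 1 := fun F hF => by
    have := card_pos.2 (ne F hF)
    have := pure F hF
    omega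
  have ss : ∀ F, Facet K F → ∀ s, s ⊂ F → ∃ t, s ⊆ t ∧ t ⊆ F ∧ t.card = k - 1 := fun F hF s hs =>
    exists_subsuperset_card_eq hs.1 (by have := card_lt_card hs; have := k1 F hF; omega)
      (by have := k1 F hF; omega)
  have := sh_of_vd _ h (k - 1) (fin.toFinset.image w) f ⟨?_, ?_, ?_⟩ ?_
  · obtain ⟨n, F, h1, h2, h3⟩ := this.list
    have h4 : ∀ G, Facet K G ↔ ∃ j, F j = G := by
      intro G
      rw [← h2, mem_image]
      have e : ∀ F, Facet K F → un (k - 1) f (w F) = F := fun F hF => by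
        rw [un, fw F hF, if_neg (by rw [k1 F hF]; omega)]
      refine ⟨fun hG => ⟨_, (mN _).2 ⟨G, hG, rfl⟩, e G hG⟩, ?_⟩
      rintro ⟨v, hv, rfl⟩
      obtain ⟨G, hG, rfl⟩ := (mN v).1 hv
      rwa [e G hG]
    refine ⟨k, pure, n, F, h1, h4, ?_⟩
    rintro j - t ⟨⟨a, i, b, c⟩, d⟩
    obtain ⟨l, e1, x, e2, e3, e4⟩ := h3 i j b
    rw [← d ((F j).erase x) ⟨erase_subset _ _, l, e1, e4⟩ (subset_erase.2 ⟨a, fun e => e3 (c e)⟩),
      card_erase_of_mem e2, pure _ ((h4 _).2 ⟨j, rfl⟩)]
  · intro v hv v' hv'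
    obtain ⟨F, hF, rfl⟩ := (mN v).1 hv
    obtain ⟨G, hG, rfl⟩ := (mN v').1 hv'
    rw [fw G hG]
    exact nw F hF G hG.1
  · intro v hv
    obtain ⟨F, hF, rfl⟩ := (mN v).1 hv
    rw [fw F hF]
    exact Or.inr (k1 F hF)
  · intro v hv v' hv' _ e
    obtain ⟨F, hF, rfl⟩ := (mN v).1 hv
    obtain ⟨G, hG, rfl⟩ := (mN v').1 hv'
    rw [fw F hF, fw G hG] at e
    rw [e]
  · ext s
    constructor
    · rintro (⟨a, b⟩ | ⟨F, a, G, b, rfl⟩)
      · obtain ⟨F, c, d⟩ := ex_facet hK.1 a
        obtain ⟨t, e1, e2, e3⟩ := ss F c s (ssubset_of_subset_of_ne d fun e => b (e ▸ c))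
        exact ⟨_, (mN _).2 ⟨F, c, rfl⟩, t, (fw F c).symm ▸ e2, e3, e1.trans (subset_insert _ _)⟩
      · obtain ⟨t, e1, e2, e3⟩ := ss F a G b
        exact ⟨_, (mN _).2 ⟨F, a, rfl⟩, t, (fw F a).symm ▸ e2, e3, insert_subset_insert _ e1⟩
    · rintro ⟨v, hv, t, a, b, c⟩
      obtain ⟨F, hF, rfl⟩ := (mN v).1 hv
      rw [fw F hF] at a
      have tF : t ⊂ F := ssubset_of_subset_of_ne a fun e => by have := k1 F hF; rw [← e] at this; omega
      by_cases d : w F ∈ s
      · refine Or.inr ⟨F, hF, s.erase (w F), lt_of_le_of_lt ?_ tF, (insert_erase d).symm⟩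
        exact fun x hx => (mem_insert.1 (c (mem_of_mem_erase hx))).resolve_left (ne_of_mem_erase hx)
      · have e := (subset_insert_iff_of_notMem d).1 c
        refine Or.inl ⟨hK.2 F hF.1 s (e.trans a), fun g => ?_⟩
        have := g.2 F hF.1 (e.trans a)
        exact tF.2 (this ▸ e)

end Pool.Agent.H10.Stack
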