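import Mathlib

set_option autoImplicit false

namespace Pool.Agent.H10.Steklov
open Finset Classical

variable {V : Type}

lemma deg_bound (G : SimpleGraph V) (D : ℕ) (hD : ∀ v, (G.neighborSet v).encard ≤ (D : ℕ∞))
    (v : V) (S : Finset V) (h : ∀ x ∈ S, G.Adj v x) : #S ≤ D := by
  have : (S : Set V).encard ≤ D := (Set.encard_le_encard fun x hx => h x hx).trans (hD v)
  rw [Set.encard_coe_eq_coe_finsetCard] at this
  exact_mod_cast this

lemma ball_bound (G : SimpleGraph V) (hc : G.Connected) (D : ℕ)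
    (hD : ∀ v, (G.neighborSet v).encard ≤ (D : ℕ∞)) (r : ℕ) :
    ∃ M : ℕ, ∀ v, ∃ T : Finset V, #T ≤ M ∧ ∀ x, G.dist v x ≤ r → x ∈ T := by
  induction r with
  | zero => exact ⟨1, fun v => ⟨{v}, by simp, fun x hx => by
      simpa using ((hc.dist_eq_zero_iff).mp (Nat.le_zero.mp hx)).symm⟩⟩
  | succ r ih =>
    obtain ⟨M, hM⟩ := ih
    choose T h1 h2 using hM
    refine ⟨1 + D * M, fun v => ?_⟩
    have fin : (G.neighborSet v).Finite := Set.finite_of_encard_le_coe (hD v)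
    refine ⟨insert v (fin.toFinset.biUnion T), ?_, fun x hx => ?_⟩
    · refine (card_insert_le _ _).trans ?_
      have a := card_biUnion_le_card_mul fin.toFinset T M fun y _ => h1 y
      have b := deg_bound G D hD v fin.toFinset fun y hy => by simpa using hy
      have := Nat.mul_le_mul_right M b
      omega
    · obtain ⟨p, hp⟩ := hc.exists_walk_length_eq_dist v x
      cases p with
      | nil => simp
      | cons a q =>
        refine mem_insert_of_mem (mem_biUnion.mpr ⟨_, by simpa using a, h2 _ _ ?_⟩)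
        have := G.dist_le q
        simp at hp
        omega

lemma ball_card (G : SimpleGraph V) (hc : G.Connected) (D : ℕ)
    (hD : ∀ v, (G.neighborSet v).encard ≤ (D : ℕ∞)) (r : ℕ) :
    ∃ M : ℕ, ∀ v, ∀ S : Finset V, (∀ x ∈ S, G.dist v x ≤ r) → #S ≤ M := by
  obtain ⟨M, hM⟩ := ball_bound G hc D hD r
  exact ⟨M, fun v S h => by
    obtain ⟨T, h1, h2⟩ := hM v
    exact (card_le_card fun x hx => h2 x (h x hx)).trans h1⟩

inductive Ch (G : SimpleGraph V) (Ω : Finset V) : ℕ → V → V → Prop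
  | refl (n : ℕ) (u : V) : Ch G Ω n u u
  | step (n : ℕ) (u v w : V) : G.Adj u v → (u ∈ Ω ∨ v ∈ Ω) → Ch G Ω n v w → Ch G Ω (n + 1) u w

lemma Ch.mono {G : SimpleGraph V} {Ω : Finset V} {n : ℕ} {u v : V} (h : Ch G Ω n u v) :
    ∀ m, n ≤ m → Ch G Ω m u v := by
  induction h with
  | refl n u => exact fun m _ => Ch.refl m u
  | step n u v w a b _ ih =>
    intro m hm
    obtain ⟨m, rfl⟩ : ∃ k, m = k + 1 := ⟨m - 1, by omega⟩
    exact Ch.step m u v w a b (ih m (by omega))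

lemma Ch.trans {G : SimpleGraph V} {Ω : Finset V} {n m : ℕ} {u v w : V} (h : Ch G Ω n u v)
    (h' : Ch G Ω m v w) : Ch G Ω (n + m) u w := by
  induction h with
  | refl n u => exact h'.mono _ (by omega)
  | step n u v x a b _ ih =>
    rw [Nat.add_right_comm]
    exact Ch.step _ u v w a b (ih h')

lemma Ch.dist {G : SimpleGraph V} (hc : G.Connected) {Ω : Finset V} {n : ℕ} {u v : V}
    (h : Ch G Ω n u v) : G.dist u v ≤ n := by
  induction h with
  | refl n u => simp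
  | step n u v w a b _ ih =>
    have := hc.dist_triangle (u := u) (v := v) (w := w)
    rw [SimpleGraph.dist_eq_one_iff_adj.mpr a] at this
    omega

lemma ch_walk {G : SimpleGraph V} {Ω : Finset V} (P : V → Prop)
    (hP : ∀ x y, G.Adj x y → P x → P y → x ∈ Ω ∨ y ∈ Ω) {u v : V} (p : G.Walk u v)
    (h : ∀ x ∈ p.support, P x) : Ch G Ω p.length u v := by
  induction p with
  | nil => exact Ch.refl _ _
  | cons a q ih =>
    exact Ch.step _ _ _ _ a (hP _ _ a (h _ (by simp)) (h _ (by simp)))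
      (ih fun x hx => h x (by simp [hx]))

lemma supp_dist {G : SimpleGraph V} {u v x : V} (p : G.Walk u v) (h : x ∈ p.support) :
    G.dist u x ≤ p.length ∧ G.dist x v ≤ p.length :=
  ⟨(G.dist_le _).trans (p.length_takeUntil_le_length h), (G.dist_le _).trans (p.length_dropUntil_le_length h)⟩

noncomputable def q (G : SimpleGraph V) (Ω B : Finset V) (f : V → ℝ) (x : V) : ℝ :=
  (∑ y ∈ Ω, if G.Adj x y then (f x - f y) ^ 2 else 0) +
    ∑ y ∈ B, if G.Adj x y then (f x - f y) ^ 2 else 0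

lemma term_nonneg (G : SimpleGraph V) (f : V → ℝ) (x y : V) :
    0 ≤ if G.Adj x y then (f x - f y) ^ 2 else 0 := by split_ifs <;> positivity

lemma q_nonneg (G : SimpleGraph V) (Ω B : Finset V) (f : V → ℝ) (x : V) : 0 ≤ q G Ω B f x :=
  add_nonneg (sum_nonneg fun y _ => term_nonneg G f x y) (sum_nonneg fun y _ => term_nonneg G f x y)

noncomputable def L (G : SimpleGraph V) (Ω B : Finset V) (f : V → ℝ) (z : V) (r : ℕ) : ℝ :=
  ∑ x ∈ Ω, if G.dist z x ≤ r then q G Ω B f x else 0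

lemma L_nonneg (G : SimpleGraph V) (Ω B : Finset V) (f : V → ℝ) (z : V) (r : ℕ) :
    0 ≤ L G Ω B f z r := sum_nonneg fun x _ => by split_ifs; exacts [q_nonneg .., le_rfl]

lemma edge_le (G : SimpleGraph V) (Ω B : Finset V)
    (hB : ∀ v, v ∈ B ↔ v ∉ Ω ∧ ∃ u ∈ Ω, G.Adj u v) (f : V → ℝ) (z : V) (r : ℕ) (x y : V)
    (a : G.Adj x y) (hx : x ∈ Ω) (hd : G.dist z x ≤ r) : (f x - f y) ^ 2 ≤ L G Ω B f z r := by
  have h1 : (f x - f y) ^ 2 ≤ q G Ω B f x := by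
    have e : (f x - f y) ^ 2 = if G.Adj x y then (f x - f y) ^ 2 else 0 := by rw [if_pos a]
    rw [e]
    by_cases hy : y ∈ Ω
    · exact le_add_of_le_of_nonneg (single_le_sum (fun y _ => term_nonneg G f x y) hy)
        (sum_nonneg fun y _ => term_nonneg G f x y)
    · exact le_add_of_nonneg_of_le (sum_nonneg fun y _ => term_nonneg G f x y)
        (single_le_sum (fun y _ => term_nonneg G f x y) ((hB y).mpr ⟨hy, x, hx, a⟩))
  refine h1.trans ?_
  have := single_le_sum (f := fun x => if G.dist z x ≤ r then q G Ω B f x else 0)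
    (fun x _ => by split_ifs; exacts [q_nonneg .., le_rfl]) hx
  rw [if_pos hd] at this
  exact this

lemma ch_le (G : SimpleGraph V) (hc : G.Connected) (Ω B : Finset V)
    (hB : ∀ v, v ∈ B ↔ v ∉ Ω ∧ ∃ u ∈ Ω, G.Adj u v) (f : V → ℝ) (z : V) (r : ℕ) {n : ℕ} {u v : V}
    (h : Ch G Ω n u v) : G.dist z u + n ≤ r → |f u - f v| ≤ n * √(L G Ω B f z r) := by
  induction h with
  | refl n u => intro _; simp; positivity
  | step n u v w a b _ ih =>
    intro hd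
    have t := hc.dist_triangle (u := z) (v := u) (w := v)
    rw [SimpleGraph.dist_eq_one_iff_adj.mpr a] at t
    have h1 : |f u - f v| ≤ √(L G Ω B f z r) := by
      apply Real.abs_le_sqrt
      rcases b with b | b
      · exact edge_le G Ω B hB f z r u v a b (by omega)
      · have := edge_le G Ω B hB f z r v u a.symm b (by omega)
        linarith
    have h2 := ih (by omega)
    have := abs_sub_le (f u) (f v) (f w)
    push_cast
    linarith

lemma ch_sq (G : SimpleGraph V) (hc : G.Connected) (Ω B : Finset V)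
    (hB : ∀ v, v ∈ B ↔ v ∉ Ω ∧ ∃ u ∈ Ω, G.Adj u v) (f : V → ℝ) {n : ℕ} {u v : V}
    (h : Ch G Ω n u v) : (f u - f v) ^ 2 ≤ n ^ 2 * L G Ω B f u n := by
  have h1 := ch_le G hc Ω B hB f u n h (by simp)
  have h2 := pow_le_pow_left₀ (abs_nonneg _) h1 2
  rwa [sq_abs, mul_pow, Real.sq_sqrt (L_nonneg ..)] at h2

lemma sum_L {W : Type} (G : SimpleGraph V) (Ω B : Finset V) (f : V → ℝ) (Z : Finset W)
    (π : W → V) (r M : ℕ) (hM : ∀ x, #(Z.filter fun z => G.dist (π z) x ≤ r) ≤ M) :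
    ∑ z ∈ Z, L G Ω B f (π z) r ≤ M * ∑ x ∈ Ω, q G Ω B f x := by
  unfold L
  rw [sum_comm, mul_sum]
  refine sum_le_sum fun x _ => ?_
  rw [← sum_filter, sum_const, nsmul_eq_mul]
  exact mul_le_mul_of_nonneg_right (by exact_mod_cast hM x) (q_nonneg ..)

lemma adj_sum (G : SimpleGraph V) (D : ℕ) (hD : ∀ v, (G.neighborSet v).encard ≤ (D : ℕ∞))
    (x : V) (S : Finset V) (t : V → ℝ) (K : ℝ) (K0 : 0 ≤ K) (h : ∀ y, G.Adj x y → t y ≤ K) :
    (∑ y ∈ S, if G.Adj x y then t y else 0) ≤ D * K := by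
  rw [← sum_filter]
  refine (sum_le_card_nsmul _ _ K fun y hy => h y (mem_filter.mp hy).2).trans ?_
  rw [nsmul_eq_mul]
  exact mul_le_mul_of_nonneg_right
    (by exact_mod_cast deg_bound G D hD x _ fun y hy => (mem_filter.mp hy).2) K0

lemma max_indep (G : SimpleGraph V) (S : Finset V) : ∃ T ⊆ S, (∀ x ∈ T, ∀ y ∈ T, ¬ G.Adj x y) ∧
    ∀ s ∈ S, ∃ t ∈ T, G.dist t s ≤ 1 := by
  obtain ⟨T, hT, hm⟩ := exists_max_image
    (@filter _ (fun T => ∀ x ∈ T, ∀ y ∈ T, ¬ G.Adj x y) (decPred _) S.powerset) card ⟨∅, by simp⟩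
  replace hT := ((@mem_filter _ _ (decPred _) _ _).mp hT).imp mem_powerset.mp id
  refine ⟨T, hT.1, hT.2, fun s hs => ?_⟩
  by_contra hc
  push Not at hc
  have n1 : s ∉ T := fun h => by simpa using hc s h
  have n2 : ∀ t ∈ T, ¬ G.Adj t s := fun t ht a => by
    have := hc t ht
    rw [SimpleGraph.dist_eq_one_iff_adj.mpr a] at this
    omega
  have := hm (insert s T) (by
    refine (@mem_filter _ _ (decPred _) _ _).mpr
      ⟨mem_powerset.mpr (insert_subset hs hT.1), fun x hx y hy => ?_⟩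
    rcases mem_insert.mp hx with rfl | hx' <;> rcases mem_insert.mp hy with rfl | hy'
    · exact G.loopless.irrefl _
    · exact fun a => n2 y hy' a.symm
    · exact n2 x hx'
    · exact hT.2 x hx' y hy')
  rw [card_insert_of_notMem n1] at this
  omega

noncomputable def En (G : SimpleGraph V) (Ω B : Finset V) (f : V → ℝ) : ℝ :=
  (∑ x ∈ Ω, ∑ y ∈ Ω, (if G.Adj x y then (f x - f y) ^ 2 else 0)) / 2 +
    (∑ x ∈ Ω, ∑ y ∈ B, (if G.Adj x y then (f x - f y) ^ 2 else 0))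

lemma En_q (G : SimpleGraph V) (Ω B : Finset V) (f : V → ℝ) :
    En G Ω B f ≤ ∑ x ∈ Ω, q G Ω B f x ∧ ∑ x ∈ Ω, q G Ω B f x ≤ 2 * En G Ω B f := by
  unfold En q
  rw [sum_add_distrib]
  have a : 0 ≤ ∑ x ∈ Ω, ∑ y ∈ Ω, (if G.Adj x y then (f x - f y) ^ 2 else 0) :=
    sum_nonneg fun x _ => sum_nonneg fun y _ => term_nonneg G f x y
  have b : 0 ≤ ∑ x ∈ Ω, ∑ y ∈ B, (if G.Adj x y then (f x - f y) ^ 2 else 0) :=
    sum_nonneg fun x _ => sum_nonneg fun y _ => term_nonneg G f x y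
  constructor <;> linarith

/-- the transfer construction -/
theorem transfer {V₁ V₂ : Type} (G₁ : SimpleGraph V₁) (G₂ : SimpleGraph V₂) [Nontrivial V₁]
    (c₁ : G₁.Connected) (c₂ : G₂.Connected) (D₁ D₂ : ℕ)
    (d₁ : ∀ v, (G₁.neighborSet v).encard ≤ (D₁ : ℕ∞))
    (d₂ : ∀ v, (G₂.neighborSet v).encard ≤ (D₂ : ℕ∞)) (φ : V₁ → V₂) (ψ : V₂ → V₁) (A : ℕ)
    (h1 : ∀ x y, G₂.dist (φ x) (φ y) ≤ A * G₁.dist x y + A)
    (h2 : ∀ x y, G₁.dist x y ≤ A * G₂.dist (φ x) (φ y) + A)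
    (h3 : ∀ z, G₂.dist (φ (ψ z)) z ≤ A) :
    ∃ K : ℕ, 0 < K ∧ ∀ Ω B : Finset V₂, (∀ v, v ∈ B ↔ v ∉ Ω ∧ ∃ u ∈ Ω, G₂.Adj u v) →
      ∃ Ω' B' : Finset V₁, (∀ v, v ∈ B' ↔ v ∉ Ω' ∧ ∃ u ∈ Ω', G₁.Adj u v) ∧ #B ≤ K * #B' ∧
        ∀ (f : V₁ → ℝ) (m : ℝ), En G₂ Ω B (fun z => f (ψ z) - m) ≤ K * En G₁ Ω' B' f ∧
          ∑ x ∈ B', (f x - m) ^ 2 ≤ K * ∑ z ∈ B, (f (ψ z) - m) ^ 2 + K * En G₁ Ω' B' f := by
  obtain ⟨R0, hR0⟩ : ∃ R0, R0 = A * (1 + 2 * A) + A := ⟨_, rfl⟩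
  obtain ⟨ℓ, hℓ⟩ : ∃ ℓ, ℓ = (R0 + 1) + (A * (R0 + 2) + 2 * A) * R0 + 1 := ⟨_, rfl⟩
  have adjψ : ∀ z w, G₂.Adj z w → G₁.dist (ψ z) (ψ w) ≤ R0 := by
    intro z w a
    have t1 := c₂.dist_triangle (u := φ (ψ z)) (v := z) (w := φ (ψ w))
    have t2 := c₂.dist_triangle (u := z) (v := w) (w := φ (ψ w))
    rw [SimpleGraph.dist_eq_one_iff_adj.mpr a, G₂.dist_comm (u := w)] at t2
    have := h3 z
    have := h3 w
    have := Nat.mul_le_mul_left A (show G₂.dist (φ (ψ z)) (φ (ψ w)) ≤ 1 + 2 * A by omega)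
    have := h2 (ψ z) (ψ w)
    omega
  have near : ∀ r z x, G₁.dist (ψ z) x ≤ r → G₂.dist (φ x) z ≤ A * r + 2 * A := by
    intro r z x h
    have t1 := c₂.dist_triangle (u := φ x) (v := φ (ψ z)) (w := z)
    have := h3 z
    have := h1 x (ψ z)
    rw [G₁.dist_comm] at h
    have := Nat.mul_le_mul_left A h
    omega
  obtain ⟨M1, hM1⟩ := ball_bound G₁ c₁ D₁ d₁ (R0 + 1)
  choose N1 _ hN1 using hM1
  obtain ⟨M2, hM2⟩ := ball_card G₂ c₂ D₂ d₂ (A * R0 + 2 * A)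
  obtain ⟨M3, hM3⟩ := ball_card G₂ c₂ D₂ d₂ (A * 1 + 2 * A)
  obtain ⟨M4, hM4⟩ := ball_card G₁ c₁ D₁ d₁ ℓ
  refine ⟨1 + M3 + 4 * D₂ * R0 ^ 2 * M2 + 2 * M4 + 4 * ℓ ^ 2 * M4, by positivity,
    fun Ω B hB => ?_⟩
  let N : Finset V₁ := (Ω.biUnion fun ω => N1 (ψ ω)).filter fun x =>
    ∃ ω ∈ Ω, G₁.dist (ψ ω) x ≤ R0 + 1
  have hN : ∀ x, x ∈ N ↔ ∃ ω ∈ Ω, G₁.dist (ψ ω) x ≤ R0 + 1 := fun x => by
    simp only [N, mem_filter, mem_biUnion, and_iff_right_iff_imp]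
    rintro ⟨ω, a, b⟩
    exact ⟨ω, a, hN1 _ _ b⟩
  obtain ⟨T, t1, t2, t3⟩ := max_indep G₁ (B.image ψ)
  have fin : ∀ v, (G₁.neighborSet v).Finite := fun v => Set.finite_of_encard_le_coe (d₁ v)
  let B' : Finset V₁ := ((N \ T).biUnion fun u => (fin u).toFinset).filter fun v => v ∉ N \ T
  have hB' : ∀ v, v ∈ B' ↔ v ∉ N \ T ∧ ∃ u ∈ N \ T, G₁.Adj u v := fun v => by
    simp only [B', mem_filter, mem_biUnion, Set.Finite.mem_toFinset, SimpleGraph.mem_neighborSet]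
    exact and_comm
  have hP : ∀ x y, G₁.Adj x y → x ∈ N → y ∈ N → x ∈ N \ T ∨ y ∈ N \ T := fun x y a hx hy => by
    by_contra hc
    simp only [mem_sdiff, hx, hy, true_and, not_or, not_not] at hc
    exact t2 x hc.1 y hc.2 a
  have chψ : ∀ z ∈ Ω, ∀ w, G₂.Adj z w → Ch G₁ (N \ T) R0 (ψ z) (ψ w) := by
    intro z hz w a
    obtain ⟨p, hp⟩ := c₁.exists_walk_length_eq_dist (ψ z) (ψ w)
    have := adjψ z w a
    exact (ch_walk (· ∈ N) hP p fun x hx =>
      (hN x).mpr ⟨z, hz, by have := (supp_dist p hx).1; omega⟩).mono _ (by omega)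
  have TB : T ⊆ B' := by
    intro t ht
    obtain ⟨b, hb, rfl⟩ := mem_image.mp (t1 ht)
    obtain ⟨-, ω, hω, a⟩ := (hB b).mp hb
    obtain ⟨y, hy⟩ := c₁.preconnected.exists_adj_of_nontrivial (ψ b)
    refine (hB' _).mpr ⟨by simp [ht], y, mem_sdiff.mpr ⟨(hN y).mpr ⟨ω, hω, ?_⟩,
      fun h => t2 _ ht _ h hy⟩, hy.symm⟩
    have t := c₁.dist_triangle (u := ψ ω) (v := ψ b) (w := y)
    rw [SimpleGraph.dist_eq_one_iff_adj.mpr hy] at t
    have := adjψ ω b a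
    omega
  have exit : ∀ z w (p : G₂.Walk z w), z ∈ Ω → w ∉ Ω →
      ∃ b ∈ B, Ch G₁ (N \ T) (p.length * R0) (ψ z) (ψ b) := by
    intro z w p
    induction p with
    | nil => exact fun a b => absurd a b
    | @cons z z' w a p ih =>
      intro hz hw
      rw [SimpleGraph.Walk.length_cons, Nat.succ_mul, add_comm]
      by_cases h : z' ∈ Ω
      · obtain ⟨b, hb, hc⟩ := ih h hw
        exact ⟨b, hb, (chψ z hz z' a).trans hc⟩
      · exact ⟨z', (hB z').mpr ⟨h, z, hz, a⟩, (chψ z hz z' a).mono _ (by omega)⟩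
  have link : ∀ x ∈ B', ∃ b ∈ B, Ch G₁ (N \ T) ℓ x (ψ b) := by
    intro x hx
    obtain ⟨n1, y, hy, a⟩ := (hB' x).mp hx
    by_cases hxN : x ∈ N
    · have : x ∈ T := by simpa [hxN] using n1
      obtain ⟨b, hb, rfl⟩ := mem_image.mp (t1 this)
      exact ⟨b, hb, Ch.refl _ _⟩
    · obtain ⟨ω, hω, hd⟩ := (hN y).mp (mem_sdiff.mp hy).1
      obtain ⟨p, hp⟩ := c₁.exists_walk_length_eq_dist y (ψ ω)
      rw [G₁.dist_comm] at hp
      have e1 : Ch G₁ (N \ T) (R0 + 1) y (ψ ω) := (ch_walk (· ∈ N) hP p fun u hu =>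
        (hN u).mpr ⟨ω, hω, by
          have := (supp_dist p hu).2
          rw [G₁.dist_comm] at this
          omega⟩).mono _ (by omega)
      have out : φ x ∉ Ω := fun h => hxN ((hN x).mpr ⟨_, h, by
        have a1 := h2 (ψ (φ x)) x
        have a2 := Nat.mul_le_mul_left A (show G₂.dist (φ (ψ (φ x))) (φ x) ≤ 1 + 2 * A by
          have := h3 (φ x); omega)
        omega⟩)
      obtain ⟨p2, hp2⟩ := c₂.exists_walk_length_eq_dist ω (φ x)
      obtain ⟨b, hb, e2⟩ := exit ω (φ x) p2 hω out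
      have t := c₁.dist_triangle (u := ψ ω) (v := y) (w := x)
      rw [SimpleGraph.dist_eq_one_iff_adj.mpr a] at t
      have e3 := near (R0 + 2) ω x (by omega)
      rw [G₂.dist_comm, ← hp2] at e3
      refine ⟨b, hb, ?_⟩
      rw [hℓ]
      exact Ch.step _ _ _ _ a.symm (Or.inr hy) (e1.trans (e2.mono _ (Nat.mul_le_mul_right _ e3)))
  have : Nonempty V₂ := c₂.nonempty
  choose! β hβ1 hβ2 using link
  refine ⟨N \ T, B', hB', ?_, fun f m => ⟨?_, ?_⟩⟩
  · have a : B ⊆ T.biUnion fun t => B.filter fun b => G₁.dist t (ψ b) ≤ 1 := fun b hb => by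
      obtain ⟨t, ht, hd⟩ := t3 (ψ b) (mem_image_of_mem _ hb)
      exact mem_biUnion.mpr ⟨t, ht, mem_filter.mpr ⟨hb, hd⟩⟩
    have b := card_biUnion_le_card_mul T (fun t => B.filter fun b => G₁.dist t (ψ b) ≤ 1) M3
      fun t _ => hM3 (φ t) _ fun b hb => near 1 b t (by
        rw [G₁.dist_comm]; exact (mem_filter.mp hb).2)
    have c := (card_le_card a).trans b
    have d := card_le_card TB
    calc #B ≤ #T * M3 := c
      _ ≤ #B' * M3 := Nat.mul_le_mul_right _ d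
      _ ≤ _ := by rw [mul_comm]; exact Nat.mul_le_mul_right _ (by omega)
  · have a : ∀ z ∈ Ω, q G₂ Ω B (fun z => f (ψ z) - m) z ≤
        2 * D₂ * R0 ^ 2 * L G₁ (N \ T) B' f (ψ z) R0 := by
      intro z hz
      have K0 : 0 ≤ (R0 : ℝ) ^ 2 * L G₁ (N \ T) B' f (ψ z) R0 :=
        mul_nonneg (by positivity) (L_nonneg ..)
      have b := fun S => adj_sum G₂ D₂ d₂ z S (fun w => (f (ψ z) - m - (f (ψ w) - m)) ^ 2) _ K0
        fun w a => by
          rw [sub_sub_sub_cancel_right]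
          exact ch_sq G₁ c₁ _ B' hB' f (chψ z hz w a)
      have b1 := b Ω
      have b2 := b B
      unfold q
      linarith
    have b := sum_L G₁ (N \ T) B' f Ω ψ R0 M2 fun x => hM2 (φ x) _ fun z hz =>
      near R0 z x (mem_filter.mp hz).2
    have c := (En_q G₂ Ω B fun z => f (ψ z) - m).1.trans (sum_le_sum a)
    rw [← mul_sum] at c
    have d := En_q G₁ (N \ T) B' f
    have e : 0 ≤ ∑ x ∈ N \ T, q G₁ (N \ T) B' f x := sum_nonneg fun x _ => q_nonneg ..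
    have e' : 0 ≤ En G₁ (N \ T) B' f := by linarith [d.2]
    have b' := mul_le_mul_of_nonneg_left (b.trans (mul_le_mul_of_nonneg_left d.2 (by positivity)))
      (show (0 : ℝ) ≤ 2 * D₂ * R0 ^ 2 by positivity)
    have g : (0 : ℝ) ≤ (1 + M3 + 2 * M4 + 4 * ℓ ^ 2 * M4) * En G₁ (N \ T) B' f := by positivity
    push_cast
    linarith
  · have a : ∀ x ∈ B', (f x - m) ^ 2 ≤ 2 * (f (ψ (β x)) - m) ^ 2 +
        2 * ℓ ^ 2 * L G₁ (N \ T) B' f x ℓ := by
      intro x hx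
      have := ch_sq G₁ c₁ _ B' hB' f (hβ2 x hx)
      nlinarith [sq_nonneg (f x - 2 * f (ψ (β x)) + m)]
    have b := sum_L G₁ (N \ T) B' f B' id ℓ M4 fun x => hM4 x _ fun z hz => by
      rw [G₁.dist_comm]; exact (mem_filter.mp hz).2
    simp only [id] at b
    have c := sum_le_sum a
    rw [sum_add_distrib, ← mul_sum, ← mul_sum] at c
    have c2 : ∑ x ∈ B', (f (ψ (β x)) - m) ^ 2 ≤ M4 * ∑ z ∈ B, (f (ψ z) - m) ^ 2 := by
      rw [← sum_fiberwise_of_maps_to hβ1, mul_sum]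
      refine sum_le_sum fun z _ => ?_
      rw [sum_congr rfl (g := fun _ => (f (ψ z) - m) ^ 2) fun x hx => by
        rw [(mem_filter.mp hx).2], sum_const, nsmul_eq_mul]
      refine mul_le_mul_of_nonneg_right ?_ (by positivity)
      exact_mod_cast hM4 (ψ z) _ fun x hx => by
        rw [mem_filter] at hx
        rw [G₁.dist_comm, ← hx.2]
        exact (hβ2 x hx.1).dist c₁
    have d := En_q G₁ (N \ T) B' f
    have e : 0 ≤ ∑ x ∈ N \ T, q G₁ (N \ T) B' f x := sum_nonneg fun x _ => q_nonneg ..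
    have e' : 0 ≤ En G₁ (N \ T) B' f := by linarith [d.2]
    have e2 : 0 ≤ ∑ z ∈ B, (f (ψ z) - m) ^ 2 := by positivity
    have b' := mul_le_mul_of_nonneg_left (b.trans (mul_le_mul_of_nonneg_left d.2 (by positivity)))
      (show (0 : ℝ) ≤ 2 * ℓ ^ 2 by positivity)
    have g : (0 : ℝ) ≤ (1 + M3 + 4 * D₂ * R0 ^ 2 * M2 + 2 * M4) * En G₁ (N \ T) B' f := by
      positivity
    have g2 : (0 : ℝ) ≤ (1 + M3 + 4 * D₂ * R0 ^ 2 * M2 + 4 * ℓ ^ 2 * M4) *
      ∑ z ∈ B, (f (ψ z) - m) ^ 2 := by positivity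
    push_cast
    linarith

end Pool.Agent.H10.Steklov
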