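import Mathlib

set_option autoImplicit false

/-! Two planar sets such that no disc or half-plane cuts off one third of both. -/

namespace Pool.Agent.H10.Third
open MeasureTheory Filter Topology Finset

def px (i : ℕ) : ℤ := [1, 3, -24, -28, -18, 14, 30, 27, 7, -5, -10, 1, 11].getD i 0
def py (i : ℕ) : ℤ := [0, 28, 30, 5, -25, -30, -22, 11, 9, 8, -4, -10, -3].getD i 0
def w (i : ℕ) : ℕ := if i = 0 then 9 else 4

def oz (i j k : ℕ) : ℤ := (px j - px i) * (py k - py i) - (py j - py i) * (px k - px i)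
def nz (i : ℕ) : ℤ := px i ^ 2 + py i ^ 2
def dz (a b c d : ℕ) : ℤ := oz b c d * nz a - oz a c d * nz b + oz a b d * nz c - oz a b c * nz d

def cons : List (Fin 13 × Fin 13 × Fin 13 × Fin 13) := [(1, 0, 8, 9), (5, 2, 10, 12),
  (3, 6, 8, 11), (4, 0, 10, 11), (4, 7, 9, 12), (0, 4, 6, 12), (0, 1, 4, 10), (3, 4, 7, 9),
  (0, 5, 6, 11), (0, 2, 5, 9), (2, 5, 8, 11), (3, 0, 8, 10), (2, 0, 6, 12), (1, 0, 5, 12),
  (0, 7, 8, 11), (0, 4, 7, 11), (3, 0, 9, 11), (4, 0, 10, 12), (0, 6, 7, 11), (0, 7, 9, 12),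
  (0, 1, 3, 8), (0, 3, 6, 10), (0, 1, 2, 3), (0, 1, 4, 9), (1, 0, 5, 8), (0, 1, 9, 12),
  (2, 0, 6, 8), (0, 3, 4, 11), (3, 0, 7, 8), (5, 0, 10, 12)]

def mt (b : Bool) (l : ℤ) : Prop := (b = true ∧ 0 < l) ∨ (b = false ∧ l < 0)

instance (b : Bool) (l : ℤ) : Decidable (mt b l) := by unfold mt; infer_instance

def viol (S : ℕ) (q : Fin 13 × Fin 13 × Fin 13 × Fin 13) : Prop :=
  mt (S.testBit q.1) (oz q.2.1 q.2.2.1 q.2.2.2) ∧ mt (S.testBit q.2.1) (-oz q.1 q.2.2.1 q.2.2.2) ∧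
    mt (S.testBit q.2.2.1) (oz q.1 q.2.1 q.2.2.2) ∧
    mt (S.testBit q.2.2.2) (-oz q.1 q.2.1 q.2.2.1) ∧ 0 < dz q.1 q.2.1 q.2.2.1 q.2.2.2 ∧
    (S.testBit q.1 = true ∨ S.testBit q.2.1 = true)

instance (S : ℕ) (q : Fin 13 × Fin 13 × Fin 13 × Fin 13) : Decidable (viol S q) := by
  unfold viol; infer_instance

def ws (S : ℕ) (l : List ℕ) : ℕ := (l.map fun i => if S.testBit i then w i else 0).sum

lemma check0 : (List.range 8192).all (fun S => decide (37 ≤ 3 * ws S [0, 1, 2, 3, 4, 5, 6, 7] →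
    3 * ws S [8, 9, 10, 11, 12] ≤ 20 → ∃ q ∈ cons, viol S q)) = true := by decide +kernel

lemma check : ∀ S < 8192, 37 ≤ 3 * ws S [0, 1, 2, 3, 4, 5, 6, 7] →
    3 * ws S [8, 9, 10, 11, 12] ≤ 20 → ∃ q ∈ cons, viol S q := fun S h =>
  of_decide_eq_true (List.all_eq_true.mp check0 S (List.mem_range.mpr h))

abbrev E := EuclideanSpace ℝ (Fin 2)

noncomputable def ctr (i : ℕ) : E := WithLp.toLp 2 ![(px i : ℝ), (py i : ℝ)]

def o (x y z : E) : ℝ := (y 0 - x 0) * (z 1 - x 1) - (y 1 - x 1) * (z 0 - x 0)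
def n (x : E) : ℝ := x 0 ^ 2 + x 1 ^ 2
def dl (a b c d : E) : ℝ := o b c d * n a - o a c d * n b + o a b d * n c - o a b c * n d

def Good (x : Fin 13 → E) : Prop :=
  (∀ a b c : Fin 13, 0 < oz a b c → 0 < o (x a) (x b) (x c)) ∧
  (∀ a b c : Fin 13, oz a b c < 0 → o (x a) (x b) (x c) < 0) ∧
  ∀ a b c d : Fin 13, 0 < dz a b c d → 0 < dl (x a) (x b) (x c) (x d)

lemma good_near : ∃ ε > 0, ∀ x : Fin 13 → E, (∀ i, dist (x i) (ctr i) < ε) → Good x := by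
  have e1 : ∀ a b c : ℕ, o (ctr a) (ctr b) (ctr c) = oz a b c := fun a b c => by
    simp [o, oz, ctr]
  have e2 : ∀ a b c d : ℕ, dl (ctr a) (ctr b) (ctr c) (ctr d) = dz a b c d := fun a b c d => by
    simp only [dl, dz, e1]
    simp [n, nz, ctr]
  have : ∀ᶠ x in 𝓝 (fun i : Fin 13 => ctr i), Good x := by
    refine Eventually.and ?_ (Eventually.and ?_ ?_) <;> simp only [eventually_all]
    · intro a b c h
      refine continuousAt_const.eventually_lt (by unfold o; fun_prop) ?_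
      rw [e1]; exact_mod_cast h
    · intro a b c h
      refine ContinuousAt.eventually_lt (by unfold o; fun_prop) continuousAt_const ?_
      rw [e1]; exact_mod_cast h
    · intro a b c d h
      refine continuousAt_const.eventually_lt (by unfold dl o n; fun_prop) ?_
      rw [e2]; exact_mod_cast h
  obtain ⟨ε, h0, h⟩ := Metric.eventually_nhds_iff.mp this
  exact ⟨ε, h0, fun x hx => h ((dist_pi_lt_iff h0).mpr hx)⟩

lemma no_viol {G : Set E} (κ β γ δ : ℝ) (hκ : 0 ≤ κ)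
    (hG : ∀ x, x ∈ G ↔ κ * n x + β * x 0 + γ * x 1 + δ < 0) (x : Fin 13 → E) (hx : Good x) (S : ℕ)
    (hS : ∀ i : Fin 13, S.testBit i = true ↔ x i ∈ G) (q : Fin 13 × Fin 13 × Fin 13 × Fin 13) :
    ¬ viol S q := by
  obtain ⟨a, b, c, d⟩ := q
  rintro ⟨h1, h2, h3, h4, h5, h6⟩
  simp only at h1 h2 h3 h4 h5 h6
  obtain ⟨f, ef⟩ : ∃ f : E → ℝ, f = fun x => κ * n x + β * x 0 + γ * x 1 + δ := ⟨_, rfl⟩
  have key : ∀ (i : Fin 13) (l : ℤ) (r : ℝ), mt (S.testBit i) l → (0 < l → 0 < r) →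
      (l < 0 → r < 0) → r * f (x i) ≤ 0 ∧ (S.testBit i = true → r * f (x i) < 0) := by
    intro i l r h p1 p2
    have := (hS i).trans (hG _)
    rw [show κ * n (x i) + β * x i 0 + γ * x i 1 + δ = f (x i) by rw [ef]] at this
    rcases h with ⟨u, v⟩ | ⟨u, v⟩
    · have := mul_neg_of_pos_of_neg (p1 v) (this.mp u)
      exact ⟨this.le, fun _ => this⟩
    · exact ⟨mul_nonpos_of_nonpos_of_nonneg (p2 v).le (not_lt.mp fun h => by
        simp [this.mpr h] at u), fun h => by simp [h] at u⟩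
  have k1 := key a _ _ h1 (hx.1 b c d) (hx.2.1 b c d)
  have k2 := key b _ (-o (x a) (x c) (x d)) h2 (fun h => neg_pos.mpr (hx.2.1 a c d (by omega)))
    fun h => neg_lt_zero.mpr (hx.1 a c d (by omega))
  have k3 := key c _ _ h3 (hx.1 a b d) (hx.2.1 a b d)
  have k4 := key d _ (-o (x a) (x b) (x c)) h4 (fun h => neg_pos.mpr (hx.2.1 a b c (by omega)))
    fun h => neg_lt_zero.mpr (hx.1 a b c (by omega))
  have k5 := mul_nonneg hκ (hx.2.2 a b c d h5).le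
  have e : o (x b) (x c) (x d) * f (x a) + -o (x a) (x c) (x d) * f (x b) +
      o (x a) (x b) (x d) * f (x c) + -o (x a) (x b) (x c) * f (x d) =
      κ * dl (x a) (x b) (x c) (x d) := by
    simp only [ef, dl, o]; ring
  rcases h6 with h | h
  · linarith [k1.2 h, k2.1, k3.1, k4.1]
  · linarith [k1.1, k2.2 h, k3.1, k4.1]

noncomputable def B (t : ℝ) (i : ℕ) : Set E := Metric.ball (ctr i) (if i = 0 then 3 * t else 2 * t)

lemma vol (t : ℝ) (i : ℕ) :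
    volume (B t i) = w i * (ENNReal.ofReal t ^ 2 * ENNReal.ofReal Real.pi) := by
  unfold B w
  rw [EuclideanSpace.volume_ball_fin_two]
  split_ifs <;> rw [ENNReal.ofReal_mul (by norm_num)] <;> simp <;> ring

lemma disj (t : ℝ) (ht : t ≤ 1 / 6) (i j : ℕ) (h : px i ≠ px j) : Disjoint (B t i) (B t j) := by
  refine Metric.ball_disjoint_ball ?_
  have a := PiLp.dist_apply_le (ctr i) (ctr j) 0
  rw [Real.dist_eq] at a
  have b : (1 : ℝ) ≤ |(px i : ℝ) - px j| := by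
    exact_mod_cast Int.one_le_abs (sub_ne_zero.mpr h)
  simp only [ctr, Matrix.cons_val_zero] at a ⊢
  split_ifs <;> linarith

lemma volU (t : ℝ) (ht : t ≤ 1 / 6) (F : Finset ℕ) (h : ∀ i ∈ F, ∀ j ∈ F, i ≠ j → px i ≠ px j) :
    volume (⋃ i ∈ F, B t i) =
      (∑ i ∈ F, w i : ℕ) * (ENNReal.ofReal t ^ 2 * ENNReal.ofReal Real.pi) := by
  rw [measure_biUnion_finset (fun i hi j hj n => disj t ht i j (h i hi j hj n))
    fun i _ => measurableSet_ball]
  simp only [vol]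
  rw [← sum_mul]
  simp

theorem main : ∃ A₁ A₂ : Set E, MeasurableSet A₁ ∧ MeasurableSet A₂ ∧ volume A₁ < ⊤ ∧
    volume A₂ < ⊤ ∧ ∀ (G : Set E) (κ β γ δ : ℝ), 0 ≤ κ →
      (∀ x, x ∈ G ↔ κ * n x + β * x 0 + γ * x 1 + δ < 0) →
      volume (A₁ ∩ G) = volume A₁ / 3 → volume (A₂ ∩ G) = volume A₂ / 3 → False := by
  classical
  obtain ⟨ε, ε0, hε⟩ := good_near
  obtain ⟨t, t0, t1, t2⟩ : ∃ t : ℝ, 0 < t ∧ t ≤ 1 / 6 ∧ 3 * t ≤ ε :=
    ⟨min (1 / 6) (ε / 3), by positivity, min_le_left _ _, by linarith [min_le_right (1 / 6) (ε / 3)]⟩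
  have i1 : ∀ i ∈ range 8, ∀ j ∈ range 8, i ≠ j → px i ≠ px j := by decide
  have i2 : ∀ i ∈ Ico 8 13, ∀ j ∈ Ico 8 13, i ≠ j → px i ≠ px j := by decide
  have v1 := volU t t1 _ i1
  have v2 := volU t t1 _ i2
  have v3 := fun (S : ℕ) => volU t t1 ((range 8).filter fun i => S.testBit i = true) fun i hi j hj =>
    i1 i (mem_filter.mp hi).1 j (mem_filter.mp hj).1
  have v4 := fun (S : ℕ) => volU t t1 ((Ico 8 13).filter fun i => S.testBit i = true) fun i hi j hj =>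
    i2 i (mem_filter.mp hi).1 j (mem_filter.mp hj).1
  obtain ⟨u, eu⟩ : ∃ u, u = ENNReal.ofReal t ^ 2 * ENNReal.ofReal Real.pi := ⟨_, rfl⟩
  rw [← eu] at v1 v2 v3 v4
  have u0 : u ≠ 0 := by simp [eu, t0, Real.pi_pos]
  have u1 : u ≠ ⊤ := by rw [eu]; finiteness
  refine ⟨⋃ i ∈ range 8, B t i, ⋃ i ∈ Ico 8 13, B t i,
    Finset.measurableSet_biUnion _ fun i _ => measurableSet_ball,
    Finset.measurableSet_biUnion _ fun i _ => measurableSet_ball, by rw [v1]; finiteness,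
    by rw [v2]; finiteness, fun G κ β γ δ hκ hG h1 h2 => ?_⟩
  have ex : ∀ i : ℕ, ∃ x ∈ B t i, (i < 8 → x ∉ G → ∀ y ∈ B t i, y ∉ G) ∧
      (8 ≤ i → x ∈ G → ∀ y ∈ B t i, y ∈ G) := fun i => by
    have c0 : ctr i ∈ B t i := Metric.mem_ball_self (by split_ifs <;> positivity)
    by_cases c : i < 8
    · by_cases d : ∃ y ∈ B t i, y ∈ G
      · obtain ⟨y, a, b⟩ := d
        exact ⟨y, a, fun _ h => absurd b h, fun h => by omega⟩
      · exact ⟨_, c0, fun _ _ y a b => d ⟨y, a, b⟩, fun h => by omega⟩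
    · by_cases d : ∃ y ∈ B t i, y ∉ G
      · obtain ⟨y, a, b⟩ := d
        exact ⟨y, a, fun h => absurd h c, fun _ h => absurd h b⟩
      · exact ⟨_, c0, fun h => absurd h c, fun _ _ y a => by_contra fun b => d ⟨y, a, b⟩⟩
  choose x x1 x2 x3 using ex
  obtain ⟨S, eS⟩ : ∃ S, S = Nat.ofBits fun i : Fin 13 => decide (x i ∈ G) := ⟨_, rfl⟩
  have hS : ∀ i < 13, S.testBit i = true ↔ x i ∈ G := fun i hi => by
    rw [eS, Nat.testBit_ofBits_lt _ _ hi]; simp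
  have s1 : volume ((⋃ i ∈ range 8, B t i) ∩ G) ≤
      volume (⋃ i ∈ (range 8).filter fun i => S.testBit i = true, B t i) := measure_mono (by
    rintro y ⟨a, b⟩
    simp only [Set.mem_iUnion, mem_filter, mem_range] at a ⊢
    obtain ⟨i, hi, a⟩ := a
    exact ⟨i, ⟨hi, (hS i (by omega)).mpr (by_contra fun h => x2 i hi h y a b)⟩, a⟩)
  have s2 : volume (⋃ i ∈ (Ico 8 13).filter fun i => S.testBit i = true, B t i) ≤
      volume ((⋃ i ∈ Ico 8 13, B t i) ∩ G) := measure_mono (by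
    rintro y a
    simp only [Set.mem_iUnion, mem_filter, mem_Ico, Set.mem_inter_iff] at a ⊢
    obtain ⟨i, ⟨hi, c⟩, a⟩ := a
    exact ⟨⟨i, hi, a⟩, x3 i hi.1 ((hS i hi.2).mp c) y a⟩)
  rw [h1, v1, v3, ENNReal.div_le_iff (by simp) (by simp), mul_right_comm,
    ENNReal.mul_le_mul_iff_left u0 u1] at s1
  rw [h2, v2, v4, ENNReal.le_div_iff_mul_le (by simp) (by simp), mul_right_comm,
    ENNReal.mul_le_mul_iff_left u0 u1] at s2
  norm_cast at s1 s2
  rw [sum_filter] at s1 s2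
  obtain ⟨q, -, hq⟩ := check S (eS ▸ Nat.ofBits_lt_two_pow _)
    (by simp [sum_range_succ, w, ws] at s1 ⊢; omega)
    (by simp [show Ico 8 13 = {8, 9, 10, 11, 12} by decide, w, ws] at s2 ⊢; omega)
  refine no_viol κ β γ δ hκ hG (fun i => x i) (hε _ fun i => ?_) S (fun i => hS i i.2) q hq
  exact (Metric.mem_ball.mp (x1 i)).trans_le (by split_ifs <;> linarith)

end Pool.Agent.H10.Third
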