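import Mathlib

set_option autoImplicit false

namespace Pool.Agent.H10.Tp

/-- entry `(i, j)` of the lower triangular Toeplitz matrix of `a` -/
def toe (a : ℕ → ℝ) (i j : ℕ) : ℝ := if j ≤ i then a (i - j) else 0

/-- totally positive sequence: all minors of the Toeplitz matrix are nonnegative -/
def TP (a : ℕ → ℝ) : Prop := ∀ (k : ℕ) (I J : Fin k → ℕ), StrictMono I → StrictMono J →
  0 ≤ (Matrix.of fun i j => toe a (I i) (J j)).det

end Pool.Agent.H10.Tp
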