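import Mathlib
import Pool.Agent.H10.TpDefs

set_option autoImplicit false

namespace Pool.Agent.H10.Tp
open Finset Matrix Polynomial

lemma expand {k : ℕ} (A : Fin k → Finset ℕ) (c : Fin k → ℕ → ℝ) (v : ℕ → Fin k → ℝ)
    (hc : ∀ i e, 0 ≤ c i e) (h : ∀ r ∈ Fintype.piFinset A, 0 ≤ (of fun i => v (r i)).det) :
    0 ≤ (of fun i => ∑ e ∈ A i, c i e • v e).det := by
  refine le_of_le_of_eq (sum_nonneg fun r hr => ?_)
    (detRowAlternating.toMultilinearMap.map_sum_finset (fun i e => c i e • v e) A).symm
  rw [MultilinearMap.map_smul_univ]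
  exact mul_nonneg (prod_nonneg fun _ _ => hc _ _) (h r hr)

lemma tp_lin {a b : ℕ → ℝ} (h : TP a) {α β : ℝ} (h1 : 0 ≤ α) (h2 : 0 ≤ β) (e0 : b 0 = α * a 0)
    (e : ∀ n, b (n + 1) = α * a (n + 1) + β * a n) : TP b := fun k I J hI hJ => by
  have := expand (fun j => {J j, J j + 1}) (fun j e => if e = J j then α else β)
    (fun e i => toe a (I i) e) (fun _ _ => by split_ifs <;> assumption) fun r hr => by
      replace hr : ∀ j, r j = J j ∨ r j = J j + 1 := by simpa using hr
      by_cases q : r.Injective
      · rw [← det_transpose]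
        exact h k I r hI (Monotone.strictMono_of_injective (fun x y l => l.eq_or_lt.elim
          (fun l => l ▸ le_rfl) fun l => by have := hJ l; have := hr x; have := hr y; omega) q)
      · obtain ⟨x, y, p, q⟩ := Function.not_injective_iff.1 q
        exact (det_zero_of_row_eq q (by ext; simp [p])).ge
  rw [← det_transpose]
  convert this using 2
  ext j i
  simp only [transpose_apply, of_apply, toe, sum_pair (Nat.lt_succ_self _).ne, Pi.add_apply,
    Pi.smul_apply, smul_eq_mul, if_pos, if_neg (Nat.succ_ne_self _)]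
  obtain l | l | l := lt_trichotomy (J j) (I i)
  · obtain ⟨n, l⟩ := Nat.exists_eq_add_of_lt l
    simp [l, add_assoc, e, show J j + (n + 1) - (J j + 1) = n by omega]
  · simp [l, e0]
  · simp [l.not_ge, show ¬ J j + 1 ≤ I i by omega]

lemma tp_sum {a b : ℕ → ℝ} (h : TP a) (e0 : b 0 = a 0) (e : ∀ n, b (n + 1) = b n + a (n + 1)) :
    TP b := fun k I J hI hJ => by
  have t : ∀ i j, toe b i j = ∑ l ∈ range (i + 1), toe a l j := fun i j => by
    induction i with
    | zero => simp [toe, e0]
    | succ i ih =>
      rw [sum_range_succ, ← ih]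
      obtain l | rfl | l := lt_trichotomy j (i + 1)
      · simp [toe, l.le, Nat.le_of_lt_succ l, Nat.succ_sub (Nat.le_of_lt_succ l), e]
      · simp [toe, e0]
      · simp [toe, l.not_ge, show ¬ j ≤ i by omega]
  obtain _ | k := k
  · simp
  have := expand (fun i => Ico (Fin.cases 0 (fun i => I i.castSucc + 1) i) (I i + 1)) 1
    (fun e j => toe a e (J j)) (by simp) fun r hr => h _ r J (Fin.strictMono_iff_lt_succ.2 fun i => by
      have := mem_Ico.1 (Fintype.mem_piFinset.1 hr i.succ)
      have := mem_Ico.1 (Fintype.mem_piFinset.1 hr i.castSucc)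
      simp only [Fin.cases_succ] at *
      omega) hJ
  refine this.trans_eq (det_eq_of_forall_row_eq_smul_add_pred 1 (by simp [t]) fun i j => ?_).symm
  have := hI (Fin.castSucc_lt_succ (i := i))
  simp only [of_apply, t, Pi.one_apply, one_smul, one_mul, Finset.sum_apply, Fin.cases_succ]
  exact ((add_comm _ _).trans (sum_range_add_sum_Ico _ (by omega))).symm

lemma tp_one : TP fun _ => 1 := tp_sum (a := Pi.single 0 1) (fun k I J hI hJ => by
  have t : ∀ i j, toe (Pi.single 0 1) i j = if i = j then 1 else 0 := by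
    simp only [toe, Pi.single_apply]; grind
  by_cases h : Set.range I ⊆ Set.range J
  · obtain rfl := (hI.range_inj hJ).1 (Set.eq_of_subset_of_ncard_le h (by
      simp [Set.ncard_range_of_injective, hI.injective, hJ.injective]))
    rw [show (of fun i j => toe (Pi.single 0 1) (I i) (I j)) = 1 by
      ext; simp [t, one_apply, hI.injective.eq_iff]]
    simp
  · obtain ⟨_, ⟨i, rfl⟩, h⟩ := Set.not_subset.1 h
    exact (det_eq_zero_of_row_eq_zero i fun j => by
      simp [t, show I i ≠ J j from fun e => h ⟨j, e.symm⟩]).ge) (by simp) (by simp)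

/-- coefficient of `z ^ k` in `w * g w`, `w = 1 / (1 - z)` -/
noncomputable def sq (k : ℕ) : ℝ[X] →ₗ[ℝ] ℝ :=
  lsum fun j => ((k + j).choose j : ℝ) • LinearMap.id

lemma sqm (k j : ℕ) (c : ℝ) : sq k (monomial j c) = (k + j).choose j * c := by
  simp [sq, lsum_apply, sum_monomial_index]

lemma tp_prod (s : Multiset ℝ) (h : ∀ r ∈ s, r ∈ Set.Ioo (0 : ℝ) 1) :
    TP fun k => sq k (s.map fun r => X - C r).prod := by
  induction s using Multiset.induction_on with
  | empty => simpa [show ∀ k, sq k 1 = 1 from fun k => by simpa using sqm k 0 1] using tp_one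
  | cons r s ih =>
    have hr := h r (by simp)
    rw [Multiset.map_cons, Multiset.prod_cons]
    replace ih := ih fun x e => h x (by simp [e])
    generalize (s.map fun r => X - C r).prod = g at *
    have a : ∀ g, sq 0 (X * g) = sq 0 g ∧ ∀ k, sq (k + 1) (X * g) = sq k (X * g) + sq (k + 1) g :=
      fun g => by
        induction g using Polynomial.induction_on' with
        | add p q a b => simp [mul_add, a, b]; intro; ring
        | monomial n c =>
          simp only [X_mul_monomial, sqm, ← add_assoc, add_right_comm _ 1 n]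
          exact ⟨by simp, fun k => by rw [Nat.choose_succ_succ' (k + n + 1)]; push_cast; ring⟩
    refine tp_sum (tp_lin ih (b := fun k => Nat.casesOn k ((1 - r) * sq 0 g) fun k =>
      (1 - r) * sq (k + 1) g + r * sq k g) (by linarith [hr.2]) hr.1.le rfl fun _ => rfl) ?_ fun n => ?_
    all_goals simp [sub_mul, ← smul_eq_C_mul, a]
    ring

/-- the operator multiplying the `k`-th term by `k + a` -/
noncomputable def T (a : ℝ) (g : ℝ[X]) : ℝ[X] := (X - C (1 - a)) * g + (X ^ 2 - X) * derivative g

lemma sqT (a : ℝ) (g : ℝ[X]) (k : ℕ) : sq k (T a g) = (k + a) * sq k g := by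
  induction g using Polynomial.induction_on' with
  | add p q x y => rw [map_add, mul_add, ← x, ← y, ← map_add, T, T, T, derivative_add]; congr 1; ring
  | monomial n c =>
    have : T a (monomial n c) = monomial (n + 1) ((n + 1) * c) + monomial n ((a - 1 - n) * c) := by
      cases n <;> simp [T, ← C_mul_X_pow_eq_monomial] <;> ring
    have e : ((k + n + 1 : ℕ) : ℝ) * (k + n).choose n = (k + n + 1).choose (n + 1) * (n + 1 : ℕ) := by
      exact_mod_cast Nat.add_one_mul_choose_eq (k + n) n
    rw [this, map_add, sqm, sqm, sqm, ← add_assoc]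
    push_cast at e
    linear_combination -c * e

lemma hs (g : ℝ[X]) {z : ℝ} (h : |z| < 1) :
    HasSum (fun k => sq k g * z ^ k) (1 / (1 - z) * g.eval (1 / (1 - z))) := by
  induction g using Polynomial.induction_on' with
  | add p q x y => simpa [add_mul, mul_add] using x.add y
  | monomial n c =>
    rw [show 1 / (1 - z) * eval (1 / (1 - z)) (monomial n c) = c * (1 / (1 - z) ^ (n + 1)) by
      rw [eval_monomial, ← _root_.one_div_pow, pow_succ]; ring]
    simpa only [sqm, mul_assoc, mul_left_comm] using
      (hasSum_choose_mul_geometric_of_norm_lt_one n h).mul_left c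

end Pool.Agent.H10.Tp
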