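import Mathlib
import Pool.Agent.H10.TpA

set_option autoImplicit false

namespace Pool.Agent.H10.Tp
open Finset Polynomial

noncomputable def H (a : ℝ) (g : ℝ[X]) (w : ℝ) : ℝ := (1 - w) ^ a * w ^ (1 - a) * g.eval w

lemma mvt {a x y : ℝ} (g : ℝ[X]) (a1 : a < 1) (x0 : 0 ≤ x) (xy : x < y)
    (y1 : y < 1 ∨ y ≤ 1 ∧ 0 < a) :
    ∃ c ∈ Set.Ioo x y, ∃ e > 0, e * (T a g).eval c = H a g x - H a g y := by
  have y2 : y ≤ 1 := y1.elim le_of_lt (·.1)
  obtain ⟨c, hc, e⟩ := exists_hasDerivAt_eq_slope (H a g)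
    (fun w => -((1 - w) ^ (a - 1) * w ^ (-a)) * (T a g).eval w) xy
    (((ContinuousOn.rpow_const (by fun_prop) fun w h => y1.imp (fun _ => by linarith [h.2])
      (·.2.le)).mul (continuousOn_id.rpow_const fun _ _ => .inr (by linarith))).mul (by fun_prop))
    fun w h => by
      have w0 : 0 < w := x0.trans_lt h.1
      have w1 : 0 < 1 - w := by linarith [h.2]
      refine (((((hasDerivAt_id w).const_sub 1).rpow_const (p := a) (.inl w1.ne')).mul
        ((hasDerivAt_id w).rpow_const (p := 1 - a) (.inl w0.ne'))).mul (g.hasDerivAt w)).congr_deriv ?_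
      have e1 : (1 - w) ^ a = (1 - w) ^ (a - 1) * (1 - w) := by rw [← Real.rpow_add_one w1.ne']; simp
      have e2 : w ^ (1 - a) = w ^ (-a) * w := by rw [← Real.rpow_add_one w0.ne']; ring_nf
      simp only [T, id, Pi.mul_apply, e1, e2, show 1 - a - 1 = -a by ring, eval_add, eval_mul,
        eval_sub, eval_X, eval_C, eval_pow]
      ring
  have := Real.rpow_pos_of_pos (x0.trans_lt hc.1) (-a)
  have := Real.rpow_pos_of_pos (show 0 < 1 - c by linarith [hc.2]) (a - 1)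
  have := sub_pos.2 xy
  refine ⟨c, hc, (1 - c) ^ (a - 1) * c ^ (-a) * (y - x), by positivity, ?_⟩
  rw [eq_div_iff this.ne'] at e
  linarith

/-- roots in `(0, 1)` -/
noncomputable def Z (g : ℝ[X]) : Finset ℝ := {r ∈ g.roots.toFinset | r ∈ Set.Ioo 0 1}

lemma mZ {g : ℝ[X]} (h : g.eval 1 ≠ 0) {r : ℝ} : r ∈ Z g ↔ g.eval r = 0 ∧ 0 < r ∧ r < 1 := by
  simp [Z, show g ≠ 0 from fun e => h (by simp [e])]

lemma T1 (a : ℝ) (g : ℝ[X]) : (T a g).eval 1 = a * g.eval 1 := by simp [T]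

lemma Tdeg (a : ℝ) (g : ℝ[X]) : (T a g).natDegree ≤ g.natDegree + 1 := by
  refine natDegree_add_le_of_degree_le (natDegree_mul_le.trans (by rw [natDegree_X_sub_C, add_comm])) ?_
  by_cases h : g.natDegree = 0
  · simp [derivative_of_natDegree_zero h]
  have := natDegree_derivative_lt h
  have : (X ^ 2 - X : ℝ[X]).natDegree ≤ 2 := by compute_degree
  exact natDegree_mul_le.trans (by omega)

lemma rolle {a : ℝ} {g : ℝ[X]} (a1 : a < 1) (a0 : a ≠ 0) (h : g.eval 1 ≠ 0) (S : Finset ℝ)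
    (hS : ∀ x ∈ S, H a g x = 0 ∧ 0 ≤ x ∧ (x < 1 ∨ x ≤ 1 ∧ 0 < a)) : #S ≤ #(Z (T a g)) + 1 :=
  card_le_of_interleaved fun x hx y hy l _ => by
    obtain ⟨c, hc, e, e0, r⟩ := mvt g a1 (hS x hx).2.1 l (hS y hy).2.2
    rw [(hS x hx).1, (hS y hy).1, sub_self, mul_eq_zero] at r
    exact ⟨c, (mZ (by simp [T1, *])).2 ⟨r.resolve_left e0.ne', (hS x hx).2.1.trans_lt hc.1,
      hc.2.trans_le ((hS y hy).2.2.elim le_of_lt (·.1))⟩, hc⟩

lemma half (m : ℕ) : ((T (1 / 2))^[m] 1).eval 1 ≠ 0 ∧ ((T (1 / 2))^[m] 1).natDegree ≤ m ∧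
    m ≤ #(Z ((T (1 / 2))^[m] 1)) ∧ ∀ k, sq k ((T (1 / 2))^[m] 1) = (k + 1 / 2) ^ m := by
  induction m with
  | zero => simpa using fun k => by simpa using sqm k 0 1
  | succ m ih =>
    obtain ⟨a, b, c, d⟩ := ih
    rw [Function.iterate_succ_apply']
    refine ⟨by simpa [T1] using a, (Tdeg ..).trans (by omega), ?_, fun k => by rw [sqT, d]; ring⟩
    have := rolle (a := 1 / 2) (by norm_num) (by norm_num) a (insert 0 (insert 1 (Z ((T (1 / 2))^[m] 1)))) (by
      simp only [mem_insert, mZ a, H]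
      rintro x (rfl | rfl | ⟨p, q, r⟩)
      exacts [by norm_num, by norm_num, ⟨by rw [p, mul_zero], q.le, .inl r⟩])
    rw [card_insert_of_notMem (by simp [mZ a, - one_div]),
      card_insert_of_notMem (by simp [mZ a, - one_div])] at this
    omega

lemma neg {a : ℝ} {g : ℝ[X]} (a0 : a < 0) (h : g.eval 1 ≠ 0) : #(Z g) ≤ #(Z (T a g)) := by
  have := rolle (by linarith) a0.ne h (insert 0 (Z g)) (by
    simp only [mem_insert, mZ h, H]
    rintro x (rfl | ⟨p, q, r⟩)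
    exacts [by simp [show 1 - a ≠ 0 by linarith], ⟨by rw [p, mul_zero], q.le, .inl r⟩])
  rw [card_insert_of_notMem (by simp [mZ h])] at this
  omega

lemma jump {a p q : ℝ} {g : ℝ[X]} (a0 : a < 0) (h : g.eval 1 ≠ 0) (q0 : 0 < q) (qp : q < p)
    (p1 : p < 1) (h1 : ∀ w, q ≤ w → w ≤ p → 0 < g.eval w) (h2 : (T a g).eval p < 0)
    (h3 : 0 < (T a g).eval q) : #(Z g) + 2 ≤ #(Z (T a g)) := by
  have hT : (T a g).eval 1 ≠ 0 := by simp [T1, h, a0.ne]
  have nz : ∀ w ∈ Z g, w < q ∨ p < w := fun w e => by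
    by_contra! r
    exact (h1 w r.1 r.2).ne' ((mZ h).1 e).1
  have hp : ∀ w, q ≤ w → w ≤ p → 0 < H a g w := fun w x y =>
    mul_pos (mul_pos (Real.rpow_pos_of_pos (by linarith) _) (Real.rpow_pos_of_pos (by linarith) _))
      (h1 w x y)
  have hz : ∀ w, w = 0 ∨ w ∈ Z g → H a g w = 0 ∧ 0 ≤ w ∧ w < 1 := by
    rintro w (rfl | e)
    · simp [H, show 1 - a ≠ 0 by linarith]
    exact ⟨by rw [H, ((mZ h).1 e).1, mul_zero], ((mZ h).1 e).2.1.le, ((mZ h).1 e).2.2⟩
  have iv : ∀ x y, 0 < x → x < y → y < 1 → (T a g).eval x * (T a g).eval y < 0 →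
      ∃ z ∈ Z (T a g), x < z ∧ z < y := fun x y x0 l y1 e => by
    obtain ⟨z, z1, z2⟩ : 0 ∈ (fun w => (T a g).eval w) '' Set.Ioo x y := (mul_neg_iff.1 e).elim
      (fun e => intermediate_value_Ioo' l.le (by fun_prop) ⟨e.2, e.1⟩)
      fun e => intermediate_value_Ioo l.le (by fun_prop) e
    exact ⟨z, (mZ hT).2 ⟨z2, x0.trans z1.1, z1.2.trans y1⟩, z1⟩
  have := card_le_of_interleaved (s := insert q (insert p (insert 0 (Z g)))) (t := Z (T a g))
    fun x hx y hy l n => by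
      simp only [mem_insert] at hx hy n
      have n1 := n q (.inl rfl)
      have n2 := n p (.inr (.inl rfl))
      simp only [Set.mem_Ioo] at n1 n2
      by_cases e : x = q
      · exact (iv q p q0 qp p1 (mul_neg_of_pos_of_neg h3 h2)).imp fun z r =>
          ⟨r.1, e ▸ r.2.1, r.2.2.trans_le (by grind)⟩
      have y1 : y < 1 := by grind
      have x0 : 0 ≤ x := by grind
      obtain ⟨c, hc, d, d0, r⟩ := mvt g (a := a) (by linarith) x0 l (.inl y1)
      by_cases e1 : x = p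
      · rw [(hz y (by grind)).1, e1] at r
        exact (iv p c (by linarith) (e1 ▸ hc.1) (hc.2.trans y1) (mul_neg_of_neg_of_pos h2
          (pos_of_mul_pos_left (by linarith [hp p qp.le le_rfl]) d0.le))).imp fun z r =>
            ⟨r.1, e1 ▸ r.2.1, r.2.2.trans hc.2⟩
      rw [(hz x (by grind)).1] at r
      by_cases e2 : y = q
      · rw [e2] at r
        exact (iv c q (x0.trans_lt hc.1) (e2 ▸ hc.2) (by linarith) (mul_neg_of_neg_of_pos
          (neg_of_mul_neg_left (by linarith [hp q le_rfl qp.le]) d0.le) h3)).imp fun z r =>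
            ⟨r.1, hc.1.trans r.2.1, e2 ▸ r.2.2⟩
      rw [(hz y (by grind)).1, sub_self, mul_eq_zero] at r
      exact ⟨c, (mZ hT).2 ⟨r.resolve_left d0.ne', x0.trans_lt hc.1, hc.2.trans y1⟩, hc⟩
  rw [card_insert_of_notMem (by grind), card_insert_of_notMem (by grind),
    card_insert_of_notMem (by simp [mZ h])] at this
  omega

lemma tp_roots {g : ℝ[X]} (h : 0 < g.eval 1) (d : g.natDegree ≤ #(Z g)) : TP fun k => sq k g := by
  have c1 := card_roots' g
  have c2 : #(Z g) ≤ (g.roots.filter (· ∈ Set.Ioo 0 1)).card := by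
    rw [Z, ← Multiset.toFinset_filter]; exact Multiset.toFinset_card_le _
  have c3 := Multiset.eq_of_le_of_card_le (Multiset.filter_le (· ∈ Set.Ioo (0 : ℝ) 1) g.roots) (by omega)
  have e := C_leadingCoeff_mul_prod_multiset_X_sub_C (p := g) (by rw [c3] at c2; omega)
  have r := Multiset.filter_eq_self.1 c3
  have : 0 < g.leadingCoeff := by
    rw [← e, eval_mul, eval_C, eval_multiset_prod] at h
    refine pos_of_mul_pos_left h (Multiset.prod_nonneg fun x hx => ?_)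
    simp only [Multiset.map_map, Multiset.mem_map] at hx
    obtain ⟨y, y1, rfl⟩ := hx
    simpa using (r y y1).2.le
  refine tp_lin (tp_prod _ r) this.le le_rfl ?_ fun n => ?_ <;>
    conv_lhs => rw [← e, ← smul_eq_C_mul, map_smul, smul_eq_mul]
  simp

end Pool.Agent.H10.Tp
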