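import Mathlib
import Pool.Agent.H10.TpB

set_option autoImplicit false

namespace Pool.Agent.H10.Tp
open Finset Polynomial Filter

lemma dom {u : ℕ → ℝ} {s : ℝ} (h : HasSum u s) (K L : ℕ) (KL : K ≤ L)
    (h1 : ∀ k, k < K → |u k| ≤ |u (k + 1)| / 4) (h2 : ∀ k, L ≤ k → |u (k + 1)| ≤ |u k| / 4) :
    |s - ∑ k ∈ Ico K (L + 1), u k| ≤ (|u K| + |u L|) / 3 := by
  have a : ∀ j ≤ K, |∑ k ∈ range j, u k| ≤ |u j| / 3 := fun j => by
    induction j with
    | zero => simp; positivity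
    | succ j ih =>
      intro e
      rw [sum_range_succ]
      linarith [abs_add_le (∑ k ∈ range j, u k) (u j), ih (by omega), h1 j e]
  have b : ∀ n, ‖u (n + (L + 1))‖ ≤ |u L| / 4 * (1 / 4) ^ n := fun n => by
    induction n with
    | zero => simpa using h2 L le_rfl
    | succ n ih =>
      rw [pow_succ, add_right_comm]
      linarith [h2 (n + (L + 1)) (by omega), Real.norm_eq_abs (u (n + (L + 1))),
        Real.norm_eq_abs (u (n + (L + 1) + 1))]
  have c := ((hasSum_nat_add_iff' (L + 1)).2 h).norm_le_of_bounded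
    ((hasSum_geometric_of_lt_one (r := 1 / 4) (by norm_num) (by norm_num)).mul_left _) b
  rw [← sum_range_add_sum_Ico _ (show K ≤ L + 1 by omega), Real.norm_eq_abs] at c
  have := abs_le.1 (a K le_rfl)
  have := abs_le.1 c
  norm_num at this
  exact abs_le.2 ⟨by linarith, by linarith⟩

noncomputable def ρ (m k : ℕ) : ℝ := ((k + 3 / 2) / (k + 1 / 2)) ^ m

noncomputable def u (K m e : ℕ) (t : ℝ) (k : ℕ) : ℝ :=
  (k + -(K + 1 / 2 : ℝ)) ^ e * (k + 1 / 2) ^ m * (-t) ^ k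

lemma ρa (m : ℕ) {k l : ℕ} (h : k ≤ l) : ρ m l ≤ ρ m k := by
  have : (k : ℝ) ≤ l := by exact_mod_cast h
  refine pow_le_pow_left₀ (by positivity) ?_ _
  rw [div_le_div_iff₀ (by positivity) (by positivity)]
  nlinarith

lemma ratio (K m e k : ℕ) (he : e ≤ 2) {t : ℝ} (t0 : 0 < t) :
    (36 ≤ t * ρ m k → |u K m e t k| ≤ |u K m e t (k + 1)| / 4) ∧
    (t * ρ m k ≤ 1 / 36 → |u K m e t (k + 1)| ≤ |u K m e t k| / 4) := by
  have a : ∀ k : ℕ, 1 / 2 ≤ |k + -(K + 1 / 2 : ℝ)| := fun k => (le_or_gt k K).elim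
    (fun h => le_abs'.2 (.inl (by linarith [show (k : ℝ) ≤ K by exact_mod_cast h])))
    fun h => le_abs'.2 (.inr (by linarith [show (K : ℝ) + 1 ≤ k by exact_mod_cast h]))
  have b : ∀ x y : ℝ, 1 / 2 ≤ |x| → |y - x| ≤ 1 → |y| ^ e ≤ 9 * |x| ^ e := fun x y p q =>
    (pow_le_pow_left₀ (abs_nonneg _) (show |y| ≤ 3 * |x| by
      linarith [abs_sub_abs_le_abs_sub y x]) _).trans (by
        rw [mul_pow]
        exact mul_le_mul_of_nonneg_right ((pow_le_pow_right₀ (by norm_num) he).trans_eq (by norm_num))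
          (by positivity))
  have b1 := b _ (k + -(K + 1 / 2 : ℝ)) (a (k + 1)) (by simp)
  have b2 := b _ ((k + 1 : ℕ) + -(K + 1 / 2 : ℝ)) (a k) (by simp)
  have e1 : |u K m e t k| = |k + -(K + 1 / 2 : ℝ)| ^ e * ((k + 1 / 2) ^ m * t ^ k) := by
    rw [u, abs_mul, abs_mul, abs_pow, abs_pow, abs_pow, abs_neg, abs_of_pos t0,
      abs_of_pos (a := (k + 1 / 2 : ℝ)) (by positivity), mul_assoc]
  have e2 : |u K m e t (k + 1)| = |(k + 1 : ℕ) + -(K + 1 / 2 : ℝ)| ^ e * ((k + 1 / 2) ^ m * t ^ k) *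
      (t * ρ m k) := by
    rw [u, abs_mul, abs_mul, abs_pow, abs_pow, abs_pow, abs_neg, abs_of_pos t0,
      abs_of_pos (a := ((k + 1 : ℕ) + 1 / 2 : ℝ)) (by positivity), ρ, div_pow,
      show ((k + 1 : ℕ) + 1 / 2 : ℝ) = k + 3 / 2 by push_cast; ring]
    field_simp
    ring
  have x0 : 0 ≤ (k + 1 / 2 : ℝ) ^ m * t ^ k := by positivity
  rw [e1, e2]
  have c1 := mul_le_mul_of_nonneg_right b1 x0
  have c2 := mul_le_mul_of_nonneg_right b2 x0
  have y0 : 0 ≤ |(k + 1 : ℕ) + -(K + 1 / 2 : ℝ)| ^ e * ((k + 1 / 2) ^ m * t ^ k) := by positivity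
  exact ⟨fun h => by nlinarith [mul_le_mul_of_nonneg_left h y0],
    fun h => by nlinarith [mul_le_mul_of_nonneg_left h y0]⟩

lemma main (j : ℕ) : ∃ m, TP fun k => (k + -((2 * j + 1 : ℕ) + 1 / 2 : ℝ)) ^ 2 * (k + 1 / 2) ^ (m + 1) := by
  have ev : ∀ k : ℕ, ∀ᶠ m in atTop, 1296 * ρ m (k + 1) ≤ ρ m k := fun k => by
    filter_upwards [(tendsto_pow_atTop_atTop_of_one_lt (r := (k + 3 / 2 : ℝ) / (k + 1 / 2) /
      (((k + 1 : ℕ) + 3 / 2) / ((k + 1 : ℕ) + 1 / 2))) (by
        rw [one_lt_div (by positivity), div_lt_div_iff₀ (by positivity) (by positivity)]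
        push_cast
        nlinarith)).eventually_ge_atTop 1296] with m h
    rwa [div_pow, le_div_iff₀ (by positivity)] at h
  obtain ⟨m, ⟨r1, r2⟩, m0⟩ := (((ev (2 * j)).and (ev (2 * j + 1))).and (eventually_ge_atTop 1)).exists
  obtain ⟨n, hn⟩ := Nat.exists_eq_add_of_le' m0
  refine ⟨n, ?_⟩
  rw [← hn]
  obtain ⟨g1, g2, g3, g4⟩ := half m
  set K := 2 * j + 1 with hK
  set a := -(K + 1 / 2 : ℝ) with ha
  have a0 : a < 0 := neg_neg_of_pos (by positivity)
  set g := (T (1 / 2))^[m] 1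
  have r3 : 1 ≤ ρ m (K + 1) := one_le_pow₀ ((one_le_div (by positivity)).2 (by linarith))
  obtain ⟨p, p0, hp⟩ : ∃ p > 0, p * ρ m (2 * j) = 36 :=
    ⟨36 / _, div_pos (by norm_num) (by linarith), div_mul_cancel₀ _ (by linarith)⟩
  obtain ⟨q, q0, hq⟩ : ∃ q > 0, q * ρ m (K + 1) = 1 / 36 :=
    ⟨1 / 36 / _, div_pos (by norm_num) (by linarith), div_mul_cancel₀ _ (by linarith)⟩
  have p1 : p * ρ m K ≤ 1 / 36 := by nlinarith
  have q1 : 36 ≤ q * ρ m K := by nlinarith
  have pq : p < q := by nlinarith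
  have q2 : q < 1 := by nlinarith
  have key : ∀ (e : ℕ) (G : ℝ[X]) (t : ℝ) (A B : ℕ), e ≤ 2 → p ≤ t → t ≤ q →
      (∀ k : ℕ, sq k G = (k + a) ^ e * (k + 1 / 2) ^ m) → A ≤ B → 36 ≤ t * ρ m (A - 1) →
      t * ρ m B ≤ 1 / 36 → |1 / (1 + t) * G.eval (1 / (1 + t)) - ∑ k ∈ Ico A (B + 1), u K m e t k| ≤
        (|u K m e t A| + |u K m e t B|) / 3 := fun e G t A B he t1 t2 hG AB x y => by
    have t0 : 0 < t := by linarith
    have := hs G (z := -t) (by rw [abs_neg, abs_of_pos t0]; linarith)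
    simp only [hG, sub_neg_eq_add] at this
    exact dom this A B AB (fun k h => (ratio K m e k he t0).1 (x.trans (mul_le_mul_of_nonneg_left
      (ρa m (by omega)) t0.le))) fun k h => (ratio K m e k he t0).2 ((mul_le_mul_of_nonneg_left
        (ρa m h) t0.le).trans y)
  have s1 : ∀ k : ℕ, sq k (T a g) = (k + a) ^ 1 * (k + 1 / 2) ^ m := fun k => by rw [sqT, g4, pow_one]
  have s2 : ∀ k : ℕ, sq k (T a (T a g)) = (k + a) ^ 2 * (k + 1 / 2) ^ m := fun k => by
    rw [sqT, s1]; ring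
  have o1 : ∀ e t, u K m e t K = -((-1 / 2) ^ e * ((K + 1 / 2) ^ m * t ^ K)) := fun e t => by
    rw [u, Odd.neg_pow ⟨j, hK⟩, show (K : ℝ) + -(K + 1 / 2) = -1 / 2 by ring]; ring
  have o2 : ∀ e t, u K m e t (K + 1) = (1 / 2) ^ e * (((K + 1 : ℕ) + 1 / 2) ^ m * t ^ (K + 1)) :=
    fun e t => by
      rw [u, Even.neg_pow ⟨j + 1, by omega⟩, show ((K + 1 : ℕ) : ℝ) + -(K + 1 / 2) = 1 / 2 by
        push_cast; ring]; ring
  have n1 : (T a g).eval 1 ≠ 0 := by simp [T1, g1, a0.ne]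
  have := jump (a := a) (g := T a g) (p := 1 / (1 + p)) (q := 1 / (1 + q)) a0 n1 (by positivity)
    (one_div_lt_one_div_of_lt (by positivity) (by linarith)) ((div_lt_one (by positivity)).2 (by linarith))
    (fun w x y => ?_) ?_ ?_
  · have := neg a0 g1
    have := Tdeg a g
    have := Tdeg a (T a g)
    have e := tp_roots (g := T a (T a g)) (by
      have := hs g (z := 0) (by simp)
      rw [T1, T1, ← mul_assoc, show g.eval 1 = (1 / 2) ^ m by
        simpa [g4] using this.unique (hasSum_single 0 fun k h => by simp [h])]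
      exact mul_pos (mul_pos_of_neg_of_neg a0 a0) (by positivity)) (by omega)
    simpa only [s2] using e
  · have w0 : 0 < w := lt_of_lt_of_le (by positivity) x
    obtain ⟨t, rfl⟩ : ∃ t, w = 1 / (1 + t) := ⟨1 / w - 1, by simp⟩
    have t0 : 0 < 1 + t := one_div_pos.1 w0
    have x := le_of_one_div_le_one_div (by positivity) x
    have y := le_of_one_div_le_one_div t0 y
    have := key 1 _ t K (K + 1) (by simp) (by linarith) (by linarith) s1 (by simp)
      (by rw [show K - 1 = 2 * j from rfl]; nlinarith) (by nlinarith)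
    have t1 : 0 < t := by linarith
    have z1 : 0 < u K m 1 t K := by rw [o1, pow_one, neg_div, neg_mul, neg_neg]; positivity
    have z2 : 0 < u K m 1 t (K + 1) := by rw [o2]; positivity
    rw [sum_Ico_succ_top (by omega), Nat.Ico_succ_singleton, sum_singleton, abs_of_pos z1,
      abs_of_pos z2] at this
    exact pos_of_mul_pos_right (by linarith [abs_le.1 this]) w0.le
  · have := key 2 _ p K K le_rfl le_rfl pq.le s2 le_rfl hp.ge p1
    have z1 : u K m 2 p K < 0 := by rw [o1, neg_lt_zero]; positivity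
    rw [Nat.Ico_succ_singleton, sum_singleton, abs_of_neg z1] at this
    exact neg_of_mul_neg_right (by linarith [abs_le.1 this]) (show 0 ≤ 1 / (1 + p) by positivity)
  · have := key 2 _ q (K + 1) (K + 1) le_rfl pq.le le_rfl s2 le_rfl q1 hq.le
    have z1 : 0 < u K m 2 q (K + 1) := by rw [o2]; positivity
    rw [Nat.Ico_succ_singleton, sum_singleton, abs_of_pos z1] at this
    exact pos_of_mul_pos_right (by linarith [abs_le.1 this]) (show 0 ≤ 1 / (1 + q) by positivity)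

end Pool.Agent.H10.Tp
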