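import Mathlib
import Pool.Agent.H10.Plane

set_option autoImplicit false

namespace Pool.Agent.H10.TriCone

open Pool.Agent.H10.Plane MeasureTheory
open scoped Pointwise

abbrev G := E2 × ℝ

def cone (a b c : G) : Set E2 :=
  {w | ∃ α β γ : ℝ, 0 ≤ α ∧ 0 ≤ β ∧ 0 ≤ γ ∧ α • a + β • b + γ • c = (w, 1)}

def N (a b : G) : Set E2 := {w | ∃ s t : ℝ, s • a + t • b = (w, 1)}

lemma cone_cyc (a b c : G) : cone a b c = cone b c a := by
  ext w
  constructor
  · rintro ⟨α, β, γ, h1, h2, h3, h⟩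
    exact ⟨β, γ, α, h2, h3, h1, by rw [← h]; abel⟩
  · rintro ⟨α, β, γ, h1, h2, h3, h⟩
    exact ⟨γ, α, β, h3, h1, h2, by rw [← h]; abel⟩

lemma cone_swap (a b c : G) : cone a b c = cone b a c := by
  ext w
  constructor
  · rintro ⟨α, β, γ, h1, h2, h3, h⟩
    exact ⟨β, α, γ, h2, h1, h3, by rw [← h]; abel⟩
  · rintro ⟨α, β, γ, h1, h2, h3, h⟩
    exact ⟨β, α, γ, h2, h1, h3, by rw [← h]; abel⟩

lemma cone_convex (a b c : G) : Convex ℝ (cone a b c) := by
  rintro x ⟨α, β, γ, h1, h2, h3, h⟩ y ⟨α', β', γ', h1', h2', h3', h'⟩ s t hs ht hst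
  refine ⟨s * α + t * α', s * β + t * β', s * γ + t * γ', by positivity, by positivity,
    by positivity, ?_⟩
  have : ((s • x + t • y, 1) : G) = s • (x, (1 : ℝ)) + t • (y, (1 : ℝ)) := by
    ext <;> simp [hst]
  rw [this, ← h, ← h']
  module

lemma N_null (a b : G) : volume (N a b) = 0 := by
  let A : AffineSubspace ℝ E2 :=
    { carrier := N a b
      smul_vsub_vadd_mem' := by
        rintro c p1 p2 p3 ⟨s1, t1, h1⟩ ⟨s2, t2, h2⟩ ⟨s3, t3, h3⟩
        refine ⟨c * (s1 - s2) + s3, c * (t1 - t2) + t3, ?_⟩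
        have : ((c • (p1 -ᵥ p2) +ᵥ p3, 1) : G) =
            c • ((p1, (1 : ℝ)) - (p2, (1 : ℝ))) + (p3, (1 : ℝ)) := by
          ext <;> simp
        rw [this, ← h1, ← h2, ← h3]
        module }
  have hA : A ≠ ⊤ := by
    intro h
    have hm : ∀ w : E2, w ∈ N a b := fun w => by
      have : w ∈ A := by rw [h]; trivial
      exact this
    obtain ⟨s1, t1, h1⟩ := hm !₂[0, 0]
    obtain ⟨s2, t2, h2⟩ := hm !₂[1, 0]
    obtain ⟨s3, t3, h3⟩ := hm !₂[0, 1]
    have a1 := congrArg (fun g : G => g.1 0) h1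
    have a2 := congrArg (fun g : G => g.1 1) h1
    have a3 := congrArg (fun g : G => g.2) h1
    have b1 := congrArg (fun g : G => g.1 0) h2
    have b2 := congrArg (fun g : G => g.1 1) h2
    have b3 := congrArg (fun g : G => g.2) h2
    have c1 := congrArg (fun g : G => g.1 0) h3
    have c2 := congrArg (fun g : G => g.1 1) h3
    have c3 := congrArg (fun g : G => g.2) h3
    simp at a1 a2 a3 b1 b2 b3 c1 c2 c3
    have key : (s1 * a.1 0 + t1 * b.1 0) * ((s2 * a.1 1 + t2 * b.1 1) * (s3 * a.2 + t3 * b.2) -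
        (s2 * a.2 + t2 * b.2) * (s3 * a.1 1 + t3 * b.1 1)) -
        (s1 * a.1 1 + t1 * b.1 1) * ((s2 * a.1 0 + t2 * b.1 0) * (s3 * a.2 + t3 * b.2) -
        (s2 * a.2 + t2 * b.2) * (s3 * a.1 0 + t3 * b.1 0)) +
        (s1 * a.2 + t1 * b.2) * ((s2 * a.1 0 + t2 * b.1 0) * (s3 * a.1 1 + t3 * b.1 1) -
        (s2 * a.1 1 + t2 * b.1 1) * (s3 * a.1 0 + t3 * b.1 0)) = 0 := by ring
    rw [a1, a2, a3, b1, b2, b3, c1, c2, c3] at key
    norm_num at key
  exact Measure.addHaar_affineSubspace volume A hA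

lemma mem_N_of_dep (a b c : G) (w : E2) (α β γ x y z : ℝ) (h : α • a + β • b + γ • c = (w, 1))
    (hx : x ≠ 0) (hdep : x • a + y • b + z • c = 0) : w ∈ N b c := by
  refine ⟨β - α * y / x, γ - α * z / x, ?_⟩
  rw [← h]
  have ha : a = (-(y / x)) • b + (-(z / x)) • c := by
    have : x • a = -(y • b) - z • c := by
      rw [← sub_eq_zero, ← hdep]; abel
    calc a = x⁻¹ • (x • a) := by rw [smul_smul, inv_mul_cancel₀ hx, one_smul]
      _ = _ := by rw [this]; simp only [div_eq_mul_inv]; module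
  rw [ha]
  simp only [div_eq_mul_inv]
  module

lemma inter_sub (a b c z : G) (α0 β0 γ0 : ℝ) (h1 : 0 ≤ α0) (h2 : 0 ≤ β0)
    (hz : α0 • a + β0 • b + γ0 • c = z) :
    cone z b c ∩ cone a z c ⊆ N z c ∪ (N b c ∪ N a c) := by
  rintro w ⟨⟨l, t, u, hl, ht, hu, h⟩, ⟨s, l', u', hs, hl', hu', h'⟩⟩
  have hdep : ((l - l') * α0 - s) • a + ((l - l') * β0 + t) • b +
      ((l - l') * γ0 + u - u') • c = 0 := by
    have : l • z + t • b + u • c - (s • a + l' • z + u' • c) = 0 := by rw [h, h', sub_self]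
    rw [← this, ← hz]
    module
  have hw : (l * α0) • a + (l * β0 + t) • b + (l * γ0 + u) • c = (w, 1) := by
    rw [← h, ← hz]; module
  by_cases e1 : (l - l') * α0 - s = 0
  · by_cases e2 : (l - l') * β0 + t = 0
    · left
      rcases le_total l l' with hh | hh
      · have : s = 0 := by nlinarith
        refine ⟨l', u', ?_⟩
        rw [← h', this]; module
      · have : t = 0 := by nlinarith
        refine ⟨l, u, ?_⟩
        rw [← h, this]; module
    · right; right
      exact mem_N_of_dep b a c w (l * β0 + t) (l * α0) (l * γ0 + u) _ ((l - l') * α0 - s)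
        ((l - l') * γ0 + u - u') (by rw [← hw]; abel) e2 (by rw [← hdep]; abel)
  · right; left
    exact mem_N_of_dep a b c w _ _ _ _ _ _ hw e1 hdep

lemma aed (a b c z : G) (α0 β0 γ0 : ℝ) (h1 : 0 ≤ α0) (h2 : 0 ≤ β0)
    (hz : α0 • a + β0 • b + γ0 • c = z) : AEDisjoint volume (cone z b c) (cone a z c) :=
  measure_mono_null (inter_sub a b c z α0 β0 γ0 h1 h2 hz)
    (measure_union_null (N_null _ _) (measure_union_null (N_null _ _) (N_null _ _)))

lemma sub1 (a b c z : G) (α0 β0 γ0 : ℝ) (h1 : 0 ≤ α0) (h2 : 0 ≤ β0) (h3 : 0 ≤ γ0)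
    (hz : α0 • a + β0 • b + γ0 • c = z) : cone z b c ⊆ cone a b c := by
  rintro w ⟨l, t, u, hl, ht, hu, h⟩
  refine ⟨l * α0, l * β0 + t, l * γ0 + u, by positivity, by positivity, by positivity, ?_⟩
  rw [← h, ← hz]; module

lemma measure_split (ν : Measure E2) (hν : ν ≪ volume) (a b c : G) (z : E2)
    (hz : z ∈ cone a b c) :
    ν (cone (z, 1) b c) + ν (cone a (z, 1) c) + ν (cone a b (z, 1)) ≤ ν (cone a b c) := by
  obtain ⟨α0, β0, γ0, h1, h2, h3, hz⟩ := hz
  have d12 : AEDisjoint ν (cone (z, 1) b c) (cone a (z, 1) c) := hν (aed a b c _ α0 β0 γ0 h1 h2 hz)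
  have d13 : AEDisjoint ν (cone (z, 1) b c) (cone a b (z, 1)) := by
    have := aed a c b (z, 1) α0 γ0 β0 h1 h3 (by rw [← hz]; abel)
    rw [cone_cyc (z, 1) c b, cone_swap c b, ← cone_cyc (z, 1), cone_cyc a (z, 1) b,
      cone_cyc (z, 1) b a, cone_swap b a] at this
    exact hν this
  have d23 : AEDisjoint ν (cone a (z, 1) c) (cone a b (z, 1)) := by
    have := aed b c a (z, 1) β0 γ0 α0 h2 h3 (by rw [← hz]; abel)
    rw [← cone_cyc a (z, 1) c, ← cone_cyc a b (z, 1)] at this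
    exact hν this
  have m2 : NullMeasurableSet (cone a (z, 1) c) ν :=
    ((cone_convex _ _ _).nullMeasurableSet volume).mono_ac hν
  have m3 : NullMeasurableSet (cone a b (z, 1)) ν :=
    ((cone_convex _ _ _).nullMeasurableSet volume).mono_ac hν
  rw [← measure_union₀ m2 d12, ← measure_union₀ m3 (d13.union_left d23)]
  apply measure_mono
  apply Set.union_subset (Set.union_subset (sub1 a b c _ α0 β0 γ0 h1 h2 h3 hz) _) _
  · rw [cone_cyc a, cone_cyc a]
    exact sub1 b c a _ β0 γ0 α0 h2 h3 h1 (by rw [← hz]; abel)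
  · rw [← cone_cyc (z, 1), ← cone_cyc c a b]
    exact sub1 c a b _ γ0 α0 β0 h3 h1 h2 (by rw [← hz]; abel)

lemma cover1 (a b c z : G) (α0 β0 γ0 α β γ : ℝ) (w : E2) (hz : α0 • a + β0 • b + γ0 • c = z)
    (hw : α • a + β • b + γ • c = (w, 1)) (h0 : 0 < α0) (hα : 0 ≤ α) (h1 : α * β0 ≤ β * α0)
    (h2 : α * γ0 ≤ γ * α0) : w ∈ cone z b c := by
  refine ⟨α / α0, β - α / α0 * β0, γ - α / α0 * γ0, by positivity, ?_, ?_, ?_⟩
  · rw [sub_nonneg, div_mul_eq_mul_div, div_le_iff₀ h0]; exact h1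
  · rw [sub_nonneg, div_mul_eq_mul_div, div_le_iff₀ h0]; exact h2
  · rw [← hw, ← hz]
    have : α = α / α0 * α0 := by field_simp
    conv_rhs => rw [this]
    module

lemma ratio (α0 β0 γ0 α β γ : ℝ) (h1 : 0 ≤ α0) (h2 : 0 ≤ β0) (h3 : 0 ≤ γ0)
    (hne : ¬ (α0 = 0 ∧ β0 = 0 ∧ γ0 = 0)) (k1 : 0 ≤ α) (k2 : 0 ≤ β) (k3 : 0 ≤ γ) :
    (0 < α0 ∧ α * β0 ≤ β * α0 ∧ α * γ0 ≤ γ * α0) ∨ (0 < β0 ∧ β * γ0 ≤ γ * β0 ∧ β * α0 ≤ α * β0) ∨
      (0 < γ0 ∧ γ * α0 ≤ α * γ0 ∧ γ * β0 ≤ β * γ0) := by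
  classical
  let u : Fin 3 → ℝ := ![α0, β0, γ0]
  let v : Fin 3 → ℝ := ![α, β, γ]
  have hu : ∀ i, 0 ≤ u i := by intro i; fin_cases i <;> simpa [u]
  have hv : ∀ i, 0 ≤ v i := by intro i; fin_cases i <;> simpa [v]
  have hne' : (Finset.univ.filter (fun i => 0 < u i)).Nonempty := by
    by_contra h
    rw [Finset.not_nonempty_iff_eq_empty, Finset.filter_eq_empty_iff] at h
    have a := h (Finset.mem_univ 0)
    have b := h (Finset.mem_univ 1)
    have c := h (Finset.mem_univ 2)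
    simp [u] at a b c
    exact hne ⟨by linarith, by linarith, by linarith⟩
  obtain ⟨i, hi, hmin⟩ := Finset.exists_min_image _ (fun i => v i / u i) hne'
  have hi' : 0 < u i := (Finset.mem_filter.mp hi).2
  have key : ∀ j, v i * u j ≤ v j * u i := by
    intro j
    rcases (hu j).eq_or_lt with h | h
    · rw [← h, mul_zero]; exact mul_nonneg (hv j) hi'.le
    · have := hmin j (Finset.mem_filter.mpr ⟨Finset.mem_univ _, h⟩)
      rwa [div_le_div_iff₀ hi' h] at this
  fin_cases i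
  · left; exact ⟨hi', key 1, key 2⟩
  · right; left; exact ⟨hi', key 2, key 0⟩
  · right; right; exact ⟨hi', key 0, key 1⟩

lemma cover_split (a b c : G) (z : E2) (hz : z ∈ cone a b c) (w : E2) (hw : w ∈ cone a b c) :
    w ∈ cone (z, 1) b c ∨ w ∈ cone a (z, 1) c ∨ w ∈ cone a b (z, 1) := by
  obtain ⟨α0, β0, γ0, h1, h2, h3, hz⟩ := hz
  obtain ⟨α, β, γ, k1, k2, k3, hw⟩ := hw
  have hne : ¬ (α0 = 0 ∧ β0 = 0 ∧ γ0 = 0) := by
    rintro ⟨rfl, rfl, rfl⟩
    have := congrArg (fun g : G => g.2) hz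
    simp at this
  rcases ratio α0 β0 γ0 α β γ h1 h2 h3 hne k1 k2 k3 with h | h | h
  · left; exact cover1 a b c _ α0 β0 γ0 α β γ w hz hw h.1 k1 h.2.1 h.2.2
  · right; left
    rw [cone_cyc]
    exact cover1 b c a _ β0 γ0 α0 β γ α w (by rw [← hz]; abel) (by rw [← hw]; abel) h.1 k2
      h.2.1 h.2.2
  · right; right
    rw [← cone_cyc]
    exact cover1 c a b _ γ0 α0 β0 γ α β w (by rw [← hz]; abel) (by rw [← hw]; abel) h.1 k3
      h.2.1 h.2.2

lemma aed0 (a b c d : G) (h : a + b + c + d = 0) : AEDisjoint volume (cone a b c) (cone a b d) := by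
  apply measure_mono_null _ (N_null a b)
  rintro w ⟨⟨α, β, γ, h1, h2, h3, hw⟩, ⟨α', β', δ, h1', h2', h3', hw'⟩⟩
  have hd : d = -(a + b + c) := by rw [← sub_eq_zero, ← h]; abel
  by_cases e : γ + δ = 0
  · have : γ = 0 := by linarith
    exact ⟨α, β, by rw [← hw, this]; module⟩
  · have hdep : (γ + δ) • c + (α - α' + δ) • a + (β - β' + δ) • b = 0 := by
      have : α • a + β • b + γ • c - (α' • a + β' • b + δ • d) = 0 := by rw [hw, hw', sub_self]
      rw [← this, hd]; module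
    exact mem_N_of_dep c a b w γ α β _ _ _ (by rw [← hw]; abel) e hdep

lemma measure_base (ν : Measure E2) (hν : ν ≪ volume) (a b c d : G) (h : a + b + c + d = 0) :
    ν (cone a b c) + ν (cone a b d) + ν (cone b c d) + ν (cone c a d) ≤ ν Set.univ := by
  have m : ∀ a b c : G, NullMeasurableSet (cone a b c) ν := fun a b c =>
    ((cone_convex _ _ _).nullMeasurableSet volume).mono_ac hν
  have d12 : AEDisjoint ν (cone a b c) (cone a b d) := hν (aed0 a b c d h)
  have d13 : AEDisjoint ν (cone a b c) (cone b c d) := by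
    rw [cone_cyc a]; exact hν (aed0 b c a d (by rw [← h]; abel))
  have d14 : AEDisjoint ν (cone a b c) (cone c a d) := by
    rw [← cone_cyc c]; exact hν (aed0 c a b d (by rw [← h]; abel))
  have d23 : AEDisjoint ν (cone a b d) (cone b c d) := by
    rw [cone_cyc a, cone_cyc b c, cone_cyc c d, cone_swap d b]
    exact hν (aed0 b d a c (by rw [← h]; abel))
  have d24 : AEDisjoint ν (cone a b d) (cone c a d) := by
    rw [← cone_cyc d a b, cone_cyc c a d, cone_swap a d]
    exact hν (aed0 d a b c (by rw [← h]; abel))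
  have d34 : AEDisjoint ν (cone b c d) (cone c a d) := by
    rw [cone_cyc b c d, cone_swap c a d, cone_cyc a c d]
    exact hν (aed0 c d b a (by rw [← h]; abel))
  rw [← measure_union₀ (m _ _ _) d12, ← measure_union₀ (m _ _ _) (d13.union_left d23),
    ← measure_union₀ (m _ _ _) ((d14.union_left d24).union_left d34)]
  exact measure_mono (Set.subset_univ _)

lemma cover_base (a b c d : G) (h : a + b + c + d = 0) (w : E2) (α β γ : ℝ)
    (hw : α • a + β • b + γ • c = (w, 1)) :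
    w ∈ cone a b c ∨ w ∈ cone a b d ∨ w ∈ cone b c d ∨ w ∈ cone c a d := by
  have hd : d = -(a + b + c) := by rw [← sub_eq_zero, ← h]; abel
  by_cases h0 : 0 ≤ α ∧ 0 ≤ β ∧ 0 ≤ γ
  · left; exact ⟨α, β, γ, h0.1, h0.2.1, h0.2.2, hw⟩
  right
  by_cases h1 : γ ≤ α ∧ γ ≤ β
  · left
    refine ⟨α - γ, β - γ, -γ, by linarith [h1.1], by linarith [h1.2], ?_, by rw [← hw, hd]; module⟩
    by_contra hc
    exact h0 ⟨by linarith [h1.1], by linarith [h1.2], by linarith⟩
  right
  by_cases h2 : α ≤ β ∧ α ≤ γ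
  · left
    refine ⟨β - α, γ - α, -α, by linarith [h2.1], by linarith [h2.2], ?_, by rw [← hw, hd]; module⟩
    by_contra hc
    exact h0 ⟨by linarith, by linarith [h2.1], by linarith [h2.2]⟩
  · right
    have h3 : β ≤ α ∧ β ≤ γ := by
      constructor
      · by_contra hc
        push Not at hc h1 h2
        have := h2 hc.le
        have := h1 this.le
        linarith
      · by_contra hc
        push Not at hc h1 h2
        rcases le_total α β with e | e
        · have := h2 e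
          have := h1 this.le
          linarith
        · have := h1 (by linarith)
          linarith
    refine ⟨γ - β, α - β, -β, by linarith [h3.2], by linarith [h3.1], ?_, by rw [← hw, hd]; module⟩
    by_contra hc
    exact h0 ⟨by linarith [h3.1], by linarith, by linarith [h3.2]⟩

lemma bary (a b c w : E2) (h : o a b c ≠ 0) :
    (o w b c / o a b c) • ((a, 1) : G) + (o a w c / o a b c) • ((b, 1) : G) +
      (o a b w / o a b c) • ((c, 1) : G) = (w, 1) := by
  ext i
  · fin_cases i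
    · simp; field_simp; unfold o; ring
    · simp; field_simp; unfold o; ring
  · simp; field_simp; unfold o; ring

lemma cone_real (a b c : E2) : cone (a, 1) (b, 1) (c, 1) = convexHull ℝ {a, b, c} := by
  apply Set.Subset.antisymm
  · rintro w ⟨α, β, γ, h1, h2, h3, h⟩
    have e1 : α • a + β • b + γ • c = w := congrArg Prod.fst h
    have e2 : α + β + γ = 1 := by simpa using congrArg Prod.snd h
    have := (convex_convexHull ℝ ({a, b, c} : Set E2)).sum_mem (t := Finset.univ)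
      (w := ![α, β, γ]) (z := ![a, b, c]) (fun i _ => by fin_cases i <;> simpa)
      (by simpa [Fin.sum_univ_three] using e2)
      (fun i _ => subset_convexHull ℝ _ (by fin_cases i <;> simp))
    simpa [Fin.sum_univ_three, e1] using this
  · apply convexHull_min _ (cone_convex _ _ _)
    intro w hw
    simp only [Set.mem_insert_iff, Set.mem_singleton_iff] at hw
    rcases hw with rfl | rfl | rfl
    · exact ⟨1, 0, 0, by norm_num, by norm_num, by norm_num, by simp⟩
    · exact ⟨0, 1, 0, by norm_num, by norm_num, by norm_num, by simp⟩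
    · exact ⟨0, 0, 1, by norm_num, by norm_num, by norm_num, by simp⟩

noncomputable def κ : ENNReal := volume (convexHull ℝ ({0, !₂[1, 0], !₂[0, 1]} : Set E2))

lemma vol_tri (a b c : E2) :
    volume (convexHull ℝ ({a, b, c} : Set E2)) = ENNReal.ofReal |o a b c| * κ := by
  let M : Matrix (Fin 2) (Fin 2) ℝ := !![b 0 - a 0, c 0 - a 0; b 1 - a 1, c 1 - a 1]
  let L : E2 →ₗ[ℝ] E2 := Matrix.toLpLin 2 2 M
  have hdet : LinearMap.det L = o a b c := by
    have : LinearMap.det L = M.det := by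
      simp only [L, Matrix.toLpLin_eq_toLin, LinearMap.det_toLin]
    rw [this, Matrix.det_fin_two]
    simp [M, o]; ring
  have h1 : L !₂[1, 0] = b - a := by
    ext i; fin_cases i <;> simp [L, M, Matrix.toLpLin_apply]
  have h2 : L !₂[0, 1] = c - a := by
    ext i; fin_cases i <;> simp [L, M, Matrix.toLpLin_apply]
  have h3 : convexHull ℝ ({a, b, c} : Set E2) =
      a +ᵥ (L '' convexHull ℝ ({0, !₂[1, 0], !₂[0, 1]} : Set E2)) := by
    rw [LinearMap.image_convexHull, ← convexHull_vadd]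
    congr 1
    simp [Set.image_insert_eq, h1, h2, Set.vadd_set_insert]
  rw [h3, measure_vadd, Measure.addHaar_image_linearMap, hdet]
  rfl

end Pool.Agent.H10.TriCone
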