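import Mathlib
import Pool.Agent.H10.TriCone

set_option autoImplicit false

namespace Pool.Agent.H10.TriHull

open Pool.Agent.H10.Plane Pool.Agent.H10.TriCone MeasureTheory

lemma o_cyc (a b c : E2) : o a b c = o b c a := by unfold o; ring
lemma o_swap (a b c : E2) : o a b c = -o a c b := by unfold o; ring
lemma o_sum (p q r s : E2) : o s q r + o p s r + o p q s = o p q r := by unfold o; ring

lemma mem_hull_of_comb (V : Set E2) (r : E2) {n : ℕ} (z : Fin n → E2) (w : Fin n → ℝ)
    (hz : ∀ i, z i ∈ V) (hw : ∀ i, 0 ≤ w i) (hs : 0 < ∑ i, w i)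
    (h : ∑ i, w i • z i = (∑ i, w i) • r) : r ∈ convexHull ℝ V := by
  have := Finset.centerMass_mem_convexHull (Finset.univ) (w := w) (fun i _ => hw i) hs
    (z := z) (s := V) (fun i _ => hz i)
  rwa [Finset.centerMass, h, smul_smul, inv_mul_cancel₀ hs.ne', one_smul] at this

lemma degenerate (a b c : E2) (h : o a b c = 0) :
    a ∈ convexHull ℝ ({b, c} : Set E2) ∨ b ∈ convexHull ℝ ({c, a} : Set E2) ∨
      c ∈ convexHull ℝ ({a, b} : Set E2) := by
  have hcol : Collinear ℝ ({a, b, c} : Set E2) := by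
    by_cases hab : a = b
    · subst hab; simp [collinear_pair]
    rw [collinear_iff_of_mem (p₀ := a) (by simp)]
    refine ⟨b - a, fun p hp => ?_⟩
    simp only [Set.mem_insert_iff, Set.mem_singleton_iff] at hp
    rcases hp with rfl | rfl | rfl
    · exact ⟨0, by simp⟩
    · exact ⟨1, by simp⟩
    · unfold o at h
      by_cases h0 : b 0 - a 0 = 0
      · have h1 : b 1 - a 1 ≠ 0 := by
          intro h1
          apply hab
          ext i; fin_cases i
          · simp; linarith
          · simp; linarith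
        refine ⟨(p 1 - a 1) / (b 1 - a 1), ?_⟩
        rw [h0] at h
        have h2 : p 0 - a 0 = 0 := by
          have : (b 1 - a 1) * (p 0 - a 0) = 0 := by linarith
          exact (mul_eq_zero.mp this).resolve_left h1
        ext i; fin_cases i
        · simp [h0]; linarith
        · simp; field_simp; ring
      · refine ⟨(p 0 - a 0) / (b 0 - a 0), ?_⟩
        ext i; fin_cases i
        · simp; field_simp; ring
        · simp; field_simp; linarith
  rcases hcol.wbtw_or_wbtw_or_wbtw with h | h | h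
  · right; left
    rw [convexHull_pair, segment_symm]; exact mem_segment_iff_wbtw.mpr h
  · right; right
    rw [convexHull_pair, segment_symm]; exact mem_segment_iff_wbtw.mpr h
  · left
    rw [convexHull_pair, segment_symm]; exact mem_segment_iff_wbtw.mpr h

lemma two_types (V : Set E2) (p q r s t : E2) (hp : p ∈ V) (hq : q ∈ V) (hs : s ∈ V) (ht : t ∈ V)
    (hD : 0 < o p q r) (a1 : o s q r ≤ -o p q r) (a2 : o p q r ≤ o p s r) (a3 : o p q r ≤ o p q s)
    (b1 : o p q r ≤ o t q r) (b2 : o p t r ≤ -o p q r) (b3 : o p q r ≤ o p q t) :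
    r ∈ convexHull ℝ V := by
  have e1 := o_sum p q r s
  have e2 := o_sum p q r t
  set D := o p q r with hDd
  set u := o s q r with hu
  set v := o p s r with hv
  set u' := o t q r with hu'
  set v' := o p t r with hv'
  have hT : 0 ≤ u * v' - u' * v := by nlinarith
  apply mem_hull_of_comb V r ![s, t, p, q]
    ![D * (u' - v'), D * (v - u), u * v' - u' * v, u * v' - u' * v]
  · intro i; fin_cases i <;> simpa
  · intro i; fin_cases i
    · simp only; apply mul_nonneg <;> linarith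
    · simp only; apply mul_nonneg <;> linarith
    · exact hT
    · exact hT
  · simp only [Fin.sum_univ_four, Matrix.cons_val]
    have : 0 < D * (u' - v') := mul_pos hD (by linarith)
    have : 0 < D * (v - u) := mul_pos hD (by linarith)
    linarith
  · ext i
    fin_cases i <;>
    · simp [Fin.sum_univ_four, hDd, hu, hv, hu', hv', o]; ring

lemma ear_cover (V : Set E2) (p q r : E2) (hq : q ∈ V) (hr : r ∈ V) (hD : 0 < o p q r)
    (h : ∀ s ∈ V, o s q r ≤ 0 ∧ 0 ≤ o p s r ∧ 0 ≤ o p q s) :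
    convexHull ℝ (insert p V) ⊆ convexHull ℝ V ∪ convexHull ℝ {p, q, r} := by
  intro z hz
  rw [convexHull_insert ⟨q, hq⟩, mem_convexJoin] at hz
  obtain ⟨p', hp', w, hw, l, m, hl, hm, hlm, rfl⟩ := hz
  rw [Set.mem_singleton_iff] at hp'
  rw [hp']
  have hconv : Convex ℝ {s : E2 | o s q r ≤ 0 ∧ 0 ≤ o p s r ∧ 0 ≤ o p q s} := by
    rintro a ⟨a1, a2, a3⟩ b ⟨b1, b2, b3⟩ s t hs ht hst
    have ht' : t = 1 - s := by linarith
    have e1 : o (s • a + t • b) q r = s * o a q r + t * o b q r := by simp [o, ht']; ring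
    have e2 : o p (s • a + t • b) r = s * o p a r + t * o p b r := by simp [o, ht']; ring
    have e3 : o p q (s • a + t • b) = s * o p q a + t * o p q b := by simp [o, ht']; ring
    refine ⟨?_, ?_, ?_⟩
    · rw [e1]; nlinarith
    · rw [e2]; positivity
    · rw [e3]; positivity
  obtain ⟨w1, w2, w3⟩ := convexHull_min h hconv hw
  have hm' : m = 1 - l := by linarith
  have e1 : o (l • p + m • w) q r = l * o p q r + m * o w q r := by simp [o, hm']; ring
  have e2 : o p (l • p + m • w) r = m * o p w r := by simp [o, hm']; ring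
  have e3 : o p q (l • p + m • w) = m * o p q w := by simp [o, hm']; ring
  by_cases hA : 0 ≤ l * o p q r + m * o w q r
  · right
    apply mem_of_o _ (convex_convexHull ℝ _) p q r _ (subset_convexHull ℝ _ (by simp))
      (subset_convexHull ℝ _ (by simp)) (subset_convexHull ℝ _ (by simp)) hD
    · rw [← o_cyc, e1]; exact hA
    · rw [o_cyc, e2]; positivity
    · rw [e3]; positivity
  · left
    push Not at hA
    have hA' : o w q r < 0 := by
      by_contra hc
      push Not at hc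
      have : 0 ≤ l * o p q r + m * o w q r := by positivity
      linarith
    have hs := o_sum p q r w
    rw [← (convex_convexHull ℝ V).convexHull_eq]
    apply mem_hull_of_comb _ _ ![w, q, r]
      ![-(l * o p q r + m * o w q r), l * o p w r, l * o p q w]
    · intro i; fin_cases i
      · exact hw
      · exact subset_convexHull ℝ _ hq
      · exact subset_convexHull ℝ _ hr
    · intro i; fin_cases i
      · show 0 ≤ -(l * o p q r + m * o w q r); linarith
      · show 0 ≤ l * o p w r; positivity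
      · show 0 ≤ l * o p q w; positivity
    · simp only [Fin.sum_univ_three, Matrix.cons_val]
      have : 0 ≤ l * o p w r := by positivity
      have : 0 ≤ l * o p q w := by positivity
      linarith
    · ext i
      fin_cases i <;>
      · simp [Fin.sum_univ_three, o, hm']; ring

variable {ι : Type} [DecidableEq ι]

def Cvx (y : ι → E2) (S : Finset ι) : Prop :=
  ∀ i ∈ S, y i ∉ convexHull ℝ (y '' (S.erase i : Set ι))

lemma Cvx.mono {y : ι → E2} {S T : Finset ι} (h : Cvx y S) (hT : T ⊆ S) : Cvx y T := by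
  intro i hi hc
  apply h i (hT hi)
  refine convexHull_mono (Set.image_mono ?_) hc
  exact Finset.coe_subset.mpr (Finset.erase_subset_erase i hT)

lemma Cvx.not_mem {y : ι → E2} {S : Finset ι} (h : Cvx y S) (i : ι) (hi : i ∈ S) (V : Set E2)
    (hV : ∀ v ∈ V, ∃ j ∈ S, j ≠ i ∧ y j = v) : y i ∉ convexHull ℝ V := by
  intro hc
  apply h i hi
  refine convexHull_mono ?_ hc
  intro v hv
  obtain ⟨j, hj, hji, rfl⟩ := hV v hv
  exact ⟨j, by simp [hj, hji], rfl⟩

lemma Cvx.o_ne {y : ι → E2} {S : Finset ι} (h : Cvx y S) (p q r : ι) (hp : p ∈ S) (hq : q ∈ S)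
    (hr : r ∈ S) (hpq : p ≠ q) (hpr : p ≠ r) (hqr : q ≠ r) : o (y p) (y q) (y r) ≠ 0 := by
  intro h0
  rcases degenerate _ _ _ h0 with e | e | e
  · refine h.not_mem p hp _ ?_ e
    rintro v (rfl | rfl)
    · exact ⟨q, hq, hpq.symm, rfl⟩
    · exact ⟨r, hr, hpr.symm, rfl⟩
  · refine h.not_mem q hq _ ?_ e
    rintro v (rfl | rfl)
    · exact ⟨r, hr, hqr.symm, rfl⟩
    · exact ⟨p, hp, hpq, rfl⟩
  · refine h.not_mem r hr _ ?_ e
    rintro v (rfl | rfl)
    · exact ⟨p, hp, hpr, rfl⟩
    · exact ⟨q, hq, hqr, rfl⟩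

lemma Cvx.not_tri {y : ι → E2} {S : Finset ι} (h : Cvx y S) (p q r s : ι) (hp : p ∈ S)
    (hq : q ∈ S) (hr : r ∈ S) (hs : s ∈ S) (hps : p ≠ s) (hqs : q ≠ s) (hrs : r ≠ s)
    (hD : 0 < o (y p) (y q) (y r)) (h1 : 0 ≤ o (y s) (y q) (y r)) (h2 : 0 ≤ o (y p) (y s) (y r))
    (h3 : 0 ≤ o (y p) (y q) (y s)) : False := by
  refine h.not_mem s hs {y p, y q, y r} ?_ ?_
  · rintro v (rfl | rfl | rfl)
    · exact ⟨p, hp, hps, rfl⟩
    · exact ⟨q, hq, hqs, rfl⟩
    · exact ⟨r, hr, hrs, rfl⟩
  · apply mem_of_o _ (convex_convexHull ℝ _) (y p) (y q) (y r) _ (subset_convexHull ℝ _ (by simp))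
      (subset_convexHull ℝ _ (by simp)) (subset_convexHull ℝ _ (by simp)) hD
    · rw [← o_cyc]; exact h1
    · rw [o_cyc]; exact h2
    · exact h3

def Mn (y : ι → E2) (S : Finset ι) (m : ℝ) : Prop :=
  ∀ a ∈ S, ∀ b ∈ S, ∀ c ∈ S, a ≠ b → a ≠ c → b ≠ c → m ≤ |o (y a) (y b) (y c)|

lemma gain_pos {y : ι → E2} {S : Finset ι} (h : Cvx y S) {m : ℝ} (hm : Mn y S m) (p q r s : ι)
    (hp : p ∈ S) (hq : q ∈ S) (hr : r ∈ S) (hs : s ∈ S) (hpq : p ≠ q) (hpr : p ≠ r) (hqr : q ≠ r)
    (hps : p ≠ s) (hqs : q ≠ s) (hrs : r ≠ s) (hD : 0 < o (y p) (y q) (y r)) :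
    |o (y p) (y q) (y r)| + m ≤
      |o (y s) (y q) (y r)| + |o (y p) (y s) (y r)| + |o (y p) (y q) (y s)| := by
  have e := o_sum (y p) (y q) (y r) (y s)
  have m1 := hm s hs q hq r hr hqs.symm hrs.symm hqr
  have m2 := hm p hp s hs r hr hps hpr hrs.symm
  have m3 := hm p hp q hq s hs hpq hps hqs
  rw [abs_of_pos hD]
  have n1 := le_abs_self (o (y s) (y q) (y r))
  have n2 := le_abs_self (o (y p) (y s) (y r))
  have n3 := le_abs_self (o (y p) (y q) (y s))
  by_cases h1 : 0 ≤ o (y s) (y q) (y r)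
  · by_cases h2 : 0 ≤ o (y p) (y s) (y r)
    · by_cases h3 : 0 ≤ o (y p) (y q) (y s)
      · exact (h.not_tri p q r s hp hq hr hs hps hqs hrs hD h1 h2 h3).elim
      · linarith
    · linarith
  · linarith

lemma gain {y : ι → E2} {S : Finset ι} (h : Cvx y S) {m : ℝ} (hm : Mn y S m) (p q r s : ι)
    (hp : p ∈ S) (hq : q ∈ S) (hr : r ∈ S) (hs : s ∈ S) (hpq : p ≠ q) (hpr : p ≠ r) (hqr : q ≠ r)
    (hps : p ≠ s) (hqs : q ≠ s) (hrs : r ≠ s) :
    |o (y p) (y q) (y r)| + m ≤
      |o (y s) (y q) (y r)| + |o (y p) (y s) (y r)| + |o (y p) (y q) (y s)| := by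
  rcases lt_or_gt_of_ne (h.o_ne p q r hp hq hr hpq hpr hqr) with hD | hD
  · have := gain_pos h hm p r q s hp hr hq hs hpr hpq hqr.symm hps hrs hqs
      (by rw [o_swap]; linarith)
    rw [o_swap (y p) (y r), o_swap (y s) (y r), o_swap (y p) (y s), o_swap (y p) (y r)] at this
    simp only [abs_neg] at this
    linarith
  · exact gain_pos h hm p q r s hp hq hr hs hpq hpr hqr hps hqs hrs hD

def TA (y : ι → E2) (p q r s : ι) : Prop :=
  o (y s) (y q) (y r) ≤ -o (y p) (y q) (y r) ∧ o (y p) (y q) (y r) ≤ o (y p) (y s) (y r) ∧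
    o (y p) (y q) (y r) ≤ o (y p) (y q) (y s)

lemma types {y : ι → E2} {S : Finset ι} (h : Cvx y S) (p q r s : ι)
    (hm : Mn y S (o (y p) (y q) (y r)))
    (hp : p ∈ S) (hq : q ∈ S) (hr : r ∈ S) (hs : s ∈ S) (hpq : p ≠ q) (hpr : p ≠ r) (hqr : q ≠ r)
    (hps : p ≠ s) (hqs : q ≠ s) (hrs : r ≠ s) (hD : 0 < o (y p) (y q) (y r)) :
    TA y p q r s ∨ TA y q r p s ∨ TA y r p q s := by
  have e := o_sum (y p) (y q) (y r) (y s)
  have m1 := hm s hs q hq r hr hqs.symm hrs.symm hqr
  have m2 := hm p hp s hs r hr hps hpr hrs.symm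
  have m3 := hm p hp q hq s hs hpq hps hqs
  unfold TA
  rw [← o_cyc (y p) (y q) (y r), o_cyc (y r) (y p) (y q), ← o_cyc (y p) (y s) (y r),
    ← o_cyc (y p) (y q) (y s), ← o_cyc (y s) (y q) (y r), o_cyc (y s) (y p) (y q),
    o_cyc (y r) (y s) (y q), o_cyc (y r) (y p) (y s)]
  rw [le_abs] at m1 m2 m3
  rcases m1 with m1 | m1 <;> rcases m2 with m2 | m2 <;> rcases m3 with m3 | m3
  · exact (h.not_tri p q r s hp hq hr hs hps hqs hrs hD (by linarith) (by linarith)
      (by linarith)).elim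
  · right; right; exact ⟨by linarith, m1, m2⟩
  · right; left; exact ⟨by linarith, m3, m1⟩
  · exfalso
    refine h.not_tri s q r p hs hq hr hp hps.symm hpq.symm hpr.symm (by linarith) hD.le ?_ ?_
    · have : o (y s) (y p) (y r) = -o (y p) (y s) (y r) := by unfold o; ring
      linarith
    · rw [o_swap, o_cyc]; linarith
  · left; exact ⟨by linarith, m2, m3⟩
  · exfalso
    refine h.not_tri p s r q hp hs hr hq hpq hqs.symm hqr.symm (by linarith) ?_ hD.le ?_
    · rw [o_cyc, o_swap]; linarith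
    · rw [o_swap]; linarith
  · exfalso
    refine h.not_tri p q s r hp hq hs hr hpr hqr hrs.symm (by linarith) ?_ ?_ hD.le
    · rw [o_swap, o_cyc]; linarith
    · rw [o_swap]; linarith
  · exfalso; linarith

lemma not_two {y : ι → E2} {S : Finset ι} (h : Cvx y S) (p q r s t : ι)
    (hp : p ∈ S) (hq : q ∈ S) (hr : r ∈ S) (hs : s ∈ S) (ht : t ∈ S) (hpr : p ≠ r) (hqr : q ≠ r)
    (hrs : r ≠ s) (hrt : r ≠ t) (hD : 0 < o (y p) (y q) (y r)) (h1 : TA y p q r s)
    (h2 : TA y q r p t) : False := by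
  refine h.not_mem r hr {y p, y q, y s, y t} ?_ ?_
  · rintro v (rfl | rfl | rfl | rfl)
    · exact ⟨p, hp, hpr, rfl⟩
    · exact ⟨q, hq, hqr, rfl⟩
    · exact ⟨s, hs, hrs.symm, rfl⟩
    · exact ⟨t, ht, hrt.symm, rfl⟩
  · unfold TA at h1 h2
    rw [← o_cyc (y p) (y q) (y r), ← o_cyc (y p) (y t) (y r), ← o_cyc (y p) (y q) (y t),
      ← o_cyc (y t) (y q) (y r)] at h2
    exact two_types _ (y p) (y q) (y r) (y s) (y t) (by simp) (by simp) (by simp) (by simp) hD
      h1.1 h1.2.1 h1.2.2 h2.2.2 h2.1 h2.2.1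

lemma ear_of_TA {y : ι → E2} {S : Finset ι} (p q r : ι)
    (hp : p ∈ S) (hq : q ∈ S) (hr : r ∈ S) (hpq : p ≠ q) (hpr : p ≠ r)
    (hD : 0 < o (y p) (y q) (y r))
    (hall : ∀ s ∈ S, p ≠ s → q ≠ s → r ≠ s → TA y p q r s) :
    volume (convexHull ℝ (y '' (S : Set ι))) ≤ volume (convexHull ℝ (y '' (S.erase p : Set ι))) +
      ENNReal.ofReal (o (y p) (y q) (y r)) * κ := by
  have e : y '' (S : Set ι) = insert (y p) (y '' (S.erase p : Set ι)) := by
    rw [← Set.image_insert_eq, ← Finset.coe_insert, Finset.insert_erase hp]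
  rw [e]
  have := ear_cover (y '' (S.erase p : Set ι)) (y p) (y q) (y r) ⟨q, by simp [hq, hpq.symm], rfl⟩
    ⟨r, by simp [hr, hpr.symm], rfl⟩ hD (by
      rintro _ ⟨s, hs, rfl⟩
      simp only [Finset.coe_erase, Set.mem_sdiff, Finset.mem_coe, Set.mem_singleton_iff] at hs
      by_cases h1 : q = s
      · subst h1
        refine ⟨?_, hD.le, ?_⟩ <;> simp [o]
        linarith
      by_cases h2 : r = s
      · subst h2
        refine ⟨?_, ?_, hD.le⟩ <;> simp [o]
        linarith
      obtain ⟨a, b, c⟩ := hall s hs.1 (Ne.symm hs.2) h1 h2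
      exact ⟨by linarith, by linarith, by linarith⟩)
  refine (measure_mono this).trans ((measure_union_le _ _).trans ?_)
  rw [vol_tri, abs_of_pos hD]

lemma ear {y : ι → E2} {S : Finset ι} (h : Cvx y S) (hS : 3 ≤ S.card) :
    ∃ i ∈ S, ∃ m : ℝ, 0 < m ∧ Mn y S m ∧ volume (convexHull ℝ (y '' (S : Set ι))) ≤
      volume (convexHull ℝ (y '' (S.erase i : Set ι))) + ENNReal.ofReal m * κ := by
  obtain ⟨a, ha, b, hb, c, hc, hab, hac, hbc⟩ := Finset.two_lt_card.mp (show 2 < S.card by omega)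
  obtain ⟨⟨p0, q0, r0⟩, hmem, hmin⟩ := Finset.exists_min_image
    ((S ×ˢ S ×ˢ S).filter (fun t => t.1 ≠ t.2.1 ∧ t.1 ≠ t.2.2 ∧ t.2.1 ≠ t.2.2))
    (fun t => |o (y t.1) (y t.2.1) (y t.2.2)|) ⟨(a, b, c), by simp [*]⟩
  simp only [Finset.mem_filter, Finset.mem_product] at hmem
  obtain ⟨⟨hp0, hq0, hr0⟩, h01, h02, h03⟩ := hmem
  have hM : Mn y S |o (y p0) (y q0) (y r0)| := fun a ha b hb c hc hab hac hbc =>
    hmin (a, b, c) (by simp [*])
  have : ∃ p ∈ S, ∃ q ∈ S, ∃ r ∈ S, p ≠ q ∧ p ≠ r ∧ q ≠ r ∧ 0 < o (y p) (y q) (y r) ∧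
      Mn y S (o (y p) (y q) (y r)) := by
    rcases lt_or_gt_of_ne (h.o_ne p0 q0 r0 hp0 hq0 hr0 h01 h02 h03) with hD | hD
    · refine ⟨p0, hp0, r0, hr0, q0, hq0, h02, h01, h03.symm, by rw [o_swap]; linarith, ?_⟩
      rw [o_swap, ← abs_of_neg hD]; exact hM
    · refine ⟨p0, hp0, q0, hq0, r0, hr0, h01, h02, h03, hD, ?_⟩
      rw [← abs_of_pos hD]; exact hM
  obtain ⟨p, hp, q, hq, r, hr, hpq, hpr, hqr, hD, hm⟩ := this
  have hD2 : 0 < o (y q) (y r) (y p) := by rwa [← o_cyc]
  have hD3 : 0 < o (y r) (y p) (y q) := by rwa [o_cyc]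
  by_cases c1 : ∀ s ∈ S, p ≠ s → q ≠ s → r ≠ s → TA y p q r s
  · exact ⟨p, hp, _, hD, hm, ear_of_TA p q r hp hq hr hpq hpr hD c1⟩
  by_cases c2 : ∀ s ∈ S, q ≠ s → r ≠ s → p ≠ s → TA y q r p s
  · refine ⟨q, hq, _, hD, hm, ?_⟩
    rw [o_cyc]
    exact ear_of_TA q r p hq hr hp hqr hpq.symm hD2 c2
  refine ⟨r, hr, _, hD, hm, ?_⟩
  rw [← o_cyc]
  apply ear_of_TA r p q hr hp hq hpr.symm hqr.symm hD3
  push Not at c1 c2
  obtain ⟨s1, hs1, a1, a2, a3, a4⟩ := c1
  obtain ⟨s2, hs2, b1, b2, b3, b4⟩ := c2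
  have N1 := fun s t hs ht h1 h2 => not_two h p q r s t hp hq hr hs ht hpr hqr h1 h2 hD
  have N2 := fun s t hs ht h1 h2 => not_two h q r p s t hq hr hp hs ht hpq.symm hpr.symm h1 h2 hD2
  have N3 := fun s t hs ht h1 h2 => not_two h r p q s t hr hp hq hs ht hqr.symm hpq h1 h2 hD3
  intro s hs e1 e2 e3
  rcases types h p q r s hm hp hq hr hs hpq hpr hqr e2 e3 e1 hD with t | t | t
  · exfalso
    rcases types h p q r s1 hm hp hq hr hs1 hpq hpr hqr a1 a2 a3 hD with u | u | u
    · exact a4 u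
    · exact N1 s s1 hs hs1 e1 a3 t u
    · exact N3 s1 s hs1 hs a2 e3 u t
  · exfalso
    rcases types h p q r s2 hm hp hq hr hs2 hpq hpr hqr b3 b1 b2 hD with u | u | u
    · exact N1 s2 s hs2 hs b2 e1 u t
    · exact b4 u
    · exact N2 s s2 hs hs2 e2 b3 t u
  · exact t

abbrev Cell (ι : Type) := ι × ι × Option ι

def gen (x : ι → E2) (d : G) : Option ι → G
  | none => d
  | some r => (x r, 1)

def cc (x : ι → E2) (d : G) (t : Cell ι) : Set E2 := cone (x t.1, 1) (x t.2.1, 1) (gen x d t.2.2)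

noncomputable def val (y : ι → E2) : Cell ι → ℝ
  | (_, _, none) => 0
  | (p, q, some r) => |o (y p) (y q) (y r)|

def Valid (S : Finset ι) (t : Cell ι) : Prop :=
  t.1 ∈ S ∧ t.2.1 ∈ S ∧ t.1 ≠ t.2.1 ∧ ∀ r, t.2.2 = some r → r ∈ S ∧ t.1 ≠ r ∧ t.2.1 ≠ r

omit [DecidableEq ι] in
lemma val_nonneg (y : ι → E2) (t : Cell ι) : 0 ≤ val y t := by
  obtain ⟨p, q, _ | r⟩ := t
  · exact le_refl _
  · exact abs_nonneg _

lemma inv (x y : ι → E2) (ν : Measure E2) (hν : ν ≪ volume)
    (hT : ∀ i j k, |o (y i) (y j) (y k)| ≤ |o (x i) (x j) (x k)|) :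
    ∀ n : ℕ, 3 ≤ n → ∀ S : Finset ι, S.card = n → Cvx y S →
      ∃ (d : G) (T : Multiset (Cell ι)), (∀ t ∈ T, Valid S t) ∧ (∀ w, ∃ t ∈ T, w ∈ cc x d t) ∧
        (T.map (fun t => ν (cc x d t))).sum ≤ ν Set.univ ∧
        volume (convexHull ℝ (y '' (S : Set ι))) ≤ ENNReal.ofReal (T.map (val y)).sum * κ := by
  intro n hn
  induction n, hn using Nat.le_induction with
  | base =>
    intro S hS hc
    obtain ⟨p, q, r, hpq, hpr, hqr, rfl⟩ := Finset.card_eq_three.mp hS
    have h0 := hc.o_ne p q r (by simp) (by simp) (by simp) hpq hpr hqr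
    have h1 : o (x p) (x q) (x r) ≠ 0 := by
      intro h
      have := hT p q r
      rw [h, abs_zero] at this
      exact h0 (abs_nonpos_iff.mp this)
    have hd : ((x p, 1) : G) + (x q, 1) + (x r, 1) + -((x p, 1) + (x q, 1) + (x r, 1)) = 0 :=
      add_neg_cancel _
    refine ⟨-((x p, 1) + (x q, 1) + (x r, 1)),
      {(p, q, some r), (p, q, none), (q, r, none), (r, p, none)}, ?_, ?_, ?_, ?_⟩
    · intro t ht
      simp only [Multiset.insert_eq_cons, Multiset.mem_cons, Multiset.mem_singleton] at ht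
      rcases ht with rfl | rfl | rfl | rfl <;> simp [Valid, hpq, hpr, hqr, hpr.symm]
    · intro w
      rcases cover_base _ _ _ _ hd w _ _ _ (bary (x p) (x q) (x r) w h1) with h | h | h | h
      · exact ⟨(p, q, some r), by simp, h⟩
      · exact ⟨(p, q, none), by simp, h⟩
      · exact ⟨(q, r, none), by simp, h⟩
      · exact ⟨(r, p, none), by simp, h⟩
    · have := measure_base ν hν _ _ _ _ hd
      simp only [Multiset.insert_eq_cons, Multiset.map_cons, Multiset.sum_cons,
        Multiset.map_singleton, Multiset.sum_singleton, cc, gen]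
      rw [← add_assoc, ← add_assoc]
      exact this
    · simp only [Multiset.insert_eq_cons, Multiset.map_cons, Multiset.sum_cons,
        Multiset.map_singleton, Multiset.sum_singleton, val, add_zero]
      rw [← vol_tri]
      simp [Set.image_insert_eq]
  | succ n hn ih =>
    intro S hS hc
    obtain ⟨i, hi, m, hm0, hm, hvol⟩ := ear hc (by omega)
    obtain ⟨d, T, hv, hcov, hme, hy⟩ := ih (S.erase i) (by rw [Finset.card_erase_of_mem hi, hS]; rfl)
      (hc.mono (Finset.erase_subset i S))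
    obtain ⟨⟨p, q, r⟩, ht, hxi⟩ := hcov (x i)
    obtain ⟨T', rfl⟩ := Multiset.exists_cons_of_mem ht
    obtain ⟨v1, v2, v3, v4⟩ := hv _ ht
    simp only [Finset.mem_erase] at v1 v2 v3 v4
    refine ⟨d, (i, q, r) ::ₘ (p, i, r) ::ₘ (p, q, some i) ::ₘ T', ?_, ?_, ?_, ?_⟩
    · intro t ht'
      simp only [Multiset.mem_cons] at ht'
      rcases ht' with rfl | rfl | rfl | h
      · exact ⟨hi, v2.2, v2.1.symm, fun r' hr' =>
          ⟨(v4 r' hr').1.2, (v4 r' hr').1.1.symm, (v4 r' hr').2.2⟩⟩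
      · exact ⟨v1.2, hi, v1.1, fun r' hr' =>
          ⟨(v4 r' hr').1.2, (v4 r' hr').2.1, (v4 r' hr').1.1.symm⟩⟩
      · refine ⟨v1.2, v2.2, v3, fun r' hr' => ?_⟩
        obtain rfl : i = r' := by simpa using hr'
        exact ⟨hi, v1.1, v2.1⟩
      · obtain ⟨a, b, c, e⟩ := hv t (Multiset.mem_cons_of_mem h)
        exact ⟨Finset.mem_of_mem_erase a, Finset.mem_of_mem_erase b, c, fun r' hr' =>
          ⟨Finset.mem_of_mem_erase (e r' hr').1, (e r' hr').2⟩⟩
    · intro w
      obtain ⟨t, ht', hw⟩ := hcov w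
      rcases Multiset.mem_cons.mp ht' with rfl | h
      · rcases cover_split _ _ _ _ hxi w hw with h | h | h
        · exact ⟨(i, q, r), by simp, h⟩
        · exact ⟨(p, i, r), by simp, h⟩
        · exact ⟨(p, q, some i), by simp, h⟩
      · exact ⟨t, by simp [h], hw⟩
    · have := measure_split ν hν _ _ _ _ hxi
      simp only [Multiset.map_cons, Multiset.sum_cons] at hme ⊢
      refine le_trans ?_ hme
      rw [← add_assoc, ← add_assoc]
      exact add_le_add this le_rfl
    · have hg : val y (p, q, r) + m ≤ val y (i, q, r) + val y (p, i, r) + val y (p, q, some i) := by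
        cases r with
        | none =>
          simp only [val, zero_add]
          exact hm p v1.2 q v2.2 i hi v3 v1.1 v2.1
        | some r =>
          obtain ⟨⟨a, b⟩, c, e⟩ := v4 r rfl
          exact gain hc hm p q r i v1.2 v2.2 b hi v3 c e v1.1 v2.1 a
      simp only [Multiset.map_cons, Multiset.sum_cons] at hy ⊢
      have hnn : 0 ≤ val y (p, q, r) + (T'.map (val y)).sum := by
        apply add_nonneg (val_nonneg _ _)
        apply Multiset.sum_nonneg
        intro a ha
        obtain ⟨t, -, rfl⟩ := Multiset.mem_map.mp ha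
        exact val_nonneg _ _
      refine hvol.trans ((add_le_add hy le_rfl).trans ?_)
      rw [← add_mul, ← ENNReal.ofReal_add hnn hm0.le]
      exact mul_le_mul_left (ENNReal.ofReal_le_ofReal (by linarith)) _

omit [DecidableEq ι] in
lemma sum_le (x y : ι → E2) (d : G)
    (hT : ∀ i j k, |o (y i) (y j) (y k)| ≤ |o (x i) (x j) (x k)|) (T : Multiset (Cell ι)) :
    ENNReal.ofReal (T.map (val y)).sum * κ ≤
      (T.map (fun t => volume.restrict (convexHull ℝ (Set.range x)) (cc x d t))).sum := by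
  induction T using Multiset.induction_on with
  | empty => simp
  | cons t T ih =>
    simp only [Multiset.map_cons, Multiset.sum_cons]
    refine le_trans ?_ (add_le_add (b := volume.restrict (convexHull ℝ (Set.range x)) (cc x d t))
      (a := ENNReal.ofReal (val y t) * κ) ?_ ih)
    · rw [← add_mul]
      gcongr
      exact ENNReal.ofReal_add_le
    · obtain ⟨p, q, _ | r⟩ := t
      · simp [val]
      · simp only [val, cc, gen, cone_real]
        rw [Measure.restrict_eq_self, vol_tri]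
        · exact mul_le_mul_left (ENNReal.ofReal_le_ofReal (hT p q r)) _
        · apply convexHull_mono
          rintro _ (rfl | rfl | rfl) <;> simp

theorem main (x y : ι → E2) (hT : ∀ i j k, |o (y i) (y j) (y k)| ≤ |o (x i) (x j) (x k)|)
    (S : Finset ι) :
    volume (convexHull ℝ (y '' (S : Set ι))) ≤ volume (convexHull ℝ (Set.range x)) := by
  induction S using Finset.strongInduction with
  | H S ih =>
    by_cases hc : Cvx y S
    · by_cases h3 : 3 ≤ S.card
      · obtain ⟨d, T, -, -, h1, h2⟩ := inv x y (volume.restrict (convexHull ℝ (Set.range x)))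
          Measure.absolutelyContinuous_restrict hT _ h3 S rfl hc
        rw [Measure.restrict_apply_univ] at h1
        exact h2.trans ((sum_le x y d hT T).trans h1)
      · rcases S.eq_empty_or_nonempty with rfl | ⟨p, hp⟩
        · simp
        · have : ∃ q, S ⊆ {p, q} := by
            by_cases h : ∃ q ∈ S, q ≠ p
            · obtain ⟨q, hq, hqp⟩ := h
              refine ⟨q, fun s hs => ?_⟩
              by_contra hn
              simp only [Finset.mem_insert, Finset.mem_singleton, not_or] at hn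
              exact h3 (Finset.two_lt_card.mpr ⟨s, hs, p, hp, q, hq, hn.1, hn.2, hqp.symm⟩)
            · push Not at h
              exact ⟨p, fun s hs => by simp [h s hs]⟩
          obtain ⟨q, hq⟩ := this
          have h1 : convexHull ℝ (y '' (S : Set ι)) ⊆ convexHull ℝ {y p, y q, y q} := by
            apply convexHull_mono
            rintro _ ⟨s, hs, rfl⟩
            have := hq hs
            simp only [Finset.mem_insert, Finset.mem_singleton] at this
            rcases this with rfl | rfl <;> simp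
          refine (measure_mono h1).trans ?_
          rw [vol_tri]
          have : o (y p) (y q) (y q) = 0 := by unfold o; ring
          simp [this]
    · unfold Cvx at hc
      push Not at hc
      obtain ⟨i, hi, hmem⟩ := hc
      refine le_trans (measure_mono ?_) (ih (S.erase i) (Finset.erase_ssubset hi))
      apply convexHull_min _ (convex_convexHull ℝ _)
      rintro _ ⟨s, hs, rfl⟩
      by_cases h : s = i
      · rw [h]; exact hmem
      · exact subset_convexHull ℝ _ ⟨s, by simp [h, Finset.mem_coe.mp hs], rfl⟩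

lemma all_of_sorted {n : ℕ} (x y : Fin n → E2)
    (h : ∀ i j k, i ≤ j → j ≤ k → |o (y i) (y j) (y k)| ≤ |o (x i) (x j) (x k)|) (i j k : Fin n) :
    |o (y i) (y j) (y k)| ≤ |o (x i) (x j) (x k)| := by
  have s1 : ∀ a b c : E2, |o a b c| = |o a c b| := fun a b c => by rw [o_swap, abs_neg]
  have s2 : ∀ a b c : E2, |o a b c| = |o b c a| := fun a b c => by rw [o_cyc]
  rcases le_total i j with a | a <;> rcases le_total j k with b | b <;>
    rcases le_total i k with c | c
  · exact h i j k a b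
  · exact h i j k a b
  · rw [s1, s1 (x i)]; exact h i k j c b
  · rw [← s2, ← s2 (x k)]; exact h k i j c a
  · rw [s2, s1, s2 (x i), s1 (x j)]; exact h j i k a c
  · rw [s2, s2 (x i)]; exact h j k i b c
  · rw [s2, s1, s2 (x i), s1 (x j)]; exact h j i k a c
  · rw [s1, s2, s1 (x i), s2 (x i)]; exact h k j i b a

end Pool.Agent.H10.TriHull
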