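import Mathlib

set_option autoImplicit false

namespace Pool.Agent.H10.Tv
open Finset Module Filter Topology

lemma common {V ι : Type*} [AddCommGroup V] [Module ℝ V] [FiniteDimensional ℝ V] {F : Finset ι}
    (hF : F.Nonempty) : ∃ N, ∀ S : Finset V, N ≤ #S → ∃ col : V → ι, (∀ x, col x ∈ F) ∧
      ∃ p, ∀ i ∈ F, p ∈ convexHull ℝ {x | x ∈ S ∧ col x = i} := by
  classical
  induction hF using Finset.Nonempty.cons_induction with
  | singleton a =>
    refine ⟨1, fun S h => ?_⟩
    obtain ⟨p, hp⟩ := card_pos.1 h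
    exact ⟨fun _ => a, by simp, p, fun i b => subset_convexHull _ _ ⟨hp, (mem_singleton.1 b).symm⟩⟩
  | cons a F ha hF ih =>
    obtain ⟨N, ih⟩ := ih
    obtain ⟨i0, h0⟩ := hF
    refine ⟨(finrank ℝ V + 2) * N, fun S h => ?_⟩
    obtain ⟨e⟩ := Function.Embedding.nonempty_of_card_le
      (α := Fin (finrank ℝ V + 2) × Fin N) (β := S) (by simpa)
    have ei : Function.Injective fun y => (e y : V) := Subtype.val_injective.comp e.injective
    let g := Function.extend (fun y => (e y : V)) Prod.fst fun _ => 0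
    choose col c1 p c2 using fun j => ih {x ∈ S | g x = j} (by
      simpa using card_le_card_of_injOn (s := univ) (t := {x ∈ S | g x = j})
        (fun n : Fin N => (e (j, n) : V)) (fun n _ => by simp [g, ei.extend_apply])
        fun n _ m _ r => by simpa using ei r)
    obtain ⟨I, q, q1, q2⟩ := Convex.radon_partition (𝕜 := ℝ) (f := p) fun r => by
      have := r.card_le_finrank_succ
      have := (vectorSpan ℝ (Set.range p)).finrank_le
      simp at *
      omega
    refine ⟨fun x => if g x ∈ I then col (g x) x else a, fun x => ?_, q, fun i b => ?_⟩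
    · dsimp only
      split_ifs <;> simp [c1]
    rcases mem_cons.1 b with rfl | b
    · refine convexHull_min (Set.forall_mem_image.2 fun j r => ?_) (convex_convexHull _ _) q2
      refine convexHull_mono ?_ (c2 j i0 h0)
      rintro x ⟨s, -⟩
      rw [mem_filter] at s
      exact ⟨s.1, if_neg (s.2 ▸ r)⟩
    · refine convexHull_min (Set.forall_mem_image.2 fun j r => ?_) (convex_convexHull _ _) q1
      refine convexHull_mono ?_ (c2 j i b)
      rintro x ⟨s, t⟩
      rw [mem_filter] at s
      exact ⟨s.1, (if_pos (s.2 ▸ r)).trans (s.2 ▸ t)⟩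

variable {W α : Type*} [AddCommGroup W] [Module ℝ W] [FiniteDimensional ℝ W]

lemma clus (v : α → W) (u : Dual ℝ W) (hu : ∀ x, 0 < u (v x)) (m k : ℕ) (hk : k < finrank ℝ W)
    (δ : ℝ) (d0 : 0 < δ) (d1 : δ ≤ 1) (T : ℕ) : ∃ N, ∀ S : Finset α,
      (∀ B ⊆ S, m ≤ #B → Submodule.span ℝ (v '' B) = ⊤) → N ≤ #S →
      ∃ (l : Fin (k + 1) → Dual ℝ W) (Y : Fin (k + 1) → Finset α), ∀ i, Y i ⊆ S ∧ T ≤ #(Y i) ∧
        ∀ x ∈ Y i, 0 < l i (v x) ∧ ∀ j, j ≠ i → |l j (v x)| ≤ δ * l i (v x) := by
  classical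
  induction k generalizing δ T with
  | zero => exact ⟨T, fun S _ h => ⟨fun _ => u, fun _ => S, fun i => ⟨subset_rfl, h, fun x _ =>
      ⟨hu x, fun j r => (r (by omega)).elim⟩⟩⟩⟩
  | succ k ih =>
    obtain ⟨M, hM⟩ := exists_nat_gt (4 / δ ^ 2)
    have M0 : (0 : ℝ) < M := lt_trans (by positivity) hM
    set ε := δ ^ 2 / (4 * (k + 1)) with hε
    have e0 : 0 < ε := by positivity
    have e2 : (k + 1) * ε = δ ^ 2 / 4 := by rw [hε]; field_simp
    have e1 : ε ≤ δ := by nlinarith [(Nat.cast_nonneg k : (0 : ℝ) ≤ k)]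
    obtain ⟨N, ih⟩ := ih (by omega) ε e0 (e1.trans d1) ((2 * M + 1) * T + m + 2 * T)
    refine ⟨N, fun S hS hN => ?_⟩
    obtain ⟨l, Y, hY⟩ := ih S hS hN
    obtain ⟨w, w1, w0⟩ := (Submodule.ne_bot_iff _).1
      ((LinearMap.pi l).ker_ne_bot_of_finrank_lt (by simpa using hk))
    replace w1 : ∀ j, l j w = 0 := fun j => congrFun w1 j
    let P : ℝ → Prop := fun ρ => ∃ φ : Dual ℝ W, φ w = 1 ∧ ∀ j, (2 * M + 1) * T + m ≤
      #{x ∈ Y j | |φ (v x)| ≤ ρ * l j (v x)}
    obtain ⟨ρ, r0, ⟨φ, f1, f2⟩, hn⟩ : ∃ ρ > 0, P ρ ∧ ¬ P (ρ / 2) := by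
      by_contra! a
      obtain ⟨φ, f⟩ := Projective.exists_dual_eq_one ℝ w0
      obtain ⟨ρ, r0, r1⟩ := ((eventually_gt_atTop (0 : ℝ)).and (eventually_all.2 fun j =>
        (eventually_all_finset (Y j)).2 fun x b => (tendsto_id.atTop_mul_const
          ((hY j).2.2 x b).1).eventually_ge_atTop |φ (v x)|)).exists
      have all : ∀ n : ℕ, P (ρ / 2 ^ n) := fun n => by
        induction n with
        | zero => exact ⟨φ, f, fun j => by
            rw [filter_true_of_mem (by simpa using r1 j)]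
            exact le_of_add_le_left (hY j).2.1⟩
        | succ n ih => rw [pow_succ, ← div_div]; exact a _ (by positivity) ih
      have : ∀ B ∈ (Y 0).powerset, ∀ᶠ n : ℕ in atTop, m ≤ #B → ∀ φ : Dual ℝ W, φ w = 1 →
          ¬ ∀ x ∈ B, |φ (v x)| ≤ ρ / 2 ^ n * l 0 (v x) := fun B b => by
        by_cases c : m ≤ #B
        swap
        · simp [c]
        obtain ⟨β, hβ⟩ := (Submodule.mem_span_image_finset_iff_exists_fun' ℝ).1
          (hS B ((mem_powerset.1 b).trans (hY 0).1) c ▸ Submodule.mem_top (x := w))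
        have t := ((tendsto_pow_atTop_atTop_of_one_lt (one_lt_two (α := ℝ))).const_div_atTop
          ρ).mul_const (∑ x ∈ B, |β x| * l 0 (v x))
        filter_upwards [t.eventually (gt_mem_nhds (by simp : _ < (1 : ℝ)))] with n h _ φ f g
        refine h.not_ge ?_
        rw [← f, ← hβ, map_sum, mul_sum]
        refine sum_le_sum fun x r => (le_abs_self _).trans ?_
        rw [map_smul, smul_eq_mul, abs_mul, mul_left_comm]
        exact mul_le_mul_of_nonneg_left (g x r) (abs_nonneg _)
      obtain ⟨n, b⟩ := ((eventually_all_finset _).2 this).exists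
      obtain ⟨ψ, g1, g2⟩ := all n
      exact b _ (mem_powerset.2 (filter_subset _ _)) (le_of_add_le_right (g2 0)) ψ g1
        fun x c => (mem_filter.1 c).2
    choose c c1 c2 using fun j => exists_le_card_fiber_of_mul_le_card_of_maps_to
      (s := {x ∈ Y j | |φ (v x)| ≤ ρ * l j (v x)}) (t := Icc (-M : ℤ) M) (n := T)
      (f := fun x => ⌊φ (v x) / l j (v x) / ρ * M⌋) (fun x b => by
        rw [mem_filter] at b
        have := ((hY j).2.2 x b.1).1
        have h : |φ (v x) / l j (v x) / ρ| ≤ 1 := by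
          rw [div_div, abs_div, abs_of_pos (mul_pos this r0), div_le_one (mul_pos this r0), mul_comm]
          exact b.2
        rw [abs_le] at h
        rw [mem_Icc, Int.le_floor, Int.floor_le_iff]
        push_cast
        constructor <;> nlinarith) (by simp) (le_trans (by
          rw [Int.card_Icc, show ((M : ℤ) + 1 - -M).toNat = 2 * M + 1 by omega]; omega) (f2 j))
    let ψ := φ - ∑ j, (c j * ρ / M) • l j
    have ψ1 : ψ w = 1 := by simp [ψ, f1, w1]
    obtain ⟨j, hj⟩ : ∃ j, 2 * T ≤ #{x ∈ Y j | ¬ |ψ (v x)| ≤ ρ / 2 * l j (v x)} := by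
      by_contra! a
      refine hn ⟨ψ, ψ1, fun j => ?_⟩
      have := card_filter_add_card_filter_not (s := Y j) fun x => |ψ (v x)| ≤ ρ / 2 * l j (v x)
      have := (hY j).2.1
      have := a j
      simp only [not_le] at *
      omega
    obtain ⟨σ, s1, s2⟩ := exists_le_card_fiber_of_mul_le_card_of_maps_to (t := {1, -1})
      (f := fun x => if 0 ≤ ψ (v x) then (1 : ℝ) else -1) (fun x _ => by split_ifs <;> simp)
      (by simp) (le_trans (by rw [card_pair (by norm_num)]) hj)
    refine ⟨Fin.cons ((σ * (2 / (ρ * δ))) • ψ) l, Fin.cons _ fun j => {x ∈ {x ∈ Y j |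
      |φ (v x)| ≤ ρ * l j (v x)} | ⌊φ (v x) / l j (v x) / ρ * M⌋ = c j}, Fin.forall_fin_succ.2
      ⟨⟨fun x b => (hY j).1 (mem_filter.1 (mem_filter.1 b).1).1, s2, fun x b => ?_⟩, fun i =>
        ⟨fun x b => (hY i).1 (mem_filter.1 (mem_filter.1 b).1).1, c2 i, fun x b => ?_⟩⟩⟩
    · obtain ⟨b, e⟩ := mem_filter.1 b
      obtain ⟨b, d⟩ := mem_filter.1 b
      rw [not_le] at d
      obtain ⟨p, q⟩ := (hY j).2.2 x b
      have a : l j (v x) ≤ δ * (σ * (2 / (ρ * δ)) * ψ (v x)) := by
        have : σ * ψ (v x) = |ψ (v x)| := by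
          split_ifs at e with h
          · rw [← e, abs_of_nonneg h, one_mul]
          · rw [← e, abs_of_neg (not_le.1 h), neg_one_mul]
        rw [mul_right_comm, this]
        field_simp
        linarith
      refine ⟨(mul_pos_iff_of_pos_left d0).1 (p.trans_le a),
        Fin.forall_fin_succ.2 ⟨by simp, fun i _ => le_trans ?_ a⟩⟩
      by_cases h : i = j
      · simp [h, abs_of_pos p]
      · exact (q i h).trans (by nlinarith)
    · simp only [Fin.cons_succ, mem_filter] at b ⊢
      obtain ⟨⟨b, -⟩, e⟩ := b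
      obtain ⟨p, q⟩ := (hY i).2.2 x b
      refine ⟨p, Fin.forall_fin_succ.2 ⟨fun _ => ?_, fun j r =>
        (q j fun h => r (congrArg _ h)).trans (by gcongr)⟩⟩
      have a : |ψ (v x)| ≤ ρ * (δ ^ 2 / 2) * l i (v x) := by
        have g : |φ (v x) - c i * ρ / M * l i (v x)| ≤ ρ / M * l i (v x) := by
          have g1 := Int.floor_le (φ (v x) / l i (v x) / ρ * M)
          have g2 := Int.lt_floor_add_one (φ (v x) / l i (v x) / ρ * M)
          rw [e] at g1 g2
          rw [show φ (v x) - c i * ρ / M * l i (v x) = (φ (v x) / l i (v x) / ρ * M - c i) *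
            (ρ / M * l i (v x)) by field_simp, abs_of_nonneg (by
              have := sub_nonneg.2 g1; positivity)]
          exact mul_le_of_le_one_left (by positivity) (by linarith)
        have h : |∑ j ∈ univ.erase i, c j * ρ / M * l j (v x)| ≤ (k + 1) * (ρ * (ε * l i (v x))) := by
          refine (abs_sum_le_sum_abs _ _).trans ((sum_le_card_nsmul _ _ (ρ * (ε * l i (v x)))
            fun j r => ?_).trans (by simp; gcongr; simp))
          rw [abs_mul]
          refine mul_le_mul ?_ (q j (mem_erase.1 r).1) (abs_nonneg _) r0.le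
          have : |(c j : ℝ)| ≤ M := by exact_mod_cast abs_le.2 (mem_Icc.1 (c1 j))
          rw [abs_div, abs_mul, abs_of_pos r0, abs_of_pos M0, div_le_iff₀ M0, mul_comm]
          gcongr
        have : ψ (v x) = φ (v x) - c i * ρ / M * l i (v x) -
            ∑ j ∈ univ.erase i, c j * ρ / M * l j (v x) := by
          simp [ψ, LinearMap.sum_apply]
        rw [this]
        refine (abs_sub _ _).trans ((add_le_add g h).trans ?_)
        have : 1 / (M : ℝ) ≤ δ ^ 2 / 4 := by
          rw [div_lt_iff₀ (by positivity)] at hM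
          rw [div_le_iff₀ M0]
          linarith
        calc _ = ρ * (1 / M + (k + 1) * ε) * l i (v x) := by ring
          _ ≤ _ := by gcongr; linarith
      have : |σ| = 1 := by rcases mem_insert.1 s1 with h | h <;> simp_all
      rw [Fin.cons_zero, LinearMap.smul_apply, smul_eq_mul, abs_mul, abs_mul, this,
        abs_of_pos (by positivity)]
      calc _ ≤ 1 * (2 / (ρ * δ)) * (ρ * (δ ^ 2 / 2) * l i (v x)) := by gcongr
        _ = _ := by field_simp

end Pool.Agent.H10.Tv
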