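import Mathlib

set_option autoImplicit false

namespace Pool.Agent.H10.Tv

/-- no `d + 1` points of `S` lie on a common affine hyperplane `f = c` -/
def GenPos {d : ℕ} (S : Finset (Fin d → ℝ)) : Prop :=
  ∀ (f : (Fin d → ℝ) →ₗ[ℝ] ℝ) (c : ℝ), f ≠ 0 → {x | x ∈ S ∧ f x = c}.ncard ≤ d

/-- `S` has a partition into `n` nonempty classes whose nerve is `K` -/
def Induced {d n : ℕ} (K : Set (Finset (Fin n))) (S : Finset (Fin d → ℝ)) : Prop :=
  ∃ col : (Fin d → ℝ) → Fin n, (∀ i, ∃ x ∈ S, col x = i) ∧ ∀ I : Finset (Fin n),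
    I ∈ K ↔ (⋂ i ∈ I, convexHull ℝ {x | x ∈ S ∧ col x = i}).Nonempty

/-- `K` is partition induced on all large point sets in general position in dimension `d` -/
def Tverberg {n : ℕ} (K : Set (Finset (Fin n))) (d : ℕ) : Prop :=
  ∃ N : ℕ, ∀ S : Finset (Fin d → ℝ), GenPos S → N < S.card → Induced K S

end Pool.Agent.H10.Tv
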