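import Mathlib
import Pool.Agent.H10.TvA
import Pool.Agent.H10.TvDefs

set_option autoImplicit false

namespace Pool.Agent.H10.Tv
open Finset Module

theorem main {n : ℕ} (hn : 0 < n) {K : Set (Finset (Fin n))} (h1 : IsLowerSet K)
    (h2 : ∀ i, {i} ∈ K) {d : ℕ} (hd : 2 ^ n ≤ d) : Tverberg K d := by
  classical
  have : Nonempty (Fin n) := ⟨⟨0, hn⟩⟩
  obtain ⟨k, hk⟩ : ∃ k, Fintype.card (Finset (Fin n)) = k + 1 :=
    Nat.exists_eq_succ_of_ne_zero Fintype.card_ne_zero
  let e := Fintype.equivFinOfCardEq hk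
  choose N hN using fun F : Finset (Fin n) => fun h => common (V := Fin d → ℝ) (F := F) h
  let δ : ℝ := 1 / (n * (k + 1) + 1)
  have d0 : 0 < δ := by positivity
  have d2 : δ * (n * (k + 1) + 1) = 1 := one_div_mul_cancel (by positivity)
  have d1 : δ < 1 := by
    have : (0 : ℝ) < n := by exact_mod_cast hn
    rw [div_lt_one (by positivity), lt_add_iff_pos_left]
    positivity
  obtain ⟨M, hM⟩ := clus (fun x : Fin d → ℝ => ((1 : ℝ), x)) (LinearMap.fst ..) (by simp) (d + 1) k
    (by simp at hk ⊢; omega) δ d0 d1.le (∑ F, if h : F.Nonempty then N F h else 0)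
  refine ⟨M, fun S hS hc => ?_⟩
  obtain ⟨l, Y, hY⟩ := hM S (fun B b c => by
    by_contra r
    obtain ⟨φ, f0, f1⟩ := Submodule.exists_dual_map_eq_bot_of_lt_top (Ne.lt_top r) inferInstance
    have f2 : ∀ x ∈ B, φ (0, x) = -φ (1, 0) := fun x t => by
      rw [eq_neg_iff_add_eq_zero, ← map_add, ← Submodule.mem_bot ℝ, ← f1]
      exact Submodule.mem_map_of_mem (Submodule.subset_span ⟨x, t, by simp⟩)
    obtain ⟨x, t⟩ := card_pos.1 (by omega : 0 < #B)
    have := (Set.ncard_le_ncard (s := B) (fun x t => And.intro (b t) (f2 x t)) (S.finite_toSet.subset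
      fun _ => And.left)).trans (hS (φ ∘ₗ LinearMap.inr ..) (-φ (1, 0)) fun r => f0 (by
        have g : ∀ y, φ (0, y) = 0 := fun y => LinearMap.congr_fun r y
        refine LinearMap.ext fun y => ?_
        rw [show y = y.1 • (1, 0) + (0, y.2) by simp, map_add, g, map_smul,
          neg_eq_zero.1 ((f2 x t).symm.trans (g x))]
        simp))
    rw [Set.ncard_coe_finset] at this
    omega) hc.le
  choose c c1 p c2 using fun F h => hN F h (Y (e F)) (le_trans (le_trans (by simp [h])
    (single_le_sum (f := fun F => if h : F.Nonempty then N F h else 0) (fun _ _ => Nat.zero_le _)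
      (mem_univ F))) (hY _).2.1)
  have dj : ∀ F G x, x ∈ Y (e F) → x ∈ Y (e G) → F = G := fun F G x a b => by
    by_contra r
    obtain ⟨a1, a2⟩ := (hY _).2.2 x a
    obtain ⟨b1, b2⟩ := (hY _).2.2 x b
    have := (le_abs_self _).trans (a2 _ (e.injective.ne (Ne.symm r)))
    have := (le_abs_self _).trans (b2 _ (e.injective.ne r))
    nlinarith
  let π : Fin n → Dual ℝ (ℝ × (Fin d → ℝ)) := fun i => ∑ F with i ∈ F, l (e F)
  choose a ha using fun x : Fin d → ℝ => (exists_max_image univ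
    (fun i => toLex (π i (1, x), OrderDual.toDual i)) univ_nonempty)
  let Q := fun x F => F ∈ K ∧ F.Nonempty ∧ x ∈ Y (e F)
  let col := fun x => if h : ∃ F, Q x F then c _ h.choose_spec.2.1 x else a x
  have cq : ∀ x F (h : Q x F), col x = c F h.2.1 x := fun x F h => by
    have g : ∃ F, Q x F := ⟨F, h⟩
    obtain rfl := dj _ _ x h.2.2 g.choose_spec.2.2
    exact dif_pos g
  have fc : ∀ F ∈ K, ∃ p, ∀ i ∈ F, p ∈ convexHull ℝ {x | x ∈ S ∧ col x = i} := fun F h => by
    by_cases g : F.Nonempty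
    · refine ⟨p F g, fun i b => convexHull_mono ?_ (c2 F g i b)⟩
      exact fun x r => ⟨(hY _).1 r.1, (cq x F ⟨h, g, r.1⟩).trans r.2⟩
    · simp [not_nonempty_iff_eq_empty.1 g]
  refine ⟨col, fun i => ?_, fun I => ⟨fun h => (fc I h).imp fun _ => Set.mem_iInter₂.2,
    fun ⟨q, hq⟩ => by_contra fun h => ?_⟩⟩
  · obtain ⟨p, b⟩ := fc _ (h2 i)
    exact convexHull_nonempty_iff.1 ⟨p, b i (by simp)⟩
  let g := fun i => ∑ j ∈ I, (π i - π j)
  have key : ∀ i ∈ I, ∀ x, col x = i → 0 ≤ g i (1, x) ∧ ((∃ j ∈ I, j < i) → 0 < g i (1, x)) := by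
    intro i b x r
    by_cases t : ∃ F, Q x F
    · obtain ⟨F, t⟩ := t
      suffices 0 < g i (1, x) from ⟨this.le, fun _ => this⟩
      have iF : i ∈ F := r ▸ cq x F t ▸ c1 ..
      obtain ⟨s1, s2⟩ := (hY _).2.2 x t.2.2
      obtain ⟨j0, j1, j2⟩ := not_subset.1 fun r : I ⊆ F => h (h1 r t.1)
      let w : Finset (Fin n) → Fin n → ℝ := fun G j =>
        (if i ∈ G then 1 else 0) - if j ∈ G then 1 else 0
      have : g i (1, x) = ∑ j ∈ I, w F j * l (e F) (1, x) +
          ∑ G ∈ univ.erase F, ∑ j ∈ I, w G j * l (e G) (1, x) := by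
        rw [add_sum_erase _ (fun G => ∑ j ∈ I, w G j * l (e G) (1, x)) (mem_univ F), sum_comm]
        simp only [g, π, w, LinearMap.sum_apply, LinearMap.sub_apply]
        simp only [sum_filter, sub_mul, ite_mul, one_mul, zero_mul, sum_sub_distrib]
      have u1 : l (e F) (1, x) ≤ ∑ j ∈ I, w F j * l (e F) (1, x) :=
        le_trans (by simp [w, iF, j2]) (single_le_sum (fun j _ => mul_nonneg (by
          simp only [w, iF]; split_ifs <;> simp) s1.le) j1)
      have u2 : |∑ G ∈ univ.erase F, ∑ j ∈ I, w G j * l (e G) (1, x)| ≤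
          (k + 1) * (n * (δ * l (e F) (1, x))) := by
        refine (abs_sum_le_sum_abs _ _).trans ((sum_le_card_nsmul _ _ (n * (δ * l (e F) (1, x)))
          fun G r => (abs_sum_le_sum_abs _ _).trans ((sum_le_card_nsmul _ _ (δ * l (e F) (1, x))
            fun j _ => ?_).trans ?_)).trans ?_)
        · rw [abs_mul]
          refine (mul_le_of_le_one_left (abs_nonneg _) ?_).trans
            (s2 _ (e.injective.ne (mem_erase.1 r).1))
          simp only [w]
          split_ifs <;> simp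
        · rw [nsmul_eq_mul]
          gcongr
          simpa using card_le_univ I
        · rw [nsmul_eq_mul, card_erase_of_mem (mem_univ _), card_univ, hk]
          gcongr
          simp
      nlinarith [neg_abs_le (∑ G ∈ univ.erase F, ∑ j ∈ I, w G j * l (e G) (1, x)), mul_pos d0 s1]
    · obtain rfl : a x = i := (dif_neg t).symm.trans r
      have m := fun j => Prod.Lex.toLex_le_toLex.1 ((ha x).2 j (mem_univ _))
      have m' : ∀ j ∈ I, 0 ≤ (π (a x) - π j) (1, x) := fun j _ =>
        sub_nonneg.2 ((m j).elim le_of_lt fun s => s.1.le)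
      simp only [g, LinearMap.sum_apply]
      exact ⟨sum_nonneg m', fun ⟨j, s, u⟩ => sum_pos' m' ⟨j, s, sub_pos.2
        ((m j).resolve_right fun s => u.not_ge s.2)⟩⟩
  have cv : ∀ i ∈ I, ∀ C : Set ℝ, Convex ℝ C → (∀ x, col x = i → g i (1, x) ∈ C) →
      g i (1, q) ∈ C := fun i b C s t => convexHull_min (fun x r => t x r.2) (fun x s1 y s2 α β
        s3 s4 s5 => by
          have := s s1 s2 s3 s4 s5
          rwa [← map_smul, ← map_smul, ← map_add, Prod.smul_mk, Prod.smul_mk, Prod.mk_add_mk,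
            smul_eq_mul, smul_eq_mul, mul_one, mul_one, s5] at this :
          Convex ℝ {x | g i (1, x) ∈ C}) (Set.mem_iInter₂.1 hq i b)
  obtain ⟨i, b, j, s, t⟩ := (one_lt_card (s := I)).1 (not_le.1 fun r => h (by
    obtain ⟨i, r⟩ := card_le_one_iff_subset_singleton.1 r
    exact h1 r (h2 i)))
  wlog u : j < i generalizing i j
  · exact this j s i b t.symm (t.lt_or_gt.resolve_right u)
  refine (sum_pos' (fun i b => cv i b _ (convex_Ici 0) fun x r => (key i b x r).1)
    ⟨i, b, cv i b _ (convex_Ioi 0) fun x r => (key i b x r).2 ⟨j, s, u⟩⟩).ne' ?_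
  simp [g, LinearMap.sum_apply, mul_sum]

end Pool.Agent.H10.Tv
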