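import Mathlib

set_option autoImplicit false

/-! Counting in the three-dimensional Hermitian space over a finite field. -/

namespace Pool.Agent.H10.Unit3
open Finset Classical Matrix

variable {F : Type} [Field F] [Fintype F]

abbrev V (F : Type) := Fin 3 → F

def h (σ : F →+* F) (x y : V F) : F := x 0 * σ (y 0) + x 1 * σ (y 1) + x 2 * σ (y 2)

lemma roots_le (n : ℕ) (hn : 0 < n) (a : F) : #{c : F | c ^ n = a} ≤ n :=
  (card_le_card (t := (Polynomial.nthRoots n a).toFinset) fun c hc => by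
    simpa [Polynomial.mem_nthRoots hn] using hc).trans
    ((Multiset.toFinset_card_le _).trans (Polynomial.card_nthRoots n a))

omit [Fintype F] in
lemma cr {u v : V F} (hu : u ≠ 0) (h0 : u 1 * v 2 = u 2 * v 1) (h1 : u 2 * v 0 = u 0 * v 2)
    (h2 : u 0 * v 1 = u 1 * v 0) : ∃ c : F, v = c • u := by
  obtain ⟨i, hi⟩ := Function.ne_iff.mp hu
  refine ⟨v i / u i, funext fun j => ?_⟩
  simp only [Pi.zero_apply, Pi.smul_apply, smul_eq_mul] at hi ⊢
  field_simp
  fin_cases i <;> fin_cases j <;> simp <;>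
    first | ring1 | linear_combination h0 | linear_combination h1 | linear_combination h2 |
      linear_combination -h0 | linear_combination -h1 | linear_combination -h2

structure Ok (σ : F →+* F) (q : ℕ) : Prop where
  pw : ∀ x, σ x = x ^ q
  cd : Fintype.card F = q ^ 2
  q2 : 2 ≤ q

variable {σ : F →+* F} {q : ℕ}

lemma Ok.inv (o : Ok σ q) (x : F) : σ (σ x) = x := by
  rw [o.pw, o.pw, ← pow_mul, ← sq, ← o.cd, FiniteField.pow_card]

lemma Ok.symm (o : Ok σ q) (x y : V F) : σ (h σ x y) = h σ y x := by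
  simp only [h, map_add, map_mul, o.inv]; ring

omit [Fintype F] in
lemma h_smul (a b : F) (x y : V F) : h σ (a • x) (b • y) = a * σ b * h σ x y := by
  simp only [h, Pi.smul_apply, smul_eq_mul, map_mul]; ring

lemma Ok.norm_le (o : Ok σ q) (a : F) : #{c : F | c * σ c = a} ≤ q + 1 := by
  simpa only [o.pw, ← pow_succ'] using roots_le (q + 1) (by omega) a

lemma Ok.norm (o : Ok σ q) (a : F) (a0 : a ≠ 0) (ha : σ a = a) :
    #{c : F | c * σ c = a} = q + 1 := by
  have q2 := o.q2
  obtain ⟨r, rfl⟩ : ∃ r, q = r + 1 := ⟨q - 1, by omega⟩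
  by_contra n
  have mem : ∀ a : F, a ≠ 0 → σ a = a → a ∈ ({c : F | c ^ r = 1} : Finset F) := fun a a0 ha => by
    rw [o.pw, pow_succ] at ha
    simpa using mul_right_cancel₀ a0 (ha.trans (one_mul a).symm)
  have e := card_eq_sum_card_fiberwise (s := univ.erase (0 : F)) (t := {c : F | c ^ r = 1})
    (f := fun c => c * σ c) fun c hc => mem _
      (mul_ne_zero (ne_of_mem_erase hc) ((map_ne_zero σ).mpr (ne_of_mem_erase hc)))
      (by rw [map_mul, o.inv, mul_comm])
  have le : ∀ b, #{c ∈ univ.erase (0 : F) | c * σ c = b} ≤ #{c : F | c * σ c = b} := fun b =>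
    card_le_card (filter_subset_filter _ (subset_univ _))
  have lt := sum_lt_sum (s := ({c : F | c ^ r = 1} : Finset F))
    (f := fun b => #{c ∈ univ.erase (0 : F) | c * σ c = b}) (g := fun _ => r + 1 + 1)
    (fun b _ => (le b).trans (o.norm_le b))
    ⟨a, mem a a0 ha, (le a).trans_lt (lt_of_le_of_ne (o.norm_le a) n)⟩
  rw [← e, card_erase_of_mem (mem_univ _), card_univ, o.cd, sum_const, smul_eq_mul] at lt
  have := Nat.mul_le_mul_right (r + 1 + 1) (roots_le (F := F) r (by omega) 1)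
  have e2 : (r + 1) ^ 2 = r * (r + 1 + 1) + 1 := by ring
  omega

lemma Ok.cone (o : Ok σ q) (C : Finset (V F)) (hC : ∀ v, ∀ c : F, c ≠ 0 → (c • v ∈ C ↔ v ∈ C)) :
    #{v ∈ C | h σ v v = 1} * (q ^ 2 - 1) = (q + 1) * #{v ∈ C | h σ v v ≠ 0} := by
  have e := card_eq_sum_card_fiberwise (s := {v ∈ C | h σ v v = 1} ×ˢ univ.erase (0 : F))
    (t := {v ∈ C | h σ v v ≠ 0}) (f := fun x => x.2 • x.1) (by
      rintro ⟨y, c⟩ hy
      simp only [coe_product, coe_filter, Set.mem_prod, Set.mem_ofPred_eq, mem_coe, mem_erase] at hy ⊢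
      refine ⟨(hC _ _ hy.2.1).mpr hy.1.1, ?_⟩
      rw [h_smul, hy.1.2, mul_one]
      exact mul_ne_zero hy.2.1 ((map_ne_zero σ).mpr hy.2.1))
  rw [card_product, card_erase_of_mem (mem_univ _), card_univ, o.cd] at e
  rw [e, mul_comm, ← smul_eq_mul, ← sum_const]
  refine sum_congr rfl fun v hv => ?_
  rw [mem_filter] at hv
  rw [← o.norm _ hv.2 (o.symm v v)]
  refine card_bij (fun x _ => x.2) ?_ ?_ ?_
  · rintro ⟨y, c⟩ hy
    simp only [mem_filter, mem_product, mem_erase, mem_univ, true_and, and_true] at hy ⊢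
    rw [← hy.2, h_smul, hy.1.1.2, mul_one]
  · rintro ⟨y, c⟩ hy ⟨y', c'⟩ hy' (rfl : c = c')
    simp only [mem_filter, mem_product, mem_erase, mem_univ, and_true] at hy hy'
    rw [smul_right_injective _ hy.1.2 (hy.2.trans hy'.2.symm)]
  · intro c hc
    simp only [mem_filter, mem_univ, true_and] at hc
    have c0 : c ≠ 0 := by rintro rfl; exact hv.2 (by simpa using hc.symm)
    refine ⟨(c⁻¹ • v, c), ?_, rfl⟩
    simp only [mem_filter, mem_product, mem_erase, mem_univ, and_true]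
    refine ⟨⟨⟨(hC _ _ (inv_ne_zero c0)).mpr hv.1, ?_⟩, c0⟩, smul_inv_smul₀ c0 v⟩
    have := (map_ne_zero σ).mpr c0
    rw [h_smul, ← hc, map_inv₀]
    field_simp

lemma Ok.perp (o : Ok σ q) (x : V F) (hx : h σ x x = 1) :
    #{y : V F | h σ y x = 0} = (q ^ 2) ^ 2 := by
  let φ : Module.Dual F (V F) :=
    { toFun := fun y => h σ y x
      map_add' := fun a b => by simp only [h, Pi.add_apply]; ring
      map_smul' := fun a b => by simp only [h, Pi.smul_apply, smul_eq_mul, RingHom.id_apply]; ring }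
  have n : φ ≠ 0 := fun z => by simpa [φ, hx] using LinearMap.congr_fun z x
  have r := Module.Dual.finrank_ker_add_one_of_ne_zero n
  have c := Module.card_eq_pow_finrank (K := F) (V := LinearMap.ker φ)
  rw [Module.finrank_fin_fun] at r
  rw [show Module.finrank F (LinearMap.ker φ) = 2 by omega, o.cd] at c
  rw [← c, Fintype.card_subtype]
  congr 1

lemma Ok.perp2 (o : Ok σ q) (x x' : V F) (hx : h σ x x = 1) (n : ¬ ∃ c : F, x' = c • x) :
    #{y : V F | h σ y x = 0 ∧ h σ y x' = 0} ≤ q ^ 2 := by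
  let w : V F := ![σ (x 1) * σ (x' 2) - σ (x 2) * σ (x' 1), σ (x 2) * σ (x' 0) - σ (x 0) * σ (x' 2),
    σ (x 0) * σ (x' 1) - σ (x 1) * σ (x' 0)]
  have w0 : w ≠ 0 := fun z => n (cr (by rintro rfl; simp [h] at hx)
    (σ.injective (by simpa [w, sub_eq_zero] using congrFun z 0))
    (σ.injective (by simpa [w, sub_eq_zero] using congrFun z 1))
    (σ.injective (by simpa [w, sub_eq_zero] using congrFun z 2)))
  rw [← o.cd, ← card_univ]
  refine le_trans (card_le_card fun y hy => ?_) (card_image_le (f := fun c : F => c • w))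
  simp only [mem_filter, mem_univ, true_and, h] at hy
  obtain ⟨c, hc⟩ := cr (v := y) w0
    (by simp [w]; linear_combination σ (x' 0) * hy.1 - σ (x 0) * hy.2)
    (by simp [w]; linear_combination σ (x' 1) * hy.1 - σ (x 1) * hy.2)
    (by simp [w]; linear_combination σ (x' 2) * hy.1 - σ (x 2) * hy.2)
  exact mem_image.mpr ⟨c, mem_univ _, hc.symm⟩

lemma Ok.iso (o : Ok σ q) : #{v : V F | h σ v v = 0} ≤ (q ^ 2) ^ 2 * (q + 1) := by
  have := card_le_mul_card_image_of_maps_to (s := ({v : V F | h σ v v = 0} : Finset (V F)))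
    (t := (univ : Finset (F × F))) (f := fun v => (v 0, v 1)) (fun _ _ => mem_univ _) (q + 1)
    fun b _ => by
      refine le_trans (card_le_card_of_injOn (fun v => v 2) ?_ ?_)
        (o.norm_le (-(b.1 * σ b.1 + b.2 * σ b.2)))
      · intro v hv
        simp only [coe_filter, mem_filter, mem_univ, true_and, Set.mem_ofPred_eq, h] at hv ⊢
        rw [← hv.2]
        linear_combination hv.1
      · intro v hv v' hv' e
        simp only [coe_filter, Set.mem_ofPred_eq] at hv hv'
        have := hv.2.trans hv'.2.symm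
        funext i
        fin_cases i
        exacts [congrArg Prod.fst this, congrArg Prod.snd this, e]
  rwa [card_univ, Fintype.card_prod, o.cd, ← sq, mul_comm] at this

lemma Ok.deg (o : Ok σ q) (x : V F) (hx : h σ x x = 1) :
    #{y : V F | h σ y y = 1 ∧ h σ y x = 0} ≤ (q + 1) * (q ^ 2 + 1) := by
  have c := o.cone {y : V F | h σ y x = 0} fun v c c0 => by
    have := h_smul (σ := σ) c 1 v x
    simp only [one_smul, map_one, mul_one] at this
    simp [this, c0]
  have a : #{v ∈ ({y : V F | h σ y x = 0} : Finset (V F)) | h σ v v ≠ 0} ≤ (q ^ 2) ^ 2 - 1 := by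
    rw [← o.perp x hx, ← card_erase_of_mem (a := 0) (by simp [h])]
    refine card_le_card fun v hv => ?_
    rw [mem_filter] at hv
    exact mem_erase.mpr ⟨by rintro rfl; exact hv.2 (by simp [h]), hv.1⟩
  have q4 : 2 ^ 2 ≤ q ^ 2 := Nat.pow_le_pow_left o.q2 2
  rw [filter_filter] at c
  simp only [and_comm (a := h σ _ x = 0)] at c
  obtain ⟨t, ht⟩ : ∃ t, q ^ 2 = t + 1 := ⟨q ^ 2 - 1, by omega⟩
  rw [ht] at a c q4 ⊢
  rw [show (t + 1) ^ 2 - 1 = (t + 1 + 1) * t by
    rw [show (t + 1) ^ 2 = (t + 1 + 1) * t + 1 by ring]; rfl] at a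
  refine Nat.le_of_mul_le_mul_right (c := t) ?_ (by omega)
  rw [mul_assoc]
  exact c.le.trans (Nat.mul_le_mul_left _ a)

/-- expander mixing -/
lemma Ok.mix (o : Ok σ q) (B : Finset (V F)) (hB : ∀ x ∈ B, h σ x x = 1) (l : ℝ) :
    #B * l * (#B / q ^ 2 - l) - #B * (q + 1) * (q ^ 2) ^ 2 ≤
      l * ∑ y ∈ B, (#{x ∈ B | h σ y x = 0} : ℝ) := by
  obtain ⟨r, hr⟩ : ∃ r : V F → ℝ, r = fun y => ∑ x ∈ B, if h σ y x = 0 then 1 else 0 := ⟨_, rfl⟩
  have e0 : ∀ y, (#{x ∈ B | h σ y x = 0} : ℝ) = r y := fun y => by simp [hr]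
  have e1 : ∑ y, r y = #B * (q ^ 2) ^ 2 := by
    rw [hr, sum_comm, ← nsmul_eq_mul, ← sum_const]
    refine sum_congr rfl fun x hx => ?_
    rw [sum_boole]
    exact_mod_cast o.perp x (hB x hx)
  have e2 : ∑ y, r y ^ 2 ≤ #B * (#B * q ^ 2 + (q + 1) * (q ^ 2) ^ 2) := by
    simp only [hr, sq, sum_mul_sum]
    rw [sum_comm, ← nsmul_eq_mul, ← sum_const]
    refine sum_le_sum fun x hx => ?_
    rw [sum_comm]
    have a : ∀ x' ∈ B, (∑ y, (if h σ y x = 0 then 1 else 0) * if h σ y x' = 0 then 1 else 0 : ℝ) ≤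
        q * q + (if ∃ c : F, x' = c • x then 1 else 0) * (q * q * (q * q)) := fun x' _ => by
      simp only [ite_zero_mul_ite_zero, mul_one, sum_boole]
      split_ifs with c
      · have := (card_le_card (s := ({y : V F | h σ y x = 0 ∧ h σ y x' = 0} : Finset (V F)))
          fun y hy => by simpa using (mem_filter.mp hy).2.1).trans (o.perp x (hB x hx)).le
        have : (#{y : V F | h σ y x = 0 ∧ h σ y x' = 0} : ℝ) ≤ (q ^ 2) ^ 2 := by
          exact_mod_cast this
        nlinarith [sq_nonneg (q : ℝ)]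
      · have := o.perp2 x x' (hB x hx) c
        have : (#{y : V F | h σ y x = 0 ∧ h σ y x' = 0} : ℝ) ≤ q ^ 2 := by exact_mod_cast this
        linarith
    refine (sum_le_sum a).trans ?_
    rw [sum_add_distrib, sum_const, nsmul_eq_mul, ← sum_mul, sum_boole]
    have b : #{x' ∈ B | ∃ c : F, x' = c • x} ≤ q + 1 := by
      refine le_trans (card_le_card fun y hy => ?_)
        ((card_image_le (f := fun c : F => c • x)).trans (o.norm_le 1))
      obtain ⟨hy, c, rfl⟩ := mem_filter.mp hy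
      have := hB _ hy
      rw [h_smul, hB x hx, mul_one] at this
      exact mem_image.mpr ⟨c, by simpa using this, rfl⟩
    have b' : (#{x' ∈ B | ∃ c : F, x' = c • x} : ℝ) ≤ q + 1 := by exact_mod_cast b
    gcongr
  have q0 : (0 : ℝ) < q := by have := o.q2; positivity
  obtain ⟨μ, hμ⟩ : ∃ μ : ℝ, μ = #B / q ^ 2 := ⟨_, rfl⟩
  have eb : (#B : ℝ) = μ * q ^ 2 := by rw [hμ]; field_simp
  have e3 : ∑ y, (r y - μ) ^ 2 ≤ #B * (q + 1) * (q ^ 2) ^ 2 := by
    have : ∑ y, (r y - μ) ^ 2 = ∑ y, r y ^ 2 - 2 * μ * ∑ y, r y + ∑ y : V F, μ ^ 2 := by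
      rw [mul_sum, ← sum_sub_distrib, ← sum_add_distrib]
      exact sum_congr rfl fun y _ => by ring
    rw [this, e1, sum_const, card_univ, Fintype.card_fun, o.cd, nsmul_eq_mul]
    simp only [Fintype.card_fin]
    push_cast
    rw [eb] at e2 ⊢
    linarith
  have e4 := sum_le_sum_of_subset_of_nonneg (subset_univ B) (f := fun y => (r y - μ) ^ 2)
    fun _ _ _ => sq_nonneg _
  have e5 := sum_le_sum (s := B) (f := fun y => l * (μ - l) - (r y - μ) ^ 2) (g := fun y => l * r y)
    fun y _ => by nlinarith [sq_nonneg (r y - μ + l), sq_nonneg (r y - μ), sq_nonneg l]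
  rw [sum_sub_distrib, sum_const, nsmul_eq_mul, ← mul_sum] at e5
  simp only [e0, ← hμ]
  linarith

end Pool.Agent.H10.Unit3
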