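import Pool.Agent.H10.Unit3

set_option autoImplicit false

namespace Pool.Agent.H10.Unit3
open Finset Classical Matrix

variable {F : Type} [Field F] [Fintype F] {σ : F →+* F} {q : ℕ}

/-- orthonormal frames -/
noncomputable def G (σ : F →+* F) : Finset (Fin 3 → V F) :=
  {g | ∀ i j, h σ (g i) (g j) = if i = j then 1 else 0}

lemma G_iff (g : Matrix (Fin 3) (Fin 3) F) : g ∈ G σ ↔ g * (g.map σ)ᵀ = 1 := by
  refine (mem_filter_univ (p := fun g : Fin 3 → V F =>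
    ∀ i j, h σ (g i) (g j) = if i = j then 1 else 0) g).trans ?_
  simp only [← Matrix.ext_iff, mul_apply, Fin.sum_univ_three,
    one_apply, h, transpose_apply, map_apply]

lemma sum_inv (T : (Fin 3 → V F) → (Fin 3 → V F)) (hT : Function.Injective T)
    (hG : ∀ g ∈ G σ, T g ∈ G σ) (φ : (Fin 3 → V F) → ℤ) :
    ∑ g ∈ G σ, φ (T g) = ∑ g ∈ G σ, φ g := by
  have : (G σ).image T = G σ := eq_of_subset_of_card_le (image_subset_iff.mpr hG)
    (card_image_of_injective _ hT).ge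
  conv_rhs => rw [← this, sum_image hT.injOn]

lemma Ok.pairs (o : Ok σ q) (P : V F → V F → Prop) [∀ x y, Decidable (P x y)] :
    #{g ∈ G σ | P (g 0) (g 1)} = (q + 1) *
      #{x : V F × V F | h σ x.1 x.1 = 1 ∧ h σ x.2 x.2 = 1 ∧ h σ x.2 x.1 = 0 ∧ P x.1 x.2} := by
  rw [card_eq_sum_card_fiberwise (f := fun g => (g 0, g 1))
    (t := {x : V F × V F | h σ x.1 x.1 = 1 ∧ h σ x.2 x.2 = 1 ∧ h σ x.2 x.1 = 0 ∧ P x.1 x.2}) (by
      intro g hg
      simp only [G, coe_filter, mem_filter, mem_univ, true_and, Set.mem_ofPred_eq] at hg ⊢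
      exact ⟨by simpa using hg.1 0 0, by simpa using hg.1 1 1, by simpa using hg.1 1 0, hg.2⟩),
    mul_comm, ← smul_eq_mul, ← sum_const]
  refine sum_congr rfl fun ⟨x, y⟩ hx => ?_
  simp only [mem_filter, mem_univ, true_and] at hx
  obtain ⟨h1, h2, h3, h4⟩ := hx
  have h5 : h σ x y = 0 := by rw [← o.symm, h3, map_zero]
  let w : V F := ![σ (x 1) * σ (y 2) - σ (x 2) * σ (y 1), σ (x 2) * σ (y 0) - σ (x 0) * σ (y 2),
    σ (x 0) * σ (y 1) - σ (x 1) * σ (y 0)]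
  have w1 : h σ w w = 1 := by
    simp only [h] at h1 h2 h3 h5
    simp [h, w, o.inv]
    linear_combination (y 0 * σ (y 0) + y 1 * σ (y 1) + y 2 * σ (y 2)) * h1 + h2 -
      (y 0 * σ (x 0) + y 1 * σ (x 1) + y 2 * σ (x 2)) * h5
  have w2 : h σ w x = 0 := by simp [h, w]; ring
  have w3 : h σ w y = 0 := by simp [h, w]; ring
  have w4 : h σ x w = 0 := by rw [← o.symm, w2, map_zero]
  have w5 : h σ y w = 0 := by rw [← o.symm, w3, map_zero]
  have w0 : w ≠ 0 := fun z => by simp [z, h] at w1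
  have l : ∀ c u, h σ (c • w) u = c * h σ w u := fun c u => by simpa using h_smul c 1 w u
  have r : ∀ c u, h σ u (c • w) = σ c * h σ u w := fun c u => by simpa using h_smul 1 c u w
  rw [← o.norm 1 one_ne_zero (map_one σ)]
  symm
  refine card_bij (fun c _ => ![x, y, c • w]) ?_ ?_ ?_
  · intro c hc
    simp only [mem_filter, mem_univ, true_and, G] at hc ⊢
    refine ⟨⟨fun i j => ?_, h4⟩, rfl⟩
    fin_cases i <;> fin_cases j <;> simp [*]
  · intro c _ c' _ e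
    exact smul_left_injective F w0 (congrFun e 2)
  · intro g hg
    simp only [mem_filter, mem_univ, true_and, G, Prod.mk.injEq] at hg
    obtain ⟨⟨g1, -⟩, g2, g3⟩ := hg
    have a := g1 2 0
    have b := g1 2 1
    have d := g1 2 2
    simp only [g2, g3, Fin.reduceEq, if_false, if_true] at a b d
    obtain ⟨c, hc⟩ := cr (v := g 2) w0
      (by simp [w, h] at a b ⊢; linear_combination σ (y 0) * a - σ (x 0) * b)
      (by simp [w, h] at a b ⊢; linear_combination σ (y 1) * a - σ (x 1) * b)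
      (by simp [w, h] at a b ⊢; linear_combination σ (y 2) * a - σ (x 2) * b)
    rw [hc, h_smul, w1, mul_one] at d
    refine ⟨c, by simpa using d, funext fun i => ?_⟩
    fin_cases i <;> simp [g2, g3, hc]

noncomputable def ind (A : Finset (V F)) (v : V F) : ℤ := if v ∈ A then 1 else 0

def β (a b c : ℤ) : ℤ := a + b + c - 2 * (a * b + a * c + b * c)

lemma sum_β (A : Finset (V F)) : ∑ g ∈ G σ, β (ind A (g 0)) (ind A (g 1)) (ind A (g 2)) =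
    3 * #{g ∈ G σ | g 0 ∈ A} - 6 * #{g ∈ G σ | g 0 ∈ A ∧ g 1 ∈ A} := by
  have key := fun π : Equiv.Perm (Fin 3) => sum_inv (σ := σ) (fun g => g ∘ π)
    (fun _ _ e => π.surjective.injective_comp_right e) fun g hg => by
      simp only [G, mem_filter, mem_univ, true_and] at hg ⊢
      intro i j
      simp [hg]
  have a1 := key (Equiv.swap 0 1) fun g => ind A (g 0)
  have a2 := key (Equiv.swap 0 2) fun g => ind A (g 0)
  have a3 := key (Equiv.swap 1 2) fun g => ind A (g 0) * ind A (g 1)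
  have a4 := (key (Equiv.swap 0 2) fun g => ind A (g 1) * ind A (g 0)).trans
    (sum_congr rfl fun g _ => mul_comm _ _)
  simp only [Function.comp, Equiv.swap_apply_left,
    show Equiv.swap (1 : Fin 3) 2 0 = 0 by decide, show Equiv.swap (0 : Fin 3) 2 1 = 1 by decide] at a1 a2 a3 a4
  simp only [β, sum_sub_distrib, sum_add_distrib, ← mul_sum, a1, a2, a3, a4]
  simp only [ind, ite_zero_mul_ite_zero, mul_one, sum_boole]
  ring

noncomputable def α (A : Finset (V F)) (g : Matrix (Fin 3) (Fin 3) F) (v : Fin 3 → ℤ) : ℤ :=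
  ind A ((fun i => (v i : F)) ᵥ* g)

def dt (u v : Fin 3 → ℤ) : ℤ := u 0 * v 0 + u 1 * v 1 + u 2 * v 2

section
variable [CharP F 7] (o : Ok σ q) (A : Finset (V F))
  (hA : ∀ v, ∀ c : F, c ≠ 0 → (c • v ∈ A ↔ v ∈ A))
  (hT : ∀ g ∈ G σ, ¬ (g 0 ∈ A ∧ g 1 ∈ A ∧ g 2 ∈ A))
include o hA hT

lemma tri (u v w : Fin 3 → ℤ) (hd : ∀ i j : Fin 3, (7 : ℤ) ∣ dt (![u, v, w] i) (![u, v, w] j) ↔ i ≠ j) :
    (∀ g ∈ G σ, 0 ≤ β (α A g u) (α A g v) (α A g w)) ∧
      ∑ g ∈ G σ, β (α A g u) (α A g v) (α A g w) =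
        3 * #{g ∈ G σ | g 0 ∈ A} - 6 * #{g ∈ G σ | g 0 ∈ A ∧ g 1 ∈ A} := by
  obtain ⟨t, ht⟩ : ∃ t : Fin 3 → Fin 3 → ℤ, t = ![u, v, w] := ⟨_, rfl⟩
  rw [← ht] at hd
  have z : ∀ i j, ((dt (t i) (t j) : ℤ) : F) = 0 ↔ i ≠ j := fun i j => by
    rw [CharP.intCast_eq_zero_iff F 7]; exact hd i j
  have ex : ∀ i, ∃ c : F, c * σ c = ((dt (t i) (t i) : ℤ) : F)⁻¹ := fun i => by
    have := o.norm _ (inv_ne_zero fun e => (z i i).mp e rfl) (by simp)
    obtain ⟨c, hc⟩ := card_pos.mp ((Nat.succ_pos q).trans_eq this.symm)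
    exact ⟨c, (mem_filter.mp hc).2⟩
  choose c hc using ex
  have c0 : ∀ i, c i ≠ 0 := fun i e => by
    have := hc i
    rw [e, zero_mul, eq_comm, inv_eq_zero] at this
    exact (z i i).mp this rfl
  let U : Matrix (Fin 3) (Fin 3) F := fun i => c i • fun k => (t i k : F)
  have hU : U * (U.map σ)ᵀ = 1 := (G_iff U).mp (by
    refine mem_filter.mpr ⟨mem_univ _, fun i j => ?_⟩
    simp only [U, h_smul]
    have : h σ (fun k => (t i k : F)) (fun k => (t j k : F)) = ((dt (t i) (t j) : ℤ) : F) := by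
      simp [h, dt]
    rw [this]
    split_ifs with e
    · subst e; rw [hc, inv_mul_cancel₀ fun e => (z i i).mp e rfl]
    · rw [(z i j).mpr e, mul_zero])
  have row : ∀ (g : Matrix (Fin 3) (Fin 3) F) i, ind A ((U * g) i) = α A g (t i) := fun g i => by
    have : (U * g) i = c i • ((fun k => (t i k : F)) ᵥ* g) := by
      rw [← smul_vecMul]; rfl
    simp only [this, α, ind, hA _ _ (c0 i)]
  have mem : ∀ g : Matrix (Fin 3) (Fin 3) F, g ∈ G σ → U * g ∈ G σ := fun g hg => by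
    rw [G_iff] at hg ⊢
    rw [Matrix.map_mul, transpose_mul, Matrix.mul_assoc, ← Matrix.mul_assoc g, hg,
      Matrix.one_mul, hU]
  have e : ∀ g : Matrix (Fin 3) (Fin 3) F, β (α A g u) (α A g v) (α A g w) =
      β (ind A ((U * g) 0)) (ind A ((U * g) 1)) (ind A ((U * g) 2)) := fun g => by
    simp only [row, ht]; rfl
  refine ⟨fun g hg => ?_, ?_⟩
  · have := hT _ (mem g hg)
    rw [e]
    unfold β ind
    split_ifs <;> simp_all
  · have inj : Function.Injective fun g : Matrix (Fin 3) (Fin 3) F => U * g := fun a b hab => by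
      have := congrArg (fun x : Matrix (Fin 3) (Fin 3) F => (U.map σ)ᵀ * x) hab
      simpa only [← Matrix.mul_assoc, mul_eq_one_comm.mp hU, Matrix.one_mul] using this
    exact (sum_congr rfl fun g _ => e g).trans ((sum_inv (σ := σ) _ inj mem
      fun g => β (ind A (g 0)) (ind A (g 1)) (ind A (g 2))).trans (sum_β A))

lemma relation : 90 * #{g ∈ G σ | g 0 ∈ A ∧ g 1 ∈ A} ≤ 44 * #{g ∈ G σ | g 0 ∈ A} := by
  have t0 := tri o A hA hT ![0, 1, 1] ![0, 1, 6] ![1, 0, 0] (by decide)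
  have t1 := tri o A hA hT ![0, 1, 1] ![1, 2, 5] ![1, 5, 2] (by decide)
  have t2 := tri o A hA hT ![0, 1, 6] ![1, 2, 2] ![1, 5, 5] (by decide)
  have t3 := tri o A hA hT ![1, 0, 2] ![1, 1, 3] ![1, 4, 3] (by decide)
  have t4 := tri o A hA hT ![1, 0, 2] ![1, 3, 3] ![1, 6, 3] (by decide)
  have t5 := tri o A hA hT ![1, 0, 5] ![1, 1, 4] ![1, 4, 4] (by decide)
  have t6 := tri o A hA hT ![1, 0, 5] ![1, 3, 4] ![1, 6, 4] (by decide)
  have t7 := tri o A hA hT ![1, 1, 3] ![1, 3, 1] ![1, 5, 5] (by decide)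
  have t8 := tri o A hA hT ![1, 1, 4] ![1, 3, 6] ![1, 5, 2] (by decide)
  have t9 := tri o A hA hT ![1, 2, 0] ![1, 3, 1] ![1, 3, 4] (by decide)
  have t10 := tri o A hA hT ![1, 2, 0] ![1, 3, 3] ![1, 3, 6] (by decide)
  have t11 := tri o A hA hT ![1, 2, 2] ![1, 4, 6] ![1, 6, 4] (by decide)
  have t12 := tri o A hA hT ![1, 2, 5] ![1, 4, 1] ![1, 6, 3] (by decide)
  have t13 := tri o A hA hT ![1, 4, 1] ![1, 4, 4] ![1, 5, 0] (by decide)
  have t14 := tri o A hA hT ![1, 4, 3] ![1, 4, 6] ![1, 5, 0] (by decide)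
  have p : ∀ g ∈ G σ, ind A (g 0) ≤ β (α A g ![0, 1, 1]) (α A g ![0, 1, 6]) (α A g ![1, 0, 0]) +
      β (α A g ![0, 1, 1]) (α A g ![1, 2, 5]) (α A g ![1, 5, 2]) +
      β (α A g ![0, 1, 6]) (α A g ![1, 2, 2]) (α A g ![1, 5, 5]) +
      β (α A g ![1, 0, 2]) (α A g ![1, 1, 3]) (α A g ![1, 4, 3]) +
      β (α A g ![1, 0, 2]) (α A g ![1, 3, 3]) (α A g ![1, 6, 3]) +
      β (α A g ![1, 0, 5]) (α A g ![1, 1, 4]) (α A g ![1, 4, 4]) +
      β (α A g ![1, 0, 5]) (α A g ![1, 3, 4]) (α A g ![1, 6, 4]) +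
      β (α A g ![1, 1, 3]) (α A g ![1, 3, 1]) (α A g ![1, 5, 5]) +
      β (α A g ![1, 1, 4]) (α A g ![1, 3, 6]) (α A g ![1, 5, 2]) +
      β (α A g ![1, 2, 0]) (α A g ![1, 3, 1]) (α A g ![1, 3, 4]) +
      β (α A g ![1, 2, 0]) (α A g ![1, 3, 3]) (α A g ![1, 3, 6]) +
      β (α A g ![1, 2, 2]) (α A g ![1, 4, 6]) (α A g ![1, 6, 4]) +
      β (α A g ![1, 2, 5]) (α A g ![1, 4, 1]) (α A g ![1, 6, 3]) +
      β (α A g ![1, 4, 1]) (α A g ![1, 4, 4]) (α A g ![1, 5, 0]) +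
      β (α A g ![1, 4, 3]) (α A g ![1, 4, 6]) (α A g ![1, 5, 0]) := by
    intro g hg
    have e0 : ind A (g 0) = α A g ![1, 0, 0] := by
      unfold α
      congr 1
      ext i
      simp [vecMul, dotProduct, Fin.sum_univ_three]
    have e1 : ind A (g 0) ≤ 1 := by unfold ind; split_ifs <;> simp
    have e2 : β (α A g ![0, 1, 1]) (α A g ![0, 1, 6]) (α A g ![1, 0, 0]) +
      β (α A g ![0, 1, 1]) (α A g ![1, 2, 5]) (α A g ![1, 5, 2]) +
      β (α A g ![0, 1, 6]) (α A g ![1, 2, 2]) (α A g ![1, 5, 5]) +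
      β (α A g ![1, 0, 2]) (α A g ![1, 1, 3]) (α A g ![1, 4, 3]) +
      β (α A g ![1, 0, 2]) (α A g ![1, 3, 3]) (α A g ![1, 6, 3]) +
      β (α A g ![1, 0, 5]) (α A g ![1, 1, 4]) (α A g ![1, 4, 4]) +
      β (α A g ![1, 0, 5]) (α A g ![1, 3, 4]) (α A g ![1, 6, 4]) +
      β (α A g ![1, 1, 3]) (α A g ![1, 3, 1]) (α A g ![1, 5, 5]) +
      β (α A g ![1, 1, 4]) (α A g ![1, 3, 6]) (α A g ![1, 5, 2]) +
      β (α A g ![1, 2, 0]) (α A g ![1, 3, 1]) (α A g ![1, 3, 4]) +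
      β (α A g ![1, 2, 0]) (α A g ![1, 3, 3]) (α A g ![1, 3, 6]) +
      β (α A g ![1, 2, 2]) (α A g ![1, 4, 6]) (α A g ![1, 6, 4]) +
      β (α A g ![1, 2, 5]) (α A g ![1, 4, 1]) (α A g ![1, 6, 3]) +
      β (α A g ![1, 4, 1]) (α A g ![1, 4, 4]) (α A g ![1, 5, 0]) +
      β (α A g ![1, 4, 3]) (α A g ![1, 4, 6]) (α A g ![1, 5, 0]) = α A g ![1, 0, 0] + 2 * (α A g ![0, 1, 1] + α A g ![0, 1, 6] + α A g ![1, 0, 2] + α A g ![1, 0, 5] + α A g ![1, 1, 3] + α A g ![1, 1, 4] + α A g ![1, 2, 0] + α A g ![1, 2, 2] + α A g ![1, 2, 5] + α A g ![1, 3, 1] + α A g ![1, 3, 3] + α A g ![1, 3, 4] + α A g ![1, 3, 6] + α A g ![1, 4, 1] + α A g ![1, 4, 3] + α A g ![1, 4, 4] + α A g ![1, 4, 6] + α A g ![1, 5, 0] + α A g ![1, 5, 2] + α A g ![1, 5, 5] + α A g ![1, 6, 3] + α A g ![1, 6, 4] - ((α A g ![0, 1, 1] * α A g ![0, 1, 6] + α A g ![0, 1, 1] * α A g ![1, 0, 0] + α A g ![0, 1, 6] * α A g ![1, 0, 0])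 +
        (α A g ![0, 1, 1] * α A g ![1, 2, 5] + α A g ![0, 1, 1] * α A g ![1, 5, 2] + α A g ![1, 2, 5] * α A g ![1, 5, 2]) +
        (α A g ![0, 1, 6] * α A g ![1, 2, 2] + α A g ![0, 1, 6] * α A g ![1, 5, 5] + α A g ![1, 2, 2] * α A g ![1, 5, 5]) +
        (α A g ![1, 0, 2] * α A g ![1, 1, 3] + α A g ![1, 0, 2] * α A g ![1, 4, 3] + α A g ![1, 1, 3] * α A g ![1, 4, 3]) +
        (α A g ![1, 0, 2] * α A g ![1, 3, 3] + α A g ![1, 0, 2] * α A g ![1, 6, 3] + α A g ![1, 3, 3] * α A g ![1, 6, 3]) +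
        (α A g ![1, 0, 5] * α A g ![1, 1, 4] + α A g ![1, 0, 5] * α A g ![1, 4, 4] + α A g ![1, 1, 4] * α A g ![1, 4, 4]) +
        (α A g ![1, 0, 5] * α A g ![1, 3, 4] + α A g ![1, 0, 5] * α A g ![1, 6, 4] + α A g ![1, 3, 4] * α A g ![1, 6, 4]) +
        (α A g ![1, 1, 3] * α A g ![1, 3, 1] + α A g ![1, 1, 3] * α A g ![1, 5, 5] + α A g ![1, 3, 1] * α A g ![1, 5, 5]) +
        (α A g ![1, 1, 4] * α A g ![1, 3, 6] + α A g ![1, 1, 4] * α A g ![1, 5, 2] + α A g ![1, 3, 6] * α A g ![1, 5, 2]) +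
        (α A g ![1, 2, 0] * α A g ![1, 3, 1] + α A g ![1, 2, 0] * α A g ![1, 3, 4] + α A g ![1, 3, 1] * α A g ![1, 3, 4]) +
        (α A g ![1, 2, 0] * α A g ![1, 3, 3] + α A g ![1, 2, 0] * α A g ![1, 3, 6] + α A g ![1, 3, 3] * α A g ![1, 3, 6]) +
        (α A g ![1, 2, 2] * α A g ![1, 4, 6] + α A g ![1, 2, 2] * α A g ![1, 6, 4] + α A g ![1, 4, 6] * α A g ![1, 6, 4]) +
        (α A g ![1, 2, 5] * α A g ![1, 4, 1] + α A g ![1, 2, 5] * α A g ![1, 6, 3] + α A g ![1, 4, 1] * α A g ![1, 6, 3]) +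
        (α A g ![1, 4, 1] * α A g ![1, 4, 4] + α A g ![1, 4, 1] * α A g ![1, 5, 0] + α A g ![1, 4, 4] * α A g ![1, 5, 0]) +
        (α A g ![1, 4, 3] * α A g ![1, 4, 6] + α A g ![1, 4, 3] * α A g ![1, 5, 0] + α A g ![1, 4, 6] * α A g ![1, 5, 0]))) := by
      unfold β; ring
    have e3 : 0 ≤ β (α A g ![0, 1, 1]) (α A g ![0, 1, 6]) (α A g ![1, 0, 0]) +
      β (α A g ![0, 1, 1]) (α A g ![1, 2, 5]) (α A g ![1, 5, 2]) +
      β (α A g ![0, 1, 6]) (α A g ![1, 2, 2]) (α A g ![1, 5, 5]) +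
      β (α A g ![1, 0, 2]) (α A g ![1, 1, 3]) (α A g ![1, 4, 3]) +
      β (α A g ![1, 0, 2]) (α A g ![1, 3, 3]) (α A g ![1, 6, 3]) +
      β (α A g ![1, 0, 5]) (α A g ![1, 1, 4]) (α A g ![1, 4, 4]) +
      β (α A g ![1, 0, 5]) (α A g ![1, 3, 4]) (α A g ![1, 6, 4]) +
      β (α A g ![1, 1, 3]) (α A g ![1, 3, 1]) (α A g ![1, 5, 5]) +
      β (α A g ![1, 1, 4]) (α A g ![1, 3, 6]) (α A g ![1, 5, 2]) +
      β (α A g ![1, 2, 0]) (α A g ![1, 3, 1]) (α A g ![1, 3, 4]) +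
      β (α A g ![1, 2, 0]) (α A g ![1, 3, 3]) (α A g ![1, 3, 6]) +
      β (α A g ![1, 2, 2]) (α A g ![1, 4, 6]) (α A g ![1, 6, 4]) +
      β (α A g ![1, 2, 5]) (α A g ![1, 4, 1]) (α A g ![1, 6, 3]) +
      β (α A g ![1, 4, 1]) (α A g ![1, 4, 4]) (α A g ![1, 5, 0]) +
      β (α A g ![1, 4, 3]) (α A g ![1, 4, 6]) (α A g ![1, 5, 0]) := by
      linarith [t0.1 g hg, t1.1 g hg, t2.1 g hg, t3.1 g hg, t4.1 g hg, t5.1 g hg, t6.1 g hg, t7.1 g hg, t8.1 g hg, t9.1 g hg, t10.1 g hg, t11.1 g hg, t12.1 g hg, t13.1 g hg, t14.1 g hg]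
    rw [e2] at e3 ⊢
    omega
  have s := sum_le_sum p
  simp only [sum_add_distrib, t0.2, t1.2, t2.2, t3.2, t4.2, t5.2, t6.2, t7.2, t8.2, t9.2, t10.2, t11.2, t12.2, t13.2, t14.2] at s
  simp only [ind, sum_boole] at s
  omega

lemma bound (hq : 10 ^ 7 ≤ q) : (#A : ℝ) < (q ^ 2 - 1) * (99 / 200 * q ^ 4) := by
  by_contra hn
  push Not at hn
  obtain ⟨B, eB⟩ : ∃ B, B = {v ∈ A | h σ v v = 1} := ⟨_, rfl⟩
  have hB : ∀ x, x ∈ B ↔ x ∈ A ∧ h σ x x = 1 := fun x => by rw [eB, mem_filter]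
  have r := relation o A hA hT
  rw [o.pairs fun x y => x ∈ A ∧ y ∈ A, o.pairs fun x _ => x ∈ A, mul_left_comm 90,
    mul_left_comm 44, Nat.mul_le_mul_left_iff (Nat.succ_pos q)] at r
  have r1 : ∑ y ∈ B, #{x ∈ B | h σ y x = 0} ≤ #{x : V F × V F | h σ x.1 x.1 = 1 ∧
      h σ x.2 x.2 = 1 ∧ h σ x.2 x.1 = 0 ∧ x.1 ∈ A ∧ x.2 ∈ A} := by
    rw [← card_sigma]
    refine card_le_card_of_injOn (fun z => (z.2, z.1)) ?_ ?_
    · intro z hz
      simp only [coe_sigma, Set.mem_sigma_iff, mem_coe, mem_filter, hB, mem_univ] at hz ⊢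
      tauto
    · rintro ⟨a, b⟩ - ⟨c, d⟩ - e
      simp only [Prod.mk.injEq] at e
      rw [e.1, e.2]
  have r2 : #{x : V F × V F | h σ x.1 x.1 = 1 ∧ h σ x.2 x.2 = 1 ∧ h σ x.2 x.1 = 0 ∧ x.1 ∈ A} ≤
      (q + 1) * (q ^ 2 + 1) * #B := by
    refine card_le_mul_card_image_of_maps_to (f := Prod.fst) (fun x hx => ?_) _ fun b hb => ?_
    · simp only [mem_filter, hB] at hx ⊢
      tauto
    · refine le_trans (card_le_card_of_injOn Prod.snd ?_ ?_) (o.deg b ((hB b).mp hb).2)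
      · intro z hz
        simp only [mem_coe, mem_filter, mem_univ, true_and] at hz ⊢
        exact ⟨hz.1.2.1, hz.2 ▸ hz.1.2.2.1⟩
      · intro z hz z' hz' e
        exact Prod.ext ((mem_filter.mp hz).2.trans (mem_filter.mp hz').2.symm) e
  have r3 : 90 * ∑ y ∈ B, (#{x ∈ B | h σ y x = 0} : ℝ) ≤ 44 * ((q + 1) * (q ^ 2 + 1) * #B) := by
    exact_mod_cast ((Nat.mul_le_mul_left 90 r1).trans r).trans (Nat.mul_le_mul_left 44 r2)
  have m := o.mix B (fun x hx => ((hB x).mp hx).2) (q ^ 3 / 1000)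
  have c := o.cone A hA
  rw [← eB] at c
  have c1 : #A ≤ #{v ∈ A | h σ v v ≠ 0} + (q ^ 2) ^ 2 * (q + 1) := by
    rw [← card_filter_add_card_filter_not (s := A) fun v => h σ v v ≠ 0]
    refine Nat.add_le_add_left ((card_le_card fun v hv => ?_).trans o.iso) _
    simpa using (mem_filter.mp hv).2
  have q1 : 1 ≤ q ^ 2 := Nat.one_le_pow _ _ (by omega)
  have c2 : (#B : ℝ) * (q ^ 2 - 1) = (q + 1) * #{v ∈ A | h σ v v ≠ 0} := by exact_mod_cast c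
  have c3 : (#A : ℝ) ≤ #{v ∈ A | h σ v v ≠ 0} + (q ^ 2) ^ 2 * (q + 1) := by exact_mod_cast c1
  have hq' : (10 ^ 7 : ℝ) ≤ q := by exact_mod_cast hq
  generalize ∑ y ∈ B, (#{x ∈ B | h σ y x = 0} : ℝ) = E at r3 m
  generalize (#{v ∈ A | h σ v v ≠ 0} : ℝ) = N at c2 c3
  generalize (#B : ℝ) = b at *
  generalize (#A : ℝ) = a at *
  generalize (q : ℝ) = x at *
  have x0 : 0 < x := by linarith
  have pw : ∀ n : ℕ, 10 ^ 7 * x ^ n ≤ x ^ (n + 1) := fun n => by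
    rw [pow_succ' x]; exact mul_le_mul_of_nonneg_right hq' (by positivity)
  have p0 := pw 0
  have p1 := pw 1
  have p2 := pw 2
  have p3 := pw 3
  have p4 := pw 4
  have p5 := pw 5
  norm_num at p0 p1 p2 p3 p4 p5
  have n1 : 494 / 1000 * x ^ 6 ≤ N := by nlinarith
  have n2 : 494 / 1000 * x ^ 5 ≤ b := by
    have : 494 / 1000 * x ^ 5 * (x ^ 2 - 1) ≤ b * (x ^ 2 - 1) := by
      rw [c2]
      have := mul_le_mul_of_nonneg_left n1 (show 0 ≤ x + 1 by linarith)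
      have : 0 ≤ x ^ 6 := by positivity
      have : 0 ≤ x ^ 5 := by positivity
      nlinarith
    exact le_of_mul_le_mul_right this (by nlinarith)
  have b0 : 0 < b := lt_of_lt_of_le (by positivity) n2
  have n3 : 494 / 1000 * x ^ 3 ≤ b / x ^ 2 := by rw [le_div_iff₀ (by positivity)]; linarith
  have n4 := mul_le_mul_of_nonneg_left n3 (show 0 ≤ b * (x ^ 3 / 1000) by positivity)
  have n5 := mul_le_mul_of_nonneg_left r3 (show 0 ≤ x ^ 3 / 1000 by positivity)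
  have n6 : b * (90 * (x ^ 3 / 1000 * (493 / 1000 * x ^ 3) - (x + 1) * x ^ 4)) ≤
      b * (x ^ 3 / 1000 * (44 * ((x + 1) * (x ^ 2 + 1)))) := by linarith
  have n7 := le_of_mul_le_mul_left n6 b0
  have : 0 < x ^ 3 := by positivity
  nlinarith

end

end Pool.Agent.H10.Unit3
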