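import Pool.Agent.H10.WidthDefs
import Pool.Agent.H10.EpsNet
import Pool.Agent.H10.Radem

set_option autoImplicit false

namespace Pool.Agent.H10.Width
open Finset Pool.Agent.H10.Radem

noncomputable def emb {n : ℕ} (s : Fin n → Bool) : E n :=
  WithLp.toLp 2 fun k => if s k then 1 else 0

lemma emb_inj {n : ℕ} : Function.Injective (emb (n := n)) := by
  intro s t h
  funext k
  have := congrArg (fun x : E n => x k) h
  simp only [emb] at this
  cases h1 : s k <;> cases h2 : t k <;> simp_all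

lemma emb_mem {n : ℕ} (s : Fin n → Bool) : emb s ∈ Ω n := fun k => by
  simp only [emb]; split_ifs <;> simp

lemma mem_emb {n : ℕ} {x : E n} (h : x ∈ Ω n) : ∃ s, emb s = x := by
  classical
  refine ⟨fun k => decide (x k = 1), ?_⟩
  ext k
  rcases h k with e | e <;> simp [emb, e]

lemma inner_emb {n : ℕ} (u : E n) (s : Fin n → Bool) :
    inner ℝ u (emb s) = (Sm u s + ∑ k, u k) / 2 := by
  simp only [PiLp.inner_apply, RCLike.inner_apply, conj_trivial, Sm, ← sum_add_distrib, sum_div]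
  refine sum_congr rfl fun k _ => ?_
  simp only [emb, e]
  split_ifs <;> ring

lemma bdd {n : ℕ} (A : Set (E n)) (hA : A.Finite) (u : E n) :
    IsCompact ((fun x => inner ℝ u x) '' convexHull ℝ A) :=
  (hA.isCompact_convexHull ℝ).image (by fun_prop)

def Net {n : ℕ} (A : Finset (Fin n → Bool)) : Prop :=
  ∀ u : Fin n → ℝ, ∑ k, u k ^ 2 = 1 → ∃ s ∈ A, 1 ≤ Sm u s

lemma width_net {n : ℕ} (hn : 1 ≤ n) (A : Finset (Fin n → Bool)) (h : Net A) :
    1 ≤ width (convexHull ℝ (emb '' (A : Set (Fin n → Bool)))) := by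
  have : Nonempty (Fin n) := ⟨⟨0, hn⟩⟩
  have : Nonempty (Metric.sphere (0 : E n) 1) :=
    (NormedSpace.sphere_nonempty.mpr zero_le_one).to_subtype
  refine le_ciInf fun u => ?_
  have hu : ∑ k, (u : E n) k ^ 2 = 1 := by
    have := u.2
    rw [mem_sphere_zero_iff_norm, EuclideanSpace.norm_eq, Real.sqrt_eq_one] at this
    simpa using this
  obtain ⟨s1, a1, b1⟩ := h _ hu
  obtain ⟨s2, a2, b2⟩ := h (fun k => - (u : E n) k) (by simpa using hu)
  have c := bdd (emb '' (A : Set (Fin n → Bool))) (A.finite_toSet.image _) u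
  have e1 := le_csSup c.bddAbove ⟨emb s1, subset_convexHull ℝ _ ⟨s1, a1, rfl⟩, rfl⟩
  have e2 := csInf_le c.bddBelow ⟨emb s2, subset_convexHull ℝ _ ⟨s2, a2, rfl⟩, rfl⟩
  simp only [inner_emb] at e1 e2
  have : Sm (fun k => - (u : E n) k) s2 = - Sm u s2 := by simp [Sm]
  linarith

lemma card_of_width {n : ℕ} (A : Finset (Fin n → Bool)) (hA : A.Nonempty) (hn : 1 ≤ n)
    (h : 0 < width (convexHull ℝ (emb '' (A : Set (Fin n → Bool))))) : n + 1 ≤ #A := by
  classical
  by_contra hc
  obtain ⟨k, hk⟩ : ∃ k, #A = k + 1 := ⟨#A - 1, by have := hA.card_pos; omega⟩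
  have h1 := finrank_vectorSpan_image_finset_le ℝ emb A hk
  rw [coe_image] at h1
  set V := vectorSpan ℝ (emb '' (A : Set (Fin n → Bool))) with hV
  have h2 := V.finrank_add_finrank_orthogonal
  rw [finrank_euclideanSpace_fin] at h2
  have h3 : Vᗮ ≠ ⊥ := fun e => by rw [e, finrank_bot] at h2; omega
  obtain ⟨v, hv, v0⟩ := (Submodule.ne_bot_iff _).mp h3
  have n0 : 0 < ‖v‖ := norm_pos_iff.mpr v0
  obtain ⟨s0, hs0⟩ := hA
  have nn : ∀ u : Metric.sphere (0 : E n) 1, 0 ≤
      sSup ((fun x => inner ℝ (u : E n) x) '' convexHull ℝ (emb '' (A : Set (Fin n → Bool)))) -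
      sInf ((fun x => inner ℝ (u : E n) x) '' convexHull ℝ (emb '' (A : Set (Fin n → Bool)))) := by
    intro u
    have c := bdd (emb '' (A : Set (Fin n → Bool))) (A.finite_toSet.image _) u
    have e1 := le_csSup c.bddAbove ⟨emb s0, subset_convexHull ℝ _ ⟨s0, hs0, rfl⟩, rfl⟩
    have e2 := csInf_le c.bddBelow ⟨emb s0, subset_convexHull ℝ _ ⟨s0, hs0, rfl⟩, rfl⟩
    linarith
  have h4 := ciInf_le (f := fun u : Metric.sphere (0 : E n) 1 =>
      sSup ((fun x => inner ℝ (u : E n) x) '' convexHull ℝ (emb '' (A : Set (Fin n → Bool)))) -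
      sInf ((fun x => inner ℝ (u : E n) x) '' convexHull ℝ (emb '' (A : Set (Fin n → Bool)))))
    ⟨0, by rintro _ ⟨u, rfl⟩; exact nn u⟩
    (⟨‖v‖⁻¹ • v, by simp [norm_smul, n0.ne']⟩ : Metric.sphere (0 : E n) 1)
  have h5 : (fun x => inner ℝ (‖v‖⁻¹ • v) x) '' convexHull ℝ (emb '' (A : Set (Fin n → Bool))) =
      {inner ℝ (‖v‖⁻¹ • v) (emb s0)} := by
    refine Set.eq_singleton_iff_unique_mem.mpr
      ⟨⟨emb s0, subset_convexHull ℝ _ ⟨s0, hs0, rfl⟩, rfl⟩, ?_⟩
    rintro _ ⟨x, hx, rfl⟩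
    have lin : IsLinearMap ℝ fun x : E n => inner ℝ (‖v‖⁻¹ • v) x :=
      ⟨fun a b => inner_add_right _ _ _, fun r a => inner_smul_right _ _ _⟩
    refine convexHull_min (t := {x | inner ℝ (‖v‖⁻¹ • v) x = inner ℝ (‖v‖⁻¹ • v) (emb s0)}) ?_
      (convex_hyperplane lin _) hx
    intro y hy
    have m : y - emb s0 ∈ V := vsub_mem_vectorSpan ℝ hy ⟨s0, hs0, rfl⟩
    have := (Submodule.mem_orthogonal' V v).mp hv _ m
    show inner ℝ (‖v‖⁻¹ • v) y = _
    rw [inner_sub_right] at this
    rw [inner_smul_left, inner_smul_left, sub_eq_zero.mp this]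
  simp only [h5, csSup_singleton, csInf_singleton, sub_self] at h4
  exact absurd h (not_lt.mpr h4)

theorem upper (n : ℕ) (hn : 1 ≤ n) (t : ℝ) (ht : 0 < t) (P : Finset (Set (E n)))
    (hP : IsPacking n t P) : #P * (n + 1) ≤ 2 ^ n := by
  classical
  let F : Set (E n) → Finset (Fin n → Bool) := fun A => univ.filter fun s => emb s ∈ A
  have hF : ∀ A ∈ P, emb '' (F A : Set (Fin n → Bool)) = A := by
    intro A hA
    ext x
    simp only [F, coe_filter, mem_univ, true_and, Set.mem_image, Set.mem_ofPred_eq]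
    constructor
    · rintro ⟨s, h, rfl⟩; exact h
    · intro h
      obtain ⟨s, rfl⟩ := mem_emb ((hP.1 A hA).2.1 h)
      exact ⟨s, h, rfl⟩
  have h1 : ∀ A ∈ P, n + 1 ≤ #(F A) := fun A hA => card_of_width _ (by
      have := (hP.1 A hA).1
      rw [← hF A hA] at this
      exact coe_nonempty.mp this.of_image) hn (by
      rw [hF A hA]; exact ht.trans_le (hP.1 A hA).2.2)
  have h2 : #(P.biUnion F) = ∑ A ∈ P, #(F A) := card_biUnion fun A hA B hB AB => by
    have := hP.2 A hA B hB AB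
    rw [Function.onFun, disjoint_filter]
    exact fun s _ a b => Set.disjoint_left.mp this a b
  have h3 := card_le_univ (P.biUnion F)
  have h4 := card_nsmul_le_sum P _ _ h1
  simp only [Fintype.card_pi, Fintype.card_bool, prod_const, card_univ, Fintype.card_fin] at h3
  rw [smul_eq_mul] at h4
  omega

theorem greedy : ∃ K : ℕ, 0 < K ∧ ∀ n, 1 ≤ n → ∀ k : ℕ, k * (K * (n + 1)) * 12000 ≤ 2 ^ n →
    ∃ P : Finset (Finset (Fin n → Bool)), #P = k + 1 ∧ (∀ A ∈ P, A.Nonempty ∧ Net A) ∧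
      ∀ A ∈ P, ∀ B ∈ P, A ≠ B → Disjoint A B := by
  classical
  obtain ⟨K, K0, hK⟩ := EpsNet.half_net (1 / 12000) (by norm_num) (by norm_num)
  refine ⟨K, K0, fun n hn => ?_⟩
  have step : ∀ U : Finset (Fin n → Bool), #U * 12000 ≤ 2 ^ n →
      ∃ A : Finset (Fin n → Bool), A.Nonempty ∧ Net A ∧ Disjoint A U ∧ #A ≤ K * (n + 1) := by
    intro U hU
    have cu : Fintype.card (Fin n → Bool) = 2 ^ n := by simp
    have p : 0 < 2 ^ n := by positivity
    have ne : Uᶜ.Nonempty := by
      rw [← card_pos, card_compl, cu]; omega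
    have : Nonempty (Uᶜ : Finset (Fin n → Bool)) := ne.to_subtype
    obtain ⟨x, hx⟩ := hK n (Uᶜ : Finset (Fin n → Bool)) {u : Fin n → ℝ // ∑ k, u k ^ 2 = 1}
      (fun b k => e (b.1 k)) (fun u => u.1) (fun _ => 1) (fun u b => decide (1 ≤ Sm u.1 b.1))
      (fun u b => by simp [Sm]) (fun u => by
        have a := anti u.1 u.2
        have b : (univ.filter fun s => 1 ≤ Sm u.1 s) ⊆ U ∪ (univ.filter
            fun b : (Uᶜ : Finset (Fin n → Bool)) => decide (1 ≤ Sm u.1 b.1) = true).image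
              Subtype.val := by
          intro s hs
          by_cases h : s ∈ U
          · exact mem_union_left _ h
          · refine mem_union_right _ (mem_image.mpr ⟨⟨s, mem_compl.mpr h⟩, ?_, rfl⟩)
            simpa using hs
        have c := ((card_le_card b).trans (card_union_le _ _)).trans
          (Nat.add_le_add_left card_image_le _)
        have d : Fintype.card (Uᶜ : Finset (Fin n → Bool)) ≤ 2 ^ n := by
          rw [Fintype.card_coe, ← cu]; exact card_le_univ _
        have c' := (Nat.cast_le (α := ℝ)).mpr c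
        have d' := (Nat.cast_le (α := ℝ)).mpr d
        have hU' := (Nat.cast_le (α := ℝ)).mpr hU
        push_cast at c' d' hU'
        linarith)
    have net : Net (univ.image fun i => (x i).1) := fun u hu => by
      obtain ⟨i, hi⟩ := hx ⟨u, hu⟩
      exact ⟨_, mem_image_of_mem _ (mem_univ i), by simpa using hi⟩
    refine ⟨_, ?_, net, ?_, card_image_le.trans (by simp)⟩
    · obtain ⟨s, hs, -⟩ := net (Pi.single ⟨0, hn⟩ 1) (by
        rw [sum_eq_single ⟨0, hn⟩ (fun b _ hb => by simp [hb]) (by simp)]; simp)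
      exact ⟨s, hs⟩
    · rw [disjoint_left]
      intro s hs
      obtain ⟨i, -, rfl⟩ := mem_image.mp hs
      exact mem_compl.mp (x i).2
  have main : ∀ k : ℕ, (k - 1) * (K * (n + 1)) * 12000 ≤ 2 ^ n →
      ∃ P : Finset (Finset (Fin n → Bool)), #P = k ∧
        (∀ A ∈ P, A.Nonempty ∧ Net A ∧ #A ≤ K * (n + 1)) ∧
        ∀ A ∈ P, ∀ B ∈ P, A ≠ B → Disjoint A B := by
    intro k
    induction k with
    | zero => intro _; exact ⟨∅, rfl, by simp, by simp⟩
    | succ k ih =>
      intro hk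
      rw [Nat.add_sub_cancel] at hk
      obtain ⟨P, h1, h2, h3⟩ := ih (le_trans (by gcongr; omega) hk)
      have cU : #(P.biUnion id) ≤ k * (K * (n + 1)) := by
        rw [← h1]
        exact card_biUnion_le_card_mul _ _ _ fun A hA => (h2 A hA).2.2
      obtain ⟨A, a1, a2, a3, a4⟩ := step (P.biUnion id) (le_trans (by gcongr) hk)
      have dj : ∀ B ∈ P, Disjoint A B := fun B hB =>
        a3.mono_right (subset_biUnion_of_mem id hB)
      have nm : A ∉ P := fun h => by
        have := dj A h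
        rw [disjoint_self] at this
        exact a1.ne_empty this
      refine ⟨insert A P, by rw [card_insert_of_notMem nm, h1], fun B hB => ?_,
        fun B hB C hC BC => ?_⟩
      · rcases mem_insert.mp hB with rfl | hB
        · exact ⟨a1, a2, a4⟩
        · exact h2 B hB
      · rcases mem_insert.mp hB with rfl | hB' <;> rcases mem_insert.mp hC with rfl | hC'
        · exact absurd rfl BC
        · exact dj C hC'
        · exact (dj B hB').symm
        · exact h3 B hB' C hC' BC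
  intro k hk
  obtain ⟨P, h1, h2, h3⟩ := main (k + 1) (by rwa [Nat.add_sub_cancel])
  exact ⟨P, h1, fun A hA => ⟨(h2 A hA).1, (h2 A hA).2.1⟩, h3⟩

theorem theta : ∃ c : ℝ, 0 < c ∧ ∀ t : ℝ, 0 < t → t ≤ 1 → ∀ n : ℕ, 1 ≤ n →
    c * (2 ^ n / n) ≤ N n t ∧ (N n t : ℝ) ≤ 2 ^ n / n := by
  classical
  obtain ⟨K, K0, hK⟩ := greedy
  refine ⟨1 / (K * 24000), by positivity, fun t t0 t1 n hn => ?_⟩
  have bd : ∀ k ∈ {k | ∃ P, IsPacking n t P ∧ P.card = k}, k * (n + 1) ≤ 2 ^ n := by
    rintro _ ⟨P, hP, rfl⟩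
    exact upper n hn t t0 P hP
  have ba : BddAbove {k | ∃ P, IsPacking n t P ∧ P.card = k} :=
    ⟨2 ^ n, fun k hk => le_trans (Nat.le_mul_of_pos_right _ (by omega)) (bd k hk)⟩
  have n0 : (0 : ℝ) < n := by exact_mod_cast hn
  constructor
  · set D := K * (n + 1) * 12000 with hD
    have D0 : 0 < D := by positivity
    obtain ⟨P, h1, h2, h3⟩ := hK n hn (2 ^ n / D) (by
      rw [mul_assoc]; exact Nat.div_mul_le_self _ _)
    have inj : Function.Injective fun A : Finset (Fin n → Bool) =>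
        emb '' (A : Set (Fin n → Bool)) := fun A B h =>
      coe_injective ((Set.image_injective.mpr emb_inj) h)
    have hm : 2 ^ n / D + 1 ≤ N n t := by
      refine le_csSup ba ⟨P.image fun A : Finset (Fin n → Bool) =>
        emb '' (A : Set (Fin n → Bool)), ⟨fun A hA => ?_, fun A hA B hB AB => ?_⟩, ?_⟩
      · obtain ⟨A, hA', rfl⟩ := mem_image.mp hA
        refine ⟨(coe_nonempty.mpr (h2 A hA').1).image _, ?_,
          t1.trans (width_net hn A (h2 A hA').2)⟩
        rintro _ ⟨s, -, rfl⟩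
        exact emb_mem s
      · obtain ⟨A, hA', rfl⟩ := mem_image.mp hA
        obtain ⟨B, hB', rfl⟩ := mem_image.mp hB
        rw [Set.disjoint_image_iff emb_inj, disjoint_coe]
        exact h3 A hA' B hB' fun h => AB (by rw [h])
      · rw [card_image_of_injective _ inj, h1]
    have h4 : 2 ^ n ≤ N n t * (K * 24000 * n) := by
      have a := Nat.lt_div_mul_add (a := 2 ^ n) D0
      have b : D ≤ K * 24000 * n := by rw [hD]; nlinarith
      calc 2 ^ n ≤ (2 ^ n / D + 1) * D := by nlinarith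
        _ ≤ _ := Nat.mul_le_mul hm b
    have h5 := (Nat.cast_le (α := ℝ)).mpr h4
    push_cast at h5
    rw [div_mul_div_comm, one_mul, div_le_iff₀ (by positivity)]
    exact h5
  · have := bd _ (Nat.sSup_mem ⟨0, ∅, ⟨by simp, by simp⟩, rfl⟩ ba)
    have h5 := (Nat.cast_le (α := ℝ)).mpr this
    push_cast at h5
    rw [le_div_iff₀ n0]
    have : (0 : ℝ) ≤ N n t := by positivity
    unfold N at this ⊢
    nlinarith

end Pool.Agent.H10.Width
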