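import Mathlib

set_option autoImplicit false

namespace Pool.Agent.H10.Width

abbrev E (n : ℕ) := EuclideanSpace ℝ (Fin n)

/-- vertices of the unit cube -/
def Ω (n : ℕ) : Set (E n) := {x | ∀ i, x i = 0 ∨ x i = 1}

/-- Euclidean width: least extent over all unit directions -/
noncomputable def width {n : ℕ} (C : Set (E n)) : ℝ :=
  ⨅ u : Metric.sphere (0 : E n) 1,
    (sSup ((fun x => inner ℝ (u : E n) x) '' C) - sInf ((fun x => inner ℝ (u : E n) x) '' C))

/-- pairwise disjoint nonempty subsets of the cube whose convex hulls have width at least `t` -/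
def IsPacking (n : ℕ) (t : ℝ) (P : Finset (Set (E n))) : Prop :=
  (∀ A ∈ P, A.Nonempty ∧ A ⊆ Ω n ∧ t ≤ width (convexHull ℝ A)) ∧
    ∀ A ∈ P, ∀ B ∈ P, A ≠ B → Disjoint A B

/-- the largest size of such a packing -/
noncomputable def N (n : ℕ) (t : ℝ) : ℕ := sSup {k | ∃ P, IsPacking n t P ∧ P.card = k}

end Pool.Agent.H10.Width
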