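import Mathlib

namespace Pool.Agent.H10.Wk

/-- `i_k(G)`: the number of independent sets of `G` with exactly `k` vertices. -/
noncomputable def ic {V : Type} (G : SimpleGraph V) (k : ℕ) : ℕ :=
  Set.ncard {s : Finset V | G.IsNIndepSet k s}

/-- `G` realizes the weak order on `[m] = {1, …, m}` given by the rank function `w`
(`j` and `k` are in the same block iff `w j = w k`, and the block of `j` precedes that of `k`
iff `w j < w k`): `α(G) = m` and `i_j(G) ≤ i_k(G) ↔ w j ≤ w k` on `[m]`. -/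
def Realizes {V : Type} (G : SimpleGraph V) (m : ℕ) (w : ℕ → ℕ) : Prop :=
  G.indepNum = m ∧ ∀ j ∈ Finset.Icc 1 m, ∀ k ∈ Finset.Icc 1 m, (ic G j ≤ ic G k ↔ w j ≤ w k)

end Pool.Agent.H10.Wk
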