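import Mathlib
import Pool.Agent.H10.WkDefs

namespace Pool.Agent.H10.Wk
open Finset

open Classical in
noncomputable def II {V : Type} [Fintype V] (G : SimpleGraph V) (k : ℕ) : Finset (Finset V) :=
  univ.filter fun s => G.IsNIndepSet k s

lemma mem_II {V : Type} [Fintype V] (G : SimpleGraph V) (k : ℕ) (s : Finset V) :
    s ∈ II G k ↔ (∀ x ∈ s, ∀ y ∈ s, ¬ G.Adj x y) ∧ s.card = k := by
  unfold II
  simp only [mem_filter, mem_univ, true_and]
  constructor
  · rintro ⟨h1, h2⟩
    refine ⟨fun x hx y hy hxy => ?_, h2⟩
    exact h1 (mem_coe.2 hx) (mem_coe.2 hy) hxy.ne hxy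
  · rintro ⟨h1, h2⟩
    exact ⟨fun x hx y hy _ => h1 x hx y hy, h2⟩

lemma ic_eq {V : Type} [Fintype V] (G : SimpleGraph V) (k : ℕ) : ic G k = (II G k).card := by
  unfold ic
  rw [← Set.ncard_coe_finset]
  congr 1
  ext s
  simp [II]

def sumG {V W : Type} (G : SimpleGraph V) (H : SimpleGraph W) (c : Prop) : SimpleGraph (V ⊕ W) where
  Adj x y := match x, y with
    | .inl a, .inl b => G.Adj a b
    | .inr a, .inr b => H.Adj a b
    | .inl _, .inr _ => c
    | .inr _, .inl _ => c
  symm := ⟨by
    rintro (a | a) (b | b) h
    · exact G.adj_symm h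
    · exact h
    · exact h
    · exact H.adj_symm h⟩
  loopless := ⟨by
    rintro (a | a) h
    · exact G.irrefl h
    · exact H.irrefl h⟩

def RealS (f : ℕ → ℕ) : Prop :=
  ∃ (V : Type) (_ : Fintype V) (G : SimpleGraph V), ∀ j, 1 ≤ j → ic G j = f j

lemma ic_zero {V : Type} [Fintype V] (G : SimpleGraph V) : ic G 0 = 1 := by
  rw [ic_eq, card_eq_one]
  refine ⟨∅, ?_⟩
  ext s
  rw [mem_II]
  simp only [card_eq_zero, mem_singleton]
  constructor
  · exact fun h => h.2
  · rintro rfl; simp

lemma ic_one {V : Type} [Fintype V] (G : SimpleGraph V) : ic G 1 = Fintype.card V := by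
  classical
  rw [ic_eq]
  have : II G 1 = univ.image (fun x : V => ({x} : Finset V)) := by
    ext s
    rw [mem_II]
    simp only [card_eq_one, mem_image, mem_univ, true_and]
    constructor
    · rintro ⟨_, a, rfl⟩; exact ⟨a, rfl⟩
    · rintro ⟨a, rfl⟩
      refine ⟨?_, a, rfl⟩
      simp
  rw [this, card_image_of_injective _ (fun a b h => by simpa using h)]
  simp

lemma ic_join {V W : Type} [Fintype V] [Fintype W] (G : SimpleGraph V) (H : SimpleGraph W)
    (j : ℕ) (hj : 1 ≤ j) : ic (sumG G H True) j = ic G j + ic H j := by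
  classical
  simp only [ic_eq]
  have key : II (sumG G H True) j =
      (II G j).image (fun s => s.map Function.Embedding.inl) ∪
      (II H j).image (fun s => s.map Function.Embedding.inr) := by
    ext s
    simp only [mem_union, mem_image, mem_II]
    constructor
    · rintro ⟨h1, h2⟩
      by_cases hl : ∃ a, Sum.inl a ∈ s
      · obtain ⟨a, ha⟩ := hl
        have hs : s.toLeft.map Function.Embedding.inl = s := by
          ext x
          rcases x with x | x
          · simp
          · simp only [mem_map, mem_toLeft, Function.Embedding.inl_apply, reduceCtorEq, and_false,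
              exists_false, false_iff]
            intro hx
            exact h1 _ ha _ hx trivial
        refine Or.inl ⟨s.toLeft, ⟨fun x hx y hy hxy => ?_, ?_⟩, hs⟩
        · exact h1 _ (mem_toLeft.1 hx) _ (mem_toLeft.1 hy) hxy
        · have := congrArg Finset.card hs
          rw [card_map] at this; omega
      · have hs : s.toRight.map Function.Embedding.inr = s := by
          ext x
          rcases x with x | x
          · simp only [mem_map, mem_toRight, Function.Embedding.inr_apply, reduceCtorEq, and_false,
              exists_false, false_iff]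
            intro hx
            exact hl ⟨x, hx⟩
          · simp
        refine Or.inr ⟨s.toRight, ⟨fun x hx y hy hxy => ?_, ?_⟩, hs⟩
        · exact h1 _ (mem_toRight.1 hx) _ (mem_toRight.1 hy) hxy
        · have := congrArg Finset.card hs
          rw [card_map] at this; omega
    · rintro (⟨t, ⟨h1, h2⟩, rfl⟩ | ⟨t, ⟨h1, h2⟩, rfl⟩)
      · refine ⟨?_, by simpa using h2⟩
        intro x hx y hy
        obtain ⟨a, ha, rfl⟩ := mem_map.1 hx
        obtain ⟨b, hb, rfl⟩ := mem_map.1 hy
        exact h1 a ha b hb
      · refine ⟨?_, by simpa using h2⟩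
        intro x hx y hy
        obtain ⟨a, ha, rfl⟩ := mem_map.1 hx
        obtain ⟨b, hb, rfl⟩ := mem_map.1 hy
        exact h1 a ha b hb
  rw [key, card_union_of_disjoint, card_image_of_injective _ (map_injective _),
    card_image_of_injective _ (map_injective _)]
  rw [disjoint_left]
  intro s h1 h2
  obtain ⟨t, ht, rfl⟩ := mem_image.1 h1
  obtain ⟨u, hu, hh⟩ := mem_image.1 h2
  have : t.Nonempty := by rw [← card_pos, ((mem_II _ _ _).1 ht).2]; exact hj
  obtain ⟨a, ha⟩ := this
  have : Sum.inl a ∈ u.map (Function.Embedding.inr (α := V)) := by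
    rw [hh]; simpa using ha
  simp at this

lemma ic_ext {V : Type} [Fintype V] (G : SimpleGraph V) (n j : ℕ) :
    ic (sumG G (⊤ : SimpleGraph (Fin n)) False) (j + 1) = ic G (j + 1) + n * ic G j := by
  classical
  simp only [ic_eq]
  have key : II (sumG G (⊤ : SimpleGraph (Fin n)) False) (j + 1) =
      (II G (j + 1)).image (fun s => s.map Function.Embedding.inl) ∪
      ((univ : Finset (Fin n)) ×ˢ II G j).image
        (fun p => insert (Sum.inr p.1) (p.2.map Function.Embedding.inl)) := by
    ext s
    simp only [mem_union, mem_image, mem_II, mem_product, mem_univ, true_and]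
    constructor
    · rintro ⟨h1, h2⟩
      have hind : ∀ x ∈ s.toLeft, ∀ y ∈ s.toLeft, ¬ G.Adj x y := fun x hx y hy hxy =>
        h1 _ (mem_toLeft.1 hx) _ (mem_toLeft.1 hy) hxy
      by_cases hl : ∃ a, Sum.inr a ∈ s
      · obtain ⟨a, ha⟩ := hl
        have hs : insert (Sum.inr a) (s.toLeft.map Function.Embedding.inl) = s := by
          ext x
          rcases x with x | x
          · simp
          · simp only [mem_insert, Sum.inr.injEq, mem_map, mem_toLeft, Function.Embedding.inl_apply,
              reduceCtorEq, and_false, exists_false, or_false]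
            constructor
            · rintro rfl; exact ha
            · intro hx
              by_contra hne
              exact h1 _ hx _ ha hne
        refine Or.inr ⟨(a, s.toLeft), ⟨hind, ?_⟩, hs⟩
        rw [← hs, card_insert_of_notMem (by simp), card_map] at h2
        simpa using h2
      · have hs : s.toLeft.map Function.Embedding.inl = s := by
          ext x
          rcases x with x | x
          · simp
          · simp only [mem_map, mem_toLeft, Function.Embedding.inl_apply, reduceCtorEq, and_false,
              exists_false, false_iff]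
            intro hx
            exact hl ⟨x, hx⟩
        refine Or.inl ⟨s.toLeft, ⟨hind, ?_⟩, hs⟩
        have := congrArg Finset.card hs
        rw [card_map] at this; omega
    · rintro (⟨t, ⟨h1, h2⟩, rfl⟩ | ⟨⟨a, t⟩, ⟨h1, h2⟩, rfl⟩)
      · refine ⟨?_, by simpa using h2⟩
        intro x hx y hy
        obtain ⟨a, ha, rfl⟩ := mem_map.1 hx
        obtain ⟨b, hb, rfl⟩ := mem_map.1 hy
        exact h1 a ha b hb
      · refine ⟨?_, ?_⟩
        · intro x hx y hy
          rcases mem_insert.1 hx with rfl | hx <;> rcases mem_insert.1 hy with rfl | hy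
          · exact (sumG G ⊤ False).irrefl
          · obtain ⟨b, hb, rfl⟩ := mem_map.1 hy
            exact fun h => h
          · obtain ⟨b, hb, rfl⟩ := mem_map.1 hx
            exact fun h => h
          · obtain ⟨a, ha, rfl⟩ := mem_map.1 hx
            obtain ⟨b, hb, rfl⟩ := mem_map.1 hy
            exact h1 a ha b hb
        · rw [card_insert_of_notMem (by simp), card_map]
          simpa using h2
  rw [key, card_union_of_disjoint, card_image_of_injective _ (map_injective _),
    card_image_of_injective]
  · simp
  · rintro ⟨a, t⟩ ⟨b, u⟩ h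
    simp only at h
    have h1 : a = b := by
      have : (Sum.inr a : V ⊕ Fin n) ∈ insert (Sum.inr b) (u.map Function.Embedding.inl) := by
        rw [← h]; simp
      simpa using this
    subst h1
    have h2 : t = u := by
      ext x
      have := Finset.ext_iff.1 h (Sum.inl x)
      simpa using this
    rw [h2]
  · rw [disjoint_left]
    intro s h1 h2
    obtain ⟨t, ht, rfl⟩ := mem_image.1 h1
    obtain ⟨u, hu, hh⟩ := mem_image.1 h2
    have : Sum.inr u.1 ∈ t.map (Function.Embedding.inl (β := Fin n)) := by
      rw [← hh]; simp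
    simp at this

lemma real_zero : RealS (fun _ => 0) := by
  refine ⟨Empty, inferInstance, ⊥, fun j hj => ?_⟩
  rw [ic_eq, card_eq_zero, eq_empty_iff_forall_notMem]
  intro s hs
  have h := ((mem_II _ _ _).1 hs).2
  have : s = ∅ := by ext x; exact x.elim
  subst this
  simp at h; omega

lemma real_add {f g : ℕ → ℕ} (hf : RealS f) (hg : RealS g) : RealS (fun j => f j + g j) := by
  obtain ⟨V, _, G, hG⟩ := hf
  obtain ⟨W, _, H, hH⟩ := hg
  exact ⟨V ⊕ W, inferInstance, sumG G H True, fun j hj => by
    rw [ic_join _ _ _ hj, hG j hj, hH j hj]⟩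

lemma real_mul {f : ℕ → ℕ} (hf : RealS f) (q : ℕ) : RealS (fun j => q * f j) := by
  induction q with
  | zero => simpa using real_zero
  | succ q ih =>
    have := real_add ih hf
    simpa [add_mul] using this

/-- disjoint union with a clique -/
def ext (n : ℕ) (f : ℕ → ℕ) : ℕ → ℕ
  | 0 => 1
  | 1 => f 1 + n
  | (j + 2) => f (j + 2) + n * f (j + 1)

lemma real_ext {f : ℕ → ℕ} (hf : RealS f) (n : ℕ) : RealS (ext n f) := by
  obtain ⟨V, _, G, hG⟩ := hf
  refine ⟨V ⊕ Fin n, inferInstance, sumG G ⊤ False, fun j hj => ?_⟩
  match j, hj with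
  | 1, _ => rw [ic_ext, ic_zero, hG 1 le_rfl]; simp [ext]
  | (j + 2), _ => rw [ic_ext, hG _ (by omega), hG _ (by omega)]; simp [ext]

end Pool.Agent.H10.Wk
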