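import Mathlib
import Pool.Agent.H10.WkA

namespace Pool.Agent.H10.Wk
open Finset

lemma real_congr {f g : ℕ → ℕ} (hf : RealS f) (h : ∀ j, 1 ≤ j → f j = g j) : RealS g := by
  obtain ⟨V, _, G, hG⟩ := hf
  exact ⟨V, inferInstance, G, fun j hj => by rw [hG j hj, h j hj]⟩

def blk (m k j : ℕ) : ℕ := k.choose j * m ^ j

lemma real_blk (m k : ℕ) : RealS (blk m k) := by
  induction k with
  | zero =>
    refine real_congr real_zero fun j hj => ?_
    simp [blk, Nat.choose_eq_zero_of_lt (show 0 < j from hj)]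
  | succ k ih =>
    refine real_congr (real_ext ih m) fun j hj => ?_
    match j, hj with
    | 1, _ => simp [ext, blk]; ring
    | (j + 2), _ =>
      simp only [ext, blk]
      rw [Nat.choose_succ_succ k (j + 1)]
      ring

lemma blk_le (m k j : ℕ) : blk m k j ≤ (m + 1) ^ k := by
  by_cases h : j ≤ k
  · rw [add_pow]
    have := single_le_sum (f := fun i => m ^ i * 1 ^ (k - i) * (k.choose i : ℕ))
      (s := range (k + 1)) (fun i _ => Nat.zero_le _) (mem_range.2 (Nat.lt_succ_of_le h))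
    simpa [blk, mul_comm] using this
  · simp [blk, Nat.choose_eq_zero_of_lt (not_le.1 h)]

lemma blk_top (m k : ℕ) : blk m k k = m ^ k := by simp [blk]

lemma blk_gt (m k j : ℕ) (h : k < j) : blk m k j = 0 := by
  simp [blk, Nat.choose_eq_zero_of_lt h]

lemma blk_good (m k j : ℕ) (h : j < k) : m * blk m k j ≤ (j + 1) * blk m k (j + 1) := by
  unfold blk
  have h1 := Nat.choose_succ_right_eq k j
  have h2 : k.choose j ≤ k.choose (j + 1) * (j + 1) := by
    rw [h1]; exact Nat.le_mul_of_pos_right _ (by omega)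
  calc m * (k.choose j * m ^ j) = k.choose j * m ^ (j + 1) := by ring
    _ ≤ (k.choose (j + 1) * (j + 1)) * m ^ (j + 1) := Nat.mul_le_mul_right _ h2
    _ = _ := by ring

lemma ext_le {f : ℕ → ℕ} {E : ℕ} (hE : 1 ≤ E) (h : ∀ j, 1 ≤ j → f j ≤ E) (n j : ℕ) (hj : 1 ≤ j) :
    ext n f j ≤ (n + 1) * E := by
  match j, hj with
  | 1, _ =>
    simp only [ext]
    have := h 1 le_rfl
    nlinarith
  | (j + 2), _ =>
    simp only [ext]
    have h1 := h (j + 2) (by omega)
    have h2 := h (j + 1) (by omega)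
    nlinarith

lemma rem (m : ℕ) (hm : 2 ≤ m) (k : ℕ) : ∀ a r, r < m ^ k → ∃ f, RealS f ∧
    f (k + 1) = a * m ^ k + r ∧ (∀ j, k + 1 < j → f j = 0) ∧
    ∀ j, 1 ≤ j → f j ≤ (a + 5) * (m + 1) ^ k := by
  induction k with
  | zero =>
    intro a r hr
    refine ⟨ext a (fun _ => 0), real_ext real_zero a, by simp [ext]; simpa using hr, ?_, ?_⟩
    · intro j hj
      match j, hj with
      | (j + 2), _ => simp [ext]
    · intro j hj
      match j, hj with
      | 1, _ => simp [ext]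
      | (j + 2), _ => simp [ext]
  | succ k ih =>
    intro a r hr
    have hp : 0 < m ^ k := by positivity
    obtain ⟨g, hg, hg1, hg2, hg3⟩ := ih (r / m ^ k) (r % m ^ k) (Nat.mod_lt _ hp)
    have hq : r / m ^ k < m := by
      rw [Nat.div_lt_iff_lt_mul hp]; rwa [pow_succ, mul_comm] at hr
    have hg1' : g (k + 1) = r := by rw [hg1, mul_comm]; exact Nat.div_add_mod r _
    have hP : 0 < (m + 1) ^ k := by positivity
    have hg4 : ∀ j, 1 ≤ j → g j ≤ 2 * (m + 1) ^ (k + 1) := fun j hj => by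
      refine (hg3 j hj).trans ?_
      rw [pow_succ]
      have : r / m ^ k + 5 ≤ 2 * (m + 1) := by omega
      nlinarith
    refine ⟨fun j => ext a (blk m (k + 1)) j + ext 1 g j,
      real_add (real_ext (real_blk _ _) _) (real_ext hg _), ?_, ?_, ?_⟩
    · simp only [ext]
      rw [blk_top, blk_gt _ _ _ (by omega), hg1', hg2 _ (by omega)]
      ring
    · intro j hj
      match j, hj with
      | (j + 2), hj =>
        simp only [ext]
        rw [blk_gt _ _ _ (by omega), blk_gt _ _ _ (by omega), hg2 _ (by omega), hg2 _ (by omega)]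
        simp
    · intro j hj
      have h1 := ext_le (f := blk m (k + 1)) (E := (m + 1) ^ (k + 1)) (Nat.one_le_pow _ _ (by omega))
        (fun j _ => blk_le _ _ _) a j hj
      have h2 := ext_le (f := g) (E := 2 * (m + 1) ^ (k + 1))
        (by have := Nat.one_le_pow (k + 1) (m + 1) (by omega); omega) hg4 1 j hj
      simp only
      nlinarith

lemma pow_bd (p : ℕ) : (p + 3) ^ p ≤ 3 * (p + 2) ^ p := by
  have h1 : ((p : ℝ) + 3) ≤ (p + 2) * Real.exp (1 / (p + 2)) := by
    have := Real.add_one_le_exp (1 / ((p : ℝ) + 2))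
    have hp : (0 : ℝ) < p + 2 := by positivity
    calc ((p : ℝ) + 3) = (p + 2) * (1 / (p + 2) + 1) := by field_simp; ring
      _ ≤ _ := by gcongr
  have h2 : ((p : ℝ) + 3) ^ p ≤ ((p + 2) * Real.exp (1 / (p + 2))) ^ p := by gcongr
  rw [mul_pow, ← Real.exp_nat_mul] at h2
  have h3 : Real.exp (p * (1 / ((p : ℝ) + 2))) ≤ 3 := by
    have : (p : ℝ) * (1 / (p + 2)) ≤ 1 := by
      rw [mul_one_div, div_le_one (by positivity)]; linarith
    calc _ ≤ Real.exp 1 := Real.exp_le_exp.2 this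
      _ ≤ 3 := by have := Real.exp_one_lt_d9; linarith
  have h4 : ((p : ℝ) + 3) ^ p ≤ 3 * (p + 2) ^ p := by
    refine h2.trans ?_
    rw [mul_comm]; gcongr
  exact_mod_cast h4

def Inv (p : ℕ) (t : ℕ → ℕ) (k : ℕ) : Prop :=
  ∃ a b : ℕ → ℕ, RealS a ∧ RealS b ∧ (∀ j, k + 1 ≤ j → j ≤ p + 2 → a j + b j = t j) ∧
    (∀ j, p + 2 < j → a j + b j = 0) ∧
    (∀ j, 1 ≤ j → j < k + 1 → (p + 2) * a j ≤ (j + 1) * a (j + 1)) ∧
    ∀ j, 1 ≤ j → b j + 4 * (p + 3) ^ k ≤ 10 * (p + 3) ^ p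

lemma inv_base (p : ℕ) (hp : 29 ≤ p) (t : ℕ → ℕ) (ht : t (p + 2) = (p + 3) * (p + 2) ^ (p + 1))
    (h1 : (p + 3) * (p + 2) ^ (p + 1) ≤ t (p + 1) + (p + 2))
    (h2 : t (p + 1) + 1 ≤ (p + 3) * (p + 2) ^ (p + 1) + (p + 2)) : Inv p t p := by
  have hX : p + 2 ≤ (p + 2) ^ p := Nat.le_self_pow (by omega) _
  have hpos : 0 < (p + 2) ^ p := by positivity
  have ha : ext (p + 3) (blk (p + 2) (p + 1)) (p + 1) + (p + 2) ^ p =
      (p + 3) * (p + 2) ^ (p + 1) := by
    obtain ⟨q, rfl⟩ : ∃ q, p = q + 1 := ⟨p - 1, by omega⟩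
    show blk _ _ (q + 2) + _ * blk _ _ (q + 1) + _ = _
    unfold blk
    rw [Nat.choose_self, Nat.choose_succ_self_right]
    ring
  set A := ext (p + 3) (blk (p + 2) (p + 1)) (p + 1) with hA
  set r := t (p + 1) - A with hr
  obtain ⟨f, hf, hf1, hf2, hf3⟩ := rem (p + 2) (by omega) p (r / (p + 2) ^ p) (r % (p + 2) ^ p)
    (Nat.mod_lt _ hpos)
  have hq : r / (p + 2) ^ p < 2 := by
    rw [Nat.div_lt_iff_lt_mul hpos]; omega
  have hf1' : f (p + 1) = r := by rw [hf1, mul_comm]; exact Nat.div_add_mod r _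
  refine ⟨ext (p + 3) (blk (p + 2) (p + 1)), f, real_ext (real_blk _ _) _, hf, ?_, ?_, ?_, ?_⟩
  · intro j hj1 hj2
    rcases (show j = p + 1 ∨ j = p + 2 by omega) with rfl | rfl
    · rw [hf1', ← hA]; omega
    · rw [hf2 _ (by omega), ht]
      simp only [ext]
      rw [blk_top, blk_gt _ _ _ (by omega)]; simp
  · intro j hj
    rw [hf2 _ (by omega)]
    match j, hj with
    | (j + 2), hj =>
      simp only [ext]
      rw [blk_gt _ _ _ (by omega), blk_gt _ _ _ (by omega)]; simp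
  · intro j hj1 hj2
    match j, hj1, hj2 with
    | 1, _, _ =>
      simp only [ext]
      have := blk_good (p + 2) (p + 1) 0 (by omega)
      simp only [blk, Nat.choose_zero_right, pow_zero, mul_one, zero_add, one_mul] at this
      have e : blk (p + 2) (p + 1) 1 = (p + 1).choose 1 * (p + 2) ^ 1 := rfl
      simp only [zero_add]
      rw [← e] at this
      nlinarith [Nat.zero_le (blk (p + 2) (p + 1) 2)]
    | (j + 2), _, hj2 =>
      simp only [ext]
      have := blk_good (p + 2) (p + 1) (j + 1) (by omega)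
      have e : j + 1 + 1 = j + 2 := rfl
      rw [e] at this
      have h5 := Nat.mul_le_mul_left (p + 3) this
      have e2 : j + 2 + 1 = j + 3 := rfl
      have e3 : j + 1 + 2 = j + 3 := rfl
      simp only [e, e2, e3]
      nlinarith [Nat.zero_le (blk (p + 2) (p + 1) (j + 3)), Nat.zero_le (blk (p + 2) (p + 1) (j + 2))]
  · intro j hj
    have := hf3 j hj
    have h6 : (r / (p + 2) ^ p + 5) * (p + 2 + 1) ^ p ≤ 6 * (p + 3) ^ p :=
      Nat.mul_le_mul_right _ (by omega)
    omega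

lemma inv_step (p : ℕ) (hp : 29 ≤ p) (t : ℕ → ℕ) (k : ℕ) (hk : k + 1 ≤ p)
    (h1 : (p + 3) * (p + 2) ^ (p + 1) ≤ t (k + 1) + (p + 2))
    (h2 : t (k + 2) ≤ (p + 3) * (p + 2) ^ (p + 1) + (p + 2)) (h : Inv p t (k + 1)) :
    Inv p t k := by
  obtain ⟨a, b, ha, hb, e1, e2, e3, e4⟩ := h
  have hX : p + 2 ≤ (p + 2) ^ p := Nat.le_self_pow (by omega) _
  have hbd := pow_bd p
  have hpos : 0 < (p + 2) ^ (k + 1) := by positivity
  have hpos' : 0 < (p + 2) ^ k := by positivity
  have hle : a (k + 1) + b (k + 1) ≤ t (k + 1) := by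
    have i1 := e3 (k + 1) (by omega) (by omega)
    have i2 := e1 (k + 2) (by omega) (by omega)
    have i3 := e4 (k + 1) (by omega)
    have i4 : a (k + 1 + 1) ≤ (p + 3) * (p + 2) ^ (p + 1) + (p + 2) := by
      have : a (k + 1 + 1) = a (k + 2) := rfl
      omega
    have i5 : (p + 2) * a (k + 1) ≤ (p + 1) * ((p + 3) * (p + 2) ^ (p + 1) + (p + 2)) :=
      i1.trans (Nat.mul_le_mul (by omega) i4)
    have i6 : a (k + 1) ≤ (p + 1) * ((p + 3) * (p + 2) ^ p + 1) := by
      refine Nat.le_of_mul_le_mul_left (c := p + 2) ?_ (by omega)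
      refine i5.trans (le_of_eq ?_)
      ring
    have i7 : b (k + 1) ≤ 30 * (p + 2) ^ p := by omega
    have i8 : (p + 3) * (p + 2) ^ (p + 1) =
        (p + 1) * ((p + 3) * (p + 2) ^ p) + (p + 3) * (p + 2) ^ p := by ring
    have i9 : 32 * (p + 2) ^ p ≤ (p + 3) * (p + 2) ^ p := Nat.mul_le_mul_right _ (by omega)
    rw [mul_add] at i6
    omega
  set r := t (k + 1) - (a (k + 1) + b (k + 1)) with hr
  set r' := r % (p + 2) ^ (k + 1) with hr'
  have hr'lt : r' < (p + 2) ^ (k + 1) := Nat.mod_lt _ hpos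
  obtain ⟨f, hf, hf1, hf2, hf3⟩ := rem (p + 2) (by omega) k (r' / (p + 2) ^ k) (r' % (p + 2) ^ k)
    (Nat.mod_lt _ hpos')
  have hq : r' / (p + 2) ^ k < p + 2 := by
    rw [Nat.div_lt_iff_lt_mul hpos']; rwa [pow_succ, mul_comm] at hr'lt
  have hf1' : f (k + 1) = r' := by rw [hf1, mul_comm]; exact Nat.div_add_mod r' _
  refine ⟨fun j => a j + (r / (p + 2) ^ (k + 1)) * blk (p + 2) (k + 1) j, fun j => b j + f j,
    real_add ha (real_mul (real_blk _ _) _), real_add hb hf, ?_, ?_, ?_, ?_⟩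
  · intro j hj1 hj2
    simp only
    rcases (show j = k + 1 ∨ k + 1 < j by omega) with rfl | hj
    · rw [blk_top, hf1']
      have := Nat.div_add_mod r ((p + 2) ^ (k + 1))
      rw [mul_comm] at this
      omega
    · rw [blk_gt _ _ _ hj, hf2 _ hj]
      have := e1 j (by omega) hj2
      omega
  · intro j hj
    simp only
    rw [blk_gt _ _ _ (by omega), hf2 _ (by omega)]
    have := e2 j hj
    omega
  · intro j hj1 hj2
    simp only
    have i1 := e3 j hj1 (by omega)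
    have i2 := Nat.mul_le_mul_left (r / (p + 2) ^ (k + 1)) (blk_good (p + 2) (k + 1) j hj2)
    nlinarith
  · intro j hj
    simp only
    have i1 := e4 j hj
    have i2 := hf3 j hj
    have i3 : (r' / (p + 2) ^ k + 5) * (p + 2 + 1) ^ k ≤ (2 * (p + 3)) * (p + 3) ^ k :=
      Nat.mul_le_mul_right _ (by omega)
    have i4 : (p + 3) ^ (k + 1) = (p + 3) * (p + 3) ^ k := by ring
    have i5 : 2 * (p + 3) ^ k ≤ (p + 3) * (p + 3) ^ k := Nat.mul_le_mul_right _ (by omega)
    rw [mul_assoc] at i3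
    omega

lemma main (p : ℕ) (hp : 29 ≤ p) (t : ℕ → ℕ) (ht : t (p + 2) = (p + 3) * (p + 2) ^ (p + 1))
    (h1 : ∀ j, 1 ≤ j → j ≤ p + 2 → (p + 3) * (p + 2) ^ (p + 1) ≤ t j + (p + 2))
    (h2 : ∀ j, 1 ≤ j → j ≤ p + 2 → t j + 1 ≤ (p + 3) * (p + 2) ^ (p + 1) + (p + 2)) :
    ∃ f, RealS f ∧ (∀ j, 1 ≤ j → j ≤ p + 2 → f j = t j) ∧ ∀ j, p + 2 < j → f j = 0 := by
  have key : ∀ d, d ≤ p → Inv p t (p - d) := by
    intro d
    induction d with
    | zero => intro _; exact inv_base p hp t ht (h1 _ (by omega) (by omega)) (h2 _ (by omega) (by omega))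
    | succ d ih =>
      intro hd
      refine inv_step p hp t _ (by omega) (h1 _ (by omega) (by omega)) ?_ ?_
      · have := h2 (p - (d + 1) + 2) (by omega) (by omega); omega
      · have := ih (by omega)
        rwa [show p - d = p - (d + 1) + 1 by omega] at this
  obtain ⟨a, b, ha, hb, e1, e2, -, -⟩ := key p le_rfl
  exact ⟨fun j => a j + b j, real_add ha hb, fun j i1 i2 => e1 j (by omega) i2, e2⟩

end Pool.Agent.H10.Wk
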