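import Pool.Agent.H10.WqoDefs
import Pool.Agent.H10.Plane

set_option autoImplicit false

namespace Pool.Agent.H10.Wqo
open Pool.Agent.H10.Plane

def a (i : ℕ) : ℤ := if i = 0 then 0 else 10 * i - 2
def c (n j : ℕ) : ℤ := if j + 1 = n then 4 - 10 * j else 2 - 10 * j

def Sz (n : ℕ) : Finset (ℤ × ℤ) :=
  (Finset.range n).image (fun i => (a i, 0)) ∪ (Finset.range n).image (fun j => (c n j, 2)) ∪
    {(0, 1), (1, 1), (5, 1)}

lemma mem_Sz (n : ℕ) (p : ℤ × ℤ) : p ∈ Sz n ↔ (p.2 = 0 ∧ ∃ i < n, p.1 = a i) ∨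
    (p.2 = 2 ∧ ∃ j < n, p.1 = c n j) ∨ (p.2 = 1 ∧ (p.1 = 0 ∨ p.1 = 1 ∨ p.1 = 5)) := by
  obtain ⟨x, y⟩ := p
  simp only [Sz, Finset.mem_union, Finset.mem_image, Finset.mem_range, Prod.mk.injEq,
    Finset.mem_insert, Finset.mem_singleton]
  constructor
  · rintro ((⟨i, h, rfl, rfl⟩ | ⟨i, h, rfl, rfl⟩) | h)
    · exact Or.inl ⟨rfl, i, h, rfl⟩
    · exact Or.inr (Or.inl ⟨rfl, i, h, rfl⟩)
    · tauto
  · rintro (⟨rfl, i, h, rfl⟩ | ⟨rfl, i, h, rfl⟩ | h)
    · exact Or.inl (Or.inl ⟨i, h, rfl, rfl⟩)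
    · exact Or.inl (Or.inr ⟨i, h, rfl, rfl⟩)
    · tauto

lemma edge (m i j : ℕ) (_hm : 5 ≤ m) (hi : i < m) (_hj : j < m) (u : ℤ)
    (h : a i + c m j = 2 * u) : (u = 0 → i = j) ∧ (u = 1 → i = j ∧ (i = 0 ∨ i + 1 = m)) ∧
      (u = 5 → i = j + 1) := by
  unfold a c at h
  split_ifs at h <;> omega

lemma type1 (n m : ℕ) (hn : 5 ≤ n) (hm : 5 ≤ m) (f g : ℕ → ℕ) (u0 u1 u5 : ℤ)
    (hf : ∀ i < n, f i < m) (hg : ∀ i < n, g i < m)
    (inj : ∀ i < n, ∀ j < n, f i = f j → i = j)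
    (h0 : u0 = 0 ∨ u0 = 1 ∨ u0 = 5) (h1 : u1 = 0 ∨ u1 = 1 ∨ u1 = 5) (h5 : u5 = 0 ∨ u5 = 1 ∨ u5 = 5)
    (d01 : u0 ≠ u1) (d05 : u0 ≠ u5) (d15 : u1 ≠ u5)
    (e0 : ∀ i, 1 ≤ i → i + 1 < n → a (f i) + c m (g i) = 2 * u0)
    (e1 : ∀ i, i = 0 ∨ i + 1 = n → a (f i) + c m (g i) = 2 * u1)
    (e5 : ∀ i, i + 1 < n → a (f (i + 1)) + c m (g i) = 2 * u5) : n = m := by
  have E0 := fun i (x : 1 ≤ i) (y : i + 1 < n) =>
    edge m _ _ hm (hf i (by omega)) (hg i (by omega)) _ (e0 i x y)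
  have E1 := fun i (x : i = 0 ∨ i + 1 = n) =>
    edge m _ _ hm (hf i (by omega)) (hg i (by omega)) _ (e1 i x)
  have E5 := fun i (y : i + 1 < n) =>
    edge m _ _ hm (hf (i + 1) (by omega)) (hg i (by omega)) _ (e5 i y)
  have i12 := inj 1 (by omega) 2 (by omega)
  have i13 := inj 1 (by omega) 3 (by omega)
  have i23 := inj 2 (by omega) 3 (by omega)
  have i01 := inj 0 (by omega) 1 (by omega)
  have n0 : u0 ≠ 1 := fun h => by
    have := (E0 1 (by omega) (by omega)).2.1 h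
    have := (E0 2 (by omega) (by omega)).2.1 h
    have := (E0 3 (by omega) (by omega)).2.1 h
    omega
  have n5 : u5 ≠ 1 := fun h => by
    have x := (E5 0 (by omega)).2.1 h
    have y := (E5 1 (by omega)).2.1 h
    have z := (E5 2 (by omega)).2.1 h
    simp only [Nat.reduceAdd] at x y z
    omega
  have v1 : u1 = 1 := by omega
  have s0 := (E1 0 (Or.inl rfl)).2.1 v1
  have sl := (E1 (n - 1) (by omega)).2.1 v1
  have n50 : u5 ≠ 0 := fun h => by
    have x := (E5 0 (by omega)).1 h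
    simp only [Nat.reduceAdd] at x
    omega
  have v5 : u5 = 5 := by omega
  have v0 : u0 = 0 := by omega
  have key : ∀ i < n, f i = f 0 + i := by
    intro i
    induction i with
    | zero => intro _; rfl
    | succ i ih =>
      intro hi
      have x := (E5 i hi).2.2 v5
      have y : f i = g i := by
        by_cases e : i = 0
        · rw [e]; exact s0.1
        · exact (E0 i (by omega) hi).1 v0
      have := ih (by omega)
      omega
  have := key (n - 1) (by omega)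
  have := hf (n - 1) (by omega)
  omega

lemma type2 (n m : ℕ) (hn : 5 ≤ n) (hm : 5 ≤ m) (f g : ℕ → ℕ) (u0 u1 u5 : ℤ)
    (hf : ∀ i < n, f i < m) (hg : ∀ i < n, g i < m)
    (inj : ∀ i < n, ∀ j < n, f i = f j → i = j)
    (h0 : u0 = 0 ∨ u0 = 1 ∨ u0 = 5) (h1 : u1 = 0 ∨ u1 = 1 ∨ u1 = 5) (h5 : u5 = 0 ∨ u5 = 1 ∨ u5 = 5)
    (d01 : u0 ≠ u1) (d05 : u0 ≠ u5) (d15 : u1 ≠ u5)
    (e0 : ∀ i, 1 ≤ i → i + 1 < n → a (g i) + c m (f i) = 2 * u0)
    (e1 : ∀ i, i = 0 ∨ i + 1 = n → a (g i) + c m (f i) = 2 * u1)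
    (e5 : ∀ i, i + 1 < n → a (g i) + c m (f (i + 1)) = 2 * u5) : n = m := by
  have E0 := fun i (x : 1 ≤ i) (y : i + 1 < n) =>
    edge m _ _ hm (hg i (by omega)) (hf i (by omega)) _ (e0 i x y)
  have E1 := fun i (x : i = 0 ∨ i + 1 = n) =>
    edge m _ _ hm (hg i (by omega)) (hf i (by omega)) _ (e1 i x)
  have E5 := fun i (y : i + 1 < n) =>
    edge m _ _ hm (hg i (by omega)) (hf (i + 1) (by omega)) _ (e5 i y)
  have i12 := inj 1 (by omega) 2 (by omega)
  have i13 := inj 1 (by omega) 3 (by omega)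
  have i23 := inj 2 (by omega) 3 (by omega)
  have i01 := inj 0 (by omega) 1 (by omega)
  have n0 : u0 ≠ 1 := fun h => by
    have := (E0 1 (by omega) (by omega)).2.1 h
    have := (E0 2 (by omega) (by omega)).2.1 h
    have := (E0 3 (by omega) (by omega)).2.1 h
    omega
  have n5 : u5 ≠ 1 := fun h => by
    have x := (E5 0 (by omega)).2.1 h
    have y := (E5 1 (by omega)).2.1 h
    have z := (E5 2 (by omega)).2.1 h
    simp only [Nat.reduceAdd] at x y z
    omega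
  have v1 : u1 = 1 := by omega
  have s0 := (E1 0 (Or.inl rfl)).2.1 v1
  have sl := (E1 (n - 1) (by omega)).2.1 v1
  have n50 : u5 ≠ 0 := fun h => by
    have x := (E5 0 (by omega)).1 h
    simp only [Nat.reduceAdd] at x
    omega
  have v5 : u5 = 5 := by omega
  have v0 : u0 = 0 := by omega
  have key : ∀ i < n, f i + i = f 0 := by
    intro i
    induction i with
    | zero => intro _; rfl
    | succ i ih =>
      intro hi
      have x := (E5 i hi).2.2 v5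
      have y : g i = f i := by
        by_cases e : i = 0
        · rw [e]; exact s0.1
        · exact (E0 i (by omega) hi).1 v0
      have := ih (by omega)
      omega
  have := key (n - 1) (by omega)
  have := hf 0 (by omega)
  omega

lemma same_h (p q r : ℤ × ℤ) (h : oz p q r = 0) (e : p.2 = q.2) (ne : p ≠ q) : r.2 = p.2 := by
  unfold oz at h
  rw [e, sub_self, zero_mul, sub_zero, mul_eq_zero] at h
  rcases h with h | h
  · exact absurd (Prod.ext (by omega) e) ne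
  · omega

/-- the images of at least four points of a line lie on one of the outer lines -/
lemma line_h (n m : ℕ) (hn : 5 ≤ n) (P : ℕ → ℤ × ℤ) (hP : ∀ i < n, P i ∈ Sz m)
    (inj : ∀ i < n, ∀ j < n, P i = P j → i = j)
    (col : ∀ i < n, ∀ j < n, ∀ k < n, oz (P i) (P j) (P k) = 0) :
    (∀ i < n, (P i).2 = 0) ∨ ∀ i < n, (P i).2 = 2 := by
  have hh : ∀ i < n, (P i).2 = 0 ∨ (P i).2 = 2 ∨ (P i).2 = 1 := fun i hi => by
    have := (mem_Sz m _).mp (hP i hi); tauto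
  have ex : ∃ i < n, ∃ j < n, i ≠ j ∧ (P i).2 = (P j).2 := by
    have h0 := hh 0 (by omega)
    have h1 := hh 1 (by omega)
    have h2 := hh 2 (by omega)
    have h3 := hh 3 (by omega)
    by_contra hc
    push Not at hc
    have := hc 0 (by omega) 1 (by omega) (by omega)
    have := hc 0 (by omega) 2 (by omega) (by omega)
    have := hc 0 (by omega) 3 (by omega) (by omega)
    have := hc 1 (by omega) 2 (by omega) (by omega)
    have := hc 1 (by omega) 3 (by omega) (by omega)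
    have := hc 2 (by omega) 3 (by omega) (by omega)
    omega
  obtain ⟨i, hi, j, hj, ij, e⟩ := ex
  have all : ∀ k < n, (P k).2 = (P i).2 := fun k hk =>
    same_h _ _ _ (col i hi j hj k hk) e fun h => ij (inj i hi j hj h)
  rcases hh i hi with h | h | h
  · exact Or.inl fun k hk => by rw [all k hk, h]
  · exact Or.inr fun k hk => by rw [all k hk, h]
  · exfalso
    have hx : ∀ k < n, (P k).1 = 0 ∨ (P k).1 = 1 ∨ (P k).1 = 5 := fun k hk => by
      have h1 := (mem_Sz m _).mp (hP k hk)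
      have h2 := all k hk
      rcases h1 with h1 | h1 | h1
      · omega
      · omega
      · exact h1.2
    have ne : ∀ k < n, ∀ l < n, k ≠ l → (P k).1 ≠ (P l).1 := fun k hk l hl kl h =>
      kl (inj k hk l hl (Prod.ext h (by rw [all k hk, all l hl])))
    have := hx 0 (by omega)
    have := hx 1 (by omega)
    have := hx 2 (by omega)
    have := hx 3 (by omega)
    have := ne 0 (by omega) 1 (by omega) (by omega)
    have := ne 0 (by omega) 2 (by omega) (by omega)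
    have := ne 0 (by omega) 3 (by omega) (by omega)
    have := ne 1 (by omega) 2 (by omega) (by omega)
    have := ne 1 (by omega) 3 (by omega) (by omega)
    have := ne 2 (by omega) 3 (by omega) (by omega)
    omega

lemma mid (m : ℕ) (p q r : ℤ × ℤ) (hq : q ∈ Sz m) (h : oz p q r = 0) (pq : p ≠ q) (qr : q ≠ r)
    (e : (p.2 = 0 ∧ r.2 = 2) ∨ (p.2 = 2 ∧ r.2 = 0)) :
    q.2 = 1 ∧ (q.1 = 0 ∨ q.1 = 1 ∨ q.1 = 5) ∧ p.1 + r.1 = 2 * q.1 := by
  obtain ⟨p1, p2⟩ := p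
  obtain ⟨q1, q2⟩ := q
  obtain ⟨r1, r2⟩ := r
  simp only [oz, ne_eq, Prod.mk.injEq] at *
  rcases (mem_Sz m _).mp hq with ⟨h1, -⟩ | ⟨h1, -⟩ | ⟨h1, h2⟩ <;> simp only at h1 <;>
    rcases e with ⟨rfl, rfl⟩ | ⟨rfl, rfl⟩ <;> subst h1
  · omega
  · omega
  · omega
  · omega
  · exact ⟨rfl, h2, by omega⟩
  · exact ⟨rfl, h2, by omega⟩

lemma a_inj (i j : ℕ) (h : a i = a j) : i = j := by unfold a at h; split_ifs at h <;> omega

lemma c_inj (n i j : ℕ) (h : c n i = c n j) : i = j := by unfold c at h; split_ifs at h <;> omega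

theorem rigid (n m : ℕ) (hn : 5 ≤ n) (hm : 5 ≤ m) (ψ : ℤ × ℤ → ℤ × ℤ)
    (hψ : ∀ p ∈ Sz n, ψ p ∈ Sz m) (inj : ∀ p ∈ Sz n, ∀ q ∈ Sz n, ψ p = ψ q → p = q)
    (col : ∀ p ∈ Sz n, ∀ q ∈ Sz n, ∀ r ∈ Sz n, oz (ψ p) (ψ q) (ψ r) = 0 ↔ oz p q r = 0) :
    n = m := by
  have mA : ∀ i < n, (a i, (0 : ℤ)) ∈ Sz n := fun i hi =>
    (mem_Sz n _).mpr (Or.inl ⟨rfl, i, hi, rfl⟩)
  have mC : ∀ i < n, (c n i, (2 : ℤ)) ∈ Sz n := fun i hi =>
    (mem_Sz n _).mpr (Or.inr (Or.inl ⟨rfl, i, hi, rfl⟩))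
  have mM : ∀ u : ℤ, u = 0 ∨ u = 1 ∨ u = 5 → (u, (1 : ℤ)) ∈ Sz n := fun u hu =>
    (mem_Sz n _).mpr (Or.inr (Or.inr ⟨rfl, hu⟩))
  have iA : ∀ i < n, ∀ j < n, ψ (a i, 0) = ψ (a j, 0) → i = j := fun i hi j hj h =>
    a_inj i j (congrArg Prod.fst (inj _ (mA i hi) _ (mA j hj) h))
  have iC : ∀ i < n, ∀ j < n, ψ (c n i, 2) = ψ (c n j, 2) → i = j := fun i hi j hj h =>
    c_inj n i j (congrArg Prod.fst (inj _ (mC i hi) _ (mC j hj) h))
  have hA := line_h n m hn (fun i => ψ (a i, 0)) (fun i hi => hψ _ (mA i hi)) iA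
    (fun i hi j hj k hk => (col _ (mA i hi) _ (mA j hj) _ (mA k hk)).mpr (by simp [oz]))
  have hC := line_h n m hn (fun i => ψ (c n i, 2)) (fun i hi => hψ _ (mC i hi)) iC
    (fun i hi j hj k hk => (col _ (mC i hi) _ (mC j hj) _ (mC k hk)).mpr (by simp [oz]))
  have nc : ¬ ((ψ (a 0, 0)).2 = (ψ (a 1, 0)).2 ∧ (ψ (a 0, 0)).2 = (ψ (c n 0, 2)).2) := by
    rintro ⟨x, y⟩
    have := (col _ (mA 0 (by omega)) _ (mA 1 (by omega)) _ (mC 0 (by omega))).mp
      (by unfold oz; rw [← x, ← y]; ring)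
    simp [oz, a] at this
  have hh : ((∀ i < n, (ψ (a i, 0)).2 = 0) ∧ ∀ i < n, (ψ (c n i, 2)).2 = 2) ∨
      ((∀ i < n, (ψ (a i, 0)).2 = 2) ∧ ∀ i < n, (ψ (c n i, 2)).2 = 0) := by
    rcases hA with x | x <;> rcases hC with y | y
    · exact absurd ⟨by rw [x 0 (by omega), x 1 (by omega)],
        by rw [x 0 (by omega), y 0 (by omega)]⟩ nc
    · exact Or.inl ⟨x, y⟩
    · exact Or.inr ⟨x, y⟩
    · exact absurd ⟨by rw [x 0 (by omega), x 1 (by omega)],
        by rw [x 0 (by omega), y 0 (by omega)]⟩ nc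
  have ed : ∀ i < n, ∀ j < n, ∀ u : ℤ, u = 0 ∨ u = 1 ∨ u = 5 → a i + c n j = 2 * u →
      (ψ (u, 1)).2 = 1 ∧ ((ψ (u, 1)).1 = 0 ∨ (ψ (u, 1)).1 = 1 ∨ (ψ (u, 1)).1 = 5) ∧
        (ψ (a i, 0)).1 + (ψ (c n j, 2)).1 = 2 * (ψ (u, 1)).1 := by
    intro i hi j hj u hu h
    refine mid m _ _ _ (hψ _ (mM u hu))
      ((col _ (mA i hi) _ (mM u hu) _ (mC j hj)).mpr (by simp only [oz]; omega))
      (fun e => by simpa using inj _ (mA i hi) _ (mM u hu) e)
      (fun e => by simpa using inj _ (mM u hu) _ (mC j hj) e) ?_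
    rcases hh with ⟨x, y⟩ | ⟨x, y⟩
    · exact Or.inl ⟨x i hi, y j hj⟩
    · exact Or.inr ⟨x i hi, y j hj⟩
  have e0 : ∀ i, 1 ≤ i → i + 1 < n → _ := fun i x y =>
    ed i (by omega) i (by omega) 0 (by simp) (by unfold a c; split_ifs <;> omega)
  have e1 : ∀ i, i = 0 ∨ i + 1 = n → _ := fun i x =>
    ed i (by omega) i (by omega) 1 (by simp) (by unfold a c; split_ifs <;> omega)
  have e5 : ∀ i, i + 1 < n → _ := fun i y =>
    ed (i + 1) (by omega) i (by omega) 5 (by simp)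
      (by rw [a, c, if_neg (by omega), if_neg (by omega)]; push_cast; ring)
  have b0 := e0 1 (by omega) (by omega)
  have b1 := e1 0 (by omega)
  have b5 := e5 0 (by omega)
  have dd : ∀ u v : ℤ, u = 0 ∨ u = 1 ∨ u = 5 → v = 0 ∨ v = 1 ∨ v = 5 → u ≠ v →
      (ψ (u, 1)).2 = 1 → (ψ (v, 1)).2 = 1 → (ψ (u, 1)).1 ≠ (ψ (v, 1)).1 :=
    fun u v hu hv uv x y h => uv (congrArg Prod.fst (inj _ (mM u hu) _ (mM v hv)
      (Prod.ext h (by rw [x, y]))))
  have d01 := dd 0 1 (by simp) (by simp) (by simp) b0.1 b1.1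
  have d05 := dd 0 5 (by simp) (by simp) (by simp) b0.1 b5.1
  have d15 := dd 1 5 (by simp) (by simp) (by simp) b1.1 b5.1
  have oa : ∀ p ∈ Sz m, p.2 = 0 → ∃ i < m, p.1 = a i := fun p hp h => by
    rcases (mem_Sz m p).mp hp with x | x | x
    · exact x.2
    · omega
    · omega
  have oc : ∀ p ∈ Sz m, p.2 = 2 → ∃ i < m, p.1 = c m i := fun p hp h => by
    rcases (mem_Sz m p).mp hp with x | x | x
    · omega
    · exact x.2
    · omega
  rcases hh with ⟨x, y⟩ | ⟨x, y⟩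
  · choose! f hf hf' using fun i hi => oa _ (hψ _ (mA i hi)) (x i hi)
    choose! g hg hg' using fun i hi => oc _ (hψ _ (mC i hi)) (y i hi)
    refine type1 n m hn hm f g _ _ _ hf hg (fun i hi j hj h => iA i hi j hj
      (Prod.ext (by rw [hf' i hi, hf' j hj, h]) (by rw [x i hi, x j hj]))) b0.2.1 b1.2.1 b5.2.1
      d01 d05 d15 (fun i p q => ?_) (fun i p => ?_) (fun i q => ?_)
    · rw [← hf' i (by omega), ← hg' i (by omega)]; exact (e0 i p q).2.2
    · rw [← hf' i (by omega), ← hg' i (by omega)]; exact (e1 i p).2.2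
    · rw [← hf' (i + 1) (by omega), ← hg' i (by omega)]; exact (e5 i q).2.2
  · choose! f hf hf' using fun i hi => oc _ (hψ _ (mA i hi)) (x i hi)
    choose! g hg hg' using fun i hi => oa _ (hψ _ (mC i hi)) (y i hi)
    refine type2 n m hn hm f g _ _ _ hf hg (fun i hi j hj h => iA i hi j hj
      (Prod.ext (by rw [hf' i hi, hf' j hj, h]) (by rw [x i hi, x j hj]))) b0.2.1 b1.2.1 b5.2.1
      d01 d05 d15 (fun i p q => ?_) (fun i p => ?_) (fun i q => ?_)
    · rw [← hf' i (by omega), ← hg' i (by omega), add_comm]; exact (e0 i p q).2.2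
    · rw [← hf' i (by omega), ← hg' i (by omega), add_comm]; exact (e1 i p).2.2
    · rw [← hf' (i + 1) (by omega), ← hg' i (by omega), add_comm]; exact (e5 i q).2.2

open Classical in
noncomputable def S (n : ℕ) : Finset E := (Sz n).image pt

theorem anti (n m : ℕ) (hn : 5 ≤ n) (hm : 5 ≤ m) (h : SubConf (S n) (S m)) : n = m := by
  classical
  obtain ⟨φ, inj, mp, sg⟩ := h
  have mS : ∀ p ∈ Sz n, pt p ∈ S n := fun p hp => Finset.mem_image_of_mem _ hp
  have ex : ∀ p ∈ Sz n, ∃ q ∈ Sz m, pt q = φ (pt p) := fun p hp =>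
    Finset.mem_image.mp (mp _ (mS p hp))
  choose! ψ h1 h2 using ex
  refine rigid n m hn hm ψ h1 (fun p hp q hq e => pt_inj (inj (mS p hp) (mS q hq)
    (by rw [← h2 p hp, ← h2 q hq, e]))) fun p hp q hq r hr => ?_
  have := sg _ (mS p hp) _ (mS q hq) _ (mS r hr)
  rw [← h2 p hp, ← h2 q hq, ← h2 r hr] at this
  have e1 : ∀ x y z, det (pt x) (pt y) (pt z) = oz x y z := o_pt
  rw [e1, e1] at this
  rw [← Int.cast_eq_zero (α := ℝ), ← sign_eq_zero_iff, this, sign_eq_zero_iff, Int.cast_eq_zero]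

lemma col_h (p q r : ℤ × ℤ) (e1 : p.2 = q.2) (e2 : p.2 = r.2) :
    Collinear ℝ ({pt p, pt q, pt r} : Set E) := by
  rw [collinear_iff_of_mem (p₀ := pt p) (by simp)]
  refine ⟨!₂[1, 0], fun x hx => ?_⟩
  simp only [Set.mem_insert_iff, Set.mem_singleton_iff] at hx
  rcases hx with rfl | rfl | rfl
  · exact ⟨0, by simp⟩
  · exact ⟨(q.1 : ℝ) - p.1, by ext i; fin_cases i <;> simp [pt, e1]⟩
  · exact ⟨(r.1 : ℝ) - p.1, by ext i; fin_cases i <;> simp [pt, e2]⟩

lemma not_ext (X : Set E) (x z b b' : ℤ) (hx : pt (x, 0) ∈ X) (hz : pt (z, 2) ∈ X)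
    (hb' : pt (b', 1) ∈ X) (h : (x + z ≤ 2 * b ∧ b < b') ∨ (2 * b ≤ x + z ∧ b' < b)) :
    pt (b, 1) ∉ (convexHull ℝ X).extremePoints ℝ := by
  intro he
  have cv := convex_convexHull ℝ X
  have m1 := subset_convexHull ℝ X hx
  have m2 := subset_convexHull ℝ X hz
  have m3 := subset_convexHull ℝ X hb'
  by_cases e : x + z = 2 * b
  · have e' : (x : ℝ) + z = 2 * b := by exact_mod_cast e
    have := he.2 m1 m2 ⟨1 / 2, 1 / 2, by norm_num, by norm_num, by norm_num, by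
      ext i; fin_cases i <;> simp [pt] <;> linarith⟩
    simpa using pt_inj this
  · have m4 := cv m1 m2 (show (0 : ℝ) ≤ 1 / 2 by norm_num) (show (0 : ℝ) ≤ 1 / 2 by norm_num)
      (by norm_num)
    have hd : (2 * (b' : ℝ) - (x + z)) ≠ 0 := by
      have : 2 * b' - (x + z) ≠ 0 := by omega
      exact_mod_cast this
    have p1 : 0 < (2 * (b : ℝ) - (x + z)) / (2 * b' - (x + z)) := by
      rcases h with h | h
      · have h1 : 0 < 2 * b - (x + z) := by omega
        have h2 : 0 < 2 * b' - (x + z) := by omega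
        exact div_pos (by exact_mod_cast h1) (by exact_mod_cast h2)
      · have h1 : 2 * b - (x + z) < 0 := by omega
        have h2 : 2 * b' - (x + z) < 0 := by omega
        exact div_pos_of_neg_of_neg (by exact_mod_cast h1) (by exact_mod_cast h2)
    have p2 : 0 < (2 * (b' : ℝ) - 2 * b) / (2 * b' - (x + z)) := by
      rcases h with h | h
      · have h1 : 0 < 2 * b' - 2 * b := by omega
        have h2 : 0 < 2 * b' - (x + z) := by omega
        exact div_pos (by exact_mod_cast h1) (by exact_mod_cast h2)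
      · have h1 : 2 * b' - 2 * b < 0 := by omega
        have h2 : 2 * b' - (x + z) < 0 := by omega
        exact div_pos_of_neg_of_neg (by exact_mod_cast h1) (by exact_mod_cast h2)
    have := he.2 m3 m4 ⟨_, _, p1, p2, by field_simp; ring, by
      ext i; fin_cases i <;> simp [pt] <;> field_simp <;> ring⟩
    have := congrArg Prod.fst (pt_inj this)
    simp only at this
    omega

theorem no_six (n : ℕ) (X : Finset E) (hX : X ⊆ S n) (h : ConvexPos X) :
    X.card < 6 := by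
  classical
  obtain ⟨Y, hY, rfl⟩ := Finset.subset_image_iff.mp hX
  rw [Finset.card_image_of_injective _ pt_inj]
  have mX : ∀ p ∈ Y, pt p ∈ Y.image pt := fun p hp => Finset.mem_image_of_mem _ hp
  have le2 : ∀ k : ℤ, (Y.filter fun p => p.2 = k).card ≤ 2 := by
    intro k
    by_contra hc
    obtain ⟨p, q, r, hp, hq, hr, pq, pr, qr⟩ := Finset.two_lt_card_iff.mp (not_le.mp hc)
    rw [Finset.mem_filter] at hp hq hr
    exact h.1 _ (mX p hp.1) _ (mX q hq.1) _ (mX r hr.1) (pt_inj.ne pq) (pt_inj.ne pr)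
      (pt_inj.ne qr) (col_h p q r (by omega) (by omega))
  have cov : Y ⊆ (Y.filter fun p => p.2 = 0) ∪ (Y.filter fun p => p.2 = 2) ∪
      (Y.filter fun p => p.2 = 1) := by
    intro p hp
    have := (mem_Sz n p).mp (hY hp)
    simp only [Finset.mem_union, Finset.mem_filter]
    tauto
  have c1 := Finset.card_le_card cov
  have c2 := Finset.card_union_le ((Y.filter fun p => p.2 = 0) ∪ (Y.filter fun p => p.2 = 2))
    (Y.filter fun p => p.2 = 1)
  have c3 := Finset.card_union_le (Y.filter fun p => p.2 = 0) (Y.filter fun p => p.2 = 2)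
  have l0 := le2 0
  have l1 := le2 1
  have l2 := le2 2
  by_contra hc
  have two : ∀ k : ℤ, 1 < (Y.filter fun p => p.2 = k).card →
      ∃ x x' : ℤ, x < x' ∧ (x, k) ∈ Y ∧ (x', k) ∈ Y := by
    intro k hk
    obtain ⟨⟨p1, p2⟩, hp, ⟨q1, q2⟩, hq, pq⟩ := Finset.one_lt_card.mp hk
    simp only [Finset.mem_filter] at hp hq
    obtain ⟨hp, rfl⟩ := hp
    obtain ⟨hq, rfl⟩ := hq
    rcases lt_trichotomy p1 q1 with e | e | e
    · exact ⟨_, _, e, hp, hq⟩
    · exact absurd (by rw [e]) pq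
    · exact ⟨_, _, e, hq, hp⟩
  obtain ⟨x, x', xx, hx, hx'⟩ := two 0 (by omega)
  obtain ⟨z, z', zz, hz, hz'⟩ := two 2 (by omega)
  obtain ⟨b, b', bb, hb, hb'⟩ := two 1 (by omega)
  have gx : x + 8 ≤ x' := by
    have h1 := (mem_Sz n _).mp (hY hx)
    have h2 := (mem_Sz n _).mp (hY hx')
    simp only [a] at h1 h2
    obtain ⟨-, i, -, h1⟩ | h1 | h1 := h1 <;> obtain ⟨-, j, -, h2⟩ | h2 | h2 := h2 <;>
      omega
  have gz : z + 8 ≤ z' := by
    have h1 := (mem_Sz n _).mp (hY hz)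
    have h2 := (mem_Sz n _).mp (hY hz')
    simp only [c] at h1 h2
    obtain h1 | ⟨-, i, -, h1⟩ | h1 := h1 <;> obtain h2 | ⟨-, j, -, h2⟩ | h2 := h2 <;>
      omega
  have gb : b' ≤ b + 5 := by
    have h1 := (mem_Sz n _).mp (hY hb)
    have h2 := (mem_Sz n _).mp (hY hb')
    simp only at h1 h2
    omega
  by_cases e : x + z ≤ 2 * b
  · exact not_ext _ x z b b' (mX _ hx) (mX _ hz) (mX _ hb') (Or.inl ⟨e, bb⟩) (h.2 _ (mX _ hb))
  · exact not_ext _ x' z' b' b (mX _ hx') (mX _ hz') (mX _ hb) (Or.inr ⟨by omega, bb⟩)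
      (h.2 _ (mX _ hb'))

end Pool.Agent.H10.Wqo
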