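import Mathlib

set_option autoImplicit false

namespace Pool.Agent.H10.Wqo

abbrev E := EuclideanSpace ℝ (Fin 2)

/-- orientation determinant of an ordered triple -/
def det (a b c : E) : ℝ := (b 0 - a 0) * (c 1 - a 1) - (b 1 - a 1) * (c 0 - a 0)

/-- `T` is equivalent to a subset of `S` -/
def SubConf (T S : Finset E) : Prop :=
  ∃ φ : E → E, Set.InjOn φ T ∧ (∀ p ∈ T, φ p ∈ S) ∧
    ∀ p ∈ T, ∀ q ∈ T, ∀ r ∈ T, SignType.sign (det (φ p) (φ q) (φ r)) = SignType.sign (det p q r)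

/-- no three points collinear and every point a vertex of the convex hull -/
def ConvexPos (X : Finset E) : Prop :=
  (∀ p ∈ X, ∀ q ∈ X, ∀ r ∈ X, p ≠ q → p ≠ r → q ≠ r → ¬ Collinear ℝ ({p, q, r} : Set E)) ∧
    ∀ p ∈ X, p ∈ (convexHull ℝ (X : Set E)).extremePoints ℝ

end Pool.Agent.H10.Wqo
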